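import Pool.Agent.RRS.Boxes0

/-!
# Cells: data, part 13
-/

set_option autoImplicit false
set_option linter.defProp false

namespace Pool.Agent.RRS

def bl_4_4_64_2 : RootOK 160 192 128 192 64 72 :=
  leafR pieceAt4 pieceAt4 0x2211111111
  0x8037c1b00bb6ca000002c002d278157a530157f1611dfc24249fce800000b0000015fed54abfd35238000000ffb2265ea9482be539f47bca2faf74bfb2000000400000080573b500934fa000002c02192f855734907c60fe03f78340845d7800000b00000160560d340a501d8471b4300a888e01686540000058019261029178e000002c2f2d7c8713dcf0000016000002bfd02e97fcdecd0000001fd0892bd26e267e2922cf4b1b5de30eebc000000800000100c5e7600e214c000005816659f0ca24520daeeb40ad66981d96530000016000002c0aa6eb8171b9d07c0186004651c04031b800052900000160bacdebcdb8aa844d39d0dc5f3604fce3c0000057fff212fee98e9fff0b9c00000074d26851e931edf6f872bd738617f7496d0000002014faac03e17a800b63f00000162acf04bc96c7f802b6a101e2f96003ce5400000581b710d02851520c1cc640174df807efcd00011be013773c135d81801dd030ccc1ba28c1f7c0895c9800000affe0be1fe9288bffc5ff7e106caeacf3d5f0d0f93e0b5fa77f7b44fefee06000000403123f806a5dd002fa660c524145cc05d869a42100fc15e0655004007859800000b035fabe059a50c10fe38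
  (by decide +kernel)

def bl_4_4_64_3 : RootOK 128 192 128 192 72 80 :=
  leafR pieceAt4 pieceAt4 0x42222
  0x8065f91000bc560253a442502388122dceff10171feb561be5bd9e7cb93e2ff5a5aa01973f409122984a175d0129062001797409eb4b813cec507dd8ba01be37c005e308055d93102ffae04984f3fcb76b7f3f172fa7e1b9e75e463fd14b280816a3062c70e1698a1c095edc80076bb024a49606b9fe4121cdd80820a7000f41e04a0e742d4bb7831d9d2ff2ce15fe7fdebcf0ff37d4108efe7a92601bfdc40972998815b2300aa4a2002f8ac0d796c8125787047b746024615400a6e080cae691353cae10e14e3fd41257ed3d82f4ed965e9df48bf69da7809150b086fa8e26aaea40655628014de903046b206072cc01fc7c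
  (by decide +kernel)

def bl_4_4_80_1 : RootOK 128 192 128 192 80 96 :=
  leafR pieceAt4 pieceAt4 0x444
  0x80803fd004bfae1884963fb434d7e17b32fc2f642020100c3109248025fd901fc04a03f80c40f9369807ff21003a1d621f0b8bfc07e27e402b0f842b160275ee435ed3b8070f6901bb5a205f574c062c4e809d76500e1d721af621bfc06a37c21b9afc7f86a020048443dacc801d1cb02faade03779a4062eaa809e5e900f365a2747cf3fcdd6c7bafb4ef75f83a027959c4e90058079b2d02a02e60540293fbf4ea
  (by decide +kernel)

def bl_4_4_96_1 : RootOK 128 192 128 192 96 114 :=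
  leafR pieceAt4 pieceAt4 0x48
  0x80a0c5d0000015fc9dc5c2b30ce80a08c10000016033d41c06780681439530128d36000002bf9a5c985c95f101a7196000910c052bf3817549f00912aa034dd2c0012797f352110b9a20a02510bc00000581745bb014929a011ac3c05d2f48009d98febae1e19bfa8405d1258009e0d025963204b1bdbf9c9e1
  (by decide +kernel)

def bl_4_4_114_1 : RootOK 128 192 128 192 114 116 :=
  leafR pieceAt4 pieceAt4 0x48
  0x80ee6210000015fa3f4dc30bc8280ee37b000001602f3fac05e6cd80b697901a8b7a000002bf4dc3e865c6b9026b342000addc04a5a8817131eff93ede04d81640015617e9ab990cb49320352fbc000005817211d012b0cdff29cbc07f0ed800be34fdb46de1b3d8ac07f3b1800bdad024b5760497b8bf71a36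
  (by decide +kernel)

def bl_4_4_116_1 : RootOK 128 192 128 192 116 120 :=
  leafR pieceAt4 pieceAt4 0x48
  0x8116a450000015f8fe8a431655f811678f000001602fc63405f7ca809d42301e72ce000002bf29e50866920d02bd892000a87404b7848173c72ff710d205845240015dd7e5198d0cee14603d4904000005817245f012b3e1feb558408cfcc800c2e4fd44dfe1b7167c08d04d800c2cf0249dc20493e03f6bb32
  (by decide +kernel)

def bl_4_4_120_1 : RootOK 128 192 128 192 120 124 :=
  leafR pieceAt4 pieceAt4 0x48
  0x81890810000015f57681c32c1a78188da5000001603180cc062f588063dd1026d5ee000002bedca5d867f211036eb16000a72c04c28d8175686ff3f12206e95dc0015077db55150d0be7a04e316c000005817566301308b5fe630140c0e48800adcafba80521b7bb640c0c2f800ae0b026582e04ca843f5dfa0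
  (by decide +kernel)

def bl_4_4_124_1 : RootOK 128 192 128 192 124 128 :=
  leafR pieceAt4 pieceAt4 0x48
  0x81f803b0000015f20783c33d2cf81f7fa30000016031e8f4063d02803e62302d0062000002be73e5086823ed04dfdba0004d2404786381988e4ff07e5a09a6d3c00094f7cf4ff10d0659e0587dfc0000058199df9011dfe5fe072d40ecdb7800a298fa476ee1b74a7c0ecd22800a2a7027385a04e6edbf5882b
  (by decide +kernel)

end Pool.Agent.RRS
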