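import Pool.Agent.RRS.BoxD01
import Pool.Agent.RRS.BoxD02
import Pool.Agent.RRS.BoxD03
import Pool.Agent.RRS.BoxD04
import Pool.Agent.RRS.BoxD05
import Pool.Agent.RRS.BoxD06
import Pool.Agent.RRS.BoxD07
import Pool.Agent.RRS.BoxD08
import Pool.Agent.RRS.BoxD09
import Pool.Agent.RRS.BoxD10
import Pool.Agent.RRS.BoxD11
import Pool.Agent.RRS.BoxD12
import Pool.Agent.RRS.BoxD13

/-!
# All root boxes
-/

set_option autoImplicit false

namespace Pool.Agent.RRS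

open Real

theorem bx_1_1_16_24 : RootOK 0 64 0 64 16 24 :=
  (.joinJ (b := 32) (.joinK (b := 32) (.joinJ (b := 16) (.joinK (b := 16) (.joinJ (b := 8) (.joinM
  (b := 20) (.joinM (b := 18) bl_1_1_16_1 bl_1_1_16_2) bl_1_1_16_3) (.joinK (b := 8) (.empty (by
  decide)) bl_1_1_16_4)) bl_1_1_16_5) (.joinK (b := 16) (.empty (by decide)) bl_1_1_16_6)) (.joinJ
  (b := 16) (.joinK (b := 48) bl_1_1_16_7 bl_1_1_16_8) (.joinK (b := 48) bl_1_1_16_9
  bl_1_1_16_10))) (.joinK (b := 32) (.empty (by decide)) (.joinK (b := 48) (.joinJ (b := 48)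
  (.joinJ (b := 40) bl_1_1_16_11 bl_1_1_16_12) (.empty (by decide))) (.joinJ (b := 48)
  bl_1_1_16_13 (.joinK (b := 56) (.joinJ (b := 56) bl_1_1_16_14 (.empty (by decide))) (.joinM (b
  := 20) (.joinK (b := 60) bl_1_1_16_15 bl_1_1_16_16) bl_1_1_16_17))))))

theorem bx_1_1_24_32 : RootOK 0 64 0 64 24 32 :=
  (.joinJ (b := 32) (.joinK (b := 32) (.joinK (b := 16) (.joinJ (b := 16) (.joinM (b := 28)
  bl_1_1_24_1 bl_1_1_24_2) (.empty (by decide))) (.joinK (b := 24) bl_1_1_24_3 bl_1_1_24_4))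
  (.joinJ (b := 16) bl_1_1_24_5 bl_1_1_24_6)) (.joinK (b := 32) (.empty (by decide)) (.joinJ (b :=
  48) (.joinK (b := 48) bl_1_1_24_7 bl_1_1_24_8) (.joinK (b := 48) (.empty (by decide))
  bl_1_1_24_9))))

theorem bx_1_1_32_40 : RootOK 0 64 0 64 32 40 :=
  (.joinJ (b := 32) (.joinK (b := 32) (.joinK (b := 16) bl_1_1_32_1 bl_1_1_32_2) bl_1_1_32_3)
  (.joinK (b := 32) (.empty (by decide)) (.joinJ (b := 48) bl_1_1_32_4 (.joinK (b := 48) (.empty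
  (by decide)) bl_1_1_32_5))))

theorem bx_1_1_40_48 : RootOK 0 64 0 64 40 48 :=
  (.joinJ (b := 32) (.joinJ (b := 16) (.joinK (b := 32) bl_1_1_40_1 bl_1_1_40_2) (.joinK (b := 32)
  bl_1_1_40_3 bl_1_1_40_4)) (.joinK (b := 32) (.empty (by decide)) (.joinJ (b := 48) bl_1_1_40_5
  bl_1_1_40_6)))

theorem bx_1_1_48_64 : RootOK 0 64 0 64 48 64 :=
  (.joinJ (b := 32) (.joinK (b := 32) (.joinM (b := 56) bl_1_1_48_1 bl_1_1_48_2) (.joinM (b := 56)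
  bl_1_1_48_3 bl_1_1_48_4)) (.joinK (b := 32) (.empty (by decide)) (.joinK (b := 48) bl_1_1_48_5
  (.joinM (b := 56) bl_1_1_48_6 bl_1_1_48_7))))

theorem bx_1_1_64_80 : RootOK 0 64 0 64 64 80 :=
  (.joinJ (b := 32) (.joinK (b := 32) bl_1_1_64_1 bl_1_1_64_2) (.joinK (b := 32) (.empty (by
  decide)) (.joinM (b := 72) bl_1_1_64_3 bl_1_1_64_4)))

theorem bx_1_1_80_96 : RootOK 0 64 0 64 80 96 :=
  (.joinJ (b := 32) (.joinK (b := 32) bl_1_1_80_1 bl_1_1_80_2) (.joinK (b := 32) (.empty (by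
  decide)) (.joinM (b := 88) bl_1_1_80_3 bl_1_1_80_4)))

theorem bx_1_1_96_114 : RootOK 0 64 0 64 96 114 :=
  (.joinJ (b := 32) (.joinK (b := 32) bl_1_1_96_1 bl_1_1_96_2) (.joinK (b := 32) (.empty (by
  decide)) (.joinK (b := 48) bl_1_1_96_3 (.joinJ (b := 48) bl_1_1_96_4 (.joinM (b := 105)
  bl_1_1_96_5 (.joinK (b := 56) bl_1_1_96_6 bl_1_1_96_7))))))

theorem bx_1_1_114_116 : RootOK 0 64 0 64 114 116 :=
  (.joinJ (b := 32) (.joinK (b := 32) bl_1_1_114_1 bl_1_1_114_2) (.joinK (b := 32) (.empty (by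
  decide)) (.joinJ (b := 48) bl_1_1_114_3 (.joinK (b := 48) (.empty (by decide)) (.joinK (b := 56)
  bl_1_1_114_4 (.joinJ (b := 56) bl_1_1_114_5 (tubeR (j0 := 56) (j1 := 64) (k0 := 56) (k1 := 64)
  (m0 := 114) (m1 := 116) (by decide))))))))

theorem bx_1_1_116_120 : RootOK 0 64 0 64 116 120 :=
  (.joinJ (b := 32) (.joinK (b := 32) bl_1_1_116_1 bl_1_1_116_2) (.joinK (b := 32) (.empty (by
  decide)) (.joinJ (b := 48) bl_1_1_116_3 (.joinK (b := 48) (.empty (by decide)) (.joinK (b := 56)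
  bl_1_1_116_4 (.joinJ (b := 56) bl_1_1_116_5 (tubeR (j0 := 56) (j1 := 64) (k0 := 56) (k1 := 64)
  (m0 := 116) (m1 := 120) (by decide))))))))

theorem bx_1_1_120_124 : RootOK 0 64 0 64 120 124 :=
  (.joinJ (b := 32) (.joinK (b := 32) bl_1_1_120_1 bl_1_1_120_2) (.joinK (b := 32) (.empty (by
  decide)) (.joinK (b := 48) bl_1_1_120_3 (.joinJ (b := 48) bl_1_1_120_4 (.joinJ (b := 56)
  bl_1_1_120_5 (.joinK (b := 56) (.empty (by decide)) (tubeR (j0 := 56) (j1 := 64) (k0 := 56) (k1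
  := 64) (m0 := 120) (m1 := 124) (by decide))))))))

theorem bx_1_1_124_128 : RootOK 0 64 0 64 124 128 :=
  (.joinJ (b := 32) (.joinK (b := 32) bl_1_1_124_1 bl_1_1_124_2) (.joinK (b := 32) (.empty (by
  decide)) (.joinK (b := 48) bl_1_1_124_3 (.joinJ (b := 48) bl_1_1_124_4 (.joinK (b := 56)
  bl_1_1_124_5 (.joinJ (b := 56) bl_1_1_124_6 (tubeR (j0 := 56) (j1 := 64) (k0 := 56) (k1 := 64)
  (m0 := 124) (m1 := 128) (by decide))))))))

theorem bx_1_2_16_24 : RootOK 0 64 64 96 16 24 :=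
  (.joinJ (b := 32) (.joinK (b := 80) bl_1_2_16_1 (.joinK (b := 88) bl_1_2_16_2 bl_1_2_16_3))
  (.joinK (b := 80) (.joinK (b := 72) (.joinJ (b := 48) bl_1_2_16_4 (.joinK (b := 68) bl_1_2_16_5
  bl_1_2_16_6)) bl_1_2_16_7) (.joinJ (b := 48) bl_1_2_16_8 bl_1_2_16_9)))

theorem bx_1_2_24_32 : RootOK 0 64 64 96 24 32 :=
  (.joinJ (b := 32) (.joinJ (b := 16) bl_1_2_24_1 bl_1_2_24_2) (.joinK (b := 80) (.joinJ (b := 48)
  bl_1_2_24_3 bl_1_2_24_4) bl_1_2_24_5))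

theorem bx_1_2_32_40 : RootOK 0 64 64 96 32 40 :=
  (.joinJ (b := 32) bl_1_2_32_1 (.joinK (b := 80) (.joinJ (b := 48) bl_1_2_32_2 bl_1_2_32_3)
  bl_1_2_32_4))

theorem bx_1_2_40_48 : RootOK 0 64 64 96 40 48 :=
  (.joinJ (b := 32) bl_1_2_40_1 (.joinK (b := 80) (.joinJ (b := 48) bl_1_2_40_2 bl_1_2_40_3)
  bl_1_2_40_4))

theorem bx_1_2_48_64 : RootOK 0 64 64 96 48 64 :=
  (.joinM (b := 56) (.joinK (b := 80) (.joinJ (b := 32) bl_1_2_48_1 bl_1_2_48_2) bl_1_2_48_3)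
  (.joinK (b := 80) (.joinJ (b := 32) bl_1_2_48_4 bl_1_2_48_5) (.joinJ (b := 32) bl_1_2_48_6
  bl_1_2_48_7)))

theorem bx_1_2_64_80 : RootOK 0 64 64 96 64 80 :=
  (.joinM (b := 72) (.joinJ (b := 32) bl_1_2_64_1 (.joinK (b := 80) bl_1_2_64_2 bl_1_2_64_3))
  (.joinJ (b := 32) bl_1_2_64_4 (.joinK (b := 80) bl_1_2_64_5 bl_1_2_64_6)))

theorem bx_1_2_80_96 : RootOK 0 64 64 96 80 96 :=
  (.joinJ (b := 32) (.joinK (b := 80) bl_1_2_80_1 (.joinJ (b := 16) bl_1_2_80_2 bl_1_2_80_3))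
  (.joinM (b := 88) (.joinK (b := 80) bl_1_2_80_4 bl_1_2_80_5) (.joinJ (b := 48) bl_1_2_80_6
  (.joinK (b := 80) bl_1_2_80_7 bl_1_2_80_8))))

theorem bx_1_2_96_114 : RootOK 0 64 64 96 96 114 :=
  (.joinJ (b := 32) (.joinJ (b := 16) (.joinK (b := 80) bl_1_2_96_1 (.joinK (b := 88) bl_1_2_96_2
  (.joinK (b := 92) (.joinM (b := 105) bl_1_2_96_3 bl_1_2_96_4) (.joinM (b := 105) bl_1_2_96_5
  bl_1_2_96_6)))) (.joinK (b := 80) (.joinK (b := 72) bl_1_2_96_7 (.joinM (b := 105) bl_1_2_96_8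
  bl_1_2_96_9)) (.joinK (b := 88) (.joinM (b := 105) bl_1_2_96_10 bl_1_2_96_11) (.joinM (b := 105)
  bl_1_2_96_12 bl_1_2_96_13)))) (.joinK (b := 80) (.joinJ (b := 48) (.joinK (b := 72) bl_1_2_96_14
  (.joinM (b := 105) bl_1_2_96_15 bl_1_2_96_16)) (.joinJ (b := 56) (.joinM (b := 105) bl_1_2_96_17
  bl_1_2_96_18) (.joinM (b := 105) bl_1_2_96_19 bl_1_2_96_20))) (.joinJ (b := 48) (.joinK (b :=
  88) (.joinM (b := 105) bl_1_2_96_21 bl_1_2_96_22) (.joinM (b := 105) bl_1_2_96_23 bl_1_2_96_24))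
  (.joinK (b := 88) (.joinM (b := 105) bl_1_2_96_25 bl_1_2_96_26) (.joinM (b := 105) bl_1_2_96_27
  bl_1_2_96_28)))))

theorem bx_1_2_114_116 : RootOK 0 64 64 96 114 116 :=
  (.joinJ (b := 32) (.joinJ (b := 16) (.joinJ (b := 8) (.joinK (b := 80) bl_1_2_114_1 (tubeR (j0
  := 0) (j1 := 8) (k0 := 80) (k1 := 96) (m0 := 114) (m1 := 116) (by decide))) (.joinK (b := 80)
  bl_1_2_114_2 (.joinK (b := 88) (tubeR (j0 := 8) (j1 := 16) (k0 := 80) (k1 := 88) (m0 := 114) (m1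
  := 116) (by decide)) bl_1_2_114_3))) (.joinK (b := 80) (.joinJ (b := 24) bl_1_2_114_4
  bl_1_2_114_5) (.joinK (b := 88) (tubeR (j0 := 16) (j1 := 32) (k0 := 80) (k1 := 88) (m0 := 114)
  (m1 := 116) (by decide)) (.joinJ (b := 24) bl_1_2_114_6 bl_1_2_114_7)))) (.joinK (b := 80)
  (.joinJ (b := 48) (.joinK (b := 72) bl_1_2_114_8 (tubeR (j0 := 32) (j1 := 48) (k0 := 72) (k1 :=
  80) (m0 := 114) (m1 := 116) (by decide))) (.joinK (b := 72) (.joinJ (b := 56) (tubeR (j0 := 48)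
  (j1 := 56) (k0 := 64) (k1 := 72) (m0 := 114) (m1 := 116) (by decide)) bl_1_2_114_9) (.joinJ (b
  := 56) bl_1_2_114_10 bl_1_2_114_11))) (.joinJ (b := 48) (.joinK (b := 88) (.joinJ (b := 40)
  (tubeR (j0 := 32) (j1 := 40) (k0 := 80) (k1 := 88) (m0 := 114) (m1 := 116) (by decide))
  bl_1_2_114_12) (.joinJ (b := 40) bl_1_2_114_13 bl_1_2_114_14)) (.joinK (b := 88) (.joinJ (b :=
  56) bl_1_2_114_15 bl_1_2_114_16) bl_1_2_114_17))))

theorem bx_1_2_116_120 : RootOK 0 64 64 96 116 120 :=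
  (.joinJ (b := 32) (.joinJ (b := 16) (.joinJ (b := 8) (.joinK (b := 80) bl_1_2_116_1 (tubeR (j0
  := 0) (j1 := 8) (k0 := 80) (k1 := 96) (m0 := 116) (m1 := 120) (by decide))) (.joinK (b := 80)
  bl_1_2_116_2 (.joinK (b := 88) (tubeR (j0 := 8) (j1 := 16) (k0 := 80) (k1 := 88) (m0 := 116) (m1
  := 120) (by decide)) bl_1_2_116_3))) (.joinK (b := 80) (.joinJ (b := 24) bl_1_2_116_4 (.joinK (b
  := 72) bl_1_2_116_5 bl_1_2_116_6)) (.joinK (b := 88) (tubeR (j0 := 16) (j1 := 32) (k0 := 80) (k1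
  := 88) (m0 := 116) (m1 := 120) (by decide)) (.joinJ (b := 24) bl_1_2_116_7 bl_1_2_116_8))))
  (.joinK (b := 80) (.joinJ (b := 48) (.joinK (b := 72) (.joinJ (b := 40) bl_1_2_116_9
  bl_1_2_116_10) (tubeR (j0 := 32) (j1 := 48) (k0 := 72) (k1 := 80) (m0 := 116) (m1 := 120) (by
  decide))) (.joinK (b := 72) (tubeR (j0 := 48) (j1 := 64) (k0 := 64) (k1 := 72) (m0 := 116) (m1
  := 120) (by decide)) (.joinJ (b := 56) bl_1_2_116_11 bl_1_2_116_12))) (.joinJ (b := 48) (.joinK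
  (b := 88) (.joinJ (b := 40) (tubeR (j0 := 32) (j1 := 40) (k0 := 80) (k1 := 88) (m0 := 116) (m1
  := 120) (by decide)) bl_1_2_116_13) (.joinJ (b := 40) bl_1_2_116_14 bl_1_2_116_15)) (.joinK (b
  := 88) (.joinJ (b := 56) bl_1_2_116_16 bl_1_2_116_17) bl_1_2_116_18))))

theorem bx_1_2_120_124 : RootOK 0 64 64 96 120 124 :=
  (.joinJ (b := 32) (.joinJ (b := 16) (.joinJ (b := 8) (.joinK (b := 80) bl_1_2_120_1 (tubeR (j0
  := 0) (j1 := 8) (k0 := 80) (k1 := 96) (m0 := 120) (m1 := 124) (by decide))) (.joinK (b := 80)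
  bl_1_2_120_2 (.joinK (b := 88) (tubeR (j0 := 8) (j1 := 16) (k0 := 80) (k1 := 88) (m0 := 120) (m1
  := 124) (by decide)) (.joinK (b := 92) (tubeR (j0 := 8) (j1 := 16) (k0 := 88) (k1 := 92) (m0 :=
  120) (m1 := 124) (by decide)) (.joinJ (b := 12) (tubeR (j0 := 8) (j1 := 12) (k0 := 92) (k1 :=
  96) (m0 := 120) (m1 := 124) (by decide)) bl_1_2_120_3))))) (.joinK (b := 80) (.joinJ (b := 24)
  bl_1_2_120_4 (.joinK (b := 72) bl_1_2_120_5 (.joinK (b := 76) bl_1_2_120_6 (tubeR (j0 := 24) (j1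
  := 32) (k0 := 76) (k1 := 80) (m0 := 120) (m1 := 124) (by decide))))) (.joinK (b := 88) (tubeR
  (j0 := 16) (j1 := 32) (k0 := 80) (k1 := 88) (m0 := 120) (m1 := 124) (by decide)) (.joinJ (b :=
  24) (.joinK (b := 92) (tubeR (j0 := 16) (j1 := 24) (k0 := 88) (k1 := 92) (m0 := 120) (m1 := 124)
  (by decide)) (.joinK (b := 94) (tubeR (j0 := 16) (j1 := 24) (k0 := 92) (k1 := 94) (m0 := 120)
  (m1 := 124) (by decide)) bl_1_2_120_7)) (.joinK (b := 92) (.joinJ (b := 28) (tubeR (j0 := 24)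
  (j1 := 28) (k0 := 88) (k1 := 92) (m0 := 120) (m1 := 124) (by decide)) bl_1_2_120_8)
  bl_1_2_120_9))))) (.joinK (b := 80) (.joinJ (b := 48) (.joinK (b := 72) (.joinJ (b := 40)
  bl_1_2_120_10 (.joinK (b := 68) bl_1_2_120_11 (tubeR (j0 := 40) (j1 := 48) (k0 := 68) (k1 := 72)
  (m0 := 120) (m1 := 124) (by decide)))) (tubeR (j0 := 32) (j1 := 48) (k0 := 72) (k1 := 80) (m0 :=
  120) (m1 := 124) (by decide))) (.joinK (b := 72) (tubeR (j0 := 48) (j1 := 64) (k0 := 64) (k1 :=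
  72) (m0 := 120) (m1 := 124) (by decide)) (.joinJ (b := 56) (.joinJ (b := 52) (tubeR (j0 := 48)
  (j1 := 52) (k0 := 72) (k1 := 80) (m0 := 120) (m1 := 124) (by decide)) (.joinK (b := 76) (tubeR
  (j0 := 52) (j1 := 56) (k0 := 72) (k1 := 76) (m0 := 120) (m1 := 124) (by decide)) bl_1_2_120_12))
  (.joinJ (b := 60) (.joinK (b := 76) (tubeR (j0 := 56) (j1 := 60) (k0 := 72) (k1 := 76) (m0 :=
  120) (m1 := 124) (by decide)) (.joinK (b := 78) (.joinK (b := 77) (.joinJ (b := 58) (tubeR (j0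
  := 56) (j1 := 58) (k0 := 76) (k1 := 77) (m0 := 120) (m1 := 124) (by decide)) bl_1_2_120_13)
  bl_1_2_120_14) (.joinM (b := 122) bl_1_2_120_15 bl_1_2_120_16))) (.joinK (b := 76) (.joinK (b :=
  74) (.joinJ (b := 62) (tubeR (j0 := 60) (j1 := 62) (k0 := 72) (k1 := 74) (m0 := 120) (m1 := 124)
  (by decide)) (.joinM (b := 122) bl_1_2_120_17 bl_1_2_120_18)) (.joinM (b := 122) bl_1_2_120_19
  bl_1_2_120_20)) bl_1_2_120_21))))) (.joinJ (b := 48) (.joinK (b := 88) (.joinJ (b := 40) (tubeR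
  (j0 := 32) (j1 := 40) (k0 := 80) (k1 := 88) (m0 := 120) (m1 := 124) (by decide)) (.joinK (b :=
  84) (tubeR (j0 := 40) (j1 := 48) (k0 := 80) (k1 := 84) (m0 := 120) (m1 := 124) (by decide))
  (.joinJ (b := 44) bl_1_2_120_22 bl_1_2_120_23))) (.joinJ (b := 40) (.joinK (b := 92) (.joinJ (b
  := 36) bl_1_2_120_24 bl_1_2_120_25) bl_1_2_120_26) (.joinK (b := 92) bl_1_2_120_27
  bl_1_2_120_28))) (.joinK (b := 88) (.joinJ (b := 56) (.joinK (b := 84) (.joinJ (b := 52) (.joinK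
  (b := 82) bl_1_2_120_29 bl_1_2_120_30) bl_1_2_120_31) bl_1_2_120_32) bl_1_2_120_33)
  bl_1_2_120_34))))

theorem bx_1_2_124_128 : RootOK 0 64 64 96 124 128 :=
  (.joinJ (b := 32) (.joinJ (b := 16) (.joinJ (b := 8) (.joinK (b := 80) bl_1_2_124_1 (tubeR (j0
  := 0) (j1 := 8) (k0 := 80) (k1 := 96) (m0 := 124) (m1 := 128) (by decide))) (.joinJ (b := 12)
  (.joinK (b := 80) bl_1_2_124_2 (tubeR (j0 := 8) (j1 := 12) (k0 := 80) (k1 := 96) (m0 := 124) (m1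
  := 128) (by decide))) (.joinK (b := 80) bl_1_2_124_3 (.joinK (b := 88) (tubeR (j0 := 12) (j1 :=
  16) (k0 := 80) (k1 := 88) (m0 := 124) (m1 := 128) (by decide)) (.joinK (b := 92) (tubeR (j0 :=
  12) (j1 := 16) (k0 := 88) (k1 := 92) (m0 := 124) (m1 := 128) (by decide)) (.joinK (b := 94)
  (tubeR (j0 := 12) (j1 := 16) (k0 := 92) (k1 := 94) (m0 := 124) (m1 := 128) (by decide))
  bl_1_2_124_4)))))) (.joinJ (b := 24) (.joinK (b := 80) bl_1_2_124_5 (.joinK (b := 88) (tubeR (j0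
  := 16) (j1 := 24) (k0 := 80) (k1 := 88) (m0 := 124) (m1 := 128) (by decide)) (.joinK (b := 92)
  (tubeR (j0 := 16) (j1 := 24) (k0 := 88) (k1 := 92) (m0 := 124) (m1 := 128) (by decide)) (.joinK
  (b := 94) (tubeR (j0 := 16) (j1 := 24) (k0 := 92) (k1 := 94) (m0 := 124) (m1 := 128) (by
  decide)) bl_1_2_124_6)))) (.joinK (b := 80) (.joinK (b := 72) bl_1_2_124_7 (.joinK (b := 76)
  bl_1_2_124_8 (tubeR (j0 := 24) (j1 := 32) (k0 := 76) (k1 := 80) (m0 := 124) (m1 := 128) (by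
  decide)))) (.joinK (b := 88) (tubeR (j0 := 24) (j1 := 32) (k0 := 80) (k1 := 88) (m0 := 124) (m1
  := 128) (by decide)) (.joinJ (b := 28) (.joinK (b := 92) (tubeR (j0 := 24) (j1 := 28) (k0 := 88)
  (k1 := 92) (m0 := 124) (m1 := 128) (by decide)) bl_1_2_124_9) (.joinK (b := 92) (.joinK (b :=
  90) (tubeR (j0 := 28) (j1 := 32) (k0 := 88) (k1 := 90) (m0 := 124) (m1 := 128) (by decide))
  bl_1_2_124_10) bl_1_2_124_11)))))) (.joinK (b := 80) (.joinJ (b := 48) (.joinK (b := 72) (.joinJ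
  (b := 40) bl_1_2_124_12 (.joinK (b := 68) bl_1_2_124_13 (tubeR (j0 := 40) (j1 := 48) (k0 := 68)
  (k1 := 72) (m0 := 124) (m1 := 128) (by decide)))) (tubeR (j0 := 32) (j1 := 48) (k0 := 72) (k1 :=
  80) (m0 := 124) (m1 := 128) (by decide))) (.joinK (b := 72) (tubeR (j0 := 48) (j1 := 64) (k0 :=
  64) (k1 := 72) (m0 := 124) (m1 := 128) (by decide)) (.joinJ (b := 56) (.joinK (b := 76) (tubeR
  (j0 := 48) (j1 := 56) (k0 := 72) (k1 := 76) (m0 := 124) (m1 := 128) (by decide)) (.joinJ (b :=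
  52) (tubeR (j0 := 48) (j1 := 52) (k0 := 76) (k1 := 80) (m0 := 124) (m1 := 128) (by decide))
  (.joinK (b := 78) (tubeR (j0 := 52) (j1 := 56) (k0 := 76) (k1 := 78) (m0 := 124) (m1 := 128) (by
  decide)) (.joinJ (b := 54) (tubeR (j0 := 52) (j1 := 54) (k0 := 78) (k1 := 80) (m0 := 124) (m1 :=
  128) (by decide)) (.joinK (b := 79) (tubeR (j0 := 54) (j1 := 56) (k0 := 78) (k1 := 79) (m0 :=
  124) (m1 := 128) (by decide)) bl_1_2_124_14))))) (.joinJ (b := 60) (.joinK (b := 76) (tubeR (j0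
  := 56) (j1 := 60) (k0 := 72) (k1 := 76) (m0 := 124) (m1 := 128) (by decide)) (.joinM (b := 126)
  bl_1_2_124_15 bl_1_2_124_16)) (.joinK (b := 76) (.joinM (b := 126) (.joinJ (b := 62) (.joinK (b
  := 74) (tubeR (j0 := 60) (j1 := 62) (k0 := 72) (k1 := 74) (m0 := 124) (m1 := 126) (by decide))
  bl_1_2_124_17) bl_1_2_124_18) bl_1_2_124_19) bl_1_2_124_20))))) (.joinJ (b := 48) (.joinK (b :=
  88) (.joinJ (b := 40) (tubeR (j0 := 32) (j1 := 40) (k0 := 80) (k1 := 88) (m0 := 124) (m1 := 128)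
  (by decide)) (.joinK (b := 84) (tubeR (j0 := 40) (j1 := 48) (k0 := 80) (k1 := 84) (m0 := 124)
  (m1 := 128) (by decide)) (.joinJ (b := 44) (.joinK (b := 86) (tubeR (j0 := 40) (j1 := 44) (k0 :=
  84) (k1 := 86) (m0 := 124) (m1 := 128) (by decide)) bl_1_2_124_21) (.joinM (b := 126)
  bl_1_2_124_22 bl_1_2_124_23)))) (.joinJ (b := 40) (.joinJ (b := 36) (.joinK (b := 92) (.joinK (b
  := 90) (tubeR (j0 := 32) (j1 := 36) (k0 := 88) (k1 := 90) (m0 := 124) (m1 := 128) (by decide))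
  bl_1_2_124_24) bl_1_2_124_25) (.joinK (b := 92) bl_1_2_124_26 bl_1_2_124_27)) bl_1_2_124_28))
  (.joinK (b := 88) (.joinJ (b := 56) (.joinK (b := 84) (.joinJ (b := 52) (.joinM (b := 126)
  (.joinK (b := 82) (.joinJ (b := 50) (tubeR (j0 := 48) (j1 := 50) (k0 := 80) (k1 := 82) (m0 :=
  124) (m1 := 126) (by decide)) (.joinJ (b := 51) (tubeR (j0 := 50) (j1 := 51) (k0 := 80) (k1 :=
  82) (m0 := 124) (m1 := 126) (by decide)) (.joinK (b := 81) (tubeR (j0 := 51) (j1 := 52) (k0 :=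
  80) (k1 := 81) (m0 := 124) (m1 := 126) (by decide)) bl_1_2_124_29))) bl_1_2_124_30) (.joinK (b
  := 82) (.joinJ (b := 50) (tubeR (j0 := 48) (j1 := 50) (k0 := 80) (k1 := 82) (m0 := 126) (m1 :=
  128) (by decide)) bl_1_2_124_31) bl_1_2_124_32)) bl_1_2_124_33) bl_1_2_124_34) bl_1_2_124_35)
  bl_1_2_124_36))))

theorem bx_1_3_16_24 : RootOK 0 64 96 128 16 24 :=
  bl_1_3_16_1

theorem bx_1_3_24_32 : RootOK 0 64 96 128 24 32 :=
  bl_1_3_24_1

theorem bx_1_3_32_40 : RootOK 0 64 96 128 32 40 :=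
  (.joinJ (b := 32) bl_1_3_32_1 bl_1_3_32_2)

theorem bx_1_3_40_48 : RootOK 0 64 96 128 40 48 :=
  (.joinJ (b := 32) bl_1_3_40_1 bl_1_3_40_2)

theorem bx_1_3_48_64 : RootOK 0 64 96 128 48 64 :=
  (.joinJ (b := 32) bl_1_3_48_1 (.joinM (b := 56) bl_1_3_48_2 bl_1_3_48_3))

theorem bx_1_3_64_80 : RootOK 0 64 96 128 64 80 :=
  (.joinJ (b := 32) (.joinJ (b := 16) (.joinK (b := 112) bl_1_3_64_1 bl_1_3_64_2) bl_1_3_64_3)
  (.joinM (b := 72) (.joinJ (b := 48) bl_1_3_64_4 bl_1_3_64_5) (.joinJ (b := 48) bl_1_3_64_6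
  bl_1_3_64_7)))

theorem bx_1_3_80_96 : RootOK 0 64 96 128 80 96 :=
  (.joinJ (b := 32) (.joinJ (b := 16) (.joinK (b := 112) bl_1_3_80_1 bl_1_3_80_2) (.joinK (b :=
  112) bl_1_3_80_3 bl_1_3_80_4)) (.joinJ (b := 48) (.joinK (b := 112) bl_1_3_80_5 bl_1_3_80_6)
  (.joinK (b := 112) bl_1_3_80_7 bl_1_3_80_8)))

theorem bx_1_3_96_114 : RootOK 0 64 96 128 96 114 :=
  (.joinJ (b := 32) (.joinJ (b := 16) (.joinK (b := 112) (.joinJ (b := 8) bl_1_3_96_1 bl_1_3_96_2)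
  bl_1_3_96_3) (.joinK (b := 112) (.joinM (b := 105) bl_1_3_96_4 bl_1_3_96_5) bl_1_3_96_6))
  (.joinJ (b := 48) (.joinK (b := 112) bl_1_3_96_7 bl_1_3_96_8) (.joinK (b := 112) bl_1_3_96_9
  bl_1_3_96_10)))

theorem bx_1_3_114_116 : RootOK 0 64 96 128 114 116 :=
  (.joinJ (b := 32) (.joinJ (b := 16) (.joinK (b := 112) (.joinJ (b := 8) bl_1_3_114_1
  bl_1_3_114_2) bl_1_3_114_3) (.joinK (b := 112) (.joinK (b := 104) bl_1_3_114_4 bl_1_3_114_5)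
  bl_1_3_114_6)) (.joinJ (b := 48) (.joinK (b := 112) bl_1_3_114_7 bl_1_3_114_8) bl_1_3_114_9))

theorem bx_1_3_116_120 : RootOK 0 64 96 128 116 120 :=
  (.joinJ (b := 32) (.joinJ (b := 16) (.joinK (b := 112) (.joinJ (b := 8) (.joinK (b := 104)
  bl_1_3_116_1 bl_1_3_116_2) bl_1_3_116_3) bl_1_3_116_4) (.joinK (b := 112) (.joinJ (b := 24)
  bl_1_3_116_5 bl_1_3_116_6) bl_1_3_116_7)) (.joinJ (b := 48) (.joinK (b := 112) bl_1_3_116_8
  bl_1_3_116_9) bl_1_3_116_10))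

theorem bx_1_3_120_124 : RootOK 0 64 96 128 120 124 :=
  (.joinJ (b := 32) (.joinJ (b := 16) (.joinK (b := 112) (.joinJ (b := 8) (.joinK (b := 104)
  (.joinJ (b := 4) bl_1_3_120_1 bl_1_3_120_2) bl_1_3_120_3) (.joinK (b := 104) bl_1_3_120_4
  bl_1_3_120_5)) bl_1_3_120_6) (.joinK (b := 112) (.joinJ (b := 24) (.joinK (b := 104)
  bl_1_3_120_7 bl_1_3_120_8) bl_1_3_120_9) bl_1_3_120_10)) (.joinJ (b := 48) (.joinK (b := 112)
  bl_1_3_120_11 bl_1_3_120_12) bl_1_3_120_13))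

theorem bx_1_3_124_128 : RootOK 0 64 96 128 124 128 :=
  (.joinJ (b := 32) (.joinJ (b := 16) (.joinK (b := 112) (.joinJ (b := 8) (.joinK (b := 104)
  (.joinJ (b := 4) bl_1_3_124_1 bl_1_3_124_2) bl_1_3_124_3) (.joinK (b := 104) (.joinJ (b := 12)
  bl_1_3_124_4 bl_1_3_124_5) bl_1_3_124_6)) bl_1_3_124_7) (.joinK (b := 112) (.joinJ (b := 24)
  (.joinK (b := 104) bl_1_3_124_8 bl_1_3_124_9) bl_1_3_124_10) bl_1_3_124_11)) (.joinJ (b := 48)
  (.joinJ (b := 40) bl_1_3_124_12 bl_1_3_124_13) bl_1_3_124_14))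

theorem bx_1_4_16_24 : RootOK 0 64 128 192 16 24 :=
  bl_1_4_16_1

theorem bx_1_4_24_32 : RootOK 0 64 128 192 24 32 :=
  bl_1_4_24_1

theorem bx_1_4_32_40 : RootOK 0 64 128 192 32 40 :=
  bl_1_4_32_1

theorem bx_1_4_40_48 : RootOK 0 64 128 192 40 48 :=
  bl_1_4_40_1

theorem bx_1_4_48_64 : RootOK 0 64 128 192 48 64 :=
  (.joinJ (b := 32) bl_1_4_48_1 (.joinJ (b := 48) bl_1_4_48_2 bl_1_4_48_3))

theorem bx_1_4_64_80 : RootOK 0 64 128 192 64 80 :=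
  (.joinJ (b := 32) (.joinJ (b := 16) bl_1_4_64_1 bl_1_4_64_2) (.joinM (b := 72) bl_1_4_64_3
  bl_1_4_64_4))

theorem bx_1_4_80_96 : RootOK 0 64 128 192 80 96 :=
  (.joinJ (b := 32) (.joinJ (b := 16) bl_1_4_80_1 bl_1_4_80_2) bl_1_4_80_3)

theorem bx_1_4_96_114 : RootOK 0 64 128 192 96 114 :=
  (.joinJ (b := 32) (.joinJ (b := 16) bl_1_4_96_1 bl_1_4_96_2) bl_1_4_96_3)

theorem bx_1_4_114_116 : RootOK 0 64 128 192 114 116 :=
  (.joinJ (b := 32) bl_1_4_114_1 bl_1_4_114_2)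

theorem bx_1_4_116_120 : RootOK 0 64 128 192 116 120 :=
  (.joinJ (b := 32) bl_1_4_116_1 bl_1_4_116_2)

theorem bx_1_4_120_124 : RootOK 0 64 128 192 120 124 :=
  (.joinJ (b := 32) bl_1_4_120_1 bl_1_4_120_2)

theorem bx_1_4_124_128 : RootOK 0 64 128 192 124 128 :=
  (.joinJ (b := 32) bl_1_4_124_1 bl_1_4_124_2)

theorem bx_2_2_16_24 : RootOK 64 96 64 96 16 24 :=
  (.joinJ (b := 80) (.joinK (b := 80) (.joinK (b := 72) bl_2_2_16_1 bl_2_2_16_2) (.joinJ (b := 72)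
  bl_2_2_16_3 (.joinM (b := 20) bl_2_2_16_4 bl_2_2_16_5))) (.joinK (b := 80) (.empty (by decide))
  (.joinK (b := 88) (.joinJ (b := 88) (.joinM (b := 20) bl_2_2_16_6 bl_2_2_16_7) (.empty (by
  decide))) (.joinJ (b := 88) (.joinM (b := 20) (.joinM (b := 18) bl_2_2_16_8 bl_2_2_16_9)
  bl_2_2_16_10) (.joinM (b := 20) (.joinM (b := 18) (.joinK (b := 92) bl_2_2_16_11 (.joinJ (b :=
  92) bl_2_2_16_12 bl_2_2_16_13)) bl_2_2_16_14) bl_2_2_16_15)))))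

theorem bx_2_2_24_32 : RootOK 64 96 64 96 24 32 :=
  (.joinK (b := 80) (.joinJ (b := 80) bl_2_2_24_1 (.empty (by decide))) (.joinJ (b := 80)
  bl_2_2_24_2 (.joinJ (b := 88) (.joinK (b := 88) bl_2_2_24_3 bl_2_2_24_4) (.joinK (b := 88)
  (.empty (by decide)) (.joinM (b := 28) bl_2_2_24_5 bl_2_2_24_6)))))

theorem bx_2_2_32_40 : RootOK 64 96 64 96 32 40 :=
  (.joinJ (b := 80) (.joinK (b := 80) bl_2_2_32_1 bl_2_2_32_2) (.joinK (b := 80) (.empty (by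
  decide)) (.joinK (b := 88) bl_2_2_32_3 (.joinM (b := 36) bl_2_2_32_4 bl_2_2_32_5))))

theorem bx_2_2_40_48 : RootOK 64 96 64 96 40 48 :=
  (.joinJ (b := 80) (.joinK (b := 80) bl_2_2_40_1 bl_2_2_40_2) (.joinK (b := 80) (.empty (by
  decide)) bl_2_2_40_3))

theorem bx_2_2_48_64 : RootOK 64 96 64 96 48 64 :=
  (.joinM (b := 56) (.joinM (b := 52) (.joinK (b := 80) (.joinJ (b := 80) bl_2_2_48_1 (.empty (by
  decide))) (.joinJ (b := 80) bl_2_2_48_2 bl_2_2_48_3)) (.joinK (b := 80) (.joinJ (b := 80)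
  bl_2_2_48_4 (.empty (by decide))) (.joinJ (b := 80) bl_2_2_48_5 bl_2_2_48_6))) (.joinK (b := 80)
  (.joinJ (b := 80) bl_2_2_48_7 (.empty (by decide))) (.joinJ (b := 80) bl_2_2_48_8 bl_2_2_48_9)))

theorem bx_2_2_64_80 : RootOK 64 96 64 96 64 80 :=
  (.joinJ (b := 80) (.joinK (b := 80) (.joinM (b := 72) bl_2_2_64_1 bl_2_2_64_2) (.joinM (b := 72)
  bl_2_2_64_3 bl_2_2_64_4)) (.joinK (b := 80) (.empty (by decide)) bl_2_2_64_5))

theorem bx_2_2_80_96 : RootOK 64 96 64 96 80 96 :=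
  (.joinK (b := 80) (.joinJ (b := 80) (.joinK (b := 72) (.joinM (b := 88) bl_2_2_80_1 bl_2_2_80_2)
  (.joinM (b := 88) bl_2_2_80_3 bl_2_2_80_4)) (.empty (by decide))) (.joinJ (b := 80) (.joinJ (b
  := 72) (.joinM (b := 88) bl_2_2_80_5 bl_2_2_80_6) bl_2_2_80_7) (.joinM (b := 88) bl_2_2_80_8
  bl_2_2_80_9)))

theorem bx_2_2_96_114 : RootOK 64 96 64 96 96 114 :=
  (.joinJ (b := 80) (.joinK (b := 80) (.joinK (b := 72) (.joinJ (b := 72) (.joinM (b := 105)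
  bl_2_2_96_1 bl_2_2_96_2) (.empty (by decide))) (.joinJ (b := 72) bl_2_2_96_3 bl_2_2_96_4))
  (.joinJ (b := 72) (.joinK (b := 88) bl_2_2_96_5 bl_2_2_96_6) (.joinM (b := 105) bl_2_2_96_7
  bl_2_2_96_8))) (.joinK (b := 80) (.empty (by decide)) (.joinM (b := 105) bl_2_2_96_9
  bl_2_2_96_10)))

theorem bx_2_2_114_116 : RootOK 64 96 64 96 114 116 :=
  (.joinJ (b := 80) (.joinK (b := 80) (.joinJ (b := 72) (.joinK (b := 72) bl_2_2_114_1 (.joinJ (b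
  := 68) bl_2_2_114_2 bl_2_2_114_3)) (.joinK (b := 72) (.empty (by decide)) bl_2_2_114_4)) (.joinJ
  (b := 72) bl_2_2_114_5 bl_2_2_114_6)) (.joinK (b := 80) (.empty (by decide)) bl_2_2_114_7))

theorem bx_2_2_116_120 : RootOK 64 96 64 96 116 120 :=
  (.joinJ (b := 80) (.joinK (b := 80) (.joinK (b := 72) (.joinJ (b := 72) (.joinK (b := 68)
  bl_2_2_116_1 (.joinJ (b := 68) bl_2_2_116_2 bl_2_2_116_3)) (.empty (by decide))) (.joinJ (b :=
  72) (.joinJ (b := 68) bl_2_2_116_4 bl_2_2_116_5) bl_2_2_116_6)) (.joinJ (b := 72) bl_2_2_116_7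
  bl_2_2_116_8)) (.joinK (b := 80) (.empty (by decide)) bl_2_2_116_9))

theorem bx_2_2_120_124 : RootOK 64 96 64 96 120 124 :=
  (.joinJ (b := 80) (.joinK (b := 80) (.joinJ (b := 72) (.joinK (b := 72) (.joinK (b := 68)
  (.joinJ (b := 68) (tubeR (j0 := 64) (j1 := 68) (k0 := 64) (k1 := 68) (m0 := 120) (m1 := 124) (by
  decide)) (.empty (by decide))) (.joinJ (b := 68) (.joinM (b := 122) bl_2_2_120_1 (.joinJ (b :=
  66) (.joinK (b := 70) (tubeR (j0 := 64) (j1 := 66) (k0 := 68) (k1 := 70) (m0 := 122) (m1 := 124)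
  (by decide)) (.joinJ (b := 65) (tubeR (j0 := 64) (j1 := 65) (k0 := 70) (k1 := 72) (m0 := 122)
  (m1 := 124) (by decide)) bl_2_2_120_2)) (.joinK (b := 70) (.joinK (b := 69) (tubeR (j0 := 66)
  (j1 := 68) (k0 := 68) (k1 := 69) (m0 := 122) (m1 := 124) (by decide)) bl_2_2_120_3)
  bl_2_2_120_4))) (.joinK (b := 70) (.joinJ (b := 70) (.joinM (b := 122) bl_2_2_120_5
  bl_2_2_120_6) (.empty (by decide))) bl_2_2_120_7))) (.joinJ (b := 68) (.joinK (b := 76) (.joinJ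
  (b := 66) bl_2_2_120_8 bl_2_2_120_9) bl_2_2_120_10) bl_2_2_120_11)) (.joinK (b := 72) (.empty
  (by decide)) bl_2_2_120_12)) bl_2_2_120_13) (.joinK (b := 80) (.empty (by decide))
  bl_2_2_120_14))

theorem bx_2_2_124_128 : RootOK 64 96 64 96 124 128 :=
  (.joinJ (b := 80) (.joinK (b := 80) (.joinK (b := 72) (.joinJ (b := 72) (.joinJ (b := 68)
  (.joinK (b := 68) (tubeR (j0 := 64) (j1 := 68) (k0 := 64) (k1 := 68) (m0 := 124) (m1 := 128) (by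
  decide)) (.joinM (b := 126) (.joinJ (b := 66) (.joinK (b := 70) (tubeR (j0 := 64) (j1 := 66) (k0
  := 68) (k1 := 70) (m0 := 124) (m1 := 126) (by decide)) bl_2_2_124_1) bl_2_2_124_2)
  bl_2_2_124_3)) (.joinK (b := 68) (.empty (by decide)) bl_2_2_124_4)) (.empty (by decide)))
  bl_2_2_124_5) bl_2_2_124_6) (.joinK (b := 80) (.empty (by decide)) bl_2_2_124_7))

theorem bx_2_3_16_24 : RootOK 64 96 96 128 16 24 :=
  (.joinJ (b := 80) (.joinK (b := 112) bl_2_3_16_1 bl_2_3_16_2) (.joinK (b := 112) (.joinM (b :=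
  20) (.joinJ (b := 88) bl_2_3_16_3 (.joinK (b := 104) (.joinM (b := 18) bl_2_3_16_4 bl_2_3_16_5)
  bl_2_3_16_6)) (.joinJ (b := 88) bl_2_3_16_7 (.joinK (b := 104) bl_2_3_16_8 bl_2_3_16_9)))
  (.joinJ (b := 88) bl_2_3_16_10 bl_2_3_16_11)))

theorem bx_2_3_24_32 : RootOK 64 96 96 128 24 32 :=
  (.joinJ (b := 80) bl_2_3_24_1 (.joinK (b := 112) (.joinJ (b := 88) bl_2_3_24_2 (.joinK (b :=
  104) bl_2_3_24_3 (.joinM (b := 28) bl_2_3_24_4 bl_2_3_24_5))) bl_2_3_24_6))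

theorem bx_2_3_32_40 : RootOK 64 96 96 128 32 40 :=
  (.joinM (b := 36) (.joinJ (b := 80) bl_2_3_32_1 (.joinK (b := 112) (.joinJ (b := 88) bl_2_3_32_2
  (.joinK (b := 104) bl_2_3_32_3 (.joinJ (b := 92) bl_2_3_32_4 bl_2_3_32_5))) bl_2_3_32_6))
  (.joinK (b := 112) (.joinJ (b := 80) bl_2_3_32_7 (.joinJ (b := 88) bl_2_3_32_8 (.joinK (b :=
  104) bl_2_3_32_9 bl_2_3_32_10))) (.joinJ (b := 80) bl_2_3_32_11 (.joinJ (b := 88) bl_2_3_32_12
  (.joinK (b := 120) (.joinJ (b := 92) bl_2_3_32_13 bl_2_3_32_14) bl_2_3_32_15)))))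

theorem bx_2_3_40_48 : RootOK 64 96 96 128 40 48 :=
  (.joinJ (b := 80) bl_2_3_40_1 (.joinK (b := 112) (.joinK (b := 104) bl_2_3_40_2 (.joinM (b :=
  44) (.joinJ (b := 88) bl_2_3_40_3 bl_2_3_40_4) (.joinJ (b := 88) bl_2_3_40_5 bl_2_3_40_6)))
  (.joinJ (b := 88) bl_2_3_40_7 (.joinM (b := 44) (.joinJ (b := 92) bl_2_3_40_8 (.joinK (b := 120)
  bl_2_3_40_9 bl_2_3_40_10)) (.joinK (b := 120) bl_2_3_40_11 bl_2_3_40_12)))))

theorem bx_2_3_48_64 : RootOK 64 96 96 128 48 64 :=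
  (.joinM (b := 56) (.joinJ (b := 80) bl_2_3_48_1 (.joinK (b := 112) (.joinM (b := 52) bl_2_3_48_2
  bl_2_3_48_3) (.joinJ (b := 88) bl_2_3_48_4 bl_2_3_48_5))) (.joinJ (b := 80) bl_2_3_48_6 (.joinK
  (b := 112) bl_2_3_48_7 bl_2_3_48_8)))

theorem bx_2_3_64_80 : RootOK 64 96 96 128 64 80 :=
  (.joinJ (b := 80) (.joinM (b := 72) bl_2_3_64_1 bl_2_3_64_2) (.joinM (b := 72) (.joinK (b :=
  112) bl_2_3_64_3 bl_2_3_64_4) bl_2_3_64_5))

theorem bx_2_3_80_96 : RootOK 64 96 96 128 80 96 :=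
  (.joinJ (b := 80) (.joinK (b := 112) bl_2_3_80_1 bl_2_3_80_2) bl_2_3_80_3)

theorem bx_2_3_96_114 : RootOK 64 96 96 128 96 114 :=
  (.joinJ (b := 80) bl_2_3_96_1 bl_2_3_96_2)

theorem bx_2_3_114_116 : RootOK 64 96 96 128 114 116 :=
  bl_2_3_114_1

theorem bx_2_3_116_120 : RootOK 64 96 96 128 116 120 :=
  bl_2_3_116_1

theorem bx_2_3_120_124 : RootOK 64 96 96 128 120 124 :=
  bl_2_3_120_1

theorem bx_2_3_124_128 : RootOK 64 96 96 128 124 128 :=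
  bl_2_3_124_1

theorem bx_2_4_16_24 : RootOK 64 96 128 192 16 24 :=
  (.joinJ (b := 80) bl_2_4_16_1 bl_2_4_16_2)

theorem bx_2_4_24_32 : RootOK 64 96 128 192 24 32 :=
  (.joinJ (b := 80) bl_2_4_24_1 (.joinK (b := 160) (.joinJ (b := 88) bl_2_4_24_2 bl_2_4_24_3)
  bl_2_4_24_4))

theorem bx_2_4_32_40 : RootOK 64 96 128 192 32 40 :=
  (.joinJ (b := 80) bl_2_4_32_1 (.joinK (b := 160) (.joinJ (b := 88) bl_2_4_32_2 bl_2_4_32_3)
  bl_2_4_32_4))

theorem bx_2_4_40_48 : RootOK 64 96 128 192 40 48 :=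
  (.joinJ (b := 80) bl_2_4_40_1 (.joinK (b := 160) (.joinK (b := 144) bl_2_4_40_2 bl_2_4_40_3)
  bl_2_4_40_4))

theorem bx_2_4_48_64 : RootOK 64 96 128 192 48 64 :=
  (.joinM (b := 56) (.joinK (b := 160) (.joinM (b := 52) bl_2_4_48_1 bl_2_4_48_2) (.joinJ (b :=
  80) bl_2_4_48_3 (.joinJ (b := 88) bl_2_4_48_4 (.joinK (b := 176) bl_2_4_48_5 bl_2_4_48_6))))
  (.joinJ (b := 80) bl_2_4_48_7 (.joinK (b := 160) bl_2_4_48_8 (.joinJ (b := 88) bl_2_4_48_9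
  bl_2_4_48_10))))

theorem bx_2_4_64_80 : RootOK 64 96 128 192 64 80 :=
  bl_2_4_64_1

theorem bx_2_4_80_96 : RootOK 64 96 128 192 80 96 :=
  bl_2_4_80_1

theorem bx_2_4_96_114 : RootOK 64 96 128 192 96 114 :=
  bl_2_4_96_1

theorem bx_2_4_114_116 : RootOK 64 96 128 192 114 116 :=
  bl_2_4_114_1

theorem bx_2_4_116_120 : RootOK 64 96 128 192 116 120 :=
  bl_2_4_116_1

theorem bx_2_4_120_124 : RootOK 64 96 128 192 120 124 :=
  bl_2_4_120_1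

theorem bx_2_4_124_128 : RootOK 64 96 128 192 124 128 :=
  bl_2_4_124_1

theorem bx_3_3_16_24 : RootOK 96 128 96 128 16 24 :=
  (.joinJ (b := 112) (.joinK (b := 112) (.joinJ (b := 104) (.joinK (b := 104) bl_3_3_16_1
  bl_3_3_16_2) (.joinK (b := 104) (.empty (by decide)) (.joinM (b := 20) bl_3_3_16_3
  bl_3_3_16_4))) (.joinJ (b := 104) (.joinM (b := 20) bl_3_3_16_5 (.joinK (b := 120) bl_3_3_16_6
  bl_3_3_16_7)) (.joinM (b := 20) (.joinK (b := 120) bl_3_3_16_8 bl_3_3_16_9) (.joinK (b := 120)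
  (.joinK (b := 116) bl_3_3_16_10 bl_3_3_16_11) bl_3_3_16_12)))) (.joinK (b := 112) (.empty (by
  decide)) (.joinK (b := 120) (.joinJ (b := 120) (.joinM (b := 20) bl_3_3_16_13 bl_3_3_16_14)
  (.empty (by decide))) (.joinJ (b := 120) (.joinK (b := 124) (.joinJ (b := 116) (.joinM (b := 20)
  bl_3_3_16_15 bl_3_3_16_16) bl_3_3_16_17) (.joinM (b := 20) bl_3_3_16_18 bl_3_3_16_19))
  bl_3_3_16_20))))

theorem bx_3_3_24_32 : RootOK 96 128 96 128 24 32 :=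
  (.joinJ (b := 112) (.joinK (b := 112) (.joinJ (b := 104) (.joinK (b := 104) (.joinM (b := 28)
  bl_3_3_24_1 bl_3_3_24_2) (.joinM (b := 28) bl_3_3_24_3 bl_3_3_24_4)) (.joinK (b := 104) (.empty
  (by decide)) bl_3_3_24_5)) (.joinJ (b := 104) (.joinK (b := 120) (.joinM (b := 28) bl_3_3_24_6
  (.joinJ (b := 100) bl_3_3_24_7 bl_3_3_24_8)) bl_3_3_24_9) (.joinK (b := 120) (.joinM (b := 28)
  bl_3_3_24_10 (.joinK (b := 116) bl_3_3_24_11 bl_3_3_24_12)) (.joinJ (b := 108) bl_3_3_24_13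
  bl_3_3_24_14)))) (.joinK (b := 112) (.empty (by decide)) (.joinK (b := 120) (.joinJ (b := 120)
  bl_3_3_24_15 (.empty (by decide))) (.joinJ (b := 120) (.joinM (b := 28) bl_3_3_24_16
  bl_3_3_24_17) bl_3_3_24_18))))

theorem bx_3_3_32_40 : RootOK 96 128 96 128 32 40 :=
  (.joinK (b := 112) (.joinJ (b := 112) (.joinM (b := 36) (.joinM (b := 34) (.joinJ (b := 104)
  (.joinK (b := 104) bl_3_3_32_1 bl_3_3_32_2) (.joinK (b := 104) (.empty (by decide))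
  bl_3_3_32_3)) (.joinK (b := 104) (.joinJ (b := 104) bl_3_3_32_4 (.empty (by decide))) (.joinJ (b
  := 104) bl_3_3_32_5 bl_3_3_32_6))) (.joinM (b := 38) (.joinK (b := 104) (.joinJ (b := 104)
  bl_3_3_32_7 (.empty (by decide))) (.joinJ (b := 104) bl_3_3_32_8 bl_3_3_32_9)) (.joinJ (b :=
  104) (.joinK (b := 104) bl_3_3_32_10 bl_3_3_32_11) (.joinK (b := 104) (.empty (by decide))
  bl_3_3_32_12)))) (.empty (by decide))) (.joinJ (b := 112) (.joinJ (b := 104) (.joinK (b := 120)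
  (.joinM (b := 36) bl_3_3_32_13 bl_3_3_32_14) (.joinM (b := 36) bl_3_3_32_15 bl_3_3_32_16))
  (.joinM (b := 36) (.joinK (b := 120) (.joinK (b := 116) bl_3_3_32_17 bl_3_3_32_18) bl_3_3_32_19)
  (.joinK (b := 120) (.joinJ (b := 108) bl_3_3_32_20 bl_3_3_32_21) bl_3_3_32_22))) (.joinM (b :=
  36) (.joinM (b := 34) (.joinK (b := 120) (.joinJ (b := 120) bl_3_3_32_23 (.empty (by decide)))
  (.joinJ (b := 120) bl_3_3_32_24 bl_3_3_32_25)) (.joinJ (b := 120) (.joinK (b := 120)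
  bl_3_3_32_26 bl_3_3_32_27) (.joinK (b := 120) (.empty (by decide)) bl_3_3_32_28))) (.joinM (b :=
  38) (.joinK (b := 120) bl_3_3_32_29 bl_3_3_32_30) bl_3_3_32_31))))

theorem bx_3_3_40_48 : RootOK 96 128 96 128 40 48 :=
  (.joinK (b := 112) (.joinJ (b := 112) (.joinM (b := 44) (.joinM (b := 42) (.joinK (b := 104)
  (.joinJ (b := 104) bl_3_3_40_1 (.empty (by decide))) (.joinJ (b := 104) (.joinK (b := 108)
  bl_3_3_40_2 bl_3_3_40_3) bl_3_3_40_4)) (.joinM (b := 43) (.joinK (b := 104) (.joinJ (b := 104)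
  bl_3_3_40_5 (.empty (by decide))) (.joinJ (b := 104) bl_3_3_40_6 bl_3_3_40_7)) (.joinJ (b :=
  104) (.joinK (b := 104) bl_3_3_40_8 bl_3_3_40_9) (.joinK (b := 104) (.empty (by decide))
  bl_3_3_40_10)))) (.joinM (b := 46) bl_3_3_40_11 bl_3_3_40_12)) (.empty (by decide))) (.joinJ (b
  := 112) (.joinJ (b := 104) (.joinK (b := 120) (.joinM (b := 44) bl_3_3_40_13 bl_3_3_40_14)
  (.joinM (b := 44) bl_3_3_40_15 bl_3_3_40_16)) (.joinK (b := 120) (.joinM (b := 44) (.joinJ (b :=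
  108) bl_3_3_40_17 bl_3_3_40_18) bl_3_3_40_19) (.joinM (b := 44) bl_3_3_40_20 bl_3_3_40_21)))
  bl_3_3_40_22))

theorem bx_3_3_48_64 : RootOK 96 128 96 128 48 64 :=
  (.joinM (b := 56) (.joinK (b := 112) (.joinJ (b := 112) bl_3_3_48_1 (.empty (by decide)))
  (.joinJ (b := 112) (.joinM (b := 52) (.joinJ (b := 104) bl_3_3_48_2 (.joinK (b := 120)
  bl_3_3_48_3 bl_3_3_48_4)) bl_3_3_48_5) bl_3_3_48_6)) (.joinM (b := 60) (.joinJ (b := 112)
  (.joinK (b := 112) bl_3_3_48_7 bl_3_3_48_8) bl_3_3_48_9) bl_3_3_48_10))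

theorem bx_3_3_64_80 : RootOK 96 128 96 128 64 80 :=
  (.joinM (b := 72) bl_3_3_64_1 bl_3_3_64_2)

theorem bx_3_3_80_96 : RootOK 96 128 96 128 80 96 :=
  bl_3_3_80_1

theorem bx_3_3_96_114 : RootOK 96 128 96 128 96 114 :=
  bl_3_3_96_1

theorem bx_3_3_114_116 : RootOK 96 128 96 128 114 116 :=
  bl_3_3_114_1

theorem bx_3_3_116_120 : RootOK 96 128 96 128 116 120 :=
  bl_3_3_116_1

theorem bx_3_3_120_124 : RootOK 96 128 96 128 120 124 :=
  bl_3_3_120_1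

theorem bx_3_3_124_128 : RootOK 96 128 96 128 124 128 :=
  bl_3_3_124_1

theorem bx_3_4_16_24 : RootOK 96 128 128 192 16 24 :=
  (.joinM (b := 20) (.joinM (b := 18) (.joinM (b := 17) (.joinK (b := 160) (.joinJ (b := 112)
  (.joinJ (b := 104) bl_3_4_16_1 (.joinK (b := 144) bl_3_4_16_2 bl_3_4_16_3)) (.joinK (b := 144)
  (.joinJ (b := 120) (.joinK (b := 136) (.joinJ (b := 116) bl_3_4_16_4 bl_3_4_16_5) bl_3_4_16_6)
  (.joinK (b := 136) (.joinK (b := 132) (.joinJ (b := 124) bl_3_4_16_7 bl_3_4_16_8) bl_3_4_16_9)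
  (.joinJ (b := 124) bl_3_4_16_10 (.joinK (b := 140) bl_3_4_16_11 bl_3_4_16_12)))) (.joinJ (b :=
  120) bl_3_4_16_13 (.joinK (b := 152) bl_3_4_16_14 bl_3_4_16_15)))) (.joinJ (b := 112)
  bl_3_4_16_16 (.joinK (b := 176) (.joinJ (b := 120) bl_3_4_16_17 bl_3_4_16_18) bl_3_4_16_19)))
  (.joinK (b := 160) (.joinJ (b := 112) (.joinK (b := 144) (.joinJ (b := 104) bl_3_4_16_20
  bl_3_4_16_21) bl_3_4_16_22) (.joinK (b := 144) (.joinJ (b := 120) (.joinK (b := 136) (.joinJ (b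
  := 116) bl_3_4_16_23 bl_3_4_16_24) bl_3_4_16_25) (.joinK (b := 136) bl_3_4_16_26 (.joinJ (b :=
  124) bl_3_4_16_27 (.joinK (b := 140) bl_3_4_16_28 bl_3_4_16_29)))) bl_3_4_16_30)) (.joinJ (b :=
  112) bl_3_4_16_31 (.joinK (b := 176) (.joinJ (b := 120) bl_3_4_16_32 bl_3_4_16_33)
  bl_3_4_16_34)))) (.joinM (b := 19) (.joinK (b := 160) (.joinJ (b := 112) (.joinK (b := 144)
  (.joinJ (b := 104) bl_3_4_16_35 bl_3_4_16_36) bl_3_4_16_37) (.joinK (b := 144) (.joinJ (b :=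
  120) (.joinK (b := 136) bl_3_4_16_38 bl_3_4_16_39) (.joinK (b := 136) bl_3_4_16_40 (.joinJ (b :=
  124) bl_3_4_16_41 bl_3_4_16_42))) bl_3_4_16_43)) (.joinJ (b := 112) bl_3_4_16_44 (.joinK (b :=
  176) (.joinJ (b := 120) bl_3_4_16_45 bl_3_4_16_46) bl_3_4_16_47))) (.joinK (b := 160) (.joinJ (b
  := 112) (.joinK (b := 144) bl_3_4_16_48 bl_3_4_16_49) (.joinK (b := 144) (.joinJ (b := 120)
  (.joinK (b := 136) bl_3_4_16_50 bl_3_4_16_51) bl_3_4_16_52) (.joinJ (b := 120) bl_3_4_16_53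
  bl_3_4_16_54))) (.joinJ (b := 112) bl_3_4_16_55 (.joinK (b := 176) (.joinJ (b := 120)
  bl_3_4_16_56 bl_3_4_16_57) bl_3_4_16_58))))) (.joinM (b := 22) (.joinM (b := 21) (.joinK (b :=
  160) (.joinJ (b := 112) (.joinK (b := 144) bl_3_4_16_59 (.joinJ (b := 104) bl_3_4_16_60
  bl_3_4_16_61)) (.joinK (b := 144) (.joinJ (b := 120) (.joinK (b := 136) bl_3_4_16_62
  bl_3_4_16_63) bl_3_4_16_64) (.joinJ (b := 120) bl_3_4_16_65 bl_3_4_16_66))) (.joinJ (b := 112)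
  bl_3_4_16_67 (.joinJ (b := 120) bl_3_4_16_68 bl_3_4_16_69))) (.joinK (b := 160) (.joinJ (b :=
  112) (.joinJ (b := 104) (.joinK (b := 144) bl_3_4_16_70 bl_3_4_16_71) (.joinK (b := 144)
  bl_3_4_16_72 bl_3_4_16_73)) (.joinJ (b := 120) (.joinK (b := 144) (.joinK (b := 136)
  bl_3_4_16_74 bl_3_4_16_75) bl_3_4_16_76) (.joinK (b := 144) bl_3_4_16_77 bl_3_4_16_78))) (.joinJ
  (b := 112) bl_3_4_16_79 (.joinJ (b := 120) bl_3_4_16_80 bl_3_4_16_81)))) (.joinM (b := 23)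
  (.joinK (b := 160) (.joinJ (b := 112) (.joinK (b := 144) bl_3_4_16_82 (.joinJ (b := 104)
  bl_3_4_16_83 bl_3_4_16_84)) (.joinK (b := 144) (.joinK (b := 136) (.joinJ (b := 120)
  bl_3_4_16_85 bl_3_4_16_86) (.joinJ (b := 120) bl_3_4_16_87 bl_3_4_16_88)) bl_3_4_16_89)) (.joinJ
  (b := 112) bl_3_4_16_90 (.joinJ (b := 120) bl_3_4_16_91 bl_3_4_16_92))) (.joinK (b := 160)
  (.joinJ (b := 112) (.joinK (b := 144) bl_3_4_16_93 (.joinJ (b := 104) bl_3_4_16_94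
  bl_3_4_16_95)) (.joinK (b := 144) (.joinJ (b := 120) (.joinK (b := 136) bl_3_4_16_96
  bl_3_4_16_97) bl_3_4_16_98) bl_3_4_16_99)) (.joinJ (b := 112) bl_3_4_16_100 (.joinJ (b := 120)
  bl_3_4_16_101 bl_3_4_16_102))))))

theorem bx_3_4_24_32 : RootOK 96 128 128 192 24 32 :=
  (.joinM (b := 28) (.joinM (b := 26) (.joinM (b := 25) (.joinK (b := 160) (.joinJ (b := 112)
  (.joinK (b := 144) bl_3_4_24_1 (.joinJ (b := 104) bl_3_4_24_2 bl_3_4_24_3)) (.joinK (b := 144)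
  (.joinJ (b := 120) (.joinK (b := 136) bl_3_4_24_4 bl_3_4_24_5) bl_3_4_24_6) bl_3_4_24_7))
  (.joinJ (b := 112) bl_3_4_24_8 (.joinK (b := 176) bl_3_4_24_9 bl_3_4_24_10))) (.joinK (b := 160)
  (.joinJ (b := 112) (.joinK (b := 144) bl_3_4_24_11 (.joinJ (b := 104) bl_3_4_24_12
  bl_3_4_24_13)) (.joinK (b := 144) (.joinJ (b := 120) bl_3_4_24_14 bl_3_4_24_15) bl_3_4_24_16))
  (.joinJ (b := 112) bl_3_4_24_17 (.joinK (b := 176) bl_3_4_24_18 bl_3_4_24_19)))) (.joinM (b :=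
  27) (.joinK (b := 160) (.joinJ (b := 112) (.joinJ (b := 104) (.joinK (b := 144) bl_3_4_24_20
  bl_3_4_24_21) (.joinK (b := 144) bl_3_4_24_22 bl_3_4_24_23)) (.joinK (b := 144) bl_3_4_24_24
  bl_3_4_24_25)) (.joinJ (b := 112) bl_3_4_24_26 bl_3_4_24_27)) (.joinJ (b := 112) (.joinK (b :=
  160) (.joinJ (b := 104) (.joinK (b := 144) bl_3_4_24_28 bl_3_4_24_29) (.joinK (b := 144)
  bl_3_4_24_30 bl_3_4_24_31)) bl_3_4_24_32) (.joinK (b := 160) (.joinK (b := 144) bl_3_4_24_33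
  bl_3_4_24_34) bl_3_4_24_35)))) (.joinM (b := 30) (.joinM (b := 29) (.joinK (b := 160) (.joinJ (b
  := 112) (.joinK (b := 144) bl_3_4_24_36 (.joinJ (b := 104) bl_3_4_24_37 bl_3_4_24_38)) (.joinK
  (b := 144) bl_3_4_24_39 bl_3_4_24_40)) (.joinJ (b := 112) bl_3_4_24_41 bl_3_4_24_42)) (.joinJ (b
  := 112) (.joinK (b := 160) (.joinK (b := 144) bl_3_4_24_43 (.joinJ (b := 104) bl_3_4_24_44
  bl_3_4_24_45)) (.joinJ (b := 104) bl_3_4_24_46 bl_3_4_24_47)) (.joinK (b := 160) (.joinK (b :=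
  144) bl_3_4_24_48 bl_3_4_24_49) bl_3_4_24_50))) (.joinM (b := 31) (.joinJ (b := 112) (.joinK (b
  := 160) (.joinK (b := 144) bl_3_4_24_51 (.joinJ (b := 104) bl_3_4_24_52 bl_3_4_24_53)) (.joinK
  (b := 176) (.joinJ (b := 104) bl_3_4_24_54 bl_3_4_24_55) bl_3_4_24_56)) (.joinK (b := 160)
  (.joinK (b := 144) bl_3_4_24_57 bl_3_4_24_58) bl_3_4_24_59)) (.joinK (b := 160) (.joinJ (b :=
  112) (.joinK (b := 144) bl_3_4_24_60 (.joinJ (b := 104) bl_3_4_24_61 bl_3_4_24_62)) (.joinK (b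
  := 144) bl_3_4_24_63 bl_3_4_24_64)) (.joinJ (b := 112) (.joinK (b := 176) (.joinJ (b := 104)
  bl_3_4_24_65 bl_3_4_24_66) bl_3_4_24_67) bl_3_4_24_68)))))

theorem bx_3_4_32_40 : RootOK 96 128 128 192 32 40 :=
  (.joinK (b := 160) (.joinJ (b := 112) (.joinK (b := 144) (.joinK (b := 136) (.joinJ (b := 104)
  bl_3_4_32_1 bl_3_4_32_2) bl_3_4_32_3) (.joinM (b := 36) (.joinJ (b := 104) bl_3_4_32_4
  bl_3_4_32_5) (.joinJ (b := 104) bl_3_4_32_6 bl_3_4_32_7))) (.joinK (b := 144) bl_3_4_32_8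
  bl_3_4_32_9)) (.joinJ (b := 112) (.joinJ (b := 104) (.joinK (b := 176) (.joinM (b := 36)
  bl_3_4_32_10 bl_3_4_32_11) bl_3_4_32_12) (.joinK (b := 176) bl_3_4_32_13 bl_3_4_32_14)) (.joinJ
  (b := 120) (.joinK (b := 176) bl_3_4_32_15 bl_3_4_32_16) bl_3_4_32_17)))

theorem bx_3_4_40_48 : RootOK 96 128 128 192 40 48 :=
  (.joinK (b := 160) (.joinJ (b := 112) (.joinK (b := 144) (.joinJ (b := 104) bl_3_4_40_1
  bl_3_4_40_2) (.joinJ (b := 104) (.joinM (b := 44) bl_3_4_40_3 bl_3_4_40_4) bl_3_4_40_5)) (.joinK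
  (b := 144) bl_3_4_40_6 bl_3_4_40_7)) (.joinJ (b := 112) (.joinJ (b := 104) (.joinK (b := 176)
  bl_3_4_40_8 (.joinM (b := 44) bl_3_4_40_9 bl_3_4_40_10)) (.joinK (b := 176) (.joinM (b := 44)
  bl_3_4_40_11 bl_3_4_40_12) bl_3_4_40_13)) (.joinK (b := 176) bl_3_4_40_14 (.joinJ (b := 120)
  bl_3_4_40_15 bl_3_4_40_16))))

theorem bx_3_4_48_64 : RootOK 96 128 128 192 48 64 :=
  (.joinM (b := 56) (.joinK (b := 160) (.joinJ (b := 112) (.joinK (b := 144) (.joinM (b := 52)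
  bl_3_4_48_1 bl_3_4_48_2) bl_3_4_48_3) (.joinK (b := 144) (.joinK (b := 136) bl_3_4_48_4
  bl_3_4_48_5) bl_3_4_48_6)) (.joinJ (b := 112) (.joinK (b := 176) (.joinJ (b := 104) (.joinM (b
  := 52) bl_3_4_48_7 bl_3_4_48_8) (.joinM (b := 52) bl_3_4_48_9 bl_3_4_48_10)) (.joinJ (b := 104)
  bl_3_4_48_11 bl_3_4_48_12)) (.joinJ (b := 120) (.joinM (b := 52) bl_3_4_48_13 bl_3_4_48_14)
  bl_3_4_48_15))) (.joinK (b := 160) (.joinJ (b := 112) bl_3_4_48_16 bl_3_4_48_17) (.joinJ (b :=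
  112) (.joinK (b := 176) bl_3_4_48_18 (.joinM (b := 60) bl_3_4_48_19 bl_3_4_48_20))
  bl_3_4_48_21)))

theorem bx_3_4_64_80 : RootOK 96 128 128 192 64 80 :=
  (.joinM (b := 72) bl_3_4_64_1 bl_3_4_64_2)

theorem bx_3_4_80_96 : RootOK 96 128 128 192 80 96 :=
  bl_3_4_80_1

theorem bx_3_4_96_114 : RootOK 96 128 128 192 96 114 :=
  bl_3_4_96_1

theorem bx_3_4_114_116 : RootOK 96 128 128 192 114 116 :=
  bl_3_4_114_1

theorem bx_3_4_116_120 : RootOK 96 128 128 192 116 120 :=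
  bl_3_4_116_1

theorem bx_3_4_120_124 : RootOK 96 128 128 192 120 124 :=
  bl_3_4_120_1

theorem bx_3_4_124_128 : RootOK 96 128 128 192 124 128 :=
  bl_3_4_124_1

theorem bx_4_4_16_24 : RootOK 128 192 128 192 16 24 :=
  (.joinK (b := 160) (.joinJ (b := 160) (.joinM (b := 20) (.joinM (b := 18) (.joinM (b := 17)
  bl_4_4_16_1 (.joinK (b := 144) (.joinJ (b := 144) (.joinK (b := 136) (.joinJ (b := 136)
  bl_4_4_16_2 (.empty (by decide))) (.joinJ (b := 136) (.joinJ (b := 132) bl_4_4_16_3 (.joinK (b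
  := 140) bl_4_4_16_4 bl_4_4_16_5)) bl_4_4_16_6)) (.empty (by decide))) bl_4_4_16_7)) (.joinM (b
  := 19) (.joinK (b := 144) (.joinJ (b := 144) (.joinK (b := 136) (.joinJ (b := 136) bl_4_4_16_8
  (.empty (by decide))) (.joinJ (b := 136) (.joinJ (b := 132) bl_4_4_16_9 (.joinK (b := 140)
  bl_4_4_16_10 bl_4_4_16_11)) bl_4_4_16_12)) (.empty (by decide))) bl_4_4_16_13) (.joinJ (b :=
  144) (.joinK (b := 144) (.joinK (b := 136) (.joinJ (b := 136) bl_4_4_16_14 (.empty (by decide)))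
  (.joinJ (b := 136) (.joinK (b := 140) bl_4_4_16_15 bl_4_4_16_16) bl_4_4_16_17)) (.joinJ (b :=
  136) (.joinK (b := 152) (.joinJ (b := 132) bl_4_4_16_18 bl_4_4_16_19) bl_4_4_16_20)
  bl_4_4_16_21)) bl_4_4_16_22))) (.joinM (b := 22) (.joinM (b := 21) (.joinJ (b := 144) (.joinK (b
  := 144) (.joinJ (b := 136) (.joinK (b := 136) bl_4_4_16_23 (.joinJ (b := 132) bl_4_4_16_24
  bl_4_4_16_25)) (.joinK (b := 136) (.empty (by decide)) bl_4_4_16_26)) (.joinJ (b := 136) (.joinK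
  (b := 152) (.joinJ (b := 132) bl_4_4_16_27 bl_4_4_16_28) bl_4_4_16_29) bl_4_4_16_30))
  bl_4_4_16_31) (.joinK (b := 144) (.joinJ (b := 144) (.joinJ (b := 136) (.joinK (b := 136)
  bl_4_4_16_32 (.joinJ (b := 132) bl_4_4_16_33 bl_4_4_16_34)) (.joinK (b := 136) (.empty (by
  decide)) bl_4_4_16_35)) (.empty (by decide))) bl_4_4_16_36)) (.joinM (b := 23) (.joinK (b :=
  144) (.joinJ (b := 144) (.joinJ (b := 136) (.joinK (b := 136) bl_4_4_16_37 bl_4_4_16_38) (.joinK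
  (b := 136) (.empty (by decide)) bl_4_4_16_39)) (.empty (by decide))) (.joinJ (b := 144) (.joinJ
  (b := 136) (.joinK (b := 152) (.joinJ (b := 132) bl_4_4_16_40 bl_4_4_16_41) bl_4_4_16_42)
  (.joinK (b := 152) bl_4_4_16_43 bl_4_4_16_44)) (.joinK (b := 152) (.joinJ (b := 152)
  bl_4_4_16_45 (.empty (by decide))) bl_4_4_16_46))) (.joinK (b := 144) (.joinJ (b := 144) (.joinK
  (b := 136) (.joinJ (b := 136) bl_4_4_16_47 (.empty (by decide))) (.joinJ (b := 136) bl_4_4_16_48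
  bl_4_4_16_49)) (.empty (by decide))) (.joinJ (b := 144) (.joinK (b := 152) (.joinJ (b := 136)
  bl_4_4_16_50 bl_4_4_16_51) (.joinJ (b := 136) bl_4_4_16_52 bl_4_4_16_53)) bl_4_4_16_54)))))
  (.empty (by decide))) bl_4_4_16_55)

theorem bx_4_4_24_32 : RootOK 128 192 128 192 24 32 :=
  (.joinK (b := 160) (.joinM (b := 28) (.joinK (b := 144) (.joinM (b := 26) (.joinK (b := 136)
  (.joinK (b := 132) (.joinK (b := 130) (.joinJ (b := 160) (.joinJ (b := 144) (.joinJ (b := 136)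
  bl_4_4_24_1 (.empty (by decide))) (.empty (by decide))) (.empty (by decide))) (.joinM (b := 25)
  (.joinK (b := 131) (.joinJ (b := 160) (.joinJ (b := 144) (.joinJ (b := 136) bl_4_4_24_2 (.empty
  (by decide))) (.empty (by decide))) (.empty (by decide))) (.joinJ (b := 160) (.joinJ (b := 144)
  (.joinJ (b := 136) bl_4_4_24_3 (.empty (by decide))) (.empty (by decide))) (.empty (by
  decide)))) (.joinK (b := 131) (.joinJ (b := 160) (.joinJ (b := 144) bl_4_4_24_4 (.empty (by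
  decide))) (.empty (by decide))) (.joinJ (b := 160) (.joinJ (b := 144) bl_4_4_24_5 (.empty (by
  decide))) (.empty (by decide)))))) (.joinK (b := 134) (.joinK (b := 133) (.joinM (b := 25)
  (.joinJ (b := 160) (.joinJ (b := 144) (.joinJ (b := 136) bl_4_4_24_6 (.empty (by decide)))
  (.empty (by decide))) (.empty (by decide))) (.joinJ (b := 160) (.joinJ (b := 144) bl_4_4_24_7
  (.empty (by decide))) (.empty (by decide)))) (.joinM (b := 25) (.joinJ (b := 160) (.joinJ (b :=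
  144) (.joinJ (b := 136) bl_4_4_24_8 (.empty (by decide))) (.empty (by decide))) (.empty (by
  decide))) (.joinJ (b := 160) (.joinJ (b := 144) bl_4_4_24_9 (.empty (by decide))) (.empty (by
  decide))))) (.joinM (b := 25) (.joinK (b := 135) (.joinJ (b := 160) (.joinJ (b := 144) (.joinJ
  (b := 136) bl_4_4_24_10 (.empty (by decide))) (.empty (by decide))) (.empty (by decide)))
  (.joinJ (b := 160) (.joinJ (b := 144) (.joinJ (b := 136) bl_4_4_24_11 (.empty (by decide)))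
  (.empty (by decide))) (.empty (by decide)))) (.joinK (b := 135) (.joinJ (b := 160) (.joinJ (b :=
  144) bl_4_4_24_12 (.empty (by decide))) (.empty (by decide))) (.joinJ (b := 160) (.joinJ (b :=
  144) (.joinJ (b := 136) bl_4_4_24_13 (.empty (by decide))) (.empty (by decide))) (.empty (by
  decide))))))) (.joinM (b := 25) (.joinK (b := 140) (.joinK (b := 138) (.joinK (b := 137) (.joinJ
  (b := 160) (.joinJ (b := 144) bl_4_4_24_14 (.empty (by decide))) (.empty (by decide))) (.joinJ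
  (b := 160) (.joinJ (b := 144) bl_4_4_24_15 (.empty (by decide))) (.empty (by decide)))) (.joinK
  (b := 139) (.joinJ (b := 160) (.joinJ (b := 144) bl_4_4_24_16 (.empty (by decide))) (.empty (by
  decide))) (.joinJ (b := 160) (.joinJ (b := 144) bl_4_4_24_17 (.empty (by decide))) (.empty (by
  decide))))) (.joinJ (b := 160) (.joinJ (b := 144) (.joinJ (b := 136) bl_4_4_24_18 bl_4_4_24_19)
  (.empty (by decide))) (.empty (by decide)))) (.joinK (b := 140) (.joinK (b := 138) (.joinK (b :=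
  137) (.joinJ (b := 160) (.joinJ (b := 144) bl_4_4_24_20 (.empty (by decide))) (.empty (by
  decide))) (.joinJ (b := 160) (.joinJ (b := 144) bl_4_4_24_21 (.empty (by decide))) (.empty (by
  decide)))) (.joinK (b := 139) (.joinJ (b := 160) (.joinJ (b := 144) bl_4_4_24_22 (.empty (by
  decide))) (.empty (by decide))) (.joinJ (b := 160) (.joinJ (b := 144) bl_4_4_24_23 (.empty (by
  decide))) (.empty (by decide))))) (.joinJ (b := 160) (.joinJ (b := 144) (.joinJ (b := 136)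
  bl_4_4_24_24 bl_4_4_24_25) (.empty (by decide))) (.empty (by decide)))))) (.joinK (b := 136)
  (.joinJ (b := 160) (.joinJ (b := 144) (.joinJ (b := 136) bl_4_4_24_26 (.empty (by decide)))
  (.empty (by decide))) (.empty (by decide))) (.joinJ (b := 160) (.joinJ (b := 144) (.joinJ (b :=
  136) bl_4_4_24_27 bl_4_4_24_28) (.empty (by decide))) (.empty (by decide))))) (.joinK (b := 152)
  (.joinM (b := 26) bl_4_4_24_29 (.joinK (b := 148) (.joinM (b := 27) (.joinJ (b := 160) (.joinJ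
  (b := 144) (.joinJ (b := 136) bl_4_4_24_30 bl_4_4_24_31) bl_4_4_24_32) (.empty (by decide)))
  (.joinJ (b := 160) (.joinJ (b := 144) (.joinJ (b := 136) bl_4_4_24_33 bl_4_4_24_34)
  bl_4_4_24_35) (.empty (by decide)))) (.joinK (b := 150) (.joinK (b := 149) (.joinM (b := 27)
  (.joinJ (b := 160) (.joinJ (b := 144) (.joinJ (b := 136) bl_4_4_24_36 bl_4_4_24_37)
  bl_4_4_24_38) (.empty (by decide))) (.joinJ (b := 160) (.joinJ (b := 144) bl_4_4_24_39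
  bl_4_4_24_40) (.empty (by decide)))) (.joinM (b := 27) bl_4_4_24_41 (.joinJ (b := 160) (.joinJ
  (b := 144) bl_4_4_24_42 bl_4_4_24_43) (.empty (by decide))))) (.joinM (b := 27) (.joinJ (b :=
  160) (.joinJ (b := 144) bl_4_4_24_44 bl_4_4_24_45) (.empty (by decide))) (.joinK (b := 151)
  (.joinJ (b := 160) (.joinJ (b := 144) bl_4_4_24_46 bl_4_4_24_47) (.empty (by decide))) (.joinJ
  (b := 160) (.joinJ (b := 144) bl_4_4_24_48 bl_4_4_24_49) (.empty (by decide))))))))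
  bl_4_4_24_50)) (.joinM (b := 30) (.joinM (b := 29) (.joinK (b := 144) (.joinJ (b := 160) (.joinJ
  (b := 144) bl_4_4_24_51 (.empty (by decide))) (.empty (by decide))) (.joinK (b := 152) (.joinK
  (b := 148) (.joinK (b := 146) (.joinJ (b := 160) (.joinJ (b := 144) bl_4_4_24_52 bl_4_4_24_53)
  (.empty (by decide))) (.joinK (b := 147) (.joinJ (b := 160) (.joinJ (b := 144) bl_4_4_24_54
  bl_4_4_24_55) (.empty (by decide))) (.joinJ (b := 160) (.joinJ (b := 144) bl_4_4_24_56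
  bl_4_4_24_57) (.empty (by decide))))) (.joinK (b := 150) (.joinK (b := 149) (.joinJ (b := 160)
  (.joinJ (b := 144) bl_4_4_24_58 bl_4_4_24_59) (.empty (by decide))) (.joinJ (b := 160) (.joinJ
  (b := 144) bl_4_4_24_60 bl_4_4_24_61) (.empty (by decide)))) (.joinK (b := 151) (.joinJ (b :=
  160) (.joinJ (b := 144) bl_4_4_24_62 bl_4_4_24_63) (.empty (by decide))) (.joinJ (b := 160)
  (.joinJ (b := 144) bl_4_4_24_64 bl_4_4_24_65) (.empty (by decide)))))) bl_4_4_24_66)) (.joinJ (b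
  := 160) (.joinK (b := 144) (.joinJ (b := 144) bl_4_4_24_67 (.empty (by decide))) (.joinJ (b :=
  144) bl_4_4_24_68 bl_4_4_24_69)) (.empty (by decide)))) (.joinK (b := 144) (.joinJ (b := 160)
  (.joinJ (b := 144) bl_4_4_24_70 (.empty (by decide))) (.empty (by decide))) (.joinM (b := 31)
  (.joinJ (b := 160) (.joinJ (b := 144) bl_4_4_24_71 bl_4_4_24_72) (.empty (by decide))) (.joinJ
  (b := 160) (.joinJ (b := 144) bl_4_4_24_73 bl_4_4_24_74) (.empty (by decide))))))) bl_4_4_24_75)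

theorem bx_4_4_32_40 : RootOK 128 192 128 192 32 40 :=
  (.joinM (b := 36) (.joinK (b := 160) (.joinJ (b := 160) (.joinJ (b := 144) (.joinK (b := 144)
  bl_4_4_32_1 bl_4_4_32_2) (.joinK (b := 144) (.empty (by decide)) bl_4_4_32_3)) (.empty (by
  decide))) (.joinK (b := 176) (.joinK (b := 168) (.joinK (b := 164) (.joinK (b := 162)
  bl_4_4_32_4 bl_4_4_32_5) (.joinK (b := 166) bl_4_4_32_6 bl_4_4_32_7)) bl_4_4_32_8) bl_4_4_32_9))
  (.joinM (b := 38) (.joinM (b := 37) (.joinK (b := 160) (.joinJ (b := 160) (.joinK (b := 144)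
  (.joinJ (b := 144) bl_4_4_32_10 (.empty (by decide))) (.joinJ (b := 144) bl_4_4_32_11
  bl_4_4_32_12)) (.empty (by decide))) (.joinK (b := 176) (.joinK (b := 168) (.joinK (b := 164)
  bl_4_4_32_13 bl_4_4_32_14) bl_4_4_32_15) (.joinJ (b := 160) bl_4_4_32_16 bl_4_4_32_17))) (.joinJ
  (b := 160) (.joinK (b := 160) (.joinK (b := 144) (.joinJ (b := 144) bl_4_4_32_18 (.empty (by
  decide))) (.joinJ (b := 144) bl_4_4_32_19 bl_4_4_32_20)) (.joinJ (b := 144) bl_4_4_32_21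
  bl_4_4_32_22)) (.joinK (b := 160) (.empty (by decide)) bl_4_4_32_23))) (.joinJ (b := 160)
  (.joinK (b := 160) (.joinJ (b := 144) (.joinK (b := 144) bl_4_4_32_24 bl_4_4_32_25) (.joinK (b
  := 144) (.empty (by decide)) bl_4_4_32_26)) (.joinJ (b := 144) bl_4_4_32_27 bl_4_4_32_28))
  (.joinK (b := 160) (.empty (by decide)) bl_4_4_32_29))))

theorem bx_4_4_40_48 : RootOK 128 192 128 192 40 48 :=
  (.joinK (b := 160) (.joinJ (b := 160) (.joinJ (b := 144) (.joinK (b := 144) bl_4_4_40_1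
  bl_4_4_40_2) (.joinK (b := 144) (.empty (by decide)) bl_4_4_40_3)) (.empty (by decide))) (.joinJ
  (b := 160) (.joinJ (b := 144) bl_4_4_40_4 bl_4_4_40_5) bl_4_4_40_6))

theorem bx_4_4_48_64 : RootOK 128 192 128 192 48 64 :=
  (.joinM (b := 56) (.joinJ (b := 160) (.joinK (b := 160) (.joinJ (b := 144) bl_4_4_48_1 (.joinK
  (b := 144) (.empty (by decide)) bl_4_4_48_2)) bl_4_4_48_3) (.joinK (b := 160) (.empty (by
  decide)) bl_4_4_48_4)) (.joinK (b := 160) (.joinJ (b := 160) bl_4_4_48_5 (.empty (by decide)))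
  bl_4_4_48_6))

theorem bx_4_4_64_80 : RootOK 128 192 128 192 64 80 :=
  (.joinM (b := 72) (.joinJ (b := 160) bl_4_4_64_1 bl_4_4_64_2) bl_4_4_64_3)

theorem bx_4_4_80_96 : RootOK 128 192 128 192 80 96 :=
  bl_4_4_80_1

theorem bx_4_4_96_114 : RootOK 128 192 128 192 96 114 :=
  bl_4_4_96_1

theorem bx_4_4_114_116 : RootOK 128 192 128 192 114 116 :=
  bl_4_4_114_1

theorem bx_4_4_116_120 : RootOK 128 192 128 192 116 120 :=
  bl_4_4_116_1

theorem bx_4_4_120_124 : RootOK 128 192 128 192 120 124 :=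
  bl_4_4_120_1

theorem bx_4_4_124_128 : RootOK 128 192 128 192 124 128 :=
  bl_4_4_124_1

theorem br_1_1 : RootOK 0 64 0 64 16 128 :=
  (((((((((((bx_1_1_16_24.joinM bx_1_1_24_32).joinM bx_1_1_32_40).joinM bx_1_1_40_48).joinM
  bx_1_1_48_64).joinM bx_1_1_64_80).joinM bx_1_1_80_96).joinM bx_1_1_96_114).joinM
  bx_1_1_114_116).joinM bx_1_1_116_120).joinM bx_1_1_120_124).joinM bx_1_1_124_128)

theorem br_1_2 : RootOK 0 64 64 96 16 128 :=
  (((((((((((bx_1_2_16_24.joinM bx_1_2_24_32).joinM bx_1_2_32_40).joinM bx_1_2_40_48).joinM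
  bx_1_2_48_64).joinM bx_1_2_64_80).joinM bx_1_2_80_96).joinM bx_1_2_96_114).joinM
  bx_1_2_114_116).joinM bx_1_2_116_120).joinM bx_1_2_120_124).joinM bx_1_2_124_128)

theorem br_1_3 : RootOK 0 64 96 128 16 128 :=
  (((((((((((bx_1_3_16_24.joinM bx_1_3_24_32).joinM bx_1_3_32_40).joinM bx_1_3_40_48).joinM
  bx_1_3_48_64).joinM bx_1_3_64_80).joinM bx_1_3_80_96).joinM bx_1_3_96_114).joinM
  bx_1_3_114_116).joinM bx_1_3_116_120).joinM bx_1_3_120_124).joinM bx_1_3_124_128)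

theorem br_1_4 : RootOK 0 64 128 192 16 128 :=
  (((((((((((bx_1_4_16_24.joinM bx_1_4_24_32).joinM bx_1_4_32_40).joinM bx_1_4_40_48).joinM
  bx_1_4_48_64).joinM bx_1_4_64_80).joinM bx_1_4_80_96).joinM bx_1_4_96_114).joinM
  bx_1_4_114_116).joinM bx_1_4_116_120).joinM bx_1_4_120_124).joinM bx_1_4_124_128)

theorem br_2_2 : RootOK 64 96 64 96 16 128 :=
  (((((((((((bx_2_2_16_24.joinM bx_2_2_24_32).joinM bx_2_2_32_40).joinM bx_2_2_40_48).joinM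
  bx_2_2_48_64).joinM bx_2_2_64_80).joinM bx_2_2_80_96).joinM bx_2_2_96_114).joinM
  bx_2_2_114_116).joinM bx_2_2_116_120).joinM bx_2_2_120_124).joinM bx_2_2_124_128)

theorem br_2_3 : RootOK 64 96 96 128 16 128 :=
  (((((((((((bx_2_3_16_24.joinM bx_2_3_24_32).joinM bx_2_3_32_40).joinM bx_2_3_40_48).joinM
  bx_2_3_48_64).joinM bx_2_3_64_80).joinM bx_2_3_80_96).joinM bx_2_3_96_114).joinM
  bx_2_3_114_116).joinM bx_2_3_116_120).joinM bx_2_3_120_124).joinM bx_2_3_124_128)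

theorem br_2_4 : RootOK 64 96 128 192 16 128 :=
  (((((((((((bx_2_4_16_24.joinM bx_2_4_24_32).joinM bx_2_4_32_40).joinM bx_2_4_40_48).joinM
  bx_2_4_48_64).joinM bx_2_4_64_80).joinM bx_2_4_80_96).joinM bx_2_4_96_114).joinM
  bx_2_4_114_116).joinM bx_2_4_116_120).joinM bx_2_4_120_124).joinM bx_2_4_124_128)

theorem br_3_3 : RootOK 96 128 96 128 16 128 :=
  (((((((((((bx_3_3_16_24.joinM bx_3_3_24_32).joinM bx_3_3_32_40).joinM bx_3_3_40_48).joinM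
  bx_3_3_48_64).joinM bx_3_3_64_80).joinM bx_3_3_80_96).joinM bx_3_3_96_114).joinM
  bx_3_3_114_116).joinM bx_3_3_116_120).joinM bx_3_3_120_124).joinM bx_3_3_124_128)

theorem br_3_4 : RootOK 96 128 128 192 16 128 :=
  (((((((((((bx_3_4_16_24.joinM bx_3_4_24_32).joinM bx_3_4_32_40).joinM bx_3_4_40_48).joinM
  bx_3_4_48_64).joinM bx_3_4_64_80).joinM bx_3_4_80_96).joinM bx_3_4_96_114).joinM
  bx_3_4_114_116).joinM bx_3_4_116_120).joinM bx_3_4_120_124).joinM bx_3_4_124_128)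

theorem br_4_4 : RootOK 128 192 128 192 16 128 :=
  (((((((((((bx_4_4_16_24.joinM bx_4_4_24_32).joinM bx_4_4_32_40).joinM bx_4_4_40_48).joinM
  bx_4_4_48_64).joinM bx_4_4_64_80).joinM bx_4_4_80_96).joinM bx_4_4_96_114).joinM
  bx_4_4_114_116).joinM bx_4_4_116_120).joinM bx_4_4_120_124).joinM bx_4_4_124_128)

/-- **all boxes**: `0 < Rj ≤ Rk < 3`, `π / 8 ≤ θ < π`, outside the tube -/
theorem boxes_all {Rj Rk θ : ℝ} (hj : 0 < Rj) (hjk : Rj ≤ Rk) (h3 : Rk < 3) (t0 : π / 8 ≤ θ)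
    (t1 : θ < π) : InTube Rj Rk θ ∨ RPair Fz g0z g1z g2z Rj Rk θ (cos θ) :=
  boxes_of br_1_1 br_1_2 br_1_3 br_1_4 br_2_2 br_2_3 br_2_4 br_3_3 br_3_4 br_4_4 hj hjk h3 t0 t1

end Pool.Agent.RRS
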