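import Pool.Agent.RRS.KapData

/-!
# The table of the slopes is valid
-/

set_option autoImplicit false

noncomputable section

namespace Pool.Agent.RRS

open Real

/-- the facts at a node -/
structure KNode (r : KRow) (x c : ℝ) : Prop where
  x7 : 7 / 10 ≤ x
  l1 : (r.l1 : ℝ) * (1 + 2 * x) ≤ 4096 * (4 * x ^ 2 + 2 * x - 1)
  l2 : (r.l2 : ℝ) ≤ 4096 * (4 * x ^ 2 - 1)
  l3 : (r.l3 : ℝ) ≤ 4096 * (8 * x ^ 3 + 4 * x ^ 2 - 4 * x - 1)
  h1 : 4096 * (4 * x ^ 2 + 2 * x - 1) ≤ (r.h1 : ℝ) * (1 + 2 * x)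
  h2 : 4096 * (4 * x ^ 2 - 1) ≤ (r.h2 : ℝ)
  h3 : 4096 * (8 * x ^ 3 + 4 * x ^ 2 - 4 * x - 1) ≤ (r.h3 : ℝ)
  lE : (r.lE : ℝ) ≤ 4096 * (1 + 2 * c)
  hE : 4096 * (1 + 2 * c) ≤ (r.hE : ℝ)
  b1 : (r.l1 : ℝ) ≤ 7000
  b2 : (r.h1 : ℝ) ≤ 7000

theorem mono1 {l x x0 : ℝ} (hx : 7 / 10 ≤ x0) (h : x0 ≤ x) (hl : l ≤ 7000)
    (h1 : l * (1 + 2 * x0) ≤ 4096 * (4 * x0 ^ 2 + 2 * x0 - 1)) :
    l * (1 + 2 * x) ≤ 4096 * (4 * x ^ 2 + 2 * x - 1) := by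
  have e : 4096 * (4 * x ^ 2 + 2 * x - 1) - l * (1 + 2 * x) =
      (4096 * (4 * x0 ^ 2 + 2 * x0 - 1) - l * (1 + 2 * x0)) +
        (x - x0) * (4096 * (4 * (x + x0) + 2) - 2 * l) := by ring
  have := mul_nonneg (sub_nonneg.2 h) (show 0 ≤ 4096 * (4 * (x + x0) + 2) - 2 * l by linarith)
  linarith

theorem mono1' {l x x1 : ℝ} (hx : 7 / 10 ≤ x) (h : x ≤ x1) (hl : l ≤ 7000)
    (h1 : 4096 * (4 * x1 ^ 2 + 2 * x1 - 1) ≤ l * (1 + 2 * x1)) :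
    4096 * (4 * x ^ 2 + 2 * x - 1) ≤ l * (1 + 2 * x) := by
  have e : 4096 * (4 * x ^ 2 + 2 * x - 1) - l * (1 + 2 * x) =
      (4096 * (4 * x1 ^ 2 + 2 * x1 - 1) - l * (1 + 2 * x1)) -
        (x1 - x) * (4096 * (4 * (x + x1) + 2) - 2 * l) := by ring
  have := mul_nonneg (sub_nonneg.2 h) (show 0 ≤ 4096 * (4 * (x + x1) + 2) - 2 * l by linarith)
  linarith

theorem mono2 {x x0 : ℝ} (hx : 7 / 10 ≤ x0) (h : x0 ≤ x) :
    4096 * (4 * x0 ^ 2 - 1) ≤ 4096 * (4 * x ^ 2 - 1) := by nlinarith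

theorem mono3 {x x0 : ℝ} (hx : 7 / 10 ≤ x0) (h : x0 ≤ x) :
    4096 * (8 * x0 ^ 3 + 4 * x0 ^ 2 - 4 * x0 - 1) ≤ 4096 * (8 * x ^ 3 + 4 * x ^ 2 - 4 * x - 1) := by
  have e : 4096 * (8 * x ^ 3 + 4 * x ^ 2 - 4 * x - 1) -
      4096 * (8 * x0 ^ 3 + 4 * x0 ^ 2 - 4 * x0 - 1) =
      4096 * ((x - x0) * (8 * (x ^ 2 + x * x0 + x0 ^ 2) + 4 * (x + x0) - 4)) := by ring
  have h1 : 0 ≤ 8 * (x ^ 2 + x * x0 + x0 ^ 2) + 4 * (x + x0) - 4 := by nlinarith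
  have := mul_nonneg (sub_nonneg.2 h) h1
  linarith

/-- `cos ((π - θ) / 4)` -/
def xK (θ : ℝ) : ℝ := cos ((π - θ) / 4)

theorem xK_mono {θ φ : ℝ} (h0 : 0 ≤ θ) (h : θ ≤ φ) (h1 : φ ≤ π) : xK θ ≤ xK φ := by
  unfold xK
  refine cos_le_cos_of_nonneg_of_le_pi (by linarith) (by linarith [Real.pi_pos]) (by linarith)

theorem cosh_anti {θ φ : ℝ} (h0 : 0 ≤ θ) (h : θ ≤ φ) (h1 : φ ≤ π) : cos (φ / 2) ≤ cos (θ / 2) :=
  cos_le_cos_of_nonneg_of_le_pi (by linarith) (by linarith [Real.pi_pos]) (by linarith)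

theorem node_ok {m : ℕ} (h1 : 14 ≤ m) (h2 : m ≤ 128) :
    KNode (kapT m) (xK (thG m)) (cos (thG m / 2)) := by
  have h := kChk_all m h1 h2
  simp only [kChk, Bool.and_eq_true, decide_eq_true_eq] at h
  obtain ⟨⟨⟨⟨⟨⟨⟨⟨⟨⟨c1, c2⟩, c3⟩, c4⟩, c5⟩, c6⟩, c7⟩, c8⟩, c9⟩, c10⟩, c11⟩ := h
  have hm' : (m : ℤ) ≤ 128 := by exact_mod_cast h2
  have hm0 : (0 : ℤ) ≤ m := by positivity
  have s1 := sZ_ok (k := 128 + m) (by omega) (by omega)
  have s2 := sZ_ok (k := 256 - 2 * m) (by omega) (by omega)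
  have e1 : xK (thG m) = sin (((128 + m : ℤ) : ℝ) * π / 512) := by
    unfold xK thG
    rw [← sin_pi_div_two_sub]
    congr 1
    push_cast
    ring
  have e2 : cos (thG m / 2) = sin (((256 - 2 * m : ℤ) : ℝ) * π / 512) := by
    unfold thG
    rw [← sin_pi_div_two_sub]
    congr 1
    push_cast
    ring
  rw [← e1] at s1
  rw [← e2] at s2
  obtain ⟨x, hx⟩ : ∃ x, x = xK (thG m) := ⟨_, rfl⟩
  obtain ⟨c, hc⟩ : ∃ c, c = cos (thG m / 2) := ⟨_, rfl⟩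
  rw [← hx] at s1
  rw [← hc] at s2
  rw [← hx, ← hc]
  obtain ⟨a, ha⟩ : ∃ a : ℝ, a = ((sZ (128 + m) - 1400 : ℤ) : ℝ) / 10 ^ 12 := ⟨_, rfl⟩
  obtain ⟨b, hb⟩ : ∃ b : ℝ, b = ((sZ (128 + m) + 1400 : ℤ) : ℝ) / 10 ^ 12 := ⟨_, rfl⟩
  have ha' : ((sZ (128 + m) - 1400 : ℤ) : ℝ) = a * 10 ^ 12 := by rw [ha]; field_simp
  have hb' : ((sZ (128 + m) + 1400 : ℤ) : ℝ) = b * 10 ^ 12 := by rw [hb]; field_simp
  have ax : a ≤ x := by
    rw [ha, div_le_iff₀ (by positivity)]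
    push_cast
    have := (abs_le.1 s1).1
    linarith
  have xb : x ≤ b := by
    rw [hb, le_div_iff₀ (by positivity)]
    push_cast
    have := (abs_le.1 s1).2
    linarith
  have a7 : 7 / 10 ≤ a := by
    rw [ha, le_div_iff₀ (by positivity)]
    have : ((700000000000 : ℤ) : ℝ) ≤ ((sZ (128 + m) - 1400 : ℤ) : ℝ) := by exact_mod_cast c11
    push_cast at this ⊢
    norm_num
    linarith
  have r9 : ((kapT m).l1 : ℝ) ≤ 7000 := by exact_mod_cast c9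
  have r10 : ((kapT m).h1 : ℝ) ≤ 7000 := by exact_mod_cast c10
  have r1 : (((kapT m).l1 : ℤ) : ℝ) * (10 ^ 12 + 2 * (a * 10 ^ 12)) * 10 ^ 12 ≤
      4096 * (4 * (a * 10 ^ 12) ^ 2 + 2 * (a * 10 ^ 12) * 10 ^ 12 - (10 ^ 12) ^ 2) := by
    rw [← ha']
    exact_mod_cast c1
  have r2 : (((kapT m).l2 : ℤ) : ℝ) * (10 ^ 12) ^ 2 ≤
      4096 * (4 * (a * 10 ^ 12) ^ 2 - (10 ^ 12) ^ 2) := by
    rw [← ha']
    exact_mod_cast c2
  have r3 : (((kapT m).l3 : ℤ) : ℝ) * (10 ^ 12) ^ 3 ≤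
      4096 * (8 * (a * 10 ^ 12) ^ 3 + 4 * (a * 10 ^ 12) ^ 2 * 10 ^ 12 -
        4 * (a * 10 ^ 12) * (10 ^ 12) ^ 2 - (10 ^ 12) ^ 3) := by
    rw [← ha']
    exact_mod_cast c3
  have r4 : 4096 * (4 * (b * 10 ^ 12) ^ 2 + 2 * (b * 10 ^ 12) * 10 ^ 12 - (10 ^ 12) ^ 2) ≤
      (((kapT m).h1 : ℤ) : ℝ) * (10 ^ 12 + 2 * (b * 10 ^ 12)) * 10 ^ 12 := by
    rw [← hb']
    exact_mod_cast c4
  have r5 : 4096 * (4 * (b * 10 ^ 12) ^ 2 - (10 ^ 12) ^ 2) ≤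
      (((kapT m).h2 : ℤ) : ℝ) * (10 ^ 12) ^ 2 := by
    rw [← hb']
    exact_mod_cast c5
  have r6 : 4096 * (8 * (b * 10 ^ 12) ^ 3 + 4 * (b * 10 ^ 12) ^ 2 * 10 ^ 12 -
        4 * (b * 10 ^ 12) * (10 ^ 12) ^ 2 - (10 ^ 12) ^ 3) ≤
      (((kapT m).h3 : ℤ) : ℝ) * (10 ^ 12) ^ 3 := by
    rw [← hb']
    exact_mod_cast c6
  have r7 : (((kapT m).lE : ℤ) : ℝ) * 10 ^ 12 ≤
      4096 * (10 ^ 12 + 2 * (sZ (256 - 2 * m) - 1400)) := by exact_mod_cast c7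
  have r8 : 4096 * (10 ^ 12 + 2 * (sZ (256 - 2 * m) + 1400)) ≤
      (((kapT m).hE : ℤ) : ℝ) * 10 ^ 12 := by exact_mod_cast c8
  rw [Int.cast_natCast] at r1 r2 r3 r4 r5 r6 r7 r8
  have q1 : ((kapT m).l1 : ℝ) * (1 + 2 * a) ≤ 4096 * (4 * a ^ 2 + 2 * a - 1) := by
    norm_num at r1
    linarith
  have q2 : ((kapT m).l2 : ℝ) ≤ 4096 * (4 * a ^ 2 - 1) := by
    norm_num at r2
    linarith
  have q3 : ((kapT m).l3 : ℝ) ≤ 4096 * (8 * a ^ 3 + 4 * a ^ 2 - 4 * a - 1) := by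
    norm_num at r3
    linarith
  have q4 : 4096 * (4 * b ^ 2 + 2 * b - 1) ≤ ((kapT m).h1 : ℝ) * (1 + 2 * b) := by
    norm_num at r4
    linarith
  have q5 : 4096 * (4 * b ^ 2 - 1) ≤ ((kapT m).h2 : ℝ) := by
    norm_num at r5
    linarith
  have q6 : 4096 * (8 * b ^ 3 + 4 * b ^ 2 - 4 * b - 1) ≤ ((kapT m).h3 : ℝ) := by
    norm_num at r6
    linarith
  refine ⟨a7.trans ax, mono1 a7 ax r9 q1, q2.trans (mono2 a7 ax), q3.trans (mono3 a7 ax),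
    mono1' (a7.trans ax) xb r10 q4, (mono2 (a7.trans ax) xb).trans q5,
    (mono3 (a7.trans ax) xb).trans q6, ?_, ?_, r9, r10⟩
  · have := (abs_le.1 s2).1
    norm_num at r7 this ⊢
    linarith
  · have := (abs_le.1 s2).2
    norm_num at r8 this ⊢
    linarith

/-- the sines -/
theorem sin_rel (y : ℝ) : sin (3 * y) = sin y * (1 + 2 * cos (2 * y)) ∧
    sin (5 * y) = sin y * (4 * cos (2 * y) ^ 2 + 2 * cos (2 * y) - 1) ∧
    sin (6 * y) = sin (2 * y) * (4 * cos (2 * y) ^ 2 - 1) ∧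
    sin (7 * y) = sin y * (8 * cos (2 * y) ^ 3 + 4 * cos (2 * y) ^ 2 - 4 * cos (2 * y) - 1) := by
  have hs := sin_sq_add_cos_sq y
  have h3 : sin (3 * y) = sin y * (1 + 2 * cos (2 * y)) := by
    rw [sin_three_mul, cos_two_mul]
    linear_combination (-4 * sin y) * hs
  have h6 : sin (6 * y) = sin (2 * y) * (4 * cos (2 * y) ^ 2 - 1) := by
    have := sin_sq_add_cos_sq (2 * y)
    rw [show 6 * y = 3 * (2 * y) by ring, sin_three_mul]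
    linear_combination (-4 * sin (2 * y)) * this
  have h5 : sin (5 * y) = sin y * (4 * cos (2 * y) ^ 2 + 2 * cos (2 * y) - 1) := by
    have e1 : sin (5 * y) + sin y = 2 * sin (3 * y) * cos (2 * y) := by
      rw [show 5 * y = 3 * y + 2 * y by ring, sin_add]
      have e2 : sin y = sin (3 * y) * cos (2 * y) - cos (3 * y) * sin (2 * y) := by
        rw [← sin_sub]
        congr 1
        ring
      linarith
    rw [h3] at e1
    linear_combination e1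
  have h7 : sin (7 * y) =
      sin y * (8 * cos (2 * y) ^ 3 + 4 * cos (2 * y) ^ 2 - 4 * cos (2 * y) - 1) := by
    have e1 : sin (7 * y) + sin (3 * y) = 2 * sin (5 * y) * cos (2 * y) := by
      rw [show 7 * y = 5 * y + 2 * y by ring, sin_add]
      have e2 : sin (3 * y) = sin (5 * y) * cos (2 * y) - cos (5 * y) * sin (2 * y) := by
        rw [← sin_sub]
        congr 1
        ring
      linarith
    rw [h3, h5] at e1
    linear_combination e1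
  exact ⟨h3, h5, h6, h7⟩

theorem thG_nn (m : ℕ) : 0 ≤ thG m := by
  unfold thG
  positivity

/-- the eight inequalities -/
theorem slopes {m0 m1 : ℕ} (h0 : 14 ≤ m0) (h01 : m0 ≤ m1) (h1 : m1 ≤ 128) {θ : ℝ}
    (t0 : thG m0 ≤ θ) (t1 : θ ≤ thG m1) :
    (((kapT m0).l1 : ℝ) * sin (3 * ((π - θ) / 8)) ≤ 4096 * sin (5 * ((π - θ) / 8)) ∧
      ((kapT m0).l2 : ℝ) * sin (2 * ((π - θ) / 8)) ≤ 4096 * sin (6 * ((π - θ) / 8)) ∧
      ((kapT m0).l3 : ℝ) * sin ((π - θ) / 8) ≤ 4096 * sin (7 * ((π - θ) / 8))) ∧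
    (4096 * sin (5 * ((π - θ) / 8)) ≤ ((kapT m1).h1 : ℝ) * sin (3 * ((π - θ) / 8)) ∧
      4096 * sin (6 * ((π - θ) / 8)) ≤ ((kapT m1).h2 : ℝ) * sin (2 * ((π - θ) / 8)) ∧
      4096 * sin (7 * ((π - θ) / 8)) ≤ ((kapT m1).h3 : ℝ) * sin ((π - θ) / 8)) ∧
    ((kapT m1).lE : ℝ) * sin (θ / 4) ≤ 4096 * sin (3 * (θ / 4)) ∧
      4096 * sin (3 * (θ / 4)) ≤ ((kapT m0).hE : ℝ) * sin (θ / 4) := by
  have hp := Real.pi_pos
  have g0 := thG_nn m0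
  have g1 : thG m1 ≤ π := by
    unfold thG
    have : (m1 : ℝ) ≤ 128 := by exact_mod_cast h1
    rw [div_le_iff₀ (by norm_num)]
    nlinarith
  obtain ⟨n7, nl1, nl2, nl3, -, -, -, -, nhE, nb1, -⟩ := node_ok h0 (h01.trans h1)
  obtain ⟨-, -, -, -, mh1, mh2, mh3, mlE, -, -, mb2⟩ := node_ok (h0.trans h01) h1
  have hx0 : xK (thG m0) ≤ xK θ := xK_mono g0 t0 (t1.trans g1)
  have hx1 : xK θ ≤ xK (thG m1) := xK_mono (g0.trans t0) t1 g1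
  have hc0 : cos (θ / 2) ≤ cos (thG m0 / 2) := cosh_anti g0 t0 (t1.trans g1)
  have hc1 : cos (thG m1 / 2) ≤ cos (θ / 2) := cosh_anti (g0.trans t0) t1 g1
  obtain ⟨y, hy⟩ : ∃ y, y = (π - θ) / 8 := ⟨_, rfl⟩
  have hxy : xK θ = cos (2 * y) := by
    unfold xK
    rw [hy]
    congr 1
    ring
  rw [hxy] at hx0 hx1
  rw [← hy]
  have y0 : 0 ≤ y := by rw [hy]; linarith [t1.trans g1]
  have y1 : y ≤ π / 8 := by rw [hy]; linarith
  have s1 : 0 ≤ sin y := sin_nonneg_of_nonneg_of_le_pi y0 (by linarith)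
  have s2 : 0 ≤ sin (2 * y) := sin_nonneg_of_nonneg_of_le_pi (by linarith) (by linarith)
  obtain ⟨r3, r5, r6, r7⟩ := sin_rel y
  obtain ⟨w, hw⟩ : ∃ w, w = θ / 4 := ⟨_, rfl⟩
  rw [← hw]
  have w0 : 0 ≤ sin w := sin_nonneg_of_nonneg_of_le_pi (by rw [hw]; linarith)
    (by rw [hw]; linarith [t1.trans g1])
  obtain ⟨v3, -, -, -⟩ := sin_rel w
  have hcw : cos (2 * w) = cos (θ / 2) := by
    rw [hw]
    congr 1
    ring
  rw [hcw] at v3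
  have x7 : 7 / 10 ≤ cos (2 * y) := n7.trans hx0
  have A1 := mono1 n7 hx0 nb1 nl1
  have A2 := nl2.trans (mono2 n7 hx0)
  have A3 := nl3.trans (mono3 n7 hx0)
  have B1 := mono1' x7 hx1 mb2 mh1
  have B2 := (mono2 x7 hx1).trans mh2
  have B3 := (mono3 x7 hx1).trans mh3
  refine ⟨⟨?_, ?_, ?_⟩, ⟨?_, ?_, ?_⟩, ?_, ?_⟩
  · rw [r3, r5]
    have := mul_le_mul_of_nonneg_left A1 s1
    linarith
  · rw [r6]
    have := mul_le_mul_of_nonneg_left A2 s2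
    linarith
  · rw [r7]
    have := mul_le_mul_of_nonneg_left A3 s1
    linarith
  · rw [r3, r5]
    have := mul_le_mul_of_nonneg_left B1 s1
    linarith
  · rw [r6]
    have := mul_le_mul_of_nonneg_left B2 s2
    linarith
  · rw [r7]
    have := mul_le_mul_of_nonneg_left B3 s1
    linarith
  · rw [v3]
    have := mul_le_mul_of_nonneg_left (show ((kapT m1).lE : ℝ) ≤ 4096 * (1 + 2 * cos (θ / 2)) by
      linarith) w0
    linarith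
  · rw [v3]
    have := mul_le_mul_of_nonneg_left (show 4096 * (1 + 2 * cos (θ / 2)) ≤ ((kapT m0).hE : ℝ) by
      linarith) w0
    linarith

/-- the coordinates of the boundaries -/
theorem abs_same {θ : ℝ} (h0 : 0 ≤ θ) (hπ : θ ≤ π) {b : ℕ} (hb : b ≤ 8) :
    |cos (tF θ b + θ / 2)| = sin ((8 - b) * ((π - θ) / 8)) ∧
      |cos (tF θ b - θ / 2)| = sin (b * ((π - θ) / 8)) := by
  have hb' : (b : ℝ) ≤ 8 := by exact_mod_cast hb
  have hb0 : (0 : ℝ) ≤ b := by positivity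
  have hp := Real.pi_pos
  rw [tF_same hb]
  constructor
  · rw [show (π - θ) / 2 * ((b : ℝ) / 4 - 1) + θ / 2 = π / 2 - (8 - b) * ((π - θ) / 8) by ring,
      cos_pi_div_two_sub, abs_of_nonneg]
    exact sin_nonneg_of_nonneg_of_le_pi (mul_nonneg (by linarith) (by linarith)) (by nlinarith)
  · rw [show (π - θ) / 2 * ((b : ℝ) / 4 - 1) - θ / 2 = -(π / 2 - b * ((π - θ) / 8)) by ring,
      cos_neg, cos_pi_div_two_sub, abs_of_nonneg]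
    exact sin_nonneg_of_nonneg_of_le_pi (mul_nonneg (by linarith) (by linarith)) (by nlinarith)

theorem abs_opp {θ : ℝ} (h0 : 0 ≤ θ) (hπ : θ ≤ π) {b : ℕ} (hb : 8 ≤ b) (hb2 : b ≤ 12) :
    |cos (tF θ b + θ / 2)| = sin ((b - 8) * (θ / 4)) ∧
      |cos (tF θ b - θ / 2)| = sin ((12 - b) * (θ / 4)) := by
  have hb' : (8 : ℝ) ≤ b := by exact_mod_cast hb
  have hb0 : (b : ℝ) ≤ 12 := by exact_mod_cast hb2
  have hp := Real.pi_pos
  rw [tF_opp hb hb2]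
  constructor
  · rw [show (π - θ) / 2 + θ * ((b : ℝ) - 8) / 4 + θ / 2 = (b - 8) * (θ / 4) + π / 2 by ring,
      cos_add_pi_div_two, abs_neg, abs_of_nonneg]
    exact sin_nonneg_of_nonneg_of_le_pi (mul_nonneg (by linarith) (by linarith)) (by nlinarith)
  · rw [show (π - θ) / 2 + θ * ((b : ℝ) - 8) / 4 - θ / 2 = π / 2 - (12 - b) * (θ / 4) by ring,
      cos_pi_div_two_sub, abs_of_nonneg]
    exact sin_nonneg_of_nonneg_of_le_pi (mul_nonneg (by linarith) (by linarith)) (by nlinarith)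

/-- **the table of the slopes** -/
theorem kapT_ok (m0 m1 : ℕ) (h0 : 14 ≤ m0) (h01 : m0 ≤ m1) (h1 : m1 ≤ 128) :
    KapOK kapT m0 m1 := by
  have hp := Real.pi_pos
  have g1 : thG m1 ≤ π := by
    unfold thG
    have : (m1 : ℝ) ≤ 128 := by exact_mod_cast h1
    rw [div_le_iff₀ (by norm_num)]
    nlinarith
  constructor
  · intro θ b t0 t1 hb hb8
    have hθ0 : 0 ≤ θ := (thG_nn m0).trans t0
    have hθ1 : θ ≤ π := t1.trans g1
    obtain ⟨⟨A1, A2, A3⟩, ⟨B1, B2, B3⟩, C, D⟩ := slopes h0 h01 h1 t0 t1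
    rcases le_or_gt b 8 with h | h
    · obtain ⟨e1, e2⟩ := abs_same hθ0 hθ1 h
      rw [e1, e2]
      interval_cases b <;> simp only [lowK] <;> push_cast <;> norm_num at * <;> assumption
    · obtain ⟨e1, e2⟩ := abs_opp hθ0 hθ1 h.le hb
      rw [e1, e2]
      interval_cases b <;> simp only [lowK] <;> push_cast <;> norm_num at * <;> assumption
  · intro θ b t0 t1 hb hb2
    have hθ0 : 0 ≤ θ := (thG_nn m0).trans t0
    have hθ1 : θ ≤ π := t1.trans g1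
    obtain ⟨⟨A1, A2, A3⟩, ⟨B1, B2, B3⟩, C, D⟩ := slopes h0 h01 h1 t0 t1
    rcases le_or_gt b 7 with h | h
    · obtain ⟨e1, e2⟩ := abs_same hθ0 hθ1 (show b ≤ 8 by omega)
      rw [e1, e2]
      interval_cases b <;> simp only [highK] <;> push_cast <;> norm_num at * <;> assumption
    · obtain ⟨e1, e2⟩ := abs_opp hθ0 hθ1 (show 8 ≤ b by omega) hb2.le
      rw [e1, e2]
      interval_cases b <;> simp only [highK] <;> push_cast <;> norm_num at * <;> assumption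

end Pool.Agent.RRS
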