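import Pool.Agent.RRS.TrigTab2
import Pool.Agent.RRS.TrigData

/-!
# The table of the weights is valid
-/

set_option autoImplicit false

noncomputable section

namespace Pool.Agent.RRS

theorem rowT_chk : ∀ m, 14 ≤ m → m < 128 → chkR (rowT m) (rowT (m + 1)) m = true := by
  have h : (List.range 114).all (fun k => chkR (rowT (k + 14)) (rowT (k + 14 + 1)) (k + 14)) =
    true := by decide +kernel
  intro m h1 h2
  have h3 := List.all_eq_true.1 h (m - 14) (List.mem_range.2 (by omega))
  simpa [show m - 14 + 14 = m by omega] using h3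

/-- **the table of the weights** -/
theorem rowT_ok (m : ℕ) (h1 : 14 ≤ m) (h2 : m < 128) : RowOK rowT m :=
  chkR_sound h2 (rowT_chk m h1 h2)

end Pool.Agent.RRS
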