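import Pool.Agent.RRS.Chk9
import Pool.Agent.RRS.TrigTab
import Pool.Agent.RRS.KapTab

/-!
# Joining root boxes
-/

set_option autoImplicit false

namespace Pool.Agent.RRS

open Real

/-- a root box from a tree, with the tables -/
theorem rootOK {p q : Piece} {J0 J1 K0 K1 m0 m1 : ℕ} (hp : PieceAt p J0 J1) (hq : PieceAt q K0 K1)
    (hm : 0 < m0) (t : T) (h : checkT kapT rowT p q t J0 J1 K0 K1 m0 m1 = true) :
    RootOK J0 J1 K0 K1 m0 m1 :=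
  rootOK_of kapT_ok rowT_ok hp hq hm t h

theorem PieceAt.mono {p : Piece} {a b a' b' : ℕ} (h : PieceAt p a b) (ha : a ≤ a') (hb : b' ≤ b) :
    PieceAt p a' b' := by
  constructor
  intro R h1 h2 h3
  have ha' : (a : ℝ) ≤ a' := by exact_mod_cast ha
  have hb' : (b' : ℝ) ≤ b := by exact_mod_cast hb
  exact h.at' R (ha'.trans_lt h1) (h2.trans hb') h3

/-- the check of a cell and of its position in the pieces -/
def leafB (p q : Piece) (P0 P1 Q0 Q1 j0 j1 k0 k1 m0 m1 gs N : ℕ) : Bool :=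
  Nat.ble P0 j0 && Nat.ble j1 P1 && Nat.ble Q0 k0 && Nat.ble k1 Q1 && Nat.blt 0 m0 &&
    leafOK kapT rowT p q j0 j1 k0 k1 m0 m1 gs N

/-- a cell -/
theorem leafR {p q : Piece} {P0 P1 Q0 Q1 : ℕ} (hp : PieceAt p P0 P1) (hq : PieceAt q Q0 Q1)
    {j0 j1 k0 k1 m0 m1 : ℕ} (gs N : ℕ)
    (h : leafB p q P0 P1 Q0 Q1 j0 j1 k0 k1 m0 m1 gs N = true) : RootOK j0 j1 k0 k1 m0 m1 := by
  unfold leafB at h
  simp only [Bool.and_eq_true, Nat.ble_eq, Nat.blt_eq] at h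
  obtain ⟨⟨⟨⟨⟨h1, h2⟩, h3⟩, h4⟩, h5⟩, h6⟩ := h
  exact rootOK (hp.mono h1 h2) (hq.mono h3 h4) h5 (.L gs N) h6

/-- a box in the tube -/
theorem tubeR {j0 j1 k0 k1 m0 m1 : ℕ} (h : tubeOK j0 j1 k0 k1 m0 = true) :
    RootOK j0 j1 k0 k1 m0 m1 := by
  intro Rj Rk θ hj hjk h3 a0 a1 b0 b1 c0 c1 hθ
  exact Or.inl (tubeOK_sound h hj hjk a0.le a1 b0.le b1 c0)

theorem RootOK.joinM {J0 J1 K0 K1 a b c : ℕ} (h1 : RootOK J0 J1 K0 K1 a b)
    (h2 : RootOK J0 J1 K0 K1 b c) : RootOK J0 J1 K0 K1 a c := by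
  intro Rj Rk θ hj hjk h3 a0 a1 b0 b1 c0 c1 hθ
  rcases le_total θ (thG b) with h | h
  · exact h1 Rj Rk θ hj hjk h3 a0 a1 b0 b1 c0 h hθ
  · exact h2 Rj Rk θ hj hjk h3 a0 a1 b0 b1 h c1 hθ

theorem RootOK.joinJ {a b c K0 K1 m0 m1 : ℕ} (h1 : RootOK a b K0 K1 m0 m1)
    (h2 : RootOK b c K0 K1 m0 m1) : RootOK a c K0 K1 m0 m1 := by
  intro Rj Rk θ hj hjk h3 a0 a1 b0 b1 c0 c1 hθ
  rcases le_or_gt (64 * Rj) b with h | h
  · exact h1 Rj Rk θ hj hjk h3 a0 h b0 b1 c0 c1 hθ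
  · exact h2 Rj Rk θ hj hjk h3 h a1 b0 b1 c0 c1 hθ

theorem RootOK.joinK {J0 J1 a b c m0 m1 : ℕ} (h1 : RootOK J0 J1 a b m0 m1)
    (h2 : RootOK J0 J1 b c m0 m1) : RootOK J0 J1 a c m0 m1 := by
  intro Rj Rk θ hj hjk h3 a0 a1 b0 b1 c0 c1 hθ
  rcases le_or_gt (64 * Rk) b with h | h
  · exact h1 Rj Rk θ hj hjk h3 a0 a1 b0 h c0 c1 hθ
  · exact h2 Rj Rk θ hj hjk h3 a0 a1 h b1 c0 c1 hθ

/-- a box below the diagonal is empty -/
theorem RootOK.empty {J0 J1 K0 K1 m0 m1 : ℕ} (h : K1 ≤ J0) : RootOK J0 J1 K0 K1 m0 m1 := by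
  intro Rj Rk θ hj hjk h3 a0 a1 b0 b1 c0 c1 hθ
  have : (K1 : ℝ) ≤ J0 := by exact_mod_cast h
  exact absurd a0 (by linarith)

/-- **all boxes** -/
theorem boxes_of (h11 : RootOK 0 64 0 64 16 128) (h12 : RootOK 0 64 64 96 16 128)
    (h13 : RootOK 0 64 96 128 16 128) (h14 : RootOK 0 64 128 192 16 128)
    (h22 : RootOK 64 96 64 96 16 128) (h23 : RootOK 64 96 96 128 16 128)
    (h24 : RootOK 64 96 128 192 16 128) (h33 : RootOK 96 128 96 128 16 128)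
    (h34 : RootOK 96 128 128 192 16 128) (h44 : RootOK 128 192 128 192 16 128)
    {Rj Rk θ : ℝ} (hj : 0 < Rj) (hjk : Rj ≤ Rk) (h3 : Rk < 3) (t0 : π / 8 ≤ θ) (t1 : θ < π) :
    InTube Rj Rk θ ∨ RPair Fz g0z g1z g2z Rj Rk θ (cos θ) := by
  have e1 := RootOK.joinK (RootOK.joinK (RootOK.joinK h11 h12) h13) h14
  have e2 := RootOK.joinK (RootOK.joinK (RootOK.joinK (RootOK.empty (J0 := 64) (J1 := 96)
    (K0 := 0) (K1 := 64) le_rfl) h22) h23) h24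
  have e3 := RootOK.joinK (RootOK.joinK (RootOK.empty (J0 := 96) (J1 := 128)
    (K0 := 0) (K1 := 96) le_rfl) h33) h34
  have e4 := RootOK.joinK (RootOK.empty (J0 := 128) (J1 := 192)
    (K0 := 0) (K1 := 128) le_rfl) h44
  have e := RootOK.joinJ (RootOK.joinJ (RootOK.joinJ e1 e2) e3) e4
  refine e Rj Rk θ hj hjk h3 ?_ ?_ ?_ ?_ ?_ ?_ t1
  · push_cast
    linarith
  · push_cast
    linarith
  · push_cast
    linarith
  · push_cast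
    linarith
  · unfold thG
    push_cast
    linarith
  · unfold thG
    push_cast
    linarith

end Pool.Agent.RRS
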