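import Pool.Agent.RRS.Sectors

/-!
# Piecewise quadratic multipliers and their cells

`LF`: the values of `l` at six directions: `F (x, m) = m l (x, m)` with `l` piecewise linear:
`l (1, 0) = a0`, `l (1, 1) = a1`, `l (0+, 1) = zp`, `l (-1, 0) = b0`, `l (-1, 1) = b1`,
`l (0-, 1) = zm`.
-/

set_option autoImplicit false

noncomputable section

namespace Pool.Agent.RRS

open Real

/-- the values of `l` -/
structure LF where
  a0 : ℝ
  a1 : ℝ
  zp : ℝ
  b0 : ℝ
  b1 : ℝ
  zm : ℝ

/-- the multiplier `F` -/
def LF.F (L : LF) (x m : ℝ) : ℝ :=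
  if 0 ≤ x then
    if m ≤ x then m * (L.a0 * (x - m) + L.a1 * m) else m * (L.a1 * x + L.zp * (m - x))
  else
    if m ≤ -x then m * (L.b0 * (-x - m) + L.b1 * m) else m * (L.b1 * -x + L.zm * (m + x))

/-- the coefficient of `|x| m`; `s`: the sign of `x` is `+`; `i`: `m ≤ |x|` -/
def LF.p (L : LF) (s i : Bool) : ℝ :=
  match s, i with
  | true, true => L.a0
  | true, false => L.a1 - L.zp
  | false, true => L.b0
  | false, false => L.b1 - L.zm

/-- the coefficient of `m ^ 2` -/
def LF.q (L : LF) (s i : Bool) : ℝ :=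
  match s, i with
  | true, true => L.a1 - L.a0
  | true, false => L.zp
  | false, true => L.b1 - L.b0
  | false, false => L.zm

/-- the sign -/
def sg (s : Bool) : ℝ := if s then 1 else -1

/-- the factor `1 - 2 σ` -/
def ef (s i : Bool) : ℝ := if s && i then -1 else 1

/-- `m` is in the cell `i` of a coordinate with the absolute value `X` -/
def inC (i : Bool) (X m : ℝ) : Prop := if i then m ≤ X else X ≤ m

theorem LF.F_eq (L : LF) {s i : Bool} {X m : ℝ} (hX : 0 ≤ X) (hs : s = true ∨ 0 < X)
    (hm : 0 ≤ m) (h : inC i X m) :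
    L.F (sg s * X) m = L.p s i * (X * m) + L.q s i * m ^ 2 := by
  unfold LF.F
  cases s <;> cases i <;> simp only [inC, if_true, if_false, Bool.false_eq_true] at h <;>
    simp only [sg, LF.p, LF.q, if_true, if_false, Bool.false_eq_true, one_mul, neg_mul]
  · -- x ≤ 0, m ≥ X
    have hX' : 0 < X := by simpa using hs
    rw [if_neg (by linarith)]
    split_ifs with h1
    · have : m = X := by linarith
      rw [this]
      ring
    · ring
  · have hX' : 0 < X := by simpa using hs
    rw [if_neg (by linarith), if_pos (by linarith)]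
    ring
  · rw [if_pos hX]
    split_ifs with h1
    · have : m = X := by linarith
      rw [this]
      ring
    · ring
  · rw [if_pos hX, if_pos h]
    ring

theorem LF.hom2 (L : LF) : Hom2 L.F := by
  intro r x m hr
  unfold LF.F
  have h1 : 0 ≤ r * x ↔ 0 ≤ x := by
    constructor
    · intro h
      exact nonneg_of_mul_nonneg_right h hr
    · intro h
      positivity
  have h2 : r * m ≤ r * x ↔ m ≤ x := mul_le_mul_iff_right₀ hr
  have h3 : r * m ≤ -(r * x) ↔ m ≤ -x := by
    rw [show -(r * x) = r * -x by ring]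
    exact mul_le_mul_iff_right₀ hr
  simp only [h1, h2, h3]
  split_ifs <;> ring

/-- the value on a cell -/
def Qc (L K : LF) (α β γ : ℝ) (sx sy ix iy : Bool) (X Y m k : ℝ) : ℝ :=
  (L.p sx ix * (X * m) + L.q sx ix * m ^ 2) * ef sy iy +
    (K.p sy iy * (Y * m) + K.q sy iy * m ^ 2) * ef sx ix + α * m ^ 2 +
    β * (sg sx * X * m) + γ * (sg sy * Y * m) + k

/-- all cells at a point -/
def CellsOK (L K : LF) (α β γ : ℝ) (sx sy : Bool) (X Y k : ℝ) : Prop :=
  ∀ (ix iy : Bool) (m : ℝ), 0 ≤ m → inC ix X m → inC iy Y m →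
    0 ≤ Qc L K α β γ sx sy ix iy X Y m k

/-- the weights in the interior of a cell -/
theorem weight_cases {s : Bool} {X m w : ℝ} (hX : 0 ≤ X) (hm : 0 < m) (w0 : 0 ≤ w) (w1 : w ≤ 1)
    (h1 : 0 < w → m ≤ sg s * X) (h2 : m < sg s * X → w = 1) :
    (∃ i, inC i X m ∧ 1 - 2 * w = ef s i) ∨ (s = true ∧ m = X) := by
  cases s
  · -- x ≤ 0: the weight is zero
    have : w = 0 := by
      rcases w0.eq_or_lt with h | h
      · exact h.symm
      · have := h1 h
        simp only [sg, Bool.false_eq_true, if_false, neg_mul, one_mul] at this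
        linarith
    left
    rcases le_total m X with h | h
    · exact ⟨true, by simpa [inC] using h, by simp [ef, this]⟩
    · exact ⟨false, by simpa [inC] using h, by simp [ef, this]⟩
  · simp only [sg, if_true, one_mul] at h1 h2
    rcases lt_trichotomy m X with h | h | h
    · left
      refine ⟨true, by simpa [inC] using h.le, ?_⟩
      rw [h2 h]
      simp [ef]
      norm_num
    · exact Or.inr ⟨rfl, h⟩
    · left
      refine ⟨false, by simpa [inC] using h.le, ?_⟩
      have : w = 0 := by
        rcases w0.eq_or_lt with h' | h'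
        · exact h'.symm
        · linarith [h1 h']
      simp [ef, this]

/-- **the pointwise inequality from the cells** -/
theorem PWat_of_cells {L K : LF} {α β γ X Y k : ℝ} {sx sy : Bool} (hL : 0 ≤ L.a1) (hK : 0 ≤ K.a1)
    (hX : 0 ≤ X) (hY : 0 ≤ Y) (hsx : sx = true ∨ 0 < X) (hsy : sy = true ∨ 0 < Y)
    (h : CellsOK L K α β γ sx sy X Y k) :
    PWat L.F K.F α β γ (sg sx * X) (sg sy * Y) k := by
  intro m s t hm s0 s1 t0 t1 a1 a2 a3 a4
  rcases hm.eq_or_lt with h0 | hm'
  · -- m = 0
    have key := h true true 0 le_rfl (by simpa [inC] using hX) (by simpa [inC] using hY)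
    have e1 : L.F (sg sx * X) m = 0 := by
      rw [← h0, LF.F_eq (i := true) L hX hsx le_rfl (by simpa [inC] using hX)]
      ring
    have e2 : K.F (sg sy * Y) m = 0 := by
      rw [← h0, LF.F_eq (i := true) K hY hsy le_rfl (by simpa [inC] using hY)]
      ring
    rw [e1, e2, ← h0]
    unfold Qc at key
    simpa using key
  · rcases weight_cases hX hm' s0 s1 a1 a2 with ⟨ix, hix, es⟩ | ⟨rx, rx'⟩
    · rcases weight_cases hY hm' t0 t1 a3 a4 with ⟨iy, hiy, et⟩ | ⟨ry, ry'⟩
      · have key := h ix iy m hm hix hiy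
        rw [LF.F_eq (i := ix) L hX hsx hm hix, LF.F_eq (i := iy) K hY hsy hm hiy, es, et]
        unfold Qc at key
        linarith
      · subst ry
        have hi1 : inC true Y m := by simpa [inC] using ry'.le
        have hi2 : inC false Y m := by simpa [inC] using ry'.ge
        have k1 := h ix true m hm hix hi1
        have k2 := h ix false m hm hix hi2
        have e1 := LF.F_eq (s := true) (i := true) K hY hsy hm hi1
        have e2 := LF.F_eq (s := true) (i := false) K hY hsy hm hi2
        rw [LF.F_eq (i := ix) L hX hsx hm hix, es]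
        unfold Qc at k1 k2
        rw [← e1] at k1
        rw [← e2] at k2
        simp only [ef, Bool.and_self, if_true, Bool.false_eq_true, if_false,
          Bool.and_false] at k1 k2 ⊢
        nlinarith [mul_nonneg (sub_nonneg.2 t1) k2, mul_nonneg t0 k1]
    · subst rx
      have hi1 : inC true X m := by simpa [inC] using rx'.le
      have hi2 : inC false X m := by simpa [inC] using rx'.ge
      have e1 := LF.F_eq (s := true) (i := true) L hX hsx hm hi1
      have e2 := LF.F_eq (s := true) (i := false) L hX hsx hm hi2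
      rcases weight_cases hY hm' t0 t1 a3 a4 with ⟨iy, hiy, et⟩ | ⟨ry, ry'⟩
      · have k1 := h true iy m hm hi1 hiy
        have k2 := h false iy m hm hi2 hiy
        rw [LF.F_eq (i := iy) K hY hsy hm hiy, et]
        unfold Qc at k1 k2
        rw [← e1] at k1
        rw [← e2] at k2
        simp only [ef, Bool.and_self, if_true, Bool.false_eq_true, if_false,
          Bool.and_false] at k1 k2 ⊢
        nlinarith [mul_nonneg (sub_nonneg.2 s1) k2, mul_nonneg s0 k1]
      · -- both ties
        subst ry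
        have hj1 : inC true Y m := by simpa [inC] using ry'.le
        have k1 := h true true m hm hi1 hj1
        have e3 := LF.F_eq (s := true) (i := true) K hY hsy hm hj1
        have v1 : 0 ≤ L.F (sg true * X) m := by
          rw [e1, ← rx']
          simp only [LF.p, LF.q]
          nlinarith [sq_nonneg m]
        have v2 : 0 ≤ K.F (sg true * Y) m := by
          rw [e3, ← ry']
          simp only [LF.p, LF.q]
          nlinarith [sq_nonneg m]
        unfold Qc at k1
        rw [← e1, ← e3] at k1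
        simp only [ef, Bool.and_self, if_true] at k1
        nlinarith [mul_nonneg v1 (sub_nonneg.2 t1), mul_nonneg v2 (sub_nonneg.2 s1)]

/-! ### Quadratic functions of `m` -/

/-- endpoints of an interval, leading coefficient not positive -/
theorem quad_concave {A B k l u m : ℝ} (hA : A ≤ 0) (h1 : l ≤ m) (h2 : m ≤ u)
    (hl : 0 ≤ A * l ^ 2 + B * l + k) (hu : 0 ≤ A * u ^ 2 + B * u + k) :
    0 ≤ A * m ^ 2 + B * m + k := by
  rcases h1.eq_or_lt with h | h
  · rw [← h]
    exact hl
  · have hlu : 0 < u - l := by linarith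
    have e : (u - l) * (A * m ^ 2 + B * m + k) = (u - m) * (A * l ^ 2 + B * l + k) +
        (m - l) * (A * u ^ 2 + B * u + k) + -A * ((u - m) * (m - l) * (u - l)) := by ring
    have : 0 ≤ (u - l) * (A * m ^ 2 + B * m + k) := by
      rw [e]
      have a1 := mul_nonneg (sub_nonneg.2 h2) hl
      have a2 := mul_nonneg (sub_nonneg.2 h1) hu
      have a3 := mul_nonneg (neg_nonneg.2 hA) (mul_nonneg (mul_nonneg (sub_nonneg.2 h2)
        (sub_nonneg.2 h1)) hlu.le)
      linarith
    exact nonneg_of_mul_nonneg_right this hlu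

/-- the discriminant -/
theorem quad_disc {A B k m : ℝ} (hA : 0 < A) (h : 0 ≤ 4 * A * k - B ^ 2) :
    0 ≤ A * m ^ 2 + B * m + k := by
  have e : 4 * A * (A * m ^ 2 + B * m + k) = (2 * A * m + B) ^ 2 + (4 * A * k - B ^ 2) := by ring
  have : 0 ≤ 4 * A * (A * m ^ 2 + B * m + k) := by
    rw [e]
    positivity
  exact nonneg_of_mul_nonneg_right this (by positivity)

/-- increasing to the right of `l` -/
theorem quad_right {A B k l m : ℝ} (hA : 0 ≤ A) (hd : 0 ≤ 2 * A * l + B) (h1 : l ≤ m)
    (hl : 0 ≤ A * l ^ 2 + B * l + k) : 0 ≤ A * m ^ 2 + B * m + k := by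
  have e : A * m ^ 2 + B * m + k = A * l ^ 2 + B * l + k + (m - l) * (2 * A * l + B) +
      A * (m - l) ^ 2 := by ring
  rw [e]
  have a1 := mul_nonneg (sub_nonneg.2 h1) hd
  have a2 := mul_nonneg hA (sq_nonneg (m - l))
  linarith

/-- decreasing to the left of `u` -/
theorem quad_left {A B k u m : ℝ} (hA : 0 ≤ A) (hd : 2 * A * u + B ≤ 0) (h2 : m ≤ u)
    (hu : 0 ≤ A * u ^ 2 + B * u + k) : 0 ≤ A * m ^ 2 + B * m + k := by
  have e : A * m ^ 2 + B * m + k = A * u ^ 2 + B * u + k + (u - m) * -(2 * A * u + B) +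
      A * (m - u) ^ 2 := by ring
  rw [e]
  have a1 := mul_nonneg (sub_nonneg.2 h2) (neg_nonneg.2 hd)
  have a2 := mul_nonneg hA (sq_nonneg (m - u))
  linarith

/-- a binary form on the cone spanned by two vectors -/
theorem form_cone {A B C x1 y1 x2 y2 lam mu : ℝ} (hl : 0 ≤ lam) (hm : 0 ≤ mu)
    (h1 : 0 ≤ qf A B C x1 y1) (h2 : 0 ≤ qf A B C x2 y2)
    (h3 : 0 ≤ 2 * A * (x1 * x2) + B * (x1 * y2 + x2 * y1) + 2 * C * (y1 * y2)) :
    0 ≤ qf A B C (lam * x1 + mu * x2) (lam * y1 + mu * y2) := by
  have e : qf A B C (lam * x1 + mu * x2) (lam * y1 + mu * y2) =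
      lam ^ 2 * qf A B C x1 y1 + mu ^ 2 * qf A B C x2 y2 +
        lam * mu * (2 * A * (x1 * x2) + B * (x1 * y2 + x2 * y1) + 2 * C * (y1 * y2)) := by
    unfold qf
    ring
  rw [e]
  positivity

end Pool.Agent.RRS
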