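import Pool.Agent.RRS.TabDefs

/-!
# The integer check of the pointwise inequality, 1: quadratic functions over cones
-/

set_option autoImplicit false

namespace Pool.Agent.RRS

/-- the binary form `p lam ^ 2 + r lam mu + s mu ^ 2` is not negative for `lam, mu ≥ 0` -/
def pos2 (p r s : ℤ) : Bool :=
  decide (0 ≤ p) && decide (0 ≤ s) && (decide (0 ≤ r) || decide (r * r ≤ 4 * p * s))

theorem pos2_sound {p r s : ℤ} (h : pos2 p r s = true) {l m : ℝ} (hl : 0 ≤ l) (hm : 0 ≤ m) :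
    0 ≤ (p : ℝ) * l ^ 2 + r * (l * m) + s * m ^ 2 := by
  unfold pos2 at h
  simp only [Bool.and_eq_true, Bool.or_eq_true, decide_eq_true_eq] at h
  obtain ⟨⟨hp, hs⟩, hr⟩ := h
  have hp' : (0 : ℝ) ≤ p := by exact_mod_cast hp
  have hs' : (0 : ℝ) ≤ s := by exact_mod_cast hs
  rcases hr with hr | hr
  · have hr' : (0 : ℝ) ≤ r := by exact_mod_cast hr
    positivity
  · have hr' : (r : ℝ) * r ≤ 4 * p * s := by exact_mod_cast hr
    rcases hp'.eq_or_lt with h0 | h0
    · have : (r : ℝ) = 0 := by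
        rw [← h0] at hr'
        nlinarith [mul_self_nonneg (r : ℝ)]
      rw [← h0, this]
      positivity
    · have e : 4 * (p : ℝ) * (p * l ^ 2 + r * (l * m) + s * m ^ 2) =
          (2 * p * l + r * m) ^ 2 + (4 * p * s - r * r) * m ^ 2 := by ring
      have : 0 ≤ 4 * (p : ℝ) * (p * l ^ 2 + r * (l * m) + s * m ^ 2) := by
        rw [e]
        have := mul_nonneg (sub_nonneg.2 hr') (sq_nonneg m)
        positivity
      exact nonneg_of_mul_nonneg_right this (by positivity)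

/-- the value at `m = l`, `l = l1 lam + l2 mu` -/
def valAt (a B1 B2 p r s l1 l2 : ℤ) : Bool :=
  pos2 (p + (B1 + a * l1) * l1) (r + B1 * l2 + B2 * l1 + 2 * a * l1 * l2)
    (s + (B2 + a * l2) * l2)

theorem valAt_sound {a B1 B2 p r s l1 l2 : ℤ} (h : valAt a B1 B2 p r s l1 l2 = true) {l m : ℝ}
    (hl : 0 ≤ l) (hm : 0 ≤ m) :
    0 ≤ (a : ℝ) * (l1 * l + l2 * m) ^ 2 + (B1 * l + B2 * m) * (l1 * l + l2 * m) +
      (p * l ^ 2 + r * (l * m) + s * m ^ 2) := by
  have := pos2_sound h hl hm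
  push_cast at this
  linarith

/-- the discriminant -/
def discAt (a B1 B2 p r s : ℤ) : Bool :=
  decide (0 < a) && pos2 (4 * a * p - B1 * B1) (4 * a * r - 2 * B1 * B2) (4 * a * s - B2 * B2)

theorem discAt_sound {a B1 B2 p r s : ℤ} (h : discAt a B1 B2 p r s = true) {l m : ℝ}
    (hl : 0 ≤ l) (hm : 0 ≤ m) (x : ℝ) :
    0 ≤ (a : ℝ) * x ^ 2 + (B1 * l + B2 * m) * x + (p * l ^ 2 + r * (l * m) + s * m ^ 2) := by
  unfold discAt at h
  simp only [Bool.and_eq_true, decide_eq_true_eq] at h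
  have h1 := pos2_sound h.2 hl hm
  have ha : (0 : ℝ) < a := by exact_mod_cast h.1
  push_cast at h1
  refine quad_disc ha ?_
  nlinarith

/-- absolute value -/
def az (x : ℤ) : ℤ := if x < 0 then -x else x

/-- the quadratic function on `l ≤ m ≤ u` over the cone (`l, u`: linear forms) -/
def segOK : ℕ → (a B1 B2 p r s l1 l2 u1 u2 : ℤ) → Bool
  | 0, a, B1, B2, p, r, s, l1, l2, u1, u2 =>
    (decide (a ≤ 0) && valAt a B1 B2 p r s l1 l2 && valAt a B1 B2 p r s u1 u2) ||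
    (decide (0 ≤ a) && decide (0 ≤ 2 * a * l1 + B1) && decide (0 ≤ 2 * a * l2 + B2) &&
      valAt a B1 B2 p r s l1 l2) ||
    (decide (0 ≤ a) && decide (2 * a * u1 + B1 ≤ 0) && decide (2 * a * u2 + B2 ≤ 0) &&
      valAt a B1 B2 p r s u1 u2) ||
    discAt a B1 B2 p r s
  | n + 1, a, B1, B2, p, r, s, l1, l2, u1, u2 =>
    segOK 0 a B1 B2 p r s l1 l2 u1 u2 ||
    (let R1 := 2 * a * l1 + B1
     let R2 := 2 * a * l2 + B2
     let U1 := 2 * a * u1 + B1
     let U2 := 2 * a * u2 + B2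
     let sp : ℤ × ℤ :=
      if R1 * R2 < 0 then (az R2, az R1) else if U1 * U2 < 0 then (az U2, az U1) else (0, 0)
     decide (0 < sp.1) && decide (0 < sp.2) &&
      segOK n a B1 (sp.1 * B1 + sp.2 * B2) p (2 * sp.1 * p + sp.2 * r)
        (sp.1 * sp.1 * p + sp.1 * sp.2 * r + sp.2 * sp.2 * s) l1 (sp.1 * l1 + sp.2 * l2)
        u1 (sp.1 * u1 + sp.2 * u2) &&
      segOK n a (sp.1 * B1 + sp.2 * B2) B2 (sp.1 * sp.1 * p + sp.1 * sp.2 * r + sp.2 * sp.2 * s)
        (sp.1 * r + 2 * sp.2 * s) s (sp.1 * l1 + sp.2 * l2) l2 (sp.1 * u1 + sp.2 * u2) u2)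

/-- a point of the cone is in one of two subcones -/
theorem split_cone {al be l m : ℝ} (ha : 0 < al) (hb : 0 < be) (hl : 0 ≤ l) (hm : 0 ≤ m) :
    (∃ l' m', 0 ≤ l' ∧ 0 ≤ m' ∧ l = l' + al * m' ∧ m = be * m') ∨
    ∃ l' m', 0 ≤ l' ∧ 0 ≤ m' ∧ l = al * l' ∧ m = be * l' + m' := by
  rcases le_total (al * m) (be * l) with h | h
  · left
    refine ⟨l - al * (m / be), m / be, ?_, by positivity, by ring, by field_simp⟩
    have : al * (m / be) ≤ l := by
      rw [← mul_div_assoc, div_le_iff₀ hb]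
      linarith
    linarith
  · right
    refine ⟨l / al, m - be * (l / al), by positivity, ?_, by field_simp, by ring⟩
    have : be * (l / al) ≤ m := by
      rw [← mul_div_assoc, div_le_iff₀ ha]
      linarith
    linarith

theorem segOK_zero_sound {a B1 B2 p r s l1 l2 u1 u2 : ℤ}
    (h : segOK 0 a B1 B2 p r s l1 l2 u1 u2 = true) {l m x : ℝ} (hl : 0 ≤ l) (hm : 0 ≤ m)
    (h1 : l1 * l + l2 * m ≤ x) (h2 : x ≤ u1 * l + u2 * m) :
    0 ≤ (a : ℝ) * x ^ 2 + (B1 * l + B2 * m) * x + (p * l ^ 2 + r * (l * m) + s * m ^ 2) := by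
  simp only [segOK, Bool.or_eq_true, Bool.and_eq_true, decide_eq_true_eq] at h
  rcases h with ((⟨⟨ha, hA⟩, hB⟩ | ⟨⟨⟨ha, hA⟩, hB⟩, hC⟩) | ⟨⟨⟨ha, hA⟩, hB⟩, hC⟩) | h
  · have ha' : (a : ℝ) ≤ 0 := by exact_mod_cast ha
    exact quad_concave ha' h1 h2 (valAt_sound hA hl hm) (valAt_sound hB hl hm)
  · have ha' : (0 : ℝ) ≤ a := by exact_mod_cast ha
    have hA' : (0 : ℝ) ≤ 2 * a * l1 + B1 := by exact_mod_cast hA
    have hB' : (0 : ℝ) ≤ 2 * a * l2 + B2 := by exact_mod_cast hB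
    refine quad_right ha' ?_ h1 (valAt_sound hC hl hm)
    nlinarith [mul_nonneg hA' hl, mul_nonneg hB' hm]
  · have ha' : (0 : ℝ) ≤ a := by exact_mod_cast ha
    have hA' : 2 * (a : ℝ) * u1 + B1 ≤ 0 := by exact_mod_cast hA
    have hB' : 2 * (a : ℝ) * u2 + B2 ≤ 0 := by exact_mod_cast hB
    refine quad_left ha' ?_ h2 (valAt_sound hC hl hm)
    nlinarith [mul_nonneg (neg_nonneg.2 hA') hl, mul_nonneg (neg_nonneg.2 hB') hm]
  · exact discAt_sound h hl hm x

theorem segOK_sound : ∀ (n : ℕ) {a B1 B2 p r s l1 l2 u1 u2 : ℤ},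
    segOK n a B1 B2 p r s l1 l2 u1 u2 = true → ∀ {l m x : ℝ}, 0 ≤ l → 0 ≤ m →
    l1 * l + l2 * m ≤ x → x ≤ u1 * l + u2 * m →
    0 ≤ (a : ℝ) * x ^ 2 + (B1 * l + B2 * m) * x + (p * l ^ 2 + r * (l * m) + s * m ^ 2) := by
  intro n
  induction n with
  | zero =>
    intro a B1 B2 p r s l1 l2 u1 u2 h l m x hl hm h1 h2
    exact segOK_zero_sound h hl hm h1 h2
  | succ n ih =>
    intro a B1 B2 p r s l1 l2 u1 u2 h l m x hl hm h1 h2
    rw [segOK, Bool.or_eq_true] at h
    rcases h with h | h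
    · exact segOK_zero_sound h hl hm h1 h2
    · dsimp only at h
      generalize hsp : (if (2 * a * l1 + B1) * (2 * a * l2 + B2) < 0 then
        (az (2 * a * l2 + B2), az (2 * a * l1 + B1)) else
        if (2 * a * u1 + B1) * (2 * a * u2 + B2) < 0 then
        (az (2 * a * u2 + B2), az (2 * a * u1 + B1)) else ((0 : ℤ), (0 : ℤ))) = sp at h
      obtain ⟨al, be⟩ := sp
      simp only [Bool.and_eq_true, decide_eq_true_eq] at h
      obtain ⟨⟨⟨ha, hb⟩, hA⟩, hB⟩ := h
      have ha' : (0 : ℝ) < al := by exact_mod_cast ha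
      have hb' : (0 : ℝ) < be := by exact_mod_cast hb
      rcases split_cone ha' hb' hl hm with ⟨l', m', hl', hm', e1, e2⟩ | ⟨l', m', hl', hm', e1, e2⟩
      · have := ih hA hl' hm' (x := x) (by
          push_cast
          refine le_trans (le_of_eq ?_) h1
          rw [e1, e2]
          ring) (by
          push_cast
          refine le_trans h2 (le_of_eq ?_)
          rw [e1, e2]
          ring)
        push_cast at this
        refine le_trans this (le_of_eq ?_)
        rw [e1, e2]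
        ring
      · have := ih hB hl' hm' (x := x) (by
          push_cast
          refine le_trans (le_of_eq ?_) h1
          rw [e1, e2]
          ring) (by
          push_cast
          refine le_trans h2 (le_of_eq ?_)
          rw [e1, e2]
          ring)
        push_cast at this
        refine le_trans this (le_of_eq ?_)
        rw [e1, e2]
        ring

/-- the quadratic function on `m ≥ l` over the cone -/
def rayOK : ℕ → (a B1 B2 p r s l1 l2 : ℤ) → Bool
  | 0, a, B1, B2, p, r, s, l1, l2 =>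
    (decide (0 ≤ a) && decide (0 ≤ 2 * a * l1 + B1) && decide (0 ≤ 2 * a * l2 + B2) &&
      valAt a B1 B2 p r s l1 l2) ||
    discAt a B1 B2 p r s
  | n + 1, a, B1, B2, p, r, s, l1, l2 =>
    rayOK 0 a B1 B2 p r s l1 l2 ||
    (let R1 := 2 * a * l1 + B1
     let R2 := 2 * a * l2 + B2
     let sp : ℤ × ℤ := if R1 * R2 < 0 then (az R2, az R1) else (0, 0)
     decide (0 < sp.1) && decide (0 < sp.2) &&
      rayOK n a B1 (sp.1 * B1 + sp.2 * B2) p (2 * sp.1 * p + sp.2 * r)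
        (sp.1 * sp.1 * p + sp.1 * sp.2 * r + sp.2 * sp.2 * s) l1 (sp.1 * l1 + sp.2 * l2) &&
      rayOK n a (sp.1 * B1 + sp.2 * B2) B2 (sp.1 * sp.1 * p + sp.1 * sp.2 * r + sp.2 * sp.2 * s)
        (sp.1 * r + 2 * sp.2 * s) s (sp.1 * l1 + sp.2 * l2) l2)

theorem rayOK_zero_sound {a B1 B2 p r s l1 l2 : ℤ}
    (h : rayOK 0 a B1 B2 p r s l1 l2 = true) {l m x : ℝ} (hl : 0 ≤ l) (hm : 0 ≤ m)
    (h1 : l1 * l + l2 * m ≤ x) :
    0 ≤ (a : ℝ) * x ^ 2 + (B1 * l + B2 * m) * x + (p * l ^ 2 + r * (l * m) + s * m ^ 2) := by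
  simp only [rayOK, Bool.or_eq_true, Bool.and_eq_true, decide_eq_true_eq] at h
  rcases h with ⟨⟨⟨ha, hA⟩, hB⟩, hC⟩ | h
  · have ha' : (0 : ℝ) ≤ a := by exact_mod_cast ha
    have hA' : (0 : ℝ) ≤ 2 * a * l1 + B1 := by exact_mod_cast hA
    have hB' : (0 : ℝ) ≤ 2 * a * l2 + B2 := by exact_mod_cast hB
    refine quad_right ha' ?_ h1 (valAt_sound hC hl hm)
    nlinarith [mul_nonneg hA' hl, mul_nonneg hB' hm]
  · exact discAt_sound h hl hm x

theorem rayOK_sound : ∀ (n : ℕ) {a B1 B2 p r s l1 l2 : ℤ},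
    rayOK n a B1 B2 p r s l1 l2 = true → ∀ {l m x : ℝ}, 0 ≤ l → 0 ≤ m →
    l1 * l + l2 * m ≤ x →
    0 ≤ (a : ℝ) * x ^ 2 + (B1 * l + B2 * m) * x + (p * l ^ 2 + r * (l * m) + s * m ^ 2) := by
  intro n
  induction n with
  | zero =>
    intro a B1 B2 p r s l1 l2 h l m x hl hm h1
    exact rayOK_zero_sound h hl hm h1
  | succ n ih =>
    intro a B1 B2 p r s l1 l2 h l m x hl hm h1
    rw [rayOK, Bool.or_eq_true] at h
    rcases h with h | h
    · exact rayOK_zero_sound h hl hm h1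
    · dsimp only at h
      generalize hsp : (if (2 * a * l1 + B1) * (2 * a * l2 + B2) < 0 then
        (az (2 * a * l2 + B2), az (2 * a * l1 + B1)) else ((0 : ℤ), (0 : ℤ))) = sp at h
      obtain ⟨al, be⟩ := sp
      simp only [Bool.and_eq_true, decide_eq_true_eq] at h
      obtain ⟨⟨⟨ha, hb⟩, hA⟩, hB⟩ := h
      have ha' : (0 : ℝ) < al := by exact_mod_cast ha
      have hb' : (0 : ℝ) < be := by exact_mod_cast hb
      rcases split_cone ha' hb' hl hm with ⟨l', m', hl', hm', e1, e2⟩ | ⟨l', m', hl', hm', e1, e2⟩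
      · have := ih hA hl' hm' (x := x) (by
          push_cast
          refine le_trans (le_of_eq ?_) h1
          rw [e1, e2]
          ring)
        push_cast at this
        refine le_trans this (le_of_eq ?_)
        rw [e1, e2]
        ring
      · have := ih hB hl' hm' (x := x) (by
          push_cast
          refine le_trans (le_of_eq ?_) h1
          rw [e1, e2]
          ring)
        push_cast at this
        refine le_trans this (le_of_eq ?_)
        rw [e1, e2]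
        ring

end Pool.Agent.RRS
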