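import Pool.Agent.RRS.Chk1

/-!
# The integer check of the pointwise inequality, 2: cones
-/

set_option autoImplicit false

namespace Pool.Agent.RRS

/-- integer values of `l` -/
structure LZ where
  a0 : ℤ
  a1 : ℤ
  zp : ℤ
  b0 : ℤ
  b1 : ℤ
  zm : ℤ

/-- the real values -/
def LZ.toLF (L : LZ) : LF := ⟨L.a0, L.a1, L.zp, L.b0, L.b1, L.zm⟩

def LZ.p (L : LZ) (s i : Bool) : ℤ :=
  match s, i with
  | true, true => L.a0
  | true, false => L.a1 - L.zp
  | false, true => L.b0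
  | false, false => L.b1 - L.zm

def LZ.q (L : LZ) (s i : Bool) : ℤ :=
  match s, i with
  | true, true => L.a1 - L.a0
  | true, false => L.zp
  | false, true => L.b1 - L.b0
  | false, false => L.zm

theorem LZ.p_cast (L : LZ) (s i : Bool) : ((L.p s i : ℤ) : ℝ) = L.toLF.p s i := by
  cases s <;> cases i <;> simp [LZ.p, LF.p, LZ.toLF]

theorem LZ.q_cast (L : LZ) (s i : Bool) : ((L.q s i : ℤ) : ℝ) = L.toLF.q s i := by
  cases s <;> cases i <;> simp [LZ.q, LF.q, LZ.toLF]

/-- change the sign -/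
def ng (b : Bool) (x : ℤ) : ℤ := if b then -x else x

theorem ng_ef (s i : Bool) (x : ℤ) : ((ng (s && i) x : ℤ) : ℝ) = x * ef s i := by
  cases s <;> cases i <;> simp [ng, ef]

theorem ng_sg (s : Bool) (x : ℤ) : ((ng (!s) x : ℤ) : ℝ) = x * sg s := by
  cases s <;> simp [ng, sg]

/-- the coefficient of `m ^ 2` on a cell -/
def aC (L K : LZ) (al : ℤ) (sx sy ix iy : Bool) : ℤ :=
  ng (sy && iy) (L.q sx ix) + ng (sx && ix) (K.q sy iy) + al

/-- the coefficient of `X m` -/
def bxC (L : LZ) (be : ℤ) (sx sy ix iy : Bool) : ℤ := ng (sy && iy) (L.p sx ix) + ng (!sx) be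

/-- the coefficient of `Y m` -/
def byC (K : LZ) (ga : ℤ) (sx sy ix iy : Bool) : ℤ := ng (sx && ix) (K.p sy iy) + ng (!sy) ga

theorem Qc_eq (L K : LZ) (al be ga : ℤ) (sx sy ix iy : Bool) (X Y m k : ℝ) :
    Qc L.toLF K.toLF al be ga sx sy ix iy X Y m k =
      (aC L K al sx sy ix iy : ℝ) * m ^ 2 + ((bxC L be sx sy ix iy : ℝ) * X +
        (byC K ga sx sy ix iy : ℝ) * Y) * m + k := by
  unfold Qc aC bxC byC
  push_cast
  rw [ng_ef, ng_ef, ng_ef, ng_ef, ng_sg, ng_sg, LZ.q_cast, LZ.q_cast, LZ.p_cast, LZ.p_cast]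
  ring

/-- the check in the cone of `(x1, y1)` and `(x2, y2)`, one cell of a bounded range -/
def segC (L K : LZ) (al be ga : ℤ) (sx sy ix iy : Bool) (p r s x1 y1 x2 y2 l1 l2 u1 u2 : ℤ) :
    Bool :=
  segOK 2 (aC L K al sx sy ix iy)
    (bxC L be sx sy ix iy * x1 + byC K ga sx sy ix iy * y1)
    (bxC L be sx sy ix iy * x2 + byC K ga sx sy ix iy * y2) p r s l1 l2 u1 u2

/-- the last cell -/
def rayC (L K : LZ) (al be ga : ℤ) (sx sy : Bool) (p r s x1 y1 x2 y2 l1 l2 : ℤ) : Bool :=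
  rayOK 1 (aC L K al sx sy false false)
    (bxC L be sx sy false false * x1 + byC K ga sx sy false false * y1)
    (bxC L be sx sy false false * x2 + byC K ga sx sy false false * y2) p r s l1 l2

/-- `X ≤ Y` on the cone -/
def upOK (L K : LZ) (al be ga : ℤ) (sx sy : Bool) (p r s x1 y1 x2 y2 : ℤ) : Bool :=
  segC L K al be ga sx sy true true p r s x1 y1 x2 y2 0 0 x1 x2 &&
  segC L K al be ga sx sy false true p r s x1 y1 x2 y2 x1 x2 y1 y2 &&
  rayC L K al be ga sx sy p r s x1 y1 x2 y2 y1 y2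

/-- `Y ≤ X` on the cone -/
def downOK (L K : LZ) (al be ga : ℤ) (sx sy : Bool) (p r s x1 y1 x2 y2 : ℤ) : Bool :=
  segC L K al be ga sx sy true true p r s x1 y1 x2 y2 0 0 y1 y2 &&
  segC L K al be ga sx sy true false p r s x1 y1 x2 y2 y1 y2 x1 x2 &&
  rayC L K al be ga sx sy p r s x1 y1 x2 y2 x1 x2

/-- the value of the form -/
def qz (A B C x y : ℤ) : ℤ := (A * x + B * y) * x + C * y * y

/-- the mixed value -/
def mz (A B C x1 y1 x2 y2 : ℤ) : ℤ := 2 * A * x1 * x2 + B * (x1 * y2 + x2 * y1) + 2 * C * y1 * y2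

/-- the check on the cone of `(x1, y1)` and `(x2, y2)` -/
def coneOK (L K : LZ) (al be ga : ℤ) (sx sy : Bool) (A B C x1 y1 x2 y2 : ℤ) : Bool :=
  if x1 < y1 ∧ x2 < y2 then
    upOK L K al be ga sx sy (qz A B C x1 y1) (mz A B C x1 y1 x2 y2) (qz A B C x2 y2) x1 y1 x2 y2
  else if y1 < x1 ∧ y2 < x2 then
    downOK L K al be ga sx sy (qz A B C x1 y1) (mz A B C x1 y1 x2 y2) (qz A B C x2 y2) x1 y1 x2 y2
  else if y1 ≤ x1 ∧ x2 ≤ y2 then
    downOK L K al be ga sx sy (qz A B C x1 y1) (mz A B C x1 y1 1 1) (A + B + C) x1 y1 1 1 &&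
    upOK L K al be ga sx sy (A + B + C) (mz A B C 1 1 x2 y2) (qz A B C x2 y2) 1 1 x2 y2
  else false

theorem segC_sound {L K : LZ} {al be ga : ℤ} {sx sy ix iy : Bool}
    {A B C x1 y1 x2 y2 l1 l2 u1 u2 : ℤ}
    (h : segC L K al be ga sx sy ix iy (qz A B C x1 y1) (mz A B C x1 y1 x2 y2) (qz A B C x2 y2)
      x1 y1 x2 y2 l1 l2 u1 u2 = true) {l m x X Y : ℝ} (hl : 0 ≤ l) (hm : 0 ≤ m)
    (hX : X = x1 * l + x2 * m) (hY : Y = y1 * l + y2 * m)
    (h1 : l1 * l + l2 * m ≤ x) (h2 : x ≤ u1 * l + u2 * m) :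
    0 ≤ Qc L.toLF K.toLF al be ga sx sy ix iy X Y x (qf A B C X Y) := by
  have key := segOK_sound 2 h hl hm h1 h2
  rw [Qc_eq]
  refine le_trans key (le_of_eq ?_)
  unfold qz mz qf
  push_cast
  rw [hX, hY]
  ring

theorem rayC_sound {L K : LZ} {al be ga : ℤ} {sx sy : Bool}
    {A B C x1 y1 x2 y2 l1 l2 : ℤ}
    (h : rayC L K al be ga sx sy (qz A B C x1 y1) (mz A B C x1 y1 x2 y2) (qz A B C x2 y2)
      x1 y1 x2 y2 l1 l2 = true) {l m x X Y : ℝ} (hl : 0 ≤ l) (hm : 0 ≤ m)
    (hX : X = x1 * l + x2 * m) (hY : Y = y1 * l + y2 * m)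
    (h1 : l1 * l + l2 * m ≤ x) :
    0 ≤ Qc L.toLF K.toLF al be ga sx sy false false X Y x (qf A B C X Y) := by
  have key := rayOK_sound 1 h hl hm h1
  rw [Qc_eq]
  refine le_trans key (le_of_eq ?_)
  unfold qz mz qf
  push_cast
  rw [hX, hY]
  ring

/-- the coordinates in a cone -/
theorem cone_coord {x1 y1 x2 y2 X Y : ℝ} (hd : 0 < x1 * y2 - y1 * x2) (h1 : y1 * X ≤ x1 * Y)
    (h2 : x2 * Y ≤ y2 * X) :
    ∃ l m, 0 ≤ l ∧ 0 ≤ m ∧ X = x1 * l + x2 * m ∧ Y = y1 * l + y2 * m := by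
  have hne : x1 * y2 - y1 * x2 ≠ 0 := hd.ne'
  refine ⟨(y2 * X - x2 * Y) / (x1 * y2 - y1 * x2), (x1 * Y - y1 * X) / (x1 * y2 - y1 * x2),
    div_nonneg (by linarith) hd.le, div_nonneg (by linarith) hd.le, ?_, ?_⟩
  · rw [← mul_div_assoc, ← mul_div_assoc, ← add_div, eq_div_iff hne]
    ring
  · rw [← mul_div_assoc, ← mul_div_assoc, ← add_div, eq_div_iff hne]
    ring

theorem upOK_sound {L K : LZ} {al be ga : ℤ} {sx sy : Bool} {A B C x1 y1 x2 y2 : ℤ}
    (h : upOK L K al be ga sx sy (qz A B C x1 y1) (mz A B C x1 y1 x2 y2) (qz A B C x2 y2)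
      x1 y1 x2 y2 = true) {l m X Y : ℝ} (hl : 0 ≤ l) (hm : 0 ≤ m)
    (hX : X = x1 * l + x2 * m) (hY : Y = y1 * l + y2 * m) {ix iy : Bool} {x : ℝ} (hx : 0 ≤ x)
    (i1 : inC ix X x) (i2 : inC iy Y x) (hne : ¬ (ix = true ∧ iy = false)) :
    0 ≤ Qc L.toLF K.toLF al be ga sx sy ix iy X Y x (qf A B C X Y) := by
  unfold upOK at h
  rw [Bool.and_eq_true, Bool.and_eq_true] at h
  obtain ⟨⟨h1, h2⟩, h3⟩ := h
  cases ix <;> cases iy <;> simp only [inC, if_true, if_false, Bool.false_eq_true] at i1 i2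
  · exact rayC_sound h3 hl hm hX hY (by rw [← hY]; exact i2)
  · exact segC_sound h2 hl hm hX hY (by rw [← hX]; exact i1) (by rw [← hY]; exact i2)
  · exact absurd ⟨rfl, rfl⟩ hne
  · exact segC_sound h1 hl hm hX hY (by simpa using hx) (by rw [← hX]; exact i1)

theorem downOK_sound {L K : LZ} {al be ga : ℤ} {sx sy : Bool} {A B C x1 y1 x2 y2 : ℤ}
    (h : downOK L K al be ga sx sy (qz A B C x1 y1) (mz A B C x1 y1 x2 y2) (qz A B C x2 y2)
      x1 y1 x2 y2 = true) {l m X Y : ℝ} (hl : 0 ≤ l) (hm : 0 ≤ m)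
    (hX : X = x1 * l + x2 * m) (hY : Y = y1 * l + y2 * m) {ix iy : Bool} {x : ℝ} (hx : 0 ≤ x)
    (i1 : inC ix X x) (i2 : inC iy Y x) (hne : ¬ (ix = false ∧ iy = true)) :
    0 ≤ Qc L.toLF K.toLF al be ga sx sy ix iy X Y x (qf A B C X Y) := by
  unfold downOK at h
  rw [Bool.and_eq_true, Bool.and_eq_true] at h
  obtain ⟨⟨h1, h2⟩, h3⟩ := h
  cases ix <;> cases iy <;> simp only [inC, if_true, if_false, Bool.false_eq_true] at i1 i2
  · exact rayC_sound h3 hl hm hX hY (by rw [← hX]; exact i1)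
  · exact absurd ⟨rfl, rfl⟩ hne
  · exact segC_sound h2 hl hm hX hY (by rw [← hY]; exact i2) (by rw [← hX]; exact i1)
  · exact segC_sound h1 hl hm hX hY (by simpa using hx) (by rw [← hY]; exact i2)

theorem Qc_origin (L K : LF) (al be ga : ℝ) (sx sy ix iy : Bool) (A B C : ℝ) :
    Qc L K al be ga sx sy ix iy 0 0 0 (qf A B C 0 0) = 0 := by
  unfold Qc qf
  ring

/-- **the check on a cone is sound** -/
theorem coneOK_sound {L K : LZ} {al be ga : ℤ} {sx sy : Bool} {A B C x1 y1 x2 y2 : ℤ}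
    (h : coneOK L K al be ga sx sy A B C x1 y1 x2 y2 = true) (hd : 0 < x1 * y2 - y1 * x2)
    {X Y : ℝ} (hX0 : 0 ≤ X) (hY0 : 0 ≤ Y) (h1 : (y1 : ℝ) * X ≤ x1 * Y)
    (h2 : (x2 : ℝ) * Y ≤ y2 * X) :
    CellsOK L.toLF K.toLF al be ga sx sy X Y (qf A B C X Y) := by
  have hd' : (0 : ℝ) < x1 * y2 - y1 * x2 := by exact_mod_cast hd
  obtain ⟨l, m, hl, hm, hX, hY⟩ := cone_coord hd' h1 h2
  intro ix iy x hx i1 i2
  unfold coneOK at h
  split_ifs at h with c1 c2 c3
  · by_cases hne : ix = true ∧ iy = false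
    · -- then the point is the origin
      obtain ⟨rfl, rfl⟩ := hne
      simp only [inC, if_true, if_false, Bool.false_eq_true] at i1 i2
      have e1 : (x1 : ℝ) < y1 := by exact_mod_cast c1.1
      have e2 : (x2 : ℝ) < y2 := by exact_mod_cast c1.2
      have hl0 : l = 0 := by
        by_contra hne
        have : 0 < l := lt_of_le_of_ne hl (Ne.symm hne)
        nlinarith
      have hm0 : m = 0 := by
        by_contra hne
        have : 0 < m := lt_of_le_of_ne hm (Ne.symm hne)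
        nlinarith
      have hX' : X = 0 := by rw [hX, hl0, hm0]; ring
      have hY' : Y = 0 := by rw [hY, hl0, hm0]; ring
      have hx' : x = 0 := by linarith
      rw [hX', hY', hx', Qc_origin]
    · exact upOK_sound h hl hm hX hY hx i1 i2 hne
  · by_cases hne : ix = false ∧ iy = true
    · obtain ⟨rfl, rfl⟩ := hne
      simp only [inC, if_true, if_false, Bool.false_eq_true] at i1 i2
      have e1 : (y1 : ℝ) < x1 := by exact_mod_cast c2.1
      have e2 : (y2 : ℝ) < x2 := by exact_mod_cast c2.2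
      have hl0 : l = 0 := by
        by_contra hne
        have : 0 < l := lt_of_le_of_ne hl (Ne.symm hne)
        nlinarith
      have hm0 : m = 0 := by
        by_contra hne
        have : 0 < m := lt_of_le_of_ne hm (Ne.symm hne)
        nlinarith
      have hX' : X = 0 := by rw [hX, hl0, hm0]; ring
      have hY' : Y = 0 := by rw [hY, hl0, hm0]; ring
      have hx' : x = 0 := by linarith
      rw [hX', hY', hx', Qc_origin]
    · exact downOK_sound h hl hm hX hY hx i1 i2 hne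
  · rw [Bool.and_eq_true] at h
    obtain ⟨hA, hB⟩ := h
    have e1 : (y1 : ℝ) ≤ x1 := by exact_mod_cast c3.1
    have e2 : (x2 : ℝ) ≤ y2 := by exact_mod_cast c3.2
    have q1 : A + B + C = qz A B C 1 1 := by unfold qz; ring
    rw [q1] at hA hB
    -- which piece
    have hdown : Y ≤ X → ¬ (ix = false ∧ iy = true) →
        0 ≤ Qc L.toLF K.toLF al be ga sx sy ix iy X Y x (qf A B C X Y) := by
      intro hXY hne
      have : ∃ l m : ℝ, 0 ≤ l ∧ 0 ≤ m ∧ X = x1 * l + ((1 : ℤ) : ℝ) * m ∧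
          Y = y1 * l + ((1 : ℤ) : ℝ) * m := by
        rcases e1.eq_or_lt with h0 | h0
        · refine ⟨0, X, le_rfl, hX0, by push_cast; ring, ?_⟩
          have hx1 : 0 < (x1 : ℝ) := by
            by_contra hneg
            rw [h0] at hd'
            have : (y2 : ℝ) - x2 ≥ 0 := by linarith
            nlinarith
          rw [h0] at h1
          have : X ≤ Y := le_of_mul_le_mul_left h1 hx1
          push_cast
          linarith
        · refine cone_coord ?_ h1 ?_
          · push_cast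
            linarith
          · push_cast
            linarith
      obtain ⟨l, m, hl, hm, hX, hY⟩ := this
      exact downOK_sound hA hl hm hX hY hx i1 i2 hne
    have hup : X ≤ Y → ¬ (ix = true ∧ iy = false) →
        0 ≤ Qc L.toLF K.toLF al be ga sx sy ix iy X Y x (qf A B C X Y) := by
      intro hXY hne
      have : ∃ l m : ℝ, 0 ≤ l ∧ 0 ≤ m ∧ X = ((1 : ℤ) : ℝ) * l + x2 * m ∧
          Y = ((1 : ℤ) : ℝ) * l + y2 * m := by
        rcases e2.eq_or_lt with h0 | h0
        · refine ⟨X, 0, hX0, le_rfl, by push_cast; ring, ?_⟩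
          have hx1 : 0 < (y2 : ℝ) := by
            by_contra hneg
            rw [h0] at hd'
            have : (x1 : ℝ) - y1 ≥ 0 := by linarith
            nlinarith
          rw [h0] at h2
          have : Y ≤ X := le_of_mul_le_mul_left h2 hx1
          push_cast
          linarith
        · refine cone_coord ?_ ?_ h2
          · push_cast
            linarith
          · push_cast
            linarith
      obtain ⟨l, m, hl, hm, hX, hY⟩ := this
      exact upOK_sound hB hl hm hX hY hx i1 i2 hne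
    rcases le_total X Y with hXY | hXY
    · by_cases hne : ix = true ∧ iy = false
      · obtain ⟨rfl, rfl⟩ := hne
        simp only [inC, if_true, if_false, Bool.false_eq_true] at i1 i2
        exact hdown (by linarith) (by simp)
      · exact hup hXY hne
    · by_cases hne : ix = false ∧ iy = true
      · obtain ⟨rfl, rfl⟩ := hne
        simp only [inC, if_true, if_false, Bool.false_eq_true] at i1 i2
        exact hup (by linarith) (by simp)
      · exact hdown hXY hne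

end Pool.Agent.RRS
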