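import Pool.Agent.RRS.Chk2

/-!
# The integer check of the pointwise inequality, 3: groups of fine sectors
-/

set_option autoImplicit false

namespace Pool.Agent.RRS

open Real

/-- expand a list over groups -/
def exL : List ℕ → List ℤ → ℕ → ℤ
  | g :: gs, a :: l, i => if i < g then a else exL gs l (i - g)
  | _, _, _ => 0

/-- the check of all groups of sectors from the boundary `b` on -/
def grOK (kr : ℕ → KRow) (m0 m1 j0 j1 k0 k1 : ℕ) (L K : LZ) (al be ga : ℤ) :
    ℕ → List ℕ → List ℤ → List ℤ → List ℤ → Bool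
  | b, g :: gs, a :: A, b' :: B, c :: C =>
    (let lo := if b < 8 then lowK kr m0 m1 b else lowK kr m0 m1 (b + g)
     let hi := if b < 8 then highK kr m0 m1 (b + g) else highK kr m0 m1 b
     let x1 : ℤ := Int.ofNat (lo.2 * j1)
     let y1 : ℤ := Int.ofNat (lo.1 * k0)
     let x2 : ℤ := Int.ofNat (hi.2 * j0)
     let y2 : ℤ := Int.ofNat (hi.1 * k1)
     Nat.blt 0 g && Nat.ble (b + g) (if b < 8 then 8 else 12) &&
     Nat.blt (lo.1 * k0 * (hi.2 * j0)) (lo.2 * j1 * (hi.1 * k1)) &&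
     (if b < 8 then coneOK L K al be ga true true a b' c x1 y1 x2 y2 &&
        coneOK L K al be ga false false a b' c x1 y1 x2 y2
      else coneOK L K al be ga false true a b' c x1 y1 x2 y2 &&
        coneOK L K al be ga true false a b' c x1 y1 x2 y2)) &&
    grOK kr m0 m1 j0 j1 k0 k1 L K al be ga (b + g) gs A B C
  | b, [], _, _, _ => b == 12
  | _, _, _, _, _ => false

theorem sec_id (τ t h : ℝ) :
    cos (τ + h) * cos (t - h) - cos (τ - h) * cos (t + h) = -(sin (τ - t) * sin (2 * h)) := by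
  rw [sin_two_mul, sin_sub, cos_add, cos_sub, cos_add, cos_sub]
  have h1 := sin_sq_add_cos_sq h
  ring_nf

/-- the slopes in the sectors of equal signs -/
theorem slope_same {θ τ : ℝ} (h0 : 0 < θ) (hπ : θ < π) {b e : ℕ} (hb : b < 8) (he : e ≤ 8)
    (h1 : tF θ b ≤ τ) (h2 : τ ≤ tF θ e) {kr : ℕ → KRow} {m0 m1 : ℕ} (hK : KapOK kr m0 m1)
    (hm0 : thG m0 ≤ θ) (hm1 : θ ≤ thG m1) :
    0 ≤ cos (τ + θ / 2) ∧ 0 ≤ cos (τ - θ / 2) ∧
      ((lowK kr m0 m1 b).1 : ℝ) * cos (τ + θ / 2) ≤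
        ((lowK kr m0 m1 b).2 : ℝ) * cos (τ - θ / 2) ∧
      (0 < e → ((highK kr m0 m1 e).2 : ℝ) * cos (τ - θ / 2) ≤
        ((highK kr m0 m1 e).1 : ℝ) * cos (τ + θ / 2)) := by
  have hm := tF_mono h0 hπ
  have t0 : -((π - θ) / 2) ≤ τ := by
    rw [← tF_zero]
    exact (hm (Nat.zero_le b)).trans h1
  have t8 : τ ≤ (π - θ) / 2 := by
    rw [← tF_eight]
    exact h2.trans (hm he)
  have cx : 0 ≤ cos (τ + θ / 2) := cos_nonneg_of_mem_Icc ⟨by linarith, by linarith⟩
  have cy : 0 ≤ cos (τ - θ / 2) := cos_nonneg_of_mem_Icc ⟨by linarith, by linarith⟩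
  have hs : 0 < sin (2 * (θ / 2)) := sin_pos_of_pos_of_lt_pi (by linarith) (by linarith)
  refine ⟨cx, cy, ?_, fun he0 => ?_⟩
  · -- the lower bound
    have tb0 : -((π - θ) / 2) ≤ tF θ b := by
      rw [← tF_zero]
      exact hm (Nat.zero_le b)
    have tb8 : tF θ b < (π - θ) / 2 := by
      rw [tF_same hb.le]
      have : (b : ℝ) ≤ 7 := by exact_mod_cast (by omega : b ≤ 7)
      nlinarith
    have xb : 0 < cos (tF θ b + θ / 2) := cos_pos_of_mem_Ioo ⟨by linarith, by linarith⟩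
    have yb : 0 ≤ cos (tF θ b - θ / 2) := cos_nonneg_of_mem_Icc ⟨by linarith, by linarith⟩
    have key := hK.low θ b hm0 hm1 (by omega) (by omega)
    rw [abs_of_pos xb, abs_of_nonneg yb] at key
    have e1 := sec_id τ (tF θ b) (θ / 2)
    have hsin : 0 ≤ sin (τ - tF θ b) :=
      sin_nonneg_of_nonneg_of_le_pi (by linarith) (by linarith)
    have e2 : cos (τ + θ / 2) * cos (tF θ b - θ / 2) ≤ cos (τ - θ / 2) * cos (tF θ b + θ / 2) := by
      have := mul_nonneg hsin hs.le
      linarith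
    have n1 : (0 : ℝ) ≤ ((lowK kr m0 m1 b).2 : ℝ) := Nat.cast_nonneg _
    have : ((lowK kr m0 m1 b).1 : ℝ) * cos (τ + θ / 2) * cos (tF θ b + θ / 2) ≤
        ((lowK kr m0 m1 b).2 : ℝ) * cos (τ - θ / 2) * cos (tF θ b + θ / 2) := by
      calc ((lowK kr m0 m1 b).1 : ℝ) * cos (τ + θ / 2) * cos (tF θ b + θ / 2)
          = ((lowK kr m0 m1 b).1 * cos (tF θ b + θ / 2)) * cos (τ + θ / 2) := by ring
        _ ≤ ((lowK kr m0 m1 b).2 * cos (tF θ b - θ / 2)) * cos (τ + θ / 2) :=
            mul_le_mul_of_nonneg_right key cx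
        _ = (lowK kr m0 m1 b).2 * (cos (τ + θ / 2) * cos (tF θ b - θ / 2)) := by ring
        _ ≤ (lowK kr m0 m1 b).2 * (cos (τ - θ / 2) * cos (tF θ b + θ / 2)) :=
            mul_le_mul_of_nonneg_left e2 n1
        _ = _ := by ring
    exact le_of_mul_le_mul_right this xb
  · -- the upper bound
    rcases he.eq_or_lt with e8 | e8
    · subst e8
      simp only [highK]
      push_cast
      linarith
    have te0 : -((π - θ) / 2) ≤ tF θ e := by
      rw [← tF_zero]
      exact hm (Nat.zero_le e)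
    have te8 : tF θ e < (π - θ) / 2 := by
      rw [tF_same e8.le]
      have : (e : ℝ) ≤ 7 := by exact_mod_cast (by omega : e ≤ 7)
      nlinarith
    have xb : 0 < cos (tF θ e + θ / 2) := cos_pos_of_mem_Ioo ⟨by linarith, by linarith⟩
    have yb : 0 ≤ cos (tF θ e - θ / 2) := cos_nonneg_of_mem_Icc ⟨by linarith, by linarith⟩
    have key := hK.high θ e hm0 hm1 he0 (by omega)
    rw [abs_of_pos xb, abs_of_nonneg yb] at key
    have e1 := sec_id τ (tF θ e) (θ / 2)
    have hsin : sin (τ - tF θ e) ≤ 0 :=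
      sin_nonpos_of_nonpos_of_neg_pi_le (by linarith) (by linarith)
    have e2 : cos (τ - θ / 2) * cos (tF θ e + θ / 2) ≤ cos (τ + θ / 2) * cos (tF θ e - θ / 2) := by
      have : 0 ≤ -(sin (τ - tF θ e) * sin (2 * (θ / 2))) := by nlinarith
      linarith
    have n1 : (0 : ℝ) ≤ ((highK kr m0 m1 e).2 : ℝ) := Nat.cast_nonneg _
    have : ((highK kr m0 m1 e).2 : ℝ) * cos (τ - θ / 2) * cos (tF θ e + θ / 2) ≤
        ((highK kr m0 m1 e).1 : ℝ) * cos (τ + θ / 2) * cos (tF θ e + θ / 2) := by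
      calc ((highK kr m0 m1 e).2 : ℝ) * cos (τ - θ / 2) * cos (tF θ e + θ / 2)
          = (highK kr m0 m1 e).2 * (cos (τ - θ / 2) * cos (tF θ e + θ / 2)) := by ring
        _ ≤ (highK kr m0 m1 e).2 * (cos (τ + θ / 2) * cos (tF θ e - θ / 2)) :=
            mul_le_mul_of_nonneg_left e2 n1
        _ = ((highK kr m0 m1 e).2 * cos (tF θ e - θ / 2)) * cos (τ + θ / 2) := by ring
        _ ≤ ((highK kr m0 m1 e).1 * cos (tF θ e + θ / 2)) * cos (τ + θ / 2) :=
            mul_le_mul_of_nonneg_right key cx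
        _ = _ := by ring
    exact le_of_mul_le_mul_right this xb

/-- the slopes in the sectors of opposite signs -/
theorem slope_opp {θ τ : ℝ} (h0 : 0 < θ) (hπ : θ < π) {b e : ℕ} (hb : 8 ≤ b) (he : e ≤ 12)
    (hbe : 8 < e) (hb12 : b < 12)
    (h1 : tF θ b ≤ τ) (h2 : τ ≤ tF θ e) {kr : ℕ → KRow} {m0 m1 : ℕ} (hK : KapOK kr m0 m1)
    (hm0 : thG m0 ≤ θ) (hm1 : θ ≤ thG m1) :
    0 ≤ -cos (τ + θ / 2) ∧ 0 ≤ cos (τ - θ / 2) ∧
      ((lowK kr m0 m1 e).1 : ℝ) * -cos (τ + θ / 2) ≤
        ((lowK kr m0 m1 e).2 : ℝ) * cos (τ - θ / 2) ∧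
      ((highK kr m0 m1 b).2 : ℝ) * cos (τ - θ / 2) ≤
        ((highK kr m0 m1 b).1 : ℝ) * -cos (τ + θ / 2) := by
  have hm := tF_mono h0 hπ
  have t0 : (π - θ) / 2 ≤ τ := by
    rw [← tF_eight]
    exact (hm hb).trans h1
  have t8 : τ ≤ (π + θ) / 2 := by
    rw [← tF_twelve]
    exact h2.trans (hm he)
  have cx : 0 ≤ -cos (τ + θ / 2) :=
    neg_nonneg.2 (cos_nonpos_of_pi_div_two_le_of_le (by linarith) (by linarith))
  have cy : 0 ≤ cos (τ - θ / 2) := cos_nonneg_of_mem_Icc ⟨by linarith, by linarith⟩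
  have hs : 0 < sin (2 * (θ / 2)) := sin_pos_of_pos_of_lt_pi (by linarith) (by linarith)
  refine ⟨cx, cy, ?_, ?_⟩
  · -- the lower bound, boundary `e`
    have te : (π - θ) / 2 < tF θ e := by
      rw [tF_opp (by omega) he]
      have : (9 : ℝ) ≤ e := by exact_mod_cast (by omega : 9 ≤ e)
      nlinarith
    have te2 : tF θ e ≤ (π + θ) / 2 := by
      rw [← tF_twelve]
      exact hm he
    have xe : cos (tF θ e + θ / 2) < 0 :=
      cos_neg_of_pi_div_two_lt_of_lt (by linarith) (by linarith)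
    have ye : 0 ≤ cos (tF θ e - θ / 2) := cos_nonneg_of_mem_Icc ⟨by linarith, by linarith⟩
    have key := hK.low θ e hm0 hm1 he (by omega)
    rw [abs_of_neg xe, abs_of_nonneg ye] at key
    have e1 := sec_id τ (tF θ e) (θ / 2)
    have hsin : sin (τ - tF θ e) ≤ 0 :=
      sin_nonpos_of_nonpos_of_neg_pi_le (by linarith) (by linarith)
    have e2 : -cos (τ + θ / 2) * cos (tF θ e - θ / 2) ≤
        cos (τ - θ / 2) * -cos (tF θ e + θ / 2) := by
      have : 0 ≤ -(sin (τ - tF θ e) * sin (2 * (θ / 2))) := by nlinarith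
      linarith
    have n1 : (0 : ℝ) ≤ ((lowK kr m0 m1 e).2 : ℝ) := Nat.cast_nonneg _
    have : ((lowK kr m0 m1 e).1 : ℝ) * -cos (τ + θ / 2) * -cos (tF θ e + θ / 2) ≤
        ((lowK kr m0 m1 e).2 : ℝ) * cos (τ - θ / 2) * -cos (tF θ e + θ / 2) := by
      calc ((lowK kr m0 m1 e).1 : ℝ) * -cos (τ + θ / 2) * -cos (tF θ e + θ / 2)
          = ((lowK kr m0 m1 e).1 * -cos (tF θ e + θ / 2)) * -cos (τ + θ / 2) := by ring
        _ ≤ ((lowK kr m0 m1 e).2 * cos (tF θ e - θ / 2)) * -cos (τ + θ / 2) :=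
            mul_le_mul_of_nonneg_right key cx
        _ = (lowK kr m0 m1 e).2 * (-cos (τ + θ / 2) * cos (tF θ e - θ / 2)) := by ring
        _ ≤ (lowK kr m0 m1 e).2 * (cos (τ - θ / 2) * -cos (tF θ e + θ / 2)) :=
            mul_le_mul_of_nonneg_left e2 n1
        _ = _ := by ring
    exact le_of_mul_le_mul_right this (by linarith)
  · -- the upper bound, boundary `b`
    rcases hb.eq_or_lt with e8 | e8
    · subst e8
      simp only [highK]
      push_cast
      linarith
    have te : (π - θ) / 2 < tF θ b := by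
      rw [tF_opp (by omega) (by omega)]
      have : (9 : ℝ) ≤ b := by exact_mod_cast (by omega : 9 ≤ b)
      nlinarith
    have te2 : tF θ b ≤ (π + θ) / 2 := by
      rw [← tF_twelve]
      exact hm (by omega)
    have xe : cos (tF θ b + θ / 2) < 0 :=
      cos_neg_of_pi_div_two_lt_of_lt (by linarith) (by linarith)
    have ye : 0 ≤ cos (tF θ b - θ / 2) := cos_nonneg_of_mem_Icc ⟨by linarith, by linarith⟩
    have key := hK.high θ b hm0 hm1 (by omega) (by omega)
    rw [abs_of_neg xe, abs_of_nonneg ye] at key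
    have e1 := sec_id τ (tF θ b) (θ / 2)
    have hsin : 0 ≤ sin (τ - tF θ b) :=
      sin_nonneg_of_nonneg_of_le_pi (by linarith) (by linarith)
    have e2 : cos (τ - θ / 2) * -cos (tF θ b + θ / 2) ≤
        -cos (τ + θ / 2) * cos (tF θ b - θ / 2) := by
      have := mul_nonneg hsin hs.le
      linarith
    have n1 : (0 : ℝ) ≤ ((highK kr m0 m1 b).2 : ℝ) := Nat.cast_nonneg _
    have : ((highK kr m0 m1 b).2 : ℝ) * cos (τ - θ / 2) * -cos (tF θ b + θ / 2) ≤
        ((highK kr m0 m1 b).1 : ℝ) * -cos (τ + θ / 2) * -cos (tF θ b + θ / 2) := by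
      calc ((highK kr m0 m1 b).2 : ℝ) * cos (τ - θ / 2) * -cos (tF θ b + θ / 2)
          = (highK kr m0 m1 b).2 * (cos (τ - θ / 2) * -cos (tF θ b + θ / 2)) := by ring
        _ ≤ (highK kr m0 m1 b).2 * (-cos (τ + θ / 2) * cos (tF θ b - θ / 2)) :=
            mul_le_mul_of_nonneg_left e2 n1
        _ = ((highK kr m0 m1 b).2 * cos (tF θ b - θ / 2)) * -cos (τ + θ / 2) := by ring
        _ ≤ ((highK kr m0 m1 b).1 * -cos (tF θ b + θ / 2)) * -cos (τ + θ / 2) :=
            mul_le_mul_of_nonneg_right key cx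
        _ = _ := by ring
    exact le_of_mul_le_mul_right this (by linarith)

/-- the product of two slopes -/
theorem slope_mul {n d x y k j Rj Rk : ℝ} (hn : 0 ≤ n) (hx : 0 ≤ x) (h : n * x ≤ d * y)
    (hj : 0 ≤ Rj) (hk : 0 ≤ k) (h1 : Rj ≤ j) (h2 : k ≤ Rk) :
    n * k * (Rj * x) ≤ d * j * (Rk * y) := by
  have hR : k * Rj ≤ Rk * j := mul_le_mul h2 h1 hj (hk.trans h2)
  have h3 : 0 ≤ n * x := mul_nonneg hn hx
  calc n * k * (Rj * x) = (k * Rj) * (n * x) := by ring
    _ ≤ (Rk * j) * (n * x) := mul_le_mul_of_nonneg_right hR h3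
    _ ≤ (Rk * j) * (d * y) := mul_le_mul_of_nonneg_left h ((mul_nonneg hk hj).trans hR)
    _ = _ := by ring

/-- the values on the fine sectors are good -/
def SecOK (L K : LZ) (al be ga : ℤ) (A B C : ℕ → ℤ) (Rj Rk θ : ℝ) (b : ℕ) : Prop :=
  ∀ i, b ≤ i → i < 12 → ∀ τ, tF θ i ≤ τ → τ ≤ tF θ (i + 1) → ∀ s : Bool,
    (i < 8 → CellsOK L.toLF K.toLF al be ga s s (Rj * cos (τ + θ / 2)) (Rk * cos (τ - θ / 2))
      (qf (A (i - b)) (B (i - b)) (C (i - b)) (Rj * cos (τ + θ / 2)) (Rk * cos (τ - θ / 2)))) ∧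
    (8 ≤ i → CellsOK L.toLF K.toLF al be ga s (!s) (Rj * -cos (τ + θ / 2))
      (Rk * cos (τ - θ / 2))
      (qf (A (i - b)) (B (i - b)) (C (i - b)) (Rj * -cos (τ + θ / 2)) (Rk * cos (τ - θ / 2))))

theorem grOK_sound {kr : ℕ → KRow} {m0 m1 : ℕ} (hK : KapOK kr m0 m1) {j0 j1 k0 k1 : ℕ}
    {L K : LZ} {al be ga : ℤ} {Rj Rk θ : ℝ} (h0 : 0 < θ) (hπ : θ < π) (hm0 : thG m0 ≤ θ)
    (hm1 : θ ≤ thG m1) (hRj : 0 ≤ Rj) (hRk : 0 ≤ Rk) (a1 : (j0 : ℝ) ≤ 64 * Rj)
    (a2 : 64 * Rj ≤ j1) (a3 : (k0 : ℝ) ≤ 64 * Rk) (a4 : 64 * Rk ≤ k1) :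
    ∀ (gs : List ℕ) (A B C : List ℤ) (b : ℕ),
      grOK kr m0 m1 j0 j1 k0 k1 L K al be ga b gs A B C = true →
      SecOK L K al be ga (exL gs A) (exL gs B) (exL gs C) Rj Rk θ b := by
  intro gs
  induction gs with
  | nil =>
    intro A B C b h i hi hi2
    simp only [grOK, beq_iff_eq] at h
    omega
  | cons g gs ih =>
    intro A B C b h
    match A, B, C with
    | [], B, C => cases B <;> cases C <;> simp [grOK] at h
    | a :: A, [], C => cases C <;> simp [grOK] at h
    | a :: A, b' :: B, [] => simp [grOK] at h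
    | a :: A, b' :: B, c :: C =>
      rw [grOK, Bool.and_eq_true] at h
      obtain ⟨h, hrec⟩ := h
      dsimp only at h
      rw [Bool.and_eq_true, Bool.and_eq_true, Bool.and_eq_true, Nat.blt_eq, Nat.ble_eq,
        Nat.blt_eq] at h
      obtain ⟨⟨⟨hg, hb⟩, hdet⟩, hc⟩ := h
      have hrec' := ih A B C (b + g) hrec
      intro i hi hi12 τ t1 t2 s
      have hm := tF_mono h0 hπ
      by_cases hig : i < b + g
      · -- in the group
        have ei : ∀ l : List ℤ, ∀ x : ℤ, exL (g :: gs) (x :: l) (i - b) = x := by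
          intro l x
          rw [exL, if_pos (by omega)]
        rw [ei, ei, ei]
        by_cases hb8 : b < 8
        · simp only [if_pos hb8] at hb hdet hc
          rw [Bool.and_eq_true] at hc
          refine ⟨fun _ => ?_, fun h8 => absurd h8 (by omega)⟩
          obtain ⟨c1, c2, c3, c4⟩ := slope_same h0 hπ hb8 hb ((hm hi).trans t1)
            (t2.trans (hm (by omega : i + 1 ≤ b + g))) hK hm0 hm1
          have c4 := c4 (by omega)
          generalize hlo : lowK kr m0 m1 b = lo at *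
          generalize hhi : highK kr m0 m1 (b + g) = hi' at *
          obtain ⟨n1, d1⟩ := lo
          obtain ⟨n2, d2⟩ := hi'
          dsimp only at hdet hc c3 c4
          have hd : (0 : ℤ) < Int.ofNat (d1 * j1) * Int.ofNat (n2 * k1) -
              Int.ofNat (n1 * k0) * Int.ofNat (d2 * j0) := by
            simp only [Int.ofNat_eq_natCast]
            have : ((n1 * k0 * (d2 * j0) : ℕ) : ℤ) < ((d1 * j1 * (n2 * k1) : ℕ) : ℤ) := by
              exact_mod_cast hdet
            push_cast at this ⊢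
            linarith
          have X0 : 0 ≤ Rj * cos (τ + θ / 2) := mul_nonneg hRj c1
          have Y0 : 0 ≤ Rk * cos (τ - θ / 2) := mul_nonneg hRk c2
          have q1 : ((Int.ofNat (n1 * k0) : ℤ) : ℝ) * (Rj * cos (τ + θ / 2)) ≤
              ((Int.ofNat (d1 * j1) : ℤ) : ℝ) * (Rk * cos (τ - θ / 2)) := by
            have := slope_mul (Nat.cast_nonneg n1) c1 c3 (Rj := 64 * Rj) (by linarith)
              (Nat.cast_nonneg k0) a2 a3
            simp only [Int.ofNat_eq_natCast, Int.cast_natCast]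
            push_cast
            linarith
          have q2 : ((Int.ofNat (d2 * j0) : ℤ) : ℝ) * (Rk * cos (τ - θ / 2)) ≤
              ((Int.ofNat (n2 * k1) : ℤ) : ℝ) * (Rj * cos (τ + θ / 2)) := by
            have := slope_mul (Nat.cast_nonneg d2) c2 c4 (Rj := 64 * Rk) (by linarith)
              (Nat.cast_nonneg j0) a4 a1
            simp only [Int.ofNat_eq_natCast, Int.cast_natCast]
            push_cast
            linarith
          cases s
          · exact coneOK_sound hc.2 hd X0 Y0 q1 q2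
          · exact coneOK_sound hc.1 hd X0 Y0 q1 q2
        · simp only [if_neg hb8] at hb hdet hc
          rw [Bool.and_eq_true] at hc
          refine ⟨fun h8 => absurd h8 (by omega), fun _ => ?_⟩
          obtain ⟨c1, c2, c3, c4⟩ := slope_opp h0 hπ (b := b) (e := b + g) (by omega) hb
            (by omega) (by omega) ((hm hi).trans t1)
            (t2.trans (hm (by omega : i + 1 ≤ b + g))) hK hm0 hm1
          generalize hlo : lowK kr m0 m1 (b + g) = lo at *
          generalize hhi : highK kr m0 m1 b = hi' at *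
          obtain ⟨n1, d1⟩ := lo
          obtain ⟨n2, d2⟩ := hi'
          dsimp only at hdet hc c3 c4
          have hd : (0 : ℤ) < Int.ofNat (d1 * j1) * Int.ofNat (n2 * k1) -
              Int.ofNat (n1 * k0) * Int.ofNat (d2 * j0) := by
            simp only [Int.ofNat_eq_natCast]
            have : ((n1 * k0 * (d2 * j0) : ℕ) : ℤ) < ((d1 * j1 * (n2 * k1) : ℕ) : ℤ) := by
              exact_mod_cast hdet
            push_cast at this ⊢
            linarith
          have X0 : 0 ≤ Rj * -cos (τ + θ / 2) := mul_nonneg hRj c1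
          have Y0 : 0 ≤ Rk * cos (τ - θ / 2) := mul_nonneg hRk c2
          have q1 : ((Int.ofNat (n1 * k0) : ℤ) : ℝ) * (Rj * -cos (τ + θ / 2)) ≤
              ((Int.ofNat (d1 * j1) : ℤ) : ℝ) * (Rk * cos (τ - θ / 2)) := by
            have := slope_mul (Nat.cast_nonneg n1) c1 c3 (Rj := 64 * Rj) (by linarith)
              (Nat.cast_nonneg k0) a2 a3
            simp only [Int.ofNat_eq_natCast, Int.cast_natCast]
            push_cast
            linarith
          have q2 : ((Int.ofNat (d2 * j0) : ℤ) : ℝ) * (Rk * cos (τ - θ / 2)) ≤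
              ((Int.ofNat (n2 * k1) : ℤ) : ℝ) * (Rj * -cos (τ + θ / 2)) := by
            have := slope_mul (Nat.cast_nonneg d2) c2 c4 (Rj := 64 * Rk) (by linarith)
              (Nat.cast_nonneg j0) a4 a1
            simp only [Int.ofNat_eq_natCast, Int.cast_natCast]
            push_cast
            linarith
          cases s
          · exact coneOK_sound hc.1 hd X0 Y0 q1 q2
          · exact coneOK_sound hc.2 hd X0 Y0 q1 q2
      · -- in the rest
        have key := hrec' i (by omega) hi12 τ t1 t2 s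
        have ei : ∀ l : List ℤ, ∀ x : ℤ, exL (g :: gs) (x :: l) (i - b) =
            exL gs l (i - (b + g)) := by
          intro l x
          rw [exL, if_neg (by omega)]
          congr 1
          omega
        rw [ei, ei, ei]
        exact key

end Pool.Agent.RRS
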