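import Pool.Agent.RRS.Chk3

/-!
# The scalar inequality: Bernstein coefficients and weights
-/

set_option autoImplicit false

namespace Pool.Agent.RRS

open Real

/-- all Bernstein coefficients of `x - r q - r ^ 2 v` (with `x, q, v` affine) are not negative -/
def b1D (x0 x1 q0 q1 v0 v1 r0 r1 : ℤ) : Bool :=
  decide (0 ≤ x0 - r0 * q0 - r0 * r0 * v0) &&
  decide (0 ≤ 2 * x0 + x1 - ((r0 + r1) * q0 + r0 * q1) - (2 * r0 * r1 * v0 + r0 * r0 * v1)) &&
  decide (0 ≤ x0 + 2 * x1 - (r1 * q0 + (r0 + r1) * q1) - (r1 * r1 * v0 + 2 * r0 * r1 * v1)) &&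
  decide (0 ≤ x1 - r1 * q1 - r1 * r1 * v1)

theorem bern_real {x0 x1 q0 q1 v0 v1 r0 r1 s : ℝ} (h0 : 0 ≤ s) (h1 : s ≤ 1)
    (c0 : 0 ≤ x0 - r0 * q0 - r0 * r0 * v0)
    (c1 : 0 ≤ 2 * x0 + x1 - ((r0 + r1) * q0 + r0 * q1) - (2 * r0 * r1 * v0 + r0 * r0 * v1))
    (c2 : 0 ≤ x0 + 2 * x1 - (r1 * q0 + (r0 + r1) * q1) - (r1 * r1 * v0 + 2 * r0 * r1 * v1))
    (c3 : 0 ≤ x1 - r1 * q1 - r1 * r1 * v1) :
    0 ≤ ((1 - s) * x0 + s * x1) - ((1 - s) * r0 + s * r1) * ((1 - s) * q0 + s * q1) -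
      ((1 - s) * r0 + s * r1) ^ 2 * ((1 - s) * v0 + s * v1) := by
  have e : ((1 - s) * x0 + s * x1) - ((1 - s) * r0 + s * r1) * ((1 - s) * q0 + s * q1) -
      ((1 - s) * r0 + s * r1) ^ 2 * ((1 - s) * v0 + s * v1) =
      (1 - s) ^ 3 * (x0 - r0 * q0 - r0 * r0 * v0) +
      s * (1 - s) ^ 2 * (2 * x0 + x1 - ((r0 + r1) * q0 + r0 * q1) -
        (2 * r0 * r1 * v0 + r0 * r0 * v1)) +
      s ^ 2 * (1 - s) * (x0 + 2 * x1 - (r1 * q0 + (r0 + r1) * q1) -
        (r1 * r1 * v0 + 2 * r0 * r1 * v1)) +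
      s ^ 3 * (x1 - r1 * q1 - r1 * r1 * v1) := by ring
  rw [e]
  have hs : 0 ≤ 1 - s := sub_nonneg.2 h1
  positivity

/-- the numbers at a corner -/
structure NCf where
  x : ℤ
  U : ℤ
  Q : ℤ
  V : ℤ

/-- the tensor Bernstein coefficients -/
def b2D (a00 a10 a01 a11 : NCf) (j0 j1 k0 k1 : ℤ) : Bool :=
  b1D (a00.x - j0 * j0 * a00.U) (a01.x - j0 * j0 * a01.U) (j0 * a00.Q) (j0 * a01.Q) a00.V a01.V
    k0 k1 &&
  b1D (2 * a00.x + a10.x - (2 * j0 * j1 * a00.U + j0 * j0 * a10.U))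
    (2 * a01.x + a11.x - (2 * j0 * j1 * a01.U + j0 * j0 * a11.U))
    ((j0 + j1) * a00.Q + j0 * a10.Q) ((j0 + j1) * a01.Q + j0 * a11.Q)
    (2 * a00.V + a10.V) (2 * a01.V + a11.V) k0 k1 &&
  b1D (a00.x + 2 * a10.x - (j1 * j1 * a00.U + 2 * j0 * j1 * a10.U))
    (a01.x + 2 * a11.x - (j1 * j1 * a01.U + 2 * j0 * j1 * a11.U))
    (j1 * a00.Q + (j0 + j1) * a10.Q) (j1 * a01.Q + (j0 + j1) * a11.Q)
    (a00.V + 2 * a10.V) (a01.V + 2 * a11.V) k0 k1 &&
  b1D (a10.x - j1 * j1 * a10.U) (a11.x - j1 * j1 * a11.U) (j1 * a10.Q) (j1 * a11.Q) a10.V a11.V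
    k0 k1

/-- bilinear mixtures -/
def mix (s t x00 x10 x01 x11 : ℝ) : ℝ :=
  (1 - t) * ((1 - s) * x00 + s * x10) + t * ((1 - s) * x01 + s * x11)

theorem b1D_sound {x0 x1 q0 q1 v0 v1 r0 r1 : ℤ} (h : b1D x0 x1 q0 q1 v0 v1 r0 r1 = true) {s : ℝ}
    (h0 : 0 ≤ s) (h1 : s ≤ 1) :
    0 ≤ ((1 - s) * x0 + s * x1) - ((1 - s) * r0 + s * r1) * ((1 - s) * q0 + s * q1) -
      ((1 - s) * r0 + s * r1) ^ 2 * ((1 - s) * v0 + s * v1) := by
  unfold b1D at h
  simp only [Bool.and_eq_true, decide_eq_true_eq] at h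
  obtain ⟨⟨⟨c0, c1⟩, c2⟩, c3⟩ := h
  refine bern_real h0 h1 ?_ ?_ ?_ ?_
  · exact_mod_cast c0
  · exact_mod_cast c1
  · exact_mod_cast c2
  · exact_mod_cast c3

theorem b2D_sound {a00 a10 a01 a11 : NCf} {j0 j1 k0 k1 : ℤ}
    (h : b2D a00 a10 a01 a11 j0 j1 k0 k1 = true) {s t : ℝ}
    (s0 : 0 ≤ s) (s1 : s ≤ 1) (t0 : 0 ≤ t) (t1 : t ≤ 1) :
    0 ≤ mix s t a00.x a10.x a01.x a11.x -
      ((1 - s) * j0 + s * j1) ^ 2 * mix s t a00.U a10.U a01.U a11.U -
      ((1 - s) * j0 + s * j1) * ((1 - t) * k0 + t * k1) * mix s t a00.Q a10.Q a01.Q a11.Q -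
      ((1 - t) * k0 + t * k1) ^ 2 * mix s t a00.V a10.V a01.V a11.V := by
  unfold b2D at h
  simp only [Bool.and_eq_true] at h
  obtain ⟨⟨⟨c0, c1⟩, c2⟩, c3⟩ := h
  have d0 := b1D_sound c0 t0 t1
  have d1 := b1D_sound c1 t0 t1
  have d2 := b1D_sound c2 t0 t1
  have d3 := b1D_sound c3 t0 t1
  push_cast at d0 d1 d2 d3
  obtain ⟨r, hr⟩ : ∃ r : ℝ, r = (1 - t) * k0 + t * k1 := ⟨_, rfl⟩
  have key := bern_real
    (x0 := ((1 - t) * a00.x + t * a01.x) - r ^ 2 * ((1 - t) * a00.V + t * a01.V))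
    (x1 := ((1 - t) * a10.x + t * a11.x) - r ^ 2 * ((1 - t) * a10.V + t * a11.V))
    (q0 := r * ((1 - t) * a00.Q + t * a01.Q)) (q1 := r * ((1 - t) * a10.Q + t * a11.Q))
    (v0 := (1 - t) * a00.U + t * a01.U) (v1 := (1 - t) * a10.U + t * a11.U)
    (r0 := j0) (r1 := j1) s0 s1 ?_ ?_ ?_ ?_
  · refine le_trans key (le_of_eq ?_)
    unfold mix
    rw [← hr]
    ring
  · refine le_trans d0 (le_of_eq ?_)
    rw [← hr]
    ring
  · refine le_trans d1 (le_of_eq ?_)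
    rw [← hr]
    ring
  · refine le_trans d2 (le_of_eq ?_)
    rw [← hr]
    ring
  · refine le_trans d3 (le_of_eq ?_)
    rw [← hr]
    ring

/-! ### Weights -/

/-- the sum of the first `n` pairs -/
def sumL : ℕ → List (ℕ × ℕ) → ℕ × ℕ
  | n + 1, x :: w => (x.1 + (sumL n w).1, x.2 + (sumL n w).2)
  | _, _ => (0, 0)

/-- the pairs of the groups -/
def gsum : List ℕ → List (ℕ × ℕ) → List (ℕ × ℕ)
  | g :: gs, w => sumL g w :: gsum gs (w.drop g)
  | [], _ => []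

/-- upper bound of the sum of products -/
def dotZ : List ℤ → List (ℕ × ℕ) → ℤ
  | a :: l, w :: ws =>
    (if a < 0 then a * Int.ofNat w.1 else a * Int.ofNat w.2) + dotZ l ws
  | _, _ => 0

theorem sumL_le {z : ℝ} : ∀ (n : ℕ) (p q : List (ℕ × ℕ)) (w : ℕ → ℝ),
    n ≤ p.length → n ≤ q.length →
    (∀ i, i < n → (1 - z) * loW p i + z * loW q i ≤ w i ∧
      w i ≤ (1 - z) * hiW p i + z * hiW q i) →
    (1 - z) * ((sumL n p).1 : ℝ) + z * ((sumL n q).1 : ℝ) ≤ ∑ i ∈ Finset.range n, w i ∧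
      ∑ i ∈ Finset.range n, w i ≤ (1 - z) * ((sumL n p).2 : ℝ) + z * ((sumL n q).2 : ℝ) := by
  intro n
  induction n with
  | zero =>
    intro p q w _ _ _
    cases p <;> cases q <;> simp [sumL]
  | succ n ih =>
    intro p q w hp hq h
    match p, q with
    | [], _ => simp at hp
    | _ :: _, [] => simp at hq
    | x :: p, y :: q =>
      have key := ih p q (fun i => w (i + 1)) (by simpa using hp) (by simpa using hq)
        (fun i hi => by
          have := h (i + 1) (by omega)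
          simpa [loW, hiW] using this)
      have h0 := h 0 (by omega)
      simp only [loW, hiW, List.getD_cons_zero] at h0
      rw [Finset.sum_range_succ']
      simp only [sumL]
      push_cast
      constructor <;> nlinarith [key.1, key.2, h0.1, h0.2]

theorem dotZ_le {z : ℝ} (z0 : 0 ≤ z) (z1 : z ≤ 1) : ∀ (gs : List ℕ) (A : List ℤ)
    (p q : List (ℕ × ℕ)) (w : ℕ → ℝ), gs.sum ≤ p.length → gs.sum ≤ q.length →
    (∀ i, i < gs.sum → (1 - z) * loW p i + z * loW q i ≤ w i ∧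
      w i ≤ (1 - z) * hiW p i + z * hiW q i) →
    ∑ i ∈ Finset.range gs.sum, (exL gs A i : ℝ) * w i ≤
      (1 - z) * (dotZ A (gsum gs p) : ℝ) + z * (dotZ A (gsum gs q) : ℝ) := by
  intro gs
  induction gs with
  | nil =>
    intro A p q w _ _ _
    cases A <;> simp [gsum, dotZ]
  | cons g gs ih =>
    intro A p q w hp hq h
    rw [List.sum_cons] at hp hq h ⊢
    match A with
    | [] =>
      simp [gsum, dotZ, exL]
    | a :: A =>
      rw [Finset.sum_range_add]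
      have e1 : ∀ i ∈ Finset.range g, (exL (g :: gs) (a :: A) i : ℝ) * w i = (a : ℝ) * w i := by
        intro i hi
        rw [exL, if_pos (Finset.mem_range.1 hi)]
      have e2 : ∀ i ∈ Finset.range gs.sum, (exL (g :: gs) (a :: A) (g + i) : ℝ) * w (g + i) =
          (exL gs A i : ℝ) * w (g + i) := by
        intro i _
        rw [exL, if_neg (by omega), Nat.add_sub_cancel_left]
      rw [Finset.sum_congr rfl e1, Finset.sum_congr rfl e2, ← Finset.mul_sum]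
      have key1 := sumL_le (z := z) g p q w (by omega) (by omega) (fun i hi => h i (by omega))
      have key2 := ih A (p.drop g) (q.drop g) (fun i => w (g + i))
        (by rw [List.length_drop]; omega) (by rw [List.length_drop]; omega)
        (fun i hi => by
          have := h (g + i) (by omega)
          simpa [loW, hiW, List.getD_eq_getElem?_getD, List.getElem?_drop] using this)
      have hz : 0 ≤ 1 - z := sub_nonneg.2 z1
      simp only [gsum, dotZ]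
      by_cases ha : a < 0
      · rw [if_pos ha, if_pos ha]
        have ha' : (a : ℝ) ≤ 0 := by exact_mod_cast ha.le
        push_cast
        have := mul_le_mul_of_nonpos_left key1.1 ha'
        simp only [Int.ofNat_eq_natCast, Int.cast_natCast]
        nlinarith [key2, this]
      · rw [if_neg ha, if_neg ha]
        have ha' : (0 : ℝ) ≤ a := by exact_mod_cast (not_lt.1 ha)
        push_cast
        have := mul_le_mul_of_nonneg_left key1.2 ha'
        simp only [Int.ofNat_eq_natCast, Int.cast_natCast]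
        nlinarith [key2, this]

/-- quadratic over linear is convex -/
theorem sq_div_mix {s w0 w1 u0 u1 : ℝ} (s0 : 0 ≤ s) (s1 : s ≤ 1) (h0 : 0 < u0) (h1 : 0 < u1) :
    ((1 - s) * w0 + s * w1) ^ 2 / ((1 - s) * u0 + s * u1) ≤
      (1 - s) * (w0 ^ 2 / u0) + s * (w1 ^ 2 / u1) := by
  have hs : 0 ≤ 1 - s := sub_nonneg.2 s1
  have hu : 0 < (1 - s) * u0 + s * u1 := by
    rcases s0.eq_or_lt with h | h
    · rw [← h]
      simpa using h0
    · have := mul_pos h h1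
      have := mul_nonneg hs h0.le
      linarith
  rw [div_le_iff₀ hu]
  have e : ((1 - s) * (w0 ^ 2 / u0) + s * (w1 ^ 2 / u1)) * ((1 - s) * u0 + s * u1) =
      ((1 - s) * w0 + s * w1) ^ 2 + s * (1 - s) * ((w0 * u1 - w1 * u0) ^ 2 / (u0 * u1)) := by
    field_simp
    ring
  rw [e]
  have : 0 ≤ s * (1 - s) * ((w0 * u1 - w1 * u0) ^ 2 / (u0 * u1)) := by positivity
  linarith

end Pool.Agent.RRS
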