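import Pool.Agent.RRS.Chk4

/-!
# Cells: definitions and the mixture of the multipliers
-/

set_option autoImplicit false

namespace Pool.Agent.RRS

open Real

/-- a piece of the functions: `(c, d)` stands for `(c + d R) / 1000` -/
structure Piece where
  a0 : ℤ × ℤ
  a1 : ℤ × ℤ
  z : ℤ × ℤ
  b0 : ℤ × ℤ
  b1 : ℤ × ℤ
  smp : Bool

noncomputable def affR (f : ℤ × ℤ) (R : ℝ) : ℝ := (f.1 + f.2 * R) / 1000

/-- `2048000` times the value at `R = r / 64` -/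
def affZ (f : ℤ × ℤ) (r : ℕ) : ℤ := 32 * (64 * f.1 + f.2 * Int.ofNat r)

noncomputable def Piece.L (p : Piece) (R : ℝ) : LF :=
  ⟨affR p.a0 R, affR p.a1 R, affR p.z R, affR p.b0 R, affR p.b1 R, affR p.z R⟩

def Piece.Z (p : Piece) (r : ℕ) : LZ :=
  ⟨affZ p.a0 r, affZ p.a1 r, affZ p.z r, affZ p.b0 r, affZ p.b1 r, affZ p.z r⟩

noncomputable def Piece.g1 (p : Piece) (R : ℝ) : ℝ := if p.smp then 0 else affR p.b0 R
noncomputable def Piece.G (p : Piece) (R : ℝ) : ℝ :=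
  if p.smp then 0 else affR p.a1 R - affR p.b0 R
noncomputable def Piece.g2 (p : Piece) : ℝ := if p.smp then 0 else 1
def Piece.g1Z (p : Piece) (r : ℕ) : ℤ := if p.smp then 0 else affZ p.b0 r
def Piece.GZ (p : Piece) (r : ℕ) : ℤ := if p.smp then 0 else affZ p.a1 r - affZ p.b0 r

/-- the data of a corner -/
structure Cor where
  al : ℤ
  be : ℤ
  ga : ℤ
  A : List ℤ
  B : List ℤ
  C : List ℤ

/-- lower bound of the multiplier `u` (the tolerance of the cosine `C` is `75400`) -/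
def uLo (be C g : ℤ) : ℤ := be * 1000000000 - (C + 75400) * g

/-- upper bound of `w` -/
def wHi (s : Bool) (C : ℤ) : ℤ := if s then 1000000000 else 1000075400 - C

/-- lower bound of `w` -/
def wLo (s : Bool) (C : ℤ) : ℤ := if s then 1000000000 else 999924600 - C

/-- upper bound of `w ^ 2 / (2 u)` -/
def yUp (w u : ℤ) : ℤ := w * w * 4194304000000 / (2 * u) + 1

/-- the numbers of a corner at a node -/
def ncOf (C : ℤ) (X M Y : List (ℕ × ℕ)) (sj sk : Bool) (rj rk gj gk Gj Gk : ℤ) (c : Cor) : NCf :=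
  ⟨-8192 * (c.al * 1000000000 + yUp (wHi sj C) (uLo c.be C gj) + yUp (wHi sk C) (uLo c.ga C gk)) +
      8192 * (C * (Gj + Gk) - 75400 * (az Gj + az Gk)) +
      370727599 * (rj * wLo sj C + rk * wLo sk C) -
      4096 * (uLo c.be C gj + 150800 * gj + (uLo c.ga C gk + 150800 * gk)),
    uLo c.be C gj + 150800 * gj + 2 * dotZ c.A X, 2 * dotZ c.B M,
    uLo c.ga C gk + 150800 * gk + 2 * dotZ c.C Y⟩

/-- the check at a node -/
def nodeOK (row : Row) (p q : Piece) (j0 j1 k0 k1 : ℕ) (gs : List ℕ) (c00 c10 c01 c11 : Cor) :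
    Bool :=
  let C := row.c
  let X := gsum gs row.X
  let M := gsum gs row.M
  let Y := gsum gs row.Y
  let g0 := p.g1Z j0
  let g1 := p.g1Z j1
  let h0 := q.g1Z k0
  let h1 := q.g1Z k1
  let G0 := p.GZ j0
  let G1 := p.GZ j1
  let H0 := q.GZ k0
  let H1 := q.GZ k1
  decide (C ≤ 999924600) && decide (0 < uLo c00.be C g0) && decide (0 < uLo c10.be C g1) &&
  decide (0 < uLo c01.be C g0) && decide (0 < uLo c11.be C g1) &&
  decide (0 < uLo c00.ga C h0) && decide (0 < uLo c10.ga C h0) &&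
  decide (0 < uLo c01.ga C h1) && decide (0 < uLo c11.ga C h1) &&
  b2D (ncOf C X M Y p.smp q.smp (Int.ofNat j0) (Int.ofNat k0) g0 h0 G0 H0 c00)
    (ncOf C X M Y p.smp q.smp (Int.ofNat j1) (Int.ofNat k0) g1 h0 G1 H0 c10)
    (ncOf C X M Y p.smp q.smp (Int.ofNat j0) (Int.ofNat k1) g0 h1 G0 H1 c01)
    (ncOf C X M Y p.smp q.smp (Int.ofNat j1) (Int.ofNat k1) g1 h1 G1 H1 c11)
    (Int.ofNat j0) (Int.ofNat j1) (Int.ofNat k0) (Int.ofNat k1)

/-- the nodes `m, ..., m + n` -/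
def nodesOK (row : ℕ → Row) (p q : Piece) (j0 j1 k0 k1 : ℕ) (gs : List ℕ)
    (c00 c10 c01 c11 : Cor) : ℕ → ℕ → Bool
  | 0, m => nodeOK (row m) p q j0 j1 k0 k1 gs c00 c10 c01 c11
  | n + 1, m => nodeOK (row m) p q j0 j1 k0 k1 gs c00 c10 c01 c11 &&
    nodesOK row p q j0 j1 k0 k1 gs c00 c10 c01 c11 n (m + 1)

/-- the check of the pointwise inequality at a corner -/
def corOK (kr : ℕ → KRow) (m0 m1 j0 j1 k0 k1 : ℕ) (L K : LZ) (gs : List ℕ) (c : Cor) : Bool :=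
  grOK kr m0 m1 j0 j1 k0 k1 L K c.al c.be c.ga 0 gs c.A c.B c.C &&
  decide (0 ≤ L.zp + K.zp + c.al)

/-- **the check of a cell** -/
def cellOK (kr : ℕ → KRow) (row : ℕ → Row) (p q : Piece) (j0 j1 k0 k1 m0 m1 : ℕ) (gs : List ℕ)
    (c00 c10 c01 c11 : Cor) : Bool :=
  Nat.blt j0 j1 && Nat.blt k0 k1 && Nat.blt m0 m1 && (gs.sum == 12) &&
  decide (0 ≤ affZ p.a1 j0) && decide (0 ≤ affZ p.a1 j1) && decide (0 ≤ affZ q.a1 k0) &&
  decide (0 ≤ affZ q.a1 k1) &&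
  decide (0 ≤ p.g1Z j0) && decide (0 ≤ p.g1Z j1) && decide (0 ≤ q.g1Z k0) &&
  decide (0 ≤ q.g1Z k1) &&
  nodesOK row p q j0 j1 k0 k1 gs c00 c10 c01 c11 (m1 - m0) m0 &&
  corOK kr m0 m1 j0 j1 k0 k1 (p.Z j0) (q.Z k0) gs c00 &&
  corOK kr m0 m1 j0 j1 k0 k1 (p.Z j1) (q.Z k0) gs c10 &&
  corOK kr m0 m1 j0 j1 k0 k1 (p.Z j0) (q.Z k1) gs c01 &&
  corOK kr m0 m1 j0 j1 k0 k1 (p.Z j1) (q.Z k1) gs c11

theorem mix_nonneg {s t a b c d : ℝ} (s0 : 0 ≤ s) (s1 : s ≤ 1) (t0 : 0 ≤ t) (t1 : t ≤ 1)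
    (ha : 0 ≤ a) (hb : 0 ≤ b) (hc : 0 ≤ c) (hd : 0 ≤ d) : 0 ≤ mix s t a b c d := by
  have := sub_nonneg.2 s1
  have := sub_nonneg.2 t1
  unfold mix
  positivity

theorem mix_mono {s t a b c d a' b' c' d' : ℝ} (s0 : 0 ≤ s) (s1 : s ≤ 1) (t0 : 0 ≤ t)
    (t1 : t ≤ 1) (ha : a ≤ a') (hb : b ≤ b') (hc : c ≤ c') (hd : d ≤ d') :
    mix s t a b c d ≤ mix s t a' b' c' d' := by
  have e : mix s t a' b' c' d' - mix s t a b c d = mix s t (a' - a) (b' - b) (c' - c) (d' - d) := by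
    unfold mix
    ring
  have := mix_nonneg s0 s1 t0 t1 (sub_nonneg.2 ha) (sub_nonneg.2 hb) (sub_nonneg.2 hc)
    (sub_nonneg.2 hd)
  linarith

/-- the mixture of the values -/
structure LFmix (D s : ℝ) (L L0 L1 : LF) : Prop where
  a0 : D * L.a0 = (1 - s) * L0.a0 + s * L1.a0
  a1 : D * L.a1 = (1 - s) * L0.a1 + s * L1.a1
  zp : D * L.zp = (1 - s) * L0.zp + s * L1.zp
  b0 : D * L.b0 = (1 - s) * L0.b0 + s * L1.b0
  b1 : D * L.b1 = (1 - s) * L0.b1 + s * L1.b1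
  zm : D * L.zm = (1 - s) * L0.zm + s * L1.zm

theorem LFmix.p {D s : ℝ} {L L0 L1 : LF} (h : LFmix D s L L0 L1) (a b : Bool) :
    D * L.p a b = (1 - s) * L0.p a b + s * L1.p a b := by
  obtain ⟨h1, h2, h3, h4, h5, h6⟩ := h
  cases a <;> cases b <;> simp only [LF.p] <;> linarith

theorem LFmix.q {D s : ℝ} {L L0 L1 : LF} (h : LFmix D s L L0 L1) (a b : Bool) :
    D * L.q a b = (1 - s) * L0.q a b + s * L1.q a b := by
  obtain ⟨h1, h2, h3, h4, h5, h6⟩ := h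
  cases a <;> cases b <;> simp only [LF.q] <;> linarith

/-- **the mixture of good cells is good** -/
theorem cells_mix {D s t : ℝ} (hD : 0 < D) (s0 : 0 ≤ s) (s1 : s ≤ 1) (t0 : 0 ≤ t) (t1 : t ≤ 1)
    {L L0 L1 K K0 K1 : LF} (hL : LFmix D s L L0 L1) (hK : LFmix D t K K0 K1)
    {al be ga k al00 al10 al01 al11 be00 be10 be01 be11 ga00 ga10 ga01 ga11 k00 k10 k01 k11 : ℝ}
    (hal : D * al = mix s t al00 al10 al01 al11) (hbe : D * be = mix s t be00 be10 be01 be11)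
    (hga : D * ga = mix s t ga00 ga10 ga01 ga11) (hk : D * k = mix s t k00 k10 k01 k11)
    {sx sy : Bool} {X Y : ℝ}
    (c00 : CellsOK L0 K0 al00 be00 ga00 sx sy X Y k00)
    (c10 : CellsOK L1 K0 al10 be10 ga10 sx sy X Y k10)
    (c01 : CellsOK L0 K1 al01 be01 ga01 sx sy X Y k01)
    (c11 : CellsOK L1 K1 al11 be11 ga11 sx sy X Y k11) :
    CellsOK L K al be ga sx sy X Y k := by
  intro ix iy m hm i1 i2
  have key := mix_nonneg s0 s1 t0 t1 (c00 ix iy m hm i1 i2) (c10 ix iy m hm i1 i2)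
    (c01 ix iy m hm i1 i2) (c11 ix iy m hm i1 i2)
  have e : D * Qc L K al be ga sx sy ix iy X Y m k =
      mix s t (Qc L0 K0 al00 be00 ga00 sx sy ix iy X Y m k00)
        (Qc L1 K0 al10 be10 ga10 sx sy ix iy X Y m k10)
        (Qc L0 K1 al01 be01 ga01 sx sy ix iy X Y m k01)
        (Qc L1 K1 al11 be11 ga11 sx sy ix iy X Y m k11) := by
    have e1 := hL.p sx ix
    have e2 := hL.q sx ix
    have e3 := hK.p sy iy
    have e4 := hK.q sy iy
    unfold mix at hal hbe hga hk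
    unfold Qc mix
    linear_combination (X * m * ef sy iy) * e1 + (m ^ 2 * ef sy iy) * e2 +
      (Y * m * ef sx ix) * e3 + (m ^ 2 * ef sx ix) * e4 + m ^ 2 * hal + (sg sx * X * m) * hbe +
      (sg sy * Y * m) * hga + hk
  rw [← e] at key
  exact nonneg_of_mul_nonneg_right key hD

theorem affZ_mix (f : ℤ × ℤ) (r0 r1 : ℕ) (s : ℝ) :
    2048000 * affR f (((1 - s) * r0 + s * r1) / 64) = (1 - s) * (affZ f r0 : ℝ) +
      s * (affZ f r1 : ℝ) := by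
  unfold affR affZ
  simp only [Int.ofNat_eq_natCast]
  push_cast
  ring

theorem Piece.mix (p : Piece) (r0 r1 : ℕ) (s : ℝ) :
    LFmix 2048000 s (p.L (((1 - s) * r0 + s * r1) / 64)) (p.Z r0).toLF (p.Z r1).toLF := by
  constructor <;> exact affZ_mix _ _ _ _

theorem Piece.g1_mix (p : Piece) (r0 r1 : ℕ) (s : ℝ) :
    2048000 * p.g1 (((1 - s) * r0 + s * r1) / 64) = (1 - s) * (p.g1Z r0 : ℝ) +
      s * (p.g1Z r1 : ℝ) := by
  unfold Piece.g1 Piece.g1Z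
  split_ifs
  · simp
  · exact affZ_mix _ _ _ _

theorem Piece.G_mix (p : Piece) (r0 r1 : ℕ) (s : ℝ) :
    2048000 * p.G (((1 - s) * r0 + s * r1) / 64) = (1 - s) * (p.GZ r0 : ℝ) +
      s * (p.GZ r1 : ℝ) := by
  unfold Piece.G Piece.GZ
  split_ifs
  · simp
  · have e1 := affZ_mix p.a1 r0 r1 s
    have e2 := affZ_mix p.b0 r0 r1 s
    push_cast
    linarith

end Pool.Agent.RRS
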