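import Pool.Agent.RRS.Chk5

/-!
# Cells: the scalar inequality
-/

set_option autoImplicit false

namespace Pool.Agent.RRS

open Real

theorem uLo_bounds {be C g : ℤ} {c : ℝ} (hc : |10 ^ 9 * c - C| ≤ 75400) (hg : 0 ≤ g) :
    (uLo be C g : ℝ) ≤ 10 ^ 9 * (be - c * g) ∧
      10 ^ 9 * (be - c * g) ≤ (uLo be C g : ℝ) + 150800 * g := by
  have hg' : (0 : ℝ) ≤ g := by exact_mod_cast hg
  obtain ⟨h1, h2⟩ := abs_le.1 hc
  unfold uLo
  push_cast
  constructor <;> nlinarith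

theorem yUp_le {w c0 : ℝ} {wH um : ℤ} (hw : |10 ^ 9 * w| ≤ (wH : ℝ)) (hum : 0 < um)
    (hc : (um : ℝ) ≤ 10 ^ 9 * c0) :
    2048000 * 10 ^ 9 * (w ^ 2 / (2 * (c0 / 2048000))) ≤ (yUp wH um : ℝ) := by
  have hum' : (0 : ℝ) < um := by exact_mod_cast hum
  have hc0 : 0 < c0 := by
    by_contra h
    linarith [not_lt.1 h]
  have h1 : wH * wH * 4194304000000 < (wH * wH * 4194304000000 / (2 * um) + 1) * (2 * um) :=
    Int.lt_ediv_add_one_mul_self _ (by omega)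
  have h2 : ((wH : ℝ) * wH * 4194304000000) ≤ (yUp wH um : ℝ) * (2 * um) := by
    unfold yUp
    exact_mod_cast h1.le
  have h3 : (10 ^ 9 * w) ^ 2 ≤ (wH : ℝ) ^ 2 := by
    rw [← sq_abs (10 ^ 9 * w)]
    exact pow_le_pow_left₀ (abs_nonneg _) hw 2
  have e : 2048000 * 10 ^ 9 * (w ^ 2 / (2 * (c0 / 2048000))) =
      ((10 ^ 9 * w) ^ 2 * 4194304000000) / (2 * (10 ^ 9 * c0)) := by
    field_simp
    ring
  rw [e]
  have hy : 0 ≤ (yUp wH um : ℝ) := by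
    have : 0 ≤ (wH : ℝ) * wH * 4194304000000 := by nlinarith [mul_self_nonneg (wH : ℝ)]
    exact nonneg_of_mul_nonneg_left (this.trans h2) (by positivity)
  rw [div_le_iff₀ (by positivity)]
  have h4 : (yUp wH um : ℝ) * (2 * um) ≤ (yUp wH um : ℝ) * (2 * (10 ^ 9 * c0)) :=
    mul_le_mul_of_nonneg_left (by linarith) hy
  nlinarith

theorem az_eq (x : ℤ) : ((az x : ℤ) : ℝ) = |(x : ℝ)| := by
  unfold az
  split_ifs with h
  · have : (x : ℝ) < 0 := by exact_mod_cast h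
    rw [abs_of_neg this]
    push_cast
    ring
  · have : (0 : ℝ) ≤ x := by exact_mod_cast (not_lt.1 h)
    rw [abs_of_nonneg this]

theorem sqrt_two_lo : (370727599 : ℝ) ≤ 262144000 * √2 := by
  have : (370727599 / 262144000 : ℝ) ≤ √2 := by
    refine Real.le_sqrt_of_sq_le ?_
    norm_num
  linarith

/-- the coefficient `w` -/
noncomputable def wS (s : Bool) (c : ℝ) : ℝ := if s then 1 else 1 - c

theorem w_bounds (s : Bool) {c : ℝ} {C : ℤ} (hc : |10 ^ 9 * c - C| ≤ 75400)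
    (hC : C ≤ 999924600) :
    |10 ^ 9 * wS s c| ≤ ((wHi s C : ℤ) : ℝ) ∧ (wLo s C : ℝ) ≤ 10 ^ 9 * wS s c ∧
      (0 : ℝ) ≤ (wLo s C : ℤ) := by
  obtain ⟨h1, h2⟩ := abs_le.1 hc
  have hC' : (C : ℝ) ≤ 999924600 := by exact_mod_cast hC
  cases s
  · simp only [wS, wHi, wLo, Bool.false_eq_true, if_false]
    push_cast
    refine ⟨abs_le.2 ⟨by linarith, by linarith⟩, by linarith, by linarith⟩
  · simp only [wS, wHi, wLo, if_true]
    rw [abs_of_nonneg (by norm_num)]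
    norm_num

/-- the bounds of the numbers of a corner -/
theorem nc_bounds {C : ℤ} {X M Y : List (ℕ × ℕ)} {sj sk : Bool} {rj rk gj gk Gj Gk : ℤ} {cr : Cor}
    {c : ℝ} (hc : |10 ^ 9 * c - C| ≤ 75400) (hC : C ≤ 999924600) (hgj : 0 ≤ gj) (hgk : 0 ≤ gk)
    (hu : 0 < uLo cr.be C gj) (hv : 0 < uLo cr.ga C gk) (hrj : 0 ≤ rj) (hrk : 0 ≤ rk) :
    0 < (cr.be - c * gj) / 2048000 ∧ 0 < (cr.ga - c * gk) / 2048000 ∧
    ((ncOf C X M Y sj sk rj rk gj gk Gj Gk cr).x : ℝ) ≤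
      8192 * (-(cr.al * 10 ^ 9) -
        2048000 * 10 ^ 9 * (wS sj c ^ 2 / (2 * ((cr.be - c * gj) / 2048000))) -
        2048000 * 10 ^ 9 * (wS sk c ^ 2 / (2 * ((cr.ga - c * gk) / 2048000))) +
        10 ^ 9 * c * (Gj + Gk)) +
      262144000 * √2 * 10 ^ 9 * (rj * wS sj c + rk * wS sk c) -
      4096 * (10 ^ 9 * (cr.be - c * gj) + 10 ^ 9 * (cr.ga - c * gk)) ∧
    10 ^ 9 * (cr.be - c * gj) + 2 * dotZ cr.A X ≤
      ((ncOf C X M Y sj sk rj rk gj gk Gj Gk cr).U : ℝ) ∧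
    ((ncOf C X M Y sj sk rj rk gj gk Gj Gk cr).Q : ℝ) = 2 * dotZ cr.B M ∧
    10 ^ 9 * (cr.ga - c * gk) + 2 * dotZ cr.C Y ≤
      ((ncOf C X M Y sj sk rj rk gj gk Gj Gk cr).V : ℝ) := by
  obtain ⟨u1, u2⟩ := uLo_bounds (be := cr.be) hc hgj
  obtain ⟨v1, v2⟩ := uLo_bounds (be := cr.ga) hc hgk
  have hu' : (0 : ℝ) < (uLo cr.be C gj : ℤ) := by exact_mod_cast hu
  have hv' : (0 : ℝ) < (uLo cr.ga C gk : ℤ) := by exact_mod_cast hv
  obtain ⟨wj1, wj2, wj3⟩ := w_bounds sj hc hC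
  obtain ⟨wk1, wk2, wk3⟩ := w_bounds sk hc hC
  have yj := yUp_le wj1 hu u1
  have yk := yUp_le wk1 hv v1
  refine ⟨by linarith, by linarith, ?_, ?_, ?_, ?_⟩
  · have hrj' : (0 : ℝ) ≤ rj := by exact_mod_cast hrj
    have hrk' : (0 : ℝ) ≤ rk := by exact_mod_cast hrk
    have sj1 : (370727599 : ℝ) * (wLo sj C : ℤ) ≤ 262144000 * √2 * (10 ^ 9 * wS sj c) := by
      refine mul_le_mul sqrt_two_lo wj2 wj3 (by positivity)
    have sk1 : (370727599 : ℝ) * (wLo sk C : ℤ) ≤ 262144000 * √2 * (10 ^ 9 * wS sk c) := by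
      refine mul_le_mul sqrt_two_lo wk2 wk3 (by positivity)
    have sj2 := mul_le_mul_of_nonneg_left sj1 hrj'
    have sk2 := mul_le_mul_of_nonneg_left sk1 hrk'
    have cG : ∀ G : ℤ, (C : ℝ) * G - 75400 * (az G : ℤ) ≤ 10 ^ 9 * c * G := by
      intro G
      rw [az_eq]
      have h1 : |(10 ^ 9 * c - C) * G| ≤ 75400 * |(G : ℝ)| := by
        rw [abs_mul]
        exact mul_le_mul_of_nonneg_right hc (abs_nonneg _)
      have h2 := (abs_le.1 h1).1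
      linarith
    have cGj := cG Gj
    have cGk := cG Gk
    simp only [ncOf]
    push_cast
    push_cast at yj yk cGj cGk
    nlinarith
  · simp only [ncOf]
    push_cast
    linarith
  · simp only [ncOf]
    push_cast
    ring
  · simp only [ncOf]
    push_cast
    linarith

/-- the value of the mixture at a node -/
theorem node_real {s t j0 j1 k0 k1 W D q2 c wj wk : ℝ} (s0 : 0 ≤ s) (s1 : s ≤ 1) (t0 : 0 ≤ t)
    (t1 : t ≤ 1) {g0 g1 h0 h1 G0 G1 H0 H1 : ℝ}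
    {al00 al10 al01 al11 be00 be10 be01 be11 ga00 ga10 ga01 ga11 : ℝ}
    {yj00 yj10 yj01 yj11 yk00 yk10 yk01 yk11 : ℝ}
    {P00 P10 P01 P11 Q00 Q10 Q01 Q11 V00 V10 V01 V11 : ℝ}
    {x00 x10 x01 x11 U00 U10 U01 U11 q00 q10 q01 q11 v00 v10 v01 v11 : ℝ}
    (hx00 : x00 ≤ 8192 * (-(al00 * W) - D * W * yj00 - D * W * yk00 + W * c * (G0 + H0)) +
      q2 * W * (j0 * wj + k0 * wk) - 4096 * (W * (be00 - c * g0) + W * (ga00 - c * h0)))
    (hx10 : x10 ≤ 8192 * (-(al10 * W) - D * W * yj10 - D * W * yk10 + W * c * (G1 + H0)) +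
      q2 * W * (j1 * wj + k0 * wk) - 4096 * (W * (be10 - c * g1) + W * (ga10 - c * h0)))
    (hx01 : x01 ≤ 8192 * (-(al01 * W) - D * W * yj01 - D * W * yk01 + W * c * (G0 + H1)) +
      q2 * W * (j0 * wj + k1 * wk) - 4096 * (W * (be01 - c * g0) + W * (ga01 - c * h1)))
    (hx11 : x11 ≤ 8192 * (-(al11 * W) - D * W * yj11 - D * W * yk11 + W * c * (G1 + H1)) +
      q2 * W * (j1 * wj + k1 * wk) - 4096 * (W * (be11 - c * g1) + W * (ga11 - c * h1)))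
    (hU00 : W * (be00 - c * g0) + 2 * P00 ≤ U00) (hU10 : W * (be10 - c * g1) + 2 * P10 ≤ U10)
    (hU01 : W * (be01 - c * g0) + 2 * P01 ≤ U01) (hU11 : W * (be11 - c * g1) + 2 * P11 ≤ U11)
    (hq00 : q00 = 2 * Q00) (hq10 : q10 = 2 * Q10) (hq01 : q01 = 2 * Q01) (hq11 : q11 = 2 * Q11)
    (hV00 : W * (ga00 - c * h0) + 2 * V00 ≤ v00) (hV10 : W * (ga10 - c * h0) + 2 * V10 ≤ v10)
    (hV01 : W * (ga01 - c * h1) + 2 * V01 ≤ v01) (hV11 : W * (ga11 - c * h1) + 2 * V11 ≤ v11)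
    (hb : 0 ≤ mix s t x00 x10 x01 x11 -
      ((1 - s) * j0 + s * j1) ^ 2 * mix s t U00 U10 U01 U11 -
      ((1 - s) * j0 + s * j1) * ((1 - t) * k0 + t * k1) * mix s t q00 q10 q01 q11 -
      ((1 - t) * k0 + t * k1) ^ 2 * mix s t v00 v10 v01 v11) :
    0 ≤ 8192 * (-(mix s t al00 al10 al01 al11 * W) - D * W * mix s t yj00 yj10 yj01 yj11 -
        D * W * mix s t yk00 yk10 yk01 yk11 +
        W * c * (((1 - s) * G0 + s * G1) + ((1 - t) * H0 + t * H1))) +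
      q2 * W * (((1 - s) * j0 + s * j1) * wj + ((1 - t) * k0 + t * k1) * wk) -
      4096 * (W * (mix s t be00 be10 be01 be11 - c * ((1 - s) * g0 + s * g1)) +
        W * (mix s t ga00 ga10 ga01 ga11 - c * ((1 - t) * h0 + t * h1))) -
      ((1 - s) * j0 + s * j1) ^ 2 *
        (W * (mix s t be00 be10 be01 be11 - c * ((1 - s) * g0 + s * g1)) +
          2 * mix s t P00 P10 P01 P11) -
      ((1 - s) * j0 + s * j1) * ((1 - t) * k0 + t * k1) * (2 * mix s t Q00 Q10 Q01 Q11) -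
      ((1 - t) * k0 + t * k1) ^ 2 *
        (W * (mix s t ga00 ga10 ga01 ga11 - c * ((1 - t) * h0 + t * h1)) +
          2 * mix s t V00 V10 V01 V11) := by
  have mx := mix_mono s0 s1 t0 t1 hx00 hx10 hx01 hx11
  have mU := mix_mono s0 s1 t0 t1 hU00 hU10 hU01 hU11
  have mV := mix_mono s0 s1 t0 t1 hV00 hV10 hV01 hV11
  have ex : mix s t (8192 * (-(al00 * W) - D * W * yj00 - D * W * yk00 + W * c * (G0 + H0)) +
      q2 * W * (j0 * wj + k0 * wk) - 4096 * (W * (be00 - c * g0) + W * (ga00 - c * h0)))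
      (8192 * (-(al10 * W) - D * W * yj10 - D * W * yk10 + W * c * (G1 + H0)) +
      q2 * W * (j1 * wj + k0 * wk) - 4096 * (W * (be10 - c * g1) + W * (ga10 - c * h0)))
      (8192 * (-(al01 * W) - D * W * yj01 - D * W * yk01 + W * c * (G0 + H1)) +
      q2 * W * (j0 * wj + k1 * wk) - 4096 * (W * (be01 - c * g0) + W * (ga01 - c * h1)))
      (8192 * (-(al11 * W) - D * W * yj11 - D * W * yk11 + W * c * (G1 + H1)) +
      q2 * W * (j1 * wj + k1 * wk) - 4096 * (W * (be11 - c * g1) + W * (ga11 - c * h1))) =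
      8192 * (-(mix s t al00 al10 al01 al11 * W) - D * W * mix s t yj00 yj10 yj01 yj11 -
        D * W * mix s t yk00 yk10 yk01 yk11 +
        W * c * (((1 - s) * G0 + s * G1) + ((1 - t) * H0 + t * H1))) +
      q2 * W * (((1 - s) * j0 + s * j1) * wj + ((1 - t) * k0 + t * k1) * wk) -
      4096 * (W * (mix s t be00 be10 be01 be11 - c * ((1 - s) * g0 + s * g1)) +
        W * (mix s t ga00 ga10 ga01 ga11 - c * ((1 - t) * h0 + t * h1))) := by
    unfold mix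
    ring
  have eU : mix s t (W * (be00 - c * g0) + 2 * P00) (W * (be10 - c * g1) + 2 * P10)
      (W * (be01 - c * g0) + 2 * P01) (W * (be11 - c * g1) + 2 * P11) =
      W * (mix s t be00 be10 be01 be11 - c * ((1 - s) * g0 + s * g1)) +
          2 * mix s t P00 P10 P01 P11 := by
    unfold mix
    ring
  have eV : mix s t (W * (ga00 - c * h0) + 2 * V00) (W * (ga10 - c * h0) + 2 * V10)
      (W * (ga01 - c * h1) + 2 * V01) (W * (ga11 - c * h1) + 2 * V11) =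
      W * (mix s t ga00 ga10 ga01 ga11 - c * ((1 - t) * h0 + t * h1)) +
          2 * mix s t V00 V10 V01 V11 := by
    unfold mix
    ring
  have eq : mix s t q00 q10 q01 q11 = 2 * mix s t Q00 Q10 Q01 Q11 := by
    rw [hq00, hq10, hq01, hq11]
    unfold mix
    ring
  rw [ex] at mx
  rw [eU] at mU
  rw [eV] at mV
  rw [eq] at hb
  have m1 := mul_le_mul_of_nonneg_left mU (sq_nonneg ((1 - s) * j0 + s * j1))
  have m2 := mul_le_mul_of_nonneg_left mV (sq_nonneg ((1 - t) * k0 + t * k1))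
  linarith

/-- the convexity of the bound of the distance -/
theorem y_mix {s t z w0 w1 : ℝ} (s0 : 0 ≤ s) (s1 : s ≤ 1) (t0 : 0 ≤ t) (t1 : t ≤ 1) (z0 : 0 ≤ z)
    (z1 : z ≤ 1) {a00 a10 a01 a11 b00 b10 b01 b11 : ℝ} (ha00 : 0 < a00) (ha10 : 0 < a10)
    (ha01 : 0 < a01) (ha11 : 0 < a11) (hb00 : 0 < b00) (hb10 : 0 < b10) (hb01 : 0 < b01)
    (hb11 : 0 < b11) :
    0 < (1 - z) * mix s t a00 a10 a01 a11 + z * mix s t b00 b10 b01 b11 ∧
    ((1 - z) * w0 + z * w1) ^ 2 /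
      (2 * ((1 - z) * mix s t a00 a10 a01 a11 + z * mix s t b00 b10 b01 b11)) ≤
    (1 - z) * mix s t (w0 ^ 2 / (2 * a00)) (w0 ^ 2 / (2 * a10)) (w0 ^ 2 / (2 * a01))
        (w0 ^ 2 / (2 * a11)) +
      z * mix s t (w1 ^ 2 / (2 * b00)) (w1 ^ 2 / (2 * b10)) (w1 ^ 2 / (2 * b01))
        (w1 ^ 2 / (2 * b11)) := by
  have pos : ∀ {r x y : ℝ}, 0 ≤ r → r ≤ 1 → 0 < x → 0 < y → 0 < (1 - r) * x + r * y := by
    intro r x y r0 r1 hx hy
    have hr : 0 ≤ 1 - r := sub_nonneg.2 r1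
    rcases r0.eq_or_lt with h | h
    · rw [← h]
      simpa using hx
    · have := mul_pos h hy
      have := mul_nonneg hr hx.le
      linarith
  have key : ∀ {w x00 x10 x01 x11 : ℝ}, 0 < x00 → 0 < x10 → 0 < x01 → 0 < x11 →
      0 < mix s t x00 x10 x01 x11 ∧ w ^ 2 / mix s t x00 x10 x01 x11 ≤
        mix s t (w ^ 2 / x00) (w ^ 2 / x10) (w ^ 2 / x01) (w ^ 2 / x11) := by
    intro w x00 x10 x01 x11 h1 h2 h3 h4
    have p1 := pos s0 s1 h1 h2
    have p2 := pos s0 s1 h3 h4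
    refine ⟨pos t0 t1 p1 p2, ?_⟩
    have q1 := sq_div_mix (w0 := w) (w1 := w) s0 s1 h1 h2
    have q2 := sq_div_mix (w0 := w) (w1 := w) s0 s1 h3 h4
    have q3 := sq_div_mix (w0 := w) (w1 := w) t0 t1 p1 p2
    have e1 : (1 - s) * w + s * w = w := by ring
    have e2 : (1 - t) * w + t * w = w := by ring
    rw [e1] at q1 q2
    rw [e2] at q3
    unfold mix
    refine q3.trans ?_
    have ht : 0 ≤ 1 - t := sub_nonneg.2 t1
    gcongr
  obtain ⟨pa, qa⟩ := key (w := w0) ha00 ha10 ha01 ha11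
  obtain ⟨pb, qb⟩ := key (w := w1) hb00 hb10 hb01 hb11
  refine ⟨pos z0 z1 pa pb, ?_⟩
  have q := sq_div_mix (w0 := w0) (w1 := w1) z0 z1 pa pb
  have hz : 0 ≤ 1 - z := sub_nonneg.2 z1
  have h2 : ∀ x y : ℝ, x / (2 * y) = x / y / 2 := fun x y => by rw [mul_comm, div_mul_eq_div_div]
  rw [h2]
  have e1 : mix s t (w0 ^ 2 / (2 * a00)) (w0 ^ 2 / (2 * a10)) (w0 ^ 2 / (2 * a01))
      (w0 ^ 2 / (2 * a11)) = mix s t (w0 ^ 2 / a00) (w0 ^ 2 / a10) (w0 ^ 2 / a01)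
        (w0 ^ 2 / a11) / 2 := by
    simp only [h2]
    unfold mix
    ring
  have e2 : mix s t (w1 ^ 2 / (2 * b00)) (w1 ^ 2 / (2 * b10)) (w1 ^ 2 / (2 * b01))
      (w1 ^ 2 / (2 * b11)) = mix s t (w1 ^ 2 / b00) (w1 ^ 2 / b10) (w1 ^ 2 / b01)
        (w1 ^ 2 / b11) / 2 := by
    simp only [h2]
    unfold mix
    ring
  rw [e1, e2]
  have m1 := mul_le_mul_of_nonneg_left qa hz
  have m2 := mul_le_mul_of_nonneg_left qb z0
  linarith

end Pool.Agent.RRS
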