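import Pool.Agent.RRS.Chk6

/-!
# Cells: soundness
-/

set_option autoImplicit false

namespace Pool.Agent.RRS

open Real

/-- the value at a node -/
noncomputable def nodeVal (s t c : ℝ) (p q : Piece) (j0 j1 k0 k1 : ℕ)
    (gX gM gY : List (ℕ × ℕ)) (c00 c10 c01 c11 : Cor) : ℝ :=
  8192 * (-(mix s t c00.al c10.al c01.al c11.al * 10 ^ 9) -
      2048000 * 10 ^ 9 * mix s t (wS p.smp c ^ 2 / (2 * ((c00.be - c * p.g1Z j0) / 2048000)))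
        (wS p.smp c ^ 2 / (2 * ((c10.be - c * p.g1Z j1) / 2048000)))
        (wS p.smp c ^ 2 / (2 * ((c01.be - c * p.g1Z j0) / 2048000)))
        (wS p.smp c ^ 2 / (2 * ((c11.be - c * p.g1Z j1) / 2048000))) -
      2048000 * 10 ^ 9 * mix s t (wS q.smp c ^ 2 / (2 * ((c00.ga - c * q.g1Z k0) / 2048000)))
        (wS q.smp c ^ 2 / (2 * ((c10.ga - c * q.g1Z k0) / 2048000)))
        (wS q.smp c ^ 2 / (2 * ((c01.ga - c * q.g1Z k1) / 2048000)))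
        (wS q.smp c ^ 2 / (2 * ((c11.ga - c * q.g1Z k1) / 2048000))) +
      10 ^ 9 * c * (((1 - s) * p.GZ j0 + s * p.GZ j1) + ((1 - t) * q.GZ k0 + t * q.GZ k1))) +
    262144000 * √2 * 10 ^ 9 * (((1 - s) * j0 + s * j1) * wS p.smp c +
      ((1 - t) * k0 + t * k1) * wS q.smp c) -
    4096 * (10 ^ 9 * (mix s t c00.be c10.be c01.be c11.be -
        c * ((1 - s) * p.g1Z j0 + s * p.g1Z j1)) +
      10 ^ 9 * (mix s t c00.ga c10.ga c01.ga c11.ga - c * ((1 - t) * q.g1Z k0 + t * q.g1Z k1))) -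
    ((1 - s) * j0 + s * j1) ^ 2 *
      (10 ^ 9 * (mix s t c00.be c10.be c01.be c11.be -
          c * ((1 - s) * p.g1Z j0 + s * p.g1Z j1)) +
        2 * mix s t (dotZ c00.A gX) (dotZ c10.A gX) (dotZ c01.A gX) (dotZ c11.A gX)) -
    ((1 - s) * j0 + s * j1) * ((1 - t) * k0 + t * k1) *
      (2 * mix s t (dotZ c00.B gM) (dotZ c10.B gM) (dotZ c01.B gM) (dotZ c11.B gM)) -
    ((1 - t) * k0 + t * k1) ^ 2 *
      (10 ^ 9 * (mix s t c00.ga c10.ga c01.ga c11.ga -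
          c * ((1 - t) * q.g1Z k0 + t * q.g1Z k1)) +
        2 * mix s t (dotZ c00.C gY) (dotZ c10.C gY) (dotZ c01.C gY) (dotZ c11.C gY))

/-- the multipliers `u` are positive -/
structure PosU (c : ℝ) (p q : Piece) (j0 j1 k0 k1 : ℕ) (c00 c10 c01 c11 : Cor) : Prop where
  u00 : 0 < (c00.be - c * p.g1Z j0) / 2048000
  u10 : 0 < (c10.be - c * p.g1Z j1) / 2048000
  u01 : 0 < (c01.be - c * p.g1Z j0) / 2048000
  u11 : 0 < (c11.be - c * p.g1Z j1) / 2048000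
  v00 : 0 < (c00.ga - c * q.g1Z k0) / 2048000
  v10 : 0 < (c10.ga - c * q.g1Z k0) / 2048000
  v01 : 0 < (c01.ga - c * q.g1Z k1) / 2048000
  v11 : 0 < (c11.ga - c * q.g1Z k1) / 2048000

theorem node_sound {row : Row} {p q : Piece} {j0 j1 k0 k1 : ℕ} {gs : List ℕ}
    {c00 c10 c01 c11 : Cor} (h : nodeOK row p q j0 j1 k0 k1 gs c00 c10 c01 c11 = true) {c : ℝ}
    (hc : |10 ^ 9 * c - row.c| ≤ 75400) (hg0 : 0 ≤ p.g1Z j0) (hg1 : 0 ≤ p.g1Z j1)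
    (hh0 : 0 ≤ q.g1Z k0) (hh1 : 0 ≤ q.g1Z k1) {s t : ℝ} (s0 : 0 ≤ s) (s1 : s ≤ 1) (t0 : 0 ≤ t)
    (t1 : t ≤ 1) :
    PosU c p q j0 j1 k0 k1 c00 c10 c01 c11 ∧
      0 ≤ nodeVal s t c p q j0 j1 k0 k1 (gsum gs row.X) (gsum gs row.M) (gsum gs row.Y)
        c00 c10 c01 c11 := by
  unfold nodeOK at h
  simp only [Bool.and_eq_true, decide_eq_true_eq] at h
  obtain ⟨⟨⟨⟨⟨⟨⟨⟨⟨hC, u00⟩, u10⟩, u01⟩, u11⟩, v00⟩, v10⟩, v01⟩, v11⟩, hb⟩ := h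
  have i0 : (0 : ℤ) ≤ Int.ofNat j0 := Int.natCast_nonneg j0
  have i1 : (0 : ℤ) ≤ Int.ofNat j1 := Int.natCast_nonneg j1
  have i2 : (0 : ℤ) ≤ Int.ofNat k0 := Int.natCast_nonneg k0
  have i3 : (0 : ℤ) ≤ Int.ofNat k1 := Int.natCast_nonneg k1
  obtain ⟨a1, a2, a3, a4, a5, a6⟩ := nc_bounds (X := gsum gs row.X) (M := gsum gs row.M)
    (Y := gsum gs row.Y) (sj := p.smp) (sk := q.smp) (Gj := p.GZ j0) (Gk := q.GZ k0) hc hC hg0 hh0
    u00 v00 i0 i2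
  obtain ⟨b1, b2, b3, b4, b5, b6⟩ := nc_bounds (X := gsum gs row.X) (M := gsum gs row.M)
    (Y := gsum gs row.Y) (sj := p.smp) (sk := q.smp) (Gj := p.GZ j1) (Gk := q.GZ k0) hc hC hg1 hh0
    u10 v10 i1 i2
  obtain ⟨d1, d2, d3, d4, d5, d6⟩ := nc_bounds (X := gsum gs row.X) (M := gsum gs row.M)
    (Y := gsum gs row.Y) (sj := p.smp) (sk := q.smp) (Gj := p.GZ j0) (Gk := q.GZ k1) hc hC hg0 hh1
    u01 v01 i0 i3
  obtain ⟨e1, e2, e3, e4, e5, e6⟩ := nc_bounds (X := gsum gs row.X) (M := gsum gs row.M)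
    (Y := gsum gs row.Y) (sj := p.smp) (sk := q.smp) (Gj := p.GZ j1) (Gk := q.GZ k1) hc hC hg1 hh1
    u11 v11 i1 i3
  refine ⟨⟨a1, b1, d1, e1, a2, b2, d2, e2⟩, ?_⟩
  have key := b2D_sound hb s0 s1 t0 t1
  have := node_real s0 s1 t0 t1 a3 b3 d3 e3 a4 b4 d4 e4 a5 b5 d5 e5 a6 b6 d6 e6 key
  simp only [Int.ofNat_eq_natCast, Int.cast_natCast] at this
  exact this

theorem wR_mix (b : Bool) (z c0 c1 : ℝ) :
    wS b ((1 - z) * c0 + z * c1) = (1 - z) * wS b c0 + z * wS b c1 := by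
  unfold wS
  split_ifs <;> ring

/-- the sums over the fine sectors -/
theorem sum_mix {s t z W w : ℝ} {n : ℕ} (s0 : 0 ≤ s) (s1 : s ≤ 1) (t0 : 0 ≤ t) (t1 : t ≤ 1)
    {a00 a10 a01 a11 : ℕ → ℤ} {f : ℕ → ℝ} {p00 p10 p01 p11 q00 q10 q01 q11 : ℝ}
    (h00 : ∑ i ∈ Finset.range n, (a00 i : ℝ) * f i ≤ (1 - z) * p00 + z * q00)
    (h10 : ∑ i ∈ Finset.range n, (a10 i : ℝ) * f i ≤ (1 - z) * p10 + z * q10)
    (h01 : ∑ i ∈ Finset.range n, (a01 i : ℝ) * f i ≤ (1 - z) * p01 + z * q01)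
    (h11 : ∑ i ∈ Finset.range n, (a11 i : ℝ) * f i ≤ (1 - z) * p11 + z * q11) (_ : W = w) :
    ∑ i ∈ Finset.range n, mix s t (a00 i) (a10 i) (a01 i) (a11 i) * f i ≤
      (1 - z) * mix s t p00 p10 p01 p11 + z * mix s t q00 q10 q01 q11 := by
  have e : ∑ i ∈ Finset.range n, mix s t (a00 i) (a10 i) (a01 i) (a11 i) * f i =
      mix s t (∑ i ∈ Finset.range n, (a00 i : ℝ) * f i) (∑ i ∈ Finset.range n, (a10 i : ℝ) * f i)
        (∑ i ∈ Finset.range n, (a01 i : ℝ) * f i) (∑ i ∈ Finset.range n, (a11 i : ℝ) * f i) := by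
    unfold mix
    simp only [Finset.mul_sum, ← Finset.sum_add_distrib]
    refine Finset.sum_congr rfl fun i _ => ?_
    ring
  rw [e]
  refine (mix_mono s0 s1 t0 t1 h00 h10 h01 h11).trans (le_of_eq ?_)
  unfold mix
  ring

/-- the scalar inequality from two nodes -/
theorem scalar_real {s t z c c0 c1 : ℝ} {p q : Piece} {j0 j1 k0 k1 : ℕ}
    {X0 M0 Y0 X1 M1 Y1 : List (ℕ × ℕ)} {c00 c10 c01 c11 : Cor} (s0 : 0 ≤ s) (s1 : s ≤ 1)
    (t0 : 0 ≤ t) (t1 : t ≤ 1) (z0 : 0 ≤ z) (z1 : z ≤ 1) (hc : c = (1 - z) * c0 + z * c1)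
    (hp0 : PosU c0 p q j0 j1 k0 k1 c00 c10 c01 c11)
    (hp1 : PosU c1 p q j0 j1 k0 k1 c00 c10 c01 c11)
    (h0 : 0 ≤ nodeVal s t c0 p q j0 j1 k0 k1 X0 M0 Y0 c00 c10 c01 c11)
    (h1 : 0 ≤ nodeVal s t c1 p q j0 j1 k0 k1 X1 M1 Y1 c00 c10 c01 c11)
    {al be ga u v SX SM SY Rj Rk : ℝ}
    (hRj : Rj = ((1 - s) * j0 + s * j1) / 64) (hRk : Rk = ((1 - t) * k0 + t * k1) / 64)
    (hal : 2048000 * al = mix s t c00.al c10.al c01.al c11.al)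
    (hbe : 2048000 * be = mix s t c00.be c10.be c01.be c11.be)
    (hga : 2048000 * ga = mix s t c00.ga c10.ga c01.ga c11.ga)
    (hu : u = be - c * p.g1 Rj) (hv : v = ga - c * q.g1 Rk)
    (hSX : 2048000 * 10 ^ 9 * SX ≤
      (1 - z) * mix s t (dotZ c00.A X0) (dotZ c10.A X0) (dotZ c01.A X0) (dotZ c11.A X0) +
      z * mix s t (dotZ c00.A X1) (dotZ c10.A X1) (dotZ c01.A X1) (dotZ c11.A X1))
    (hSM : 2048000 * 10 ^ 9 * SM ≤
      (1 - z) * mix s t (dotZ c00.B M0) (dotZ c10.B M0) (dotZ c01.B M0) (dotZ c11.B M0) +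
      z * mix s t (dotZ c00.B M1) (dotZ c10.B M1) (dotZ c01.B M1) (dotZ c11.B M1))
    (hSY : 2048000 * 10 ^ 9 * SY ≤
      (1 - z) * mix s t (dotZ c00.C Y0) (dotZ c10.C Y0) (dotZ c01.C Y0) (dotZ c11.C Y0) +
      z * mix s t (dotZ c00.C Y1) (dotZ c10.C Y1) (dotZ c01.C Y1) (dotZ c11.C Y1)) :
    0 < u ∧ 0 < v ∧
    wS p.smp c ^ 2 / (2 * u) + u * (1 + Rj ^ 2) / 2 + (wS q.smp c ^ 2 / (2 * v) +
      v * (1 + Rk ^ 2) / 2) + al + (SX * Rj ^ 2 + SM * (Rj * Rk) + SY * Rk ^ 2) ≤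
      √2 * Rj * wS p.smp c + √2 * Rk * wS q.smp c + c * (p.G Rj + q.G Rk) := by
  have hz : 0 ≤ 1 - z := sub_nonneg.2 z1
  have g1 := p.g1_mix j0 j1 s
  have g2 := q.g1_mix k0 k1 t
  have G1 := p.G_mix j0 j1 s
  have G2 := q.G_mix k0 k1 t
  rw [← hRj] at g1 G1
  rw [← hRk] at g2 G2
  -- the bounds of the distances
  obtain ⟨pu, yu⟩ := y_mix (w0 := wS p.smp c0) (w1 := wS p.smp c1) s0 s1 t0 t1 z0 z1 hp0.u00
    hp0.u10 hp0.u01 hp0.u11 hp1.u00 hp1.u10 hp1.u01 hp1.u11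
  obtain ⟨pv, yv⟩ := y_mix (w0 := wS q.smp c0) (w1 := wS q.smp c1) s0 s1 t0 t1 z0 z1 hp0.v00
    hp0.v10 hp0.v01 hp0.v11 hp1.v00 hp1.v10 hp1.v01 hp1.v11
  have eu : (1 - z) * mix s t ((c00.be - c0 * p.g1Z j0) / 2048000)
      ((c10.be - c0 * p.g1Z j1) / 2048000) ((c01.be - c0 * p.g1Z j0) / 2048000)
      ((c11.be - c0 * p.g1Z j1) / 2048000) +
      z * mix s t ((c00.be - c1 * p.g1Z j0) / 2048000)
      ((c10.be - c1 * p.g1Z j1) / 2048000) ((c01.be - c1 * p.g1Z j0) / 2048000)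
      ((c11.be - c1 * p.g1Z j1) / 2048000) = u := by
    have : (2048000 : ℝ) ≠ 0 := by norm_num
    rw [hu, hc]
    unfold mix at hbe ⊢
    linear_combination (-1 / 2048000) * hbe + (((1 - z) * c0 + z * c1) / 2048000) * g1
  have ev : (1 - z) * mix s t ((c00.ga - c0 * q.g1Z k0) / 2048000)
      ((c10.ga - c0 * q.g1Z k0) / 2048000) ((c01.ga - c0 * q.g1Z k1) / 2048000)
      ((c11.ga - c0 * q.g1Z k1) / 2048000) +
      z * mix s t ((c00.ga - c1 * q.g1Z k0) / 2048000)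
      ((c10.ga - c1 * q.g1Z k0) / 2048000) ((c01.ga - c1 * q.g1Z k1) / 2048000)
      ((c11.ga - c1 * q.g1Z k1) / 2048000) = v := by
    rw [hv, hc]
    unfold mix at hga ⊢
    linear_combination (-1 / 2048000) * hga + (((1 - z) * c0 + z * c1) / 2048000) * g2
  rw [eu] at pu yu
  rw [ev] at pv yv
  rw [← wR_mix, ← hc] at yu yv
  refine ⟨pu, pv, ?_⟩
  have n0 := mul_nonneg hz h0
  have n1 := mul_nonneg z0 h1
  obtain ⟨rj, hrj⟩ : ∃ r : ℝ, r = (1 - s) * j0 + s * j1 := ⟨_, rfl⟩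
  obtain ⟨rk, hrk⟩ : ∃ r : ℝ, r = (1 - t) * k0 + t * k1 := ⟨_, rfl⟩
  have hrj0 : 0 ≤ rj := by
    rw [hrj]
    have := mul_nonneg (sub_nonneg.2 s1) (Nat.cast_nonneg (α := ℝ) j0)
    have := mul_nonneg s0 (Nat.cast_nonneg (α := ℝ) j1)
    linarith
  have hrk0 : 0 ≤ rk := by
    rw [hrk]
    have := mul_nonneg (sub_nonneg.2 t1) (Nat.cast_nonneg (α := ℝ) k0)
    have := mul_nonneg t0 (Nat.cast_nonneg (α := ℝ) k1)
    linarith
  have hRj' : Rj = rj / 64 := by rw [hRj, hrj]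
  have hRk' : Rk = rk / 64 := by rw [hRk, hrk]
  unfold nodeVal at n0 n1
  rw [← hrj, ← hrk] at n0 n1
  rw [← hbe, ← hga, ← hal, ← g1, ← g2, ← G1, ← G2] at n0 n1
  generalize hA0 : mix s t (dotZ c00.A X0) (dotZ c10.A X0) (dotZ c01.A X0) (dotZ c11.A X0) = A0 at *
  generalize hA1 : mix s t (dotZ c00.A X1) (dotZ c10.A X1) (dotZ c01.A X1) (dotZ c11.A X1) = A1 at *
  generalize hB0 : mix s t (dotZ c00.B M0) (dotZ c10.B M0) (dotZ c01.B M0) (dotZ c11.B M0) = B0 at *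
  generalize hB1 : mix s t (dotZ c00.B M1) (dotZ c10.B M1) (dotZ c01.B M1) (dotZ c11.B M1) = B1 at *
  generalize hC0 : mix s t (dotZ c00.C Y0) (dotZ c10.C Y0) (dotZ c01.C Y0) (dotZ c11.C Y0) = C0 at *
  generalize hC1 : mix s t (dotZ c00.C Y1) (dotZ c10.C Y1) (dotZ c01.C Y1) (dotZ c11.C Y1) = C1 at *
  generalize hyu0 : mix s t (wS p.smp c0 ^ 2 / (2 * ((c00.be - c0 * p.g1Z j0) / 2048000)))
    (wS p.smp c0 ^ 2 / (2 * ((c10.be - c0 * p.g1Z j1) / 2048000)))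
    (wS p.smp c0 ^ 2 / (2 * ((c01.be - c0 * p.g1Z j0) / 2048000)))
    (wS p.smp c0 ^ 2 / (2 * ((c11.be - c0 * p.g1Z j1) / 2048000))) = yu0 at *
  generalize hyu1 : mix s t (wS p.smp c1 ^ 2 / (2 * ((c00.be - c1 * p.g1Z j0) / 2048000)))
    (wS p.smp c1 ^ 2 / (2 * ((c10.be - c1 * p.g1Z j1) / 2048000)))
    (wS p.smp c1 ^ 2 / (2 * ((c01.be - c1 * p.g1Z j0) / 2048000)))
    (wS p.smp c1 ^ 2 / (2 * ((c11.be - c1 * p.g1Z j1) / 2048000))) = yu1 at *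
  generalize hyv0 : mix s t (wS q.smp c0 ^ 2 / (2 * ((c00.ga - c0 * q.g1Z k0) / 2048000)))
    (wS q.smp c0 ^ 2 / (2 * ((c10.ga - c0 * q.g1Z k0) / 2048000)))
    (wS q.smp c0 ^ 2 / (2 * ((c01.ga - c0 * q.g1Z k1) / 2048000)))
    (wS q.smp c0 ^ 2 / (2 * ((c11.ga - c0 * q.g1Z k1) / 2048000))) = yv0 at *
  generalize hyv1 : mix s t (wS q.smp c1 ^ 2 / (2 * ((c00.ga - c1 * q.g1Z k0) / 2048000)))
    (wS q.smp c1 ^ 2 / (2 * ((c10.ga - c1 * q.g1Z k0) / 2048000)))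
    (wS q.smp c1 ^ 2 / (2 * ((c01.ga - c1 * q.g1Z k1) / 2048000)))
    (wS q.smp c1 ^ 2 / (2 * ((c11.ga - c1 * q.g1Z k1) / 2048000))) = yv1 at *
  have m1 := mul_le_mul_of_nonneg_left hSX (sq_nonneg rj)
  have m2 := mul_le_mul_of_nonneg_left hSM (mul_nonneg hrj0 hrk0)
  have m3 := mul_le_mul_of_nonneg_left hSY (sq_nonneg rk)
  have ew1 := wR_mix p.smp z c0 c1
  have ew2 := wR_mix q.smp z c0 c1
  rw [← hc] at ew1 ew2
  -- the total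
  have tot : 8192 * 2048000 * 10 ^ 9 * (√2 * Rj * wS p.smp c + √2 * Rk * wS q.smp c +
      c * (p.G Rj + q.G Rk) - (wS p.smp c ^ 2 / (2 * u) + u * (1 + Rj ^ 2) / 2 +
      (wS q.smp c ^ 2 / (2 * v) + v * (1 + Rk ^ 2) / 2) + al +
      (SX * Rj ^ 2 + SM * (Rj * Rk) + SY * Rk ^ 2))) ≥ 0 := by
    have r1 : Rj ^ 2 * 4096 = rj ^ 2 := by rw [hRj']; ring
    have r2 : Rk ^ 2 * 4096 = rk ^ 2 := by rw [hRk']; ring
    have r3 : Rj * Rk * 4096 = rj * rk := by rw [hRj', hRk']; ring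
    have e : 8192 * 2048000 * 10 ^ 9 * (√2 * Rj * wS p.smp c + √2 * Rk * wS q.smp c +
      c * (p.G Rj + q.G Rk) - (wS p.smp c ^ 2 / (2 * u) + u * (1 + Rj ^ 2) / 2 +
      (wS q.smp c ^ 2 / (2 * v) + v * (1 + Rk ^ 2) / 2) + al +
      (SX * Rj ^ 2 + SM * (Rj * Rk) + SY * Rk ^ 2))) =
      8192 * (-(2048000 * al * 10 ^ 9) - 2048000 * 10 ^ 9 * (wS p.smp c ^ 2 / (2 * u)) -
        2048000 * 10 ^ 9 * (wS q.smp c ^ 2 / (2 * v)) +
        10 ^ 9 * c * (2048000 * p.G Rj + 2048000 * q.G Rk)) +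
      262144000 * √2 * 10 ^ 9 * (rj * wS p.smp c + rk * wS q.smp c) -
      4096 * (10 ^ 9 * (2048000 * u) + 10 ^ 9 * (2048000 * v)) -
      rj ^ 2 * (10 ^ 9 * (2048000 * u)) - rk ^ 2 * (10 ^ 9 * (2048000 * v)) -
      2 * (rj ^ 2 * (2048000 * 10 ^ 9 * SX)) - 2 * (rj * rk * (2048000 * 10 ^ 9 * SM)) -
      2 * (rk ^ 2 * (2048000 * 10 ^ 9 * SY)) := by
      rw [← r1, ← r2, ← r3, show rj = Rj * 64 by rw [hRj']; ring,
        show rk = Rk * 64 by rw [hRk']; ring]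
      ring
    rw [e]
    have q1 : 2048000 * u = 2048000 * be - c * (2048000 * p.g1 Rj) := by
      rw [hu]
      ring
    have q2 : 2048000 * v = 2048000 * ga - c * (2048000 * q.g1 Rk) := by
      rw [hv]
      ring
    rw [q1, q2]
    clear e q1 q2 r1 r2 r3 hu hv hbe hga hal g1 g2 G1 G2 eu ev hp0 hp1 h0 h1 hRj hRk hRj' hRk'
    generalize wS p.smp c ^ 2 / (2 * u) = Yu at *
    generalize wS q.smp c ^ 2 / (2 * v) = Yv at *
    rw [ew1, ew2]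
    generalize wS p.smp c0 = a0 at *
    generalize wS p.smp c1 = a1 at *
    generalize wS q.smp c0 = b0 at *
    generalize wS q.smp c1 = b1 at *
    generalize p.g1 Rj = gj at *
    generalize q.g1 Rk = gk at *
    generalize p.G Rj = Gj at *
    generalize q.G Rk = Gk at *
    generalize √2 = sq at *
    subst hc
    have yu' := mul_le_mul_of_nonneg_left yu (by norm_num : (0 : ℝ) ≤ 8192 * 2048000 * 10 ^ 9)
    have yv' := mul_le_mul_of_nonneg_left yv (by norm_num : (0 : ℝ) ≤ 8192 * 2048000 * 10 ^ 9)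
    linarith
  have pos : (0 : ℝ) < 8192 * 2048000 * 10 ^ 9 := by norm_num
  have := nonneg_of_mul_nonneg_right tot pos
  linarith

end Pool.Agent.RRS
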