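import Pool.Agent.RRS.Chk7

/-!
# Cells: the main theorem
-/

set_option autoImplicit false

namespace Pool.Agent.RRS

open Real

theorem exists_node {θ : ℝ} : ∀ (n m : ℕ), thG m ≤ θ → θ ≤ thG (m + n + 1) →
    ∃ k, m ≤ k ∧ k < m + n + 1 ∧ thG k ≤ θ ∧ θ ≤ thG (k + 1) := by
  intro n
  induction n with
  | zero =>
    intro m h1 h2
    exact ⟨m, le_rfl, by omega, h1, h2⟩
  | succ n ih =>
    intro m h1 h2
    rcases le_total θ (thG (m + 1)) with h | h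
    · exact ⟨m, le_rfl, by omega, h1, h⟩
    · obtain ⟨k, k1, k2, k3, k4⟩ := ih (m + 1) h (by
        rw [show m + 1 + n + 1 = m + (n + 1) + 1 by ring]
        exact h2)
      exact ⟨k, by omega, by omega, k3, k4⟩

theorem nodesOK_sound {row : ℕ → Row} {p q : Piece} {j0 j1 k0 k1 : ℕ} {gs : List ℕ}
    {c00 c10 c01 c11 : Cor} : ∀ (n m : ℕ),
    nodesOK row p q j0 j1 k0 k1 gs c00 c10 c01 c11 n m = true → ∀ k, m ≤ k → k ≤ m + n →
    nodeOK (row k) p q j0 j1 k0 k1 gs c00 c10 c01 c11 = true := by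
  intro n
  induction n with
  | zero =>
    intro m h k h1 h2
    have : k = m := by omega
    rw [this]
    exact h
  | succ n ih =>
    intro m h k h1 h2
    rw [nodesOK, Bool.and_eq_true] at h
    rcases h1.eq_or_lt with e | e
    · rw [← e]
      exact h.1
    · exact ih (m + 1) h.2 k (by omega) (by omega)

theorem origin_ok {L K : LZ} {al be ga : ℤ} (h : 0 ≤ L.zp + K.zp + al) :
    CellsOK L.toLF K.toLF al be ga true true 0 0 0 := by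
  intro ix iy m hm i1 i2
  have h' : (0 : ℝ) ≤ L.zp + K.zp + al := by exact_mod_cast h
  by_cases h0 : m = 0
  · rw [h0]
    unfold Qc
    simp
  · have hm' : 0 < m := lt_of_le_of_ne hm (Ne.symm h0)
    cases ix
    · cases iy
      · unfold Qc
        simp only [LF.p, LF.q, LZ.toLF, ef, sg, Bool.and_false, Bool.false_eq_true, if_false]
        have := mul_nonneg h' (sq_nonneg m)
        linarith
      · simp only [inC, if_true] at i2
        linarith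
    · simp only [inC, if_true] at i1
      linarith

theorem qf_mix {D s t : ℝ} (A B C A00 A10 A01 A11 B00 B10 B01 B11 C00 C10 C01 C11 X Y : ℝ)
    (hA : D * A = mix s t A00 A10 A01 A11) (hB : D * B = mix s t B00 B10 B01 B11)
    (hC : D * C = mix s t C00 C10 C01 C11) :
    D * qf A B C X Y = mix s t (qf A00 B00 C00 X Y) (qf A10 B10 C10 X Y) (qf A01 B01 C01 X Y)
      (qf A11 B11 C11 X Y) := by
  unfold mix at hA hB hC ⊢
  unfold qf
  linear_combination X ^ 2 * hA + X * Y * hB + Y ^ 2 * hC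

/-- **a good cell gives the pair inequality** -/
theorem cell_sound {kr : ℕ → KRow} {row : ℕ → Row} {p q : Piece} {j0 j1 k0 k1 m0 m1 : ℕ}
    {gs : List ℕ} {c00 c10 c01 c11 : Cor}
    (h : cellOK kr row p q j0 j1 k0 k1 m0 m1 gs c00 c10 c01 c11 = true) (hK : KapOK kr m0 m1)
    (hrow : ∀ m, m0 ≤ m → m < m1 → RowOK row m) {F : ℝ → ℝ → ℝ → ℝ} {g0 g1 g2 : ℝ → ℝ}
    {Rj Rk θ : ℝ} (hRj : 0 < Rj) (hRk : 0 < Rk) (a1 : (j0 : ℝ) ≤ 64 * Rj) (a2 : 64 * Rj ≤ j1)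
    (a3 : (k0 : ℝ) ≤ 64 * Rk) (a4 : 64 * Rk ≤ k1) (h0 : 0 < θ) (hπ : θ < π)
    (t1 : thG m0 ≤ θ) (t2 : θ ≤ thG m1) (hFj : F Rj = (p.L Rj).F) (hFk : F Rk = (q.L Rk).F)
    (hg1j : g1 Rj = p.g1 Rj) (hg1k : g1 Rk = q.g1 Rk)
    (hg0j : g0 Rj = -√2 * Rj * p.g2 + p.G Rj) (hg0k : g0 Rk = -√2 * Rk * q.g2 + q.G Rk)
    (hg2j : g2 Rj = p.g2) (hg2k : g2 Rk = q.g2) :
    RPair F g0 g1 g2 Rj Rk θ (cos θ) := by
  unfold cellOK at h
  simp only [Bool.and_eq_true, decide_eq_true_eq, Nat.blt_eq, beq_iff_eq] at h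
  obtain ⟨⟨⟨⟨⟨⟨⟨⟨⟨⟨⟨⟨⟨⟨⟨⟨hj, hk⟩, hm⟩, hgs⟩, pa0⟩, pa1⟩, qa0⟩, qa1⟩, pg0⟩, pg1⟩, qg0⟩, qg1⟩,
    hn⟩, w00⟩, w10⟩, w01⟩, w11⟩ := h
  -- the parameters
  have hj' : (0 : ℝ) < j1 - j0 := sub_pos.2 (by exact_mod_cast hj)
  have hk' : (0 : ℝ) < k1 - k0 := sub_pos.2 (by exact_mod_cast hk)
  obtain ⟨s, hs⟩ : ∃ s : ℝ, s = (64 * Rj - j0) / (j1 - j0) := ⟨_, rfl⟩
  obtain ⟨t, ht⟩ : ∃ t : ℝ, t = (64 * Rk - k0) / (k1 - k0) := ⟨_, rfl⟩
  have s0 : 0 ≤ s := by rw [hs]; exact div_nonneg (by linarith) hj'.le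
  have s1 : s ≤ 1 := by rw [hs, div_le_one hj']; linarith
  have t0 : 0 ≤ t := by rw [ht]; exact div_nonneg (by linarith) hk'.le
  have t1' : t ≤ 1 := by rw [ht, div_le_one hk']; linarith
  have eRj : Rj = ((1 - s) * j0 + s * j1) / 64 := by
    have : s * (j1 - j0) = 64 * Rj - j0 := by rw [hs, div_mul_cancel₀ _ hj'.ne']
    linarith
  have eRk : Rk = ((1 - t) * k0 + t * k1) / 64 := by
    have : t * (k1 - k0) = 64 * Rk - k0 := by rw [ht, div_mul_cancel₀ _ hk'.ne']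
    linarith
  -- the node
  obtain ⟨m, n1, n2, n3, n4⟩ := exists_node (θ := θ) (m1 - m0 - 1) m0 t1 (by
    rw [show m0 + (m1 - m0 - 1) + 1 = m1 by omega]
    exact t2)
  have hm1 : m < m1 := by omega
  obtain ⟨lX, lM, lY, lX1, lM1, lY1, hwt⟩ := hrow m n1 hm1
  obtain ⟨z, z0, z1, hcz, bX, bM, bY⟩ := hwt θ n3 n4
  have nm := nodesOK_sound (m1 - m0) m0 hn m n1 (by omega)
  have nm1 := nodesOK_sound (m1 - m0) m0 hn (m + 1) (by omega) (by omega)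
  obtain ⟨e, he⟩ : ∃ e : ℝ, e = cos θ - ((1 - z) * (row m).c + z * (row (m + 1)).c) / 10 ^ 9 :=
    ⟨_, rfl⟩
  have he' : |10 ^ 9 * e| ≤ 75400 := by
    have : 10 ^ 9 * e = 10 ^ 9 * cos θ - ((1 - z) * (row m).c + z * (row (m + 1)).c) := by
      rw [he]
      ring
    rw [this]
    exact hcz
  have hc0 : |10 ^ 9 * (((row m).c : ℝ) / 10 ^ 9 + e) - (row m).c| ≤ 75400 := by
    have : 10 ^ 9 * (((row m).c : ℝ) / 10 ^ 9 + e) - (row m).c = 10 ^ 9 * e := by ring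
    rw [this]
    exact he'
  have hc1 : |10 ^ 9 * (((row (m + 1)).c : ℝ) / 10 ^ 9 + e) - (row (m + 1)).c| ≤ 75400 := by
    have : 10 ^ 9 * (((row (m + 1)).c : ℝ) / 10 ^ 9 + e) - (row (m + 1)).c = 10 ^ 9 * e := by ring
    rw [this]
    exact he'
  have hcc : cos θ = (1 - z) * (((row m).c : ℝ) / 10 ^ 9 + e) +
      z * (((row (m + 1)).c : ℝ) / 10 ^ 9 + e) := by
    rw [he]
    ring
  obtain ⟨P0, N0⟩ := node_sound nm hc0 pg0 pg1 qg0 qg1 s0 s1 t0 t1'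
  obtain ⟨P1, N1⟩ := node_sound nm1 hc1 pg0 pg1 qg0 qg1 s0 s1 t0 t1'
  -- the pointwise inequality
  unfold corOK at w00 w10 w01 w11
  simp only [Bool.and_eq_true, decide_eq_true_eq] at w00 w10 w01 w11
  have S00 := grOK_sound hK h0 hπ t1 t2 hRj.le hRk.le a1 a2 a3 a4 _ _ _ _ _ w00.1
  have S10 := grOK_sound hK h0 hπ t1 t2 hRj.le hRk.le a1 a2 a3 a4 _ _ _ _ _ w10.1
  have S01 := grOK_sound hK h0 hπ t1 t2 hRj.le hRk.le a1 a2 a3 a4 _ _ _ _ _ w01.1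
  have S11 := grOK_sound hK h0 hπ t1 t2 hRj.le hRk.le a1 a2 a3 a4 _ _ _ _ _ w11.1
  have mL := p.mix j0 j1 s
  have mK := q.mix k0 k1 t
  rw [← eRj] at mL
  rw [← eRk] at mK
  have D0 : (0 : ℝ) < 2048000 := by norm_num
  obtain ⟨al, hal⟩ : ∃ al : ℝ, 2048000 * al = mix s t c00.al c10.al c01.al c11.al :=
    ⟨mix s t c00.al c10.al c01.al c11.al / 2048000, by ring⟩
  obtain ⟨be, hbe⟩ : ∃ be : ℝ, 2048000 * be = mix s t c00.be c10.be c01.be c11.be :=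
    ⟨mix s t c00.be c10.be c01.be c11.be / 2048000, by ring⟩
  obtain ⟨ga, hga⟩ : ∃ ga : ℝ, 2048000 * ga = mix s t c00.ga c10.ga c01.ga c11.ga :=
    ⟨mix s t c00.ga c10.ga c01.ga c11.ga / 2048000, by ring⟩
  obtain ⟨A, hA⟩ : ∃ A : ℕ → ℝ, ∀ i, 2048000 * A i =
      mix s t (exL gs c00.A i) (exL gs c10.A i) (exL gs c01.A i) (exL gs c11.A i) :=
    ⟨fun i => mix s t (exL gs c00.A i) (exL gs c10.A i) (exL gs c01.A i) (exL gs c11.A i) /
      2048000, fun i => by ring⟩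
  obtain ⟨B, hB⟩ : ∃ A : ℕ → ℝ, ∀ i, 2048000 * A i =
      mix s t (exL gs c00.B i) (exL gs c10.B i) (exL gs c01.B i) (exL gs c11.B i) :=
    ⟨fun i => mix s t (exL gs c00.B i) (exL gs c10.B i) (exL gs c01.B i) (exL gs c11.B i) /
      2048000, fun i => by ring⟩
  obtain ⟨C, hC⟩ : ∃ A : ℕ → ℝ, ∀ i, 2048000 * A i =
      mix s t (exL gs c00.C i) (exL gs c10.C i) (exL gs c01.C i) (exL gs c11.C i) :=
    ⟨fun i => mix s t (exL gs c00.C i) (exL gs c10.C i) (exL gs c01.C i) (exL gs c11.C i) /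
      2048000, fun i => by ring⟩
  -- the scalar inequality
  have len : ∀ l : List (ℕ × ℕ), l.length = 12 → gs.sum ≤ l.length := fun l hl => by
    rw [hl, hgs]
  have dX : ∀ L : List ℤ, ∑ i ∈ Finset.range 12, (exL gs L i : ℝ) * (10 ^ 9 * wX θ i) ≤
      (1 - z) * (dotZ L (gsum gs (row m).X) : ℝ) + z * (dotZ L (gsum gs (row (m + 1)).X) : ℝ) := by
    intro L
    have := dotZ_le z0 z1 gs L (row m).X (row (m + 1)).X (fun i => 10 ^ 9 * wX θ i) (len _ lX)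
      (len _ lX1) (fun i hi => bX i (by rw [hgs] at hi; exact hi))
    rw [hgs] at this
    exact this
  have dM : ∀ L : List ℤ, ∑ i ∈ Finset.range 12, (exL gs L i : ℝ) * (10 ^ 9 * wM θ i) ≤
      (1 - z) * (dotZ L (gsum gs (row m).M) : ℝ) + z * (dotZ L (gsum gs (row (m + 1)).M) : ℝ) := by
    intro L
    have := dotZ_le z0 z1 gs L (row m).M (row (m + 1)).M (fun i => 10 ^ 9 * wM θ i) (len _ lM)
      (len _ lM1) (fun i hi => bM i (by rw [hgs] at hi; exact hi))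
    rw [hgs] at this
    exact this
  have dY : ∀ L : List ℤ, ∑ i ∈ Finset.range 12, (exL gs L i : ℝ) * (10 ^ 9 * wY θ i) ≤
      (1 - z) * (dotZ L (gsum gs (row m).Y) : ℝ) + z * (dotZ L (gsum gs (row (m + 1)).Y) : ℝ) := by
    intro L
    have := dotZ_le z0 z1 gs L (row m).Y (row (m + 1)).Y (fun i => 10 ^ 9 * wY θ i) (len _ lY)
      (len _ lY1) (fun i hi => bY i (by rw [hgs] at hi; exact hi))
    rw [hgs] at this
    exact this
  have sX := sum_mix (W := 0) (w := 0) s0 s1 t0 t1' (dX c00.A) (dX c10.A) (dX c01.A) (dX c11.A) rfl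
  have sM := sum_mix (W := 0) (w := 0) s0 s1 t0 t1' (dM c00.B) (dM c10.B) (dM c01.B) (dM c11.B) rfl
  have sY := sum_mix (W := 0) (w := 0) s0 s1 t0 t1' (dY c00.C) (dY c10.C) (dY c01.C) (dY c11.C) rfl
  have eX : 2048000 * 10 ^ 9 * ∑ i ∈ Finset.range 12, A i * wX θ i =
      ∑ i ∈ Finset.range 12, mix s t (exL gs c00.A i) (exL gs c10.A i) (exL gs c01.A i)
        (exL gs c11.A i) * (10 ^ 9 * wX θ i) := by
    rw [Finset.mul_sum]
    refine Finset.sum_congr rfl fun i _ => ?_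
    rw [← hA]
    ring
  have eM : 2048000 * 10 ^ 9 * ∑ i ∈ Finset.range 12, B i * wM θ i =
      ∑ i ∈ Finset.range 12, mix s t (exL gs c00.B i) (exL gs c10.B i) (exL gs c01.B i)
        (exL gs c11.B i) * (10 ^ 9 * wM θ i) := by
    rw [Finset.mul_sum]
    refine Finset.sum_congr rfl fun i _ => ?_
    rw [← hB]
    ring
  have eY : 2048000 * 10 ^ 9 * ∑ i ∈ Finset.range 12, C i * wY θ i =
      ∑ i ∈ Finset.range 12, mix s t (exL gs c00.C i) (exL gs c10.C i) (exL gs c01.C i)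
        (exL gs c11.C i) * (10 ^ 9 * wY θ i) := by
    rw [Finset.mul_sum]
    refine Finset.sum_congr rfl fun i _ => ?_
    rw [← hC]
    ring
  rw [← eX] at sX
  rw [← eM] at sM
  rw [← eY] at sY
  obtain ⟨u, hu⟩ : ∃ u : ℝ, u = be - cos θ * p.g1 Rj := ⟨_, rfl⟩
  obtain ⟨v, hv⟩ : ∃ v : ℝ, v = ga - cos θ * q.g1 Rk := ⟨_, rfl⟩
  obtain ⟨u0, v0, hle⟩ := scalar_real s0 s1 t0 t1' z0 z1 hcc P0 P1 N0 N1 eRj eRk hal hbe hga hu hv
    sX sM sY
  have ebe : u + cos θ * g1 Rj = be := by rw [hu, hg1j]; ring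
  have ega : v + cos θ * g1 Rk = ga := by rw [hv, hg1k]; ring
  have La1 : 0 ≤ (p.L Rj).a1 := by
    have h1 : (0 : ℝ) ≤ (affZ p.a1 j0 : ℤ) := by exact_mod_cast pa0
    have h2 : (0 : ℝ) ≤ (affZ p.a1 j1 : ℤ) := by exact_mod_cast pa1
    have h3 : 2048000 * (p.L Rj).a1 = (1 - s) * (affZ p.a1 j0 : ℤ) + s * (affZ p.a1 j1 : ℤ) :=
      mL.a1
    have h4 := mul_nonneg (sub_nonneg.2 s1) h1
    have h5 := mul_nonneg s0 h2
    linarith
  have Ka1 : 0 ≤ (q.L Rk).a1 := by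
    have h1 : (0 : ℝ) ≤ (affZ q.a1 k0 : ℤ) := by exact_mod_cast qa0
    have h2 : (0 : ℝ) ≤ (affZ q.a1 k1 : ℤ) := by exact_mod_cast qa1
    have h3 : 2048000 * (q.L Rk).a1 = (1 - t) * (affZ q.a1 k0 : ℤ) + t * (affZ q.a1 k1 : ℤ) :=
      mK.a1
    have h4 := mul_nonneg (sub_nonneg.2 t1') h1
    have h5 := mul_nonneg t0 h2
    linarith
  refine RPair_fine hRj hRk h0 hπ hFj hFk La1 Ka1 A B C (α := al) u0 v0 ?_ ?_ ?_ ?_
  · intro i hi τ b1 b2 σ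
    rw [ebe, ega]
    exact cells_mix D0 s0 s1 t0 t1' mL mK hal hbe hga
      (qf_mix _ _ _ _ _ _ _ _ _ _ _ _ _ _ _ _ _ (hA i) (hB i) (hC i))
      ((S00 i (Nat.zero_le i) (by omega) τ b1 b2 σ).1 hi)
      ((S10 i (Nat.zero_le i) (by omega) τ b1 b2 σ).1 hi)
      ((S01 i (Nat.zero_le i) (by omega) τ b1 b2 σ).1 hi)
      ((S11 i (Nat.zero_le i) (by omega) τ b1 b2 σ).1 hi)
  · intro i hi hi2 τ b1 b2 σ
    rw [ebe, ega]
    exact cells_mix D0 s0 s1 t0 t1' mL mK hal hbe hga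
      (qf_mix _ _ _ _ _ _ _ _ _ _ _ _ _ _ _ _ _ (hA i) (hB i) (hC i))
      ((S00 i (Nat.zero_le i) (by omega) τ b1 b2 σ).2 hi)
      ((S10 i (Nat.zero_le i) (by omega) τ b1 b2 σ).2 hi)
      ((S01 i (Nat.zero_le i) (by omega) τ b1 b2 σ).2 hi)
      ((S11 i (Nat.zero_le i) (by omega) τ b1 b2 σ).2 hi)
  · rw [ebe, ega]
    refine cells_mix D0 s0 s1 t0 t1' mL mK hal hbe hga ?_ (origin_ok w00.2) (origin_ok w10.2)
      (origin_ok w01.2) (origin_ok w11.2)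
    unfold mix
    ring
  · have ew1 : 1 - g2 Rj * cos θ = wS p.smp (cos θ) := by
      rw [hg2j]
      unfold Piece.g2 wS
      split_ifs <;> ring
    have ew2 : 1 - g2 Rk * cos θ = wS q.smp (cos θ) := by
      rw [hg2k]
      unfold Piece.g2 wS
      split_ifs <;> ring
    have esum : ∑ i ∈ Finset.range 12, (A i * Rj ^ 2 * wX θ i + B i * (Rj * Rk) * wM θ i +
        C i * Rk ^ 2 * wY θ i) = (∑ i ∈ Finset.range 12, A i * wX θ i) * Rj ^ 2 +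
        (∑ i ∈ Finset.range 12, B i * wM θ i) * (Rj * Rk) +
        (∑ i ∈ Finset.range 12, C i * wY θ i) * Rk ^ 2 := by
      rw [Finset.sum_mul, Finset.sum_mul, Finset.sum_mul, ← Finset.sum_add_distrib,
        ← Finset.sum_add_distrib]
      refine Finset.sum_congr rfl fun i _ => ?_
      ring
    rw [esum, ew1, ew2, hg0j, hg0k]
    refine hle.trans (le_of_eq ?_)
    rw [← ew1, ← ew2, hg2j, hg2k]
    ring

end Pool.Agent.RRS
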