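import Pool.Agent.RRS.Cells

/-!
# The frozen functions (table Z3)

`Lz R` (`R ≥ 0`): the values of the multiplier `F_R (x, m) = m l (x, m)`; piecewise linear in `R` on
`[0, 1]`, `[1, 3/2]`, `[3/2, 2]`, `[2, 3]`, and `F = m ^ 2` for `R ≥ 3`.  The values at the knots
(`a0 = l (1, 0)`, `a1 = l (1, 1)`, `z = l (0+, 1) = l (0-, 1)`, `b0 = l (-1, 0)`, `b1 = l (-1, 1)`):

* `R = 0`: `0, 1.03, 1.03, 2.06, 3.09`
* `R = 1`: `-0.5, 1.04, 0.37, 1.41, 1.78`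
* `R = 3/2`: `-0.5, 1.24, 0.40, 1.035, 0.83`
* `R = 2`: `-0.48, 1.035, 0.50, 0.48, 0.53`
* `R = 3-`: `-0.13, 1.06, 0.33, 0.47, 0.86`
* `R ≥ 3`: `0, 1, 1, 0, 1` (constant)

The multiplier of the optimality of the location is `g = t - √2 R + b0 (p - 1) + a1` for `R < 3` and
`0` for `R ≥ 3`.
-/

set_option autoImplicit false

noncomputable section

namespace Pool.Agent.RRS

open Real

/-- five values -/
def mkL (c a z k e : ℝ) : LF := ⟨c, a, z, k, e, z⟩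

/-- the first piece -/
def Lp1 (R : ℝ) : LF :=
  mkL (-(1 / 2) * R) (103 / 100 + 1 / 100 * R) (103 / 100 - 66 / 100 * R)
    (206 / 100 - 65 / 100 * R) (309 / 100 - 131 / 100 * R)

/-- the second piece -/
def Lp2 (R : ℝ) : LF :=
  mkL (-(1 / 2)) (104 / 100 + 40 / 100 * (R - 1)) (37 / 100 + 6 / 100 * (R - 1))
    (141 / 100 - 75 / 100 * (R - 1)) (178 / 100 - 190 / 100 * (R - 1))

/-- the third piece -/
def Lp3 (R : ℝ) : LF :=
  mkL (-(1 / 2) + 4 / 100 * (R - 3 / 2)) (124 / 100 - 41 / 100 * (R - 3 / 2))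
    (40 / 100 + 20 / 100 * (R - 3 / 2)) (1035 / 1000 - 111 / 100 * (R - 3 / 2))
    (83 / 100 - 60 / 100 * (R - 3 / 2))

/-- the fourth piece -/
def Lp4 (R : ℝ) : LF :=
  mkL (-(48 / 100) + 35 / 100 * (R - 2)) (1035 / 1000 + 25 / 1000 * (R - 2))
    (50 / 100 - 17 / 100 * (R - 2)) (48 / 100 - 1 / 100 * (R - 2)) (53 / 100 + 33 / 100 * (R - 2))

/-- the simple type -/
def Ls : LF := mkL 0 1 1 0 1

/-- **the frozen functions** -/
def Lz (R : ℝ) : LF :=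
  if R ≤ 1 then Lp1 R else if R ≤ 3 / 2 then Lp2 R else if R ≤ 2 then Lp3 R
  else if R < 3 then Lp4 R else Ls

/-- the multiplier function -/
def Fz (R : ℝ) : ℝ → ℝ → ℝ := (Lz R).F

def g0z (R : ℝ) : ℝ := if R < 3 then -√2 * R + (Lz R).a1 - (Lz R).b0 else 0
def g1z (R : ℝ) : ℝ := if R < 3 then (Lz R).b0 else 0
def g2z (R : ℝ) : ℝ := if R < 3 then 1 else 0

theorem g0z_lt {R : ℝ} (h : R < 3) : g0z R = -√2 * R + (Lz R).a1 - (Lz R).b0 := if_pos h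
theorem g1z_lt {R : ℝ} (h : R < 3) : g1z R = (Lz R).b0 := if_pos h
theorem g2z_lt {R : ℝ} (h : R < 3) : g2z R = 1 := if_pos h
theorem g0z_ge {R : ℝ} (h : 3 ≤ R) : g0z R = 0 := if_neg (not_lt.2 h)
theorem g1z_ge {R : ℝ} (h : 3 ≤ R) : g1z R = 0 := if_neg (not_lt.2 h)
theorem g2z_ge {R : ℝ} (h : 3 ≤ R) : g2z R = 0 := if_neg (not_lt.2 h)

theorem Lz_one {R : ℝ} (h : R ≤ 1) : Lz R = Lp1 R := if_pos h

theorem Lz_two {R : ℝ} (h1 : 1 ≤ R) (h2 : R ≤ 3 / 2) : Lz R = Lp2 R := by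
  unfold Lz
  split_ifs with h
  · have : R = 1 := le_antisymm h h1
    subst this
    simp only [Lp1, Lp2, mkL, LF.mk.injEq]
    norm_num
  · rfl

theorem Lz_three {R : ℝ} (h1 : 3 / 2 ≤ R) (h2 : R ≤ 2) : Lz R = Lp3 R := by
  unfold Lz
  rw [if_neg (by linarith)]
  split_ifs with h
  · have : R = 3 / 2 := le_antisymm h h1
    subst this
    simp only [Lp2, Lp3, mkL, LF.mk.injEq]
    norm_num
  · rfl

theorem Lz_four {R : ℝ} (h1 : 2 ≤ R) (h2 : R < 3) : Lz R = Lp4 R := by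
  unfold Lz
  rw [if_neg (by linarith), if_neg (by linarith)]
  split_ifs with h
  · have : R = 2 := le_antisymm h h1
    subst this
    simp only [Lp3, Lp4, mkL, LF.mk.injEq]
    norm_num
  · rfl

theorem Lz_five {R : ℝ} (h1 : 3 ≤ R) : Lz R = Ls := by
  unfold Lz
  rw [if_neg (by linarith), if_neg (by linarith), if_neg (by linarith), if_neg (by linarith)]

theorem Lz_zm (R : ℝ) : (Lz R).zm = (Lz R).zp := by
  unfold Lz
  split_ifs <;> rfl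

/-- on `[0, 1]` -/
theorem Lz_rel1 {R : ℝ} (h : R ≤ 1) :
    (Lz R).b0 = (Lz R).a1 + (Lz R).zp ∧ (Lz R).b1 = (Lz R).a1 + 2 * (Lz R).zp := by
  rw [Lz_one h]
  simp only [Lp1, mkL]
  constructor <;> ring

/-- on `[1, 3/2]` -/
theorem Lz_rel2 {R : ℝ} (h1 : 1 ≤ R) (h2 : R ≤ 3 / 2) :
    (Lz R).b1 = 2 * (Lz R).b0 - (Lz R).a1 := by
  rw [Lz_two h1 h2]
  simp only [Lp2, mkL]
  ring

/-- `b1 = 2 b0 - a1` on `[0, 3/2]` -/
theorem Lz_b1 {R : ℝ} (h : R ≤ 3 / 2) : (Lz R).b1 = 2 * (Lz R).b0 - (Lz R).a1 := by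
  rcases le_total R 1 with h1 | h1
  · obtain ⟨e1, e2⟩ := Lz_rel1 h1
    rw [e1, e2]
    ring
  · exact Lz_rel2 h1 h

/-- case distinction -/
theorem Lz_cases {P : ℝ → LF → Prop} (h1 : ∀ R, 0 ≤ R → R ≤ 1 → P R (Lp1 R))
    (h2 : ∀ R, 1 ≤ R → R ≤ 3 / 2 → P R (Lp2 R)) (h3 : ∀ R, 3 / 2 ≤ R → R ≤ 2 → P R (Lp3 R))
    (h4 : ∀ R, 2 ≤ R → R < 3 → P R (Lp4 R)) {R : ℝ} (hR : 0 ≤ R) (hR3 : R < 3) : P R (Lz R) := by
  rcases le_total R 1 with a | a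
  · rw [Lz_one a]
    exact h1 R hR a
  · rcases le_total R (3 / 2) with b | b
    · rw [Lz_two a b]
      exact h2 R a b
    · rcases le_total R 2 with c | c
      · rw [Lz_three b c]
        exact h3 R b c
      · rw [Lz_four c hR3]
        exact h4 R c hR3

/-- bounds of the values, for `0 ≤ R < 3` -/
structure Bz (L : LF) : Prop where
  a1_lo : 103 / 100 ≤ L.a1
  a1_hi : L.a1 ≤ 124 / 100
  z_lo : 33 / 100 ≤ L.zp
  z_hi : L.zp ≤ 103 / 100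
  b0_lo : 47 / 100 ≤ L.b0
  b0_hi : L.b0 ≤ 206 / 100
  a0_lo : -(1 / 2) ≤ L.a0
  a0_hi : L.a0 ≤ 0
  /-- `c0 + k ≥ 0` -/
  a0b0 : 0 ≤ L.a0 + L.b0
  /-- `ν = z + A - k ≥ 0` -/
  nu : 0 ≤ L.zp + L.a1 - L.b0
  /-- `A + e - 2 k ≥ 0` -/
  c1 : 0 ≤ L.a1 + L.b1 - 2 * L.b0
  zm : L.zm = L.zp
  b1_lo : 53 / 100 ≤ L.b1
  b1_hi : L.b1 ≤ 309 / 100
  out : 1 / 2 ≤ L.b1 - L.zp + L.b0

theorem Lz_bounds {R : ℝ} (hR : 0 ≤ R) (hR3 : R < 3) : Bz (Lz R) := by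
  refine Lz_cases (P := fun _ L => Bz L) ?_ ?_ ?_ ?_ hR hR3
  · intro R h0 h1
    constructor <;> simp only [Lp1, mkL] <;> linarith
  · intro R h0 h1
    constructor <;> simp only [Lp2, mkL] <;> linarith
  · intro R h0 h1
    constructor <;> simp only [Lp3, mkL] <;> linarith
  · intro R h0 h1
    constructor <;> simp only [Lp4, mkL] <;> linarith

end Pool.Agent.RRS
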