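import Pool.Agent.RRS.Chk8
import Pool.Agent.RRS.Funcs

/-!
# Trees of cells
-/

set_option autoImplicit false

namespace Pool.Agent.RRS

open Real

/-- a tree of cells: splits of the first radius, of the second radius, of the angle; an empty box
(below the diagonal); a box inside the tube; a cell with packed data -/
inductive T : Type
  | J (x : ℕ) (l r : T)
  | K (x : ℕ) (l r : T)
  | M (m : ℕ) (l r : T)
  | E
  | W
  | L (gs N : ℕ)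

/-- the digit number `k` of `N` (base `2 ^ 27`, with the offset `2 ^ 26`) -/
def dg (N k : ℕ) : ℤ :=
  Int.subNatNat (Nat.mod (Nat.shiftRight N (Nat.mul 27 k)) 134217728) 67108864

/-- `n` digits from the digit number `k` on -/
def dgs (N : ℕ) : ℕ → ℕ → List ℤ
  | 0, _ => []
  | n + 1, k => dg N k :: dgs N n (Nat.add k 1)

/-- the data of a corner: from the digit number `k` on -/
def getCor (N n k : ℕ) : Cor :=
  ⟨dg N k, dg N (Nat.add k 1), dg N (Nat.add k 2), dgs N n (Nat.add k 3),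
    dgs N n (Nat.add k (Nat.add 3 n)), dgs N n (Nat.add k (Nat.add 3 (Nat.add n n)))⟩

/-- hexadecimal digits, until the first zero -/
def nibs : ℕ → ℕ → List ℕ
  | 0, _ => []
  | k + 1, g => bif Nat.beq g 0 then [] else Nat.mod g 16 :: nibs k (Nat.div g 16)

/-- the box lies in the tube -/
def tubeOK (j0 j1 k0 k1 m0 : ℕ) : Bool :=
  Nat.ble k1 96 && Nat.ble 6144 (j0 * j0 + k0 * k0) &&
  Nat.ble (10 * (j1 * j1 + k1 * k1)) 94208 &&
  (Nat.ble 114 m0 && (Nat.ble j1 60 || Nat.ble k1 64) || Nat.ble 116 m0 && Nat.ble j1 64 ||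
    Nat.ble 120 m0)

/-- the check of a packed cell -/
def leafOK (kr : ℕ → KRow) (row : ℕ → Row) (p q : Piece) (j0 j1 k0 k1 m0 m1 gs N : ℕ) : Bool :=
  let g := nibs 12 gs
  let n := g.length
  let d := Nat.add 3 (Nat.add n (Nat.add n n))
  Nat.ble 14 m0 && Nat.ble m1 128 &&
    cellOK kr row p q j0 j1 k0 k1 m0 m1 g (getCor N n 0) (getCor N n d) (getCor N n (Nat.mul 2 d))
      (getCor N n (Nat.mul 3 d))

/-- the check of a tree -/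
def checkT (kr : ℕ → KRow) (row : ℕ → Row) (p q : Piece) :
    T → ℕ → ℕ → ℕ → ℕ → ℕ → ℕ → Bool
  | .J x l r, j0, j1, k0, k1, m0, m1 =>
    checkT kr row p q l j0 x k0 k1 m0 m1 && checkT kr row p q r x j1 k0 k1 m0 m1
  | .K x l r, j0, j1, k0, k1, m0, m1 =>
    checkT kr row p q l j0 j1 k0 x m0 m1 && checkT kr row p q r j0 j1 x k1 m0 m1
  | .M m l r, j0, j1, k0, k1, m0, m1 =>
    checkT kr row p q l j0 j1 k0 k1 m0 m && checkT kr row p q r j0 j1 k0 k1 m m1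
  | .E, j0, _, _, k1, _, _ => Nat.ble k1 j0
  | .W, j0, j1, k0, k1, m0, _ => tubeOK j0 j1 k0 k1 m0
  | .L gs N, j0, j1, k0, k1, m0, m1 => leafOK kr row p q j0 j1 k0 k1 m0 m1 gs N

/-- the tube around the antipodal curve -/
def InTube (Rj Rk θ : ℝ) : Prop :=
  Rj ≤ Rk ∧ Rk ≤ 3 / 2 ∧ 3 / 2 ≤ Rj ^ 2 + Rk ^ 2 ∧ Rj ^ 2 + Rk ^ 2 ≤ 23 / 10 ∧
    (114 * π / 128 ≤ θ ∧ (Rj ≤ 15 / 16 ∨ Rk ≤ 1) ∨ 116 * π / 128 ≤ θ ∧ Rj ≤ 1 ∨
      120 * π / 128 ≤ θ)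

theorem tubeOK_sound {j0 j1 k0 k1 m0 : ℕ} (h : tubeOK j0 j1 k0 k1 m0 = true) {Rj Rk θ : ℝ}
    (hj : 0 < Rj) (hjk : Rj ≤ Rk) (a0 : (j0 : ℝ) ≤ 64 * Rj) (a1 : 64 * Rj ≤ j1)
    (b0 : (k0 : ℝ) ≤ 64 * Rk) (b1 : 64 * Rk ≤ k1) (t0 : thG m0 ≤ θ) : InTube Rj Rk θ := by
  unfold tubeOK at h
  simp only [Bool.and_eq_true, Bool.or_eq_true, Nat.ble_eq] at h
  obtain ⟨⟨⟨h1, h2⟩, h3⟩, h4⟩ := h
  have h1' : (k1 : ℝ) ≤ 96 := by exact_mod_cast h1
  have h2' : (6144 : ℝ) ≤ j0 * j0 + k0 * k0 := by exact_mod_cast h2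
  have h3' : (10 : ℝ) * (j1 * j1 + k1 * k1) ≤ 94208 := by exact_mod_cast h3
  have J0 : (0 : ℝ) ≤ j0 := Nat.cast_nonneg _
  have K0 : (0 : ℝ) ≤ k0 := Nat.cast_nonneg _
  have e1 := mul_self_le_mul_self J0 a0
  have e2 := mul_self_le_mul_self K0 b0
  have e3 := mul_self_le_mul_self (by linarith : (0 : ℝ) ≤ 64 * Rj) a1
  have e4 := mul_self_le_mul_self (by linarith : (0 : ℝ) ≤ 64 * Rk) b1
  have hm : ∀ c : ℕ, c ≤ m0 → (c : ℝ) * π / 128 ≤ θ := by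
    intro c hc
    refine le_trans ?_ t0
    unfold thG
    have : (c : ℝ) ≤ m0 := by exact_mod_cast hc
    have := mul_le_mul_of_nonneg_right this pi_pos.le
    linarith
  refine ⟨hjk, by linarith, by nlinarith, by nlinarith, ?_⟩
  rcases h4 with (⟨h4, h5⟩ | ⟨h4, h5⟩) | h4
  · refine Or.inl ⟨by simpa using hm 114 h4, ?_⟩
    rcases h5 with h5 | h5
    · have : (j1 : ℝ) ≤ 60 := by exact_mod_cast h5
      exact Or.inl (by linarith)
    · have : (k1 : ℝ) ≤ 64 := by exact_mod_cast h5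
      exact Or.inr (by linarith)
  · have : (j1 : ℝ) ≤ 64 := by exact_mod_cast h5
    exact Or.inr (Or.inl ⟨by simpa using hm 116 h4, by linarith⟩)
  · exact Or.inr (Or.inr (by simpa using hm 120 h4))

/-- **a good tree** -/
theorem checkT_sound {kr : ℕ → KRow} {row : ℕ → Row} {p q : Piece}
    (hk : ∀ m0 m1, 14 ≤ m0 → m0 ≤ m1 → m1 ≤ 128 → KapOK kr m0 m1)
    (hr : ∀ m, 14 ≤ m → m < 128 → RowOK row m)
    {F : ℝ → ℝ → ℝ → ℝ} {g0 g1 g2 : ℝ → ℝ} {Rj Rk θ : ℝ}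
    (hj : 0 < Rj) (hjk : Rj ≤ Rk) (t0 : 0 < θ) (t1 : θ < π)
    (hFj : F Rj = (p.L Rj).F) (hFk : F Rk = (q.L Rk).F)
    (hg1j : g1 Rj = p.g1 Rj) (hg1k : g1 Rk = q.g1 Rk)
    (hg0j : g0 Rj = -√2 * Rj * p.g2 + p.G Rj) (hg0k : g0 Rk = -√2 * Rk * q.g2 + q.G Rk)
    (hg2j : g2 Rj = p.g2) (hg2k : g2 Rk = q.g2) (t : T) :
    ∀ j0 j1 k0 k1 m0 m1 : ℕ, checkT kr row p q t j0 j1 k0 k1 m0 m1 = true →
      (j0 : ℝ) < 64 * Rj → 64 * Rj ≤ j1 → (k0 : ℝ) < 64 * Rk → 64 * Rk ≤ k1 → thG m0 ≤ θ →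
      θ ≤ thG m1 → InTube Rj Rk θ ∨ RPair F g0 g1 g2 Rj Rk θ (cos θ) := by
  induction t with
  | J x l r ihl ihr =>
    intro j0 j1 k0 k1 m0 m1 h a0 a1 b0 b1 c0 c1
    simp only [checkT, Bool.and_eq_true] at h
    rcases le_or_gt (64 * Rj) x with hx | hx
    · exact ihl _ _ _ _ _ _ h.1 a0 hx b0 b1 c0 c1
    · exact ihr _ _ _ _ _ _ h.2 hx a1 b0 b1 c0 c1
  | K x l r ihl ihr =>
    intro j0 j1 k0 k1 m0 m1 h a0 a1 b0 b1 c0 c1
    simp only [checkT, Bool.and_eq_true] at h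
    rcases le_or_gt (64 * Rk) x with hx | hx
    · exact ihl _ _ _ _ _ _ h.1 a0 a1 b0 hx c0 c1
    · exact ihr _ _ _ _ _ _ h.2 a0 a1 hx b1 c0 c1
  | M m l r ihl ihr =>
    intro j0 j1 k0 k1 m0 m1 h a0 a1 b0 b1 c0 c1
    simp only [checkT, Bool.and_eq_true] at h
    rcases le_total θ (thG m) with hx | hx
    · exact ihl _ _ _ _ _ _ h.1 a0 a1 b0 b1 c0 hx
    · exact ihr _ _ _ _ _ _ h.2 a0 a1 b0 b1 hx c1
  | E =>
    intro j0 j1 k0 k1 m0 m1 h a0 a1 b0 b1 c0 c1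
    simp only [checkT, Nat.ble_eq] at h
    have : (k1 : ℝ) ≤ j0 := by exact_mod_cast h
    exact absurd a0 (by linarith)
  | W =>
    intro j0 j1 k0 k1 m0 m1 h a0 a1 b0 b1 c0 c1
    simp only [checkT] at h
    exact Or.inl (tubeOK_sound h hj hjk a0.le a1 b0.le b1 c0)
  | L gs N =>
    intro j0 j1 k0 k1 m0 m1 h a0 a1 b0 b1 c0 c1
    simp only [checkT, leafOK, Bool.and_eq_true, Nat.ble_eq] at h
    obtain ⟨⟨h1, h2⟩, h3⟩ := h
    have hlt : m0 < m1 := by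
      unfold cellOK at h3
      simp only [Bool.and_eq_true, Nat.blt_eq] at h3
      tauto
    exact Or.inr (cell_sound h3 (hk m0 m1 h1 hlt.le h2)
      (fun m hm hm' => hr m (h1.trans hm) (hm'.trans_le h2)) hj (hj.trans_le hjk) a0.le a1 b0.le b1
      t0 t1 c0 c1 hFj hFk hg1j hg1k hg0j hg0k hg2j hg2k)

/-! ## The pieces -/

def P1 : Piece := ⟨(0, -500), (1030, 10), (1030, -660), (2060, -650), (3090, -1310), false⟩
def P2 : Piece := ⟨(-500, 0), (640, 400), (310, 60), (2160, -750), (3680, -1900), false⟩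
def P3 : Piece := ⟨(-560, 40), (1855, -410), (100, 200), (2700, -1110), (1730, -600), false⟩
def P4 : Piece := ⟨(-1180, 350), (985, 25), (840, -170), (500, -10), (-130, 330), false⟩

/-- the functions on the piece between `lo / 64` and `hi / 64` -/
structure PieceAt (p : Piece) (lo hi : ℕ) : Prop where
  at' : ∀ R : ℝ, (lo : ℝ) < 64 * R → 64 * R ≤ hi → R < 3 → Fz R = (p.L R).F ∧ g1z R = p.g1 R ∧
    g0z R = -√2 * R * p.g2 + p.G R ∧ g2z R = p.g2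

theorem pieceAt_of {p : Piece} {lo hi : ℕ} (hs : p.smp = false)
    (h : ∀ R : ℝ, (lo : ℝ) < 64 * R → 64 * R ≤ hi → R < 3 → Lz R = p.L R) : PieceAt p lo hi := by
  constructor
  intro R h1 h2 h3
  have e := h R h1 h2 h3
  refine ⟨?_, ?_, ?_, ?_⟩
  · unfold Fz
    rw [e]
  · rw [g1z_lt h3, e]
    unfold Piece.g1
    rw [hs]
    rfl
  · rw [g0z_lt h3, e]
    unfold Piece.g2 Piece.G
    rw [hs]
    simp only [Piece.L, Bool.false_eq_true, if_false]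
    ring
  · rw [g2z_lt h3]
    unfold Piece.g2
    rw [hs]
    rfl

theorem pieceAt1 : PieceAt P1 0 64 := by
  refine pieceAt_of rfl fun R h1 h2 _ => ?_
  push_cast at h1 h2
  rw [Lz_one (by linarith)]
  simp only [Lp1, mkL, Piece.L, P1, affR, LF.mk.injEq]
  refine ⟨?_, ?_, ?_, ?_, ?_, ?_⟩ <;> push_cast <;> ring

theorem pieceAt2 : PieceAt P2 64 96 := by
  refine pieceAt_of rfl fun R h1 h2 _ => ?_
  push_cast at h1 h2
  rw [Lz_two (by linarith) (by linarith)]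
  simp only [Lp2, mkL, Piece.L, P2, affR, LF.mk.injEq]
  refine ⟨?_, ?_, ?_, ?_, ?_, ?_⟩ <;> push_cast <;> ring

theorem pieceAt3 : PieceAt P3 96 128 := by
  refine pieceAt_of rfl fun R h1 h2 _ => ?_
  push_cast at h1 h2
  rw [Lz_three (by linarith) (by linarith)]
  simp only [Lp3, mkL, Piece.L, P3, affR, LF.mk.injEq]
  refine ⟨?_, ?_, ?_, ?_, ?_, ?_⟩ <;> push_cast <;> ring

theorem pieceAt4 : PieceAt P4 128 192 := by
  refine pieceAt_of rfl fun R h1 h2 h3 => ?_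
  push_cast at h1 h2
  rw [Lz_four (by linarith) h3]
  simp only [Lp4, mkL, Piece.L, P4, affR, LF.mk.injEq]
  refine ⟨?_, ?_, ?_, ?_, ?_, ?_⟩ <;> push_cast <;> ring

/-- the pair inequality on a root box -/
def RootOK (J0 J1 K0 K1 m0 m1 : ℕ) : Prop :=
  ∀ Rj Rk θ : ℝ, 0 < Rj → Rj ≤ Rk → Rk < 3 → (J0 : ℝ) < 64 * Rj → 64 * Rj ≤ J1 →
    (K0 : ℝ) < 64 * Rk → 64 * Rk ≤ K1 → thG m0 ≤ θ → θ ≤ thG m1 → θ < π →
    InTube Rj Rk θ ∨ RPair Fz g0z g1z g2z Rj Rk θ (cos θ)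

/-- **root boxes** -/
theorem rootOK_of {kr : ℕ → KRow} {row : ℕ → Row} {p q : Piece}
    (hk : ∀ m0 m1, 14 ≤ m0 → m0 ≤ m1 → m1 ≤ 128 → KapOK kr m0 m1)
    (hr : ∀ m, 14 ≤ m → m < 128 → RowOK row m)
    {J0 J1 K0 K1 m0 m1 : ℕ} (hp : PieceAt p J0 J1) (hq : PieceAt q K0 K1) (hm : 0 < m0) (t : T)
    (h : checkT kr row p q t J0 J1 K0 K1 m0 m1 = true) : RootOK J0 J1 K0 K1 m0 m1 := by
  intro Rj Rk θ hj hjk h3 a0 a1 b0 b1 c0 c1 hθ
  obtain ⟨p1, p2, p3, p4⟩ := hp.at' Rj a0 a1 (hjk.trans_lt h3)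
  obtain ⟨q1, q2, q3, q4⟩ := hq.at' Rk b0 b1 h3
  have t0 : 0 < θ := by
    refine lt_of_lt_of_le ?_ c0
    unfold thG
    have : (0 : ℝ) < m0 := by exact_mod_cast hm
    positivity
  exact checkT_sound hk hr hj hjk t0 hθ p1 q1 p2 q2 p3 q3 p4 q4 t _ _ _ _ _ _ h a0 a1 b0 b1 c0 c1

end Pool.Agent.RRS
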