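import Mathlib

/-!
# The full bound `√2`: the pair inequality (MP_539dce_lc)

Units: `E |M|² = 1`.  A point has the type `(R, p)`: `R` is the distance from the optimal location,
`p` the mean scalar product with the median.

1. `PW F G α β γ H`: the pointwise inequality of a pair, in one coordinate.  `m ≥ 0` is the median,
   `x, y` the coordinates of the two points, `s, t ∈ [0, 1]` their weights (`s = 1` if `x > m`,
   `s = 0` if `x < m`, and `s` is arbitrary if `x = m`).  `F x m`, `G y m` are the multipliers of the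
   median condition.
2. `HomBd H`: `H` is measurable, homogeneous of degree two and bounded by a multiple of `x² + y²`.
3. `avgP H a b θ`: the mean of `∑_l H (X_l, Y_l)` for a random rotation of two vectors with the
   norms `a, b` and the angle `θ`.
4. `PairOK F g Rj pj Rk pk θ c`: there are multipliers such that the value of the pair is nonnegative
   (at the constant `√2`); `c` is the scalar product of the unit vectors (`c = cos θ`).
-/

set_option autoImplicit false

noncomputable section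

namespace Pool.Agent.RRS

open Real

/-- the pointwise inequality of a pair -/
def PW (F G : ℝ → ℝ → ℝ) (α β γ : ℝ) (H : ℝ → ℝ → ℝ) : Prop :=
  ∀ m x y s t : ℝ, 0 ≤ m → 0 ≤ s → s ≤ 1 → 0 ≤ t → t ≤ 1 → (0 < s → m ≤ x) → (m < x → s = 1) →
    (0 < t → m ≤ y) → (m < y → t = 1) →
    0 ≤ F x m * (1 - 2 * t) + G y m * (1 - 2 * s) + α * m ^ 2 + β * (x * m) + γ * (y * m) + H x y

/-- measurable, homogeneous of degree two, bounded -/
structure HomBd (H : ℝ → ℝ → ℝ) : Prop where
  meas : Measurable fun q : ℝ × ℝ => H q.1 q.2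
  hom : ∀ c x y : ℝ, H (c * x) (c * y) = c ^ 2 * H x y
  bd : ∃ C, ∀ x y : ℝ, |H x y| ≤ C * (x ^ 2 + y ^ 2)

/-- the mean of `H` over the rotations of two vectors with the norms `a, b` and the angle `θ` -/
def avgP (H : ℝ → ℝ → ℝ) (a b θ : ℝ) : ℝ :=
  1 / π * ∫ φ in (0 : ℝ)..(2 * π), H (a * cos φ) (b * cos (φ - θ))

/-- the distance between the point and the median (root mean square) -/
def tt (R p : ℝ) : ℝ := √(1 - 2 * p + R ^ 2)

/-- the pair inequality at the constant `√2` -/
def PairOK (F : ℝ → ℝ → ℝ → ℝ → ℝ) (g : ℝ → ℝ → ℝ) (Rj pj Rk pk θ c : ℝ) : Prop :=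
  ∃ (α β γ : ℝ) (H : ℝ → ℝ → ℝ), HomBd H ∧ PW (F Rj pj) (F Rk pk) α β γ H ∧
    tt Rj pj + tt Rk pk + (α + β * pj + γ * pk + avgP H Rj Rk θ) ≤
      √2 * (Rj + Rk) + (g Rj pj + g Rk pk) * c

/-- the scalar products with the median are compatible with the norms and the angle -/
def Gram (Rj pj Rk pk θ : ℝ) : Prop :=
  ∀ a b : ℝ, (a * pj + b * pk) ^ 2 ≤
    a ^ 2 * Rj ^ 2 + 2 * (a * b) * (Rj * Rk * cos θ) + b ^ 2 * Rk ^ 2

/-- all pairs are good: the hypothesis of the reduction.  `F R p x m` (`m ≥ 0`) is the multiplier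
function of the type `(R, p)`, `g R p` the multiplier of the optimality of the location. -/
structure AllPairs (F : ℝ → ℝ → ℝ → ℝ → ℝ) (g : ℝ → ℝ → ℝ) : Prop where
  pos : ∀ Rj pj Rk pk θ : ℝ, 0 < Rj → 0 < Rk → |pj| ≤ Rj → |pk| ≤ Rk → Gram Rj pj Rk pk θ →
    0 ≤ θ → θ ≤ π → PairOK F g Rj pj Rk pk θ (cos θ)
  zero : ∀ Rk pk c : ℝ, 0 ≤ Rk → |pk| ≤ Rk → |c| ≤ 1 → PairOK F g 0 0 Rk pk (π / 2) c

end Pool.Agent.RRS
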