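import Pool.Agent.RRS.Pi6

/-!
# Opposite points: `7 / 10 ≤ l`, `s + l ≤ 103 / 100`; the corner `s ≤ 1 / 20`, `29 / 20 ≤ l`; and all
norms at most `3 / 2`
-/

set_option autoImplicit false

noncomputable section

namespace Pool.Agent.RRS

open Real

theorem poly_e2 {x y z s l : ℝ} (hx : 0 ≤ x) (hy : 0 ≤ y) (hz : 0 ≤ z)
    (hz' : z = 33 / 100 - x - y) (hs : s = x) (hl : l = 7 / 10 + y) :
    0 ≤ 2 * l * ((41 / 10 - 132 / 100 * (s + l)) * (l - s) + 2 * s) *
      (2828 / 1000 * (s + l) - 2 / 2 - 2 * (1 + s ^ 2) / 2 +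
        (41 / 10 - 132 / 100 * (s + l)) * (1 - l * s)) - 4 * l ^ 2 -
      ((41 / 10 - 132 / 100 * (s + l)) * (l - s) + 2 * s) ^ 2 * (1 + l ^ 2) := by
  have e : 2 * l * ((41 / 10 - 132 / 100 * (s + l)) * (l - s) + 2 * s) *
      (2828 / 1000 * (s + l) - 2 / 2 - 2 * (1 + s ^ 2) / 2 +
        (41 / 10 - 132 / 100 * (s + l)) * (1 - l * s)) - 4 * l ^ 2 -
      ((41 / 10 - 132 / 100 * (s + l)) * (l - s) + 2 * s) ^ 2 * (1 + l ^ 2) =
      497240710400 / 1291467969 * z ^ 6 + 125582401280 / 47832147 * (y * z ^ 5)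
      + 3094882982480 / 430489323 * (y ^ 2 * z ^ 4)
      + 13019349833920 / 1291467969 * (y ^ 3 * z ^ 3)
      + 5460534133048 / 717482205 * (y ^ 4 * z ^ 2) + 157583742178144 / 53811165375 * (y ^ 5 * z)
      + 361864456024919 / 807167480625 * y ^ 6 + 1259501770240 / 430489323 * (x * z ^ 5)
      + 763183228640 / 47832147 * (x * y * z ^ 4)
      + 14516204272736 / 430489323 * (x * y ^ 2 * z ^ 3)
      + 74025521529536 / 2152446615 * (x * y ^ 3 * z ^ 2)
      + 60532434351736 / 3587411025 * (x * y ^ 4 * z)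
      + 855573844307426 / 269055826875 * (x * y ^ 5)
      + 3534757698640 / 430489323 * (x ^ 2 * z ^ 4)
      + 5026084636544 / 143496441 * (x ^ 2 * y * z ^ 3)
      + 38967419105084 / 717482205 * (x ^ 2 * y ^ 2 * z ^ 2)
      + 77824658838404 / 2152446615 * (x ^ 2 * y ^ 3 * z)
      + 31192745723296 / 3587411025 * (x ^ 2 * y ^ 4)
      + 74171227166624 / 6457339845 * (x ^ 3 * z ^ 3)
      + 43264897118392 / 1195803675 * (x ^ 3 * y * z ^ 2)
      + 1978751937571336 / 53811165375 * (x ^ 3 * y ^ 2 * z)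
      + 9703166667926422 / 807167480625 * (x ^ 3 * y ^ 3)
      + 93092383141228 / 10762233075 * (x ^ 4 * z ^ 2)
      + 107186868052868 / 5979018375 * (x ^ 4 * y * z)
      + 2412847255392887 / 269055826875 * (x ^ 4 * y ^ 2)
      + 36228714553336 / 10762233075 * (x ^ 5 * z) + 61747416690724 / 17937055125 * (x ^ 5 * y)
      + 17189917679444 / 32286699225 * x ^ 6 := by
    rw [hz', hs, hl]
    ring
  rw [e]
  positivity

theorem poly_fa3 {x y p q s l : ℝ} (hx : 0 ≤ x) (hy : 0 ≤ y) (hp : 0 ≤ p) (hq : 0 ≤ q)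
    (hy' : y = 1 / 20 - x) (hq' : q = 1 / 20 - p) (hs : s = x) (hl : l = 29 / 20 + p) :
    0 ≤ 2 * l * ((335 / 100 - (s + l)) * (l - s) + (2 - s) * s) *
      (2828 / 1000 * (s + l) - 2 - 5 / 4 * s ^ 2 +
        (335 / 100 - (s + l)) * (1 - l * s)) - 4 * l ^ 2 -
      ((335 / 100 - (s + l)) * (l - s) + (2 - s) * s) ^ 2 * (1 + l ^ 2) := by
  have e : 2 * l * ((335 / 100 - (s + l)) * (l - s) + (2 - s) * s) *
      (2828 / 1000 * (s + l) - 2 - 5 / 4 * s ^ 2 +
        (335 / 100 - (s + l)) * (1 - l * s)) - 4 * l ^ 2 -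
      ((335 / 100 - (s + l)) * (l - s) + (2 - s) * s) ^ 2 * (1 + l ^ 2) =
      2427462400 * (y ^ 3 * q ^ 6) + 29033222400 * (y ^ 3 * p * q ^ 5)
      + 111496657600 * (y ^ 3 * p ^ 2 * q ^ 4) + 204462681600 * (y ^ 3 * p ^ 3 * q ^ 3)
      + 198332096000 * (y ^ 3 * p ^ 4 * q ^ 2) + 98661120000 * (y ^ 3 * p ^ 5 * q)
      + 19900800000 * (y ^ 3 * p ^ 6) + 7521254400 * (x * y ^ 2 * q ^ 6)
      + 85294684800 * (x * y ^ 2 * p * q ^ 5) + 322165342400 * (x * y ^ 2 * p ^ 2 * q ^ 4)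
      + 586926144000 * (x * y ^ 2 * p ^ 3 * q ^ 3) + 567924928000 * (x * y ^ 2 * p ^ 4 * q ^ 2)
      + 282385920000 * (x * y ^ 2 * p ^ 5 * q) + 56995200000 * (x * y ^ 2 * p ^ 6)
      + 7213304000 * (x ^ 2 * y * q ^ 6) + 80742038400 * (x ^ 2 * y * p * q ^ 5)
      + 304310712000 * (x ^ 2 * y * p ^ 2 * q ^ 4) + 554883715200 * (x ^ 2 * y * p ^ 3 * q ^ 3)
      + 538017592000 * (x ^ 2 * y * p ^ 4 * q ^ 2) + 268195526400 * (x ^ 2 * y * p ^ 5 * q)
      + 54279648000 * (x ^ 2 * y * p ^ 6) + 2069400000 * (x ^ 3 * q ^ 6)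
      + 24165648000 * (x ^ 3 * p * q ^ 5) + 92818635200 * (x ^ 3 * p ^ 2 * q ^ 4)
      + 171273724800 * (x ^ 3 * p ^ 3 * q ^ 3) + 167527928000 * (x ^ 3 * p ^ 4 * q ^ 2)
      + 84097046400 * (x ^ 3 * p ^ 5 * q) + 17120448000 * (x ^ 3 * p ^ 6) := by
    rw [hy', hq', hs, hl]
    ring
  rw [e]
  positivity

/-- `7 / 10 ≤ l`, `s + l ≤ 103 / 100` -/
theorem pi_e2 {s l : ℝ} (hs : 0 < s) (hl7 : 7 / 10 ≤ l) (hS : s + l ≤ 103 / 100) :
    RPair0 Fz g0z g1z g2z s l π (cos π) := by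
  obtain ⟨r1, r2⟩ := two_sqrt_two
  have l0 : 0 < l := by linarith
  have hs3 : s ≤ 33 / 100 := by linarith
  have hsl : s ≤ l := by linarith
  have S0 : 0 < s + l := by linarith
  have eL : Lz s = Lp1 s := Lz_one (by linarith)
  obtain ⟨a, ha⟩ : ∃ a : ℝ, a = 41 / 10 - 132 / 100 * (s + l) := ⟨_, rfl⟩
  have a1 : 274 / 100 ≤ a := by rw [ha]; linarith
  have a2 : a ≤ 3176 / 1000 := by rw [ha]; linarith
  have hw : 0 < a * (l - s) + 2 * s := by
    have := mul_nonneg (show 0 ≤ a by linarith) (sub_nonneg.2 hsl)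
    linarith
  have key := poly_e2 (x := s) (y := l - 7 / 10) (z := 103 / 100 - s - l) (s := s) (l := l)
      hs.le (by linarith) (by linarith) (by ring) rfl (by ring)
  rw [← ha] at key
  have hcost := cost_le hw l0 key
  have hS2 := mul_lt_mul_of_pos_right r1 S0
  suffices hh : FA (Lz s) (Lz l) s l a 0 ∧ a < (Lz s).ze + (Lz l).ze by
    refine RPair0_pi_FA (a := a) (e := 0) (u := 2) (v := (a * (l - s) + 2 * s) / l) hh.1
      (by linarith) (by linarith) (by norm_num) (div_pos hw l0) hh.2 ?_ ?_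
    · rw [div_mul_cancel₀ _ l0.ne']
      ring
    · linarith
  rcases le_total l 1 with hl | hl
  · have eK : Lz l = Lp1 l := Lz_one hl
    rw [eL, eK]
    have hinf : a < (Lp1 s).ze + (Lp1 l).ze := by
      rw [ha]
      simp only [LF.ze, Lp1, mkL]
      linarith
    refine ⟨⟨hs, hsl, by linarith, le_rfl, ?_, ?_, ?_, ?_, ?_, ?_, hinf.le, ?_, ?_, ?_, ?_⟩, hinf⟩
    · simp only [LF.qq, Lp1, mkL]
      linarith
    · simp only [LF.qq, Lp1, mkL]
      linarith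
    · simp only [LF.qq, Lp1, mkL]
      nlinarith
    · simp only [LF.qq, Lp1, mkL]
      nlinarith
    · simp only [LF.gg, Lp1, mkL]
      nlinarith
    · simp only [LF.gg, Lp1, mkL]
      linarith
    · simp only [LF.ze, Lp1, mkL]
      nlinarith [mul_nonneg (sub_nonneg.2 a1) (sub_nonneg.2 hsl), mul_nonneg hs.le l0.le,
        mul_nonneg hs.le (sub_nonneg.2 hs3)]
    · rw [ha]
      simp only [LF.ze, Lp1, mkL]
      nlinarith [mul_nonneg l0.le l0.le]
    · rw [ha]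
      simp only [LF.ze, Lp1, mkL]
      have e : (103 / 100 - 66 / 100 * s + (206 / 100 - 65 / 100 * s) - (103 / 100 + 1 / 100 * s)) = 206 / 100 - 132 / 100 * s := by ring
      nlinarith [mul_nonneg l0.le l0.le, mul_nonneg hs.le l0.le, mul_nonneg (mul_nonneg l0.le l0.le) l0.le,
        mul_nonneg (mul_nonneg hs.le l0.le) (show 0 ≤ 41 / 10 - 132 / 100 * (s + l) by linarith)]
    · rw [ha]
      simp only [LF.ze, LF.rr, Lp1, mkL]
      nlinarith [mul_nonneg l0.le l0.le]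
  · have eK : Lz l = Lp2 l := Lz_two hl (by linarith)
    rw [eL, eK]
    have hl3 : l ≤ 103 / 100 := by linarith
    have hinf : a < (Lp1 s).ze + (Lp2 l).ze := by
      rw [ha]
      simp only [LF.ze, Lp1, Lp2, mkL]
      linarith
    refine ⟨⟨hs, hsl, by linarith, le_rfl, ?_, ?_, ?_, ?_, ?_, ?_, hinf.le, ?_, ?_, ?_, ?_⟩, hinf⟩
    · simp only [LF.qq, Lp1, mkL]
      linarith
    · simp only [LF.qq, Lp2, mkL]
      linarith
    · simp only [LF.qq, Lp2, mkL]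
      nlinarith
    · simp only [LF.qq, Lp1, mkL]
      nlinarith
    · simp only [LF.gg, Lp2, mkL]
      nlinarith
    · simp only [LF.gg, Lp2, mkL]
      linarith
    · simp only [LF.ze, Lp1, Lp2, mkL]
      nlinarith [mul_nonneg (sub_nonneg.2 a1) (sub_nonneg.2 hsl), mul_nonneg hs.le l0.le,
        mul_nonneg hs.le (sub_nonneg.2 hs3)]
    · rw [ha]
      simp only [LF.ze, Lp1, Lp2, mkL]
      nlinarith [mul_nonneg (sub_nonneg.2 hl) (sub_nonneg.2 hl3)]
    · rw [ha]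
      simp only [LF.ze, Lp1, Lp2, mkL]
      nlinarith [mul_nonneg (sub_nonneg.2 hl) (sub_nonneg.2 hl3), mul_nonneg hs.le l0.le,
        mul_nonneg (mul_nonneg hs.le l0.le) l0.le]
    · rw [ha]
      simp only [LF.ze, LF.rr, Lp1, Lp2, mkL]
      nlinarith [mul_nonneg (sub_nonneg.2 hl) (sub_nonneg.2 hl3), mul_nonneg hs.le l0.le]

/-- the corner `s ≤ 1 / 20`, `29 / 20 ≤ l ≤ 3 / 2` -/
theorem pi_fa3 {s l : ℝ} (hs : 0 < s) (hs5 : s ≤ 1 / 20) (hl1 : 29 / 20 ≤ l) (hl : l ≤ 3 / 2) :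
    RPair0 Fz g0z g1z g2z s l π (cos π) := by
  obtain ⟨r1, r2⟩ := two_sqrt_two
  have l0 : 0 < l := by linarith
  have hsl : s ≤ l := by linarith
  have S0 : 0 < s + l := by linarith
  have eL : Lz s = Lp1 s := Lz_one (by linarith)
  have eK : Lz l = Lp2 l := Lz_two (by linarith) hl
  obtain ⟨a, ha⟩ : ∃ a : ℝ, a = 335 / 100 - (s + l) := ⟨_, rfl⟩
  have a1 : 18 / 10 ≤ a := by rw [ha]; linarith
  have a2 : a ≤ 19 / 10 := by rw [ha]; linarith
  have hw : 0 < a * (l - s) + (2 - s) * s := by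
    have := mul_nonneg (show 0 ≤ a by linarith) (sub_nonneg.2 hsl)
    have := mul_pos (show 0 < 2 - s by linarith) hs
    linarith
  have key := poly_fa3 (x := s) (y := 1 / 20 - s) (p := l - 29 / 20) (q := 3 / 2 - l)
      (s := s) (l := l) hs.le (by linarith) (by linarith) (by linarith) rfl (by ring) rfl (by ring)
  rw [← ha] at key
  have hcost := cost_le hw l0 key
  have hS2 := mul_lt_mul_of_pos_right r1 S0
  have hinf : a < (Lp1 s).ze + (Lp2 l).ze := by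
    rw [ha]
    simp only [LF.ze, Lp1, Lp2, mkL]
    linarith
  have hFA : FA (Lz s) (Lz l) s l a 0 := by
    rw [eL, eK]
    refine ⟨hs, hsl, by linarith, le_rfl, ?_, ?_, ?_, ?_, ?_, ?_, hinf.le, ?_, ?_, ?_, ?_⟩
    · simp only [LF.qq, Lp1, mkL]
      linarith
    · simp only [LF.qq, Lp2, mkL]
      linarith
    · simp only [LF.qq, Lp2, mkL]
      nlinarith
    · simp only [LF.qq, Lp1, mkL]
      nlinarith
    · simp only [LF.gg, Lp2, mkL]
      nlinarith
    · simp only [LF.gg, Lp2, mkL]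
      linarith
    · simp only [LF.ze, Lp1, Lp2, mkL]
      nlinarith [mul_nonneg (sub_nonneg.2 a1) (sub_nonneg.2 hsl)]
    · rw [ha]
      simp only [LF.ze, Lp1, Lp2, mkL]
      nlinarith [mul_nonneg (sub_nonneg.2 hl1) (sub_nonneg.2 hl)]
    · have e : ((Lp1 s).ze - a + ((Lp2 l).b1 - (Lp2 l).a1)) * l ^ 2 +
        (-(a * (l - s)) + 2 * (Lp2 l).b0 * l - (Lp1 s).ze * s) * l + (a * l * s + 0) =
          l * (((Lp1 s).ze - 2 * a) * (l - s) +
            ((Lp2 l).b1 - (Lp2 l).a1 + 2 * (Lp2 l).b0) * l) := by ring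
      rw [e]
      refine mul_nonneg l0.le ?_
      rw [ha]
      simp only [LF.ze, Lp1, Lp2, mkL]
      nlinarith [mul_nonneg (sub_nonneg.2 hl1) (sub_nonneg.2 hl), mul_nonneg hs.le l0.le,
        mul_nonneg hs.le (sub_nonneg.2 hs5)]
    · rw [ha]
      simp only [LF.ze, LF.rr, Lp1, Lp2, mkL]
      nlinarith [mul_nonneg (sub_nonneg.2 hl1) (sub_nonneg.2 hl), mul_nonneg hs.le l0.le,
        mul_nonneg hs.le (sub_nonneg.2 hs5)]
  refine RPair0_pi_FA (a := a) (e := 0) (u := 2 - s) (v := (a * (l - s) + (2 - s) * s) / l) hFA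
    (by linarith) (by linarith) (by linarith) (div_pos hw l0) (by rw [eL, eK]; exact hinf) ?_ ?_
  · rw [div_mul_cancel₀ _ l0.ne']
    ring
  · have hu : 2 / (2 - s) + (2 - s) * (1 + s ^ 2) / 2 ≤ 2 + 5 / 4 * s ^ 2 := by
      have h2 : 0 < 2 - s := by linarith
      have e : 2 / (2 - s) + (2 - s) * (1 + s ^ 2) / 2 =
          (4 + (2 - s) ^ 2 * (1 + s ^ 2)) / (2 * (2 - s)) := by
        field_simp
        ring
      rw [e, div_le_iff₀ (by positivity)]
      have : (2 + 5 / 4 * s ^ 2) * (2 * (2 - s)) - (4 + (2 - s) ^ 2 * (1 + s ^ 2)) =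
          s ^ 3 * (3 / 2 - s) := by ring
      have h3 : 0 ≤ s ^ 3 * (3 / 2 - s) := mul_nonneg (by positivity) (by linarith)
      linarith
    linarith

/-- **the angle `π`, all norms at most `3 / 2`** -/
theorem pi_all_15 {s l : ℝ} (hs : 0 < s) (hsl : s ≤ l) (hl : l ≤ 3 / 2) :
    RPair0 Fz g0z g1z g2z s l π (cos π) := by
  rcases le_total l (7 / 10) with h | h
  · exact pi_small hs hsl h
  rcases le_total 1 s with h1 | h1
  · exact pi_mid h1 hsl hl
  rcases le_total (s + l) (103 / 100) with h2 | h2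
  · exact pi_e2 hs h h2
  rcases le_total l 1 with h3 | h3
  · exact pi_fam1 hs hsl h3 h2
  rcases le_total (21 / 10) (s + l) with h4 | h4
  · exact pi_fa2 h1 hl h4
  rcases le_total l (145 / 100) with h5 | h5
  · exact pi_fam2 hs h1 h3 hl h2 h4 (Or.inl h5)
  rcases le_total (5 / 100) s with h6 | h6
  · exact pi_fam2 hs h1 h3 hl h2 h4 (Or.inr h6)
  exact pi_fa3 hs (by linarith) (by linarith) hl

end Pool.Agent.RRS
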