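import Pool.Agent.RRS.SlabP

/-!
# Small angles: the data and the final result

`RPair` for all pairs of radii in `(0, 3)` and all angles in `(0, π / 8]`.
-/

set_option autoImplicit false

noncomputable section

namespace Pool.Agent.RRS

open Real

def cfp1 : Cf := ⟨0, -1/2, 103/100, 1/100, 103/100, -66/100, 206/100, -65/100, 309/100, -131/100⟩
def cfp2 : Cf := ⟨-1/2, 0, 64/100, 40/100, 31/100, 6/100, 216/100, -75/100, 368/100, -190/100⟩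
def cfp3 : Cf :=
  ⟨-56/100, 4/100, 1855/1000, -41/100, 10/100, 20/100, 27/10, -111/100, 173/100, -60/100⟩
def cfp4 : Cf :=
  ⟨-118/100, 35/100, 985/1000, 25/1000, 84/100, -17/100, 50/100, -1/100, -13/100, 33/100⟩

/-- the knots -/
def knL : List ℚ := [
  0, 1/10, 1/5, 2/5, 3/5, 4/5, 1, 11/10, 6/5, 13/10, 7/5, 29/20, 3/2, 31/20, 8/5, 33/20, 17/10,
  7/4, 9/5, 19/10, 2, 21/10, 11/5, 23/10, 12/5, 5/2, 13/5, 27/10, 14/5, 29/10, 3]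

/-- the versions -/
def vsL : List (List Vq) := [
  [
    ⟨1, 0, 53/50, 0, 409/200, 103/100, 103/100, 3/100⟩],
  [
    ⟨1, 0, 199/200, 0, 203/100, 1031/1000, 241/250, 113/1250⟩],
  [
    ⟨109/100, 0, 21/25, 0, 2, 129/125, 449/500, 1063/10000⟩],
  [
    ⟨251/200, 0, 93/200, 2/25, 197/100, 10309/10000, 383/500, 633/10000⟩],
  [
    ⟨77/50, 0, 1/20, 2/25, 97/50, 10329/10000, 317/500, 69/5000⟩, ⟨17/20, 0, 0, 41/50,
    18867/10000, 10043/10000, 317/500, 1581/5000⟩],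
  [
    ⟨11/8, 1/200, 0, 4/25, 1192/625, 5159/5000, 251/500, 81/2000⟩, ⟨31/40, 0, 0, 153/200,
    18609/10000, 2521/2500, 251/500, 1763/5000⟩],
  [
    ⟨233/200, 1/200, 0, 6/25, 9109/5000, 10307/10000, 37/100, 891/10000⟩, ⟨67/100, 0, 0, 37/50,
    4459/2500, 5057/5000, 37/100, 81/250⟩],
  [
    ⟨131/200, (-3/5), 0, 32/25, 4283/2500, 2061/2000, 3387/10000, 1749/2000⟩],
  [
    ⟨107/200, (-127/200), 0, 34/25, 4087/2500, 427/400, 357/1250, 8443/10000⟩],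
  [
    ⟨131/200, (-43/100), 0, 24/25, 3937/2500, 11229/10000, 2231/10000, 5871/10000⟩],
  [
    ⟨61/100, (-23/50), 0, 24/25, 15367/10000, 11629/10000, 849/5000, 5971/10000⟩],
  [
    ⟨137/200, (-333/1000), 0, 1441/2000, 15079/10000, 11921/10000, 1377/10000, 2031/5000⟩],
  [
    ⟨149/200, (-27/100), 0, 14/25, 14593/10000, 6/5, 27/250, 1417/5000⟩, ⟨19/40, (-14/25), 0,
    28/25, 2877/2000, 1473/1250, 149/1250, 407/625⟩],
  [
    ⟨161/200, (-393/500), 0, 1921/2000, 3527/2500, 291/250, 577/5000, 7197/10000⟩],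
  [
    ⟨19/25, (-179/250), 0, 22/25, 13541/10000, 5733/5000, 501/5000, 6669/10000⟩],
  [
    ⟨149/200, (-757/1000), 0, 1761/2000, 12997/10000, 11261/10000, 893/10000, 6959/10000⟩],
  [
    ⟨7/10, (-687/1000), 0, 4/5, 1243/1000, 11087/10000, 741/10000, 807/1250⟩],
  [
    ⟨67/100, (-793/1000), 0, 1761/2000, 19/16, 10851/10000, 657/10000, 473/625⟩],
  [
    ⟨5/8, (-141/250), 1/1000, 16/25, 43/40, 2111/2000, 443/10000, 5217/10000⟩],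
  [
    ⟨29/50, (-23/100), 1/1000, 6/25, 24/25, 103/100, 93/10000, 1873/10000⟩, ⟨29/50, (-11/20),
    1/1000, 14/25, 24/25, 636/625, 217/10000, 5073/10000⟩],
  [
    ⟨29/50, (-181/1000), 1/1000, 2/25, 231/250, 10319/10000, 31/10000, 1383/10000⟩, ⟨29/50,
    (-1381/1000), 1/1000, 32/25, 231/250, 1971/2000, 99/2000, 13383/10000⟩],
  [
    ⟨107/200, (-217/1000), 1/1000, 4/25, 111/125, 10313/10000, 31/5000, 2421/10000⟩, ⟨107/200,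
    (-1097/1000), 1/1000, 26/25, 111/125, 9973/10000, 201/5000, 11221/10000⟩],
  [
    ⟨101/200, (-7/250), 1/1000, 0, 213/250, 26/25, 0, 1077/10000⟩, ⟨101/200, (-147/250), 1/1000,
    14/25, 213/250, 10183/10000, 217/10000, 6677/10000⟩],
  [
    ⟨19/40, (-159/500), 0, 8/25, 8159/10000, 10301/10000, 31/2500, 2293/5000⟩],
  [
    ⟨23/50, (-8/125), 0, 2/25, 1947/2500, 10419/10000, 31/10000, 2473/10000⟩, ⟨23/50, (-48/125),
    0, 2/5, 1947/2500, 2059/2000, 31/2000, 5673/10000⟩],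
  [
    ⟨43/100, (-23/200), 0, 4/25, 3703/5000, 10413/10000, 31/5000, 891/2500⟩, ⟨43/100, (-71/200),
    0, 2/5, 3703/5000, 129/125, 31/2000, 1491/2500⟩],
  [
    ⟨83/200, 59/1000, 0, 0, 1407/2000, 21/20, 0, 2269/10000⟩, ⟨83/200, (-1861/1000), 0, 48/25,
    1407/2000, 4879/5000, 371/5000, 21469/10000⟩],
  [
    ⟨2/5, 73/1000, 0, 0, 833/1250, 421/400, 0, 1289/5000⟩, ⟨2/5, (-1847/1000), 0, 48/25,
    833/1250, 9783/10000, 371/5000, 10889/5000⟩],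
  [
    ⟨77/200, 87/1000, 0, 0, 6293/10000, 211/200, 0, 2893/10000⟩],
  [
    ⟨37/100, 101/1000, 0, 0, 2961/5000, 423/400, 0, 1607/5000⟩]]

/-- the data of the pairs -/
def psL : List (List Pq) := [
  [
    ⟨0, 0, false, 103/25, 0, 0⟩, ⟨0, 0, false, 103/25, 0, 0⟩, ⟨0, 0, true, 103/25, 0, 0⟩, ⟨0, 0,
    true, 103/25, 0, 0⟩, ⟨0, 0, true, 103/25, 0, 0⟩, ⟨0, 0, true, 103/25, 0, 0⟩, ⟨0, 0, true,
    103/25, 0, 0⟩, ⟨0, 0, true, 103/25, 0, 0⟩, ⟨0, 0, true, 309/100, 3537/1000, 0⟩, ⟨0, 0, true,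
    309/125, 731/200, 0⟩, ⟨0, 0, true, 1133/500, 3233/1000, 0⟩, ⟨0, 0, true, 103/50, 3273/1000,
    1/500⟩, ⟨0, 1, true, 103/50, 143/40, 1/1000⟩, ⟨0, 0, true, 927/500, 479/100, 3/1000⟩, ⟨0, 0,
    true, 927/500, 1101/200, 0⟩, ⟨0, 0, true, 927/500, 6679/1000, 0⟩, ⟨0, 0, true, 206/125,
    4853/500, 0⟩, ⟨0, 0, true, 103/50, 2407/250, 0⟩, ⟨0, 0, true, 309/100, 5201/1000, 0⟩, ⟨0, 0,
    true, 103/25, 0, 0⟩, ⟨0, 0, true, 103/25, 0, 0⟩, ⟨0, 0, true, 103/25, 0, 0⟩, ⟨0, 0, true,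
    927/250, 1061/500, 0⟩, ⟨0, 0, true, 103/25, 0, 0⟩, ⟨0, 0, true, 1751/500, 1003/250, 0⟩, ⟨0,
    1, true, 1957/500, 2653/1000, 0⟩, ⟨0, 0, true, 309/100, 6631/1000, 0⟩, ⟨0, 0, true, 721/250,
    1061/125, 0⟩, ⟨0, 0, true, 1339/500, 10397/1000, 0⟩, ⟨0, 0, true, 309/125, 6173/500, 0⟩],
  [
    ⟨0, 0, false, 399/100, 0, 0⟩, ⟨0, 0, false, 3791/1000, 73/1000, 1/200⟩, ⟨0, 0, true,
    3591/1000, 149/500, 1/1000⟩, ⟨0, 1, true, 3591/1000, 247/500, 0⟩, ⟨0, 1, true, 3591/1000,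
    449/1000, 0⟩, ⟨0, 1, true, 3391/1000, 947/1000, 0⟩, ⟨0, 0, true, 399/125, 1197/1000, 0⟩, ⟨0,
    0, true, 1297/500, 1177/500, 0⟩, ⟨0, 0, true, 1197/500, 501/250, 0⟩, ⟨0, 0, true, 439/200,
    81/40, 1/1000⟩, ⟨0, 0, true, 399/200, 1091/500, 1/200⟩, ⟨0, 1, true, 399/200, 2321/1000,
    1/500⟩, ⟨0, 0, true, 399/200, 311/125, 0⟩, ⟨0, 0, true, 449/250, 412/125, 1/1000⟩, ⟨0, 0,
    true, 449/250, 464/125, 0⟩, ⟨0, 0, true, 399/250, 4951/1000, 1/1000⟩, ⟨0, 0, true, 449/250,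
    4969/1000, 0⟩, ⟨0, 0, true, 439/200, 2201/500, 0⟩, ⟨0, 1, true, 2993/1000, 2319/1000, 0⟩, ⟨0,
    1, true, 3591/1000, 463/500, 0⟩, ⟨0, 1, true, 399/125, 2391/1000, 0⟩, ⟨0, 1, true, 2793/1000,
    3299/1000, 0⟩, ⟨0, 0, true, 1197/500, 4817/1000, 0⟩, ⟨0, 1, true, 1197/500, 2431/500, 0⟩, ⟨0,
    1, true, 439/200, 5923/1000, 0⟩, ⟨0, 1, true, 3591/1000, 1687/1000, 0⟩, ⟨0, 1, true,
    3591/1000, 174/125, 0⟩, ⟨0, 0, true, 1397/1000, 2309/250, 0⟩, ⟨0, 0, true, 1197/1000,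
    10429/1000, 0⟩],
  [
    ⟨0, 0, false, 3667/1000, 7/200, 7/200⟩, ⟨0, 0, false, 1737/500, 141/1000, 1/125⟩, ⟨0, 1,
    false, 1737/500, 22/125, 0⟩, ⟨0, 1, true, 3281/1000, 19/50, 0⟩, ⟨0, 1, true, 3281/1000,
    37/100, 0⟩, ⟨0, 0, true, 386/125, 563/1000, 0⟩, ⟨0, 0, true, 1351/500, 989/1000, 0⟩, ⟨0, 0,
    true, 579/250, 53/40, 1/1000⟩, ⟨0, 0, true, 2123/1000, 178/125, 1/500⟩, ⟨0, 0, true,
    2123/1000, 1283/1000, 1/1000⟩, ⟨0, 1, true, 2123/1000, 673/500, 0⟩, ⟨0, 0, true, 193/100,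
    1751/1000, 1/1000⟩, ⟨0, 0, true, 193/100, 1873/1000, 0⟩, ⟨0, 0, true, 193/100, 1021/500, 0⟩,
    ⟨0, 0, true, 193/100, 221/100, 0⟩, ⟨0, 0, true, 2123/1000, 252/125, 0⟩, ⟨0, 0, true, 579/250,
    1893/1000, 0⟩, ⟨0, 1, true, 1351/500, 701/500, 0⟩, ⟨0, 1, true, 579/200, 1331/1000, 0⟩, ⟨0,
    1, true, 1351/500, 1689/1000, 0⟩, ⟨0, 1, true, 2509/1000, 1897/1000, 0⟩, ⟨0, 0, true,
    579/250, 282/125, 0⟩, ⟨0, 1, true, 2123/1000, 2869/1000, 0⟩, ⟨0, 1, true, 2123/1000, 563/200,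
    0⟩, ⟨0, 1, true, 579/200, 1497/1000, 0⟩, ⟨0, 1, true, 1351/500, 261/125, 0⟩, ⟨0, 0, true,
    193/125, 4271/1000, 0⟩, ⟨0, 0, true, 193/125, 1051/250, 0⟩],
  [
    ⟨0, 0, false, 171/50, 2/125, 2/125⟩, ⟨0, 1, false, 81/25, 17/250, 1/250⟩, ⟨0, 1, false,
    72/25, 67/250, 1/100⟩, ⟨0, 1, true, 27/10, 413/1000, 3/1000⟩, ⟨0, 0, true, 27/10, 383/1000,
    0⟩, ⟨0, 0, true, 63/25, 121/250, 0⟩, ⟨0, 0, true, 117/50, 557/1000, 1/1000⟩, ⟨0, 0, true,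
    54/25, 327/500, 1/1000⟩, ⟨0, 0, true, 99/50, 77/100, 3/500⟩, ⟨0, 1, true, 99/50, 199/250,
    1/500⟩, ⟨0, 0, true, 9/5, 509/500, 3/500⟩, ⟨0, 0, true, 9/5, 213/200, 1/1000⟩, ⟨0, 0, true,
    9/5, 9/8, 0⟩, ⟨0, 0, true, 81/50, 143/100, 1/1000⟩, ⟨0, 0, true, 81/50, 192/125, 0⟩, ⟨0, 0,
    true, 9/5, 1399/1000, 0⟩, ⟨0, 1, true, 99/50, 163/125, 0⟩, ⟨0, 1, true, 99/50, 299/200, 0⟩,
    ⟨0, 1, true, 99/50, 1419/1000, 0⟩, ⟨0, 1, true, 81/50, 1943/1000, 0⟩, ⟨0, 0, true, 36/25,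
    2209/1000, 0⟩, ⟨0, 1, true, 36/25, 1107/500, 0⟩, ⟨0, 1, true, 63/50, 1287/500, 0⟩, ⟨0, 1,
    true, 81/50, 292/125, 0⟩, ⟨0, 1, true, 81/50, 2309/1000, 0⟩, ⟨0, 0, true, 9/10, 1577/500,
    1/1000⟩, ⟨0, 0, true, 9/10, 3127/1000, 1/1000⟩],
  [
    ⟨1, 1, false, 1503/500, 19/500, 19/500⟩, ⟨1, 1, false, 2839/1000, 21/250, 3/200⟩, ⟨1, 1,
    false, 501/200, 231/1000, 1/50⟩, ⟨1, 0, false, 501/200, 11/50, 3/500⟩, ⟨1, 0, false,
    1169/500, 29/100, 7/1000⟩, ⟨1, 0, false, 2171/1000, 7/20, 9/1000⟩, ⟨1, 0, true, 501/250,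
    211/500, 1/100⟩, ⟨1, 0, true, 501/250, 2/5, 1/200⟩, ⟨1, 1, true, 1837/1000, 519/1000, 3/250⟩,
    ⟨1, 0, true, 1837/1000, 533/1000, 1/250⟩, ⟨1, 0, true, 167/100, 681/1000, 7/1000⟩, ⟨1, 0,
    true, 167/100, 709/1000, 1/1000⟩, ⟨1, 0, true, 1503/1000, 889/1000, 1/250⟩, ⟨1, 0, true,
    1503/1000, 117/125, 1/1000⟩, ⟨1, 0, true, 1503/1000, 1001/1000, 0⟩, ⟨1, 1, true, 1503/1000,
    11/10, 0⟩, ⟨1, 1, true, 1503/1000, 1201/1000, 0⟩, ⟨1, 1, true, 167/125, 691/500, 0⟩, ⟨1, 1,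
    true, 1169/1000, 767/500, 0⟩, ⟨1, 0, true, 501/500, 863/500, 0⟩, ⟨1, 1, true, 501/500,
    216/125, 0⟩, ⟨1, 1, true, 501/500, 1717/1000, 0⟩, ⟨1, 1, true, 501/500, 2, 0⟩, ⟨1, 1, true,
    501/500, 397/200, 0⟩, ⟨1, 0, true, 167/200, 233/125, 3/1000⟩, ⟨1, 0, true, 167/200,
    1853/1000, 3/1000⟩],
  [
    ⟨1, 1, false, 1309/500, 53/1000, 53/1000⟩, ⟨1, 1, false, 231/100, 73/500, 13/250⟩, ⟨1, 0,
    false, 231/100, 141/1000, 13/500⟩, ⟨1, 0, false, 539/250, 189/1000, 27/1000⟩, ⟨1, 0, false,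
    1001/500, 117/500, 7/250⟩, ⟨1, 0, false, 231/125, 36/125, 29/1000⟩, ⟨1, 0, false, 231/125,
    11/40, 19/1000⟩, ⟨1, 1, false, 231/125, 281/1000, 11/1000⟩, ⟨1, 0, false, 847/500, 363/1000,
    3/200⟩, ⟨1, 0, false, 847/500, 373/1000, 3/500⟩, ⟨1, 0, true, 77/50, 119/250, 9/1000⟩, ⟨1, 0,
    true, 77/50, 489/1000, 1/500⟩, ⟨1, 0, true, 693/500, 77/125, 1/250⟩, ⟨1, 0, true, 154/125,
    193/250, 7/1000⟩, ⟨1, 1, true, 154/125, 207/250, 0⟩, ⟨1, 1, true, 539/500, 1037/1000, 0⟩, ⟨1,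
    1, true, 231/250, 587/500, 1/1000⟩, ⟨1, 1, true, 231/250, 563/500, 1/1000⟩, ⟨1, 0, true,
    231/250, 1101/1000, 1/1000⟩, ⟨1, 1, true, 231/250, 551/500, 1/1000⟩, ⟨1, 1, true, 231/250,
    1097/1000, 1/1000⟩, ⟨1, 1, true, 231/250, 1227/1000, 1/1000⟩, ⟨1, 1, true, 231/250, 61/50,
    1/1000⟩, ⟨1, 0, true, 77/100, 1207/1000, 3/500⟩, ⟨1, 0, true, 77/100, 1201/1000, 3/500⟩],
  [
    ⟨1, 1, false, 423/200, 49/500, 49/500⟩, ⟨1, 0, false, 423/200, 19/200, 31/500⟩, ⟨1, 0, false,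
    987/500, 13/100, 3/50⟩, ⟨1, 0, false, 1833/1000, 41/250, 59/1000⟩, ⟨1, 0, false, 1833/1000,
    31/200, 31/1000⟩, ⟨1, 0, false, 423/250, 39/200, 21/500⟩, ⟨1, 1, false, 423/250, 199/1000,
    3/100⟩, ⟨1, 0, false, 1551/1000, 32/125, 9/250⟩, ⟨1, 0, false, 1551/1000, 131/500, 19/1000⟩,
    ⟨1, 0, false, 141/100, 83/250, 3/125⟩, ⟨1, 0, false, 141/100, 17/50, 11/1000⟩, ⟨0, 0, false,
    1269/1000, 17/40, 7/500⟩, ⟨0, 0, true, 1269/1000, 443/1000, 1/200⟩, ⟨1, 1, true, 987/1000,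
    131/200, 1/100⟩, ⟨0, 1, true, 423/500, 4/5, 1/250⟩, ⟨1, 1, true, 423/500, 98/125, 3/1000⟩,
    ⟨1, 1, true, 423/500, 759/1000, 3/1000⟩, ⟨1, 0, true, 423/500, 149/200, 3/1000⟩, ⟨1, 1, true,
    423/500, 373/500, 3/1000⟩, ⟨1, 1, true, 141/200, 853/1000, 13/1000⟩, ⟨0, 1, true, 423/500,
    813/1000, 3/1000⟩, ⟨1, 1, true, 423/500, 809/1000, 1/500⟩, ⟨1, 0, true, 141/200, 103/125,
    3/250⟩, ⟨1, 0, true, 141/200, 821/1000, 3/250⟩],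
  [
    ⟨0, 0, false, 2003/1000, 43/500, 43/500⟩, ⟨0, 0, false, 1869/1000, 117/1000, 83/1000⟩, ⟨0, 0,
    false, 1869/1000, 109/1000, 1/20⟩, ⟨0, 0, false, 217/125, 7/50, 47/1000⟩, ⟨0, 0, false,
    801/500, 177/1000, 59/1000⟩, ⟨0, 1, false, 801/500, 9/50, 9/200⟩, ⟨0, 0, false, 801/500,
    183/1000, 27/1000⟩, ⟨0, 0, false, 1469/1000, 59/250, 3/100⟩, ⟨0, 0, false, 1469/1000,
    243/1000, 2/125⟩, ⟨0, 0, false, 267/200, 307/1000, 19/1000⟩, ⟨0, 0, false, 601/500, 48/125,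
    11/500⟩, ⟨0, 0, false, 601/500, 2/5, 1/100⟩, ⟨0, 1, false, 267/250, 101/200, 1/250⟩, ⟨0, 0,
    true, 801/1000, 84/125, 3/500⟩, ⟨0, 0, true, 801/1000, 673/1000, 3/500⟩, ⟨0, 1, true,
    801/1000, 687/1000, 3/500⟩, ⟨0, 0, true, 801/1000, 337/500, 3/500⟩, ⟨0, 1, true, 801/1000,
    27/40, 1/200⟩, ⟨0, 1, true, 801/1000, 84/125, 1/200⟩, ⟨0, 0, true, 801/1000, 327/500, 1/200⟩,
    ⟨0, 1, true, 801/1000, 733/1000, 1/200⟩, ⟨0, 0, true, 167/250, 149/200, 3/200⟩, ⟨0, 0, true,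
    167/250, 371/500, 3/200⟩],
  [
    ⟨0, 0, false, 189/100, 37/500, 37/500⟩, ⟨0, 0, false, 441/250, 49/500, 69/1000⟩, ⟨0, 0,
    false, 819/500, 63/500, 8/125⟩, ⟨0, 0, false, 819/500, 121/1000, 49/1000⟩, ⟨0, 0, false,
    189/125, 157/1000, 3/50⟩, ⟨0, 0, false, 189/125, 41/250, 39/1000⟩, ⟨0, 0, false, 693/500,
    53/250, 21/500⟩, ⟨0, 0, false, 693/500, 109/500, 1/40⟩, ⟨0, 0, false, 63/50, 69/250, 7/250⟩,
    ⟨0, 0, false, 63/50, 57/200, 7/500⟩, ⟨0, 0, false, 567/500, 9/25, 2/125⟩, ⟨0, 1, false,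
    126/125, 227/500, 7/1000⟩, ⟨0, 0, false, 441/500, 521/1000, 1/500⟩, ⟨0, 0, false, 189/250,
    121/200, 9/1000⟩, ⟨0, 0, true, 189/250, 597/1000, 9/1000⟩, ⟨0, 0, true, 189/250, 303/500,
    1/125⟩, ⟨0, 0, true, 189/250, 119/200, 1/125⟩, ⟨0, 1, true, 189/250, 151/250, 1/125⟩, ⟨0, 0,
    true, 189/250, 147/250, 7/1000⟩, ⟨0, 0, true, 189/250, 293/500, 7/1000⟩, ⟨0, 0, true,
    189/250, 73/125, 7/1000⟩, ⟨0, 0, true, 63/100, 667/1000, 9/500⟩],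
  [
    ⟨0, 0, false, 1659/1000, 87/1000, 87/1000⟩, ⟨0, 0, false, 1541/1000, 14/125, 2/25⟩, ⟨0, 0,
    false, 1541/1000, 27/250, 8/125⟩, ⟨0, 0, false, 711/500, 7/50, 37/500⟩, ⟨0, 0, false,
    711/500, 73/500, 13/250⟩, ⟨0, 0, false, 163/125, 189/1000, 27/500⟩, ⟨0, 0, false, 163/125,
    39/200, 7/200⟩, ⟨0, 0, false, 237/200, 123/500, 37/1000⟩, ⟨0, 0, false, 237/200, 127/500,
    21/1000⟩, ⟨0, 0, false, 1067/1000, 321/1000, 23/1000⟩, ⟨0, 1, false, 237/250, 203/500,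
    11/1000⟩, ⟨0, 0, false, 83/100, 93/200, 1/250⟩, ⟨0, 0, false, 83/100, 233/500, 1/250⟩, ⟨0, 1,
    false, 83/100, 19/40, 1/250⟩, ⟨0, 0, false, 711/1000, 541/1000, 11/1000⟩, ⟨0, 0, true,
    711/1000, 133/250, 11/1000⟩, ⟨0, 1, true, 711/1000, 27/50, 11/1000⟩, ⟨0, 0, true, 711/1000,
    21/40, 1/100⟩, ⟨0, 0, true, 711/1000, 523/1000, 1/100⟩, ⟨0, 0, true, 711/1000, 521/1000,
    9/1000⟩, ⟨0, 0, true, 711/1000, 519/1000, 1/100⟩],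
  [
    ⟨0, 0, false, 1443/1000, 99/1000, 99/1000⟩, ⟨0, 0, false, 1443/1000, 19/200, 81/1000⟩, ⟨0, 0,
    false, 333/250, 123/1000, 91/1000⟩, ⟨0, 0, false, 333/250, 129/1000, 67/1000⟩, ⟨0, 0, false,
    333/250, 33/250, 23/500⟩, ⟨0, 0, false, 1221/1000, 43/250, 47/1000⟩, ⟨0, 0, false, 1221/1000,
    22/125, 29/1000⟩, ⟨0, 0, false, 111/100, 28/125, 3/100⟩, ⟨0, 0, false, 111/100, 117/500,
    2/125⟩, ⟨0, 1, false, 111/125, 179/500, 17/1000⟩, ⟨0, 0, false, 777/1000, 41/100, 7/1000⟩,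
    ⟨0, 0, false, 777/1000, 411/1000, 7/1000⟩, ⟨0, 1, false, 777/1000, 419/1000, 3/500⟩, ⟨0, 0,
    false, 333/500, 477/1000, 3/200⟩, ⟨0, 0, true, 333/500, 469/1000, 7/500⟩, ⟨0, 0, true,
    333/500, 469/1000, 7/500⟩, ⟨0, 0, true, 333/500, 463/1000, 13/1000⟩, ⟨0, 0, true, 333/500,
    461/1000, 13/1000⟩, ⟨0, 0, true, 333/500, 459/1000, 13/1000⟩, ⟨0, 0, true, 333/500, 229/500,
    13/1000⟩],
  [
    ⟨0, 0, false, 697/500, 9/100, 9/100⟩, ⟨0, 1, false, 1287/1000, 119/1000, 49/500⟩, ⟨0, 0,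
    false, 1287/1000, 121/1000, 37/500⟩, ⟨0, 0, false, 59/50, 39/250, 37/500⟩, ⟨0, 0, false,
    59/50, 161/1000, 13/250⟩, ⟨0, 0, false, 59/50, 33/200, 17/500⟩, ⟨0, 0, false, 1073/1000,
    21/100, 17/500⟩, ⟨0, 0, false, 1073/1000, 11/50, 1/50⟩, ⟨0, 1, false, 193/200, 141/500,
    9/1000⟩, ⟨0, 1, false, 751/1000, 83/200, 1/125⟩, ⟨0, 1, false, 751/1000, 407/1000, 1/125⟩,
    ⟨0, 1, false, 751/1000, 393/1000, 1/125⟩, ⟨0, 0, false, 751/1000, 193/500, 7/1000⟩, ⟨0, 1,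
    false, 161/250, 56/125, 2/125⟩, ⟨0, 0, true, 161/250, 11/25, 2/125⟩, ⟨0, 0, true, 161/250,
    217/500, 3/200⟩, ⟨0, 0, true, 161/250, 54/125, 3/200⟩, ⟨0, 0, true, 161/250, 43/100, 7/500⟩,
    ⟨0, 0, true, 161/250, 429/1000, 7/500⟩],
  [
    ⟨0, 1, false, 673/500, 43/500, 83/1000⟩, ⟨0, 0, false, 621/500, 57/500, 83/1000⟩, ⟨0, 0,
    false, 621/500, 117/1000, 3/50⟩, ⟨0, 0, false, 1139/1000, 19/125, 59/1000⟩, ⟨0, 0, false,
    1139/1000, 39/250, 1/25⟩, ⟨0, 0, false, 207/200, 199/1000, 39/1000⟩, ⟨0, 0, false, 207/200,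
    26/125, 3/125⟩, ⟨0, 1, false, 233/250, 267/1000, 3/250⟩, ⟨0, 1, false, 181/250, 197/500,
    1/100⟩, ⟨0, 1, false, 181/250, 193/500, 1/100⟩, ⟨0, 1, false, 181/250, 373/1000, 1/100⟩, ⟨0,
    0, false, 181/250, 183/500, 9/1000⟩, ⟨0, 1, false, 621/1000, 53/125, 9/500⟩, ⟨0, 1, false,
    621/1000, 211/500, 9/500⟩, ⟨0, 0, true, 621/1000, 411/1000, 17/1000⟩, ⟨0, 0, true, 621/1000,
    409/1000, 17/1000⟩, ⟨0, 0, true, 621/1000, 407/1000, 2/125⟩, ⟨1, 0, true, 621/1000, 203/500,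
    17/1000⟩],
  [
    ⟨0, 0, false, 47/40, 13/125, 13/125⟩, ⟨0, 0, false, 47/40, 53/500, 39/500⟩, ⟨0, 0, false,
    47/40, 109/1000, 11/200⟩, ⟨0, 0, false, 1077/1000, 71/500, 53/1000⟩, ⟨0, 0, false, 49/50,
    181/1000, 51/1000⟩, ⟨0, 0, false, 49/50, 189/1000, 33/1000⟩, ⟨0, 1, false, 441/500, 243/1000,
    17/1000⟩, ⟨0, 0, false, 98/125, 283/1000, 3/500⟩, ⟨0, 0, false, 343/500, 83/250, 7/500⟩, ⟨0,
    0, false, 343/500, 327/1000, 7/500⟩, ⟨0, 0, false, 343/500, 333/1000, 13/1000⟩, ⟨0, 0, false,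
    147/250, 189/500, 23/1000⟩, ⟨0, 0, false, 147/250, 379/1000, 11/500⟩, ⟨0, 0, false, 147/250,
    373/1000, 11/500⟩, ⟨0, 0, true, 147/250, 93/250, 21/1000⟩, ⟨0, 0, true, 147/250, 371/1000,
    1/50⟩, ⟨0, 0, true, 147/250, 369/1000, 21/1000⟩],
  [
    ⟨0, 0, false, 1109/1000, 12/125, 12/125⟩, ⟨0, 0, false, 1109/1000, 99/1000, 7/100⟩, ⟨0, 0,
    false, 127/125, 16/125, 67/1000⟩, ⟨0, 0, false, 127/125, 133/1000, 23/500⟩, ⟨0, 0, false,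
    231/250, 171/1000, 11/250⟩, ⟨0, 1, false, 104/125, 11/50, 3/125⟩, ⟨0, 0, false, 739/1000,
    32/125, 1/100⟩, ⟨0, 0, false, 647/1000, 3/10, 19/1000⟩, ⟨0, 0, false, 647/1000, 37/125,
    9/500⟩, ⟨0, 0, false, 647/1000, 301/1000, 17/1000⟩, ⟨0, 0, false, 647/1000, 59/200, 17/1000⟩,
    ⟨0, 0, false, 647/1000, 59/200, 2/125⟩, ⟨0, 0, false, 277/500, 169/500, 13/500⟩, ⟨0, 0,
    false, 277/500, 337/1000, 13/500⟩, ⟨0, 0, true, 277/500, 67/200, 1/40⟩, ⟨0, 0, true, 277/500,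
    167/500, 1/40⟩],
  [
    ⟨0, 0, false, 521/500, 89/1000, 89/1000⟩, ⟨0, 0, false, 521/500, 91/1000, 8/125⟩, ⟨0, 0,
    false, 191/200, 119/1000, 59/1000⟩, ⟨0, 0, false, 191/200, 1/8, 1/25⟩, ⟨0, 1, false, 391/500,
    99/500, 4/125⟩, ⟨0, 0, false, 139/200, 23/100, 3/200⟩, ⟨0, 0, false, 139/200, 23/100, 7/500⟩,
    ⟨0, 0, false, 76/125, 133/500, 23/1000⟩, ⟨0, 0, false, 76/125, 271/1000, 23/1000⟩, ⟨0, 0,
    false, 76/125, 53/200, 11/500⟩, ⟨0, 0, false, 76/125, 53/200, 21/1000⟩, ⟨0, 0, false, 76/125,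
    131/500, 1/50⟩, ⟨0, 0, false, 521/1000, 151/500, 31/1000⟩, ⟨0, 0, false, 521/1000, 301/1000,
    3/100⟩, ⟨0, 0, true, 76/125, 259/1000, 19/1000⟩],
  [
    ⟨0, 0, false, 122/125, 81/1000, 81/1000⟩, ⟨0, 0, false, 447/500, 53/500, 3/40⟩, ⟨0, 0, false,
    447/500, 111/1000, 13/250⟩, ⟨0, 1, false, 813/1000, 73/500, 7/250⟩, ⟨0, 0, false, 13/20,
    41/200, 1/50⟩, ⟨0, 0, false, 13/20, 41/200, 19/1000⟩, ⟨0, 0, false, 13/20, 101/500, 19/1000⟩,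
    ⟨0, 0, false, 13/20, 103/500, 9/500⟩, ⟨0, 0, false, 569/1000, 59/250, 7/250⟩, ⟨0, 0, false,
    569/1000, 237/1000, 27/1000⟩, ⟨0, 0, false, 569/1000, 233/1000, 13/500⟩, ⟨0, 0, false,
    569/1000, 29/125, 1/40⟩, ⟨0, 0, false, 569/1000, 231/1000, 3/125⟩, ⟨0, 0, true, 61/125,
    267/1000, 9/250⟩],
  [
    ⟨0, 0, false, 909/1000, 37/500, 37/500⟩, ⟨0, 0, false, 833/1000, 49/500, 17/250⟩, ⟨0, 0,
    false, 379/500, 63/500, 39/1000⟩, ⟨0, 0, false, 303/500, 181/1000, 27/1000⟩, ⟨0, 0, false,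
    303/500, 181/1000, 13/500⟩, ⟨0, 0, false, 303/500, 179/1000, 1/40⟩, ⟨0, 0, false, 303/500,
    91/500, 3/125⟩, ⟨0, 0, false, 303/500, 89/500, 23/1000⟩, ⟨0, 0, false, 53/100, 209/1000,
    33/1000⟩, ⟨0, 0, false, 53/100, 103/500, 4/125⟩, ⟨0, 0, false, 53/100, 41/200, 31/1000⟩, ⟨0,
    0, false, 53/100, 51/250, 3/100⟩, ⟨0, 0, false, 53/100, 203/1000, 31/1000⟩],
  [
    ⟨0, 0, false, 421/500, 69/1000, 69/1000⟩, ⟨0, 1, false, 193/250, 93/1000, 19/500⟩, ⟨0, 0,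
    false, 79/125, 27/200, 1/40⟩, ⟨0, 0, false, 281/500, 161/1000, 7/200⟩, ⟨0, 0, false, 281/500,
    159/1000, 33/1000⟩, ⟨0, 0, false, 281/500, 81/500, 4/125⟩, ⟨0, 0, false, 281/500, 79/500,
    31/1000⟩, ⟨0, 0, false, 281/500, 79/500, 3/100⟩, ⟨0, 0, false, 491/1000, 183/1000, 1/25⟩, ⟨0,
    0, false, 491/1000, 183/1000, 39/1000⟩, ⟨0, 0, false, 491/1000, 91/500, 19/500⟩, ⟨0, 0,
    false, 491/1000, 181/1000, 39/1000⟩],
  [
    ⟨0, 1, false, 13/20, 69/1000, 67/1000⟩, ⟨1, 0, false, 133/250, 1/10, 9/200⟩, ⟨1, 0, false,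
    133/250, 1/10, 43/1000⟩, ⟨0, 1, false, 133/250, 51/500, 1/25⟩, ⟨1, 0, false, 473/1000,
    119/1000, 51/1000⟩, ⟨1, 0, false, 473/1000, 29/250, 49/1000⟩, ⟨0, 1, false, 473/1000,
    119/1000, 47/1000⟩, ⟨1, 0, false, 473/1000, 23/200, 23/500⟩, ⟨1, 0, false, 473/1000, 57/500,
    11/250⟩, ⟨1, 0, false, 207/500, 133/1000, 27/500⟩, ⟨1, 0, false, 473/1000, 113/1000, 11/250⟩],
  [
    ⟨0, 1, false, 54/125, 9/125, 33/500⟩, ⟨0, 1, false, 54/125, 71/1000, 8/125⟩, ⟨0, 1, false,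
    54/125, 17/250, 61/1000⟩, ⟨0, 0, false, 48/125, 79/1000, 7/100⟩, ⟨0, 1, false, 54/125,
    33/500, 57/1000⟩, ⟨0, 1, false, 48/125, 39/500, 13/200⟩, ⟨0, 0, false, 48/125, 19/250,
    63/1000⟩, ⟨0, 0, false, 48/125, 19/250, 61/1000⟩, ⟨0, 0, false, 48/125, 3/40, 59/1000⟩, ⟨0,
    0, false, 48/125, 3/40, 61/1000⟩],
  [
    ⟨0, 0, false, 431/1000, 8/125, 8/125⟩, ⟨0, 1, false, 431/1000, 13/200, 61/1000⟩, ⟨0, 0,
    false, 383/1000, 19/250, 7/100⟩, ⟨0, 1, false, 383/1000, 19/250, 17/250⟩, ⟨0, 1, false,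
    67/200, 89/1000, 77/1000⟩, ⟨0, 0, false, 383/1000, 73/1000, 8/125⟩, ⟨0, 0, false, 383/1000,
    73/1000, 61/1000⟩, ⟨0, 0, false, 67/200, 17/200, 7/100⟩, ⟨0, 0, false, 383/1000, 9/125,
    61/1000⟩],
  [
    ⟨0, 1, false, 191/500, 3/40, 9/125⟩, ⟨1, 0, false, 191/500, 37/500, 9/125⟩, ⟨1, 0, false,
    191/500, 9/125, 7/100⟩, ⟨0, 1, false, 191/500, 73/1000, 13/200⟩, ⟨1, 0, false, 67/200,
    83/1000, 19/250⟩, ⟨1, 0, false, 67/200, 83/1000, 37/500⟩, ⟨1, 0, false, 67/200, 41/500,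
    71/1000⟩, ⟨1, 0, false, 191/500, 7/100, 63/1000⟩],
  [
    ⟨0, 0, false, 167/500, 83/1000, 83/1000⟩, ⟨0, 0, false, 191/500, 69/1000, 17/250⟩, ⟨0, 0,
    false, 191/500, 7/100, 33/500⟩, ⟨0, 0, false, 167/500, 2/25, 3/40⟩, ⟨0, 0, false, 143/500,
    93/1000, 21/250⟩, ⟨0, 0, false, 167/500, 2/25, 7/100⟩, ⟨0, 0, false, 167/500, 79/1000,
    73/1000⟩],
  [
    ⟨0, 1, false, 333/1000, 81/1000, 79/1000⟩, ⟨0, 1, false, 333/1000, 2/25, 19/250⟩, ⟨1, 0,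
    false, 333/1000, 39/500, 3/40⟩, ⟨1, 0, false, 143/500, 9/100, 21/250⟩, ⟨1, 0, false, 143/500,
    89/1000, 41/500⟩, ⟨1, 0, false, 333/1000, 77/1000, 73/1000⟩],
  [
    ⟨0, 0, false, 83/250, 77/1000, 77/1000⟩, ⟨1, 0, false, 83/250, 19/250, 3/40⟩, ⟨1, 0, false,
    57/200, 87/1000, 21/250⟩, ⟨1, 0, false, 57/200, 87/1000, 41/500⟩, ⟨1, 0, false, 83/250, 3/40,
    73/1000⟩],
  [
    ⟨0, 0, false, 71/250, 17/200, 17/200⟩, ⟨0, 0, false, 71/250, 17/200, 41/500⟩, ⟨0, 0, false,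
    71/250, 21/250, 2/25⟩, ⟨0, 0, false, 83/250, 9/125, 71/1000⟩],
  [
    ⟨0, 0, false, 71/250, 41/500, 41/500⟩, ⟨0, 0, false, 237/1000, 47/500, 91/1000⟩, ⟨0, 0,
    false, 71/250, 81/1000, 41/500⟩],
  [
    ⟨0, 0, false, 59/250, 91/1000, 91/1000⟩, ⟨0, 0, false, 283/1000, 79/1000, 41/500⟩],
  [
    ⟨0, 0, false, 283/1000, 41/500, 41/500⟩]]

def nI : ℕ := 30

def kn (i : ℕ) : ℚ := knL.getD i 0
def cfI (i : ℕ) : Cf :=
  if kn (i + 1) ≤ 1 then cfp1 else if kn (i + 1) ≤ 3 / 2 then cfp2 else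
    if kn (i + 1) ≤ 2 then cfp3 else cfp4
def ivI (i : ℕ) : Iv := ⟨cfI i, kn i, kn (i + 1)⟩
def vsI (i j : ℕ) : Vq := (vsL.getD i []).getD j ⟨0, 0, 0, 0, 0, 0, 0, 0⟩
def psI (i j : ℕ) : Pq := (psL.getD i []).getD (j - i) ⟨0, 0, false, 0, 0, 0⟩

/-- the knots are increasing and contain the knots of the pieces -/
def knB : Bool :=
  (List.range nI).all fun i => (List.range nI).all fun j =>
    decide (j < i → kn (j + 1) ≤ kn i) && (decide (kn (i + 1) ≤ 1) || decide (1 ≤ kn i)) &&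
      (decide (kn (i + 1) ≤ 3 / 2) || decide (3 / 2 ≤ kn i)) &&
      (decide (kn (i + 1) ≤ 2) || decide (2 ≤ kn i)) && decide (kn (i + 1) ≤ 3)

def verAllB : Bool :=
  (List.range nI).all fun i => (List.range 4).all fun v =>
    decide ((vsL.getD i []).length ≤ v) || verB (ivI i) (vsI i v)

def pairIB (i : ℕ) : Bool :=
  (List.range nI).all fun j => decide (j < i) ||
    (decide ((psI i j).vi < (vsL.getD i []).length) && decide ((psI i j).vi < 4) &&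
      decide ((psI i j).vj < (vsL.getD j []).length) && decide ((psI i j).vj < 4) &&
      pairB (ivI i) (ivI j) (vsI i (psI i j).vi) (vsI j (psI i j).vj) (psI i j))

theorem knB_ok : knB = true := by decide +kernel

theorem verAllB_ok : verAllB = true := by decide +kernel

theorem pairs_0 : (List.range 3).all (fun i => pairIB (i + 0)) = true := by
  decide +kernel

theorem pairs_3 : (List.range 3).all (fun i => pairIB (i + 3)) = true := by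
  decide +kernel

theorem pairs_6 : (List.range 3).all (fun i => pairIB (i + 6)) = true := by
  decide +kernel

theorem pairs_9 : (List.range 3).all (fun i => pairIB (i + 9)) = true := by
  decide +kernel

theorem pairs_12 : (List.range 3).all (fun i => pairIB (i + 12)) = true := by
  decide +kernel

theorem pairs_15 : (List.range 3).all (fun i => pairIB (i + 15)) = true := by
  decide +kernel

theorem pairs_18 : (List.range 3).all (fun i => pairIB (i + 18)) = true := by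
  decide +kernel

theorem pairs_21 : (List.range 3).all (fun i => pairIB (i + 21)) = true := by
  decide +kernel

theorem pairs_24 : (List.range 3).all (fun i => pairIB (i + 24)) = true := by
  decide +kernel

theorem pairs_27 : (List.range 3).all (fun i => pairIB (i + 27)) = true := by
  decide +kernel

theorem pairIB_ok {i : ℕ} (hi : i < nI) : pairIB i = true := by
  unfold nI at hi
  have h : (0 ≤ i ∧ i < 3) ∨ True := Or.inr trivial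
  clear h
  rcases lt_or_ge i 3 with h0 | h0
  · have := List.all_eq_true.1 pairs_0 (i - 0) (List.mem_range.2 (by omega))
    rwa [Nat.sub_add_cancel (by omega)] at this
  rcases lt_or_ge i 6 with h1 | h1
  · have := List.all_eq_true.1 pairs_3 (i - 3) (List.mem_range.2 (by omega))
    rwa [Nat.sub_add_cancel (by omega)] at this
  rcases lt_or_ge i 9 with h2 | h2
  · have := List.all_eq_true.1 pairs_6 (i - 6) (List.mem_range.2 (by omega))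
    rwa [Nat.sub_add_cancel (by omega)] at this
  rcases lt_or_ge i 12 with h3 | h3
  · have := List.all_eq_true.1 pairs_9 (i - 9) (List.mem_range.2 (by omega))
    rwa [Nat.sub_add_cancel (by omega)] at this
  rcases lt_or_ge i 15 with h4 | h4
  · have := List.all_eq_true.1 pairs_12 (i - 12) (List.mem_range.2 (by omega))
    rwa [Nat.sub_add_cancel (by omega)] at this
  rcases lt_or_ge i 18 with h5 | h5
  · have := List.all_eq_true.1 pairs_15 (i - 15) (List.mem_range.2 (by omega))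
    rwa [Nat.sub_add_cancel (by omega)] at this
  rcases lt_or_ge i 21 with h6 | h6
  · have := List.all_eq_true.1 pairs_18 (i - 18) (List.mem_range.2 (by omega))
    rwa [Nat.sub_add_cancel (by omega)] at this
  rcases lt_or_ge i 24 with h7 | h7
  · have := List.all_eq_true.1 pairs_21 (i - 21) (List.mem_range.2 (by omega))
    rwa [Nat.sub_add_cancel (by omega)] at this
  rcases lt_or_ge i 27 with h8 | h8
  · have := List.all_eq_true.1 pairs_24 (i - 24) (List.mem_range.2 (by omega))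
    rwa [Nat.sub_add_cancel (by omega)] at this
  have := List.all_eq_true.1 pairs_27 (i - 27) (List.mem_range.2 (by omega))
  rwa [Nat.sub_add_cancel (by omega)] at this

theorem kn_facts {i : ℕ} (hi : i < nI) : (kn (i + 1) ≤ 1 ∨ 1 ≤ kn i) ∧
    (kn (i + 1) ≤ 3 / 2 ∨ 3 / 2 ≤ kn i) ∧ (kn (i + 1) ≤ 2 ∨ 2 ≤ kn i) ∧ kn (i + 1) ≤ 3 := by
  have h := List.all_eq_true.1 knB_ok i (List.mem_range.2 hi)
  have h2 := List.all_eq_true.1 h i (List.mem_range.2 hi)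
  simp only [Bool.and_eq_true, Bool.or_eq_true, decide_eq_true_eq] at h2
  exact ⟨h2.1.1.1.2, h2.1.1.2, h2.1.2, h2.2⟩

theorem kn_mono {i j : ℕ} (hi : i < nI) (hj : j < nI) (h : j < i) : kn (j + 1) ≤ kn i := by
  have h1 := List.all_eq_true.1 knB_ok i (List.mem_range.2 hi)
  have h2 := List.all_eq_true.1 h1 j (List.mem_range.2 hj)
  simp only [Bool.and_eq_true, Bool.or_eq_true, decide_eq_true_eq] at h2
  exact h2.1.1.1.1 h

theorem Lz_cfI {i : ℕ} (hi : i < nI) {R : ℝ} (h1 : (kn i : ℝ) ≤ R) (h2 : R ≤ (kn (i + 1) : ℝ))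
    (h3 : R < 3) : Lz R = (cfI i).L R := by
  obtain ⟨f1, f2, f3, f4⟩ := kn_facts hi
  unfold cfI
  split_ifs with c1 c2 c3
  · have : R ≤ 1 := h2.trans (by exact_mod_cast c1)
    rw [Lz_one this]
    simp only [Lp1, Cf.L, cfp1, mkL, LF.mk.injEq]
    push_cast
    refine ⟨?_, ?_, ?_, ?_, ?_, ?_⟩ <;> ring
  · have a1 : (1 : ℚ) ≤ kn i := f1.resolve_left c1
    have b1 : (1 : ℝ) ≤ R := le_trans (by exact_mod_cast a1) h1
    have b2 : R ≤ 3 / 2 := h2.trans (by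
      have := (Rat.cast_le (K := ℝ)).2 c2
      push_cast at this
      exact this)
    rw [Lz_two b1 b2]
    simp only [Lp2, Cf.L, cfp2, mkL, LF.mk.injEq]
    push_cast
    refine ⟨?_, ?_, ?_, ?_, ?_, ?_⟩ <;> ring
  · have a1 : (3 / 2 : ℚ) ≤ kn i := f2.resolve_left c2
    have b1 : (3 / 2 : ℝ) ≤ R := le_trans (by
      have := (Rat.cast_le (K := ℝ)).2 a1
      push_cast at this
      exact this) h1
    have b2 : R ≤ 2 := h2.trans (by exact_mod_cast c3)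
    rw [Lz_three b1 b2]
    simp only [Lp3, Cf.L, cfp3, mkL, LF.mk.injEq]
    push_cast
    refine ⟨?_, ?_, ?_, ?_, ?_, ?_⟩ <;> ring
  · have a1 : (2 : ℚ) ≤ kn i := f3.resolve_left c3
    have b1 : (2 : ℝ) ≤ R := le_trans (by exact_mod_cast a1) h1
    rw [Lz_four b1 h3]
    simp only [Lp4, Cf.L, cfp4, mkL, LF.mk.injEq]
    push_cast
    refine ⟨?_, ?_, ?_, ?_, ?_, ?_⟩ <;> ring

/-- every radius is in an interval -/
theorem cover {R : ℝ} (h0 : 0 < R) (h3 : R < 3) :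
    ∃ i < nI, (kn i : ℝ) < R ∧ R ≤ (kn (i + 1) : ℝ) := by
  have e3 : kn nI = 3 := by decide +kernel
  have e0 : kn 0 = 0 := by decide +kernel
  have key : ∀ n : ℕ, R ≤ (kn n : ℝ) → ∃ i < n, (kn i : ℝ) < R ∧ R ≤ (kn (i + 1) : ℝ) := by
    intro n
    induction n with
    | zero =>
      intro h
      rw [e0] at h
      push_cast at h
      linarith
    | succ n ih =>
      intro h
      rcases le_or_gt R (kn n : ℝ) with h' | h'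
      · obtain ⟨i, hi, h1, h2⟩ := ih h'
        exact ⟨i, by omega, h1, h2⟩
      · exact ⟨n, by omega, h', h⟩
  apply key
  rw [e3]
  push_cast
  exact h3.le

/-- **small angles** -/
theorem slab_main {Rj Rk θ : ℝ} (hj : 0 < Rj) (hjk : Rj ≤ Rk) (hk : Rk < 3) (h0 : 0 < θ)
    (h1 : θ ≤ π / 8) : RPair Fz g0z g1z g2z Rj Rk θ (cos θ) := by
  have hk0 : 0 < Rk := hj.trans_le hjk
  have hj3 : Rj < 3 := hjk.trans_lt hk
  obtain ⟨i, hi, i1, i2⟩ := cover hj hj3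
  obtain ⟨j, hj', j1, j2⟩ := cover hk0 hk
  have hij : i ≤ j := by
    by_contra hlt
    have := kn_mono hi hj' (not_le.1 hlt)
    have : (kn (j + 1) : ℝ) ≤ kn i := by exact_mod_cast this
    linarith
  have hp := List.all_eq_true.1 (pairIB_ok hi) j (List.mem_range.2 hj')
  simp only [Bool.and_eq_true, Bool.or_eq_true, decide_eq_true_eq] at hp
  have hp2 := hp.resolve_left (by omega)
  obtain ⟨⟨⟨⟨a1, a2⟩, a3⟩, a4⟩, a5⟩ := hp2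
  have hv : ∀ {i v : ℕ}, i < nI → v < 4 → v < (vsL.getD i []).length →
      verB (ivI i) (vsI i v) = true := by
    intro i v hi hv hl
    have h := List.all_eq_true.1 verAllB_ok i (List.mem_range.2 hi)
    have h2 := List.all_eq_true.1 h v (List.mem_range.2 hv)
    simp only [Bool.or_eq_true, decide_eq_true_eq] at h2
    exact h2.resolve_left (by omega)
  exact pair_sound (I := ivI i) (J := ivI j) (hv hi a2 a1) (hv hj' a4 a3) a5 hj i1.le i2 hj3 hk0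
    j1.le j2 hk (Lz_cfI hi i1.le i2 hj3) (Lz_cfI hj' j1.le j2 hk) h0 h1

end Pool.Agent.RRS
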