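import Pool.Agent.RRS.TailPW

/-!
# Both norms at least three

The certificate separates: `α = 2 - v_j - v_k`, `β = v_j`, `γ = v_k` and
`H = η_j x² + η_k y²`, `v = 1 / R`, `η = v² / (4 (2 - v))`.
-/

set_option autoImplicit false

noncomputable section

namespace Pool.Agent.RRS

open Real

/-- the inequality of one type -/
theorem one_type {v m x s : ℝ} (hv : 0 ≤ v) (hv2 : v < 2) (hm : 0 ≤ m) (s0 : 0 ≤ s) (s1 : s ≤ 1)
    (hs : 0 < s → m ≤ x) :
    0 ≤ (2 - v) * m ^ 2 - 2 * s * m ^ 2 + v * (x * m) + v ^ 2 / (4 * (2 - v)) * x ^ 2 := by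
  have h2 : 0 < 2 - v := by linarith
  rcases s0.eq_or_lt with h | h
  · have e : (2 - v) * m ^ 2 - 2 * s * m ^ 2 + v * (x * m) + v ^ 2 / (4 * (2 - v)) * x ^ 2 =
        (2 * (2 - v) * m + v * x) ^ 2 / (4 * (2 - v)) := by
      rw [← h]
      field_simp
      ring
    rw [e]
    positivity
  · have h3 : m ^ 2 ≤ x * m := by nlinarith [hs h]
    have h4 : 0 ≤ v ^ 2 / (4 * (2 - v)) * x ^ 2 := by positivity
    have h5 := mul_le_mul_of_nonneg_left h3 hv
    have h6 := mul_nonneg (sub_nonneg.2 s1) (sq_nonneg m)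
    nlinarith

/-- the scalar inequality of one type -/
theorem one_scalar {R : ℝ} (hR : 3 ≤ R) :
    1 / (2 * (1 / R)) + 1 / R * (1 + R ^ 2) / 2 + (1 - 1 / R) +
      (1 / R) ^ 2 / (4 * (2 - 1 / R)) * R ^ 2 ≤ √2 * R := by
  have h0 : 0 < R := by linarith
  have h1 : 1 / R ≤ 1 / 3 := one_div_le_one_div_of_le (by norm_num) hR
  have h2 : 0 < 1 / R := by positivity
  have e : (1 / R) ^ 2 / (4 * (2 - 1 / R)) * R ^ 2 = 1 / (4 * (2 - 1 / R)) := by
    have : (0 : ℝ) < 2 - 1 / R := by linarith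
    field_simp
  have h3 : 1 / (4 * (2 - 1 / R)) ≤ 3 / 20 := by
    rw [div_le_div_iff₀ (by linarith) (by norm_num)]
    linarith
  have e2 : 1 / (2 * (1 / R)) + 1 / R * (1 + R ^ 2) / 2 = R + 1 / R / 2 := by
    field_simp
    ring
  have h4 : (1.4 : ℝ) < √2 := by
    rw [Real.lt_sqrt (by norm_num)]
    norm_num
  rw [e, e2]
  nlinarith

/-- **both norms at least three** -/
theorem tail_both {Rj Rk θ c : ℝ} (hj : 3 ≤ Rj) (hk : 3 ≤ Rk) :
    RPair Fz g0z g1z g2z Rj Rk θ c := by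
  have hj0 : 0 < Rj := by linarith
  have hk0 : 0 < Rk := by linarith
  have vj : 1 / Rj ≤ 1 / 3 := one_div_le_one_div_of_le (by norm_num) hj
  have vk : 1 / Rk ≤ 1 / 3 := one_div_le_one_div_of_le (by norm_num) hk
  have vj0 : 0 < 1 / Rj := by positivity
  have vk0 : 0 < 1 / Rk := by positivity
  have hH : HomBd fun x y => (1 / Rj) ^ 2 / (4 * (2 - 1 / Rj)) * x ^ 2 +
      (1 / Rk) ^ 2 / (4 * (2 - 1 / Rk)) * y ^ 2 :=
    (homBd_sq_left.const_mul _).add (homBd_sq_left.symm.const_mul _)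
  refine ⟨2 - 1 / Rj - 1 / Rk, 1 / Rj, 1 / Rk, _, vj0, vk0, hH, ?_, ?_⟩
  · intro m x y s t hm s0 s1 t0 t1 a1 a2 a3 a4
    have f1 : Fz Rj = Ls.F := by
      unfold Fz
      rw [Lz_five hj]
    have f2 : Fz Rk = Ls.F := by
      unfold Fz
      rw [Lz_five hk]
    rw [f1, f2, Ls_F, Ls_F, g1z_ge hj, g1z_ge hk]
    have k1 := one_type vj0.le (by linarith) hm s0 s1 a1
    have k2 := one_type vk0.le (by linarith) hm t0 t1 a3
    linarith
  · rw [g2z_ge hj, g2z_ge hk, g0z_ge hj, g0z_ge hk]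
    have e := avgP_add (homBd_sq_left.const_mul ((1 / Rj) ^ 2 / (4 * (2 - 1 / Rj))))
      (homBd_sq_left.symm.const_mul ((1 / Rk) ^ 2 / (4 * (2 - 1 / Rk)))) Rj Rk θ
    rw [e, avgP_const_mul, avgP_const_mul, avgP_sq_left, avgP_sq_right]
    have k1 := one_scalar hj
    have k2 := one_scalar hk
    have z : ∀ w : ℝ, (1 - 0 * c) ^ 2 / (2 * w) = 1 / (2 * w) := by
      intro w
      norm_num
    rw [z, z]
    linarith

end Pool.Agent.RRS
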