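import Pool.Agent.RRS.ZeroLine

/-!
# The zero type: the certificates
-/

set_option autoImplicit false

noncomputable section

namespace Pool.Agent.RRS

open Real

/-- the certificate `h = 0`, `a = -V` -/
theorem ZC_V {K : LF} {V : ℝ} (h1 : K.b0 - K.a0 ≤ 2 * V)
    (h2 : 2 * V ≤ 103 / 50 + K.b0 + K.zp - K.a1) (h3 : V ≤ K.b0)
    (h4 : 4 * V ≤ 103 / 50 + K.b1 - K.a1 + 2 * K.b0) :
    ZC K (-(K.a1 - K.b0 - 103 / 100) + 2 * -V) (2 * V - K.b0) (2 * 0) := by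
  refine ⟨fun r r0 r1 => ?_, ⟨by linarith, fun r hr => ?_⟩, fun r r0 r1 => ?_,
    ⟨by linarith, fun r hr => ?_⟩⟩
  · have e : (K.a1 - K.a0 - 103 / 100 + (-(K.a1 - K.b0 - 103 / 100) + 2 * -V)) * r ^ 2 +
        (K.a0 + (2 * V - K.b0)) * r + 2 * 0 = (2 * V - (K.b0 - K.a0)) * (r * (1 - r)) := by ring
    rw [e]
    exact mul_nonneg (by linarith) (mul_nonneg r0 (sub_nonneg.2 r1))
  · have e : (103 / 100 + K.zp + (-(K.a1 - K.b0 - 103 / 100) + 2 * -V)) * r ^ 2 +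
        (K.a1 - K.zp + (2 * V - K.b0)) * r + 2 * 0 =
        (103 / 50 + K.b0 + K.zp - K.a1 - 2 * V) * (r * (r - 1)) + 103 / 50 * r := by ring
    rw [e]
    have := mul_nonneg (sub_nonneg.2 h2) (mul_nonneg (zero_le_one.trans hr) (sub_nonneg.2 hr))
    linarith
  · have e : (103 / 100 + K.b1 - K.b0 + (-(K.a1 - K.b0 - 103 / 100) + 2 * -V)) * r ^ 2 +
        (K.b0 - (2 * V - K.b0)) * r + 2 * 0 =
        2 * (K.b0 - V) * (r * (1 - r)) + (103 / 50 + K.b1 - K.a1 + 2 * K.b0 - 4 * V) * r ^ 2 := by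
      ring
    rw [e]
    have a1 := mul_nonneg (sub_nonneg.2 h3) (mul_nonneg r0 (sub_nonneg.2 r1))
    have a2 := mul_nonneg (sub_nonneg.2 h4) (sq_nonneg r)
    linarith
  · have e : (103 / 100 + K.zp + (-(K.a1 - K.b0 - 103 / 100) + 2 * -V)) * r ^ 2 +
        (K.b1 - K.zp - (2 * V - K.b0)) * r + 2 * 0 =
        (103 / 50 + K.b0 + K.zp - K.a1 - 2 * V) * (r * (r - 1)) +
          (103 / 50 + K.b1 - K.a1 + 2 * K.b0 - 4 * V) * r := by ring
    rw [e]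
    have a1 := mul_nonneg (sub_nonneg.2 h2) (mul_nonneg (zero_le_one.trans hr) (sub_nonneg.2 hr))
    have a2 := mul_nonneg (sub_nonneg.2 h4) (zero_le_one.trans hr)
    linarith

/-- the pair inequality from the certificate `V` -/
theorem zero_V {R θ c V : ℝ} (hR : 0 ≤ R) (hR3 : R < 3) (hc : -1 ≤ c) (hc1 : c < 1)
    (hV : 0 < V) (h1 : (Lz R).b0 - (Lz R).a0 ≤ 2 * V)
    (h2 : 2 * V < 103 / 50 + (Lz R).b0 + (Lz R).zp - (Lz R).a1) (h3 : V ≤ (Lz R).b0)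
    (h4 : 4 * V ≤ 103 / 50 + (Lz R).b1 - (Lz R).a1 + 2 * (Lz R).b0)
    (hS : 1 + V ^ 2 * (R ^ 2 - 1) ≤ 2 * V * (√2 * R - 1)) :
    RPair Fz g0z g1z g2z 0 R θ c := by
  refine zero_of_cert (V := V) (a := -V) (h := 0) hR hR3 hc hc1 hV (ZC_V h1 h2.le h3 h4)
    (by linarith) ?_
  have e : 1 + 1 / (2 * V) + V * (1 + R ^ 2) / 2 + -V + 0 * R ^ 2 =
      1 + (1 + V ^ 2 * (R ^ 2 - 1)) / (2 * V) := by
    field_simp
    ring
  rw [e]
  have h5 : (1 + V ^ 2 * (R ^ 2 - 1)) / (2 * V) ≤ √2 * R - 1 := by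
    rw [div_le_iff₀ (by positivity)]
    linarith
  linarith

/-- the scalar inequality with a rational bound of `√2` -/
theorem zero_VQ {R θ c V : ℝ} (hR : 0 ≤ R) (hR3 : R < 3) (hc : -1 ≤ c) (hc1 : c < 1)
    (hV : 0 < V) (h1 : (Lz R).b0 - (Lz R).a0 ≤ 2 * V)
    (h2 : 2 * V < 103 / 50 + (Lz R).b0 + (Lz R).zp - (Lz R).a1) (h3 : V ≤ (Lz R).b0)
    (h4 : 4 * V ≤ 103 / 50 + (Lz R).b1 - (Lz R).a1 + 2 * (Lz R).b0)
    (hS : 1 + V ^ 2 * (R ^ 2 - 1) ≤ 2 * V * (141421 / 100000 * R - 1)) :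
    RPair Fz g0z g1z g2z 0 R θ c := by
  refine zero_V hR hR3 hc hc1 hV h1 h2 h3 h4 (hS.trans ?_)
  have h5 : (141421 : ℝ) / 100000 < √2 := by
    rw [Real.lt_sqrt (by norm_num)]
    norm_num
  have h6 : 141421 / 100000 * R ≤ √2 * R := mul_le_mul_of_nonneg_right h5.le hR
  exact mul_le_mul_of_nonneg_left (by linarith) (by linarith)

theorem zero_1 {R θ c : ℝ} (hR : 0 ≤ R) (hR1 : R ≤ 1 / 2) (hc : -1 ≤ c) (hc1 : c < 1) :
    RPair Fz g0z g1z g2z 0 R θ c := by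
  have hL : Lz R = Lp1 R := Lz_one (by linarith)
  have h5 : (141421 : ℝ) / 100000 < √2 := by
    rw [Real.lt_sqrt (by norm_num)]
    norm_num
  have h6 : 141421 / 100000 * R ≤ √2 * R := mul_le_mul_of_nonneg_right h5.le hR
  have hRR : R * R ≤ 1 / 2 * R := mul_le_mul_of_nonneg_right hR1 hR
  refine zero_of_cert (V := 1) (a := -(205 / 100) + 66 / 100 * R) (h := 106 / 100) hR
    (by linarith) hc hc1 one_pos ?_ ?_ ?_
  · rw [hL]
    unfold Lp1 mkL
    refine ⟨fun r r0 r1 => ?_, ⟨?_, fun r hr => ?_⟩, fun r r0 r1 => ?_, ⟨?_, fun r hr => ?_⟩⟩ <;>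
      dsimp only
    · have e : (103 / 100 + 1 / 100 * R - -(1 / 2) * R - 103 / 100 +
          (-(103 / 100 + 1 / 100 * R - (206 / 100 - 65 / 100 * R) - 103 / 100) +
          2 * (-(205 / 100) + 66 / 100 * R))) * r ^ 2 +
          (-(1 / 2) * R + (2 * 1 - (206 / 100 - 65 / 100 * R))) * r + 2 * (106 / 100) =
          (204 / 100 - 117 / 100 * R) * (1 - r) * (1 + r) + (6 / 100 - 15 / 100 * R) * (1 - r) +
            (2 / 100 + 132 / 100 * R) := by ring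
      rw [e]
      have a1 : 0 ≤ (204 / 100 - 117 / 100 * R) * (1 - r) * (1 + r) :=
        mul_nonneg (mul_nonneg (by linarith) (by linarith)) (by linarith)
      nlinarith [mul_nonneg hR (sub_nonneg.2 r1)]
    · linarith
    · have e : (103 / 100 + (103 / 100 - 66 / 100 * R) +
          (-(103 / 100 + 1 / 100 * R - (206 / 100 - 65 / 100 * R) - 103 / 100) +
          2 * (-(205 / 100) + 66 / 100 * R))) * r ^ 2 +
          (103 / 100 + 1 / 100 * R - (103 / 100 - 66 / 100 * R) +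
          (2 * 1 - (206 / 100 - 65 / 100 * R))) * r + 2 * (106 / 100) =
          2 / 100 * r ^ 2 + (-(6 / 100) + 132 / 100 * R) * r + 212 / 100 := by ring
      rw [e]
      have a1 : 0 ≤ R * r := mul_nonneg hR (by linarith)
      nlinarith [sq_nonneg (r - 3 / 2)]
    · have e : (103 / 100 + (309 / 100 - 131 / 100 * R) - (206 / 100 - 65 / 100 * R) +
          (-(103 / 100 + 1 / 100 * R - (206 / 100 - 65 / 100 * R) - 103 / 100) +
          2 * (-(205 / 100) + 66 / 100 * R))) * r ^ 2 +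
          (206 / 100 - 65 / 100 * R - (2 * 1 - (206 / 100 - 65 / 100 * R))) * r +
          2 * (106 / 100) = 2 / 100 * r ^ 2 + (212 / 100 - 130 / 100 * R) * r + 212 / 100 := by ring
      rw [e]
      have a1 : 0 ≤ (212 / 100 - 130 / 100 * R) * r := mul_nonneg (by linarith) r0
      nlinarith [sq_nonneg r]
    · linarith
    · have e : (103 / 100 + (103 / 100 - 66 / 100 * R) +
          (-(103 / 100 + 1 / 100 * R - (206 / 100 - 65 / 100 * R) - 103 / 100) +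
          2 * (-(205 / 100) + 66 / 100 * R))) * r ^ 2 +
          (309 / 100 - 131 / 100 * R - (103 / 100 - 66 / 100 * R) -
          (2 * 1 - (206 / 100 - 65 / 100 * R))) * r + 2 * (106 / 100) =
          2 / 100 * r ^ 2 + (212 / 100 - 130 / 100 * R) * r + 212 / 100 := by ring
      rw [e]
      have a1 : 0 ≤ (212 / 100 - 130 / 100 * R) * r := mul_nonneg (by linarith) (by linarith)
      nlinarith [sq_nonneg r]
  · rw [hL]
    unfold Lp1 mkL
    dsimp only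
    linarith
  · nlinarith

theorem zero_2 {R θ c : ℝ} (hR : 1 / 2 ≤ R) (hR1 : R ≤ 1) (hc : -1 ≤ c) (hc1 : c < 1) :
    RPair Fz g0z g1z g2z 0 R θ c := by
  have hL : Lz R = Lp1 R := Lz_one hR1
  refine zero_VQ (V := 2055 / 1000 - 66 / 100 * R) (by linarith) (by linarith) hc hc1 (by linarith)
    ?_ ?_ ?_ ?_ ?_
  · rw [hL]; unfold Lp1 mkL; dsimp only; linarith
  · rw [hL]; unfold Lp1 mkL; dsimp only; linarith
  · rw [hL]; unfold Lp1 mkL; dsimp only; linarith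
  · rw [hL]; unfold Lp1 mkL; dsimp only; linarith
  · obtain ⟨t, ht⟩ : ∃ t, t = R - 1 / 2 := ⟨_, rfl⟩
    have hR' : R = 1 / 2 + t := by linarith
    have t0 : 0 ≤ t := by linarith
    have t1 : t ≤ 1 / 2 := by linarith
    rw [hR']
    nlinarith [mul_nonneg t0 (sub_nonneg.2 t1), mul_nonneg (mul_nonneg t0 t0) (sub_nonneg.2 t1),
      mul_nonneg t0 (sq_nonneg (t - 1 / 2)), mul_nonneg (mul_nonneg t0 t0) (sq_nonneg t),
      mul_nonneg (mul_nonneg t0 (mul_nonneg t0 t0)) (sub_nonneg.2 t1), sq_nonneg (t - 1 / 2)]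

theorem zero_3 {R θ c : ℝ} (hR : 1 ≤ R) (hR1 : R ≤ 7 / 5) (hc : -1 ≤ c) (hc1 : c < 1) :
    RPair Fz g0z g1z g2z 0 R θ c := by
  have hL : Lz R = Lp2 R := Lz_two hR (by linarith)
  refine zero_VQ (V := 2345 / 1000 - 95 / 100 * R) (by linarith) (by linarith) hc hc1 (by linarith)
    ?_ ?_ ?_ ?_ ?_
  · rw [hL]; unfold Lp2 mkL; dsimp only; linarith
  · rw [hL]; unfold Lp2 mkL; dsimp only; linarith
  · rw [hL]; unfold Lp2 mkL; dsimp only; linarith
  · rw [hL]; unfold Lp2 mkL; dsimp only; linarith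
  · obtain ⟨t, ht⟩ : ∃ t, t = 7 / 5 - R := ⟨_, rfl⟩
    have hR' : R = 7 / 5 - t := by linarith
    have t0 : 0 ≤ t := by linarith
    have t1 : t ≤ 2 / 5 := by linarith
    rw [hR']
    nlinarith [mul_nonneg t0 (sub_nonneg.2 t1), mul_nonneg (mul_nonneg t0 t0) (sub_nonneg.2 t1),
      mul_nonneg (mul_nonneg t0 (mul_nonneg t0 t0)) (sub_nonneg.2 t1), sq_nonneg t]

/-- the exact certificate -/
theorem zero_exact {R θ c S : ℝ} (hR : 1 < R) (hR3 : R < 3) (hc : -1 ≤ c) (hc1 : c < 1)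
    (hS0 : 0 < S) (hS : S ^ 2 = R ^ 2 - 1) (h1 : ((Lz R).b0 - (Lz R).a0) * S ≤ 2)
    (h2 : 2 < (103 / 50 + (Lz R).b0 + (Lz R).zp - (Lz R).a1) * S) (h3 : 1 ≤ (Lz R).b0 * S)
    (h4 : 4 ≤ (103 / 50 + (Lz R).b1 - (Lz R).a1 + 2 * (Lz R).b0) * S) :
    RPair Fz g0z g1z g2z 0 R θ c := by
  refine zero_V (V := 1 / S) (by linarith) hR3 hc hc1 (by positivity) ?_ ?_ ?_ ?_ ?_
  · rw [show 2 * (1 / S) = 2 / S by ring, le_div_iff₀ hS0]
    exact h1
  · rw [show 2 * (1 / S) = 2 / S by ring, div_lt_iff₀ hS0]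
    exact h2
  · rw [div_le_iff₀ hS0]
    exact h3
  · rw [show 4 * (1 / S) = 4 / S by ring, div_le_iff₀ hS0]
    exact h4
  · rw [← hS]
    have e : 1 + (1 / S) ^ 2 * S ^ 2 = 2 := by
      field_simp
      norm_num
    rw [e, show 2 * (1 / S) * (√2 * R - 1) = 2 * (√2 * R - 1) / S by ring, le_div_iff₀ hS0]
    have h5 : √2 ^ 2 = 2 := Real.sq_sqrt (by norm_num)
    have h6 : (1 : ℝ) < √2 := by
      rw [Real.lt_sqrt (by norm_num)]
      norm_num
    have h7 : 0 < √2 * R - 1 := by nlinarith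
    have h8 : S ^ 2 ≤ (√2 * R - 1) ^ 2 := by
      rw [hS]
      nlinarith [sq_nonneg (R - √2)]
    have h9 : S ≤ √2 * R - 1 := abs_le_of_sq_le_sq' h8 h7.le |>.2
    linarith

/-- `1 ≤ b S` from the squares -/
theorem mul_sqrt_ge {b S q k : ℝ} (hb : 0 ≤ b) (hS : 0 ≤ S) (hq : S ^ 2 = q)
    (h : k ^ 2 ≤ b ^ 2 * q) : k ≤ b * S := by
  have h1 : k ^ 2 ≤ (b * S) ^ 2 := by
    rw [mul_pow, hq]
    exact h
  exact (abs_le_of_sq_le_sq' h1 (mul_nonneg hb hS)).2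

theorem mul_sqrt_le {b S q k : ℝ} (hq : S ^ 2 = q) (hk : 0 ≤ k)
    (h : b ^ 2 * q ≤ k ^ 2) : b * S ≤ k := by
  have h1 : (b * S) ^ 2 ≤ k ^ 2 := by
    rw [mul_pow, hq]
    exact h
  exact (abs_le_of_sq_le_sq' h1 hk).2

theorem zero_4 {R θ c : ℝ} (hR : 7 / 5 ≤ R) (hR1 : R ≤ 3 / 2) (hc : -1 ≤ c) (hc1 : c < 1) :
    RPair Fz g0z g1z g2z 0 R θ c := by
  have hL : Lz R = Lp2 R := Lz_two (by linarith) hR1
  have hq : (0 : ℝ) < R ^ 2 - 1 := by nlinarith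
  have hS0 : 0 < √(R ^ 2 - 1) := Real.sqrt_pos.2 hq
  have hS : √(R ^ 2 - 1) ^ 2 = R ^ 2 - 1 := Real.sq_sqrt hq.le
  obtain ⟨t, ht⟩ : ∃ t, t = R - 7 / 5 := ⟨_, rfl⟩
  have hR' : R = 7 / 5 + t := by linarith
  have t0 : 0 ≤ t := by linarith
  have t1 : t ≤ 1 / 10 := by linarith
  have e : R ^ 2 - 1 = 96 / 100 + 28 / 10 * t + t ^ 2 := by rw [hR']; ring
  have g1 : (Lz R).b0 - (Lz R).a0 = 161 / 100 - 75 / 100 * t := by
    rw [hL, hR']; unfold Lp2 mkL; dsimp only; ring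
  have g2 : 103 / 50 + (Lz R).b0 + (Lz R).zp - (Lz R).a1 = 2364 / 1000 - 109 / 100 * t := by
    rw [hL, hR']; unfold Lp2 mkL; dsimp only; ring
  have g3 : (Lz R).b0 = 111 / 100 - 75 / 100 * t := by
    rw [hL, hR']; unfold Lp2 mkL; dsimp only; ring
  have g4 : 103 / 50 + (Lz R).b1 - (Lz R).a1 + 2 * (Lz R).b0 = 41 / 10 - 38 / 10 * t := by
    rw [hL, hR']; unfold Lp2 mkL; dsimp only; ring
  refine zero_exact (S := √(R ^ 2 - 1)) (by linarith) (by linarith) hc hc1 hS0 hS ?_ ?_ ?_ ?_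
  · rw [g1]
    refine mul_sqrt_le (hS.trans e) (by norm_num) ?_
    nlinarith [mul_nonneg t0 (sub_nonneg.2 t1), mul_nonneg (mul_nonneg t0 t0) (sub_nonneg.2 t1)]
  · rw [g2]
    refine lt_of_lt_of_le (by norm_num : (2 : ℝ) < 201 / 100)
      (mul_sqrt_ge (by linarith) hS0.le (hS.trans e) ?_)
    nlinarith [mul_nonneg t0 (sub_nonneg.2 t1), mul_nonneg (mul_nonneg t0 t0) (sub_nonneg.2 t1)]
  · rw [g3]
    refine mul_sqrt_ge (by linarith) hS0.le (hS.trans e) ?_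
    nlinarith [mul_nonneg t0 (sub_nonneg.2 t1), mul_nonneg (mul_nonneg t0 t0) (sub_nonneg.2 t1)]
  · rw [g4]
    refine mul_sqrt_ge (by linarith) hS0.le (hS.trans e) ?_
    nlinarith [mul_nonneg t0 (sub_nonneg.2 t1), mul_nonneg (mul_nonneg t0 t0) (sub_nonneg.2 t1)]

theorem zero_5 {R θ c : ℝ} (hR : 3 / 2 ≤ R) (hR1 : R ≤ 7 / 4) (hc : -1 ≤ c) (hc1 : c < 1) :
    RPair Fz g0z g1z g2z 0 R θ c := by
  have hL : Lz R = Lp3 R := Lz_three hR (by linarith)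
  have hq : (0 : ℝ) < R ^ 2 - 1 := by nlinarith
  have hS0 : 0 < √(R ^ 2 - 1) := Real.sqrt_pos.2 hq
  have hS : √(R ^ 2 - 1) ^ 2 = R ^ 2 - 1 := Real.sq_sqrt hq.le
  obtain ⟨t, ht⟩ : ∃ t, t = R - 3 / 2 := ⟨_, rfl⟩
  have hR' : R = 3 / 2 + t := by linarith
  have t0 : 0 ≤ t := by linarith
  have t1 : t ≤ 1 / 4 := by linarith
  have e : R ^ 2 - 1 = 125 / 100 + 3 * t + t ^ 2 := by rw [hR']; ring
  have g1 : (Lz R).b0 - (Lz R).a0 = 1535 / 1000 - 115 / 100 * t := by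
    rw [hL, hR']; unfold Lp3 mkL; dsimp only; ring
  have g2 : 103 / 50 + (Lz R).b0 + (Lz R).zp - (Lz R).a1 = 2255 / 1000 - 50 / 100 * t := by
    rw [hL, hR']; unfold Lp3 mkL; dsimp only; ring
  have g3 : (Lz R).b0 = 1035 / 1000 - 111 / 100 * t := by
    rw [hL, hR']; unfold Lp3 mkL; dsimp only; ring
  have g4 : 103 / 50 + (Lz R).b1 - (Lz R).a1 + 2 * (Lz R).b0 = 372 / 100 - 241 / 100 * t := by
    rw [hL, hR']; unfold Lp3 mkL; dsimp only; ring
  refine zero_exact (S := √(R ^ 2 - 1)) (by linarith) (by linarith) hc hc1 hS0 hS ?_ ?_ ?_ ?_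
  · rw [g1]
    refine mul_sqrt_le (hS.trans e) (by norm_num) ?_
    nlinarith [mul_nonneg t0 (sub_nonneg.2 t1), mul_nonneg (mul_nonneg t0 t0) (sub_nonneg.2 t1)]
  · rw [g2]
    refine lt_of_lt_of_le (by norm_num : (2 : ℝ) < 201 / 100)
      (mul_sqrt_ge (by linarith) hS0.le (hS.trans e) ?_)
    nlinarith [mul_nonneg t0 (sub_nonneg.2 t1), mul_nonneg (mul_nonneg t0 t0) (sub_nonneg.2 t1)]
  · rw [g3]
    refine mul_sqrt_ge (by linarith) hS0.le (hS.trans e) ?_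
    nlinarith [mul_nonneg t0 (sub_nonneg.2 t1), mul_nonneg (mul_nonneg t0 t0) (sub_nonneg.2 t1)]
  · rw [g4]
    refine mul_sqrt_ge (by linarith) hS0.le (hS.trans e) ?_
    nlinarith [mul_nonneg t0 (sub_nonneg.2 t1), mul_nonneg (mul_nonneg t0 t0) (sub_nonneg.2 t1)]

theorem zero_6 {R θ c : ℝ} (hR : 7 / 4 ≤ R) (hR1 : R ≤ 2) (hc : -1 ≤ c) (hc1 : c < 1) :
    RPair Fz g0z g1z g2z 0 R θ c := by
  have hL : Lz R = Lp3 R := Lz_three (by linarith) hR1
  have g3 : (Lz R).b0 = 27 / 10 - 111 / 100 * R := by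
    rw [hL]; unfold Lp3 mkL; dsimp only; ring
  refine zero_VQ (V := (Lz R).b0) (by linarith) (by linarith) hc hc1 (by rw [g3]; linarith)
    ?_ ?_ le_rfl ?_ ?_
  · rw [hL]; unfold Lp3 mkL; dsimp only; linarith
  · rw [hL]; unfold Lp3 mkL; dsimp only; linarith
  · rw [hL]; unfold Lp3 mkL; dsimp only; linarith
  · rw [g3]
    obtain ⟨t, ht⟩ : ∃ t, t = R - 7 / 4 := ⟨_, rfl⟩
    have hR' : R = 7 / 4 + t := by linarith
    have t0 : 0 ≤ t := by linarith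
    have t1 : t ≤ 1 / 4 := by linarith
    rw [hR']
    nlinarith [mul_nonneg t0 (sub_nonneg.2 t1), mul_nonneg (mul_nonneg t0 t0) (sub_nonneg.2 t1),
      mul_nonneg (mul_nonneg t0 (mul_nonneg t0 t0)) (sub_nonneg.2 t1), sq_nonneg t]

theorem zero_7 {R θ c : ℝ} (hR : 2 ≤ R) (hR3 : R < 3) (hc : -1 ≤ c) (hc1 : c < 1) :
    RPair Fz g0z g1z g2z 0 R θ c := by
  have hL : Lz R = Lp4 R := Lz_four hR hR3
  have g3 : (Lz R).b0 = 1 / 2 - 1 / 100 * R := by
    rw [hL]; unfold Lp4 mkL; dsimp only; ring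
  refine zero_VQ (V := (Lz R).b0) (by linarith) hR3 hc hc1 (by rw [g3]; linarith)
    ?_ ?_ le_rfl ?_ ?_
  · rw [hL]; unfold Lp4 mkL; dsimp only; linarith
  · rw [hL]; unfold Lp4 mkL; dsimp only; linarith
  · rw [hL]; unfold Lp4 mkL; dsimp only; linarith
  · rw [g3]
    obtain ⟨t, ht⟩ : ∃ t, t = R - 2 := ⟨_, rfl⟩
    have hR' : R = 2 + t := by linarith
    have t0 : 0 ≤ t := by linarith
    have t1 : t ≤ 1 := by linarith
    rw [hR']
    nlinarith [mul_nonneg t0 (sub_nonneg.2 t1), mul_nonneg (mul_nonneg t0 t0) (sub_nonneg.2 t1),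
      mul_nonneg (mul_nonneg t0 (mul_nonneg t0 t0)) (sub_nonneg.2 t1), sq_nonneg t]

/-- the zero type and `R ≥ 3` -/
theorem zero_8 {R θ c : ℝ} (hR : 3 ≤ R) (hc : |c| ≤ 1) : RPair Fz g0z g1z g2z 0 R θ c := by
  obtain ⟨c0, c1⟩ := abs_le.1 hc
  have hR0 : 0 < R := by linarith
  have v1 : 1 / R ≤ 1 / 3 := one_div_le_one_div_of_le (by norm_num) hR
  have v0 : 0 < 1 / R := by positivity
  obtain ⟨v, hv⟩ : ∃ v, v = 1 / R := ⟨_, rfl⟩
  rw [← hv] at v0 v1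
  have hden : 0 < 103 / 50 - v := by linarith
  have ez : (Lz R).zp = 1 := by rw [Lz_five hR]; rfl
  have hη : 0 ≤ v ^ 2 / (4 * (103 / 50 - v)) := by positivity
  refine RPair_line (u := (1 - c) + 1 / 100) (v := v) (α := 3 / 100 - v)
    (η := v ^ 2 / (4 * (103 / 50 - v))) (by linarith) v0 (by rw [Lz_five hR]; unfold Ls mkL; norm_num)
    ?_ (by rw [ez]; linarith) ?_
  · rw [g1z_ge hR, Lz_five hR]
    unfold Ls mkL
    have key : ∀ r : ℝ, 0 ≤ (103 / 50 - v) * r ^ 2 - v * r + v ^ 2 / (4 * (103 / 50 - v)) := by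
      intro r
      obtain ⟨w, hw⟩ : ∃ w, w = 103 / 50 - v := ⟨_, rfl⟩
      rw [← hw] at hden ⊢
      have e : w * r ^ 2 - v * r + v ^ 2 / (4 * w) = (2 * w * r - v) ^ 2 / (4 * w) := by
        field_simp
        ring
      rw [e]
      positivity
    refine ⟨fun r r0 r1 => ?_, ⟨?_, fun r hr => ?_⟩, fun r r0 r1 => ?_, ⟨?_, fun r hr => ?_⟩⟩ <;>
      dsimp only
    · have := mul_nonneg v0.le (mul_nonneg r0 (sub_nonneg.2 r1))
      nlinarith
    · linarith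
    · have h1 := mul_nonneg hden.le (sq_nonneg r)
      have h2 := mul_nonneg v0.le (zero_le_one.trans hr)
      nlinarith
    · have := key r
      nlinarith
    · linarith
    · have := key r
      nlinarith
  · rw [g2z_ge hR, g0z_ge hR]
    have e1 : (1 - c) ^ 2 / (2 * ((1 - c) + 1 / 100)) ≤ (1 - c) / 2 := by
      rw [div_le_div_iff₀ (by linarith) (by norm_num)]
      nlinarith
    have e2 : (1 - 0 * c) ^ 2 / (2 * v) + v * (1 + R ^ 2) / 2 = R + v / 2 := by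
      rw [hv]
      field_simp
      ring
    have e3 : v ^ 2 / (4 * (103 / 50 - v)) * R ^ 2 = 1 / (4 * (103 / 50 - v)) := by
      have : v * R = 1 := by rw [hv]; field_simp
      have h2 : v ^ 2 * R ^ 2 = 1 := by rw [← mul_pow, this, one_pow]
      rw [div_mul_eq_mul_div, h2]
    have e4 : 1 / (4 * (103 / 50 - v)) ≤ 3 / 20 := by
      rw [div_le_div_iff₀ (by linarith) (by norm_num)]
      linarith
    have h4 : (1.41 : ℝ) < √2 := by
      rw [Real.lt_sqrt (by norm_num)]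
      norm_num
    have h5 : 1.41 * R ≤ √2 * R := mul_le_mul_of_nonneg_right h4.le hR0.le
    rw [e2, e3]
    linarith

/-- **the zero type** -/
theorem zero_type {R c : ℝ} (hR : 0 ≤ R) (hc : |c| ≤ 1) :
    RPair0 Fz g0z g1z g2z 0 R (π / 2) c := by
  rcases le_or_gt 3 R with h3 | h3
  · exact (zero_8 h3 hc).to0
  · obtain ⟨c0, c1⟩ := abs_le.1 hc
    rcases c1.eq_or_lt with h | h
    · rw [h]
      exact rpair_zero le_rfl (by norm_num) hR h3 (avgP_H0_left R (π / 2))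
    · refine RPair.to0 ?_
      rcases le_total R (1 / 2) with a1 | a1
      · exact zero_1 hR a1 c0 h
      · rcases le_total R 1 with a2 | a2
        · exact zero_2 a1 a2 c0 h
        · rcases le_total R (7 / 5) with a3 | a3
          · exact zero_3 a2 a3 c0 h
          · rcases le_total R (3 / 2) with a4 | a4
            · exact zero_4 a3 a4 c0 h
            · rcases le_total R (7 / 4) with a5 | a5
              · exact zero_5 a4 a5 c0 h
              · rcases le_total R 2 with a6 | a6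
                · exact zero_6 a5 a6 c0 h
                · exact zero_7 a6 h3 c0 h

end Pool.Agent.RRS
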