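import Pool.Agent.RRS.TailMain
import Pool.Agent.RRS.TailBoth
import Pool.Agent.RRS.ZeroType

/-!
# Summary: all pairs with `R_k ≥ 3` outside the middle block, and the zero type
-/

set_option autoImplicit false

noncomputable section

namespace Pool.Agent.RRS

open Real

/-- the middle block -/
def MidBlock (Rj Rk θ : ℝ) : Prop := Rj < 3 ∧ Rk ≤ 5 ∧ |cos θ| ≤ 71 / 100

/-- **all pairs with `R_k ≥ 3` outside the middle block** -/
theorem tail_all {Rj Rk θ : ℝ} (hj : 0 < Rj) (hk : 3 ≤ Rk) (t0 : 0 ≤ θ) (t1 : θ ≤ π)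
    (h : ¬ MidBlock Rj Rk θ) : RPair Fz g0z g1z g2z Rj Rk θ (cos θ) := by
  rcases lt_or_ge Rj 3 with h3 | h3
  · rcases le_total Rk 5 with h5 | h5
    · have hc : ¬ |cos θ| ≤ 71 / 100 := fun hc => h ⟨h3, h5, hc⟩
      rw [abs_le, not_and_or, not_le, not_le] at hc
      rcases hc with hc | hc
      · exact tail_large hj h3 hk h5 t0 t1 hc.le
      · exact tail_small hj h3 hk h5 t0 t1 hc.le
    · exact tail_five hj h3 h5 t0 t1
  · exact tail_both h3 hk

end Pool.Agent.RRS
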