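import Pool.Agent.RRS.ROnly

/-!
# Certificates which depend on the norms only, degenerate case

`RPair0`: as `RPair`, but the multiplier `u` may vanish if the coefficient `1 - g₂ c` of the distance
vanishes.
-/

set_option autoImplicit false

noncomputable section

namespace Pool.Agent.RRS

open Real

/-- the condition for a pair of norms; `u = 0` is allowed if `1 - g₂ c = 0` -/
def RPair0 (F : ℝ → ℝ → ℝ → ℝ) (g0 g1 g2 : ℝ → ℝ) (Rj Rk θ c : ℝ) : Prop :=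
  ∃ (α u v : ℝ) (H : ℝ → ℝ → ℝ), 0 ≤ u ∧ 0 ≤ v ∧ (u = 0 → 1 - g2 Rj * c = 0) ∧
    (v = 0 → 1 - g2 Rk * c = 0) ∧ HomBd H ∧
    PW (F Rj) (F Rk) α (u + c * g1 Rj) (v + c * g1 Rk) H ∧
    (1 - g2 Rj * c) ^ 2 / (2 * u) + u * (1 + Rj ^ 2) / 2 +
      ((1 - g2 Rk * c) ^ 2 / (2 * v) + v * (1 + Rk ^ 2) / 2) + α + avgP H Rj Rk θ ≤
      √2 * (Rj + Rk) + c * (g0 Rj + g0 Rk)

theorem RPair.to0 {F : ℝ → ℝ → ℝ → ℝ} {g0 g1 g2 : ℝ → ℝ} {Rj Rk θ c : ℝ}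
    (h : RPair F g0 g1 g2 Rj Rk θ c) : RPair0 F g0 g1 g2 Rj Rk θ c := by
  obtain ⟨α, u, v, H, hu, hv, hH, hPW, hle⟩ := h
  exact ⟨α, u, v, H, hu.le, hv.le, fun h => absurd h hu.ne', fun h => absurd h hv.ne', hH, hPW, hle⟩

/-- the bound of the distance -/
theorem w_tt_le0 {R p w u : ℝ} (hp : |p| ≤ R) (hu : 0 ≤ u) (hw : u = 0 → w = 0) :
    w * tt R p ≤ w ^ 2 / (2 * u) + u * (1 + R ^ 2) / 2 - u * p := by
  rcases hu.eq_or_lt with h | h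
  · rw [hw h.symm, ← h]
    simp
  · exact w_tt_le hp h

/-- a good pair of norms is a good pair of types -/
theorem RPair0.pairOK {F : ℝ → ℝ → ℝ → ℝ} {g0 g1 g2 : ℝ → ℝ} {Rj Rk θ c : ℝ}
    (h : RPair0 F g0 g1 g2 Rj Rk θ c) {pj pk : ℝ} (hj : |pj| ≤ Rj) (hk : |pk| ≤ Rk) :
    PairOK (fun R _ => F R) (gR g0 g1 g2) Rj pj Rk pk θ c := by
  obtain ⟨α, u, v, H, hu, hv, hu0, hv0, hH, hPW, hle⟩ := h
  refine ⟨α, u + c * g1 Rj, v + c * g1 Rk, H, hH, hPW, ?_⟩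
  have h1 := w_tt_le0 (w := 1 - g2 Rj * c) hj hu hu0
  have h2 := w_tt_le0 (w := 1 - g2 Rk * c) hk hv hv0
  unfold gR
  nlinarith [h1, h2, hle]

/-- all pairs of types are good if all pairs of norms are good -/
theorem allPairs_of_norms0 {F : ℝ → ℝ → ℝ → ℝ} {g0 g1 g2 : ℝ → ℝ}
    (hpos : ∀ Rj Rk θ : ℝ, 0 < Rj → Rj ≤ Rk → 0 ≤ θ → θ ≤ π → RPair0 F g0 g1 g2 Rj Rk θ (cos θ))
    (hzero : ∀ Rk c : ℝ, 0 ≤ Rk → |c| ≤ 1 → RPair0 F g0 g1 g2 0 Rk (π / 2) c) :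
    AllPairs (fun R _ => F R) (gR g0 g1 g2) := by
  refine ⟨fun Rj pj Rk pk θ hj hk pj1 pk1 _ t0 t1 => ?_, fun Rk pk c hk pk1 hc => ?_⟩
  · rcases le_total Rj Rk with h | h
    · exact (hpos Rj Rk θ hj h t0 t1).pairOK pj1 pk1
    · exact ((hpos Rk Rj θ hk h t0 t1).pairOK pk1 pj1).symm
  · exact (hzero Rk c hk hc).pairOK (by simp) pk1

end Pool.Agent.RRS
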