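import Pool.Agent.RRS.Funcs
import Pool.Agent.RRS.ROnly0

/-!
# The angle zero

All pairs `0 ≤ Rj, Rk < 3` at the angle zero: the multipliers are `α = ∑ (a1 - b0)`, `β = b0`, and
`H` vanishes if the two coordinates have the same sign.
-/

set_option autoImplicit false

noncomputable section

namespace Pool.Agent.RRS

open Real MeasureTheory

/-- the multiplier of the pair -/
def H0 (x y : ℝ) : ℝ := 10 * (|x * y| - x * y)

theorem H0_homBd : HomBd H0 := by
  refine ⟨?_, ?_, 20, ?_⟩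
  · unfold H0
    fun_prop
  · intro c x y
    unfold H0
    rw [show c * x * (c * y) = c ^ 2 * (x * y) by ring, abs_mul, abs_of_nonneg (sq_nonneg c)]
    ring
  · intro x y
    unfold H0
    have h1 : |x * y| ≤ (x ^ 2 + y ^ 2) / 2 := by
      rw [abs_le]
      constructor <;> nlinarith [sq_nonneg (x - y), sq_nonneg (x + y)]
    have h2 := abs_nonneg (x * y)
    have h3 := abs_le.1 (le_refl |x * y|)
    rw [abs_le]
    constructor <;> nlinarith [sq_nonneg x, sq_nonneg y]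

/-- the cells at the same sign, both positive -/
theorem cells_pos {L K : LF} (hL : Bz L) (hK : Bz K) {X Y : ℝ} (hX : 0 ≤ X) (hY : 0 ≤ Y) :
    CellsOK L K ((L.a1 - L.b0) + (K.a1 - K.b0)) L.b0 K.b0 true true X Y 0 := by
  obtain ⟨l1, l2, l3, l4, l5, l6, l7, l8, l9, l10, l11, l12, l13, l14, l15⟩ := hL
  obtain ⟨k1, k2, k3, k4, k5, k6, k7, k8, k9, k10, k11, k12, k13, k14, k15⟩ := hK
  intro ix iy m hm h1 h2
  cases ix <;> cases iy <;> simp only [inC, if_true, if_false, Bool.false_eq_true] at h1 h2 <;>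
    simp only [Qc, LF.p, LF.q, ef, sg, Bool.and_self,
      Bool.and_false, if_true, if_false, Bool.false_eq_true, one_mul, mul_one, add_zero]
  · -- m ≥ X, m ≥ Y
    have e : (L.a1 - L.zp) * (X * m) + L.zp * m ^ 2 + ((K.a1 - K.zp) * (Y * m) + K.zp * m ^ 2) +
        (L.a1 - L.b0 + (K.a1 - K.b0)) * m ^ 2 + L.b0 * (X * m) + K.b0 * (Y * m) =
        (L.zp + L.a1 - L.b0) * m ^ 2 + (K.zp + K.a1 - K.b0) * m ^ 2 +
          (L.a1 - L.zp + L.b0) * (X * m) + (K.a1 - K.zp + K.b0) * (Y * m) := by ring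
    have a1 : 0 ≤ L.a1 - L.zp + L.b0 := by linarith
    have a2 : 0 ≤ K.a1 - K.zp + K.b0 := by linarith
    have := mul_nonneg l10 (sq_nonneg m)
    have := mul_nonneg k10 (sq_nonneg m)
    have := mul_nonneg a1 (mul_nonneg hX hm)
    have := mul_nonneg a2 (mul_nonneg hY hm)
    linarith
  · -- X ≤ m ≤ Y
    have e : ((L.a1 - L.zp) * (X * m) + L.zp * m ^ 2) * -1 +
        (K.a0 * (Y * m) + (K.a1 - K.a0) * m ^ 2) +
        (L.a1 - L.b0 + (K.a1 - K.b0)) * m ^ 2 + L.b0 * (X * m) + K.b0 * (Y * m) =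
        (K.a0 + K.b0) * (m * (Y - m)) + 2 * (K.a1 - L.zp) * m ^ 2 +
          (2 * L.zp - (L.zp + L.a1 - L.b0)) * (X * m) + (L.zp + L.a1 - L.b0) * m ^ 2 := by ring
    have a1 : 0 ≤ K.a0 + K.b0 := by linarith
    have a2 : 0 ≤ K.a1 - L.zp := by linarith
    have b1 := mul_nonneg a1 (mul_nonneg hm (sub_nonneg.2 h2))
    have b2 := mul_nonneg a2 (sq_nonneg m)
    have b3 := mul_nonneg l10 (mul_nonneg hm (sub_nonneg.2 h1))
    have b4 : 0 ≤ L.zp * (X * m) := by
      have : 0 ≤ L.zp := by linarith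
      positivity
    nlinarith
  · -- Y ≤ m ≤ X
    have a1 : 0 ≤ L.a0 + L.b0 := by linarith
    have a2 : 0 ≤ L.a1 - K.zp := by linarith
    have b1 := mul_nonneg a1 (mul_nonneg hm (sub_nonneg.2 h1))
    have b2 := mul_nonneg a2 (sq_nonneg m)
    have b3 := mul_nonneg k10 (mul_nonneg hm (sub_nonneg.2 h2))
    have b4 : 0 ≤ K.zp * (Y * m) := by
      have : 0 ≤ K.zp := by linarith
      positivity
    nlinarith
  · -- m ≤ X, m ≤ Y
    have a1 : 0 ≤ L.b0 - L.a0 := by linarith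
    have a2 : 0 ≤ K.b0 - K.a0 := by linarith
    have b1 := mul_nonneg a1 (mul_nonneg hm (sub_nonneg.2 h1))
    have b2 := mul_nonneg a2 (mul_nonneg hm (sub_nonneg.2 h2))
    nlinarith

/-- both coordinates negative -/
theorem cells_neg {L K : LF} (hL : Bz L) (hK : Bz K) {X Y : ℝ} (hX : 0 ≤ X) (hY : 0 ≤ Y) :
    CellsOK L K ((L.a1 - L.b0) + (K.a1 - K.b0)) L.b0 K.b0 false false X Y 0 := by
  obtain ⟨l1, l2, l3, l4, l5, l6, l7, l8, l9, l10, l11, l12, l13, l14, l15⟩ := hL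
  obtain ⟨k1, k2, k3, k4, k5, k6, k7, k8, k9, k10, k11, k12, k13, k14, k15⟩ := hK
  intro ix iy m hm h1 h2
  have t1 := mul_nonneg l11 (mul_nonneg hX hm)
  have t2 := mul_nonneg k11 (mul_nonneg hY hm)
  have t3 := mul_nonneg l11 (sq_nonneg m)
  have t4 := mul_nonneg k11 (sq_nonneg m)
  cases ix <;> cases iy <;> simp only [inC, if_true, if_false, Bool.false_eq_true] at h1 h2 <;>
    simp only [Qc, LF.p, LF.q, ef, sg, Bool.and_true,
      Bool.and_false, if_false, Bool.false_eq_true, mul_one, add_zero, l12, k12]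
  · have b1 := mul_nonneg l10 (mul_nonneg hm (sub_nonneg.2 h1))
    have b2 := mul_nonneg k10 (mul_nonneg hm (sub_nonneg.2 h2))
    nlinarith
  · have b1 := mul_nonneg l10 (mul_nonneg hm (sub_nonneg.2 h1))
    nlinarith
  · have b2 := mul_nonneg k10 (mul_nonneg hm (sub_nonneg.2 h2))
    nlinarith
  · nlinarith

/-- opposite signs -/
theorem cells_opp {L K : LF} (hL : Bz L) (hK : Bz K) {X Y : ℝ} (hX : 0 ≤ X) (hY : 0 ≤ Y) :
    CellsOK L K ((L.a1 - L.b0) + (K.a1 - K.b0)) L.b0 K.b0 false true X Y (20 * (X * Y)) := by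
  obtain ⟨l1, l2, l3, l4, l5, l6, l7, l8, l9, l10, l11, l12, l13, l14, l15⟩ := hL
  obtain ⟨k1, k2, k3, k4, k5, k6, k7, k8, k9, k10, k11, k12, k13, k14, k15⟩ := hK
  intro ix iy m hm h1 h2
  have t1 := mul_nonneg l11 (mul_nonneg hX hm)
  have t3 := mul_nonneg l11 (sq_nonneg m)
  have tXY := mul_nonneg hX hY
  cases ix <;> cases iy <;> simp only [inC, if_true, if_false, Bool.false_eq_true] at h1 h2 <;>
    simp only [Qc, LF.p, LF.q, ef, sg, Bool.and_true, Bool.and_self,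
      Bool.and_false, Bool.false_and, if_true, if_false, Bool.false_eq_true, one_mul, mul_one, l12]
  · -- m ≥ X, m ≥ Y
    have b1 := mul_nonneg l10 (mul_nonneg hm (sub_nonneg.2 h1))
    have b2 := mul_nonneg k10 (sq_nonneg m)
    have a2 : 0 ≤ K.a1 - K.zp + K.b0 := by linarith
    have b3 := mul_nonneg a2 (mul_nonneg hY hm)
    nlinarith
  · -- X ≤ m ≤ Y
    have a1 : 0 ≤ K.a0 + K.b0 := by linarith
    have b1 := mul_nonneg a1 (mul_nonneg hm (sub_nonneg.2 h2))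
    have a2 : 0 ≤ 2 * (K.a1 - L.zp) + (L.zp + L.a1 - L.b0) := by linarith
    have b2 := mul_nonneg a2 (sq_nonneg m)
    have c1 : X * m ≤ X * Y := mul_le_mul_of_nonneg_left h2 hX
    have a3 : 0 ≤ 20 - (L.b1 - L.zp + L.b0) := by linarith
    have a4 : 0 ≤ L.b1 - L.zp + L.b0 := by linarith
    have b3 := mul_nonneg a3 tXY
    have b4 := mul_nonneg a4 (sub_nonneg.2 c1)
    nlinarith
  · -- Y ≤ m ≤ X
    have b2 := mul_nonneg k10 (sq_nonneg m)
    have a2 : 0 ≤ K.a1 - K.zp + K.b0 := by linarith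
    have b3 := mul_nonneg a2 (mul_nonneg hY hm)
    nlinarith
  · -- m ≤ X, m ≤ Y
    have c1 : X * m ≤ X * Y := mul_le_mul_of_nonneg_left h2 hX
    have c2 : m * m ≤ X * Y := mul_le_mul h1 h2 hm hX
    have c3 : m * m ≤ Y * m := mul_le_mul_of_nonneg_right h2 hm
    have a1 : 0 ≤ K.a0 + K.b0 := by linarith
    have b1 := mul_nonneg a1 (mul_nonneg hm (sub_nonneg.2 h2))
    have a4 : 0 ≤ 2 * L.b0 := by linarith
    have b4 := mul_nonneg a4 (sub_nonneg.2 c1)
    have a5 : 0 ≤ 20 - 2 * L.b0 - 5 := by linarith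
    have b5 := mul_nonneg a5 tXY
    have a6 : 0 ≤ 5 - (L.b1 - L.b0) - L.b0 + L.a1 + 2 * K.a1 := by linarith
    nlinarith [mul_nonneg a6 (mul_self_nonneg m)]

theorem cells_opp' {L K : LF} (hL : Bz L) (hK : Bz K) {X Y : ℝ} (hX : 0 ≤ X) (hY : 0 ≤ Y) :
    CellsOK L K ((L.a1 - L.b0) + (K.a1 - K.b0)) L.b0 K.b0 true false X Y (20 * (X * Y)) := by
  have hs := cells_opp hK hL hY hX
  intro ix iy m hm h1 h2
  have := hs iy ix m hm h2 h1
  unfold Qc at this ⊢
  linarith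

/-- **the angle zero** -/
theorem rpair_zero {Rj Rk θ : ℝ} (hj : 0 ≤ Rj) (hj3 : Rj < 3) (hk : 0 ≤ Rk) (hk3 : Rk < 3)
    (h0 : avgP H0 Rj Rk θ = 0) : RPair0 Fz g0z g1z g2z Rj Rk θ 1 := by
  have hL := Lz_bounds hj hj3
  have hK := Lz_bounds hk hk3
  refine ⟨((Lz Rj).a1 - (Lz Rj).b0) + ((Lz Rk).a1 - (Lz Rk).b0), 0, 0, H0, le_rfl, le_rfl,
    fun _ => by rw [g2z_lt hj3]; ring, fun _ => by rw [g2z_lt hk3]; ring, H0_homBd, ?_, ?_⟩
  · rw [g1z_lt hj3, g1z_lt hk3]
    have hl1 : 0 ≤ (Lz Rj).a1 := by linarith [hL.a1_lo]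
    have hk1 : 0 ≤ (Lz Rk).a1 := by linarith [hK.a1_lo]
    intro m x y s t hm s0 s1 t0 t1 a1 a2 a3 a4
    rcases le_or_gt 0 x with hx | hx <;> rcases le_or_gt 0 y with hy | hy
    · have h := PWat_of_cells (sx := true) (sy := true) hl1 hk1 hx hy (Or.inl rfl) (Or.inl rfl)
        (cells_pos hL hK hx hy)
      simp only [sg, if_true, one_mul] at h
      have h' := h m s t hm s0 s1 t0 t1 a1 a2 a3 a4
      have e : H0 x y = 0 := by
        unfold H0
        rw [abs_of_nonneg (mul_nonneg hx hy)]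
        ring
      rw [e]
      simpa [Fz] using h'
    · have h := PWat_of_cells (sx := true) (sy := false) hl1 hk1 hx (neg_nonneg.2 hy.le) (Or.inl rfl)
        (Or.inr (neg_pos.2 hy)) (cells_opp' hL hK hx (neg_nonneg.2 hy.le))
      simp only [sg, if_true, one_mul, Bool.false_eq_true, if_false, neg_mul, neg_neg] at h
      have h' := h m s t hm s0 s1 t0 t1 a1 a2 a3 a4
      have e : H0 x y = 20 * (x * -y) := by
        unfold H0
        rw [abs_of_nonpos (mul_nonpos_of_nonneg_of_nonpos hx hy.le)]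
        ring
      rw [e]
      simpa [Fz] using h'
    · have h := PWat_of_cells (sx := false) (sy := true) hl1 hk1 (neg_nonneg.2 hx.le) hy
        (Or.inr (neg_pos.2 hx)) (Or.inl rfl) (cells_opp hL hK (neg_nonneg.2 hx.le) hy)
      simp only [sg, if_true, one_mul, Bool.false_eq_true, if_false, neg_mul, neg_neg] at h
      have h' := h m s t hm s0 s1 t0 t1 a1 a2 a3 a4
      have e : H0 x y = 20 * (-x * y) := by
        unfold H0
        rw [abs_of_nonpos (mul_nonpos_of_nonpos_of_nonneg hx.le hy)]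
        ring
      rw [e]
      simpa [Fz] using h'
    · have h := PWat_of_cells (sx := false) (sy := false) hl1 hk1 (neg_nonneg.2 hx.le)
        (neg_nonneg.2 hy.le) (Or.inr (neg_pos.2 hx)) (Or.inr (neg_pos.2 hy))
        (cells_neg hL hK (neg_nonneg.2 hx.le) (neg_nonneg.2 hy.le))
      simp only [sg, Bool.false_eq_true, if_false, neg_mul, one_mul, neg_neg] at h
      have h' := h m s t hm s0 s1 t0 t1 a1 a2 a3 a4
      have e : H0 x y = 0 := by
        unfold H0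
        rw [abs_of_nonneg (mul_nonneg_of_nonpos_of_nonpos hx.le hy.le)]
        ring
      rw [e]
      simpa [Fz] using h'
  · rw [h0, g2z_lt hj3, g2z_lt hk3, g0z_lt hj3, g0z_lt hk3]
    norm_num
    linarith

theorem avgP_H0_zero {Rj Rk : ℝ} (hj : 0 ≤ Rj) (hk : 0 ≤ Rk) : avgP H0 Rj Rk 0 = 0 := by
  unfold avgP
  have e : ∀ φ : ℝ, H0 (Rj * cos φ) (Rk * cos (φ - 0)) = 0 := by
    intro φ
    unfold H0
    rw [sub_zero, show Rj * cos φ * (Rk * cos φ) = Rj * Rk * cos φ ^ 2 by ring,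
      abs_of_nonneg (by positivity)]
    ring
  simp only [e]
  simp

theorem avgP_H0_left (Rk θ : ℝ) : avgP H0 0 Rk θ = 0 := by
  unfold avgP H0
  simp

/-- **pairs at the angle zero** -/
theorem rpair_theta_zero {Rj Rk : ℝ} (hj : 0 ≤ Rj) (hj3 : Rj < 3) (hk : 0 ≤ Rk) (hk3 : Rk < 3) :
    RPair0 Fz g0z g1z g2z Rj Rk 0 (cos 0) := by
  rw [cos_zero]
  exact rpair_zero hj hj3 hk hk3 (avgP_H0_zero hj hk)

end Pool.Agent.RRS
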