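import Pool.Agent.RRS.Red
import Pool.Agent.RRS.Theta0
import Pool.Agent.RRS.Pi7
import Pool.Agent.RRS.SlabD
import Pool.Agent.RRS.TailAll
import Pool.Agent.RRS.ZeroType
import Pool.Agent.RRS.Chk9

/-!
# The assembly

All pairs of types are good, from the parts: the middle block of the tail, the boxes, the tube, and
the opposite points with the larger norm at least `3 / 2`.
-/

set_option autoImplicit false

noncomputable section

namespace Pool.Agent.RRS

open Real

/-- **the assembly** -/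
theorem allPairs_assembly
    (hmid : ∀ Rj Rk θ : ℝ, 0 < Rj → 3 ≤ Rk → 0 ≤ θ → θ ≤ π → MidBlock Rj Rk θ →
      RPair Fz g0z g1z g2z Rj Rk θ (cos θ))
    (hbox : ∀ Rj Rk θ : ℝ, 0 < Rj → Rj ≤ Rk → Rk < 3 → 16 * π / 128 ≤ θ → θ < π →
      InTube Rj Rk θ ∨ RPair Fz g0z g1z g2z Rj Rk θ (cos θ))
    (htube : ∀ Rj Rk θ : ℝ, 0 < Rj → InTube Rj Rk θ → θ < π →
      RPair Fz g0z g1z g2z Rj Rk θ (cos θ))
    (hpi : ∀ s l : ℝ, 0 < s → s ≤ l → 3 / 2 ≤ l → l < 3 → RPair0 Fz g0z g1z g2z s l π (-1)) :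
    AllPairs (fun R _ => Fz R) (gR g0z g1z g2z) := by
  refine allPairs_of_norms0 (fun Rj Rk θ hj hjk t0 t1 => ?_) fun Rk c hk hc => zero_type hk hc
  rcases le_or_gt 3 Rk with h3 | h3
  · by_cases hm : MidBlock Rj Rk θ
    · exact (hmid Rj Rk θ hj h3 t0 t1 hm).to0
    · exact (tail_all hj h3 t0 t1 hm).to0
  · rcases t0.eq_or_lt with h0 | h0
    · rw [← h0]
      exact rpair_theta_zero hj.le (hjk.trans_lt h3) (hj.le.trans hjk) h3
    rcases le_total θ (π / 8) with h8 | h8
    · exact (slab_main hj hjk h3 h0 h8).to0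
    rcases t1.eq_or_lt with hp | hp
    · rw [hp]
      rcases le_total Rk (3 / 2) with h15 | h15
      · exact pi_all_15 hj hjk h15
      · rw [cos_pi]
        exact hpi Rj Rk hj hjk h15 h3
    · rcases hbox Rj Rk θ hj hjk h3 (by linarith) hp with h | h
      · exact (htube Rj Rk θ hj h hp).to0
      · exact h.to0

end Pool.Agent.RRS
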