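import Pool.Agent.RRS.Sectors2
import Pool.Agent.RRS.Cells

/-!
# Twelve fine sectors

`T = (π - θ) / 2`.  The breakpoints of the normalised angle are `-T + T i / 4` for `i ≤ 8` and
`T + θ (i - 8) / 4` for `8 ≤ i ≤ 12`: eight sectors with coordinates of the same sign, four with
opposite signs.
-/

set_option autoImplicit false

noncomputable section

namespace Pool.Agent.RRS

open Real MeasureTheory

/-- the breakpoints -/
def tF (θ : ℝ) (i : ℕ) : ℝ :=
  if i ≤ 8 then (π - θ) / 2 * ((i : ℝ) / 4 - 1)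
  else (π - θ) / 2 + θ * (((min i 12 : ℕ) : ℝ) - 8) / 4

theorem tF_mono {θ : ℝ} (h0 : 0 < θ) (hπ : θ < π) : Monotone (tF θ) := by
  refine monotone_nat_of_le_succ fun n => ?_
  unfold tF
  rcases lt_trichotomy n 8 with h | h | h
  · rw [if_pos h.le, if_pos (by omega)]
    push_cast
    nlinarith
  · rw [if_pos h.le, if_neg (by omega), h]
    norm_num
    nlinarith
  · rw [if_neg (by omega), if_neg (by omega)]
    have : ((min n 12 : ℕ) : ℝ) ≤ ((min (n + 1) 12 : ℕ) : ℝ) := by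
      exact_mod_cast (by omega)
    nlinarith

theorem tF_zero (θ : ℝ) : tF θ 0 = -((π - θ) / 2) := by
  unfold tF
  norm_num

theorem tF_eight (θ : ℝ) : tF θ 8 = (π - θ) / 2 := by
  unfold tF
  norm_num

theorem tF_twelve (θ : ℝ) : tF θ 12 = (π + θ) / 2 := by
  unfold tF
  norm_num
  ring

theorem tF_same {θ : ℝ} {i : ℕ} (hi : i ≤ 8) : tF θ i = (π - θ) / 2 * ((i : ℝ) / 4 - 1) :=
  if_pos hi

theorem tF_opp {θ : ℝ} {i : ℕ} (hi : 8 ≤ i) (h2 : i ≤ 12) :
    tF θ i = (π - θ) / 2 + θ * ((i : ℝ) - 8) / 4 := by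
  rcases hi.eq_or_lt with h | h
  · subst h
    rw [tF_eight]
    norm_num
  · unfold tF
    rw [if_neg (by omega), min_eq_left h2]

/-- the average of `x ^ 2` over a sector -/
def wX (θ : ℝ) (i : ℕ) : ℝ :=
  2 / π * ((tF θ (i + 1) - tF θ i) / 2 + (sin (2 * tF θ (i + 1) + θ) - sin (2 * tF θ i + θ)) / 4)

/-- the average of `y ^ 2` over a sector -/
def wY (θ : ℝ) (i : ℕ) : ℝ :=
  2 / π * ((tF θ (i + 1) - tF θ i) / 2 + (sin (2 * tF θ (i + 1) - θ) - sin (2 * tF θ i - θ)) / 4)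

/-- the average of `x y` over a sector -/
def wP (θ : ℝ) (i : ℕ) : ℝ :=
  2 / π * ((tF θ (i + 1) - tF θ i) * cos θ / 2 + (sin (2 * tF θ (i + 1)) - sin (2 * tF θ i)) / 4)

/-- the average of `|x y|` over a sector -/
def wM (θ : ℝ) (i : ℕ) : ℝ := if i < 8 then wP θ i else -wP θ i

theorem cos_pos_same {θ τ : ℝ} (hπ : θ < π) (h0 : 0 < θ) (h1 : tF θ 0 < τ) (h2 : τ < tF θ 8) :
    0 < cos (τ + θ / 2) ∧ 0 < cos (τ - θ / 2) := by
  rw [tF_zero] at h1
  rw [tF_eight] at h2
  exact ⟨cos_pos_of_mem_Ioo ⟨by linarith, by linarith⟩, cos_pos_of_mem_Ioo ⟨by linarith, by linarith⟩⟩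

theorem cos_pos_opp {θ τ : ℝ} (hπ : θ < π) (h0 : 0 < θ) (h1 : tF θ 8 < τ) (h2 : τ < tF θ 12) :
    cos (τ + θ / 2) < 0 ∧ 0 < cos (τ - θ / 2) := by
  rw [tF_eight] at h1
  rw [tF_twelve] at h2
  refine ⟨cos_neg_of_pi_div_two_lt_of_lt (by linarith) (by linarith),
    cos_pos_of_mem_Ioo ⟨by linarith, by linarith⟩⟩

theorem PWat_same {L K : LF} {α β γ X Y k : ℝ} (hL : 0 ≤ L.a1) (hK : 0 ≤ K.a1)
    (hX : 0 < X) (hY : 0 < Y) (h : ∀ s : Bool, CellsOK L K α β γ s s X Y k) :
    PWat L.F K.F α β γ X Y k ∧ PWat L.F K.F α β γ (-X) (-Y) k := by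
  have a := PWat_of_cells hL hK hX.le hY.le (Or.inl rfl) (Or.inl rfl) (h true)
  have b := PWat_of_cells hL hK hX.le hY.le (Or.inr hX) (Or.inr hY) (h false)
  simp only [sg, if_true, Bool.false_eq_true, if_false, one_mul, neg_mul] at a b
  exact ⟨a, b⟩

theorem PWat_opp {L K : LF} {α β γ X Y k : ℝ} (hL : 0 ≤ L.a1) (hK : 0 ≤ K.a1)
    (hX : 0 < X) (hY : 0 < Y) (h : ∀ s : Bool, CellsOK L K α β γ s (!s) X Y k) :
    PWat L.F K.F α β γ (-X) Y k ∧ PWat L.F K.F α β γ X (-Y) k := by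
  have a := PWat_of_cells hL hK hX.le hY.le (Or.inr hX) (Or.inl rfl) (h false)
  have b := PWat_of_cells hL hK hX.le hY.le (Or.inl rfl) (Or.inr hY) (h true)
  simp only [sg, if_true, Bool.false_eq_true, if_false, one_mul, neg_mul, Bool.not_false,
    Bool.not_true] at a b
  exact ⟨a, b⟩

theorem qf_neg (A B C x y : ℝ) : qf A B C (-x) (-y) = qf A B C x y := by
  unfold qf
  ring

theorem qf_flip (A B C x y : ℝ) : qf A (-B) C (-x) y = qf A B C x y := by
  unfold qf
  ring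

theorem secInt_flip (A B C Rj Rk θ a b : ℝ) : secInt A (-B) C Rj Rk θ a b =
    A * Rj ^ 2 * ((b - a) / 2 + (sin (2 * b + θ) - sin (2 * a + θ)) / 4) +
    B * (Rj * Rk) * -((b - a) * cos θ / 2 + (sin (2 * b) - sin (2 * a)) / 4) +
    C * Rk ^ 2 * ((b - a) / 2 + (sin (2 * b - θ) - sin (2 * a - θ)) / 4) := by
  unfold secInt
  ring

/-- **the pair inequality from quadratic forms on the fine sectors** (`q` in absolute values) -/
theorem RPair_fine {F : ℝ → ℝ → ℝ → ℝ} {g0 g1 g2 : ℝ → ℝ} {Rj Rk θ : ℝ} (hj : 0 < Rj)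
    (hk : 0 < Rk) (h0 : 0 < θ) (hπ : θ < π) {L K : LF} (hFj : F Rj = L.F) (hFk : F Rk = K.F)
    (hL : 0 ≤ L.a1) (hK : 0 ≤ K.a1) (A B C : ℕ → ℝ) {α u v : ℝ} (hu : 0 < u) (hv : 0 < v)
    (hS : ∀ i, i < 8 → ∀ τ, tF θ i ≤ τ → τ ≤ tF θ (i + 1) → ∀ s : Bool,
      CellsOK L K α (u + cos θ * g1 Rj) (v + cos θ * g1 Rk) s s (Rj * cos (τ + θ / 2))
        (Rk * cos (τ - θ / 2))
        (qf (A i) (B i) (C i) (Rj * cos (τ + θ / 2)) (Rk * cos (τ - θ / 2))))
    (hO : ∀ i, 8 ≤ i → i < 12 → ∀ τ, tF θ i ≤ τ → τ ≤ tF θ (i + 1) → ∀ s : Bool,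
      CellsOK L K α (u + cos θ * g1 Rj) (v + cos θ * g1 Rk) s (!s) (Rj * -cos (τ + θ / 2))
        (Rk * cos (τ - θ / 2))
        (qf (A i) (B i) (C i) (Rj * -cos (τ + θ / 2)) (Rk * cos (τ - θ / 2))))
    (hZ : CellsOK L K α (u + cos θ * g1 Rj) (v + cos θ * g1 Rk) true true 0 0 0)
    (hle : (1 - g2 Rj * cos θ) ^ 2 / (2 * u) + u * (1 + Rj ^ 2) / 2 +
      ((1 - g2 Rk * cos θ) ^ 2 / (2 * v) + v * (1 + Rk ^ 2) / 2) + α +
        ∑ i ∈ Finset.range 12, (A i * Rj ^ 2 * wX θ i + B i * (Rj * Rk) * wM θ i +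
          C i * Rk ^ 2 * wY θ i) ≤
      √2 * (Rj + Rk) + cos θ * (g0 Rj + g0 Rk)) :
    RPair F g0 g1 g2 Rj Rk θ (cos θ) := by
  obtain ⟨B', hB'⟩ : ∃ B' : ℕ → ℝ, B' = fun i => if i < 8 then B i else -B i := ⟨_, rfl⟩
  have b1 : ∀ i, i < 8 → B' i = B i := fun i hi => by rw [hB']; exact if_pos hi
  have b2 : ∀ i, 8 ≤ i → B' i = -B i := fun i hi => by rw [hB']; exact if_neg (by omega)
  have hm := tF_mono h0 hπ
  have h12 : tF θ (11 + 1) = tF θ 0 + π := by
    rw [show 11 + 1 = 12 from rfl, tF_twelve, tF_zero]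
    ring
  -- modify the sequences outside
  obtain ⟨A2, hA2⟩ : ∃ A2 : ℕ → ℝ, A2 = fun i => if i < 12 then A i else 0 := ⟨_, rfl⟩
  obtain ⟨B2, hB2⟩ : ∃ B2 : ℕ → ℝ, B2 = fun i => if i < 12 then B' i else 0 := ⟨_, rfl⟩
  obtain ⟨C2, hC2⟩ : ∃ C2 : ℕ → ℝ, C2 = fun i => if i < 12 then C i else 0 := ⟨_, rfl⟩
  have eA : ∀ i, i < 12 → A2 i = A i := fun i hi => by rw [hA2]; exact if_pos hi
  have eB : ∀ i, i < 12 → B2 i = B' i := fun i hi => by rw [hB2]; exact if_pos hi
  have eC : ∀ i, i < 12 → C2 i = C i := fun i hi => by rw [hC2]; exact if_pos hi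
  have bd : ∀ f : ℕ → ℝ, ∃ M, 0 ≤ M ∧ ∀ i, |if i < 12 then f i else 0| ≤ M := by
    intro f
    refine ⟨∑ i ∈ Finset.range 12, |f i|, Finset.sum_nonneg fun i _ => abs_nonneg _, fun i => ?_⟩
    split_ifs with h
    · exact Finset.single_le_sum (f := fun i => |f i|) (fun i _ => abs_nonneg _)
        (Finset.mem_range.2 h)
    · rw [abs_zero]
      exact Finset.sum_nonneg fun i _ => abs_nonneg _
  obtain ⟨MA, hMA0, hMA⟩ := bd A
  obtain ⟨MB, hMB0, hMB⟩ := bd B'
  obtain ⟨MC, hMC0, hMC⟩ := bd C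
  refine RPair_of_open_sectors hj hk h0 hπ (by rw [hFj]; exact L.hom2) (by rw [hFk]; exact K.hom2)
    11 (tF θ) hm h12 A2 B2 C2 ⟨MA + MB + MC, fun i => ⟨?_, ?_, ?_⟩⟩ (α := α) hu hv ?_ ?_ ?_ ?_
  · rw [hA2]
    exact (hMA i).trans (by linarith)
  · rw [hB2]
    exact (hMB i).trans (by linarith)
  · rw [hC2]
    exact (hMC i).trans (by linarith)
  · rw [hFj, hFk]
    have := PWat_of_cells hL hK le_rfl le_rfl (Or.inl rfl) (Or.inl rfl) hZ
    simpa [sg] using this
  · intro i τ hi h1 h2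
    have hi' : i < 12 := by omega
    rw [eA i hi', eB i hi', eC i hi', hFj, hFk]
    by_cases h8 : i < 8
    · rw [b1 i h8]
      obtain ⟨c1, c2⟩ := cos_pos_same hπ h0 (lt_of_le_of_lt (hm (Nat.zero_le i)) h1)
        (lt_of_lt_of_le h2 (hm (by omega : i + 1 ≤ 8)))
      exact PWat_same hL hK (by positivity) (by positivity) (hS i h8 τ h1.le h2.le)
    · rw [b2 i (by omega)]
      obtain ⟨c1, c2⟩ := cos_pos_opp hπ h0 (lt_of_le_of_lt (hm (by omega : 8 ≤ i)) h1)
        (lt_of_lt_of_le h2 (hm (by omega : i + 1 ≤ 12)))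
      have key := PWat_opp hL hK (X := Rj * -cos (τ + θ / 2)) (mul_pos hj (by linarith))
        (mul_pos hk c2) (hO i (by omega) hi' τ h1.le h2.le)
      have e : qf (A i) (B i) (C i) (Rj * -cos (τ + θ / 2)) (Rk * cos (τ - θ / 2)) =
          qf (A i) (-B i) (C i) (Rj * cos (τ + θ / 2)) (Rk * cos (τ - θ / 2)) := by
        unfold qf
        ring
      have e2 : Rj * -cos (τ + θ / 2) = -(Rj * cos (τ + θ / 2)) := by ring
      rw [e, e2, neg_neg] at key
      exact key
  · intro i hi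
    have hi' : i < 12 := by omega
    rw [hFj, hFk]
    -- the boundary directions
    by_cases z0 : i = 0
    · subst z0
      have ey : cos (tF θ 0 - θ / 2) = 0 := by
        rw [tF_zero, show -((π - θ) / 2) - θ / 2 = -(π / 2) by ring, cos_neg, cos_pi_div_two]
      have ex : cos (tF θ 0 + θ / 2) = sin θ := by
        rw [tF_zero, show -((π - θ) / 2) + θ / 2 = -(π / 2 - θ) by ring, cos_neg,
          cos_pi_div_two_sub]
      have hs := sin_pos_of_pos_of_lt_pi h0 hπ
      refine ⟨⟨0, by omega, ?_⟩, 11, by omega, ?_⟩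
      · have key := hS 0 (by omega) (tF θ 0) le_rfl (hm (by omega)) true
        rw [ex, ey] at key
        have := PWat_of_cells hL hK (by positivity) (by simp) (Or.inl rfl) (Or.inl rfl) key
        rw [ex, ey, eA 0 (by omega), eB 0 (by omega), eC 0 (by omega), b1 0 (by omega)]
        simpa [sg] using this
      · have key := hO 11 (by omega) (by omega) (tF θ (11 + 1)) (hm (by omega)) le_rfl false
        have ex' : cos (tF θ (11 + 1) + θ / 2) = -sin θ := by
          rw [h12, show tF θ 0 + π + θ / 2 = (tF θ 0 + θ / 2) + π by ring, cos_add_pi, ex]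
        have ey' : cos (tF θ (11 + 1) - θ / 2) = 0 := by
          rw [h12, show tF θ 0 + π - θ / 2 = (tF θ 0 - θ / 2) + π by ring, cos_add_pi, ey, neg_zero]
        rw [ex', ey', neg_neg] at key
        have := PWat_of_cells hL hK (by positivity) (by simp) (Or.inr (by positivity))
          (Or.inl rfl) key
        rw [ex, ey, eA 11 (by omega), eB 11 (by omega), eC 11 (by omega), b2 11 (by omega)]
        simp only [mul_zero, neg_zero]
        have e : qf (A 11) (-B 11) (C 11) (Rj * sin θ) 0 =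
            qf (A 11) (B 11) (C 11) (Rj * sin θ) 0 := by
          unfold qf
          ring
        rw [e]
        simpa [sg] using this
    by_cases z8 : i = 8
    · subst z8
      have ex : cos (tF θ 8 + θ / 2) = 0 := by
        rw [tF_eight, show (π - θ) / 2 + θ / 2 = π / 2 by ring, cos_pi_div_two]
      have ey : cos (tF θ 8 - θ / 2) = sin θ := by
        rw [tF_eight, show (π - θ) / 2 - θ / 2 = π / 2 - θ by ring, cos_pi_div_two_sub]
      have hs := sin_pos_of_pos_of_lt_pi h0 hπ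
      refine ⟨⟨7, by omega, ?_⟩, 8, by omega, ?_⟩
      · have key := hS 7 (by omega) (tF θ 8) (hm (by omega)) le_rfl true
        rw [ex, ey] at key
        have := PWat_of_cells hL hK (by simp) (by positivity) (Or.inl rfl) (Or.inl rfl) key
        rw [ex, ey, eA 7 (by omega), eB 7 (by omega), eC 7 (by omega), b1 7 (by omega)]
        simpa [sg] using this
      · have key := hO 8 le_rfl (by omega) (tF θ 8) le_rfl (hm (by omega)) true
        rw [ex, ey, neg_zero] at key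
        have := PWat_of_cells hL hK (by simp) (by positivity) (Or.inl rfl)
          (Or.inr (by positivity)) key
        rw [ex, ey, eA 8 (by omega), eB 8 (by omega), eC 8 (by omega), b2 8 (by omega)]
        simp only [mul_zero, neg_zero]
        have e : qf (A 8) (-B 8) (C 8) 0 (Rk * sin θ) =
            qf (A 8) (B 8) (C 8) 0 (Rk * sin θ) := by
          unfold qf
          ring
        rw [e]
        simpa [sg] using this
    by_cases h8 : i < 8
    · have q1 : tF θ 0 < tF θ i := by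
        rw [tF_zero, tF_same h8.le]
        have : (1 : ℝ) ≤ i := by exact_mod_cast (by omega : 1 ≤ i)
        nlinarith
      have q2 : tF θ i < tF θ 8 := by
        rw [tF_eight, tF_same h8.le]
        have : (i : ℝ) ≤ 7 := by exact_mod_cast (by omega : i ≤ 7)
        nlinarith
      obtain ⟨c1, c2⟩ := cos_pos_same hπ h0 q1 q2
      obtain ⟨r1, r2⟩ := PWat_same hL hK (mul_pos hj c1) (mul_pos hk c2)
        (hS i h8 (tF θ i) le_rfl (hm (by omega)))
      exact ⟨⟨i, hi, by rw [eA i hi', eB i hi', eC i hi', b1 i h8]; exact r1⟩,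
        i, hi, by rw [eA i hi', eB i hi', eC i hi', b1 i h8]; exact r2⟩
    · have q1 : tF θ 8 < tF θ i := by
        rw [tF_eight, tF_opp (by omega) (by omega)]
        have : (9 : ℝ) ≤ i := by exact_mod_cast (by omega : 9 ≤ i)
        nlinarith
      have q2 : tF θ i < tF θ 12 := by
        rw [tF_twelve, tF_opp (by omega) (by omega)]
        have : (i : ℝ) ≤ 11 := by exact_mod_cast (by omega : i ≤ 11)
        nlinarith
      obtain ⟨c1, c2⟩ := cos_pos_opp hπ h0 q1 q2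
      have key := PWat_opp hL hK (X := Rj * -cos (tF θ i + θ / 2)) (mul_pos hj (by linarith))
        (mul_pos hk c2) (hO i (by omega) hi' (tF θ i) le_rfl (hm (by omega)))
      have e : qf (A i) (B i) (C i) (Rj * -cos (tF θ i + θ / 2)) (Rk * cos (tF θ i - θ / 2)) =
          qf (A i) (-B i) (C i) (Rj * cos (tF θ i + θ / 2)) (Rk * cos (tF θ i - θ / 2)) := by
        unfold qf
        ring
      have e2 : Rj * -cos (tF θ i + θ / 2) = -(Rj * cos (tF θ i + θ / 2)) := by ring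
      rw [e, e2, neg_neg] at key
      exact ⟨⟨i, hi, by rw [eA i hi', eB i hi', eC i hi', b2 i (by omega)]; exact key.1⟩,
        i, hi, by rw [eA i hi', eB i hi', eC i hi', b2 i (by omega)]; exact key.2⟩
  · refine le_trans (le_of_eq ?_) hle
    congr 1
    rw [Finset.mul_sum]
    refine Finset.sum_congr rfl fun i hi => ?_
    have hi' := Finset.mem_range.1 hi
    rw [eA i hi', eB i hi', eC i hi']
    by_cases h8 : i < 8
    · rw [b1 i h8]
      unfold wM wX wY wP secInt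
      rw [if_pos h8]
      ring
    · rw [b2 i (by omega), secInt_flip]
      unfold wM wX wY wP
      rw [if_neg h8]
      ring

end Pool.Agent.RRS
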