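import Pool.Agent.RRS.Defs

/-!
# The inequality in one coordinate

`frame_PW`: for the median `m` of the numbers `X i` and multipliers with `PW` for all ordered pairs,
the sum of `α m² + β X_j m + γ X_k m + H X_j X_k` over all pairs is nonnegative.
-/

set_option autoImplicit false

noncomputable section

namespace Pool.Agent.RRS

open Real

/-- the weights of the points beyond the median -/
theorem exists_weights {N : ℕ} (X : Fin N → ℝ) (m : ℝ)
    (h1 : N ≤ 2 * (Finset.univ.filter fun i => m ≤ X i).card)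
    (h2 : N ≤ 2 * (Finset.univ.filter fun i => X i ≤ m).card) :
    ∃ σ : Fin N → ℝ, (∀ i, 0 ≤ σ i) ∧ (∀ i, σ i ≤ 1) ∧ (∀ i, 0 < σ i → m ≤ X i) ∧
      (∀ i, m < X i → σ i = 1) ∧ ∑ i, σ i = (N : ℝ) / 2 := by
  obtain ⟨a, ha⟩ : ∃ a, a = (Finset.univ.filter fun i => m < X i).card := ⟨_, rfl⟩
  obtain ⟨b, hb⟩ : ∃ b, b = (Finset.univ.filter fun i => X i = m).card := ⟨_, rfl⟩
  have c1 : (Finset.univ.filter fun i => m ≤ X i).card = a + b := by
    rw [ha, hb, ← Finset.card_union_of_disjoint]
    · congr 1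
      ext i
      simp only [Finset.mem_filter, Finset.mem_univ, true_and, Finset.mem_union]
      constructor
      · intro h
        rcases h.lt_or_eq with h | h
        · exact Or.inl h
        · exact Or.inr h.symm
      · rintro (h | h)
        · exact h.le
        · exact h.ge
    · rw [Finset.disjoint_left]
      intro i hi hi'
      simp only [Finset.mem_filter, Finset.mem_univ, true_and] at hi hi'
      exact absurd hi' hi.ne'
  have c2 : (Finset.univ.filter fun i => X i ≤ m).card + a = N := by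
    have h3 := Finset.card_filter_add_card_filter_not (s := (Finset.univ : Finset (Fin N)))
      (fun i => X i ≤ m)
    rw [Finset.card_univ, Fintype.card_fin] at h3
    simp only [not_le] at h3
    rw [← ha] at h3
    exact h3
  rw [c1] at h1
  have d1 : (N : ℝ) ≤ 2 * (a + b) := by exact_mod_cast h1
  have d2 : 2 * (a : ℝ) ≤ N := by
    have : 2 * a ≤ N := by omega
    exact_mod_cast this
  obtain ⟨τ, hτ⟩ : ∃ τ : ℝ, τ = ((N : ℝ) / 2 - a) / b := ⟨_, rfl⟩
  have hτ0 : 0 ≤ τ := by
    rw [hτ]
    exact div_nonneg (by linarith) (Nat.cast_nonneg _)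
  have hτ1 : τ ≤ 1 := by
    rw [hτ]
    exact div_le_one_of_le₀ (by linarith) (Nat.cast_nonneg _)
  have hbτ : (b : ℝ) * τ = (N : ℝ) / 2 - a := by
    rw [hτ]
    rcases Nat.eq_zero_or_pos b with h | h
    · rw [h] at d1 ⊢
      simp only [Nat.cast_zero, add_zero, zero_mul] at d1 ⊢
      linarith
    · have h3 : (b : ℝ) ≠ 0 := by exact_mod_cast h.ne'
      field_simp
  refine ⟨fun i => if m < X i then 1 else if X i = m then τ else 0, fun i => ?_, fun i => ?_,
    fun i hi => ?_, fun i hi => ?_, ?_⟩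
  · dsimp only
    split_ifs
    · exact zero_le_one
    · exact hτ0
    · exact le_rfl
  · dsimp only
    split_ifs
    · exact le_rfl
    · exact hτ1
    · exact zero_le_one
  · by_contra hc
    push Not at hc
    have e1 : ¬ m < X i := not_lt.2 hc.le
    have e2 : ¬ X i = m := hc.ne
    simp only [e1, e2, if_false] at hi
    exact lt_irrefl _ hi
  · simp only [hi, if_true]
  · have e : ∀ i, (if m < X i then (1 : ℝ) else if X i = m then τ else 0) =
        (if m < X i then (1 : ℝ) else 0) + if X i = m then τ else 0 := by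
      intro i
      by_cases h3 : m < X i
      · have h4 : ¬ X i = m := h3.ne'
        simp only [h3, h4, if_true, if_false, add_zero]
      · simp only [h3, if_false, zero_add]
    simp only [e]
    rw [Finset.sum_add_distrib, ← Finset.sum_filter, ← Finset.sum_filter, Finset.sum_const,
      Finset.sum_const, ← ha, ← hb, nsmul_eq_mul, nsmul_eq_mul, hbτ]
    ring

private theorem frame_nonneg {N : ℕ} (X : Fin N → ℝ) {m : ℝ} (hm : 0 ≤ m)
    (h1 : N ≤ 2 * (Finset.univ.filter fun i => m ≤ X i).card)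
    (h2 : N ≤ 2 * (Finset.univ.filter fun i => X i ≤ m).card) (F : Fin N → ℝ → ℝ → ℝ)
    (α β γ : Fin N → Fin N → ℝ) (H : Fin N → Fin N → ℝ → ℝ → ℝ)
    (hP : ∀ j k, PW (F j) (F k) (α j k) (β j k) (γ j k) (H j k)) :
    0 ≤ ∑ j, ∑ k, (α j k * m ^ 2 + β j k * (X j * m) + γ j k * (X k * m) +
      H j k (X j) (X k)) := by
  obtain ⟨σ, s0, s1, s2, s3, hs⟩ := exists_weights X m h1 h2
  have h : ∀ j k, 0 ≤ F j (X j) m * (1 - 2 * σ k) + F k (X k) m * (1 - 2 * σ j) +
      (α j k * m ^ 2 + β j k * (X j * m) + γ j k * (X k * m) + H j k (X j) (X k)) := by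
    intro j k
    have := hP j k m (X j) (X k) (σ j) (σ k) hm (s0 j) (s1 j) (s0 k) (s1 k) (s2 j) (s3 j)
      (s2 k) (s3 k)
    linarith
  have h' := Finset.sum_nonneg fun j (_ : j ∈ Finset.univ) =>
    Finset.sum_nonneg fun k (_ : k ∈ Finset.univ) => h j k
  have z1 : ∑ j, ∑ k, F j (X j) m * (1 - 2 * σ k) = 0 := by
    have : ∀ j, ∑ k, F j (X j) m * (1 - 2 * σ k) = 0 := by
      intro j
      rw [← Finset.mul_sum, Finset.sum_sub_distrib, ← Finset.mul_sum, hs, Finset.sum_const,
        Finset.card_univ, Fintype.card_fin, nsmul_eq_mul]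
      ring
    exact Finset.sum_eq_zero fun j _ => this j
  have z2 : ∑ j, ∑ k, F k (X k) m * (1 - 2 * σ j) = 0 := by
    rw [Finset.sum_comm]
    exact z1
  simp only [Finset.sum_add_distrib] at h' z1 z2 ⊢
  rw [z1, z2] at h'
  linarith

theorem frame_PW {N : ℕ} (X : Fin N → ℝ) (m : ℝ)
    (h1 : N ≤ 2 * (Finset.univ.filter fun i => m ≤ X i).card)
    (h2 : N ≤ 2 * (Finset.univ.filter fun i => X i ≤ m).card) (F : Fin N → ℝ → ℝ → ℝ)
    (α β γ : Fin N → Fin N → ℝ) (H : Fin N → Fin N → ℝ → ℝ → ℝ)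
    (hH : ∀ j k x y, H j k (-x) (-y) = H j k x y)
    (hP : ∀ j k, PW (F j) (F k) (α j k) (β j k) (γ j k) (H j k)) :
    0 ≤ ∑ j, ∑ k, (α j k * m ^ 2 + β j k * (X j * m) + γ j k * (X k * m) +
      H j k (X j) (X k)) := by
  rcases le_total 0 m with hm | hm
  · exact frame_nonneg X hm h1 h2 F α β γ H hP
  · have e1 : (Finset.univ.filter fun i => -m ≤ -X i) = Finset.univ.filter fun i => X i ≤ m := by
      ext i
      simp
    have e2 : (Finset.univ.filter fun i => -X i ≤ -m) = Finset.univ.filter fun i => m ≤ X i := by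
      ext i
      simp
    have h3 := frame_nonneg (fun i => -X i) (m := -m) (by linarith) (by rw [e1]; exact h2)
      (by rw [e2]; exact h1) F α β γ H hP
    simp only [hH, neg_mul_neg, even_two, Even.neg_pow] at h3
    exact h3

end Pool.Agent.RRS
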