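import Pool.Agent.RRS.ROnly

/-!
# The function `H` in the normalised angle

`0 < θ < π`, `h = θ / 2`.  The pair of coordinates is `(x, y) = r (Rj cos (τ + h), Rk cos (τ - h))`.
A bounded measurable function `κ` of `τ` of the period `π` defines `H (x, y) = r² κ τ`.
-/

set_option autoImplicit false

noncomputable section

namespace Pool.Agent.RRS

open Real MeasureTheory

/-- the pointwise inequality at the point `(x, y)`; `k` is the value of `H` -/
def PWat (F G : ℝ → ℝ → ℝ) (α β γ x y k : ℝ) : Prop :=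
  ∀ m s t : ℝ, 0 ≤ m → 0 ≤ s → s ≤ 1 → 0 ≤ t → t ≤ 1 → (0 < s → m ≤ x) → (m < x → s = 1) →
    (0 < t → m ≤ y) → (m < y → t = 1) →
    0 ≤ F x m * (1 - 2 * t) + G y m * (1 - 2 * s) + α * m ^ 2 + β * (x * m) + γ * (y * m) + k

/-- homogeneous of degree two -/
def Hom2 (F : ℝ → ℝ → ℝ) : Prop := ∀ r x m : ℝ, 0 < r → F (r * x) (r * m) = r ^ 2 * F x m

theorem PWat.scale {F G : ℝ → ℝ → ℝ} (hF : Hom2 F) (hG : Hom2 G) {α β γ x y k : ℝ}
    (h : PWat F G α β γ x y k) {r : ℝ} (hr : 0 < r) :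
    PWat F G α β γ (r * x) (r * y) (r ^ 2 * k) := by
  intro m s t hm s0 s1 t0 t1 a1 a2 a3 a4
  obtain ⟨m', rfl⟩ : ∃ m', m = r * m' := ⟨m / r, by field_simp⟩
  have hm' : 0 ≤ m' := nonneg_of_mul_nonneg_right hm hr
  have key := h m' s t hm' s0 s1 t0 t1 (fun q => le_of_mul_le_mul_left (a1 q) hr)
    (fun q => a2 (mul_lt_mul_of_pos_left q hr)) (fun q => le_of_mul_le_mul_left (a3 q) hr)
    (fun q => a4 (mul_lt_mul_of_pos_left q hr))
  rw [hF r x m' hr, hG r y m' hr]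
  have e : r ^ 2 * F x m' * (1 - 2 * t) + r ^ 2 * G y m' * (1 - 2 * s) + α * (r * m') ^ 2 +
      β * (r * x * (r * m')) + γ * (r * y * (r * m')) + r ^ 2 * k =
      r ^ 2 * (F x m' * (1 - 2 * t) + G y m' * (1 - 2 * s) + α * m' ^ 2 + β * (x * m') +
        γ * (y * m') + k) := by ring
  rw [e]
  positivity

/-- the coordinates `u`, `v` of the normalised angle -/
def uu (Rj Rk h x y : ℝ) : ℝ := (x / Rj + y / Rk) / (2 * cos h)
def wv (Rj Rk h x y : ℝ) : ℝ := (y / Rk - x / Rj) / (2 * sin h)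

/-- the function `H` of `κ` -/
def Hk (κ : ℝ → ℝ) (Rj Rk h : ℝ) (x y : ℝ) : ℝ :=
  (uu Rj Rk h x y ^ 2 + wv Rj Rk h x y ^ 2) *
    κ (Complex.arg ⟨uu Rj Rk h x y, wv Rj Rk h x y⟩)

theorem uu_mul (Rj Rk h c x y : ℝ) : uu Rj Rk h (c * x) (c * y) = c * uu Rj Rk h x y := by
  unfold uu
  ring

theorem wv_mul (Rj Rk h c x y : ℝ) : wv Rj Rk h (c * x) (c * y) = c * wv Rj Rk h x y := by
  unfold wv
  ring

/-- a function of the period `2 π` only depends on the angle -/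
theorem kappa_angle {κ : ℝ → ℝ} (hκ : Function.Periodic κ (2 * π)) {a b : ℝ}
    (h : (a : Real.Angle) = b) : κ a = κ b := by
  obtain ⟨k, hk⟩ := Real.Angle.angle_eq_iff_two_pi_dvd_sub.1 h
  have : a = b + k * (2 * π) := by linarith
  rw [this]
  exact hκ.int_mul k b

theorem kappa_arg_neg {κ : ℝ → ℝ} (hκ : Function.Periodic κ π) {z : ℂ} (hz : z ≠ 0) :
    κ (Complex.arg (-z)) = κ (Complex.arg z) := by
  have h2 : Function.Periodic κ (2 * π) := by
    have := hκ.nat_mul 2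
    simpa using this
  have h1 : κ (Complex.arg (-z)) = κ (Complex.arg z + π) := by
    apply kappa_angle h2
    rw [Complex.arg_neg_coe_angle hz]
    push_cast
    rfl
  rw [h1, hκ]

theorem homBd_Hk {κ : ℝ → ℝ} (hκ : Function.Periodic κ π) (hm : Measurable κ) {K : ℝ}
    (hK : ∀ τ, |κ τ| ≤ K) (Rj Rk h : ℝ) : HomBd (Hk κ Rj Rk h) := by
  have mu : Measurable fun q : ℝ × ℝ => uu Rj Rk h q.1 q.2 := by
    unfold uu
    fun_prop
  have mv : Measurable fun q : ℝ × ℝ => wv Rj Rk h q.1 q.2 := by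
    unfold wv
    fun_prop
  refine ⟨?_, fun c x y => ?_, ?_⟩
  · unfold Hk
    have mz : Measurable fun q : ℝ × ℝ => (⟨uu Rj Rk h q.1 q.2, wv Rj Rk h q.1 q.2⟩ : ℂ) := by
      have e : (fun q : ℝ × ℝ => (⟨uu Rj Rk h q.1 q.2, wv Rj Rk h q.1 q.2⟩ : ℂ)) =
          fun q : ℝ × ℝ => ((uu Rj Rk h q.1 q.2 : ℝ) : ℂ) + (wv Rj Rk h q.1 q.2 : ℝ) * Complex.I :=
        by
          funext q
          exact Complex.mk_eq_add_mul_I _ _
      rw [e]
      fun_prop
    exact ((mu.pow_const 2).add (mv.pow_const 2)).mul (hm.comp (Complex.measurable_arg.comp mz))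
  · unfold Hk
    rw [uu_mul, wv_mul]
    obtain ⟨u, hu⟩ : ∃ u, u = uu Rj Rk h x y := ⟨_, rfl⟩
    obtain ⟨v, hv⟩ : ∃ v, v = wv Rj Rk h x y := ⟨_, rfl⟩
    rw [← hu, ← hv]
    by_cases hz : (⟨u, v⟩ : ℂ) = 0
    · have h1 : u = 0 := congrArg Complex.re hz
      have h2 : v = 0 := congrArg Complex.im hz
      rw [h1, h2]
      simp
    rcases lt_trichotomy c 0 with hc | hc | hc
    · have e : (⟨c * u, c * v⟩ : ℂ) = ((-c : ℝ) : ℂ) * (-⟨u, v⟩) := by
        apply Complex.ext <;> simp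
      rw [e, Complex.arg_real_mul _ (by linarith : 0 < -c), kappa_arg_neg hκ hz]
      ring
    · rw [hc]
      simp
    · have e : (⟨c * u, c * v⟩ : ℂ) = ((c : ℝ) : ℂ) * ⟨u, v⟩ := by
        apply Complex.ext <;> simp
      rw [e, Complex.arg_real_mul _ hc]
      ring
  · have hK0 : 0 ≤ K := (abs_nonneg _).trans (hK 0)
    refine ⟨K * (2 * ((1 / (Rj * (2 * cos h))) ^ 2 + (1 / (Rk * (2 * cos h))) ^ 2) +
      2 * ((1 / (Rj * (2 * sin h))) ^ 2 + (1 / (Rk * (2 * sin h))) ^ 2)), fun x y => ?_⟩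
    unfold Hk
    rw [abs_mul, abs_of_nonneg (by positivity :
      0 ≤ uu Rj Rk h x y ^ 2 + wv Rj Rk h x y ^ 2)]
    have h1 : uu Rj Rk h x y ^ 2 ≤
        2 * ((1 / (Rj * (2 * cos h))) ^ 2 + (1 / (Rk * (2 * cos h))) ^ 2) * (x ^ 2 + y ^ 2) := by
      have e : uu Rj Rk h x y = 1 / (Rj * (2 * cos h)) * x + 1 / (Rk * (2 * cos h)) * y := by
        unfold uu
        rw [div_eq_mul_inv, div_eq_mul_inv, div_eq_mul_inv, one_div, one_div, mul_inv, mul_inv,
          mul_inv]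
        ring
      rw [e]
      obtain ⟨a, ha⟩ : ∃ a, a = 1 / (Rj * (2 * cos h)) := ⟨_, rfl⟩
      obtain ⟨b, hb⟩ : ∃ b, b = 1 / (Rk * (2 * cos h)) := ⟨_, rfl⟩
      rw [← ha, ← hb]
      nlinarith [sq_nonneg (a * y), sq_nonneg (b * x), sq_nonneg (a * x - b * y),
        sq_nonneg (a * x), sq_nonneg (b * y)]
    have h2 : wv Rj Rk h x y ^ 2 ≤
        2 * ((1 / (Rj * (2 * sin h))) ^ 2 + (1 / (Rk * (2 * sin h))) ^ 2) * (x ^ 2 + y ^ 2) := by
      have e : wv Rj Rk h x y = 1 / (Rk * (2 * sin h)) * y - 1 / (Rj * (2 * sin h)) * x := by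
        unfold wv
        rw [div_eq_mul_inv, div_eq_mul_inv, div_eq_mul_inv, one_div, one_div, mul_inv, mul_inv,
          mul_inv]
        ring
      rw [e]
      obtain ⟨a, ha⟩ : ∃ a, a = 1 / (Rj * (2 * sin h)) := ⟨_, rfl⟩
      obtain ⟨b, hb⟩ : ∃ b, b = 1 / (Rk * (2 * sin h)) := ⟨_, rfl⟩
      rw [← ha, ← hb]
      nlinarith [sq_nonneg (a * y), sq_nonneg (b * x), sq_nonneg (a * x + b * y),
        sq_nonneg (a * x), sq_nonneg (b * y)]
    calc (uu Rj Rk h x y ^ 2 + wv Rj Rk h x y ^ 2) * |κ _|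
        ≤ (uu Rj Rk h x y ^ 2 + wv Rj Rk h x y ^ 2) * K :=
          mul_le_mul_of_nonneg_left (hK _) (by positivity)
      _ ≤ _ := by nlinarith [mul_le_mul_of_nonneg_left (add_le_add h1 h2) hK0]

/-- the value of `H` along the circle -/
theorem Hk_circle {κ : ℝ → ℝ} (hκ : Function.Periodic κ π) {Rj Rk h : ℝ} (hj : 0 < Rj)
    (hk : 0 < Rk) (hc : cos h ≠ 0) (hs : sin h ≠ 0) (τ : ℝ) :
    Hk κ Rj Rk h (Rj * cos (τ + h)) (Rk * cos (τ - h)) = κ τ := by
  have h2 : Function.Periodic κ (2 * π) := by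
    have := hκ.nat_mul 2
    simpa using this
  have e1 : uu Rj Rk h (Rj * cos (τ + h)) (Rk * cos (τ - h)) = cos τ := by
    unfold uu
    rw [cos_add, cos_sub]
    field_simp
    ring
  have e2 : wv Rj Rk h (Rj * cos (τ + h)) (Rk * cos (τ - h)) = sin τ := by
    unfold wv
    rw [cos_add, cos_sub]
    field_simp
    ring
  unfold Hk
  rw [e1, e2, cos_sq_add_sin_sq, one_mul]
  apply kappa_angle h2
  have e3 : (⟨cos τ, sin τ⟩ : ℂ) = ((cos τ : ℝ) : ℂ) + ((sin τ : ℝ) : ℂ) * Complex.I :=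
    Complex.mk_eq_add_mul_I _ _
  have e4 := Complex.arg_cos_add_sin_mul_I_coe_angle (τ : Real.Angle)
  rw [Real.Angle.cos_coe, Real.Angle.sin_coe] at e4
  rw [e3]
  exact e4

/-- the mean of `H` -/
theorem avgP_Hk {κ : ℝ → ℝ} (hκ : Function.Periodic κ π) (hm : Measurable κ) {K : ℝ}
    (hK : ∀ τ, |κ τ| ≤ K) {Rj Rk h : ℝ} (hj : 0 < Rj) (hk : 0 < Rk) (hc : cos h ≠ 0)
    (hs : sin h ≠ 0) (t0 : ℝ) :
    avgP (Hk κ Rj Rk h) Rj Rk (2 * h) = 2 / π * ∫ τ in t0..(t0 + π), κ τ := by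
  unfold avgP
  have e : ∀ φ : ℝ, Hk κ Rj Rk h (Rj * cos φ) (Rk * cos (φ - 2 * h)) = κ (φ - h) := by
    intro φ
    have := Hk_circle hκ hj hk hc hs (φ - h)
    rwa [show φ - h + h = φ by ring, show φ - h - h = φ - 2 * h by ring] at this
  simp only [e]
  rw [intervalIntegral.integral_comp_sub_right (fun φ => κ φ) h]
  have hint : ∀ a b : ℝ, IntervalIntegrable κ volume a b := fun a b =>
    (intervalIntegrable_const (c := K)).mono_fun' hm.aestronglyMeasurable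
      (Filter.Eventually.of_forall fun τ => by
        dsimp only
        rw [Real.norm_eq_abs]
        exact hK τ)
  have e1 : (∫ τ in (0 - h)..(2 * π - h), κ τ) =
      (∫ τ in (0 - h)..(0 - h + π), κ τ) + ∫ τ in (0 - h + π)..(0 - h + π + π), κ τ := by
    rw [show 2 * π - h = 0 - h + π + π by ring]
    exact (intervalIntegral.integral_add_adjacent_intervals (hint _ _) (hint _ _)).symm
  rw [e1, hκ.intervalIntegral_add_eq (0 - h) t0, hκ.intervalIntegral_add_eq (0 - h + π) t0]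
  ring

/-- **the pair inequality from a function of the normalised angle** -/
theorem RPair_of_kappa {F : ℝ → ℝ → ℝ → ℝ} {g0 g1 g2 : ℝ → ℝ} {Rj Rk θ : ℝ} (hj : 0 < Rj)
    (hk : 0 < Rk) (h0 : 0 < θ) (hπ : θ < π) (hFj : Hom2 (F Rj)) (hFk : Hom2 (F Rk))
    {κ : ℝ → ℝ} (hκ : Function.Periodic κ π) (hm : Measurable κ) {K : ℝ} (hK : ∀ τ, |κ τ| ≤ K)
    (t0 : ℝ) {α u v : ℝ} (hu : 0 < u) (hv : 0 < v)
    (hz : PWat (F Rj) (F Rk) α (u + cos θ * g1 Rj) (v + cos θ * g1 Rk) 0 0 0)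
    (hP : ∀ τ, t0 ≤ τ → τ < t0 + π →
      PWat (F Rj) (F Rk) α (u + cos θ * g1 Rj) (v + cos θ * g1 Rk) (Rj * cos (τ + θ / 2))
        (Rk * cos (τ - θ / 2)) (κ τ) ∧
      PWat (F Rj) (F Rk) α (u + cos θ * g1 Rj) (v + cos θ * g1 Rk) (-(Rj * cos (τ + θ / 2)))
        (-(Rk * cos (τ - θ / 2))) (κ τ))
    (hle : (1 - g2 Rj * cos θ) ^ 2 / (2 * u) + u * (1 + Rj ^ 2) / 2 +
      ((1 - g2 Rk * cos θ) ^ 2 / (2 * v) + v * (1 + Rk ^ 2) / 2) + α +
        2 / π * ∫ τ in t0..(t0 + π), κ τ ≤ √2 * (Rj + Rk) + cos θ * (g0 Rj + g0 Rk)) :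
    RPair F g0 g1 g2 Rj Rk θ (cos θ) := by
  have hc : cos (θ / 2) ≠ 0 := (cos_pos_of_mem_Ioo ⟨by linarith, by linarith⟩).ne'
  have hs : sin (θ / 2) ≠ 0 := (sin_pos_of_pos_of_lt_pi (by linarith) (by linarith)).ne'
  refine ⟨α, u, v, Hk κ Rj Rk (θ / 2), hu, hv, homBd_Hk hκ hm hK _ _ _, ?_, ?_⟩
  · -- the pointwise inequality at all angles
    have hall : ∀ τ, PWat (F Rj) (F Rk) α (u + cos θ * g1 Rj) (v + cos θ * g1 Rk)
        (Rj * cos (τ + θ / 2)) (Rk * cos (τ - θ / 2)) (κ τ) := by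
      intro τ
      obtain ⟨n, hn, -⟩ := existsUnique_add_zsmul_mem_Ico pi_pos τ t0
      have e1 : κ τ = κ (τ + n • π) := ((hκ.zsmul n) τ).symm
      have hn2 : τ + n • π = τ + n * π := by rw [zsmul_eq_mul]
      rw [hn2] at hn e1
      obtain ⟨p1, p2⟩ := hP (τ + n * π) hn.1 hn.2
      rw [e1]
      rcases Int.even_or_odd n with he | ho
      · have c1 : cos (τ + n * π + θ / 2) = cos (τ + θ / 2) := by
          rw [show τ + n * π + θ / 2 = τ + θ / 2 + n * π by ring, cos_add_int_mul_pi,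
            he.neg_one_zpow, one_mul]
        have c2 : cos (τ + n * π - θ / 2) = cos (τ - θ / 2) := by
          rw [show τ + n * π - θ / 2 = τ - θ / 2 + n * π by ring, cos_add_int_mul_pi,
            he.neg_one_zpow, one_mul]
        rwa [c1, c2] at p1
      · have c1 : cos (τ + n * π + θ / 2) = -cos (τ + θ / 2) := by
          rw [show τ + n * π + θ / 2 = τ + θ / 2 + n * π by ring, cos_add_int_mul_pi,
            ho.neg_one_zpow, neg_one_mul]
        have c2 : cos (τ + n * π - θ / 2) = -cos (τ - θ / 2) := by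
          rw [show τ + n * π - θ / 2 = τ - θ / 2 + n * π by ring, cos_add_int_mul_pi,
            ho.neg_one_zpow, neg_one_mul]
        rw [c1, c2, mul_neg, neg_neg, mul_neg, neg_neg] at p2
        exact p2
    intro m x y s t
    change 0 ≤ m → _
    obtain ⟨U, hU⟩ : ∃ U, U = uu Rj Rk (θ / 2) x y := ⟨_, rfl⟩
    obtain ⟨W, hW⟩ : ∃ W, W = wv Rj Rk (θ / 2) x y := ⟨_, rfl⟩
    have ex : x = Rj * (U * cos (θ / 2) - W * sin (θ / 2)) := by
      rw [hU, hW]
      unfold uu wv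
      field_simp
      ring
    have ey : y = Rk * (U * cos (θ / 2) + W * sin (θ / 2)) := by
      rw [hU, hW]
      unfold uu wv
      field_simp
      ring
    obtain ⟨z, hzz⟩ : ∃ z : ℂ, z = ⟨U, W⟩ := ⟨_, rfl⟩
    have eH : Hk κ Rj Rk (θ / 2) x y = (U ^ 2 + W ^ 2) * κ (Complex.arg z) := by
      unfold Hk
      rw [← hU, ← hW, hzz]
    rw [eH]
    by_cases h00 : z = 0
    · have hU0 : U = 0 := by
        have := congrArg Complex.re h00
        rw [hzz] at this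
        exact this
      have hW0 : W = 0 := by
        have := congrArg Complex.im h00
        rw [hzz] at this
        exact this
      have x0 : x = 0 := by rw [ex, hU0, hW0]; ring
      have y0 : y = 0 := by rw [ey, hU0, hW0]; ring
      have eκ : ((0 : ℝ) ^ 2 + 0 ^ 2) * κ (Complex.arg z) = 0 := by ring
      rw [hU0, hW0, x0, y0, eκ]
      exact hz m s t
    · have hr : 0 < ‖z‖ := norm_pos_iff.2 h00
      have c1 : ‖z‖ * cos (Complex.arg z) = U := by
        rw [Complex.norm_mul_cos_arg, hzz]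
      have c2 : ‖z‖ * sin (Complex.arg z) = W := by
        rw [Complex.norm_mul_sin_arg, hzz]
      have n2 : ‖z‖ ^ 2 = U ^ 2 + W ^ 2 := by
        rw [← c1, ← c2, mul_pow, mul_pow, ← mul_add, cos_sq_add_sin_sq, mul_one]
      have key := (hall (Complex.arg z)).scale hFj hFk hr
      have ex' : ‖z‖ * (Rj * cos (Complex.arg z + θ / 2)) = x := by
        rw [ex, ← c1, ← c2, cos_add]
        ring
      have ey' : ‖z‖ * (Rk * cos (Complex.arg z - θ / 2)) = y := by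
        rw [ey, ← c1, ← c2, cos_sub]
        ring
      rw [ex', ey', n2] at key
      exact key m s t
  · have e := avgP_Hk hκ hm hK hj hk hc hs t0
    rw [show 2 * (θ / 2) = θ by ring] at e
    rw [e]
    exact hle

end Pool.Agent.RRS
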