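import Pool.Agent.RRS.Chk8
import Pool.Agent.RRS.TailAll

/-!
# The middle block `R_j < 3 ≤ R_k ≤ 5`: trees of cells
-/

set_option autoImplicit false

namespace Pool.Agent.RRS

open Real

/-! ### The pieces of the frozen functions -/

def mP1 : Piece := ⟨(0, -500), (1030, 10), (1030, -660), (2060, -650), (3090, -1310), false⟩
def mP2 : Piece := ⟨(-500, 0), (640, 400), (310, 60), (2160, -750), (3680, -1900), false⟩
def mP3 : Piece := ⟨(-560, 40), (1855, -410), (100, 200), (2700, -1110), (1730, -600), false⟩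
def mP4 : Piece := ⟨(-1180, 350), (985, 25), (840, -170), (500, -10), (-130, 330), false⟩
def mPs : Piece := ⟨(0, 0), (1000, 0), (1000, 0), (0, 0), (1000, 0), true⟩

/-- the piece describes the functions at `R` -/
structure PcOK (p : Piece) (R : ℝ) : Prop where
  F : Fz R = (p.L R).F
  g1 : g1z R = p.g1 R
  g0 : g0z R = -√2 * R * p.g2 + p.G R
  g2 : g2z R = p.g2

theorem pcOK_of {p : Piece} {R : ℝ} (h3 : R < 3) (hs : p.smp = false) (h : Lz R = p.L R) :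
    PcOK p R := by
  refine ⟨?_, ?_, ?_, ?_⟩
  · rw [Fz, h]
  · rw [g1z_lt h3, h, Piece.g1, hs]
    rfl
  · rw [g0z_lt h3, h, Piece.g2, Piece.G, hs]
    simp only [Piece.L, Bool.false_eq_true, if_false]
    ring
  · rw [g2z_lt h3, Piece.g2, hs]
    rfl

theorem pcOK1 {R : ℝ} (h : R ≤ 1) : PcOK mP1 R := by
  refine pcOK_of (by linarith) rfl ?_
  rw [Lz_one h]
  simp only [Lp1, mkL, Piece.L, mP1, affR, LF.mk.injEq]
  push_cast
  refine ⟨?_, ?_, ?_, ?_, ?_, ?_⟩ <;> ring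

theorem pcOK2 {R : ℝ} (h1 : 1 ≤ R) (h2 : R ≤ 3 / 2) : PcOK mP2 R := by
  refine pcOK_of (by linarith) rfl ?_
  rw [Lz_two h1 h2]
  simp only [Lp2, mkL, Piece.L, mP2, affR, LF.mk.injEq]
  push_cast
  refine ⟨?_, ?_, ?_, ?_, ?_, ?_⟩ <;> ring

theorem pcOK3 {R : ℝ} (h1 : 3 / 2 ≤ R) (h2 : R ≤ 2) : PcOK mP3 R := by
  refine pcOK_of (by linarith) rfl ?_
  rw [Lz_three h1 h2]
  simp only [Lp3, mkL, Piece.L, mP3, affR, LF.mk.injEq]
  push_cast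
  refine ⟨?_, ?_, ?_, ?_, ?_, ?_⟩ <;> ring

theorem pcOK4 {R : ℝ} (h1 : 2 ≤ R) (h2 : R < 3) : PcOK mP4 R := by
  refine pcOK_of h2 rfl ?_
  rw [Lz_four h1 h2]
  simp only [Lp4, mkL, Piece.L, mP4, affR, LF.mk.injEq]
  push_cast
  refine ⟨?_, ?_, ?_, ?_, ?_, ?_⟩ <;> ring

theorem pcOKs {R : ℝ} (h : 3 ≤ R) : PcOK mPs R := by
  refine ⟨?_, ?_, ?_, ?_⟩
  · rw [Fz, Lz_five h]
    congr 1
    simp only [Ls, mkL, Piece.L, mPs, affR, LF.mk.injEq]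
    push_cast
    refine ⟨?_, ?_, ?_, ?_, ?_, ?_⟩ <;> ring
  · rw [g1z_ge h]
    rfl
  · rw [g0z_ge h]
    simp [Piece.g2, Piece.G, mPs]
  · rw [g2z_ge h]
    rfl

/-- the piece of an interval -/
def pcOf (j1 : ℕ) : Piece :=
  if Nat.ble j1 64 then mP1 else if Nat.ble j1 96 then mP2 else if Nat.ble j1 128 then mP3 else mP4

/-- the interval is inside a piece -/
def pcIn (j0 j1 : ℕ) : Bool :=
  if Nat.ble j1 64 then true else if Nat.ble j1 96 then Nat.ble 64 j0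
  else if Nat.ble j1 128 then Nat.ble 96 j0 else Nat.ble 128 j0

theorem pcOf_ok {j0 j1 : ℕ} (h : pcIn j0 j1 = true) {R : ℝ} (h3 : R < 3)
    (a1 : (j0 : ℝ) ≤ 64 * R) (a2 : 64 * R ≤ j1) : PcOK (pcOf j1) R := by
  unfold pcIn at h
  unfold pcOf
  simp only [Nat.ble_eq] at h ⊢
  split_ifs at h ⊢ with c1 c2 c3
  · have : (j1 : ℝ) ≤ 64 := by exact_mod_cast c1
    exact pcOK1 (by linarith)
  · rw [Nat.ble_eq] at h
    have e1 : (j1 : ℝ) ≤ 96 := by exact_mod_cast c2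
    have e2 : (64 : ℝ) ≤ j0 := by exact_mod_cast h
    exact pcOK2 (by linarith) (by linarith)
  · rw [Nat.ble_eq] at h
    have e1 : (j1 : ℝ) ≤ 128 := by exact_mod_cast c3
    have e2 : (96 : ℝ) ≤ j0 := by exact_mod_cast h
    exact pcOK3 (by linarith) (by linarith)
  · rw [Nat.ble_eq] at h
    have e2 : (128 : ℝ) ≤ j0 := by exact_mod_cast h
    exact pcOK4 (by linarith) h3

/-! ### Trees -/

/-- a tree of cells -/
inductive MT : Type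
  | leaf (gs : List ℕ) (c00 c10 c01 c11 : Cor) : MT
  | sj (x : ℕ) (a b : MT) : MT
  | sk (x : ℕ) (a b : MT) : MT
  | sm (x : ℕ) (a b : MT) : MT

/-- the check -/
def MT.ok (kr : ℕ → KRow) (row : ℕ → Row) : MT → ℕ → ℕ → ℕ → ℕ → ℕ → ℕ → Bool
  | .leaf gs c00 c10 c01 c11, j0, j1, k0, k1, m0, m1 =>
    pcIn j0 j1 && cellOK kr row (pcOf j1) mPs j0 j1 k0 k1 m0 m1 gs c00 c10 c01 c11
  | .sj x a b, j0, j1, k0, k1, m0, m1 =>
    a.ok kr row j0 x k0 k1 m0 m1 && b.ok kr row x j1 k0 k1 m0 m1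
  | .sk x a b, j0, j1, k0, k1, m0, m1 =>
    a.ok kr row j0 j1 k0 x m0 m1 && b.ok kr row j0 j1 x k1 m0 m1
  | .sm x a b, j0, j1, k0, k1, m0, m1 =>
    Nat.ble m0 x && Nat.ble x m1 && a.ok kr row j0 j1 k0 k1 m0 x && b.ok kr row j0 j1 k0 k1 x m1

/-- **the check of a tree is sound** -/
theorem MT.sound {kr : ℕ → KRow} {row : ℕ → Row} {Rj Rk θ : ℝ} (hRj : 0 < Rj) (h3 : Rj < 3)
    (hRk : 3 ≤ Rk) (h0 : 0 < θ) (hπ : θ < π) :
    ∀ (t : MT) (j0 j1 k0 k1 m0 m1 : ℕ), t.ok kr row j0 j1 k0 k1 m0 m1 = true →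
    (∀ a b, m0 ≤ a → a ≤ b → b ≤ m1 → KapOK kr a b) →
    (∀ m, m0 ≤ m → m < m1 → RowOK row m) → m0 ≤ m1 →
    (j0 : ℝ) ≤ 64 * Rj → 64 * Rj ≤ j1 → (k0 : ℝ) ≤ 64 * Rk → 64 * Rk ≤ k1 →
    thG m0 ≤ θ → θ ≤ thG m1 → RPair Fz g0z g1z g2z Rj Rk θ (cos θ) := by
  intro t
  induction t with
  | leaf gs c00 c10 c01 c11 =>
    intro j0 j1 k0 k1 m0 m1 h hK hR hm a1 a2 a3 a4 t1 t2
    rw [MT.ok, Bool.and_eq_true] at h
    have pj := pcOf_ok h.1 h3 a1 a2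
    have pk := pcOKs hRk
    exact cell_sound h.2 (hK _ _ le_rfl hm le_rfl) hR hRj (by linarith) a1 a2 a3 a4 h0 hπ t1 t2
      pj.F pk.F pj.g1 pk.g1 pj.g0 pk.g0 pj.g2 pk.g2
  | sj x a b iha ihb =>
    intro j0 j1 k0 k1 m0 m1 h hK hR hm a1 a2 a3 a4 t1 t2
    rw [MT.ok, Bool.and_eq_true] at h
    rcases le_total (64 * Rj) x with hx | hx
    · exact iha _ _ _ _ _ _ h.1 hK hR hm a1 hx a3 a4 t1 t2
    · exact ihb _ _ _ _ _ _ h.2 hK hR hm hx a2 a3 a4 t1 t2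
  | sk x a b iha ihb =>
    intro j0 j1 k0 k1 m0 m1 h hK hR hm a1 a2 a3 a4 t1 t2
    rw [MT.ok, Bool.and_eq_true] at h
    rcases le_total (64 * Rk) x with hx | hx
    · exact iha _ _ _ _ _ _ h.1 hK hR hm a1 a2 a3 hx t1 t2
    · exact ihb _ _ _ _ _ _ h.2 hK hR hm a1 a2 hx a4 t1 t2
  | sm x a b iha ihb =>
    intro j0 j1 k0 k1 m0 m1 h hK hR hm a1 a2 a3 a4 t1 t2
    rw [MT.ok, Bool.and_eq_true, Bool.and_eq_true, Bool.and_eq_true, Nat.ble_eq, Nat.ble_eq] at h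
    obtain ⟨⟨⟨x0, x1⟩, hA⟩, hB⟩ := h
    rcases le_total θ (thG x) with hx | hx
    · exact iha _ _ _ _ _ _ hA (fun a b e1 e2 e3 => hK a b e1 e2 (e3.trans x1))
        (fun m e1 e2 => hR m e1 (lt_of_lt_of_le e2 x1)) x0 a1 a2 a3 a4 t1 hx
    · exact ihb _ _ _ _ _ _ hB (fun a b e1 e2 e3 => hK a b (x0.trans e1) e2 e3)
        (fun m e1 e2 => hR m (x0.trans e1) e2) x1 a1 a2 a3 a4 hx t2

/-- the angle is between the nodes `31` and `97` -/
theorem theta_mid {θ : ℝ} (t0 : 0 ≤ θ) (t1 : θ ≤ π) (hc : |cos θ| ≤ 71 / 100) :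
    thG 31 ≤ θ ∧ θ ≤ thG 97 := by
  have hpi := Real.pi_lt_d4
  have key : ∀ x : ℝ, 0 ≤ x → cos x ≤ 71 / 100 → 31 * π / 128 ≤ x := by
    intro x hx hcx
    have h1 := Real.one_sub_sq_div_two_le_cos (x := x)
    by_contra hlt
    rw [not_le] at hlt
    have h2 : x < 31 * 3.1416 / 128 := lt_trans hlt (by linarith)
    have h3 : x ^ 2 < (31 * 3.1416 / 128) ^ 2 := pow_lt_pow_left₀ h2 hx two_ne_zero
    norm_num at h3
    linarith
  obtain ⟨c1, c2⟩ := abs_le.1 hc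
  have k1 := key θ t0 c2
  have k2 := key (π - θ) (by linarith) (by rw [cos_pi_sub]; linarith)
  unfold thG
  push_cast
  constructor <;> linarith

/-- **the middle block from a tree** -/
theorem mid_of_tree {kr : ℕ → KRow} {row : ℕ → Row} (t : MT)
    (h : t.ok kr row 0 192 192 320 31 97 = true)
    (hK : ∀ a b, 31 ≤ a → a ≤ b → b ≤ 97 → KapOK kr a b)
    (hR : ∀ m, 31 ≤ m → m < 97 → RowOK row m) {Rj Rk θ : ℝ} (hj : 0 < Rj) (hk : 3 ≤ Rk)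
    (t0 : 0 ≤ θ) (t1 : θ ≤ π) (hm : MidBlock Rj Rk θ) :
    RPair Fz g0z g1z g2z Rj Rk θ (cos θ) := by
  obtain ⟨h3, h5, hc⟩ := hm
  obtain ⟨u1, u2⟩ := theta_mid t0 t1 hc
  have hpi := Real.pi_pos
  have e1 : 0 < θ := by
    unfold thG at u1
    push_cast at u1
    linarith
  have e2 : θ < π := by
    unfold thG at u2
    push_cast at u2
    linarith
  refine MT.sound hj h3 hk e1 e2 t 0 192 192 320 31 97 h hK hR (by norm_num) ?_ ?_ ?_ ?_ u1 u2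
  · push_cast
    linarith
  · push_cast
    linarith
  · push_cast
    linarith
  · push_cast
    linarith

end Pool.Agent.RRS
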