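import Pool.Agent.RRM.Act

/-!
# The optimal location (the geometric median)

`exists_opt`: there is a location `y` of minimal cost and there are vectors `u i` of norm at most `1`
with the sum `0`, such that `u i` is the unit vector of `p i - y` whenever `p i ≠ y`.
-/

set_option autoImplicit false

noncomputable section

namespace Pool.Agent.RRS

open Real Pool.Agent.RRM

variable {n d : ℕ}

theorem continuous_cost' (p : Fin (n + 1) → E d) : Continuous fun y : E d => cost p y := by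
  unfold cost
  exact continuous_finsetSum _ fun i _ => (continuous_const.sub continuous_id).norm

theorem exists_min (p : Fin (n + 1) → E d) : ∃ y : E d, ∀ z, cost p y ≤ cost p z := by
  refine (continuous_cost' p).exists_forall_le ?_
  have h1 : ∀ z : E d, ‖z‖ - ‖p 0‖ ≤ cost p z := by
    intro z
    have h2 : ‖p 0 - z‖ ≤ cost p z :=
      Finset.single_le_sum (f := fun i => ‖p i - z‖) (fun i _ => norm_nonneg _)
        (Finset.mem_univ 0)
    have h3 : ‖z‖ - ‖p 0‖ ≤ ‖p 0 - z‖ := by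
      rw [norm_sub_rev]
      exact norm_sub_norm_le _ _
    exact h3.trans h2
  refine Filter.tendsto_atTop_mono h1 ?_
  exact Filter.tendsto_atTop_add_const_right _ (-‖p 0‖) (tendsto_norm_cocompact_atTop (E := E d))

/-- the norm of a difference to second order -/
theorem norm_sub_le_second {x v : E d} (hx : x ≠ 0) {s : ℝ} :
    ‖x - s • v‖ ≤ ‖x‖ - s * inner ℝ (‖x‖⁻¹ • x) v + s ^ 2 * (‖v‖ ^ 2 / (2 * ‖x‖)) := by
  have hn : 0 < ‖x‖ := norm_pos_iff.2 hx
  have h1 : ‖x - s • v‖ ^ 2 = ‖x‖ ^ 2 - 2 * s * inner ℝ x v + s ^ 2 * ‖v‖ ^ 2 := by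
    rw [@norm_sub_sq_real, real_inner_smul_right, norm_smul, mul_pow, Real.norm_eq_abs, sq_abs]
    ring
  have h2 : inner ℝ (‖x‖⁻¹ • x) v = ‖x‖⁻¹ * inner ℝ x v := real_inner_smul_left _ _ _
  have h3 : 2 * ‖x‖ * ‖x - s • v‖ ≤ ‖x‖ ^ 2 + ‖x - s • v‖ ^ 2 := by
    nlinarith [sq_nonneg (‖x‖ - ‖x - s • v‖)]
  rw [h1] at h3
  rw [h2]
  have h4 : ‖x - s • v‖ ≤ (2 * ‖x‖ ^ 2 - 2 * s * inner ℝ x v + s ^ 2 * ‖v‖ ^ 2) / (2 * ‖x‖) := by
    rw [le_div_iff₀ (by positivity)]
    linarith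
  refine h4.trans (le_of_eq ?_)
  field_simp

/-- the norm of the sum of the unit vectors -/
theorem norm_sum_unit_le (p : Fin (n + 1) → E d) {y : E d} (hy : ∀ z, cost p y ≤ cost p z) :
    ‖∑ i with p i ≠ y, ‖p i - y‖⁻¹ • (p i - y)‖ ≤
      ((Finset.univ.filter fun i => p i = y).card : ℝ) := by
  obtain ⟨S, hS⟩ : ∃ S, S = ∑ i with p i ≠ y, ‖p i - y‖⁻¹ • (p i - y) := ⟨_, rfl⟩
  obtain ⟨N0, hN0⟩ : ∃ N0 : ℝ, N0 = ((Finset.univ.filter fun i => p i = y).card : ℝ) :=
    ⟨_, rfl⟩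
  rw [← hS, ← hN0]
  obtain ⟨K, hK⟩ : ∃ K : ℝ, K = ∑ i with p i ≠ y, ‖S‖ ^ 2 / (2 * ‖p i - y‖) := ⟨_, rfl⟩
  have hK0 : 0 ≤ K := by
    rw [hK]
    exact Finset.sum_nonneg fun i _ => by positivity
  have key : ∀ s : ℝ, 0 < s → ‖S‖ ^ 2 ≤ N0 * ‖S‖ + s * K := by
    intro s hs
    have h1 := hy (y + s • S)
    have h2 : cost p (y + s • S) ≤ cost p y + s * (N0 * ‖S‖) - s * ‖S‖ ^ 2 + s ^ 2 * K := by
      have e1 : ∀ z : E d, cost p z = (∑ i with p i = y, ‖p i - z‖) +
          ∑ i with p i ≠ y, ‖p i - z‖ := by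
        intro z
        unfold cost
        exact (Finset.sum_filter_add_sum_filter_not _ _ _).symm
      rw [e1, e1]
      have a1 : ∑ i with p i = y, ‖p i - (y + s • S)‖ =
          (∑ i with p i = y, ‖p i - y‖) + s * (N0 * ‖S‖) := by
        have b1 : ∀ i ∈ Finset.univ.filter fun i => p i = y, ‖p i - (y + s • S)‖ =
            ‖p i - y‖ + s * ‖S‖ := by
          intro i hi
          rw [Finset.mem_filter] at hi
          rw [hi.2, sub_self, norm_zero, zero_add, sub_add_cancel_left, norm_neg, norm_smul,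
            Real.norm_eq_abs, abs_of_pos hs]
        rw [Finset.sum_congr rfl b1, Finset.sum_add_distrib, Finset.sum_const, nsmul_eq_mul,
          ← hN0]
        ring
      have a2 : ∑ i with p i ≠ y, ‖p i - (y + s • S)‖ ≤
          (∑ i with p i ≠ y, ‖p i - y‖) - s * ‖S‖ ^ 2 + s ^ 2 * K := by
        have b2 : ∀ i ∈ Finset.univ.filter fun i => p i ≠ y, ‖p i - (y + s • S)‖ ≤
            ‖p i - y‖ - s * inner ℝ (‖p i - y‖⁻¹ • (p i - y)) S +
              s ^ 2 * (‖S‖ ^ 2 / (2 * ‖p i - y‖)) := by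
          intro i hi
          rw [Finset.mem_filter] at hi
          rw [← sub_sub]
          exact norm_sub_le_second (sub_ne_zero.2 hi.2)
        refine (Finset.sum_le_sum b2).trans (le_of_eq ?_)
        rw [Finset.sum_add_distrib, Finset.sum_sub_distrib, ← Finset.mul_sum, ← Finset.mul_sum,
          ← hK, ← sum_inner, ← hS, real_inner_self_eq_norm_sq]
      rw [a1]
      linarith
    have h3 : s * ‖S‖ ^ 2 ≤ s * (N0 * ‖S‖ + s * K) := by
      have e : s * (N0 * ‖S‖ + s * K) = s * (N0 * ‖S‖) + s ^ 2 * K := by ring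
      rw [e]
      linarith
    exact le_of_mul_le_mul_left h3 hs
  have h4 : ‖S‖ ^ 2 ≤ N0 * ‖S‖ := by
    refine le_of_forall_pos_le_add fun ε hε => ?_
    have h5 := key (ε / (K + 1)) (by positivity)
    have h6 : ε / (K + 1) * K ≤ ε := by
      rw [div_mul_eq_mul_div, div_le_iff₀ (by positivity)]
      nlinarith
    linarith
  rcases (norm_nonneg S).eq_or_lt with h5 | h5
  · rw [← h5, hN0]
    exact Nat.cast_nonneg _
  · have h6 : ‖S‖ * ‖S‖ ≤ N0 * ‖S‖ := by
      rw [← sq]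
      exact h4
    exact le_of_mul_le_mul_right h6 h5

theorem exists_opt (p : Fin (n + 1) → E d) :
    ∃ (y : E d) (u : Fin (n + 1) → E d), (∀ z, cost p y ≤ cost p z) ∧
      (∀ i, p i ≠ y → u i = ‖p i - y‖⁻¹ • (p i - y)) ∧ (∀ i, ‖u i‖ ≤ 1) ∧ ∑ i, u i = 0 := by
  obtain ⟨y, hy⟩ := exists_min p
  have h1 := norm_sum_unit_le p hy
  obtain ⟨S, hS⟩ : ∃ S, S = ∑ i with p i ≠ y, ‖p i - y‖⁻¹ • (p i - y) := ⟨_, rfl⟩
  obtain ⟨N0, hN0⟩ : ∃ N0 : ℝ, N0 = ((Finset.univ.filter fun i => p i = y).card : ℝ) :=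
    ⟨_, rfl⟩
  rw [← hS, ← hN0] at h1
  have hN00 : 0 ≤ N0 := by rw [hN0]; exact Nat.cast_nonneg _
  refine ⟨y, fun i => if p i ≠ y then ‖p i - y‖⁻¹ • (p i - y) else -(N0⁻¹ • S), hy,
    fun i hi => if_pos hi, fun i => ?_, ?_⟩
  · by_cases hi : p i ≠ y
    · simp only [hi, if_true, not_false_eq_true, ne_eq]
      rw [norm_smul, norm_inv, norm_norm, inv_mul_cancel₀]
      exact norm_ne_zero_iff.2 (sub_ne_zero.2 hi)
    · simp only [hi, if_false]
      rw [norm_neg, norm_smul, norm_inv, Real.norm_eq_abs, abs_of_nonneg hN00]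
      rcases hN00.eq_or_lt with h | h
      · rw [← h, inv_zero, zero_mul]
        exact zero_le_one
      · rw [inv_mul_le_iff₀ h, mul_one]
        exact h1
  · have e : ∀ i, (if p i ≠ y then ‖p i - y‖⁻¹ • (p i - y) else -(N0⁻¹ • S)) =
        (if p i ≠ y then ‖p i - y‖⁻¹ • (p i - y) else 0) +
          if p i = y then -(N0⁻¹ • S) else 0 := by
      intro i
      by_cases hi : p i = y
      · simp [hi]
      · simp [hi]
    simp only [e]
    rw [Finset.sum_add_distrib, ← Finset.sum_filter, ← Finset.sum_filter, Finset.sum_const,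
      ← hS, ← Nat.cast_smul_eq_nsmul ℝ, ← hN0]
    rcases hN00.eq_or_lt with h | h
    · rw [← h, zero_smul, add_zero]
      rw [← h] at h1
      exact norm_le_zero_iff.1 h1
    · rw [smul_neg, smul_smul, mul_inv_cancel₀ h.ne', one_smul, add_neg_cancel]

end Pool.Agent.RRS
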