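import Pool.Agent.RRS.PiRcD

/-!
# Opposite points: the larger radius is at least `3/2`
-/

set_option autoImplicit false

noncomputable section

namespace Pool.Agent.RRS

open Real

/-- **opposite points with `0 < s ≤ l`, `3/2 ≤ l < 3`** -/
theorem pi_rc {s l : ℝ} (hs : 0 < s) (hsl : s ≤ l) (hl : 3 / 2 ≤ l) (hl3 : l < 3) :
    RPair0 Fz g0z g1z g2z s l π (cos π) := by
  have hl0 : 0 < l := by linarith
  have hs3 : s < 3 := by linarith
  rcases le_total l 2 with hl2 | hl2
  · have eL := Lz_Pc3 hl hl2
    rcases le_or_gt s 1 with h1 | h1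
    · exact rcTree00.sound rcTree00_ok hs hs3 hl0 hl3 hsl (Lz_Pc1 h1) eL (by push_cast; linarith)
        (by push_cast; linarith) (by push_cast; linarith) (by push_cast; linarith)
    rcases le_or_gt s (3 / 2) with h2 | h2
    · exact rcTree10.sound rcTree10_ok hs hs3 hl0 hl3 hsl (Lz_Pc2 h1.le h2) eL
        (by push_cast; linarith) (by push_cast; linarith) (by push_cast; linarith)
        (by push_cast; linarith)
    · exact rcTree20.sound rcTree20_ok hs hs3 hl0 hl3 hsl (Lz_Pc3 h2.le (hsl.trans hl2)) eL
        (by push_cast; linarith) (by push_cast; linarith) (by push_cast; linarith)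
        (by push_cast; linarith)
  · have eL := Lz_Pc4 hl2 hl3
    rcases le_or_gt s 1 with h1 | h1
    · exact rcTree01.sound rcTree01_ok hs hs3 hl0 hl3 hsl (Lz_Pc1 h1) eL (by push_cast; linarith)
        (by push_cast; linarith) (by push_cast; linarith) (by push_cast; linarith)
    rcases le_or_gt s (3 / 2) with h2 | h2
    · exact rcTree11.sound rcTree11_ok hs hs3 hl0 hl3 hsl (Lz_Pc2 h1.le h2) eL
        (by push_cast; linarith) (by push_cast; linarith) (by push_cast; linarith)
        (by push_cast; linarith)
    rcases le_or_gt s 2 with h3 | h3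
    · exact rcTree21.sound rcTree21_ok hs hs3 hl0 hl3 hsl (Lz_Pc3 h2.le h3) eL
        (by push_cast; linarith) (by push_cast; linarith) (by push_cast; linarith)
        (by push_cast; linarith)
    · exact rcTree31.sound rcTree31_ok hs hs3 hl0 hl3 hsl (Lz_Pc4 h3.le hs3) eL
        (by push_cast; linarith) (by push_cast; linarith) (by push_cast; linarith)
        (by push_cast; linarith)

end Pool.Agent.RRS
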