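import Pool.Agent.RRS.TubeND1
import Pool.Agent.RRS.TubeND2
import Pool.Agent.RRS.TubeND3
import Pool.Agent.RRS.TubeND4
import Pool.Agent.RRS.TubeND5

/-!
# The tube, first region
-/

set_option autoImplicit false

noncomputable section

namespace Pool.Agent.RRS

open Real

def tnTopT1 : TnT :=
  tnTree0

theorem tnTopT1_ok : tnTopT1.chk false (7/64) (3/4) (1) (0) (1) = true := by
  simp only [tnTopT1, TnT.chk, tnTree0_ok, Bool.and_self]

def tnTopT2 : TnT :=
  (.M (15/32) (.S (5/4) tnTree1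
     (.M (15/64) (.S (11/8) tnTree2
       (.M (15/128) (.S (23/16) tnTree3
         tnTree4)
        tnTree5))
      tnTree6))
    (.S (5/4) (.M (45/64) tnTree7
      (.S (9/8) tnTree8
       (.M (105/128) tnTree9
        tnTree10)))
     (.M (45/64) tnTree11
      tnTree12)))

theorem tnTopT2_ok : tnTopT2.chk true (7/64) (1) (3/2) (0) (15/16) = true := by
  simp only [tnTopT2, TnT.chk, tnTree1_ok, tnTree2_ok, tnTree3_ok, tnTree4_ok, tnTree5_ok, tnTree6_ok, tnTree7_ok, tnTree8_ok, tnTree9_ok, tnTree10_ok, tnTree11_ok, tnTree12_ok, Bool.and_self]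

def tnTopT3 : TnT :=
  (.S (5/4) (.S (9/8) tnTree13
     tnTree14)
    tnTree15)

theorem tnTopT3_ok : tnTopT3.chk true (3/32) (1) (3/2) (15/16) (1) = true := by
  simp only [tnTopT3, TnT.chk, tnTree13_ok, tnTree14_ok, tnTree15_ok, Bool.and_self]

/-- **the tube, first region** -/
theorem tubeI_num {R1 R2 ε : ℝ} (h2 : 0 < R2) (h21 : R2 ≤ 1) (h12 : R2 ≤ R1) (h3 : R1 ≤ 3 / 2)
    (q1 : 3 / 2 ≤ R1 ^ 2 + R2 ^ 2) (q2 : R1 ^ 2 + R2 ^ 2 ≤ 23 / 10) (e0 : 0 < ε)
    (e1 : (ε ≤ 7 / 64 * π ∧ (R2 ≤ 15 / 16 ∨ R1 ≤ 1)) ∨ ε ≤ 3 / 32 * π) :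
    RPair Fz g0z g1z g2z R1 R2 (π - ε) (cos (π - ε)) := by
  have hpi := Real.pi_pos
  have e2 : ε ≤ 7 / 64 * π := by
    rcases e1 with h | h
    · exact h.1
    · linarith
  rcases le_or_gt R1 1 with a | a
  · exact tnTopT1.sound tnTopT1_ok (by simpa using a) h2 h21 h12 h3 q1 q2 e0
      (by push_cast; exact e2) (by push_cast; nlinarith) (by push_cast; exact a)
      (by push_cast; exact h2) (by push_cast; exact h21)
  rcases le_or_gt R2 (15 / 16) with b | b
  · exact tnTopT2.sound tnTopT2_ok (by simpa using a.le) h2 h21 h12 h3 q1 q2 e0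
      (by push_cast; exact e2) (by push_cast; exact a.le) (by push_cast; exact h3)
      (by push_cast; exact h2) (by push_cast; exact b)
  · have e3 : ε ≤ 3 / 32 * π := by
      rcases e1 with h | h
      · rcases h.2 with h' | h'
        · linarith
        · linarith
      · exact h
    exact tnTopT3.sound tnTopT3_ok (by simpa using a.le) h2 h21 h12 h3 q1 q2 e0
      (by push_cast; exact e3) (by push_cast; exact a.le) (by push_cast; exact h3)
      (by push_cast; exact b) (by push_cast; exact h21)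

end Pool.Agent.RRS
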