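import Pool.Agent.RRS.TubeNumBa

/-!
# The numerical conditions of the second region of the tube (`R2 ≥ 1`), the function `Φ`

`R1 = 1 + x`, `R2 = 1 + y`, `0 ≤ y ≤ x`, `R1 ^ 2 + R2 ^ 2 ≤ 23/10`, `u = 2 √2 / (R1 + R2)`,
`r = R2 / R1`, `e = 1.21 (R2 - 1) R1 / (R1 + R2)`, `mu = 1.21 R1 ^ 2 / (4 R2)`, `w = 3/50`,
`c1 = 9/20`, `c2 = 11/20`, `t0 = 1/16`.
-/

set_option autoImplicit false

noncomputable section

namespace Pool.Agent.RRS

open Real

/-- the value without the form -/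
theorem linT_B {x y u e : ℝ} (h : NB x y u e) :
    linT (Lp2 (1 + x)) (Lp2 (1 + y)) (1 + x) (1 + y) u u =
      (208 / 100 + 40 / 100 * (x + y)) +
      ((141 / 100 - 75 / 100 * x) * (1 + (1 + x) ^ 2) +
        (141 / 100 - 75 / 100 * y) * (1 + (1 + y) ^ 2)) / 2 -
      (282 / 100 - 75 / 100 * (x + y)) * (1 + (2 + x + y) ^ 2 / 4) + u * ((1 + x) * (1 + y)) := by
  obtain ⟨hy, hxy, hc, hs, hx, hy2, uU, uL, hu, he, eU, eL⟩ := h
  have u0 : 0 < u := by linarith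
  have s2 : √2 * √2 = 2 := Real.mul_self_sqrt (by norm_num)
  obtain ⟨v, hv⟩ : ∃ v : ℝ, v = 1 / u := ⟨_, rfl⟩
  have huv : u * v = 1 := by
    rw [hv]
    field_simp
  have v1 : 4 * v = √2 * (2 + x + y) := by
    have h1 : 2 * √2 * v = 2 + x + y := by
      rw [← hu]
      linear_combination (2 + x + y) * huv
    linear_combination √2 * h1 - 2 * v * s2
  have v2 : 8 * v ^ 2 = (2 + x + y) ^ 2 := by
    linear_combination (1 / 2) * (4 * v + √2 * (2 + x + y)) * v1 + (1 / 2) * (2 + x + y) ^ 2 * s2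
  have k : ∀ k : ℝ, 2 * (u - k) / u ^ 2 = 2 * v - 2 * k * v ^ 2 := by
    intro k
    rw [hv]
    field_simp
  unfold linT
  rw [k, k]
  simp only [Lp2, mkL]
  linear_combination v1 - (1 / 4) * (282 / 100 - 75 / 100 * (x + y)) * v2

/-- the function `Φ` at `t0 = 1/16` -/
theorem phi_B {x y u e : ℝ} (h : NB x y u e) :
    PhiT (Lp2 (1 + x)) (Lp2 (1 + y)) (tB x y u e) (1 + x) (1 + y) (1 / 16) (9 / 20 + 11 / 20)
      (1 / 16) =
    (-(2501611 / 1920000) - 5478733 / 3840000 * y - 863717 / 768000 * x -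
      285331 / 240000 * y ^ 2 - 1601563 / 1920000 * x * y - 306787 / 960000 * x ^ 2 -
      1823637 / 2560000 * y ^ 3 + 3563489 / 7680000 * x * y ^ 2 + 305557 / 1536000 * x ^ 2 * y -
      371637 / 2560000 * x ^ 3) +
    u * (6883 / 6400 + 6883 / 6400 * y + 6883 / 6400 * x + 2249 / 38400 * y ^ 2 +
      23 / 24 * x * y + 2249 / 38400 * x ^ 2) +
    e * (-(4007 / 4800) - 2121 / 1600 * y - 1651 / 4800 * x - 1371 / 3200 * y ^ 2 -
      15 / 32 * x * y + 599 / 9600 * x ^ 2) := by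
  have hb : (1 + y) ≠ 0 := by
    have := h.hy
    positivity
  have mu : (tB x y u e).mu * (1 + y) ^ 2 = 121 / 400 * ((1 + x) ^ 2 * (1 + y)) := by
    simp only [tB]
    field_simp
  have hl := linT_B h
  have Tu : (tB x y u e).u = u := rfl
  unfold PhiT bT kaT
  rw [Tu, hl]
  have e1 : 99 / 50 * ((tB x y u e).mu * (1 + y) ^ 2) = 99 / 50 *
    (121 / 400 * ((1 + x) ^ 2 * (1 + y))) := by rw [mu]
  rw [mu]
  simp only [tB]
  ring

/-- the lower bound of `Φ` at `t0` -/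
theorem phi_low {x y u e : ℝ} (h : NB x y u e) :
    8192 / 100000 * (1 - y / 2 + y ^ 2 / 4) ≤
    PhiT (Lp2 (1 + x)) (Lp2 (1 + y)) (tB x y u e) (1 + x) (1 + y) (1 / 16) (9 / 20 + 11 / 20)
      (1 / 16) := by
  rw [phi_B h]
  obtain ⟨hy, hxy, hc, hs, hx, hy2, uU, uL, hu, he, eU, eL⟩ := h
  have hx0 : 0 ≤ x := hy.trans hxy
  have xy0 : 0 ≤ x * y := mul_nonneg hx0 hy
  have C0 : 0 ≤ 6883 / 6400 + 6883 / 6400 * y + 6883 / 6400 * x + 2249 / 38400 * y ^ 2 +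
      23 / 24 * x * y + 2249 / 38400 * x ^ 2 := by positivity
  have E0 : -(4007 / 4800) - 2121 / 1600 * y - 1651 / 4800 * x - 1371 / 3200 * y ^ 2 -
      15 / 32 * x * y + 599 / 9600 * x ^ 2 ≤ 0 := by nlinarith
  have h1 := mul_le_mul_of_nonneg_right uL C0
  have h2 := mul_le_mul_of_nonpos_right eU E0
  -- the polynomial in `x, y`
  have x2 : 0 ≤ x ^ 2 := sq_nonneg x
  have y2 : 0 ≤ y ^ 2 := sq_nonneg y
  have c1 : x ^ 3 ≤ 15 / 100 * x ^ 2 := by nlinarith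
  have c2 : x ^ 2 * y ≤ 145 / 1000 * (x * y) := by nlinarith
  have c3 : x * y ^ 2 ≤ 145 / 1000 * y ^ 2 := by nlinarith
  have c4 : y ^ 3 ≤ 725 / 10000 * y ^ 2 := by nlinarith
  have c5 : x ^ 2 * y ^ 2 ≤ 25 / 1000 * y ^ 2 := by nlinarith
  have c6 : 0 ≤ x * y ^ 3 := by positivity
  have c7 : 0 ≤ y ^ 4 := by positivity
  have c8 : 0 ≤ x ^ 3 * y := by positivity
  have key : 8192 / 100000 * (1 - y / 2 + y ^ 2 / 4) ≤
      21627 / 100000 - 3154 / 10000 * x - 11226 / 10000 * y - 975 / 1000 * x ^ 2 -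
      144 / 100 * (x * y) - 253 / 100 * y ^ 2 := by
    obtain ⟨s, hs'⟩ : ∃ s : ℝ, s = x + y := ⟨_, rfl⟩
    obtain ⟨d, hd'⟩ : ∃ d : ℝ, d = x - y := ⟨_, rfl⟩
    have hxs : x = (s + d) / 2 := by rw [hs', hd']; ring
    have hys : y = (s - d) / 2 := by rw [hs', hd']; ring
    have s0 : 0 ≤ s := by rw [hs']; linarith
    have d0 : 0 ≤ d := by rw [hd']; linarith
    have s1 : s ≤ 1449 / 10000 := by rw [hs']; exact hs
    have ds : d ≤ s := by rw [hs', hd']; linarith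
    rw [hxs, hys]
    nlinarith [mul_nonneg s0 d0, mul_nonneg d0 (sub_nonneg.2 ds),
      mul_nonneg s0 (sub_nonneg.2 s1), mul_nonneg d0 (sub_nonneg.2 s1)]
  nlinarith

end Pool.Agent.RRS
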