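import Pool.Agent.RRS.TubeNumBa

/-!
# The numerical conditions of the second region of the tube (`R2 ≥ 1`), the value at zero

`R1 = 1 + x`, `R2 = 1 + y`, `0 ≤ y ≤ x`, `R1 ^ 2 + R2 ^ 2 ≤ 23/10`, `u = 2 √2 / (R1 + R2)`,
`r = R2 / R1`, `e = 1.21 (R2 - 1) R1 / (R1 + R2)`, `mu = 1.21 R1 ^ 2 / (4 R2)`, `w = 3/50`,
`c1 = 9/20`, `c2 = 11/20`, `t0 = 1/16`.
-/

set_option autoImplicit false

noncomputable section

namespace Pool.Agent.RRS

open Real

/-- `Φ` is smaller at `t0` than at `0` -/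
theorem phi_zero {x y u e : ℝ} (h : NB x y u e) :
    PhiT (Lp2 (1 + x)) (Lp2 (1 + y)) (tB x y u e) (1 + x) (1 + y) (1 / 16) (9 / 20 + 11 / 20)
      (1 / 16) ≤
    PhiT (Lp2 (1 + x)) (Lp2 (1 + y)) (tB x y u e) (1 + x) (1 + y) (1 / 16) (9 / 20 + 11 / 20)
      0 := by
  obtain ⟨hy, hxy, hc, hs, hx, hy2, uU, uL, hu, he, eU, eL⟩ := h
  have hx0 : 0 ≤ x := hy.trans hxy
  have yx : 0 ≤ y * (x - y) := mul_nonneg hy (sub_nonneg.2 hxy)
  have e2 : e ≤ 65 / 100 * y := by nlinarith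
  have e0 : 0 ≤ e := by linarith
  have hb : (1 + y) ≠ 0 := by positivity
  have mu : (tB x y u e).mu * (1 + y) ^ 2 = 121 / 400 * ((1 + x) ^ 2 * (1 + y)) := by
    simp only [tB]
    field_simp
  -- the loss
  have hB : 1 / 2 ≤ bT (tB x y u e) (1 + x) (1 + y) (1 / 16) (67 / 400 * (1 + x) ^ 2)
      (9 / 20 + 11 / 20) := by
    unfold bT
    rw [mu]
    simp only [tB]
    have q1 : 121 / 400 * ((1 + x) ^ 2 * (1 + y)) ≤
        121 / 400 * (11402 / 10000 * ((1 + x) * (1 + y))) := by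
      have : 0 ≤ (1 + x) * (1 + y) := by positivity
      nlinarith
    have q2 : 1316 / 1000 * ((1 + x) * (1 + y)) ≤ u * ((1 + x) * (1 + y)) :=
      mul_le_mul_of_nonneg_right (by linarith) (by positivity)
    have q3 : 1 ≤ (1 + x) * (1 + y) := by nlinarith
    have g1 : 0 ≤ 191 / 100 - 75 / 100 * x - u := by linarith
    have g2 : 0 ≤ 191 / 100 - 75 / 100 * y - u := by linarith
    have p1 : 0 ≤ (191 / 100 - 75 / 100 * x - u) * (1 + x) ^ 2 := by positivity
    have p2 : 0 ≤ (191 / 100 - 75 / 100 * y - u) * (1 + y) ^ 2 := by positivity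
    have r1 : 0 ≤ (191 / 100 - 75 / 100 * x - u) / 4 + (121 / 100 * y - e) + 3 / 50 := by linarith
    have r2 : 0 ≤ (191 / 100 - 75 / 100 * y - u) / 4 + (121 / 100 * x - e) + 3 / 50 := by linarith
    have p3 := mul_nonneg r1 (sq_nonneg (1 + x))
    have p4 := mul_nonneg r2 (sq_nonneg (1 + y))
    have r3 : 0 ≤ 416 / 100 + 80 / 100 * (x + y) - u -
        ((191 / 100 - 75 / 100 * x - u) / 4 + (121 / 100 * y - e) + 3 / 50) -
        ((191 / 100 - 75 / 100 * y - u) / 4 + (121 / 100 * x - e) + 3 / 50) := by linarith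
    have p5 : 0 ≤ (416 / 100 + 80 / 100 * (x + y) - u -
        ((191 / 100 - 75 / 100 * x - u) / 4 + (121 / 100 * y - e) + 3 / 50) -
        ((191 / 100 - 75 / 100 * y - u) / 4 + (121 / 100 * x - e) + 3 / 50)) *
        (67 / 400 * (1 + y) ^ 2 + 67 / 400 * (1 + x) ^ 2) := mul_nonneg r3 (by positivity)
    linarith
  have hE : (tB x y u e).et * (1 + y) ^ 2 ≤ 6 / 100 := by
    simp only [tB]
    nlinarith
  have hE0 : 0 ≤ (tB x y u e).et * (1 + y) ^ 2 := by
    simp only [tB]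
    positivity
  have hK : kaT (tB x y u e) (1 + x) (1 + y) ≤ 15 / 100 := by
    unfold kaT
    simp only [tB]
    have w1 : 121 / 100 * y * (1 + y) ^ 2 ≤ 105 / 1000 := by nlinarith
    have w2 : e * ((1 + y) * (1 + x - (1 + y))) ≤ 15 / 1000 := by
      have : (1 + y) * (1 + x - (1 + y)) ≤ 16 / 100 := by nlinarith
      have h0 : 0 ≤ (1 + y) * (1 + x - (1 + y)) := mul_nonneg (by linarith) (by linarith)
      nlinarith
    linarith
  unfold PhiT
  linarith

end Pool.Agent.RRS
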