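import Pool.Agent.RRS.TubeNumBa

/-!
# The numerical conditions of the second region of the tube (`R2 ≥ 1`), the linear coefficient

`R1 = 1 + x`, `R2 = 1 + y`, `0 ≤ y ≤ x`, `R1 ^ 2 + R2 ^ 2 ≤ 23/10`, `u = 2 √2 / (R1 + R2)`,
`r = R2 / R1`, `e = 1.21 (R2 - 1) R1 / (R1 + R2)`, `mu = 1.21 R1 ^ 2 / (4 R2)`, `w = 3/50`,
`c1 = 9/20`, `c2 = 11/20`, `t0 = 1/16`.
-/

set_option autoImplicit false

noncomputable section

namespace Pool.Agent.RRS

open Real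

/-- the square of the linear coefficient -/
theorem kap_B {x y u e Φ : ℝ} (h : NB x y u e)
    (hΦ : 8192 / 100000 * (1 - y / 2 + y ^ 2 / 4) ≤ Φ) :
    101 * kaT (tB x y u e) (1 + x) (1 + y) ^ 2 ≤
      1973 * (Φ * ((tB x y u e).et * ((1 + y) ^ 2 - 1))) := by
  obtain ⟨hy, hxy, hc, hs, hx, hy2, uU, uL, hu, he, eU, eL⟩ := h
  have hx0 : 0 ≤ x := hy.trans hxy
  have S0 : 0 < 2 + x + y := by linarith
  have hS2 : 0 < (2 + x + y) ^ 2 := by positivity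
  refine le_of_mul_le_mul_right ?_ hS2
  have k1 : kaT (tB x y u e) (1 + x) (1 + y) * (2 + x + y) =
      121 / 100 * (y * ((1 + y) * ((1 + x) ^ 2 + (1 + y) ^ 2))) := by
    unfold kaT
    simp only [tB]
    linear_combination (1 + y) * (x - y) * he
  have k2 : 101 * kaT (tB x y u e) (1 + x) (1 + y) ^ 2 * (2 + x + y) ^ 2 =
      101 * (121 / 100 * (y * ((1 + y) * ((1 + x) ^ 2 + (1 + y) ^ 2)))) ^ 2 := by
    rw [← k1]
    ring
  have k3 : 1973 * (Φ * ((tB x y u e).et * ((1 + y) ^ 2 - 1))) * (2 + x + y) ^ 2 =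
      1973 * (Φ * (121 / 100 * (y ^ 2 * ((1 + x) * (2 + y) * (2 + x + y))))) := by
    simp only [tB]
    linear_combination 1973 * Φ * ((1 + y) ^ 2 - 1) * (2 + x + y) * he
  rw [k2, k3]
  have N0 : 0 ≤ (1 + x) ^ 2 + (1 + y) ^ 2 := by positivity
  have N1 : (1 + x) ^ 2 + (1 + y) ^ 2 ≤ 23 / 10 := by linarith
  have N2 : ((1 + x) ^ 2 + (1 + y) ^ 2) ^ 2 ≤ 529 / 100 := by
    have := pow_le_pow_left₀ N0 N1 2
    norm_num at this ⊢
    exact this
  have F0 : 0 ≤ Φ := by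
    refine le_trans ?_ hΦ
    nlinarith
  have F1 : 8192 / 100000 ≤ Φ * (1 + y / 2) := by
    have h1 := mul_le_mul_of_nonneg_right hΦ (by positivity : (0 : ℝ) ≤ 1 + y / 2)
    have h2 : 0 ≤ y ^ 3 := by positivity
    nlinarith
  have Y0 : 0 ≤ y ^ 2 * (121 / 100) := by positivity
  have B0 : 0 ≤ (1 + y) ^ 2 := by positivity
  have L1 : 101 * (121 / 100) * ((1 + y) ^ 2 * ((1 + x) ^ 2 + (1 + y) ^ 2) ^ 2) ≤
      101 * (121 / 100) * ((1 + y) ^ 2 * (529 / 100)) := by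
    have := mul_le_mul_of_nonneg_left N2 B0
    linarith
  have L2 : (1 + y) ^ 2 * 2 ≤ (1 + x) * (2 + x + y) := by nlinarith
  have L3 : 1973 * (Φ * ((2 + y) * ((1 + y) ^ 2 * 2))) ≤
      1973 * (Φ * ((1 + x) * (2 + y) * (2 + x + y))) := by
    have h1 : (2 + y) * ((1 + y) ^ 2 * 2) ≤ (1 + x) * (2 + y) * (2 + x + y) := by
      have := mul_le_mul_of_nonneg_left L2 (by positivity : (0 : ℝ) ≤ 2 + y)
      linarith
    have := mul_le_mul_of_nonneg_left h1 F0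
    linarith
  have L4 : 101 * (121 / 100) * ((1 + y) ^ 2 * (529 / 100)) ≤
      1973 * (Φ * ((2 + y) * ((1 + y) ^ 2 * 2))) := by
    have h1 := mul_le_mul_of_nonneg_left F1 B0
    nlinarith
  have L5 := mul_le_mul_of_nonneg_left (L1.trans (L4.trans L3)) Y0
  nlinarith

end Pool.Agent.RRS
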