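import Pool.Agent.RRS.TubeNumBa

/-!
# The numerical conditions of the second region of the tube (`R2 ≥ 1`), the parameters

`R1 = 1 + x`, `R2 = 1 + y`, `0 ≤ y ≤ x`, `R1 ^ 2 + R2 ^ 2 ≤ 23/10`, `u = 2 √2 / (R1 + R2)`,
`r = R2 / R1`, `e = 1.21 (R2 - 1) R1 / (R1 + R2)`, `mu = 1.21 R1 ^ 2 / (4 R2)`, `w = 3/50`,
`c1 = 9/20`, `c2 = 11/20`, `t0 = 1/16`.
-/

set_option autoImplicit false

noncomputable section

namespace Pool.Agent.RRS

open Real

theorem tubeL_Lp2 {R : ℝ} (h1 : 1 ≤ R) : TubeL (Lp2 R) := by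
  constructor
  · rfl
  · simp only [Lp2, mkL]
    ring
  · simp only [Lp2, mkL]
    linarith
  · simp only [Lp2, mkL, LF.nu]
    linarith

theorem tubeII_B {x y u e : ℝ} (h : NB x y u e) :
    TubeII (Lp2 (1 + x)) (Lp2 (1 + y)) u (3 / 50) (tB x y u e) := by
  obtain ⟨hy, hxy, hc, hs, hx, hy2, uU, uL, hu, he, eU, eL⟩ := h
  have hx0 : 0 ≤ x := hy.trans hxy
  have a0 : 0 < 1 + x := by linarith
  have b0 : 0 < 1 + y := by linarith
  have S0 : 0 < 2 + x + y := by linarith
  have yx : 0 ≤ y * (x - y) := mul_nonneg hy (sub_nonneg.2 hxy)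
  have e2 : e ≤ 65 / 100 * y := by nlinarith
  constructor
  case Tu => rfl
  case lL => exact tubeL_Lp2 (by linarith)
  case lK => exact tubeL_Lp2 (by linarith)
  case mu =>
    simp only [tB, Lp2, mkL, LF.nu]
    have : 4 * ((1 + y) / (1 + x) * (1 - (1 + y) / (1 + x))) *
        (121 / 400 * (1 + x) ^ 2 / (1 + y)) = 121 / 100 * (x - y) := by
      field_simp
      ring
    rw [this]
    linarith
  case et =>
    simp only [tB, Lp2, mkL, LF.nu]
    have : e * (1 + (1 + y) / (1 + x)) = e * (2 + x + y) / (1 + x) := by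
      field_simp
      ring
    rw [this, he]
    field_simp
    ring
  case r0 =>
    simp only [tB]
    positivity
  case r1 =>
    simp only [tB]
    rw [div_le_one a0]
    linarith
  case mu0 =>
    simp only [tB]
    positivity
  case en =>
    simp only [tB, Lp2, mkL, LF.nu]
    have : 2 * e ≤ 121 / 100 * x := by
      refine le_of_mul_le_mul_right ?_ S0
      have e' : 2 * e * (2 + x + y) = 2 * (e * (2 + x + y)) := by ring
      rw [e', he]
      nlinarith [mul_nonneg (sub_nonneg.2 hxy) hx0]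
    linarith
  case s2 =>
    simp only [tB, Lp2, mkL, LF.nu]
    have k1 : 0 ≤ 208 / 100 - 41 / 100 * y - u := by linarith
    have k2 : 208 / 100 - 41 / 100 * y - u ≤ 7612 / 10000 := by linarith
    have k3 := mul_self_le_mul_self k1 k2
    have k4 : 2 * (104 / 100 + 40 / 100 * (1 + y - 1)) - u -
        (104 / 100 + 40 / 100 * (1 + y - 1) + (37 / 100 + 6 / 100 * (1 + y - 1)) -
          (141 / 100 - 75 / 100 * (1 + y - 1))) = 208 / 100 - 41 / 100 * y - u := by ring
    rw [k4]
    nlinarith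
  case s1 =>
    simp only [tB, Lp2, mkL, LF.nu]
    have k1 : 0 ≤ 208 / 100 - 41 / 100 * x - u := by linarith
    have k2 : 208 / 100 - 41 / 100 * x - u ≤ 7612 / 10000 := by linarith
    have k3 := mul_self_le_mul_self k1 k2
    have k4 : 2 * (104 / 100 + 40 / 100 * (1 + x - 1)) - u -
        (104 / 100 + 40 / 100 * (1 + x - 1) + (37 / 100 + 6 / 100 * (1 + x - 1)) -
          (141 / 100 - 75 / 100 * (1 + x - 1))) = 208 / 100 - 41 / 100 * x - u := by ring
    rw [k4]
    nlinarith
  all_goals first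
    | (simp only [tB, Lp2, mkL, LF.nu, LF.ga, LF.sa, tD]; ring1)
    | (simp only [tB, Lp2, mkL, LF.nu, LF.ga, LF.sa, tD]; linarith)
    | linarith

end Pool.Agent.RRS
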