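import Pool.Agent.RRS.TubeValII
import Pool.Agent.RRS.TubeNumBb
import Pool.Agent.RRS.TubeNumBc
import Pool.Agent.RRS.TubeNumBd
import Pool.Agent.RRS.TubeNumBe

/-!
# The numerical conditions of the second region of the tube (`R2 ≥ 1`)

`R1 = 1 + x`, `R2 = 1 + y`, `0 ≤ y ≤ x`, `R1 ^ 2 + R2 ^ 2 ≤ 23/10`, `u = 2 √2 / (R1 + R2)`,
`r = R2 / R1`, `e = 1.21 (R2 - 1) R1 / (R1 + R2)`, `mu = 1.21 R1 ^ 2 / (4 R2)`, `w = 3/50`,
`c1 = 9/20`, `c2 = 11/20`, `t0 = 1/16`.
-/

set_option autoImplicit false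

noncomputable section

namespace Pool.Agent.RRS

open Real

theorem valII_B {x y u e : ℝ} (h : NB x y u e) :
    ValII (Lp2 (1 + x)) (Lp2 (1 + y)) (1 + x) (1 + y) u (1 / 16) (9 / 20) (11 / 20)
      (tB x y u e) := by
  have f0 := phi_low h
  have f1 := phi_zero h
  have f2 := f0.trans f1
  have k0 := kap_B h f2
  have k1 := kap_B h f0
  obtain ⟨hy, hxy, hc, hs, hx, hy2, uU, uL, hu, he, eU, eL⟩ := h
  have hx0 : 0 ≤ x := hy.trans hxy
  have low : 0 ≤ 8192 / 100000 * (1 - y / 2 + y ^ 2 / 4) := by nlinarith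
  have u1 : 1316 / 1000 ≤ u := by linarith
  refine ⟨?_, by linarith, low.trans f2, low.trans f0, k0, k1⟩
  constructor
  · simp only [tB]
    field_simp
  · simp only [tB]
    have g1 : 191 / 100 - 75 / 100 * x - u ≤ 49741 / 100000 - 89 / 1000 * x + 661 / 1000 * y := by
      linarith
    have g2 : (191 / 100 - 75 / 100 * x - u) * (1 + x) ≤
        (49741 / 100000 - 89 / 1000 * x + 661 / 1000 * y) * (1 + x) :=
      mul_le_mul_of_nonneg_right g1 (by linarith)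
    have g3 : (141259 / 100000 - 6601 / 10000 * (x + y)) * (1 + y) ≤ u * (1 + y) :=
      mul_le_mul_of_nonneg_right uL (by linarith)
    nlinarith [mul_nonneg hx0 hy]
  · simp only [tB]
    have g1 : 191 / 100 - 75 / 100 * y - u ≤ 49741 / 100000 - 89 / 1000 * y + 661 / 1000 * x := by
      linarith
    have g2 : (191 / 100 - 75 / 100 * y - u) * (1 + y) ≤
        (49741 / 100000 - 89 / 1000 * y + 661 / 1000 * x) * (1 + y) :=
      mul_le_mul_of_nonneg_right g1 (by linarith)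
    have g3 : (141259 / 100000 - 6601 / 10000 * (x + y)) * (1 + x) ≤ u * (1 + x) :=
      mul_le_mul_of_nonneg_right uL (by linarith)
    nlinarith [mul_nonneg hx0 hy]
  · simp only [Lp2, mkL]
    linarith
  · simp only [Lp2, mkL]
    linarith
  · simp only [Lp2, mkL]
    have v1 : 0 ≤ 2 * (141 / 100 - 75 / 100 * (1 + x - 1)) - u := by linarith
    have v2 : 2 * (141 / 100 - 75 / 100 * (1 + x - 1)) - u ≤ 1408 / 1000 := by linarith
    have v3 := mul_self_le_mul_self v1 v2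
    have w1 : 1288 / 1000 ≤ u - 5 * (1 / 16) ^ 2 * (141 / 100 - 75 / 100 * (1 + x - 1)) := by
      linarith
    have w2 : (1316 / 1000) ^ 2 ≤ u ^ 2 := pow_le_pow_left₀ (by norm_num) u1 2
    have w3 : (1316 / 1000) ^ 2 * (1288 / 1000) ≤
        u ^ 2 * (u - 5 * (1 / 16) ^ 2 * (141 / 100 - 75 / 100 * (1 + x - 1))) :=
      mul_le_mul w2 w1 (by norm_num) (by positivity)
    norm_num at w3
    nlinarith
  · simp only [Lp2, mkL]
    have v1 : 0 ≤ 2 * (141 / 100 - 75 / 100 * (1 + y - 1)) - u := by linarith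
    have v2 : 2 * (141 / 100 - 75 / 100 * (1 + y - 1)) - u ≤ 1501 / 1000 := by linarith
    have v3 := mul_self_le_mul_self v1 v2
    have w1 : 1288 / 1000 ≤ u - 5 * (1 / 16) ^ 2 * (141 / 100 - 75 / 100 * (1 + y - 1)) := by
      linarith
    have w2 : (1316 / 1000) ^ 2 ≤ u ^ 2 := pow_le_pow_left₀ (by norm_num) u1 2
    have w3 : (1316 / 1000) ^ 2 * (1288 / 1000) ≤
        u ^ 2 * (u - 5 * (1 / 16) ^ 2 * (141 / 100 - 75 / 100 * (1 + y - 1))) :=
      mul_le_mul w2 w1 (by norm_num) (by positivity)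
    norm_num at w3
    nlinarith
  · unfold F0T
    have u0 : 0 < u := by linarith
    have s2 : √2 * √2 = 2 := Real.mul_self_sqrt (by norm_num)
    obtain ⟨v, hv⟩ : ∃ v : ℝ, v = 1 / u := ⟨_, rfl⟩
    have huv : u * v = 1 := by
      rw [hv]
      field_simp
    have e2 : 2 / u = 2 * v := by
      rw [hv]
      ring
    have v0 : 2 * √2 * v = 2 + x + y := by
      rw [← hu]
      linear_combination (2 + x + y) * huv
    have v1 : 4 * v = √2 * (2 + x + y) := by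
      linear_combination √2 * v0 - 2 * v * s2
    have u2 : u * (2 + x + y) ^ 2 = 2 * √2 * (2 + x + y) := by
      rw [← hu]
      ring
    rw [e2]
    refine le_of_eq ?_
    linear_combination v1 + (1 / 2) * u2

/-- **the numerical conditions of the second region** -/
theorem tubeB_num {R1 R2 : ℝ} (h2 : 1 ≤ R2) (h12 : R2 ≤ R1) (h : R1 ^ 2 + R2 ^ 2 ≤ 23 / 10) :
    ∃ (u w c1 c2 : ℝ) (T : TP), TubeII (Lz R1) (Lz R2) u w T ∧
      ValII (Lz R1) (Lz R2) R1 R2 u (1 / 16) c1 c2 T := by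
  obtain ⟨x, rfl⟩ : ∃ x, R1 = 1 + x := ⟨R1 - 1, by ring⟩
  obtain ⟨y, rfl⟩ : ∃ y, R2 = 1 + y := ⟨R2 - 1, by ring⟩
  have hy : 0 ≤ y := by linarith
  have hxy : y ≤ x := by linarith
  have S0 : 2 + x + y ≠ 0 := by
    have : 0 < 2 + x + y := by linarith
    exact this.ne'
  have hc : 2 * x + 2 * y + x ^ 2 + y ^ 2 ≤ 3 / 10 := by nlinarith
  have hN := nb_mk (u := 2 * √2 / (2 + x + y)) (e := 121 / 100 * (y * (1 + x)) / (2 + x + y)) hy hxy
    hc (div_mul_cancel₀ _ S0) (div_mul_cancel₀ _ S0)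
  have hx2 := hN.hx
  rw [Lz_two (by linarith) (by linarith : 1 + x ≤ 3 / 2), Lz_two (by linarith)
    (by linarith : 1 + y ≤ 3 / 2)]
  exact ⟨_, _, _, _, _, tubeII_B hN, valII_B hN⟩

/-- **the pair inequality in the second region** -/
theorem tubeB_pair {R1 R2 ε : ℝ} (h2 : 1 ≤ R2) (h12 : R2 ≤ R1) (h : R1 ^ 2 + R2 ^ 2 ≤ 23 / 10)
    (e0 : 0 < ε) (e1 : ε ≤ π / 16) :
    RPair Fz g0z g1z g2z R1 R2 (π - ε) (cos (π - ε)) := by
  obtain ⟨u, w, c1, c2, T, h3, h4⟩ := tubeB_num h2 h12 h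
  exact RPair_tubeII h2 h12 (by nlinarith) e0 (by linarith) (by norm_num) h3 h4

end Pool.Agent.RRS
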