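import Pool.Agent.RRS.ROnly

/-!
# Symmetry of the condition for a pair of norms
-/

set_option autoImplicit false

noncomputable section

namespace Pool.Agent.RRS

open Real MeasureTheory

theorem RPair.symm {F : ℝ → ℝ → ℝ → ℝ} {g0 g1 g2 : ℝ → ℝ} {Rj Rk θ c : ℝ}
    (h : RPair F g0 g1 g2 Rj Rk θ c) : RPair F g0 g1 g2 Rk Rj θ c := by
  obtain ⟨α, u, v, H, hu, hv, hH, hP, hV⟩ := h
  refine ⟨α, v, u, fun x y => H y x, hv, hu, hH.symm, hP.symm, ?_⟩
  rw [avgP_symm]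
  linarith

end Pool.Agent.RRS
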