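import Pool.Agent.RRS.Chk9
import Pool.Agent.RRS.TubeSym
import Pool.Agent.RRS.TubeNumB
import Pool.Agent.RRS.TubeNum1

/-!
# The tube around the antipodal curve

`tube_main`: the pair inequality for all pairs of norms and angles in the tube (`InTube`).
-/

set_option autoImplicit false

noncomputable section

namespace Pool.Agent.RRS

open Real

/-- the larger norm first -/
theorem tube_aux {x y ε : ℝ} (y0 : 0 < y) (yx : y ≤ x) (x1 : x ≤ 3 / 2)
    (h1 : 3 / 2 ≤ x ^ 2 + y ^ 2) (h2 : x ^ 2 + y ^ 2 ≤ 23 / 10) (e0 : 0 < ε)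
    (h : ε ≤ 7 / 64 * π ∧ (y ≤ 15 / 16 ∨ x ≤ 1) ∨ ε ≤ 3 / 32 * π ∧ y ≤ 1 ∨ ε ≤ π / 16) :
    RPair Fz g0z g1z g2z x y (π - ε) (cos (π - ε)) := by
  have hpi := pi_pos
  rcases lt_or_ge 1 y with hy | hy
  · -- both radii are larger than one
    rcases h with h | h | h
    · exfalso
      rcases h.2 with h | h
      · linarith
      · linarith
    · exact absurd h.2 (not_le.2 hy)
    · exact tubeB_pair hy.le yx h2 e0 (by linarith)
  · refine tubeI_num y0 hy yx x1 h1 h2 e0 ?_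
    rcases h with h | h | h
    · exact Or.inl h
    · exact Or.inr h.1
    · exact Or.inr (by linarith)

/-- **the pair inequality in the tube** -/
theorem tube_main {Rj Rk θ : ℝ} (hj : 0 < Rj) (h : InTube Rj Rk θ) (hθ : θ < π) :
    RPair Fz g0z g1z g2z Rj Rk θ (cos θ) := by
  obtain ⟨h12, hk, h1, h2, h3⟩ := h
  obtain ⟨ε, hε⟩ : ∃ ε, ε = π - θ := ⟨_, rfl⟩
  have e : θ = π - ε := by
    rw [hε]
    ring
  rw [e]
  refine RPair.symm (tube_aux hj h12 hk (by linarith) (by linarith) (by linarith) ?_)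
  rcases h3 with h3 | h3 | h3
  · exact Or.inl ⟨by linarith [h3.1], h3.2⟩
  · exact Or.inr (Or.inl ⟨by linarith [h3.1], h3.2⟩)
  · exact Or.inr (Or.inr (by linarith))

end Pool.Agent.RRS
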