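import Pool.Agent.RRS.Final0
import Pool.Agent.RRS.MidData
import Pool.Agent.RRS.Boxes
import Pool.Agent.RRS.TubeMainN
import Pool.Agent.RRS.PiRc

/-!
# All pairs of types are good
-/

set_option autoImplicit false

noncomputable section

namespace Pool.Agent.RRS

open Real

/-- **all pairs** -/
theorem pairs_all : AllPairs (fun R _ => Fz R) (gR g0z g1z g2z) := by
  refine allPairs_assembly (fun Rj Rk θ hj hk t0 t1 h => mid_block hj hk t0 t1 h)
    (fun Rj Rk θ hj hjk h3 t0 t1 => boxes_all hj hjk h3 (by linarith) t1)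
    (fun Rj Rk θ hj h ht => tube_main hj h ht) fun s l hs hsl hl hl3 => ?_
  have h := pi_rc hs hsl hl hl3
  rwa [cos_pi] at h

end Pool.Agent.RRS
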