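import Pool.Agent.RRS.Sectors

/-!
# Quadratic forms on open sectors

The boundary directions of the sectors (where a coordinate can vanish) are treated separately.
-/

set_option autoImplicit false

noncomputable section

namespace Pool.Agent.RRS

open Real MeasureTheory

theorem PWat.mono {F G : ℝ → ℝ → ℝ} {α β γ x y k k' : ℝ} (h : PWat F G α β γ x y k)
    (hk : k ≤ k') : PWat F G α β γ x y k' := by
  intro m s t hm s0 s1 t0 t1 a1 a2 a3 a4
  have := h m s t hm s0 s1 t0 t1 a1 a2 a3 a4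
  linarith

open Classical in
/-- the function on the fundamental interval -/
def pwb (t : ℕ → ℝ) (f : ℕ → ℝ → ℝ) (n : ℕ) (τ : ℝ) : ℝ :=
  if τ ∈ {τ | ∃ i, i ≤ n ∧ τ = t i} then ∑ i ∈ Finset.range (n + 1), |f i τ| else pw t f n τ

theorem bdry_finite (t : ℕ → ℝ) (n : ℕ) : {τ : ℝ | ∃ i, i ≤ n ∧ τ = t i}.Finite := by
  have : {τ : ℝ | ∃ i, i ≤ n ∧ τ = t i} ⊆ t '' (Finset.range (n + 1) : Finset ℕ) := by
    rintro τ ⟨i, hi, rfl⟩
    exact ⟨i, by simpa using Nat.lt_succ_of_le hi, rfl⟩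
  exact ((Finset.finite_toSet _).image t).subset this

theorem measurable_pwb {t : ℕ → ℝ} {f : ℕ → ℝ → ℝ} (hf : ∀ i, Continuous (f i)) (n : ℕ) :
    Measurable (pwb t f n) := by
  unfold pwb
  refine Measurable.ite (bdry_finite t n).measurableSet ?_ (measurable_pw hf n)
  exact Continuous.measurable (continuous_finsetSum _ fun i _ => (hf i).abs)

theorem pwb_bound {t : ℕ → ℝ} {f : ℕ → ℝ → ℝ} {K : ℝ} (hK : ∀ i τ, |f i τ| ≤ K) (n : ℕ) (τ : ℝ) :
    |pwb t f n τ| ≤ (n + 1) * K := by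
  have hK0 : 0 ≤ K := (abs_nonneg _).trans (hK 0 0)
  unfold pwb
  split_ifs
  · rw [abs_of_nonneg (Finset.sum_nonneg fun i _ => abs_nonneg _)]
    refine (Finset.sum_le_card_nsmul _ _ K fun i _ => hK i τ).trans ?_
    rw [Finset.card_range, nsmul_eq_mul]
    push_cast
    exact le_rfl
  · refine (pw_bound hK n τ).trans ?_
    nlinarith [Nat.cast_nonneg (α := ℝ) n]

theorem integral_pwb {t : ℕ → ℝ} {f : ℕ → ℝ → ℝ} (n : ℕ) (a b : ℝ) :
    ∫ τ in a..b, pwb t f n τ = ∫ τ in a..b, pw t f n τ := by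
  apply intervalIntegral.integral_congr_ae
  have h0 : volume {τ : ℝ | ∃ i, i ≤ n ∧ τ = t i} = 0 := (bdry_finite t n).measure_zero _
  have hne : ∀ᵐ τ : ℝ, τ ∉ {τ : ℝ | ∃ i, i ≤ n ∧ τ = t i} := by
    rw [ae_iff]
    simpa using h0
  filter_upwards [hne] with τ hτ _
  exact if_neg hτ

/-- **the pair inequality from quadratic forms on sectors** (open sectors) -/
theorem RPair_of_open_sectors {F : ℝ → ℝ → ℝ → ℝ} {g0 g1 g2 : ℝ → ℝ} {Rj Rk θ : ℝ} (hj : 0 < Rj)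
    (hk : 0 < Rk) (h0 : 0 < θ) (hπ : θ < π) (hFj : Hom2 (F Rj)) (hFk : Hom2 (F Rk))
    (n : ℕ) (t : ℕ → ℝ) (ht : Monotone t) (htn : t (n + 1) = t 0 + π) (A B C : ℕ → ℝ)
    (hb : ∃ M, ∀ i, |A i| ≤ M ∧ |B i| ≤ M ∧ |C i| ≤ M) {α u v : ℝ} (hu : 0 < u) (hv : 0 < v)
    (hz : PWat (F Rj) (F Rk) α (u + cos θ * g1 Rj) (v + cos θ * g1 Rk) 0 0 0)
    (hP : ∀ i τ, i ≤ n → t i < τ → τ < t (i + 1) →
      PWat (F Rj) (F Rk) α (u + cos θ * g1 Rj) (v + cos θ * g1 Rk) (Rj * cos (τ + θ / 2))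
        (Rk * cos (τ - θ / 2))
        (qf (A i) (B i) (C i) (Rj * cos (τ + θ / 2)) (Rk * cos (τ - θ / 2))) ∧
      PWat (F Rj) (F Rk) α (u + cos θ * g1 Rj) (v + cos θ * g1 Rk) (-(Rj * cos (τ + θ / 2)))
        (-(Rk * cos (τ - θ / 2)))
        (qf (A i) (B i) (C i) (Rj * cos (τ + θ / 2)) (Rk * cos (τ - θ / 2))))
    (hB : ∀ i, i ≤ n →
      (∃ a, a ≤ n ∧ PWat (F Rj) (F Rk) α (u + cos θ * g1 Rj) (v + cos θ * g1 Rk)
        (Rj * cos (t i + θ / 2)) (Rk * cos (t i - θ / 2))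
        (qf (A a) (B a) (C a) (Rj * cos (t i + θ / 2)) (Rk * cos (t i - θ / 2)))) ∧
      ∃ a, a ≤ n ∧ PWat (F Rj) (F Rk) α (u + cos θ * g1 Rj) (v + cos θ * g1 Rk)
        (-(Rj * cos (t i + θ / 2))) (-(Rk * cos (t i - θ / 2)))
        (qf (A a) (B a) (C a) (Rj * cos (t i + θ / 2)) (Rk * cos (t i - θ / 2))))
    (hle : (1 - g2 Rj * cos θ) ^ 2 / (2 * u) + u * (1 + Rj ^ 2) / 2 +
      ((1 - g2 Rk * cos θ) ^ 2 / (2 * v) + v * (1 + Rk ^ 2) / 2) + α +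
        2 / π * ∑ i ∈ Finset.range (n + 1), secInt (A i) (B i) (C i) Rj Rk θ (t i) (t (i + 1)) ≤
      √2 * (Rj + Rk) + cos θ * (g0 Rj + g0 Rk)) :
    RPair F g0 g1 g2 Rj Rk θ (cos θ) := by
  obtain ⟨M, hM⟩ := hb
  obtain ⟨f, hf⟩ : ∃ f : ℕ → ℝ → ℝ, f = fun i τ =>
    qf (A i) (B i) (C i) (Rj * cos (τ + θ / 2)) (Rk * cos (τ - θ / 2)) := ⟨_, rfl⟩
  have hfc : ∀ i, Continuous (f i) := by
    intro i
    rw [hf]
    exact continuous_qf _ _ _ _ _ _
  have hfb : ∀ i τ, |f i τ| ≤ M * Rj ^ 2 + M * |Rj * Rk| + M * Rk ^ 2 := by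
    intro i τ
    rw [hf]
    refine (qf_bound _ _ _ _ _ _ _).trans ?_
    obtain ⟨a1, a2, a3⟩ := hM i
    gcongr
  refine RPair_of_kappa hj hk h0 hπ hFj hFk (κ := fun τ => pwb t f n (wrap (t 0) τ)) ?_
    ((measurable_pwb hfc n).comp (measurable_wrap _))
    (K := (n + 1) * (M * Rj ^ 2 + M * |Rj * Rk| + M * Rk ^ 2)) (fun τ => pwb_bound hfb n _) (t 0)
    hu hv hz ?_ ?_
  · intro τ
    change pwb t f n (wrap (t 0) (τ + π)) = pwb t f n (wrap (t 0) τ)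
    rw [wrap_periodic]
  · intro τ a1 a2
    rw [wrap_eq a1 a2]
    obtain ⟨i, hi, b1, b2, b3⟩ := pw_cases f n a1 (by rw [htn]; exact a2)
    unfold pwb
    split_ifs with hbd
    · obtain ⟨l, hl, rfl⟩ := hbd
      obtain ⟨⟨a, ha, pa⟩, b, hb', pb⟩ := hB l hl
      have hle' : ∀ c, c ≤ n → qf (A c) (B c) (C c) (Rj * cos (t l + θ / 2))
          (Rk * cos (t l - θ / 2)) ≤ ∑ i ∈ Finset.range (n + 1), |f i (t l)| := by
        intro c hc
        have e1 : |f c (t l)| ≤ ∑ i ∈ Finset.range (n + 1), |f i (t l)| :=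
          Finset.single_le_sum (f := fun i => |f i (t l)|) (fun i _ => abs_nonneg _)
            (Finset.mem_range.2 (Nat.lt_succ_of_le hc))
        refine le_trans ?_ e1
        rw [hf]
        exact le_abs_self _
      exact ⟨pa.mono (hle' a ha), pb.mono (hle' b hb')⟩
    · rw [b3, hf]
      have b1' : t i < τ := lt_of_le_of_ne b1 fun h => hbd ⟨i, hi, h.symm⟩
      exact hP i τ hi b1' b2
  · have e1 : ∫ τ in (t 0)..(t 0 + π), pwb t f n (wrap (t 0) τ) =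
        ∫ τ in (t 0)..(t 0 + π), pwb t f n τ := by
      apply intervalIntegral.integral_congr_ae
      have hne : ∀ᵐ τ : ℝ, τ ≠ t 0 + π := by simp [ae_iff]
      filter_upwards [hne] with τ hτ hmem
      rw [Set.uIoc_of_le (by linarith [pi_pos])] at hmem
      rw [wrap_eq hmem.1.le (lt_of_le_of_ne hmem.2 hτ)]
    have e2 := integral_pw ht hfc hfb n
    rw [htn] at e2
    rw [e1, integral_pwb, e2]
    have e3 : ∀ i, ∫ τ in (t i)..(t (i + 1)), f i τ =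
        secInt (A i) (B i) (C i) Rj Rk θ (t i) (t (i + 1)) := by
      intro i
      rw [hf]
      exact integral_qf _ _ _ _ _ _ _ _
    simp only [e3]
    exact hle

end Pool.Agent.RRS
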