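import Pool.Agent.RRS.Cells
import Pool.Agent.RRS.ROnly0
import Pool.Agent.RRS.Sectors2

/-!
# The angle `π`

At the angle `π` only the ray `(x, y) = t (-Rj, Rk)` matters.
-/

set_option autoImplicit false

noncomputable section

namespace Pool.Agent.RRS

open Real MeasureTheory

/-- a bound of the values -/
def LF.M (L : LF) : ℝ := |L.a0| + |L.a1| + |L.zp| + |L.b0| + |L.b1| + |L.zm|

theorem LF.abs_F_le (L : LF) {x m : ℝ} (hm : 0 ≤ m) : |L.F x m| ≤ L.M * (m * (|x| + m)) := by
  have h1 := abs_nonneg L.a0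
  have h2 := abs_nonneg L.a1
  have h3 := abs_nonneg L.zp
  have h4 := abs_nonneg L.b0
  have h5 := abs_nonneg L.b1
  have h6 := abs_nonneg L.zm
  obtain ⟨X, hX⟩ : ∃ X, X = |x| := ⟨_, rfl⟩
  have hX0 : 0 ≤ X := hX ▸ abs_nonneg x
  rw [← hX]
  have key : ∀ a b u v : ℝ, 0 ≤ u → 0 ≤ v → u ≤ X + m → v ≤ X + m → |a| + |b| ≤ L.M →
      |m * (a * u + b * v)| ≤ L.M * (m * (X + m)) := by
    intro a b u v hu hv hu' hv' hab
    rw [abs_mul, abs_of_nonneg hm]
    have e1 : |a * u + b * v| ≤ |a| * u + |b| * v := by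
      refine (abs_add_le _ _).trans ?_
      rw [abs_mul, abs_mul, abs_of_nonneg hu, abs_of_nonneg hv]
    have e2 : |a| * u + |b| * v ≤ (|a| + |b|) * (X + m) := by
      have := mul_le_mul_of_nonneg_left hu' (abs_nonneg a)
      have := mul_le_mul_of_nonneg_left hv' (abs_nonneg b)
      linarith
    have e3 : (|a| + |b|) * (X + m) ≤ L.M * (X + m) :=
      mul_le_mul_of_nonneg_right hab (by linarith)
    calc m * |a * u + b * v| ≤ m * (L.M * (X + m)) :=
          mul_le_mul_of_nonneg_left ((e1.trans e2).trans e3) hm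
      _ = L.M * (m * (X + m)) := by ring
  unfold LF.F
  split_ifs with c1 c2 c3
  · have hXe : X = x := by rw [hX, abs_of_nonneg c1]
    exact key L.a0 L.a1 (x - m) m (by linarith) hm (by linarith) (by linarith)
      (by unfold LF.M; linarith)
  · have hXe : X = x := by rw [hX, abs_of_nonneg c1]
    exact key L.a1 L.zp x (m - x) c1 (by linarith) (by linarith) (by linarith)
      (by unfold LF.M; linarith)
  · have hXe : X = -x := by rw [hX, abs_of_neg (not_le.1 c1)]
    exact key L.b0 L.b1 (-x - m) m (by linarith) hm (by linarith) (by linarith)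
      (by unfold LF.M; linarith)
  · have hXe : X = -x := by rw [hX, abs_of_neg (not_le.1 c1)]
    exact key L.b1 L.zm (-x) (m + x) (by linarith) (by linarith) (by linarith) (by linarith)
      (by unfold LF.M; linarith)

/-- far out: `F` is close to `z m²` -/
theorem LF.F_far (L : LF) {x m : ℝ} (hm : |x| ≤ m) (hz : L.zm = L.zp) :
    L.zp * m ^ 2 - 2 * L.M * (m * |x|) ≤ L.F x m := by
  have h0 : 0 ≤ m := (abs_nonneg x).trans hm
  have h1 := abs_nonneg L.a0
  have h2 := abs_nonneg L.a1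
  have h3 := abs_nonneg L.zp
  have h4 := abs_nonneg L.b0
  have h5 := abs_nonneg L.b1
  have h6 := abs_nonneg L.zm
  have b2 := neg_abs_le L.a1
  have b3 := le_abs_self L.zp
  have b5 := neg_abs_le L.b1
  obtain ⟨X, hX⟩ : ∃ X, X = |x| := ⟨_, rfl⟩
  have hX0 : 0 ≤ X := hX ▸ abs_nonneg x
  rw [← hX] at hm ⊢
  have hT : 0 ≤ m * X := by positivity
  have k1 : 0 ≤ 2 * L.M + L.a1 - L.zp := by unfold LF.M; linarith
  have k2 : 0 ≤ 2 * L.M + L.b1 - L.zp := by unfold LF.M; linarith
  have k3 := mul_nonneg k1 hT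
  have k4 := mul_nonneg k2 hT
  unfold LF.F
  split_ifs with c1 c2 c3
  · have hXe : X = x := by rw [hX, abs_of_nonneg c1]
    have hmx : x = m := by linarith
    rw [hXe, hmx] at k3
    rw [hXe, hmx]
    nlinarith
  · have hXe : X = x := by rw [hX, abs_of_nonneg c1]
    rw [hXe] at k3 ⊢
    nlinarith
  · have hXe : X = -x := by rw [hX, abs_of_neg (not_le.1 c1)]
    have hmx : x = -m := by linarith
    rw [hXe, hmx] at k4
    rw [hXe, hmx]
    nlinarith
  · have hXe : X = -x := by rw [hX, abs_of_neg (not_le.1 c1)]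
    rw [hz]
    have hxX : x = -X := by linarith
    rw [hxX]
    nlinarith

/-- the pointwise inequality with a large constant -/
theorem PWat_large {L K : LF} {α β γ : ℝ} (hL : L.zm = L.zp) (hK : K.zm = K.zp)
    (h : 0 < α + L.zp + K.zp) :
    ∃ C, 0 ≤ C ∧ ∀ x y, PWat L.F K.F α β γ x y (C * (x ^ 2 + y ^ 2)) := by
  obtain ⟨N, hN⟩ : ∃ N, N = L.M + K.M + |α| + |β| + |γ| := ⟨_, rfl⟩
  have hLM : 0 ≤ L.M := by unfold LF.M; positivity
  have hKM : 0 ≤ K.M := by unfold LF.M; positivity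
  have nα := abs_nonneg α
  have nβ := abs_nonneg β
  have nγ := abs_nonneg γ
  have hN0 : 0 ≤ N := by rw [hN]; positivity
  obtain ⟨q, hq⟩ : ∃ q, q = α + L.zp + K.zp := ⟨_, rfl⟩
  have hq0 : 0 < q := hq ▸ h
  refine ⟨10 * N + 8 * N ^ 2 / q, by positivity, ?_⟩
  intro x y m s t hm s0 s1 t0 t1 a1 a2 a3 a4
  have hx := abs_nonneg x
  have hy := abs_nonneg y
  have ex : |x| ^ 2 = x ^ 2 := sq_abs x
  have ey : |y| ^ 2 = y ^ 2 := sq_abs y
  have bβ : -(|β| * (|x| * m)) ≤ β * (x * m) := by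
    have := neg_abs_le (β * (x * m))
    rw [abs_mul, abs_mul, abs_of_nonneg hm] at this
    exact this
  have bγ : -(|γ| * (|y| * m)) ≤ γ * (y * m) := by
    have := neg_abs_le (γ * (y * m))
    rw [abs_mul, abs_mul, abs_of_nonneg hm] at this
    exact this
  have bα : -(|α| * m ^ 2) ≤ α * m ^ 2 := by
    have := neg_abs_le α
    nlinarith [sq_nonneg m]
  have hD : 0 ≤ 8 * N ^ 2 / q := by positivity
  rcases le_or_gt m (max |x| |y|) with hc | hc
  · -- bounded
    have hmx : m ^ 2 ≤ x ^ 2 + y ^ 2 := by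
      rcases le_max_iff.1 hc with h' | h'
      · nlinarith [sq_nonneg y]
      · nlinarith [sq_nonneg x]
    have e1 : |x| * m ≤ x ^ 2 + y ^ 2 := by nlinarith [sq_nonneg (|x| - m), sq_nonneg y]
    have e2 : |y| * m ≤ x ^ 2 + y ^ 2 := by nlinarith [sq_nonneg (|y| - m), sq_nonneg x]
    have f1 := L.abs_F_le (x := x) hm
    have f2 := K.abs_F_le (x := y) hm
    have g1 : m * (|x| + m) ≤ 2 * (x ^ 2 + y ^ 2) := by nlinarith
    have g2 : m * (|y| + m) ≤ 2 * (x ^ 2 + y ^ 2) := by nlinarith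
    have g3 : |L.F x m| ≤ L.M * (2 * (x ^ 2 + y ^ 2)) := f1.trans (mul_le_mul_of_nonneg_left g1 hLM)
    have g4 : |K.F y m| ≤ K.M * (2 * (x ^ 2 + y ^ 2)) := f2.trans (mul_le_mul_of_nonneg_left g2 hKM)
    have w1 : |1 - 2 * t| ≤ 1 := abs_le.2 ⟨by linarith, by linarith⟩
    have w2 : |1 - 2 * s| ≤ 1 := abs_le.2 ⟨by linarith, by linarith⟩
    have k1 : -(L.M * (2 * (x ^ 2 + y ^ 2))) ≤ L.F x m * (1 - 2 * t) := by
      have := neg_abs_le (L.F x m * (1 - 2 * t))
      rw [abs_mul] at this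
      have h5 : |L.F x m| * |1 - 2 * t| ≤ |L.F x m| * 1 :=
        mul_le_mul_of_nonneg_left w1 (abs_nonneg _)
      linarith
    have k2 : -(K.M * (2 * (x ^ 2 + y ^ 2))) ≤ K.F y m * (1 - 2 * s) := by
      have := neg_abs_le (K.F y m * (1 - 2 * s))
      rw [abs_mul] at this
      have h5 : |K.F y m| * |1 - 2 * s| ≤ |K.F y m| * 1 :=
        mul_le_mul_of_nonneg_left w2 (abs_nonneg _)
      linarith
    have S0 : 0 ≤ x ^ 2 + y ^ 2 := by positivity
    have l1 := mul_le_mul_of_nonneg_left e1 nβ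
    have l2 := mul_le_mul_of_nonneg_left e2 nγ
    have l3 := mul_le_mul_of_nonneg_left hmx nα
    have l4 : (L.M + K.M + |α| + |β| + |γ|) * (2 * (x ^ 2 + y ^ 2)) ≤
        (10 * N + 8 * N ^ 2 / q) * (x ^ 2 + y ^ 2) := by
      rw [← hN]
      have : 2 * N ≤ 10 * N + 8 * N ^ 2 / q := by linarith
      nlinarith [mul_le_mul_of_nonneg_right this S0]
    nlinarith [mul_nonneg nα S0, mul_nonneg nβ S0, mul_nonneg nγ S0]
  · -- far out
    have hmx : |x| ≤ m := ((le_max_left _ _).trans_lt hc).le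
    have hmy : |y| ≤ m := ((le_max_right _ _).trans_lt hc).le
    have hs : s = 0 := by
      rcases s0.eq_or_lt with h' | h'
      · exact h'.symm
      · have := a1 h'
        have := ((le_max_left |x| |y|).trans_lt hc)
        linarith [le_abs_self x]
    have ht : t = 0 := by
      rcases t0.eq_or_lt with h' | h'
      · exact h'.symm
      · have := a3 h'
        have := ((le_max_right |x| |y|).trans_lt hc)
        linarith [le_abs_self y]
    rw [hs, ht]
    have f1 := L.F_far hmx hL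
    have f2 := K.F_far hmy hK
    -- q m² - 2 N m (|x| + |y|) + C (x² + y²) ≥ 0
    have hLN : L.M ≤ N := by rw [hN]; linarith
    have hKN : K.M ≤ N := by rw [hN]; linarith
    have hβN : 2 * L.M + |β| ≤ 2 * N := by rw [hN]; linarith
    have hγN : 2 * K.M + |γ| ≤ 2 * N := by rw [hN]; linarith
    have hxm : 0 ≤ |x| * m := by positivity
    have hym : 0 ≤ |y| * m := by positivity
    have l1 := mul_le_mul_of_nonneg_right hβN hxm
    have l2 := mul_le_mul_of_nonneg_right hγN hym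
    have key : ∀ X : ℝ, 0 ≤ q / 2 * m ^ 2 - 2 * N * (X * m) + 2 * N ^ 2 / q * X ^ 2 := by
      intro X
      have : q / 2 * m ^ 2 - 2 * N * (X * m) + 2 * N ^ 2 / q * X ^ 2 =
          (q * m - 2 * N * X) ^ 2 / (2 * q) := by
        field_simp
        ring
      rw [this]
      positivity
    have k1 := key |x|
    have k2 := key |y|
    rw [ex] at k1
    rw [ey] at k2
    have e8 : 8 * N ^ 2 / q = 4 * (2 * N ^ 2 / q) := by ring
    have p1 : 0 ≤ 2 * N ^ 2 / q * x ^ 2 := by positivity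
    have p2 : 0 ≤ 2 * N ^ 2 / q * y ^ 2 := by positivity
    have p3 : 0 ≤ N * (x ^ 2 + y ^ 2) := by positivity
    rw [e8]
    nlinarith

open Classical in
/-- the multiplier at the angle `π` -/
def Hray (Rj Rk κ C x y : ℝ) : ℝ :=
  if Rk * x + Rj * y = 0 then κ * (x / Rj) ^ 2 else C * (x ^ 2 + y ^ 2)

theorem Hray_homBd {Rj Rk κ C : ℝ} (hj : 0 < Rj) (hC : 0 ≤ C) : HomBd (Hray Rj Rk κ C) := by
  refine ⟨?_, ?_, |κ| / Rj ^ 2 + C, ?_⟩
  · unfold Hray
    refine Measurable.ite ?_ (by fun_prop) (by fun_prop)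
    have : Measurable fun q : ℝ × ℝ => Rk * q.1 + Rj * q.2 := by fun_prop
    exact this (measurableSet_singleton 0)
  · intro c x y
    unfold Hray
    by_cases hc : c = 0
    · subst hc
      simp
    · have e : Rk * (c * x) + Rj * (c * y) = 0 ↔ Rk * x + Rj * y = 0 := by
        rw [show Rk * (c * x) + Rj * (c * y) = c * (Rk * x + Rj * y) by ring]
        simp [hc]
      simp only [e]
      split_ifs <;> ring
  · intro x y
    unfold Hray
    have h1 : 0 ≤ |κ| / Rj ^ 2 := by positivity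
    split_ifs
    · rw [abs_mul, abs_of_nonneg (sq_nonneg (x / Rj)), div_pow]
      have : |κ| * (x ^ 2 / Rj ^ 2) = |κ| / Rj ^ 2 * x ^ 2 := by ring
      rw [this]
      nlinarith [mul_nonneg h1 (sq_nonneg y), mul_nonneg hC (sq_nonneg x),
        mul_nonneg hC (sq_nonneg y)]
    · rw [abs_of_nonneg (by positivity)]
      nlinarith [mul_nonneg h1 (sq_nonneg y), mul_nonneg h1 (sq_nonneg x)]

theorem avgP_Hray {Rj Rk κ C : ℝ} (hj : 0 < Rj) : avgP (Hray Rj Rk κ C) Rj Rk π = κ := by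
  unfold avgP
  have e : ∀ φ : ℝ, Hray Rj Rk κ C (Rj * cos φ) (Rk * cos (φ - π)) = κ * cos φ ^ 2 := by
    intro φ
    unfold Hray
    rw [if_pos (by rw [cos_sub_pi]; ring)]
    rw [mul_div_cancel_left₀ _ hj.ne']
  simp only [e]
  rw [intervalIntegral.integral_const_mul, integral_cos_sq]
  simp
  field_simp

/-- **the angle `π`** -/
theorem RPair0_pi {F : ℝ → ℝ → ℝ → ℝ} {g0 g1 g2 : ℝ → ℝ} {Rj Rk : ℝ} {L K : LF} (hj : 0 < Rj)
    (hFj : F Rj = L.F) (hFk : F Rk = K.F) (hL : L.zm = L.zp) (hK : K.zm = K.zp)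
    {α u v κ : ℝ} (hinf : 0 < α + L.zp + K.zp) (hu : 0 ≤ u) (hv : 0 ≤ v)
    (hu0 : u = 0 → 1 - g2 Rj * -1 = 0) (hv0 : v = 0 → 1 - g2 Rk * -1 = 0)
    (h1 : PWat L.F K.F α (u + -1 * g1 Rj) (v + -1 * g1 Rk) (-Rj) Rk κ)
    (h2 : PWat L.F K.F α (u + -1 * g1 Rj) (v + -1 * g1 Rk) Rj (-Rk) κ)
    (hle : (1 - g2 Rj * -1) ^ 2 / (2 * u) + u * (1 + Rj ^ 2) / 2 +
      ((1 - g2 Rk * -1) ^ 2 / (2 * v) + v * (1 + Rk ^ 2) / 2) + α + κ ≤
      √2 * (Rj + Rk) + -1 * (g0 Rj + g0 Rk)) :
    RPair0 F g0 g1 g2 Rj Rk π (cos π) := by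
  rw [cos_pi]
  obtain ⟨C, hC0, hC⟩ := PWat_large (α := α) (β := u + -1 * g1 Rj) (γ := v + -1 * g1 Rk) hL hK hinf
  refine ⟨α, u, v, Hray Rj Rk κ C, hu, hv, hu0, hv0, Hray_homBd hj hC0, ?_, ?_⟩
  · rw [hFj, hFk]
    intro m x y s t hm s0 s1 t0 t1 a1 a2 a3 a4
    by_cases hr : Rk * x + Rj * y = 0
    · have eH : Hray Rj Rk κ C x y = κ * (x / Rj) ^ 2 := if_pos hr
      rw [eH]
      rcases lt_trichotomy x 0 with hx | hx | hx
      · -- x < 0
        obtain ⟨r, hr'⟩ : ∃ r, r = -x / Rj := ⟨_, rfl⟩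
        have r0 : 0 < r := by rw [hr']; exact div_pos (by linarith) hj
        have ex : x = r * -Rj := by rw [hr']; field_simp
        have ey : y = r * Rk := by
          have : Rj * y = r * Rk * Rj := by
            rw [ex] at hr
            linarith
          have := mul_left_cancel₀ hj.ne' (this.trans (mul_comm _ _))
          exact this
        have := PWat.scale (L.hom2) (K.hom2) h1 r0
        have h3 := this m s t hm s0 s1 t0 t1 (by rw [← ex]; exact a1) (by rw [← ex]; exact a2)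
          (by rw [← ey]; exact a3) (by rw [← ey]; exact a4)
        rw [← ex, ← ey] at h3
        have : κ * (x / Rj) ^ 2 = r ^ 2 * κ := by
          rw [hr']
          ring
        rw [this]
        exact h3
      · subst hx
        have ey : y = 0 := by
          have : Rj * y = 0 := by linarith
          rcases mul_eq_zero.1 this with h' | h'
          · exact absurd h' hj.ne'
          · exact h'
        subst ey
        have h3 := hC 0 0 m s t hm s0 s1 t0 t1 a1 a2 a3 a4
        simpa using h3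
      · obtain ⟨r, hr'⟩ : ∃ r, r = x / Rj := ⟨_, rfl⟩
        have r0 : 0 < r := by rw [hr']; exact div_pos hx hj
        have ex : x = r * Rj := by rw [hr']; field_simp
        have ey : y = r * -Rk := by
          have : Rj * y = r * -Rk * Rj := by
            rw [ex] at hr
            linarith
          exact mul_left_cancel₀ hj.ne' (this.trans (mul_comm _ _))
        have := PWat.scale (L.hom2) (K.hom2) h2 r0
        have h3 := this m s t hm s0 s1 t0 t1 (by rw [← ex]; exact a1) (by rw [← ex]; exact a2)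
          (by rw [← ey]; exact a3) (by rw [← ey]; exact a4)
        rw [← ex, ← ey] at h3
        have : κ * (x / Rj) ^ 2 = r ^ 2 * κ := by
          rw [hr']
          ring
        rw [this]
        exact h3
    · have eH : Hray Rj Rk κ C x y = C * (x ^ 2 + y ^ 2) := if_neg hr
      rw [eH]
      exact hC x y m s t hm s0 s1 t0 t1 a1 a2 a3 a4
  · rw [avgP_Hray hj]
    exact hle

end Pool.Agent.RRS
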