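import Pool.Agent.RRS.Funcs
import Pool.Agent.RRS.RayPi

/-!
# Opposite points: the conditions in one variable

At the angle `π` the pair inequality is reduced to six inequalities for quadratic functions of `m`.
-/

set_option autoImplicit false

noncomputable section

namespace Pool.Agent.RRS

open Real

/-- `q = k - c0` -/
def LF.qq (L : LF) : ℝ := L.b0 - L.a0
/-- `G = A + e - 2 k` -/
def LF.gg (L : LF) : ℝ := L.a1 + L.b1 - 2 * L.b0
/-- `ρ = z + k - e` -/
def LF.rr (L : LF) : ℝ := L.zp + L.b0 - L.b1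
/-- `ζ = z + k - A` -/
def LF.ze (L : LF) : ℝ := L.zp + L.b0 - L.a1

/-- the conditions at the point `(-n, p)`; `D = v p - u n` -/
structure PiC (L K : LF) (n p a D κ : ℝ) : Prop where
  c1 : ∀ m : ℝ, 0 ≤ m → m ≤ n → m ≤ p → 0 ≤ κ + D * m - a * m ^ 2 - K.qq * (m * (p - m)) -
    L.gg * m ^ 2
  c2 : ∀ m : ℝ, 0 ≤ m → n ≤ m → m ≤ p → 0 ≤ κ + D * m - a * m ^ 2 - K.qq * (m * (p - m)) -
    L.gg * m ^ 2 - L.rr * (m * (m - n))
  c3 : ∀ m : ℝ, 0 ≤ m → m ≤ n → p ≤ m → 0 ≤ κ + D * m - a * m ^ 2 + (L.b1 - L.a1) * m ^ 2 +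
    2 * L.b0 * (n * m) + K.ze * (m * (m - p))
  c4 : ∀ m : ℝ, 0 ≤ m → n ≤ m → p ≤ m → 0 ≤ κ + D * m - a * m ^ 2 + (L.b1 - L.a1) * m ^ 2 +
    2 * L.b0 * (n * m) + K.ze * (m * (m - p)) + L.rr * (m * (m - n))

theorem PiC.pwat {L K : LF} {n p a D κ u v : ℝ} (h : PiC L K n p a D κ) (hL : Bz L) (hK : Bz K)
    (hn : 0 < n) (hp : 0 < p) (hD : D = v * p - u * n) :
    PWat L.F K.F (-(L.a1 - L.b0) - (K.a1 - K.b0) - a) (u - L.b0) (v - K.b0) (-n) p κ := by
  have hc : CellsOK L K (-(L.a1 - L.b0) - (K.a1 - K.b0) - a) (u - L.b0) (v - K.b0) false true n p κ := by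
    intro ix iy m hm h1 h2
    have lz := hL.zm
    have kz := hK.zm
    subst hD
    cases ix <;> cases iy <;> simp only [inC, if_true, if_false, Bool.false_eq_true] at h1 h2 <;>
      simp only [Qc, LF.p, LF.q, ef, sg, Bool.and_true, Bool.and_self, Bool.and_false,
        if_true, if_false, Bool.false_eq_true, one_mul, mul_one, lz]
    · have := h.c4 m hm h1 h2
      simp only [LF.ze, LF.rr] at this
      nlinarith [this]
    · have := h.c2 m hm h1 h2
      simp only [LF.qq, LF.gg, LF.rr] at this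
      nlinarith [this]
    · have := h.c3 m hm h1 h2
      simp only [LF.ze] at this
      nlinarith [this]
    · have := h.c1 m hm h1 h2
      simp only [LF.qq, LF.gg] at this
      nlinarith [this]
  have := PWat_of_cells (sx := false) (sy := true) (by linarith [hL.a1_lo]) (by linarith [hK.a1_lo])
    hn.le hp.le (Or.inr hn) (Or.inl rfl) hc
  simpa [sg] using this

theorem PWat.swapPi {F G : ℝ → ℝ → ℝ} {α β γ x y k : ℝ} (h : PWat F G α β γ x y k) :
    PWat G F α γ β y x k := by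
  intro m s t hm s0 s1 t0 t1 a1 a2 a3 a4
  have := h m t s hm t0 t1 s0 s1 a3 a4 a1 a2
  linarith

/-- **the angle `π` from the conditions** -/
theorem RPair0_pi_of {s l a u v κ : ℝ} (hs : 0 < s) (hl : 0 < l) (hs3 : s < 3) (hl3 : l < 3)
    (hu : 0 < u) (hv : 0 < v) (hinf : a < (Lz s).ze + (Lz l).ze)
    (h1 : PiC (Lz s) (Lz l) s l a (v * l - u * s) κ)
    (h2 : PiC (Lz l) (Lz s) l s a (u * s - v * l) κ)
    (hV : 2 / u + u * (1 + s ^ 2) / 2 + (2 / v + v * (1 + l ^ 2) / 2) - a + κ ≤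
      2 * √2 * (s + l)) :
    RPair0 Fz g0z g1z g2z s l π (cos π) := by
  have bs := Lz_bounds hs.le hs3
  have bl := Lz_bounds hl.le hl3
  refine RPair0_pi (L := Lz s) (K := Lz l) (u := u) (v := v) (κ := κ)
    (α := -((Lz s).a1 - (Lz s).b0) - ((Lz l).a1 - (Lz l).b0) - a) hs rfl rfl bs.zm bl.zm
    ?_ hu.le hv.le (fun h => absurd h hu.ne') (fun h => absurd h hv.ne') ?_ ?_ ?_
  · simp only [LF.ze] at hinf
    linarith
  · rw [g1z_lt hs3, g1z_lt hl3]
    have := h1.pwat bs bl hs hl rfl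
    rw [show u + -1 * (Lz s).b0 = u - (Lz s).b0 by ring,
      show v + -1 * (Lz l).b0 = v - (Lz l).b0 by ring]
    exact this
  · rw [g1z_lt hs3, g1z_lt hl3]
    have := (h2.pwat (u := v) (v := u) bl bs hl hs rfl).swapPi
    rw [show u + -1 * (Lz s).b0 = u - (Lz s).b0 by ring,
      show v + -1 * (Lz l).b0 = v - (Lz l).b0 by ring,
      show -((Lz s).a1 - (Lz s).b0) - ((Lz l).a1 - (Lz l).b0) - a =
        -((Lz l).a1 - (Lz l).b0) - ((Lz s).a1 - (Lz s).b0) - a by ring]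
    exact this
  · rw [g2z_lt hs3, g2z_lt hl3, g0z_lt hs3, g0z_lt hl3]
    have e1 : (1 - 1 * -1 : ℝ) ^ 2 / (2 * u) = 2 / u := by
      field_simp
      norm_num
    have e2 : (1 - 1 * -1 : ℝ) ^ 2 / (2 * v) = 2 / v := by
      field_simp
      norm_num
    rw [e1, e2]
    linarith

end Pool.Agent.RRS
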