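import Pool.Agent.RRS.Pi1

/-!
# Opposite points: multipliers of the kind `D = a (l - s)`, `κ = a l s + e`

`s ≤ 1`, `s ≤ l < 3`.
-/

set_option autoImplicit false

noncomputable section

namespace Pool.Agent.RRS

open Real

/-- the relations for `s ≤ 1` -/
structure Sm (L : LF) : Prop where
  r1 : L.b0 = L.a1 + L.zp
  r2 : L.b1 = L.a1 + 2 * L.zp

/-- the data of a multiplier of this kind -/
structure FA (L K : LF) (s l a e : ℝ) : Prop where
  s0 : 0 < s
  sl : s ≤ l
  a0 : 0 ≤ a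
  e0 : 0 ≤ e
  q1 : 0 ≤ L.qq
  q2 : 0 ≤ K.qq
  i1 : K.qq * l ≤ a * (s + l)
  i2 : L.qq * s ≤ a * (s + l)
  g : K.gg * s ^ 2 ≤ e
  g0 : 0 ≤ K.gg
  inf : a ≤ L.ze + K.ze
  h4 : K.ze * l ≤ a * (l - s) + 2 * L.b0 * s
  b5 : 0 ≤ -(a * (l - s)) + 2 * K.b0 * l - L.ze * s
  v5 : 0 ≤ (L.ze - a + (K.b1 - K.a1)) * l ^ 2 +
    (-(a * (l - s)) + 2 * K.b0 * l - L.ze * s) * l + (a * l * s + e)
  d6 : 0 ≤ 2 * (L.ze + K.ze - a) * l + (-(a * (l - s)) + 2 * K.b0 * l - L.ze * s) - K.rr * l

theorem FA.pi1 {L K : LF} {s l a e : ℝ} (h : FA L K s l a e) (hs : Sm L) :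
    PiC L K s l a (a * (l - s)) (a * l * s + e) := by
  obtain ⟨s0, sl, a0, e0, q1, q2, i1, i2, g, g0, inf, h4, b5, v5, d6⟩ := h
  obtain ⟨r1, r2⟩ := hs
  have hG : L.gg = 0 := by
    simp only [LF.gg]
    rw [r1, r2]
    ring
  have hR : L.rr = 0 := by
    simp only [LF.rr]
    rw [r1, r2]
    ring
  have hz : L.b1 - L.a1 = L.ze := by
    simp only [LF.ze]
    rw [r1, r2]
    ring
  have l0 : 0 < l := by linarith
  have key : ∀ m : ℝ, 0 ≤ m → m ≤ l → 0 ≤ a * l * s + e + a * (l - s) * m - a * m ^ 2 -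
      K.qq * (m * (l - m)) := by
    intro m m0 ml
    have h1 : 0 ≤ a * (s + m) - K.qq * m := by
      have h2 : 0 ≤ (l - m) * (a * s) + m * (a * (s + l) - K.qq * l) := by
        have := mul_nonneg (sub_nonneg.2 ml) (mul_nonneg a0 s0.le)
        have := mul_nonneg m0 (sub_nonneg.2 i1)
        linarith
      have h3 : l * (a * (s + m) - K.qq * m) = (l - m) * (a * s) +
          m * (a * (s + l) - K.qq * l) := by ring
      rw [← h3] at h2
      exact nonneg_of_mul_nonneg_right h2 l0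
    have h2 := mul_nonneg (sub_nonneg.2 ml) h1
    linarith
  have key3 : ∀ m : ℝ, 0 ≤ m → 0 ≤ a * l * s + e + a * (l - s) * m - a * m ^ 2 +
      (L.b1 - L.a1) * m ^ 2 + 2 * L.b0 * (s * m) + K.ze * (m * (m - l)) := by
    intro m m0
    rw [hz]
    have h1 := mul_nonneg (sub_nonneg.2 inf) (sq_nonneg m)
    have h2 := mul_nonneg (sub_nonneg.2 h4) m0
    have h3 := mul_nonneg a0 (mul_nonneg l0.le s0.le)
    linarith
  constructor
  · intro m m0 _ ml
    rw [hG]
    have := key m m0 ml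
    linarith
  · intro m m0 _ ml
    rw [hG, hR]
    have := key m m0 ml
    linarith
  · intro m m0 _ _
    exact key3 m m0
  · intro m m0 _ _
    rw [hR]
    have := key3 m m0
    linarith

theorem FA.pi2 {L K : LF} {s l a e : ℝ} (h : FA L K s l a e) (hs : Sm L) :
    PiC K L l s a (-(a * (l - s))) (a * l * s + e) := by
  obtain ⟨s0, sl, a0, e0, q1, q2, i1, i2, g, g0, inf, h4, b5, v5, d6⟩ := h
  obtain ⟨r1, r2⟩ := hs
  have l0 : 0 < l := by linarith
  have hz : K.rr = K.ze - (K.b1 - K.a1) := by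
    simp only [LF.rr, LF.ze]
    ring
  constructor
  · intro m m0 _ ms
    have h1 : 0 ≤ a * (l + m) - L.qq * m := by
      have h2 : 0 ≤ (s - m) * (a * l) + m * (a * (s + l) - L.qq * s) := by
        have := mul_nonneg (sub_nonneg.2 ms) (mul_nonneg a0 l0.le)
        have := mul_nonneg m0 (sub_nonneg.2 i2)
        linarith
      have h3 : s * (a * (l + m) - L.qq * m) = (s - m) * (a * l) +
          m * (a * (s + l) - L.qq * s) := by ring
      rw [← h3] at h2
      exact nonneg_of_mul_nonneg_right h2 s0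
    have h2 := mul_nonneg (sub_nonneg.2 ms) h1
    have h3 : K.gg * m ^ 2 ≤ e := by
      have : m ^ 2 ≤ s ^ 2 := pow_le_pow_left₀ m0 ms 2
      exact (mul_le_mul_of_nonneg_left this g0).trans g
    linarith
  · intro m m0 lm ms
    have e1 : m = s := le_antisymm ms (sl.trans lm)
    have e2 : l = s := le_antisymm (lm.trans ms) sl
    subst e1
    rw [e2]
    have : 0 ≤ e - K.gg * m ^ 2 := by linarith
    linarith
  · intro m m0 ml sm
    have e1 : a * l * s + e + -(a * (l - s)) * m - a * m ^ 2 + (K.b1 - K.a1) * m ^ 2 +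
        2 * K.b0 * (l * m) + L.ze * (m * (m - s)) =
        (L.ze - a + (K.b1 - K.a1)) * m ^ 2 +
        (-(a * (l - s)) + 2 * K.b0 * l - L.ze * s) * m + (a * l * s + e) := by ring
    rw [e1]
    have h3 := mul_nonneg a0 (mul_nonneg l0.le s0.le)
    rcases le_total (L.ze - a + (K.b1 - K.a1)) 0 with hA | hA
    · refine quad_concave hA m0 ml ?_ v5
      simp only [ne_eq, OfNat.ofNat_ne_zero, not_false_eq_true, zero_pow, mul_zero, zero_add]
      linarith
    · have h4' := mul_nonneg hA (sq_nonneg m)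
      have h5 := mul_nonneg b5 m0
      linarith
  · intro m m0 lm sm
    have e1 : a * l * s + e + -(a * (l - s)) * m - a * m ^ 2 + (K.b1 - K.a1) * m ^ 2 +
        2 * K.b0 * (l * m) + L.ze * (m * (m - s)) + K.rr * (m * (m - l)) =
        (L.ze + K.ze - a) * m ^ 2 +
        ((-(a * (l - s)) + 2 * K.b0 * l - L.ze * s) - K.rr * l) * m + (a * l * s + e) := by
      rw [hz]
      ring
    rw [e1]
    refine quad_right (sub_nonneg.2 inf) ?_ lm ?_
    · linarith
    · have : (L.ze + K.ze - a) * l ^ 2 +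
          ((-(a * (l - s)) + 2 * K.b0 * l - L.ze * s) - K.rr * l) * l + (a * l * s + e) =
          (L.ze - a + (K.b1 - K.a1)) * l ^ 2 +
          (-(a * (l - s)) + 2 * K.b0 * l - L.ze * s) * l + (a * l * s + e) := by
        rw [hz]
        ring
      rw [this]
      exact v5

theorem Lz_sm {s : ℝ} (h : s ≤ 1) : Sm (Lz s) := by
  obtain ⟨h1, h2⟩ := Lz_rel1 h
  exact ⟨h1, h2⟩

/-- **the angle `π`, multipliers of this kind** -/
theorem RPair0_pi_FA {s l a e u v : ℝ} (h : FA (Lz s) (Lz l) s l a e) (hs1 : s ≤ 1) (hl3 : l < 3)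
    (hu : 0 < u) (hv : 0 < v) (hinf : a < (Lz s).ze + (Lz l).ze) (hD : v * l - u * s = a * (l - s))
    (hV : 2 / u + u * (1 + s ^ 2) / 2 + (2 / v + v * (1 + l ^ 2) / 2) - a + (a * l * s + e) ≤
      2 * √2 * (s + l)) :
    RPair0 Fz g0z g1z g2z s l π (cos π) := by
  have h0 := h.s0
  have hl := h.sl
  refine RPair0_pi_of h0 (by linarith) (by linarith) hl3 hu hv hinf ?_ ?_ hV
  · rw [hD]
    exact h.pi1 (Lz_sm hs1)
  · rw [show u * s - v * l = -(a * (l - s)) by linarith]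
    exact h.pi2 (Lz_sm hs1)

end Pool.Agent.RRS
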