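import Pool.Agent.RRS.Pi2

/-!
# Opposite points: small norms, and both norms between `1` and `3/2`
-/

set_option autoImplicit false

noncomputable section

namespace Pool.Agent.RRS

open Real

theorem two_sqrt_two : 2828 / 1000 < 2 * √2 ∧ 2 * √2 < 28285 / 10000 := by
  constructor
  · have : (1414 / 1000 : ℝ) < √2 := by
      rw [show (1414 / 1000 : ℝ) = √((1414 / 1000) ^ 2) from (Real.sqrt_sq (by norm_num)).symm]
      exact Real.sqrt_lt_sqrt (by norm_num) (by norm_num)
    linarith
  · have : √2 < (141425 / 100000 : ℝ) := by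
      rw [show (141425 / 100000 : ℝ) = √((141425 / 100000) ^ 2) from
        (Real.sqrt_sq (by norm_num)).symm]
      exact Real.sqrt_lt_sqrt (by norm_num) (by norm_num)
    linarith

/-- both norms at most `7/10` -/
theorem pi_small {s l : ℝ} (hs : 0 < s) (hsl : s ≤ l) (hl : l ≤ 7 / 10) :
    RPair0 Fz g0z g1z g2z s l π (cos π) := by
  obtain ⟨r2, -⟩ := two_sqrt_two
  have l0 : 0 < l := by linarith
  have eL : Lz s = Lp1 s := Lz_one (by linarith)
  have eK : Lz l = Lp1 l := Lz_one (by linarith)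
  obtain ⟨a, ha⟩ : ∃ a : ℝ, a = 41 / 10 - 132 / 100 * (s + l) := ⟨_, rfl⟩
  have a1 : 225 / 100 ≤ a := by rw [ha]; linarith
  refine RPair0_pi_of (a := a) (u := 206 / 100) (v := 206 / 100)
    (κ := a * l ^ 2 - 206 / 100 * (l - s) * l) hs l0 (by linarith) (by linarith) (by norm_num)
    (by norm_num) ?_ ?_ ?_ ?_
  · rw [eL, eK, ha]
    simp only [LF.ze, Lp1, mkL]
    linarith
  · rw [eL, eK]
    have hinf : a + 2 / 100 = (Lp1 s).ze + (Lp1 l).ze := by
      rw [ha]
      simp only [LF.ze, Lp1, mkL]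
      ring
    have key3 : ∀ m : ℝ, 0 ≤ m → 0 ≤ a * l ^ 2 - 206 / 100 * (l - s) * l +
        (206 / 100 * l - 206 / 100 * s) * m - a * m ^ 2 + ((Lp1 s).b1 - (Lp1 s).a1) * m ^ 2 +
        2 * (Lp1 s).b0 * (s * m) + (Lp1 l).ze * (m * (m - l)) := by
      intro m m0
      have h1 : 0 ≤ a * l ^ 2 - 206 / 100 * (l - s) * l := by nlinarith
      have h2 : (Lp1 s).b1 - (Lp1 s).a1 = (Lp1 s).ze := by
        simp only [LF.ze, Lp1, mkL]
        ring
      rw [h2]
      have h3 : 0 ≤ ((Lp1 s).ze + (Lp1 l).ze - a) * m ^ 2 := by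
        rw [← hinf]
        have := sq_nonneg m
        linarith
      have h4 : 0 ≤ (206 / 100 * l - 206 / 100 * s) + 2 * (Lp1 s).b0 * s - (Lp1 l).ze * l := by
        simp only [LF.ze, Lp1, mkL]
        nlinarith
      have := mul_nonneg h4 m0
      linarith
    have key1 : ∀ m : ℝ, 0 ≤ m → m ≤ l → 0 ≤ a * l ^ 2 - 206 / 100 * (l - s) * l +
        (206 / 100 * l - 206 / 100 * s) * m - a * m ^ 2 - (Lp1 l).qq * (m * (l - m)) := by
      intro m m0 ml
      have h1 : 0 ≤ a * (l + m) - 206 / 100 * (l - s) - (Lp1 l).qq * m := by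
        simp only [LF.qq, Lp1, mkL]
        nlinarith [mul_nonneg m0 l0.le, mul_nonneg m0 (sub_nonneg.2 a1)]
      have := mul_nonneg (sub_nonneg.2 ml) h1
      linarith
    have hG : (Lp1 s).gg = 0 := by
      simp only [LF.gg, Lp1, mkL]
      ring
    have hR : (Lp1 s).rr = 0 := by
      simp only [LF.rr, Lp1, mkL]
      ring
    constructor
    · intro m m0 _ ml
      rw [hG]
      have := key1 m m0 ml
      linarith
    · intro m m0 _ ml
      rw [hG, hR]
      have := key1 m m0 ml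
      linarith
    · intro m m0 _ _
      exact key3 m m0
    · intro m m0 _ _
      rw [hR]
      have := key3 m m0
      linarith
  · rw [eL, eK]
    have hinf : a + 2 / 100 = (Lp1 s).ze + (Lp1 l).ze := by
      rw [ha]
      simp only [LF.ze, Lp1, mkL]
      ring
    have key3 : ∀ m : ℝ, 0 ≤ m → 0 ≤ a * l ^ 2 - 206 / 100 * (l - s) * l +
        (206 / 100 * s - 206 / 100 * l) * m - a * m ^ 2 + ((Lp1 l).b1 - (Lp1 l).a1) * m ^ 2 +
        2 * (Lp1 l).b0 * (l * m) + (Lp1 s).ze * (m * (m - s)) := by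
      intro m m0
      have h1 : 0 ≤ a * l ^ 2 - 206 / 100 * (l - s) * l := by nlinarith
      have h2 : (Lp1 l).b1 - (Lp1 l).a1 = (Lp1 l).ze := by
        simp only [LF.ze, Lp1, mkL]
        ring
      rw [h2]
      have h3 : 0 ≤ ((Lp1 s).ze + (Lp1 l).ze - a) * m ^ 2 := by
        rw [← hinf]
        have := sq_nonneg m
        linarith
      have h4 : 0 ≤ (206 / 100 * s - 206 / 100 * l) + 2 * (Lp1 l).b0 * l - (Lp1 s).ze * s := by
        simp only [LF.ze, Lp1, mkL]
        nlinarith
      have := mul_nonneg h4 m0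
      linarith
    have key1 : ∀ m : ℝ, 0 ≤ m → m ≤ s → 0 ≤ a * l ^ 2 - 206 / 100 * (l - s) * l +
        (206 / 100 * s - 206 / 100 * l) * m - a * m ^ 2 - (Lp1 s).qq * (m * (s - m)) := by
      intro m m0 ms
      have h1 : 0 ≤ a * (l + m) - (Lp1 s).qq * m := by
        simp only [LF.qq, Lp1, mkL]
        nlinarith [mul_nonneg m0 hs.le, mul_nonneg m0 (sub_nonneg.2 a1)]
      have h2 := mul_nonneg (sub_nonneg.2 ms) h1
      have h3 : 0 ≤ (l + m) * ((a - 206 / 100) * (l - s)) :=
        mul_nonneg (by linarith) (mul_nonneg (by linarith) (by linarith))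
      linarith
    have hG : (Lp1 l).gg = 0 := by
      simp only [LF.gg, Lp1, mkL]
      ring
    have hR : (Lp1 l).rr = 0 := by
      simp only [LF.rr, Lp1, mkL]
      ring
    constructor
    · intro m m0 _ ms
      rw [hG]
      have := key1 m m0 ms
      linarith
    · intro m m0 _ ms
      rw [hG, hR]
      have := key1 m m0 ms
      linarith
    · intro m m0 _ _
      exact key3 m m0
    · intro m m0 _ _
      rw [hR]
      have := key3 m m0
      linarith
  · rw [ha]
    have h1 := mul_pos (show 0 < s + l by linarith) (sub_pos.2 r2)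
    nlinarith [mul_nonneg hs.le (sub_nonneg.2 hsl), mul_nonneg l0.le (sub_nonneg.2 hl),
      mul_nonneg hs.le (sub_nonneg.2 hl), mul_nonneg (mul_nonneg hs.le l0.le) l0.le,
      mul_nonneg (mul_nonneg l0.le l0.le) (sub_nonneg.2 hl),
      mul_nonneg (mul_nonneg l0.le (sub_nonneg.2 hl)) (sub_nonneg.2 hl),
      mul_nonneg (mul_nonneg hs.le (sub_nonneg.2 hl)) (sub_nonneg.2 hl)]

end Pool.Agent.RRS
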