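import Pool.Agent.RRS.Pi3

/-!
# Opposite points: both norms between `1` and `3/2`
-/

set_option autoImplicit false

noncomputable section

namespace Pool.Agent.RRS

open Real

/-- the multiplier of the norm (times the norm) -/
def wI (R : ℝ) : ℝ := √2 + 955 / 1000 * (R - 1)

theorem wI_pos {R : ℝ} (h : 1 ≤ R) : 0 < wI R := by
  unfold wI
  have : 0 < √2 := by positivity
  linarith

theorem vI {R : ℝ} (h1 : 1 ≤ R) (h2 : R ≤ 3 / 2) :
    2 / (wI R / R) + wI R / R * (1 + R ^ 2) / 2 + 1075 / 1000 * (R - 1) ≤ 2 * √2 * R := by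
  have hw := wI_pos h1
  have R0 : 0 < R := by linarith
  obtain ⟨r1, r2⟩ := two_sqrt_two
  have hr : √2 * √2 = 2 := Real.mul_self_sqrt (by norm_num)
  have e1 : 2 / (wI R / R) + wI R / R * (1 + R ^ 2) / 2 =
      (4 * R ^ 2 + wI R ^ 2 * (1 + R ^ 2)) / (2 * R * wI R) := by
    field_simp
    ring
  rw [e1]
  have hp : 0 < 2 * R * wI R := by positivity
  rw [show (2 * √2 * R) = (2 * √2 * R - 1075 / 1000 * (R - 1)) + 1075 / 1000 * (R - 1) by ring]
  gcongr
  rw [div_le_iff₀ hp]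
  obtain ⟨τ, rfl⟩ : ∃ τ, R = 1 + τ := ⟨R - 1, by ring⟩
  have t0 : 0 ≤ τ := by linarith
  have t1 : τ ≤ 1 / 2 := by linarith
  have e2 : (2 * √2 * (1 + τ) - 1075 / 1000 * (1 + τ - 1)) * (2 * (1 + τ) * wI (1 + τ)) -
      (4 * (1 + τ) ^ 2 + wI (1 + τ) ^ 2 * (1 + (1 + τ) ^ 2)) =
      τ * ((4 - 215 / 100 * √2) + (167 / 100 * √2 - 18773 / 10000) * τ +
        (191 / 100 * √2 - 38773 / 10000) * τ ^ 2 - 912025 / 1000000 * τ ^ 3) := by
    unfold wI
    linear_combination (4 * (1 + τ) ^ 2 - (1 + (1 + τ) ^ 2)) * hr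
  have h3 : τ ^ 2 ≤ 1 / 4 := by nlinarith
  have h4 : τ ^ 3 ≤ 1 / 8 := by
    have : τ ^ 3 = τ * τ ^ 2 := by ring
    rw [this]
    nlinarith [sq_nonneg τ]
  have h5 : 0 ≤ (4 - 215 / 100 * √2) + (167 / 100 * √2 - 18773 / 10000) * τ +
        (191 / 100 * √2 - 38773 / 10000) * τ ^ 2 - 912025 / 1000000 * τ ^ 3 := by
    have a1 : 0 ≤ (167 / 100 * √2 - 18773 / 10000) * τ := mul_nonneg (by linarith) t0
    have a2 : 0 ≤ (2 - (38773 / 10000 - 191 / 100 * √2)) * τ ^ 2 :=
      mul_nonneg (by linarith) (sq_nonneg τ)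
    linarith
  have := mul_nonneg t0 h5
  linarith

/-- both norms between `1` and `3/2` -/
theorem pi_mid {s l : ℝ} (hs : 1 ≤ s) (hsl : s ≤ l) (hl : l ≤ 3 / 2) :
    RPair0 Fz g0z g1z g2z s l π (cos π) := by
  have s0 : 0 < s := by linarith
  have l0 : 0 < l := by linarith
  have eL : Lz s = Lp2 s := Lz_two hs (by linarith)
  have eK : Lz l = Lp2 l := Lz_two (by linarith) hl
  have hD : wI l / l * l - wI s / s * s = 955 / 1000 * (l - s) := by
    rw [div_mul_cancel₀ _ l0.ne', div_mul_cancel₀ _ s0.ne']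
    unfold wI
    ring
  have hD' : wI s / s * s - wI l / l * l = -(955 / 1000 * (l - s)) := by linarith
  refine RPair0_pi_of (a := 215 / 100 - 5975 / 10000 * (s + l)) (u := wI s / s) (v := wI l / l)
    (κ := 4775 / 10000 * (s + l)) s0 l0 (by linarith) (by linarith) (div_pos (wI_pos hs) s0)
    (div_pos (wI_pos (by linarith)) l0) ?_ ?_ ?_ ?_
  · rw [eL, eK]
    simp only [LF.ze, Lp2, mkL]
    linarith
  · rw [eL, eK, hD]
    have c4 : ∀ m : ℝ, 0 ≤ m → 0 ≤ 4775 / 10000 * (s + l) + 955 / 1000 * (l - s) * m -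
        (215 / 100 - 5975 / 10000 * (s + l)) * m ^ 2 + ((Lp2 s).b1 - (Lp2 s).a1) * m ^ 2 +
        2 * (Lp2 s).b0 * (s * m) + (Lp2 l).ze * (m * (m - l)) + (Lp2 s).rr * (m * (m - s)) := by
      intro m m0
      have e : 4775 / 10000 * (s + l) + 955 / 1000 * (l - s) * m -
        (215 / 100 - 5975 / 10000 * (s + l)) * m ^ 2 + ((Lp2 s).b1 - (Lp2 s).a1) * m ^ 2 +
        2 * (Lp2 s).b0 * (s * m) + (Lp2 l).ze * (m * (m - l)) + (Lp2 s).rr * (m * (m - s)) =
        4775 / 10000 * (s + l) + m * (955 / 1000 * (l - s) + 2 * (Lp2 s).b0 * s -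
          (Lp2 l).ze * l - (Lp2 s).rr * s) + (151 / 100 - 4925 / 10000 * (s + l)) * m ^ 2 := by
        simp only [LF.ze, LF.rr, Lp2, mkL]
        ring
      rw [e]
      have h1 : 0 ≤ 955 / 1000 * (l - s) + 2 * (Lp2 s).b0 * s -
          (Lp2 l).ze * l - (Lp2 s).rr * s := by
        simp only [LF.ze, LF.rr, Lp2, mkL]
        nlinarith
      have h2 := mul_nonneg m0 h1
      have h3 : 0 ≤ (151 / 100 - 4925 / 10000 * (s + l)) * m ^ 2 :=
        mul_nonneg (by linarith) (sq_nonneg m)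
      linarith
    have c1 : ∀ m : ℝ, 4775 / 10000 * (s + l) + 955 / 1000 * (l - s) * m -
        (215 / 100 - 5975 / 10000 * (s + l)) * m ^ 2 - (Lp2 l).qq * (m * (l - m)) =
        4775 / 10000 * (s + l) * (1 - m) ^ 2 + 75 / 100 * (l - 1) * (m * (l - m)) +
          12 / 100 * (s + l - 2) * m ^ 2 := by
      intro m
      simp only [LF.qq, Lp2, mkL]
      ring
    have hG : (Lp2 s).gg = 0 := by
      simp only [LF.gg, Lp2, mkL]
      ring
    constructor
    · intro m m0 _ ml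
      rw [hG, c1]
      have := mul_nonneg (show (0 : ℝ) ≤ 4775 / 10000 * (s + l) by linarith) (sq_nonneg (1 - m))
      have := mul_nonneg (show (0 : ℝ) ≤ 75 / 100 * (l - 1) by linarith)
        (mul_nonneg m0 (sub_nonneg.2 ml))
      have := mul_nonneg (show (0 : ℝ) ≤ 12 / 100 * (s + l - 2) by linarith) (sq_nonneg m)
      linarith
    · intro m m0 sm ml
      rw [hG, c1]
      have e : (Lp2 s).rr = 121 / 100 * (s - 1) := by
        simp only [LF.rr, Lp2, mkL]
        ring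
      rw [e]
      have h1 : 955 / 1000 * (4 * ((s - 1) * (m - s))) ≤
          4775 / 10000 * (s + l) * (1 - m) ^ 2 := by
        have a1 : 4 * ((s - 1) * (m - s)) ≤ (1 - m) ^ 2 := by
          have : (1 - m) ^ 2 - 4 * ((s - 1) * (m - s)) = ((s - 1) - (m - s)) ^ 2 := by ring
          have := sq_nonneg ((s - 1) - (m - s))
          linarith
        have a2 : 955 / 1000 * (1 - m) ^ 2 ≤ 4775 / 10000 * (s + l) * (1 - m) ^ 2 :=
          mul_le_mul_of_nonneg_right (by linarith) (sq_nonneg _)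
        linarith
      have h2 : 121 / 100 * (s - 1) * (m * (m - s)) ≤ 121 / 100 * (3 / 2 * ((s - 1) * (m - s))) := by
        have : 0 ≤ (3 / 2 - m) * ((s - 1) * (m - s)) :=
          mul_nonneg (by linarith) (mul_nonneg (by linarith) (by linarith))
        linarith
      have h3 : 0 ≤ (s - 1) * (m - s) := mul_nonneg (by linarith) (by linarith)
      have := mul_nonneg (show (0 : ℝ) ≤ 75 / 100 * (l - 1) by linarith)
        (mul_nonneg m0 (sub_nonneg.2 ml))
      have := mul_nonneg (show (0 : ℝ) ≤ 12 / 100 * (s + l - 2) by linarith) (sq_nonneg m)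
      linarith
    · intro m m0 ms lm
      have e1 : m = s := le_antisymm ms (by linarith)
      have := c4 m m0
      rw [e1] at this ⊢
      linarith
    · intro m m0 _ _
      exact c4 m m0
  · rw [eL, eK, hD']
    have c1 : ∀ m : ℝ, 4775 / 10000 * (s + l) + -(955 / 1000 * (l - s)) * m -
        (215 / 100 - 5975 / 10000 * (s + l)) * m ^ 2 - (Lp2 s).qq * (m * (s - m)) =
        4775 / 10000 * (s + l) * (1 - m) ^ 2 + 75 / 100 * (s - 1) * (m * (s - m)) +
          12 / 100 * (s + l - 2) * m ^ 2 := by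
      intro m
      simp only [LF.qq, Lp2, mkL]
      ring
    have hG : (Lp2 l).gg = 0 := by
      simp only [LF.gg, Lp2, mkL]
      ring
    have key1 : ∀ m : ℝ, 0 ≤ m → m ≤ s → 0 ≤ 4775 / 10000 * (s + l) +
        -(955 / 1000 * (l - s)) * m -
        (215 / 100 - 5975 / 10000 * (s + l)) * m ^ 2 - (Lp2 s).qq * (m * (s - m)) := by
      intro m m0 ms
      rw [c1]
      have := mul_nonneg (show (0 : ℝ) ≤ 4775 / 10000 * (s + l) by linarith) (sq_nonneg (1 - m))
      have := mul_nonneg (show (0 : ℝ) ≤ 75 / 100 * (s - 1) by linarith)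
        (mul_nonneg m0 (sub_nonneg.2 ms))
      have := mul_nonneg (show (0 : ℝ) ≤ 12 / 100 * (s + l - 2) by linarith) (sq_nonneg m)
      linarith
    constructor
    · intro m m0 _ ms
      rw [hG]
      have := key1 m m0 ms
      linarith
    · intro m m0 lm ms
      rw [hG]
      have e1 : m = l := le_antisymm (by linarith) lm
      have := key1 m m0 ms
      rw [e1] at this ⊢
      linarith
    · intro m m0 ml sm
      have e : 4775 / 10000 * (s + l) + -(955 / 1000 * (l - s)) * m -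
        (215 / 100 - 5975 / 10000 * (s + l)) * m ^ 2 + ((Lp2 l).b1 - (Lp2 l).a1) * m ^ 2 +
        2 * (Lp2 l).b0 * (l * m) + (Lp2 s).ze * (m * (m - s)) =
        4775 / 10000 * (s + l) + m * (-(955 / 1000 * (l - s)) + 2 * (Lp2 l).b0 * l -
          (Lp2 s).ze * s - l) + (1 + (Lp2 s).ze + ((Lp2 l).b1 - (Lp2 l).a1) -
            (215 / 100 - 5975 / 10000 * (s + l))) * m ^ 2 + m * (l - m) := by
        ring
      rw [e]
      have h1 : 0 ≤ -(955 / 1000 * (l - s)) + 2 * (Lp2 l).b0 * l - (Lp2 s).ze * s - l := by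
        simp only [LF.ze, Lp2, mkL]
        nlinarith
      have h2 : 0 ≤ 1 + (Lp2 s).ze + ((Lp2 l).b1 - (Lp2 l).a1) -
            (215 / 100 - 5975 / 10000 * (s + l)) := by
        simp only [LF.ze, Lp2, mkL]
        linarith
      have := mul_nonneg m0 h1
      have := mul_nonneg h2 (sq_nonneg m)
      have := mul_nonneg m0 (sub_nonneg.2 ml)
      linarith
    · intro m m0 lm sm
      have e : 4775 / 10000 * (s + l) + -(955 / 1000 * (l - s)) * m -
        (215 / 100 - 5975 / 10000 * (s + l)) * m ^ 2 + ((Lp2 l).b1 - (Lp2 l).a1) * m ^ 2 +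
        2 * (Lp2 l).b0 * (l * m) + (Lp2 s).ze * (m * (m - s)) + (Lp2 l).rr * (m * (m - l)) =
        4775 / 10000 * (s + l) + m * (-(955 / 1000 * (l - s)) + 2 * (Lp2 l).b0 * l -
          (Lp2 s).ze * s - (Lp2 l).rr * l) + (151 / 100 - 4925 / 10000 * (s + l)) * m ^ 2 := by
        simp only [LF.ze, LF.rr, Lp2, mkL]
        ring
      rw [e]
      have h1 : 0 ≤ -(955 / 1000 * (l - s)) + 2 * (Lp2 l).b0 * l -
          (Lp2 s).ze * s - (Lp2 l).rr * l := by
        simp only [LF.ze, LF.rr, Lp2, mkL]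
        nlinarith
      have h2 := mul_nonneg m0 h1
      have h3 : 0 ≤ (151 / 100 - 4925 / 10000 * (s + l)) * m ^ 2 :=
        mul_nonneg (by linarith) (sq_nonneg m)
      linarith
  · have h1 := vI hs (by linarith)
    have h2 := vI (R := l) (by linarith) hl
    linarith

end Pool.Agent.RRS
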