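import Pool.Agent.RRS.Pi4

/-!
# Opposite points: the exact family `u = v = a = 2 √2 / (s + l)`
-/

set_option autoImplicit false

noncomputable section

namespace Pool.Agent.RRS

open Real

/-- the family, `l ≤ 1` -/
theorem pi_fam1 {s l : ℝ} (hs : 0 < s) (hsl : s ≤ l) (hl : l ≤ 1) (hS : 103 / 100 ≤ s + l) :
    RPair0 Fz g0z g1z g2z s l π (cos π) := by
  obtain ⟨r1, r2⟩ := two_sqrt_two
  have l0 : 0 < l := by linarith
  have S0 : 0 < s + l := by linarith
  obtain ⟨U, hU⟩ : ∃ U : ℝ, U = 2 * √2 / (s + l) := ⟨_, rfl⟩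
  have hUS : U * (s + l) = 2 * √2 := by rw [hU]; field_simp
  have U1 : 1414 / 1000 ≤ U := by
    by_contra h
    push Not at h
    nlinarith
  have U0 : 0 < U := by linarith
  have U2 : U ≤ 27462 / 10000 := by
    by_contra h
    push Not at h
    nlinarith
  have eL : Lz s = Lp1 s := Lz_one (by linarith)
  have eK : Lz l = Lp1 l := Lz_one hl
  have hinf : U < (Lp1 s).ze + (Lp1 l).ze := by
    simp only [LF.ze, Lp1, mkL]
    by_contra h
    push Not at h
    nlinarith [mul_nonneg (sub_nonneg.2 hS) (show 0 ≤ 2 - (s + l) by linarith)]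
  have hl2 : 1 / 2 ≤ l := by linarith
  have hb5 : 0 ≤ -(U * (l - s)) + 2 * (Lp1 l).b0 * l - (Lp1 s).ze * s := by
    simp only [LF.ze, Lp1, mkL]
    nlinarith [mul_nonneg (sub_nonneg.2 U2) (sub_nonneg.2 hsl), mul_nonneg hs.le (sub_nonneg.2 hsl),
      mul_nonneg l0.le (sub_nonneg.2 hl), mul_nonneg hs.le hs.le]
  have hrr : (Lp1 l).rr = 0 := by
    simp only [LF.rr, Lp1, mkL]
    ring
  have hbb : (Lp1 l).b1 - (Lp1 l).a1 = (Lp1 l).ze := by
    simp only [LF.ze, Lp1, mkL]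
    ring
  have hFA : FA (Lz s) (Lz l) s l U 0 := by
    rw [eL, eK]
    refine ⟨hs, hsl, U0.le, le_rfl, ?_, ?_, ?_, ?_, ?_, ?_, hinf.le, ?_, hb5, ?_, ?_⟩
    · simp only [LF.qq, Lp1, mkL]
      linarith
    · simp only [LF.qq, Lp1, mkL]
      linarith
    · rw [hUS]
      simp only [LF.qq, Lp1, mkL]
      nlinarith
    · rw [hUS]
      simp only [LF.qq, Lp1, mkL]
      nlinarith
    · simp only [LF.gg, Lp1, mkL]
      nlinarith
    · simp only [LF.gg, Lp1, mkL]
      linarith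
    · simp only [LF.ze, Lp1, mkL]
      nlinarith [mul_nonneg (sub_nonneg.2 U1) (sub_nonneg.2 hsl), mul_nonneg hs.le l0.le,
        mul_nonneg hs.le (sub_nonneg.2 hsl), mul_nonneg (sub_nonneg.2 hl2) (sub_nonneg.2 hsl)]
    · rw [hbb]
      have h1 : 0 ≤ ((Lp1 s).ze - U + (Lp1 l).ze) * l ^ 2 :=
        mul_nonneg (by linarith) (sq_nonneg l)
      have h2 := mul_nonneg hb5 l0.le
      have h3 : 0 ≤ U * l * s := by positivity
      linarith
    · rw [hrr]
      have h1 : 0 ≤ 2 * ((Lp1 s).ze + (Lp1 l).ze - U) * l :=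
        mul_nonneg (by linarith) l0.le
      linarith
  refine RPair0_pi_FA (a := U) (e := 0) (u := U) (v := U) hFA (by linarith) (by linarith) U0 U0
    (by rw [eL, eK]; exact hinf) (by ring) ?_
  have hr : √2 * √2 = 2 := Real.mul_self_sqrt (by norm_num)
  have e1 : 2 / U = (s + l) * √2 / 2 := by
    rw [hU]
    field_simp
    linarith
  rw [e1]
  have e2 : (s + l) * √2 / 2 + U * (1 + s ^ 2) / 2 + ((s + l) * √2 / 2 + U * (1 + l ^ 2) / 2) - U +
      (U * l * s + 0) = (s + l) * √2 + U * (s + l) * (s + l) / 2 := by ring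
  rw [e2, hUS]
  linarith

/-- the family, `1 ≤ l` -/
theorem pi_fam2 {s l : ℝ} (hs : 0 < s) (hs1 : s ≤ 1) (hl1 : 1 ≤ l) (hl : l ≤ 3 / 2)
    (hS : 103 / 100 ≤ s + l) (hS2 : s + l ≤ 21 / 10) (hc : l ≤ 145 / 100 ∨ 5 / 100 ≤ s) :
    RPair0 Fz g0z g1z g2z s l π (cos π) := by
  obtain ⟨r1, r2⟩ := two_sqrt_two
  have l0 : 0 < l := by linarith
  have hsl : s ≤ l := by linarith
  have S0 : 0 < s + l := by linarith
  obtain ⟨U, hU⟩ : ∃ U : ℝ, U = 2 * √2 / (s + l) := ⟨_, rfl⟩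
  have hUS : U * (s + l) = 2 * √2 := by rw [hU]; field_simp
  have U1 : 1346 / 1000 ≤ U := by
    by_contra h
    push Not at h
    nlinarith
  have U0 : 0 < U := by linarith
  have eL : Lz s = Lp1 s := Lz_one hs1
  have eK : Lz l = Lp2 l := Lz_two hl1 hl
  obtain ⟨t, ht⟩ : ∃ t, t = l - 1 := ⟨_, rfl⟩
  have elt : l = 1 + t := by linarith
  have t0 : 0 ≤ t := by linarith
  have t1 : t ≤ 1 / 2 := by linarith
  have hinf : U < (Lp1 s).ze + (Lp2 l).ze := by
    simp only [LF.ze, Lp1, Lp2, mkL]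
    by_contra h
    push Not at h
    nlinarith [mul_nonneg (sub_nonneg.2 hS) (sub_nonneg.2 hS2), mul_nonneg t0 S0.le]
  have hs0 : 0 ≤ s := hs.le
  have sq : s ^ 2 ≤ s := by nlinarith
  have hb5 : 0 ≤ -(U * (l - s)) + 2 * (Lp2 l).b0 * l - (Lp1 s).ze * s := by
    have e : (s + l) * (-(U * (l - s)) + 2 * (Lp2 l).b0 * l - (Lp1 s).ze * s) =
        -(U * (s + l)) * (l - s) + (2 * (Lp2 l).b0 * l - (Lp1 s).ze * s) * (s + l) := by ring
    refine nonneg_of_mul_nonneg_right ?_ S0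
    rw [e, hUS]
    have h1 : (2 * √2) * (l - s) ≤ 28285 / 10000 * (l - s) :=
      mul_le_mul_of_nonneg_right r2.le (by linarith)
    have h2 : 0 ≤ -(28285 / 10000) * (l - s) + (2 * (Lp2 l).b0 * l - (Lp1 s).ze * s) * (s + l) := by
      simp only [LF.ze, Lp1, Lp2, mkL]
      rw [elt]
      have e2 : -(28285 / 10000) * (1 + t - s) + (2 * (141 / 100 - 75 / 100 * (1 + t - 1)) * (1 + t) -
          (103 / 100 - 66 / 100 * s + (206 / 100 - 65 / 100 * s) - (103 / 100 + 1 / 100 * s)) * s) *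
            (s + (1 + t)) =
          (1 + t) * (-(85 / 10000) + 132 / 100 * t - 15 / 10 * t ^ 2) +
          s * (35885 / 10000 - 74 / 100 * t - 15 / 10 * t ^ 2 - 74 / 100 * s +
            132 / 100 * s * t + 132 / 100 * s ^ 2) := by ring
      rw [e2]
      have e3 : 0 ≤ s * (2 - 74 / 100 * s + 132 / 100 * s * t + 132 / 100 * s ^ 2) :=
        mul_nonneg hs0 (by nlinarith [mul_nonneg hs0 t0, sq_nonneg s])
      have e4 : 0 ≤ s * (15885 / 10000 - 74 / 100 * t - 15 / 10 * t ^ 2 - 8 / 10) :=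
        mul_nonneg hs0 (by nlinarith)
      have e5 : 0 ≤ (1 + t) * (-(85 / 10000) + 132 / 100 * t - 15 / 10 * t ^ 2) + 8 / 10 * s := by
        nlinarith [mul_nonneg t0 (sub_nonneg.2 t1), mul_nonneg t0 t0,
          mul_nonneg (mul_nonneg t0 t0) (sub_nonneg.2 t1)]
      linarith
    linarith
  have hv5 : 0 ≤ ((Lp1 s).ze - U + ((Lp2 l).b1 - (Lp2 l).a1)) * l ^ 2 +
      (-(U * (l - s)) + 2 * (Lp2 l).b0 * l - (Lp1 s).ze * s) * l + (U * l * s + 0) := by
    have e : (s + l) * (((Lp1 s).ze - U + ((Lp2 l).b1 - (Lp2 l).a1)) * l ^ 2 +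
      (-(U * (l - s)) + 2 * (Lp2 l).b0 * l - (Lp1 s).ze * s) * l + (U * l * s + 0)) =
        l * ((Lp1 s).ze * (l - s) * (s + l) - 2 * (U * (s + l)) * (l - s) +
          ((Lp2 l).b1 - (Lp2 l).a1 + 2 * (Lp2 l).b0) * l * (s + l)) := by ring
    refine nonneg_of_mul_nonneg_right ?_ S0
    rw [e, hUS]
    refine mul_nonneg l0.le ?_
    have h1 : (2 * √2) * (l - s) ≤ 28285 / 10000 * (l - s) :=
      mul_le_mul_of_nonneg_right r2.le (by linarith)
    have h2 : 0 ≤ (Lp1 s).ze * (l - s) * (s + l) - 2 * (28285 / 10000) * (l - s) +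
          ((Lp2 l).b1 - (Lp2 l).a1 + 2 * (Lp2 l).b0) * l * (s + l) := by
      simp only [LF.ze, Lp1, Lp2, mkL]
      rw [elt]
      have e2 : (103 / 100 - 66 / 100 * s + (206 / 100 - 65 / 100 * s) - (103 / 100 + 1 / 100 * s)) *
          (1 + t - s) * (s + (1 + t)) - 2 * (28285 / 10000) * (1 + t - s) +
          (178 / 100 - 190 / 100 * (1 + t - 1) - (104 / 100 + 40 / 100 * (1 + t - 1)) +
            2 * (141 / 100 - 75 / 100 * (1 + t - 1))) * (1 + t) * (s + (1 + t)) =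
          (1 + t) * (182 / 100 * t - 38 / 10 * t ^ 2 - 37 / 1000) +
          s * (7897 / 1000 - 288 / 100 * t - 512 / 100 * t ^ 2 - 206 / 100 * s +
            132 / 100 * s ^ 2) := by ring
      rw [e2]
      have e3 : 0 ≤ s * (7897 / 1000 - 288 / 100 * t - 512 / 100 * t ^ 2 - 206 / 100 * s +
            132 / 100 * s ^ 2 - 43 / 10) := mul_nonneg hs0 (by nlinarith [sq_nonneg (s - 78 / 100)])
      have e4 : 0 ≤ (1 + t) * (182 / 100 * t - 38 / 10 * t ^ 2 - 37 / 1000) + 43 / 10 * s := by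
        rcases le_total t (3 / 100) with h3 | h3
        · nlinarith [mul_nonneg t0 (sub_nonneg.2 h3), mul_nonneg t0 t0,
            mul_nonneg (mul_nonneg t0 t0) (sub_nonneg.2 h3)]
        · have k4 : t ≤ 45 / 100 → 0 ≤ (1 + t) * (182 / 100 * t - 38 / 10 * t ^ 2 - 37 / 1000) +
              43 / 10 * s := by
            intro h4
            have : 0 ≤ (1 + t) * (182 / 100 * t - 38 / 10 * t ^ 2 - 37 / 1000) :=
              mul_nonneg (by linarith) (by nlinarith)
            linarith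
          rcases hc with h5 | h5
          · exact k4 (by linarith)
          · rcases le_total t (45 / 100) with h4 | h4
            · exact k4 h4
            · nlinarith [mul_nonneg t0 (sub_nonneg.2 t1), mul_nonneg (sub_nonneg.2 h4)
                (sub_nonneg.2 t1)]
      linarith
    linarith
  have hd6 : 0 ≤ 2 * ((Lp1 s).ze + (Lp2 l).ze - U) * l +
      (-(U * (l - s)) + 2 * (Lp2 l).b0 * l - (Lp1 s).ze * s) - (Lp2 l).rr * l := by
    have e : (s + l) * (2 * ((Lp1 s).ze + (Lp2 l).ze - U) * l +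
      (-(U * (l - s)) + 2 * (Lp2 l).b0 * l - (Lp1 s).ze * s) - (Lp2 l).rr * l) =
      2 * ((Lp1 s).ze + (Lp2 l).ze) * l * (s + l) - (U * (s + l)) * (3 * l - s) +
      (2 * (Lp2 l).b0 * l - (Lp1 s).ze * s - (Lp2 l).rr * l) * (s + l) := by ring
    refine nonneg_of_mul_nonneg_right ?_ S0
    rw [e, hUS]
    have h1 : (2 * √2) * (3 * l - s) ≤ 28285 / 10000 * (3 * l - s) :=
      mul_le_mul_of_nonneg_right r2.le (by linarith)
    have h2 : 0 ≤ 2 * ((Lp1 s).ze + (Lp2 l).ze) * l * (s + l) - 28285 / 10000 * (3 * l - s) +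
      (2 * (Lp2 l).b0 * l - (Lp1 s).ze * s - (Lp2 l).rr * l) * (s + l) := by
      simp only [LF.ze, LF.rr, Lp1, Lp2, mkL]
      rw [elt]
      ring_nf
      nlinarith [mul_nonneg t0 (sub_nonneg.2 t1), mul_nonneg hs0 t0, mul_nonneg hs0 (sub_nonneg.2 hs1),
        mul_nonneg (mul_nonneg hs0 t0) (sub_nonneg.2 t1), mul_nonneg (mul_nonneg t0 t0) (sub_nonneg.2 t1)]
    linarith
  have hFA : FA (Lz s) (Lz l) s l U 0 := by
    rw [eL, eK]
    refine ⟨hs, hsl, U0.le, le_rfl, ?_, ?_, ?_, ?_, ?_, ?_, hinf.le, ?_, hb5, hv5, hd6⟩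
    · simp only [LF.qq, Lp1, mkL]
      linarith
    · simp only [LF.qq, Lp2, mkL]
      linarith
    · rw [hUS]
      simp only [LF.qq, Lp2, mkL]
      nlinarith
    · rw [hUS]
      simp only [LF.qq, Lp1, mkL]
      nlinarith
    · simp only [LF.gg, Lp2, mkL]
      nlinarith
    · simp only [LF.gg, Lp2, mkL]
      linarith
    · simp only [LF.ze, Lp1, Lp2, mkL]
      nlinarith [mul_nonneg (sub_nonneg.2 U1) (sub_nonneg.2 hsl), mul_nonneg hs.le l0.le,
        mul_nonneg hs.le (sub_nonneg.2 hsl), mul_nonneg hs.le (sub_nonneg.2 hs1)]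
  refine RPair0_pi_FA (a := U) (e := 0) (u := U) (v := U) hFA (by linarith) (by linarith) U0 U0
    (by rw [eL, eK]; exact hinf) (by ring) ?_
  have e1 : 2 / U = (s + l) * √2 / 2 := by
    have hr : √2 * √2 = 2 := Real.mul_self_sqrt (by norm_num)
    rw [hU]
    field_simp
    linarith
  rw [e1]
  have e2 : (s + l) * √2 / 2 + U * (1 + s ^ 2) / 2 + ((s + l) * √2 / 2 + U * (1 + l ^ 2) / 2) - U +
      (U * l * s + 0) = (s + l) * √2 + U * (s + l) * (s + l) / 2 := by ring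
  rw [e2, hUS]
  linarith

end Pool.Agent.RRS
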