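import Pool.Agent.RRS.Pi5

/-!
# Opposite points: `s ≤ 1`, `1 ≤ l ≤ 3 / 2`, `s + l ≥ 21 / 10`
-/

set_option autoImplicit false

noncomputable section

namespace Pool.Agent.RRS

open Real

/-- the cost of the larger norm -/
theorem cost_le {w l C : ℝ} (hw : 0 < w) (hl : 0 < l)
    (h : 0 ≤ 2 * l * w * C - 4 * l ^ 2 - w ^ 2 * (1 + l ^ 2)) :
    2 / (w / l) + w / l * (1 + l ^ 2) / 2 ≤ C := by
  have e : 2 / (w / l) + w / l * (1 + l ^ 2) / 2 = (4 * l ^ 2 + w ^ 2 * (1 + l ^ 2)) / (2 * l * w) := by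
    field_simp
    ring
  rw [e, div_le_iff₀ (by positivity)]
  linarith

theorem poly_fa2 {x y z s l : ℝ} (hx : 0 ≤ x) (hy : 0 ≤ y) (hz : 0 ≤ z) (hz' : z = 4 / 10 - x - y)
    (hs : s = 1 - x) (hl : l = 3 / 2 - y) :
    0 ≤ 2 * l * ((2024 / 1000 - 44 / 100 * (s + l)) * (l - s) + 29 / 20 * s) *
      (2828 / 1000 * (s + l) - 2 / (29 / 20) - 29 / 20 * (1 + s ^ 2) / 2 +
        (2024 / 1000 - 44 / 100 * (s + l)) * (1 - l * s)) - 4 * l ^ 2 -
      ((2024 / 1000 - 44 / 100 * (s + l)) * (l - s) + 29 / 20 * s) ^ 2 * (1 + l ^ 2) := by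
  have e : 2 * l * ((2024 / 1000 - 44 / 100 * (s + l)) * (l - s) + 29 / 20 * s) *
      (2828 / 1000 * (s + l) - 2 / (29 / 20) - 29 / 20 * (1 + s ^ 2) / 2 +
        (2024 / 1000 - 44 / 100 * (s + l)) * (1 - l * s)) - 4 * l ^ 2 -
      ((2024 / 1000 - 44 / 100 * (s + l)) * (l - s) + 29 / 20 * s) ^ 2 * (1 + l ^ 2) =
      719015 / 3712 * z ^ 6 + 8159799 / 9280 * (y * z ^ 5) + 151372947 / 92800 * (y ^ 2 * z ^ 4)
      + 182004563 / 116000 * (y ^ 3 * z ^ 3) + 1881559213 / 2320000 * (y ^ 4 * z ^ 2)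
      + 47871803 / 232000 * (y ^ 5 * z) + 344341 / 18560 * y ^ 6 + 79888017 / 74240 * (x * z ^ 5)
      + 51572429 / 12800 * (x * y * z ^ 4) + 5436846241 / 928000 * (x * y ^ 2 * z ^ 3)
      + 3777966937 / 928000 * (x * y ^ 3 * z ^ 2) + 2429679493 / 1856000 * (x * y ^ 4 * z)
      + 2140277 / 14848 * (x * y ^ 5) + 1809429121 / 742400 * (x ^ 2 * z ^ 4)
      + 6638936707 / 928000 * (x ^ 2 * y * z ^ 3)
      + 69843158943 / 9280000 * (x ^ 2 * y ^ 2 * z ^ 2)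
      + 605860323 / 185600 * (x ^ 2 * y ^ 3 * z) + 13605729 / 29696 * (x ^ 2 * y ^ 4)
      + 533143167 / 185600 * (x ^ 3 * z ^ 3) + 1134190123 / 185600 * (x ^ 3 * y * z ^ 2)
      + 3739508321 / 928000 * (x ^ 3 * y ^ 2 * z) + 5723017 / 7424 * (x ^ 3 * y ^ 3)
      + 684791189 / 371200 * (x ^ 4 * z ^ 2) + 2293034723 / 928000 * (x ^ 4 * y * z)
      + 10791593 / 14848 * (x ^ 4 * y ^ 2) + 223790193 / 371200 * (x ^ 5 * z)
      + 27039969 / 74240 * (x ^ 5 * y) + 2248749 / 29696 * x ^ 6 := by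
    rw [hz', hs, hl]
    ring
  rw [e]
  positivity

/-- `s ≤ 1`, `1 ≤ l ≤ 3 / 2`, `s + l ≥ 21 / 10` -/
theorem pi_fa2 {s l : ℝ} (hs1 : s ≤ 1) (hl : l ≤ 3 / 2) (hS : 21 / 10 ≤ s + l) :
    RPair0 Fz g0z g1z g2z s l π (cos π) := by
  obtain ⟨r1, r2⟩ := two_sqrt_two
  have hs : 6 / 10 ≤ s := by linarith
  have hl1 : 11 / 10 ≤ l := by linarith
  have l0 : 0 < l := by linarith
  have s0 : 0 < s := by linarith
  have hsl : s ≤ l := by linarith
  have S0 : 0 < s + l := by linarith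
  obtain ⟨a, ha⟩ : ∃ a : ℝ, a = 2024 / 1000 - 44 / 100 * (s + l) := ⟨_, rfl⟩
  have a1 : 924 / 1000 ≤ a := by rw [ha]; linarith
  have a2 : a ≤ 11 / 10 := by rw [ha]; linarith
  have aS : 231 / 100 ≤ a * (s + l) := by
    rw [ha]
    nlinarith [mul_nonneg (sub_nonneg.2 hS) (show 0 ≤ 5 / 2 - (s + l) by linarith)]
  have eL : Lz s = Lp1 s := Lz_one hs1
  have eK : Lz l = Lp2 l := Lz_two (by linarith) hl
  have hinf : a < (Lp1 s).ze + (Lp2 l).ze := by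
    rw [ha]
    simp only [LF.ze, Lp1, Lp2, mkL]
    linarith
  have hlt : 0 ≤ l - 1 := by linarith
  have hlt2 : l - 1 ≤ 1 / 2 := by linarith
  have hb5 : 9 / 10 + 1 / 10 ≤ -(a * (l - s)) + 2 * (Lp2 l).b0 * l - (Lp1 s).ze * s := by
    simp only [LF.ze, Lp1, Lp2, mkL]
    nlinarith [mul_nonneg (sub_nonneg.2 a2) (sub_nonneg.2 hsl),
      mul_nonneg hlt (sub_nonneg.2 hlt2), mul_nonneg (sub_nonneg.2 hs) (sub_nonneg.2 hs1)]
  have hv5 : 0 ≤ ((Lp1 s).ze - a + ((Lp2 l).b1 - (Lp2 l).a1)) * l ^ 2 +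
      (-(a * (l - s)) + 2 * (Lp2 l).b0 * l - (Lp1 s).ze * s) * l + (a * l * s + 0) := by
    have e : ((Lp1 s).ze - a + ((Lp2 l).b1 - (Lp2 l).a1)) * l ^ 2 +
      (-(a * (l - s)) + 2 * (Lp2 l).b0 * l - (Lp1 s).ze * s) * l + (a * l * s + 0) =
        l * (((Lp1 s).ze - 2 * a) * (l - s) +
          ((Lp2 l).b1 - (Lp2 l).a1 + 2 * (Lp2 l).b0) * l) := by ring
    rw [e]
    refine mul_nonneg l0.le ?_
    simp only [LF.ze, Lp1, Lp2, mkL]
    nlinarith [mul_nonneg (sub_nonneg.2 a2) (sub_nonneg.2 hsl),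
      mul_nonneg hlt (sub_nonneg.2 hlt2), mul_nonneg (sub_nonneg.2 hs) (sub_nonneg.2 hs1),
      mul_nonneg (sub_nonneg.2 hs1) (sub_nonneg.2 hsl)]
  have hd6 : 0 ≤ 2 * ((Lp1 s).ze + (Lp2 l).ze - a) * l +
      (-(a * (l - s)) + 2 * (Lp2 l).b0 * l - (Lp1 s).ze * s) - (Lp2 l).rr * l := by
    have h1 : 0 ≤ 2 * ((Lp1 s).ze + (Lp2 l).ze - a) * l := mul_nonneg (by linarith) l0.le
    have h2 : (Lp2 l).rr * l ≤ 1 := by
      simp only [LF.rr, Lp2, mkL]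
      nlinarith
    linarith
  have hFA : FA (Lz s) (Lz l) s l a 0 := by
    rw [eL, eK]
    refine ⟨s0, hsl, by linarith, le_rfl, ?_, ?_, ?_, ?_, ?_, ?_, hinf.le, ?_, by linarith, hv5, hd6⟩
    · simp only [LF.qq, Lp1, mkL]
      linarith
    · simp only [LF.qq, Lp2, mkL]
      linarith
    · simp only [LF.qq, Lp2, mkL]
      nlinarith
    · simp only [LF.qq, Lp1, mkL]
      nlinarith
    · simp only [LF.gg, Lp2, mkL]
      nlinarith
    · simp only [LF.gg, Lp2, mkL]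
      linarith
    · simp only [LF.ze, Lp1, Lp2, mkL]
      nlinarith [mul_nonneg (sub_nonneg.2 a1) (sub_nonneg.2 hsl), mul_nonneg s0.le l0.le,
        mul_nonneg s0.le (sub_nonneg.2 hsl), mul_nonneg s0.le (sub_nonneg.2 hs1)]
  have hw : 0 < a * (l - s) + 29 / 20 * s := by
    have := mul_nonneg (show 0 ≤ a by linarith) (sub_nonneg.2 hsl)
    linarith
  refine RPair0_pi_FA (a := a) (e := 0) (u := 29 / 20) (v := (a * (l - s) + 29 / 20 * s) / l) hFA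
    hs1 (by linarith) (by norm_num) (div_pos hw l0) (by rw [eL, eK]; exact hinf) ?_ ?_
  · rw [div_mul_cancel₀ _ l0.ne']
    ring
  · have key := poly_fa2 (x := 1 - s) (y := 3 / 2 - l) (z := s + l - 21 / 10) (s := s) (l := l)
      (by linarith) (by linarith) (by linarith) (by ring) (by ring) (by ring)
    rw [← ha] at key
    have := cost_le hw l0 key
    have h3 := mul_lt_mul_of_pos_right r1 S0
    linarith

end Pool.Agent.RRS
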