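import Pool.Agent.RRS.Pi1

/-!
# Opposite points: rectangles of the two radii

On a rectangle of the two radii the multipliers are mixtures (with the bilinear weights) of four
constant multipliers, and the error is the bilinear function with given values at the vertices.
-/

set_option autoImplicit false

noncomputable section

namespace Pool.Agent.RRS

open Real

/-- an affine function which is nonnegative at two points -/
theorem rc_ends {A B x y z : ℝ} (hx : x ≤ z) (hy : z ≤ y) (h1 : 0 ≤ A + B * x)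
    (h2 : 0 ≤ A + B * y) : 0 ≤ A + B * z := by
  rcases le_total 0 B with h | h
  · have := mul_le_mul_of_nonneg_left hx h
    linarith
  · have := mul_le_mul_of_nonpos_left hy h
    linarith

/-- the conditions at a vertex -/
structure RcV (L K : LF) (ρ n p a u v κ n0 n1 : ℝ) : Prop where
  c1 : ∀ m : ℝ, 0 ≤ m → m ≤ n → m ≤ p → 0 ≤ κ + (v * p - u * n) * m - a * m ^ 2 -
    K.qq * (m * (p - m)) - L.gg * m ^ 2
  c2 : ∀ m : ℝ, n ≤ m → m ≤ p → 0 ≤ κ + (v * p - u * n) * m - a * m ^ 2 -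
    K.qq * (m * (p - m)) - L.gg * m ^ 2 - ρ * (m * (m - n))
  c3 : ∀ m : ℝ, p ≤ m → m ≤ n1 → 0 ≤ κ + (v * p - u * n) * m - a * m ^ 2 +
    (L.b1 - L.a1) * m ^ 2 + 2 * L.b0 * (n * m) + K.ze * (m * (m - p))
  c4 : ∀ m : ℝ, n0 ≤ m → p ≤ m → 0 ≤ κ + (v * p - u * n) * m - a * m ^ 2 +
    (L.b1 - L.a1) * m ^ 2 + 2 * L.b0 * (n * m) + K.ze * (m * (m - p)) + L.rr * (m * (m - n))

/-- the conditions on the diagonal `p = m` -/
structure RcD (L : LF) (ρ n p0 p1 a u v α β : ℝ) : Prop where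
  d1 : ∀ m : ℝ, p0 ≤ m → m ≤ p1 → m ≤ n → 0 ≤ α + β * m + (v * m - u * n) * m - a * m ^ 2 -
    L.gg * m ^ 2
  d2 : ∀ m : ℝ, p0 ≤ m → m ≤ p1 → n ≤ m → 0 ≤ α + β * m + (v * m - u * n) * m - a * m ^ 2 -
    L.gg * m ^ 2 - ρ * (m * (m - n))

/-- the inner cells, at an end of the interval of `n` -/
theorem rc_row {L K : LF} {ρ n p0 p1 a u v α β n0 n1 p m : ℝ}
    (h0 : RcV L K ρ n p0 a u v (α + β * p0) n0 n1) (h1 : RcV L K ρ n p1 a u v (α + β * p1) n0 n1)
    (hD : RcD L ρ n p0 p1 a u v α β) (hp0 : p0 ≤ p) (hp1 : p ≤ p1) (hm : 0 ≤ m) (hmp : m ≤ p) :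
    0 ≤ α + β * p + (v * p - u * n) * m - a * m ^ 2 - K.qq * (m * (p - m)) - L.gg * m ^ 2 -
      ρ * (m * max (m - n) 0) := by
  rcases le_total m n with hn | hn
  · rw [max_eq_right (sub_nonpos.2 hn)]
    rcases le_total m p0 with h | h
    · have := rc_ends (A := α - u * n * m - a * m ^ 2 + K.qq * m ^ 2 - L.gg * m ^ 2)
        (B := β + v * m - K.qq * m) hp0 hp1 (by linarith [h0.c1 m hm hn h])
        (by linarith [h1.c1 m hm hn (hmp.trans hp1)])
      linarith
    · have := rc_ends (A := α - u * n * m - a * m ^ 2 + K.qq * m ^ 2 - L.gg * m ^ 2)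
        (B := β + v * m - K.qq * m) hmp hp1 (by linarith [hD.d1 m h (hmp.trans hp1) hn])
        (by linarith [h1.c1 m hm hn (hmp.trans hp1)])
      linarith
  · rw [max_eq_left (sub_nonneg.2 hn)]
    rcases le_total m p0 with h | h
    · have := rc_ends (A := α - u * n * m - a * m ^ 2 + K.qq * m ^ 2 - L.gg * m ^ 2 -
          ρ * (m * (m - n)))
        (B := β + v * m - K.qq * m) hp0 hp1 (by linarith [h0.c2 m hn h])
        (by linarith [h1.c2 m hn (hmp.trans hp1)])
      linarith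
    · have := rc_ends (A := α - u * n * m - a * m ^ 2 + K.qq * m ^ 2 - L.gg * m ^ 2 -
          ρ * (m * (m - n)))
        (B := β + v * m - K.qq * m) hmp hp1 (by linarith [hD.d2 m h (hmp.trans hp1) hn])
        (by linarith [h1.c2 m hn (hmp.trans hp1)])
      linarith

/-- the inner cells -/
theorem rc_inner {L K : LF} {ρ n p0 p1 a u v α0 β0 α1 β1 n0 n1 p m t : ℝ}
    (h00 : RcV L K ρ n0 p0 a u v (α0 + β0 * p0) n0 n1)
    (h01 : RcV L K ρ n0 p1 a u v (α0 + β0 * p1) n0 n1)
    (h10 : RcV L K ρ n1 p0 a u v (α1 + β1 * p0) n0 n1)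
    (h11 : RcV L K ρ n1 p1 a u v (α1 + β1 * p1) n0 n1)
    (hD0 : RcD L ρ n0 p0 p1 a u v α0 β0) (hD1 : RcD L ρ n1 p0 p1 a u v α1 β1)
    (hr : 0 ≤ ρ) (ht0 : 0 ≤ t) (ht1 : t ≤ 1) (hn : n = (1 - t) * n0 + t * n1)
    (hp0 : p0 ≤ p) (hp1 : p ≤ p1) (hm : 0 ≤ m) (hmp : m ≤ p) :
    0 ≤ (1 - t) * (α0 + β0 * p) + t * (α1 + β1 * p) + (v * p - u * n) * m - a * m ^ 2 -
      K.qq * (m * (p - m)) - L.gg * m ^ 2 - ρ * (m * max (m - n) 0) := by
  have r0 := mul_nonneg (sub_nonneg.2 ht1) (rc_row h00 h01 hD0 hp0 hp1 hm hmp)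
  have r1 := mul_nonneg ht0 (rc_row h10 h11 hD1 hp0 hp1 hm hmp)
  have hmax : max (m - n) 0 ≤ (1 - t) * max (m - n0) 0 + t * max (m - n1) 0 := by
    apply max_le
    · have a1 := mul_le_mul_of_nonneg_left (le_max_left (m - n0) 0) (sub_nonneg.2 ht1)
      have a2 := mul_le_mul_of_nonneg_left (le_max_left (m - n1) 0) ht0
      rw [hn]
      linarith
    · have a1 := mul_nonneg (sub_nonneg.2 ht1) (le_max_right (m - n0) 0)
      have a2 := mul_nonneg ht0 (le_max_right (m - n1) 0)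
      linarith
  have h2 := mul_le_mul_of_nonneg_left (mul_le_mul_of_nonneg_left hmax hm) hr
  rw [hn] at h2 ⊢
  linarith

/-- **the conditions in a rectangle** -/
theorem rc_rect {L K : LF} {ρ n p0 p1 a u v α0 β0 α1 β1 n0 n1 p t : ℝ}
    (h00 : RcV L K ρ n0 p0 a u v (α0 + β0 * p0) n0 n1)
    (h01 : RcV L K ρ n0 p1 a u v (α0 + β0 * p1) n0 n1)
    (h10 : RcV L K ρ n1 p0 a u v (α1 + β1 * p0) n0 n1)
    (h11 : RcV L K ρ n1 p1 a u v (α1 + β1 * p1) n0 n1)
    (hD0 : RcD L ρ n0 p0 p1 a u v α0 β0) (hD1 : RcD L ρ n1 p0 p1 a u v α1 β1)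
    (hr : 0 ≤ ρ) (hrr : L.rr ≤ ρ) (hb0 : 0 ≤ L.b0) (hb1 : 0 ≤ L.b1) (hz : 0 ≤ L.zp)
    (hn01 : n0 ≤ n1) (hn0 : 0 ≤ n0) (ht0 : 0 ≤ t) (ht1 : t ≤ 1) (hn : n = (1 - t) * n0 + t * n1)
    (hp0 : p0 ≤ p) (hp1 : p ≤ p1) :
    PiC L K n p a (v * p - u * n) ((1 - t) * (α0 + β0 * p) + t * (α1 + β1 * p)) := by
  have nlo : n0 ≤ n := by
    have := mul_nonneg ht0 (sub_nonneg.2 hn01)
    rw [hn]
    linarith
  have nhi : n ≤ n1 := by
    have := mul_nonneg (sub_nonneg.2 ht1) (sub_nonneg.2 hn01)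
    rw [hn]
    linarith
  have hn00 : 0 ≤ n := hn0.trans nlo
  constructor
  · intro m hm h1 h2
    have := rc_inner h00 h01 h10 h11 hD0 hD1 hr ht0 ht1 hn hp0 hp1 hm h2
    rw [max_eq_right (sub_nonpos.2 h1)] at this
    linarith
  · intro m hm h1 h2
    have := rc_inner h00 h01 h10 h11 hD0 hD1 hr ht0 ht1 hn hp0 hp1 hm h2
    rw [max_eq_left (sub_nonneg.2 h1)] at this
    have := mul_le_mul_of_nonneg_right hrr (mul_nonneg hm (sub_nonneg.2 h1))
    linarith
  · intro m hm h1 h2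
    -- the value at `p0`
    have e0 : 0 ≤ (1 - t) * (α0 + β0 * p0) + t * (α1 + β1 * p0) + (v * p0 - u * n) * m -
        a * m ^ 2 + (L.b1 - L.a1) * m ^ 2 + 2 * L.b0 * (n * m) + K.ze * (m * (m - p0)) := by
      have r0 := mul_nonneg (sub_nonneg.2 ht1) (h00.c3 m (hp0.trans h2) (h1.trans nhi))
      have r1 := mul_nonneg ht0 (h10.c3 m (hp0.trans h2) (h1.trans nhi))
      rw [hn]
      linarith
    rcases le_total p1 m with h | h
    · have e1 : 0 ≤ (1 - t) * (α0 + β0 * p1) + t * (α1 + β1 * p1) + (v * p1 - u * n) * m -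
          a * m ^ 2 + (L.b1 - L.a1) * m ^ 2 + 2 * L.b0 * (n * m) + K.ze * (m * (m - p1)) := by
        have r0 := mul_nonneg (sub_nonneg.2 ht1) (h01.c3 m h (h1.trans nhi))
        have r1 := mul_nonneg ht0 (h11.c3 m h (h1.trans nhi))
        rw [hn]
        linarith
      have := rc_ends (A := (1 - t) * α0 + t * α1 - u * n * m - a * m ^ 2 +
        (L.b1 - L.a1) * m ^ 2 + 2 * L.b0 * (n * m) + K.ze * m ^ 2)
        (B := (1 - t) * β0 + t * β1 + v * m - K.ze * m) hp0 hp1 (by linarith) (by linarith)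
      linarith
    · have e1 := rc_inner h00 h01 h10 h11 hD0 hD1 hr ht0 ht1 hn (hp0.trans h2) h hm le_rfl
      rw [max_eq_right (sub_nonpos.2 h1)] at e1
      have e2 := mul_nonneg hb1 (sq_nonneg m)
      have e3 := mul_nonneg hb0 (mul_nonneg hm (sub_nonneg.2 h1))
      simp only [LF.gg] at e1
      have := rc_ends (A := (1 - t) * α0 + t * α1 - u * n * m - a * m ^ 2 +
        (L.b1 - L.a1) * m ^ 2 + 2 * L.b0 * (n * m) + K.ze * m ^ 2)
        (B := (1 - t) * β0 + t * β1 + v * m - K.ze * m) hp0 h2 (by linarith) (by linarith)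
      linarith
  · intro m hm h1 h2
    have e0 : 0 ≤ (1 - t) * (α0 + β0 * p0) + t * (α1 + β1 * p0) + (v * p0 - u * n) * m -
        a * m ^ 2 + (L.b1 - L.a1) * m ^ 2 + 2 * L.b0 * (n * m) + K.ze * (m * (m - p0)) +
        L.rr * (m * (m - n)) := by
      have r0 := mul_nonneg (sub_nonneg.2 ht1) (h00.c4 m (nlo.trans h1) (hp0.trans h2))
      have r1 := mul_nonneg ht0 (h10.c4 m (nlo.trans h1) (hp0.trans h2))
      rw [hn]
      linarith
    rcases le_total p1 m with h | h
    · have e1 : 0 ≤ (1 - t) * (α0 + β0 * p1) + t * (α1 + β1 * p1) + (v * p1 - u * n) * m -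
          a * m ^ 2 + (L.b1 - L.a1) * m ^ 2 + 2 * L.b0 * (n * m) + K.ze * (m * (m - p1)) +
          L.rr * (m * (m - n)) := by
        have r0 := mul_nonneg (sub_nonneg.2 ht1) (h01.c4 m (nlo.trans h1) h)
        have r1 := mul_nonneg ht0 (h11.c4 m (nlo.trans h1) h)
        rw [hn]
        linarith
      have := rc_ends (A := (1 - t) * α0 + t * α1 - u * n * m - a * m ^ 2 +
        (L.b1 - L.a1) * m ^ 2 + 2 * L.b0 * (n * m) + K.ze * m ^ 2 + L.rr * (m * (m - n)))
        (B := (1 - t) * β0 + t * β1 + v * m - K.ze * m) hp0 hp1 (by linarith) (by linarith)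
      linarith
    · have e1 := rc_inner h00 h01 h10 h11 hD0 hD1 hr ht0 ht1 hn (hp0.trans h2) h hm le_rfl
      rw [max_eq_left (sub_nonneg.2 h1)] at e1
      have e2 := mul_nonneg hb1 (mul_nonneg hn00 hm)
      have e3 := mul_nonneg hz (mul_nonneg hm (sub_nonneg.2 h1))
      have e4 := mul_le_mul_of_nonneg_right hrr (mul_nonneg hm (sub_nonneg.2 h1))
      simp only [LF.gg] at e1
      simp only [LF.rr] at e0 e4 ⊢
      have := rc_ends (A := (1 - t) * α0 + t * α1 - u * n * m - a * m ^ 2 +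
        (L.b1 - L.a1) * m ^ 2 + 2 * L.b0 * (n * m) + K.ze * m ^ 2 +
          (L.zp + L.b0 - L.b1) * (m * (m - n)))
        (B := (1 - t) * β0 + t * β1 + v * m - K.ze * m) hp0 h2 (by linarith) (by linarith)
      linarith

/-! ### mixtures of four data -/

/-- the mixture with the bilinear weights -/
def bil (t r : ℝ) (f : Bool → Bool → ℝ) : ℝ :=
  (1 - t) * (1 - r) * f false false + (1 - t) * r * f false true + t * (1 - r) * f true false +
    t * r * f true true

theorem bil_nonneg {t r : ℝ} (t0 : 0 ≤ t) (t1 : t ≤ 1) (r0 : 0 ≤ r) (r1 : r ≤ 1)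
    {f : Bool → Bool → ℝ} (h : ∀ c d, 0 ≤ f c d) : 0 ≤ bil t r f := by
  unfold bil
  have a := sub_nonneg.2 t1
  have b := sub_nonneg.2 r1
  have e1 := mul_nonneg (mul_nonneg a b) (h false false)
  have e2 := mul_nonneg (mul_nonneg a r0) (h false true)
  have e3 := mul_nonneg (mul_nonneg t0 b) (h true false)
  have e4 := mul_nonneg (mul_nonneg t0 r0) (h true true)
  linarith

/-- the values are the mixtures of two types -/
structure MixL (t : ℝ) (L : LF) (X : Bool → LF) : Prop where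
  a0 : L.a0 = (1 - t) * (X false).a0 + t * (X true).a0
  a1 : L.a1 = (1 - t) * (X false).a1 + t * (X true).a1
  zp : L.zp = (1 - t) * (X false).zp + t * (X true).zp
  b0 : L.b0 = (1 - t) * (X false).b0 + t * (X true).b0
  b1 : L.b1 = (1 - t) * (X false).b1 + t * (X true).b1

theorem MixL.qq {t : ℝ} {L : LF} {X : Bool → LF} (h : MixL t L X) :
    L.qq = (1 - t) * (X false).qq + t * (X true).qq := by
  simp only [LF.qq, h.a0, h.b0]
  ring

theorem MixL.gg {t : ℝ} {L : LF} {X : Bool → LF} (h : MixL t L X) :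
    L.gg = (1 - t) * (X false).gg + t * (X true).gg := by
  simp only [LF.gg, h.a1, h.b0, h.b1]
  ring

theorem MixL.rr {t : ℝ} {L : LF} {X : Bool → LF} (h : MixL t L X) :
    L.rr = (1 - t) * (X false).rr + t * (X true).rr := by
  simp only [LF.rr, h.zp, h.b0, h.b1]
  ring

theorem MixL.ze {t : ℝ} {L : LF} {X : Bool → LF} (h : MixL t L X) :
    L.ze = (1 - t) * (X false).ze + t * (X true).ze := by
  simp only [LF.ze, h.zp, h.b0, h.a1]
  ring

/-- **the mixture** -/
theorem PiC_mix {t r : ℝ} (t0 : 0 ≤ t) (t1 : t ≤ 1) (r0 : 0 ≤ r) (r1 : r ≤ 1) {L K : LF}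
    {X Y : Bool → LF} (hL : MixL t L X) (hK : MixL r K Y) {n p : ℝ} {a D κ : Bool → Bool → ℝ}
    (h : ∀ c d, PiC (X c) (Y d) n p (a c d) (D c d) (κ c d)) :
    PiC L K n p (bil t r a) (bil t r D) (bil t r κ) := by
  constructor
  · intro m hm h1 h2
    have := bil_nonneg t0 t1 r0 r1 (fun c d => (h c d).c1 m hm h1 h2)
    rw [hK.qq, hL.gg]
    simp only [bil] at this ⊢
    linarith
  · intro m hm h1 h2
    have := bil_nonneg t0 t1 r0 r1 (fun c d => (h c d).c2 m hm h1 h2)
    rw [hK.qq, hL.gg, hL.rr]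
    simp only [bil] at this ⊢
    linarith
  · intro m hm h1 h2
    have := bil_nonneg t0 t1 r0 r1 (fun c d => (h c d).c3 m hm h1 h2)
    rw [hK.ze, hL.b1, hL.a1, hL.b0]
    simp only [bil] at this ⊢
    linarith
  · intro m hm h1 h2
    have := bil_nonneg t0 t1 r0 r1 (fun c d => (h c d).c4 m hm h1 h2)
    rw [hK.ze, hL.b1, hL.a1, hL.b0, hL.rr]
    simp only [bil] at this ⊢
    linarith

theorem bil_pos {t r : ℝ} (t0 : 0 ≤ t) (t1 : t ≤ 1) (r0 : 0 ≤ r) (r1 : r ≤ 1)
    {f : Bool → Bool → ℝ} (h : ∀ c d, 0 < f c d) : 0 < bil t r f := by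
  obtain ⟨e, he, h1⟩ : ∃ e > 0, ∀ c d, e ≤ f c d := by
    refine ⟨min (min (f false false) (f false true)) (min (f true false) (f true true)), ?_, ?_⟩
    · exact lt_min (lt_min (h _ _) (h _ _)) (lt_min (h _ _) (h _ _))
    · intro c d
      cases c <;> cases d <;> simp
  have := bil_nonneg t0 t1 r0 r1 (f := fun c d => f c d - e) (fun c d => sub_nonneg.2 (h1 c d))
  simp only [bil] at this ⊢
  linarith

/-- convexity of the reciprocal -/
theorem bil_inv {t r : ℝ} (t0 : 0 ≤ t) (t1 : t ≤ 1) (r0 : 0 ≤ r) (r1 : r ≤ 1)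
    {f : Bool → Bool → ℝ} (h : ∀ c d, 0 < f c d) :
    2 / bil t r f ≤ bil t r (fun c d => 2 / f c d) := by
  have hu := bil_pos t0 t1 r0 r1 h
  obtain ⟨u, hu'⟩ : ∃ u, u = bil t r f := ⟨_, rfl⟩
  rw [← hu'] at hu ⊢
  have key : ∀ c d, 0 ≤ 2 / f c d - (4 / u - 2 * f c d / u ^ 2) := by
    intro c d
    have hf := h c d
    have : 2 / f c d - (4 / u - 2 * f c d / u ^ 2) = 2 * (u - f c d) ^ 2 / (f c d * u ^ 2) := by
      field_simp
      ring
    rw [this]
    positivity
  have h2 := bil_nonneg t0 t1 r0 r1 key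
  have e : bil t r (fun c d => 2 / f c d - (4 / u - 2 * f c d / u ^ 2)) =
      bil t r (fun c d => 2 / f c d) - (4 / u - 2 * bil t r f / u ^ 2) := by
    simp only [bil]
    ring
  rw [e, ← hu'] at h2
  have e2 : 2 * u / u ^ 2 = 2 / u := by
    field_simp
  rw [e2] at h2
  have : 4 / u = 2 / u + 2 / u := by ring
  linarith

/-- nine sums -/
theorem nine {t r : ℝ} (t0 : 0 ≤ t) (t1 : t ≤ 1) (r0 : 0 ≤ r) (r1 : r ≤ 1)
    {T : Bool → Bool → Bool → Bool → ℝ}
    (s00 : 0 ≤ T false false false false)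
    (s01 : 0 ≤ T false false false true + T false true false false)
    (s02 : 0 ≤ T false true false true)
    (s10 : 0 ≤ T false false true false + T true false false false)
    (s11 : 0 ≤ T false false true true + T false true true false + T true false false true +
      T true true false false)
    (s12 : 0 ≤ T false true true true + T true true false true)
    (s20 : 0 ≤ T true false true false)
    (s21 : 0 ≤ T true false true true + T true true true false)
    (s22 : 0 ≤ T true true true true) :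
    0 ≤ bil t r (fun c d => bil t r (fun e f => T c d e f)) := by
  have a := sub_nonneg.2 t1
  have b := sub_nonneg.2 r1
  have e : bil t r (fun c d => bil t r (fun e f => T c d e f)) =
      ((1 - t) ^ 2 * (1 - r) ^ 2) * T false false false false +
      ((1 - t) ^ 2 * ((1 - r) * r)) * (T false false false true + T false true false false) +
      ((1 - t) ^ 2 * r ^ 2) * T false true false true +
      (((1 - t) * t) * (1 - r) ^ 2) * (T false false true false + T true false false false) +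
      (((1 - t) * t) * ((1 - r) * r)) * (T false false true true + T false true true false +
        T true false false true + T true true false false) +
      (((1 - t) * t) * r ^ 2) * (T false true true true + T true true false true) +
      (t ^ 2 * (1 - r) ^ 2) * T true false true false +
      (t ^ 2 * ((1 - r) * r)) * (T true false true true + T true true true false) +
      (t ^ 2 * r ^ 2) * T true true true true := by
    simp only [bil]
    ring
  rw [e]
  have := mul_nonneg a t0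
  have := mul_nonneg b r0
  positivity

end Pool.Agent.RRS
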