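import Pool.Agent.RRS.Slab2
import Pool.Agent.RRS.Funcs

/-!
# Small angles: rational tests

The multipliers of a type are `α = a1 - b0 + w a`, `u = w v`, `η = w h`, `κ = w K`, with
`w = 1 - cos θ` and constants `v, a, h, K` on an interval of the radius.  All conditions are affine in
`w` and in the radius, so that they are tested at the four corners.
-/

set_option autoImplicit false

noncomputable section

namespace Pool.Agent.RRS

open Real

/-- a test for `0 ≤ a X² + b X m + c m²` on `0 ≤ m ≤ X` -/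
def nnq (a b c : ℚ) : Bool :=
  (decide (0 ≤ a) && decide (0 ≤ 2 * a + b) && decide (0 ≤ a + b + c)) ||
    (decide (0 ≤ a) && decide (0 ≤ c) && decide (b * b ≤ 4 * (a * c)))

theorem nnq_sound {a b c : ℚ} (h : nnq a b c = true) {X m : ℝ} (hm : 0 ≤ m) (hX : m ≤ X) :
    0 ≤ (a : ℝ) * X ^ 2 + b * (X * m) + c * m ^ 2 := by
  simp only [nnq, Bool.or_eq_true, Bool.and_eq_true, decide_eq_true_eq] at h
  rcases h with ⟨⟨h1, h2⟩, h3⟩ | ⟨⟨h1, h2⟩, h3⟩
  · have r1 : (0 : ℝ) ≤ a := by exact_mod_cast h1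
    have r2 : (0 : ℝ) ≤ 2 * a + b := by exact_mod_cast h2
    have r3 : (0 : ℝ) ≤ a + b + c := by exact_mod_cast h3
    have e : (a : ℝ) * X ^ 2 + b * (X * m) + c * m ^ 2 =
        a * (X - m) ^ 2 + (2 * a + b) * (m * (X - m)) + (a + b + c) * m ^ 2 := by ring
    rw [e]
    have := mul_nonneg r1 (sq_nonneg (X - m))
    have := mul_nonneg r2 (mul_nonneg hm (sub_nonneg.2 hX))
    have := mul_nonneg r3 (sq_nonneg m)
    linarith
  · have r1 : (0 : ℝ) ≤ a := by exact_mod_cast h1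
    have r2 : (0 : ℝ) ≤ c := by exact_mod_cast h2
    have r3 : (b : ℝ) * b ≤ 4 * (a * c) := by exact_mod_cast h3
    rcases r1.eq_or_lt with h0 | h0
    · have hb : (b : ℝ) = 0 := by
        rw [← h0] at r3
        have : (b : ℝ) * b ≤ 0 := by linarith
        exact mul_self_eq_zero.1 (le_antisymm this (mul_self_nonneg _))
      rw [← h0, hb]
      have := mul_nonneg r2 (sq_nonneg m)
      linarith
    · have h4 : 0 ≤ 4 * (a : ℝ) * (a * X ^ 2 + b * (X * m) + c * m ^ 2) := by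
        have e : 4 * (a : ℝ) * (a * X ^ 2 + b * (X * m) + c * m ^ 2) =
            (2 * a * X + b * m) ^ 2 + (4 * (a * c) - b * b) * m ^ 2 := by ring
        rw [e]
        have := mul_nonneg (sub_nonneg.2 r3) (sq_nonneg m)
        have := sq_nonneg (2 * a * X + b * m)
        linarith
      exact nonneg_of_mul_nonneg_right h4 (by positivity)

/-- a bilinear function which is nonnegative at the corners -/
theorem bilin {g : ℝ → ℝ → ℝ} (hg : ∀ w R, g w R = g 0 0 + (g 1 0 - g 0 0) * w +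
    (g 0 1 - g 0 0) * R + (g 1 1 - g 1 0 - g 0 1 + g 0 0) * (w * R)) {W lo hi w R : ℝ}
    (hW : 0 < W) (hlo : lo < hi) (w0 : 0 ≤ w) (w1 : w ≤ W) (R0 : lo ≤ R) (R1 : R ≤ hi)
    (c1 : 0 ≤ g 0 lo) (c2 : 0 ≤ g 0 hi) (c3 : 0 ≤ g W lo) (c4 : 0 ≤ g W hi) : 0 ≤ g w R := by
  have h : W * (hi - lo) * g w R = (W - w) * (hi - R) * g 0 lo + (W - w) * (R - lo) * g 0 hi +
      w * (hi - R) * g W lo + w * (R - lo) * g W hi := by
    rw [hg w R, hg 0 lo, hg 0 hi, hg W lo, hg W hi]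
    ring
  have e1 := mul_nonneg (mul_nonneg (sub_nonneg.2 w1) (sub_nonneg.2 R1)) c1
  have e2 := mul_nonneg (mul_nonneg (sub_nonneg.2 w1) (sub_nonneg.2 R0)) c2
  have e3 := mul_nonneg (mul_nonneg w0 (sub_nonneg.2 R1)) c3
  have e4 := mul_nonneg (mul_nonneg w0 (sub_nonneg.2 R0)) c4
  have h2 : 0 ≤ W * (hi - lo) * g w R := by
    rw [h]
    linarith
  exact nonneg_of_mul_nonneg_right h2 (mul_pos hW (sub_pos.2 hlo))

/-- an affine function which is nonnegative at the ends -/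
theorem affin {g : ℝ → ℝ} (hg : ∀ R, g R = g 0 + (g 1 - g 0) * R) {lo hi R : ℝ}
    (hlo : lo < hi) (R0 : lo ≤ R) (R1 : R ≤ hi) (c1 : 0 ≤ g lo) (c2 : 0 ≤ g hi) : 0 ≤ g R := by
  have h : (hi - lo) * g R = (hi - R) * g lo + (R - lo) * g hi := by
    rw [hg R, hg lo, hg hi]
    ring
  have e1 := mul_nonneg (sub_nonneg.2 R1) c1
  have e2 := mul_nonneg (sub_nonneg.2 R0) c2
  have h2 : 0 ≤ (hi - lo) * g R := by
    rw [h]
    linarith
  exact nonneg_of_mul_nonneg_right h2 (sub_pos.2 hlo)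

/-- the coefficients of a piece -/
structure Cf where
  c0 : ℚ
  c1 : ℚ
  a0 : ℚ
  a1 : ℚ
  z0 : ℚ
  z1 : ℚ
  k0 : ℚ
  k1 : ℚ
  e0 : ℚ
  e1 : ℚ

/-- five rational values -/
structure Lq where
  c : ℚ
  a : ℚ
  z : ℚ
  k : ℚ
  e : ℚ

def Cf.q (f : Cf) (R : ℚ) : Lq :=
  ⟨f.c0 + f.c1 * R, f.a0 + f.a1 * R, f.z0 + f.z1 * R, f.k0 + f.k1 * R, f.e0 + f.e1 * R⟩

def Cf.L (f : Cf) (R : ℝ) : LF :=
  mkL (f.c0 + f.c1 * R) (f.a0 + f.a1 * R) (f.z0 + f.z1 * R) (f.k0 + f.k1 * R) (f.e0 + f.e1 * R)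

/-- the constants of a version -/
structure Vq where
  v : ℚ
  a : ℚ
  h : ℚ
  K : ℚ
  p : ℚ
  n : ℚ
  N : ℚ
  G : ℚ

/-- the test at a corner -/
def cornerB (L : Lq) (w : ℚ) (V : Vq) : Bool :=
  let be := L.k - w * (L.k - V.v)
  let al := L.a - L.k + w * V.a
  let et := w * V.h
  nnq et (L.k - be) (al + L.e - L.k) && nnq (al + L.z) (L.e - L.z - be) et &&
    nnq et (be - L.c - V.p) (al - (L.a - L.c) + V.p + w * V.K) &&
    nnq (al + L.z) (be + L.a - L.z) et && nnq (al - L.z + 2 * V.N) (be - L.a + L.z) et &&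
    nnq et (be + L.c) (al + L.a - L.c - 2 * V.n)

/-- an interval of the radius -/
structure Iv where
  f : Cf
  lo : ℚ
  hi : ℚ

/-- the bound of `w` -/
def W1 : ℚ := 772 / 10000

/-- the lower bound of the contribution of the type -/
def GB (L : Lq) (R : ℚ) (V : Vq) : Bool :=
  decide (V.G ≤ 14142 / 10000 * R + L.k - L.a - 1 / (2 * V.v) - V.v * (1 + R * R) / 2 - V.a -
    V.h * (R * R))

def signB (L : Lq) : Bool :=
  decide (0 ≤ L.a) && decide (0 ≤ L.k)

/-- the test of a version -/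
def verB (I : Iv) (V : Vq) : Bool :=
  cornerB (I.f.q I.lo) 0 V && cornerB (I.f.q I.hi) 0 V && cornerB (I.f.q I.lo) W1 V &&
    cornerB (I.f.q I.hi) W1 V && signB (I.f.q I.lo) && signB (I.f.q I.hi) &&
    GB (I.f.q I.lo) I.lo V && GB (I.f.q I.hi) I.hi V && decide (0 < V.v) && decide (0 ≤ V.h) &&
    decide (0 ≤ V.K) && decide (0 < V.p) && decide (I.lo < I.hi) && decide (0 ≤ I.lo)

/-- what the test at a corner says -/
structure Corner (L : LF) (w : ℝ) (V : Vq) : Prop where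
  negIn : ∀ X m : ℝ, 0 ≤ m → m ≤ X →
    0 ≤ tv L (L.a1 - L.b0 + w * V.a) (L.b0 - w * (L.b0 - V.v)) (w * V.h) 1 false true X m
  negOut : ∀ X m : ℝ, 0 ≤ X → X ≤ m →
    0 ≤ tv L (L.a1 - L.b0 + w * V.a) (L.b0 - w * (L.b0 - V.v)) (w * V.h) 1 false false X m
  tie : ∀ X m : ℝ, 0 ≤ m → m ≤ X →
    0 ≤ tv L (L.a1 - L.b0 + w * V.a) (L.b0 - w * (L.b0 - V.v)) (w * V.h) (-1) true true X m -
      (V.p * (X * m) - (V.p + w * V.K) * m ^ 2)
  out0 : ∀ X m : ℝ, 0 ≤ X → X ≤ m →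
    0 ≤ tv L (L.a1 - L.b0 + w * V.a) (L.b0 - w * (L.b0 - V.v)) (w * V.h) 1 true false X m
  out1 : ∀ X m : ℝ, 0 ≤ X → X ≤ m →
    0 ≤ tv L (L.a1 - L.b0 + w * V.a) (L.b0 - w * (L.b0 - V.v)) (w * V.h) (-1) true false X m +
      2 * V.N * m ^ 2
  in0 : ∀ X m : ℝ, 0 ≤ m → m ≤ X →
    0 ≤ tv L (L.a1 - L.b0 + w * V.a) (L.b0 - w * (L.b0 - V.v)) (w * V.h) 1 true true X m -
      2 * V.n * m ^ 2

theorem cornerS_sound {L : Lq} {w : ℚ} {V : Vq} (h : cornerB L w V = true) :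
    Corner (mkL L.c L.a L.z L.k L.e) w V := by
  simp only [cornerB, Bool.and_eq_true] at h
  obtain ⟨⟨⟨⟨⟨h1, h2⟩, h3⟩, h4⟩, h5⟩, h6⟩ := h
  constructor
  · intro X m hm hX
    have := nnq_sound h1 hm hX
    push_cast at this
    simp only [tv, mkL, LF.p, LF.q, sg]
    simp only [Bool.false_eq_true, if_false]
    linarith
  · intro X m hX hm
    have := nnq_sound h2 hX hm
    push_cast at this
    simp only [tv, mkL, LF.p, LF.q, sg]
    simp only [Bool.false_eq_true, if_false]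
    linarith
  · intro X m hm hX
    have := nnq_sound h3 hm hX
    push_cast at this
    simp only [tv, mkL, LF.p, LF.q, sg, if_true]
    linarith
  · intro X m hX hm
    have := nnq_sound h4 hX hm
    push_cast at this
    simp only [tv, mkL, LF.p, LF.q, sg, if_true]
    linarith
  · intro X m hX hm
    have := nnq_sound h5 hX hm
    push_cast at this
    simp only [tv, mkL, LF.p, LF.q, sg, if_true]
    linarith
  · intro X m hm hX
    have := nnq_sound h6 hm hX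
    push_cast at this
    simp only [tv, mkL, LF.p, LF.q, sg, if_true]
    linarith

theorem Cf.L_q (f : Cf) (R : ℚ) :
    f.L R = mkL (f.q R).c (f.q R).a (f.q R).z (f.q R).k (f.q R).e := by
  unfold Cf.L Cf.q
  push_cast
  rfl

/-- the four corners imply everything between -/
theorem Corner.between {f : Cf} {V : Vq} {W lo hi w R : ℝ} (hW : 0 < W) (hlo : lo < hi)
    (w0 : 0 ≤ w) (w1 : w ≤ W) (R0 : lo ≤ R) (R1 : R ≤ hi) (c1 : Corner (f.L lo) 0 V)
    (c2 : Corner (f.L hi) 0 V) (c3 : Corner (f.L lo) W V) (c4 : Corner (f.L hi) W V) :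
    Corner (f.L R) w V := by
  constructor
  · intro X m hm hX
    refine bilin (g := fun w R => tv (f.L R) ((f.L R).a1 - (f.L R).b0 + w * V.a)
      ((f.L R).b0 - w * ((f.L R).b0 - V.v)) (w * V.h) 1 false true X m) ?_ hW hlo w0 w1 R0 R1
      (c1.negIn X m hm hX) (c2.negIn X m hm hX) (c3.negIn X m hm hX) (c4.negIn X m hm hX)
    intro w R
    simp only [tv, Cf.L, mkL, LF.p, LF.q]
    ring
  · intro X m hm hX
    refine bilin (g := fun w R => tv (f.L R) ((f.L R).a1 - (f.L R).b0 + w * V.a)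
      ((f.L R).b0 - w * ((f.L R).b0 - V.v)) (w * V.h) 1 false false X m) ?_ hW hlo w0 w1 R0 R1
      (c1.negOut X m hm hX) (c2.negOut X m hm hX) (c3.negOut X m hm hX) (c4.negOut X m hm hX)
    intro w R
    simp only [tv, Cf.L, mkL, LF.p, LF.q]
    ring
  · intro X m hm hX
    refine bilin (g := fun w R => tv (f.L R) ((f.L R).a1 - (f.L R).b0 + w * V.a)
      ((f.L R).b0 - w * ((f.L R).b0 - V.v)) (w * V.h) (-1) true true X m -
      (V.p * (X * m) - (V.p + w * V.K) * m ^ 2)) ?_ hW hlo w0 w1 R0 R1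
      (c1.tie X m hm hX) (c2.tie X m hm hX) (c3.tie X m hm hX) (c4.tie X m hm hX)
    intro w R
    simp only [tv, Cf.L, mkL, LF.p, LF.q]
    ring
  · intro X m hm hX
    refine bilin (g := fun w R => tv (f.L R) ((f.L R).a1 - (f.L R).b0 + w * V.a)
      ((f.L R).b0 - w * ((f.L R).b0 - V.v)) (w * V.h) 1 true false X m) ?_ hW hlo w0 w1 R0 R1
      (c1.out0 X m hm hX) (c2.out0 X m hm hX) (c3.out0 X m hm hX) (c4.out0 X m hm hX)
    intro w R
    simp only [tv, Cf.L, mkL, LF.p, LF.q]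
    ring
  · intro X m hm hX
    refine bilin (g := fun w R => tv (f.L R) ((f.L R).a1 - (f.L R).b0 + w * V.a)
      ((f.L R).b0 - w * ((f.L R).b0 - V.v)) (w * V.h) (-1) true false X m +
      2 * V.N * m ^ 2) ?_ hW hlo w0 w1 R0 R1
      (c1.out1 X m hm hX) (c2.out1 X m hm hX) (c3.out1 X m hm hX) (c4.out1 X m hm hX)
    intro w R
    simp only [tv, Cf.L, mkL, LF.p, LF.q]
    ring
  · intro X m hm hX
    refine bilin (g := fun w R => tv (f.L R) ((f.L R).a1 - (f.L R).b0 + w * V.a)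
      ((f.L R).b0 - w * ((f.L R).b0 - V.v)) (w * V.h) 1 true true X m -
      2 * V.n * m ^ 2) ?_ hW hlo w0 w1 R0 R1
      (c1.in0 X m hm hX) (c2.in0 X m hm hX) (c3.in0 X m hm hX) (c4.in0 X m hm hX)
    intro w R
    simp only [tv, Cf.L, mkL, LF.p, LF.q]
    ring

/-- the data of a type from the test -/
structure TypeOK (L : LF) (R w : ℝ) (V : Vq) : Prop where
  dt : DT2 L (L.a1 - L.b0 + w * V.a) (L.b0 - w * (L.b0 - V.v)) (w * V.h) (w * V.K) V.p V.n V.N
  v : (0 : ℝ) < V.v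
  K : (0 : ℝ) ≤ V.K
  p : (0 : ℝ) < V.p
  G : (V.G : ℝ) ≤ √2 * R + L.b0 - L.a1 - 1 / (2 * V.v) - V.v * (1 + R ^ 2) / 2 - V.a - V.h * R ^ 2

theorem sqrt_two_ge : (14142 / 10000 : ℝ) ≤ √2 := by
  apply Real.le_sqrt_of_sq_le
  norm_num

theorem ver_sound {I : Iv} {V : Vq} (h : verB I V = true) {w R : ℝ} (w0 : 0 ≤ w)
    (w1 : w ≤ (W1 : ℝ)) (R0 : (I.lo : ℝ) ≤ R) (R1 : R ≤ (I.hi : ℝ)) :
    TypeOK (I.f.L R) R w V := by
  simp only [verB, Bool.and_eq_true, decide_eq_true_eq] at h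
  obtain ⟨⟨⟨⟨⟨⟨⟨⟨⟨⟨⟨⟨⟨h1, h2⟩, h3⟩, h4⟩, s1⟩, s2⟩, g1⟩, g2⟩, hv⟩, hh⟩, hK⟩, hp⟩, hlo⟩, hl0⟩ := h
  have rlo : (I.lo : ℝ) < I.hi := by exact_mod_cast hlo
  have rl0 : (0 : ℝ) ≤ I.lo := by exact_mod_cast hl0
  have rW : (0 : ℝ) < (W1 : ℝ) := by
    unfold W1
    norm_num
  have rv : (0 : ℝ) < V.v := by exact_mod_cast hv
  have rh : (0 : ℝ) ≤ V.h := by exact_mod_cast hh
  have rK : (0 : ℝ) ≤ V.K := by exact_mod_cast hK
  have rp : (0 : ℝ) < V.p := by exact_mod_cast hp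
  have k1 : Corner (I.f.L I.lo) 0 V := by
    have := cornerS_sound h1
    rw [Cf.L_q]
    simpa using this
  have k2 : Corner (I.f.L I.hi) 0 V := by
    have := cornerS_sound h2
    rw [Cf.L_q]
    simpa using this
  have k3 : Corner (I.f.L I.lo) W1 V := by
    have := cornerS_sound h3
    rw [Cf.L_q]
    exact this
  have k4 : Corner (I.f.L I.hi) W1 V := by
    have := cornerS_sound h4
    rw [Cf.L_q]
    exact this
  have k := Corner.between rW rlo w0 w1 R0 R1 k1 k2 k3 k4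
  simp only [signB, Bool.and_eq_true, decide_eq_true_eq, Cf.q] at s1 s2
  obtain ⟨s11, s12⟩ := s1
  obtain ⟨s21, s22⟩ := s2
  have a1 : 0 ≤ (I.f.L R).a1 := by
    refine affin (g := fun R => (I.f.L R).a1) (fun R => ?_) rlo R0 R1 ?_ ?_
    · simp only [Cf.L, mkL]
      ring
    · simp only [Cf.L, mkL]
      exact_mod_cast s11
    · simp only [Cf.L, mkL]
      exact_mod_cast s21
  have b0 : 0 ≤ (I.f.L R).b0 := by
    refine affin (g := fun R => (I.f.L R).b0) (fun R => ?_) rlo R0 R1 ?_ ?_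
    · simp only [Cf.L, mkL]
      ring
    · simp only [Cf.L, mkL]
      exact_mod_cast s12
    · simp only [Cf.L, mkL]
      exact_mod_cast s22
  refine ⟨⟨a1, b0, k.negIn, k.negOut, ?_, k.out0, ?_, ?_⟩, rv, rK, rp, ?_⟩
  · intro X m hm hX
    have := k.tie X m hm hX
    linarith
  · intro X m hX hm
    have := k.out1 X m hX hm
    linarith
  · intro X m hm hX
    have := k.in0 X m hm hX
    linarith
  · -- the lower bound of the concave function
    have q1 : (V.G : ℝ) ≤ 14142 / 10000 * I.lo + (I.f.k0 + I.f.k1 * I.lo) -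
        (I.f.a0 + I.f.a1 * I.lo) - 1 / (2 * V.v) - V.v * (1 + I.lo * I.lo) / 2 - V.a -
          V.h * (I.lo * I.lo) := by
      simp only [GB, decide_eq_true_eq, Cf.q] at g1
      have := (Rat.cast_le (K := ℝ)).2 g1
      push_cast at this
      linarith
    have q2 : (V.G : ℝ) ≤ 14142 / 10000 * I.hi + (I.f.k0 + I.f.k1 * I.hi) -
        (I.f.a0 + I.f.a1 * I.hi) - 1 / (2 * V.v) - V.v * (1 + I.hi * I.hi) / 2 - V.a -
          V.h * (I.hi * I.hi) := by
      simp only [GB, decide_eq_true_eq, Cf.q] at g2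
      have := (Rat.cast_le (K := ℝ)).2 g2
      push_cast at this
      linarith
    have hR0 : 0 ≤ R := rl0.trans R0
    have hs : 14142 / 10000 * R ≤ √2 * R := mul_le_mul_of_nonneg_right sqrt_two_ge hR0
    have q3 : (V.G : ℝ) ≤ 14142 / 10000 * R + (I.f.k0 + I.f.k1 * R) -
        (I.f.a0 + I.f.a1 * R) - 1 / (2 * V.v) - V.v * (1 + R * R) / 2 - V.a -
          V.h * (R * R) := by
      -- subtract the square
      obtain ⟨B, hB⟩ : ∃ B : ℝ, B = V.v / 2 + V.h := ⟨_, rfl⟩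
      have hB0 : 0 ≤ B := by
        rw [hB]
        positivity
      have hsq : R * R ≤ (I.lo + I.hi) * R - I.lo * I.hi := by
        nlinarith [mul_nonneg (sub_nonneg.2 R0) (sub_nonneg.2 R1)]
      have key : 0 ≤ 14142 / 10000 * R + (I.f.k0 + I.f.k1 * R) -
          (I.f.a0 + I.f.a1 * R) - 1 / (2 * V.v) - V.v / 2 - V.a -
            B * ((I.lo + I.hi) * R - I.lo * I.hi) - V.G := by
        refine affin (g := fun R => 14142 / 10000 * R + (I.f.k0 + I.f.k1 * R) -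
          (I.f.a0 + I.f.a1 * R) - 1 / (2 * V.v) - V.v / 2 - V.a -
            B * ((I.lo + I.hi) * R - I.lo * I.hi) - V.G) (fun R => by ring) rlo R0 R1 ?_ ?_
        · have : B * ((I.lo + I.hi) * I.lo - I.lo * I.hi) = (V.v / 2 + V.h) * (I.lo * I.lo) := by
            rw [hB]
            ring
          linarith
        · have : B * ((I.lo + I.hi) * I.hi - I.lo * I.hi) = (V.v / 2 + V.h) * (I.hi * I.hi) := by
            rw [hB]
            ring
          linarith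
      have hm := mul_le_mul_of_nonneg_left hsq hB0
      have : B * (R * R) = V.v * (R * R) / 2 + V.h * (R * R) := by
        rw [hB]
        ring
      linarith
    simp only [Cf.L, mkL]
    have e1 : R ^ 2 = R * R := sq R
    rw [e1]
    linarith

end Pool.Agent.RRS
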