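import Pool.Agent.RRS.PiRc1
import Pool.Agent.RRS.SlabZ

/-!
# Opposite points: the test of a rectangle

Radii in units of `1/64`, the values of the types in units of `1/64000`, the multipliers in units of
`1/1000` and the errors in units of `1/16000`.
-/

set_option autoImplicit false

noncomputable section

namespace Pool.Agent.RRS

open Real

/-! ### quadratic functions -/

/-- a test for `0 ≤ A + B m + C m²` on `x ≤ m ≤ y` -/
def quB (A B C x y : ℤ) : Bool :=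
  decide (y < x) ||
    (decide (0 ≤ A + B * x + C * (x * x)) && decide (0 ≤ A + B * y + C * (y * y)) &&
      decide (0 ≤ 2 * A + B * (x + y) + 2 * (C * (x * y)))) ||
    (decide (0 ≤ A) && decide (0 ≤ C) && decide (B * B ≤ 4 * (A * C)))

/-- a test for `0 ≤ A + B m + C m²` on `x ≤ m` -/
def quI (A B C x : ℤ) : Bool :=
  (decide (0 ≤ A + B * x + C * (x * x)) && decide (0 ≤ B + 2 * (C * x)) && decide (0 ≤ C)) ||
    (decide (0 ≤ A) && decide (0 ≤ C) && decide (B * B ≤ 4 * (A * C)))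

theorem disc_nonneg {A B C m : ℝ} (hA : 0 ≤ A) (hC : 0 ≤ C) (h : B * B ≤ 4 * (A * C)) :
    0 ≤ A + B * m + C * m ^ 2 := by
  rcases hC.eq_or_lt with h0 | h0
  · have hb : B = 0 := by
      rw [← h0] at h
      have : B * B ≤ 0 := by linarith
      exact mul_self_eq_zero.1 (le_antisymm this (mul_self_nonneg _))
    rw [← h0, hb]
    linarith
  · have h4 : 0 ≤ 4 * C * (A + B * m + C * m ^ 2) := by
      have e : 4 * C * (A + B * m + C * m ^ 2) = (2 * C * m + B) ^ 2 + (4 * (A * C) - B * B) := by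
        ring
      rw [e]
      have := sq_nonneg (2 * C * m + B)
      linarith
    exact nonneg_of_mul_nonneg_right h4 (by positivity)

theorem quB_sound {A B C x y : ℤ} (h : quB A B C x y = true) {m : ℝ} (hx : (x : ℝ) ≤ m)
    (hy : m ≤ (y : ℝ)) : 0 ≤ (A : ℝ) + B * m + C * m ^ 2 := by
  simp only [quB, Bool.or_eq_true, Bool.and_eq_true, decide_eq_true_eq] at h
  rcases h with (h | ⟨⟨h1, h2⟩, h3⟩) | ⟨⟨h1, h2⟩, h3⟩
  · have : (y : ℝ) < x := by exact_mod_cast h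
    linarith
  · have r1 : (0 : ℝ) ≤ A + B * x + C * (x * x) := by exact_mod_cast h1
    have r2 : (0 : ℝ) ≤ A + B * y + C * (y * y) := by exact_mod_cast h2
    have r3 : (0 : ℝ) ≤ 2 * A + B * (x + y) + 2 * (C * (x * y)) := by exact_mod_cast h3
    rcases (hx.trans hy).eq_or_lt with e | e
    · have : m = x := le_antisymm (hy.trans e.symm.le) hx
      rw [this]
      linarith
    · have key : ((y : ℝ) - x) ^ 2 * (A + B * m + C * m ^ 2) =
          (A + B * x + C * (x * x)) * (y - m) ^ 2 + (A + B * y + C * (y * y)) * (m - x) ^ 2 +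
          (2 * A + B * (x + y) + 2 * (C * (x * y))) * ((m - x) * (y - m)) := by ring
      have k1 := mul_nonneg r1 (sq_nonneg ((y : ℝ) - m))
      have k2 := mul_nonneg r2 (sq_nonneg (m - (x : ℝ)))
      have k3 := mul_nonneg r3 (mul_nonneg (sub_nonneg.2 hx) (sub_nonneg.2 hy))
      have h4 : 0 ≤ ((y : ℝ) - x) ^ 2 * (A + B * m + C * m ^ 2) := by
        rw [key]
        linarith
      exact nonneg_of_mul_nonneg_right h4 (pow_pos (sub_pos.2 e) 2)
  · exact disc_nonneg (by exact_mod_cast h1) (by exact_mod_cast h2) (by exact_mod_cast h3)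

theorem quI_sound {A B C x : ℤ} (h : quI A B C x = true) {m : ℝ} (hx : (x : ℝ) ≤ m) :
    0 ≤ (A : ℝ) + B * m + C * m ^ 2 := by
  simp only [quI, Bool.or_eq_true, Bool.and_eq_true, decide_eq_true_eq] at h
  rcases h with ⟨⟨h1, h2⟩, h3⟩ | ⟨⟨h1, h2⟩, h3⟩
  · have r1 : (0 : ℝ) ≤ A + B * x + C * (x * x) := by exact_mod_cast h1
    have r2 : (0 : ℝ) ≤ B + 2 * (C * x) := by exact_mod_cast h2
    have r3 : (0 : ℝ) ≤ C := by exact_mod_cast h3
    have k1 := mul_nonneg r2 (sub_nonneg.2 hx)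
    have k2 := mul_nonneg r3 (sq_nonneg (m - (x : ℝ)))
    linarith
  · exact disc_nonneg (by exact_mod_cast h1) (by exact_mod_cast h2) (by exact_mod_cast h3)

/-! ### the test of an orientation -/

/-- five integers, in units of `1/64000` -/
structure Z5 where
  c : ℤ
  a : ℤ
  z : ℤ
  k : ℤ
  e : ℤ

def Z5.R (L : Z5) : LF :=
  mkL ((L.c : ℝ) / 64000) ((L.a : ℝ) / 64000) ((L.z : ℝ) / 64000) ((L.k : ℝ) / 64000)
    ((L.e : ℝ) / 64000)

/-- the test of a vertex; `a, u, v` in units of `1/64000` -/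
def rcVB (L K : Z5) (n p a u v k n0 n1 : ℤ) : Bool :=
  quB (16384 * k) (v * p - u * n - (K.k - K.c) * p) (K.k - K.c - a - (L.a + L.e - 2 * L.k)) 0
      (min n p) &&
    quB (16384 * k) (v * p - u * n - (K.k - K.c) * p + max (L.z + L.k - L.e) 0 * n)
      (K.k - K.c - a - (L.a + L.e - 2 * L.k) - max (L.z + L.k - L.e) 0) n p &&
    quB (16384 * k) (v * p - u * n + 2 * L.k * n - (K.z + K.k - K.a) * p)
      (L.e - L.a + (K.z + K.k - K.a) - a) p n1 &&
    quI (16384 * k)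
      (v * p - u * n + 2 * L.k * n - (K.z + K.k - K.a) * p - (L.z + L.k - L.e) * n)
      (L.e - L.a + (K.z + K.k - K.a) + (L.z + L.k - L.e) - a) (max n0 p)

theorem rcVB_sound {L K : Z5} {n p a u v k n0 n1 : ℤ} (h : rcVB L K n p a u v k n0 n1 = true) :
    RcV L.R K.R ((max (L.z + L.k - L.e) 0 : ℤ) / 64000) ((n : ℝ) / 64) ((p : ℝ) / 64) ((a : ℝ) / 64000) ((u : ℝ) / 64000)
      ((v : ℝ) / 64000) ((k : ℝ) / 16000) ((n0 : ℝ) / 64) ((n1 : ℝ) / 64) := by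
  simp only [rcVB, Bool.and_eq_true] at h
  obtain ⟨⟨⟨h1, h2⟩, h3⟩, h4⟩ := h
  constructor
  · intro m hm a1 a2
    have := quB_sound h1 (m := 64 * m) (by push_cast; linarith)
      (by rw [Int.cast_min]; exact le_min (by linarith) (by linarith))
    push_cast at this
    simp only [Z5.R, mkL, LF.qq, LF.gg]
    linarith
  · intro m a1 a2
    have := quB_sound h2 (m := 64 * m) (by linarith) (by linarith)
    push_cast at this
    push_cast
    simp only [Z5.R, mkL, LF.qq, LF.gg]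
    linarith
  · intro m a1 a2
    have := quB_sound h3 (m := 64 * m) (by linarith) (by linarith)
    push_cast at this
    simp only [Z5.R, mkL, LF.ze]
    linarith
  · intro m a1 a2
    have := quI_sound h4 (m := 64 * m)
      (by rw [Int.cast_max]; exact max_le (by linarith) (by linarith))
    push_cast at this
    simp only [Z5.R, mkL, LF.ze, LF.rr]
    linarith

/-- the test of a diagonal -/
def rcDB (L : Z5) (n p0 p1 a u v k0 k1 : ℤ) : Bool :=
  quB (16384 * (p1 * k0 - p0 * k1)) (16384 * (k1 - k0) - (p1 - p0) * (u * n))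
      ((p1 - p0) * (v - a - (L.a + L.e - 2 * L.k))) p0 (min n p1) &&
    quB (16384 * (p1 * k0 - p0 * k1))
      (16384 * (k1 - k0) - (p1 - p0) * (u * n) + (p1 - p0) * (max (L.z + L.k - L.e) 0 * n))
      ((p1 - p0) * (v - a - (L.a + L.e - 2 * L.k)) - (p1 - p0) * max (L.z + L.k - L.e) 0)
      (max n p0) p1

theorem rcDB_sound {L : Z5} {n p0 p1 a u v k0 k1 : ℤ} (h : rcDB L n p0 p1 a u v k0 k1 = true)
    (hp : p0 < p1) {α β : ℝ} (e0 : α + β * ((p0 : ℝ) / 64) = (k0 : ℝ) / 16000)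
    (e1 : α + β * ((p1 : ℝ) / 64) = (k1 : ℝ) / 16000) :
    RcD L.R ((max (L.z + L.k - L.e) 0 : ℤ) / 64000) ((n : ℝ) / 64) ((p0 : ℝ) / 64) ((p1 : ℝ) / 64) ((a : ℝ) / 64000) ((u : ℝ) / 64000)
      ((v : ℝ) / 64000) α β := by
  have rp : (0 : ℝ) < (p1 : ℝ) - p0 := sub_pos.2 (by exact_mod_cast hp)
  simp only [rcDB, Bool.and_eq_true] at h
  obtain ⟨h1, h2⟩ := h
  have key : ∀ m : ℝ, ((p1 : ℝ) - p0) * (α + β * m) =
      ((p1 - 64 * m) * (k0 / 16000) + (64 * m - p0) * (k1 / 16000)) := by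
    intro m
    rw [← e0, ← e1]
    ring
  constructor
  · intro m a0 a1 a2
    have := quB_sound h1 (m := 64 * m) (by linarith)
      (by rw [Int.cast_min]; exact le_min (by linarith) (by linarith))
    push_cast at this
    refine nonneg_of_mul_nonneg_right (a := (p1 : ℝ) - p0) ?_ rp
    have k := key m
    simp only [Z5.R, mkL, LF.gg]
    linarith
  · intro m a0 a1 a2
    have := quB_sound h2 (m := 64 * m)
      (by rw [Int.cast_max]; exact max_le (by linarith) (by linarith)) (by linarith)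
    push_cast at this
    refine nonneg_of_mul_nonneg_right (a := (p1 : ℝ) - p0) ?_ rp
    have k := key m
    push_cast
    simp only [Z5.R, mkL, LF.gg]
    linarith

/-- the test of the types -/
def rcSB (L : Z5) : Bool :=
  decide (0 ≤ L.k) && decide (0 ≤ L.e) && decide (0 ≤ L.z)

/-- the test of an orientation -/
def rcOB (L K : Z5) (a u v n0 n1 p0 p1 k00 k01 k10 k11 : ℤ) : Bool :=
  rcVB L K n0 p0 a u v k00 n0 n1 && rcVB L K n0 p1 a u v k01 n0 n1 &&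
    rcVB L K n1 p0 a u v k10 n0 n1 && rcVB L K n1 p1 a u v k11 n0 n1 &&
    rcDB L n0 p0 p1 a u v k00 k01 && rcDB L n1 p0 p1 a u v k10 k11

theorem rcOB_sound {L K : Z5} {a u v n0 n1 p0 p1 k00 k01 k10 k11 : ℤ}
    (h : rcOB L K a u v n0 n1 p0 p1 k00 k01 k10 k11 = true) (hS : rcSB L = true)
    (hn0 : 0 ≤ n0) (hn : n0 < n1) (hp : p0 < p1) {t r n p : ℝ} (t0 : 0 ≤ t) (t1 : t ≤ 1)
    (r0 : 0 ≤ r) (r1 : r ≤ 1) (en : n = (1 - t) * (n0 / 64) + t * (n1 / 64))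
    (ep : p = (1 - r) * (p0 / 64) + r * (p1 / 64)) :
    PiC L.R K.R n p ((a : ℝ) / 64000) ((v : ℝ) / 64000 * p - (u : ℝ) / 64000 * n)
      ((1 - t) * (1 - r) * (k00 / 16000) + (1 - t) * r * (k01 / 16000) +
        t * (1 - r) * (k10 / 16000) + t * r * (k11 / 16000)) := by
  simp only [rcOB, Bool.and_eq_true] at h
  obtain ⟨⟨⟨⟨⟨h1, h2⟩, h3⟩, h4⟩, h5⟩, h6⟩ := h
  simp only [rcSB, Bool.and_eq_true, decide_eq_true_eq] at hS
  obtain ⟨⟨s2, s3⟩, s4⟩ := hS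
  have rp : (0 : ℝ) < (p1 : ℝ) - p0 := sub_pos.2 (by exact_mod_cast hp)
  have rn : (n0 : ℝ) < n1 := by exact_mod_cast hn
  have rn0 : (0 : ℝ) ≤ n0 := by exact_mod_cast hn0
  have ex : ∀ k0 k1 : ℤ, ∃ α β : ℝ, α + β * ((p0 : ℝ) / 64) = (k0 : ℝ) / 16000 ∧
      α + β * ((p1 : ℝ) / 64) = (k1 : ℝ) / 16000 := by
    intro k0 k1
    refine ⟨(k0 : ℝ) / 16000 - ((k1 - k0) / 16000 / ((p1 - p0) / 64)) * (p0 / 64),
      (k1 - k0) / 16000 / ((p1 - p0) / 64), by ring, ?_⟩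
    have := rp.ne'
    field_simp
    ring
  obtain ⟨α0, β0, e00, e01⟩ := ex k00 k01
  obtain ⟨α1, β1, e10, e11⟩ := ex k10 k11
  have v1 := rcVB_sound h1
  have v2 := rcVB_sound h2
  have v3 := rcVB_sound h3
  have v4 := rcVB_sound h4
  rw [← e00] at v1
  rw [← e01] at v2
  rw [← e10] at v3
  rw [← e11] at v4
  have d1 := rcDB_sound h5 hp e00 e01
  have d2 := rcDB_sound h6 hp e10 e11
  have q1 : (0 : ℝ) ≤ ((max (L.z + L.k - L.e) 0 : ℤ) : ℝ) := by
    exact_mod_cast le_max_right (L.z + L.k - L.e) 0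
  have q5 : (L.z : ℝ) + L.k - L.e ≤ ((max (L.z + L.k - L.e) 0 : ℤ) : ℝ) := by
    exact_mod_cast le_max_left (L.z + L.k - L.e) 0
  have q2 : (0 : ℝ) ≤ (L.k : ℝ) := by exact_mod_cast s2
  have q3 : (0 : ℝ) ≤ (L.e : ℝ) := by exact_mod_cast s3
  have q4 : (0 : ℝ) ≤ (L.z : ℝ) := by exact_mod_cast s4
  have := rc_rect (n := n) (p := p) (t := t) v1 v2 v3 v4 d1 d2
    (by linarith) (by simp only [Z5.R, mkL, LF.rr]; linarith)
    (by simp only [Z5.R, mkL]; positivity)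
    (by simp only [Z5.R, mkL]; positivity) (by simp only [Z5.R, mkL]; positivity)
    (by linarith) (by positivity) t0 t1 en
    (by rw [ep]; have := mul_nonneg r0 rp.le; linarith)
    (by rw [ep]; have := mul_nonneg (sub_nonneg.2 r1) rp.le; linarith)
  have ek : (1 - t) * (1 - r) * (k00 / 16000) + (1 - t) * r * (k01 / 16000) +
      t * (1 - r) * (k10 / 16000) + t * r * ((k11 : ℝ) / 16000) =
      (1 - t) * (α0 + β0 * p) + t * (α1 + β1 * p) := by
    rw [← e00, ← e01, ← e10, ← e11, ep]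
    ring
  rw [ek]
  exact this

/-! ### the pieces of the table -/

/-- the coefficients of a piece: `c = c0 + c1 N` for the radius `N / 64` -/
structure Pc where
  c0 : ℤ
  c1 : ℤ
  a0 : ℤ
  a1 : ℤ
  z0 : ℤ
  z1 : ℤ
  k0 : ℤ
  k1 : ℤ
  e0 : ℤ
  e1 : ℤ

def Pc.at (f : Pc) (N : ℤ) : Z5 :=
  ⟨f.c0 + f.c1 * N, f.a0 + f.a1 * N, f.z0 + f.z1 * N, f.k0 + f.k1 * N, f.e0 + f.e1 * N⟩

def Pc.L (f : Pc) (s : ℝ) : LF :=
  mkL ((f.c0 + f.c1 * (64 * s)) / 64000) ((f.a0 + f.a1 * (64 * s)) / 64000)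
    ((f.z0 + f.z1 * (64 * s)) / 64000) ((f.k0 + f.k1 * (64 * s)) / 64000)
    ((f.e0 + f.e1 * (64 * s)) / 64000)

def Pc1 : Pc := ⟨0, -500, 65920, 10, 65920, -660, 131840, -650, 197760, -1310⟩
def Pc2 : Pc := ⟨-32000, 0, 66560 - 400 * 64, 400, 23680 - 60 * 64, 60, 90240 + 750 * 64, -750,
  113920 + 1900 * 64, -1900⟩
def Pc3 : Pc := ⟨-32000 - 40 * 96, 40, 79360 + 410 * 96, -410, 25600 - 200 * 96, 200,
  66240 + 1110 * 96, -1110, 53120 + 600 * 96, -600⟩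
def Pc4 : Pc := ⟨-30720 - 350 * 128, 350, 66240 - 25 * 128, 25, 32000 + 170 * 128, -170,
  30720 + 10 * 128, -10, 33920 - 330 * 128, 330⟩

theorem Lz_Pc1 {s : ℝ} (h : s ≤ 1) : Lz s = Pc1.L s := by
  rw [Lz_one h]
  simp only [Lp1, Pc.L, Pc1, mkL, LF.mk.injEq]
  push_cast
  refine ⟨?_, ?_, ?_, ?_, ?_, ?_⟩ <;> ring

theorem Lz_Pc2 {s : ℝ} (h0 : 1 ≤ s) (h : s ≤ 3 / 2) : Lz s = Pc2.L s := by
  rw [Lz_two h0 h]
  simp only [Lp2, Pc.L, Pc2, mkL, LF.mk.injEq]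
  push_cast
  refine ⟨?_, ?_, ?_, ?_, ?_, ?_⟩ <;> ring

theorem Lz_Pc3 {s : ℝ} (h0 : 3 / 2 ≤ s) (h : s ≤ 2) : Lz s = Pc3.L s := by
  rw [Lz_three h0 h]
  simp only [Lp3, Pc.L, Pc3, mkL, LF.mk.injEq]
  push_cast
  refine ⟨?_, ?_, ?_, ?_, ?_, ?_⟩ <;> ring

theorem Lz_Pc4 {s : ℝ} (h0 : 2 ≤ s) (h : s < 3) : Lz s = Pc4.L s := by
  rw [Lz_four h0 h]
  simp only [Lp4, Pc.L, Pc4, mkL, LF.mk.injEq]
  push_cast
  refine ⟨?_, ?_, ?_, ?_, ?_, ?_⟩ <;> ring

theorem Pc.mix (f : Pc) {s t : ℝ} {s0 s1 : ℤ} (h : s = (1 - t) * (s0 / 64) + t * (s1 / 64)) :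
    MixL t (f.L s) (fun c => (f.at (bif c then s1 else s0)).R) := by
  constructor <;> simp only [Pc.L, Z5.R, Pc.at, mkL, cond_true, cond_false, h] <;> push_cast <;>
    ring

/-! ### the test of a rectangle -/

/-- the data of a corner: the multipliers in units of `1/1000`, the errors in units of `1/16000` -/
structure Cd where
  a : ℤ
  u : ℤ
  v : ℤ
  k00 : ℤ
  k01 : ℤ
  k10 : ℤ
  k11 : ℤ

/-- the test of a corner -/
def cdB (L K : Z5) (s0 s1 l0 l1 : ℤ) (D : Cd) : Bool :=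
  rcSB L && rcSB K && decide (0 < D.u) && decide (0 < D.v) &&
    decide (64 * D.a < (L.z + L.k - L.a) + (K.z + K.k - K.a)) &&
    rcOB L K (64 * D.a) (64 * D.u) (64 * D.v) s0 s1 l0 l1 D.k00 D.k01 D.k10 D.k11 &&
    rcOB K L (64 * D.a) (64 * D.v) (64 * D.u) l0 l1 s0 s1 D.k00 D.k10 D.k01 D.k11

/-- the values in units of `1/1024000000` -/
def Cd.T (D : Cd) (S L e f k : ℤ) : ℤ :=
  45254400 * (S + L) + 1024000 * D.a - 1024 * (2000000000 / D.u + 2000000000 / D.v + 2) -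
    512000 * (D.u + D.v) - 64000 * k - 125 * (D.u * (e * e)) - 125 * (D.v * (f * f))

/-- the data of a rectangle -/
structure Rc where
  d00 : Cd
  d01 : Cd
  d10 : Cd
  d11 : Cd

/-- the nine sums -/
def nineB (s0 s1 l0 l1 : ℤ) (R : Rc) : Bool :=
  decide (0 ≤ R.d00.T s0 l0 s0 l0 R.d00.k00) &&
    decide (0 ≤ R.d00.T s0 l0 s0 l1 R.d00.k01 + R.d01.T s0 l1 s0 l0 R.d01.k00) &&
    decide (0 ≤ R.d01.T s0 l1 s0 l1 R.d01.k01) &&
    decide (0 ≤ R.d00.T s0 l0 s1 l0 R.d00.k10 + R.d10.T s1 l0 s0 l0 R.d10.k00) &&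
    decide (0 ≤ R.d00.T s0 l0 s1 l1 R.d00.k11 + R.d01.T s0 l1 s1 l0 R.d01.k10 +
      R.d10.T s1 l0 s0 l1 R.d10.k01 + R.d11.T s1 l1 s0 l0 R.d11.k00) &&
    decide (0 ≤ R.d01.T s0 l1 s1 l1 R.d01.k11 + R.d11.T s1 l1 s0 l1 R.d11.k01) &&
    decide (0 ≤ R.d10.T s1 l0 s1 l0 R.d10.k10) &&
    decide (0 ≤ R.d10.T s1 l0 s1 l1 R.d10.k11 + R.d11.T s1 l1 s1 l0 R.d11.k10) &&
    decide (0 ≤ R.d11.T s1 l1 s1 l1 R.d11.k11)

/-- the test of a rectangle -/
def rcB (f g : Pc) (s0 s1 l0 l1 : ℤ) (R : Rc) : Bool :=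
  decide (0 ≤ s0) && decide (s0 < s1) && decide (0 ≤ l0) && decide (l0 < l1) &&
    nineB s0 s1 l0 l1 R &&
    cdB (f.at s0) (g.at l0) s0 s1 l0 l1 R.d00 && cdB (f.at s0) (g.at l1) s0 s1 l0 l1 R.d01 &&
    cdB (f.at s1) (g.at l0) s0 s1 l0 l1 R.d10 && cdB (f.at s1) (g.at l1) s0 s1 l0 l1 R.d11

/-- the corner, by the two bits -/
def Rc.D (R : Rc) (c d : Bool) : Cd :=
  bif c then (bif d then R.d11 else R.d10) else (bif d then R.d01 else R.d00)

def Cd.kk (D : Cd) (e f : Bool) : ℤ :=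
  bif e then (bif f then D.k11 else D.k10) else (bif f then D.k01 else D.k00)

/-- what the test of a corner says -/
structure CdOK (L K : LF) (n p : ℝ) (t r : ℝ) (D : Cd) : Prop where
  u : (0 : ℝ) < D.u
  v : (0 : ℝ) < D.v
  ze : (D.a : ℝ) / 1000 < L.ze + K.ze
  o1 : PiC L K n p ((D.a : ℝ) / 1000) ((D.v : ℝ) / 1000 * p - (D.u : ℝ) / 1000 * n)
    (bil t r (fun e f => (D.kk e f : ℝ) / 16000))
  o2 : PiC K L p n ((D.a : ℝ) / 1000) ((D.u : ℝ) / 1000 * n - (D.v : ℝ) / 1000 * p)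
    (bil t r (fun e f => (D.kk e f : ℝ) / 16000))

theorem cdB_sound {L K : Z5} {s0 s1 l0 l1 : ℤ} {D : Cd} (h : cdB L K s0 s1 l0 l1 D = true)
    (hs0 : 0 ≤ s0) (hs : s0 < s1) (hl0 : 0 ≤ l0) (hl : l0 < l1) {t r n p : ℝ} (t0 : 0 ≤ t)
    (t1 : t ≤ 1) (r0 : 0 ≤ r) (r1 : r ≤ 1) (en : n = (1 - t) * (s0 / 64) + t * (s1 / 64))
    (ep : p = (1 - r) * (l0 / 64) + r * (l1 / 64)) : CdOK L.R K.R n p t r D := by
  simp only [cdB, Bool.and_eq_true, decide_eq_true_eq] at h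
  obtain ⟨⟨⟨⟨⟨⟨h1, h2⟩, h3⟩, h4⟩, h5⟩, h6⟩, h7⟩ := h
  have e3 : (0 : ℝ) < D.u := by exact_mod_cast h3
  have e4 : (0 : ℝ) < D.v := by exact_mod_cast h4
  have e5 : (64 * D.a : ℝ) < ((L.z : ℝ) + L.k - L.a) + ((K.z : ℝ) + K.k - K.a) := by
    exact_mod_cast h5
  have o1 := rcOB_sound h6 h1 hs0 hs hl t0 t1 r0 r1 en ep
  have o2 := rcOB_sound h7 h2 hl0 hl hs r0 r1 t0 t1 ep en
  push_cast at o1 o2
  have ea : (64 * D.a : ℝ) / 64000 = D.a / 1000 := by ring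
  have eu : (64 * D.u : ℝ) / 64000 = D.u / 1000 := by ring
  have ev : (64 * D.v : ℝ) / 64000 = D.v / 1000 := by ring
  rw [ea, eu, ev] at o1 o2
  refine ⟨e3, e4, ?_, ?_, ?_⟩
  · simp only [Z5.R, mkL, LF.ze]
    linarith
  · simpa only [bil, Cd.kk, cond_true, cond_false] using o1
  · have : bil t r (fun e f => (D.kk e f : ℝ) / 16000) =
        (1 - r) * (1 - t) * (D.k00 / 16000) + (1 - r) * t * (D.k10 / 16000) +
        r * (1 - t) * (D.k01 / 16000) + r * t * (D.k11 / 16000) := by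
      simp only [bil, Cd.kk, cond_true, cond_false]
      ring
    rw [this]
    exact o2

/-- the real value of a corner -/
def Cd.TR (D : Cd) (S L e f k : ℝ) : ℝ :=
  2 * 1.4142 * (S + L) - (2 / (D.u / 1000) + 2 / (D.v / 1000) - D.a / 1000 + D.u / 1000 / 2 +
    D.v / 1000 / 2) - k - D.u / 1000 / 2 * e ^ 2 - D.v / 1000 / 2 * f ^ 2

theorem Cd.T_le {D : Cd} (hu : (0 : ℝ) < D.u) (hv : (0 : ℝ) < D.v) (S L e f k : ℤ) :
    (D.T S L e f k : ℝ) ≤ 1024000000 * D.TR (S / 64) (L / 64) (e / 64) (f / 64) (k / 16000) := by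
  have key : ∀ x : ℤ, (0 : ℝ) < x → 2 / ((x : ℝ) / 1000) ≤
      ((2000000000 / x : ℤ) + 1 : ℝ) / 1000000 := by
    intro x hx
    have hx' : 0 < x := by exact_mod_cast hx
    have h1 := Int.lt_ediv_add_one_mul_self 2000000000 hx'
    have h2 : (2000000000 : ℝ) < ((2000000000 / x : ℤ) + 1 : ℝ) * x := by exact_mod_cast h1
    rw [div_le_iff₀ (by positivity)]
    linarith
  have k1 := key D.u hu
  have k2 := key D.v hv
  simp only [Cd.T, Cd.TR]
  push_cast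
  linarith

theorem nineB_sound {s0 s1 l0 l1 : ℤ} {R : Rc} (h : nineB s0 s1 l0 l1 R = true)
    (hu : ∀ c d, (0 : ℝ) < (R.D c d).u) (hv : ∀ c d, (0 : ℝ) < (R.D c d).v) {t r : ℝ}
    (t0 : 0 ≤ t) (t1 : t ≤ 1) (r0 : 0 ≤ r) (r1 : r ≤ 1) :
    0 ≤ bil t r (fun c d => bil t r (fun e f => (R.D c d).TR ((bif c then s1 else s0 : ℤ) / 64)
      ((bif d then l1 else l0 : ℤ) / 64) ((bif e then s1 else s0 : ℤ) / 64)
      ((bif f then l1 else l0 : ℤ) / 64) ((R.D c d).kk e f / 16000))) := by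
  have key : ∀ c d e f, (((R.D c d).T (bif c then s1 else s0) (bif d then l1 else l0)
      (bif e then s1 else s0) (bif f then l1 else l0) ((R.D c d).kk e f) : ℤ) : ℝ) ≤
      1024000000 * (R.D c d).TR ((bif c then s1 else s0 : ℤ) / 64)
      ((bif d then l1 else l0 : ℤ) / 64) ((bif e then s1 else s0 : ℤ) / 64)
      ((bif f then l1 else l0 : ℤ) / 64) ((R.D c d).kk e f / 16000) := by
    intro c d e f
    exact Cd.T_le (hu c d) (hv c d) _ _ _ _ _
  simp only [nineB, Bool.and_eq_true, decide_eq_true_eq] at h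
  obtain ⟨⟨⟨⟨⟨⟨⟨⟨h1, h2⟩, h3⟩, h4⟩, h5⟩, h6⟩, h7⟩, h8⟩, h9⟩ := h
  have g1 : (0 : ℝ) ≤ (R.d00.T s0 l0 s0 l0 R.d00.k00 : ℤ) := by exact_mod_cast h1
  have g2 : (0 : ℝ) ≤ (R.d00.T s0 l0 s0 l1 R.d00.k01 : ℤ) +
    (R.d01.T s0 l1 s0 l0 R.d01.k00 : ℤ) := by exact_mod_cast h2
  have g3 : (0 : ℝ) ≤ (R.d01.T s0 l1 s0 l1 R.d01.k01 : ℤ) := by exact_mod_cast h3
  have g4 : (0 : ℝ) ≤ (R.d00.T s0 l0 s1 l0 R.d00.k10 : ℤ) +
    (R.d10.T s1 l0 s0 l0 R.d10.k00 : ℤ) := by exact_mod_cast h4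
  have g5 : (0 : ℝ) ≤ (R.d00.T s0 l0 s1 l1 R.d00.k11 : ℤ) + (R.d01.T s0 l1 s1 l0 R.d01.k10 : ℤ) +
    (R.d10.T s1 l0 s0 l1 R.d10.k01 : ℤ) + (R.d11.T s1 l1 s0 l0 R.d11.k00 : ℤ) := by
    exact_mod_cast h5
  have g6 : (0 : ℝ) ≤ (R.d01.T s0 l1 s1 l1 R.d01.k11 : ℤ) +
    (R.d11.T s1 l1 s0 l1 R.d11.k01 : ℤ) := by exact_mod_cast h6
  have g7 : (0 : ℝ) ≤ (R.d10.T s1 l0 s1 l0 R.d10.k10 : ℤ) := by exact_mod_cast h7
  have g8 : (0 : ℝ) ≤ (R.d10.T s1 l0 s1 l1 R.d10.k11 : ℤ) +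
    (R.d11.T s1 l1 s1 l0 R.d11.k10 : ℤ) := by exact_mod_cast h8
  have g9 : (0 : ℝ) ≤ (R.d11.T s1 l1 s1 l1 R.d11.k11 : ℤ) := by exact_mod_cast h9
  apply nine t0 t1 r0 r1
  · have := key false false false false
    simp only [cond_false, Rc.D, Cd.kk] at this ⊢
    linarith
  · have a1 := key false false false true
    have a2 := key false true false false
    simp only [cond_false, cond_true, Rc.D, Cd.kk] at a1 a2 ⊢
    linarith
  · have a1 := key false true false true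
    simp only [cond_false, cond_true, Rc.D, Cd.kk] at a1 ⊢
    linarith
  · have a1 := key false false true false
    have a2 := key true false false false
    simp only [cond_false, cond_true, Rc.D, Cd.kk] at a1 a2 ⊢
    linarith
  · have a1 := key false false true true
    have a2 := key false true true false
    have a3 := key true false false true
    have a4 := key true true false false
    simp only [cond_false, cond_true, Rc.D, Cd.kk] at a1 a2 a3 a4 ⊢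
    linarith
  · have a1 := key false true true true
    have a2 := key true true false true
    simp only [cond_false, cond_true, Rc.D, Cd.kk] at a1 a2 ⊢
    linarith
  · have a1 := key true false true false
    simp only [cond_false, cond_true, Rc.D, Cd.kk] at a1 ⊢
    linarith
  · have a1 := key true false true true
    have a2 := key true true true false
    simp only [cond_false, cond_true, Rc.D, Cd.kk] at a1 a2 ⊢
    linarith
  · have a1 := key true true true true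
    simp only [cond_true, Rc.D, Cd.kk] at a1 ⊢
    linarith

end Pool.Agent.RRS
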