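import Pool.Agent.RRS.PiRc2

/-!
# Opposite points: rectangles are sound
-/

set_option autoImplicit false

noncomputable section

namespace Pool.Agent.RRS

open Real

/-- **the test of a rectangle is sound** -/
theorem rcB_sound {f g : Pc} {s0 s1 l0 l1 : ℤ} {R : Rc} (h : rcB f g s0 s1 l0 l1 R = true)
    {s l : ℝ} (hs : 0 < s) (hs3 : s < 3) (hl : 0 < l) (hl3 : l < 3) (hLs : Lz s = f.L s)
    (hLl : Lz l = g.L l) (a1 : (s0 : ℝ) ≤ 64 * s) (a2 : 64 * s ≤ s1) (b1 : (l0 : ℝ) ≤ 64 * l)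
    (b2 : 64 * l ≤ l1) : RPair0 Fz g0z g1z g2z s l π (cos π) := by
  simp only [rcB, Bool.and_eq_true, decide_eq_true_eq] at h
  obtain ⟨⟨⟨⟨⟨⟨⟨⟨h1, h2⟩, h3⟩, h4⟩, h5⟩, h6⟩, h7⟩, h8⟩, h9⟩ := h
  have rs : (0 : ℝ) < (s1 : ℝ) - s0 := sub_pos.2 (by exact_mod_cast h2)
  have rl : (0 : ℝ) < (l1 : ℝ) - l0 := sub_pos.2 (by exact_mod_cast h4)
  obtain ⟨t, ht⟩ : ∃ t : ℝ, t = (64 * s - s0) / (s1 - s0) := ⟨_, rfl⟩
  obtain ⟨r, hr⟩ : ∃ r : ℝ, r = (64 * l - l0) / (l1 - l0) := ⟨_, rfl⟩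
  have t0 : 0 ≤ t := by
    rw [ht]
    exact div_nonneg (sub_nonneg.2 a1) rs.le
  have t1 : t ≤ 1 := by
    rw [ht, div_le_one rs]
    linarith
  have r0 : 0 ≤ r := by
    rw [hr]
    exact div_nonneg (sub_nonneg.2 b1) rl.le
  have r1 : r ≤ 1 := by
    rw [hr, div_le_one rl]
    linarith
  have es : s = (1 - t) * (s0 / 64) + t * (s1 / 64) := by
    have : t * ((s1 : ℝ) - s0) = 64 * s - s0 := by
      rw [ht]
      exact div_mul_cancel₀ _ rs.ne'
    linarith
  have el : l = (1 - r) * (l0 / 64) + r * (l1 / 64) := by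
    have : r * ((l1 : ℝ) - l0) = 64 * l - l0 := by
      rw [hr]
      exact div_mul_cancel₀ _ rl.ne'
    linarith
  have mX := Pc.mix f es
  have mY := Pc.mix g el
  rw [← hLs] at mX
  rw [← hLl] at mY
  have ok : ∀ c d, CdOK ((f.at (bif c then s1 else s0)).R) ((g.at (bif d then l1 else l0)).R) s l t r
      (R.D c d) := by
    intro c d
    cases c <;> cases d
    · exact cdB_sound h6 h1 h2 h3 h4 t0 t1 r0 r1 es el
    · exact cdB_sound h7 h1 h2 h3 h4 t0 t1 r0 r1 es el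
    · exact cdB_sound h8 h1 h2 h3 h4 t0 t1 r0 r1 es el
    · exact cdB_sound h9 h1 h2 h3 h4 t0 t1 r0 r1 es el
  have V := nineB_sound h5 (fun c d => (ok c d).u) (fun c d => (ok c d).v) t0 t1 r0 r1
  -- the multipliers
  obtain ⟨U, hU⟩ : ∃ U : Bool → Bool → ℝ, U = fun c d => ((R.D c d).u : ℝ) / 1000 := ⟨_, rfl⟩
  obtain ⟨W, hW⟩ : ∃ W : Bool → Bool → ℝ, W = fun c d => ((R.D c d).v : ℝ) / 1000 := ⟨_, rfl⟩
  obtain ⟨A, hA⟩ : ∃ A : Bool → Bool → ℝ, A = fun c d => ((R.D c d).a : ℝ) / 1000 := ⟨_, rfl⟩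
  obtain ⟨k, hk⟩ : ∃ k : Bool → Bool → Bool → Bool → ℝ,
      k = fun c d e f => ((R.D c d).kk e f : ℝ) / 16000 := ⟨_, rfl⟩
  have U0 : ∀ c d, 0 < U c d := by
    intro c d
    rw [hU]
    exact div_pos (ok c d).u (by norm_num)
  have W0 : ∀ c d, 0 < W c d := by
    intro c d
    rw [hW]
    exact div_pos (ok c d).v (by norm_num)
  have u0 := bil_pos t0 t1 r0 r1 U0
  have v0 := bil_pos t0 t1 r0 r1 W0
  have o1 : PiC (Lz s) (Lz l) s l (bil t r A) (bil t r (fun c d => W c d * l - U c d * s))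
      (bil t r (fun c d => bil t r (fun e f => k c d e f))) := by
    refine PiC_mix t0 t1 r0 r1 mX mY (fun c d => ?_)
    have := (ok c d).o1
    rw [hU, hW, hA, hk]
    exact this
  have o2 : PiC (Lz l) (Lz s) l s (bil r t (fun d c => A c d))
      (bil r t (fun d c => U c d * s - W c d * l))
      (bil r t (fun d c => bil t r (fun e f => k c d e f))) := by
    refine PiC_mix r0 r1 t0 t1 mY mX (fun d c => ?_)
    have := (ok c d).o2
    rw [hU, hW, hA, hk]
    exact this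
  have sw : ∀ F : Bool → Bool → ℝ, bil r t (fun d c => F c d) = bil t r F := by
    intro F
    simp only [bil]
    ring
  rw [sw, sw (fun c d => U c d * s - W c d * l),
    sw (fun c d => bil t r (fun e f => k c d e f))] at o2
  have d1 : bil t r (fun c d => W c d * l - U c d * s) = bil t r W * l - bil t r U * s := by
    simp only [bil]
    ring
  have d2 : bil t r (fun c d => U c d * s - W c d * l) = bil t r U * s - bil t r W * l := by
    simp only [bil]
    ring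
  rw [d1] at o1
  rw [d2] at o2
  have hze : bil t r A < (Lz s).ze + (Lz l).ze := by
    have h0 := bil_pos t0 t1 r0 r1
      (f := fun c d => ((f.at (bif c then s1 else s0)).R).ze + ((g.at (bif d then l1 else l0)).R).ze -
        A c d) (fun c d => by
          have := (ok c d).ze
          rw [hA]
          exact sub_pos.2 this)
    rw [mX.ze, mY.ze]
    simp only [bil, cond_true, cond_false] at h0 ⊢
    linarith
  refine RPair0_pi_of hs hl hs3 hl3 u0 v0 hze o1 o2 ?_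
  have i1 := bil_inv t0 t1 r0 r1 U0
  have i2 := bil_inv t0 t1 r0 r1 W0
  have q1 : s ^ 2 ≤ (1 - t) * (s0 / 64) ^ 2 + t * (s1 / 64) ^ 2 := by
    have e : (1 - t) * ((s0 : ℝ) / 64) ^ 2 + t * (s1 / 64) ^ 2 - s ^ 2 =
        ((1 - t) * t) * ((s0 : ℝ) / 64 - s1 / 64) ^ 2 := by
      rw [es]
      ring
    have := mul_nonneg (mul_nonneg (sub_nonneg.2 t1) t0) (sq_nonneg ((s0 : ℝ) / 64 - s1 / 64))
    linarith
  have q2 : l ^ 2 ≤ (1 - r) * (l0 / 64) ^ 2 + r * (l1 / 64) ^ 2 := by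
    have e : (1 - r) * ((l0 : ℝ) / 64) ^ 2 + r * (l1 / 64) ^ 2 - l ^ 2 =
        ((1 - r) * r) * ((l0 : ℝ) / 64 - l1 / 64) ^ 2 := by
      rw [el]
      ring
    have := mul_nonneg (mul_nonneg (sub_nonneg.2 r1) r0) (sq_nonneg ((l0 : ℝ) / 64 - l1 / 64))
    linarith
  have q3 := mul_le_mul_of_nonneg_left q1 u0.le
  have q4 := mul_le_mul_of_nonneg_left q2 v0.le
  have q5 : 2 * 1.4142 * (s + l) ≤ 2 * √2 * (s + l) := by
    have := sqrt_two_ge
    have h2 : (1.4142 : ℝ) ≤ √2 := by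
      refine le_trans (by norm_num) this
    have := mul_le_mul_of_nonneg_right h2 (by linarith : (0 : ℝ) ≤ 2 * (s + l))
    linarith
  have key : bil t r (fun c d => bil t r (fun e f => (R.D c d).TR ((bif c then s1 else s0 : ℤ) / 64)
      ((bif d then l1 else l0 : ℤ) / 64) ((bif e then s1 else s0 : ℤ) / 64)
      ((bif f then l1 else l0 : ℤ) / 64) ((R.D c d).kk e f / 16000))) =
      2 * 1.4142 * (s + l) - (bil t r (fun c d => 2 / U c d) + bil t r (fun c d => 2 / W c d) -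
        bil t r A + bil t r U / 2 + bil t r W / 2) -
        bil t r (fun c d => bil t r (fun e f => k c d e f)) -
        bil t r U * ((1 - t) * (s0 / 64) ^ 2 + t * (s1 / 64) ^ 2) / 2 -
        bil t r W * ((1 - r) * (l0 / 64) ^ 2 + r * (l1 / 64) ^ 2) / 2 := by
    have g1 : ∀ c d e f, (R.D c d).TR ((bif c then s1 else s0 : ℤ) / 64)
      ((bif d then l1 else l0 : ℤ) / 64) ((bif e then s1 else s0 : ℤ) / 64)
      ((bif f then l1 else l0 : ℤ) / 64) ((R.D c d).kk e f / 16000) =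
      2 * 1.4142 * ((bif c then s1 else s0 : ℤ) / 64 + (bif d then l1 else l0 : ℤ) / 64) -
      (2 / U c d + 2 / W c d - A c d + U c d / 2 + W c d / 2) - k c d e f -
      U c d / 2 * ((bif e then s1 else s0 : ℤ) / 64) ^ 2 -
      W c d / 2 * ((bif f then l1 else l0 : ℤ) / 64) ^ 2 := by
      intro c d e f
      rw [hU, hW, hA, hk]
      rfl
    simp only [g1]
    rw [es, el]
    simp only [bil, cond_true, cond_false]
    ring
  rw [key] at V
  linarith

/-! ### trees of rectangles -/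

/-- a tree of rectangles -/
inductive RcT
  | L (R : Rc)
  | E
  | S (x : ℤ) (a b : RcT)
  | M (x : ℤ) (a b : RcT)

/-- the test of a tree -/
def RcT.chk (f g : Pc) : RcT → ℤ → ℤ → ℤ → ℤ → Bool
  | .L R, s0, s1, l0, l1 => rcB f g s0 s1 l0 l1 R
  | .E, s0, _, _, l1 => decide (l1 ≤ s0)
  | .S x a b, s0, s1, l0, l1 => a.chk f g s0 x l0 l1 && b.chk f g x s1 l0 l1
  | .M x a b, s0, s1, l0, l1 => a.chk f g s0 s1 l0 x && b.chk f g s0 s1 x l1

theorem RcT.sound {f g : Pc} (T : RcT) {s0 s1 l0 l1 : ℤ} (h : T.chk f g s0 s1 l0 l1 = true)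
    {s l : ℝ} (hs : 0 < s) (hs3 : s < 3) (hl : 0 < l) (hl3 : l < 3) (hsl : s ≤ l)
    (hLs : Lz s = f.L s)
    (hLl : Lz l = g.L l) (a1 : (s0 : ℝ) < 64 * s) (a2 : 64 * s ≤ s1) (b1 : (l0 : ℝ) ≤ 64 * l)
    (b2 : 64 * l ≤ l1) : RPair0 Fz g0z g1z g2z s l π (cos π) := by
  induction T generalizing s0 s1 l0 l1 with
  | L R => exact rcB_sound h hs hs3 hl hl3 hLs hLl a1.le a2 b1 b2
  | E =>
    simp only [RcT.chk, decide_eq_true_eq] at h
    have : (l1 : ℝ) ≤ s0 := by exact_mod_cast h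
    linarith
  | S x a b iha ihb =>
    simp only [RcT.chk, Bool.and_eq_true] at h
    rcases le_or_gt (64 * s) (x : ℝ) with h' | h'
    · exact iha h.1 a1 h' b1 b2
    · exact ihb h.2 h' a2 b1 b2
  | M x a b iha ihb =>
    simp only [RcT.chk, Bool.and_eq_true] at h
    rcases le_total (64 * l) (x : ℝ) with h' | h'
    · exact iha h.1 a1 a2 b1 h'
    · exact ihb h.2 a1 a2 h' b2

end Pool.Agent.RRS
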