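import Mathlib

/-!
# Polynomial inequalities in two variables on a rectangle

The polynomial is expanded in the products `s ^ k * r ^ (D - k)` for `s = x - a`, `r = a' - x`, and
in the same way in `y`; if no coefficient is negative then the polynomial is not negative.
-/

set_option autoImplicit false

namespace Pool.Agent.RRS.PB

section Generic

variable {α : Type}

/-- sum of two lists of coefficients -/
def gadd (ad : α → α → α) : List α → List α → List α
  | [], m => m
  | a :: l, [] => a :: l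
  | a :: l, b :: m => ad a b :: gadd ad l m

/-- product of two lists of coefficients -/
def gmul (ad mu : α → α → α) (z : α) : List α → List α → List α
  | [], _ => []
  | a :: l, m => gadd ad (m.map (mu a)) (z :: gmul ad mu z l m)

/-- product with `a r + b s` -/
def glin (ad : α → α → α) (sm : ℤ → α → α) (z : α) (a b : ℤ) (l : List α) : List α :=
  gadd ad (l.map (sm a)) (z :: l.map (sm b))

/-- coefficients of `(q r + q s) ^ k` -/
def bin (q : ℤ) : ℕ → List ℤ
  | 0 => [1]
  | k + 1 => glin (· + ·) (· * ·) 0 q q (bin q k)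

/-- the coefficients of `(q r + q s) ^ D * ∑ c i * t ^ i` for `(q r + q s) * t = n0 r + n1 s` -/
def ghom (ad : α → α → α) (sm : ℤ → α → α) (z : α) (q n0 n1 : ℤ) : ℕ → List α → List α
  | _, [] => []
  | D, c :: cs => gadd ad ((bin q D).map fun k => sm k c)
      (glin ad sm z n0 n1 (ghom ad sm z q n0 n1 (D - 1) cs))

/-- value of a polynomial -/
noncomputable def gev (e : α → ℝ) (t : ℝ) : List α → ℝ
  | [] => 0
  | a :: l => e a + t * gev e t l

/-- value of a form -/
noncomputable def ghev (e : α → ℝ) (r s : ℝ) : ℕ → List α → ℝ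
  | _, [] => 0
  | D, a :: l => e a * r ^ D + s * ghev e r s (D - 1) l

variable {ad mu : α → α → α} {sm : ℤ → α → α} {z : α} {e : α → ℝ}

theorem gev_add (h : ∀ a b, e (ad a b) = e a + e b) (t : ℝ) : ∀ l m : List α,
    gev e t (gadd ad l m) = gev e t l + gev e t m
  | [], m => by simp [gadd, gev]
  | a :: l, [] => by simp [gadd, gev]
  | a :: l, b :: m => by
    simp only [gadd, gev, h, gev_add h t l m]
    ring

theorem gev_map (t : ℝ) {f : α → α} {c : ℝ} (h : ∀ a, e (f a) = c * e a) : ∀ l : List α,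
    gev e t (l.map f) = c * gev e t l
  | [] => by simp [gev]
  | a :: l => by
    simp only [List.map_cons, gev, h, gev_map t h l]
    ring

theorem gev_mul (h : ∀ a b, e (ad a b) = e a + e b) (h2 : ∀ a b, e (mu a b) = e a * e b)
    (hz : e z = 0) (t : ℝ) (m : List α) : ∀ l : List α,
    gev e t (gmul ad mu z l m) = gev e t l * gev e t m
  | [] => by simp [gmul, gev]
  | a :: l => by
    simp only [gmul, gev_add h, gev_map t (h2 a), gev, hz, gev_mul h h2 hz t m l]
    ring

theorem ghev_add (h : ∀ a b, e (ad a b) = e a + e b) (r s : ℝ) : ∀ (D : ℕ) (l m : List α),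
    ghev e r s D (gadd ad l m) = ghev e r s D l + ghev e r s D m
  | _, [], m => by simp [gadd, ghev]
  | _, a :: l, [] => by simp [gadd, ghev]
  | D, a :: l, b :: m => by
    simp only [gadd, ghev, h, ghev_add h r s (D - 1) l m]
    ring

theorem ghev_map (r s : ℝ) {f : α → α} {c : ℝ} (h : ∀ a, e (f a) = c * e a) :
    ∀ (D : ℕ) (l : List α), ghev e r s D (l.map f) = c * ghev e r s D l
  | _, [] => by simp [ghev]
  | D, a :: l => by
    simp only [List.map_cons, ghev, h, ghev_map r s h (D - 1) l]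
    ring

theorem ghev_succ (r s : ℝ) : ∀ (D : ℕ) (l : List α), l.length ≤ D + 1 →
    ghev e r s (D + 1) l = r * ghev e r s D l
  | _, [], _ => by simp [ghev]
  | 0, [a], _ => by simp [ghev]; ring
  | 0, a :: b :: l, h => by simp at h
  | D + 1, a :: l, h => by
    have h1 := ghev_succ r s D l (by simpa using h)
    simp only [ghev, Nat.add_sub_cancel, h1]
    ring

theorem ghev_lin (h : ∀ a b, e (ad a b) = e a + e b) (h2 : ∀ c a, e (sm c a) = c * e a)
    (hz : e z = 0) (r s : ℝ) (a b : ℤ) {D : ℕ} {l : List α} (hl : l.length ≤ D + 1) :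
    ghev e r s (D + 1) (glin ad sm z a b l) = (a * r + b * s) * ghev e r s D l := by
  rw [glin, ghev_add h, ghev_map r s (h2 a), ghev_succ r s D l hl]
  simp only [ghev, hz, Nat.add_sub_cancel, ghev_map r s (h2 b)]
  ring

theorem length_gadd : ∀ l m : List α, (gadd ad l m).length = max l.length m.length
  | [], m => by simp [gadd]
  | a :: l, [] => by simp [gadd]
  | a :: l, b :: m => by simp [gadd, length_gadd l m]

theorem length_glin (a b : ℤ) (l : List α) : (glin ad sm z a b l).length = l.length + 1 := by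
  simp [glin, length_gadd]

theorem length_bin (q : ℤ) : ∀ k : ℕ, (bin q k).length = k + 1
  | 0 => rfl
  | k + 1 => by rw [bin, length_glin, length_bin q k]

theorem ghev_bin (q : ℤ) (r s : ℝ) : ∀ k : ℕ,
    ghev (fun c : ℤ => (c : ℝ)) r s k (bin q k) = (q * (r + s)) ^ k
  | 0 => by simp [bin, ghev]
  | k + 1 => by
    rw [bin, ghev_lin (fun a b => by push_cast; ring) (fun a b => by push_cast; ring)
      (by simp) r s q q (length_bin q k).le, ghev_bin q r s k]
    ring

theorem ghev_smap (h2 : ∀ c a, e (sm c a) = c * e a) (r s : ℝ) (c : α) :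
    ∀ (D : ℕ) (l : List ℤ), ghev e r s D (l.map fun k => sm k c) =
      e c * ghev (fun c : ℤ => (c : ℝ)) r s D l
  | _, [] => by simp [ghev]
  | D, a :: l => by
    simp only [List.map_cons, ghev, h2, ghev_smap h2 r s c (D - 1) l]
    ring

theorem length_ghom (q n0 n1 : ℤ) : ∀ (D : ℕ) (l : List α), l.length ≤ D + 1 →
    (ghom ad sm z q n0 n1 D l).length ≤ D + 1
  | _, [], _ => by simp [ghom]
  | 0, [c], _ => by simp [ghom, length_gadd, length_glin, length_bin]
  | 0, a :: b :: l, h => by simp at h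
  | D + 1, c :: l, h => by
    have h1 := length_ghom q n0 n1 D l (by simpa using h)
    simp only [ghom, Nat.add_sub_cancel, length_gadd, length_glin, List.length_map, length_bin]
    omega

theorem ghev_hom (h : ∀ a b, e (ad a b) = e a + e b) (h2 : ∀ c a, e (sm c a) = c * e a)
    (hz : e z = 0) {r s t : ℝ} {q n0 n1 : ℤ} (ht : q * (r + s) * t = n0 * r + n1 * s) :
    ∀ (D : ℕ) (l : List α), l.length ≤ D + 1 →
    ghev e r s D (ghom ad sm z q n0 n1 D l) = (q * (r + s)) ^ D * gev e t l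
  | _, [], _ => by simp [ghom, ghev, gev]
  | 0, [c], _ => by
    simp [ghom, ghev, gev, bin, glin, gadd, h, h2, hz]
  | 0, a :: b :: l, h => by simp at h
  | D + 1, c :: l, hl => by
    have hl' : l.length ≤ D + 1 := by simpa using hl
    have h1 := ghev_hom h h2 hz ht D l hl'
    rw [ghom, Nat.add_sub_cancel, ghev_add h, ghev_smap h2, ghev_bin,
      ghev_lin h h2 hz r s n0 n1 (length_ghom q n0 n1 D l hl'), h1, gev, ← ht]
    ring

theorem ghev_nonneg {r s : ℝ} (hr : 0 ≤ r) (hs : 0 ≤ s) : ∀ (D : ℕ) (l : List α),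
    (∀ a ∈ l, 0 ≤ e a) → 0 ≤ ghev e r s D l
  | _, [], _ => by simp [ghev]
  | D, a :: l, h => by
    have h1 := ghev_nonneg hr hs (D - 1) l fun b hb => h b (by simp [hb])
    have h2 := h a (by simp)
    simp only [ghev]
    positivity

end Generic

/-- polynomials in `y` -/
abbrev PY := List ℤ

/-- sum -/
def yadd : PY → PY → PY := gadd (· + ·)

/-- product -/
def ymul : PY → PY → PY := gmul (· + ·) (· * ·) 0

/-- multiple -/
def ysm (c : ℤ) (l : PY) : PY := l.map (c * ·)

/-- value -/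
noncomputable def yev (y : ℝ) (l : PY) : ℝ := gev (fun c : ℤ => (c : ℝ)) y l

theorem yev_add (y : ℝ) (a b : PY) : yev y (yadd a b) = yev y a + yev y b :=
  gev_add (fun a b => by push_cast; ring) y a b

theorem yev_mul (y : ℝ) (a b : PY) : yev y (ymul a b) = yev y a * yev y b :=
  gev_mul (fun a b => by push_cast; ring) (fun a b => by push_cast; ring) (by simp) y b a

theorem yev_sm (y : ℝ) (c : ℤ) (a : PY) : yev y (ysm c a) = c * yev y a :=
  gev_map y (fun a => by push_cast; ring) a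

/-- polynomials in `x`, `y` -/
abbrev PXY := List PY

/-- value -/
noncomputable def xev (x y : ℝ) (l : PXY) : ℝ := gev (yev y) x l

/-- polynomial expressions -/
inductive PE
  | X
  | Y
  | N (n : ℕ)
  | add (a b : PE)
  | sub (a b : PE)
  | mul (a b : PE)
  | div (a : PE) (n : ℕ)
  | pow (a : PE) (n : ℕ)

/-- value -/
noncomputable def PE.ev (x y : ℝ) : PE → ℝ
  | .X => x
  | .Y => y
  | .N n => (n : ℝ)
  | .add a b => a.ev x y + b.ev x y
  | .sub a b => a.ev x y - b.ev x y
  | .mul a b => a.ev x y * b.ev x y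
  | .div a n => a.ev x y / (n : ℝ)
  | .pow a n => a.ev x y ^ n

/-- sum of fractions -/
def nadd (p q : PXY × ℕ) : PXY × ℕ :=
  if p.2 = q.2 then (gadd yadd p.1 q.1, p.2)
  else (gadd yadd (p.1.map (ysm q.2)) (q.1.map (ysm p.2)), p.2 * q.2)

/-- product of fractions -/
def nmul (p q : PXY × ℕ) : PXY × ℕ := (gmul yadd ymul [] p.1 q.1, p.2 * q.2)

/-- power of a fraction -/
def npow (p : PXY × ℕ) : ℕ → PXY × ℕ
  | 0 => ([[1]], 1)
  | k + 1 => nmul (npow p k) p

/-- numerator and denominator -/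
def PE.nd : PE → PXY × ℕ
  | .X => ([[], [1]], 1)
  | .Y => ([[0, 1]], 1)
  | .N n => ([[(n : ℤ)]], 1)
  | .add a b => nadd a.nd b.nd
  | .sub a b => nadd a.nd (b.nd.1.map (ysm (-1)), b.nd.2)
  | .mul a b => nmul a.nd b.nd
  | .div a n => (a.nd.1, a.nd.2 * n)
  | .pow a n => npow a.nd n

theorem nadd_sound {x y u v : ℝ} {p q : PXY × ℕ} (h : (nadd p q).2 ≠ 0)
    (hp : p.2 ≠ 0 → u * p.2 = xev x y p.1) (hq : q.2 ≠ 0 → v * q.2 = xev x y q.1) :
    (u + v) * (nadd p q).2 = xev x y (nadd p q).1 := by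
  unfold nadd at h ⊢
  split_ifs with h1
  · rw [if_pos h1] at h
    have h2 := hp h
    have h3 := hq (h1 ▸ h)
    rw [← h1] at h3
    simp only
    rw [xev, gev_add (yev_add y), ← xev, ← xev, ← h2, ← h3]
    ring
  · rw [if_neg h1] at h
    simp only at h ⊢
    have h2 := hp (left_ne_zero_of_mul h)
    have h3 := hq (right_ne_zero_of_mul h)
    rw [xev, gev_add (yev_add y), gev_map x (yev_sm y _), gev_map x (yev_sm y _), ← xev, ← xev,
      ← h2, ← h3]
    push_cast
    ring

theorem nmul_sound {x y u v : ℝ} {p q : PXY × ℕ} (h : (nmul p q).2 ≠ 0)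
    (hp : p.2 ≠ 0 → u * p.2 = xev x y p.1) (hq : q.2 ≠ 0 → v * q.2 = xev x y q.1) :
    u * v * (nmul p q).2 = xev x y (nmul p q).1 := by
  unfold nmul at h ⊢
  simp only at h ⊢
  have h2 := hp (left_ne_zero_of_mul h)
  have h3 := hq (right_ne_zero_of_mul h)
  rw [xev, gev_mul (yev_add y) (yev_mul y) (by simp [yev, gev]), ← xev, ← xev, ← h2, ← h3]
  push_cast
  ring

theorem npow_sound {x y u : ℝ} {p : PXY × ℕ} (hp : p.2 ≠ 0 → u * p.2 = xev x y p.1) :
    ∀ k : ℕ, (npow p k).2 ≠ 0 → u ^ k * (npow p k).2 = xev x y (npow p k).1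
  | 0, _ => by simp [npow, xev, yev, gev]
  | k + 1, h => by
    rw [npow] at h ⊢
    rw [pow_succ]
    exact nmul_sound h (npow_sound hp k) hp

theorem nd_sound (x y : ℝ) : ∀ E : PE, E.nd.2 ≠ 0 → E.ev x y * E.nd.2 = xev x y E.nd.1
  | .X, _ => by simp [PE.nd, PE.ev, xev, yev, gev]
  | .Y, _ => by simp [PE.nd, PE.ev, xev, yev, gev]
  | .N n, _ => by simp [PE.nd, PE.ev, xev, yev, gev]
  | .add a b, h => nadd_sound h (nd_sound x y a) (nd_sound x y b)
  | .sub a b, h => by
    rw [PE.ev, sub_eq_add_neg]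
    refine nadd_sound h (nd_sound x y a) fun h1 => ?_
    have h2 := nd_sound x y b h1
    simp only
    rw [xev, gev_map x (yev_sm y _), ← xev, ← h2]
    push_cast
    ring
  | .mul a b, h => nmul_sound h (nd_sound x y a) (nd_sound x y b)
  | .div a n, h => by
    simp only [PE.nd, PE.ev] at h ⊢
    have h1 := nd_sound x y a (left_ne_zero_of_mul h)
    have h2 : (n : ℝ) ≠ 0 := by exact_mod_cast right_ne_zero_of_mul h
    rw [← h1]
    push_cast
    field_simp
  | .pow a n, h => npow_sound (nd_sound x y a) n h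

/-- the check on `n0 ≤ qx * x ≤ n1`, `m0 ≤ qy * y ≤ m1` -/
def chkR (p : PXY × ℕ) (qx n0 n1 qy m0 m1 : ℤ) (Dx Dy : ℕ) : Bool :=
  decide (p.2 ≠ 0) && decide (p.1.length ≤ Dx + 1) &&
  (p.1.all fun l => decide (l.length ≤ Dy + 1)) &&
  decide (0 < qx) && decide (0 < qy) && decide (n0 < n1) && decide (m0 < m1) &&
  (ghom yadd ysm [] qx n0 n1 Dx (p.1.map (ghom (· + ·) (· * ·) 0 qy m0 m1 Dy))).all
    fun l => l.all fun c => decide (0 ≤ c)

theorem chkR_sound {x y : ℝ} {p : PXY × ℕ} {qx n0 n1 qy m0 m1 : ℤ} {Dx Dy : ℕ}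
    (h : chkR p qx n0 n1 qy m0 m1 Dx Dy = true) (hx0 : (n0 : ℝ) ≤ qx * x) (hx1 : qx * x ≤ n1)
    (hy0 : (m0 : ℝ) ≤ qy * y) (hy1 : qy * y ≤ m1) : p.2 ≠ 0 ∧ 0 ≤ xev x y p.1 := by
  simp only [chkR, Bool.and_eq_true, decide_eq_true_eq, List.all_eq_true] at h
  obtain ⟨⟨⟨⟨⟨⟨⟨h1, h2⟩, h3⟩, h4⟩, h5⟩, h6⟩, h7⟩, h8⟩ := h
  refine ⟨h1, ?_⟩
  have h4' : (0 : ℝ) < qx := by exact_mod_cast h4
  have h5' : (0 : ℝ) < qy := by exact_mod_cast h5
  have h6' : (n0 : ℝ) < n1 := by exact_mod_cast h6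
  have h7' : (m0 : ℝ) < m1 := by exact_mod_cast h7
  set r : ℝ := n1 - qx * x with hr
  set s : ℝ := qx * x - n0 with hs
  set r' : ℝ := m1 - qy * y with hr'
  set s' : ℝ := qy * y - m0 with hs'
  have ht : (qx : ℝ) * (r + s) * x = n0 * r + n1 * s := by rw [hr, hs]; ring
  have ht' : (qy : ℝ) * (r' + s') * y = m0 * r' + m1 * s' := by rw [hr', hs']; ring
  set e : PY → ℝ := ghev (fun c : ℤ => (c : ℝ)) r' s' Dy with he
  have hadd : ∀ a b : PY, e (yadd a b) = e a + e b :=
    fun a b => ghev_add (fun a b => by push_cast; ring) r' s' Dy a b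
  have hsm : ∀ (c : ℤ) (a : PY), e (ysm c a) = c * e a :=
    fun c a => ghev_map r' s' (fun a => by push_cast; ring) Dy a
  have hz : e [] = 0 := by simp [he, ghev]
  have k1 := ghev_hom (e := e) (z := []) hadd hsm hz ht Dx
    (p.1.map (ghom (· + ·) (· * ·) 0 qy m0 m1 Dy)) (by simpa using h2)
  have k2 : ∀ l : PXY, (∀ a ∈ l, a.length ≤ Dy + 1) →
      gev e x (l.map (ghom (· + ·) (· * ·) 0 qy m0 m1 Dy)) =
        (qy * (r' + s')) ^ Dy * gev (yev y) x l := by
    intro l
    induction l with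
    | nil => intro _; simp [gev]
    | cons a l ih =>
      intro hl
      have k3 := ih fun b hb => hl b (by simp [hb])
      have k4 := ghev_hom (e := fun c : ℤ => (c : ℝ)) (ad := (· + ·)) (sm := (· * ·)) (z := 0)
        (fun a b => by push_cast; ring) (fun a b => by push_cast; ring) (by simp) ht' Dy a
        (hl a (by simp))
      rw [List.map_cons, gev, k3, gev]
      simp only [he, k4, yev]
      ring
  rw [k2 p.1 h3] at k1
  have k5 : 0 ≤ ghev e r s Dx (ghom yadd ysm [] qx n0 n1 Dx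
      (p.1.map (ghom (· + ·) (· * ·) 0 qy m0 m1 Dy))) := by
    refine ghev_nonneg (by rw [hr]; linarith) (by rw [hs]; linarith) Dx _ fun a ha => ?_
    refine ghev_nonneg (by rw [hr']; linarith) (by rw [hs']; linarith) Dy _ fun c hc => ?_
    exact_mod_cast h8 a ha c hc
  have hrs : 0 < r + s := by rw [hr, hs]; linarith
  have hrs' : 0 < r' + s' := by rw [hr', hs']; linarith
  have k6 : 0 < ((qx : ℝ) * (r + s)) ^ Dx := by positivity
  have k7 : 0 < ((qy : ℝ) * (r' + s')) ^ Dy := by positivity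
  rw [k1, ← mul_assoc] at k5
  exact nonneg_of_mul_nonneg_right k5 (by positivity)

/-- the check for an expression -/
def chk (E : PE) (qx n0 n1 qy m0 m1 : ℤ) (Dx Dy : ℕ) : Bool :=
  chkR E.nd qx n0 n1 qy m0 m1 Dx Dy

theorem chk_sound {x y : ℝ} {E : PE} {qx n0 n1 qy m0 m1 : ℤ} {Dx Dy : ℕ}
    (h : chk E qx n0 n1 qy m0 m1 Dx Dy = true) (hx0 : (n0 : ℝ) ≤ qx * x) (hx1 : qx * x ≤ n1)
    (hy0 : (m0 : ℝ) ≤ qy * y) (hy1 : qy * y ≤ m1) : 0 ≤ E.ev x y := by
  obtain ⟨h1, h2⟩ := chkR_sound h hx0 hx1 hy0 hy1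
  have h3 := nd_sound x y E h1
  rw [← h3] at h2
  have h4 : (0 : ℝ) < E.nd.2 := by exact_mod_cast Nat.pos_of_ne_zero h1
  exact nonneg_of_mul_nonneg_left h2 h4

end Pool.Agent.RRS.PB
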