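import Pool.Agent.RRS.Symm

/-!
# Certificates which depend on the norms only

`F R` is a multiplier which depends on the norm `R` of the point only, and the multiplier of the
optimality of the location is `g R p = g₀ R + g₁ R * p + g₂ R * t`.  The mean scalar products `p` are
free: the distance is bounded by `w t ≤ w² / (2 u) + u t² / 2`, and `t² = 1 - 2 p + R²`.
-/

set_option autoImplicit false

noncomputable section

namespace Pool.Agent.RRS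

open Real

/-- the multiplier `g` -/
def gR (g0 g1 g2 : ℝ → ℝ) (R p : ℝ) : ℝ := g0 R + g1 R * p + g2 R * tt R p

/-- the condition for a pair of norms, at the angle `θ`, with the scalar product `c` -/
def RPair (F : ℝ → ℝ → ℝ → ℝ) (g0 g1 g2 : ℝ → ℝ) (Rj Rk θ c : ℝ) : Prop :=
  ∃ (α u v : ℝ) (H : ℝ → ℝ → ℝ), 0 < u ∧ 0 < v ∧ HomBd H ∧
    PW (F Rj) (F Rk) α (u + c * g1 Rj) (v + c * g1 Rk) H ∧
    (1 - g2 Rj * c) ^ 2 / (2 * u) + u * (1 + Rj ^ 2) / 2 +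
      ((1 - g2 Rk * c) ^ 2 / (2 * v) + v * (1 + Rk ^ 2) / 2) + α + avgP H Rj Rk θ ≤
      √2 * (Rj + Rk) + c * (g0 Rj + g0 Rk)

/-- the bound of the distance -/
theorem w_tt_le {R p w u : ℝ} (hp : |p| ≤ R) (hu : 0 < u) :
    w * tt R p ≤ w ^ 2 / (2 * u) + u * (1 + R ^ 2) / 2 - u * p := by
  have h1 : p ^ 2 ≤ R ^ 2 := sq_le_sq' (by linarith [(abs_le.1 hp).1]) (abs_le.1 hp).2
  have h2 : tt R p ^ 2 = 1 - 2 * p + R ^ 2 :=
    Real.sq_sqrt (by nlinarith [sq_nonneg (1 - p)])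
  have h3 : 0 ≤ (w - u * tt R p) ^ 2 / (2 * u) := by positivity
  have h4 : (w - u * tt R p) ^ 2 / (2 * u) = w ^ 2 / (2 * u) - w * tt R p + u * tt R p ^ 2 / 2 := by
    field_simp
    ring
  rw [h4, h2] at h3
  linarith

/-- a good pair of norms is a good pair of types -/
theorem RPair.pairOK {F : ℝ → ℝ → ℝ → ℝ} {g0 g1 g2 : ℝ → ℝ} {Rj Rk θ c : ℝ}
    (h : RPair F g0 g1 g2 Rj Rk θ c) {pj pk : ℝ} (hj : |pj| ≤ Rj) (hk : |pk| ≤ Rk) :
    PairOK (fun R _ => F R) (gR g0 g1 g2) Rj pj Rk pk θ c := by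
  obtain ⟨α, u, v, H, hu, hv, hH, hPW, hle⟩ := h
  refine ⟨α, u + c * g1 Rj, v + c * g1 Rk, H, hH, hPW, ?_⟩
  have h1 := w_tt_le (w := 1 - g2 Rj * c) hj hu
  have h2 := w_tt_le (w := 1 - g2 Rk * c) hk hv
  unfold gR
  nlinarith [h1, h2, hle]

/-- all pairs of types are good if all pairs of norms are good -/
theorem allPairs_of_norms {F : ℝ → ℝ → ℝ → ℝ} {g0 g1 g2 : ℝ → ℝ}
    (hpos : ∀ Rj Rk θ : ℝ, 0 < Rj → Rj ≤ Rk → 0 ≤ θ → θ ≤ π → RPair F g0 g1 g2 Rj Rk θ (cos θ))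
    (hzero : ∀ Rk c : ℝ, 0 ≤ Rk → |c| ≤ 1 → RPair F g0 g1 g2 0 Rk (π / 2) c) :
    AllPairs (fun R _ => F R) (gR g0 g1 g2) := by
  refine ⟨fun Rj pj Rk pk θ hj hk pj1 pk1 _ t0 t1 => ?_, fun Rk pk c hk pk1 hc => ?_⟩
  · rcases le_total Rj Rk with h | h
    · exact (hpos Rj Rk θ hj h t0 t1).pairOK pj1 pk1
    · exact ((hpos Rk Rj θ hk h t0 t1).pairOK pk1 pj1).symm
  · exact (hzero Rk c hk hc).pairOK (by simp) pk1

end Pool.Agent.RRS
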