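import Pool.Agent.RRMG.MainG

/-!
# Scaling of the median
-/

set_option autoImplicit false

noncomputable section

namespace Pool.Agent.RRS

open Real Pool.Agent.RRM Pool.Agent.RRMG

variable {n d : ℕ}

theorem med_smul {c : ℝ} (hc : 0 < c) (a : Fin (n + 1) → ℝ) :
    med (fun i => c * a i) = c * med a := by
  have key : ∀ x : ℝ, med (fun i => c * a i) ≤ c * x ↔ c * med a ≤ c * x := by
    intro x
    rw [med_le_iff, mul_le_mul_iff_right₀ hc, med_le_iff]
    simp only [mul_le_mul_iff_right₀ hc]
  have h1 := (key (med a)).2 le_rfl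
  have h2 := (key (c⁻¹ * med fun i => c * a i)).1 (by
    rw [← mul_assoc, mul_inv_cancel₀ hc.ne', one_mul])
  rw [← mul_assoc, mul_inv_cancel₀ hc.ne', one_mul] at h2
  exact le_antisymm h1 h2

theorem Mm_smul {c : ℝ} (hc : 0 < c) (x : Fin (n + 1) → E d) (R : SO d) :
    Mm (fun i => c • x i) R = c • Mm x R := by
  unfold Mm cwm
  ext l
  simp only [act_smul, PiLp.smul_apply, smul_eq_mul]
  exact med_smul hc fun i => (act R (x i)) l

end Pool.Agent.RRS
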