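import Pool.Agent.RRS.Defs

/-!
# Symmetry of the pair inequality
-/

set_option autoImplicit false

noncomputable section

namespace Pool.Agent.RRS

open Real MeasureTheory

theorem PW.symm {F G : ℝ → ℝ → ℝ} {α β γ : ℝ} {H : ℝ → ℝ → ℝ} (h : PW F G α β γ H) :
    PW G F α γ β (fun x y => H y x) := by
  intro m x y s t hm s0 s1 t0 t1 sx xs ty yt
  have := h m y x t s hm t0 t1 s0 s1 ty yt sx xs
  linarith

theorem HomBd.symm {H : ℝ → ℝ → ℝ} (h : HomBd H) : HomBd fun x y => H y x := by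
  refine ⟨h.meas.comp measurable_swap, fun c x y => h.hom c y x, ?_⟩
  obtain ⟨C, hC⟩ := h.bd
  refine ⟨C, fun x y => ?_⟩
  have := hC y x
  rwa [add_comm (y ^ 2)] at this

theorem HomBd.even {H : ℝ → ℝ → ℝ} (h : HomBd H) (x y : ℝ) : H (-x) (-y) = H x y := by
  have := h.hom (-1) x y
  simpa using this

theorem avgP_symm (H : ℝ → ℝ → ℝ) (a b θ : ℝ) :
    avgP (fun x y => H y x) b a θ = avgP H a b θ := by
  unfold avgP
  congr 1
  obtain ⟨g, hg⟩ : ∃ g : ℝ → ℝ, g = fun φ => H (a * cos φ) (b * cos (φ - θ)) := ⟨_, rfl⟩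
  have hper : Function.Periodic g (2 * π) := by
    intro φ
    rw [hg]
    dsimp only
    rw [cos_add_two_pi, show φ + 2 * π - θ = φ - θ + 2 * π by ring, cos_add_two_pi]
  have h1 : ∀ φ : ℝ, H (a * cos (φ - θ)) (b * cos φ) = g (θ - φ) := by
    intro φ
    rw [hg]
    dsimp only
    rw [show θ - φ - θ = -φ by ring, cos_neg, ← cos_neg (φ - θ), neg_sub]
  have h2 : ∫ φ in (0 : ℝ)..(2 * π), H (a * cos (φ - θ)) (b * cos φ) =
      ∫ φ in (0 : ℝ)..(2 * π), g (θ - φ) := by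
    simp only [h1]
  have h3 : ∫ φ in (0 : ℝ)..(2 * π), H (a * cos φ) (b * cos (φ - θ)) =
      ∫ φ in (0 : ℝ)..(2 * π), g φ := by
    rw [hg]
  rw [h2, h3, intervalIntegral.integral_comp_sub_left (fun x => g x) θ]
  have e1 := hper.intervalIntegral_add_eq (θ - 2 * π) 0
  rw [show θ - 2 * π + 2 * π = θ - 0 by ring, zero_add] at e1
  exact e1

theorem PairOK.symm {F : ℝ → ℝ → ℝ → ℝ → ℝ} {g : ℝ → ℝ → ℝ} {Rj pj Rk pk θ c : ℝ}
    (h : PairOK F g Rj pj Rk pk θ c) : PairOK F g Rk pk Rj pj θ c := by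
  obtain ⟨α, β, γ, H, hH, hP, hV⟩ := h
  refine ⟨α, γ, β, fun x y => H y x, hH.symm, hP.symm, ?_⟩
  rw [avgP_symm]
  linarith

end Pool.Agent.RRS
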