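import Pool.Agent.RRS.Frame
import Pool.Agent.RRS.PlaneM
import Pool.Agent.RRS.Symm
import Pool.Agent.RRS.Scale
import Pool.Agent.RRS.Opt

/-!
# The reduction of the bound `√2` to the pair inequality

`reduction`: if `AllPairs F g` holds for some multiplier functions, then the expected cost of the
mechanism is at most `√2` times the cost of every location, in every dimension.
-/

set_option autoImplicit false

noncomputable section

namespace Pool.Agent.RRS

open MeasureTheory Matrix Pool.Agent.RRM Pool.Agent.RRMG Real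

variable {d n : ℕ}

section

variable [MeasurableSpace (SO d)] [BorelSpace (SO d)] {μ : Measure (SO d)}
  [IsProbabilityMeasure μ]

/-- the mean of a norm is at most the root mean square -/
theorem sq_int_le {f : SO d → ℝ} (hf : Continuous f) : (∫ R, f R ∂μ) ^ 2 ≤ ∫ R, f R ^ 2 ∂μ := by
  obtain ⟨D, hD⟩ : ∃ D, D = ∫ R, f R ∂μ := ⟨_, rfl⟩
  have h1 : 0 ≤ ∫ R, (f R - D) ^ 2 ∂μ := integral_nonneg fun R => sq_nonneg _
  have h2 : ∫ R, (f R - D) ^ 2 ∂μ = ∫ R, f R ^ 2 ∂μ - D ^ 2 := by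
    have e : ∀ R, (f R - D) ^ 2 = (∑ i : Fin 2, (![1, -(2 * D)] : Fin 2 → ℝ) i *
        (![fun R => f R ^ 2, f] : Fin 2 → SO d → ℝ) i R) + D ^ 2 := by
      intro R
      simp only [Fin.sum_univ_two, Matrix.cons_val_zero, Matrix.cons_val_one]
      ring
    simp only [e]
    rw [int_lin μ _ (fun i => by
      fin_cases i
      · exact hf.pow 2
      · exact hf)]
    simp only [Fin.sum_univ_two, Matrix.cons_val_zero, Matrix.cons_val_one]
    rw [← hD]
    ring
  rw [h2] at h1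
  rw [← hD]
  linarith

theorem int_norm_le_one {x : Fin (n + 1) → E d} (hκ : ∫ R, ‖Mm x R‖ ^ 2 ∂μ = 1) :
    ∫ R, ‖Mm x R‖ ∂μ ≤ 1 := by
  have h := sq_int_le (μ := μ) (continuous_Mm x).norm
  rw [hκ] at h
  have h0 : 0 ≤ ∫ R, ‖Mm x R‖ ∂μ := integral_nonneg fun R => norm_nonneg _
  nlinarith

theorem int_norm_sub_le {x : Fin (n + 1) → E d} (hκ : ∫ R, ‖Mm x R‖ ^ 2 ∂μ = 1)
    (i : Fin (n + 1)) :
    ∫ R, ‖act R (x i) - Mm x R‖ ∂μ ≤ tt ‖x i‖ (∫ R, ip x i R ∂μ) := by
  have hc : Continuous fun R => ‖act R (x i) - Mm x R‖ :=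
    ((continuous_act (x i)).sub (continuous_Mm x)).norm
  have h := sq_int_le (μ := μ) hc
  unfold tt
  refine Real.le_sqrt_of_sq_le (h.trans (le_of_eq ?_))
  have e : ∀ R, ‖act R (x i) - Mm x R‖ ^ 2 = (∑ q : Fin 2, (![-2, 1] : Fin 2 → ℝ) q *
      (![ip x i, fun R => ‖Mm x R‖ ^ 2] : Fin 2 → SO d → ℝ) q R) + ‖x i‖ ^ 2 := by
    intro R
    rw [norm_sub_sq']
    simp only [Fin.sum_univ_two, Matrix.cons_val_zero, Matrix.cons_val_one]
    ring
  simp only [e]
  rw [int_lin μ _ (fun q => by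
    fin_cases q
    · exact continuous_ip x i
    · exact (continuous_Mm x).norm.pow 2)]
  simp only [Fin.sum_univ_two, Matrix.cons_val_zero, Matrix.cons_val_one]
  rw [hκ]
  ring

/-- the linear combination of two scalar products -/
theorem comb_sq_le {x : Fin (n + 1) → E d} (hκ : ∫ R, ‖Mm x R‖ ^ 2 ∂μ = 1)
    (j k : Fin (n + 1)) (a b : ℝ) :
    (a * (∫ R, ip x j R ∂μ) + b * ∫ R, ip x k R ∂μ) ^ 2 ≤ ‖a • x j + b • x k‖ ^ 2 := by
  obtain ⟨z, hz⟩ : ∃ z, z = a • x j + b • x k := ⟨_, rfl⟩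
  rw [← hz]
  have hadd : ∀ R : SO d, act R z = a • act R (x j) + b • act R (x k) := by
    intro R
    rw [hz, ← act_smul, ← act_smul]
    unfold act
    rw [WithLp.ofLp_add, Matrix.mulVec_add, WithLp.toLp_add]
  have e1 : ∀ R, (∑ q : Fin 2, (![a, b] : Fin 2 → ℝ) q *
      (![ip x j, ip x k] : Fin 2 → SO d → ℝ) q R) + 0 = ∑ l, (act R z) l * (Mm x R) l := by
    intro R
    simp only [Fin.sum_univ_two, Matrix.cons_val_zero, Matrix.cons_val_one, add_zero]
    unfold ip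
    rw [Finset.mul_sum, Finset.mul_sum, ← Finset.sum_add_distrib]
    refine Finset.sum_congr rfl fun l _ => ?_
    rw [hadd]
    simp only [PiLp.add_apply, PiLp.smul_apply, smul_eq_mul]
    ring
  have hf : ∀ q, Continuous ((![ip x j, ip x k] : Fin 2 → SO d → ℝ) q) := by
    intro q
    fin_cases q
    · exact continuous_ip x j
    · exact continuous_ip x k
  have e2 := int_lin μ _ hf ![a, b] 0
  simp only [e1] at e2
  simp only [Fin.sum_univ_two, Matrix.cons_val_zero, Matrix.cons_val_one, add_zero] at e2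
  rw [← e2]
  have hc : Continuous fun R : SO d => ∑ l, (act R z) l * (Mm x R) l :=
    continuous_finsetSum _ fun l _ => (continuous_coord z l).mul (continuous_Mml x l)
  have h1 : |∫ R, ∑ l, (act R z) l * (Mm x R) l ∂μ| ≤ ‖z‖ * 1 := by
    have h2 : |∫ R, ∑ l, (act R z) l * (Mm x R) l ∂μ| ≤
        ∫ R, |∑ l, (act R z) l * (Mm x R) l| ∂μ := abs_integral_le_integral_abs
    have h3 : ∫ R, |∑ l, (act R z) l * (Mm x R) l| ∂μ ≤ ∫ R, ‖z‖ * ‖Mm x R‖ ∂μ := by
      refine integral_mono (int_cont μ hc.abs)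
        ((int_cont μ (continuous_Mm x).norm).const_mul _) fun R => ?_
      refine (Finset.abs_sum_le_sum_abs _ _).trans ?_
      have := sum_abs_le (act R z) (Mm x R)
      rwa [norm_act] at this
    rw [integral_const_mul] at h3
    exact (h2.trans h3).trans (mul_le_mul_of_nonneg_left (int_norm_le_one hκ) (norm_nonneg _))
  rw [mul_one] at h1
  exact sq_le_sq' (by linarith [(abs_le.1 h1).1]) (abs_le.1 h1).2

theorem core (hμ : ∀ Q : SO d, μ.map (fun R => Q * R) = μ) {F : ℝ → ℝ → ℝ → ℝ → ℝ}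
    {g : ℝ → ℝ → ℝ} (hA : AllPairs F g) (x u : Fin (n + 1) → E d)
    (hu : ∀ i, x i ≠ 0 → u i = ‖x i‖⁻¹ • x i) (hu1 : ∀ i, ‖u i‖ ≤ 1) (hu0 : ∑ i, u i = 0)
    (hκ : ∫ R, ‖Mm x R‖ ^ 2 ∂μ = 1) :
    ∑ i, ∫ R, ‖act R (x i) - Mm x R‖ ∂μ ≤ √2 * ∑ i, ‖x i‖ := by
  obtain ⟨P, hP⟩ : ∃ P : Fin (n + 1) → ℝ, P = fun i => ∫ R, ip x i R ∂μ := ⟨_, rfl⟩
  have hPi : ∀ i, ∫ R, ip x i R ∂μ = P i := fun i => by rw [hP]
  have hPabs : ∀ i, |P i| ≤ ‖x i‖ := by
    intro i
    have h := comb_sq_le hκ i i 1 0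
    rw [one_mul, zero_mul, add_zero, one_smul, zero_smul, add_zero, hPi] at h
    exact abs_le_of_sq_le_sq' h (norm_nonneg _) |> fun h => abs_le.2 h
  have hc1 : ∀ j k, |inner ℝ (u j) (u k)| ≤ 1 := by
    intro j k
    refine (abs_real_inner_le_norm _ _).trans ?_
    exact mul_le_one₀ (hu1 j) (norm_nonneg _) (hu1 k)
  -- the pair inequalities
  have hOK : ∀ j k, PairOK F g ‖x j‖ (P j) ‖x k‖ (P k)
      (InnerProductGeometry.angle (x j) (x k)) (inner ℝ (u j) (u k)) := by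
    intro j k
    by_cases hj : x j = 0
    · have hPj : P j = 0 := by
        have := hPabs j
        rw [hj, norm_zero] at this
        exact abs_nonpos_iff.1 this
      rw [hj, norm_zero, hPj, InnerProductGeometry.angle_zero_left]
      exact hA.zero _ _ _ (norm_nonneg _) (hPabs k) (hc1 j k)
    by_cases hk : x k = 0
    · have hPk : P k = 0 := by
        have := hPabs k
        rw [hk, norm_zero] at this
        exact abs_nonpos_iff.1 this
      rw [hk, norm_zero, hPk, InnerProductGeometry.angle_zero_right]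
      exact (hA.zero _ _ _ (norm_nonneg _) (hPabs j) (hc1 j k)).symm
    have hcos : inner ℝ (u j) (u k) = cos (InnerProductGeometry.angle (x j) (x k)) := by
      rw [hu j hj, hu k hk, real_inner_smul_left, real_inner_smul_right,
        InnerProductGeometry.cos_angle]
      have h1 : ‖x j‖ ≠ 0 := norm_ne_zero_iff.2 hj
      have h2 : ‖x k‖ ≠ 0 := norm_ne_zero_iff.2 hk
      field_simp
    rw [hcos]
    refine hA.pos _ _ _ _ _ (norm_pos_iff.2 hj) (norm_pos_iff.2 hk) (hPabs j) (hPabs k) ?_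
      (InnerProductGeometry.angle_nonneg _ _) (InnerProductGeometry.angle_le_pi _ _)
    intro a b
    have h := comb_sq_le hκ j k a b
    rw [hPi, hPi] at h
    refine h.trans (le_of_eq ?_)
    rw [@norm_add_sq_real, norm_smul, norm_smul, real_inner_smul_left, real_inner_smul_right,
      mul_pow, mul_pow, Real.norm_eq_abs, Real.norm_eq_abs, sq_abs, sq_abs,
      ← InnerProductGeometry.cos_angle_mul_norm_mul_norm (x j) (x k)]
    ring
  choose α β γ H hH hPW hV using hOK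
  -- the inequality of the frames
  obtain ⟨G, hG⟩ : ∃ G : Fin (n + 1) → Fin (n + 1) → SO d → ℝ, G = fun j k R =>
      α j k * ‖Mm x R‖ ^ 2 + β j k * ip x j R + γ j k * ip x k R +
        ∑ l, H j k ((act R (x j)) l) ((act R (x k)) l) := ⟨_, rfl⟩
  have hfr : ∀ R : SO d, 0 ≤ ∑ j, ∑ k, G j k R := by
    intro R
    have h1 : ∀ l, 0 ≤ ∑ j, ∑ k, (α j k * (Mm x R) l ^ 2 +
        β j k * ((act R (x j)) l * (Mm x R) l) + γ j k * ((act R (x k)) l * (Mm x R) l) +
        H j k ((act R (x j)) l) ((act R (x k)) l)) := fun l =>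
      frame_PW (fun i => (act R (x i)) l) ((Mm x R) l) (card_med_le fun i => (act R (x i)) l)
        (card_le_med fun i => (act R (x i)) l) (fun j => F ‖x j‖ (P j)) α β γ H
        (fun j k => (hH j k).even) hPW
    have h2 := Finset.sum_nonneg fun l (_ : l ∈ (Finset.univ : Finset (Fin d))) => h1 l
    rw [Finset.sum_comm] at h2
    have h3 : ∀ j, ∑ l, ∑ k, (α j k * (Mm x R) l ^ 2 +
        β j k * ((act R (x j)) l * (Mm x R) l) + γ j k * ((act R (x k)) l * (Mm x R) l) +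
        H j k ((act R (x j)) l) ((act R (x k)) l)) = ∑ k, G j k R := by
      intro j
      rw [Finset.sum_comm]
      refine Finset.sum_congr rfl fun k _ => ?_
      rw [hG]
      simp only [Finset.sum_add_distrib, ← Finset.mul_sum, sum_sq]
      rfl
    rw [Finset.sum_congr rfl fun j _ => h3 j] at h2
    exact h2
  have hGint : ∀ j k, Integrable (G j k) μ ∧ ∫ R, G j k R ∂μ =
      α j k + β j k * P j + γ j k * P k +
        avgP (H j k) ‖x j‖ ‖x k‖ (InnerProductGeometry.angle (x j) (x k)) := by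
    intro j k
    have i1 : Integrable (fun R => α j k * ‖Mm x R‖ ^ 2) μ :=
      (int_cont μ ((continuous_Mm x).norm.pow 2)).const_mul _
    have i2 : Integrable (fun R => β j k * ip x j R) μ :=
      (int_cont μ (continuous_ip x j)).const_mul _
    have i3 : Integrable (fun R => γ j k * ip x k R) μ :=
      (int_cont μ (continuous_ip x k)).const_mul _
    have i4 := integrable_sum (hH j k) μ (x j) (x k)
    have i12 := i1.add i2
    have i123 := i12.add i3
    have i1234 := i123.add i4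
    refine ⟨by rw [hG]; exact i1234, ?_⟩
    rw [hG]
    dsimp only
    have s1 := integral_add i123 i4
    have s2 := integral_add i12 i3
    have s3 := integral_add i1 i2
    simp only [Pi.add_apply] at s1 s2 s3
    rw [s1, s2, s3, integral_const_mul, integral_const_mul, integral_const_mul, hκ, hPi, hPi,
      avg_meas μ hμ (hH j k), mul_one]
  have hsum : 0 ≤ ∑ j, ∑ k, (α j k + β j k * P j + γ j k * P k +
      avgP (H j k) ‖x j‖ ‖x k‖ (InnerProductGeometry.angle (x j) (x k))) := by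
    have h1 : 0 ≤ ∫ R, ∑ j, ∑ k, G j k R ∂μ := integral_nonneg hfr
    rw [integral_finsetSum _ fun j _ => integrable_finsetSum _ fun k _ => (hGint j k).1] at h1
    have h2 : ∀ j, ∫ R, ∑ k, G j k R ∂μ = ∑ k, (α j k + β j k * P j + γ j k * P k +
        avgP (H j k) ‖x j‖ ‖x k‖ (InnerProductGeometry.angle (x j) (x k))) := by
      intro j
      rw [integral_finsetSum _ fun k _ => (hGint j k).1]
      exact Finset.sum_congr rfl fun k _ => (hGint j k).2
    rw [Finset.sum_congr rfl fun j _ => h2 j] at h1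
    exact h1
  -- the sum of the pair inequalities
  have hall := Finset.sum_le_sum fun j (_ : j ∈ (Finset.univ : Finset (Fin (n + 1)))) =>
    Finset.sum_le_sum fun k (_ : k ∈ (Finset.univ : Finset (Fin (n + 1)))) => hV j k
  have hc0 : ∑ j, ∑ k, (g ‖x j‖ (P j) + g ‖x k‖ (P k)) * inner ℝ (u j) (u k) = 0 := by
    have e1 : ∀ j, ∑ k, g ‖x j‖ (P j) * inner ℝ (u j) (u k) = 0 := by
      intro j
      rw [← Finset.mul_sum, ← inner_sum, hu0, inner_zero_right, mul_zero]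
    have e2 : ∑ j, ∑ k, g ‖x k‖ (P k) * inner ℝ (u j) (u k) = 0 := by
      rw [Finset.sum_comm]
      refine Finset.sum_eq_zero fun k _ => ?_
      rw [← Finset.mul_sum, ← sum_inner, hu0, inner_zero_left, mul_zero]
    simp only [add_mul, Finset.sum_add_distrib]
    rw [e2, Finset.sum_eq_zero fun j _ => e1 j, add_zero]
  have ht : ∑ i, ∫ R, ‖act R (x i) - Mm x R‖ ∂μ ≤ ∑ i, tt ‖x i‖ (P i) := by
    refine Finset.sum_le_sum fun i _ => ?_
    have := int_norm_sub_le hκ i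
    rwa [hPi] at this
  refine ht.trans ?_
  have e3 : ∑ j, ∑ k, (tt ‖x j‖ (P j) + tt ‖x k‖ (P k) + (α j k + β j k * P j + γ j k * P k +
      avgP (H j k) ‖x j‖ ‖x k‖ (InnerProductGeometry.angle (x j) (x k)))) =
      2 * ((n + 1 : ℕ) : ℝ) * (∑ i, tt ‖x i‖ (P i)) + ∑ j, ∑ k, (α j k + β j k * P j +
        γ j k * P k + avgP (H j k) ‖x j‖ ‖x k‖ (InnerProductGeometry.angle (x j) (x k))) := by
    simp only [Finset.sum_add_distrib, Finset.sum_const, Finset.card_univ, Fintype.card_fin,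
      nsmul_eq_mul, ← Finset.mul_sum]
    ring
  have e4 : ∑ j, ∑ k, (√2 * (‖x j‖ + ‖x k‖) + (g ‖x j‖ (P j) + g ‖x k‖ (P k)) *
      inner ℝ (u j) (u k)) = 2 * ((n + 1 : ℕ) : ℝ) * (√2 * ∑ i, ‖x i‖) := by
    have e5 : ∑ j, ∑ k, (√2 * (‖x j‖ + ‖x k‖) + (g ‖x j‖ (P j) + g ‖x k‖ (P k)) *
        inner ℝ (u j) (u k)) = (∑ j : Fin (n + 1), ∑ k : Fin (n + 1), √2 * (‖x j‖ + ‖x k‖)) +
        ∑ j, ∑ k, (g ‖x j‖ (P j) + g ‖x k‖ (P k)) * inner ℝ (u j) (u k) := by
      simp only [Finset.sum_add_distrib]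
    rw [e5, hc0, add_zero]
    simp only [← Finset.mul_sum, Finset.sum_add_distrib, Finset.sum_const, Finset.card_univ,
      Fintype.card_fin, nsmul_eq_mul]
    ring
  rw [e3, e4] at hall
  have hN : 0 < 2 * ((n + 1 : ℕ) : ℝ) := by positivity
  exact le_of_mul_le_mul_left (by linarith) hN

theorem sum_bound_sqrt (hμ : ∀ Q : SO d, μ.map (fun R => Q * R) = μ)
    {F : ℝ → ℝ → ℝ → ℝ → ℝ} {g : ℝ → ℝ → ℝ} (hA : AllPairs F g) (x u : Fin (n + 1) → E d)
    (hu : ∀ i, x i ≠ 0 → u i = ‖x i‖⁻¹ • x i) (hu1 : ∀ i, ‖u i‖ ≤ 1) (hu0 : ∑ i, u i = 0) :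
    ∑ i, ∫ R, ‖act R (x i) - Mm x R‖ ∂μ ≤ √2 * ∑ i, ‖x i‖ := by
  have cM : Continuous fun R : SO d => ‖Mm x R‖ := (continuous_Mm x).norm
  have hK0 : 0 ≤ ∫ R, ‖Mm x R‖ ^ 2 ∂μ := integral_nonneg fun R => sq_nonneg _
  rcases eq_or_lt_of_le hK0 with h0 | h0
  · have h1 : (fun R => ‖Mm x R‖ ^ 2) =ᵐ[μ] 0 :=
      (integral_eq_zero_iff_of_nonneg (fun R => sq_nonneg _) (int_cont μ (cM.pow 2))).1 h0.symm
    have h2 : ∀ i, ∫ R, ‖act R (x i) - Mm x R‖ ∂μ = ‖x i‖ := by
      intro i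
      have h3 : ∫ R, ‖act R (x i) - Mm x R‖ ∂μ = ∫ _R, ‖x i‖ ∂μ := by
        refine integral_congr_ae ?_
        filter_upwards [h1] with R hR
        have h4 : Mm x R = 0 := by
          have : ‖Mm x R‖ ^ 2 = 0 := hR
          exact norm_eq_zero.1 (pow_eq_zero_iff two_ne_zero |>.1 this)
        rw [h4, sub_zero, norm_act]
      rw [h3]
      simp
    simp only [h2]
    have h5 : 0 ≤ ∑ i, ‖x i‖ := Finset.sum_nonneg fun i _ => norm_nonneg _
    have h6 : (1 : ℝ) ≤ √2 := Real.one_le_sqrt.2 (by norm_num)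
    nlinarith
  · obtain ⟨κ, hκd⟩ : ∃ κ, κ = √(∫ R, ‖Mm x R‖ ^ 2 ∂μ) := ⟨_, rfl⟩
    have hκ : 0 < κ := by rw [hκd]; exact Real.sqrt_pos.2 h0
    have hκ2 : ∫ R, ‖Mm x R‖ ^ 2 ∂μ = κ ^ 2 := by rw [hκd]; exact (Real.sq_sqrt hK0).symm
    have hκi : 0 < κ⁻¹ := inv_pos.2 hκ
    have hMm : ∀ R, Mm (fun i => κ⁻¹ • x i) R = κ⁻¹ • Mm x R := fun R => Mm_smul hκi x R
    have h1 : ∫ R, ‖Mm (fun i => κ⁻¹ • x i) R‖ ^ 2 ∂μ = 1 := by
      simp only [hMm, norm_smul, mul_pow]
      rw [integral_const_mul, hκ2, norm_inv, Real.norm_eq_abs, abs_of_pos hκ]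
      field_simp
    have h2 := core hμ hA (fun i => κ⁻¹ • x i) u (fun i hi => by
      have hx : x i ≠ 0 := fun h => hi (by rw [h, smul_zero])
      rw [hu i hx, norm_smul, norm_inv, Real.norm_eq_abs, abs_of_pos hκ, smul_smul]
      congr 1
      have : ‖x i‖ ≠ 0 := norm_ne_zero_iff.2 hx
      field_simp) hu1 hu0 h1
    have h3 : ∀ i, ∫ R, ‖act R (κ⁻¹ • x i) - Mm (fun i => κ⁻¹ • x i) R‖ ∂μ =
        κ⁻¹ * ∫ R, ‖act R (x i) - Mm x R‖ ∂μ := by
      intro i
      rw [← integral_const_mul]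
      refine integral_congr_ae (Filter.Eventually.of_forall fun R => ?_)
      dsimp only
      rw [hMm, act_smul, ← smul_sub, norm_smul, norm_inv, Real.norm_eq_abs, abs_of_pos hκ]
    have h4 : ∀ i, ‖κ⁻¹ • x i‖ = κ⁻¹ * ‖x i‖ := by
      intro i
      rw [norm_smul, norm_inv, Real.norm_eq_abs, abs_of_pos hκ]
    simp only [h3, h4, ← Finset.mul_sum] at h2
    rw [mul_left_comm] at h2
    exact le_of_mul_le_mul_left h2 hκi

end

/-- **The reduction.** -/
theorem reduction [MeasurableSpace (SO d)] [BorelSpace (SO d)] (μ : Measure (SO d))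
    [IsProbabilityMeasure μ] (hμ : ∀ Q : SO d, μ.map (fun R => Q * R) = μ)
    {F : ℝ → ℝ → ℝ → ℝ → ℝ} {g : ℝ → ℝ → ℝ} (hA : AllPairs F g)
    (p : Fin (n + 1) → E d) (y : E d) :
    Integrable (fun R => cost p (rr R p)) μ ∧ ∫ R, cost p (rr R p) ∂μ ≤ √2 * cost p y := by
  refine ⟨int_cont μ (continuous_cost p), ?_⟩
  obtain ⟨z, u, hz, hu, hu1, hu0⟩ := exists_opt p
  have e : ∀ R, cost p (rr R p) =
      ∑ i, ‖act R (p i - z) - Mm (fun i => p i - z) R‖ := fun R => cost_rr R p z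
  have cD : ∀ i, Continuous fun R : SO d => ‖act R (p i - z) - Mm (fun i => p i - z) R‖ :=
    fun i => ((continuous_act (p i - z)).sub (continuous_Mm _)).norm
  simp only [e]
  rw [integral_finsetSum _ fun i _ => int_cont μ (cD i)]
  have h1 := sum_bound_sqrt hμ hA (fun i => p i - z) u (fun i hi => hu i (sub_ne_zero.1 hi))
    hu1 hu0
  refine h1.trans ?_
  have h2 : ∑ i, ‖p i - z‖ ≤ cost p y := hz y
  exact mul_le_mul_of_nonneg_left h2 (Real.sqrt_nonneg _)

end Pool.Agent.RRS
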