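import Pool.Agent.RRS.Kappa

/-!
# Quadratic forms on sectors of the normalised angle
-/

set_option autoImplicit false

noncomputable section

namespace Pool.Agent.RRS

open Real MeasureTheory

/-- the representative in `[t0, t0 + π)` -/
def wrap (t0 τ : ℝ) : ℝ := τ - ⌊(τ - t0) / π⌋ * π

theorem wrap_mem (t0 τ : ℝ) : t0 ≤ wrap t0 τ ∧ wrap t0 τ < t0 + π := by
  have h1 := Int.floor_le ((τ - t0) / π)
  have h2 := Int.lt_floor_add_one ((τ - t0) / π)
  rw [le_div_iff₀ pi_pos] at h1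
  rw [div_lt_iff₀ pi_pos] at h2
  unfold wrap
  constructor
  · linarith
  · linarith

theorem wrap_periodic (t0 : ℝ) : Function.Periodic (wrap t0) π := by
  intro τ
  unfold wrap
  have e : (τ + π - t0) / π = (τ - t0) / π + 1 := by
    field_simp
    ring
  rw [e, Int.floor_add_one]
  push_cast
  ring

theorem wrap_eq {t0 τ : ℝ} (h1 : t0 ≤ τ) (h2 : τ < t0 + π) : wrap t0 τ = τ := by
  unfold wrap
  have e : ⌊(τ - t0) / π⌋ = 0 := by
    rw [Int.floor_eq_zero_iff]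
    constructor
    · exact div_nonneg (by linarith) pi_pos.le
    · rw [div_lt_one pi_pos]
      linarith
  rw [e]
  simp

theorem measurable_wrap (t0 : ℝ) : Measurable (wrap t0) := by
  unfold wrap
  have h1 : Measurable fun τ : ℝ => (τ - t0) / π := by fun_prop
  have h2 : Measurable fun τ : ℝ => ((⌊(τ - t0) / π⌋ : ℤ) : ℝ) :=
    (measurable_from_top (f := fun n : ℤ => (n : ℝ))).comp (Int.measurable_floor.comp h1)
  exact measurable_id.sub (h2.mul_const π)

/-- a function given on the intervals `[t i, t (i + 1))`, `i ≤ n` -/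
def pw (t : ℕ → ℝ) (f : ℕ → ℝ → ℝ) : ℕ → ℝ → ℝ
  | 0, τ => f 0 τ
  | n + 1, τ => if τ < t (n + 1) then pw t f n τ else f (n + 1) τ

theorem measurable_pw {t : ℕ → ℝ} {f : ℕ → ℝ → ℝ} (hf : ∀ i, Continuous (f i)) (n : ℕ) :
    Measurable (pw t f n) := by
  induction n with
  | zero => exact (hf 0).measurable
  | succ n ih =>
    have e : pw t f (n + 1) = fun τ => if τ < t (n + 1) then pw t f n τ else f (n + 1) τ := by
      funext τ
      rfl
    rw [e]
    exact Measurable.ite measurableSet_Iio ih (hf (n + 1)).measurable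

theorem pw_cases {t : ℕ → ℝ} (f : ℕ → ℝ → ℝ) (n : ℕ) {τ : ℝ} (h0 : t 0 ≤ τ)
    (h1 : τ < t (n + 1)) : ∃ i, i ≤ n ∧ t i ≤ τ ∧ τ < t (i + 1) ∧ pw t f n τ = f i τ := by
  induction n with
  | zero => exact ⟨0, le_rfl, h0, h1, rfl⟩
  | succ n ih =>
    by_cases h : τ < t (n + 1)
    · obtain ⟨i, hi, a, b, c⟩ := ih h
      refine ⟨i, by omega, a, b, ?_⟩
      rw [← c]
      simp [pw, h]
    · exact ⟨n + 1, le_rfl, not_lt.1 h, h1, by simp [pw, h]⟩

theorem pw_bound {t : ℕ → ℝ} {f : ℕ → ℝ → ℝ} {K : ℝ} (hK : ∀ i τ, |f i τ| ≤ K) (n : ℕ) (τ : ℝ) :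
    |pw t f n τ| ≤ K := by
  induction n with
  | zero => exact hK 0 τ
  | succ n ih =>
    unfold pw
    split_ifs
    · exact ih
    · exact hK _ _

theorem pw_intervalIntegrable {t : ℕ → ℝ} {f : ℕ → ℝ → ℝ} (hf : ∀ i, Continuous (f i)) (n : ℕ)
    {K : ℝ} (hK : ∀ i τ, |f i τ| ≤ K) (a b : ℝ) : IntervalIntegrable (pw t f n) volume a b :=
  (intervalIntegrable_const (c := K)).mono_fun' (measurable_pw hf n).aestronglyMeasurable
    (Filter.Eventually.of_forall fun τ => by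
      dsimp only
      rw [Real.norm_eq_abs]
      exact pw_bound hK n τ)

theorem integral_pw {t : ℕ → ℝ} (ht : Monotone t) {f : ℕ → ℝ → ℝ} (hf : ∀ i, Continuous (f i))
    {K : ℝ} (hK : ∀ i τ, |f i τ| ≤ K) (n : ℕ) :
    ∫ τ in (t 0)..(t (n + 1)), pw t f n τ =
      ∑ i ∈ Finset.range (n + 1), ∫ τ in (t i)..(t (i + 1)), f i τ := by
  induction n with
  | zero => simp [pw]
  | succ n ih =>
    rw [Finset.sum_range_succ, ← ih,
      ← intervalIntegral.integral_add_adjacent_intervals (b := t (n + 1))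
        (pw_intervalIntegrable hf _ hK _ _) (pw_intervalIntegrable hf _ hK _ _)]
    congr 1
    · apply intervalIntegral.integral_congr_ae
      have hne : ∀ᵐ τ : ℝ, τ ≠ t (n + 1) := by
        simp [ae_iff]
      filter_upwards [hne] with τ hτ hmem
      rw [Set.uIoc_of_le (ht (by omega))] at hmem
      have : τ < t (n + 1) := lt_of_le_of_ne hmem.2 hτ
      simp [pw, this]
    · apply intervalIntegral.integral_congr_ae
      refine Filter.Eventually.of_forall fun τ hmem => ?_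
      rw [Set.uIoc_of_le (ht (by omega))] at hmem
      have : ¬ τ < t (n + 1) := not_lt.2 hmem.1.le
      simp [pw, this]

/-- a quadratic form -/
def qf (A B C x y : ℝ) : ℝ := A * x ^ 2 + B * (x * y) + C * y ^ 2

theorem continuous_qf (A B C Rj Rk h : ℝ) :
    Continuous fun τ : ℝ => qf A B C (Rj * cos (τ + h)) (Rk * cos (τ - h)) := by
  unfold qf
  fun_prop

theorem qf_bound (A B C Rj Rk h τ : ℝ) :
    |qf A B C (Rj * cos (τ + h)) (Rk * cos (τ - h))| ≤
      |A| * Rj ^ 2 + |B| * |Rj * Rk| + |C| * Rk ^ 2 := by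
  have c1 := abs_cos_le_one (τ + h)
  have c2 := abs_cos_le_one (τ - h)
  unfold qf
  refine (abs_add_le _ _).trans (add_le_add ((abs_add_le _ _).trans (add_le_add ?_ ?_)) ?_)
  · rw [abs_mul, abs_of_nonneg (sq_nonneg (Rj * cos (τ + h)))]
    refine mul_le_mul_of_nonneg_left ?_ (abs_nonneg _)
    rw [mul_pow]
    have : cos (τ + h) ^ 2 ≤ 1 := cos_sq_le_one _
    nlinarith [sq_nonneg Rj]
  · rw [abs_mul]
    refine mul_le_mul_of_nonneg_left ?_ (abs_nonneg _)
    rw [show Rj * cos (τ + h) * (Rk * cos (τ - h)) = Rj * Rk * (cos (τ + h) * cos (τ - h)) by ring,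
      abs_mul]
    have : |cos (τ + h) * cos (τ - h)| ≤ 1 := by
      rw [abs_mul]
      exact mul_le_one₀ c1 (abs_nonneg _) c2
    nlinarith [abs_nonneg (Rj * Rk)]
  · rw [abs_mul, abs_of_nonneg (sq_nonneg (Rk * cos (τ - h)))]
    refine mul_le_mul_of_nonneg_left ?_ (abs_nonneg _)
    rw [mul_pow]
    have : cos (τ - h) ^ 2 ≤ 1 := cos_sq_le_one _
    nlinarith [sq_nonneg Rk]

/-- the integral of a product of cosines -/
theorem integral_cc (p q a b : ℝ) : ∫ τ in a..b, cos (τ + p) * cos (τ + q) =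
    (b - a) * cos (p - q) / 2 + (sin (2 * b + p + q) - sin (2 * a + p + q)) / 4 := by
  have e : ∀ τ : ℝ, cos (τ + p) * cos (τ + q) =
      cos (p - q) / 2 + cos (2 * τ + p + q) / 2 := by
    intro τ
    have h1 : cos (2 * τ + p + q) = cos (τ + p) * cos (τ + q) - sin (τ + p) * sin (τ + q) := by
      rw [← cos_add]
      ring_nf
    have h2 : cos (p - q) = cos (τ + p) * cos (τ + q) + sin (τ + p) * sin (τ + q) := by
      rw [← cos_sub]
      ring_nf
    rw [h1, h2]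
    ring
  have hd : ∀ τ : ℝ, HasDerivAt (fun τ : ℝ => τ * (cos (p - q) / 2) + sin (2 * τ + p + q) / 4)
      (cos (p - q) / 2 + cos (2 * τ + p + q) / 2) τ := by
    intro τ
    have h1 : HasDerivAt (fun τ : ℝ => 2 * τ + p + q) 2 τ := by
      simpa using (((hasDerivAt_id τ).const_mul 2).add_const p).add_const q
    have h2 := (h1.sin.div_const 4)
    have h3 := ((hasDerivAt_id τ).mul_const (cos (p - q) / 2)).add h2
    exact h3.congr_deriv (by ring)
  simp only [e]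
  rw [intervalIntegral.integral_eq_sub_of_hasDerivAt (fun τ _ => hd τ)
    (by apply Continuous.intervalIntegrable; fun_prop)]
  ring

/-- the integral of a quadratic form over a sector -/
def secInt (A B C Rj Rk θ a b : ℝ) : ℝ :=
  A * Rj ^ 2 * ((b - a) / 2 + (sin (2 * b + θ) - sin (2 * a + θ)) / 4) +
    B * (Rj * Rk) * ((b - a) * cos θ / 2 + (sin (2 * b) - sin (2 * a)) / 4) +
    C * Rk ^ 2 * ((b - a) / 2 + (sin (2 * b - θ) - sin (2 * a - θ)) / 4)

theorem integral_qf (A B C Rj Rk θ a b : ℝ) :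
    ∫ τ in a..b, qf A B C (Rj * cos (τ + θ / 2)) (Rk * cos (τ - θ / 2)) =
      secInt A B C Rj Rk θ a b := by
  have e : ∀ τ : ℝ, qf A B C (Rj * cos (τ + θ / 2)) (Rk * cos (τ - θ / 2)) =
      A * Rj ^ 2 * (cos (τ + θ / 2) * cos (τ + θ / 2)) +
        B * (Rj * Rk) * (cos (τ + θ / 2) * cos (τ + -(θ / 2))) +
        C * Rk ^ 2 * (cos (τ + -(θ / 2)) * cos (τ + -(θ / 2))) := by
    intro τ
    unfold qf
    rw [← sub_eq_add_neg]
    ring
  simp only [e]
  rw [intervalIntegral.integral_add, intervalIntegral.integral_add,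
    intervalIntegral.integral_const_mul, intervalIntegral.integral_const_mul,
    intervalIntegral.integral_const_mul, integral_cc, integral_cc, integral_cc]
  · unfold secInt
    have a1 : θ / 2 - θ / 2 = 0 := by ring
    have a2 : θ / 2 - -(θ / 2) = θ := by ring
    have a3 : -(θ / 2) - -(θ / 2) = 0 := by ring
    have a4 : ∀ z : ℝ, 2 * z + θ / 2 + θ / 2 = 2 * z + θ := fun z => by ring
    have a5 : ∀ z : ℝ, 2 * z + θ / 2 + -(θ / 2) = 2 * z := fun z => by ring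
    have a6 : ∀ z : ℝ, 2 * z + -(θ / 2) + -(θ / 2) = 2 * z - θ := fun z => by ring
    rw [a1, a2, a3, a4, a4, a5, a5, a6, a6, cos_zero]
    ring
  all_goals apply Continuous.intervalIntegrable; fun_prop

/-- **the pair inequality from quadratic forms on sectors** -/
theorem RPair_of_sectors {F : ℝ → ℝ → ℝ → ℝ} {g0 g1 g2 : ℝ → ℝ} {Rj Rk θ : ℝ} (hj : 0 < Rj)
    (hk : 0 < Rk) (h0 : 0 < θ) (hπ : θ < π) (hFj : Hom2 (F Rj)) (hFk : Hom2 (F Rk))
    (n : ℕ) (t : ℕ → ℝ) (ht : Monotone t) (htn : t (n + 1) = t 0 + π) (A B C : ℕ → ℝ)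
    (hb : ∃ M, ∀ i, |A i| ≤ M ∧ |B i| ≤ M ∧ |C i| ≤ M) {α u v : ℝ} (hu : 0 < u) (hv : 0 < v)
    (hz : PWat (F Rj) (F Rk) α (u + cos θ * g1 Rj) (v + cos θ * g1 Rk) 0 0 0)
    (hP : ∀ i τ, i ≤ n → t i ≤ τ → τ < t (i + 1) →
      PWat (F Rj) (F Rk) α (u + cos θ * g1 Rj) (v + cos θ * g1 Rk) (Rj * cos (τ + θ / 2))
        (Rk * cos (τ - θ / 2))
        (qf (A i) (B i) (C i) (Rj * cos (τ + θ / 2)) (Rk * cos (τ - θ / 2))) ∧
      PWat (F Rj) (F Rk) α (u + cos θ * g1 Rj) (v + cos θ * g1 Rk) (-(Rj * cos (τ + θ / 2)))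
        (-(Rk * cos (τ - θ / 2)))
        (qf (A i) (B i) (C i) (Rj * cos (τ + θ / 2)) (Rk * cos (τ - θ / 2))))
    (hle : (1 - g2 Rj * cos θ) ^ 2 / (2 * u) + u * (1 + Rj ^ 2) / 2 +
      ((1 - g2 Rk * cos θ) ^ 2 / (2 * v) + v * (1 + Rk ^ 2) / 2) + α +
        2 / π * ∑ i ∈ Finset.range (n + 1), secInt (A i) (B i) (C i) Rj Rk θ (t i) (t (i + 1)) ≤
      √2 * (Rj + Rk) + cos θ * (g0 Rj + g0 Rk)) :
    RPair F g0 g1 g2 Rj Rk θ (cos θ) := by
  obtain ⟨M, hM⟩ := hb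
  obtain ⟨f, hf⟩ : ∃ f : ℕ → ℝ → ℝ, f = fun i τ =>
    qf (A i) (B i) (C i) (Rj * cos (τ + θ / 2)) (Rk * cos (τ - θ / 2)) := ⟨_, rfl⟩
  have hfc : ∀ i, Continuous (f i) := by
    intro i
    rw [hf]
    exact continuous_qf _ _ _ _ _ _
  have hfb : ∀ i τ, |f i τ| ≤ M * Rj ^ 2 + M * |Rj * Rk| + M * Rk ^ 2 := by
    intro i τ
    rw [hf]
    refine (qf_bound _ _ _ _ _ _ _).trans ?_
    obtain ⟨a1, a2, a3⟩ := hM i
    gcongr
  refine RPair_of_kappa hj hk h0 hπ hFj hFk (κ := fun τ => pw t f n (wrap (t 0) τ)) ?_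
    ((measurable_pw hfc n).comp (measurable_wrap _))
    (K := M * Rj ^ 2 + M * |Rj * Rk| + M * Rk ^ 2) (fun τ => pw_bound hfb n _) (t 0) hu hv hz ?_ ?_
  · intro τ
    change pw t f n (wrap (t 0) (τ + π)) = pw t f n (wrap (t 0) τ)
    rw [wrap_periodic]
  · intro τ a1 a2
    rw [wrap_eq a1 a2]
    obtain ⟨i, hi, b1, b2, b3⟩ := pw_cases f n a1 (by rw [htn]; exact a2)
    rw [b3, hf]
    exact hP i τ hi b1 b2
  · have e1 : ∫ τ in (t 0)..(t 0 + π), pw t f n (wrap (t 0) τ) =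
        ∫ τ in (t 0)..(t 0 + π), pw t f n τ := by
      apply intervalIntegral.integral_congr_ae
      have hne : ∀ᵐ τ : ℝ, τ ≠ t 0 + π := by simp [ae_iff]
      filter_upwards [hne] with τ hτ hmem
      rw [Set.uIoc_of_le (by linarith [pi_pos])] at hmem
      rw [wrap_eq hmem.1.le (lt_of_le_of_ne hmem.2 hτ)]
    have e2 := integral_pw ht hfc hfb n
    rw [htn] at e2
    rw [e1, e2]
    have e3 : ∀ i, ∫ τ in (t i)..(t (i + 1)), f i τ =
        secInt (A i) (B i) (C i) Rj Rk θ (t i) (t (i + 1)) := by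
      intro i
      rw [hf]
      exact integral_qf _ _ _ _ _ _ _ _
    simp only [e3]
    exact hle

end Pool.Agent.RRS
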