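import Pool.Agent.RRS.Sectors2
import Pool.Agent.RRS.Cells

/-!
# Six sectors

`T = π / 2 - θ / 2`.  The breakpoints of the normalised angle are `-T, -T/2, 0, T/2, T, π/2, T + θ`:
four sectors with coordinates of the same sign, two with opposite signs.  The rays which separate
them are `(y / Rk) / (x / Rj) = 0, 1/ρ, 1, ρ, ∞, 1, 0` with `ρ = 1 + 2 sin (θ / 2)`.
-/

set_option autoImplicit false

noncomputable section

namespace Pool.Agent.RRS

open Real MeasureTheory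

/-- the breakpoints -/
def t6 (θ : ℝ) : ℕ → ℝ
  | 0 => -(π / 2 - θ / 2)
  | 1 => -(π / 2 - θ / 2) / 2
  | 2 => 0
  | 3 => (π / 2 - θ / 2) / 2
  | 4 => π / 2 - θ / 2
  | 5 => π / 2
  | _ => π / 2 + θ / 2

theorem t6_mono {θ : ℝ} (h0 : 0 < θ) (hπ : θ < π) : Monotone (t6 θ) := by
  refine monotone_nat_of_le_succ fun n => ?_
  match n with
  | 0 => simp only [t6]; linarith
  | 1 => simp only [t6]; linarith
  | 2 => simp only [t6]; linarith
  | 3 => simp only [t6]; linarith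
  | 4 => simp only [t6]; linarith
  | 5 => simp only [t6]; linarith
  | n + 6 => simp only [t6]; exact le_rfl

/-- the ratio of the outer rays -/
def rho (θ : ℝ) : ℝ := 1 + 2 * sin (θ / 2)

/-- `cos (T/2 - h) = ρ cos (T/2 + h)` -/
theorem rho_eq (θ : ℝ) : cos ((π / 2 - θ / 2) / 2 - θ / 2) =
    rho θ * cos ((π / 2 - θ / 2) / 2 + θ / 2) := by
  obtain ⟨q, rfl⟩ : ∃ q, θ = 4 * q := ⟨θ / 4, by ring⟩
  have e1 : (π / 2 - 4 * q / 2) / 2 - 4 * q / 2 = π / 4 - 3 * q := by ring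
  have e2 : (π / 2 - 4 * q / 2) / 2 + 4 * q / 2 = π / 4 + q := by ring
  have e3 : 4 * q / 2 = 2 * q := by ring
  unfold rho
  rw [e1, e2, e3, cos_sub, cos_add, cos_three_mul, sin_three_mul, sin_two_mul, cos_pi_div_four,
    sin_pi_div_four]
  have h := sin_sq_add_cos_sq q
  have h2 : √2 * √2 = 2 := Real.mul_self_sqrt (by norm_num)
  have hs : sin q ^ 2 = 1 - cos q ^ 2 := by linarith
  have hs3 : sin q ^ 3 = sin q * (1 - cos q ^ 2) := by rw [← hs]; ring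
  have key : √2 / 2 * (4 * cos q ^ 3 - 3 * cos q) + √2 / 2 * (3 * sin q - 4 * sin q ^ 3) -
      (1 + 2 * (2 * sin q * cos q)) * (√2 / 2 * cos q - √2 / 2 * sin q) =
      √2 / 2 * (4 * cos q ^ 3 - 4 * cos q + 4 * sin q ^ 2 * cos q + 4 * sin q - 4 * sin q ^ 3 -
        4 * sin q * cos q ^ 2) := by ring
  have key2 : 4 * cos q ^ 3 - 4 * cos q + 4 * sin q ^ 2 * cos q + 4 * sin q - 4 * sin q ^ 3 -
        4 * sin q * cos q ^ 2 = 0 := by
    rw [hs3, hs]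
    ring
  rw [key2, mul_zero] at key
  linarith

/-- the value along the circle -/
theorem sector_id (τ t h : ℝ) :
    cos (τ + h) * cos (t - h) - cos (τ - h) * cos (t + h) = -(sin (τ - t) * sin (2 * h)) := by
  rw [sin_two_mul, sin_sub, cos_add, cos_sub, cos_add, cos_sub]
  have h1 := sin_sq_add_cos_sq h
  ring_nf

/-- conditions for a pair of absolute values (divided by the norms) in the sector -/
def Cone6 (ρ : ℝ) (i : ℕ) (a b : ℝ) : Prop :=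
  match i with
  | 0 => ρ * b ≤ a
  | 1 => b ≤ a ∧ a ≤ ρ * b
  | 2 => a ≤ b ∧ b ≤ ρ * a
  | 3 => ρ * a ≤ b
  | 4 => a ≤ b
  | _ => b ≤ a

theorem rho_ge {θ : ℝ} (h0 : 0 < θ) (hπ : θ < π) : 1 ≤ rho θ := by
  have := sin_pos_of_pos_of_lt_pi (by linarith : 0 < θ / 2) (by linarith)
  unfold rho
  linarith

/-- the same sign sectors -/
theorem cone_same {θ τ : ℝ} (h0 : 0 < θ) (hπ : θ < π) {i : ℕ} (hi : i < 4)
    (h1 : t6 θ i ≤ τ) (h2 : τ ≤ t6 θ (i + 1)) :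
    0 ≤ cos (τ + θ / 2) ∧ 0 ≤ cos (τ - θ / 2) ∧
      Cone6 (rho θ) i (cos (τ + θ / 2)) (cos (τ - θ / 2)) := by
  have ht0 : -(π / 2 - θ / 2) ≤ τ := by
    have := (t6_mono h0 hπ) (Nat.zero_le i)
    simp only [t6] at this h1 ⊢
    linarith
  have ht4 : τ ≤ π / 2 - θ / 2 := by
    have h4 := (t6_mono h0 hπ) (show i + 1 ≤ 4 by omega)
    have e4 : t6 θ 4 = π / 2 - θ / 2 := rfl
    linarith
  have hs : 0 < sin (2 * (θ / 2)) := sin_pos_of_pos_of_lt_pi (by linarith) (by linarith)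
  have hsh : 0 < sin (θ / 2) := sin_pos_of_pos_of_lt_pi (by linarith) (by linarith)
  have c1 : 0 < cos ((π / 2 - θ / 2) / 2 + θ / 2) :=
    cos_pos_of_mem_Ioo ⟨by linarith, by linarith⟩
  refine ⟨cos_nonneg_of_mem_Icc ⟨by linarith, by linarith⟩,
    cos_nonneg_of_mem_Icc ⟨by linarith, by linarith⟩, ?_⟩
  have hdiff : cos (τ + θ / 2) - cos (τ - θ / 2) = -(2 * sin τ * sin (θ / 2)) := by
    rw [cos_add, cos_sub]
    ring
  have hlo : τ ≤ -(π / 2 - θ / 2) / 2 → rho θ * cos (τ - θ / 2) ≤ cos (τ + θ / 2) := by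
    intro h
    have e := sector_id τ (-(π / 2 - θ / 2) / 2) (θ / 2)
    have e1 : cos (-(π / 2 - θ / 2) / 2 - θ / 2) = cos ((π / 2 - θ / 2) / 2 + θ / 2) := by
      rw [← cos_neg]
      ring_nf
    have e2 : cos (-(π / 2 - θ / 2) / 2 + θ / 2) = rho θ * cos ((π / 2 - θ / 2) / 2 + θ / 2) := by
      rw [← rho_eq, ← cos_neg]
      ring_nf
    have hsin : sin (τ - -(π / 2 - θ / 2) / 2) ≤ 0 :=
      sin_nonpos_of_nonpos_of_neg_pi_le (by linarith) (by linarith)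
    rw [e1, e2] at e
    have : 0 ≤ (cos (τ + θ / 2) - rho θ * cos (τ - θ / 2)) *
        cos ((π / 2 - θ / 2) / 2 + θ / 2) := by
      have : 0 ≤ -(sin (τ - -(π / 2 - θ / 2) / 2) * sin (2 * (θ / 2))) := by
        nlinarith
      linarith
    have := nonneg_of_mul_nonneg_left this c1
    linarith
  have hlo' : -(π / 2 - θ / 2) / 2 ≤ τ → cos (τ + θ / 2) ≤ rho θ * cos (τ - θ / 2) := by
    intro h
    have e := sector_id τ (-(π / 2 - θ / 2) / 2) (θ / 2)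
    have e1 : cos (-(π / 2 - θ / 2) / 2 - θ / 2) = cos ((π / 2 - θ / 2) / 2 + θ / 2) := by
      rw [← cos_neg]
      ring_nf
    have e2 : cos (-(π / 2 - θ / 2) / 2 + θ / 2) = rho θ * cos ((π / 2 - θ / 2) / 2 + θ / 2) := by
      rw [← rho_eq, ← cos_neg]
      ring_nf
    have hsin : 0 ≤ sin (τ - -(π / 2 - θ / 2) / 2) :=
      sin_nonneg_of_nonneg_of_le_pi (by linarith) (by linarith)
    rw [e1, e2] at e
    have : 0 ≤ (rho θ * cos (τ - θ / 2) - cos (τ + θ / 2)) *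
        cos ((π / 2 - θ / 2) / 2 + θ / 2) := by
      have : 0 ≤ sin (τ - -(π / 2 - θ / 2) / 2) * sin (2 * (θ / 2)) := by positivity
      linarith
    have := nonneg_of_mul_nonneg_left this c1
    linarith
  have hhi : (π / 2 - θ / 2) / 2 ≤ τ → rho θ * cos (τ + θ / 2) ≤ cos (τ - θ / 2) := by
    intro h
    have e := sector_id τ ((π / 2 - θ / 2) / 2) (θ / 2)
    rw [rho_eq] at e
    have hsin : 0 ≤ sin (τ - (π / 2 - θ / 2) / 2) :=
      sin_nonneg_of_nonneg_of_le_pi (by linarith) (by linarith)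
    have : 0 ≤ (cos (τ - θ / 2) - rho θ * cos (τ + θ / 2)) *
        cos ((π / 2 - θ / 2) / 2 + θ / 2) := by
      have : 0 ≤ sin (τ - (π / 2 - θ / 2) / 2) * sin (2 * (θ / 2)) := by positivity
      linarith
    have := nonneg_of_mul_nonneg_left this c1
    linarith
  have hhi' : τ ≤ (π / 2 - θ / 2) / 2 → cos (τ - θ / 2) ≤ rho θ * cos (τ + θ / 2) := by
    intro h
    have e := sector_id τ ((π / 2 - θ / 2) / 2) (θ / 2)
    rw [rho_eq] at e
    have hsin : sin (τ - (π / 2 - θ / 2) / 2) ≤ 0 :=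
      sin_nonpos_of_nonpos_of_neg_pi_le (by linarith) (by linarith)
    have : 0 ≤ (rho θ * cos (τ + θ / 2) - cos (τ - θ / 2)) *
        cos ((π / 2 - θ / 2) / 2 + θ / 2) := by
      have : 0 ≤ -(sin (τ - (π / 2 - θ / 2) / 2) * sin (2 * (θ / 2))) := by nlinarith
      linarith
    have := nonneg_of_mul_nonneg_left this c1
    linarith
  have hneg : τ ≤ 0 → cos (τ - θ / 2) ≤ cos (τ + θ / 2) := by
    intro h
    have : sin τ ≤ 0 := sin_nonpos_of_nonpos_of_neg_pi_le h (by linarith)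
    nlinarith
  have hpos : 0 ≤ τ → cos (τ + θ / 2) ≤ cos (τ - θ / 2) := by
    intro h
    have : 0 ≤ sin τ := sin_nonneg_of_nonneg_of_le_pi h (by linarith)
    nlinarith
  match i with
  | 0 =>
    simp only [t6] at h1 h2
    exact hlo h2
  | 1 =>
    simp only [t6] at h1 h2
    exact ⟨hneg h2, hlo' h1⟩
  | 2 =>
    simp only [t6] at h1 h2
    exact ⟨hpos h1, hhi' h2⟩
  | 3 =>
    simp only [t6] at h1 h2
    exact hhi h1
  | n + 4 => omega

/-- the opposite sectors -/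
theorem cone_opp {θ τ : ℝ} (h0 : 0 < θ) (hπ : θ < π) {i : ℕ} (hi : i = 4 ∨ i = 5)
    (h1 : t6 θ i ≤ τ) (h2 : τ ≤ t6 θ (i + 1)) :
    cos (τ + θ / 2) ≤ 0 ∧ 0 ≤ cos (τ - θ / 2) ∧
      Cone6 (rho θ) i (-cos (τ + θ / 2)) (cos (τ - θ / 2)) := by
  have hc : 0 < cos (θ / 2) := cos_pos_of_mem_Ioo ⟨by linarith, by linarith⟩
  have hsum : cos (τ + θ / 2) + cos (τ - θ / 2) = 2 * cos τ * cos (θ / 2) := by
    rw [cos_add, cos_sub]
    ring
  rcases hi with rfl | rfl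
  · simp only [t6] at h1 h2
    refine ⟨cos_nonpos_of_pi_div_two_le_of_le (by linarith) (by linarith),
      cos_nonneg_of_mem_Icc ⟨by linarith, by linarith⟩, ?_⟩
    have : 0 ≤ cos τ := cos_nonneg_of_mem_Icc ⟨by linarith, by linarith⟩
    change -cos (τ + θ / 2) ≤ cos (τ - θ / 2)
    nlinarith
  · simp only [t6] at h1 h2
    refine ⟨cos_nonpos_of_pi_div_two_le_of_le (by linarith) (by linarith),
      cos_nonneg_of_mem_Icc ⟨by linarith, by linarith⟩, ?_⟩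
    have : cos τ ≤ 0 := cos_nonpos_of_pi_div_two_le_of_le (by linarith) (by linarith)
    change cos (τ - θ / 2) ≤ -cos (τ + θ / 2)
    nlinarith

/-! ### The averages -/

def e1 (θ : ℝ) : ℝ := (π - θ) / 8 + (sin (2 * θ) - cos (3 * θ / 2)) / 4
def e2 (θ : ℝ) : ℝ := (π - θ) / 8 + (sin θ + cos (3 * θ / 2)) / 4
def e3 (θ : ℝ) : ℝ := (π - θ) / 8 + (cos (θ / 2) - sin θ) / 4
def e4 (θ : ℝ) : ℝ := (π - θ) / 8 - cos (θ / 2) / 4
def o1 (θ : ℝ) : ℝ := (θ - sin θ) / 4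
def o2 (θ : ℝ) : ℝ := (θ + sin θ - sin (2 * θ)) / 4
def m1 (θ : ℝ) : ℝ := (π - θ) * cos θ / 8 + (sin θ - cos (θ / 2)) / 4
def m2 (θ : ℝ) : ℝ := (π - θ) * cos θ / 8 + cos (θ / 2) / 4
def m3 (θ : ℝ) : ℝ := (θ * cos θ - sin θ) / 4

/-- the sum of the averages -/
def avg6 (A B C : ℕ → ℝ) (Rj Rk θ : ℝ) : ℝ :=
  Rj ^ 2 * (A 0 * e1 θ + A 1 * e2 θ + A 2 * e3 θ + A 3 * e4 θ + A 4 * o1 θ + A 5 * o2 θ) +
  Rj * Rk * ((B 0 + B 3) * m1 θ + (B 1 + B 2) * m2 θ + (B 4 + B 5) * m3 θ) +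
  Rk ^ 2 * (C 0 * e4 θ + C 1 * e3 θ + C 2 * e2 θ + C 3 * e1 θ + C 4 * o2 θ + C 5 * o1 θ)

theorem sum_secInt (A B C : ℕ → ℝ) (Rj Rk θ : ℝ) :
    ∑ i ∈ Finset.range 6, secInt (A i) (B i) (C i) Rj Rk θ (t6 θ i) (t6 θ (i + 1)) =
      avg6 A B C Rj Rk θ := by
  have s0 : sin (π / 2 - θ / 2) = cos (θ / 2) := sin_pi_div_two_sub _
  have a1 : sin (2 * -(π / 2 - θ / 2)) = -sin θ := by
    rw [show 2 * -(π / 2 - θ / 2) = -(π - θ) by ring, sin_neg, sin_pi_sub]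
  have a2 : sin (2 * (-(π / 2 - θ / 2) / 2)) = -cos (θ / 2) := by
    rw [show 2 * (-(π / 2 - θ / 2) / 2) = -(π / 2 - θ / 2) by ring, sin_neg, s0]
  have a3 : sin (2 * ((π / 2 - θ / 2) / 2)) = cos (θ / 2) := by
    rw [show 2 * ((π / 2 - θ / 2) / 2) = π / 2 - θ / 2 by ring, s0]
  have a4 : sin (2 * (π / 2 - θ / 2)) = sin θ := by
    rw [show 2 * (π / 2 - θ / 2) = π - θ by ring, sin_pi_sub]
  have a5 : sin (2 * (π / 2)) = 0 := by
    rw [show 2 * (π / 2) = π by ring, sin_pi]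
  have a6 : sin (2 * (π / 2 + θ / 2)) = -sin θ := by
    rw [show 2 * (π / 2 + θ / 2) = θ + π by ring, sin_add_pi]
  have b1 : sin (2 * -(π / 2 - θ / 2) + θ) = -sin (2 * θ) := by
    rw [show 2 * -(π / 2 - θ / 2) + θ = -(π - 2 * θ) by ring, sin_neg, sin_pi_sub]
  have b2 : sin (2 * (-(π / 2 - θ / 2) / 2) + θ) = -cos (3 * θ / 2) := by
    rw [show 2 * (-(π / 2 - θ / 2) / 2) + θ = -(π / 2 - 3 * θ / 2) by ring, sin_neg,
      sin_pi_div_two_sub]
  have b3 : sin (2 * 0 + θ) = sin θ := by simp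
  have b4 : sin (2 * ((π / 2 - θ / 2) / 2) + θ) = cos (θ / 2) := by
    rw [show 2 * ((π / 2 - θ / 2) / 2) + θ = θ / 2 + π / 2 by ring, sin_add_pi_div_two]
  have b5 : sin (2 * (π / 2 - θ / 2) + θ) = 0 := by
    rw [show 2 * (π / 2 - θ / 2) + θ = π by ring, sin_pi]
  have b6 : sin (2 * (π / 2) + θ) = -sin θ := by
    rw [show 2 * (π / 2) + θ = θ + π by ring, sin_add_pi]
  have b7 : sin (2 * (π / 2 + θ / 2) + θ) = -sin (2 * θ) := by
    rw [show 2 * (π / 2 + θ / 2) + θ = 2 * θ + π by ring, sin_add_pi]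
  have c1 : sin (2 * -(π / 2 - θ / 2) - θ) = 0 := by
    rw [show 2 * -(π / 2 - θ / 2) - θ = -π by ring, sin_neg, sin_pi, neg_zero]
  have c2 : sin (2 * (-(π / 2 - θ / 2) / 2) - θ) = -cos (θ / 2) := by
    rw [show 2 * (-(π / 2 - θ / 2) / 2) - θ = -(θ / 2 + π / 2) by ring, sin_neg,
      sin_add_pi_div_two]
  have c3 : sin (2 * 0 - θ) = -sin θ := by
    rw [show 2 * 0 - θ = -θ by ring, sin_neg]
  have c4 : sin (2 * ((π / 2 - θ / 2) / 2) - θ) = cos (3 * θ / 2) := by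
    rw [show 2 * ((π / 2 - θ / 2) / 2) - θ = π / 2 - 3 * θ / 2 by ring, sin_pi_div_two_sub]
  have c5 : sin (2 * (π / 2 - θ / 2) - θ) = sin (2 * θ) := by
    rw [show 2 * (π / 2 - θ / 2) - θ = π - 2 * θ by ring, sin_pi_sub]
  have c6 : sin (2 * (π / 2) - θ) = sin θ := by
    rw [show 2 * (π / 2) - θ = π - θ by ring, sin_pi_sub]
  have c7 : sin (2 * (π / 2 + θ / 2) - θ) = 0 := by
    rw [show 2 * (π / 2 + θ / 2) - θ = π by ring, sin_pi]
  have d3 : sin (2 * (0 : ℝ)) = 0 := by simp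
  simp only [Finset.sum_range_succ, Finset.sum_range_zero, zero_add, t6, secInt]
  rw [a1, a2, a3, a4, a5, a6, b1, b2, b3, b4, b5, b6, b7, c1, c2, c3, c4, c5, c6, c7, d3]
  unfold avg6 e1 e2 e3 e4 o1 o2 m1 m2 m3
  ring

end Pool.Agent.RRS
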