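import Pool.Agent.RRS.SlabInt

/-!
# Small angles: the pair inequality from the data of the two types
-/

set_option autoImplicit false

noncomputable section

namespace Pool.Agent.RRS

open Real MeasureTheory

theorem continuous_Dp (κ S : ℝ) {f g : ℝ → ℝ} (hf : Continuous f) (hg : Continuous g) :
    Continuous fun τ => Dp κ S (f τ) (g τ) := by
  unfold Dp
  fun_prop

/-- the mean of the positive part -/
theorem mean_Dp {a b h q S : ℝ} (ha : 0 < a) (hb : 0 < b) (h0 : 0 < h) (h1 : h < π / 2)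
    (q0 : 0 ≤ q) (q1 : q < 1) (hS : 0 ≤ S) :
    ∫ τ in (-(π / 2 - h))..(π / 2 - h), Dp (q * S / 2) S (a * cos (τ + h)) (b * cos (τ - h)) ≤
      2 * (a * b * S * (cos h ^ 4 / sin (2 * h)) * Qfr q q) := by
  have hs2 : 0 < sin (2 * h) := sin_pos_of_pos_of_lt_pi (by linarith) (by linarith)
  have hT : -(π / 2 - h) < π / 2 - h := by linarith
  obtain ⟨f, hf⟩ : ∃ f : ℝ → ℝ, f = fun τ => b * cos (τ - h) - a * cos (τ + h) := ⟨_, rfl⟩
  have hfc : Continuous f := by
    rw [hf]
    fun_prop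
  have f0 : f (-(π / 2 - h)) < 0 := by
    rw [hf]
    change b * cos (-(π / 2 - h) - h) - a * cos (-(π / 2 - h) + h) < 0
    have e1 : cos (-(π / 2 - h) - h) = 0 := by
      rw [show -(π / 2 - h) - h = -(π / 2) by ring, cos_neg, cos_pi_div_two]
    have e2 : cos (-(π / 2 - h) + h) = sin (2 * h) := by
      rw [show -(π / 2 - h) + h = -(π / 2 - 2 * h) by ring, cos_neg, cos_pi_div_two_sub]
    rw [e1, e2]
    have := mul_pos ha hs2
    linarith
  have f1 : 0 < f (π / 2 - h) := by
    rw [hf]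
    change 0 < b * cos (π / 2 - h - h) - a * cos (π / 2 - h + h)
    have e1 : cos (π / 2 - h + h) = 0 := by
      rw [sub_add_cancel, cos_pi_div_two]
    have e2 : cos (π / 2 - h - h) = sin (2 * h) := by
      rw [show π / 2 - h - h = π / 2 - 2 * h by ring, cos_pi_div_two_sub]
    rw [e1, e2]
    have := mul_pos hb hs2
    linarith
  obtain ⟨t0, ht0, ht⟩ := intermediate_value_Ioo hT.le hfc.continuousOn ⟨f0, f1⟩
  have hteq : a * cos (t0 + h) = b * cos (t0 - h) := by
    rw [hf] at ht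
    change b * cos (t0 - h) - a * cos (t0 + h) = 0 at ht
    linarith
  have hD : Continuous fun τ => Dp (q * S / 2) S (a * cos (τ + h)) (b * cos (τ - h)) :=
    continuous_Dp _ _ (by fun_prop) (by fun_prop)
  have hr := right_part ha hb h0 h1 q0 q1 hS ht0.1 ht0.2.le hteq
  have hl := right_part hb ha h0 h1 q0 q1 hS (t0 := -t0) (by linarith [ht0.2])
    (by linarith [ht0.1]) (by
      rw [show -t0 + h = -(t0 - h) by ring, show -t0 - h = -(t0 + h) by ring, cos_neg, cos_neg]
      exact hteq.symm)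
  have e : ∫ τ in (-(π / 2 - h))..t0, Dp (q * S / 2) S (a * cos (τ + h)) (b * cos (τ - h)) =
      ∫ τ in (-t0)..(π / 2 - h), Dp (q * S / 2) S (b * cos (τ + h)) (a * cos (τ - h)) := by
    have := intervalIntegral.integral_comp_neg (a := -t0) (b := π / 2 - h)
      (fun τ => Dp (q * S / 2) S (a * cos (τ + h)) (b * cos (τ - h)))
    rw [neg_neg] at this
    rw [← this]
    congr 1
    funext τ
    rw [Dp_symm, show -τ + h = -(τ - h) by ring, show -τ - h = -(τ + h) by ring, cos_neg, cos_neg]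
  rw [← intervalIntegral.integral_add_adjacent_intervals (b := t0) (hD.intervalIntegrable _ _)
    (hD.intervalIntegrable _ _), e]
  have e2 : b * a * S * (cos h ^ 4 / sin (2 * h)) * Qfr q q =
      a * b * S * (cos h ^ 4 / sin (2 * h)) * Qfr q q := by ring
  rw [e2] at hl
  linarith

/-- the function `H` -/
def HS (κ S l ηj ηk x y : ℝ) : ℝ :=
  ηj * x ^ 2 + ηk * y ^ 2 + if 0 ≤ x * y then Dp κ S |x| |y| else -(l * (x * y))

theorem Dp_zero_left {κ S y : ℝ} (hy : 0 ≤ y) : Dp κ S 0 y = 0 := by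
  unfold Dp
  rw [min_eq_left hy]
  simp

theorem Dp_le {κ S X Y : ℝ} (hκ : 0 ≤ κ) (hS : 0 ≤ S) (hX : 0 ≤ X) (hY : 0 ≤ Y) :
    Dp κ S X Y ≤ 2 * κ * (X * Y) := by
  unfold Dp
  refine max_le (by positivity) ?_
  have : 0 ≤ S * (min X Y * |X - Y|) := by
    have := le_min hX hY
    positivity
  linarith

/-- the mean of `H` -/
theorem mean_HS {a b h q S l ηj ηk : ℝ} (ha : 0 < a) (hb : 0 < b) (h0 : 0 < h) (h1 : h < π / 2)
    (q0 : 0 ≤ q) (q1 : q < 1) (hS : 0 ≤ S) :
    ∫ τ in (-(π / 2 - h))..(-(π / 2 - h) + π), HS (q * S / 2) S l ηj ηk (a * cos (τ + h))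
      (b * cos (τ - h)) ≤ (ηj * a ^ 2 + ηk * b ^ 2) * (π / 2) +
        2 * (a * b * S * (cos h ^ 4 / sin (2 * h)) * Qfr q q) +
        l * (a * b) * ((sin (2 * h) - 2 * h * cos (2 * h)) / 2) := by
  have hT : -(π / 2 - h) ≤ π / 2 - h := by linarith
  have hT2 : π / 2 - h ≤ -(π / 2 - h) + π := by linarith
  obtain ⟨f1, hf1⟩ : ∃ f : ℝ → ℝ, f = fun τ => ηj * (a * cos (τ + h)) ^ 2 +
    ηk * (b * cos (τ - h)) ^ 2 := ⟨_, rfl⟩
  have c1 : Continuous f1 := by
    rw [hf1]
    fun_prop
  have hD : Continuous fun τ => Dp (q * S / 2) S (a * cos (τ + h)) (b * cos (τ - h)) :=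
    continuous_Dp _ _ (by fun_prop) (by fun_prop)
  have i1 : ∫ τ in (-(π / 2 - h))..(π / 2 - h), HS (q * S / 2) S l ηj ηk (a * cos (τ + h))
      (b * cos (τ - h)) = ∫ τ in (-(π / 2 - h))..(π / 2 - h), (f1 τ +
        Dp (q * S / 2) S (a * cos (τ + h)) (b * cos (τ - h))) := by
    apply intervalIntegral.integral_congr
    intro τ hτ
    rw [Set.uIcc_of_le hT] at hτ
    have x0 : 0 ≤ cos (τ + h) :=
      cos_nonneg_of_mem_Icc ⟨by linarith [hτ.1], by linarith [hτ.2]⟩
    have y0 : 0 ≤ cos (τ - h) :=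
      cos_nonneg_of_mem_Icc ⟨by linarith [hτ.1], by linarith [hτ.2]⟩
    change HS _ _ _ _ _ _ _ = _
    unfold HS
    rw [if_pos (by positivity), abs_of_nonneg (by positivity), abs_of_nonneg (by positivity), hf1]
  have i2 : ∫ τ in (π / 2 - h)..(-(π / 2 - h) + π), HS (q * S / 2) S l ηj ηk (a * cos (τ + h))
      (b * cos (τ - h)) = ∫ τ in (π / 2 - h)..(-(π / 2 - h) + π), (f1 τ +
        -(l * (a * b)) * (cos (τ + h) * cos (τ + -h))) := by
    apply intervalIntegral.integral_congr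
    intro τ hτ
    rw [Set.uIcc_of_le hT2] at hτ
    have x0 : cos (τ + h) ≤ 0 :=
      cos_nonpos_of_pi_div_two_le_of_le (by linarith [hτ.1]) (by linarith [hτ.2])
    have y0 : 0 ≤ cos (τ - h) :=
      cos_nonneg_of_mem_Icc ⟨by linarith [hτ.1], by linarith [hτ.2]⟩
    change HS _ _ _ _ _ _ _ = f1 τ + -(l * (a * b)) * (cos (τ + h) * cos (τ + -h))
    unfold HS
    rw [← sub_eq_add_neg τ h]
    split_ifs with hs
    · have hz : a * cos (τ + h) * (b * cos (τ - h)) = 0 := by
        apply le_antisymm _ hs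
        have := mul_nonneg (mul_nonneg ha.le hb.le) (mul_nonneg (neg_nonneg.2 x0) y0)
        nlinarith
      have hz2 : cos (τ + h) * cos (τ - h) = 0 := by
        have : a * b * (cos (τ + h) * cos (τ - h)) = 0 := by linarith
        rcases mul_eq_zero.1 this with h' | h'
        · exact absurd h' (by positivity)
        · exact h'
      rw [hz2, mul_zero, hf1]
      have hDz : Dp (q * S / 2) S |a * cos (τ + h)| |b * cos (τ - h)| = 0 := by
        rcases mul_eq_zero.1 hz with hz | hz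
        · rw [hz, abs_zero, Dp_zero_left (abs_nonneg _)]
        · rw [hz, abs_zero, Dp_symm, Dp_zero_left (abs_nonneg _)]
      rw [hDz]
    · rw [hf1]
      ring
  have hHint : ∀ u v, IntervalIntegrable (fun τ => HS (q * S / 2) S l ηj ηk (a * cos (τ + h))
      (b * cos (τ - h))) volume u v := by
    intro u v
    have hc : Continuous fun τ => HS (q * S / 2) S l ηj ηk (a * cos (τ + h))
      (b * cos (τ - h)) := by
      unfold HS
      apply Continuous.add (by fun_prop)
      apply Continuous.if_le _ (by fun_prop) continuous_const (by fun_prop)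
      · intro τ hz
        have hz := hz.symm
        rcases mul_eq_zero.1 hz with hz' | hz'
        · rw [hz', abs_zero, Dp_zero_left (abs_nonneg _)]
          ring
        · rw [hz', abs_zero, Dp_symm, Dp_zero_left (abs_nonneg _)]
          ring
      · exact continuous_Dp _ _ (by fun_prop) (by fun_prop)
    exact hc.intervalIntegrable _ _
  rw [← intervalIntegral.integral_add_adjacent_intervals (hHint _ _) (hHint (π / 2 - h) _), i1, i2,
    intervalIntegral.integral_add (c1.intervalIntegrable _ _) (hD.intervalIntegrable _ _),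
    intervalIntegral.integral_add (c1.intervalIntegrable _ _)
      (Continuous.intervalIntegrable (by fun_prop) _ _),
    intervalIntegral.integral_const_mul, integral_cc]
  have m := mean_Dp ha hb h0 h1 q0 q1 hS
  -- the squares
  have sq : (∫ τ in (-(π / 2 - h))..(π / 2 - h), f1 τ) +
      ∫ τ in (π / 2 - h)..(-(π / 2 - h) + π), f1 τ = (ηj * a ^ 2 + ηk * b ^ 2) * (π / 2) := by
    rw [intervalIntegral.integral_add_adjacent_intervals (c1.intervalIntegrable _ _)
      (c1.intervalIntegrable _ _), hf1]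
    have e : ∀ τ : ℝ, ηj * (a * cos (τ + h)) ^ 2 + ηk * (b * cos (τ - h)) ^ 2 =
        ηj * a ^ 2 * (cos (τ + h) * cos (τ + h)) +
          ηk * b ^ 2 * (cos (τ + -h) * cos (τ + -h)) := by
      intro τ
      rw [← sub_eq_add_neg]
      ring
    simp only [e]
    rw [intervalIntegral.integral_add (Continuous.intervalIntegrable (by fun_prop) _ _)
      (Continuous.intervalIntegrable (by fun_prop) _ _), intervalIntegral.integral_const_mul,
      intervalIntegral.integral_const_mul, integral_cc, integral_cc]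
    have s1 : sin (2 * (-(π / 2 - h) + π) + h + h) = sin (2 * -(π / 2 - h) + h + h) := by
      rw [show 2 * (-(π / 2 - h) + π) + h + h = 2 * -(π / 2 - h) + h + h + 2 * π by ring,
        sin_add_two_pi]
    have s2 : sin (2 * (-(π / 2 - h) + π) + -h + -h) = sin (2 * -(π / 2 - h) + -h + -h) := by
      rw [show 2 * (-(π / 2 - h) + π) + -h + -h = 2 * -(π / 2 - h) + -h + -h + 2 * π by ring,
        sin_add_two_pi]
    rw [s1, s2]
    have c0 : cos (h - h) = 1 := by simp
    have c0' : cos (-h - -h) = 1 := by simp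
    rw [c0, c0']
    ring
  have s1 : sin (2 * (-(π / 2 - h) + π) + h + -h) = -sin (2 * h) := by
    rw [show 2 * (-(π / 2 - h) + π) + h + -h = 2 * h + π by ring, sin_add_pi]
  have s2 : sin (2 * (π / 2 - h) + h + -h) = sin (2 * h) := by
    rw [show 2 * (π / 2 - h) + h + -h = π - 2 * h by ring, sin_pi_sub]
  have s3 : cos (h - -h) = cos (2 * h) := by
    rw [show h - -h = 2 * h by ring]
  rw [s1, s2, s3]
  linarith

theorem HS_neg (κ S l ηj ηk x y : ℝ) : HS κ S l ηj ηk (-x) (-y) = HS κ S l ηj ηk x y := by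
  unfold HS
  rw [abs_neg, abs_neg, neg_mul_neg, neg_sq, neg_sq]

theorem measurable_HS (κ S l ηj ηk : ℝ) {f g : ℝ → ℝ} (hf : Continuous f) (hg : Continuous g) :
    Measurable fun τ => HS κ S l ηj ηk (f τ) (g τ) := by
  unfold HS
  apply Measurable.add (by fun_prop)
  apply Measurable.ite (measurableSet_le measurable_const (by fun_prop))
  · exact (continuous_Dp κ S hf.abs hg.abs).measurable
  · fun_prop

theorem HS_bound {κ S l ηj ηk x y : ℝ} (hκ : 0 ≤ κ) (hS : 0 ≤ S) :
    |HS κ S l ηj ηk x y| ≤ |ηj| * x ^ 2 + |ηk| * y ^ 2 + (2 * κ + |l|) * (|x| * |y|) := by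
  unfold HS
  have hxy : 0 ≤ |x| * |y| := by positivity
  have h1 : |if 0 ≤ x * y then Dp κ S |x| |y| else -(l * (x * y))| ≤
      (2 * κ + |l|) * (|x| * |y|) := by
    split_ifs with h
    · rw [abs_of_nonneg (Dp_nonneg _ _ _ _)]
      have := Dp_le hκ hS (abs_nonneg x) (abs_nonneg y)
      have := mul_nonneg (abs_nonneg l) hxy
      linarith
    · rw [abs_neg, abs_mul, abs_mul]
      have := mul_nonneg hκ hxy
      linarith
  calc |ηj * x ^ 2 + ηk * y ^ 2 + if 0 ≤ x * y then Dp κ S |x| |y| else -(l * (x * y))|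
      ≤ |ηj * x ^ 2 + ηk * y ^ 2| + |if 0 ≤ x * y then Dp κ S |x| |y| else -(l * (x * y))| :=
        abs_add_le _ _
    _ ≤ (|ηj * x ^ 2| + |ηk * y ^ 2|) + (2 * κ + |l|) * (|x| * |y|) :=
        add_le_add (abs_add_le _ _) h1
    _ = _ := by rw [abs_mul, abs_mul, abs_of_nonneg (sq_nonneg x), abs_of_nonneg (sq_nonneg y)]

/-- the mean of the positive part per unit of the radii -/
def slabW (S q θ : ℝ) : ℝ := 4 / π * (S * (cos (θ / 2) ^ 4 / sin θ) * Qfr q q)

/-- **the pair inequality at small angles** -/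
theorem RPair_slab {F : ℝ → ℝ → ℝ → ℝ} {g0 g1 g2 : ℝ → ℝ} {Rj Rk θ : ℝ} (hj : 0 < Rj)
    (hk : 0 < Rk) (h0 : 0 < θ) (hπ : θ < π) {L K : LF} (hL : F Rj = L.F) (hK : F Rk = K.F)
    {q S nj nk Nj Nk l αj αk u v ηj ηk : ℝ} (q0 : 0 ≤ q) (q1 : q < 1) (hS : 0 ≤ S) (hu : 0 < u)
    (hv : 0 < v) (dj : DT L αj (u + cos θ * g1 Rj) ηj (q * S / 2) S nj Nj)
    (dk : DT K αk (v + cos θ * g1 Rk) ηk (q * S / 2) S nk Nk) (hjk : Nk ≤ nj) (hkj : Nj ≤ nk)
    (hjk' : K.zm ≤ nj) (hkj' : L.zm ≤ nk) (hl : 2 * L.b0 ≤ l) (hl' : 2 * K.b0 ≤ l)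
    (hle : (1 - g2 Rj * cos θ) ^ 2 / (2 * u) + u * (1 + Rj ^ 2) / 2 +
      ((1 - g2 Rk * cos θ) ^ 2 / (2 * v) + v * (1 + Rk ^ 2) / 2) + (αj + αk) + ηj * Rj ^ 2 +
        ηk * Rk ^ 2 + Rj * Rk * (slabW S q θ + l * ((sin θ - θ * cos θ) / π)) ≤
      √2 * (Rj + Rk) + cos θ * (g0 Rj + g0 Rk)) :
    RPair F g0 g1 g2 Rj Rk θ (cos θ) := by
  have hκ : q * S / 2 ≤ S := by nlinarith
  have hκ0 : 0 ≤ q * S / 2 := by positivity
  obtain ⟨h, hh⟩ : ∃ h, h = θ / 2 := ⟨_, rfl⟩
  have e2h : 2 * h = θ := by rw [hh]; ring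
  have hh0 : 0 < h := by linarith
  have hh1 : h < π / 2 := by linarith
  have hpp : ∀ {X Y : ℝ}, 0 ≤ X → 0 ≤ Y → PWat L.F K.F (αj + αk) (u + cos θ * g1 Rj)
      (v + cos θ * g1 Rk) X Y (ηj * X ^ 2 + ηk * Y ^ 2 + Dp (q * S / 2) S X Y) :=
    fun hX hY => pwat_pp dj dk hκ hjk hkj hX hY
  have hpn : ∀ {X Y : ℝ}, 0 ≤ X → 0 ≤ Y → PWat L.F K.F (αj + αk) (u + cos θ * g1 Rj)
      (v + cos θ * g1 Rk) X (-Y) (ηj * X ^ 2 + ηk * Y ^ 2 + l * (X * Y)) := by
    intro X Y hX hY
    rcases hY.eq_or_lt with h' | h'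
    · subst h'
      have := hpp (X := X) (Y := 0) hX le_rfl
      rw [Dp_symm, Dp_zero_left hX] at this
      simpa using this
    · exact pwat_pn dj dk hjk' hl' hX h'
  have hnp : ∀ {X Y : ℝ}, 0 ≤ X → 0 ≤ Y → PWat L.F K.F (αj + αk) (u + cos θ * g1 Rj)
      (v + cos θ * g1 Rk) (-X) Y (ηj * X ^ 2 + ηk * Y ^ 2 + l * (X * Y)) := by
    intro X Y hX hY
    rcases hX.eq_or_lt with h' | h'
    · subst h'
      have := hpp (X := 0) (Y := Y) le_rfl hY
      rw [Dp_zero_left hY] at this
      simpa using this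
    · have := (pwat_pn (X := Y) (Y := X) dk dj hkj' hl hY h').swapS
      rw [add_comm αk αj] at this
      have e : ηj * X ^ 2 + ηk * Y ^ 2 + l * (X * Y) = ηk * Y ^ 2 + ηj * X ^ 2 + l * (Y * X) := by
        ring
      rw [e]
      exact this
  have hnn : ∀ {X Y : ℝ}, 0 ≤ X → 0 ≤ Y → PWat L.F K.F (αj + αk) (u + cos θ * g1 Rj)
      (v + cos θ * g1 Rk) (-X) (-Y) (ηj * X ^ 2 + ηk * Y ^ 2 + Dp (q * S / 2) S X Y) := by
    intro X Y hX hY
    rcases hX.eq_or_lt with h' | h'
    · subst h'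
      have := hpn (X := 0) (Y := Y) le_rfl hY
      rw [Dp_zero_left hY]
      simpa using this
    · rcases hY.eq_or_lt with h'' | h''
      · subst h''
        have := hnp (X := X) (Y := 0) hX le_rfl
        rw [Dp_symm, Dp_zero_left hX]
        simpa using this
      · exact pwat_nn dj dk h' h''
  have hgen : ∀ x y : ℝ, PWat L.F K.F (αj + αk) (u + cos θ * g1 Rj) (v + cos θ * g1 Rk) x y
      (HS (q * S / 2) S l ηj ηk x y) := by
    intro x y
    rcases le_total 0 x with hx | hx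
    · rcases le_total 0 y with hy | hy
      · unfold HS
        rw [if_pos (mul_nonneg hx hy), abs_of_nonneg hx, abs_of_nonneg hy]
        exact hpp hx hy
      · have := hpn (X := x) (Y := -y) hx (by linarith)
        rw [neg_neg] at this
        have e : HS (q * S / 2) S l ηj ηk x y =
            ηj * x ^ 2 + ηk * (-y) ^ 2 + l * (x * -y) := by
          unfold HS
          split_ifs with hs
          · have hz : x * y = 0 := le_antisymm (mul_nonpos_of_nonneg_of_nonpos hx hy) hs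
            have hDz : Dp (q * S / 2) S |x| |y| = 0 := by
              rcases mul_eq_zero.1 hz with hz | hz
              · rw [hz, abs_zero, Dp_zero_left (abs_nonneg _)]
              · rw [hz, abs_zero, Dp_symm, Dp_zero_left (abs_nonneg _)]
            rw [hDz]
            linear_combination l * hz
          · ring
        rw [e]
        exact this
    · rcases le_total 0 y with hy | hy
      · have := hnp (X := -x) (Y := y) (by linarith) hy
        rw [neg_neg] at this
        have e : HS (q * S / 2) S l ηj ηk x y =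
            ηj * (-x) ^ 2 + ηk * y ^ 2 + l * (-x * y) := by
          unfold HS
          split_ifs with hs
          · have hz : x * y = 0 := le_antisymm (mul_nonpos_of_nonpos_of_nonneg hx hy) hs
            have hDz : Dp (q * S / 2) S |x| |y| = 0 := by
              rcases mul_eq_zero.1 hz with hz | hz
              · rw [hz, abs_zero, Dp_zero_left (abs_nonneg _)]
              · rw [hz, abs_zero, Dp_symm, Dp_zero_left (abs_nonneg _)]
            rw [hDz]
            linear_combination l * hz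
          · ring
        rw [e]
        exact this
      · have := hnn (X := -x) (Y := -y) (by linarith) (by linarith)
        rw [neg_neg, neg_neg] at this
        have e : HS (q * S / 2) S l ηj ηk x y =
            ηj * (-x) ^ 2 + ηk * (-y) ^ 2 + Dp (q * S / 2) S (-x) (-y) := by
          unfold HS
          rw [if_pos (mul_nonneg_of_nonpos_of_nonpos hx hy), abs_of_nonpos hx, abs_of_nonpos hy]
          ring
        rw [e]
        exact this
  refine RPair_of_kappa hj hk h0 hπ (hL ▸ L.hom2) (hK ▸ K.hom2)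
    (κ := fun τ => HS (q * S / 2) S l ηj ηk (Rj * cos (τ + h)) (Rk * cos (τ - h))) ?_
    (measurable_HS _ _ _ _ _ (by fun_prop) (by fun_prop))
    (K := |ηj| * Rj ^ 2 + |ηk| * Rk ^ 2 + (2 * (q * S / 2) + |l|) * (Rj * Rk)) ?_
    (-(π / 2 - h)) (α := αj + αk) hu hv ?_ ?_ ?_
  · intro τ
    change HS _ _ _ _ _ _ _ = HS _ _ _ _ _ _ _
    rw [show τ + π + h = τ + h + π by ring, show τ + π - h = τ - h + π by ring, cos_add_pi,
      cos_add_pi, mul_neg, mul_neg, HS_neg]
  · intro τ
    refine (HS_bound hκ0 hS).trans ?_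
    have c1 : cos (τ + h) ^ 2 ≤ 1 := cos_sq_le_one _
    have c2 : cos (τ - h) ^ 2 ≤ 1 := cos_sq_le_one _
    have d1 : (Rj * cos (τ + h)) ^ 2 ≤ Rj ^ 2 := by
      rw [mul_pow]
      nlinarith [sq_nonneg Rj]
    have d2 : (Rk * cos (τ - h)) ^ 2 ≤ Rk ^ 2 := by
      rw [mul_pow]
      nlinarith [sq_nonneg Rk]
    have d3 : |Rj * cos (τ + h)| * |Rk * cos (τ - h)| ≤ Rj * Rk := by
      rw [abs_mul, abs_mul, abs_of_pos hj, abs_of_pos hk]
      have e1 := abs_cos_le_one (τ + h)
      have e2 := abs_cos_le_one (τ - h)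
      have e3 : Rj * |cos (τ + h)| ≤ Rj := by
        have := mul_le_mul_of_nonneg_left e1 hj.le
        linarith
      have e4 : Rk * |cos (τ - h)| ≤ Rk := by
        have := mul_le_mul_of_nonneg_left e2 hk.le
        linarith
      exact mul_le_mul e3 e4 (by positivity) hj.le
    have f1 := mul_le_mul_of_nonneg_left d1 (abs_nonneg ηj)
    have f2 := mul_le_mul_of_nonneg_left d2 (abs_nonneg ηk)
    have f3 := mul_le_mul_of_nonneg_left d3
      (show 0 ≤ 2 * (q * S / 2) + |l| by positivity)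
    linarith
  · rw [hL, hK]
    have := hpp (X := 0) (Y := 0) le_rfl le_rfl
    rw [Dp_zero_left le_rfl] at this
    simpa using this
  · intro τ _ _
    rw [hL, hK, ← hh]
    refine ⟨hgen _ _, ?_⟩
    have := hgen (-(Rj * cos (τ + h))) (-(Rk * cos (τ - h)))
    rw [HS_neg] at this
    exact this
  · have m := mean_HS (l := l) (ηj := ηj) (ηk := ηk) hj hk hh0 hh1 q0 q1 hS
    rw [e2h] at m
    have hpi := pi_pos
    have m2 := mul_le_mul_of_nonneg_left m (show (0 : ℝ) ≤ 2 / π by positivity)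
    have e : 2 / π * ((ηj * Rj ^ 2 + ηk * Rk ^ 2) * (π / 2) +
        2 * (Rj * Rk * S * (cos h ^ 4 / sin θ) * Qfr q q) +
        l * (Rj * Rk) * ((sin θ - θ * cos θ) / 2)) = ηj * Rj ^ 2 + ηk * Rk ^ 2 +
        Rj * Rk * (slabW S q θ + l * ((sin θ - θ * cos θ) / π)) := by
      unfold slabW
      rw [← hh]
      field_simp
      ring
    rw [e] at m2
    linarith

end Pool.Agent.RRS
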