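import Pool.Agent.RRS.SlabInt2

/-!
# Small angles: the pair inequality with constants of each type
-/

set_option autoImplicit false

noncomputable section

namespace Pool.Agent.RRS

open Real MeasureTheory

/-- the function `H` -/
def HG (pj pk σ l sj sk ηj ηk x y : ℝ) : ℝ :=
  ηj * x ^ 2 + ηk * y ^ 2 +
    if 0 ≤ x * y then Dg pj pk σ |x| |y| else -(l * (x * y)) + sj * x ^ 2 + sk * y ^ 2

theorem HG_neg (pj pk σ l sj sk ηj ηk x y : ℝ) :
    HG pj pk σ l sj sk ηj ηk (-x) (-y) = HG pj pk σ l sj sk ηj ηk x y := by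
  unfold HG
  rw [abs_neg, abs_neg, neg_mul_neg, neg_sq, neg_sq]

theorem measurable_HG (pj pk σ l sj sk ηj ηk : ℝ) {f g : ℝ → ℝ} (hf : Continuous f)
    (hg : Continuous g) : Measurable fun τ => HG pj pk σ l sj sk ηj ηk (f τ) (g τ) := by
  unfold HG
  apply Measurable.add (by fun_prop)
  apply Measurable.ite (measurableSet_le measurable_const (by fun_prop))
  · exact (continuous_Dg pj pk σ hf.abs hg.abs).measurable
  · fun_prop

theorem Dg_le {pj pk σ X Y : ℝ} (hj : 0 ≤ pj) (hk : 0 ≤ pk) (hσ : 0 ≤ σ) (hX : 0 ≤ X)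
    (hY : 0 ≤ Y) : Dg pj pk σ X Y ≤ σ * (X ^ 2 + Y ^ 2) := by
  unfold Dg
  obtain ⟨M, hM⟩ : ∃ M, M = min X Y := ⟨_, rfl⟩
  rw [← hM]
  have hMX : M ≤ X := hM ▸ min_le_left _ _
  have hMY : M ≤ Y := hM ▸ min_le_right _ _
  have hM0 : 0 ≤ M := hM ▸ le_min hX hY
  have h1 : max 0 (σ * M - pj * (X - M) - pk * (Y - M)) ≤ σ * M := by
    refine max_le (by positivity) ?_
    have := mul_nonneg hj (sub_nonneg.2 hMX)
    have := mul_nonneg hk (sub_nonneg.2 hMY)
    linarith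
  calc M * max 0 (σ * M - pj * (X - M) - pk * (Y - M)) ≤ M * (σ * M) :=
        mul_le_mul_of_nonneg_left h1 hM0
    _ = σ * M ^ 2 := by ring
    _ ≤ σ * (X ^ 2 + Y ^ 2) := by
        apply mul_le_mul_of_nonneg_left _ hσ
        have : M ^ 2 ≤ X ^ 2 := by gcongr
        have := sq_nonneg Y
        linarith

theorem HG_bound {pj pk σ l sj sk ηj ηk x y : ℝ} (hj : 0 ≤ pj) (hk : 0 ≤ pk) (hσ : 0 ≤ σ) :
    |HG pj pk σ l sj sk ηj ηk x y| ≤
      (|ηj| + |ηk| + σ + |l| + |sj| + |sk|) * (x ^ 2 + y ^ 2) := by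
  unfold HG
  have hx2 := sq_nonneg x
  have hy2 := sq_nonneg y
  have h1 : |if 0 ≤ x * y then Dg pj pk σ |x| |y| else
      -(l * (x * y)) + sj * x ^ 2 + sk * y ^ 2| ≤
      (σ + |l| + |sj| + |sk|) * (x ^ 2 + y ^ 2) := by
    have a0 : 0 ≤ σ * (x ^ 2 + y ^ 2) := by positivity
    have a1 : 0 ≤ |l| * (x ^ 2 + y ^ 2) := by positivity
    have a2 : 0 ≤ |sj| * (x ^ 2 + y ^ 2) := by positivity
    have a3 : 0 ≤ |sk| * (x ^ 2 + y ^ 2) := by positivity
    split_ifs with h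
    · rw [abs_of_nonneg (Dg_nonneg (abs_nonneg _) (abs_nonneg _))]
      have := Dg_le hj hk hσ (abs_nonneg x) (abs_nonneg y)
      rw [sq_abs, sq_abs] at this
      linarith
    · have b1 : |x * y| ≤ x ^ 2 + y ^ 2 := by
        rw [abs_le]
        constructor <;> nlinarith [sq_nonneg (x - y), sq_nonneg (x + y)]
      have b2 : |-(l * (x * y))| ≤ |l| * (x ^ 2 + y ^ 2) := by
        rw [abs_neg, abs_mul]
        exact mul_le_mul_of_nonneg_left b1 (abs_nonneg _)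
      have b3 : |sj * x ^ 2| ≤ |sj| * (x ^ 2 + y ^ 2) := by
        rw [abs_mul, abs_of_nonneg hx2]
        exact mul_le_mul_of_nonneg_left (by linarith) (abs_nonneg _)
      have b4 : |sk * y ^ 2| ≤ |sk| * (x ^ 2 + y ^ 2) := by
        rw [abs_mul, abs_of_nonneg hy2]
        exact mul_le_mul_of_nonneg_left (by linarith) (abs_nonneg _)
      have b5 := abs_add_le (-(l * (x * y)) + sj * x ^ 2) (sk * y ^ 2)
      have b6 := abs_add_le (-(l * (x * y))) (sj * x ^ 2)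
      linarith
  have h2 : |ηj * x ^ 2 + ηk * y ^ 2| ≤ (|ηj| + |ηk|) * (x ^ 2 + y ^ 2) := by
    have b3 : |ηj * x ^ 2| ≤ |ηj| * (x ^ 2 + y ^ 2) := by
      rw [abs_mul, abs_of_nonneg hx2]
      exact mul_le_mul_of_nonneg_left (by linarith) (abs_nonneg _)
    have b4 : |ηk * y ^ 2| ≤ |ηk| * (x ^ 2 + y ^ 2) := by
      rw [abs_mul, abs_of_nonneg hy2]
      exact mul_le_mul_of_nonneg_left (by linarith) (abs_nonneg _)
    have b5 := abs_add_le (ηj * x ^ 2) (ηk * y ^ 2)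
    linarith
  have h3 := abs_add_le (ηj * x ^ 2 + ηk * y ^ 2)
    (if 0 ≤ x * y then Dg pj pk σ |x| |y| else -(l * (x * y)) + sj * x ^ 2 + sk * y ^ 2)
  linarith

/-- the mean of `H` -/
theorem mean_HG {a b h pj pk σ M l sj sk ηj ηk : ℝ} (ha : 0 < a) (hb : 0 < b) (h0 : 0 < h)
    (h1 : h < π / 2) (hj : 0 < pj) (hk : 0 < pk) (hσ : 0 ≤ σ) (hM0 : 0 ≤ M)
    (hM1 : ∀ τ ∈ Set.Icc (-(π / 2 - h)) (π / 2 - h),
      pk * (b * cos (τ - h) - a * cos (τ + h)) < σ * (a * cos (τ + h)) →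
      a * cos (τ + h) ≤ b * cos (τ - h) → (cos (τ + h) * cos (τ - h)) ^ 2 ≤ M)
    (hM2 : ∀ τ ∈ Set.Icc (-(π / 2 - h)) (π / 2 - h),
      b * cos (τ - h) ≤ a * cos (τ + h) → (cos (τ + h) * cos (τ - h)) ^ 2 ≤ M) :
    ∫ τ in (-(π / 2 - h))..(-(π / 2 - h) + π), HG pj pk σ l sj sk ηj ηk (a * cos (τ + h))
      (b * cos (τ - h)) ≤ (ηj * a ^ 2 + ηk * b ^ 2) * (π / 2) +
        a * b * (M / sin (2 * h)) * (σ ^ 2 / (2 * pj) + σ ^ 2 / (2 * pk)) +
        l * (a * b) * ((sin (2 * h) - 2 * h * cos (2 * h)) / 2) +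
        (sj * a ^ 2 + sk * b ^ 2) * ((2 * h - sin (2 * h) * cos (2 * h)) / 2) := by
  have hT : -(π / 2 - h) ≤ π / 2 - h := by linarith
  have hT2 : π / 2 - h ≤ -(π / 2 - h) + π := by linarith
  obtain ⟨f1, hf1⟩ : ∃ f : ℝ → ℝ, f = fun τ => ηj * (a * cos (τ + h)) ^ 2 +
    ηk * (b * cos (τ - h)) ^ 2 := ⟨_, rfl⟩
  have c1 : Continuous f1 := by
    rw [hf1]
    fun_prop
  have hD : Continuous fun τ => Dg pj pk σ (a * cos (τ + h)) (b * cos (τ - h)) :=
    continuous_Dg _ _ _ (by fun_prop) (by fun_prop)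
  have i1 : ∫ τ in (-(π / 2 - h))..(π / 2 - h), HG pj pk σ l sj sk ηj ηk (a * cos (τ + h))
      (b * cos (τ - h)) = ∫ τ in (-(π / 2 - h))..(π / 2 - h), (f1 τ +
        Dg pj pk σ (a * cos (τ + h)) (b * cos (τ - h))) := by
    apply intervalIntegral.integral_congr
    intro τ hτ
    rw [Set.uIcc_of_le hT] at hτ
    have x0 : 0 ≤ cos (τ + h) :=
      cos_nonneg_of_mem_Icc ⟨by linarith [hτ.1], by linarith [hτ.2]⟩
    have y0 : 0 ≤ cos (τ - h) :=
      cos_nonneg_of_mem_Icc ⟨by linarith [hτ.1], by linarith [hτ.2]⟩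
    change HG _ _ _ _ _ _ _ _ _ _ = _
    unfold HG
    rw [if_pos (by positivity), abs_of_nonneg (by positivity), abs_of_nonneg (by positivity), hf1]
  have i2 : ∫ τ in (π / 2 - h)..(-(π / 2 - h) + π), HG pj pk σ l sj sk ηj ηk (a * cos (τ + h))
      (b * cos (τ - h)) = ∫ τ in (π / 2 - h)..(-(π / 2 - h) + π), (f1 τ +
        (-(l * (a * b)) * (cos (τ + h) * cos (τ + -h)) +
          (sj * a ^ 2 * (cos (τ + h) * cos (τ + h)) +
            sk * b ^ 2 * (cos (τ + -h) * cos (τ + -h))))) := by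
    -- the endpoints have measure zero
    apply intervalIntegral.integral_congr_ae
    have hne : ∀ᵐ τ ∂(volume : Measure ℝ), τ ≠ π / 2 - h ∧ τ ≠ -(π / 2 - h) + π := by
      have e1 : ∀ᵐ τ ∂(volume : Measure ℝ), τ ≠ π / 2 - h := by
        simp [ae_iff]
      have e2 : ∀ᵐ τ ∂(volume : Measure ℝ), τ ≠ -(π / 2 - h) + π := by
        simp [ae_iff]
      filter_upwards [e1, e2] with τ a b using ⟨a, b⟩
    filter_upwards [hne] with τ hn hτ
    rw [Set.uIoc_of_le hT2] at hτ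
    have t1 : π / 2 - h < τ := hτ.1
    have t2 : τ < -(π / 2 - h) + π := lt_of_le_of_ne hτ.2 hn.2
    have x0 : cos (τ + h) < 0 :=
      cos_neg_of_pi_div_two_lt_of_lt (by linarith) (by linarith)
    have y0 : 0 < cos (τ - h) := cos_pos_of_mem_Ioo ⟨by linarith, by linarith⟩
    change HG _ _ _ _ _ _ _ _ _ _ = _
    unfold HG
    have hneg : ¬ 0 ≤ a * cos (τ + h) * (b * cos (τ - h)) := by
      rw [not_le]
      exact mul_neg_of_neg_of_pos (mul_neg_of_pos_of_neg ha x0) (mul_pos hb y0)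
    rw [if_neg hneg, hf1, ← sub_eq_add_neg τ h]
    ring
  have hHint : ∀ u v, IntervalIntegrable (fun τ => HG pj pk σ l sj sk ηj ηk (a * cos (τ + h))
      (b * cos (τ - h))) volume u v := by
    intro u v
    rw [intervalIntegrable_iff]
    refine Measure.integrableOn_of_bounded (M := (|ηj| + |ηk| + σ + |l| + |sj| + |sk|) *
      (a ^ 2 + b ^ 2)) ?_ ?_ ?_
    · rw [Set.uIoc]
      simp
    · exact (measurable_HG _ _ _ _ _ _ _ _ (by fun_prop) (by fun_prop)).aestronglyMeasurable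
    · refine Filter.Eventually.of_forall fun τ => ?_
      rw [norm_eq_abs]
      refine (HG_bound hj.le hk.le hσ).trans ?_
      have c1 : cos (τ + h) ^ 2 ≤ 1 := cos_sq_le_one _
      have c2 : cos (τ - h) ^ 2 ≤ 1 := cos_sq_le_one _
      apply mul_le_mul_of_nonneg_left _ (by positivity)
      rw [mul_pow, mul_pow]
      nlinarith [sq_nonneg a, sq_nonneg b]
  rw [← intervalIntegral.integral_add_adjacent_intervals (hHint _ _) (hHint (π / 2 - h) _), i1, i2,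
    intervalIntegral.integral_add (c1.intervalIntegrable _ _) (hD.intervalIntegrable _ _),
    intervalIntegral.integral_add (c1.intervalIntegrable _ _)
      (Continuous.intervalIntegrable (by fun_prop) _ _),
    intervalIntegral.integral_add (Continuous.intervalIntegrable (by fun_prop) _ _)
      (Continuous.intervalIntegrable (by fun_prop) _ _),
    intervalIntegral.integral_add (Continuous.intervalIntegrable (by fun_prop) _ _)
      (Continuous.intervalIntegrable (by fun_prop) _ _),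
    intervalIntegral.integral_const_mul, intervalIntegral.integral_const_mul,
    intervalIntegral.integral_const_mul, integral_cc, integral_cc, integral_cc]
  have m := mean_Dg (M := M) ha hb h0 h1 hj hk hσ hM0 hM1 hM2
  -- the squares
  have sq : (∫ τ in (-(π / 2 - h))..(π / 2 - h), f1 τ) +
      ∫ τ in (π / 2 - h)..(-(π / 2 - h) + π), f1 τ = (ηj * a ^ 2 + ηk * b ^ 2) * (π / 2) := by
    rw [intervalIntegral.integral_add_adjacent_intervals (c1.intervalIntegrable _ _)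
      (c1.intervalIntegrable _ _), hf1]
    have e : ∀ τ : ℝ, ηj * (a * cos (τ + h)) ^ 2 + ηk * (b * cos (τ - h)) ^ 2 =
        ηj * a ^ 2 * (cos (τ + h) * cos (τ + h)) +
          ηk * b ^ 2 * (cos (τ + -h) * cos (τ + -h)) := by
      intro τ
      rw [← sub_eq_add_neg]
      ring
    simp only [e]
    rw [intervalIntegral.integral_add (Continuous.intervalIntegrable (by fun_prop) _ _)
      (Continuous.intervalIntegrable (by fun_prop) _ _), intervalIntegral.integral_const_mul,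
      intervalIntegral.integral_const_mul, integral_cc, integral_cc]
    have s1 : sin (2 * (-(π / 2 - h) + π) + h + h) = sin (2 * -(π / 2 - h) + h + h) := by
      rw [show 2 * (-(π / 2 - h) + π) + h + h = 2 * -(π / 2 - h) + h + h + 2 * π by ring,
        sin_add_two_pi]
    have s2 : sin (2 * (-(π / 2 - h) + π) + -h + -h) = sin (2 * -(π / 2 - h) + -h + -h) := by
      rw [show 2 * (-(π / 2 - h) + π) + -h + -h = 2 * -(π / 2 - h) + -h + -h + 2 * π by ring,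
        sin_add_two_pi]
    rw [s1, s2]
    have c0 : cos (h - h) = 1 := by simp
    have c0' : cos (-h - -h) = 1 := by simp
    rw [c0, c0']
    ring
  have s1 : sin (2 * (-(π / 2 - h) + π) + h + -h) = -sin (2 * h) := by
    rw [show 2 * (-(π / 2 - h) + π) + h + -h = 2 * h + π by ring, sin_add_pi]
  have s2 : sin (2 * (π / 2 - h) + h + -h) = sin (2 * h) := by
    rw [show 2 * (π / 2 - h) + h + -h = π - 2 * h by ring, sin_pi_sub]
  have s3 : cos (h - -h) = cos (2 * h) := by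
    rw [show h - -h = 2 * h by ring]
  have s4 : sin (2 * (-(π / 2 - h) + π) + h + h) = -(2 * (sin (2 * h) * cos (2 * h))) := by
    rw [show 2 * (-(π / 2 - h) + π) + h + h = 2 * (2 * h) + π by ring, sin_add_pi, sin_two_mul]
    ring
  have s5 : sin (2 * (π / 2 - h) + h + h) = 0 := by
    rw [show 2 * (π / 2 - h) + h + h = π by ring, sin_pi]
  have s6 : sin (2 * (-(π / 2 - h) + π) + -h + -h) = 0 := by
    rw [show 2 * (-(π / 2 - h) + π) + -h + -h = π by ring, sin_pi]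
  have s7 : sin (2 * (π / 2 - h) + -h + -h) = 2 * (sin (2 * h) * cos (2 * h)) := by
    rw [show 2 * (π / 2 - h) + -h + -h = π - 2 * (2 * h) by ring, sin_pi_sub, sin_two_mul]
    ring
  have c0 : cos (h - h) = 1 := by simp
  have c0' : cos (-h - -h) = 1 := by simp
  rw [s1, s2, s3, s4, s5, s6, s7, c0, c0']
  linarith

/-- the bound of the product of the cosines -/
theorem M_am {τ h : ℝ} (h0 : 0 < h) (hτ : τ ∈ Set.Icc (-(π / 2 - h)) (π / 2 - h)) :
    (cos (τ + h) * cos (τ - h)) ^ 2 ≤ cos h ^ 4 := by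
  have x0 : 0 ≤ cos (τ + h) := cos_nonneg_of_mem_Icc ⟨by linarith [hτ.1], by linarith [hτ.2]⟩
  have y0 : 0 ≤ cos (τ - h) := cos_nonneg_of_mem_Icc ⟨by linarith [hτ.1], by linarith [hτ.2]⟩
  have := cos_mul_le τ h
  have hn := mul_nonneg x0 y0
  calc (cos (τ + h) * cos (τ - h)) ^ 2 ≤ (cos h ^ 2) ^ 2 := by gcongr
    _ = cos h ^ 4 := by ring

/-- the bound of the product of the cosines for different radii -/
theorem M_gap {a b h s τ : ℝ} (ha : 0 < a) (hb : 0 < b) (h0 : 0 < h) (hs : 0 ≤ s)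
    (hg : a * (1 + s) < b) (hτ : τ ∈ Set.Icc (-(π / 2 - h)) (π / 2 - h))
    (hle : b * cos (τ - h) ≤ (1 + s) * (a * cos (τ + h))) :
    (cos (τ + h) * cos (τ - h)) ^ 2 ≤
      (a * b * (1 + s) / (b - a * (1 + s)) ^ 2) ^ 2 * sin (2 * h) ^ 4 := by
  have x0 : 0 ≤ cos (τ + h) := cos_nonneg_of_mem_Icc ⟨by linarith [hτ.1], by linarith [hτ.2]⟩
  have y0 : 0 ≤ cos (τ - h) := cos_nonneg_of_mem_Icc ⟨by linarith [hτ.1], by linarith [hτ.2]⟩
  obtain ⟨C, hC⟩ : ∃ C, C = cos (τ + h) := ⟨_, rfl⟩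
  obtain ⟨E, hE⟩ : ∃ E, E = cos (τ - h) := ⟨_, rfl⟩
  have hid : sin (2 * h) ^ 2 = C ^ 2 + E ^ 2 - 2 * C * E * cos (2 * h) := by
    have e0 : sin (2 * h) ^ 2 = 1 - cos (2 * h) ^ 2 := by
      linarith [sin_sq_add_cos_sq (2 * h)]
    have e3 : cos (2 * h) = C * E + sin (τ + h) * sin (τ - h) := by
      rw [hC, hE, ← cos_sub]
      ring_nf
    have e1 : sin (τ + h) ^ 2 = 1 - C ^ 2 := by
      rw [hC]
      linarith [sin_sq_add_cos_sq (τ + h)]
    have e2 : sin (τ - h) ^ 2 = 1 - E ^ 2 := by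
      rw [hE]
      linarith [sin_sq_add_cos_sq (τ - h)]
    rw [e0, e3]
    linear_combination (-1 : ℝ) * (sin (τ - h) ^ 2) * e1 - (1 - C ^ 2) * e2
  rw [← hC, ← hE] at hle ⊢
  rw [← hC] at x0
  rw [← hE] at y0
  have hC2 : (C - E) ^ 2 ≤ sin (2 * h) ^ 2 := by
    rw [hid]
    nlinarith [mul_nonneg x0 y0, cos_le_one (2 * h)]
  obtain ⟨g, hgd⟩ : ∃ g, g = b - a * (1 + s) := ⟨_, rfl⟩
  have hg0 : 0 < g := by rw [hgd]; linarith
  rw [← hgd]
  -- g C ≤ b (C - E)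
  have h2 : g * C ≤ b * (C - E) := by
    rw [hgd]
    nlinarith
  have h3 : (g * C) ^ 2 ≤ b ^ 2 * sin (2 * h) ^ 2 := by
    calc (g * C) ^ 2 ≤ (b * (C - E)) ^ 2 := by
          have : 0 ≤ g * C := by positivity
          gcongr
      _ = b ^ 2 * (C - E) ^ 2 := by ring
      _ ≤ b ^ 2 * sin (2 * h) ^ 2 := by gcongr
  have h4 : (C * E) * (b * g ^ 2) ≤ a * (1 + s) * b ^ 2 * sin (2 * h) ^ 2 := by
    calc (C * E) * (b * g ^ 2) = C * (b * E) * g ^ 2 := by ring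
      _ ≤ C * ((1 + s) * (a * C)) * g ^ 2 := by gcongr
      _ = a * (1 + s) * (g * C) ^ 2 := by ring
      _ ≤ a * (1 + s) * (b ^ 2 * sin (2 * h) ^ 2) := by gcongr
      _ = _ := by ring
  have h5 : C * E ≤ a * b * (1 + s) / g ^ 2 * sin (2 * h) ^ 2 := by
    have : (C * E) * (b * g ^ 2) ≤ (a * b * (1 + s) / g ^ 2 * sin (2 * h) ^ 2) * (b * g ^ 2) := by
      calc (C * E) * (b * g ^ 2) ≤ a * (1 + s) * b ^ 2 * sin (2 * h) ^ 2 := h4
        _ = (a * b * (1 + s) / g ^ 2 * sin (2 * h) ^ 2) * (b * g ^ 2) := by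
          field_simp
    exact le_of_mul_le_mul_right this (by positivity)
  calc (C * E) ^ 2 ≤ (a * b * (1 + s) / g ^ 2 * sin (2 * h) ^ 2) ^ 2 := by
        have := mul_nonneg x0 y0
        gcongr
    _ = _ := by ring

/-- the point of the first type is zero -/
theorem pwat_zn2 {L K : LF} {αj βj αk βk ηj ηk κj κk pj pk nj nk Nj Nk : ℝ}
    (hj : DT2 L αj βj ηj κj pj nj Nj) (hk : DT2 K αk βk ηk κk pk nk Nk) {Y : ℝ} (hY : 0 < Y) :
    PWat L.F K.F (αj + αk) βj βk 0 (-Y) (ηk * Y ^ 2) := by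
  have key := PWat_of_cells (L := L) (K := K) (α := αj + αk) (β := βj) (γ := βk) (sx := true)
    (sy := false) (X := 0) (Y := Y) (k := ηj * 0 ^ 2 + ηk * Y ^ 2 + 0) hj.a1 hk.a1 le_rfl
    hY.le (Or.inl rfl) (Or.inr hY) ?_
  · simpa [sg] using key
  · intro ix iy m hm hi hi'
    rw [Qc_eq_tv]
    have hN : 0 ≤ tv K αk βk ηk 1 false iy Y m := by
      cases iy
      · exact hk.negOut Y m hY.le (by simpa [inC] using hi')
      · exact hk.negIn Y m hm (by simpa [inC] using hi')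
    have hη : 0 ≤ ηk * Y ^ 2 := by
      have := hk.negIn Y 0 le_rfl hY.le
      unfold tv at this
      simpa using this
    cases ix <;> simp only [inC, if_true, Bool.false_eq_true, if_false] at hi <;>
      simp only [ef, Bool.and_false, Bool.false_and, Bool.and_self, if_true,
        Bool.false_eq_true, if_false]
    · have a := hj.out0 0 m le_rfl hi
      linarith
    · have hm0 : m = 0 := le_antisymm hi hm
      subst hm0
      unfold tv
      simpa using hη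

/-- **the pair inequality at small angles** -/
theorem RPair_slab2 {F : ℝ → ℝ → ℝ → ℝ} {g0 g1 g2 : ℝ → ℝ} {Rj Rk θ : ℝ} (hj : 0 < Rj)
    (hk : 0 < Rk) (h0 : 0 < θ) (hπ : θ < π) {L K : LF} (hL : F Rj = L.F) (hK : F Rk = K.F)
    {αj αk u v ηj ηk κj κk pj pk nj nk Nj Nk l sj sk M : ℝ} (hu : 0 < u) (hv : 0 < v)
    (dj : DT2 L αj (u + cos θ * g1 Rj) ηj κj pj nj Nj)
    (dk : DT2 K αk (v + cos θ * g1 Rk) ηk κk pk nk Nk) (hpj : 0 < pj) (hpk : 0 < pk)
    (hκ : 0 ≤ κj + κk) (hjk : Nk ≤ nj) (hkj : Nj ≤ nk) (hjk' : K.Z ≤ nj) (hkj' : L.Z ≤ nk)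
    (hl : 0 ≤ l) (hsj : 0 ≤ sj) (hsk : 0 ≤ sk)
    (hosk : 2 * K.b0 ≤ l ∨ (2 * K.b0 - l) ^ 2 ≤ 8 * sk * (nj - K.Z))
    (hosj : 2 * L.b0 ≤ l ∨ (2 * L.b0 - l) ^ 2 ≤ 8 * sj * (nk - L.Z)) (hM0 : 0 ≤ M)
    (hM1 : ∀ τ ∈ Set.Icc (-(π / 2 - θ / 2)) (π / 2 - θ / 2),
      pk * (Rk * cos (τ - θ / 2) - Rj * cos (τ + θ / 2)) < (κj + κk) * (Rj * cos (τ + θ / 2)) →
      Rj * cos (τ + θ / 2) ≤ Rk * cos (τ - θ / 2) →
        (cos (τ + θ / 2) * cos (τ - θ / 2)) ^ 2 ≤ M)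
    (hM2 : ∀ τ ∈ Set.Icc (-(π / 2 - θ / 2)) (π / 2 - θ / 2),
      Rk * cos (τ - θ / 2) ≤ Rj * cos (τ + θ / 2) →
        (cos (τ + θ / 2) * cos (τ - θ / 2)) ^ 2 ≤ M)
    (hle : (1 - g2 Rj * cos θ) ^ 2 / (2 * u) + u * (1 + Rj ^ 2) / 2 +
      ((1 - g2 Rk * cos θ) ^ 2 / (2 * v) + v * (1 + Rk ^ 2) / 2) + (αj + αk) + ηj * Rj ^ 2 +
        ηk * Rk ^ 2 + Rj * Rk * (M / (π * sin θ) * (κj + κk) ^ 2 * (1 / pj + 1 / pk)) +
        Rj * Rk * (l * ((sin θ - θ * cos θ) / π)) +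
        (sj * Rj ^ 2 + sk * Rk ^ 2) * ((θ - sin θ * cos θ) / π) ≤
      √2 * (Rj + Rk) + cos θ * (g0 Rj + g0 Rk)) :
    RPair F g0 g1 g2 Rj Rk θ (cos θ) := by
  obtain ⟨h, hh⟩ : ∃ h, h = θ / 2 := ⟨_, rfl⟩
  have e2h : 2 * h = θ := by rw [hh]; ring
  have hh0 : 0 < h := by linarith
  have hh1 : h < π / 2 := by linarith
  obtain ⟨σ, hσd⟩ : ∃ σ, σ = κj + κk := ⟨_, rfl⟩
  rw [← hσd] at hκ
  have ck := opp_cond hosk (sub_nonneg.2 hjk') hsk
  have cj := opp_cond hosj (sub_nonneg.2 hkj') hsj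
  have hpp : ∀ {X Y : ℝ}, 0 ≤ X → 0 ≤ Y → PWat L.F K.F (αj + αk) (u + cos θ * g1 Rj)
      (v + cos θ * g1 Rk) X Y (ηj * X ^ 2 + ηk * Y ^ 2 + Dg pj pk σ X Y) := by
    intro X Y hX hY
    rw [hσd]
    exact pwat_pp2 dj dk hpj.le hpk.le (hσd ▸ hκ) hjk hkj hX hY
  have hpn : ∀ {X Y : ℝ}, 0 ≤ X → 0 < Y → PWat L.F K.F (αj + αk) (u + cos θ * g1 Rj)
      (v + cos θ * g1 Rk) X (-Y)
        (ηj * X ^ 2 + ηk * Y ^ 2 + (l * (X * Y) + sj * X ^ 2 + sk * Y ^ 2)) := by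
    intro X Y hX hY
    exact pwat_pn2 dj dk hl hsj hsk ck hX hY
  have hnp : ∀ {X Y : ℝ}, 0 < X → 0 ≤ Y → PWat L.F K.F (αj + αk) (u + cos θ * g1 Rj)
      (v + cos θ * g1 Rk) (-X) Y
        (ηj * X ^ 2 + ηk * Y ^ 2 + (l * (X * Y) + sj * X ^ 2 + sk * Y ^ 2)) := by
    intro X Y hX hY
    have := (pwat_pn2 (X := Y) (Y := X) dk dj hl hsk hsj cj hY hX).swapS
    rw [add_comm αk αj] at this
    have e : ηj * X ^ 2 + ηk * Y ^ 2 + (l * (X * Y) + sj * X ^ 2 + sk * Y ^ 2) =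
        ηk * Y ^ 2 + ηj * X ^ 2 + (l * (Y * X) + sk * Y ^ 2 + sj * X ^ 2) := by
      ring
    rw [e]
    exact this
  have hnn : ∀ {X Y : ℝ}, 0 < X → 0 < Y → PWat L.F K.F (αj + αk) (u + cos θ * g1 Rj)
      (v + cos θ * g1 Rk) (-X) (-Y) (ηj * X ^ 2 + ηk * Y ^ 2 + Dg pj pk σ X Y) := by
    intro X Y hX hY
    rw [hσd]
    exact pwat_nn2 dj dk hX hY
  -- the values which are larger
  have hmono : ∀ {x y k k' : ℝ}, PWat L.F K.F (αj + αk) (u + cos θ * g1 Rj)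
      (v + cos θ * g1 Rk) x y k → k ≤ k' → PWat L.F K.F (αj + αk) (u + cos θ * g1 Rj)
      (v + cos θ * g1 Rk) x y k' := by
    intro x y k k' hP hkk m s t hm s0 s1 t0 t1 a1 a2 a3 a4
    have := hP m s t hm s0 s1 t0 t1 a1 a2 a3 a4
    linarith
  refine RPair_of_kappa hj hk h0 hπ (hL ▸ L.hom2) (hK ▸ K.hom2)
    (κ := fun τ => HG pj pk σ l sj sk ηj ηk (Rj * cos (τ + h)) (Rk * cos (τ - h)) +
      0) ?_ ?_
    (K := (|ηj| + |ηk| + σ + |l| + |sj| + |sk|) * (Rj ^ 2 + Rk ^ 2)) ?_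
    (-(π / 2 - h)) (α := αj + αk) hu hv ?_ ?_ ?_
  · intro τ
    change HG _ _ _ _ _ _ _ _ _ _ + 0 = HG _ _ _ _ _ _ _ _ _ _ + 0
    rw [show τ + π + h = τ + h + π by ring, show τ + π - h = τ - h + π by ring, cos_add_pi,
      cos_add_pi, mul_neg, mul_neg, HG_neg]
  · simp only [add_zero]
    exact measurable_HG _ _ _ _ _ _ _ _ (by fun_prop) (by fun_prop)
  · intro τ
    rw [add_zero]
    refine (HG_bound hpj.le hpk.le hκ).trans ?_
    have c1 : cos (τ + h) ^ 2 ≤ 1 := cos_sq_le_one _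
    have c2 : cos (τ - h) ^ 2 ≤ 1 := cos_sq_le_one _
    apply mul_le_mul_of_nonneg_left _ (by positivity)
    rw [mul_pow, mul_pow]
    nlinarith [sq_nonneg Rj, sq_nonneg Rk]
  · rw [hL, hK]
    have := hpp (X := 0) (Y := 0) le_rfl le_rfl
    rw [Dg_zero_left le_rfl] at this
    simpa using this
  · -- the points with a coordinate zero: only one sign is needed up to the symmetry
    intro τ ht1 ht2
    rw [hL, hK, ← hh, add_zero]
    rcases le_or_gt τ (π / 2 - h) with hτ | hτ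
    · have x0 : 0 ≤ Rj * cos (τ + h) := mul_nonneg hj.le
        (cos_nonneg_of_mem_Icc ⟨by linarith, by linarith⟩)
      have y0 : 0 ≤ Rk * cos (τ - h) := mul_nonneg hk.le
        (cos_nonneg_of_mem_Icc ⟨by linarith, by linarith⟩)
      have hHG : HG pj pk σ l sj sk ηj ηk (Rj * cos (τ + h)) (Rk * cos (τ - h)) =
          ηj * (Rj * cos (τ + h)) ^ 2 + ηk * (Rk * cos (τ - h)) ^ 2 +
            Dg pj pk σ (Rj * cos (τ + h)) (Rk * cos (τ - h)) := by
        unfold HG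
        rw [if_pos (mul_nonneg x0 y0), abs_of_nonneg x0, abs_of_nonneg y0]
      rw [hHG]
      refine ⟨hpp x0 y0, ?_⟩
      rcases x0.eq_or_lt with hx | hx
      · rw [← hx]
        rcases y0.eq_or_lt with hy | hy
        · rw [← hy]
          have := hpp (X := 0) (Y := 0) le_rfl le_rfl
          simpa using this
        · have := pwat_zn2 dj dk hy
          rw [Dg_zero_left y0]
          simpa using this
      · rcases y0.eq_or_lt with hy | hy
        · have := (pwat_zn2 dk dj hx).swapS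
          rw [add_comm αk αj] at this
          rw [← hy, Dg_zero_right x0]
          simpa using this
        · exact hnn hx hy
    · have x0 : Rj * cos (τ + h) < 0 := mul_neg_of_pos_of_neg hj
        (cos_neg_of_pi_div_two_lt_of_lt (by linarith) (by linarith))
      have y0 : 0 < Rk * cos (τ - h) := mul_pos hk
        (cos_pos_of_mem_Ioo ⟨by linarith, by linarith⟩)
      have hHG : HG pj pk σ l sj sk ηj ηk (Rj * cos (τ + h)) (Rk * cos (τ - h)) =
          ηj * (-(Rj * cos (τ + h))) ^ 2 + ηk * (Rk * cos (τ - h)) ^ 2 +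
            (l * (-(Rj * cos (τ + h)) * (Rk * cos (τ - h))) + sj * (-(Rj * cos (τ + h))) ^ 2 +
              sk * (Rk * cos (τ - h)) ^ 2) := by
        unfold HG
        rw [if_neg (not_le.2 (mul_neg_of_neg_of_pos x0 y0))]
        ring
      rw [hHG]
      constructor
      · have := hnp (X := -(Rj * cos (τ + h))) (by linarith) y0.le
        rw [neg_neg] at this
        exact this
      · have := hpn (X := -(Rj * cos (τ + h))) (by linarith) y0
        exact this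
  · have m := mean_HG (l := l) (sj := sj) (sk := sk) (ηj := ηj) (ηk := ηk) (M := M) hj hk hh0 hh1
      hpj hpk hκ hM0 (by
        rw [hh, hσd]
        exact hM1) (by
        rw [hh]
        exact hM2)
    rw [e2h] at m
    have hpi := pi_pos
    have hsθ : 0 < sin θ := sin_pos_of_pos_of_lt_pi h0 hπ
    have m2 := mul_le_mul_of_nonneg_left m (show (0 : ℝ) ≤ 2 / π by positivity)
    have e : 2 / π * ((ηj * Rj ^ 2 + ηk * Rk ^ 2) * (π / 2) +
        Rj * Rk * (M / sin θ) * (σ ^ 2 / (2 * pj) + σ ^ 2 / (2 * pk)) +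
        l * (Rj * Rk) * ((sin θ - θ * cos θ) / 2) +
        (sj * Rj ^ 2 + sk * Rk ^ 2) * ((θ - sin θ * cos θ) / 2)) = ηj * Rj ^ 2 + ηk * Rk ^ 2 +
        Rj * Rk * (M / (π * sin θ) * σ ^ 2 * (1 / pj + 1 / pk)) +
        Rj * Rk * (l * ((sin θ - θ * cos θ) / π)) +
        (sj * Rj ^ 2 + sk * Rk ^ 2) * ((θ - sin θ * cos θ) / π) := by
      field_simp
    rw [e, hσd] at m2
    simp only [add_zero]
    rw [hσd]
    linarith

end Pool.Agent.RRS
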