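import Pool.Agent.RRS.SlabPW

/-!
# Small angles: the mean of the positive part

The mean of `max 0 (2 κ X Y - S min (X, Y) |X - Y|)` is at most `a b W`, for all radii `a, b`:
in the variable `r = X / Y` the measure is at most `cos⁴ (θ / 2) / sin θ * dr / r`.
-/

set_option autoImplicit false

noncomputable section

namespace Pool.Agent.RRS

open Real MeasureTheory

/-- the derivative of a power of the positive part -/
theorem hasDerivAt_max_pow (n : ℕ) (x : ℝ) :
    HasDerivAt (fun y : ℝ => max y 0 ^ (n + 2)) ((n + 2 : ℝ) * max x 0 ^ (n + 1)) x := by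
  rcases lt_trichotomy x 0 with h | h | h
  · have e : (fun y : ℝ => max y 0 ^ (n + 2)) =ᶠ[nhds x] fun _ => 0 := by
      filter_upwards [gt_mem_nhds h] with y hy
      rw [max_eq_right (le_of_lt hy)]
      simp
    rw [max_eq_right h.le]
    simpa using (hasDerivAt_const x (0 : ℝ)).congr_of_eventuallyEq e
  · subst h
    rw [hasDerivAt_iff_isLittleO]
    simp only [max_self, ne_eq, Nat.add_eq_zero_iff, OfNat.ofNat_ne_zero, and_false,
      not_false_eq_true, zero_pow, sub_zero, smul_eq_mul, one_ne_zero, mul_zero]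
    refine Asymptotics.IsBigO.trans_isLittleO (g := fun y : ℝ => y ^ (n + 2)) ?_
      (Asymptotics.isLittleO_pow_id (by omega))
    refine Asymptotics.isBigO_of_le _ fun y => ?_
    rw [norm_pow, norm_pow]
    gcongr
    rcases le_total y 0 with hy | hy
    · rw [max_eq_right hy]
      simp
    · rw [max_eq_left hy]
  · have e : (fun y : ℝ => max y 0 ^ (n + 2)) =ᶠ[nhds x] fun y => y ^ (n + 2) := by
      filter_upwards [lt_mem_nhds h] with y hy
      rw [max_eq_left (le_of_lt hy)]
    rw [max_eq_left h.le]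
    have := (hasDerivAt_pow (n + 2) x).congr_of_eventuallyEq e
    simpa using this

/-- the product of the cosines -/
theorem cos_mul_le (τ h : ℝ) : cos (τ + h) * cos (τ - h) ≤ cos h ^ 2 := by
  have e : cos (τ + h) * cos (τ - h) = cos h ^ 2 - sin τ ^ 2 := by
    rw [cos_add, cos_sub]
    nlinarith [sin_sq_add_cos_sq τ, sin_sq_add_cos_sq h]
  rw [e]
  nlinarith [sq_nonneg (sin τ)]

/-- the auxiliary function -/
def Qfr (q p : ℝ) : ℝ := (p ^ 2 / 2 - p ^ 3 / 3) / (1 - q)

/-- the part on the right of the point where `X = Y` -/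
theorem right_part {a b h q S t0 : ℝ} (ha : 0 < a) (hb : 0 < b) (h0 : 0 < h) (h1 : h < π / 2)
    (q0 : 0 ≤ q) (q1 : q < 1) (hS : 0 ≤ S) (ht0 : -(π / 2 - h) < t0) (ht1 : t0 ≤ π / 2 - h)
    (ht : a * cos (t0 + h) = b * cos (t0 - h)) :
    ∫ τ in t0..(π / 2 - h), Dp (q * S / 2) S (a * cos (τ + h)) (b * cos (τ - h)) ≤
      a * b * S * (cos h ^ 4 / sin (2 * h)) * Qfr q q := by
  have hs2 : 0 < sin (2 * h) := sin_pos_of_pos_of_lt_pi (by linarith) (by linarith)
  have hq1 : 0 < 1 - q := by linarith
  have hY : ∀ τ ∈ Set.Icc t0 (π / 2 - h), 0 < cos (τ - h) := fun τ hτ =>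
    cos_pos_of_mem_Ioo ⟨by linarith [hτ.1], by linarith [hτ.2]⟩
  have hX : ∀ τ ∈ Set.Icc t0 (π / 2 - h), 0 ≤ cos (τ + h) := fun τ hτ =>
    cos_nonneg_of_mem_Icc ⟨by linarith [hτ.1], by linarith [hτ.2]⟩
  -- the ratio is at most one
  have hXY : ∀ τ ∈ Set.Icc t0 (π / 2 - h), a * cos (τ + h) ≤ b * cos (τ - h) := by
    intro τ hτ
    have hd : cos (τ + h) * cos (t0 - h) - cos (t0 + h) * cos (τ - h) =
        -(sin (2 * h) * sin (τ - t0)) := by
      rw [cos_add, cos_sub, cos_add, cos_sub, sin_sub, sin_two_mul]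
      ring
    have hsd : 0 ≤ sin (τ - t0) := sin_nonneg_of_nonneg_of_le_pi (by linarith [hτ.1])
      (by linarith [hτ.2])
    have h2 : 0 < cos (t0 - h) := hY t0 ⟨le_rfl, ht1⟩
    have h3 : cos (τ + h) * cos (t0 - h) ≤ cos (t0 + h) * cos (τ - h) := by
      nlinarith [mul_nonneg hs2.le hsd]
    have h4 : cos (t0 - h) * (a * cos (τ + h)) ≤ cos (t0 - h) * (b * cos (τ - h)) := by
      calc cos (t0 - h) * (a * cos (τ + h)) = a * (cos (τ + h) * cos (t0 - h)) := by ring
        _ ≤ a * (cos (t0 + h) * cos (τ - h)) := mul_le_mul_of_nonneg_left h3 ha.le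
        _ = a * cos (t0 + h) * cos (τ - h) := by ring
        _ = b * cos (t0 - h) * cos (τ - h) := by rw [ht]
        _ = cos (t0 - h) * (b * cos (τ - h)) := by ring
    exact le_of_mul_le_mul_left h4 h2
  obtain ⟨r, hr⟩ : ∃ r : ℝ → ℝ, r = fun τ => a * cos (τ + h) / (b * cos (τ - h)) := ⟨_, rfl⟩
  obtain ⟨p, hp⟩ : ∃ p : ℝ → ℝ, p = fun τ => max (q - 1 + r τ) 0 := ⟨_, rfl⟩
  have hrd : ∀ τ ∈ Set.Icc t0 (π / 2 - h),
      HasDerivAt r (-(a * sin (2 * h) / (b * cos (τ - h) ^ 2))) τ := by
    intro τ hτ
    have c1 : HasDerivAt (fun τ => a * cos (τ + h)) (a * -sin (τ + h)) τ := by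
      have := ((hasDerivAt_id τ).add_const h).cos.const_mul a
      simpa using this
    have c2 : HasDerivAt (fun τ => b * cos (τ - h)) (b * -sin (τ - h)) τ := by
      have := ((hasDerivAt_id τ).sub_const h).cos.const_mul b
      simpa using this
    have hc := hY τ hτ
    have c3 := c1.div c2 (by positivity)
    rw [hr]
    refine c3.congr_deriv ?_
    have e : sin (2 * h) = sin (τ + h) * cos (τ - h) - cos (τ + h) * sin (τ - h) := by
      rw [← sin_sub]
      ring_nf
    rw [e]
    field_simp
    ring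
  have hpd : ∀ τ ∈ Set.Icc t0 (π / 2 - h), HasDerivAt (fun τ => -Qfr q (p τ))
      (p τ * (1 - p τ) / (1 - q) * (a * sin (2 * h) / (b * cos (τ - h) ^ 2))) τ := by
    intro τ hτ
    have d1 : HasDerivAt (fun τ => q - 1 + r τ) (-(a * sin (2 * h) / (b * cos (τ - h) ^ 2))) τ :=
      (hrd τ hτ).const_add _
    have d2 := (hasDerivAt_max_pow 0 (q - 1 + r τ)).comp τ d1
    have d3 := (hasDerivAt_max_pow 1 (q - 1 + r τ)).comp τ d1
    have d4 := (((d2.div_const 2).sub (d3.div_const 3)).div_const (1 - q)).neg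
    have e : (fun τ => -Qfr q (p τ)) = fun τ =>
        -((((fun y : ℝ => max y 0 ^ (0 + 2)) ∘ fun τ => q - 1 + r τ) τ / 2 -
          ((fun y : ℝ => max y 0 ^ (1 + 2)) ∘ fun τ => q - 1 + r τ) τ / 3) / (1 - q)) := by
      funext z
      rw [hp]
      simp [Qfr]
    rw [e]
    refine d4.congr_deriv ?_
    rw [hp]
    simp only [Nat.cast_zero, Nat.cast_one]
    field_simp
    ring
  have hcr : ContinuousOn r (Set.Icc t0 (π / 2 - h)) := fun τ hτ =>
    (hrd τ hτ).continuousAt.continuousWithinAt
  have hcp : ContinuousOn p (Set.Icc t0 (π / 2 - h)) := by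
    rw [hp]
    exact (continuousOn_const.add hcr).sup continuousOn_const
  have hcg : ContinuousOn (fun τ => p τ * (1 - p τ) / (1 - q) *
      (a * sin (2 * h) / (b * cos (τ - h) ^ 2))) (Set.Icc t0 (π / 2 - h)) := by
    refine ((hcp.mul (continuousOn_const.sub hcp)).div_const _).mul
      (continuousOn_const.div (by fun_prop) ?_)
    intro τ hτ
    have := hY τ hτ
    positivity
  have hcf : Continuous fun τ => Dp (q * S / 2) S (a * cos (τ + h)) (b * cos (τ - h)) := by
    unfold Dp
    fun_prop
  have hFTC : ∫ τ in t0..(π / 2 - h), p τ * (1 - p τ) / (1 - q) *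
      (a * sin (2 * h) / (b * cos (τ - h) ^ 2)) = Qfr q (p t0) - Qfr q (p (π / 2 - h)) := by
    rw [intervalIntegral.integral_eq_sub_of_hasDerivAt (f := fun τ => -Qfr q (p τ))]
    · ring
    · intro τ hτ
      rw [Set.uIcc_of_le ht1] at hτ
      exact hpd τ hτ
    · apply ContinuousOn.intervalIntegrable
      rw [Set.uIcc_of_le ht1]
      exact hcg
  have hp0 : p t0 = q := by
    have h2 : 0 < cos (t0 - h) := hY t0 ⟨le_rfl, ht1⟩
    have : r t0 = 1 := by
      rw [hr]
      change a * cos (t0 + h) / (b * cos (t0 - h)) = 1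
      rw [ht]
      exact div_self (by positivity)
    rw [hp]
    change max (q - 1 + r t0) 0 = q
    rw [this, max_eq_left (by linarith)]
    ring
  have hp1 : p (π / 2 - h) = 0 := by
    have : r (π / 2 - h) = 0 := by
      rw [hr]
      change a * cos (π / 2 - h + h) / (b * cos (π / 2 - h - h)) = 0
      rw [sub_add_cancel, cos_pi_div_two]
      simp
    rw [hp]
    change max (q - 1 + r (π / 2 - h)) 0 = 0
    rw [this, max_eq_right (by linarith)]
  have hle : ∀ τ ∈ Set.Icc t0 (π / 2 - h), Dp (q * S / 2) S (a * cos (τ + h)) (b * cos (τ - h)) ≤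
      a * b * S * (cos h ^ 4 / sin (2 * h)) * (p τ * (1 - p τ) / (1 - q) *
        (a * sin (2 * h) / (b * cos (τ - h) ^ 2))) := by
    intro τ hτ
    have y0 := hY τ hτ
    have x0 := hX τ hτ
    have xy := hXY τ hτ
    have hr1 : r τ ≤ 1 := by
      rw [hr]
      change a * cos (τ + h) / (b * cos (τ - h)) ≤ 1
      rw [div_le_one (by positivity)]
      exact xy
    have hr2 : a * cos (τ + h) = r τ * (b * cos (τ - h)) := by
      rw [hr]
      change a * cos (τ + h) = a * cos (τ + h) / (b * cos (τ - h)) * (b * cos (τ - h))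
      field_simp
    have hD : Dp (q * S / 2) S (a * cos (τ + h)) (b * cos (τ - h)) =
        S * (a * cos (τ + h)) * (b * cos (τ - h)) * p τ := by
      unfold Dp
      rw [min_eq_left xy, abs_of_nonpos (sub_nonpos.2 xy), hp]
      change _ = S * (a * cos (τ + h)) * (b * cos (τ - h)) * max (q - 1 + r τ) 0
      have hpos : 0 ≤ S * (a * cos (τ + h)) * (b * cos (τ - h)) := by positivity
      rw [mul_max_of_nonneg _ _ hpos, mul_zero, max_comm]
      congr 1
      have : S * (a * cos (τ + h)) * (b * cos (τ - h)) * r τ =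
          S * (a * cos (τ + h)) * (a * cos (τ + h)) := by
        conv_rhs => rw [hr2]
        rw [hr2]
        ring
      linear_combination (-1 : ℝ) * this
    rw [hD]
    have hpn : 0 ≤ p τ := by
      rw [hp]
      exact le_max_right _ _
    rcases hpn.eq_or_lt with hz | hz
    · rw [← hz]
      simp
    · have hpe : p τ = q - 1 + r τ := by
        rw [hp] at hz ⊢
        change 0 < max (q - 1 + r τ) 0 at hz
        change max (q - 1 + r τ) 0 = q - 1 + r τ
        rcases max_choice (q - 1 + r τ) 0 with e | e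
        · exact e
        · rw [e] at hz
          exact absurd hz (lt_irrefl _)
      have hrp : 1 - q < r τ := by linarith
      have hr0 : 0 < r τ := by linarith
      -- the key inequality
      have k1 : (cos (τ + h) * cos (τ - h)) ^ 2 ≤ cos h ^ 4 := by
        have := cos_mul_le τ h
        have hn := mul_nonneg x0 y0.le
        calc (cos (τ + h) * cos (τ - h)) ^ 2 ≤ (cos h ^ 2) ^ 2 := by gcongr
          _ = cos h ^ 4 := by ring
      have k2 : 1 - q ≤ (1 - p τ) * r τ := by
        rw [hpe]
        nlinarith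
      have k3 : S * (a * cos (τ + h)) * (b * cos (τ - h)) * p τ * ((1 - q) * (r τ)) ≤
          a * b * S * (cos h ^ 4) * (p τ * (1 - p τ) *
            (a / (b * cos (τ - h) ^ 2))) * r τ := by
        -- multiply by r: a / (b cos²) = r * cos(τ-h) / (cos (τ+h) cos² )...
        have x1 : 0 < cos (τ + h) := by
          rcases x0.eq_or_lt with e | e
          · rw [← e] at hr2
            have : r τ * (b * cos (τ - h)) = 0 := by linarith
            have : 0 < r τ * (b * cos (τ - h)) := by positivity
            linarith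
          · exact e
        have e1 : a / (b * cos (τ - h) ^ 2) = r τ / (cos (τ + h) * cos (τ - h)) := by
          rw [div_eq_div_iff (by positivity) (by positivity)]
          linear_combination cos (τ - h) * hr2
        rw [e1]
        have e2 : a * b * S * (cos h ^ 4) * (p τ * (1 - p τ) *
            (r τ / (cos (τ + h) * cos (τ - h)))) * r τ =
            (a * b * S * p τ * r τ / (cos (τ + h) * cos (τ - h))) *
              (cos h ^ 4 * ((1 - p τ) * r τ)) := by ring
        have e3 : S * (a * cos (τ + h)) * (b * cos (τ - h)) * p τ * ((1 - q) * (r τ)) =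
            (a * b * S * p τ * r τ / (cos (τ + h) * cos (τ - h))) *
              ((cos (τ + h) * cos (τ - h)) ^ 2 * (1 - q)) := by
          field_simp
        rw [e2, e3]
        apply mul_le_mul_of_nonneg_left _ (by positivity)
        exact mul_le_mul k1 k2 hq1.le (by positivity)
      have k4 : S * (a * cos (τ + h)) * (b * cos (τ - h)) * p τ * (1 - q) ≤
          a * b * S * (cos h ^ 4) * (p τ * (1 - p τ) * (a / (b * cos (τ - h) ^ 2))) := by
        have : (S * (a * cos (τ + h)) * (b * cos (τ - h)) * p τ * (1 - q)) * r τ ≤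
          (a * b * S * (cos h ^ 4) * (p τ * (1 - p τ) * (a / (b * cos (τ - h) ^ 2)))) * r τ := by
          linarith
        exact le_of_mul_le_mul_right this hr0
      have e5 : a * b * S * (cos h ^ 4 / sin (2 * h)) * (p τ * (1 - p τ) / (1 - q) *
          (a * sin (2 * h) / (b * cos (τ - h) ^ 2))) =
          (a * b * S * (cos h ^ 4) * (p τ * (1 - p τ) * (a / (b * cos (τ - h) ^ 2)))) /
            (1 - q) := by
        field_simp
      rw [e5, le_div_iff₀ hq1]
      exact k4
  calc ∫ τ in t0..(π / 2 - h), Dp (q * S / 2) S (a * cos (τ + h)) (b * cos (τ - h))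
      ≤ ∫ τ in t0..(π / 2 - h), a * b * S * (cos h ^ 4 / sin (2 * h)) *
        (p τ * (1 - p τ) / (1 - q) * (a * sin (2 * h) / (b * cos (τ - h) ^ 2))) := by
        apply intervalIntegral.integral_mono_on ht1 (hcf.intervalIntegrable _ _)
        · apply ContinuousOn.intervalIntegrable
          rw [Set.uIcc_of_le ht1]
          exact continuousOn_const.mul hcg
        · exact hle
    _ = a * b * S * (cos h ^ 4 / sin (2 * h)) * Qfr q q := by
        rw [intervalIntegral.integral_const_mul, hFTC, hp0, hp1]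
        simp [Qfr]

end Pool.Agent.RRS
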