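import Pool.Agent.RRS.SlabPW2
import Pool.Agent.RRS.Slab

/-!
# Small angles: the mean of the positive part with constants of each type
-/

set_option autoImplicit false

noncomputable section

namespace Pool.Agent.RRS

open Real MeasureTheory

/-- the positive part at `X ≤ Y` -/
def D1 (q S X Y : ℝ) : ℝ := X * max 0 (q * S * X - (1 - q) * S * (Y - X))

/-- the part on the right of the point where `X = Y` -/
theorem right_part2 {a b h q S M t0 : ℝ} (ha : 0 < a) (hb : 0 < b) (h0 : 0 < h) (h1 : h < π / 2)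
    (q0 : 0 ≤ q) (q1 : q < 1) (hS : 0 ≤ S) (ht0 : -(π / 2 - h) < t0) (ht1 : t0 ≤ π / 2 - h)
    (ht : a * cos (t0 + h) = b * cos (t0 - h))
    (hM : ∀ τ ∈ Set.Icc t0 (π / 2 - h), (1 - q) * (b * cos (τ - h)) < a * cos (τ + h) →
      a * cos (τ + h) ≤ b * cos (τ - h) → (cos (τ + h) * cos (τ - h)) ^ 2 ≤ M) :
    ∫ τ in t0..(π / 2 - h), D1 q S (a * cos (τ + h)) (b * cos (τ - h)) ≤
      a * b * S * (M / sin (2 * h)) * Qfr q q := by
  have hs2 : 0 < sin (2 * h) := sin_pos_of_pos_of_lt_pi (by linarith) (by linarith)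
  have hq1 : 0 < 1 - q := by linarith
  have hY : ∀ τ ∈ Set.Icc t0 (π / 2 - h), 0 < cos (τ - h) := fun τ hτ =>
    cos_pos_of_mem_Ioo ⟨by linarith [hτ.1], by linarith [hτ.2]⟩
  have hX : ∀ τ ∈ Set.Icc t0 (π / 2 - h), 0 ≤ cos (τ + h) := fun τ hτ =>
    cos_nonneg_of_mem_Icc ⟨by linarith [hτ.1], by linarith [hτ.2]⟩
  -- the ratio is at most one
  have hXY : ∀ τ ∈ Set.Icc t0 (π / 2 - h), a * cos (τ + h) ≤ b * cos (τ - h) := by
    intro τ hτ
    have hd : cos (τ + h) * cos (t0 - h) - cos (t0 + h) * cos (τ - h) =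
        -(sin (2 * h) * sin (τ - t0)) := by
      rw [cos_add, cos_sub, cos_add, cos_sub, sin_sub, sin_two_mul]
      ring
    have hsd : 0 ≤ sin (τ - t0) := sin_nonneg_of_nonneg_of_le_pi (by linarith [hτ.1])
      (by linarith [hτ.2])
    have h2 : 0 < cos (t0 - h) := hY t0 ⟨le_rfl, ht1⟩
    have h3 : cos (τ + h) * cos (t0 - h) ≤ cos (t0 + h) * cos (τ - h) := by
      nlinarith [mul_nonneg hs2.le hsd]
    have h4 : cos (t0 - h) * (a * cos (τ + h)) ≤ cos (t0 - h) * (b * cos (τ - h)) := by
      calc cos (t0 - h) * (a * cos (τ + h)) = a * (cos (τ + h) * cos (t0 - h)) := by ring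
        _ ≤ a * (cos (t0 + h) * cos (τ - h)) := mul_le_mul_of_nonneg_left h3 ha.le
        _ = a * cos (t0 + h) * cos (τ - h) := by ring
        _ = b * cos (t0 - h) * cos (τ - h) := by rw [ht]
        _ = cos (t0 - h) * (b * cos (τ - h)) := by ring
    exact le_of_mul_le_mul_left h4 h2
  obtain ⟨r, hr⟩ : ∃ r : ℝ → ℝ, r = fun τ => a * cos (τ + h) / (b * cos (τ - h)) := ⟨_, rfl⟩
  obtain ⟨p, hp⟩ : ∃ p : ℝ → ℝ, p = fun τ => max (q - 1 + r τ) 0 := ⟨_, rfl⟩
  have hrd : ∀ τ ∈ Set.Icc t0 (π / 2 - h),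
      HasDerivAt r (-(a * sin (2 * h) / (b * cos (τ - h) ^ 2))) τ := by
    intro τ hτ
    have c1 : HasDerivAt (fun τ => a * cos (τ + h)) (a * -sin (τ + h)) τ := by
      have := ((hasDerivAt_id τ).add_const h).cos.const_mul a
      simpa using this
    have c2 : HasDerivAt (fun τ => b * cos (τ - h)) (b * -sin (τ - h)) τ := by
      have := ((hasDerivAt_id τ).sub_const h).cos.const_mul b
      simpa using this
    have hc := hY τ hτ
    have c3 := c1.div c2 (by positivity)
    rw [hr]
    refine c3.congr_deriv ?_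
    have e : sin (2 * h) = sin (τ + h) * cos (τ - h) - cos (τ + h) * sin (τ - h) := by
      rw [← sin_sub]
      ring_nf
    rw [e]
    field_simp
    ring
  have hpd : ∀ τ ∈ Set.Icc t0 (π / 2 - h), HasDerivAt (fun τ => -Qfr q (p τ))
      (p τ * (1 - p τ) / (1 - q) * (a * sin (2 * h) / (b * cos (τ - h) ^ 2))) τ := by
    intro τ hτ
    have d1 : HasDerivAt (fun τ => q - 1 + r τ) (-(a * sin (2 * h) / (b * cos (τ - h) ^ 2))) τ :=
      (hrd τ hτ).const_add _
    have d2 := (hasDerivAt_max_pow 0 (q - 1 + r τ)).comp τ d1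
    have d3 := (hasDerivAt_max_pow 1 (q - 1 + r τ)).comp τ d1
    have d4 := (((d2.div_const 2).sub (d3.div_const 3)).div_const (1 - q)).neg
    have e : (fun τ => -Qfr q (p τ)) = fun τ =>
        -((((fun y : ℝ => max y 0 ^ (0 + 2)) ∘ fun τ => q - 1 + r τ) τ / 2 -
          ((fun y : ℝ => max y 0 ^ (1 + 2)) ∘ fun τ => q - 1 + r τ) τ / 3) / (1 - q)) := by
      funext z
      rw [hp]
      simp [Qfr]
    rw [e]
    refine d4.congr_deriv ?_
    rw [hp]
    simp only [Nat.cast_zero, Nat.cast_one]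
    field_simp
    ring
  have hcr : ContinuousOn r (Set.Icc t0 (π / 2 - h)) := fun τ hτ =>
    (hrd τ hτ).continuousAt.continuousWithinAt
  have hcp : ContinuousOn p (Set.Icc t0 (π / 2 - h)) := by
    rw [hp]
    exact (continuousOn_const.add hcr).sup continuousOn_const
  have hcg : ContinuousOn (fun τ => p τ * (1 - p τ) / (1 - q) *
      (a * sin (2 * h) / (b * cos (τ - h) ^ 2))) (Set.Icc t0 (π / 2 - h)) := by
    refine ((hcp.mul (continuousOn_const.sub hcp)).div_const _).mul
      (continuousOn_const.div (by fun_prop) ?_)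
    intro τ hτ
    have := hY τ hτ
    positivity
  have hcf : Continuous fun τ => D1 q S (a * cos (τ + h)) (b * cos (τ - h)) := by
    unfold D1
    fun_prop
  have hFTC : ∫ τ in t0..(π / 2 - h), p τ * (1 - p τ) / (1 - q) *
      (a * sin (2 * h) / (b * cos (τ - h) ^ 2)) = Qfr q (p t0) - Qfr q (p (π / 2 - h)) := by
    rw [intervalIntegral.integral_eq_sub_of_hasDerivAt (f := fun τ => -Qfr q (p τ))]
    · ring
    · intro τ hτ
      rw [Set.uIcc_of_le ht1] at hτ
      exact hpd τ hτ
    · apply ContinuousOn.intervalIntegrable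
      rw [Set.uIcc_of_le ht1]
      exact hcg
  have hp0 : p t0 = q := by
    have h2 : 0 < cos (t0 - h) := hY t0 ⟨le_rfl, ht1⟩
    have : r t0 = 1 := by
      rw [hr]
      change a * cos (t0 + h) / (b * cos (t0 - h)) = 1
      rw [ht]
      exact div_self (by positivity)
    rw [hp]
    change max (q - 1 + r t0) 0 = q
    rw [this, max_eq_left (by linarith)]
    ring
  have hp1 : p (π / 2 - h) = 0 := by
    have : r (π / 2 - h) = 0 := by
      rw [hr]
      change a * cos (π / 2 - h + h) / (b * cos (π / 2 - h - h)) = 0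
      rw [sub_add_cancel, cos_pi_div_two]
      simp
    rw [hp]
    change max (q - 1 + r (π / 2 - h)) 0 = 0
    rw [this, max_eq_right (by linarith)]
  have hle : ∀ τ ∈ Set.Icc t0 (π / 2 - h), D1 q S (a * cos (τ + h)) (b * cos (τ - h)) ≤
      a * b * S * (M / sin (2 * h)) * (p τ * (1 - p τ) / (1 - q) *
        (a * sin (2 * h) / (b * cos (τ - h) ^ 2))) := by
    intro τ hτ
    have y0 := hY τ hτ
    have x0 := hX τ hτ
    have xy := hXY τ hτ
    have hr1 : r τ ≤ 1 := by
      rw [hr]
      change a * cos (τ + h) / (b * cos (τ - h)) ≤ 1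
      rw [div_le_one (by positivity)]
      exact xy
    have hr2 : a * cos (τ + h) = r τ * (b * cos (τ - h)) := by
      rw [hr]
      change a * cos (τ + h) = a * cos (τ + h) / (b * cos (τ - h)) * (b * cos (τ - h))
      field_simp
    have hD : D1 q S (a * cos (τ + h)) (b * cos (τ - h)) =
        S * (a * cos (τ + h)) * (b * cos (τ - h)) * p τ := by
      unfold D1
      have e1 : q * S * (a * cos (τ + h)) - (1 - q) * S * (b * cos (τ - h) - a * cos (τ + h)) =
          S * (b * cos (τ - h)) * (q - 1 + r τ) := by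
        rw [hr2]
        ring
      rw [e1, max_comm]
      have hpos : 0 ≤ S * (b * cos (τ - h)) := by positivity
      have e2 : max (S * (b * cos (τ - h)) * (q - 1 + r τ)) 0 = S * (b * cos (τ - h)) * p τ := by
        rw [hp]
        change _ = S * (b * cos (τ - h)) * max (q - 1 + r τ) 0
        rw [mul_max_of_nonneg _ _ hpos, mul_zero]
      rw [e2]
      ring
    rw [hD]
    have hpn : 0 ≤ p τ := by
      rw [hp]
      exact le_max_right _ _
    rcases hpn.eq_or_lt with hz | hz
    · rw [← hz]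
      simp
    · have hpe : p τ = q - 1 + r τ := by
        rw [hp] at hz ⊢
        change 0 < max (q - 1 + r τ) 0 at hz
        change max (q - 1 + r τ) 0 = q - 1 + r τ
        rcases max_choice (q - 1 + r τ) 0 with e | e
        · exact e
        · rw [e] at hz
          exact absurd hz (lt_irrefl _)
      have hrp : 1 - q < r τ := by linarith
      have hr0 : 0 < r τ := by linarith
      have hM' : (cos (τ + h) * cos (τ - h)) ^ 2 ≤ M := by
        refine hM τ hτ ?_ xy
        rw [hr2]
        exact mul_lt_mul_of_pos_right hrp (by positivity)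
      -- the key inequality
      have k2 : 1 - q ≤ (1 - p τ) * r τ := by
        rw [hpe]
        nlinarith
      have k3 : S * (a * cos (τ + h)) * (b * cos (τ - h)) * p τ * ((1 - q) * (r τ)) ≤
          a * b * S * M * (p τ * (1 - p τ) *
            (a / (b * cos (τ - h) ^ 2))) * r τ := by
        have x1 : 0 < cos (τ + h) := by
          rcases x0.eq_or_lt with e | e
          · rw [← e] at hr2
            have : r τ * (b * cos (τ - h)) = 0 := by linarith
            have : 0 < r τ * (b * cos (τ - h)) := by positivity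
            linarith
          · exact e
        have e1 : a / (b * cos (τ - h) ^ 2) = r τ / (cos (τ + h) * cos (τ - h)) := by
          rw [div_eq_div_iff (by positivity) (by positivity)]
          linear_combination cos (τ - h) * hr2
        rw [e1]
        have e2 : a * b * S * M * (p τ * (1 - p τ) *
            (r τ / (cos (τ + h) * cos (τ - h)))) * r τ =
            (a * b * S * p τ * r τ / (cos (τ + h) * cos (τ - h))) *
              (M * ((1 - p τ) * r τ)) := by ring
        have e3 : S * (a * cos (τ + h)) * (b * cos (τ - h)) * p τ * ((1 - q) * (r τ)) =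
            (a * b * S * p τ * r τ / (cos (τ + h) * cos (τ - h))) *
              ((cos (τ + h) * cos (τ - h)) ^ 2 * (1 - q)) := by
          field_simp
        rw [e2, e3]
        apply mul_le_mul_of_nonneg_left _ (by positivity)
        have hM0 : 0 ≤ M := (sq_nonneg _).trans hM'
        exact mul_le_mul hM' k2 hq1.le hM0
      have k4 : S * (a * cos (τ + h)) * (b * cos (τ - h)) * p τ * (1 - q) ≤
          a * b * S * M * (p τ * (1 - p τ) * (a / (b * cos (τ - h) ^ 2))) := by
        have : (S * (a * cos (τ + h)) * (b * cos (τ - h)) * p τ * (1 - q)) * r τ ≤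
          (a * b * S * M * (p τ * (1 - p τ) * (a / (b * cos (τ - h) ^ 2)))) * r τ := by
          linarith
        exact le_of_mul_le_mul_right this hr0
      have e5 : a * b * S * (M / sin (2 * h)) * (p τ * (1 - p τ) / (1 - q) *
          (a * sin (2 * h) / (b * cos (τ - h) ^ 2))) =
          (a * b * S * M * (p τ * (1 - p τ) * (a / (b * cos (τ - h) ^ 2)))) /
            (1 - q) := by
        field_simp
      rw [e5, le_div_iff₀ hq1]
      exact k4
  calc ∫ τ in t0..(π / 2 - h), D1 q S (a * cos (τ + h)) (b * cos (τ - h))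
      ≤ ∫ τ in t0..(π / 2 - h), a * b * S * (M / sin (2 * h)) *
        (p τ * (1 - p τ) / (1 - q) * (a * sin (2 * h) / (b * cos (τ - h) ^ 2))) := by
        apply intervalIntegral.integral_mono_on ht1 (hcf.intervalIntegrable _ _)
        · apply ContinuousOn.intervalIntegrable
          rw [Set.uIcc_of_le ht1]
          exact continuousOn_const.mul hcg
        · exact hle
    _ = a * b * S * (M / sin (2 * h)) * Qfr q q := by
        rw [intervalIntegral.integral_const_mul, hFTC, hp0, hp1]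
        simp [Qfr]

/-- the form of the positive part at `X ≤ Y` -/
theorem Dg_eq_D1 {pj pk σ X Y : ℝ} (hk : 0 < pk) (hσ : 0 ≤ σ) (h : X ≤ Y) :
    Dg pj pk σ X Y = D1 (σ / (σ + pk)) (σ + pk) X Y := by
  have hs : 0 < σ + pk := by linarith
  unfold Dg D1
  rw [min_eq_left h]
  congr 2
  field_simp
  ring

theorem S_Qfr_le {σ p : ℝ} (hp : 0 < p) (hσ : 0 ≤ σ) :
    (σ + p) * Qfr (σ / (σ + p)) (σ / (σ + p)) ≤ σ ^ 2 / (2 * p) := by
  have hs : 0 < σ + p := by linarith
  have e : (σ + p) * Qfr (σ / (σ + p)) (σ / (σ + p)) =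
      σ ^ 2 / (2 * p) - σ ^ 3 / (3 * p * (σ + p)) := by
    unfold Qfr
    have : 1 - σ / (σ + p) = p / (σ + p) := by
      field_simp
      ring
    rw [this]
    field_simp
  rw [e]
  have : 0 ≤ σ ^ 3 / (3 * p * (σ + p)) := by positivity
  linarith

theorem continuous_Dg (pj pk σ : ℝ) {f g : ℝ → ℝ} (hf : Continuous f) (hg : Continuous g) :
    Continuous fun τ => Dg pj pk σ (f τ) (g τ) := by
  unfold Dg
  fun_prop

/-- the mean of the positive part -/
theorem mean_Dg {a b h pj pk σ M : ℝ} (ha : 0 < a) (hb : 0 < b) (h0 : 0 < h) (h1 : h < π / 2)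
    (hj : 0 < pj) (hk : 0 < pk) (hσ : 0 ≤ σ) (hM0 : 0 ≤ M)
    (hM1 : ∀ τ ∈ Set.Icc (-(π / 2 - h)) (π / 2 - h),
      pk * (b * cos (τ - h) - a * cos (τ + h)) < σ * (a * cos (τ + h)) →
      a * cos (τ + h) ≤ b * cos (τ - h) → (cos (τ + h) * cos (τ - h)) ^ 2 ≤ M)
    (hM2 : ∀ τ ∈ Set.Icc (-(π / 2 - h)) (π / 2 - h),
      b * cos (τ - h) ≤ a * cos (τ + h) → (cos (τ + h) * cos (τ - h)) ^ 2 ≤ M) :
    ∫ τ in (-(π / 2 - h))..(π / 2 - h), Dg pj pk σ (a * cos (τ + h)) (b * cos (τ - h)) ≤
      a * b * (M / sin (2 * h)) * (σ ^ 2 / (2 * pj) + σ ^ 2 / (2 * pk)) := by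
  have hs2 : 0 < sin (2 * h) := sin_pos_of_pos_of_lt_pi (by linarith) (by linarith)
  have hT : -(π / 2 - h) < π / 2 - h := by linarith
  obtain ⟨f, hf⟩ : ∃ f : ℝ → ℝ, f = fun τ => b * cos (τ - h) - a * cos (τ + h) := ⟨_, rfl⟩
  have hfc : Continuous f := by
    rw [hf]
    fun_prop
  have f0 : f (-(π / 2 - h)) < 0 := by
    rw [hf]
    change b * cos (-(π / 2 - h) - h) - a * cos (-(π / 2 - h) + h) < 0
    have e1 : cos (-(π / 2 - h) - h) = 0 := by
      rw [show -(π / 2 - h) - h = -(π / 2) by ring, cos_neg, cos_pi_div_two]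
    have e2 : cos (-(π / 2 - h) + h) = sin (2 * h) := by
      rw [show -(π / 2 - h) + h = -(π / 2 - 2 * h) by ring, cos_neg, cos_pi_div_two_sub]
    rw [e1, e2]
    have := mul_pos ha hs2
    linarith
  have f1 : 0 < f (π / 2 - h) := by
    rw [hf]
    change 0 < b * cos (π / 2 - h - h) - a * cos (π / 2 - h + h)
    have e1 : cos (π / 2 - h + h) = 0 := by
      rw [sub_add_cancel, cos_pi_div_two]
    have e2 : cos (π / 2 - h - h) = sin (2 * h) := by
      rw [show π / 2 - h - h = π / 2 - 2 * h by ring, cos_pi_div_two_sub]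
    rw [e1, e2]
    have := mul_pos hb hs2
    linarith
  obtain ⟨t0, ht0, ht⟩ := intermediate_value_Ioo hT.le hfc.continuousOn ⟨f0, f1⟩
  have hteq : a * cos (t0 + h) = b * cos (t0 - h) := by
    rw [hf] at ht
    change b * cos (t0 - h) - a * cos (t0 + h) = 0 at ht
    linarith
  have hD : Continuous fun τ => Dg pj pk σ (a * cos (τ + h)) (b * cos (τ - h)) :=
    continuous_Dg _ _ _ (by fun_prop) (by fun_prop)
  have hqk : σ / (σ + pk) < 1 := by
    rw [div_lt_one (by linarith)]
    linarith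
  have hqj : σ / (σ + pj) < 1 := by
    rw [div_lt_one (by linarith)]
    linarith
  have hr := right_part2 (q := σ / (σ + pk)) (S := σ + pk) (M := M) ha hb h0 h1 (by positivity)
    hqk (by linarith) ht0.1 ht0.2.le hteq (by
      intro τ hτ hs hle
      refine hM1 τ ⟨by linarith [hτ.1, ht0.1], hτ.2⟩ ?_ hle
      have hp : 0 < σ + pk := by linarith
      have e : 1 - σ / (σ + pk) = pk / (σ + pk) := by
        field_simp
        ring
      rw [e, div_mul_eq_mul_div, div_lt_iff₀ hp] at hs
      linarith)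
  have hl := right_part2 (q := σ / (σ + pj)) (S := σ + pj) (M := M) hb ha h0 h1 (by positivity)
    hqj (by linarith) (t0 := -t0) (by linarith [ht0.2])
    (by linarith [ht0.1]) (by
      rw [show -t0 + h = -(t0 - h) by ring, show -t0 - h = -(t0 + h) by ring, cos_neg, cos_neg]
      exact hteq.symm) (by
      intro τ hτ hs hle
      have e1 : cos (τ + h) = cos (-τ - h) := by
        rw [show -τ - h = -(τ + h) by ring, cos_neg]
      have e2 : cos (τ - h) = cos (-τ + h) := by
        rw [show -τ + h = -(τ - h) by ring, cos_neg]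
      rw [e1, e2] at hle ⊢
      rw [mul_comm (cos (-τ - h))]
      exact hM2 (-τ) ⟨by linarith [hτ.2], by linarith [hτ.1, ht0.2]⟩ hle)
  have e : ∫ τ in (-(π / 2 - h))..t0, Dg pj pk σ (a * cos (τ + h)) (b * cos (τ - h)) =
      ∫ τ in (-t0)..(π / 2 - h), Dg pk pj σ (b * cos (τ + h)) (a * cos (τ - h)) := by
    have := intervalIntegral.integral_comp_neg (a := -t0) (b := π / 2 - h)
      (fun τ => Dg pj pk σ (a * cos (τ + h)) (b * cos (τ - h)))
    rw [neg_neg] at this
    rw [← this]
    congr 1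
    funext τ
    rw [Dg_symm, show -τ + h = -(τ - h) by ring, show -τ - h = -(τ + h) by ring, cos_neg, cos_neg]
  -- on the two sides the positive part is `D1`
  have mono : ∀ {a b t0 : ℝ}, 0 < a → 0 < b → -(π / 2 - h) < t0 → t0 ≤ π / 2 - h →
      a * cos (t0 + h) = b * cos (t0 - h) → ∀ τ ∈ Set.Icc t0 (π / 2 - h),
        a * cos (τ + h) ≤ b * cos (τ - h) := by
    intro a b t0 ha hb ht0 ht1 ht τ hτ
    have hd : cos (τ + h) * cos (t0 - h) - cos (t0 + h) * cos (τ - h) =
        -(sin (2 * h) * sin (τ - t0)) := by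
      rw [cos_add, cos_sub, cos_add, cos_sub, sin_sub, sin_two_mul]
      ring
    have hsd : 0 ≤ sin (τ - t0) := sin_nonneg_of_nonneg_of_le_pi (by linarith [hτ.1])
      (by linarith [hτ.2])
    have h2 : 0 < cos (t0 - h) := cos_pos_of_mem_Ioo ⟨by linarith, by linarith⟩
    have h3 : cos (τ + h) * cos (t0 - h) ≤ cos (t0 + h) * cos (τ - h) := by
      nlinarith [mul_nonneg hs2.le hsd]
    have h4 : cos (t0 - h) * (a * cos (τ + h)) ≤ cos (t0 - h) * (b * cos (τ - h)) := by
      calc cos (t0 - h) * (a * cos (τ + h)) = a * (cos (τ + h) * cos (t0 - h)) := by ring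
        _ ≤ a * (cos (t0 + h) * cos (τ - h)) := mul_le_mul_of_nonneg_left h3 ha.le
        _ = a * cos (t0 + h) * cos (τ - h) := by ring
        _ = b * cos (t0 - h) * cos (τ - h) := by rw [ht]
        _ = cos (t0 - h) * (b * cos (τ - h)) := by ring
    exact le_of_mul_le_mul_left h4 h2
  have er : ∫ τ in t0..(π / 2 - h), Dg pj pk σ (a * cos (τ + h)) (b * cos (τ - h)) =
      ∫ τ in t0..(π / 2 - h), D1 (σ / (σ + pk)) (σ + pk) (a * cos (τ + h)) (b * cos (τ - h)) := by
    apply intervalIntegral.integral_congr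
    intro τ hτ
    rw [Set.uIcc_of_le ht0.2.le] at hτ
    exact Dg_eq_D1 hk hσ (mono ha hb ht0.1 ht0.2.le hteq τ hτ)
  have el : ∫ τ in (-t0)..(π / 2 - h), Dg pk pj σ (b * cos (τ + h)) (a * cos (τ - h)) =
      ∫ τ in (-t0)..(π / 2 - h), D1 (σ / (σ + pj)) (σ + pj) (b * cos (τ + h))
        (a * cos (τ - h)) := by
    apply intervalIntegral.integral_congr
    intro τ hτ
    rw [Set.uIcc_of_le (by linarith [ht0.1] : -t0 ≤ π / 2 - h)] at hτ
    refine Dg_eq_D1 hj hσ (mono hb ha (t0 := -t0) (by linarith [ht0.2]) (by linarith [ht0.1])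
      ?_ τ hτ)
    rw [show -t0 + h = -(t0 - h) by ring, show -t0 - h = -(t0 + h) by ring, cos_neg, cos_neg]
    exact hteq.symm
  rw [← intervalIntegral.integral_add_adjacent_intervals (b := t0) (hD.intervalIntegrable _ _)
    (hD.intervalIntegrable _ _), e, er, el]
  have c1 := S_Qfr_le hk hσ
  have c2 := S_Qfr_le hj hσ
  have hc : 0 ≤ a * b * (M / sin (2 * h)) := by positivity
  have d1 := mul_le_mul_of_nonneg_left c1 hc
  have d2 := mul_le_mul_of_nonneg_left c2 hc
  have e3 : a * b * (σ + pk) * (M / sin (2 * h)) * Qfr (σ / (σ + pk)) (σ / (σ + pk)) =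
      a * b * (M / sin (2 * h)) * ((σ + pk) * Qfr (σ / (σ + pk)) (σ / (σ + pk))) := by ring
  have e4 : b * a * (σ + pj) * (M / sin (2 * h)) * Qfr (σ / (σ + pj)) (σ / (σ + pj)) =
      a * b * (M / sin (2 * h)) * ((σ + pj) * Qfr (σ / (σ + pj)) (σ / (σ + pj))) := by ring
  rw [e3] at hr
  rw [e4] at hl
  linarith

end Pool.Agent.RRS
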