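import Pool.Agent.RRS.SlabZ

/-!
# Small angles: the test of a pair
-/

set_option autoImplicit false

noncomputable section

namespace Pool.Agent.RRS

open Real

/-! ### trigonometric bounds -/

theorem nonneg_of_deriv {f f' : ℝ → ℝ} (hf : ∀ x, HasDerivAt f (f' x) x) (h0 : 0 ≤ f 0) {b : ℝ}
    (hf' : ∀ x, 0 ≤ x → x ≤ b → 0 ≤ f' x) {x : ℝ} (x0 : 0 ≤ x) (x1 : x ≤ b) : 0 ≤ f x := by
  have hmono : MonotoneOn f (Set.Icc 0 b) := by
    apply monotoneOn_of_deriv_nonneg (convex_Icc 0 b)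
    · exact fun y _ => (hf y).continuousAt.continuousWithinAt
    · exact fun y _ => (hf y).differentiableAt.differentiableWithinAt
    · intro y hy
      rw [interior_Icc] at hy
      rw [(hf y).deriv]
      exact hf' y hy.1.le hy.2.le
  have := hmono ⟨le_rfl, x0.trans x1⟩ ⟨x0, x1⟩ x0
  linarith

theorem trig1 {x : ℝ} (x0 : 0 ≤ x) (x1 : x ≤ π) : 0 ≤ sin x - x * cos x := by
  refine nonneg_of_deriv (f := fun x => sin x - x * cos x) (f' := fun x => x * sin x)
    (fun x => ?_) (by simp) (fun y y0 y1 => ?_) x0 x1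
  · have := (hasDerivAt_sin x).sub ((hasDerivAt_id x).mul (hasDerivAt_cos x))
    refine this.congr_deriv ?_
    simp
  · exact mul_nonneg y0 (sin_nonneg_of_nonneg_of_le_pi y0 y1)

theorem trig2 {x : ℝ} (x0 : 0 ≤ x) (x1 : x ≤ π) : 0 ≤ 2 * (1 - cos x) - x * sin x := by
  refine nonneg_of_deriv (f := fun x => 2 * (1 - cos x) - x * sin x)
    (f' := fun x => sin x - x * cos x) (fun x => ?_) (by simp) (fun y y0 y1 => trig1 y0 y1) x0 x1
  have := (((hasDerivAt_const x (1 : ℝ)).sub (hasDerivAt_cos x)).const_mul 2).sub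
    ((hasDerivAt_id x).mul (hasDerivAt_sin x))
  refine this.congr_deriv ?_
  simp only [id]
  ring

theorem trig3 {x : ℝ} (x0 : 0 ≤ x) (x1 : x ≤ π) :
    0 ≤ 2 * x / 3 * (1 - cos x) - (sin x - x * cos x) := by
  refine nonneg_of_deriv (f := fun x => 2 * x / 3 * (1 - cos x) - (sin x - x * cos x))
    (f' := fun x => (2 * (1 - cos x) - x * sin x) / 3) (fun x => ?_) (by simp)
    (fun y y0 y1 => div_nonneg (trig2 y0 y1) (by norm_num)) x0 x1
  have h1 : HasDerivAt (fun x : ℝ => 2 * x / 3) (2 * 1 / 3) x :=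
    ((hasDerivAt_id x).const_mul 2).div_const 3
  have := (h1.mul ((hasDerivAt_const x (1 : ℝ)).sub (hasDerivAt_cos x))).sub
    ((hasDerivAt_sin x).sub ((hasDerivAt_id x).mul (hasDerivAt_cos x)))
  refine this.congr_deriv ?_
  simp only [id, Pi.sub_apply]
  ring

theorem trig4 {x : ℝ} (x0 : 0 ≤ x) (x1 : x ≤ π) :
    0 ≤ 2 * (sin x - x * cos x) - (x - sin x * cos x) := by
  refine nonneg_of_deriv (f := fun x => 2 * (sin x - x * cos x) - (x - sin x * cos x))
    (f' := fun x => 2 * (sin x * (x - sin x))) (fun x => ?_) (by simp)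
    (fun y y0 y1 => ?_) x0 x1
  · have := (((hasDerivAt_sin x).sub ((hasDerivAt_id x).mul (hasDerivAt_cos x))).const_mul 2).sub
      ((hasDerivAt_id x).sub ((hasDerivAt_sin x).mul (hasDerivAt_cos x)))
    refine this.congr_deriv ?_
    simp only [id]
    have := sin_sq_add_cos_sq x
    nlinarith
  · have := mul_nonneg (sin_nonneg_of_nonneg_of_le_pi y0 y1) (sub_nonneg.2 (sin_le y0))
    linarith

variable {θ : ℝ}

theorem w_pos (h0 : 0 < θ) (h1 : θ ≤ π / 8) : 0 < 1 - cos θ := by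
  have hpi := pi_pos
  have : cos θ < cos 0 := cos_lt_cos_of_nonneg_of_le_pi le_rfl (by linarith) h0
  rw [cos_zero] at this
  linarith

theorem w_le_sq : 1 - cos θ ≤ θ ^ 2 / 2 := by
  have := one_sub_sq_div_two_le_cos (x := θ)
  linarith

theorem w_le (h0 : 0 < θ) (h1 : θ ≤ π / 8) : 1 - cos θ ≤ (W1 : ℝ) := by
  have h2 := w_le_sq (θ := θ)
  have h3 : θ ≤ 3.1416 / 8 := by
    have := pi_lt_d4
    linarith
  have h4 : θ ^ 2 ≤ (3.1416 / 8) ^ 2 := by gcongr
  have : ((3.1416 : ℝ) / 8) ^ 2 / 2 ≤ (W1 : ℝ) := by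
    unfold W1
    norm_num
  linarith

/-- the coefficient of the opposite sector -/
theorem lam1_le (h0 : 0 < θ) (h1 : θ ≤ π / 8) :
    (sin θ - θ * cos θ) / π ≤ (1 - cos θ) * (1 / 12) := by
  have hpi := pi_pos
  have h2 := trig3 h0.le (by linarith : θ ≤ π)
  have hw := w_pos h0 h1
  rw [div_le_iff₀ hpi]
  have : 2 * θ / 3 * (1 - cos θ) ≤ (1 - cos θ) * (1 / 12) * π := by
    have : 2 * θ / 3 ≤ 1 / 12 * π := by linarith
    have := mul_le_mul_of_nonneg_right this hw.le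
    linarith
  linarith

theorem lam2_le (h0 : 0 < θ) (h1 : θ ≤ π / 8) :
    (θ - sin θ * cos θ) / π ≤ (1 - cos θ) * (1 / 6) := by
  have hpi := pi_pos
  have h2 := trig4 h0.le (by linarith : θ ≤ π)
  have h3 := lam1_le h0 h1
  have h4 : (θ - sin θ * cos θ) / π ≤ 2 * ((sin θ - θ * cos θ) / π) := by
    rw [div_le_iff₀ hpi]
    have : 2 * ((sin θ - θ * cos θ) / π) * π = 2 * (sin θ - θ * cos θ) := by
      field_simp
    rw [this]
    linarith
  linarith

theorem am_le (h0 : 0 < θ) (h1 : θ ≤ π / 8) :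
    cos (θ / 2) ^ 4 / (π * sin θ) * (1 - cos θ) ≤ 1 / 16 := by
  have hpi := pi_pos
  have hc : 0 < cos (θ / 2) := cos_pos_of_mem_Ioo ⟨by linarith, by linarith⟩
  have hs : 0 < sin (θ / 2) := sin_pos_of_pos_of_lt_pi (by linarith) (by linarith)
  have e1 : sin θ = 2 * sin (θ / 2) * cos (θ / 2) := by
    rw [← sin_two_mul]
    ring_nf
  have e2 : 1 - cos θ = 2 * sin (θ / 2) ^ 2 := by
    have : cos θ = cos (2 * (θ / 2)) := by ring_nf
    rw [this, cos_two_mul]
    have := sin_sq_add_cos_sq (θ / 2)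
    linarith
  rw [e1, e2]
  have e3 : cos (θ / 2) ^ 4 / (π * (2 * sin (θ / 2) * cos (θ / 2))) * (2 * sin (θ / 2) ^ 2) =
      cos (θ / 2) ^ 3 * sin (θ / 2) / π := by
    field_simp
  rw [e3, div_le_iff₀ hpi]
  have h3 : cos (θ / 2) ^ 3 ≤ 1 := pow_le_one₀ hc.le (cos_le_one _)
  have h4 : sin (θ / 2) ≤ θ / 2 := sin_le (by linarith)
  calc cos (θ / 2) ^ 3 * sin (θ / 2) ≤ 1 * (θ / 2) := mul_le_mul h3 h4 hs.le (by norm_num)
    _ ≤ 1 / 16 * π := by linarith

theorem gap_le (h0 : 0 < θ) (h1 : θ ≤ π / 8) :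
    sin θ ^ 4 / (π * sin θ) * (1 - cos θ) ≤ 149 / 100000 := by
  have hpi := pi_pos
  have hs : 0 < sin θ := sin_pos_of_pos_of_lt_pi h0 (by linarith)
  have e3 : sin θ ^ 4 / (π * sin θ) * (1 - cos θ) = sin θ ^ 3 * (1 - cos θ) / π := by
    field_simp
  rw [e3, div_le_iff₀ hpi]
  have hθ : θ ≤ 3.1416 / 8 := by
    have := pi_lt_d4
    linarith
  have h3 : sin θ ≤ 3.1416 / 8 := (sin_le h0.le).trans hθ
  have h4 : sin θ ^ 3 ≤ (3.1416 / 8) ^ 3 := by gcongr
  have h5 : 1 - cos θ ≤ (3.1416 / 8) ^ 2 / 2 := by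
    have := w_le_sq (θ := θ)
    have : θ ^ 2 ≤ (3.1416 / 8) ^ 2 := by gcongr
    linarith
  have hw := w_pos h0 h1
  have h6 := mul_le_mul h4 h5 hw.le (by positivity)
  have h7 : ((3.1416 : ℝ) / 8) ^ 3 * ((3.1416 / 8) ^ 2 / 2) ≤ 149 / 100000 * 3.1415 := by norm_num
  have := pi_gt_d4
  linarith

/-! ### the test -/

/-- the data of a pair -/
structure Pq where
  vi : ℕ
  vj : ℕ
  mode : Bool
  l : ℚ
  si : ℚ
  sj : ℚ

def kmax (I : Iv) : ℚ := max (I.f.q I.lo).k (I.f.q I.hi).k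
def Lq.Z (L : Lq) : ℚ := max L.z (L.e - L.k)
def zmax (I : Iv) : ℚ := max (I.f.q I.lo).Z (I.f.q I.hi).Z

/-- the test of the opposite sector -/
def oppB (k z l s n : ℚ) : Bool :=
  decide (z ≤ n) && decide (0 ≤ s) &&
    (decide (2 * k ≤ l) || decide ((2 * k - l) * (2 * k - l) ≤ 8 * s * (n - z)))

/-- the test of a pair -/
def pairB (I J : Iv) (V W : Vq) (P : Pq) : Bool :=
  let s := W1 * (V.K + W.K) / W.p
  let g := J.lo - I.hi * (1 + s)
  let r := I.hi * J.hi * (1 + s) / (g * g)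
  let T := if P.mode then 149 / 100000 * (r * r) else 1 / 16
  (!P.mode || decide (0 < g)) && decide (W.N ≤ V.n) && decide (V.N ≤ W.n) &&
    oppB (kmax J) (zmax J) P.l P.sj V.n && oppB (kmax I) (zmax I) P.l P.si W.n &&
    decide (0 ≤ P.l) &&
    decide (I.hi * J.hi * (T * ((V.K + W.K) * (V.K + W.K)) * (1 / V.p + 1 / W.p) +
      P.l * (1 / 12)) + (P.si * (I.hi * I.hi) + P.sj * (J.hi * J.hi)) * (1 / 6) ≤ V.G + W.G)

theorem k_le {I : Iv} (hlo : I.lo < I.hi) {R : ℝ} (R0 : (I.lo : ℝ) ≤ R) (R1 : R ≤ (I.hi : ℝ)) :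
    (I.f.L R).b0 ≤ (kmax I : ℝ) := by
  have rlo : (I.lo : ℝ) < I.hi := by exact_mod_cast hlo
  have h : 0 ≤ (kmax I : ℝ) - (I.f.L R).b0 := by
    refine affin (g := fun R => (kmax I : ℝ) - (I.f.L R).b0) (fun R => ?_) rlo R0 R1 ?_ ?_
    · simp only [Cf.L, mkL]
      ring
    · have : (I.f.q I.lo).k ≤ kmax I := le_max_left _ _
      simp only [Cf.q] at this
      simp only [Cf.L, mkL]
      have := (Rat.cast_le (K := ℝ)).2 this
      push_cast at this
      linarith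
    · have : (I.f.q I.hi).k ≤ kmax I := le_max_right _ _
      simp only [Cf.q] at this
      simp only [Cf.L, mkL]
      have := (Rat.cast_le (K := ℝ)).2 this
      push_cast at this
      linarith
  linarith

theorem z_le {I : Iv} (hlo : I.lo < I.hi) {R : ℝ} (R0 : (I.lo : ℝ) ≤ R) (R1 : R ≤ (I.hi : ℝ)) :
    (I.f.L R).Z ≤ (zmax I : ℝ) := by
  have rlo : (I.lo : ℝ) < I.hi := by exact_mod_cast hlo
  have a1 : (I.f.q I.lo).Z ≤ zmax I := le_max_left _ _
  have a2 : (I.f.q I.hi).Z ≤ zmax I := le_max_right _ _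
  have a3 : (I.f.q I.lo).z ≤ zmax I := (le_max_left _ _).trans a1
  have a4 : (I.f.q I.lo).e - (I.f.q I.lo).k ≤ zmax I := (le_max_right _ _).trans a1
  have a5 : (I.f.q I.hi).z ≤ zmax I := (le_max_left _ _).trans a2
  have a6 : (I.f.q I.hi).e - (I.f.q I.hi).k ≤ zmax I := (le_max_right _ _).trans a2
  unfold LF.Z
  apply max_le
  · have h : 0 ≤ (zmax I : ℝ) - (I.f.L R).zm := by
      refine affin (g := fun R => (zmax I : ℝ) - (I.f.L R).zm) (fun R => ?_) rlo R0 R1 ?_ ?_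
      · simp only [Cf.L, mkL]
        ring
      · simp only [Cf.q] at a3
        simp only [Cf.L, mkL]
        have := (Rat.cast_le (K := ℝ)).2 a3
        push_cast at this
        linarith
      · simp only [Cf.q] at a5
        simp only [Cf.L, mkL]
        have := (Rat.cast_le (K := ℝ)).2 a5
        push_cast at this
        linarith
    linarith
  · have h : 0 ≤ (zmax I : ℝ) - ((I.f.L R).b1 - (I.f.L R).b0) := by
      refine affin (g := fun R => (zmax I : ℝ) - ((I.f.L R).b1 - (I.f.L R).b0)) (fun R => ?_) rlo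
        R0 R1 ?_ ?_
      · simp only [Cf.L, mkL]
        ring
      · simp only [Cf.q] at a4
        simp only [Cf.L, mkL]
        have := (Rat.cast_le (K := ℝ)).2 a4
        push_cast at this
        linarith
      · simp only [Cf.q] at a6
        simp only [Cf.L, mkL]
        have := (Rat.cast_le (K := ℝ)).2 a6
        push_cast at this
        linarith
    linarith

theorem opp_sound {I : Iv} {l s n : ℚ} (hlo : I.lo < I.hi)
    (h : oppB (kmax I) (zmax I) l s n = true) {R : ℝ} (R0 : (I.lo : ℝ) ≤ R)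
    (R1 : R ≤ (I.hi : ℝ)) : (I.f.L R).Z ≤ (n : ℝ) ∧ (0 : ℝ) ≤ s ∧
      (2 * (I.f.L R).b0 ≤ (l : ℝ) ∨
        (2 * (I.f.L R).b0 - l) ^ 2 ≤ 8 * (s : ℝ) * (n - (I.f.L R).Z)) := by
  simp only [oppB, Bool.or_eq_true, Bool.and_eq_true, decide_eq_true_eq] at h
  obtain ⟨⟨h1, h2⟩, h3⟩ := h
  have hk := k_le hlo R0 R1
  have hz := z_le hlo R0 R1
  have r1 : (zmax I : ℝ) ≤ n := by exact_mod_cast h1
  have r2 : (0 : ℝ) ≤ s := by exact_mod_cast h2
  refine ⟨hz.trans r1, r2, ?_⟩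
  rcases le_total (2 * (I.f.L R).b0) (l : ℝ) with h | h
  · exact Or.inl h
  · rcases h3 with h3 | h3
    · have r3 : 2 * (kmax I : ℝ) ≤ l := by exact_mod_cast h3
      exact Or.inl (by linarith)
    · have r3 : (2 * (kmax I : ℝ) - l) * (2 * kmax I - l) ≤ 8 * s * (n - zmax I) := by
        exact_mod_cast h3
      right
      have e1 : 0 ≤ 2 * (I.f.L R).b0 - l := by linarith
      have e2 : 2 * (I.f.L R).b0 - l ≤ 2 * (kmax I : ℝ) - l := by linarith
      have e3 : (2 * (I.f.L R).b0 - l) ^ 2 ≤ (2 * (kmax I : ℝ) - l) ^ 2 := by gcongr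
      have e4 : 8 * (s : ℝ) * (n - zmax I) ≤ 8 * s * (n - (I.f.L R).Z) := by
        apply mul_le_mul_of_nonneg_left _ (by positivity)
        linarith
      calc (2 * (I.f.L R).b0 - l) ^ 2 ≤ (2 * (kmax I : ℝ) - l) ^ 2 := e3
        _ = (2 * (kmax I : ℝ) - l) * (2 * kmax I - l) := by ring
        _ ≤ _ := r3.trans e4

/-- **the test of a pair is sound** -/
theorem pair_sound {I J : Iv} {V W : Vq} {P : Pq} (hV : verB I V = true) (hW : verB J W = true)
    (hP : pairB I J V W P = true) {Rj Rk : ℝ} (hj0 : 0 < Rj) (hj1 : (I.lo : ℝ) ≤ Rj)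
    (hj2 : Rj ≤ (I.hi : ℝ)) (hj3 : Rj < 3) (hk0 : 0 < Rk) (hk1 : (J.lo : ℝ) ≤ Rk)
    (hk2 : Rk ≤ (J.hi : ℝ)) (hk3 : Rk < 3) (hLj : Lz Rj = I.f.L Rj) (hLk : Lz Rk = J.f.L Rk)
    (h0 : 0 < θ) (h1 : θ ≤ π / 8) : RPair Fz g0z g1z g2z Rj Rk θ (cos θ) := by
  have hpi := pi_pos
  have hθπ : θ < π := by linarith
  obtain ⟨w, hw⟩ : ∃ w, w = 1 - cos θ := ⟨_, rfl⟩
  have w0 : 0 < w := hw ▸ w_pos h0 h1
  have w1 : w ≤ (W1 : ℝ) := hw ▸ w_le h0 h1
  have tV := ver_sound hV w0.le w1 hj1 hj2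
  have tW := ver_sound hW w0.le w1 hk1 hk2
  have hloI : I.lo < I.hi := by
    simp only [verB, Bool.and_eq_true, decide_eq_true_eq] at hV
    exact hV.1.2
  have hloJ : J.lo < J.hi := by
    simp only [verB, Bool.and_eq_true, decide_eq_true_eq] at hW
    exact hW.1.2
  have hlI0 : 0 ≤ I.lo := by
    simp only [verB, Bool.and_eq_true, decide_eq_true_eq] at hV
    exact hV.2
  have hlJ0 : 0 ≤ J.lo := by
    simp only [verB, Bool.and_eq_true, decide_eq_true_eq] at hW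
    exact hW.2
  simp only [pairB, Bool.and_eq_true, decide_eq_true_eq] at hP
  obtain ⟨⟨⟨⟨⟨⟨p1, p2⟩, p3⟩, p4⟩, p5⟩, p6⟩, p7⟩ := hP
  obtain ⟨oz1, os1, oc1⟩ := opp_sound hloJ p4 hk1 hk2
  obtain ⟨oz2, os2, oc2⟩ := opp_sound hloI p5 hj1 hj2
  have r2 : (W.N : ℝ) ≤ V.n := by exact_mod_cast p2
  have r3 : (V.N : ℝ) ≤ W.n := by exact_mod_cast p3
  have r6 : (0 : ℝ) ≤ P.l := by exact_mod_cast p6
  have hFj : Fz Rj = (I.f.L Rj).F := by
    unfold Fz
    rw [hLj]
  have hFk : Fz Rk = (J.f.L Rk).F := by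
    unfold Fz
    rw [hLk]
  have g1j : g1z Rj = (I.f.L Rj).b0 := by rw [g1z_lt hj3, hLj]
  have g1k : g1z Rk = (J.f.L Rk).b0 := by rw [g1z_lt hk3, hLk]
  have g0j : g0z Rj = -√2 * Rj + (I.f.L Rj).a1 - (I.f.L Rj).b0 := by rw [g0z_lt hj3, hLj]
  have g0k : g0z Rk = -√2 * Rk + (J.f.L Rk).a1 - (J.f.L Rk).b0 := by rw [g0z_lt hk3, hLk]
  have hc : cos θ = 1 - w := by rw [hw]; ring
  have bj : w * (V.v : ℝ) + cos θ * g1z Rj =
      (I.f.L Rj).b0 - w * ((I.f.L Rj).b0 - V.v) := by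
    rw [g1j, hc]
    ring
  have bk : w * (W.v : ℝ) + cos θ * g1z Rk =
      (J.f.L Rk).b0 - w * ((J.f.L Rk).b0 - W.v) := by
    rw [g1k, hc]
    ring
  -- the number `s` and the bound of the product of the cosines
  obtain ⟨s, hs⟩ : ∃ s : ℝ, s = W1 * (V.K + W.K) / W.p := ⟨_, rfl⟩
  have hW1 : (0 : ℝ) < (W1 : ℝ) := by
    unfold W1
    norm_num
  have hKK : (0 : ℝ) ≤ V.K + W.K := add_nonneg tV.K tW.K
  have hs0 : 0 ≤ s := by
    rw [hs]
    have := tW.p
    positivity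
  have hσ : w * V.K + w * W.K ≤ s * W.p := by
    rw [hs, div_mul_cancel₀ _ tW.p.ne']
    have := mul_le_mul_of_nonneg_right w1 hKK
    linarith
  obtain ⟨T, hT⟩ : ∃ T : ℚ, T = if P.mode then 149 / 100000 *
    ((I.hi * J.hi * (1 + W1 * (V.K + W.K) / W.p) /
      ((J.lo - I.hi * (1 + W1 * (V.K + W.K) / W.p)) *
        (J.lo - I.hi * (1 + W1 * (V.K + W.K) / W.p)))) *
      (I.hi * J.hi * (1 + W1 * (V.K + W.K) / W.p) /
      ((J.lo - I.hi * (1 + W1 * (V.K + W.K) / W.p)) *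
        (J.lo - I.hi * (1 + W1 * (V.K + W.K) / W.p))))) else 1 / 16 := ⟨_, rfl⟩
  rw [← hT] at p7
  -- the constant M
  obtain ⟨M, hM0, hM1, hM2, hMT⟩ : ∃ M : ℝ, 0 ≤ M ∧
      (∀ τ ∈ Set.Icc (-(π / 2 - θ / 2)) (π / 2 - θ / 2),
        Rk * cos (τ - θ / 2) ≤ (1 + s) * (Rj * cos (τ + θ / 2)) →
        (cos (τ + θ / 2) * cos (τ - θ / 2)) ^ 2 ≤ M) ∧ True ∧
      M / (π * sin θ) * w ≤ (T : ℝ) := by
    by_cases hm : P.mode = true
    · rw [hm] at p1
      have hg : 0 < J.lo - I.hi * (1 + W1 * (V.K + W.K) / W.p) := by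
        simpa using p1
      obtain ⟨g, hgd⟩ : ∃ g : ℝ, g = J.lo - I.hi * (1 + s) := ⟨_, rfl⟩
      have hg0 : 0 < g := by
        rw [hgd, hs]
        exact_mod_cast hg
      have hgR : g ≤ Rk - Rj * (1 + s) := by
        rw [hgd]
        have := mul_le_mul_of_nonneg_right hj2 (by linarith : (0 : ℝ) ≤ 1 + s)
        linarith
      refine ⟨(Rj * Rk * (1 + s) / (Rk - Rj * (1 + s)) ^ 2) ^ 2 * sin θ ^ 4, by positivity, ?_,
        trivial, ?_⟩
      · intro τ hτ hle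
        have := M_gap (a := Rj) (b := Rk) (h := θ / 2) (s := s) hj0 hk0 (by linarith) hs0
          (by linarith) hτ hle
        rwa [show 2 * (θ / 2) = θ by ring] at this
      · have hr : Rj * Rk * (1 + s) / (Rk - Rj * (1 + s)) ^ 2 ≤
            I.hi * J.hi * (1 + s) / (g * g) := by
          have n1 : Rj * Rk * (1 + s) ≤ I.hi * J.hi * (1 + s) := by
            have : Rj * Rk ≤ I.hi * J.hi := mul_le_mul hj2 hk2 hk0.le (hj0.le.trans hj2)
            exact mul_le_mul_of_nonneg_right this (by linarith)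
          have n2 : g * g ≤ (Rk - Rj * (1 + s)) ^ 2 := by
            rw [sq]
            exact mul_self_le_mul_self hg0.le hgR
          have n3 : 0 ≤ (I.hi : ℝ) * J.hi * (1 + s) := le_trans (by positivity) n1
          exact div_le_div₀ n3 n1 (by positivity) n2
        have hr0 : 0 ≤ Rj * Rk * (1 + s) / (Rk - Rj * (1 + s)) ^ 2 := by positivity
        have hr2 : (Rj * Rk * (1 + s) / (Rk - Rj * (1 + s)) ^ 2) ^ 2 ≤
            (I.hi * J.hi * (1 + s) / (g * g)) * (I.hi * J.hi * (1 + s) / (g * g)) := by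
          rw [sq]
          exact mul_self_le_mul_self hr0 hr
        have hgl := gap_le h0 h1
        rw [← hw] at hgl
        have hsθ : 0 < sin θ := sin_pos_of_pos_of_lt_pi h0 hθπ
        have h3 : 0 ≤ sin θ ^ 4 / (π * sin θ) * w := by positivity
        have h4 := mul_le_mul hr2 hgl h3 (mul_self_nonneg _)
        have e1 : (T : ℝ) = (I.hi * J.hi * (1 + s) / (g * g)) *
            (I.hi * J.hi * (1 + s) / (g * g)) * (149 / 100000) := by
          rw [hT, if_pos hm, hgd, hs]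
          push_cast
          ring
        rw [e1]
        refine le_trans (le_of_eq ?_) h4
        ring
    · refine ⟨cos (θ / 2) ^ 4, by positivity, fun τ hτ _ => M_am (by linarith) hτ, trivial, ?_⟩
      have := am_le h0 h1
      rw [← hw] at this
      rw [hT, if_neg hm]
      push_cast
      exact this
  have hsθ : 0 < sin θ := sin_pos_of_pos_of_lt_pi h0 hθπ
  refine RPair_slab2 (L := I.f.L Rj) (K := J.f.L Rk) (u := w * V.v) (v := w * W.v)
    (αj := (I.f.L Rj).a1 - (I.f.L Rj).b0 + w * V.a)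
    (αk := (J.f.L Rk).a1 - (J.f.L Rk).b0 + w * W.a) (ηj := w * V.h) (ηk := w * W.h)
    (κj := w * V.K) (κk := w * W.K) (pj := V.p) (pk := W.p) (nj := V.n) (nk := W.n) (Nj := V.N)
    (Nk := W.N) (l := P.l) (sj := P.si) (sk := P.sj) (M := M) hj0 hk0 h0 hθπ hFj hFk
    (mul_pos w0 tV.v) (mul_pos w0 tW.v) ?_ ?_ tV.p tW.p ?_ r2 r3 oz1 oz2 r6 os2 os1 oc1 oc2 hM0
    ?_ ?_ ?_
  · rw [bj]
    exact tV.dt
  · rw [bk]
    exact tW.dt
  · have := tV.K
    have := tW.K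
    positivity
  · intro τ hτ hlt _
    apply hM1 τ hτ
    have x0 : 0 ≤ Rj * cos (τ + θ / 2) := mul_nonneg hj0.le
      (cos_nonneg_of_mem_Icc ⟨by linarith [hτ.1], by linarith [hτ.2]⟩)
    have h2 := mul_le_mul_of_nonneg_right hσ x0
    have h3 : (W.p : ℝ) * (Rk * cos (τ - θ / 2) - Rj * cos (τ + θ / 2)) <
        W.p * (s * (Rj * cos (τ + θ / 2))) := by
      calc (W.p : ℝ) * (Rk * cos (τ - θ / 2) - Rj * cos (τ + θ / 2)) <
          (w * V.K + w * W.K) * (Rj * cos (τ + θ / 2)) := hlt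
        _ ≤ s * W.p * (Rj * cos (τ + θ / 2)) := h2
        _ = _ := by ring
    have h4 := lt_of_mul_lt_mul_left h3 tW.p.le
    linarith
  · intro τ hτ hle
    apply hM1 τ hτ
    have x0 : 0 ≤ Rj * cos (τ + θ / 2) := mul_nonneg hj0.le
      (cos_nonneg_of_mem_Icc ⟨by linarith [hτ.1], by linarith [hτ.2]⟩)
    have := mul_nonneg hs0 x0
    linarith
  · -- the scalar inequality
    have G1 := mul_le_mul_of_nonneg_left tV.G w0.le
    have G2 := mul_le_mul_of_nonneg_left tW.G w0.le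
    have l1 := lam1_le h0 h1
    have l2 := lam2_le h0 h1
    rw [← hw] at l1 l2
    have hRR : 0 ≤ Rj * Rk := by positivity
    have hRR' : Rj * Rk ≤ I.hi * J.hi := mul_le_mul hj2 hk2 hk0.le (hj0.le.trans hj2)
    have pj := tV.p
    have pk := tW.p
    have hpp : (0 : ℝ) ≤ 1 / V.p + 1 / W.p := by positivity
    have hT0 : (0 : ℝ) ≤ T := le_trans (by positivity) hMT
    -- first term
    have t1 : Rj * Rk * (M / (π * sin θ) * (w * V.K + w * W.K) ^ 2 * (1 / V.p + 1 / W.p)) ≤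
        w * (I.hi * J.hi * (T * ((V.K + W.K) * (V.K + W.K)) * (1 / V.p + 1 / W.p))) := by
      have e1 : Rj * Rk * (M / (π * sin θ) * (w * V.K + w * W.K) ^ 2 * (1 / V.p + 1 / W.p)) =
          w * (Rj * Rk * ((M / (π * sin θ) * w) * ((V.K + W.K) * (V.K + W.K)) *
            (1 / V.p + 1 / W.p))) := by ring
      rw [e1]
      apply mul_le_mul_of_nonneg_left _ w0.le
      have hq : (0 : ℝ) ≤ (V.K + W.K) * (V.K + W.K) := mul_self_nonneg _
      have a1 : (M / (π * sin θ) * w) * (((V.K : ℝ) + W.K) * (V.K + W.K)) *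
            (1 / V.p + 1 / W.p) ≤ T * ((V.K + W.K) * (V.K + W.K)) * (1 / V.p + 1 / W.p) :=
        mul_le_mul_of_nonneg_right (mul_le_mul_of_nonneg_right hMT hq) hpp
      have a2 : 0 ≤ (M / (π * sin θ) * w) * (((V.K : ℝ) + W.K) * (V.K + W.K)) *
            (1 / V.p + 1 / W.p) := by positivity
      exact mul_le_mul hRR' a1 a2 (hRR.trans hRR')
    have t2 : Rj * Rk * (P.l * ((sin θ - θ * cos θ) / π)) ≤
        w * (I.hi * J.hi * (P.l * (1 / 12))) := by
      have a1 : P.l * ((sin θ - θ * cos θ) / π) ≤ P.l * (w * (1 / 12)) :=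
        mul_le_mul_of_nonneg_left l1 r6
      have a2 : 0 ≤ (P.l : ℝ) * (w * (1 / 12)) := by positivity
      calc Rj * Rk * (P.l * ((sin θ - θ * cos θ) / π)) ≤ Rj * Rk * (P.l * (w * (1 / 12))) :=
            mul_le_mul_of_nonneg_left a1 hRR
        _ ≤ I.hi * J.hi * (P.l * (w * (1 / 12))) := mul_le_mul_of_nonneg_right hRR' a2
        _ = _ := by ring
    have t3 : ((P.si : ℝ) * Rj ^ 2 + P.sj * Rk ^ 2) * ((θ - sin θ * cos θ) / π) ≤
        w * ((P.si * (I.hi * I.hi) + P.sj * (J.hi * J.hi)) * (1 / 6)) := by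
      have a1 : (P.si : ℝ) * Rj ^ 2 + P.sj * Rk ^ 2 ≤
          P.si * (I.hi * I.hi) + P.sj * (J.hi * J.hi) := by
        have b1 : Rj ^ 2 ≤ I.hi * I.hi := by
          rw [sq]
          exact mul_self_le_mul_self hj0.le hj2
        have b2 : Rk ^ 2 ≤ J.hi * J.hi := by
          rw [sq]
          exact mul_self_le_mul_self hk0.le hk2
        have := mul_le_mul_of_nonneg_left b1 os2
        have := mul_le_mul_of_nonneg_left b2 os1
        linarith
      have a3 : 0 ≤ (P.si : ℝ) * Rj ^ 2 + P.sj * Rk ^ 2 := by positivity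
      calc ((P.si : ℝ) * Rj ^ 2 + P.sj * Rk ^ 2) * ((θ - sin θ * cos θ) / π) ≤
          ((P.si : ℝ) * Rj ^ 2 + P.sj * Rk ^ 2) * (w * (1 / 6)) :=
            mul_le_mul_of_nonneg_left l2 a3
        _ ≤ (P.si * (I.hi * I.hi) + P.sj * (J.hi * J.hi)) * (w * (1 / 6)) :=
            mul_le_mul_of_nonneg_right a1 (by positivity)
        _ = _ := by ring
    have p7' : (I.hi * J.hi * (T * ((V.K + W.K) * (V.K + W.K)) * (1 / V.p + 1 / W.p) +
      P.l * (1 / 12)) + (P.si * (I.hi * I.hi) + P.sj * (J.hi * J.hi)) * (1 / 6) : ℝ) ≤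
        V.G + W.G := by
      have := (Rat.cast_le (K := ℝ)).2 p7
      push_cast at this
      exact this
    have p8 := mul_le_mul_of_nonneg_left p7' w0.le
    rw [g2z_lt hj3, g2z_lt hk3, g0j, g0k, one_mul, ← hw, hc]
    have hv1 := tV.v
    have hv2 := tW.v
    have d1 : w ^ 2 / (2 * (w * V.v)) = w * (1 / (2 * V.v)) := by
      field_simp
    have d2 : w ^ 2 / (2 * (w * W.v)) = w * (1 / (2 * W.v)) := by
      field_simp
    rw [d1, d2]
    rw [hc] at t2 t3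
    linarith

end Pool.Agent.RRS
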