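import Pool.Agent.RRS.Cells

/-!
# Small angles: the pointwise inequality

The dual data of a type at a given angle are three numbers `α, β, η`.  `tv` is the value of the part
of one type.  All conditions of `DT` concern one type only.
-/

set_option autoImplicit false

noncomputable section

namespace Pool.Agent.RRS

open Real

/-- the part of one type; `e = ±1` is the factor of its multiplier -/
def tv (L : LF) (α β η e : ℝ) (s i : Bool) (X m : ℝ) : ℝ :=
  α * m ^ 2 + β * (sg s * X * m) + e * (L.p s i * (X * m) + L.q s i * m ^ 2) + η * X ^ 2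

/-- the conditions of a type; `n` is a bound of `N` and `zm` of the partners -/
structure DT (L : LF) (α β η κ S n N : ℝ) : Prop where
  a1 : 0 ≤ L.a1
  b0 : 0 ≤ L.b0
  nu : L.b1 - L.b0 ≤ L.zm
  negIn : ∀ X m : ℝ, 0 ≤ m → m ≤ X → 0 ≤ tv L α β η 1 false true X m
  negOut : ∀ X m : ℝ, 0 ≤ X → X ≤ m → 0 ≤ tv L α β η 1 false false X m
  tie : ∀ X m : ℝ, 0 ≤ m → m ≤ X →
    (S - 2 * κ) * (X * m) - (S - κ) * m ^ 2 ≤ tv L α β η (-1) true true X m
  out0 : ∀ X m : ℝ, 0 ≤ X → X ≤ m → 0 ≤ tv L α β η 1 true false X m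
  out1 : ∀ X m : ℝ, 0 ≤ X → X ≤ m → -(2 * N * m ^ 2) ≤ tv L α β η (-1) true false X m
  in0 : ∀ X m : ℝ, 0 ≤ m → m ≤ X → 2 * n * m ^ 2 ≤ tv L α β η 1 true true X m

/-- the positive part -/
def Dp (κ S X Y : ℝ) : ℝ := max 0 (2 * κ * (X * Y) - S * (min X Y * |X - Y|))

theorem Dp_nonneg (κ S X Y : ℝ) : 0 ≤ Dp κ S X Y := le_max_left _ _

theorem Dp_symm (κ S X Y : ℝ) : Dp κ S X Y = Dp κ S Y X := by
  unfold Dp
  rw [mul_comm X Y, min_comm X Y, abs_sub_comm X Y]

/-- both weights are one -/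
theorem tie_aux {κ S X Y m : ℝ} (h0 : κ ≤ S) (hm : 0 ≤ m) (hX : m ≤ X) (hY : m ≤ Y) :
    0 ≤ ((S - 2 * κ) * (X * m) - (S - κ) * m ^ 2) + ((S - 2 * κ) * (Y * m) - (S - κ) * m ^ 2) +
      Dp κ S X Y := by
  wlog h : Y ≤ X generalizing X Y
  · have := this hY hX (le_of_not_ge h)
    rw [Dp_symm]
    linarith
  · have hD : 2 * κ * (X * Y) - S * (Y * (X - Y)) ≤ Dp κ S X Y := by
      unfold Dp
      rw [min_eq_right h, abs_of_nonneg (sub_nonneg.2 h)]
      exact le_max_right _ _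
    have hD0 := Dp_nonneg κ S X Y
    -- concave in `m`: the values at `0` and at `Y`
    have hY0 : 0 ≤ Y := hm.trans hY
    rcases hY0.eq_or_lt with h1 | h1
    · have : m = 0 := by linarith
      subst this
      nlinarith
    · have e : Y * (((S - 2 * κ) * (X * m) - (S - κ) * m ^ 2) +
          ((S - 2 * κ) * (Y * m) - (S - κ) * m ^ 2) + Dp κ S X Y) =
          (Y - m) * Dp κ S X Y + m * (Dp κ S X Y - (2 * κ * (X * Y) - S * (Y * (X - Y)))) +
            2 * (S - κ) * (m * (Y - m) * Y) := by ring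
      have : 0 ≤ Y * (((S - 2 * κ) * (X * m) - (S - κ) * m ^ 2) +
          ((S - 2 * κ) * (Y * m) - (S - κ) * m ^ 2) + Dp κ S X Y) := by
        rw [e]
        have b1 := mul_nonneg (sub_nonneg.2 hY) hD0
        have b2 := mul_nonneg hm (sub_nonneg.2 hD)
        have b3 := mul_nonneg (mul_nonneg zero_le_two (sub_nonneg.2 h0))
          (mul_nonneg (mul_nonneg hm (sub_nonneg.2 hY)) hY0)
        linarith
      exact nonneg_of_mul_nonneg_right this h1

variable {L K : LF} {αj βj ηj αk βk ηk κ S nj nk Nj Nk : ℝ}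

theorem Qc_eq_tv (L K : LF) (αj βj ηj αk βk ηk : ℝ) (sx sy ix iy : Bool) (X Y m k : ℝ) :
    Qc L K (αj + αk) βj βk sx sy ix iy X Y m (ηj * X ^ 2 + ηk * Y ^ 2 + k) =
      tv L αj βj ηj (ef sy iy) sx ix X m + tv K αk βk ηk (ef sx ix) sy iy Y m + k := by
  unfold Qc tv
  ring

/-- both coordinates are nonnegative -/
theorem pwat_pp (hj : DT L αj βj ηj κ S nj Nj) (hk : DT K αk βk ηk κ S nk Nk) (h0 : κ ≤ S)
    (hjk : Nk ≤ nj) (hkj : Nj ≤ nk) {X Y : ℝ} (hX : 0 ≤ X) (hY : 0 ≤ Y) :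
    PWat L.F K.F (αj + αk) βj βk X Y (ηj * X ^ 2 + ηk * Y ^ 2 + Dp κ S X Y) := by
  have key := PWat_of_cells (L := L) (K := K) (α := αj + αk) (β := βj) (γ := βk) (sx := true)
    (sy := true) (k := ηj * X ^ 2 + ηk * Y ^ 2 + Dp κ S X Y) hj.a1 hk.a1 hX hY
    (Or.inl rfl) (Or.inl rfl) ?_
  · simpa [sg] using key
  · intro ix iy m hm hi hi'
    rw [Qc_eq_tv]
    have hD := Dp_nonneg κ S X Y
    cases ix <;> cases iy <;> simp only [inC, if_true, Bool.false_eq_true, if_false] at hi hi' <;>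
      simp only [ef, Bool.and_self, Bool.and_true, Bool.and_false, Bool.true_and, if_true,
        Bool.false_eq_true, if_false]
    · have a := hj.out0 X m hX hi
      have b := hk.out0 Y m hY hi'
      linarith
    · -- X ≤ m ≤ Y
      have a := hj.out1 X m hX hi
      have b := hk.in0 Y m hm hi'
      nlinarith [mul_nonneg (sub_nonneg.2 hkj) (sq_nonneg m)]
    · have a := hk.out1 Y m hY hi'
      have b := hj.in0 X m hm hi
      nlinarith [mul_nonneg (sub_nonneg.2 hjk) (sq_nonneg m)]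
    · have a := hj.tie X m hm hi
      have b := hk.tie Y m hm hi'
      have c := tie_aux h0 hm hi hi'
      linarith

/-- both coordinates are nonpositive -/
theorem pwat_nn (hj : DT L αj βj ηj κ S nj Nj) (hk : DT K αk βk ηk κ S nk Nk) {X Y : ℝ}
    (hX : 0 < X)
    (hY : 0 < Y) :
    PWat L.F K.F (αj + αk) βj βk (-X) (-Y) (ηj * X ^ 2 + ηk * Y ^ 2 + Dp κ S X Y) := by
  have key := PWat_of_cells (L := L) (K := K) (α := αj + αk) (β := βj) (γ := βk) (sx := false)
    (sy := false) (k := ηj * X ^ 2 + ηk * Y ^ 2 + Dp κ S X Y) hj.a1 hk.a1 hX.le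
    hY.le (Or.inr hX) (Or.inr hY) ?_
  · simpa [sg] using key
  · intro ix iy m hm hi hi'
    rw [Qc_eq_tv]
    have hD := Dp_nonneg κ S X Y
    have hN : ∀ {M : LF} {α β η n N : ℝ}, DT M α β η κ S n N → ∀ (i : Bool) (Z : ℝ),
        0 ≤ Z → inC i Z m → 0 ≤ tv M α β η 1 false i Z m := by
      intro M α β η n N h i Z hZ hi
      cases i
      · exact h.negOut Z m hZ (by simpa [inC] using hi)
      · exact h.negIn Z m hm (by simpa [inC] using hi)
    have a := hN hj ix X hX.le hi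
    have b := hN hk iy Y hY.le hi'
    simp only [ef, Bool.false_and, Bool.false_eq_true, if_false]
    linarith

/-- the multiplier on the negative side -/
theorem phi_le {M : LF} (h : M.b1 - M.b0 ≤ M.zm) {i : Bool} {Y m : ℝ} (hm : 0 ≤ m) (hY : 0 ≤ Y)
    : M.p false i * (Y * m) + M.q false i * m ^ 2 ≤ M.b0 * (Y * m) + M.zm * m ^ 2 := by
  cases i
  · simp only [LF.p, LF.q]
    nlinarith [mul_nonneg (sub_nonneg.2 h) (mul_nonneg hY hm)]
  · simp only [LF.p, LF.q]
    nlinarith [mul_nonneg (sub_nonneg.2 h) (sq_nonneg m)]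

/-- opposite signs -/
theorem pwat_pn (hj : DT L αj βj ηj κ S nj Nj) (hk : DT K αk βk ηk κ S nk Nk)
    (hjk : K.zm ≤ nj) {l : ℝ} (hl : 2 * K.b0 ≤ l) {X Y : ℝ} (hX : 0 ≤ X) (hY : 0 < Y) :
    PWat L.F K.F (αj + αk) βj βk X (-Y) (ηj * X ^ 2 + ηk * Y ^ 2 + l * (X * Y)) := by
  have key := PWat_of_cells (L := L) (K := K) (α := αj + αk) (β := βj) (γ := βk) (sx := true)
    (sy := false) (k := ηj * X ^ 2 + ηk * Y ^ 2 + l * (X * Y)) hj.a1 hk.a1 hX hY.le
    (Or.inl rfl) (Or.inr hY) ?_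
  · simpa [sg] using key
  · intro ix iy m hm hi hi'
    rw [Qc_eq_tv]
    have hN : 0 ≤ tv K αk βk ηk 1 false iy Y m := by
      cases iy
      · exact hk.negOut Y m hY.le (by simpa [inC] using hi')
      · exact hk.negIn Y m hm (by simpa [inC] using hi')
    have hXY := mul_nonneg hX hY.le
    have hb := hk.b0
    have hl0 : 0 ≤ l := by linarith
    cases ix <;> simp only [inC, if_true, Bool.false_eq_true, if_false] at hi <;>
      simp only [ef, Bool.and_false, Bool.false_and, Bool.and_self, Bool.true_and, if_true,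
        Bool.false_eq_true, if_false]
    · have a := hj.out0 X m hX hi
      have := mul_nonneg hl0 hXY
      linarith
    · have a := hj.in0 X m hm hi
      have b := phi_le hk.nu (i := iy) hm hY.le
      have c : tv K αk βk ηk (-1) false iy Y m = tv K αk βk ηk 1 false iy Y m -
          2 * (K.p false iy * (Y * m) + K.q false iy * m ^ 2) := by
        unfold tv
        ring
      rw [c]
      have d1 : Y * m ≤ X * Y := by nlinarith
      have d2 : 2 * (K.b0 * (Y * m)) ≤ l * (X * Y) := by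
        have := mul_le_mul_of_nonneg_left d1 hb
        nlinarith [mul_le_mul_of_nonneg_right hl hXY]
      nlinarith [mul_nonneg (sub_nonneg.2 hjk) (sq_nonneg m)]

/-- swapping the two types -/
theorem PWat.swapS {F G : ℝ → ℝ → ℝ} {α β γ x y k : ℝ} (h : PWat F G α β γ x y k) :
    PWat G F α γ β y x k := by
  intro m s t hm s0 s1 t0 t1 a1 a2 a3 a4
  have := h m t s hm t0 t1 s0 s1 a3 a4 a1 a2
  linarith

end Pool.Agent.RRS
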