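import Pool.Agent.RRS.SlabPW

/-!
# Small angles: the pointwise inequality with constants of each type

As `SlabPW`, but every type has its own constants `κ` and `p`.
-/

set_option autoImplicit false

noncomputable section

namespace Pool.Agent.RRS

open Real

/-- the bound of the coefficient of `m ^ 2` on the negative side -/
def LF.Z (L : LF) : ℝ := max L.zm (L.b1 - L.b0)

theorem LF.zm_le_Z (L : LF) : L.zm ≤ L.Z := le_max_left _ _
theorem LF.b1_le_Z (L : LF) : L.b1 - L.b0 ≤ L.Z := le_max_right _ _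

/-- the multiplier on the negative side -/
theorem phi_le2 {M : LF} {i : Bool} {Y m : ℝ} (hm : 0 ≤ m) (hY : 0 ≤ Y) (hi : inC i Y m) :
    M.p false i * (Y * m) + M.q false i * m ^ 2 ≤ M.b0 * (Y * m) + M.Z * m ^ 2 := by
  have z1 := M.zm_le_Z
  have z2 := M.b1_le_Z
  cases i
  · simp only [LF.p, LF.q]
    simp only [inC, Bool.false_eq_true, if_false] at hi
    have h1 : 0 ≤ (M.Z - M.zm) * (m * (m - Y)) :=
      mul_nonneg (sub_nonneg.2 z1) (mul_nonneg hm (sub_nonneg.2 hi))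
    have h2 : 0 ≤ (M.Z - (M.b1 - M.b0)) * (Y * m) :=
      mul_nonneg (sub_nonneg.2 z2) (mul_nonneg hY hm)
    linarith
  · simp only [LF.p, LF.q]
    have := mul_nonneg (sub_nonneg.2 z2) (sq_nonneg m)
    linarith

/-- the conditions of a type; `n` is a bound of `N` and `Z` of the partners -/
structure DT2 (L : LF) (α β η κ p n N : ℝ) : Prop where
  a1 : 0 ≤ L.a1
  b0 : 0 ≤ L.b0
  negIn : ∀ X m : ℝ, 0 ≤ m → m ≤ X → 0 ≤ tv L α β η 1 false true X m
  negOut : ∀ X m : ℝ, 0 ≤ X → X ≤ m → 0 ≤ tv L α β η 1 false false X m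
  tie : ∀ X m : ℝ, 0 ≤ m → m ≤ X →
    p * (X * m) - (p + κ) * m ^ 2 ≤ tv L α β η (-1) true true X m
  out0 : ∀ X m : ℝ, 0 ≤ X → X ≤ m → 0 ≤ tv L α β η 1 true false X m
  out1 : ∀ X m : ℝ, 0 ≤ X → X ≤ m → -(2 * N * m ^ 2) ≤ tv L α β η (-1) true false X m
  in0 : ∀ X m : ℝ, 0 ≤ m → m ≤ X → 2 * n * m ^ 2 ≤ tv L α β η 1 true true X m

/-- the positive part -/
def Dg (pj pk σ X Y : ℝ) : ℝ :=
  min X Y * max 0 (σ * min X Y - pj * (X - min X Y) - pk * (Y - min X Y))

theorem Dg_nonneg {pj pk σ X Y : ℝ} (hX : 0 ≤ X) (hY : 0 ≤ Y) : 0 ≤ Dg pj pk σ X Y :=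
  mul_nonneg (le_min hX hY) (le_max_left _ _)

theorem Dg_symm (pj pk σ X Y : ℝ) : Dg pj pk σ X Y = Dg pk pj σ Y X := by
  unfold Dg
  rw [min_comm X Y]
  congr 2
  ring

theorem Dg_zero_left {pj pk σ Y : ℝ} (hY : 0 ≤ Y) : Dg pj pk σ 0 Y = 0 := by
  unfold Dg
  rw [min_eq_left hY, zero_mul]

theorem Dg_zero_right {pj pk σ X : ℝ} (hX : 0 ≤ X) : Dg pj pk σ X 0 = 0 := by
  rw [Dg_symm, Dg_zero_left hX]

/-- both weights are one -/
theorem tie_aux2 {κj κk pj pk X Y m : ℝ} (h1 : 0 ≤ pj) (h2 : 0 ≤ pk) (h3 : 0 ≤ κj + κk)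
    (hm : 0 ≤ m) (hX : m ≤ X) (hY : m ≤ Y) :
    0 ≤ (pj * (X * m) - (pj + κj) * m ^ 2) + (pk * (Y * m) - (pk + κk) * m ^ 2) +
      Dg pj pk (κj + κk) X Y := by
  unfold Dg
  obtain ⟨M, hM⟩ : ∃ M, M = min X Y := ⟨_, rfl⟩
  rw [← hM]
  have hmM : m ≤ M := hM ▸ le_min hX hY
  obtain ⟨T, hT⟩ : ∃ T, T = (κj + κk) * M - pj * (X - M) - pk * (Y - M) := ⟨_, rfl⟩
  rw [← hT]
  have e : (pj * (X * m) - (pj + κj) * m ^ 2) + (pk * (Y * m) - (pk + κk) * m ^ 2) =
      -(m * T) + (κj + κk + pj + pk) * (m * (M - m)) := by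
    rw [hT]
    ring
  rw [e]
  have b1 : 0 ≤ (κj + κk + pj + pk) * (m * (M - m)) :=
    mul_nonneg (by linarith) (mul_nonneg hm (sub_nonneg.2 hmM))
  rcases le_total T 0 with h | h
  · rw [max_eq_left h]
    have := mul_nonneg hm (neg_nonneg.2 h)
    linarith
  · rw [max_eq_right h]
    have := mul_nonneg (sub_nonneg.2 hmM) h
    linarith

variable {L K : LF} {αj βj ηj αk βk ηk κj κk pj pk nj nk Nj Nk : ℝ}

/-- both coordinates are nonnegative -/
theorem pwat_pp2 (hj : DT2 L αj βj ηj κj pj nj Nj) (hk : DT2 K αk βk ηk κk pk nk Nk)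
    (h1 : 0 ≤ pj) (h2 : 0 ≤ pk) (h0 : 0 ≤ κj + κk)
    (hjk : Nk ≤ nj) (hkj : Nj ≤ nk) {X Y : ℝ} (hX : 0 ≤ X) (hY : 0 ≤ Y) :
    PWat L.F K.F (αj + αk) βj βk X Y (ηj * X ^ 2 + ηk * Y ^ 2 + Dg pj pk (κj + κk) X Y) := by
  have key := PWat_of_cells (L := L) (K := K) (α := αj + αk) (β := βj) (γ := βk) (sx := true)
    (sy := true) (k := ηj * X ^ 2 + ηk * Y ^ 2 + Dg pj pk (κj + κk) X Y) hj.a1 hk.a1 hX hY
    (Or.inl rfl) (Or.inl rfl) ?_
  · simpa [sg] using key
  · intro ix iy m hm hi hi'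
    rw [Qc_eq_tv]
    have hD := Dg_nonneg (pj := pj) (pk := pk) (σ := κj + κk) hX hY
    cases ix <;> cases iy <;> simp only [inC, if_true, Bool.false_eq_true, if_false] at hi hi' <;>
      simp only [ef, Bool.and_self, Bool.and_true, Bool.and_false, if_true,
        Bool.false_eq_true, if_false]
    · have a := hj.out0 X m hX hi
      have b := hk.out0 Y m hY hi'
      linarith
    · -- X ≤ m ≤ Y
      have a := hj.out1 X m hX hi
      have b := hk.in0 Y m hm hi'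
      have c := mul_nonneg (sub_nonneg.2 hkj) (sq_nonneg m)
      linarith
    · have a := hk.out1 Y m hY hi'
      have b := hj.in0 X m hm hi
      have c := mul_nonneg (sub_nonneg.2 hjk) (sq_nonneg m)
      linarith
    · have a := hj.tie X m hm hi
      have b := hk.tie Y m hm hi'
      have c := tie_aux2 h1 h2 h0 hm hi hi'
      linarith

/-- both coordinates are nonpositive -/
theorem pwat_nn2 (hj : DT2 L αj βj ηj κj pj nj Nj) (hk : DT2 K αk βk ηk κk pk nk Nk) {X Y : ℝ}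
    (hX : 0 < X) (hY : 0 < Y) :
    PWat L.F K.F (αj + αk) βj βk (-X) (-Y)
      (ηj * X ^ 2 + ηk * Y ^ 2 + Dg pj pk (κj + κk) X Y) := by
  have key := PWat_of_cells (L := L) (K := K) (α := αj + αk) (β := βj) (γ := βk) (sx := false)
    (sy := false) (k := ηj * X ^ 2 + ηk * Y ^ 2 + Dg pj pk (κj + κk) X Y) hj.a1 hk.a1 hX.le
    hY.le (Or.inr hX) (Or.inr hY) ?_
  · simpa [sg] using key
  · intro ix iy m hm hi hi'
    rw [Qc_eq_tv]
    have hD := Dg_nonneg (pj := pj) (pk := pk) (σ := κj + κk) hX.le hY.le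
    have hN : ∀ {M : LF} {α β η κ p n N : ℝ}, DT2 M α β η κ p n N → ∀ (i : Bool) (Z : ℝ),
        0 ≤ Z → inC i Z m → 0 ≤ tv M α β η 1 false i Z m := by
      intro M α β η κ p n N h i Z hZ hi
      cases i
      · exact h.negOut Z m hZ (by simpa [inC] using hi)
      · exact h.negIn Z m hm (by simpa [inC] using hi)
    have a := hN hj ix X hX.le hi
    have b := hN hk iy Y hY.le hi'
    simp only [ef, Bool.false_and, Bool.false_eq_true, if_false]
    linarith

/-- opposite signs -/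
theorem pwat_pn2 (hj : DT2 L αj βj ηj κj pj nj Nj) (hk : DT2 K αk βk ηk κk pk nk Nk)
    {l sj sk : ℝ} (hl : 0 ≤ l) (hsj : 0 ≤ sj) (hsk : 0 ≤ sk)
    (hs : ∀ Y m : ℝ, 0 ≤ Y → 0 ≤ m →
      (2 * K.b0 - l) * (Y * m) - 2 * (nj - K.Z) * m ^ 2 ≤ sk * Y ^ 2)
    {X Y : ℝ} (hX : 0 ≤ X) (hY : 0 < Y) :
    PWat L.F K.F (αj + αk) βj βk X (-Y)
      (ηj * X ^ 2 + ηk * Y ^ 2 + (l * (X * Y) + sj * X ^ 2 + sk * Y ^ 2)) := by
  have key := PWat_of_cells (L := L) (K := K) (α := αj + αk) (β := βj) (γ := βk) (sx := true)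
    (sy := false) (k := ηj * X ^ 2 + ηk * Y ^ 2 + (l * (X * Y) + sj * X ^ 2 + sk * Y ^ 2))
    hj.a1 hk.a1 hX hY.le (Or.inl rfl) (Or.inr hY) ?_
  · simpa [sg] using key
  · intro ix iy m hm hi hi'
    rw [Qc_eq_tv]
    have hN : 0 ≤ tv K αk βk ηk 1 false iy Y m := by
      cases iy
      · exact hk.negOut Y m hY.le (by simpa [inC] using hi')
      · exact hk.negIn Y m hm (by simpa [inC] using hi')
    have hXY := mul_nonneg hX hY.le
    have hb := hk.b0
    have x2 := mul_nonneg hsj (sq_nonneg X)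
    have y2 := mul_nonneg hsk (sq_nonneg Y)
    have lxy := mul_nonneg hl hXY
    cases ix <;> simp only [inC, if_true, Bool.false_eq_true, if_false] at hi <;>
      simp only [ef, Bool.and_false, Bool.false_and, Bool.and_self, if_true,
        Bool.false_eq_true, if_false]
    · have a := hj.out0 X m hX hi
      linarith
    · have a := hj.in0 X m hm hi
      have b := phi_le2 (M := K) (i := iy) hm hY.le hi'
      have c : tv K αk βk ηk (-1) false iy Y m = tv K αk βk ηk 1 false iy Y m -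
          2 * (K.p false iy * (Y * m) + K.q false iy * m ^ 2) := by
        unfold tv
        ring
      rw [c]
      have d := hs Y m hY.le hm
      have d1 : Y * m ≤ X * Y := by
        have := mul_le_mul_of_nonneg_left hi hY.le
        linarith
      have d2 := mul_le_mul_of_nonneg_left d1 hl
      linarith

/-- the condition of `pwat_pn2` -/
theorem opp_cond {b0 l a s : ℝ} (h : 2 * b0 ≤ l ∨ (2 * b0 - l) ^ 2 ≤ 8 * s * a) (ha : 0 ≤ a)
    (hs : 0 ≤ s) : ∀ Y m : ℝ, 0 ≤ Y → 0 ≤ m →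
      (2 * b0 - l) * (Y * m) - 2 * a * m ^ 2 ≤ s * Y ^ 2 := by
  intro Y m hY hm
  have hYm := mul_nonneg hY hm
  rcases h with h | h
  · have := mul_nonneg (sub_nonneg.2 h) hYm
    have := mul_nonneg ha (sq_nonneg m)
    have := mul_nonneg hs (sq_nonneg Y)
    linarith
  · -- 4 s (s Y² - (2b0-l) Y m + 2 a m²) ≥ (2 s Y - (2b0-l) m)²
    rcases hs.eq_or_lt with h0 | h0
    · subst h0
      have h1 : (2 * b0 - l) ^ 2 ≤ 0 := by linarith
      have h2 : 2 * b0 - l = 0 := by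
        have := sq_nonneg (2 * b0 - l)
        exact pow_eq_zero_iff (two_ne_zero) |>.1 (le_antisymm h1 this)
      rw [h2]
      have := mul_nonneg ha (sq_nonneg m)
      linarith
    · have h1 : 0 ≤ 4 * s * (s * Y ^ 2 - ((2 * b0 - l) * (Y * m) - 2 * a * m ^ 2)) := by
        have e : 4 * s * (s * Y ^ 2 - ((2 * b0 - l) * (Y * m) - 2 * a * m ^ 2)) =
            (2 * s * Y - (2 * b0 - l) * m) ^ 2 + (8 * s * a - (2 * b0 - l) ^ 2) * m ^ 2 := by ring
        rw [e]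
        have := mul_nonneg (sub_nonneg.2 h) (sq_nonneg m)
        have := sq_nonneg (2 * s * Y - (2 * b0 - l) * m)
        linarith
      have := nonneg_of_mul_nonneg_right h1 (by positivity)
      linarith

end Pool.Agent.RRS
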