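import Pool.Agent.RRS.Fine

/-!
# Tables for the trigonometric functions

The grid of the angle is `thG m = m π / 128`.  The rows contain lower and upper bounds for the
weights of the twelve fine sectors (times `10 ^ 9`), which are valid for the linear interpolation
between neighbouring nodes.  The table `KRow` contains bounds (times `4096`) for the
slopes of the boundary rays.
-/

set_option autoImplicit false

noncomputable section

namespace Pool.Agent.RRS

open Real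

/-- the grid of the angle -/
def thG (m : ℕ) : ℝ := m * π / 128

/-- a row of the table of weights: lower and upper bounds -/
structure Row where
  c : ℤ
  X : List (ℕ × ℕ)
  M : List (ℕ × ℕ)
  Y : List (ℕ × ℕ)

/-- lower bound -/
def loW (l : List (ℕ × ℕ)) (i : ℕ) : ℝ := ((l.getD i (0, 0)).1 : ℝ)

/-- upper bound -/
def hiW (l : List (ℕ × ℕ)) (i : ℕ) : ℝ := ((l.getD i (0, 0)).2 : ℝ)

/-- the bounds of a function by the interpolation between two rows -/
def Between (p q : List (ℕ × ℕ)) (z : ℝ) (w : ℕ → ℝ) : Prop :=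
  ∀ i, i < 12 → (1 - z) * loW p i + z * loW q i ≤ 10 ^ 9 * w i ∧
    10 ^ 9 * w i ≤ (1 - z) * hiW p i + z * hiW q i

/-- the table is valid between the nodes `m` and `m + 1`: all functions of the angle are bounded by
the interpolation between the rows (`z = (θ - θ_m) / (π / 128)`); the tolerance of the cosine is
`75400 / 10 ^ 9 > (π / 128) ^ 2 / 8` -/
structure RowOK (row : ℕ → Row) (m : ℕ) : Prop where
  lenX : (row m).X.length = 12
  lenM : (row m).M.length = 12
  lenY : (row m).Y.length = 12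
  lenX1 : (row (m + 1)).X.length = 12
  lenM1 : (row (m + 1)).M.length = 12
  lenY1 : (row (m + 1)).Y.length = 12
  wt : ∀ θ : ℝ, thG m ≤ θ → θ ≤ thG (m + 1) → ∃ z : ℝ, 0 ≤ z ∧ z ≤ 1 ∧
    |10 ^ 9 * cos θ - ((1 - z) * (row m).c + z * (row (m + 1)).c)| ≤ 75400 ∧
    Between (row m).X (row (m + 1)).X z (wX θ) ∧ Between (row m).M (row (m + 1)).M z (wM θ) ∧
      Between (row m).Y (row (m + 1)).Y z (wY θ)

/-- a row of the table of slopes (times `4096`) at a node: lower and upper bounds for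
`κ = sin ((1 + lam) T) / sin ((1 - lam) T)`, `lam = 1/4, 1/2, 3/4`, `T = (π - θ) / 2`, and for
`η = 1 + 2 cos (θ / 2)` -/
structure KRow where
  l1 : ℕ
  h1 : ℕ
  l2 : ℕ
  h2 : ℕ
  l3 : ℕ
  h3 : ℕ
  lE : ℕ
  hE : ℕ

/-- lower bound `n / d` of the slope `Y / X` of the boundary `b`, for the angles between the nodes
`m0` and `m1` -/
def lowK (kr : ℕ → KRow) (m0 m1 b : ℕ) : ℕ × ℕ :=
  match b with
  | 0 => (0, 1)
  | 1 => (4096, (kr m1).h3)
  | 2 => (4096, (kr m1).h2)
  | 3 => (4096, (kr m1).h1)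
  | 4 => (1, 1)
  | 5 => ((kr m0).l1, 4096)
  | 6 => ((kr m0).l2, 4096)
  | 7 => ((kr m0).l3, 4096)
  | 8 => (1, 1)
  | 9 => ((kr m1).lE, 4096)
  | 10 => (1, 1)
  | 11 => (4096, (kr m0).hE)
  | _ => (0, 1)

/-- upper bound `n / d` of the slope `Y / X` of the boundary `b` -/
def highK (kr : ℕ → KRow) (m0 m1 b : ℕ) : ℕ × ℕ :=
  match b with
  | 0 => (0, 1)
  | 1 => (4096, (kr m0).l3)
  | 2 => (4096, (kr m0).l2)
  | 3 => (4096, (kr m0).l1)
  | 4 => (1, 1)
  | 5 => ((kr m1).h1, 4096)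
  | 6 => ((kr m1).h2, 4096)
  | 7 => ((kr m1).h3, 4096)
  | 8 => (1, 0)
  | 9 => ((kr m0).hE, 4096)
  | 10 => (1, 1)
  | 11 => (4096, (kr m1).lE)
  | _ => (0, 1)

/-- the table of slopes is valid -/
structure KapOK (kr : ℕ → KRow) (m0 m1 : ℕ) : Prop where
  low : ∀ (θ : ℝ) (b : ℕ), thG m0 ≤ θ → θ ≤ thG m1 → b ≤ 12 → b ≠ 8 →
    ((lowK kr m0 m1 b).1 : ℝ) * |cos (tF θ b + θ / 2)| ≤
      ((lowK kr m0 m1 b).2 : ℝ) * |cos (tF θ b - θ / 2)|
  high : ∀ (θ : ℝ) (b : ℕ), thG m0 ≤ θ → θ ≤ thG m1 → 0 < b → b < 12 →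
    ((highK kr m0 m1 b).2 : ℝ) * |cos (tF θ b - θ / 2)| ≤
      ((highK kr m0 m1 b).1 : ℝ) * |cos (tF θ b + θ / 2)|

end Pool.Agent.RRS
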