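import Pool.Agent.RRS.TailPW

/-!
# The mean value of the simple form

`pth θ`: the mean of `2 cos² φ` over the directions where the two coordinates have opposite signs.
-/

set_option autoImplicit false

noncomputable section

namespace Pool.Agent.RRS

open Real MeasureTheory

/-- the mass of the opposite quadrants -/
def pth (θ : ℝ) : ℝ := (θ - sin θ * cos θ) / π

/-- the first part of the form -/
def H1 (A A' x y : ℝ) : ℝ := (if 0 ≤ x * y then A else A') * x ^ 2

theorem homBd_H1 (A A' : ℝ) : HomBd (H1 A A') := by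
  refine ⟨?_, fun c x y => ?_, |A| + |A'|, fun x y => ?_⟩
  · unfold H1
    refine Measurable.mul (Measurable.ite ?_ measurable_const measurable_const) (by fun_prop)
    exact measurableSet_le measurable_const (by fun_prop)
  · unfold H1
    rcases eq_or_ne c 0 with h | h
    · rw [h]
      simp
    · have hc : 0 < c ^ 2 := by positivity
      have e : c * x * (c * y) = c ^ 2 * (x * y) := by ring
      have e2 : 0 ≤ c * x * (c * y) ↔ 0 ≤ x * y := by
        rw [e]
        constructor
        · intro h'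
          exact nonneg_of_mul_nonneg_right h' hc
        · intro h'
          positivity
      simp only [e2]
      split_ifs <;> ring
  · unfold H1
    rw [abs_mul, abs_of_nonneg (sq_nonneg x)]
    have h1 : |if 0 ≤ x * y then A else A'| ≤ |A| + |A'| := by
      split_ifs
      · linarith [abs_nonneg A']
      · linarith [abs_nonneg A]
    nlinarith [sq_nonneg x, sq_nonneg y, abs_nonneg (if 0 ≤ x * y then A else A'), abs_nonneg A,
      abs_nonneg A']

theorem homBd_sq_right : HomBd fun _ y => y ^ 2 := homBd_sq_left.symm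

theorem homBd_Hs (A A' C : ℝ) : HomBd (Hs A A' C) := by
  have := (homBd_H1 A A').add (homBd_sq_right.const_mul C)
  exact this

theorem int_cos_sq (a b : ℝ) : ∫ φ in a..b, cos φ ^ 2 =
    (cos b * sin b - cos a * sin a + b - a) / 2 := integral_cos_sq

theorem avgP_H1 (A A' : ℝ) {a b θ : ℝ} (ha : 0 < a) (hb : 0 < b) (h0 : 0 ≤ θ) (hπ : θ ≤ π) :
    avgP (H1 A A') a b θ = a ^ 2 * (A * (1 - pth θ) + A' * pth θ) := by
  obtain ⟨f, hf⟩ : ∃ f : ℝ → ℝ, f = fun φ => H1 A A' (a * cos φ) (b * cos (φ - θ)) := ⟨_, rfl⟩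
  have hper : Function.Periodic f π := by
    intro φ
    rw [hf]
    dsimp only
    rw [cos_add_pi, show φ + π - θ = φ - θ + π by ring, cos_add_pi, mul_neg, mul_neg]
    exact (homBd_H1 A A').even _ _
  have hint : ∀ s t : ℝ, IntervalIntegrable f volume s t := by
    intro s t
    have hcont : Continuous fun φ : ℝ => (a * cos φ, b * cos (φ - θ)) := by
      refine Continuous.prodMk ?_ ?_ <;> fun_prop
    have hmeas : Measurable f := by
      rw [hf]
      exact (homBd_H1 A A').meas.comp hcont.measurable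
    obtain ⟨K, hK⟩ := (homBd_H1 A A').bd
    have hbc : Continuous fun φ : ℝ => K * ((a * cos φ) ^ 2 + (b * cos (φ - θ)) ^ 2) := by
      fun_prop
    refine (hbc.intervalIntegrable _ _).mono_fun' hmeas.aestronglyMeasurable
      (Filter.Eventually.of_forall fun φ => ?_)
    dsimp only
    rw [Real.norm_eq_abs, hf]
    exact hK _ _
  have e1 : ∫ φ in (0 : ℝ)..(2 * π), f φ = 2 * ∫ φ in (θ - π / 2)..(θ - π / 2 + π), f φ := by
    have e2 : (∫ φ in (0 : ℝ)..(2 * π), f φ) =
        (∫ φ in (0 : ℝ)..(0 + π), f φ) + ∫ φ in (0 + π)..(0 + π + π), f φ := by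
      rw [intervalIntegral.integral_add_adjacent_intervals (hint _ _) (hint _ _)]
      congr 1
      ring
    rw [e2, hper.intervalIntegral_add_eq (0 + π) (θ - π / 2),
      hper.intervalIntegral_add_eq 0 (θ - π / 2)]
    ring
  have e3 : ∫ φ in (θ - π / 2)..(θ - π / 2 + π), f φ =
      (∫ φ in (θ - π / 2)..(π / 2), f φ) + ∫ φ in (π / 2)..(θ - π / 2 + π), f φ :=
    (intervalIntegral.integral_add_adjacent_intervals (hint _ _) (hint _ _)).symm
  have e4 : ∫ φ in (θ - π / 2)..(π / 2), f φ = ∫ φ in (θ - π / 2)..(π / 2), A * a ^ 2 * cos φ ^ 2 := by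
    refine intervalIntegral.integral_congr fun φ hφ => ?_
    rw [Set.uIcc_of_le (by linarith)] at hφ
    have c1 : 0 ≤ cos φ := cos_nonneg_of_mem_Icc ⟨by linarith [hφ.1], by linarith [hφ.2]⟩
    have c2 : 0 ≤ cos (φ - θ) := cos_nonneg_of_mem_Icc ⟨by linarith [hφ.1], by linarith [hφ.2]⟩
    rw [hf]
    dsimp only
    unfold H1
    rw [if_pos (by positivity)]
    ring
  have e5 : ∫ φ in (π / 2)..(θ - π / 2 + π), f φ =
      ∫ φ in (π / 2)..(θ - π / 2 + π), A' * a ^ 2 * cos φ ^ 2 := by
    apply intervalIntegral.integral_congr_ae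
    have hne : ∀ᵐ φ : ℝ, φ ≠ θ - π / 2 + π := by simp [ae_iff]
    filter_upwards [hne] with φ h1 h2
    rw [Set.uIoc_of_le (by linarith)] at h2
    have h3 : φ < θ - π / 2 + π := lt_of_le_of_ne h2.2 h1
    have c1 : cos φ < 0 := cos_neg_of_pi_div_two_lt_of_lt h2.1 (by linarith)
    have c2 : 0 < cos (φ - θ) := cos_pos_of_mem_Ioo ⟨by linarith [h2.1], by linarith⟩
    rw [hf]
    dsimp only
    unfold H1
    have hneg : ¬ 0 ≤ a * cos φ * (b * cos (φ - θ)) := by
      have h5 : a * cos φ < 0 := mul_neg_of_pos_of_neg ha c1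
      have h6 : 0 < b * cos (φ - θ) := mul_pos hb c2
      exact not_le.2 (mul_neg_of_neg_of_pos h5 h6)
    rw [if_neg hneg]
    ring
  have hpi : (π : ℝ) ≠ 0 := pi_ne_zero
  have e0 : avgP (H1 A A') a b θ = 1 / π * ∫ φ in (0 : ℝ)..(2 * π), f φ := by
    rw [hf]
    rfl
  have c1 : cos (θ - π / 2) = sin θ := by
    rw [cos_sub_pi_div_two]
  have c2 : sin (θ - π / 2) = -cos θ := by
    rw [sin_sub_pi_div_two]
  rw [e0, e1, e3, e4, e5, intervalIntegral.integral_const_mul, intervalIntegral.integral_const_mul,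
    int_cos_sq, int_cos_sq, cos_add_pi, sin_add_pi, c1, c2, cos_pi_div_two, sin_pi_div_two]
  unfold pth
  field_simp
  ring

theorem avgP_Hs (A A' C : ℝ) {a b θ : ℝ} (ha : 0 < a) (hb : 0 < b) (h0 : 0 ≤ θ) (hπ : θ ≤ π) :
    avgP (Hs A A' C) a b θ = a ^ 2 * (A * (1 - pth θ) + A' * pth θ) + C * b ^ 2 := by
  have h1 := avgP_add (homBd_H1 A A') (homBd_sq_right.const_mul C) a b θ
  have h2 : avgP (fun x y => H1 A A' x y + C * y ^ 2) a b θ = avgP (Hs A A' C) a b θ := rfl
  rw [← h2, h1, avgP_H1 A A' ha hb h0 hπ, avgP_const_mul, avgP_sq_right]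

end Pool.Agent.RRS
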