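import Pool.Agent.RRS.TailLine

/-!
# The rational checker of the tail `R_k ≥ 3`

A box is a range `[Ra, Rb]` of the norm of the first point (inside one linear piece of the
functions), a range `[ca, cb]` of `c = cos θ`, and a certificate of the simple class: the
multipliers `α, τ, v, C, U` and the coefficients `A, B` of the form.
-/

set_option autoImplicit false

namespace Pool.Agent.RRS

open Real

/-- the values of a multiplier function -/
structure LQ where
  c : ℚ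
  a : ℚ
  z : ℚ
  k : ℚ
  e : ℚ

/-- a linear piece: value at zero, slope -/
structure PcQ where
  lo : ℚ
  hi : ℚ
  p : LQ
  q : LQ

def PcQ.at (P : PcQ) (R : ℚ) : LQ :=
  ⟨P.p.c + P.q.c * R, P.p.a + P.q.a * R, P.p.z + P.q.z * R, P.p.k + P.q.k * R, P.p.e + P.q.e * R⟩

def pc1 : PcQ := ⟨0, 1, ⟨0, 103/100, 103/100, 206/100, 309/100⟩,
  ⟨-1/2, 1/100, -66/100, -65/100, -131/100⟩⟩
def pc2 : PcQ := ⟨1, 3/2, ⟨-1/2, 64/100, 31/100, 216/100, 368/100⟩,
  ⟨0, 40/100, 6/100, -75/100, -190/100⟩⟩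
def pc3 : PcQ := ⟨3/2, 2, ⟨-56/100, 1855/1000, 10/100, 27/10, 173/100⟩,
  ⟨4/100, -41/100, 20/100, -111/100, -60/100⟩⟩
def pc4 : PcQ := ⟨2, 3, ⟨-118/100, 985/1000, 84/100, 50/100, -13/100⟩,
  ⟨35/100, 25/1000, -17/100, -1/100, 33/100⟩⟩

def pcs (i : ℕ) : PcQ := if i = 0 then pc1 else if i = 1 then pc2 else if i = 2 then pc3 else pc4

/-- a linear bound -/
structure LineQ where
  up : Bool
  b0 : ℚ
  b1 : ℚ
  lo : ℚ
  hi : ℚ

def q01 (a b k : ℚ) : Bool :=
  decide (0 ≤ k) && (decide (0 ≤ a + b + k) &&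
    (decide (a ≤ 0) || (decide (0 ≤ b) || (decide (2 * a + b ≤ 0) || decide (b * b ≤ 4 * a * k)))))

def q1i (a b k : ℚ) : Bool :=
  decide (0 ≤ a) && (decide (0 ≤ a + b + k) &&
    (decide (0 ≤ 2 * a + b) || decide (b * b ≤ 4 * a * k)))

def ncQ (L : LQ) (ε a b k : ℚ) (s : Bool) : Bool :=
  if s then q01 (ε * (L.a - L.c) + -1 + a) (ε * L.c + b) k &&
      q1i (ε * L.z + 1 + a) (ε * (L.a - L.z) + b) k
  else q01 (ε * (L.e - L.k) + 1 + a) (ε * L.k + -b) k &&
      q1i (ε * L.z + 1 + a) (ε * (L.e - L.z) + -b) k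

def scQ (L : LQ) (α τ a1 β A B : ℚ) : Bool :=
  ncQ L (-1) a1 β A true && (ncQ L 1 α β A true && (ncQ L 1 (α - τ) β A false &&
    (ncQ L 1 (α - τ) β B true && (ncQ L (-1) a1 β B false && ncQ L 1 α β B false))))

/-- a box with its certificate -/
structure BoxQ where
  pc : ℕ
  Ra : ℚ
  Rb : ℚ
  ca : ℚ
  cb : ℚ
  ln : LineQ
  al : ℚ
  tau : ℚ
  v : ℚ
  C : ℚ
  U : ℚ
  A : ℚ
  B : ℚ

def del : ℚ := 1 / 1000
def s2 : ℚ := 141421 / 100000

def betaQ (b : BoxQ) (R c : ℚ) : ℚ := (1 - c) * b.U + del + c * ((pcs b.pc).at R).k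

/-- the value at a vertex; `kp` is the part of the second point -/
def valQ (b : BoxQ) (kp R c : ℚ) : ℚ :=
  (1 - c) / (2 * b.U) + ((1 - c) * b.U + del) * (1 + R ^ 2) / 2 + kp + b.al +
    R ^ 2 * (b.A + (b.B - b.A) * (b.ln.b0 + b.ln.b1 * c)) - s2 * (R * (1 - c)) -
    c * (((pcs b.pc).at R).a - ((pcs b.pc).at R).k)

def corner (b : BoxQ) (a1 : ℚ) (R c : ℚ) : Bool :=
  scQ ((pcs b.pc).at R) b.al b.tau a1 (betaQ b R c) b.A b.B

def convQ (b : BoxQ) (c : ℚ) : Bool :=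
  decide (0 ≤ ((1 - c) * b.U + del) / 2 + b.A + (b.B - b.A) * (b.ln.b0 + b.ln.b1 * c))

def valsQ (b : BoxQ) (kp : ℚ) : Bool :=
  decide (valQ b kp b.Ra b.ca ≤ 0) && (decide (valQ b kp b.Ra b.cb ≤ 0) &&
    (decide (valQ b kp b.Rb b.ca ≤ 0) && decide (valQ b kp b.Rb b.cb ≤ 0)))

def baseQ (b : BoxQ) (a1 : ℚ) : Bool :=
  decide (b.Ra < b.Rb) && (decide (b.ca < b.cb) && (decide (0 < b.U) && (decide (0 < b.tau) &&
    (decide (b.ln.lo ≤ b.ca) && (decide (b.cb ≤ b.ln.hi) &&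
    ((if b.ln.up then decide (b.A ≤ b.B) else decide (b.B ≤ b.A)) &&
    (decide ((pcs b.pc).lo ≤ b.Ra) && (decide (b.Rb ≤ (pcs b.pc).hi) &&
    (corner b a1 b.Ra b.ca && (corner b a1 b.Ra b.cb && (corner b a1 b.Rb b.ca &&
    (corner b a1 b.Rb b.cb && (convQ b b.ca && convQ b b.cb)))))))))))))

/-- the box is good for `R_k ≥ r0` -/
def infQ (r0 : ℚ) (b : BoxQ) : Bool :=
  baseQ b b.al && valsQ b (r0 + 1 / (2 * r0) - s2 * r0 + 1 / (4 * b.tau))

/-- the box is good for `r0 ≤ R_k ≤ r1` -/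
def finQ (r0 r1 : ℚ) (b : BoxQ) : Bool :=
  decide (0 < b.v) && (decide (0 < b.C) && (decide (b.v * b.v ≤ 4 * b.tau * b.C) &&
    (baseQ b (b.al + b.v + b.C) &&
    (valsQ b (1 / (2 * b.v) + b.v * (1 + r0 ^ 2) / 2 + b.C * r0 ^ 2 - s2 * r0) &&
    valsQ b (1 / (2 * b.v) + b.v * (1 + r1 ^ 2) / 2 + b.C * r1 ^ 2 - s2 * r1)))))

/-! ### Soundness of the quadratic checks -/

theorem q01_sound {a b k : ℚ} (h : q01 a b k = true) : Q01 a b k := by
  simp only [q01, Bool.and_eq_true, Bool.or_eq_true, decide_eq_true_eq] at h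
  obtain ⟨h1, h2, h3⟩ := h
  have g1 : (0 : ℝ) ≤ k := by exact_mod_cast h1
  have g2 : (0 : ℝ) ≤ a + b + k := by exact_mod_cast h2
  intro r r0 r1
  rcases h3 with h | h | h | h
  · have g : (a : ℝ) ≤ 0 := by exact_mod_cast h
    have e : (a : ℝ) * r ^ 2 + b * r + k =
        (1 - r) * k + r * (a + b + k) + -a * (r * (1 - r)) := by ring
    rw [e]
    have h1 := mul_nonneg (sub_nonneg.2 r1) g1
    have h2 := mul_nonneg r0 g2
    have h3 := mul_nonneg (neg_nonneg.2 g) (mul_nonneg r0 (sub_nonneg.2 r1))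
    linarith
  · have g : (0 : ℝ) ≤ b := by exact_mod_cast h
    rcases le_total (a : ℝ) 0 with h' | h'
    · have e : (a : ℝ) * r ^ 2 + b * r + k =
          (1 - r) * k + r * (a + b + k) + -a * (r * (1 - r)) := by ring
      rw [e]
      have h1 := mul_nonneg (sub_nonneg.2 r1) g1
      have h2 := mul_nonneg r0 g2
      have h3 := mul_nonneg (neg_nonneg.2 h') (mul_nonneg r0 (sub_nonneg.2 r1))
      linarith
    · positivity
  · have g : (2 * a + b : ℝ) ≤ 0 := by exact_mod_cast h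
    have e : (a : ℝ) * r ^ 2 + b * r + k = (a + b + k) + -(2 * a + b) * (1 - r) + a * (1 - r) ^ 2 := by
      ring
    rcases le_total (a : ℝ) 0 with h' | h'
    · have e : (a : ℝ) * r ^ 2 + b * r + k =
          (1 - r) * k + r * (a + b + k) + -a * (r * (1 - r)) := by ring
      rw [e]
      have h1 := mul_nonneg (sub_nonneg.2 r1) g1
      have h2 := mul_nonneg r0 g2
      have h3 := mul_nonneg (neg_nonneg.2 h') (mul_nonneg r0 (sub_nonneg.2 r1))
      linarith
    · rw [e]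
      have h1 := mul_nonneg (neg_nonneg.2 g) (sub_nonneg.2 r1)
      have h2 := mul_nonneg h' (sq_nonneg (1 - r))
      linarith
  · have g : (b * b : ℝ) ≤ 4 * a * k := by exact_mod_cast h
    rcases le_or_gt (a : ℝ) 0 with h' | h'
    · have e : (a : ℝ) * r ^ 2 + b * r + k =
          (1 - r) * k + r * (a + b + k) + -a * (r * (1 - r)) := by ring
      rw [e]
      have h1 := mul_nonneg (sub_nonneg.2 r1) g1
      have h2 := mul_nonneg r0 g2
      have h3 := mul_nonneg (neg_nonneg.2 h') (mul_nonneg r0 (sub_nonneg.2 r1))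
      linarith
    · have e : 4 * (a : ℝ) * (a * r ^ 2 + b * r + k) = (2 * a * r + b) ^ 2 + (4 * a * k - b * b) := by
        ring
      have h3 : 0 ≤ 4 * (a : ℝ) * (a * r ^ 2 + b * r + k) := by
        rw [e]
        have := sq_nonneg (2 * a * r + b : ℝ)
        linarith
      exact nonneg_of_mul_nonneg_right h3 (by positivity)

theorem q1i_sound {a b k : ℚ} (h : q1i a b k = true) : Q1i a b k := by
  simp only [q1i, Bool.and_eq_true, Bool.or_eq_true, decide_eq_true_eq] at h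
  obtain ⟨h1, h2, h3⟩ := h
  have g1 : (0 : ℝ) ≤ a := by exact_mod_cast h1
  have g2 : (0 : ℝ) ≤ a + b + k := by exact_mod_cast h2
  refine ⟨g1, fun r hr => ?_⟩
  rcases h3 with h | h
  · have g : (0 : ℝ) ≤ 2 * a + b := by exact_mod_cast h
    have e : (a : ℝ) * r ^ 2 + b * r + k = (a + b + k) + (2 * a + b) * (r - 1) + a * (r - 1) ^ 2 := by
      ring
    rw [e]
    have h1 := mul_nonneg g (sub_nonneg.2 hr)
    have h2 := mul_nonneg g1 (sq_nonneg (r - 1))
    linarith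
  · have g : (b * b : ℝ) ≤ 4 * a * k := by exact_mod_cast h
    rcases g1.eq_or_lt with h' | h'
    · have hb : (b : ℝ) = 0 := by
        rw [← h'] at g
        nlinarith
      rw [← h', hb] at g2 ⊢
      nlinarith
    · have e : 4 * (a : ℝ) * (a * r ^ 2 + b * r + k) = (2 * a * r + b) ^ 2 + (4 * a * k - b * b) := by
        ring
      have h3 : 0 ≤ 4 * (a : ℝ) * (a * r ^ 2 + b * r + k) := by
        rw [e]
        have := sq_nonneg (2 * a * r + b : ℝ)
        linarith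
      exact nonneg_of_mul_nonneg_right h3 (by positivity)

/-- the real values -/
noncomputable def LQ.toLF (L : LQ) : LF := mkL L.c L.a L.z L.k L.e

theorem ncQ_sound {L : LQ} {ε a b k : ℚ} {s : Bool} (h : ncQ L ε a b k s = true) :
    NC L.toLF ε a b k s := by
  cases s
  · simp only [ncQ, Bool.false_eq_true, if_false, Bool.and_eq_true] at h
    have h1 := q01_sound h.1
    have h2 := q1i_sound h.2
    push_cast at h1 h2
    refine ⟨?_, ?_⟩
    · simpa [LQ.toLF, mkL, LF.q, LF.p, ef, sg] using h1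
    · simpa [LQ.toLF, mkL, LF.q, LF.p, ef, sg] using h2
  · simp only [ncQ, if_true, Bool.and_eq_true] at h
    have h1 := q01_sound h.1
    have h2 := q1i_sound h.2
    push_cast at h1 h2
    refine ⟨?_, ?_⟩
    · simpa [LQ.toLF, mkL, LF.q, LF.p, ef, sg] using h1
    · simpa [LQ.toLF, mkL, LF.q, LF.p, ef, sg] using h2

theorem scQ_sound {L : LQ} {α τ a1 β A B : ℚ} (h : scQ L α τ a1 β A B = true) :
    SC L.toLF α τ a1 β A B := by
  simp only [scQ, Bool.and_eq_true] at h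
  obtain ⟨h1, h2, h3, h4, h5, h6⟩ := h
  have g1 := ncQ_sound h1
  have g2 := ncQ_sound h2
  have g3 := ncQ_sound h3
  have g4 := ncQ_sound h4
  have g5 := ncQ_sound h5
  have g6 := ncQ_sound h6
  push_cast at g1 g2 g3 g4 g5 g6
  exact ⟨g1, g2, g3, g4, g5, g6⟩

end Pool.Agent.RRS
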