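import Pool.Agent.RRS.TailAvg

/-!
# Linear bounds of `pth θ` in `cos θ`
-/

set_option autoImplicit false

noncomputable section

namespace Pool.Agent.RRS

open Real

theorem hasDerivAt_aux (x0 x1 t : ℝ) :
    HasDerivAt (fun θ : ℝ => x0 + x1 * cos θ - (θ - sin θ * cos θ))
      (-sin t * (x1 + 2 * sin t)) t := by
  have h1 := ((hasDerivAt_cos t).const_mul x1).const_add x0
  have h2 := (hasDerivAt_id t).sub ((hasDerivAt_sin t).mul (hasDerivAt_cos t))
  have h3 := h1.sub h2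
  have e : x1 * -sin t - (1 - (cos t * cos t + sin t * -sin t)) = -sin t * (x1 + 2 * sin t) := by
    have := sin_sq_add_cos_sq t
    linear_combination this
  rw [← e]
  exact h3

theorem aux_mono {x0 x1 a b : ℝ} (hab : a ≤ b) (h : ∀ t, a ≤ t → t ≤ b → 0 ≤ sin t ∧ x1 + 2 * sin t ≤ 0) :
    x0 + x1 * cos a - (a - sin a * cos a) ≤ x0 + x1 * cos b - (b - sin b * cos b) := by
  have hd := hasDerivAt_aux x0 x1
  have hm : MonotoneOn (fun θ : ℝ => x0 + x1 * cos θ - (θ - sin θ * cos θ)) (Set.Icc a b) := by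
    refine monotoneOn_of_deriv_nonneg (convex_Icc a b)
      (fun t _ => (hd t).continuousAt.continuousWithinAt)
      (fun t _ => (hd t).differentiableAt.differentiableWithinAt) fun t ht => ?_
    rw [interior_Icc] at ht
    rw [(hd t).deriv]
    obtain ⟨h1, h2⟩ := h t ht.1.le ht.2.le
    nlinarith
  exact hm (Set.left_mem_Icc.2 hab) (Set.right_mem_Icc.2 hab) hab

theorem aux_anti {x0 x1 a b : ℝ} (hab : a ≤ b) (h : ∀ t, a ≤ t → t ≤ b → 0 ≤ sin t ∧ 0 ≤ x1 + 2 * sin t) :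
    x0 + x1 * cos b - (b - sin b * cos b) ≤ x0 + x1 * cos a - (a - sin a * cos a) := by
  have hd := hasDerivAt_aux x0 x1
  have hm : AntitoneOn (fun θ : ℝ => x0 + x1 * cos θ - (θ - sin θ * cos θ)) (Set.Icc a b) := by
    refine antitoneOn_of_deriv_nonpos (convex_Icc a b)
      (fun t _ => (hd t).continuousAt.continuousWithinAt)
      (fun t _ => (hd t).differentiableAt.differentiableWithinAt) fun t ht => ?_
    rw [interior_Icc] at ht
    rw [(hd t).deriv]
    obtain ⟨h1, h2⟩ := h t ht.1.le ht.2.le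
    nlinarith
  exact hm (Set.left_mem_Icc.2 hab) (Set.right_mem_Icc.2 hab) hab

/-- the chord -/
theorem pth_le_line {b0 b1 t1 t2 θ : ℝ} (h0 : 0 ≤ t1) (h1 : t1 ≤ θ) (h2 : θ ≤ t2) (h3 : t2 ≤ π / 2)
    (e1 : pth t1 ≤ b0 + b1 * cos t1) (e2 : pth t2 ≤ b0 + b1 * cos t2) :
    pth θ ≤ b0 + b1 * cos θ := by
  have hpi := pi_pos
  have conv : ∀ t : ℝ, pth t ≤ b0 + b1 * cos t ↔
      0 ≤ π * b0 + π * b1 * cos t - (t - sin t * cos t) := by
    intro t
    unfold pth
    rw [div_le_iff₀ hpi]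
    constructor <;> intro h <;> linarith
  rw [conv] at e1 e2 ⊢
  rcases le_total (π * b1 + 2 * sin θ) 0 with h | h
  · refine e1.trans (aux_mono h1 fun t a b => ⟨sin_nonneg_of_nonneg_of_le_pi (by linarith)
      (by linarith), ?_⟩)
    have : sin t ≤ sin θ := sin_le_sin_of_le_of_le_pi_div_two (by linarith) (by linarith) b
    linarith
  · refine e2.trans (aux_anti h2 fun t a b => ⟨sin_nonneg_of_nonneg_of_le_pi (by linarith)
      (by linarith), ?_⟩)
    have : sin θ ≤ sin t := sin_le_sin_of_le_of_le_pi_div_two (by linarith) (by linarith) a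
    linarith

/-- the tangent -/
theorem tangent_le_pth {t0 θ : ℝ} (h0 : 0 ≤ t0) (h1 : t0 ≤ π / 2) (h2 : 0 ≤ θ) (h3 : θ ≤ π / 2) :
    pth t0 - 2 / π * sin t0 * (cos θ - cos t0) ≤ pth θ := by
  have hpi := pi_pos
  have key : (t0 - sin t0 * cos t0 + 2 * sin t0 * cos t0) + (-2 * sin t0) * cos θ -
      (θ - sin θ * cos θ) ≤ (t0 - sin t0 * cos t0 + 2 * sin t0 * cos t0) +
        (-2 * sin t0) * cos t0 - (t0 - sin t0 * cos t0) := by
    rcases le_total θ t0 with h | h
    · refine aux_mono h fun t a b => ⟨sin_nonneg_of_nonneg_of_le_pi (by linarith)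
        (by linarith), ?_⟩
      have : sin t ≤ sin t0 := sin_le_sin_of_le_of_le_pi_div_two (by linarith) (by linarith) b
      linarith
    · refine aux_anti h fun t a b => ⟨sin_nonneg_of_nonneg_of_le_pi (by linarith)
        (by linarith), ?_⟩
      have : sin t0 ≤ sin t := sin_le_sin_of_le_of_le_pi_div_two (by linarith) (by linarith) a
      linarith
  have e : pth t0 - 2 / π * sin t0 * (cos θ - cos t0) =
      (t0 - sin t0 * cos t0 - 2 * sin t0 * (cos θ - cos t0)) / π := by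
    unfold pth
    field_simp
  rw [e]
  unfold pth
  rw [div_le_div_iff_of_pos_right hpi]
  linarith

theorem pth_pi_sub (θ : ℝ) : pth (π - θ) = 1 - pth θ := by
  unfold pth
  rw [sin_pi_sub, cos_pi_sub]
  have := pi_ne_zero
  field_simp
  ring

/-- a linear bound of `pth` in `cos θ` -/
def LineOK (up : Bool) (b0 b1 lo hi : ℝ) : Prop :=
  ∀ θ : ℝ, 0 ≤ θ → θ ≤ π → lo ≤ cos θ → cos θ ≤ hi →
    if up then pth θ ≤ b0 + b1 * cos θ else b0 + b1 * cos θ ≤ pth θ

theorem LineOK.reflect {up : Bool} {b0 b1 lo hi : ℝ} (h : LineOK up b0 b1 lo hi) :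
    LineOK (!up) (1 - b0) b1 (-hi) (-lo) := by
  intro θ h0 h1 h2 h3
  have key := h (π - θ) (by linarith) (by linarith) (by rw [cos_pi_sub]; linarith)
    (by rw [cos_pi_sub]; linarith)
  rw [pth_pi_sub, cos_pi_sub] at key
  cases up
  · simp only [Bool.false_eq_true, if_false, Bool.not_false, if_true] at key ⊢
    linarith
  · simp only [Bool.false_eq_true, if_false, Bool.not_true, if_true] at key ⊢
    linarith

/-- `cos` determines the order of the angles -/
theorem le_of_cos_ge {θ t : ℝ} (h0 : 0 ≤ t) (h1 : θ ≤ π) (h : cos t ≤ cos θ) : θ ≤ t := by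
  by_contra hc
  push Not at hc
  have := cos_lt_cos_of_nonneg_of_le_pi h0 h1 hc
  linarith

theorem ge_of_cos_le {θ t : ℝ} (h0 : 0 ≤ θ) (h1 : t ≤ π) (h : cos θ ≤ cos t) : t ≤ θ := by
  by_contra hc
  push Not at hc
  have := cos_lt_cos_of_nonneg_of_le_pi h0 h1 hc
  linarith

/-- the bound of a node -/
def NodeLe (c p : ℝ) : Prop := 0 ≤ c ∧ c ≤ 1 ∧ pth (arccos c) ≤ p

theorem line_of_nodes {lo hi plo phi b0 b1 : ℝ} (h1 : NodeLe lo plo) (h2 : NodeLe hi phi)
    (e1 : plo ≤ b0 + b1 * lo) (e2 : phi ≤ b0 + b1 * hi) : LineOK true b0 b1 lo hi := by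
  intro θ h0 hπ a b
  rw [if_pos rfl]
  have c1 : cos (arccos lo) = lo := cos_arccos (by linarith [h1.1]) h1.2.1
  have c2 : cos (arccos hi) = hi := cos_arccos (by linarith [h2.1]) h2.2.1
  refine pth_le_line (t1 := arccos hi) (t2 := arccos lo) (arccos_nonneg _) ?_ ?_
    (arccos_le_pi_div_two.2 h1.1) ?_ ?_
  · exact ge_of_cos_le h0 (arccos_le_pi _) (by rw [c2]; exact b)
  · exact le_of_cos_ge (arccos_nonneg _) hπ (by rw [c1]; exact a)
  · rw [c2]
    exact h2.2.2.trans e2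
  · rw [c1]
    exact h1.2.2.trans e1

/-- a node between two angles -/
theorem node_of_chord {t1 t2 b0 b1 c p : ℝ} (h0 : 0 ≤ t1) (h12 : t1 ≤ t2) (h3 : t2 ≤ π / 2)
    (e1 : pth t1 ≤ b0 + b1 * cos t1) (e2 : pth t2 ≤ b0 + b1 * cos t2) (hc1 : c ≤ cos t1)
    (hc2 : cos t2 ≤ c) (hp : b0 + b1 * c ≤ p) : NodeLe c p := by
  have hpi := pi_pos
  have hc0 : 0 ≤ c := (cos_nonneg_of_mem_Icc ⟨by linarith, h3⟩).trans hc2
  have hc1' : c ≤ 1 := hc1.trans (cos_le_one _)
  have ec : cos (arccos c) = c := cos_arccos (by linarith) hc1'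
  refine ⟨hc0, hc1', ?_⟩
  refine (pth_le_line (t1 := t1) (t2 := t2) h0 ?_ ?_ h3 e1 e2).trans (by rw [ec]; exact hp)
  · exact ge_of_cos_le (arccos_nonneg _) (by linarith) (by rw [ec]; exact hc1)
  · exact le_of_cos_ge (by linarith) (arccos_le_pi _) (by rw [ec]; exact hc2)

/-! ### The nodes -/

theorem node_zero : NodeLe 0 (1 / 2) := by
  refine ⟨le_rfl, zero_le_one, ?_⟩
  rw [arccos_zero]
  unfold pth
  rw [cos_pi_div_two, sin_pi_div_two]
  have := pi_ne_zero
  field_simp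
  norm_num

theorem node_one : NodeLe 1 0 := by
  refine ⟨zero_le_one, le_rfl, ?_⟩
  rw [arccos_one]
  unfold pth
  simp

theorem sqrt3_lo : (1732 : ℝ) / 1000 < √3 := by
  rw [Real.lt_sqrt (by norm_num)]
  norm_num

theorem sqrt3_hi : √3 < 17321 / 10000 := by
  rw [Real.sqrt_lt' (by norm_num)]
  norm_num

theorem sqrt2_lo : (141421 : ℝ) / 100000 < √2 := by
  rw [Real.lt_sqrt (by norm_num)]
  norm_num

theorem sqrt2_hi : √2 < 141422 / 100000 := by
  rw [Real.sqrt_lt' (by norm_num)]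
  norm_num

theorem pth_60 : pth (π / 3) = 1 / 3 - √3 / 4 / π := by
  unfold pth
  rw [cos_pi_div_three, sin_pi_div_three]
  have := pi_ne_zero
  field_simp
  ring

theorem pth_45 : pth (π / 4) = 1 / 4 - 1 / 2 / π := by
  unfold pth
  rw [cos_pi_div_four, sin_pi_div_four]
  have := pi_ne_zero
  have h2 : √2 * √2 = 2 := Real.mul_self_sqrt (by norm_num)
  have e : √2 / 2 * (√2 / 2) = 1 / 2 := by linarith
  rw [e]
  field_simp

theorem pth_30 : pth (π / 6) = 1 / 6 - √3 / 4 / π := by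
  unfold pth
  rw [cos_pi_div_six, sin_pi_div_six]
  have := pi_ne_zero
  field_simp
  ring

theorem inv_pi_lo : (3183 : ℝ) / 10000 < 1 / π := by
  rw [lt_div_iff₀ pi_pos]
  have := pi_lt_d4
  linarith

theorem inv_pi_hi : 1 / π < (31832 : ℝ) / 100000 := by
  rw [div_lt_iff₀ pi_pos]
  have := pi_gt_d4
  linarith

end Pool.Agent.RRS
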