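import Pool.Agent.RRS.TailData

/-!
# The pairs with `R_k ≥ 3`, outside the middle block
-/

set_option autoImplicit false

namespace Pool.Agent.RRS

open Real

/-! ### The linear bounds -/

theorem chord60 : pth (π / 3) ≤ (1 / 2 : ℝ) + (-(6088 / 10000)) * cos (π / 3) := by
  rw [pth_60, cos_pi_div_three]
  have h1 := sqrt3_lo
  have h2 := inv_pi_lo
  have h3 : (1732 / 1000 : ℝ) * (3183 / 10000) ≤ √3 * (1 / π) := by
    apply mul_le_mul h1.le h2.le (by norm_num) (Real.sqrt_nonneg 3)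
  have e : √3 / 4 / π = √3 * (1 / π) / 4 := by ring
  rw [e]
  linarith

theorem chord90 : pth (π / 2) ≤ (1 / 2 : ℝ) + (-(6088 / 10000)) * cos (π / 2) := by
  have h := node_zero.2.2
  rw [arccos_zero] at h
  rw [cos_pi_div_two]
  linarith

theorem chord45 : pth (π / 4) ≤ (3668 / 10000 : ℝ) + (-(3902 / 10000)) * cos (π / 4) := by
  rw [pth_45, cos_pi_div_four]
  have h1 := sqrt2_hi
  have h2 := inv_pi_lo
  have e : 1 / 2 / π = 1 / π / 2 := by ring
  rw [e]
  linarith

theorem chord30 : pth (π / 6) ≤ (3668 / 10000 : ℝ) + (-(3902 / 10000)) * cos (π / 6) := by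
  rw [pth_30, cos_pi_div_six]
  have h1 := sqrt3_lo
  have h1' := sqrt3_hi
  have h2 := inv_pi_lo
  have h3 : (1732 / 1000 : ℝ) * (3183 / 10000) ≤ √3 * (1 / π) := by
    apply mul_le_mul h1.le h2.le (by norm_num) (Real.sqrt_nonneg 3)
  have e : √3 / 4 / π = √3 * (1 / π) / 4 := by ring
  rw [e]
  linarith

theorem chord30' : pth (π / 6) ≤ (2154 / 10000 : ℝ) + (-(2154 / 10000)) * cos (π / 6) := by
  rw [pth_30, cos_pi_div_six]
  have h1 := sqrt3_lo
  have h1' := sqrt3_hi
  have h2 := inv_pi_lo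
  have h3 : (1732 / 1000 : ℝ) * (3183 / 10000) ≤ √3 * (1 / π) := by
    apply mul_le_mul h1.le h2.le (by norm_num) (Real.sqrt_nonneg 3)
  have e : √3 / 4 / π = √3 * (1 / π) / 4 := by ring
  rw [e]
  linarith

theorem chord0 : pth 0 ≤ (2154 / 10000 : ℝ) + (-(2154 / 10000)) * cos 0 := by
  have h := node_one.2.2
  rw [arccos_one] at h
  rw [cos_zero]
  linarith

theorem node_26 : NodeLe (13 / 50) (3418 / 10000) := by
  have hpi := pi_pos
  refine node_of_chord (t1 := π / 3) (t2 := π / 2) (by positivity) (by linarith) le_rfl chord60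
    chord90 ?_ ?_ (by norm_num)
  · rw [cos_pi_div_three]
    norm_num
  · rw [cos_pi_div_two]
    norm_num

theorem node_50 : NodeLe (1 / 2) (1956 / 10000) := by
  have hpi := pi_pos
  refine node_of_chord (t1 := π / 3) (t2 := π / 2) (by positivity) (by linarith) le_rfl chord60
    chord90 ?_ ?_ (by norm_num)
  · rw [cos_pi_div_three]
  · rw [cos_pi_div_two]
    norm_num

theorem node_71 : NodeLe (71 / 100) (898 / 10000) := by
  have hpi := pi_pos
  refine node_of_chord (t1 := π / 6) (t2 := π / 4) (by positivity) (by linarith) (by linarith)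
    chord30 chord45 ?_ ?_ (by norm_num)
  · rw [cos_pi_div_six]
    have := sqrt3_lo
    linarith
  · rw [cos_pi_div_four]
    have := sqrt2_hi
    linarith

theorem node_87 : NodeLe (87 / 100) (281 / 10000) := by
  have hpi := pi_pos
  refine node_of_chord (t1 := 0) (t2 := π / 6) le_rfl (by linarith) (by linarith)
    chord0 chord30' ?_ ?_ (by norm_num)
  · rw [cos_zero]
    norm_num
  · rw [cos_pi_div_six]
    have := sqrt3_hi
    linarith

theorem ln01_ok : ln01.OK := by
  unfold LineQ.OK ln01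
  push_cast
  exact line_of_nodes node_zero node_26 (by norm_num) (by norm_num)

theorem ln05_ok : ln05.OK := by
  unfold LineQ.OK ln05
  push_cast
  exact line_of_nodes node_zero node_one (by norm_num) (by norm_num)

theorem ln12_ok : ln12.OK := by
  unfold LineQ.OK ln12
  push_cast
  exact line_of_nodes node_26 node_50 (by norm_num) (by norm_num)

theorem ln13_ok : ln13.OK := by
  unfold LineQ.OK ln13
  push_cast
  exact line_of_nodes node_26 node_71 (by norm_num) (by norm_num)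

theorem ln15_ok : ln15.OK := by
  unfold LineQ.OK ln15
  push_cast
  exact line_of_nodes node_26 node_one (by norm_num) (by norm_num)

theorem ln25_ok : ln25.OK := by
  unfold LineQ.OK ln25
  push_cast
  exact line_of_nodes node_50 node_one (by norm_num) (by norm_num)

theorem ln34_ok : ln34.OK := by
  unfold LineQ.OK ln34
  push_cast
  exact line_of_nodes node_71 node_87 (by norm_num) (by norm_num)

theorem ln35_ok : ln35.OK := by
  unfold LineQ.OK ln35
  push_cast
  exact line_of_nodes node_71 node_one (by norm_num) (by norm_num)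

theorem ln45_ok : ln45.OK := by
  unfold LineQ.OK ln45
  push_cast
  exact line_of_nodes node_87 node_one (by norm_num) (by norm_num)

theorem le_half {θ : ℝ} (h0 : 0 ≤ cos θ) (h1 : θ ≤ π) : θ ≤ π / 2 :=
  le_of_cos_ge (by positivity) h1 (by rw [cos_pi_div_two]; exact h0)

theorem tg1_ok : tg1.OK := by
  unfold LineQ.OK tg1
  push_cast
  intro θ h0 h1 h2 h3
  have h4 := le_half h2 h1
  have key := tangent_le_pth (t0 := π / 2) (by positivity) le_rfl h0 h4
  have e : pth (π / 2) = 1 / 2 := by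
    unfold pth
    rw [cos_pi_div_two, sin_pi_div_two]
    have := pi_ne_zero
    field_simp
    norm_num
  rw [e, cos_pi_div_two, sin_pi_div_two] at key
  have h5 := inv_pi_hi
  have e2 : 2 / π * 1 * (cos θ - 0) = 2 * (1 / π) * cos θ := by ring
  rw [e2] at key
  simp only [Bool.false_eq_true, if_false]
  nlinarith

theorem tg2_ok : tg2.OK := by
  unfold LineQ.OK tg2
  push_cast
  intro θ h0 h1 h2 h3
  have hpi := pi_pos
  have h4 := le_half h2 h1
  have key := tangent_le_pth (t0 := π / 3) (by positivity) (by linarith) h0 h4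
  rw [pth_60, cos_pi_div_three, sin_pi_div_three] at key
  have h5 := inv_pi_hi
  have h6 := inv_pi_lo
  have h7 : √3 * (1 / π) ≤ 17321 / 10000 * (31832 / 100000) :=
    mul_le_mul sqrt3_hi.le h5.le (by positivity) (by norm_num)
  have h8 : (1732 / 1000 : ℝ) * (3183 / 10000) ≤ √3 * (1 / π) := by
    apply mul_le_mul sqrt3_lo.le h6.le (by norm_num) (Real.sqrt_nonneg 3)
  have e2 : 1 / 3 - √3 / 4 / π - 2 / π * (√3 / 2) * (cos θ - 1 / 2) =
      1 / 3 + √3 * (1 / π) / 4 - √3 * (1 / π) * cos θ := by ring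
  rw [e2] at key
  simp only [Bool.false_eq_true, if_false]
  nlinarith

theorem tg4_ok : tg4.OK := by
  unfold LineQ.OK tg4
  push_cast
  intro θ h0 h1 h2 h3
  have hpi := pi_pos
  have h4 := le_half h2 h1
  have key := tangent_le_pth (t0 := π / 6) (by positivity) (by linarith) h0 h4
  rw [pth_30, cos_pi_div_six, sin_pi_div_six] at key
  have h5 := inv_pi_hi
  have h6 := inv_pi_lo
  have h8 : (1732 / 1000 : ℝ) * (3183 / 10000) ≤ √3 * (1 / π) := by
    apply mul_le_mul sqrt3_lo.le h6.le (by norm_num) (Real.sqrt_nonneg 3)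
  have e2 : 1 / 6 - √3 / 4 / π - 2 / π * (1 / 2) * (cos θ - √3 / 2) =
      1 / 6 + √3 * (1 / π) / 4 - 1 / π * cos θ := by ring
  rw [e2] at key
  simp only [Bool.false_eq_true, if_false]
  nlinarith

def lineList : List LineQ := [ln01, ln05, ln12, ln13, ln15, ln25, ln34, ln35, ln45, tg1, tg2, tg4]

theorem lineList_ok : ∀ l ∈ lineList, l.OK := by
  intro l hl
  simp only [lineList, List.mem_cons, List.not_mem_nil, or_false] at hl
  rcases hl with rfl | rfl | rfl | rfl | rfl | rfl | rfl | rfl | rfl | rfl | rfl | rfl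
  exacts [ln01_ok, ln05_ok, ln12_ok, ln13_ok, ln15_ok, ln25_ok, ln34_ok, ln35_ok, ln45_ok, tg1_ok,
    tg2_ok, tg4_ok]

def eqLine (l k : LineQ) : Bool :=
  (l.up == k.up) && (decide (l.b0 = k.b0) && (decide (l.b1 = k.b1) &&
    (decide (l.lo = k.lo) && decide (l.hi = k.hi))))

theorem eqLine_sound {l k : LineQ} (h : eqLine l k = true) : l = k := by
  simp only [eqLine, Bool.and_eq_true, decide_eq_true_eq, beq_iff_eq] at h
  obtain ⟨h1, h2, h3, h4, h5⟩ := h
  cases l
  cases k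
  simp_all

def lnQ (l : LineQ) : Bool := lineList.any fun k => eqLine l k || eqLine l k.refl

theorem lnQ_sound {l : LineQ} (h : lnQ l = true) : l.OK := by
  simp only [lnQ, List.any_eq_true, Bool.or_eq_true] at h
  obtain ⟨k, hk, h | h⟩ := h
  · rw [eqLine_sound h]
    exact lineList_ok k hk
  · rw [eqLine_sound h]
    exact (lineList_ok k hk).refl

def zoneQ (chk : BoxQ → Bool) (c0 c1 : ℚ) (z : List (ℚ × List BoxQ)) : Bool :=
  chainR c0 c1 3 0 z && z.all fun p => p.2.all fun b => chk b && lnQ b.ln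

theorem zTP_ok : zoneQ (infQ 5) 0 1 zTP = true := by decide +kernel

theorem zTN_ok : zoneQ (infQ 5) (-1) 0 zTN = true := by decide +kernel

theorem zSM_ok : zoneQ (finQ 3 5) (71 / 100) 1 zSM = true := by decide +kernel

theorem zLA_ok : zoneQ (finQ 3 5) (-1) (-71 / 100) zLA = true := by decide +kernel

theorem zone_box {chk : BoxQ → Bool} {c0 c1 : ℚ} {z : List (ℚ × List BoxQ)}
    (h : zoneQ chk c0 c1 z = true) {x y : ℝ} (hx0 : 0 < x) (hx : x < 3) (hy0 : (c0 : ℝ) ≤ y)
    (hy : y ≤ c1) : ∃ b : BoxQ, chk b = true ∧ b.ln.OK ∧ (b.Ra : ℝ) ≤ x ∧ x ≤ b.Rb ∧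
      (b.ca : ℝ) ≤ y ∧ y ≤ b.cb := by
  simp only [zoneQ, Bool.and_eq_true, List.all_eq_true] at h
  obtain ⟨h1, h2⟩ := h
  obtain ⟨p, hp, b, hb, rest⟩ := chainR_sound (R1 := 3) (by push_cast; exact hx.le) hy0 hy z 0 h1
    (by push_cast; exact hx0)
  obtain ⟨g1, g2⟩ := h2 p hp b hb
  exact ⟨b, g1, lnQ_sound g2, rest⟩

/-- **the pairs with `R_k ≥ 5`** -/
theorem tail_five {R Rk θ : ℝ} (h0 : 0 < R) (h3 : R < 3) (hk : 5 ≤ Rk) (t0 : 0 ≤ θ)
    (t1 : θ ≤ π) : RPair Fz g0z g1z g2z R Rk θ (cos θ) := by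
  rcases le_total 0 (cos θ) with h | h
  · obtain ⟨b, e1, e2, e3, e4, e5, e6⟩ := zone_box zTP_ok h0 h3 (y := cos θ) (by push_cast; exact h)
      (by push_cast; exact cos_le_one θ)
    exact infQ_sound e1 (by norm_num) e2 h0 e3 e4 h3 (by push_cast; exact hk) t0 t1 e5 e6
  · obtain ⟨b, e1, e2, e3, e4, e5, e6⟩ := zone_box zTN_ok h0 h3 (y := cos θ)
      (by push_cast; exact neg_one_le_cos θ) (by push_cast; exact h)
    exact infQ_sound e1 (by norm_num) e2 h0 e3 e4 h3 (by push_cast; exact hk) t0 t1 e5 e6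

/-- **the pairs with `3 ≤ R_k ≤ 5` at small angles** -/
theorem tail_small {R Rk θ : ℝ} (h0 : 0 < R) (h3 : R < 3) (hk : 3 ≤ Rk) (hk5 : Rk ≤ 5)
    (t0 : 0 ≤ θ) (t1 : θ ≤ π) (hc : 71 / 100 ≤ cos θ) :
    RPair Fz g0z g1z g2z R Rk θ (cos θ) := by
  obtain ⟨b, e1, e2, e3, e4, e5, e6⟩ := zone_box zSM_ok h0 h3 (y := cos θ) (by push_cast; exact hc)
      (by push_cast; exact cos_le_one θ)
  exact finQ_sound e1 (by norm_num) e2 h0 e3 e4 h3 (by push_cast; exact hk)
    (by push_cast; exact hk5) t0 t1 e5 e6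

/-- **the pairs with `3 ≤ R_k ≤ 5` at large angles** -/
theorem tail_large {R Rk θ : ℝ} (h0 : 0 < R) (h3 : R < 3) (hk : 3 ≤ Rk) (hk5 : Rk ≤ 5)
    (t0 : 0 ≤ θ) (t1 : θ ≤ π) (hc : cos θ ≤ -(71 / 100)) :
    RPair Fz g0z g1z g2z R Rk θ (cos θ) := by
  obtain ⟨b, e1, e2, e3, e4, e5, e6⟩ := zone_box zLA_ok h0 h3 (y := cos θ)
      (by push_cast; exact neg_one_le_cos θ) (by push_cast; linarith)
  exact finQ_sound e1 (by norm_num) e2 h0 e3 e4 h3 (by push_cast; exact hk)
    (by push_cast; exact hk5) t0 t1 e5 e6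

end Pool.Agent.RRS
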