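import Pool.Agent.RRS.Symm

/-!
# Types of points

`tt R p = t`, `SS R p = S`, `vv R p = v`: `S = (1 - v)² + 2 v (1 - v) p + v² R²` is the minimum over
`v ≥ 0`, so that `E M² σ ≤ S`.  `DD = D = t - √2 R - 1 + 2 S`.  The type is light if `D ≤ 0`.

`light_light`: a pair of light types is good for the multiplier `m²` and every `g` with
`D ≤ g ≤ 0`.
-/

set_option autoImplicit false

noncomputable section

namespace Pool.Agent.RRS

open Real MeasureTheory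

/-- the square of the distance is positive if `p < 1` -/
theorem t_sq_pos {R p : ℝ} (hp : |p| ≤ R) (h : p < 1) : 0 < 1 - 2 * p + R ^ 2 := by
  have h1 : p ^ 2 ≤ R ^ 2 := sq_le_sq' (by linarith [(abs_le.1 hp).1]) (abs_le.1 hp).2
  nlinarith [sq_nonneg (1 - p), mul_pos (sub_pos.2 h) (sub_pos.2 h)]

theorem t_sq_nonneg {R p : ℝ} (hp : |p| ≤ R) : 0 ≤ 1 - 2 * p + R ^ 2 := by
  have h1 : p ^ 2 ≤ R ^ 2 := sq_le_sq' (by linarith [(abs_le.1 hp).1]) (abs_le.1 hp).2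
  nlinarith [sq_nonneg (1 - p)]

theorem tt_sq {R p : ℝ} (hp : |p| ≤ R) : tt R p ^ 2 = 1 - 2 * p + R ^ 2 :=
  Real.sq_sqrt (t_sq_nonneg hp)

theorem tt_nonneg (R p : ℝ) : 0 ≤ tt R p := Real.sqrt_nonneg _

/-- the optimal `v` -/
def vv (R p : ℝ) : ℝ := if p < 1 then (1 - p) / (1 - 2 * p + R ^ 2) else 0

/-- the bound of `E M² σ` -/
def SS (R p : ℝ) : ℝ := if p < 1 then (R ^ 2 - p ^ 2) / (1 - 2 * p + R ^ 2) else 1

/-- the surplus of the type -/
def DD (R p : ℝ) : ℝ := tt R p - √2 * R - 1 + 2 * SS R p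

theorem vv_nonneg {R p : ℝ} (hp : |p| ≤ R) : 0 ≤ vv R p := by
  unfold vv
  split_ifs with h
  · exact div_nonneg (by linarith) (t_sq_pos hp h).le
  · exact le_rfl

theorem SS_eq {R p : ℝ} (hp : |p| ≤ R) :
    (1 - vv R p) ^ 2 + 2 * vv R p * (1 - vv R p) * p + vv R p ^ 2 * R ^ 2 = SS R p := by
  unfold vv SS
  split_ifs with h
  · obtain ⟨T, hT⟩ : ∃ T, T = 1 - 2 * p + R ^ 2 := ⟨_, rfl⟩
    have hT0 : 0 < T := by rw [hT]; exact t_sq_pos hp h
    have hR : R ^ 2 = T - 1 + 2 * p := by rw [hT]; ring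
    rw [← hT, hR]
    field_simp
    ring
  · ring

theorem SS_nonneg {R p : ℝ} (hp : |p| ≤ R) : 0 ≤ SS R p := by
  unfold SS
  split_ifs with h
  · have h1 : p ^ 2 ≤ R ^ 2 := sq_le_sq' (by linarith [(abs_le.1 hp).1]) (abs_le.1 hp).2
    exact div_nonneg (by linarith) (t_sq_pos hp h).le
  · exact zero_le_one

theorem DD_zero : DD 0 0 = 0 := by
  unfold DD SS tt
  simp

/-- `D ≤ 0` if `p ≥ 1` -/
theorem DD_nonpos {R p : ℝ} (hp : |p| ≤ R) (h : 1 ≤ p) : DD R p ≤ 0 := by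
  have hR : 1 ≤ R := h.trans ((le_abs_self p).trans hp)
  unfold DD SS
  rw [if_neg (not_lt.2 h)]
  have h1 : tt R p ≤ √2 * R - 1 := by
    unfold tt
    have h2 : (1.4 : ℝ) ≤ √2 := Real.le_sqrt_of_sq_le (by norm_num)
    have h3 : √2 ^ 2 = 2 := Real.sq_sqrt (by norm_num)
    refine Real.sqrt_le_iff.2 ⟨by nlinarith, ?_⟩
    have e : (√2 * R - 1) ^ 2 = 2 * R ^ 2 - 2 * √2 * R + 1 := by
      have : (√2 * R - 1) ^ 2 = √2 ^ 2 * R ^ 2 - 2 * √2 * R + 1 := by ring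
      rw [this, h3]
    have h4 : 0 ≤ (R - √2) ^ 2 := sq_nonneg _
    have e2 : (R - √2) ^ 2 = R ^ 2 - 2 * √2 * R + √2 ^ 2 := by ring
    rw [e2, h3] at h4
    rw [e]
    linarith
  linarith

/-! ### Averages -/

theorem avgP_sq_left (a b θ : ℝ) : avgP (fun x _ => x ^ 2) a b θ = a ^ 2 := by
  unfold avgP
  have e : ∀ φ : ℝ, (a * cos φ) ^ 2 = a ^ 2 * cos φ ^ 2 := fun φ => by ring
  simp only [e]
  rw [intervalIntegral.integral_const_mul, integral_cos_sq]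
  have hpi : (π : ℝ) ≠ 0 := pi_ne_zero
  simp only [cos_two_pi, sin_two_pi, cos_zero, sin_zero]
  field_simp
  ring

theorem avgP_sq_right (a b θ : ℝ) : avgP (fun _ y => y ^ 2) a b θ = b ^ 2 := by
  rw [← avgP_symm]
  exact avgP_sq_left b a θ

theorem homBd_sq_left : HomBd fun x _ => x ^ 2 := by
  refine ⟨by fun_prop, fun c x y => by ring, 1, fun x y => ?_⟩
  rw [abs_of_nonneg (sq_nonneg x)]
  nlinarith [sq_nonneg y]

/-- interval integrability of the integrand of `avgP` -/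
theorem HomBd.intervalIntegrable {H : ℝ → ℝ → ℝ} (h : HomBd H) (a b θ : ℝ) :
    IntervalIntegrable (fun φ => H (a * cos φ) (b * cos (φ - θ))) volume 0 (2 * π) := by
  obtain ⟨C, hC⟩ := h.bd
  have hcont : Continuous fun φ : ℝ => (a * cos φ, b * cos (φ - θ)) := by
    refine Continuous.prodMk ?_ ?_ <;> fun_prop
  have hmeas := h.meas.comp hcont.measurable
  have hb : Continuous fun φ : ℝ => C * ((a * cos φ) ^ 2 + (b * cos (φ - θ)) ^ 2) := by
    fun_prop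
  refine (hb.intervalIntegrable _ _).mono_fun' hmeas.aestronglyMeasurable
    (Filter.Eventually.of_forall fun φ => ?_)
  dsimp only
  rw [Real.norm_eq_abs]
  exact hC _ _

theorem HomBd.add {H K : ℝ → ℝ → ℝ} (h : HomBd H) (k : HomBd K) :
    HomBd fun x y => H x y + K x y := by
  obtain ⟨C, hC⟩ := h.bd
  obtain ⟨D, hD⟩ := k.bd
  refine ⟨h.meas.add k.meas, fun c x y => ?_, C + D, fun x y => ?_⟩
  · rw [h.hom, k.hom]
    ring
  · refine (abs_add_le _ _).trans ?_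
    rw [add_mul]
    exact add_le_add (hC x y) (hD x y)

theorem HomBd.const_mul {H : ℝ → ℝ → ℝ} (h : HomBd H) (c : ℝ) :
    HomBd fun x y => c * H x y := by
  obtain ⟨C, hC⟩ := h.bd
  refine ⟨h.meas.const_mul c, fun a x y => ?_, |c| * C, fun x y => ?_⟩
  · rw [h.hom]
    ring
  · rw [abs_mul, mul_assoc]
    exact mul_le_mul_of_nonneg_left (hC x y) (abs_nonneg c)

theorem avgP_add {H K : ℝ → ℝ → ℝ} (h : HomBd H) (k : HomBd K) (a b θ : ℝ) :
    avgP (fun x y => H x y + K x y) a b θ = avgP H a b θ + avgP K a b θ := by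
  unfold avgP
  rw [intervalIntegral.integral_add (h.intervalIntegrable a b θ) (k.intervalIntegrable a b θ)]
  ring

theorem avgP_const_mul (c : ℝ) (H : ℝ → ℝ → ℝ) (a b θ : ℝ) :
    avgP (fun x y => c * H x y) a b θ = c * avgP H a b θ := by
  unfold avgP
  rw [intervalIntegral.integral_const_mul]
  ring

theorem avgP_mono {H K : ℝ → ℝ → ℝ} (h : HomBd H) (k : HomBd K) (hle : ∀ x y, H x y ≤ K x y)
    (a b θ : ℝ) : avgP H a b θ ≤ avgP K a b θ := by
  unfold avgP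
  refine mul_le_mul_of_nonneg_left ?_ (by positivity)
  exact intervalIntegral.integral_mono_on (by positivity) (h.intervalIntegrable a b θ)
    (k.intervalIntegrable a b θ) fun φ _ => hle _ _

/-! ### Light pairs -/

/-- the basic inequality: `m² s ≤ ((1 - v) m + v x)²` -/
theorem sq_weight_le {m x s v : ℝ} (hm : 0 ≤ m) (s0 : 0 ≤ s) (s1 : s ≤ 1)
    (hs : 0 < s → m ≤ x) (hv : 0 ≤ v) : m ^ 2 * s ≤ ((1 - v) * m + v * x) ^ 2 := by
  rcases s0.eq_or_lt with h | h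
  · rw [← h, mul_zero]
    positivity
  · have h1 : m ≤ (1 - v) * m + v * x := by nlinarith [hs h]
    have h2 : m ^ 2 ≤ ((1 - v) * m + v * x) ^ 2 := pow_le_pow_left₀ hm h1 2
    nlinarith [sq_nonneg m]

/-- the second basic inequality: `m² s ≤ x m + (x m)⁻` -/
theorem sq_weight_le' {m x s : ℝ} (hm : 0 ≤ m) (s0 : 0 ≤ s) (s1 : s ≤ 1)
    (hs : 0 < s → m ≤ x) : m ^ 2 * s ≤ x * m + max 0 (-(x * m)) := by
  rcases s0.eq_or_lt with h | h
  · rw [← h, mul_zero]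
    linarith [le_max_right 0 (-(x * m))]
  · have h1 : m ^ 2 ≤ x * m := by nlinarith [hs h]
    have h2 : m ^ 2 * s ≤ m ^ 2 := mul_le_of_le_one_right (sq_nonneg m) s1
    linarith [le_max_left 0 (-(x * m))]

theorem light_light {F : ℝ → ℝ → ℝ → ℝ → ℝ} {g : ℝ → ℝ → ℝ} {Rj pj Rk pk θ c : ℝ}
    (hj : |pj| ≤ Rj) (hk : |pk| ≤ Rk) (hFj : F Rj pj = fun _ m => m ^ 2)
    (hFk : F Rk pk = fun _ m => m ^ 2) (gj : DD Rj pj ≤ g Rj pj) (gj0 : g Rj pj ≤ 0)
    (gk : DD Rk pk ≤ g Rk pk) (gk0 : g Rk pk ≤ 0) (hc : c ≤ 1) :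
    PairOK F g Rj pj Rk pk θ c := by
  obtain ⟨v, hv⟩ : ∃ v, v = vv Rj pj := ⟨_, rfl⟩
  obtain ⟨w, hw⟩ : ∃ w, w = vv Rk pk := ⟨_, rfl⟩
  have hv0 : 0 ≤ v := by rw [hv]; exact vv_nonneg hj
  have hw0 : 0 ≤ w := by rw [hw]; exact vv_nonneg hk
  refine ⟨-2 + 2 * (1 - v) ^ 2 + 2 * (1 - w) ^ 2, 4 * v * (1 - v), 4 * w * (1 - w),
    fun x y => 2 * v ^ 2 * x ^ 2 + 2 * w ^ 2 * y ^ 2,
    (homBd_sq_left.const_mul _).add (homBd_sq_left.symm.const_mul _), ?_, ?_⟩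
  · intro m x y s t hm s0 s1 t0 t1 sx _ ty _
    rw [hFj, hFk]
    have a1 := sq_weight_le hm s0 s1 sx hv0
    have a2 := sq_weight_le hm t0 t1 ty hw0
    dsimp only
    linarith
  · have e := avgP_add (homBd_sq_left.const_mul (2 * v ^ 2))
      (homBd_sq_left.symm.const_mul (2 * w ^ 2)) Rj Rk θ
    rw [avgP_const_mul, avgP_const_mul, avgP_sq_left, avgP_sq_right] at e
    rw [e]
    have s1 := SS_eq hj
    have s2 := SS_eq hk
    rw [← hv] at s1
    rw [← hw] at s2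
    unfold DD at gj gk
    have c1 : g Rj pj + g Rk pk ≤ (g Rj pj + g Rk pk) * c := by nlinarith
    linarith

end Pool.Agent.RRS
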