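import Pool.Agent.RRS.Funcs
import Pool.Agent.RRS.Types

/-!
# The tail: the pointwise inequality against the simple type `F = m²`

The form `H = A x² + C y²` on the quadrants of the same sign, `A' x² + C y²` on the quadrants of
opposite signs.  The weight of the second point is free for `y ≥ 0`; for `y < 0` the term `γ y m`
is bounded by `τ m² + C y²`.  The pointwise inequality reduces to inequalities in one variable.
-/

set_option autoImplicit false

noncomputable section

namespace Pool.Agent.RRS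

open Real

/-- a quadratic function is nonnegative on `[0, 1]` -/
def Q01 (a b k : ℝ) : Prop := ∀ r : ℝ, 0 ≤ r → r ≤ 1 → 0 ≤ a * r ^ 2 + b * r + k

/-- a quadratic function is nonnegative on `[1, ∞)` -/
def Q1i (a b k : ℝ) : Prop := 0 ≤ a ∧ ∀ r : ℝ, 1 ≤ r → 0 ≤ a * r ^ 2 + b * r + k

theorem Q01.form {a b k X m : ℝ} (h : Q01 a b k) (hm : 0 ≤ m) (hX : m ≤ X) :
    0 ≤ a * m ^ 2 + b * (X * m) + k * X ^ 2 := by
  rcases (hm.trans hX).eq_or_lt with h0 | h0
  · have : m = 0 := le_antisymm (h0 ▸ hX) hm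
    rw [← h0, this]
    simp
  · have key := h (m / X) (by positivity) ((div_le_one h0).2 hX)
    have e : a * m ^ 2 + b * (X * m) + k * X ^ 2 =
        X ^ 2 * (a * (m / X) ^ 2 + b * (m / X) + k) := by
      field_simp
    rw [e]
    positivity

theorem Q1i.form {a b k X m : ℝ} (h : Q1i a b k) (h0 : 0 ≤ X) (hX : X ≤ m) :
    0 ≤ a * m ^ 2 + b * (X * m) + k * X ^ 2 := by
  rcases h0.eq_or_lt with h1 | h1
  · rw [← h1]
    have := mul_nonneg h.1 (sq_nonneg m)
    simpa using this
  · have key := h.2 (m / X) ((one_le_div h1).2 hX)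
    have e : a * m ^ 2 + b * (X * m) + k * X ^ 2 =
        X ^ 2 * (a * (m / X) ^ 2 + b * (m / X) + k) := by
      field_simp
    rw [e]
    positivity

/-- the inequality of one type with the sign `ε`: all cells of the sign `s` -/
def NC (L : LF) (ε a b k : ℝ) (s : Bool) : Prop :=
  Q01 (ε * L.q s true + ef s true + a) (ε * L.p s true + sg s * b) k ∧
    Q1i (ε * L.q s false + ef s false + a) (ε * L.p s false + sg s * b) k

theorem NC.k_nonneg {L : LF} {ε a b k : ℝ} {s : Bool} (h : NC L ε a b k s) : 0 ≤ k := by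
  have := h.1 0 le_rfl zero_le_one
  simpa using this

theorem NC.spec {L : LF} {ε a b k : ℝ} {s : Bool} (h : NC L ε a b k s) {X m w : ℝ} (hX : 0 ≤ X)
    (hs : s = true ∨ 0 < X) (hm : 0 ≤ m) (w0 : 0 ≤ w) (w1 : w ≤ 1) (h1 : 0 < w → m ≤ sg s * X)
    (h2 : m < sg s * X → w = 1) :
    0 ≤ ε * L.F (sg s * X) m + m ^ 2 * (1 - 2 * w) + a * m ^ 2 + b * (sg s * X * m) +
      k * X ^ 2 := by
  rcases hm.eq_or_lt with hm0 | hm0
  · rw [← hm0]
    have h3 : L.F (sg s * X) 0 = 0 := by
      unfold LF.F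
      split_ifs <;> ring
    rw [h3]
    have := mul_nonneg h.k_nonneg (sq_nonneg X)
    simpa using this
  · have cell : ∀ i : Bool, inC i X m → 0 ≤ ε * L.F (sg s * X) m + m ^ 2 * ef s i + a * m ^ 2 +
        b * (sg s * X * m) + k * X ^ 2 := by
      intro i hi
      rw [L.F_eq hX hs hm hi]
      cases i
      · have := h.2.form hX (by simpa [inC] using hi)
        linarith
      · have := h.1.form hm (by simpa [inC] using hi)
        linarith
    rcases weight_cases hX hm0 w0 w1 h1 h2 with ⟨i, hi, hw⟩ | ⟨hs', hmX⟩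
    · rw [hw]
      exact cell i hi
    · have c1 := cell true (by simp [inC, hmX])
      have c2 := cell false (by simp [inC, hmX])
      have e1 : ef s true = -1 := by simp [ef, hs']
      have e2 : ef s false = 1 := by simp [ef]
      rw [e1] at c1
      rw [e2] at c2
      nlinarith [mul_nonneg w0 c1, mul_nonneg (sub_nonneg.2 w1) c2]

theorem Ls_F (y m : ℝ) : Ls.F y m = m ^ 2 := by
  unfold Ls mkL LF.F
  dsimp only
  split_ifs <;> ring

/-- the form -/
def Hs (A A' C x y : ℝ) : ℝ := (if 0 ≤ x * y then A else A') * x ^ 2 + C * y ^ 2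

/-- the conditions of the simple class -/
structure SC (L : LF) (α τ a1 β A A' : ℝ) : Prop where
  s1 : NC L (-1) a1 β A true
  s2 : NC L 1 α β A true
  s3 : NC L 1 (α - τ) β A false
  o1 : NC L 1 (α - τ) β A' true
  o2 : NC L (-1) a1 β A' false
  o3 : NC L 1 α β A' false

/-- the pointwise inequality of the simple class -/
theorem SC.pw {L : LF} {α τ a1 β A A' γ C : ℝ} (h : SC L α τ a1 β A A')
    (hγ : 0 ≤ γ) (hτ : 0 ≤ τ) (hC : 0 ≤ C) (hd : γ ^ 2 ≤ 4 * τ * C) (h1 : a1 ≤ α + γ + C) :
    PW L.F Ls.F α β γ (Hs A A' C) := by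
  intro m x y s t hm s0 s1 t0 t1 hs1 hs2 ht1 ht2
  simp only [Ls_F]
  have hA : 0 ≤ A := h.s2.k_nonneg
  have hA' : 0 ≤ A' := h.o3.k_nonneg
  -- the inequality of the first type, for both signs of `x`
  have hpos : ∀ {ε a k : ℝ}, NC L ε a β k true → 0 ≤ x →
      0 ≤ ε * L.F x m + m ^ 2 * (1 - 2 * s) + a * m ^ 2 + β * (x * m) + k * x ^ 2 := by
    intro ε a k hN hx
    have := hN.spec hx (Or.inl rfl) hm s0 s1 (by simpa [sg] using hs1) (by simpa [sg] using hs2)
    simpa [sg] using this
  have hneg : ∀ {ε a k : ℝ}, NC L ε a β k false → x < 0 →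
      0 ≤ ε * L.F x m + m ^ 2 * (1 - 2 * s) + a * m ^ 2 + β * (x * m) + k * x ^ 2 := by
    intro ε a k hN hx
    have := hN.spec (X := -x) (by linarith) (Or.inr (by linarith)) hm s0 s1
      (by simpa [sg] using hs1) (by simpa [sg] using hs2)
    simpa [sg] using this
  unfold Hs
  rcases lt_or_ge y 0 with hy | hy
  · -- `y < 0`: the weight of the second point vanishes
    have ht : t = 0 := by
      rcases t0.eq_or_lt with h0 | h0
      · exact h0.symm
      · have := ht1 h0
        linarith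
    have key : 0 ≤ γ * (y * m) + C * y ^ 2 + τ * m ^ 2 := by
      rcases hτ.eq_or_lt with h0 | h0
      · have hγ0 : γ = 0 := by
          rw [← h0] at hd
          nlinarith
        rw [hγ0, ← h0]
        nlinarith [mul_nonneg hC (sq_nonneg y)]
      · have e : 4 * τ * (γ * (y * m) + C * y ^ 2 + τ * m ^ 2) =
            (2 * τ * m + γ * y) ^ 2 + (4 * τ * C - γ ^ 2) * y ^ 2 := by ring
        have h3 : 0 ≤ 4 * τ * (γ * (y * m) + C * y ^ 2 + τ * m ^ 2) := by
          rw [e]
          have := mul_nonneg (sub_nonneg.2 hd) (sq_nonneg y)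
          positivity
        exact nonneg_of_mul_nonneg_right h3 (by positivity)
    rw [ht]
    rcases lt_trichotomy x 0 with hx | hx | hx
    · rw [if_pos (mul_nonneg_of_nonpos_of_nonpos hx.le hy.le)]
      have := hneg h.s3 hx
      nlinarith
    · rw [hx] at hpos ⊢
      have := hpos h.o1 le_rfl
      simp only [zero_mul, mul_zero, ne_eq, OfNat.ofNat_ne_zero, not_false_eq_true, zero_pow,
        le_refl, if_true] at this ⊢
      nlinarith
    · rw [if_neg (by nlinarith)]
      have := hpos h.o1 hx.le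
      nlinarith
  · -- `y ≥ 0`
    have hyb : t * ((γ + C) * m ^ 2) ≤ γ * (y * m) + C * y ^ 2 := by
      rcases t0.eq_or_lt with h0 | h0
      · rw [← h0]
        have := mul_nonneg hγ (mul_nonneg hy hm)
        have := mul_nonneg hC (sq_nonneg y)
        linarith
      · have hmy := ht1 h0
        have h3 : m ^ 2 ≤ y * m := by nlinarith
        have h4 : m ^ 2 ≤ y ^ 2 := by nlinarith
        have h5 : t * ((γ + C) * m ^ 2) ≤ 1 * ((γ + C) * m ^ 2) :=
          mul_le_mul_of_nonneg_right t1 (by positivity)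
        nlinarith [mul_le_mul_of_nonneg_left h3 hγ, mul_le_mul_of_nonneg_left h4 hC]
    have comb : ∀ {k : ℝ},
        0 ≤ 1 * L.F x m + m ^ 2 * (1 - 2 * s) + α * m ^ 2 + β * (x * m) + k * x ^ 2 →
        0 ≤ -1 * L.F x m + m ^ 2 * (1 - 2 * s) + a1 * m ^ 2 + β * (x * m) + k * x ^ 2 →
        0 ≤ L.F x m * (1 - 2 * t) + m ^ 2 * (1 - 2 * s) + α * m ^ 2 + β * (x * m) + γ * (y * m) +
          (k * x ^ 2 + C * y ^ 2) := by
      intro k c1 c2
      have c3 : a1 * m ^ 2 ≤ (α + γ + C) * m ^ 2 := mul_le_mul_of_nonneg_right h1 (sq_nonneg m)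
      have c4 := mul_nonneg (sub_nonneg.2 t1) c1
      have c5 := mul_nonneg t0 c2
      have c6 := mul_le_mul_of_nonneg_left c3 t0
      nlinarith
    rcases lt_or_ge x 0 with hx | hx
    · rcases hy.eq_or_lt with hy0 | hy0
      · -- `y = 0`
        rw [← hy0, mul_zero, if_pos le_rfl]
        have h3 := hneg h.s3 hx
        rcases t0.eq_or_lt with h0 | h0
        · rw [← h0]
          nlinarith [mul_nonneg hτ (sq_nonneg m)]
        · have hm0 : m = 0 := le_antisymm (by rw [hy0]; exact ht1 h0) hm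
          rw [hm0] at h3 ⊢
          have h4 : L.F x 0 = 0 := by
            unfold LF.F
            split_ifs <;> ring
          rw [h4] at h3 ⊢
          nlinarith
      · rw [if_neg (by nlinarith)]
        exact comb (hneg h.o3 hx) (hneg h.o2 hx)
    · rw [if_pos (mul_nonneg hx hy)]
      exact comb (hpos h.s2 hx) (hpos h.s1 hx)

end Pool.Agent.RRS
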