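import Pool.Agent.RRS.TailBox

/-!
# Soundness of the checker of the tail
-/

set_option autoImplicit false

noncomputable section

namespace Pool.Agent.RRS

open Real

/-- the values on a piece -/
def PcQ.lf (P : PcQ) (R : ℝ) : LF :=
  mkL (P.p.c + P.q.c * R) (P.p.a + P.q.a * R) (P.p.z + P.q.z * R) (P.p.k + P.q.k * R)
    (P.p.e + P.q.e * R)

theorem at_toLF (P : PcQ) (R : ℚ) : (P.at R).toLF = P.lf R := by
  unfold LQ.toLF PcQ.lf PcQ.at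
  push_cast
  rfl

theorem bi_nonneg {f : ℝ → ℝ → ℝ} {Ra Rb ca cb R c : ℝ} (hR : Ra < Rb) (hc : ca < cb)
    (h1 : Ra ≤ R) (h2 : R ≤ Rb) (h3 : ca ≤ c) (h4 : c ≤ cb)
    (hid : (Rb - Ra) * (cb - ca) * f R c = (Rb - R) * (cb - c) * f Ra ca +
      (Rb - R) * (c - ca) * f Ra cb + (R - Ra) * (cb - c) * f Rb ca +
      (R - Ra) * (c - ca) * f Rb cb)
    (f1 : 0 ≤ f Ra ca) (f2 : 0 ≤ f Ra cb) (f3 : 0 ≤ f Rb ca) (f4 : 0 ≤ f Rb cb) :
    0 ≤ f R c := by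
  have h5 : 0 ≤ (Rb - Ra) * (cb - ca) * f R c := by
    rw [hid]
    have a1 := mul_nonneg (mul_nonneg (sub_nonneg.2 h2) (sub_nonneg.2 h4)) f1
    have a2 := mul_nonneg (mul_nonneg (sub_nonneg.2 h2) (sub_nonneg.2 h3)) f2
    have a3 := mul_nonneg (mul_nonneg (sub_nonneg.2 h1) (sub_nonneg.2 h4)) f3
    have a4 := mul_nonneg (mul_nonneg (sub_nonneg.2 h1) (sub_nonneg.2 h3)) f4
    linarith
  exact nonneg_of_mul_nonneg_right h5 (mul_pos (sub_pos.2 hR) (sub_pos.2 hc))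

/-- the multiplier of `x m` -/
def betaR (P : PcQ) (U R c : ℝ) : ℝ := (1 - c) * U + (del : ℝ) + c * (P.p.k + P.q.k * R)

theorem NC_inside {P : PcQ} {U ε a k : ℝ} {s : Bool} {Ra Rb ca cb R c : ℝ} (hR : Ra < Rb)
    (hc : ca < cb) (h1 : Ra ≤ R) (h2 : R ≤ Rb) (h3 : ca ≤ c) (h4 : c ≤ cb)
    (f1 : NC (P.lf Ra) ε a (betaR P U Ra ca) k s) (f2 : NC (P.lf Ra) ε a (betaR P U Ra cb) k s)
    (f3 : NC (P.lf Rb) ε a (betaR P U Rb ca) k s) (f4 : NC (P.lf Rb) ε a (betaR P U Rb cb) k s) :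
    NC (P.lf R) ε a (betaR P U R c) k s := by
  refine ⟨fun r r0 r1 => ?_, ?_, fun r hr => ?_⟩
  · refine bi_nonneg (f := fun R c => (ε * (P.lf R).q s true + ef s true + a) * r ^ 2 +
      (ε * (P.lf R).p s true + sg s * betaR P U R c) * r + k) hR hc h1 h2 h3 h4 ?_ (f1.1 r r0 r1)
      (f2.1 r r0 r1) (f3.1 r r0 r1) (f4.1 r r0 r1)
    cases s <;> simp only [PcQ.lf, mkL, LF.q, LF.p, betaR] <;> ring
  · refine bi_nonneg (f := fun R _ => ε * (P.lf R).q s false + ef s false + a) hR hc h1 h2 h3 h4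
      ?_ f1.2.1 f2.2.1 f3.2.1 f4.2.1
    cases s <;> simp only [PcQ.lf, mkL, LF.q] <;> ring
  · refine bi_nonneg (f := fun R c => (ε * (P.lf R).q s false + ef s false + a) * r ^ 2 +
      (ε * (P.lf R).p s false + sg s * betaR P U R c) * r + k) hR hc h1 h2 h3 h4 ?_
      (f1.2.2 r hr) (f2.2.2 r hr) (f3.2.2 r hr) (f4.2.2 r hr)
    cases s <;> simp only [PcQ.lf, mkL, LF.q, LF.p, betaR] <;> ring

theorem SC_inside {P : PcQ} {U α τ a1 A B : ℝ} {Ra Rb ca cb R c : ℝ} (hR : Ra < Rb)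
    (hc : ca < cb) (h1 : Ra ≤ R) (h2 : R ≤ Rb) (h3 : ca ≤ c) (h4 : c ≤ cb)
    (f1 : SC (P.lf Ra) α τ a1 (betaR P U Ra ca) A B)
    (f2 : SC (P.lf Ra) α τ a1 (betaR P U Ra cb) A B)
    (f3 : SC (P.lf Rb) α τ a1 (betaR P U Rb ca) A B)
    (f4 : SC (P.lf Rb) α τ a1 (betaR P U Rb cb) A B) :
    SC (P.lf R) α τ a1 (betaR P U R c) A B :=
  ⟨NC_inside hR hc h1 h2 h3 h4 f1.s1 f2.s1 f3.s1 f4.s1,
    NC_inside hR hc h1 h2 h3 h4 f1.s2 f2.s2 f3.s2 f4.s2,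
    NC_inside hR hc h1 h2 h3 h4 f1.s3 f2.s3 f3.s3 f4.s3,
    NC_inside hR hc h1 h2 h3 h4 f1.o1 f2.o1 f3.o1 f4.o1,
    NC_inside hR hc h1 h2 h3 h4 f1.o2 f2.o2 f3.o2 f4.o2,
    NC_inside hR hc h1 h2 h3 h4 f1.o3 f2.o3 f3.o3 f4.o3⟩

theorem corner_sound {b : BoxQ} {a1 R c : ℚ} (h : corner b a1 R c = true) :
    SC ((pcs b.pc).lf R) b.al b.tau a1 (betaR (pcs b.pc) b.U R c) b.A b.B := by
  have h1 := scQ_sound h
  rw [at_toLF] at h1
  have e : ((betaQ b R c : ℚ) : ℝ) = betaR (pcs b.pc) b.U R c := by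
    unfold betaQ betaR PcQ.at
    push_cast
    ring
  rw [e] at h1
  exact h1

/-- the value -/
def valR (b : BoxQ) (kp R c : ℝ) : ℝ :=
  (1 - c) / (2 * b.U) + ((1 - c) * b.U + del) * (1 + R ^ 2) / 2 + kp + b.al +
    R ^ 2 * (b.A + (b.B - b.A) * (b.ln.b0 + b.ln.b1 * c)) - s2 * (R * (1 - c)) -
    c * (((pcs b.pc).lf R).a1 - ((pcs b.pc).lf R).b0)

theorem valQ_cast (b : BoxQ) (kp R c : ℚ) : ((valQ b kp R c : ℚ) : ℝ) = valR b kp R c := by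
  unfold valQ valR PcQ.at PcQ.lf mkL
  push_cast
  ring

theorem val_inside {b : BoxQ} {kp : ℝ} {R c : ℝ} (hR : (b.Ra : ℝ) < b.Rb)
    (hc : (b.ca : ℝ) < b.cb) (h1 : (b.Ra : ℝ) ≤ R) (h2 : R ≤ b.Rb) (h3 : (b.ca : ℝ) ≤ c)
    (h4 : c ≤ b.cb)
    (q1 : (0 : ℝ) ≤ ((1 - b.ca) * b.U + del) / 2 + b.A + (b.B - b.A) * (b.ln.b0 + b.ln.b1 * b.ca))
    (q2 : (0 : ℝ) ≤ ((1 - b.cb) * b.U + del) / 2 + b.A + (b.B - b.A) * (b.ln.b0 + b.ln.b1 * b.cb))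
    (v1 : valR b kp b.Ra b.ca ≤ 0) (v2 : valR b kp b.Ra b.cb ≤ 0)
    (v3 : valR b kp b.Rb b.ca ≤ 0) (v4 : valR b kp b.Rb b.cb ≤ 0) : valR b kp R c ≤ 0 := by
  -- the coefficient of `R²`
  obtain ⟨q, hq⟩ : ∃ q : ℝ → ℝ, q = fun c : ℝ => ((1 - c) * (b.U : ℝ) + (del : ℝ)) / 2 +
      (b.A : ℝ) + ((b.B : ℝ) - b.A) * ((b.ln.b0 : ℝ) + (b.ln.b1 : ℝ) * c) := ⟨_, rfl⟩
  have hq0 : 0 ≤ q c := by
    have e : ((b.cb : ℝ) - b.ca) * q c = (b.cb - c) * q b.ca + (c - b.ca) * q b.cb := by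
      rw [hq]
      ring
    have g1 : 0 ≤ q b.ca := by rw [hq]; exact q1
    have g2 : 0 ≤ q b.cb := by rw [hq]; exact q2
    have h5 : 0 ≤ ((b.cb : ℝ) - b.ca) * q c := by
      rw [e]
      have a1 := mul_nonneg (sub_nonneg.2 h4) g1
      have a2 := mul_nonneg (sub_nonneg.2 h3) g2
      linarith
    exact nonneg_of_mul_nonneg_right h5 (sub_pos.2 hc)
  -- the bi-affine majorant
  obtain ⟨f, hf⟩ : ∃ f : ℝ → ℝ → ℝ, f = fun R c =>
      -(valR b kp R c + q c * ((R - b.Ra) * (b.Rb - R))) := ⟨_, rfl⟩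
  have key : 0 ≤ f R c := by
    refine bi_nonneg hR hc h1 h2 h3 h4 ?_ ?_ ?_ ?_ ?_
    · rw [hf, hq]
      simp only [valR, PcQ.lf, mkL]
      ring
    · rw [hf]
      simp
      linarith
    · rw [hf]
      simp
      linarith
    · rw [hf]
      simp
      linarith
    · rw [hf]
      simp
      linarith
  have h6 : 0 ≤ q c * ((R - b.Ra) * (b.Rb - R)) :=
    mul_nonneg hq0 (mul_nonneg (sub_nonneg.2 h1) (sub_nonneg.2 h2))
  rw [hf] at key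
  dsimp only at key
  linarith

/-- the functions on the pieces -/
theorem Lz_pcs {i : ℕ} {R : ℝ} (h1 : ((pcs i).lo : ℝ) ≤ R) (h2 : R ≤ (pcs i).hi) (h3 : R < 3) :
    Lz R = (pcs i).lf R := by
  unfold pcs at h1 h2 ⊢
  split_ifs at h1 h2 ⊢
  · simp only [pc1] at h1 h2 ⊢
    push_cast at h1 h2
    rw [Lz_one h2]
    simp only [Lp1, PcQ.lf, mkL]
    push_cast
    congr 1 <;> ring
  · simp only [pc2] at h1 h2 ⊢
    push_cast at h1 h2
    rw [Lz_two h1 h2]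
    simp only [Lp2, PcQ.lf, mkL]
    push_cast
    congr 1 <;> ring
  · simp only [pc3] at h1 h2 ⊢
    push_cast at h1 h2
    rw [Lz_three h1 h2]
    simp only [Lp3, PcQ.lf, mkL]
    push_cast
    congr 1 <;> ring
  · simp only [pc4] at h1 h2 ⊢
    push_cast at h1 h2
    rw [Lz_four h1 h3]
    simp only [Lp4, PcQ.lf, mkL]
    push_cast
    congr 1 <;> ring

/-- the pair inequality from the simple class -/
theorem RPair_simple {b : BoxQ} {a1 : ℚ} {R Rk θ v C kp : ℝ} (hb : baseQ b a1 = true)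
    (hln : LineOK b.ln.up b.ln.b0 b.ln.b1 b.ln.lo b.ln.hi) (h0 : 0 < R) (h1 : (b.Ra : ℝ) ≤ R)
    (h2 : R ≤ b.Rb) (h3 : R < 3) (hk : 3 ≤ Rk) (t0 : 0 ≤ θ) (t1 : θ ≤ π)
    (c1 : (b.ca : ℝ) ≤ cos θ) (c2 : cos θ ≤ b.cb) (hv : 0 < v) (hC : 0 ≤ C)
    (hd : v ^ 2 ≤ 4 * b.tau * C) (ha : (a1 : ℝ) ≤ b.al + v + C)
    (hval : valR b kp b.Ra b.ca ≤ 0 ∧ valR b kp b.Ra b.cb ≤ 0 ∧
      valR b kp b.Rb b.ca ≤ 0 ∧ valR b kp b.Rb b.cb ≤ 0)
    (hkp : 1 / (2 * v) + v * (1 + Rk ^ 2) / 2 + C * Rk ^ 2 - √2 * Rk ≤ kp) :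
    RPair Fz g0z g1z g2z R Rk θ (cos θ) := by
  simp only [baseQ, convQ, Bool.and_eq_true, decide_eq_true_eq] at hb
  obtain ⟨e1, e2, e3, e4, e5, e6, e7, e8, e9, k1, k2, k3, k4, q1, q2⟩ := hb
  have hR : (b.Ra : ℝ) < b.Rb := by exact_mod_cast e1
  have hc : (b.ca : ℝ) < b.cb := by exact_mod_cast e2
  have hU : (0 : ℝ) < b.U := by exact_mod_cast e3
  have htau : (0 : ℝ) < b.tau := by exact_mod_cast e4
  have hlo : (b.ln.lo : ℝ) ≤ b.ca := by exact_mod_cast e5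
  have hhi : (b.cb : ℝ) ≤ b.ln.hi := by exact_mod_cast e6
  have hp1 : ((pcs b.pc).lo : ℝ) ≤ b.Ra := by exact_mod_cast e8
  have hp2 : (b.Rb : ℝ) ≤ (pcs b.pc).hi := by exact_mod_cast e9
  have q1' : (0 : ℝ) ≤ ((1 - b.ca) * b.U + del) / 2 + b.A +
      (b.B - b.A) * (b.ln.b0 + b.ln.b1 * b.ca) := by exact_mod_cast q1
  have q2' : (0 : ℝ) ≤ ((1 - b.cb) * b.U + del) / 2 + b.A +
      (b.B - b.A) * (b.ln.b0 + b.ln.b1 * b.cb) := by exact_mod_cast q2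
  obtain ⟨c, hcc⟩ : ∃ c, c = cos θ := ⟨_, rfl⟩
  have hc1 : 0 ≤ 1 - c := by
    rw [hcc]
    linarith [cos_le_one θ]
  have hdel : (0 : ℝ) < del := by
    unfold del
    norm_num
  have hL : Lz R = (pcs b.pc).lf R := Lz_pcs (by linarith) (by linarith) h3
  have hSC : SC ((pcs b.pc).lf R) b.al b.tau a1 (betaR (pcs b.pc) b.U R c) b.A b.B := by
    rw [hcc]
    exact SC_inside hR hc h1 h2 c1 c2 (corner_sound k1) (corner_sound k2) (corner_sound k3)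
      (corner_sound k4)
  have hu : 0 < (1 - c) * (b.U : ℝ) + del := by
    have := mul_nonneg hc1 hU.le
    linarith
  have hk0 : (0 : ℝ) < Rk := by linarith
  rw [← hcc]
  refine ⟨b.al, (1 - c) * b.U + del, v, Hs b.A b.B C, hu, hv, homBd_Hs _ _ _, ?_, ?_⟩
  · have f1 : Fz R = ((pcs b.pc).lf R).F := by
      unfold Fz
      rw [hL]
    have f2 : Fz Rk = Ls.F := by
      unfold Fz
      rw [Lz_five hk]
    have f3 : (1 - c) * (b.U : ℝ) + del + c * g1z R = betaR (pcs b.pc) b.U R c := by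
      rw [g1z_lt h3, hL]
      rfl
    have f4 : v + c * g1z Rk = v := by
      rw [g1z_ge hk]
      ring
    rw [f1, f2, f3, f4]
    exact hSC.pw hv.le htau.le hC hd ha
  · rw [hcc, avgP_Hs _ _ _ h0 hk0 t0 t1, ← hcc, g2z_lt h3, g2z_ge hk, g0z_lt h3, g0z_ge hk, hL]
    have hv1 := val_inside hR hc h1 h2 (hcc ▸ c1) (hcc ▸ c2) q1' q2' hval.1 hval.2.1 hval.2.2.1
      hval.2.2.2
    unfold valR at hv1
    -- the first fraction
    have w1 : (1 - 1 * c) ^ 2 / (2 * ((1 - c) * (b.U : ℝ) + del)) ≤ (1 - c) / (2 * b.U) := by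
      rw [div_le_div_iff₀ (by positivity) (by positivity)]
      have := mul_nonneg hc1 hdel.le
      nlinarith
    have w2 : (1 - 0 * c) ^ 2 / (2 * v) = 1 / (2 * v) := by
      norm_num
    have w3 : (b.A : ℝ) * (1 - pth θ) + b.B * pth θ ≤
        b.A + (b.B - b.A) * (b.ln.b0 + b.ln.b1 * c) := by
      have hl := hln θ t0 t1 (hlo.trans c1) (c2.trans hhi)
      rw [← hcc] at hl
      have e : (b.A : ℝ) + (b.B - b.A) * (b.ln.b0 + b.ln.b1 * c) -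
          ((b.A : ℝ) * (1 - pth θ) + b.B * pth θ) =
          (b.B - b.A) * (b.ln.b0 + b.ln.b1 * c - pth θ) := by ring
      have e0 : 0 ≤ ((b.B : ℝ) - b.A) * (b.ln.b0 + b.ln.b1 * c - pth θ) := by
        cases hup : b.ln.up
        · rw [hup] at hl e7
          simp only [Bool.false_eq_true, if_false, decide_eq_true_eq] at hl e7
          have g : (b.B : ℝ) ≤ b.A := by exact_mod_cast e7
          exact mul_nonneg_of_nonpos_of_nonpos (sub_nonpos.2 g) (sub_nonpos.2 hl)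
        · rw [hup] at hl e7
          simp only [if_true, decide_eq_true_eq] at hl e7
          have g : (b.A : ℝ) ≤ b.B := by exact_mod_cast e7
          exact mul_nonneg (sub_nonneg.2 g) (sub_nonneg.2 hl)
      exact sub_nonneg.1 (e ▸ e0)
    have w4 : R ^ 2 * ((b.A : ℝ) * (1 - pth θ) + b.B * pth θ) ≤
        R ^ 2 * (b.A + (b.B - b.A) * (b.ln.b0 + b.ln.b1 * c)) :=
      mul_le_mul_of_nonneg_left w3 (sq_nonneg R)
    have w5 : (s2 : ℝ) * (R * (1 - c)) ≤ √2 * (R * (1 - c)) := by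
      have : (s2 : ℝ) ≤ √2 := by
        have := sqrt2_lo
        unfold s2
        push_cast
        linarith
      exact mul_le_mul_of_nonneg_right this (mul_nonneg h0.le hc1)
    rw [w2]
    clear hSC hL hln hval k1 k2 k3 k4 q1' q2' e1 e2 e3 e4 e5 e6 e7 e8 e9 q1 q2 hp1 hp2 hlo hhi
    have z1 : ((1 - c) * (b.U : ℝ) + del) * (1 + R ^ 2) / 2 + (b.al : ℝ) +
        R ^ 2 * ((b.A : ℝ) * (1 - pth θ) + b.B * pth θ) + (1 - c) / (2 * b.U) +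
        (1 / (2 * v) + v * (1 + Rk ^ 2) / 2 + C * Rk ^ 2 - √2 * Rk) - √2 * (R * (1 - c)) -
        c * (((pcs b.pc).lf R).a1 - ((pcs b.pc).lf R).b0) ≤ 0 := by
      linarith
    linarith

end Pool.Agent.RRS
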