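import Pool.Agent.RRS.TailSound

/-!
# Zones of boxes
-/

set_option autoImplicit false

noncomputable section

namespace Pool.Agent.RRS

open Real

/-- the linear bound is valid -/
def LineQ.OK (l : LineQ) : Prop := LineOK l.up l.b0 l.b1 l.lo l.hi

def LineQ.refl (l : LineQ) : LineQ := ⟨!l.up, 1 - l.b0, l.b1, -l.hi, -l.lo⟩

theorem LineQ.OK.refl {l : LineQ} (h : l.OK) : l.refl.OK := by
  have := LineOK.reflect h
  unfold LineQ.OK LineQ.refl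
  push_cast
  exact this

theorem infQ_sound {b : BoxQ} {r0 : ℚ} (hb : infQ r0 b = true) (hr : 3 ≤ r0) (hln : b.ln.OK)
    {R Rk θ : ℝ} (h0 : 0 < R) (h1 : (b.Ra : ℝ) ≤ R) (h2 : R ≤ b.Rb) (h3 : R < 3)
    (hk : (r0 : ℝ) ≤ Rk) (t0 : 0 ≤ θ) (t1 : θ ≤ π) (c1 : (b.ca : ℝ) ≤ cos θ)
    (c2 : cos θ ≤ b.cb) : RPair Fz g0z g1z g2z R Rk θ (cos θ) := by
  simp only [infQ, valsQ, Bool.and_eq_true, decide_eq_true_eq] at hb
  obtain ⟨hbase, v1, v2, v3, v4⟩ := hb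
  have hr' : (3 : ℝ) ≤ r0 := by exact_mod_cast hr
  have hk0 : 0 < Rk := by linarith
  have htau : (0 : ℝ) < b.tau := by
    simp only [baseQ, Bool.and_eq_true, decide_eq_true_eq] at hbase
    exact_mod_cast hbase.2.2.2.1
  obtain ⟨kp, hkp⟩ : ∃ kp : ℚ, kp = r0 + 1 / (2 * r0) - s2 * r0 + 1 / (4 * b.tau) := ⟨_, rfl⟩
  rw [← hkp] at v1 v2 v3 v4
  have w : ∀ R' c' : ℚ, valQ b kp R' c' ≤ 0 → valR b kp R' c' ≤ 0 := by
    intro R' c' h
    rw [← valQ_cast]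
    exact_mod_cast h
  refine RPair_simple (v := 1 / Rk) (C := 1 / (4 * b.tau * Rk ^ 2)) (kp := kp) hbase hln h0 h1 h2 h3
    (by linarith) t0 t1 c1 c2 (by positivity) (by positivity) (le_of_eq (by field_simp)) ?_
    ⟨w _ _ v1, w _ _ v2, w _ _ v3, w _ _ v4⟩ ?_
  · have a1 : 0 < 1 / Rk := by positivity
    have a2 : 0 < 1 / (4 * (b.tau : ℝ) * Rk ^ 2) := by positivity
    linarith
  · have e : 1 / (2 * (1 / Rk)) + 1 / Rk * (1 + Rk ^ 2) / 2 +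
        1 / (4 * (b.tau : ℝ) * Rk ^ 2) * Rk ^ 2 - √2 * Rk =
        Rk + 1 / (2 * Rk) + 1 / (4 * b.tau) - √2 * Rk := by
      field_simp
      ring
    rw [e, hkp]
    push_cast
    have a1 : 1 / (2 * Rk) ≤ 1 / (2 * (r0 : ℝ)) := by
      apply one_div_le_one_div_of_le
      · positivity
      · linarith
    have a2 := sqrt2_lo
    have a3 : (s2 : ℝ) = 141421 / 100000 := by
      unfold s2
      push_cast
      rfl
    rw [a3]
    nlinarith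

theorem finQ_sound {b : BoxQ} {r0 r1 : ℚ} (hb : finQ r0 r1 b = true) (hr : 3 ≤ r0)
    (hln : b.ln.OK) {R Rk θ : ℝ} (h0 : 0 < R) (h1 : (b.Ra : ℝ) ≤ R) (h2 : R ≤ b.Rb)
    (h3 : R < 3) (hk : (r0 : ℝ) ≤ Rk) (hk1 : Rk ≤ r1) (t0 : 0 ≤ θ) (t1 : θ ≤ π)
    (c1 : (b.ca : ℝ) ≤ cos θ) (c2 : cos θ ≤ b.cb) :
    RPair Fz g0z g1z g2z R Rk θ (cos θ) := by
  simp only [finQ, valsQ, Bool.and_eq_true, decide_eq_true_eq] at hb
  obtain ⟨hv, hC, hd, hbase, ⟨v1, v2, v3, v4⟩, x1, x2, x3, x4⟩ := hb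
  have hr' : (3 : ℝ) ≤ r0 := by exact_mod_cast hr
  have hk0 : 0 < Rk := by linarith
  have gv : (0 : ℝ) < b.v := by exact_mod_cast hv
  have gC : (0 : ℝ) < b.C := by exact_mod_cast hC
  have gd : (b.v : ℝ) ^ 2 ≤ 4 * b.tau * b.C := by
    have : (b.v * b.v : ℝ) ≤ 4 * b.tau * b.C := by exact_mod_cast hd
    nlinarith
  obtain ⟨p, hp⟩ : ∃ p : ℚ, p = 1 / (2 * b.v) + b.v * (1 + r0 ^ 2) / 2 + b.C * r0 ^ 2 - s2 * r0 :=
    ⟨_, rfl⟩
  obtain ⟨q, hq⟩ : ∃ q : ℚ, q = 1 / (2 * b.v) + b.v * (1 + r1 ^ 2) / 2 + b.C * r1 ^ 2 - s2 * r1 :=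
    ⟨_, rfl⟩
  rw [← hp] at v1 v2 v3 v4
  rw [← hq] at x1 x2 x3 x4
  have w : ∀ kp R' c' : ℚ, valQ b kp R' c' ≤ 0 → valR b kp R' c' ≤ 0 := by
    intro kp R' c' h
    rw [← valQ_cast]
    exact_mod_cast h
  have ha : ((b.al + b.v + b.C : ℚ) : ℝ) ≤ b.al + b.v + b.C := by
    push_cast
    exact le_rfl
  have a2 := sqrt2_lo
  have a3 : (s2 : ℝ) = 141421 / 100000 := by
    unfold s2
    push_cast
    rfl
  -- the part of the second point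
  have hp' : (p : ℝ) = 1 / (2 * b.v) + b.v * (1 + (r0 : ℝ) ^ 2) / 2 + b.C * (r0 : ℝ) ^ 2 -
      s2 * r0 := by
    rw [hp]
    push_cast
    rfl
  have hq' : (q : ℝ) = 1 / (2 * b.v) + b.v * (1 + (r1 : ℝ) ^ 2) / 2 + b.C * (r1 : ℝ) ^ 2 -
      s2 * r1 := by
    rw [hq]
    push_cast
    rfl
  have key : 1 / (2 * (b.v : ℝ)) + b.v * (1 + Rk ^ 2) / 2 + b.C * Rk ^ 2 - √2 * Rk ≤
      max (p : ℝ) q := by
    have g1 : 1 / (2 * (b.v : ℝ)) + b.v * (1 + Rk ^ 2) / 2 + b.C * Rk ^ 2 - √2 * Rk ≤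
        1 / (2 * (b.v : ℝ)) + b.v * (1 + Rk ^ 2) / 2 + b.C * Rk ^ 2 - s2 * Rk := by
      have : (s2 : ℝ) * Rk ≤ √2 * Rk := mul_le_mul_of_nonneg_right (by rw [a3]; linarith) hk0.le
      linarith
    refine g1.trans ?_
    rcases (hk.trans hk1).eq_or_lt with h | h
    · have : Rk = r0 := le_antisymm (h ▸ hk1) hk
      rw [this]
      exact le_max_of_le_left (by rw [hp'])
    · have g2 : ((r1 : ℝ) - r0) * (1 / (2 * (b.v : ℝ)) + b.v * (1 + Rk ^ 2) / 2 + b.C * Rk ^ 2 -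
          s2 * Rk) ≤ (r1 - Rk) * p + (Rk - r0) * q := by
        rw [hp', hq']
        have e : (r1 - Rk) * (1 / (2 * b.v) + b.v * (1 + (r0 : ℝ) ^ 2) / 2 + b.C * (r0 : ℝ) ^ 2 -
            s2 * r0) + (Rk - r0) * (1 / (2 * b.v) + b.v * (1 + (r1 : ℝ) ^ 2) / 2 +
            b.C * (r1 : ℝ) ^ 2 - s2 * r1) - ((r1 : ℝ) - r0) * (1 / (2 * (b.v : ℝ)) +
            b.v * (1 + Rk ^ 2) / 2 + b.C * Rk ^ 2 - s2 * Rk) =
            (b.v / 2 + b.C) * ((r1 - r0) * ((Rk - r0) * (r1 - Rk))) := by ring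
        have e0 : 0 ≤ ((b.v : ℝ) / 2 + b.C) * ((r1 - r0) * ((Rk - r0) * (r1 - Rk))) := by
          have b1 : 0 ≤ (r1 : ℝ) - r0 := by linarith
          have b2 : 0 ≤ Rk - r0 := by linarith
          have b3 : 0 ≤ (r1 : ℝ) - Rk := by linarith
          positivity
        linarith
      have g3 : (r1 - Rk) * (p : ℝ) + (Rk - r0) * q ≤ ((r1 : ℝ) - r0) * max (p : ℝ) q := by
        have b1 := mul_le_mul_of_nonneg_left (le_max_left (p : ℝ) q) (sub_nonneg.2 hk1)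
        have b2 := mul_le_mul_of_nonneg_left (le_max_right (p : ℝ) q) (sub_nonneg.2 hk)
        nlinarith
      exact le_of_mul_le_mul_left (g2.trans g3) (sub_pos.2 h)
  rcases le_total (p : ℝ) q with h | h
  · rw [max_eq_right h] at key
    exact RPair_simple (v := b.v) (C := b.C) (kp := q) hbase hln h0 h1 h2 h3
      (by linarith) t0 t1 c1 c2 gv gC.le gd ha ⟨w _ _ _ x1, w _ _ _ x2, w _ _ _ x3, w _ _ _ x4⟩ key
  · rw [max_eq_left h] at key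
    exact RPair_simple (v := b.v) (C := b.C) (kp := p) hbase hln h0 h1 h2 h3
      (by linarith) t0 t1 c1 c2 gv gC.le gd ha ⟨w _ _ _ v1, w _ _ _ v2, w _ _ _ v3, w _ _ _ v4⟩ key

/-! ### Covers -/

def chainC (Ra Rb c1 : ℚ) : ℚ → List BoxQ → Bool
  | c, [] => decide (c1 ≤ c)
  | c, b :: l => decide (b.Ra ≤ Ra) && (decide (Rb ≤ b.Rb) && (decide (b.ca ≤ c) &&
      chainC Ra Rb c1 b.cb l))

def chainR (c0 c1 R1 : ℚ) : ℚ → List (ℚ × List BoxQ) → Bool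
  | R, [] => decide (R1 ≤ R)
  | R, p :: g => (!p.2.isEmpty) && (chainC R p.1 c1 c0 p.2 && chainR c0 c1 R1 p.1 g)

theorem chainC_sound {Ra Rb c1 : ℚ} {x y : ℝ} (hx : (Ra : ℝ) ≤ x) (hx' : x ≤ Rb)
    (hy : y ≤ c1) : ∀ (l : List BoxQ) (c : ℚ), chainC Ra Rb c1 c l = true → l ≠ [] →
    (c : ℝ) ≤ y → ∃ b ∈ l, (b.Ra : ℝ) ≤ x ∧ x ≤ b.Rb ∧ (b.ca : ℝ) ≤ y ∧ y ≤ b.cb
  | [], _, _, h, _ => absurd rfl h
  | b :: l, c, h, _, hc => by
    simp only [chainC, Bool.and_eq_true, decide_eq_true_eq] at h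
    obtain ⟨h1, h2, h3, h4⟩ := h
    have g1 : (b.Ra : ℝ) ≤ Ra := by exact_mod_cast h1
    have g2 : (Rb : ℝ) ≤ b.Rb := by exact_mod_cast h2
    have g3 : (b.ca : ℝ) ≤ c := by exact_mod_cast h3
    rcases le_or_gt y b.cb with h | h
    · exact ⟨b, by simp, by linarith, by linarith, by linarith, h⟩
    · have hne : l ≠ [] := by
        rintro rfl
        simp only [chainC, decide_eq_true_eq] at h4
        have : (c1 : ℝ) ≤ b.cb := by exact_mod_cast h4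
        linarith
      obtain ⟨b', hb', rest⟩ := chainC_sound hx hx' hy l b.cb h4 hne h.le
      exact ⟨b', List.mem_cons_of_mem _ hb', rest⟩

theorem chainR_sound {c0 c1 R1 : ℚ} {x y : ℝ} (hx' : x ≤ R1) (hy0 : (c0 : ℝ) ≤ y)
    (hy : y ≤ c1) : ∀ (g : List (ℚ × List BoxQ)) (R : ℚ), chainR c0 c1 R1 R g = true →
    (R : ℝ) < x → ∃ p ∈ g, ∃ b ∈ p.2, (b.Ra : ℝ) ≤ x ∧ x ≤ b.Rb ∧ (b.ca : ℝ) ≤ y ∧ y ≤ b.cb
  | [], R, h, hR => by
    simp only [chainR, decide_eq_true_eq] at h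
    have : (R1 : ℝ) ≤ R := by exact_mod_cast h
    linarith
  | p :: g, R, h, hR => by
    simp only [chainR, Bool.and_eq_true] at h
    obtain ⟨h1, h2, h3⟩ := h
    rcases le_or_gt x p.1 with h | h
    · have hne : p.2 ≠ [] := by
        intro h0
        rw [h0] at h1
        simp at h1
      obtain ⟨b, hb, rest⟩ := chainC_sound hR.le h hy p.2 c0 h2 hne hy0
      exact ⟨p, by simp, b, hb, rest⟩
    · obtain ⟨p', hp', b, hb, rest⟩ := chainR_sound hx' hy0 hy g p.1 h3 h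
      exact ⟨p', List.mem_cons_of_mem _ hp', b, hb, rest⟩

end Pool.Agent.RRS
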