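import Mathlib

/-!
# Linear interpolation of smooth functions

The error of the linear interpolation, from the second derivative.
-/

set_option autoImplicit false

noncomputable section

namespace Pool.Agent.RRS

open Real

theorem chord_low {f f1 f2 : ℝ → ℝ} (d1 : ∀ x, HasDerivAt f (f1 x) x)
    (d2 : ∀ x, HasDerivAt f1 (f2 x) x) {a h K z : ℝ} (hh : 0 < h) (hK0 : 0 ≤ K)
    (hK : ∀ x, a ≤ x → x ≤ a + h → f2 x ≤ K) (z0 : 0 ≤ z) (z1 : z ≤ 1) :
    (1 - z) * f a + z * f (a + h) - K * h ^ 2 / 8 ≤ f (a + z * h) := by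
  have hc : ConvexOn ℝ (Set.Icc a (a + h)) (fun x => K / 2 * x ^ 2 - f x) := by
    refine convexOn_of_hasDerivWithinAt2_nonneg (f' := fun x => K * x - f1 x)
      (f'' := fun x => K - f2 x) (convex_Icc _ _) ?_ ?_ ?_ ?_
    · exact (Continuous.continuousOn (by
        have : Continuous f := continuous_iff_continuousAt.2 fun x => (d1 x).continuousAt
        fun_prop))
    · intro x _
      have h1 : HasDerivAt (fun x => K / 2 * x ^ 2 - f x) (K / 2 * (2 * x) - f1 x) x := by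
        have h0 : HasDerivAt (fun x : ℝ => K / 2 * x ^ 2) (K / 2 * (2 * x)) x := by
          simpa using (hasDerivAt_pow 2 x).const_mul (K / 2)
        exact h0.sub (d1 x)
      rw [show K / 2 * (2 * x) - f1 x = K * x - f1 x by ring] at h1
      exact h1.hasDerivWithinAt
    · intro x _
      have h1 : HasDerivAt (fun x => K * x - f1 x) (K * 1 - f2 x) x :=
        ((hasDerivAt_id x).const_mul K).sub (d2 x)
      rw [mul_one] at h1
      exact h1.hasDerivWithinAt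
    · intro x hx
      have := interior_subset hx
      exact sub_nonneg.2 (hK x this.1 this.2)
  have h1 := hc.2 (⟨le_rfl, by linarith⟩ : a ∈ Set.Icc a (a + h))
    (⟨by linarith, le_rfl⟩ : a + h ∈ Set.Icc a (a + h))
    (show (0 : ℝ) ≤ 1 - z by linarith) z0 (by ring)
  simp only [smul_eq_mul] at h1
  rw [show (1 - z) * a + z * (a + h) = a + z * h by ring] at h1
  have h2 : 0 ≤ K * h ^ 2 * (1 - 4 * (z * (1 - z))) :=
    mul_nonneg (by positivity) (by nlinarith [sq_nonneg (1 - 2 * z)])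
  nlinarith

/-- bounds at a node for the linear interpolation -/
structure Nd (f f2 : ℝ → ℝ) (L h x lo hi : ℝ) : Prop where
  l1 : lo ≤ 10 ^ 9 * f x
  l2 : lo ≤ 10 ^ 9 * (f x - (f2 x + L * h) * h ^ 2 / 8)
  u1 : 10 ^ 9 * f x ≤ hi
  u2 : 10 ^ 9 * (f x + (-f2 x + L * h) * h ^ 2 / 8) ≤ hi

theorem nd_low {f f1 f2 : ℝ → ℝ} (d1 : ∀ x, HasDerivAt f (f1 x) x)
    (d2 : ∀ x, HasDerivAt f1 (f2 x) x) {a h L z l0 l1 : ℝ} (hh : 0 < h)
    (hL : ∀ x y, a ≤ x → x ≤ a + h → a ≤ y → y ≤ a + h → |f2 x - f2 y| ≤ L * |x - y|)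
    (hL0 : 0 ≤ L)
    (p1 : l0 ≤ 10 ^ 9 * f a) (p2 : l0 ≤ 10 ^ 9 * (f a - (f2 a + L * h) * h ^ 2 / 8))
    (q1 : l1 ≤ 10 ^ 9 * f (a + h))
    (q2 : l1 ≤ 10 ^ 9 * (f (a + h) - (f2 (a + h) + L * h) * h ^ 2 / 8))
    (z0 : 0 ≤ z) (z1 : z ≤ 1) :
    (1 - z) * l0 + z * l1 ≤ 10 ^ 9 * f (a + z * h) := by
  obtain ⟨K0, hK0⟩ : ∃ K0, K0 = max 0 (f2 a + L * h) := ⟨_, rfl⟩
  obtain ⟨K1, hK1⟩ : ∃ K1, K1 = max 0 (f2 (a + h) + L * h) := ⟨_, rfl⟩
  have b0 : 0 ≤ K0 := by rw [hK0]; exact le_max_left _ _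
  have b1 : 0 ≤ K1 := by rw [hK1]; exact le_max_left _ _
  have c0 : l0 ≤ 10 ^ 9 * (f a - K0 * h ^ 2 / 8) := by
    rw [hK0]
    rcases le_total 0 (f2 a + L * h) with h' | h'
    · rw [max_eq_right h']
      exact p2
    · rw [max_eq_left h']
      linarith
  have c1 : l1 ≤ 10 ^ 9 * (f (a + h) - K1 * h ^ 2 / 8) := by
    rw [hK1]
    rcases le_total 0 (f2 (a + h) + L * h) with h' | h'
    · rw [max_eq_right h']
      exact q2
    · rw [max_eq_left h']
      linarith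
  have key := chord_low d1 d2 (a := a) (h := h) (K := min K0 K1) (z := z) hh (le_min b0 b1)
    (fun x hx hx' => by
      refine le_min ?_ ?_
      · rw [hK0]
        refine le_trans ?_ (le_max_right _ _)
        have h1 := (abs_le.1 (hL x a hx hx' le_rfl (by linarith))).2
        have h2 : |x - a| ≤ h := by
          rw [abs_of_nonneg (by linarith)]
          linarith
        have := mul_le_mul_of_nonneg_left h2 hL0
        linarith
      · rw [hK1]
        refine le_trans ?_ (le_max_right _ _)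
        have h1 := (abs_le.1 (hL x (a + h) hx hx' (by linarith) le_rfl)).2
        have h2 : |x - (a + h)| ≤ h := by
          rw [abs_of_nonpos (by linarith)]
          linarith
        have := mul_le_mul_of_nonneg_left h2 hL0
        linarith) z0 z1
  have k0 : min K0 K1 ≤ K0 := min_le_left _ _
  have k1 : min K0 K1 ≤ K1 := min_le_right _ _
  have hz : 0 ≤ 1 - z := by linarith
  have h8 : 0 ≤ h ^ 2 / 8 := by positivity
  have m0 := mul_le_mul_of_nonneg_left c0 hz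
  have m1 := mul_le_mul_of_nonneg_left c1 z0
  have n0 := mul_le_mul_of_nonneg_left (mul_le_mul_of_nonneg_right k0 h8) hz
  have n1 := mul_le_mul_of_nonneg_left (mul_le_mul_of_nonneg_right k1 h8) z0
  nlinarith

/-- bounds from the nodes -/
theorem Nd.between {f f1 f2 : ℝ → ℝ} (d1 : ∀ x, HasDerivAt f (f1 x) x)
    (d2 : ∀ x, HasDerivAt f1 (f2 x) x) {a h L z l0 h0 l1 h1 : ℝ} (hh : 0 < h)
    (hL : ∀ x y, a ≤ x → x ≤ a + h → a ≤ y → y ≤ a + h → |f2 x - f2 y| ≤ L * |x - y|)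
    (hL0 : 0 ≤ L) (n0 : Nd f f2 L h a l0 h0) (n1 : Nd f f2 L h (a + h) l1 h1)
    (z0 : 0 ≤ z) (z1 : z ≤ 1) :
    (1 - z) * l0 + z * l1 ≤ 10 ^ 9 * f (a + z * h) ∧
      10 ^ 9 * f (a + z * h) ≤ (1 - z) * h0 + z * h1 := by
  constructor
  · exact nd_low d1 d2 hh hL hL0 n0.l1 n0.l2 n1.l1 n1.l2 z0 z1
  · have := nd_low (f := fun x => -f x) (f1 := fun x => -f1 x) (f2 := fun x => -f2 x)
      (a := a) (h := h) (L := L) (z := z) (l0 := -h0) (l1 := -h1)
      (fun x => (d1 x).neg) (fun x => (d2 x).neg) hh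
      (fun x y a1 a2 a3 a4 => by
        rw [show -f2 x - -f2 y = -(f2 x - f2 y) by ring, abs_neg]
        exact hL x y a1 a2 a3 a4) hL0
      (by linarith [n0.u1]) (by linarith [n0.u2]) (by linarith [n1.u1]) (by linarith [n1.u2])
      z0 z1
    linarith

/-- the functions of the table -/
def gF (c0 c1 lam mu a1 b1 a0 b0 θ : ℝ) : ℝ :=
  (c0 + c1 * θ) * (lam + mu * cos θ) + (sin (a1 * θ + b1) - sin (a0 * θ + b0)) / (2 * π)

/-- the derivative -/
def gF1 (c0 c1 lam mu a1 b1 a0 b0 θ : ℝ) : ℝ :=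
  c1 * (lam + mu * cos θ) + (c0 + c1 * θ) * (mu * -sin θ) +
    (cos (a1 * θ + b1) * a1 - cos (a0 * θ + b0) * a0) / (2 * π)

/-- the second derivative -/
def gF2 (c0 c1 mu a1 b1 a0 b0 θ : ℝ) : ℝ :=
  -(2 * c1 * mu * sin θ) - (c0 + c1 * θ) * mu * cos θ +
    (-(a1 ^ 2 * sin (a1 * θ + b1)) + a0 ^ 2 * sin (a0 * θ + b0)) / (2 * π)

theorem gF_deriv (c0 c1 lam mu a1 b1 a0 b0 x : ℝ) :
    HasDerivAt (gF c0 c1 lam mu a1 b1 a0 b0) (gF1 c0 c1 lam mu a1 b1 a0 b0 x) x := by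
  unfold gF gF1
  have l (c d : ℝ) : HasDerivAt (fun θ : ℝ => d + c * θ) c x := by
    simpa using ((hasDerivAt_id x).const_mul c).const_add d
  have l' (c d : ℝ) : HasDerivAt (fun θ : ℝ => c * θ + d) c x := by
    simpa using ((hasDerivAt_id x).const_mul c).add_const d
  have h1 : HasDerivAt (fun θ : ℝ => lam + mu * cos θ) (mu * -sin x) x := by
    simpa using ((hasDerivAt_cos x).const_mul mu).const_add lam
  have h2 := (l c1 c0).mul h1
  have h3 := ((l' a1 b1).sin.sub (l' a0 b0).sin).div_const (2 * π)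
  exact h2.add h3

theorem gF_deriv2 (c0 c1 lam mu a1 b1 a0 b0 x : ℝ) :
    HasDerivAt (gF1 c0 c1 lam mu a1 b1 a0 b0) (gF2 c0 c1 mu a1 b1 a0 b0 x) x := by
  unfold gF1 gF2
  have l (c d : ℝ) : HasDerivAt (fun θ : ℝ => d + c * θ) c x := by
    simpa using ((hasDerivAt_id x).const_mul c).const_add d
  have l' (c d : ℝ) : HasDerivAt (fun θ : ℝ => c * θ + d) c x := by
    simpa using ((hasDerivAt_id x).const_mul c).add_const d
  have h1 : HasDerivAt (fun θ : ℝ => c1 * (lam + mu * cos θ)) (c1 * (mu * -sin x)) x := by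
    simpa using (((hasDerivAt_cos x).const_mul mu).const_add lam).const_mul c1
  have h1' : HasDerivAt (fun θ : ℝ => mu * -sin θ) (mu * -cos x) x := by
    simpa using (hasDerivAt_sin x).neg.const_mul mu
  have h2 := (l c1 c0).mul h1'
  have h3 := (((l' a1 b1).cos.mul_const a1).sub ((l' a0 b0).cos.mul_const a0)).div_const (2 * π)
  have h4 := (h1.add h2).add h3
  refine h4.congr_deriv ?_
  ring

theorem abs_sin_sub_le (a b x y : ℝ) : |sin (a * x + b) - sin (a * y + b)| ≤ |a| * |x - y| := by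
  have h : |sin (a * x + b) - sin (a * y + b)| ≤ |(a * x + b) - (a * y + b)| := by
    have h1 : sin (a * x + b) - sin (a * y + b) =
      2 * sin (((a * x + b) - (a * y + b)) / 2) * cos (((a * x + b) + (a * y + b)) / 2) :=
      sin_sub_sin _ _
    rw [h1, abs_mul, abs_mul, abs_two]
    have h2 : |sin (((a * x + b) - (a * y + b)) / 2)| ≤ |((a * x + b) - (a * y + b)) / 2| :=
      abs_sin_le_abs
    have h3 : |cos (((a * x + b) + (a * y + b)) / 2)| ≤ 1 := abs_cos_le_one _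
    have h4 : |((a * x + b) - (a * y + b)) / 2| = |(a * x + b) - (a * y + b)| / 2 := by
      rw [abs_div, abs_two]
    have h5 := abs_nonneg (sin (((a * x + b) - (a * y + b)) / 2))
    have h6 := abs_nonneg (cos (((a * x + b) + (a * y + b)) / 2))
    nlinarith
  rw [show (a * x + b) - (a * y + b) = a * (x - y) by ring, abs_mul] at h
  exact h

theorem gF2_lip {c0 c1 mu a1 b1 a0 b0 P : ℝ} {x y : ℝ}
    (hx : |c0 + c1 * x| ≤ P) :
    |gF2 c0 c1 mu a1 b1 a0 b0 x - gF2 c0 c1 mu a1 b1 a0 b0 y| ≤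
      (|mu| * (P + 3 * |c1|) + (|a1| ^ 3 + |a0| ^ 3) / (2 * π)) * |x - y| := by
  have e : gF2 c0 c1 mu a1 b1 a0 b0 x - gF2 c0 c1 mu a1 b1 a0 b0 y =
      -(2 * (mu * (c1 * (sin x - sin y)))) + -(mu * (c1 * ((x - y) * cos y))) +
      -(mu * ((c0 + c1 * x) * (cos x - cos y))) +
      (-(a1 ^ 2 * (sin (a1 * x + b1) - sin (a1 * y + b1))) +
        a0 ^ 2 * (sin (a0 * x + b0) - sin (a0 * y + b0))) / (2 * π) := by
    unfold gF2
    ring
  rw [e]
  have s1 : |sin x - sin y| ≤ |x - y| := by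
    have := abs_sin_sub_le 1 0 x y
    simpa using this
  have s2 : |cos x - cos y| ≤ |x - y| := by
    have := abs_sin_sub_le (-1) (π / 2) x y
    rw [show -1 * x + π / 2 = π / 2 - x by ring, show -1 * y + π / 2 = π / 2 - y by ring,
      sin_pi_div_two_sub, sin_pi_div_two_sub, abs_neg, abs_one, one_mul] at this
    exact this
  have s3 := abs_sin_sub_le a1 b1 x y
  have s4 := abs_sin_sub_le a0 b0 x y
  have d0 := abs_nonneg (x - y)
  have m0 := abs_nonneg mu
  have c0' := abs_nonneg c1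
  have t1 : |-(2 * (mu * (c1 * (sin x - sin y))))| ≤ 2 * (|mu| * (|c1| * |x - y|)) := by
    rw [abs_neg, abs_mul, abs_mul, abs_mul, abs_two]
    gcongr
  have t2 : |-(mu * (c1 * ((x - y) * cos y)))| ≤ |mu| * (|c1| * |x - y|) := by
    rw [abs_neg, abs_mul, abs_mul, abs_mul]
    have h3 : |cos y| ≤ 1 := abs_cos_le_one _
    have : |x - y| * |cos y| ≤ |x - y| := mul_le_of_le_one_right d0 h3
    gcongr
  have t3 : |-(mu * ((c0 + c1 * x) * (cos x - cos y)))| ≤ |mu| * (P * |x - y|) := by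
    rw [abs_neg, abs_mul, abs_mul]
    have : |c0 + c1 * x| * |cos x - cos y| ≤ P * |x - y| :=
      mul_le_mul hx s2 (abs_nonneg _) ((abs_nonneg _).trans hx)
    gcongr
  have t4 : |(-(a1 ^ 2 * (sin (a1 * x + b1) - sin (a1 * y + b1))) +
        a0 ^ 2 * (sin (a0 * x + b0) - sin (a0 * y + b0))) / (2 * π)| ≤
      (|a1| ^ 3 + |a0| ^ 3) / (2 * π) * |x - y| := by
    rw [abs_div, abs_of_pos (by positivity : (0 : ℝ) < 2 * π), div_mul_eq_mul_div]
    gcongr
    refine (abs_add_le _ _).trans ?_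
    rw [abs_neg, abs_mul, abs_mul, abs_of_nonneg (sq_nonneg a1), abs_of_nonneg (sq_nonneg a0)]
    have u1 : a1 ^ 2 * |sin (a1 * x + b1) - sin (a1 * y + b1)| ≤ |a1| ^ 3 * |x - y| := by
      rw [show |a1| ^ 3 * |x - y| = |a1| ^ 2 * (|a1| * |x - y|) by ring, sq_abs]
      gcongr
    have u2 : a0 ^ 2 * |sin (a0 * x + b0) - sin (a0 * y + b0)| ≤ |a0| ^ 3 * |x - y| := by
      rw [show |a0| ^ 3 * |x - y| = |a0| ^ 2 * (|a0| * |x - y|) by ring, sq_abs]
      gcongr
    linarith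
  refine (abs_add_le _ _).trans ?_
  have := (abs_add_le (-(2 * (mu * (c1 * (sin x - sin y)))) + -(mu * (c1 * ((x - y) * cos y))))
    (-(mu * ((c0 + c1 * x) * (cos x - cos y)))))
  have := (abs_add_le (-(2 * (mu * (c1 * (sin x - sin y))))) (-(mu * (c1 * ((x - y) * cos y)))))
  linarith

end Pool.Agent.RRS
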