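import Mathlib

/-!
# Sines of the multiples of `π / 512`

`sT`: the numbers `10 ^ 12 sin (k π / 512)`, `0 ≤ k ≤ 256`, rounded, in base `2 ^ 40`.
-/

set_option autoImplicit false

noncomputable section

namespace Pool.Agent.RRS

open Real

/-- the packed table -/
def sT : ℕ := 352497141211158853960706500139808469439653288296370696765896281978731782394059835883704121875232211089025519717955107166981635969098046721755978337099973096391807871800705579401352437746734318142206567354944372874574013090903531174143959713632550561986477027167969450811353809369369528105364037994593272339355086297439145396831634429361563901531114933464398808696573433634344075882293526510002810086772653027592331084147773117376921405631794996649732517862891218860873590545134932523519550152070630431788607430743368585939085635279755490692480114722304366879503743735475026641007738940599345682197260904685223449262887300856448896051895423681205816558757018303743266164701619077036270755170334583343722673370908013051138857687558678689766151258288791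829639719294300139897145564537947645689548718747612059871718336813602987431742413459632487007269603588206912889415551842505127673211759236826040682822000143305038310834559270249052605173236430819246635497795740787797244534400140708880609982284812799075455560918224579008814496328626856595925575549258788091723136363092043208737740517016246539243023446546491585105514785954477177390645337193667639297978297852841067049788357039860358058512194274886203485750537972584475839105281003912439814181052380254357802579433846817670468907057356158156068931191227888647631999073215569523679610064800747224523125420702018645136316467451251411623054686334636601391190991798550382172634350861852154398818882763163284006440798576186809839699062437787285390086159965831121975911713884668375434433035426328721605782577353969786281788296823264024498551252053775362120232689980186664086370716687945674469698678324274357693551352314469398213099615811746453875748102083938926887448897010716132386782610964178465869601505930574127669318465531732824414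26530789606588358323248519630520442724978423417926841238807143669446370810266663536620199343855965100867696873155544223643451944100217679794571649158682017493765694157429206410610653420606963448963947609268881794744856025954202648493865500342628185151131824823081591668501206190855632240219966896061060048296267495859414242007960416343866823611348017599839719614037516967993978071192383586790027936283729010215883025340196340302592859683345924301185154487541315480761276193391690011628887563046779595297211109160241115460238838191248892019881084647666285911968521975034357662241501936720718394125433988526139711323623414777095305255689602431264393895699230132505863185600909937474501047428269045532938682149542462810819332499620022061694538010490180534692838183173023492128011071690518680888780254291021713331890383162158686696990947007426563420134860338207978464119160896662869197886754059181668894624097615244163560455322148423758624696695736197562181806676344298059943647044095148490736678998902709185558029856050075627889132744073596017697388009293609522162805694015235831519718891970048325735708222705753947140578394554179131494013179548100556543356046613682111385034893430113816215277917387199246672663750776527013329994829072562329470007353728977040304130074690530368812399297945844524217356224519169902641152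

/-- the entry `k` -/
def sK (k : ℕ) : ℕ := (sT >>> (40 * k)) % 2 ^ 40

/-- one step of the rotation -/
def sStep (k : ℕ) : Bool :=
  let s := sK k
  let c := sK (256 - k)
  let a := s * 999981175283 + c * 6135884649
  let s' := sK (k + 1) * 10 ^ 12
  let c' := sK (255 - k) * 10 ^ 12
  (Nat.ble a (s' + 1340000000000)) && (Nat.ble s' (a + 1340000000000)) &&
    (Nat.ble (c * 999981175283) (c' + s * 6135884649 + 1340000000000)) &&
    (Nat.ble (c' + s * 6135884649) (c * 999981175283 + 1340000000000)) && (Nat.ble s (10 ^ 12)) &&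
    (Nat.ble c (10 ^ 12))

theorem sStep_all : ∀ k, k < 256 → sStep k = true := by
  have h : (List.range 256).all sStep = true := by decide +kernel
  intro k hk
  exact List.all_eq_true.1 h k (List.mem_range.2 hk)

/-- the angle -/
def ph0 : ℝ := π / 512

theorem ph0_bounds : 6135923151542564917 / 1000000000000000000000 < ph0 ∧
    ph0 < 6135923151542564919 / 1000000000000000000000 := by
  have h1 := Real.pi_gt_d20
  have h2 := Real.pi_lt_d20
  unfold ph0
  constructor
  · rw [lt_div_iff₀ (by norm_num)]
    refine lt_trans ?_ h1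
    norm_num
  · rw [div_lt_iff₀ (by norm_num)]
    refine lt_trans h2 ?_
    norm_num

theorem exp_ph0 : |cos ph0 - (1 - ph0 ^ 2 / 2 + ph0 ^ 4 / 24)| ≤ ph0 ^ 5 / 100 ∧
    |sin ph0 - (ph0 - ph0 ^ 3 / 6)| ≤ ph0 ^ 5 / 100 := by
  obtain ⟨b1, b2⟩ := ph0_bounds
  have p0 : 0 < ph0 := lt_trans (by norm_num) b1
  have hx : ‖((ph0 : ℂ) * Complex.I)‖ = ph0 := by
    rw [norm_mul, Complex.norm_I, mul_one, Complex.norm_real, Real.norm_eq_abs, abs_of_pos p0]
  have h := Complex.exp_bound (x := (ph0 : ℂ) * Complex.I) (by rw [hx]; linarith) (n := 5)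
    (by norm_num)
  rw [hx] at h
  have e1 : ∑ m ∈ Finset.range 5, ((ph0 : ℂ) * Complex.I) ^ m / (m.factorial : ℂ) =
      ((1 - ph0 ^ 2 / 2 + ph0 ^ 4 / 24 : ℝ) : ℂ) + ((ph0 - ph0 ^ 3 / 6 : ℝ) : ℂ) * Complex.I := by
    simp only [Finset.sum_range_succ, Finset.sum_range_zero, Nat.factorial]
    push_cast
    have i2 : Complex.I ^ 2 = -1 := Complex.I_sq
    have i3 : Complex.I ^ 3 = -Complex.I := by rw [pow_succ, i2]; ring
    have i4 : Complex.I ^ 4 = 1 := by rw [show (4 : ℕ) = 2 * 2 from rfl, pow_mul, i2]; norm_num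
    simp only [mul_pow, i2, i3, i4]
    ring
  rw [e1, Complex.exp_mul_I] at h
  have e2 : (Complex.cos (ph0 : ℂ) + Complex.sin (ph0 : ℂ) * Complex.I) -
      (((1 - ph0 ^ 2 / 2 + ph0 ^ 4 / 24 : ℝ) : ℂ) + ((ph0 - ph0 ^ 3 / 6 : ℝ) : ℂ) * Complex.I) =
      ((cos ph0 - (1 - ph0 ^ 2 / 2 + ph0 ^ 4 / 24) : ℝ) : ℂ) +
        ((sin ph0 - (ph0 - ph0 ^ 3 / 6) : ℝ) : ℂ) * Complex.I := by
    push_cast
    ring
  rw [e2] at h
  have h5 : ph0 ^ 5 * ((5 : ℕ).succ * ((Nat.factorial 5 : ℝ) * (5 : ℕ))⁻¹) = ph0 ^ 5 / 100 := by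
    norm_num [Nat.factorial]
    ring
  rw [h5] at h
  constructor
  · have := Complex.abs_re_le_norm (((cos ph0 - (1 - ph0 ^ 2 / 2 + ph0 ^ 4 / 24) : ℝ) : ℂ) +
        ((sin ph0 - (ph0 - ph0 ^ 3 / 6) : ℝ) : ℂ) * Complex.I)
    simp only [Complex.add_re, Complex.ofReal_re, Complex.mul_re, Complex.I_re, mul_zero,
      Complex.ofReal_im, Complex.I_im, mul_one, sub_self, add_zero] at this
    exact this.trans h
  · have := Complex.abs_im_le_norm (((cos ph0 - (1 - ph0 ^ 2 / 2 + ph0 ^ 4 / 24) : ℝ) : ℂ) +
        ((sin ph0 - (ph0 - ph0 ^ 3 / 6) : ℝ) : ℂ) * Complex.I)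
    simp only [Complex.add_im, Complex.ofReal_im, Complex.mul_im, Complex.ofReal_re,
      Complex.I_im, mul_one, Complex.I_re, mul_zero, add_zero, zero_add] at this
    exact this.trans h

theorem cs_ph0 : |10 ^ 12 * cos ph0 - 999981175283| ≤ 6 / 10 ∧ |10 ^ 12 * sin ph0 - 6135884649| ≤ 6 / 10 := by
  obtain ⟨b1, b2⟩ := ph0_bounds
  obtain ⟨e1, e2⟩ := exp_ph0
  have p0 : (0 : ℝ) ≤ 6135923151542564917 / 1000000000000000000000 := by norm_num
  have q2 : ph0 ^ 2 ≤ (6135923151542564919 / 1000000000000000000000) ^ 2 :=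
    pow_le_pow_left₀ (p0.trans b1.le) b2.le 2
  have q2' : (6135923151542564917 / 1000000000000000000000) ^ 2 ≤ ph0 ^ 2 :=
    pow_le_pow_left₀ p0 b1.le 2
  have q3 : ph0 ^ 3 ≤ (6135923151542564919 / 1000000000000000000000) ^ 3 :=
    pow_le_pow_left₀ (p0.trans b1.le) b2.le 3
  have q3' : (6135923151542564917 / 1000000000000000000000) ^ 3 ≤ ph0 ^ 3 :=
    pow_le_pow_left₀ p0 b1.le 3
  have q4 : ph0 ^ 4 ≤ (6135923151542564919 / 1000000000000000000000) ^ 4 :=
    pow_le_pow_left₀ (p0.trans b1.le) b2.le 4
  have q4' : (6135923151542564917 / 1000000000000000000000) ^ 4 ≤ ph0 ^ 4 :=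
    pow_le_pow_left₀ p0 b1.le 4
  have q5 : ph0 ^ 5 ≤ (6135923151542564919 / 1000000000000000000000) ^ 5 :=
    pow_le_pow_left₀ (p0.trans b1.le) b2.le 5
  rw [abs_le] at e1 e2
  norm_num at q2 q2' q3 q3' q4 q4' q5
  constructor <;> rw [abs_le] <;> constructor <;> linarith [e1.1, e1.2, e2.1, e2.2]

/-- the approximation of the point `exp (i k π / 512)` -/
def zC (k : ℕ) : ℂ := ((sK (256 - k) : ℝ) / 10 ^ 12 : ℝ) + ((sK k : ℝ) / 10 ^ 12 : ℝ) * Complex.I

theorem norm_ofReal_add (a b : ℝ) : ‖((a : ℂ) + (b : ℂ) * Complex.I)‖ ≤ |a| + |b| := by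
  refine (norm_add_le _ _).trans ?_
  rw [norm_mul, Complex.norm_I, mul_one, Complex.norm_real, Complex.norm_real, Real.norm_eq_abs,
    Real.norm_eq_abs]

/-- the rotation -/
def wR : ℂ := Complex.exp (ph0 * Complex.I)

/-- its approximation -/
def wA : ℂ := ((999981175283 / 10 ^ 12 : ℝ) : ℂ) + ((6135884649 / 10 ^ 12 : ℝ) : ℂ) * Complex.I

theorem wA_sub : ‖wA - wR‖ ≤ 12 / 10 ^ 13 := by
  have e : wA - wR = (((999981175283 / 10 ^ 12 - cos ph0 : ℝ)) : ℂ) +
      (((6135884649 / 10 ^ 12 - sin ph0 : ℝ)) : ℂ) * Complex.I := by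
    unfold wA wR
    rw [Complex.exp_mul_I]
    push_cast
    ring
  rw [e]
  refine (norm_ofReal_add _ _).trans ?_
  obtain ⟨h1, h2⟩ := cs_ph0
  rw [abs_le] at h1 h2
  have a1 : |(999981175283 / 10 ^ 12 - cos ph0 : ℝ)| ≤ 6 / 10 ^ 13 := by
    rw [abs_le]
    constructor <;> norm_num at h1 h2 ⊢ <;> linarith [h1.1, h1.2]
  have a2 : |(6135884649 / 10 ^ 12 - sin ph0 : ℝ)| ≤ 6 / 10 ^ 13 := by
    rw [abs_le]
    constructor <;> norm_num at h1 h2 ⊢ <;> linarith [h2.1, h2.2]
  norm_num at a1 a2 ⊢
  linarith

theorem sStep_real {k : ℕ} (hk : k < 256) :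
    |(sK (k + 1) : ℝ) * 10 ^ 12 - (sK k * 999981175283 + sK (256 - k) * 6135884649)| ≤ 1340000000000 ∧
    |(sK (255 - k) : ℝ) * 10 ^ 12 - (sK (256 - k) * 999981175283 - sK k * 6135884649)| ≤ 1340000000000 ∧
    (sK k : ℝ) ≤ 10 ^ 12 ∧ (sK (256 - k) : ℝ) ≤ 10 ^ 12 := by
  have h := sStep_all k hk
  simp only [sStep, Bool.and_eq_true, Nat.ble_eq] at h
  obtain ⟨⟨⟨⟨⟨h1, h2⟩, h3⟩, h4⟩, h5⟩, h6⟩ := h
  have h1' : ((sK k * 999981175283 + sK (256 - k) * 6135884649 : ℕ) : ℝ) ≤
      ((sK (k + 1) * 10 ^ 12 + 1340000000000 : ℕ) : ℝ) := by exact_mod_cast h1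
  have h2' : ((sK (k + 1) * 10 ^ 12 : ℕ) : ℝ) ≤
      ((sK k * 999981175283 + sK (256 - k) * 6135884649 + 1340000000000 : ℕ) : ℝ) := by exact_mod_cast h2
  have h3' : ((sK (256 - k) * 999981175283 : ℕ) : ℝ) ≤
      ((sK (255 - k) * 10 ^ 12 + sK k * 6135884649 + 1340000000000 : ℕ) : ℝ) := by exact_mod_cast h3
  have h4' : ((sK (255 - k) * 10 ^ 12 + sK k * 6135884649 : ℕ) : ℝ) ≤
      ((sK (256 - k) * 999981175283 + 1340000000000 : ℕ) : ℝ) := by exact_mod_cast h4
  have h5' : ((sK k : ℕ) : ℝ) ≤ ((10 ^ 12 : ℕ) : ℝ) := by exact_mod_cast h5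
  have h6' : ((sK (256 - k) : ℕ) : ℝ) ≤ ((10 ^ 12 : ℕ) : ℝ) := by exact_mod_cast h6
  push_cast at h1' h2' h3' h4' h5' h6'
  refine ⟨?_, ?_, by linarith, by linarith⟩ <;> rw [abs_le] <;> constructor <;> linarith

theorem zC_step {k : ℕ} (hk : k < 256) : ‖zC (k + 1) - zC k * wA‖ ≤ 268 / 10 ^ 14 ∧ ‖zC k‖ ≤ 2 := by
  obtain ⟨h1, h2, h3, h4⟩ := sStep_real hk
  constructor
  · have e : zC (k + 1) - zC k * wA =
        ((((sK (255 - k) : ℝ) * 10 ^ 12 - (sK (256 - k) * 999981175283 - sK k * 6135884649)) / 10 ^ 24 : ℝ) : ℂ) +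
        ((((sK (k + 1) : ℝ) * 10 ^ 12 - (sK k * 999981175283 + sK (256 - k) * 6135884649)) / 10 ^ 24 : ℝ) : ℂ) *
          Complex.I := by
      unfold zC wA
      rw [show 256 - (k + 1) = 255 - k by omega]
      have i2 : Complex.I * Complex.I = -1 := Complex.I_mul_I
      push_cast
      linear_combination (-(sK k : ℂ) / 10 ^ 12 * (6135884649 / 10 ^ 12)) * i2
    rw [e]
    refine (norm_ofReal_add _ _).trans ?_
    rw [abs_div, abs_div, abs_of_pos (by positivity : (0 : ℝ) < 10 ^ 24)]
    rw [← add_div, div_le_iff₀ (by positivity)]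
    have e3 : (268 / 10 ^ 14 * 10 ^ 24 : ℝ) = 2680000000000 := by norm_num
    rw [e3]
    linarith
  · unfold zC
    refine (norm_ofReal_add _ _).trans ?_
    rw [abs_of_nonneg (by positivity), abs_of_nonneg (by positivity), ← add_div,
      div_le_iff₀ (by positivity)]
    linarith

theorem zC_err : ∀ k : ℕ, k ≤ 256 → ‖zC k - wR ^ k‖ ≤ k * (51 / 10 ^ 13) := by
  intro k
  induction k with
  | zero =>
    intro _
    have e : zC 0 = 1 := by
      have a1 : sK 0 = 0 := by decide +kernel
      have a2 : sK 256 = 10 ^ 12 := by decide +kernel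
      unfold zC
      rw [a1, a2]
      push_cast
      norm_num
    rw [e]
    simp
  | succ k ih =>
    intro hk
    have h1 := ih (by omega)
    obtain ⟨h2, h3⟩ := zC_step (k := k) (by omega)
    have hw : ‖wR‖ = 1 := by
      unfold wR
      exact Complex.norm_exp_ofReal_mul_I ph0
    have e : zC (k + 1) - wR ^ (k + 1) = (zC (k + 1) - zC k * wA) + zC k * (wA - wR) +
        (zC k - wR ^ k) * wR := by
      rw [pow_succ]
      ring
    rw [e]
    refine (norm_add_le _ _).trans ?_
    refine (add_le_add_left (norm_add_le _ _) _).trans ?_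
    rw [norm_mul, norm_mul, hw, mul_one]
    have h4 : ‖zC k‖ * ‖wA - wR‖ ≤ 2 * (12 / 10 ^ 13) :=
      mul_le_mul h3 wA_sub (norm_nonneg _) (by norm_num)
    push_cast
    norm_num at h1 h2 h4 ⊢
    linarith

/-- **the table is correct** -/
theorem sK_ok {k : ℕ} (hk : k ≤ 256) : |10 ^ 12 * sin (k * π / 512) - sK k| ≤ 1400 := by
  have h := zC_err k hk
  have h2 := Complex.abs_im_le_norm (zC k - wR ^ k)
  have e1 : (zC k - wR ^ k).im = (sK k : ℝ) / 10 ^ 12 - sin (k * π / 512) := by
    have : wR ^ k = Complex.exp ((k * π / 512 : ℝ) * Complex.I) := by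
      unfold wR
      rw [← Complex.exp_nat_mul]
      congr 1
      unfold ph0
      push_cast
      ring
    rw [this, Complex.sub_im, Complex.exp_ofReal_mul_I_im]
    unfold zC
    simp only [Complex.add_im, Complex.ofReal_im, Complex.mul_im, Complex.ofReal_re,
      Complex.I_im, mul_one, Complex.I_re, mul_zero, add_zero, zero_add]
  rw [e1] at h2
  have h3 : (k : ℝ) ≤ 256 := by exact_mod_cast hk
  have h4 : |(sK k : ℝ) / 10 ^ 12 - sin (k * π / 512)| ≤ 256 * (51 / 10 ^ 13) := by
    refine h2.trans (h.trans ?_)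
    exact mul_le_mul_of_nonneg_right h3 (by norm_num)
  rw [abs_le] at h4 ⊢
  have h5 : (sK k : ℝ) / 10 ^ 12 * 10 ^ 12 = sK k := by field_simp
  constructor
  · norm_num at h4 ⊢
    linarith [h4.2]
  · norm_num at h4 ⊢
    linarith [h4.1]

/-- the table for all integers between `-512` and `1536` -/
def sZ (k : ℤ) : ℤ :=
  if k < 0 then -(sK (if k < -256 then (512 + k).toNat else (-k).toNat))
  else if k ≤ 256 then sK k.toNat
  else if k ≤ 512 then sK (512 - k).toNat
  else if k ≤ 768 then -(sK (k - 512).toNat)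
  else if k ≤ 1024 then -(sK (1024 - k).toNat)
  else if k ≤ 1280 then sK (k - 1024).toNat
  else sK (1536 - k).toNat

theorem sZ_ok {k : ℤ} (h1 : -512 ≤ k) (h2 : k ≤ 1536) :
    |10 ^ 12 * sin (k * π / 512) - sZ k| ≤ 1400 := by
  have key : ∀ (n : ℕ) (x y : ℝ), n ≤ 256 → sin x = sin (n * π / 512) →
      |10 ^ 12 * sin x - ((sK n : ℕ) : ℤ)| ≤ 1400 := by
    intro n x y hn hx
    rw [hx]
    exact_mod_cast sK_ok hn
  have keyn : ∀ (n : ℕ) (x y : ℝ), n ≤ 256 → sin x = -sin (n * π / 512) →
      |10 ^ 12 * sin x - ((-((sK n : ℕ) : ℤ) : ℤ) : ℝ)| ≤ 1400 := by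
    intro n x y hn hx
    rw [hx]
    have := sK_ok hn
    push_cast
    rw [abs_le] at this ⊢
    constructor <;> linarith [this.1, this.2]
  unfold sZ
  split_ifs with a1 a2 a3 a4 a5 a6 a7
  · refine keyn _ _ 0 (by omega) ?_
    have : (((512 + k).toNat : ℕ) : ℝ) = 512 + k := by
      have : (((512 + k).toNat : ℤ) : ℝ) = ((512 + k : ℤ) : ℝ) := by
        rw [Int.toNat_of_nonneg (by omega)]
      exact_mod_cast this
    rw [this, show ((512 + k) * π / 512 : ℝ) = k * π / 512 + π by ring, sin_add_pi, neg_neg]
  · refine keyn _ _ 0 (by omega) ?_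
    have : (((-k).toNat : ℕ) : ℝ) = -k := by
      have : (((-k).toNat : ℤ) : ℝ) = ((-k : ℤ) : ℝ) := by
        rw [Int.toNat_of_nonneg (by omega)]
      exact_mod_cast this
    rw [this, ← sin_neg]
    congr 1
    ring
  · refine key _ _ 0 (by omega) ?_
    have : ((k.toNat : ℕ) : ℝ) = k := by
      have : ((k.toNat : ℤ) : ℝ) = ((k : ℤ) : ℝ) := by
        rw [Int.toNat_of_nonneg (by omega)]
      exact_mod_cast this
    rw [this]
  · refine key _ _ 0 (by omega) ?_
    have : (((512 - k).toNat : ℕ) : ℝ) = 512 - k := by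
      have : (((512 - k).toNat : ℤ) : ℝ) = ((512 - k : ℤ) : ℝ) := by
        rw [Int.toNat_of_nonneg (by omega)]
      exact_mod_cast this
    rw [this, ← sin_pi_sub]
    congr 1
    ring
  · refine keyn _ _ 0 (by omega) ?_
    have : (((k - 512).toNat : ℕ) : ℝ) = k - 512 := by
      have : (((k - 512).toNat : ℤ) : ℝ) = ((k - 512 : ℤ) : ℝ) := by
        rw [Int.toNat_of_nonneg (by omega)]
      exact_mod_cast this
    rw [this, show ((k - 512) * π / 512 : ℝ) = k * π / 512 - π by ring, sin_sub_pi, neg_neg]
  · refine keyn _ _ 0 (by omega) ?_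
    have : (((1024 - k).toNat : ℕ) : ℝ) = 1024 - k := by
      have : (((1024 - k).toNat : ℤ) : ℝ) = ((1024 - k : ℤ) : ℝ) := by
        rw [Int.toNat_of_nonneg (by omega)]
      exact_mod_cast this
    rw [this, show ((1024 - k) * π / 512 : ℝ) = 2 * π - k * π / 512 by ring, sin_two_pi_sub,
      neg_neg]
  · refine key _ _ 0 (by omega) ?_
    have : (((k - 1024).toNat : ℕ) : ℝ) = k - 1024 := by
      have : (((k - 1024).toNat : ℤ) : ℝ) = ((k - 1024 : ℤ) : ℝ) := by
        rw [Int.toNat_of_nonneg (by omega)]
      exact_mod_cast this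
    rw [this, ← sin_add_two_pi ((k - 1024) * π / 512)]
    congr 1
    ring
  · refine key _ _ 0 (by omega) ?_
    have : (((1536 - k).toNat : ℕ) : ℝ) = 1536 - k := by
      have : (((1536 - k).toNat : ℤ) : ℝ) = ((1536 - k : ℤ) : ℝ) := by
        rw [Int.toNat_of_nonneg (by omega)]
      exact_mod_cast this
    rw [this, show ((1536 - k) * π / 512 : ℝ) = π - (k * π / 512 - 2 * π) by ring, sin_pi_sub,
      sin_sub_two_pi]

end Pool.Agent.RRS
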