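import Pool.Agent.RRS.TabDefs
import Pool.Agent.RRS.TrigSin
import Pool.Agent.RRS.TrigChord

/-!
# The table of the weights: the check and its soundness
-/

set_option autoImplicit false

noncomputable section

namespace Pool.Agent.RRS

open Real

/-- slope of `8 tF` in the angle -/
def aq (j : ℕ) : ℤ := if j ≤ 8 then 4 - j else 2 * j - 20
/-- constant term of `8 tF / π` -/
def bq (j : ℕ) : ℤ := if j ≤ 8 then j - 4 else 4

theorem two_tF (θ : ℝ) {j : ℕ} (hj : j ≤ 12) : 2 * tF θ j = (aq j * θ + bq j * π) / 4 := by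
  unfold aq bq
  rcases le_or_gt j 8 with h | h
  · rw [tF_same h, if_pos h, if_pos h]
    push_cast
    ring
  · rw [tF_opp h.le hj, if_neg (by omega), if_neg (by omega)]
    push_cast
    ring

/-- slope of the length of the sector, times `8 π` -/
def cn (i : ℕ) : ℤ := if i < 8 then -1 else 2
/-- the length of the sector at the node, divided by `π`, times `1024` -/
def rn (i m : ℕ) : ℤ := if i < 8 then 128 - m else 2 * m
/-- the sign -/
def sgi (mu : ℤ) (i : ℕ) : ℤ := if mu = 1 ∧ 8 ≤ i then -1 else 1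

/-- all weights -/
def wF (ε mu : ℤ) (i : ℕ) (θ : ℝ) : ℝ :=
  gF (if i < 8 then 1 / 8 else 0) (cn i / (8 * π)) (1 - mu) mu ((aq (i + 1) + 4 * ε) / 4)
    (π * bq (i + 1) / 4) ((aq i + 4 * ε) / 4) (π * bq i / 4) θ

theorem tF_len (θ : ℝ) {i : ℕ} (hi : i < 12) :
    (tF θ (i + 1) - tF θ i) / π = (if i < 8 then 1 / 8 else 0) + cn i / (8 * π) * θ := by
  have e1 := two_tF θ (j := i + 1) (by omega)
  have e0 := two_tF θ (j := i) (by omega)
  have hp : π ≠ 0 := Real.pi_ne_zero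
  have e : (tF θ (i + 1) - tF θ i) = ((aq (i + 1) - aq i) * θ + (bq (i + 1) - bq i) * π) / 8 := by
    linarith
  rw [e]
  unfold aq bq cn
  rcases lt_or_ge i 8 with h | h
  · simp only [if_pos h, if_pos (show i ≤ 8 by omega), if_pos (show i + 1 ≤ 8 by omega)]
    push_cast
    field_simp
    ring
  · simp only [if_neg (show ¬i < 8 by omega), if_neg (show ¬i + 1 ≤ 8 by omega)]
    rcases h.eq_or_lt with h' | h'
    · subst h'
      norm_num
      field_simp
    · simp only [if_neg (show ¬i ≤ 8 by omega)]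
      push_cast
      field_simp
      ring

theorem wX_eq (θ : ℝ) {i : ℕ} (hi : i < 12) : wX θ i = wF 1 0 i θ := by
  have e1 := two_tF θ (j := i + 1) (by omega)
  have e0 := two_tF θ (j := i) (by omega)
  have hl := tF_len θ hi
  have hp : π ≠ 0 := Real.pi_ne_zero
  unfold wX wF gF
  rw [← hl, e1, e0]
  push_cast
  rw [show ((aq (i + 1) : ℝ) * θ + bq (i + 1) * π) / 4 + θ =
      ((aq (i + 1) : ℝ) + 4 * 1) / 4 * θ + π * bq (i + 1) / 4 by ring,
    show ((aq i : ℝ) * θ + bq i * π) / 4 + θ = ((aq i : ℝ) + 4 * 1) / 4 * θ + π * bq i / 4 by ring]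
  field_simp
  ring

theorem wY_eq (θ : ℝ) {i : ℕ} (hi : i < 12) : wY θ i = wF (-1) 0 i θ := by
  have e1 := two_tF θ (j := i + 1) (by omega)
  have e0 := two_tF θ (j := i) (by omega)
  have hl := tF_len θ hi
  have hp : π ≠ 0 := Real.pi_ne_zero
  unfold wY wF gF
  rw [← hl, e1, e0]
  push_cast
  rw [show ((aq (i + 1) : ℝ) * θ + bq (i + 1) * π) / 4 - θ =
      ((aq (i + 1) : ℝ) + 4 * -1) / 4 * θ + π * bq (i + 1) / 4 by ring,
    show ((aq i : ℝ) * θ + bq i * π) / 4 - θ = ((aq i : ℝ) + 4 * -1) / 4 * θ + π * bq i / 4 by ring]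
  field_simp
  ring

theorem wP_eq (θ : ℝ) {i : ℕ} (hi : i < 12) : wP θ i = wF 0 1 i θ := by
  have e1 := two_tF θ (j := i + 1) (by omega)
  have e0 := two_tF θ (j := i) (by omega)
  have hl := tF_len θ hi
  have hp : π ≠ 0 := Real.pi_ne_zero
  unfold wP wF gF
  rw [← hl, e1, e0]
  push_cast
  rw [show ((aq (i + 1) : ℝ) * θ + bq (i + 1) * π) / 4 =
      ((aq (i + 1) : ℝ) + 4 * 0) / 4 * θ + π * bq (i + 1) / 4 by ring,
    show ((aq i : ℝ) * θ + bq i * π) / 4 = ((aq i : ℝ) + 4 * 0) / 4 * θ + π * bq i / 4 by ring]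
  field_simp
  ring

theorem wM_eq (θ : ℝ) {i : ℕ} (hi : i < 12) : wM θ i = sgi 1 i * wF 0 1 i θ := by
  unfold wM sgi
  rw [wP_eq θ hi]
  rcases lt_or_ge i 8 with h | h
  · rw [if_pos h, if_neg (by omega)]
    push_cast
    ring
  · rw [if_neg (by omega), if_pos ⟨rfl, h⟩]
    push_cast
    ring

/-- the central value, times `10 ^ 15`; `τ = 1`: with the second derivative -/
def cz (m i : ℕ) (ε mu τ : ℤ) : ℤ :=
  976562500 * (1 - mu) * rn i m * 10 ^ 12 +
    mu * ((976562500 + τ * 73534) * rn i m * sZ (256 - 4 * m) + τ * 5992112 * cn i * sZ (4 * m)) +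
    (159154943092 + τ * 749014 * (aq (i + 1) + 4 * ε) ^ 2) *
      sZ ((aq (i + 1) + 4 * ε) * m + 128 * bq (i + 1)) -
    (159154943092 + τ * 749014 * (aq i + 4 * ε) ^ 2) * sZ ((aq i + 4 * ε) * m + 128 * bq i)

/-- the variation of the second derivative -/
def lz (i : ℕ) (ε mu : ℤ) : ℤ :=
  (451640 * mu * |cn i| + 4597 * (|aq (i + 1) + 4 * ε| ^ 3 + |aq i + 4 * ε| ^ 3)) * 10 ^ 12

/-- the Lipschitz constant -/
def lR (i : ℕ) (ε mu : ℤ) : ℝ :=
  |(mu : ℝ)| * (|(cn i : ℝ)| / 8 + 3 * |(cn i : ℝ) / (8 * π)|) +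
    (|((aq (i + 1) : ℝ) + 4 * ε) / 4| ^ 3 + |((aq i : ℝ) + 4 * ε) / 4| ^ 3) / (2 * π)

/-- the second derivative -/
def wF2 (ε mu : ℤ) (i : ℕ) (θ : ℝ) : ℝ :=
  gF2 (if i < 8 then 1 / 8 else 0) (cn i / (8 * π)) mu ((aq (i + 1) + 4 * ε) / 4)
    (π * bq (i + 1) / 4) ((aq i + 4 * ε) / 4) (π * bq i / 4) θ

/-- the step -/
def hG : ℝ := π / 128

theorem hG_pos : 0 < hG := by
  unfold hG
  positivity

theorem thG_succ (m : ℕ) : thG (m + 1) = thG m + hG := by
  unfold thG hG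
  push_cast
  ring

theorem aq_bound {j : ℕ} (hj : j ≤ 12) : -4 ≤ aq j ∧ aq j ≤ 4 := by
  unfold aq
  split_ifs <;> omega

/-- the indices are in the range of the table -/
theorem idx_ok {m j : ℕ} {ε : ℤ} (hj : j ≤ 12) (hm : m ≤ 128) (hε : ε = 1 ∨ ε = 0 ∨ ε = -1) :
    -512 ≤ (aq j + 4 * ε) * m + 128 * bq j ∧ (aq j + 4 * ε) * m + 128 * bq j ≤ 1536 := by
  have hm' : (m : ℤ) ≤ 128 := by exact_mod_cast hm
  have hm0 : (0 : ℤ) ≤ m := by positivity
  unfold aq bq
  interval_cases j <;> rcases hε with h | h | h <;> subst h <;>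
    simp only [Nat.reduceLeDiff, if_true, if_false] <;> push_cast <;> omega

theorem K1_bound : |10 ^ 12 / (2 * π) - 159154943092| ≤ 2 / 10 := by
  have h1 := Real.pi_gt_d20
  have h2 := Real.pi_lt_d20
  have hp := Real.pi_pos
  rw [abs_le]
  constructor
  · rw [neg_le_sub_iff_le_add, ← sub_le_iff_le_add, le_div_iff₀ (by positivity)]
    norm_num at h1 h2 ⊢
    linarith
  · rw [sub_le_iff_le_add, div_le_iff₀ (by positivity)]
    norm_num at h1 h2 ⊢
    linarith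

theorem K2_bound : |10 ^ 12 * π / 524288 - 5992112| ≤ 1 := by
  have h1 := Real.pi_gt_d20
  have h2 := Real.pi_lt_d20
  rw [abs_le]
  constructor <;> norm_num at h1 h2 ⊢ <;> linarith

theorem K4_bound : |10 ^ 12 * π / 4194304 - 749014| ≤ 1 / 5 := by
  have h1 := Real.pi_gt_d20
  have h2 := Real.pi_lt_d20
  rw [abs_le]
  constructor <;> norm_num at h1 h2 ⊢ <;> linarith

theorem pi_sq_bounds : 98696044 / 10000000 < π ^ 2 ∧ π ^ 2 < 98696045 / 10000000 := by
  have h1 := Real.pi_gt_d20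
  have h2 := Real.pi_lt_d20
  norm_num at h1 h2
  constructor <;> nlinarith

theorem K3_bound : |10 ^ 12 * π ^ 2 / 134217728 - 73534| ≤ 1 / 2 := by
  obtain ⟨h1, h2⟩ := pi_sq_bounds
  rw [abs_le]
  constructor <;> norm_num at h1 h2 ⊢ <;> linarith

/-- product of approximations -/
theorem mul_approx {k K x X e f M : ℝ} (h1 : |k - K| ≤ e) (h2 : |x - X| ≤ f) (h3 : |K| ≤ M)
    (h4 : |x| ≤ 10 ^ 12) (he : 0 ≤ e) : |k * x - K * X| ≤ e * 10 ^ 12 + M * f := by
  have e1 : k * x - K * X = (k - K) * x + K * (x - X) := by ring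
  rw [e1]
  refine (abs_add_le _ _).trans ?_
  rw [abs_mul, abs_mul]
  exact add_le_add (mul_le_mul h1 h4 (abs_nonneg _) he)
    (mul_le_mul h3 h2 (abs_nonneg _) ((abs_nonneg _).trans h3))

theorem abs_sin12 (x : ℝ) : |10 ^ 12 * sin x| ≤ 10 ^ 12 := by
  rw [abs_mul, abs_of_pos (by positivity : (0 : ℝ) < 10 ^ 12)]
  exact mul_le_of_le_one_right (by positivity) (abs_sin_le_one x)

end Pool.Agent.RRS
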