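import Pool.Agent.RRS.TrigTab0

/-!
# The table of the weights: the central value
-/

set_option autoImplicit false

noncomputable section

namespace Pool.Agent.RRS

open Real

theorem abs_bound4 {a b c d A B C D : ℝ} (h1 : |a| ≤ A) (h2 : |b| ≤ B) (h3 : |c| ≤ C)
    (h4 : |d| ≤ D) : |a + b + c - d| ≤ A + B + C + D := by
  rw [abs_le] at *
  constructor <;> linarith [h1.1, h1.2, h2.1, h2.2, h3.1, h3.2, h4.1, h4.2]

theorem aq4_bound {j : ℕ} {ε : ℤ} (hj : j ≤ 12) (hε : ε = 1 ∨ ε = 0 ∨ ε = -1) :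
    |aq j + 4 * ε| ≤ 8 := by
  have := aq_bound hj
  rcases hε with h | h | h <;> subst h <;> rw [abs_le] <;> omega

theorem sgi_cases (mu : ℤ) (i : ℕ) : sgi mu i = 1 ∨ sgi mu i = -1 := by
  unfold sgi
  split_ifs
  · exact Or.inr rfl
  · exact Or.inl rfl

/-- the central value is correct -/
theorem cz_approx {m i : ℕ} {ε mu τ : ℤ} (hi : i < 12) (hm : m ≤ 128)
    (hε : ε = 1 ∨ ε = 0 ∨ ε = -1) (hmu : mu = 0 ∨ mu = 1) (hτ : τ = 0 ∨ τ = 1) :
    |10 ^ 24 * (wF ε mu i (thG m) - τ * wF2 ε mu i (thG m) * hG ^ 2 / 8) - cz m i ε mu τ| ≤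
      4 * 10 ^ 15 := by
  have hp := Real.pi_pos
  obtain ⟨x1, hx1⟩ : ∃ x1, x1 = 10 ^ 12 *
    sin ((((aq (i + 1) + 4 * ε) * m + 128 * bq (i + 1) : ℤ) : ℝ) * π / 512) := ⟨_, rfl⟩
  obtain ⟨x0, hx0⟩ : ∃ x0, x0 = 10 ^ 12 *
    sin ((((aq i + 4 * ε) * m + 128 * bq i : ℤ) : ℝ) * π / 512) := ⟨_, rfl⟩
  obtain ⟨x3, hx3⟩ : ∃ x3, x3 = 10 ^ 12 * sin (((256 - 4 * m : ℤ) : ℝ) * π / 512) := ⟨_, rfl⟩
  obtain ⟨x4, hx4⟩ : ∃ x4, x4 = 10 ^ 12 * sin (((4 * m : ℤ) : ℝ) * π / 512) := ⟨_, rfl⟩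
  have hm' : (m : ℤ) ≤ 128 := by exact_mod_cast hm
  have hm0 : (0 : ℤ) ≤ m := by positivity
  obtain ⟨r1, r2⟩ := idx_ok (j := i + 1) (ε := ε) (by omega) hm hε
  obtain ⟨r3, r4⟩ := idx_ok (j := i) (ε := ε) (by omega) hm hε
  have b1 := sZ_ok r1 r2
  have b0 := sZ_ok r3 r4
  have b3 := sZ_ok (k := 256 - 4 * m) (by omega) (by omega)
  have b4 := sZ_ok (k := 4 * m) (by omega) (by omega)
  have a1 := abs_sin12 ((((aq (i + 1) + 4 * ε) * m + 128 * bq (i + 1) : ℤ) : ℝ) * π / 512)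
  have a0 := abs_sin12 ((((aq i + 4 * ε) * m + 128 * bq i : ℤ) : ℝ) * π / 512)
  have a3 := abs_sin12 (((256 - 4 * m : ℤ) : ℝ) * π / 512)
  have a4 := abs_sin12 (((4 * m : ℤ) : ℝ) * π / 512)
  rw [← hx1] at b1 a1
  rw [← hx0] at b0 a0
  rw [← hx3] at b3 a3
  rw [← hx4] at b4 a4
  -- the identity
  have e : 10 ^ 24 * (wF ε mu i (thG m) - τ * wF2 ε mu i (thG m) * hG ^ 2 / 8) =
      976562500 * (1 - mu) * rn i m * 10 ^ 12 +
      (mu * rn i m * ((976562500 + τ * (10 ^ 12 * π ^ 2 / 134217728)) * x3) +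
        mu * τ * cn i * ((10 ^ 12 * π / 524288) * x4)) +
      (10 ^ 12 / (2 * π) + τ * (10 ^ 12 * π / 4194304) * (aq (i + 1) + 4 * ε) ^ 2) * x1 -
      (10 ^ 12 / (2 * π) + τ * (10 ^ 12 * π / 4194304) * (aq i + 4 * ε) ^ 2) * x0 := by
    have f1 : (if i < 8 then (1 : ℝ) / 8 else 0) + cn i / (8 * π) * thG m = rn i m / 1024 := by
      unfold cn rn thG
      split_ifs
      · push_cast
        field_simp
        ring
      · push_cast
        field_simp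
        ring
    have f3 : cos (thG m) = sin (((256 - 4 * m : ℤ) : ℝ) * π / 512) := by
      rw [← sin_pi_div_two_sub]
      congr 1
      unfold thG
      push_cast
      ring
    have f4 : sin (thG m) = sin (((4 * m : ℤ) : ℝ) * π / 512) := by
      congr 1
      unfold thG
      push_cast
      ring
    have f5 : ((aq (i + 1) : ℝ) + 4 * ε) / 4 * thG m + π * bq (i + 1) / 4 =
        (((aq (i + 1) + 4 * ε) * m + 128 * bq (i + 1) : ℤ) : ℝ) * π / 512 := by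
      unfold thG
      push_cast
      ring
    have f6 : ((aq i : ℝ) + 4 * ε) / 4 * thG m + π * bq i / 4 =
        (((aq i + 4 * ε) * m + 128 * bq i : ℤ) : ℝ) * π / 512 := by
      unfold thG
      push_cast
      ring
    unfold wF wF2 gF gF2
    rw [f1, f3, f4, f5, f6, hx1, hx0, hx3, hx4]
    unfold hG
    field_simp
    ring
  have e2 : 10 ^ 24 * (wF ε mu i (thG m) - τ * wF2 ε mu i (thG m) * hG ^ 2 / 8) - cz m i ε mu τ =
      mu * rn i m * ((976562500 + τ * (10 ^ 12 * π ^ 2 / 134217728)) * x3 -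
        (976562500 + τ * 73534) * sZ (256 - 4 * m)) +
      mu * τ * cn i * ((10 ^ 12 * π / 524288) * x4 - 5992112 * sZ (4 * m)) +
      ((10 ^ 12 / (2 * π) + τ * (10 ^ 12 * π / 4194304) * (aq (i + 1) + 4 * ε) ^ 2) * x1 -
        (159154943092 + τ * 749014 * (aq (i + 1) + 4 * ε) ^ 2) *
          sZ ((aq (i + 1) + 4 * ε) * m + 128 * bq (i + 1))) -
      ((10 ^ 12 / (2 * π) + τ * (10 ^ 12 * π / 4194304) * (aq i + 4 * ε) ^ 2) * x0 -
        (159154943092 + τ * 749014 * (aq i + 4 * ε) ^ 2) *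
          sZ ((aq i + 4 * ε) * m + 128 * bq i)) := by
    rw [e]
    unfold cz
    push_cast
    ring
  rw [e2]
  have hτ1 : |(τ : ℝ)| ≤ 1 := by rcases hτ with h | h <;> subst h <;> norm_num
  have hτ0 : 0 ≤ (τ : ℝ) := by rcases hτ with h | h <;> subst h <;> norm_num
  have hτ2 : (τ : ℝ) ≤ 1 := by rcases hτ with h | h <;> subst h <;> norm_num
  have hmu1 : |(mu : ℝ)| ≤ 1 := by rcases hmu with h | h <;> subst h <;> norm_num
  have hrn : |(rn i m : ℝ)| ≤ 256 := by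
    have : |rn i m| ≤ 256 := by
      unfold rn
      split_ifs <;> rw [abs_le] <;> omega
    exact_mod_cast this
  have hcn : |(cn i : ℝ)| ≤ 2 := by
    have : |cn i| ≤ 2 := by
      unfold cn
      split_ifs <;> norm_num
    exact_mod_cast this
  have ksq : ∀ j : ℕ, j ≤ 12 → 0 ≤ ((aq j : ℝ) + 4 * ε) ^ 2 ∧ ((aq j : ℝ) + 4 * ε) ^ 2 ≤ 64 := by
    intro j hj
    have h := aq4_bound (ε := ε) hj hε
    have h' : |(aq j : ℝ) + 4 * ε| ≤ 8 := by exact_mod_cast h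
    refine ⟨sq_nonneg _, ?_⟩
    have := sq_le_sq' (abs_le.1 h').1 (abs_le.1 h').2
    linarith
  have kk : ∀ j : ℕ, j ≤ 12 → ∀ x X : ℝ, |x - X| ≤ 1400 → |x| ≤ 10 ^ 12 →
      |(10 ^ 12 / (2 * π) + τ * (10 ^ 12 * π / 4194304) * (aq j + 4 * ε) ^ 2) * x -
        (159154943092 + τ * 749014 * (aq j + 4 * ε) ^ 2) * X| ≤
        13 * 10 ^ 12 + 160000000000 * 1400 := by
    intro j hj x X hx hx'
    obtain ⟨s0, s1⟩ := ksq j hj
    refine mul_approx ?_ hx ?_ hx' (by norm_num)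
    · have k1 := K1_bound
      have k4 := K4_bound
      have e3 : 10 ^ 12 / (2 * π) + τ * (10 ^ 12 * π / 4194304) * ((aq j : ℝ) + 4 * ε) ^ 2 -
          (159154943092 + τ * 749014 * (aq j + 4 * ε) ^ 2) =
          (10 ^ 12 / (2 * π) - 159154943092) +
          τ * ((10 ^ 12 * π / 4194304 - 749014) * ((aq j : ℝ) + 4 * ε) ^ 2) := by ring
      rw [e3]
      refine (abs_add_le _ _).trans ?_
      have t1 : |(τ : ℝ) * ((10 ^ 12 * π / 4194304 - 749014) * ((aq j : ℝ) + 4 * ε) ^ 2)| ≤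
          1 * (1 / 5 * 64) := by
        rw [abs_mul, abs_mul, abs_of_nonneg s0]
        exact mul_le_mul hτ1 (mul_le_mul k4 s1 s0 (by norm_num)) (by positivity) (by norm_num)
      norm_num at k1 t1 ⊢
      linarith
    · have t0 : 0 ≤ (τ : ℝ) * 749014 * ((aq j : ℝ) + 4 * ε) ^ 2 := by positivity
      have t1 : (τ : ℝ) * 749014 * ((aq j : ℝ) + 4 * ε) ^ 2 ≤ 1 * 749014 * 64 :=
        mul_le_mul (mul_le_mul_of_nonneg_right hτ2 (by norm_num)) s1 s0 (by norm_num)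
      rw [abs_of_nonneg (by linarith)]
      linarith
  have t3 : |mu * rn i m * ((976562500 + τ * (10 ^ 12 * π ^ 2 / 134217728)) * x3 -
        (976562500 + τ * 73534) * sZ (256 - 4 * m))| ≤
      1 * 256 * (1 / 2 * 10 ^ 12 + 1000000000 * 1400) := by
    rw [abs_mul, abs_mul]
    refine mul_le_mul (mul_le_mul hmu1 hrn (abs_nonneg _) (by norm_num)) ?_ (abs_nonneg _)
      (by norm_num)
    refine mul_approx ?_ b3 ?_ a3 (by norm_num)
    · have k3 := K3_bound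
      have e3 : 976562500 + τ * (10 ^ 12 * π ^ 2 / 134217728) - (976562500 + τ * 73534) =
          τ * (10 ^ 12 * π ^ 2 / 134217728 - 73534) := by ring
      rw [e3, abs_mul]
      calc |(τ : ℝ)| * |10 ^ 12 * π ^ 2 / 134217728 - 73534| ≤ 1 * (1 / 2) :=
          mul_le_mul hτ1 k3 (abs_nonneg _) (by norm_num)
        _ = 1 / 2 := by norm_num
    · rw [abs_of_nonneg (by positivity)]
      nlinarith
  have t4 : |mu * τ * cn i * ((10 ^ 12 * π / 524288) * x4 - 5992112 * sZ (4 * m))| ≤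
      1 * 1 * 2 * (1 * 10 ^ 12 + 6000000 * 1400) := by
    rw [abs_mul, abs_mul, abs_mul]
    refine mul_le_mul (mul_le_mul (mul_le_mul hmu1 hτ1 (abs_nonneg _) (by norm_num)) hcn
      (abs_nonneg _) (by norm_num)) ?_ (abs_nonneg _) (by norm_num)
    exact mul_approx K2_bound b4 (by norm_num) a4 (by norm_num)
  have t1 := kk (i + 1) (by omega) x1 _ b1 a1
  have t0 := kk i (by omega) x0 _ b0 a0
  refine (abs_bound4 t3 t4 t1 t0).trans ?_
  norm_num

end Pool.Agent.RRS
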