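import Pool.Agent.RRS.TrigTab1

/-!
# The table of the weights: soundness of the check
-/

set_option autoImplicit false

noncomputable section

namespace Pool.Agent.RRS

open Real

theorem lR_nonneg (i : ℕ) (ε mu : ℤ) : 0 ≤ lR i ε mu := by
  unfold lR
  positivity

theorem pi_cube_lt : π ^ 3 < 31007 / 1000 := by
  obtain ⟨h1, h2⟩ := pi_sq_bounds
  have h3 := Real.pi_lt_d20
  have h4 := Real.pi_pos
  norm_num at h3
  have e : π ^ 3 = π ^ 2 * π := by ring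
  rw [e]
  nlinarith

theorem lz_bound (i : ℕ) {ε mu : ℤ} (hmu : mu = 0 ∨ mu = 1) :
    10 ^ 24 * (lR i ε mu * hG * hG ^ 2 / 8) ≤ lz i ε mu := by
  obtain ⟨h1, h2⟩ := pi_sq_bounds
  have h3 := pi_cube_lt
  have hp := Real.pi_pos
  have hmu0 : (0 : ℝ) ≤ mu := by rcases hmu with h | h <;> subst h <;> norm_num
  have e : 10 ^ 24 * (lR i ε mu * hG * hG ^ 2 / 8) =
      mu * |(cn i : ℝ)| * ((π ^ 3 + 3 * π ^ 2) * 10 ^ 24 / 134217728) +
      (|(aq (i + 1) : ℝ) + 4 * ε| ^ 3 + |(aq i : ℝ) + 4 * ε| ^ 3) *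
        (π ^ 2 * 10 ^ 24 / 2147483648) := by
    unfold lR hG
    rw [abs_of_nonneg hmu0, abs_div, abs_div, abs_div, abs_of_pos (by positivity : 0 < 8 * π),
      abs_of_pos (by norm_num : (0 : ℝ) < 4)]
    field_simp
    ring
  rw [e]
  unfold lz
  push_cast
  have t1 : mu * |(cn i : ℝ)| * ((π ^ 3 + 3 * π ^ 2) * 10 ^ 24 / 134217728) ≤
      mu * |(cn i : ℝ)| * (451640 * 10 ^ 12) := by
    refine mul_le_mul_of_nonneg_left ?_ (by positivity)
    rw [div_le_iff₀ (by norm_num)]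
    norm_num
    linarith
  have t2 : (|(aq (i + 1) : ℝ) + 4 * ε| ^ 3 + |(aq i : ℝ) + 4 * ε| ^ 3) *
        (π ^ 2 * 10 ^ 24 / 2147483648) ≤
      (|(aq (i + 1) : ℝ) + 4 * ε| ^ 3 + |(aq i : ℝ) + 4 * ε| ^ 3) * (4597 * 10 ^ 12) := by
    refine mul_le_mul_of_nonneg_left ?_ (by positivity)
    rw [div_le_iff₀ (by norm_num)]
    norm_num
    linarith
  linarith

/-- the check of a lower bound -/
def loOK (m i : ℕ) (ε mu : ℤ) (lo : ℕ) : Bool :=
  decide ((lo : ℤ) * 10 ^ 15 + 4 * 10 ^ 15 ≤ sgi mu i * cz m i ε mu 0) &&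
    decide ((lo : ℤ) * 10 ^ 15 + lz i ε mu + 4 * 10 ^ 15 ≤ sgi mu i * cz m i ε mu 1)

/-- the check of an upper bound -/
def hiOK (m i : ℕ) (ε mu : ℤ) (hi : ℕ) : Bool :=
  decide (sgi mu i * cz m i ε mu 0 + 4 * 10 ^ 15 ≤ (hi : ℤ) * 10 ^ 15) &&
    decide (sgi mu i * cz m i ε mu 1 + lz i ε mu + 4 * 10 ^ 15 ≤ (hi : ℤ) * 10 ^ 15)

theorem sg_abs {g x y C : ℝ} (hg : g = 1 ∨ g = -1) (h : |x - y| ≤ C) :
    g * y - C ≤ g * x ∧ g * x ≤ g * y + C := by
  rw [abs_le] at h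
  rcases hg with h' | h' <;> subst h' <;> constructor <;> linarith [h.1, h.2]

theorem loOK_sound {m i : ℕ} {ε mu : ℤ} {lo : ℕ} (hi : i < 12) (hm : m ≤ 128)
    (hε : ε = 1 ∨ ε = 0 ∨ ε = -1) (hmu : mu = 0 ∨ mu = 1) (h : loOK m i ε mu lo = true) :
    (lo : ℝ) ≤ 10 ^ 9 * (sgi mu i * wF ε mu i (thG m)) ∧
    (lo : ℝ) ≤ 10 ^ 9 * (sgi mu i * wF ε mu i (thG m) -
      (sgi mu i * wF2 ε mu i (thG m) + lR i ε mu * hG) * hG ^ 2 / 8) := by
  simp only [loOK, Bool.and_eq_true, decide_eq_true_eq] at h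
  obtain ⟨h1, h2⟩ := h
  have h1' : ((lo : ℤ) * 10 ^ 15 + 4 * 10 ^ 15 : ℝ) ≤ sgi mu i * cz m i ε mu 0 := by
    exact_mod_cast h1
  have h2' : ((lo : ℤ) * 10 ^ 15 + lz i ε mu + 4 * 10 ^ 15 : ℝ) ≤ sgi mu i * cz m i ε mu 1 := by
    exact_mod_cast h2
  have hg : (sgi mu i : ℝ) = 1 ∨ (sgi mu i : ℝ) = -1 := by
    rcases sgi_cases mu i with h | h <;> rw [h] <;> norm_num
  have a0 := (sg_abs hg (cz_approx hi hm hε hmu (Or.inl rfl : (0 : ℤ) = 0 ∨ (0 : ℤ) = 1))).1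
  have a1 := (sg_abs hg (cz_approx hi hm hε hmu (Or.inr rfl : (1 : ℤ) = 0 ∨ (1 : ℤ) = 1))).1
  have a2 := lz_bound i (ε := ε) hmu
  push_cast at h1' h2' a0 a1
  constructor
  · norm_num at h1' a0 ⊢
    linarith
  · norm_num at h2' a1 a2 ⊢
    linarith

theorem hiOK_sound {m i : ℕ} {ε mu : ℤ} {up : ℕ} (hi : i < 12) (hm : m ≤ 128)
    (hε : ε = 1 ∨ ε = 0 ∨ ε = -1) (hmu : mu = 0 ∨ mu = 1) (h : hiOK m i ε mu up = true) :
    10 ^ 9 * (sgi mu i * wF ε mu i (thG m)) ≤ (up : ℝ) ∧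
    10 ^ 9 * (sgi mu i * wF ε mu i (thG m) +
      (-(sgi mu i * wF2 ε mu i (thG m)) + lR i ε mu * hG) * hG ^ 2 / 8) ≤ (up : ℝ) := by
  simp only [hiOK, Bool.and_eq_true, decide_eq_true_eq] at h
  obtain ⟨h1, h2⟩ := h
  have h1' : (sgi mu i * cz m i ε mu 0 + 4 * 10 ^ 15 : ℝ) ≤ (up : ℤ) * 10 ^ 15 := by
    exact_mod_cast h1
  have h2' : (sgi mu i * cz m i ε mu 1 + lz i ε mu + 4 * 10 ^ 15 : ℝ) ≤ (up : ℤ) * 10 ^ 15 := by
    exact_mod_cast h2
  have hg : (sgi mu i : ℝ) = 1 ∨ (sgi mu i : ℝ) = -1 := by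
    rcases sgi_cases mu i with h | h <;> rw [h] <;> norm_num
  have a0 := (sg_abs hg (cz_approx hi hm hε hmu (Or.inl rfl : (0 : ℤ) = 0 ∨ (0 : ℤ) = 1))).2
  have a1 := (sg_abs hg (cz_approx hi hm hε hmu (Or.inr rfl : (1 : ℤ) = 0 ∨ (1 : ℤ) = 1))).2
  have a2 := lz_bound i (ε := ε) hmu
  push_cast at h1' h2' a0 a1
  constructor
  · norm_num at h1' a0 ⊢
    linarith
  · norm_num at h2' a1 a2 ⊢
    linarith

/-- the derivatives -/
theorem wF_deriv (ε mu : ℤ) (i : ℕ) : ∃ f1 : ℝ → ℝ, (∀ x, HasDerivAt (wF ε mu i) (f1 x) x) ∧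
    ∀ x, HasDerivAt f1 (wF2 ε mu i x) x :=
  ⟨gF1 (if i < 8 then 1 / 8 else 0) (cn i / (8 * π)) (1 - mu) mu ((aq (i + 1) + 4 * ε) / 4)
    (π * bq (i + 1) / 4) ((aq i + 4 * ε) / 4) (π * bq i / 4),
    fun x => gF_deriv _ _ _ _ _ _ _ _ x, fun x => gF_deriv2 _ _ _ _ _ _ _ _ x⟩

theorem wF2_lip {i : ℕ} {ε mu : ℤ} {x y : ℝ} (hx0 : 0 ≤ x) (hx : x ≤ π) :
    |wF2 ε mu i x - wF2 ε mu i y| ≤ lR i ε mu * |x - y| := by
  refine gF2_lip ?_
  have hp := Real.pi_pos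
  unfold cn
  split_ifs
  · push_cast
    have h1 : x / π ≤ 1 := (div_le_one hp).2 hx
    have h2 : 0 ≤ x / π := by positivity
    rw [show (1 : ℝ) / 8 + -1 / (8 * π) * x = (1 - x / π) / 8 by field_simp; ring, abs_neg, abs_one,
      abs_of_nonneg (by linarith)]
    linarith
  · push_cast
    have h1 : x / π ≤ 1 := (div_le_one hp).2 hx
    have h2 : 0 ≤ x / π := by positivity
    rw [show (0 : ℝ) + 2 / (8 * π) * x = (x / π) / 4 by field_simp; ring,
      abs_of_nonneg (by linarith), abs_two]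
    linarith

theorem thG_le {m : ℕ} (hm : m ≤ 128) : thG m ≤ π := by
  unfold thG
  have : (m : ℝ) ≤ 128 := by exact_mod_cast hm
  rw [div_le_iff₀ (by norm_num)]
  nlinarith [Real.pi_pos]

theorem thG_nonneg (m : ℕ) : 0 ≤ thG m := by
  unfold thG
  positivity

/-- the lower bound on an interval -/
theorem lo_between {m i : ℕ} {ε mu : ℤ} {l0 l1 : ℕ} {z : ℝ} (hi : i < 12) (hm : m < 128)
    (hε : ε = 1 ∨ ε = 0 ∨ ε = -1) (hmu : mu = 0 ∨ mu = 1) (h0 : loOK m i ε mu l0 = true)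
    (h1 : loOK (m + 1) i ε mu l1 = true) (z0 : 0 ≤ z) (z1 : z ≤ 1) :
    (1 - z) * l0 + z * l1 ≤ 10 ^ 9 * (sgi mu i * wF ε mu i (thG m + z * hG)) := by
  obtain ⟨f1, d1, d2⟩ := wF_deriv ε mu i
  obtain ⟨p1, p2⟩ := loOK_sound hi hm.le hε hmu h0
  obtain ⟨q1, q2⟩ := loOK_sound hi (show m + 1 ≤ 128 by omega) hε hmu h1
  rw [thG_succ] at q1 q2
  have hb : thG m + hG ≤ π := by
    rw [← thG_succ]
    exact thG_le (by omega)
  exact nd_low (f := fun x => sgi mu i * wF ε mu i x) (f1 := fun x => sgi mu i * f1 x)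
    (f2 := fun x => sgi mu i * wF2 ε mu i x) (L := lR i ε mu)
    (fun x => (d1 x).const_mul _) (fun x => (d2 x).const_mul _) hG_pos
    (fun x y a1 a2 a3 a4 => by
      rw [← mul_sub, abs_mul]
      have : |(sgi mu i : ℝ)| = 1 := by
        rcases sgi_cases mu i with h | h <;> rw [h] <;> norm_num
      rw [this, one_mul]
      exact wF2_lip (le_trans (thG_nonneg m) a1) (by linarith)) (lR_nonneg i ε mu) p1 p2 q1 q2 z0 z1

/-- the upper bound on an interval -/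
theorem hi_between {m i : ℕ} {ε mu : ℤ} {h0 h1 : ℕ} {z : ℝ} (hi : i < 12) (hm : m < 128)
    (hε : ε = 1 ∨ ε = 0 ∨ ε = -1) (hmu : mu = 0 ∨ mu = 1) (e0 : hiOK m i ε mu h0 = true)
    (e1 : hiOK (m + 1) i ε mu h1 = true) (z0 : 0 ≤ z) (z1 : z ≤ 1) :
    10 ^ 9 * (sgi mu i * wF ε mu i (thG m + z * hG)) ≤ (1 - z) * h0 + z * h1 := by
  obtain ⟨f1, d1, d2⟩ := wF_deriv ε mu i
  obtain ⟨p1, p2⟩ := hiOK_sound hi hm.le hε hmu e0
  obtain ⟨q1, q2⟩ := hiOK_sound hi (show m + 1 ≤ 128 by omega) hε hmu e1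
  rw [thG_succ] at q1 q2
  have hb : thG m + hG ≤ π := by
    rw [← thG_succ]
    exact thG_le (by omega)
  have := nd_low (f := fun x => -(sgi mu i * wF ε mu i x)) (f1 := fun x => -(sgi mu i * f1 x))
    (f2 := fun x => -(sgi mu i * wF2 ε mu i x)) (L := lR i ε mu) (a := thG m) (h := hG) (z := z)
    (l0 := -h0) (l1 := -h1)
    (fun x => ((d1 x).const_mul _).neg) (fun x => ((d2 x).const_mul _).neg) hG_pos
    (fun x y a1 a2 a3 a4 => by
      rw [← neg_sub_neg, neg_neg, neg_neg, abs_sub_comm, ← mul_sub, abs_mul]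
      have : |(sgi mu i : ℝ)| = 1 := by
        rcases sgi_cases mu i with h | h <;> rw [h] <;> norm_num
      rw [this, one_mul]
      exact wF2_lip (le_trans (thG_nonneg m) a1) (by linarith)) (lR_nonneg i ε mu)
    (by linarith) (by linarith) (by linarith) (by linarith) z0 z1
  linarith

/-! ### The weights are not negative -/

theorem wX_nonneg {θ : ℝ} (hπ : θ ≤ π) {i : ℕ} (hi : i < 8) : 0 ≤ wX θ i := by
  have hp := Real.pi_pos
  have hd : 0 ≤ tF θ (i + 1) - tF θ i := by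
    rw [tF_same (by omega), tF_same (by omega)]
    push_cast
    nlinarith
  unfold wX
  have h := abs_sin_sub_le 1 0 (2 * tF θ (i + 1) + θ) (2 * tF θ i + θ)
  simp only [one_mul, add_zero, abs_one] at h
  rw [show 2 * tF θ (i + 1) + θ - (2 * tF θ i + θ) = 2 * (tF θ (i + 1) - tF θ i) by ring,
    abs_of_nonneg (by linarith : (0 : ℝ) ≤ 2 * (tF θ (i + 1) - tF θ i))] at h
  have := (abs_le.1 h).1
  exact mul_nonneg (by positivity) (by linarith)

theorem wY_nonneg {θ : ℝ} (hπ : θ ≤ π) {i : ℕ} (hi : i < 8) : 0 ≤ wY θ i := by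
  have hp := Real.pi_pos
  have hd : 0 ≤ tF θ (i + 1) - tF θ i := by
    rw [tF_same (by omega), tF_same (by omega)]
    push_cast
    nlinarith
  unfold wY
  have h := abs_sin_sub_le 1 0 (2 * tF θ (i + 1) - θ) (2 * tF θ i - θ)
  simp only [one_mul, add_zero, abs_one] at h
  rw [show 2 * tF θ (i + 1) - θ - (2 * tF θ i - θ) = 2 * (tF θ (i + 1) - tF θ i) by ring,
    abs_of_nonneg (by linarith : (0 : ℝ) ≤ 2 * (tF θ (i + 1) - tF θ i))] at h
  have := (abs_le.1 h).1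
  exact mul_nonneg (by positivity) (by linarith)

theorem wM_nonneg {θ : ℝ} (h0 : 0 ≤ θ) (hπ : θ ≤ π) {i : ℕ} (hi : i < 8) : 0 ≤ wM θ i := by
  have hp := Real.pi_pos
  have e1 : tF θ (i + 1) = (π - θ) / 2 * (((i : ℝ) + 1) / 4 - 1) := by
    rw [tF_same (by omega)]
    push_cast
    ring
  have e0 : tF θ i = (π - θ) / 2 * ((i : ℝ) / 4 - 1) := tF_same (by omega)
  have hi' : (i : ℝ) + 1 ≤ 8 := by exact_mod_cast (by omega : i + 1 ≤ 8)
  have hi0 : (0 : ℝ) ≤ i := by positivity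
  have hw : 0 ≤ (π - θ) / 2 := by linarith
  have b0 : -((π - θ) / 2) ≤ tF θ i := by rw [e0]; nlinarith
  have b1 : tF θ (i + 1) ≤ (π - θ) / 2 := by rw [e1]; nlinarith
  have b2 : tF θ i ≤ tF θ (i + 1) := by rw [e1, e0]; nlinarith
  have hmono : MonotoneOn (fun t : ℝ => sin (2 * t) + 2 * t * cos θ)
      (Set.Icc (-((π - θ) / 2)) ((π - θ) / 2)) := by
    have hd : ∀ t : ℝ, HasDerivAt (fun t : ℝ => sin (2 * t) + 2 * t * cos θ)
        (cos (2 * t) * 2 + 2 * cos θ) t := by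
      intro t
      have a1 : HasDerivAt (fun t : ℝ => 2 * t) 2 t := by
        simpa using (hasDerivAt_id t).const_mul 2
      exact a1.sin.add (a1.mul_const (cos θ))
    refine monotoneOn_of_deriv_nonneg (convex_Icc _ _) (by fun_prop)
      (fun t _ => (hd t).differentiableAt.differentiableWithinAt) ?_
    intro t ht
    rw [interior_Icc] at ht
    rw [(hd t).deriv]
    have : -cos θ ≤ cos (2 * t) := by
      rw [← cos_pi_sub, ← cos_abs (2 * t)]
      refine cos_le_cos_of_nonneg_of_le_pi (abs_nonneg _) (by linarith) ?_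
      rw [abs_le]
      constructor <;> linarith [ht.1, ht.2]
    linarith
  have h := hmono (⟨b0, by linarith⟩ : tF θ i ∈ Set.Icc (-((π - θ) / 2)) ((π - θ) / 2))
    (⟨by linarith, b1⟩ : tF θ (i + 1) ∈ Set.Icc (-((π - θ) / 2)) ((π - θ) / 2)) b2
  simp only at h
  unfold wM wP
  rw [if_pos hi]
  refine mul_nonneg (by positivity) ?_
  linarith

/-! ### The rows -/

/-- the check of a list on an interval -/
def chkL (p q : List (ℕ × ℕ)) (m : ℕ) (ε mu : ℤ) : Bool :=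
  (List.range 12).all fun i =>
    let a := p.getD i (0, 0)
    let b := q.getD i (0, 0)
    hiOK m i ε mu a.2 && hiOK (m + 1) i ε mu b.2 &&
      ((decide (i < 8) && Nat.beq a.1 0 && Nat.beq b.1 0) ||
        (loOK m i ε mu a.1 && loOK (m + 1) i ε mu b.1))

theorem chkL_sound {p q : List (ℕ × ℕ)} {m : ℕ} {ε mu : ℤ} (hm : m < 128)
    (hε : ε = 1 ∨ ε = 0 ∨ ε = -1) (hmu : mu = 0 ∨ mu = 1) (h : chkL p q m ε mu = true)
    {z : ℝ} (z0 : 0 ≤ z) (z1 : z ≤ 1)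
    (hn : ∀ i, i < 8 → 0 ≤ sgi mu i * wF ε mu i (thG m + z * hG)) :
    Between p q z (fun i => sgi mu i * wF ε mu i (thG m + z * hG)) := by
  intro i hi
  have h1 := List.all_eq_true.1 h i (List.mem_range.2 hi)
  simp only [Bool.and_eq_true, Bool.or_eq_true, decide_eq_true_eq, Nat.beq_eq] at h1
  obtain ⟨⟨h2, h3⟩, h4⟩ := h1
  constructor
  · unfold loW
    rcases h4 with ⟨⟨a1, a2⟩, a3⟩ | ⟨a1, a2⟩
    · rw [a2, a3]
      have := hn i a1
      push_cast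
      simp only [mul_zero, add_zero]
      positivity
    · exact lo_between hi hm hε hmu a1 a2 z0 z1
  · unfold hiW
    exact hi_between hi hm hε hmu h2 h3 z0 z1

/-- the check of two neighbouring rows -/
def chkR (p q : Row) (m : ℕ) : Bool :=
  chkL p.X q.X m 1 0 && chkL p.M q.M m 0 1 && chkL p.Y q.Y m (-1) 0 &&
    decide (|p.c * 1000 - sZ (256 - 4 * m)| ≤ 1500) &&
    decide (|q.c * 1000 - sZ (256 - 4 * (m + 1))| ≤ 1500) &&
    Nat.beq p.X.length 12 && Nat.beq p.M.length 12 && Nat.beq p.Y.length 12 &&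
    Nat.beq q.X.length 12 && Nat.beq q.M.length 12 && Nat.beq q.Y.length 12

theorem cos_node {m : ℕ} {c : ℤ} (hm : m ≤ 128) (h : |c * 1000 - sZ (256 - 4 * m)| ≤ 1500) :
    |10 ^ 9 * cos (thG m) - c| ≤ 29 / 10 := by
  have hm' : (m : ℤ) ≤ 128 := by exact_mod_cast hm
  have hm0 : (0 : ℤ) ≤ m := by positivity
  have b3 := sZ_ok (k := 256 - 4 * m) (by omega) (by omega)
  have f3 : cos (thG m) = sin (((256 - 4 * m : ℤ) : ℝ) * π / 512) := by
    rw [← sin_pi_div_two_sub]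
    congr 1
    unfold thG
    push_cast
    ring
  have h' : |(c : ℝ) * 1000 - sZ (256 - 4 * m)| ≤ 1500 := by exact_mod_cast h
  rw [f3]
  rw [abs_le] at *
  norm_num at b3 h' ⊢
  constructor <;> linarith [b3.1, b3.2, h'.1, h'.2]

theorem chkR_sound {row : ℕ → Row} {m : ℕ} (hm : m < 128) (h : chkR (row m) (row (m + 1)) m = true) :
    RowOK row m := by
  simp only [chkR, Bool.and_eq_true, decide_eq_true_eq, Nat.beq_eq] at h
  obtain ⟨⟨⟨⟨⟨⟨⟨⟨⟨⟨hX, hM⟩, hY⟩, hc0⟩, hc1⟩, l1⟩, l2⟩, l3⟩, l4⟩, l5⟩, l6⟩ := h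
  refine ⟨l1, l2, l3, l4, l5, l6, ?_⟩
  intro θ t0 t1
  have hh := hG_pos
  obtain ⟨z, hz⟩ : ∃ z, z = (θ - thG m) / hG := ⟨_, rfl⟩
  have z0 : 0 ≤ z := by
    rw [hz]
    exact div_nonneg (by linarith) hh.le
  have z1 : z ≤ 1 := by
    rw [hz, div_le_one hh]
    rw [thG_succ] at t1
    linarith
  have eθ : θ = thG m + z * hG := by
    rw [hz]
    field_simp
    ring
  have hθ0 : 0 ≤ θ := le_trans (thG_nonneg m) t0
  have hθ1 : θ ≤ π := t1.trans (thG_le (by omega))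
  refine ⟨z, z0, z1, ?_, ?_, ?_, ?_⟩
  · have n0 := cos_node hm.le hc0
    have n1 := cos_node (m := m + 1) (by omega) (by push_cast; exact hc1)
    rw [thG_succ] at n1
    have u := chord_low (f := cos) (f1 := fun x => -sin x) (f2 := fun x => -cos x)
      (a := thG m) (h := hG) (K := 1) (z := z) (fun x => hasDerivAt_cos x)
      (fun x => (hasDerivAt_sin x).neg) hh (by norm_num)
      (fun x _ _ => by linarith [neg_one_le_cos x]) z0 z1
    have v := chord_low (f := fun x => -cos x) (f1 := fun x => - -sin x) (f2 := fun x => - -cos x)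
      (a := thG m) (h := hG) (K := 1) (z := z) (fun x => (hasDerivAt_cos x).neg)
      (fun x => (hasDerivAt_sin x).neg.neg) hh (by norm_num)
      (fun x _ _ => by linarith [cos_le_one x]) z0 z1
    have e8 : 10 ^ 9 * (1 * hG ^ 2 / 8) ≤ 75300 := by
      obtain ⟨_, p2⟩ := pi_sq_bounds
      unfold hG
      norm_num
      linarith
    rw [← eθ] at u v
    beta_reduce at v
    rw [abs_le] at n0 n1 ⊢
    have k0 := mul_le_mul_of_nonneg_left n0.1 (by linarith : (0 : ℝ) ≤ 1 - z)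
    have k1 := mul_le_mul_of_nonneg_left n0.2 (by linarith : (0 : ℝ) ≤ 1 - z)
    have k2 := mul_le_mul_of_nonneg_left n1.1 z0
    have k3 := mul_le_mul_of_nonneg_left n1.2 z0
    constructor <;> nlinarith
  · have := chkL_sound hm (Or.inl rfl) (Or.inl rfl) hX z0 z1 (fun i hi => by
      have e := wX_eq (thG m + z * hG) (i := i) (by omega)
      have : (sgi 0 i : ℝ) = 1 := by
        unfold sgi
        rw [if_neg (by omega)]
        norm_num
      rw [this, one_mul, ← e, ← eθ]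
      exact wX_nonneg hθ1 hi)
    intro i hi
    have h2 := this i hi
    beta_reduce at h2
    have : (sgi 0 i : ℝ) = 1 := by
      unfold sgi
      rw [if_neg (by omega)]
      norm_num
    rw [this, one_mul, ← wX_eq _ hi, ← eθ] at h2
    exact h2
  · have := chkL_sound hm (Or.inr (Or.inl rfl)) (Or.inr rfl) hM z0 z1 (fun i hi => by
      rw [← wM_eq _ (by omega), ← eθ]
      exact wM_nonneg hθ0 hθ1 hi)
    intro i hi
    have h2 := this i hi
    beta_reduce at h2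
    rw [← wM_eq _ hi, ← eθ] at h2
    exact h2
  · have := chkL_sound hm (Or.inr (Or.inr rfl)) (Or.inl rfl) hY z0 z1 (fun i hi => by
      have e := wY_eq (thG m + z * hG) (i := i) (by omega)
      have : (sgi 0 i : ℝ) = 1 := by
        unfold sgi
        rw [if_neg (by omega)]
        norm_num
      rw [this, one_mul, ← e, ← eθ]
      exact wY_nonneg hθ1 hi)
    intro i hi
    have h2 := this i hi
    beta_reduce at h2
    have : (sgi 0 i : ℝ) = 1 := by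
      unfold sgi
      rw [if_neg (by omega)]
      norm_num
    rw [this, one_mul, ← wY_eq _ hi, ← eθ] at h2
    exact h2

end Pool.Agent.RRS
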