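import Pool.Agent.RRS.TubeDefs

/-!
# Package Tube-Pf: the integral of the positive part

*`tp_le`.* For `0 ≤ s`: if `s ≤ ε`: `sin (s + ε) ≤ (s + ε) - (s + ε)³/6 + (s + ε)⁵/120` and
`sin s ≥ s - s³/6`, so `sin (s + ε) - (9/4) sin s ≤ ε - (5/4) s - (s + ε)³/6 + (s + ε)⁵/120 +
  (3/8) s³ ≤
ε - (5/4) s`, because `s + ε ≥ 2 s`, `(s + ε)² ≤ 4 ε² ≤ 1/2`: `(s + ε)³ (1/6 - 1/240) ≥ 8 s³ *
  0.16 ≥
(3/8) s³`.  (The upper bound of `sin` with the fifth power holds for all `x ≥ 0`; it can be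
  replaced
by `sin x ≤ x - x³/8` for `0 ≤ x ≤ 1`: then `(s + ε)³/8 ≥ s³ ≥ (3/8) s³`.  `Real.sin_bound`:
`|sin x - (x - x³/6)| ≤ |x|⁴ * (5/96)` for `|x| ≤ 1` gives `sin x ≤ x - x³/8` for `x ≤ 4/5`.)
If `ε ≤ s ≤ π - ε`: the positive part is zero: for `s ≤ π / 2`, `sin s cos ε ≥ cos s sin ε` (`sin
  (s - ε) ≥
0`), so `sin (s + ε) ≤ 2 sin s cos ε ≤ 2 sin s`; for `s ≥ π / 2`, `cos s ≤ 0` and `sin (s + ε) ≤
  sin s`.

*`tp_int`.* On `[0, ε]`: `0 ≤ sin (s + ε) ≤ s + ε`, so the integrand is at most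
`(s + ε) * max (ε - (5/4) s) 0`, and it vanishes on `[ε, π - ε]`.  `∫ s in 0..ε, (s + ε) * max (ε
  -
(5/4) s) 0 = ∫ s in 0..(4/5) ε, (s + ε) (ε - (5/4) s) = (38/75) ε³ ≤ (51/100) ε³`
(split the integral at `(4/5) ε`).
*`tp_int2`.* Substitute `s ↦ π - ε - s` (`intervalIntegral.integral_comp_sub_left`): `sin (π - ε
  - s) =
sin (s + ε)`, `sin (π - ε - s + ε) = sin s`.

Difficulty: 1 h.
-/

set_option autoImplicit false

noncomputable section

namespace Pool.Agent.RRS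

open Real MeasureTheory

private theorem sin_up_TubePf {x : ℝ} (h0 : 0 ≤ x) (h1 : x ≤ 4 / 5) : sin x ≤ x - x ^ 3 / 8 := by
  have h2 : |x| ≤ 1 := by
    rw [abs_of_nonneg h0]
    linarith
  have h3 := (abs_le.1 (Real.sin_bound h2)).2
  rw [abs_of_nonneg h0] at h3
  have h5 : 0 ≤ x ^ 3 := by positivity
  have h4 : x ^ 5 / 100 ≤ x ^ 3 / 24 := by
    have h6 : x ^ 5 = x ^ 3 * (x * x) := by ring
    have h7 : x * x ≤ 1 := by nlinarith
    rw [h6]
    nlinarith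
  linarith

private theorem sin_lo_TubePf {x : ℝ} (h0 : 0 ≤ x) : x - x ^ 3 / 4 ≤ sin x := by
  rcases h0.eq_or_lt with h | h
  · rw [← h]
    simp
  · have h2 := Real.sin_gt_sub_cube h
    have h3 : 0 < x ^ 3 := by positivity
    linarith

theorem tp_le {ε s : ℝ} (h0 : 0 < ε) (h1 : ε ≤ 344 / 1000) (s0 : 0 ≤ s) (s1 : s ≤ π - ε) :
    max (sin (s + ε) - 9 / 4 * sin s) 0 ≤ max (ε - 5 / 4 * s) 0 := by
  rcases le_total s ε with h2 | h2
  · refine max_le_max ?_ le_rfl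
    have h3 := sin_up_TubePf (x := s + ε) (by linarith) (by linarith)
    have h4 := sin_lo_TubePf (x := s) s0
    have h5 : (2 * s) ^ 3 ≤ (s + ε) ^ 3 := pow_le_pow_left₀ (by linarith) (by linarith) 3
    have h6 : 0 ≤ s ^ 3 := by positivity
    nlinarith
  · refine le_trans (max_le ?_ le_rfl) (le_max_right _ _)
    have h3 : 0 ≤ sin (s - ε) := sin_nonneg_of_nonneg_of_le_pi (by linarith) (by linarith)
    have h4 : 0 ≤ sin s := sin_nonneg_of_nonneg_of_le_pi s0 (by linarith)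
    rw [sin_sub] at h3
    rw [sin_add]
    have h5 : sin s * cos ε ≤ sin s * 1 := mul_le_mul_of_nonneg_left (cos_le_one ε) h4
    linarith

private theorem int_TubePf {ε : ℝ} (h0 : 0 < ε) (h1 : ε ≤ 344 / 1000) :
    ∫ s in (0 : ℝ)..(π - ε), (s + ε) * max (ε - 5 / 4 * s) 0 = 38 / 75 * ε ^ 3 := by
  have hc : Continuous fun s : ℝ => (s + ε) * max (ε - 5 / 4 * s) 0 := by fun_prop
  have hpi : 3 < π := Real.pi_gt_three
  rw [← intervalIntegral.integral_add_adjacent_intervals (b := 4 / 5 * ε)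
    (hc.intervalIntegrable _ _) (hc.intervalIntegrable _ _)]
  have h2 : ∫ s in (4 / 5 * ε)..(π - ε), (s + ε) * max (ε - 5 / 4 * s) 0 = 0 := by
    rw [intervalIntegral.integral_congr (g := fun _ => (0 : ℝ))]
    · simp
    · intro s hs
      rw [Set.uIcc_of_le (by linarith)] at hs
      have h3 : max (ε - 5 / 4 * s) 0 = 0 := max_eq_right (by linarith [hs.1])
      simp only
      rw [h3, mul_zero]
  have h3 : ∫ s in (0 : ℝ)..(4 / 5 * ε), (s + ε) * max (ε - 5 / 4 * s) 0 =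
      ∫ s in (0 : ℝ)..(4 / 5 * ε), (s + ε) * (ε - 5 / 4 * s) := by
    apply intervalIntegral.integral_congr
    intro s hs
    rw [Set.uIcc_of_le (by linarith)] at hs
    have h4 : max (ε - 5 / 4 * s) 0 = ε - 5 / 4 * s := max_eq_left (by linarith [hs.2])
    simp only
    rw [h4]
  have h4 : ∫ s in (0 : ℝ)..(4 / 5 * ε), (s + ε) * (ε - 5 / 4 * s) =
      (ε ^ 2 * (4 / 5 * ε) - 1 / 8 * ε * (4 / 5 * ε) ^ 2 - 5 / 12 * (4 / 5 * ε) ^ 3) -
        (ε ^ 2 * 0 - 1 / 8 * ε * 0 ^ 2 - 5 / 12 * 0 ^ 3) := by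
    apply intervalIntegral.integral_eq_sub_of_hasDerivAt
      (f := fun s => ε ^ 2 * s - 1 / 8 * ε * s ^ 2 - 5 / 12 * s ^ 3)
    · intro s _
      have e1 : HasDerivAt (fun s : ℝ => ε ^ 2 * s) (ε ^ 2 * 1) s :=
        (hasDerivAt_id s).const_mul _
      have e2 : HasDerivAt (fun s : ℝ => 1 / 8 * ε * s ^ 2) (1 / 8 * ε * (2 * s)) s := by
        have := (hasDerivAt_pow 2 s).const_mul (1 / 8 * ε)
        simpa using this
      have e3 : HasDerivAt (fun s : ℝ => 5 / 12 * s ^ 3) (5 / 12 * (3 * s ^ 2)) s := by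
        have := (hasDerivAt_pow 3 s).const_mul (5 / 12 : ℝ)
        simpa using this
      have e4 := (e1.sub e2).sub e3
      refine e4.congr_deriv ?_
      ring
    · exact (Continuous.intervalIntegrable (by fun_prop) _ _)
  rw [h2, h3, h4]
  ring

theorem tp_int {ε : ℝ} (h0 : 0 < ε) (h1 : ε ≤ 344 / 1000) :
    ∫ s in (0 : ℝ)..(π - ε), sin (s + ε) * max (sin (s + ε) - 9 / 4 * sin s) 0 ≤
      51 / 100 * ε ^ 3 := by
  have hpi : 3 < π := Real.pi_gt_three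
  have hc : Continuous fun s : ℝ => (s + ε) * max (ε - 5 / 4 * s) 0 := by fun_prop
  have hd : Continuous fun s : ℝ => sin (s + ε) * max (sin (s + ε) - 9 / 4 * sin s) 0 := by
    fun_prop
  have h2 : ∫ s in (0 : ℝ)..(π - ε), sin (s + ε) * max (sin (s + ε) - 9 / 4 * sin s) 0 ≤
      ∫ s in (0 : ℝ)..(π - ε), (s + ε) * max (ε - 5 / 4 * s) 0 := by
    refine intervalIntegral.integral_mono_on (by linarith) (hd.intervalIntegrable _ _)
      (hc.intervalIntegrable _ _) fun s hs => ?_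
    have h3 : 0 ≤ sin (s + ε) :=
      sin_nonneg_of_nonneg_of_le_pi (by linarith [hs.1]) (by linarith [hs.2])
    have h4 : sin (s + ε) ≤ s + ε := sin_le (by linarith [hs.1])
    have h5 := tp_le h0 h1 hs.1 hs.2
    exact mul_le_mul h4 h5 (le_max_right _ _) (by linarith [hs.1])
  rw [int_TubePf h0 h1] at h2
  refine h2.trans ?_
  have h3 : 0 < ε ^ 3 := by positivity
  linarith

theorem tp_int2 {ε : ℝ} (h0 : 0 < ε) (h1 : ε ≤ 344 / 1000) :
    ∫ s in (0 : ℝ)..(π - ε), sin s * max (sin s - 9 / 4 * sin (s + ε)) 0 ≤ 51 / 100 * ε ^ 3 := by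
  refine le_trans (le_of_eq ?_) (tp_int h0 h1)
  have h2 := intervalIntegral.integral_comp_sub_left (a := 0) (b := π - ε)
    (fun s : ℝ => sin (s + ε) * max (sin (s + ε) - 9 / 4 * sin s) 0) (π - ε)
  rw [sub_self, sub_zero] at h2
  rw [← h2]
  apply intervalIntegral.integral_congr
  intro s _
  have e1 : sin (π - ε - s + ε) = sin s := by
    rw [show π - ε - s + ε = π - s by ring, sin_pi_sub]
  have e2 : sin (π - ε - s) = sin (s + ε) := by
    rw [show π - ε - s = π - (s + ε) by ring, sin_pi_sub]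
  simp only
  rw [e1, e2]

end Pool.Agent.RRS
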