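import Pool.Agent.RRS.TubeInt
import Pool.Agent.RRS.TubePf

/-!
# Package Tube-HoInt: the integral of the form over the opposite quadrants

`X = R1 sin s`, `Y = R2 sin (s + ε)`, `T.r R1 = R2`, `0 ≤ s ≤ π - ε`, so `Y - T.r X = R2 (sin (s
  + ε) -
sin s)`, which is `≥ 0` iff `s ≤ (π - ε) / 2` (`sin (s + ε) - sin s = 2 sin (ε / 2) cos (s + ε /
  2)`).
The integral is the sum of the integrals of the seven terms of `T.Ho` (all continuous):

1. `u X Y`: `ti_1`.
2. `mu max (Y - r X) 0 ^ 2`: it is `mu R2 ^ 2 (sin (s + ε) - sin s) ^ 2` on `[0, (π - ε) / 2]`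
  and `0` on the
   rest: `ti_2`.  (Equality, no sign of `mu` is needed.)
3. `X max (g1 X - u Y) 0 / 4 ≤ (g1 R1 ^ 2 / 4) sin s max (sin s - (9/4) sin (s + ε)) 0`, because
  `u R2 ≥
   (9/4) g1 R1` (hypothesis `P1`) and `sin (s + ε) ≥ 0`: `tp_int2`.
4. `Y max (g2 Y - u X) 0 / 4 ≤ (g2 R2 ^ 2 / 4) sin (s + ε) max (sin (s + ε) - (9/4) sin s) 0`:
  `tp_int`.
5. `- et Y ^ 2`: `ti_4`.
6. `n2 Y max (Y - r X) 0`: `n2 R2 ^ 2 sin (s + ε) (sin (s + ε) - sin s)` on the first half, `0`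
  on the
   second: `ti_3`.
7. `et (X - Y) max (r X - Y) 0`: `0` on the first half, `et R2 (R1 sin s - R2 sin (s + ε)) (sin s
  -
   sin (s + ε))` on the second half; substitute `s ↦ π - ε - s` (`sin (π - ε - s) = sin (s + ε)`,
   `sin (π - s) = sin s`): `et R2 ∫ s in 0..(π-ε)/2, (R1 sin (s + ε) - R2 sin s) (sin (s + ε) -
  sin s)`
   `= et R2 ((R1 - R2) ∫ sin (s + ε) (sin (s + ε) - sin s) + R2 ∫ (sin (s + ε) - sin s) ^ 2)`:
   `ti_3`, `ti_2`.

It is convenient to prove for each of the seven terms one private lemma.  The imports may be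
  stubs.

Proved (helper91).
-/

set_option autoImplicit false

noncomputable section

namespace Pool.Agent.RRS

open Real MeasureTheory

private theorem mM_TubeHoInt {ε s : ℝ} (s0 : 0 ≤ s) (s1 : s ≤ (π - ε) / 2)
    (e0 : 0 < ε) : 0 ≤ sin (s + ε) - sin s := by
  have h := sin_sub_sin (s + ε) s
  have e2 : (s + ε - s) / 2 = ε / 2 := by ring
  have e3 : (s + ε + s) / 2 = s + ε / 2 := by ring
  rw [e2, e3] at h
  rw [h]
  have h1 : 0 ≤ sin (ε / 2) := sin_nonneg_of_nonneg_of_le_pi (by linarith) (by linarith)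
  have h2 : 0 ≤ cos (s + ε / 2) := cos_nonneg_of_mem_Icc ⟨by linarith, by linarith⟩
  positivity

private theorem mN_TubeHoInt {ε s : ℝ} (s0 : (π - ε) / 2 ≤ s) (s1 : s ≤ π - ε)
    (e0 : 0 < ε) (e1 : ε ≤ 344 / 1000) : sin (s + ε) - sin s ≤ 0 := by
  have hpi : 3 < π := Real.pi_gt_three
  have h := mM_TubeHoInt (ε := ε) (s := π - ε - s) (by linarith) (by linarith) e0
  have e2 : sin (π - ε - s + ε) = sin s := by
    rw [show π - ε - s + ε = π - s by ring, sin_pi_sub]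
  have e3 : sin (π - ε - s) = sin (s + ε) := by
    rw [show π - ε - s = π - (s + ε) by ring, sin_pi_sub]
  rw [e2, e3] at h
  linarith

/-- half of the interval, for a function with the factor `max (V - U) 0` -/
private theorem half_TubeHoInt {ε : ℝ} (e0 : 0 < ε) (e1 : ε ≤ 344 / 1000) (f g : ℝ → ℝ)
    (hf : Continuous f)
    (h1 : ∀ s, 0 ≤ s → s ≤ (π - ε) / 2 → f s = g s)
    (h2 : ∀ s, (π - ε) / 2 ≤ s → s ≤ π - ε → f s = 0) :
    ∫ s in (0 : ℝ)..(π - ε), f s = ∫ s in (0 : ℝ)..((π - ε) / 2), g s := by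
  have hpi : 3 < π := Real.pi_gt_three
  rw [← intervalIntegral.integral_add_adjacent_intervals (b := (π - ε) / 2)
    (hf.intervalIntegrable _ _) (hf.intervalIntegrable _ _)]
  have h3 : ∫ s in ((π - ε) / 2)..(π - ε), f s = 0 := by
    rw [intervalIntegral.integral_congr (g := fun _ => (0 : ℝ))]
    · simp
    · intro s hs
      rw [Set.uIcc_of_le (by linarith)] at hs
      exact h2 s hs.1 hs.2
  have h4 : ∫ s in (0 : ℝ)..((π - ε) / 2), f s = ∫ s in (0 : ℝ)..((π - ε) / 2), g s := by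
    apply intervalIntegral.integral_congr
    intro s hs
    rw [Set.uIcc_of_le (by linarith)] at hs
    exact h1 s hs.1 hs.2
  rw [h3, h4, add_zero]

private theorem i2_TubeHoInt {ε : ℝ} (e0 : 0 < ε) (e1 : ε ≤ 344 / 1000) :
    ∫ s in (0 : ℝ)..(π - ε), max (sin (s + ε) - sin s) 0 ^ 2 =
      (1 - cos ε) * (π - ε - sin ε) / 2 := by
  rw [← ti_2 ε]
  refine half_TubeHoInt e0 e1 _ _ (by fun_prop) (fun s s0 s1 => ?_) (fun s s0 s1 => ?_)
  · rw [max_eq_left (mM_TubeHoInt s0 s1 e0)]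
  · rw [max_eq_right (mN_TubeHoInt s0 s1 e0 e1)]
    ring

private theorem i3_TubeHoInt {ε : ℝ} (e0 : 0 < ε) (e1 : ε ≤ 344 / 1000) :
    ∫ s in (0 : ℝ)..(π - ε), sin (s + ε) * max (sin (s + ε) - sin s) 0 =
      sin ε * cos ε / 2 + (π - ε) * (1 - cos ε) / 4 := by
  rw [← ti_3 ε]
  refine half_TubeHoInt e0 e1 _ _ (by fun_prop) (fun s s0 s1 => ?_) (fun s s0 s1 => ?_)
  · rw [max_eq_left (mM_TubeHoInt s0 s1 e0)]
  · rw [max_eq_right (mN_TubeHoInt s0 s1 e0 e1)]
    ring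

private theorem i7_TubeHoInt {ε : ℝ} (e0 : 0 < ε) (e1 : ε ≤ 344 / 1000) (R1 R2 : ℝ) :
    ∫ s in (0 : ℝ)..(π - ε), (R1 * sin s - R2 * sin (s + ε)) * max (sin s - sin (s + ε)) 0 =
      (R1 - R2) * (sin ε * cos ε / 2 + (π - ε) * (1 - cos ε) / 4) +
        R2 * ((1 - cos ε) * (π - ε - sin ε) / 2) := by
  have h2 := intervalIntegral.integral_comp_sub_left (a := 0) (b := π - ε)
    (fun s : ℝ => (R1 * sin s - R2 * sin (s + ε)) * max (sin s - sin (s + ε)) 0) (π - ε)
  rw [sub_self, sub_zero] at h2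
  rw [← h2, ← i2_TubeHoInt e0 e1, ← i3_TubeHoInt e0 e1,
    ← intervalIntegral.integral_const_mul, ← intervalIntegral.integral_const_mul,
    ← intervalIntegral.integral_add
      (Continuous.intervalIntegrable (by fun_prop) _ _)
      (Continuous.intervalIntegrable (by fun_prop) _ _)]
  apply intervalIntegral.integral_congr
  intro s _
  have e2 : sin (π - ε - s + ε) = sin s := by
    rw [show π - ε - s + ε = π - s by ring, sin_pi_sub]
  have e3 : sin (π - ε - s) = sin (s + ε) := by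
    rw [show π - ε - s = π - (s + ε) by ring, sin_pi_sub]
  simp only
  rw [e2, e3]
  rcases le_total (sin s) (sin (s + ε)) with h | h
  · rw [max_eq_left (by linarith)]
    ring
  · rw [max_eq_right (by linarith)]
    ring

private theorem pm_TubeHoInt {g w U V R : ℝ} (hR : 0 < R) (hg : 0 ≤ g) (hU : 0 ≤ U)
    (hV : 0 ≤ V) (hw : 9 / 4 * (g * R) ≤ w) :
    R * U * max (g * (R * U) - w * V) 0 / 4 ≤ g * R ^ 2 / 4 * (U * max (U - 9 / 4 * V) 0) := by
  have h1 : max (g * (R * U) - w * V) 0 ≤ g * R * max (U - 9 / 4 * V) 0 := by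
    apply max_le
    · have h2 : g * R * (U - 9 / 4 * V) ≤ g * R * max (U - 9 / 4 * V) 0 :=
        mul_le_mul_of_nonneg_left (le_max_left _ _) (by positivity)
      have h3 : 9 / 4 * (g * R) * V ≤ w * V := mul_le_mul_of_nonneg_right hw hV
      linarith
    · exact mul_nonneg (by positivity) (le_max_right _ _)
  have h2 : R * U * max (g * (R * U) - w * V) 0 ≤ R * U * (g * R * max (U - 9 / 4 * V) 0) :=
    mul_le_mul_of_nonneg_left h1 (by positivity)
  calc R * U * max (g * (R * U) - w * V) 0 / 4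
      ≤ R * U * (g * R * max (U - 9 / 4 * V) 0) / 4 := by linarith
    _ = g * R ^ 2 / 4 * (U * max (U - 9 / 4 * V) 0) := by ring

theorem TP.Ho_int_le (T : TP) {R1 R2 ε : ℝ} (h1 : 0 < R1) (h2 : 0 < R2) (e0 : 0 < ε)
    (e1 : ε ≤ 344 / 1000) (hr : T.r * R1 = R2) (g1 : 0 ≤ T.g1) (g2 : 0 ≤ T.g2)
    (P1 : 9 / 4 * (T.g1 * R1) ≤ T.u * R2) (P2 : 9 / 4 * (T.g2 * R2) ≤ T.u * R1) :
    ∫ s in (0 : ℝ)..(π - ε), T.Ho (R1 * sin s) (R2 * sin (s + ε)) ≤
      T.u * (R1 * R2) * (((π - ε) * cos ε + sin ε) / 2) +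
      T.mu * R2 ^ 2 * ((1 - cos ε) * (π - ε - sin ε) / 2) +
      (T.g1 * R1 ^ 2 + T.g2 * R2 ^ 2) * (51 / 400 * ε ^ 3) -
      T.et * R2 ^ 2 * (π / 2 - (ε - sin ε * cos ε) / 2) +
      (T.n2 * R2 ^ 2 + T.et * (R2 * (R1 - R2))) *
        (sin ε * cos ε / 2 + (π - ε) * (1 - cos ε) / 4) +
      T.et * R2 ^ 2 * ((1 - cos ε) * (π - ε - sin ε) / 2) := by
  have hpi : 3 < π := Real.pi_gt_three
  have hm : ∀ a b : ℝ, max (R2 * a - R2 * b) 0 = R2 * max (a - b) 0 := by
    intro a b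
    rw [← mul_sub, mul_max_of_nonneg _ _ h2.le, mul_zero]
  have hle : ∫ s in (0 : ℝ)..(π - ε), T.Ho (R1 * sin s) (R2 * sin (s + ε)) ≤
      ∫ s in (0 : ℝ)..(π - ε), (T.u * (R1 * R2) * (sin s * sin (s + ε)) +
        T.mu * R2 ^ 2 * max (sin (s + ε) - sin s) 0 ^ 2 +
        T.g1 * R1 ^ 2 / 4 * (sin s * max (sin s - 9 / 4 * sin (s + ε)) 0) +
        T.g2 * R2 ^ 2 / 4 * (sin (s + ε) * max (sin (s + ε) - 9 / 4 * sin s) 0) -
        T.et * R2 ^ 2 * sin (s + ε) ^ 2 +
        T.n2 * R2 ^ 2 * (sin (s + ε) * max (sin (s + ε) - sin s) 0) +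
        T.et * R2 * ((R1 * sin s - R2 * sin (s + ε)) * max (sin s - sin (s + ε)) 0)) := by
    refine intervalIntegral.integral_mono_on (by linarith)
      (Continuous.intervalIntegrable (by unfold TP.Ho; fun_prop) _ _)
      (Continuous.intervalIntegrable (by fun_prop) _ _) fun s hs => ?_
    have hU : 0 ≤ sin s := sin_nonneg_of_nonneg_of_le_pi hs.1 (by linarith [hs.2])
    have hV : 0 ≤ sin (s + ε) :=
      sin_nonneg_of_nonneg_of_le_pi (by linarith [hs.1]) (by linarith [hs.2])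
    have k3 := pm_TubeHoInt (g := T.g1) (w := T.u * R2) h1 g1 hU hV P1
    have k4 := pm_TubeHoInt (g := T.g2) (w := T.u * R1) h2 g2 hV hU P2
    unfold TP.Ho
    have f1 : T.r * (R1 * sin s) = R2 * sin s := by rw [← mul_assoc, hr]
    have f2 : T.u * (R2 * sin (s + ε)) = T.u * R2 * sin (s + ε) := by ring
    have f3 : T.u * (R1 * sin s) = T.u * R1 * sin s := by ring
    rw [f1, f2, f3, hm, hm]
    have l1 : T.u * (R1 * sin s * (R2 * sin (s + ε))) =
        T.u * (R1 * R2) * (sin s * sin (s + ε)) := by ring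
    have l2 : T.mu * (R2 * max (sin (s + ε) - sin s) 0) ^ 2 =
        T.mu * R2 ^ 2 * max (sin (s + ε) - sin s) 0 ^ 2 := by ring
    have l5 : T.et * (R2 * sin (s + ε)) ^ 2 = T.et * R2 ^ 2 * sin (s + ε) ^ 2 := by ring
    have l6 : T.n2 * (R2 * sin (s + ε) * (R2 * max (sin (s + ε) - sin s) 0)) =
        T.n2 * R2 ^ 2 * (sin (s + ε) * max (sin (s + ε) - sin s) 0) := by ring
    have l7 : T.et * ((R1 * sin s - R2 * sin (s + ε)) *
        (R2 * max (sin s - sin (s + ε)) 0)) =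
        T.et * R2 * ((R1 * sin s - R2 * sin (s + ε)) * max (sin s - sin (s + ε)) 0) := by
      ring
    rw [l1, l2, l5, l6, l7]
    linarith
  refine hle.trans ?_
  have ii : ∀ f : ℝ → ℝ, Continuous f → IntervalIntegrable f volume 0 (π - ε) :=
    fun f hf => hf.intervalIntegrable _ _
  rw [intervalIntegral.integral_add (ii _ (by fun_prop)) (ii _ (by fun_prop)),
    intervalIntegral.integral_add (ii _ (by fun_prop)) (ii _ (by fun_prop)),
    intervalIntegral.integral_sub (ii _ (by fun_prop)) (ii _ (by fun_prop)),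
    intervalIntegral.integral_add (ii _ (by fun_prop)) (ii _ (by fun_prop)),
    intervalIntegral.integral_add (ii _ (by fun_prop)) (ii _ (by fun_prop)),
    intervalIntegral.integral_add (ii _ (by fun_prop)) (ii _ (by fun_prop)),
    intervalIntegral.integral_const_mul, intervalIntegral.integral_const_mul,
    intervalIntegral.integral_const_mul, intervalIntegral.integral_const_mul,
    intervalIntegral.integral_const_mul, intervalIntegral.integral_const_mul,
    intervalIntegral.integral_const_mul, ti_1, i2_TubeHoInt e0 e1, ti_4,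
    i3_TubeHoInt e0 e1, i7_TubeHoInt e0 e1]
  have q3 := mul_le_mul_of_nonneg_left (tp_int2 e0 e1) (show 0 ≤ T.g1 * R1 ^ 2 / 4 by positivity)
  have q4 := mul_le_mul_of_nonneg_left (tp_int e0 e1) (show 0 ≤ T.g2 * R2 ^ 2 / 4 by positivity)
  linarith

end Pool.Agent.RRS
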