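import Pool.Agent.RRS.TubeInt

/-!
# Package Tube-HsInt: the integral of the form over the equal quadrants

`X = R1 sin s`, `Y = R2 sin (ε - s)`, `0 ≤ s ≤ ε`.  `∫ h1 X ^ 2`: `ti_5`; `∫ h3 Y ^ 2`: `ti_6`.
`∫ h4 min X Y ^ 2`, `h4 ≥ 0`: split at `ε / 2`.  On `[ε / 2, ε]`: `min ^ 2 ≤ Y ^ 2`: `ti_8`.  On
  `[0, ε / 2]`:
`min ^ 2 ≤ X ^ 2` (`ti_7`) or `min ^ 2 ≤ X Y` (`ti_9`), by the two cases of `hM`.

Difficulty: 0.5 h.
-/

set_option autoImplicit false

noncomputable section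

namespace Pool.Agent.RRS

open Real MeasureTheory

private theorem cont_min_TubeHsInt (R1 R2 ε : ℝ) :
    Continuous (fun s : ℝ => min (R1 * sin s) (R2 * sin (ε - s)) ^ 2) := by
  fun_prop

private theorem min_le_Y_TubeHsInt {X Y : ℝ} (hX : 0 ≤ X) (hY : 0 ≤ Y) : min X Y ^ 2 ≤ Y ^ 2 := by
  have h0 : 0 ≤ min X Y := le_min hX hY
  exact pow_le_pow_left₀ h0 (min_le_right _ _) 2

private theorem min_le_X_TubeHsInt {X Y : ℝ} (hX : 0 ≤ X) (hY : 0 ≤ Y) : min X Y ^ 2 ≤ X ^ 2 := by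
  have h0 : 0 ≤ min X Y := le_min hX hY
  exact pow_le_pow_left₀ h0 (min_le_left _ _) 2

private theorem min_le_XY_TubeHsInt {X Y : ℝ} (hX : 0 ≤ X) (hY : 0 ≤ Y) :
    min X Y ^ 2 ≤ X * Y := by
  have h0 : 0 ≤ min X Y := le_min hX hY
  rw [sq]
  exact mul_le_mul (min_le_left _ _) (min_le_right _ _) h0 hX

/-- the first half -/
private theorem half1_TubeHsInt {R1 R2 ε M : ℝ} (h1 : 0 < R1) (h2 : 0 < R2) (e0 : 0 < ε)
    (e1 : ε ≤ 344 / 1000)
    (hM : R1 ^ 2 * (ε - sin ε) ≤ M ∨ R1 * R2 * (sin ε - ε * cos ε) ≤ M) :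
    ∫ s in (0 : ℝ)..(ε / 2), min (R1 * sin s) (R2 * sin (ε - s)) ^ 2 ≤ M / 4 := by
  have hpi : ε < π := by linarith [Real.pi_gt_three]
  have hs : ∀ s ∈ Set.Icc (0 : ℝ) (ε / 2), 0 ≤ R1 * sin s ∧ 0 ≤ R2 * sin (ε - s) := by
    intro s hs
    constructor
    · exact mul_nonneg h1.le (sin_nonneg_of_nonneg_of_le_pi hs.1 (by linarith [hs.2]))
    · exact mul_nonneg h2.le (sin_nonneg_of_nonneg_of_le_pi (by linarith [hs.2])
        (by linarith [hs.1]))
  have he : (0 : ℝ) ≤ ε / 2 := by linarith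
  rcases hM with h | h
  · calc ∫ s in (0 : ℝ)..(ε / 2), min (R1 * sin s) (R2 * sin (ε - s)) ^ 2
        ≤ ∫ s in (0 : ℝ)..(ε / 2), R1 ^ 2 * sin s ^ 2 := by
          apply intervalIntegral.integral_mono_on he
          · exact (cont_min_TubeHsInt R1 R2 ε).intervalIntegrable _ _
          · exact Continuous.intervalIntegrable (by fun_prop) _ _
          · intro s h3
            have h4 := min_le_X_TubeHsInt (hs s h3).1 (hs s h3).2
            calc _ ≤ _ := h4
              _ = _ := by ring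
      _ = R1 ^ 2 * ((ε - sin ε) / 4) := by
          rw [intervalIntegral.integral_const_mul, ti_7]
      _ ≤ M / 4 := by linarith
  · calc ∫ s in (0 : ℝ)..(ε / 2), min (R1 * sin s) (R2 * sin (ε - s)) ^ 2
        ≤ ∫ s in (0 : ℝ)..(ε / 2), (R1 * R2) * (sin s * sin (ε - s)) := by
          apply intervalIntegral.integral_mono_on he
          · exact (cont_min_TubeHsInt R1 R2 ε).intervalIntegrable _ _
          · exact Continuous.intervalIntegrable (by fun_prop) _ _
          · intro s h3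
            have h4 := min_le_XY_TubeHsInt (hs s h3).1 (hs s h3).2
            calc _ ≤ _ := h4
              _ = _ := by ring
      _ = (R1 * R2) * ((sin ε - ε * cos ε) / 4) := by
          rw [intervalIntegral.integral_const_mul, ti_9]
      _ ≤ M / 4 := by linarith

/-- the second half -/
private theorem half2_TubeHsInt {R1 R2 ε : ℝ} (h1 : 0 < R1) (h2 : 0 < R2) (e0 : 0 < ε)
    (e1 : ε ≤ 344 / 1000) :
    ∫ s in (ε / 2)..ε, min (R1 * sin s) (R2 * sin (ε - s)) ^ 2 ≤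
      R2 ^ 2 * ((ε - sin ε) / 4) := by
  have hpi : ε < π := by linarith [Real.pi_gt_three]
  have he : ε / 2 ≤ ε := by linarith
  calc ∫ s in (ε / 2)..ε, min (R1 * sin s) (R2 * sin (ε - s)) ^ 2
      ≤ ∫ s in (ε / 2)..ε, R2 ^ 2 * sin (ε - s) ^ 2 := by
        apply intervalIntegral.integral_mono_on he
        · exact (cont_min_TubeHsInt R1 R2 ε).intervalIntegrable _ _
        · exact Continuous.intervalIntegrable (by fun_prop) _ _
        · intro s hs
          have h3 : 0 ≤ R1 * sin s :=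
            mul_nonneg h1.le (sin_nonneg_of_nonneg_of_le_pi (by linarith [hs.1])
              (by linarith [hs.2]))
          have h4 : 0 ≤ R2 * sin (ε - s) :=
            mul_nonneg h2.le (sin_nonneg_of_nonneg_of_le_pi (by linarith [hs.2])
              (by linarith [hs.1]))
          have h5 := min_le_Y_TubeHsInt h3 h4
          calc _ ≤ _ := h5
            _ = _ := by ring
    _ = R2 ^ 2 * ((ε - sin ε) / 4) := by
        rw [intervalIntegral.integral_const_mul, ti_8]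

theorem TP.Hs_int_le (T : TP) {R1 R2 ε M : ℝ} (h1 : 0 < R1) (h2 : 0 < R2) (e0 : 0 < ε)
    (e1 : ε ≤ 344 / 1000) (h4 : 0 ≤ T.h4)
    (hM : R1 ^ 2 * (ε - sin ε) ≤ M ∨ R1 * R2 * (sin ε - ε * cos ε) ≤ M) :
    ∫ s in (0 : ℝ)..ε, T.Hs (R1 * sin s) (R2 * sin (ε - s)) ≤
      (T.h1 * R1 ^ 2 + T.h3 * R2 ^ 2) * ((ε - sin ε * cos ε) / 2) +
      T.h4 * ((R2 ^ 2 * (ε - sin ε) + M) / 4) := by
  have hsplit : ∫ s in (0 : ℝ)..ε, min (R1 * sin s) (R2 * sin (ε - s)) ^ 2 =
      (∫ s in (0 : ℝ)..(ε / 2), min (R1 * sin s) (R2 * sin (ε - s)) ^ 2) +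
      ∫ s in (ε / 2)..ε, min (R1 * sin s) (R2 * sin (ε - s)) ^ 2 := by
    rw [intervalIntegral.integral_add_adjacent_intervals]
    · exact (cont_min_TubeHsInt R1 R2 ε).intervalIntegrable _ _
    · exact (cont_min_TubeHsInt R1 R2 ε).intervalIntegrable _ _
  have hmin : ∫ s in (0 : ℝ)..ε, min (R1 * sin s) (R2 * sin (ε - s)) ^ 2 ≤
      (R2 ^ 2 * (ε - sin ε) + M) / 4 := by
    rw [hsplit]
    have a1 := half1_TubeHsInt h1 h2 e0 e1 hM
    have a2 := half2_TubeHsInt h1 h2 e0 e1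
    linarith
  have hcongr : ∫ s in (0 : ℝ)..ε, T.Hs (R1 * sin s) (R2 * sin (ε - s)) =
      ∫ s in (0 : ℝ)..ε, ((T.h1 * R1 ^ 2) * sin s ^ 2 + (T.h3 * R2 ^ 2) * sin (ε - s) ^ 2) +
        T.h4 * min (R1 * sin s) (R2 * sin (ε - s)) ^ 2 := by
    congr 1
    funext s
    simp only [TP.Hs]
    ring
  rw [hcongr]
  rw [intervalIntegral.integral_add, intervalIntegral.integral_add,
    intervalIntegral.integral_const_mul, intervalIntegral.integral_const_mul,
    intervalIntegral.integral_const_mul, ti_5, ti_6]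
  · have a3 := mul_le_mul_of_nonneg_left hmin h4
    linarith
  · exact Continuous.intervalIntegrable (by fun_prop) _ _
  · exact Continuous.intervalIntegrable (by fun_prop) _ _
  · exact Continuous.intervalIntegrable (by fun_prop) _ _
  · exact Continuous.intervalIntegrable
      (continuous_const.mul (cont_min_TubeHsInt R1 R2 ε)) _ _

end Pool.Agent.RRS
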