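import Mathlib

/-!
# Package Tube-Trig: elementary bounds for `0 < ε ≤ 0.344`

Taylor: `ε - ε³/6 ≤ sin ε ≤ ε - ε³/6 + ε⁵/120`, `1 - ε²/2 + ε⁴/24 - ε⁶/720 ≤ cos ε ≤ 1 - ε²/2 +
  ε⁴/24`, and
`sin ε ≥ ε - ε³/6 + ε⁵/120 - ε⁷/5040` (all for `0 ≤ ε ≤ 1`; e.g. by integrating `cos ≤ 1`
  repeatedly, with
`monotoneOn_of_deriv_nonneg`, or from `Real.sin_bound`, `Real.cos_bound` style results, or
`Complex.norm_exp_sub_sum_le_norm_mul_exp`).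

* `tt_a`: `sin ε - ε cos ε ≤ ε³/3 - ε⁵/30 + ε⁷/720`, `(2/3) ε (1 - cos ε) ≥ ε³/3 - ε⁵/36`.
* `tt_b`: `sin ε cos ε = sin (2 ε) / 2 ≥ ε - 2 ε³/3 + 2 ε⁵/15 - 4 ε⁷/315`, `(4/3) ε (1 - cos ε) ≥
  2 ε³/3 -
  ε⁵/18`.
* `tt_c`: `ε - sin ε ≤ ε³/6 - ε⁵/120 + ε⁷/5040`, `(67/200) ε (1 - cos ε) ≥ (67/200) (ε³/2 -
  ε⁵/24)`.
  (`0.1675 - 1/6 = 0.000833 ≥ (0.335/24 - 1/120) ε² = 0.005625 ε²` for `ε² ≤ 0.148`; here `ε² ≤
  0.1184`.)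
* `tt_d`: `1 - cos ε ≥ ε²/2 - ε⁴/24`, `1.01 - 0.0842 ε² ≥ 1` for `ε² ≤ 0.1184`.
* `tt_e`: `sin ε ≥ ε - ε³/6 ≥ 0.98 ε`.
* `tt_f`: `Real.one_sub_sq_div_two_le_cos`.

Difficulty: 0.6 h.
-/

set_option autoImplicit false

noncomputable section

namespace Pool.Agent.RRS

open Real

private theorem nonneg_TubeTrig {f f' : ℝ → ℝ} (hf : ∀ x, HasDerivAt f (f' x) x)
    (h0 : f 0 = 0) (hp : ∀ x, 0 ≤ x → 0 ≤ f' x) (x : ℝ) (hx : 0 ≤ x) : 0 ≤ f x := by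
  have hm : MonotoneOn f (Set.Ici 0) := by
    refine monotoneOn_of_deriv_nonneg (convex_Ici 0)
      (fun y _ => (hf y).continuousAt.continuousWithinAt)
      (fun y _ => (hf y).differentiableAt.differentiableWithinAt) ?_
    intro y hy
    rw [interior_Ici] at hy
    rw [(hf y).deriv]
    exact hp y (le_of_lt hy)
  have h := hm (Set.mem_Ici.mpr le_rfl) (Set.mem_Ici.mpr hx) hx
  rwa [h0] at h

private theorem hp_TubeTrig (n : ℕ) (c x : ℝ) :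
    HasDerivAt (fun y : ℝ => y ^ (n + 1) / c) ((n + 1 : ℝ) * x ^ n / c) x := by
  have h := (hasDerivAt_pow (n + 1) x).div_const c
  simpa using h

private theorem c1_TubeTrig (x : ℝ) : 1 - x ^ 2 / 2 ≤ cos x := one_sub_sq_div_two_le_cos

private theorem s2_TubeTrig (x : ℝ) (hx : 0 ≤ x) : x - x ^ 3 / 6 ≤ sin x := by
  have h := nonneg_TubeTrig (f := fun y => sin y - y + y ^ (2 + 1) / 6)
    (f' := fun y => cos y - 1 + ((2 : ℕ) + 1 : ℝ) * y ^ 2 / 6)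
    (fun y => ((hasDerivAt_sin y).sub (hasDerivAt_id y)).add (hp_TubeTrig 2 6 y))
    (by simp) (fun y _ => by have := c1_TubeTrig y; push_cast; linarith) x hx
  norm_num at h
  linarith

private theorem c2_TubeTrig (x : ℝ) (hx : 0 ≤ x) : cos x ≤ 1 - x ^ 2 / 2 + x ^ 4 / 24 := by
  have h := nonneg_TubeTrig (f := fun y => 1 - cos y - y ^ (1 + 1) / 2 + y ^ (3 + 1) / 24)
    (f' := fun y => -(-sin y) - ((1 : ℕ) + 1 : ℝ) * y ^ 1 / 2 + ((3 : ℕ) + 1 : ℝ) * y ^ 3 / 24)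
    (fun y => (((hasDerivAt_cos y).const_sub 1).sub (hp_TubeTrig 1 2 y)).add
      (hp_TubeTrig 3 24 y))
    (by simp) (fun y hy => by have := s2_TubeTrig y hy; push_cast; linarith) x hx
  norm_num at h
  linarith

private theorem s3_TubeTrig (x : ℝ) (hx : 0 ≤ x) : sin x ≤ x - x ^ 3 / 6 + x ^ 5 / 120 := by
  have h := nonneg_TubeTrig (f := fun y => y - sin y - y ^ (2 + 1) / 6 + y ^ (4 + 1) / 120)
    (f' := fun y => 1 - cos y - ((2 : ℕ) + 1 : ℝ) * y ^ 2 / 6 + ((4 : ℕ) + 1 : ℝ) * y ^ 4 / 120)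
    (fun y => (((hasDerivAt_id y).sub (hasDerivAt_sin y)).sub (hp_TubeTrig 2 6 y)).add
      (hp_TubeTrig 4 120 y))
    (by simp) (fun y hy => by have := c2_TubeTrig y hy; push_cast; linarith) x hx
  norm_num at h
  linarith

private theorem c3_TubeTrig (x : ℝ) (hx : 0 ≤ x) :
    1 - x ^ 2 / 2 + x ^ 4 / 24 - x ^ 6 / 720 ≤ cos x := by
  have h := nonneg_TubeTrig
    (f := fun y => cos y - 1 + y ^ (1 + 1) / 2 - y ^ (3 + 1) / 24 + y ^ (5 + 1) / 720)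
    (f' := fun y => -sin y + ((1 : ℕ) + 1 : ℝ) * y ^ 1 / 2 - ((3 : ℕ) + 1 : ℝ) * y ^ 3 / 24 +
      ((5 : ℕ) + 1 : ℝ) * y ^ 5 / 720)
    (fun y => ((((hasDerivAt_cos y).sub_const 1).add (hp_TubeTrig 1 2 y)).sub
      (hp_TubeTrig 3 24 y)).add (hp_TubeTrig 5 720 y))
    (by simp) (fun y hy => by have := s3_TubeTrig y hy; push_cast; linarith) x hx
  norm_num at h
  linarith

private theorem s4_TubeTrig (x : ℝ) (hx : 0 ≤ x) :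
    x - x ^ 3 / 6 + x ^ 5 / 120 - x ^ 7 / 5040 ≤ sin x := by
  have h := nonneg_TubeTrig
    (f := fun y => sin y - y + y ^ (2 + 1) / 6 - y ^ (4 + 1) / 120 + y ^ (6 + 1) / 5040)
    (f' := fun y => cos y - 1 + ((2 : ℕ) + 1 : ℝ) * y ^ 2 / 6 - ((4 : ℕ) + 1 : ℝ) * y ^ 4 / 120 +
      ((6 : ℕ) + 1 : ℝ) * y ^ 6 / 5040)
    (fun y => ((((hasDerivAt_sin y).sub (hasDerivAt_id y)).add (hp_TubeTrig 2 6 y)).sub
      (hp_TubeTrig 4 120 y)).add (hp_TubeTrig 6 5040 y))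
    (by simp) (fun y hy => by have := c3_TubeTrig y hy; push_cast; linarith) x hx
  norm_num at h
  linarith

private theorem sq_TubeTrig {ε : ℝ} (h0 : 0 < ε) (h1 : ε ≤ 344 / 1000) :
    ε ^ 2 ≤ 1184 / 10000 := by
  nlinarith

theorem tt_a {ε : ℝ} (h0 : 0 < ε) (h1 : ε ≤ 344 / 1000) :
    sin ε - ε * cos ε ≤ 2 / 3 * (ε * (1 - cos ε)) := by
  have hs := s3_TubeTrig ε h0.le
  have hc := mul_le_mul_of_nonneg_left (c3_TubeTrig ε h0.le) h0.le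
  have h2 := sq_TubeTrig h0 h1
  have h5 : 0 < ε ^ 5 := pow_pos h0 5
  have h7 : ε ^ 7 ≤ ε ^ 5 * (1184 / 10000) := by
    calc ε ^ 7 = ε ^ 5 * ε ^ 2 := by ring
      _ ≤ _ := mul_le_mul_of_nonneg_left h2 h5.le
  nlinarith [hs, hc, h7, h5]

theorem tt_b {ε : ℝ} (h0 : 0 < ε) (h1 : ε ≤ 344 / 1000) :
    ε - sin ε * cos ε ≤ 4 / 3 * (ε * (1 - cos ε)) := by
  have hs := s4_TubeTrig (2 * ε) (by linarith)
  rw [sin_two_mul] at hs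
  have hc := mul_le_mul_of_nonneg_left (c2_TubeTrig ε h0.le) h0.le
  have h2 := sq_TubeTrig h0 h1
  have h5 : 0 < ε ^ 5 := pow_pos h0 5
  have h7 : ε ^ 7 ≤ ε ^ 5 * (1184 / 10000) := by
    calc ε ^ 7 = ε ^ 5 * ε ^ 2 := by ring
      _ ≤ _ := mul_le_mul_of_nonneg_left h2 h5.le
  nlinarith [hs, hc, h7, h5]

theorem tt_c {ε : ℝ} (h0 : 0 < ε) (h1 : ε ≤ 344 / 1000) :
    ε - sin ε ≤ 67 / 200 * (ε * (1 - cos ε)) := by
  have hs := s4_TubeTrig ε h0.le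
  have hc := mul_le_mul_of_nonneg_left (c2_TubeTrig ε h0.le) h0.le
  have h2 := sq_TubeTrig h0 h1
  have h3 : 0 < ε ^ 3 := pow_pos h0 3
  have h5 : ε ^ 5 ≤ ε ^ 3 * (1184 / 10000) := by
    calc ε ^ 5 = ε ^ 3 * ε ^ 2 := by ring
      _ ≤ _ := mul_le_mul_of_nonneg_left h2 h3.le
  have h7 : ε ^ 7 ≤ ε ^ 3 * (1184 / 10000) := by
    have hp5 : 0 < ε ^ 5 := pow_pos h0 5
    calc ε ^ 7 = ε ^ 5 * ε ^ 2 := by ring
      _ ≤ ε ^ 5 * (1184 / 10000) := mul_le_mul_of_nonneg_left h2 hp5.le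
      _ ≤ (ε ^ 3 * (1184 / 10000)) * (1184 / 10000) :=
        mul_le_mul_of_nonneg_right h5 (by norm_num)
      _ ≤ ε ^ 3 * (1184 / 10000) := by nlinarith
  nlinarith [hs, hc, h7, h5, h3]

theorem tt_d {ε : ℝ} (h0 : 0 < ε) (h1 : ε ≤ 344 / 1000) : ε ^ 2 ≤ 101 / 50 * (1 - cos ε) := by
  have hc := c2_TubeTrig ε h0.le
  have h2 := sq_TubeTrig h0 h1
  have h3 : 0 < ε ^ 2 := pow_pos h0 2
  have h4 : ε ^ 4 ≤ ε ^ 2 * (1184 / 10000) := by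
    calc ε ^ 4 = ε ^ 2 * ε ^ 2 := by ring
      _ ≤ _ := mul_le_mul_of_nonneg_left h2 h3.le
  nlinarith [hc, h4, h3]

theorem tt_e {ε : ℝ} (h0 : 0 < ε) (h1 : ε ≤ 344 / 1000) : 98 / 100 * ε ≤ sin ε := by
  have hs := s2_TubeTrig ε h0.le
  have h2 := sq_TubeTrig h0 h1
  have h3 : ε ^ 3 ≤ ε * (1184 / 10000) := by
    calc ε ^ 3 = ε * ε ^ 2 := by ring
      _ ≤ _ := mul_le_mul_of_nonneg_left h2 h0.le
  nlinarith [hs, h3]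

theorem tt_f (ε : ℝ) : 1 - cos ε ≤ ε ^ 2 / 2 := by
  have h := c1_TubeTrig ε
  linarith

end Pool.Agent.RRS
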