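import Pool.Agent.RRS.TubeSplit
import Pool.Agent.RRS.TubeHoInt
import Pool.Agent.RRS.TubeHsInt
import Pool.Agent.RRS.TubeTrig

/-!
# Package Tube-Avg: the bound of the mean

`δ = 1 - cos ε`, `t = ε / π`.

*`TP.avg_le`.* `avg_split`, `Ho_int_le`, `Hs_int_le` with `M = 67/200 R1 ^ 2 ε δ` (first case of
`hM`, `tt_c`) or `M = 2/3 R1 R2 ε δ` (second case, `tt_a`); `m` is `67/400 R1 ^ 2` or `R1 R2 /
  3`, so
`M = 2 m ε δ` in both cases.  Multiply by `2 / π`: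

* `(2/π) ((π - ε) cos ε + sin ε) / 2 = cos ε + (sin ε - ε cos ε) / π ≤ 1 - δ + (2/3) t δ`
  (`tt_a`);
* `(2/π) δ (π - ε - sin ε) / 2 = δ (1 - (ε + sin ε) / π) ≤ δ (1 - (99/50) t)` (`tt_e`), `mu ≥ 0`,
  `et ≥ 0`;
* `(2/π) (51/400) ε ^ 3 = (51/200) ε ^ 2 t ≤ (13/25) t δ` (`tt_d`; `0.255 * 2.02 = 0.5151`);
* `(2/π) (π/2 - (ε - sin ε cos ε)/2) = 1 - (ε - sin ε cos ε)/π ≥ 1 - (4/3) t δ` (`tt_b`);
* `(2/π) (sin ε cos ε / 2 + (π - ε) δ / 4) = sin ε cos ε / π + (1 - t) δ / 2`;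
  `sin ε cos ε ≤ ε` (`sin ε ≤ ε`, `0 < cos ε ≤ 1`), coefficient `n2 R2 ^ 2 + et R2 (R1 - R2) ≥ 0`;
* `(2/π) (ε - sin ε cos ε) / 2 ≤ (4/3) t δ` (`tt_b`), `h1, h3 ≥ 0`;
* `(2/π) (R2 ^ 2 (ε - sin ε) + M) / 4 ≤ (67/400 R2 ^ 2 + m) t δ` (`tt_c`).

Proved (helper93).
-/

set_option autoImplicit false

noncomputable section

namespace Pool.Agent.RRS

open Real MeasureTheory

theorem TP.avg_le (T : TP) {R1 R2 ε m : ℝ} (h2 : 0 < R2) (h12 : R2 ≤ R1) (e0 : 0 < ε)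
    (e1 : ε ≤ 344 / 1000) (hr : T.r * R1 = R2) (hu : 0 ≤ T.u) (hmu : 0 ≤ T.mu) (het : 0 ≤ T.et)
    (hn2 : 0 ≤ T.n2) (g1 : 0 ≤ T.g1) (g2 : 0 ≤ T.g2) (hh1 : 0 ≤ T.h1) (hh3 : 0 ≤ T.h3)
    (hh4 : 0 ≤ T.h4) (P1 : 9 / 4 * (T.g1 * R1) ≤ T.u * R2) (P2 : 9 / 4 * (T.g2 * R2) ≤ T.u * R1)
    (hm : m = 67 / 400 * R1 ^ 2 ∨ m = R1 * R2 / 3) :
    avgP T.H R1 R2 (π - ε) ≤
      T.u * (R1 * R2) - T.et * R2 ^ 2 +
      ε / π * (T.n2 * R2 ^ 2 + T.et * (R2 * (R1 - R2))) +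
      (1 - cos ε) * (-(T.u * (R1 * R2)) + 2 / 3 * (ε / π) * (T.u * (R1 * R2)) +
        (T.mu * R2 ^ 2 + T.et * R2 ^ 2) * (1 - 99 / 50 * (ε / π)) +
        13 / 25 * (ε / π) * (T.g1 * R1 ^ 2 + T.g2 * R2 ^ 2) +
        4 / 3 * (ε / π) * (T.et * R2 ^ 2) +
        (T.n2 * R2 ^ 2 + T.et * (R2 * (R1 - R2))) * (1 - ε / π) / 2 +
        4 / 3 * (ε / π) * (T.h1 * R1 ^ 2 + T.h3 * R2 ^ 2) +
        ε / π * (T.h4 * (67 / 400 * R2 ^ 2 + m))) := by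
  have h1 : 0 < R1 := lt_of_lt_of_le h2 h12
  have hpi : 3 < π := Real.pi_gt_three
  have hp0 : 0 < π := by linarith
  have hd : 0 ≤ 1 - cos ε := by linarith [cos_le_one ε]
  have hC0 : 0 ≤ cos ε := cos_nonneg_of_mem_Icc ⟨by linarith, by linarith⟩
  have hS0 : 0 ≤ sin ε := sin_nonneg_of_nonneg_of_le_pi e0.le (by linarith)
  have hSe : sin ε ≤ ε := sin_le e0.le
  have ta := tt_a e0 e1
  have tb := tt_b e0 e1
  have tc := tt_c e0 e1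
  have td := tt_d e0 e1
  have te := tt_e e0 e1
  have hM : R1 ^ 2 * (ε - sin ε) ≤ 2 * m * (ε * (1 - cos ε)) ∨
      R1 * R2 * (sin ε - ε * cos ε) ≤ 2 * m * (ε * (1 - cos ε)) := by
    rcases hm with h | h
    · left
      have h3 := mul_le_mul_of_nonneg_left tc (show 0 ≤ R1 ^ 2 by positivity)
      rw [h]
      linarith
    · right
      have h3 := mul_le_mul_of_nonneg_left ta (show 0 ≤ R1 * R2 by positivity)
      rw [h]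
      linarith
  have ho := T.Ho_int_le h1 h2 e0 e1 hr g1 g2 P1 P2
  have hs := T.Hs_int_le (M := 2 * m * (ε * (1 - cos ε))) h1 h2 e0 e1 hh4 hM
  rw [T.avg_split h1 h2 e0 e1]
  have q1 := mul_le_mul_of_nonneg_left ta (show 0 ≤ T.u * (R1 * R2) by positivity)
  have q2 := mul_le_mul_of_nonneg_left te
    (show 0 ≤ T.mu * R2 ^ 2 * (1 - cos ε) by positivity)
  have q6 := mul_le_mul_of_nonneg_left te
    (show 0 ≤ T.et * R2 ^ 2 * (1 - cos ε) by positivity)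
  have q3 : (T.g1 * R1 ^ 2 + T.g2 * R2 ^ 2) * (51 / 400 * ε ^ 3) ≤
      (T.g1 * R1 ^ 2 + T.g2 * R2 ^ 2) * (13 / 50 * (ε * (1 - cos ε))) := by
    apply mul_le_mul_of_nonneg_left _ (by positivity)
    have h3 := mul_le_mul_of_nonneg_left td e0.le
    have h4 : 0 ≤ ε * (1 - cos ε) := by positivity
    nlinarith
  have q4 := mul_le_mul_of_nonneg_left tb (show 0 ≤ T.et * R2 ^ 2 by positivity)
  have hK : 0 ≤ T.n2 * R2 ^ 2 + T.et * (R2 * (R1 - R2)) := by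
    have h3 : 0 ≤ R1 - R2 := by linarith
    positivity
  have hSC : sin ε * cos ε ≤ ε := by
    have h3 := mul_le_mul_of_nonneg_left (cos_le_one ε) hS0
    linarith
  have q5 := mul_le_mul_of_nonneg_left hSC hK
  have q7 := mul_le_mul_of_nonneg_left tb
    (show 0 ≤ T.h1 * R1 ^ 2 + T.h3 * R2 ^ 2 by positivity)
  have q8 := mul_le_mul_of_nonneg_left tc (show 0 ≤ T.h4 * R2 ^ 2 by positivity)
  have hkey := add_le_add ho hs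
  have h2p : 0 < 2 / π := by positivity
  refine (mul_le_mul_of_nonneg_left hkey h2p.le).trans ?_
  rw [div_mul_eq_mul_div, div_le_iff₀ hp0]
  have ht : ε / π * π = ε := div_mul_cancel₀ ε hp0.ne'
  have hR : (T.u * (R1 * R2) - T.et * R2 ^ 2 +
      ε / π * (T.n2 * R2 ^ 2 + T.et * (R2 * (R1 - R2))) +
      (1 - cos ε) * (-(T.u * (R1 * R2)) + 2 / 3 * (ε / π) * (T.u * (R1 * R2)) +
        (T.mu * R2 ^ 2 + T.et * R2 ^ 2) * (1 - 99 / 50 * (ε / π)) +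
        13 / 25 * (ε / π) * (T.g1 * R1 ^ 2 + T.g2 * R2 ^ 2) +
        4 / 3 * (ε / π) * (T.et * R2 ^ 2) +
        (T.n2 * R2 ^ 2 + T.et * (R2 * (R1 - R2))) * (1 - ε / π) / 2 +
        4 / 3 * (ε / π) * (T.h1 * R1 ^ 2 + T.h3 * R2 ^ 2) +
        ε / π * (T.h4 * (67 / 400 * R2 ^ 2 + m)))) * π =
      T.u * (R1 * R2) * π - T.et * R2 ^ 2 * π +
      ε * (T.n2 * R2 ^ 2 + T.et * (R2 * (R1 - R2))) +
      (1 - cos ε) * (-(T.u * (R1 * R2)) * π + 2 / 3 * ε * (T.u * (R1 * R2)) +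
        (T.mu * R2 ^ 2 + T.et * R2 ^ 2) * (π - 99 / 50 * ε) +
        13 / 25 * ε * (T.g1 * R1 ^ 2 + T.g2 * R2 ^ 2) +
        4 / 3 * ε * (T.et * R2 ^ 2) +
        (T.n2 * R2 ^ 2 + T.et * (R2 * (R1 - R2))) * (π - ε) / 2 +
        4 / 3 * ε * (T.h1 * R1 ^ 2 + T.h3 * R2 ^ 2) +
        ε * (T.h4 * (67 / 400 * R2 ^ 2 + m))) := by
    field_simp
  rw [hR]
  linarith [q1, q2, q3, q4, q5, q6, q7, q8]

end Pool.Agent.RRS
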