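import Pool.Agent.RRS.Funcs
import Pool.Agent.RRS.Symm

/-!
# The tube around the antipodal curve: the form `H` and the conditions

`R1 ≥ R2` are the norms, `x, y` the coordinates, `X = |x|`, `Y = |y|`, `L`, `K` the multipliers of
`R1`, `R2`; `u1 ≤ u2`; the angle is `π - ε`.  The multipliers of the pair inequality are

`α = (k1 - A1) + (k2 - A2) + η - u1`, `β = u1 - k1`, `γ = u2 - k2`

(`A = a1`, `k = b0`, `z = zp`, `c = a0`, `e = b1 = 2 k - A`, `ν = A + z - k`).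

* `TP`: the parameters of the form `H`; `T.Ho` is the value in the quadrants of opposite signs,
  `T.Hs`
  in the quadrants of the same sign.
* `TubeI`: the conditions for the pointwise inequality for `R2 ≤ 1` (`η = 0`, `ν2 = 0`).
* `TubeII`: the conditions for `R2 ≥ 1` (`u1 = u2 = u`).
-/

set_option autoImplicit false

noncomputable section

namespace Pool.Agent.RRS

open Real

/-- the parameters of the form -/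
structure TP where
  u : ℝ
  mu : ℝ
  r : ℝ
  g1 : ℝ
  g2 : ℝ
  et : ℝ
  n2 : ℝ
  h1 : ℝ
  h3 : ℝ
  h4 : ℝ

/-- the form in the quadrants of opposite signs -/
def TP.Ho (T : TP) (X Y : ℝ) : ℝ :=
  T.u * (X * Y) + T.mu * max (Y - T.r * X) 0 ^ 2 + X * max (T.g1 * X - T.u * Y) 0 / 4 +
    Y * max (T.g2 * Y - T.u * X) 0 / 4 - T.et * Y ^ 2 + T.n2 * (Y * max (Y - T.r * X) 0) +
    T.et * ((X - Y) * max (T.r * X - Y) 0)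

/-- the form in the quadrants of the same sign -/
def TP.Hs (T : TP) (X Y : ℝ) : ℝ := T.h1 * X ^ 2 + T.h3 * Y ^ 2 + T.h4 * min X Y ^ 2

/-- the form -/
def TP.H (T : TP) (x y : ℝ) : ℝ := if 0 < x * y then T.Hs |x| |y| else T.Ho |x| |y|

/-- the multiplier of `m ^ 2` -/
def tal (L K : LF) (et u1 : ℝ) : ℝ := L.b0 - L.a1 + (K.b0 - K.a1) + et - u1

/-- `γ = k - c - u` -/
def LF.ga (L : LF) (u : ℝ) : ℝ := L.b0 - L.a0 - u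

/-- `ν = A + z - k` -/
def LF.nu (L : LF) : ℝ := L.a1 + L.zp - L.b0

/-- `A - z - k + u` -/
def LF.sa (L : LF) (u : ℝ) : ℝ := L.a1 - L.zp - L.b0 + u

/-- `D = z1 + z2 + (k2 - A2) + (k1 - A1) + η - u1` -/
def tD (L K : LF) (et u1 : ℝ) : ℝ := L.zp + K.zp + (K.b0 - K.a1) + (L.b0 - L.a1) + et - u1

/-- the common relations of the multipliers -/
structure TubeL (L : LF) : Prop where
  zm : L.zm = L.zp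
  b1 : L.b1 = 2 * L.b0 - L.a1
  a1 : 0 ≤ L.a1
  nu : 0 ≤ L.nu

/-- **the conditions of the first region** (`R2 ≤ 1`, `η = 0`, `ν2 = 0`) -/
structure TubeI (L K : LF) (u1 u2 w : ℝ) (T : TP) : Prop where
  lL : TubeL L
  lK : TubeL K
  Tu : T.u = u2
  et0 : T.et = 0
  n20 : T.n2 = 0
  K0 : K.nu = 0
  u0 : 0 < u1
  u12 : u1 ≤ u2
  w0 : 0 ≤ w
  r0 : 0 ≤ T.r
  r1 : T.r ≤ 1
  mu0 : 0 ≤ T.mu
  mu : L.nu ≤ 4 * (T.r * (1 - T.r)) * T.mu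
  g1 : 0 ≤ T.g1
  g2 : 0 ≤ T.g2
  g1' : L.ga u1 ≤ T.g1
  g2' : K.ga u2 ≤ T.g2
  h1 : T.h1 = T.g1 / 4 + w
  h3 : T.h3 = T.g2 / 4 + L.nu + w
  h4 : 0 ≤ T.h4
  hs : T.h1 + T.h3 + T.h4 = 2 * L.a1 + 2 * K.a1 - u1
  sa : 0 ≤ L.sa u1
  D : 0 ≤ tD L K 0 u1
  C : u1 ≤ 2 * L.b0 - L.a1 + K.zp
  k1 : u1 ≤ 2 * L.b0
  k2 : u2 ≤ 2 * K.b0
  ak : L.a1 ≤ 2 * L.b0
  zk : 0 ≤ L.zp + L.b0 - L.a1
  s2 : (2 * K.a1 - u2) ^ 2 ≤ 4 * w * (T.h3 + T.h4)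
  s1 : (2 * L.a1 - u1 - L.nu) ^ 2 ≤ 4 * w * (T.h1 + T.h4)
  e1 : 0 ≤ 2 * T.h1 + (u1 - L.b0 - L.a0)
  e3 : 0 ≤ 2 * T.h3 + (u1 - K.b0 - K.a0)
  kk : 0 ≤ 4 * (L.b0 + K.b0) - 2 * (L.a1 + K.a1) - 2 * u1 - u2
  W : 0 ≤ 2 * L.a1 + 2 * K.a1 - L.a0 - K.a0 - L.b0 - K.b0 + u1

/-- **the conditions of the second region** (`R2 ≥ 1`) -/
structure TubeII (L K : LF) (u w : ℝ) (T : TP) : Prop where
  lL : TubeL L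
  lK : TubeL K
  Tu : T.u = u
  n2 : T.n2 = K.nu
  et : T.et * (1 + T.r) = K.nu
  et0 : 0 ≤ T.et
  u0 : 0 < u
  w0 : 0 ≤ w
  r0 : 0 ≤ T.r
  r1 : T.r ≤ 1
  mu0 : 0 ≤ T.mu
  mu : L.nu - K.nu ≤ 4 * (T.r * (1 - T.r)) * T.mu
  g1 : 0 ≤ T.g1
  g2 : 0 ≤ T.g2
  g1' : L.ga u ≤ T.g1
  g2' : K.ga u ≤ T.g2
  gu1 : T.g1 + 2 * T.et ≤ u
  gu2 : T.g2 + 2 * T.et ≤ u
  en : 2 * T.et ≤ L.nu
  nn : K.nu ≤ L.nu
  un : K.nu ≤ u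
  h1 : T.h1 = T.g1 / 4 + (K.nu - T.et) + w
  h3 : T.h3 = T.g2 / 4 + (L.nu - T.et) + w
  h4 : 0 ≤ T.h4
  hs : T.h1 + T.h3 + T.h4 = 2 * L.a1 + 2 * K.a1 - u
  sa1 : 0 ≤ L.sa u
  sa2 : 0 ≤ K.sa u
  D : 0 ≤ tD L K T.et u
  k1 : u + L.nu ≤ 2 * L.b0
  k2 : u + K.nu ≤ 2 * K.b0
  c1 : 0 ≤ 4 * L.b0 - 2 * L.a1 + K.zp + K.b0 - K.a1 + T.et - 2 * u
  s2 : (2 * K.a1 - u - K.nu) ^ 2 ≤ 4 * w * (T.h3 + T.h4)
  s1 : (2 * L.a1 - u - L.nu) ^ 2 ≤ 4 * w * (T.h1 + T.h4)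
  e1 : 0 ≤ u - L.b0 - L.a0
  e3 : 0 ≤ u - K.b0 - K.a0
  kk : 0 ≤ 4 * (L.b0 + K.b0) - 2 * (L.a1 + K.a1) - 3 * u
  W : 0 ≤ 2 * L.a1 + 2 * K.a1 - L.a0 - K.a0 - L.b0 - K.b0 - T.et + u

/-- all cells -/
structure TubeCells (L K : LF) (α β γ : ℝ) (T : TP) : Prop where
  ft : ∀ X Y : ℝ, 0 ≤ X → 0 ≤ Y → CellsOK L K α β γ false true X Y (T.Ho X Y)
  tf : ∀ X Y : ℝ, 0 ≤ X → 0 ≤ Y → CellsOK L K α β γ true false X Y (T.Ho X Y)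
  tt : ∀ X Y : ℝ, 0 ≤ X → 0 ≤ Y → CellsOK L K α β γ true true X Y (T.Hs X Y)
  ff : ∀ X Y : ℝ, 0 ≤ X → 0 ≤ Y → CellsOK L K α β γ false false X Y (T.Hs X Y)

/-- the value at the angle `π` -/
def F0T (R1 R2 u1 u2 : ℝ) : ℝ :=
  2 * √2 * (R1 + R2) + u1 - u2 * (R1 * R2) - (2 / u1 + u1 * (1 + R1 ^ 2) / 2) -
    (2 / u2 + u2 * (1 + R2 ^ 2) / 2)

/-- the linear term of the value in `1 - cos ε`, without the form -/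
def linT (L K : LF) (R1 R2 u1 u2 : ℝ) : ℝ :=
  -√2 * (R1 + R2) + (L.a1 + K.a1) - (L.b0 + K.b0) + L.b0 * (1 + R1 ^ 2) / 2 +
    K.b0 * (1 + R2 ^ 2) / 2 + u2 * (R1 * R2) + 2 * (u1 - L.b0) / u1 ^ 2 + 2 * (u2 - K.b0) / u2 ^ 2

/-- the loss per `t = ε / π` -/
def bT (T : TP) (R1 R2 t0 m c : ℝ) : ℝ :=
  5 * t0 * c + 2 / 3 * (T.u * (R1 * R2)) - 99 / 50 * (T.mu * R2 ^ 2) +
    13 / 25 * (T.g1 * R1 ^ 2 + T.g2 * R2 ^ 2) + 4 / 3 * (T.h1 * R1 ^ 2 + T.h3 * R2 ^ 2) +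
    T.h4 * (67 / 400 * R2 ^ 2 + m)

/-- the coefficient of `ε / π` -/
def kaT (T : TP) (R1 R2 : ℝ) : ℝ := T.n2 * R2 ^ 2 + T.et * (R2 * (R1 - R2))

/-- the coefficient of `1 - cos ε`, second region -/
def PhiT (L K : LF) (T : TP) (R1 R2 t0 c t : ℝ) : ℝ :=
  linT L K R1 R2 T.u T.u - T.mu * R2 ^ 2 - t * bT T R1 R2 t0 (67 / 400 * R1 ^ 2) c -
    T.et * R2 ^ 2 * (1 - 99 / 50 * t) - 4 / 3 * t * (T.et * R2 ^ 2) - kaT T R1 R2 * (1 - t) / 2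

/-- the conditions which are common to both regions -/
structure ValT (L K : LF) (R1 R2 u1 u2 t0 c1 c2 : ℝ) (T : TP) : Prop where
  r : T.r * R1 = R2
  P1 : 9 / 4 * (T.g1 * R1) ≤ u2 * R2
  P2 : 9 / 4 * (T.g2 * R2) ≤ u2 * R1
  d1 : 5 * t0 ^ 2 * L.b0 < u1
  d2 : 5 * t0 ^ 2 * K.b0 < u2
  q1 : (u1 - 2 * L.b0) ^ 2 ≤ c1 * (2 * u1 ^ 2 * (u1 - 5 * t0 ^ 2 * L.b0))
  q2 : (u2 - 2 * K.b0) ^ 2 ≤ c2 * (2 * u2 ^ 2 * (u2 - 5 * t0 ^ 2 * K.b0))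
  F0 : 0 ≤ F0T R1 R2 u1 u2

/-- **the conditions for the value, first region** -/
structure ValI (L K : LF) (R1 R2 u1 u2 t0 m c1 c2 : ℝ) (T : TP) : Prop where
  V : ValT L K R1 R2 u1 u2 t0 c1 c2 T
  hm : m = 67 / 400 * R1 ^ 2 ∨ m = R1 * R2 / 3
  G0 : T.mu * R2 ^ 2 ≤ linT L K R1 R2 u1 u2
  G1 : T.mu * R2 ^ 2 + t0 * bT T R1 R2 t0 m (c1 + c2) ≤ linT L K R1 R2 u1 u2

/-- **the conditions for the value, second region** -/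
structure ValII (L K : LF) (R1 R2 u t0 c1 c2 : ℝ) (T : TP) : Prop where
  V : ValT L K R1 R2 u u t0 c1 c2 T
  R21 : 1 ≤ R2
  P0 : 0 ≤ PhiT L K T R1 R2 t0 (c1 + c2) 0
  P1 : 0 ≤ PhiT L K T R1 R2 t0 (c1 + c2) t0
  Q0 : 101 * kaT T R1 R2 ^ 2 ≤ 1973 * (PhiT L K T R1 R2 t0 (c1 + c2) 0 * (T.et * (R2 ^ 2 - 1)))
  Q1 : 101 * kaT T R1 R2 ^ 2 ≤ 1973 * (PhiT L K T R1 R2 t0 (c1 + c2) t0 * (T.et * (R2 ^ 2 - 1)))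

end Pool.Agent.RRS
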