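import Pool.Agent.RRS.TubeDefs

/-!
# Package Tube-Hom: the form is measurable, homogeneous and bounded

*`homBd_of_cont`.* `A`, `B` continuous (as functions of two variables) and homogeneous of degree
  two
for `0 ≤ c`; `H x y = if 0 < x * y then A |x| |y| else B |x| |y|`.  Measurable: `Measurable.ite`
  with
`measurableSet_lt measurable_const (by fun_prop)`; `A |x| |y|` is a continuous function of `(x,
  y)`.
Homogeneous: if `c = 0` then `0 < 0` is false and `B 0 0 = 0 ^ 2 * B .. = 0` by `hB` with `c = 0`;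
if `c ≠ 0` then `0 < (c * x) * (c * y) ↔ 0 < x * y` (`c ^ 2 > 0`), `|c * x| = |c| * |x|`, `|c| ^
  2 =
c ^ 2`.
Bounded: by compactness (`IsCompact.exists_bound_of_continuousOn` on `Set.Icc (0, 0) (1, 1)` or on
the closed ball of radius one of `ℝ × ℝ`) there is `C` with `|A x y| ≤ C`, `|B x y| ≤ C` for
`0 ≤ x, y ≤ 1`; for `X, Y ≥ 0`, with `s = max X Y`: if `s = 0` the values are `0`; otherwise `A X
  Y =
s ^ 2 * A (X / s) (Y / s)` is at most `C * s ^ 2 ≤ C * (X ^ 2 + Y ^ 2)` in absolute value.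

*`TP.homBd`.* `T.Ho`, `T.Hs` are continuous (`fun_prop`, `max`, `min`) and homogeneous: for `0 ≤
  c`
`max (c * a) 0 = c * max a 0` (`mul_max_of_nonneg`), `min (c * X) (c * Y) = c * min X Y`
(`mul_min_of_nonneg`).

Difficulty: 0.5 h.
-/

set_option autoImplicit false

noncomputable section

namespace Pool.Agent.RRS

open Real MeasureTheory

private theorem bd_TubeHom {A : ℝ → ℝ → ℝ} (cA : Continuous fun q : ℝ × ℝ => A q.1 q.2)
    (hA : ∀ c x y : ℝ, 0 ≤ c → A (c * x) (c * y) = c ^ 2 * A x y) :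
    ∃ C : ℝ, 0 ≤ C ∧ ∀ X Y : ℝ, 0 ≤ X → 0 ≤ Y → |A X Y| ≤ C * (X ^ 2 + Y ^ 2) := by
  obtain ⟨C, hC⟩ := ((isCompact_Icc (a := (0 : ℝ)) (b := 1)).prod
    (isCompact_Icc (a := (0 : ℝ)) (b := 1))).exists_bound_of_continuousOn cA.continuousOn
  refine ⟨max C 0, le_max_right _ _, ?_⟩
  intro X Y hX hY
  obtain ⟨s, hs⟩ : ∃ s : ℝ, s = max X Y := ⟨_, rfl⟩
  have hXs : X ≤ s := hs ▸ le_max_left _ _
  have hYs : Y ≤ s := hs ▸ le_max_right _ _
  have hs0 : 0 ≤ s := hX.trans hXs
  have hs2 : s ^ 2 ≤ X ^ 2 + Y ^ 2 := by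
    rw [hs]
    rcases max_cases X Y with h | h <;> rw [h.1] <;> nlinarith [sq_nonneg X, sq_nonneg Y]
  rcases hs0.lt_or_eq with h | h
  · have e1 : X = s * (X / s) := by field_simp
    have e2 : Y = s * (Y / s) := by field_simp
    have h1 : |A (X / s) (Y / s)| ≤ C := by
      have h2 := hC (X / s, Y / s) ⟨⟨by positivity, (div_le_one h).2 hXs⟩,
        ⟨by positivity, (div_le_one h).2 hYs⟩⟩
      rwa [Real.norm_eq_abs] at h2
    have h3 : A X Y = s ^ 2 * A (X / s) (Y / s) := by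
      rw [← hA s (X / s) (Y / s) hs0, ← e1, ← e2]
    rw [h3, abs_mul, abs_of_nonneg (by positivity)]
    calc s ^ 2 * |A (X / s) (Y / s)| ≤ s ^ 2 * max C 0 :=
          mul_le_mul_of_nonneg_left (h1.trans (le_max_left _ _)) (by positivity)
      _ ≤ (X ^ 2 + Y ^ 2) * max C 0 := mul_le_mul_of_nonneg_right hs2 (le_max_right _ _)
      _ = max C 0 * (X ^ 2 + Y ^ 2) := mul_comm _ _
  · have hX0 : X = 0 := le_antisymm (h ▸ hXs) hX
    have hY0 : Y = 0 := le_antisymm (h ▸ hYs) hY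
    have h1 := hA 0 0 0 le_rfl
    rw [mul_zero, zero_pow two_ne_zero, zero_mul] at h1
    rw [hX0, hY0, h1, abs_zero]
    simp

theorem homBd_of_cont {A B : ℝ → ℝ → ℝ} (cA : Continuous fun q : ℝ × ℝ => A q.1 q.2)
    (cB : Continuous fun q : ℝ × ℝ => B q.1 q.2)
    (hA : ∀ c x y : ℝ, 0 ≤ c → A (c * x) (c * y) = c ^ 2 * A x y)
    (hB : ∀ c x y : ℝ, 0 ≤ c → B (c * x) (c * y) = c ^ 2 * B x y) :
    HomBd fun x y => if 0 < x * y then A |x| |y| else B |x| |y| := by
  have cabs : Continuous fun q : ℝ × ℝ => (|q.1|, |q.2|) :=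
    continuous_fst.abs.prodMk continuous_snd.abs
  refine ⟨?_, ?_, ?_⟩
  · exact Measurable.ite (measurableSet_lt measurable_const (measurable_fst.mul measurable_snd))
      (cA.comp cabs).measurable (cB.comp cabs).measurable
  · intro c x y
    by_cases hc : c = 0
    · subst hc
      have h1 := hB 0 0 0 le_rfl
      rw [mul_zero, zero_pow two_ne_zero, zero_mul] at h1
      have h2 : ¬ (0 : ℝ) < 0 * x * (0 * y) := by
        rw [zero_mul, zero_mul]
        exact lt_irrefl 0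
      rw [if_neg h2, zero_mul, zero_mul, abs_zero, h1, zero_pow two_ne_zero, zero_mul]
    · have hc2 : 0 < c ^ 2 := by positivity
      have h1 : 0 < c * x * (c * y) ↔ 0 < x * y := by
        have h2 : c * x * (c * y) = c ^ 2 * (x * y) := by ring
        rw [h2]
        exact mul_pos_iff_of_pos_left hc2
      by_cases h : 0 < x * y
      · rw [if_pos (h1.2 h), if_pos h, abs_mul, abs_mul, hA _ _ _ (abs_nonneg c), sq_abs]
      · rw [if_neg (fun h2 => h (h1.1 h2)), if_neg h, abs_mul, abs_mul,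
          hB _ _ _ (abs_nonneg c), sq_abs]
  · obtain ⟨C, hC, h1⟩ := bd_TubeHom cA hA
    obtain ⟨D, hD, h2⟩ := bd_TubeHom cB hB
    refine ⟨C + D, fun x y => ?_⟩
    have hs : 0 ≤ x ^ 2 + y ^ 2 := by positivity
    by_cases h : 0 < x * y
    · rw [if_pos h]
      have h3 := h1 |x| |y| (abs_nonneg _) (abs_nonneg _)
      rw [sq_abs, sq_abs] at h3
      nlinarith
    · rw [if_neg h]
      have h3 := h2 |x| |y| (abs_nonneg _) (abs_nonneg _)
      rw [sq_abs, sq_abs] at h3
      nlinarith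

theorem TP.homBd (T : TP) : HomBd T.H := by
  refine homBd_of_cont (A := T.Hs) (B := T.Ho) ?_ ?_ ?_ ?_
  · unfold TP.Hs
    fun_prop
  · unfold TP.Ho
    fun_prop
  · intro c X Y hc
    unfold TP.Hs
    rw [← mul_min_of_nonneg _ _ hc]
    ring
  · intro c X Y hc
    have m : ∀ a : ℝ, max (c * a) 0 = c * max a 0 := fun a => by
      rw [mul_max_of_nonneg _ _ hc, mul_zero]
    have e1 : c * Y - T.r * (c * X) = c * (Y - T.r * X) := by ring
    have e2 : T.g1 * (c * X) - T.u * (c * Y) = c * (T.g1 * X - T.u * Y) := by ring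
    have e3 : T.g2 * (c * Y) - T.u * (c * X) = c * (T.g2 * Y - T.u * X) := by ring
    have e4 : T.r * (c * X) - c * Y = c * (T.r * X - Y) := by ring
    unfold TP.Ho
    rw [e1, e2, e3, e4, m, m, m, m]
    ring

end Pool.Agent.RRS
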