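import Pool.Agent.RRS.TubeDefs

/-!
# Package Tube-IIa: second region, the cells `x ≥ 0 ≥ y`

Write `A1 = L.a1`, `k1 = L.b0`, `c1 = L.a0`, `z1 = L.zp = L.zm`, `ν1 = L.nu = A1 + z1 - k1`, `A2,
  k2, c2,
z2, ν2` the same for `K`; `b1 = 2 k - A`; `γ1 = L.ga u = k1 - c1 - u`; `r = T.r`, `η = T.et`,
`η (1 + r) = ν2`; `α = tal L K η u`.  `P+ = max P 0`.
`Ho = u X Y + mu (Y - r X)+ ^ 2 + X (g1 X - u Y)+ / 4 + Y (g2 Y - u X)+ / 4 - η Y ^ 2 + ν2 Y (Y -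
  r X)+
+ η (X - Y) (r X - Y)+`.  The term `(X - Y) (r X - Y)+` is `≥ 0` (if `r X > Y` then `X ≥ r X >
  Y`).
`ix = true` means `m ≤ X`, `ix = false` means `X ≤ m`.

*Fact (P1)*: for `0 ≤ m ≤ X`, `0 ≤ Y`: `(X - m) (u Y - g1 m) ≥ - X (g1 X - u Y)+ / 4`:
if `g1 m ≤ u Y` the left side is `≥ 0`; otherwise `u Y < g1 m` and `X (g1 X - u Y) - 4 (X - m)
(g1 m - u Y) = g1 (X - 2 m) ^ 2 + u Y (3 X - 4 m)`, which is `≥ 0` if `4 m ≤ 3 X`, and for `4 m >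
  3 X`
it is `≥ g1 ((X - 2 m) ^ 2 - m (4 m - 3 X)) = g1 X (X - m) ≥ 0`.  The same with `γ1 ≤ g1`.

*Fact (H)*: `Ho ≥ 0`, even without the terms with `mu`, `g1`, `g2`: if `Y ≤ r X`: `u X Y ≥ η Y ^
  2` (`Y ≤ X`,
`η ≤ ν2 ≤ u`); if `Y ≥ r X`: `u X Y - η Y ^ 2 + ν2 Y (Y - r X) = (u - r ν2) X Y + r η Y ^ 2` (as
  `ν2 - η =
r η`).

* `(t, t)` (`m ≤ X, Y`): `Ho - γ1 X m - u Y m + (γ1 + η) m ^ 2 = (X - m) (u Y - γ1 m) + η (m ^ 2
  - Y ^ 2) +
  ν2 Y (Y - r X)+ + ...`.  If `Y ≤ X`: `η (Y ^ 2 - m ^ 2) ≤ 2 η Y (Y - m) ≤ 2 η Y (X - m)`, and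
  `u Y - γ1 m - 2 η Y ≥ (u - g1 - 2 η) Y ≥ 0`.  If `X ≤ Y`: `(X - m) (u Y - γ1 m) ≥ 2 η (X - m) Y
  ≥
  η (X ^ 2 - m ^ 2)`, and `ν2 Y (Y - r X) - η (Y ^ 2 - X ^ 2) = η (r Y ^ 2 - r (1 + r) X Y + X ^
  2)`, which is
  `η (r (Y - X) ^ 2 + (1 - r) X ^ 2 + r (1 - r) X Y) ≥ 0`.
* `(t, f)` (`Y ≤ m ≤ X`): `Ho - γ1 X m - (u - ν2) Y m + (γ1 + η - ν2) m ^ 2 = (X - m) (u Y - γ1
  m) -
  η (m - Y) (r m - Y) + η (X - Y) (r X - Y)+ + X (g1 X - u Y)+ / 4 + ...` (as `ν2 - η = r η`):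
  (P1), and
  `(m - Y) (r m - Y) ≤ (X - Y) (r X - Y)+`.
* `(f, t)` (`X ≤ m ≤ Y`): `Ho + (L.sa u) X m + (2 k2 - u) Y m + (D - ν2) m ^ 2`, `D = tD L K η u
  ≥ 0`:
  (H), and `(2 k2 - u) Y m ≥ (2 k2 - u) m ^ 2 ≥ ν2 m ^ 2` (field `k2`).
* `(f, f)` (`X, Y ≤ m`): `Ho + (L.sa u) X m + (2 k2 - ν2 - u) Y m + D m ^ 2`: all terms are `≥ 0`.

(The exact form after `simp only [Qc, LF.p, LF.q, ef, sg, ...]` may be ordered in another way,
  close
with `linarith`/`nlinarith` after `have`s for the facts above.)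

Difficulty: 1.2 h.
-/

set_option autoImplicit false
set_option linter.unusedSimpArgs false

noncomputable section

namespace Pool.Agent.RRS

open Real

/-- the last term of the form is nonnegative -/
private theorem last_TubeIIa {r X Y : ℝ} (hX : 0 ≤ X) (r1 : r ≤ 1) :
    0 ≤ (X - Y) * max (r * X - Y) 0 := by
  rcases le_total (r * X - Y) 0 with h | h
  · rw [max_eq_right h, mul_zero]
  · have h1 : 0 ≤ X - Y := by nlinarith
    exact mul_nonneg h1 (le_max_right _ _)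

/-- fact (P1) -/
private theorem p1_TubeIIa {u g ga X Y m : ℝ} (hu : 0 ≤ u) (hg : 0 ≤ g) (hga : ga ≤ g)
    (hY : 0 ≤ Y) (hm : 0 ≤ m) (hmX : m ≤ X) :
    0 ≤ (X - m) * (u * Y - ga * m) + X * max (g * X - u * Y) 0 / 4 := by
  have hX : 0 ≤ X := hm.trans hmX
  have h0 : ga * m ≤ g * m := mul_le_mul_of_nonneg_right hga hm
  have h1 : (X - m) * (u * Y - g * m) ≤ (X - m) * (u * Y - ga * m) :=
    mul_le_mul_of_nonneg_left (by linarith) (by linarith)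
  have hP : 0 ≤ max (g * X - u * Y) 0 := le_max_right _ _
  have hP' : g * X - u * Y ≤ max (g * X - u * Y) 0 := le_max_left _ _
  have h2 : 0 ≤ X * max (g * X - u * Y) 0 := mul_nonneg hX hP
  have h3 : X * (g * X - u * Y) ≤ X * max (g * X - u * Y) 0 := mul_le_mul_of_nonneg_left hP' hX
  have hY' : 0 ≤ u * Y := mul_nonneg hu hY
  rcases le_total (g * m) (u * Y) with h | h
  · have h4 : 0 ≤ (X - m) * (u * Y - g * m) := mul_nonneg (by linarith) (by linarith)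
    linarith
  · have e : X * (g * X - u * Y) + 4 * ((X - m) * (u * Y - g * m)) =
        g * (X - 2 * m) ^ 2 + u * Y * (3 * X - 4 * m) := by ring
    rcases le_total (4 * m) (3 * X) with h5 | h5
    · have h6 : 0 ≤ u * Y * (3 * X - 4 * m) := mul_nonneg hY' (by linarith)
      have h7 : 0 ≤ g * (X - 2 * m) ^ 2 := mul_nonneg hg (sq_nonneg _)
      linarith
    · have h6 : g * m * (3 * X - 4 * m) ≤ u * Y * (3 * X - 4 * m) :=
        mul_le_mul_of_nonpos_right h (by linarith)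
      have h7 : 0 ≤ g * (X * (X - m)) := mul_nonneg hg (mul_nonneg hX (by linarith))
      have e2 : g * (X - 2 * m) ^ 2 + g * m * (3 * X - 4 * m) = g * (X * (X - m)) := by ring
      linarith

/-- fact (H) -/
private theorem ho_TubeIIa {T : TP} {u n2 X Y : ℝ} (hTu : T.u = u) (hn2 : T.n2 = n2)
    (het : T.et * (1 + T.r) = n2) (et0 : 0 ≤ T.et) (r0 : 0 ≤ T.r) (r1 : T.r ≤ 1)
    (mu0 : 0 ≤ T.mu) (un : n2 ≤ u) (hX : 0 ≤ X) (hY : 0 ≤ Y) : 0 ≤ T.Ho X Y := by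
  unfold TP.Ho
  rw [hTu, hn2]
  have a1 : 0 ≤ T.mu * max (Y - T.r * X) 0 ^ 2 := mul_nonneg mu0 (sq_nonneg _)
  have a2 : 0 ≤ X * max (T.g1 * X - u * Y) 0 := mul_nonneg hX (le_max_right _ _)
  have a3 : 0 ≤ Y * max (T.g2 * Y - u * X) 0 := mul_nonneg hY (le_max_right _ _)
  have a4 : 0 ≤ T.et * ((X - Y) * max (T.r * X - Y) 0) := mul_nonneg et0 (last_TubeIIa hX r1)
  have hXY : 0 ≤ X * Y := mul_nonneg hX hY
  have hre : 0 ≤ T.et * T.r := mul_nonneg et0 r0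
  have hn : n2 = T.et + T.et * T.r := by rw [← het]; ring
  have hn0 : 0 ≤ n2 := by linarith
  rcases le_total Y (T.r * X) with h | h
  · have h1 : Y ≤ X := h.trans (by nlinarith)
    have h2 : T.et * Y ^ 2 ≤ u * (X * Y) := by
      have h3 : T.et * Y ≤ u * X := mul_le_mul (by linarith) h1 hY (by linarith)
      calc T.et * Y ^ 2 = T.et * Y * Y := by ring
        _ ≤ u * X * Y := mul_le_mul_of_nonneg_right h3 hY
        _ = u * (X * Y) := by ring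
    have h4 : 0 ≤ n2 * (Y * max (Y - T.r * X) 0) :=
      mul_nonneg hn0 (mul_nonneg hY (le_max_right _ _))
    linarith
  · have h1 : max (Y - T.r * X) 0 = Y - T.r * X := max_eq_left (by linarith)
    have h2 : 0 ≤ (u - T.r * n2) * (X * Y) := by
      refine mul_nonneg ?_ hXY
      nlinarith
    have h3 : 0 ≤ T.et * T.r * Y ^ 2 := mul_nonneg hre (sq_nonneg _)
    have e : u * (X * Y) - T.et * Y ^ 2 + n2 * (Y * (Y - T.r * X)) =
        (u - T.r * n2) * (X * Y) + T.et * T.r * Y ^ 2 := by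
      rw [hn]
      ring
    rw [h1] at a1 ⊢
    linarith

/-- the cell `(t, t)` -/
private theorem tt_TubeIIa {T : TP} {u n2 ga X Y m : ℝ} (hTu : T.u = u) (hn2 : T.n2 = n2)
    (het : T.et * (1 + T.r) = n2) (et0 : 0 ≤ T.et) (r0 : 0 ≤ T.r) (r1 : T.r ≤ 1)
    (mu0 : 0 ≤ T.mu) (g1 : 0 ≤ T.g1) (hga : ga ≤ T.g1) (gu : T.g1 + 2 * T.et ≤ u)
    (hX : 0 ≤ X) (hY : 0 ≤ Y) (hm : 0 ≤ m) (hmX : m ≤ X) (hmY : m ≤ Y) :
    0 ≤ T.Ho X Y - ga * (X * m) - u * (Y * m) + (ga + T.et) * m ^ 2 := by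
  unfold TP.Ho
  rw [hTu, hn2]
  have a1 : 0 ≤ T.mu * max (Y - T.r * X) 0 ^ 2 := mul_nonneg mu0 (sq_nonneg _)
  have a2 : 0 ≤ X * max (T.g1 * X - u * Y) 0 := mul_nonneg hX (le_max_right _ _)
  have a3 : 0 ≤ Y * max (T.g2 * Y - u * X) 0 := mul_nonneg hY (le_max_right _ _)
  have a4 : 0 ≤ T.et * ((X - Y) * max (T.r * X - Y) 0) := mul_nonneg et0 (last_TubeIIa hX r1)
  have hre : 0 ≤ T.et * T.r := mul_nonneg et0 r0
  have hn : n2 = T.et + T.et * T.r := by rw [← het]; ring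
  have hn0 : 0 ≤ n2 := by linarith
  have b1 : ga * m ≤ T.g1 * Y :=
    (mul_le_mul_of_nonneg_right hga hm).trans (mul_le_mul_of_nonneg_left hmY g1)
  have b2 : T.g1 * Y + 2 * T.et * Y ≤ u * Y := by
    have := mul_le_mul_of_nonneg_right gu hY
    linarith
  have b3 : (X - m) * (2 * T.et * Y) ≤ (X - m) * (u * Y - ga * m) :=
    mul_le_mul_of_nonneg_left (by linarith) (by linarith)
  rcases le_total Y X with h | h
  · have c1 : T.et * (Y ^ 2 - m ^ 2) ≤ (X - m) * (2 * T.et * Y) := by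
      have c2 : (Y - m) * (Y + m) ≤ (X - m) * (2 * Y) :=
        mul_le_mul (by linarith) (by linarith) (by linarith) (by linarith)
      calc T.et * (Y ^ 2 - m ^ 2) = T.et * ((Y - m) * (Y + m)) := by ring
        _ ≤ T.et * ((X - m) * (2 * Y)) := mul_le_mul_of_nonneg_left c2 et0
        _ = (X - m) * (2 * T.et * Y) := by ring
    have c3 : 0 ≤ n2 * (Y * max (Y - T.r * X) 0) :=
      mul_nonneg hn0 (mul_nonneg hY (le_max_right _ _))
    nlinarith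
  · have c1 : T.et * (X ^ 2 - m ^ 2) ≤ (X - m) * (2 * T.et * Y) := by
      have c2 : (X - m) * (X + m) ≤ (X - m) * (2 * Y) :=
        mul_le_mul_of_nonneg_left (by linarith) (by linarith)
      calc T.et * (X ^ 2 - m ^ 2) = T.et * ((X - m) * (X + m)) := by ring
        _ ≤ T.et * ((X - m) * (2 * Y)) := mul_le_mul_of_nonneg_left c2 et0
        _ = (X - m) * (2 * T.et * Y) := by ring
    have c3 : n2 * (Y * (Y - T.r * X)) ≤ n2 * (Y * max (Y - T.r * X) 0) :=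
      mul_le_mul_of_nonneg_left (mul_le_mul_of_nonneg_left (le_max_left _ _) hY) hn0
    have c4 : 0 ≤ T.et * (T.r * (Y - X) ^ 2 + (1 - T.r) * X ^ 2 +
        T.r * (1 - T.r) * (X * Y)) := by
      refine mul_nonneg et0 ?_
      have d1 : 0 ≤ T.r * (Y - X) ^ 2 := mul_nonneg r0 (sq_nonneg _)
      have d2 : 0 ≤ (1 - T.r) * X ^ 2 := mul_nonneg (by linarith) (sq_nonneg _)
      have d3 : 0 ≤ T.r * (1 - T.r) * (X * Y) :=
        mul_nonneg (mul_nonneg r0 (by linarith)) (mul_nonneg hX hY)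
      linarith
    have e : T.et * X ^ 2 - T.et * Y ^ 2 + n2 * (Y * (Y - T.r * X)) =
        T.et * (T.r * (Y - X) ^ 2 + (1 - T.r) * X ^ 2 + T.r * (1 - T.r) * (X * Y)) := by
      rw [hn]
      ring
    nlinarith

/-- the cell `(t, f)` -/
private theorem tf_TubeIIa {T : TP} {u n2 ga X Y m : ℝ} (hTu : T.u = u) (hn2 : T.n2 = n2)
    (het : T.et * (1 + T.r) = n2) (et0 : 0 ≤ T.et) (r0 : 0 ≤ T.r) (r1 : T.r ≤ 1) (u0 : 0 ≤ u)
    (mu0 : 0 ≤ T.mu) (g1 : 0 ≤ T.g1) (hga : ga ≤ T.g1)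
    (hX : 0 ≤ X) (hY : 0 ≤ Y) (hm : 0 ≤ m) (hmX : m ≤ X) (hmY : Y ≤ m) :
    0 ≤ T.Ho X Y - ga * (X * m) - (u - n2) * (Y * m) + (ga + T.et - n2) * m ^ 2 := by
  unfold TP.Ho
  rw [hTu, hn2]
  have a1 : 0 ≤ T.mu * max (Y - T.r * X) 0 ^ 2 := mul_nonneg mu0 (sq_nonneg _)
  have a3 : 0 ≤ Y * max (T.g2 * Y - u * X) 0 := mul_nonneg hY (le_max_right _ _)
  have a4 : 0 ≤ (X - Y) * max (T.r * X - Y) 0 := last_TubeIIa hX r1
  have hre : 0 ≤ T.et * T.r := mul_nonneg et0 r0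
  have hn : n2 = T.et + T.et * T.r := by rw [← het]; ring
  have hn0 : 0 ≤ n2 := by linarith
  have a5 : 0 ≤ n2 * (Y * max (Y - T.r * X) 0) :=
    mul_nonneg hn0 (mul_nonneg hY (le_max_right _ _))
  have a6 := p1_TubeIIa u0 g1 hga hY hm hmX
  have b1 : (m - Y) * (T.r * m - Y) ≤ (X - Y) * max (T.r * X - Y) 0 := by
    rcases le_total (T.r * m - Y) 0 with h | h
    · exact (mul_nonpos_of_nonneg_of_nonpos (by linarith) h).trans a4
    · have h1 : T.r * m ≤ T.r * X := mul_le_mul_of_nonneg_left hmX r0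
      exact mul_le_mul (by linarith) ((by linarith : T.r * m - Y ≤ T.r * X - Y).trans
        (le_max_left _ _)) h (by linarith)
  have b2 : T.et * ((m - Y) * (T.r * m - Y)) ≤ T.et * ((X - Y) * max (T.r * X - Y) 0) :=
    mul_le_mul_of_nonneg_left b1 et0
  have e : n2 * (Y * m) + (T.et - n2) * m ^ 2 - T.et * Y ^ 2 =
      -(T.et * ((m - Y) * (T.r * m - Y))) := by
    rw [hn]
    ring
  nlinarith

theorem TubeII.tf {L K : LF} {u w : ℝ} {T : TP} (h : TubeII L K u w T) {X Y : ℝ} (hX : 0 ≤ X)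
    (hY : 0 ≤ Y) :
    CellsOK L K (tal L K T.et u) (u - L.b0) (u - K.b0) true false X Y (T.Ho X Y) := by
  intro ix iy m hm hix hiy
  have hH : 0 ≤ T.Ho X Y := ho_TubeIIa h.Tu h.n2 h.et h.et0 h.r0 h.r1 h.mu0 h.un hX hY
  have hK0 : 0 ≤ K.nu := h.lK.nu
  have hnu : K.nu = K.a1 + K.zp - K.b0 := rfl
  have hsa := h.sa1
  have hD := h.D
  have hk2 := h.k2
  have hXm : 0 ≤ X * m := mul_nonneg hX hm
  have hYm : 0 ≤ Y * m := mul_nonneg hY hm
  have hmm : 0 ≤ m ^ 2 := sq_nonneg m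
  cases ix <;> cases iy <;> simp only [inC, if_true, if_false, Bool.false_eq_true] at hix hiy
  · -- X ≤ m, Y ≤ m
    have c1 : 0 ≤ L.sa u * (X * m) := mul_nonneg hsa hXm
    have c2 : 0 ≤ (2 * K.b0 - K.nu - u) * (Y * m) := mul_nonneg (by linarith) hYm
    have c3 : 0 ≤ tD L K T.et u * m ^ 2 := mul_nonneg hD hmm
    have e : Qc L K (tal L K T.et u) (u - L.b0) (u - K.b0) true false false false X Y m
        (T.Ho X Y) = T.Ho X Y + L.sa u * (X * m) + (2 * K.b0 - K.nu - u) * (Y * m) +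
          tD L K T.et u * m ^ 2 := by
      simp only [Qc, LF.p, LF.q, ef, sg, tal, LF.sa, LF.nu, tD, Bool.and_false, Bool.and_true,
        Bool.false_eq_true, if_true, if_false, h.lK.zm, h.lK.b1]
      ring
    rw [e]
    linarith
  · -- X ≤ m ≤ Y
    have c1 : 0 ≤ L.sa u * (X * m) := mul_nonneg hsa hXm
    have c3 : 0 ≤ tD L K T.et u * m ^ 2 := mul_nonneg hD hmm
    have c4 : m ^ 2 ≤ Y * m := by
      rw [sq]
      exact mul_le_mul_of_nonneg_right hiy hm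
    have c5 : K.nu * m ^ 2 ≤ (2 * K.b0 - u) * (Y * m) :=
      mul_le_mul (by linarith) c4 hmm (by linarith)
    have e : Qc L K (tal L K T.et u) (u - L.b0) (u - K.b0) true false false true X Y m
        (T.Ho X Y) = T.Ho X Y + L.sa u * (X * m) + (2 * K.b0 - u) * (Y * m) +
          tD L K T.et u * m ^ 2 - K.nu * m ^ 2 := by
      simp only [Qc, LF.p, LF.q, ef, sg, tal, LF.sa, LF.nu, tD, Bool.and_false, Bool.and_true,
        Bool.false_eq_true, if_true, if_false, h.lK.zm, h.lK.b1]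
      ring
    rw [e]
    linarith
  · -- Y ≤ m ≤ X
    have c := tf_TubeIIa h.Tu h.n2 h.et h.et0 h.r0 h.r1 h.u0.le h.mu0 h.g1 h.g1' hX hY hm hix hiy
    have e : Qc L K (tal L K T.et u) (u - L.b0) (u - K.b0) true false true false X Y m
        (T.Ho X Y) = T.Ho X Y - L.ga u * (X * m) - (u - K.nu) * (Y * m) +
          (L.ga u + T.et - K.nu) * m ^ 2 := by
      simp only [Qc, LF.p, LF.q, ef, sg, tal, LF.ga, LF.nu, Bool.and_false, Bool.and_true,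
        Bool.false_eq_true, if_true, if_false, h.lK.zm, h.lK.b1]
      ring
    rw [e]
    exact c
  · -- m ≤ X, m ≤ Y
    have c := tt_TubeIIa h.Tu h.n2 h.et h.et0 h.r0 h.r1 h.mu0 h.g1 h.g1' h.gu1 hX hY hm hix hiy
    have e : Qc L K (tal L K T.et u) (u - L.b0) (u - K.b0) true false true true X Y m
        (T.Ho X Y) = T.Ho X Y - L.ga u * (X * m) - u * (Y * m) + (L.ga u + T.et) * m ^ 2 := by
      simp only [Qc, LF.p, LF.q, ef, sg, tal, LF.ga, Bool.and_false, Bool.and_true,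
        Bool.false_eq_true, if_true, if_false, h.lK.zm, h.lK.b1]
      ring
    rw [e]
    exact c

end Pool.Agent.RRS
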