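import Pool.Agent.RRS.TubeDefs

/-!
# Package Tube-IIb: second region, the cells `x ≤ 0 ≤ y`

Write `A1 = L.a1`, `k1 = L.b0`, `c1 = L.a0`, `z1 = L.zp = L.zm`, `ν1 = L.nu = A1 + z1 - k1`, `A2,
  k2, c2,
z2, ν2` the same for `K`; `b1 = 2 k - A`; `γ2 = K.ga u = k2 - c2 - u`; `r = T.r`, `η = T.et`,
`η (1 + r) = ν2`; `α = tal L K η u`.  `P+ = max P 0`.
`Ho = u X Y + mu (Y - r X)+ ^ 2 + X (g1 X - u Y)+ / 4 + Y (g2 Y - u X)+ / 4 - η Y ^ 2 + ν2 Y (Y -
  r X)+
+ η (X - Y) (r X - Y)+`.  The term `(X - Y) (r X - Y)+` is `≥ 0` (if `r X > Y` then `X ≥ r X >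
  Y`).
`ix = true` means `m ≤ X`, `ix = false` means `X ≤ m`.

*Fact (P2)*: for `0 ≤ m ≤ Y`, `0 ≤ X`: `(Y - m) (u X - g2 m) ≥ - Y (g2 Y - u X)+ / 4`:
if `g2 m ≤ u X` the left side is `≥ 0`; otherwise `u X < g2 m` and `Y (g2 Y - u X) - 4 (Y - m)
(g2 m - u X) = g2 (Y - 2 m) ^ 2 + u X (3 Y - 4 m)`, which is `≥ 0` if `4 m ≤ 3 Y`, and for `4 m >
  3 Y`
it is `≥ g2 ((Y - 2 m) ^ 2 - m (4 m - 3 Y)) = g2 Y (Y - m) ≥ 0`.  The same with `γ2 ≤ g2`.

*Fact (H)*: `Ho ≥ 0`, even without the terms with `mu`, `g1`, `g2`: if `Y ≤ r X`: `u X Y ≥ η Y ^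
  2` (`Y ≤ X`,
`η ≤ ν2 ≤ u`); if `Y ≥ r X`: `u X Y - η Y ^ 2 + ν2 Y (Y - r X) = (u - r ν2) X Y + r η Y ^ 2` (as
  `ν2 - η =
r η`).

* `(t, t)` (`m ≤ X, Y`): `Ho - u X m - γ2 Y m + (γ2 + η) m ^ 2 = (Y - m) (u X - γ2 m) - η (Y ^ 2
  - m ^ 2) +
  ν2 Y (Y - r X)+ + ...`; `u X - γ2 m ≥ (u - g2) X ≥ 2 η X`.  If `Y ≤ X`: `Y + m ≤ 2 X`, done.  If
  `X ≤ Y`: `2 η X (Y - m) - η (Y - m) (Y + m) + ν2 Y (Y - r X) ≥ 0`: `(Y - m) (Y + m - 2 X) ≤
  (Y - X) ^ 2` (difference `(m - X) ^ 2`) and `Y (Y - r X) ≥ (Y - X) ^ 2`, `ν2 ≥ η`.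
* `(f, t)` (`X ≤ m ≤ Y`): `Ho - (u - ν1) X m - γ2 Y m + (γ2 - ν1 + η) m ^ 2 = (Y - m) (u X - γ2
  m) -
  ν1 m (m - X) - η (Y ^ 2 - m ^ 2) + ν2 Y (Y - r X) + mu (Y - r X) ^ 2 + Y (g2 Y - u X)+ / 4 +
  ...`.
  (P2) for the first term.  `ν1 m (m - X) + η (Y ^ 2 - m ^ 2) ≤ ν1 Y (Y - X)`: the difference is
  `(Y - m) (ν1 (Y + m - X) - η (Y + m)) ≥ 0`, because `Y + m - X ≥ Y`, `ν1 ≥ 2 η` and `2 Y ≥ Y +
  m`.
  `ν1 Y (Y - X) = ν2 Y (Y - X) + (ν1 - ν2) Y (Y - X)`, `Y - X ≤ Y - r X`, and `(ν1 - ν2) Y (Y -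
  X) ≤
  mu (Y - r X) ^ 2`: with `Y - r X = (1 - r) Y + r (Y - X)`, `(Y - r X) ^ 2 ≥ 4 r (1 - r) Y (Y -
  X)`, and
  the field `mu`.
* `(t, f)` (`Y ≤ m ≤ X`): `Ho + (2 k1 - u) X m + (K.sa u) Y m + c' m ^ 2`, `c' = 2 (k1 - A1) + z2
  +
  (k2 - A2) + η - u`: (H), `X m ≥ m ^ 2`, `2 k1 - u + c' ≥ 0` is the field `c1`.
* `(f, f)` (`X, Y ≤ m`): `Ho + (2 k1 - ν1 - u) X m + (K.sa u) Y m + D m ^ 2`: all terms are `≥ 0`.

(The exact form after `simp only [Qc, LF.p, LF.q, ef, sg, ...]` may be ordered in another way,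
  close
with `linarith`/`nlinarith` after `have`s for the facts above.)

Difficulty: 1.2 h.
-/

set_option autoImplicit false

noncomputable section

namespace Pool.Agent.RRS

open Real

/-- the lower bound of the form by its main terms -/
private theorem Ho_ge_TubeIIb {L K : LF} {u w : ℝ} {T : TP} (h : TubeII L K u w T) {X Y : ℝ}
    (hX : 0 ≤ X) (hY : 0 ≤ Y) :
    u * (X * Y) + T.mu * max (Y - T.r * X) 0 ^ 2 + Y * max (T.g2 * Y - u * X) 0 / 4 -
      T.et * Y ^ 2 + K.nu * (Y * max (Y - T.r * X) 0) ≤ T.Ho X Y := by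
  have hQ : 0 ≤ X * max (T.g1 * X - u * Y) 0 / 4 := by positivity
  have hS : 0 ≤ T.et * ((X - Y) * max (T.r * X - Y) 0) := by
    apply mul_nonneg h.et0
    rcases le_total (T.r * X - Y) 0 with h1 | h1
    · rw [max_eq_right h1, mul_zero]
    · have h2 : T.r * X ≤ 1 * X := mul_le_mul_of_nonneg_right h.r1 hX
      apply mul_nonneg _ (le_max_right _ _)
      linarith
  unfold TP.Ho
  rw [h.Tu, h.n2]
  linarith

/-- fact (P2) -/
private theorem P2_TubeIIb {u g c X Y m R : ℝ} (hu : 0 ≤ u) (hg : 0 ≤ g) (hc : c ≤ g)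
    (hX : 0 ≤ X) (hm : 0 ≤ m) (hmY : m ≤ Y) (hR0 : 0 ≤ R) (hR : g * Y - u * X ≤ R) :
    -(Y * R / 4) ≤ (Y - m) * (u * X - c * m) := by
  have hY : 0 ≤ Y := hm.trans hmY
  have huX : 0 ≤ u * X := mul_nonneg hu hX
  have h1 : (Y - m) * (u * X - g * m) ≤ (Y - m) * (u * X - c * m) := by
    apply mul_le_mul_of_nonneg_left _ (by linarith)
    have := mul_le_mul_of_nonneg_right hc hm
    linarith
  have hYR : Y * (g * Y - u * X) ≤ Y * R := mul_le_mul_of_nonneg_left hR hY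
  have hYR0 : 0 ≤ Y * R := mul_nonneg hY hR0
  refine le_trans ?_ h1
  rcases le_total (g * m) (u * X) with h2 | h2
  · have : 0 ≤ (Y - m) * (u * X - g * m) := mul_nonneg (by linarith) (by linarith)
    linarith
  · -- `Y (g Y - u X) - 4 (Y - m) (g m - u X) = g (Y - 2 m) ^ 2 + u X (3 Y - 4 m)`
    have key : 0 ≤ g * (Y - 2 * m) ^ 2 + u * X * (3 * Y - 4 * m) := by
      rcases le_total (4 * m) (3 * Y) with h3 | h3
      · have := mul_nonneg huX (sub_nonneg.2 h3)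
        positivity
      · have h4 : u * X * (4 * m - 3 * Y) ≤ g * m * (4 * m - 3 * Y) :=
          mul_le_mul_of_nonneg_right h2 (by linarith)
        have h5 : 0 ≤ g * (Y * (Y - m)) := mul_nonneg hg (mul_nonneg hY (by linarith))
        nlinarith
    nlinarith

/-- fact (H) -/
private theorem H_TubeIIb {L K : LF} {u w : ℝ} {T : TP} (h : TubeII L K u w T) {X Y : ℝ}
    (hX : 0 ≤ X) (hY : 0 ≤ Y) : 0 ≤ T.Ho X Y := by
  have hge := Ho_ge_TubeIIb h hX hY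
  have hR : 0 ≤ Y * max (T.g2 * Y - u * X) 0 / 4 := by positivity
  have hmu := h.mu0
  have hM : 0 ≤ T.mu * max (Y - T.r * X) 0 ^ 2 := by positivity
  have hXY : 0 ≤ X * Y := mul_nonneg hX hY
  have hr0 := h.r0
  have hr1 := h.r1
  have het := h.et
  have het0 := h.et0
  have hen : T.et ≤ u := by
    have h1 := h.un
    have h2 : 0 ≤ T.et * T.r := mul_nonneg het0 hr0
    nlinarith
  rcases le_total (Y - T.r * X) 0 with h1 | h1
  · rw [max_eq_right h1] at hge hM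
    have hYX : Y ≤ X := by
      have : T.r * X ≤ 1 * X := mul_le_mul_of_nonneg_right hr1 hX
      linarith
    have h2 : T.et * Y ^ 2 ≤ u * (X * Y) := by
      have h3 : Y ^ 2 ≤ X * Y := by nlinarith
      calc T.et * Y ^ 2 ≤ T.et * (X * Y) := mul_le_mul_of_nonneg_left h3 het0
        _ ≤ u * (X * Y) := mul_le_mul_of_nonneg_right hen hXY
    nlinarith
  · rw [max_eq_left h1] at hge hM
    have h2 : 0 ≤ (u - T.r * K.nu) * (X * Y) := by
      apply mul_nonneg _ hXY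
      have h3 : T.r * K.nu ≤ 1 * K.nu := mul_le_mul_of_nonneg_right hr1 h.lK.nu
      have := h.un
      linarith
    have h3 : 0 ≤ T.r * T.et * Y ^ 2 := by positivity
    have h4 : u * (X * Y) - T.et * Y ^ 2 + K.nu * (Y * (Y - T.r * X)) =
        (u - T.r * K.nu) * (X * Y) + T.r * T.et * Y ^ 2 := by
      rw [← het]
      ring
    linarith

theorem TubeII.ft {L K : LF} {u w : ℝ} {T : TP} (h : TubeII L K u w T) {X Y : ℝ} (hX : 0 ≤ X)
    (hY : 0 ≤ Y) :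
    CellsOK L K (tal L K T.et u) (u - L.b0) (u - K.b0) false true X Y (T.Ho X Y) := by
  have hge := Ho_ge_TubeIIb h hX hY
  have hH := H_TubeIIb h hX hY
  have hP0 : 0 ≤ max (Y - T.r * X) 0 := le_max_right _ _
  have hP1 : Y - T.r * X ≤ max (Y - T.r * X) 0 := le_max_left _ _
  have hR0 : 0 ≤ max (T.g2 * Y - u * X) 0 := le_max_right _ _
  have hR1 : T.g2 * Y - u * X ≤ max (T.g2 * Y - u * X) 0 := le_max_left _ _
  generalize max (Y - T.r * X) 0 = P at hge hP0 hP1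
  generalize max (T.g2 * Y - u * X) 0 = R at hge hR0 hR1
  generalize T.Ho X Y = H at hge hH
  have hmu := h.mu0
  have hM : 0 ≤ T.mu * P ^ 2 := by positivity
  have hYR : 0 ≤ Y * R / 4 := by positivity
  have hr0 := h.r0
  have hr1 := h.r1
  have het := h.et
  have het0 := h.et0
  have hrX : T.r * X ≤ 1 * X := mul_le_mul_of_nonneg_right hr1 hX
  have hrX0 : 0 ≤ T.r * X := mul_nonneg hr0 hX
  have hnu2 : 0 ≤ K.nu := h.lK.nu
  have hen2 : T.et ≤ K.nu := by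
    have h2 : 0 ≤ T.et * T.r := mul_nonneg het0 hr0
    nlinarith
  have hLb := h.lL.b1
  have hLz := h.lL.zm
  have hg2' := h.g2'
  have hg2 := h.g2
  have hu0 := h.u0
  have hYP : K.nu * (Y * (Y - T.r * X)) ≤ K.nu * (Y * P) :=
    mul_le_mul_of_nonneg_left (mul_le_mul_of_nonneg_left hP1 hY) hnu2
  have hYP0 : 0 ≤ K.nu * (Y * P) := by positivity
  intro ix iy m hm hix hiy
  cases ix <;> cases iy <;>
    simp only [inC, if_true, if_false, Bool.false_eq_true] at hix hiy <;>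
    simp only [Qc, LF.p, LF.q, ef, sg, tal, if_true, if_false, Bool.false_eq_true,
      Bool.and_true, Bool.and_false, hLb, hLz]
  · -- `(f, f)`
    have h1 : 0 ≤ (2 * L.b0 - L.nu - u) * (X * m) :=
      mul_nonneg (by have := h.k1; linarith) (mul_nonneg hX hm)
    have h2 : 0 ≤ K.sa u * (Y * m) := mul_nonneg h.sa2 (mul_nonneg hY hm)
    have h3 : 0 ≤ tD L K T.et u * m ^ 2 := mul_nonneg h.D (by positivity)
    simp only [LF.nu, LF.sa, tD] at h1 h2 h3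
    linarith
  · -- `(f, t)`: `X ≤ m ≤ Y`
    have hP2 := P2_TubeIIb (c := K.ga u) hu0.le hg2 hg2' hX hm hiy hR0 hR1
    have hXY : X ≤ Y := hix.trans hiy
    have hn1 : L.nu * (m * (m - X)) + T.et * (Y ^ 2 - m ^ 2) ≤ L.nu * (Y * (Y - X)) := by
      have h1 : 0 ≤ (Y - m) * (L.nu * (Y + m - X) - T.et * (Y + m)) := by
        apply mul_nonneg (by linarith)
        have h2 : L.nu * Y ≤ L.nu * (Y + m - X) :=
          mul_le_mul_of_nonneg_left (by linarith) h.lL.nu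
        have h3 : 2 * T.et * Y ≤ L.nu * Y := mul_le_mul_of_nonneg_right h.en hY
        have h4 : T.et * (Y + m) ≤ T.et * (2 * Y) :=
          mul_le_mul_of_nonneg_left (by linarith) het0
        linarith
      linarith
    have hn2 : K.nu * (Y * (Y - X)) ≤ K.nu * (Y * (Y - T.r * X)) :=
      mul_le_mul_of_nonneg_left (mul_le_mul_of_nonneg_left (by linarith) hY) hnu2
    have hn3 : (L.nu - K.nu) * (Y * (Y - X)) ≤ T.mu * P ^ 2 := by
      have h1 : 0 ≤ Y * (Y - X) := mul_nonneg hY (by linarith)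
      have h2 : (L.nu - K.nu) * (Y * (Y - X)) ≤
          4 * (T.r * (1 - T.r)) * T.mu * (Y * (Y - X)) :=
        mul_le_mul_of_nonneg_right h.mu h1
      have h3 : 4 * (T.r * (1 - T.r)) * (Y * (Y - X)) ≤ (Y - T.r * X) ^ 2 := by
        have : 0 ≤ ((1 - T.r) * Y - T.r * (Y - X)) ^ 2 := by positivity
        nlinarith
      have h4 : (Y - T.r * X) ^ 2 ≤ P ^ 2 := by
        apply pow_le_pow_left₀ _ hP1
        linarith
      have h5 := mul_le_mul_of_nonneg_left (h3.trans h4) hmu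
      linarith
    simp only [LF.ga, LF.nu] at *
    linarith
  · -- `(t, f)`: `Y ≤ m ≤ X`
    have hXm : m * m ≤ X * m := mul_le_mul_of_nonneg_right hix hm
    have hk : 0 ≤ 2 * L.b0 - u := by
      have := h.k1
      have := h.lL.nu
      linarith
    have h1 : (2 * L.b0 - u) * (m * m) ≤ (2 * L.b0 - u) * (X * m) :=
      mul_le_mul_of_nonneg_left hXm hk
    have h2 : 0 ≤ K.sa u * (Y * m) := mul_nonneg h.sa2 (mul_nonneg hY hm)
    have h3 : 0 ≤ (4 * L.b0 - 2 * L.a1 + K.zp + K.b0 - K.a1 + T.et - 2 * u) * (m * m) :=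
      mul_nonneg h.c1 (mul_self_nonneg m)
    simp only [LF.sa] at h2
    linarith
  · -- `(t, t)`: `m ≤ X, Y`
    have h1 : 2 * T.et * X ≤ u * X - K.ga u * m := by
      have h2 : K.ga u * m ≤ T.g2 * m := mul_le_mul_of_nonneg_right hg2' hm
      have h3 : T.g2 * m ≤ T.g2 * X := mul_le_mul_of_nonneg_left hix hg2
      have h4 : (T.g2 + 2 * T.et) * X ≤ u * X := mul_le_mul_of_nonneg_right h.gu2 hX
      linarith
    have h2 : (Y - m) * (2 * T.et * X) ≤ (Y - m) * (u * X - K.ga u * m) :=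
      mul_le_mul_of_nonneg_left h1 (by linarith)
    have h3 : 0 ≤ (Y - m) * (2 * T.et * X) - T.et * (Y ^ 2 - m ^ 2) + K.nu * (Y * P) := by
      rcases le_total Y X with h4 | h4
      · have h5 : 0 ≤ T.et * ((Y - m) * (2 * X - Y - m)) :=
          mul_nonneg het0 (mul_nonneg (by linarith) (by linarith))
        linarith
      · have h5 : T.et * ((Y - m) * (Y + m - 2 * X)) ≤ T.et * (Y - X) ^ 2 := by
          apply mul_le_mul_of_nonneg_left _ het0
          have := sq_nonneg (m - X)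
          linarith
        have h6 : T.et * (Y - X) ^ 2 ≤ K.nu * (Y - X) ^ 2 :=
          mul_le_mul_of_nonneg_right hen2 (by positivity)
        have h7 : K.nu * (Y - X) ^ 2 ≤ K.nu * (Y * (Y - T.r * X)) := by
          apply mul_le_mul_of_nonneg_left _ hnu2
          have h8 : (Y - X) * (Y - X) ≤ Y * (Y - T.r * X) :=
            mul_le_mul (by linarith) (by linarith) (by linarith) hY
          linarith
        linarith
    simp only [LF.ga] at *
    linarith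

end Pool.Agent.RRS
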