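import Pool.Agent.RRS.TubeDefs

/-!
# Package Tube-IIc: second region, the cells of equal signs

Write `A1 = L.a1`, `k1 = L.b0`, `c1 = L.a0`, `z1 = L.zp = L.zm`, `ν1 = L.nu = A1 + z1 - k1`, `A2,
  k2, c2,
z2, ν2` the same for `K`; `b1 = 2 k - A`; `γ1 = L.ga u = k1 - c1 - u`, `γ2 = K.ga u`; `r = T.r`,
`η = T.et`, `η (1 + r) = ν2` (so `0 ≤ η ≤ ν2 ≤ ν1`); `α = tal L K η u = (k1 - A1) + (k2 - A2) + η
  - u`;
`D = tD L K η u ≥ 0`.  `Hs = h1 X ^ 2 + h3 Y ^ 2 + h4 min ^ 2`, `h1, h3, h4 ≥ 0`.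
`ix = true` means `m ≤ X`, `ix = false` means `X ≤ m`.

`tt` (`x, y ≥ 0`), `E1 = u - k1 - c1 ≥ 0`, `E2 = u - k2 - c2 ≥ 0`:
* `(t, t)`: `Hs + E1 X m + E2 Y m - W m ^ 2`, `W = 2 A1 + 2 A2 - c1 - c2 - k1 - k2 - η + u ≥ 0`,
  for
  `0 ≤ m ≤ min X Y`: concave in `m` (`quad_concave`, `Cells.lean`).  At `m = 0` it is `Hs ≥ 0`. 
  At
  `m = Y` (if `Y ≤ X`) it is `(X - Y) (h1 (X + Y) + E1 Y) + η Y ^ 2` (use `hs`), at `m = X` (if
  `X ≤ Y`)
  it is `(Y - X) (h3 (X + Y) + E2 X) + η X ^ 2`.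
* `(t, f)` (`Y ≤ m ≤ X`, `min = Y`): `Hs - γ1 X m - (2 A2 - u - ν2) Y m + (γ1 + η - ν2) m ^ 2 =
  h1 X ^ 2 -
  γ1 m (X - m) - (ν2 - η) m ^ 2 + (h3 + h4) Y ^ 2 - (2 A2 - u - ν2) Y m`; `γ1 m (X - m) ≤ g1 m (X
  - m) ≤
  g1 X ^ 2 / 4`, `h1 = g1 / 4 + (ν2 - η) + w`, `X ^ 2 ≥ m ^ 2`, and `w m ^ 2 - (2 A2 - u - ν2) Y
  m +
  (h3 + h4) Y ^ 2 ≥ 0` by the field `s2`.
* `(f, t)` (`X ≤ m ≤ Y`, `min = X`): `Hs - (2 A1 - u - ν1) X m - γ2 Y m + (γ2 - ν1 + η) m ^ 2`: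
  `(g2 / 4) Y ^ 2 ≥ γ2 m (Y - m)`, `(ν1 - η + w) Y ^ 2 ≥ (ν1 - η + w) m ^ 2`, and
  `w m ^ 2 - (2 A1 - u - ν1) X m + (h1 + h4) X ^ 2 ≥ 0` by `s1`.
* `(f, f)`: `Hs + (L.sa u) X m + (K.sa u) Y m + D m ^ 2`: all terms are `≥ 0`.

`ff` (`x, y ≤ 0`):
* `(t, t)`: `Hs + (2 k1 - u) X m + (2 k2 - u) Y m + c'' m ^ 2`, `c'' = 2 (k1 - A1) + 2 (k2 - A2)
  + η - u`;
  `X m, Y m ≥ m ^ 2`; the sum of the coefficients is `≥ 0` by the field `kk`.
* `(f, t)` (`X ≤ m ≤ Y`): `Hs + (2 k1 - ν1 - u) X m + (2 k2 - u) Y m + (D - ν2) m ^ 2`: `Y m ≥ m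
  ^ 2`,
  `2 k2 - u ≥ ν2` (field `k2`).
* `(t, f)` (`Y ≤ m ≤ X`): `Hs + (2 k1 - u) X m + (2 k2 - ν2 - u) Y m + c' m ^ 2`, `c' = 2 (k1 -
  A1) + z2 +
  (k2 - A2) + η - u`, `X m ≥ m ^ 2`, `2 k1 - u + c' ≥ 0` is the field `c1`.
* `(f, f)`: `Hs + (2 k1 - ν1 - u) X m + (2 k2 - ν2 - u) Y m + D m ^ 2`: all terms are `≥ 0`.

Difficulty: 1.2 h.
-/

set_option autoImplicit false

noncomputable section

namespace Pool.Agent.RRS

open Real

private theorem disc_TubeIIc {a b c m Y : ℝ} (ha : 0 ≤ a) (hc : 0 ≤ c) (h : b ^ 2 ≤ 4 * a * c) :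
    0 ≤ a * m ^ 2 - b * (Y * m) + c * Y ^ 2 := by
  rcases ha.eq_or_lt with h0 | h0
  · have hb : b = 0 := by
      rw [← h0] at h
      have : b ^ 2 ≤ 0 := by linarith
      exact pow_eq_zero_iff two_ne_zero |>.1 (le_antisymm this (sq_nonneg b))
    rw [← h0, hb]
    have := mul_nonneg hc (sq_nonneg Y)
    linarith
  · have e : 4 * a * (a * m ^ 2 - b * (Y * m) + c * Y ^ 2) =
        (2 * a * m - b * Y) ^ 2 + (4 * a * c - b ^ 2) * Y ^ 2 := by ring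
    have h1 : 0 ≤ 4 * a * (a * m ^ 2 - b * (Y * m) + c * Y ^ 2) := by
      rw [e]
      have := mul_nonneg (sub_nonneg.2 h) (sq_nonneg Y)
      have := sq_nonneg (2 * a * m - b * Y)
      linarith
    exact nonneg_of_mul_nonneg_right h1 (by linarith)

private theorem quarter_TubeIIc {g γ m X : ℝ} (hg : 0 ≤ g) (hγ : γ ≤ g) (hm : 0 ≤ m)
    (hX : m ≤ X) : γ * (m * (X - m)) ≤ g / 4 * X ^ 2 := by
  have h1 : γ * (m * (X - m)) ≤ g * (m * (X - m)) :=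
    mul_le_mul_of_nonneg_right hγ (mul_nonneg hm (sub_nonneg.2 hX))
  have h2 := mul_nonneg hg (sq_nonneg (X - 2 * m))
  have h3 : g * (X - 2 * m) ^ 2 = 4 * (g / 4 * X ^ 2 - g * (m * (X - m))) * 1 := by ring
  linarith

private theorem et_le_TubeIIc {L K : LF} {u w : ℝ} {T : TP} (h : TubeII L K u w T) :
    T.et ≤ K.nu := by
  have h1 := mul_nonneg h.et0 h.r0
  have h2 := h.et
  linarith

theorem TubeII.tt {L K : LF} {u w : ℝ} {T : TP} (h : TubeII L K u w T) {X Y : ℝ} (hX : 0 ≤ X)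
    (hY : 0 ≤ Y) :
    CellsOK L K (tal L K T.et u) (u - L.b0) (u - K.b0) true true X Y (T.Hs X Y) := by
  intro ix iy m hm hix hiy
  have he0 := h.et0
  have he2 : 0 ≤ K.nu - T.et := sub_nonneg.2 (et_le_TubeIIc h)
  have he1 : 0 ≤ L.nu - T.et := by linarith [h.en]
  have h1n : 0 ≤ T.h1 := by rw [h.h1]; linarith [h.g1, h.w0]
  have h3n : 0 ≤ T.h3 := by rw [h.h3]; linarith [h.g2, h.w0]
  have h4n := h.h4
  have hs := h.hs
  cases ix <;> cases iy <;>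
    simp only [inC, if_true, if_false, Bool.false_eq_true] at hix hiy <;>
    simp only [Qc, LF.p, LF.q, ef, sg, Bool.and_true, Bool.and_false, if_true, if_false,
      Bool.false_eq_true, tal, one_mul, mul_one, TP.Hs]
  · -- X ≤ m, Y ≤ m
    have hH : 0 ≤ T.h1 * X ^ 2 + T.h3 * Y ^ 2 + T.h4 * min X Y ^ 2 := by positivity
    have t1 : 0 ≤ (L.a1 - L.zp - L.b0 + u) * (X * m) := mul_nonneg h.sa1 (mul_nonneg hX hm)
    have t2 : 0 ≤ (K.a1 - K.zp - K.b0 + u) * (Y * m) := mul_nonneg h.sa2 (mul_nonneg hY hm)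
    have hD : 0 ≤ L.zp + K.zp + (K.b0 - K.a1) + (L.b0 - L.a1) + T.et - u := h.D
    have t3 := mul_nonneg hD (sq_nonneg m)
    linarith
  · -- X ≤ m ≤ Y
    rw [min_eq_left (hix.trans hiy)]
    have c1 : K.ga u * (m * (Y - m)) ≤ T.g2 / 4 * Y ^ 2 :=
      quarter_TubeIIc h.g2 h.g2' hm hiy
    have c2 : 0 ≤ (L.nu - T.et) * (Y ^ 2 - m ^ 2) :=
      mul_nonneg he1 (sub_nonneg.2 (pow_le_pow_left₀ hm hiy 2))
    have c3 : 0 ≤ w * (Y ^ 2 - m ^ 2) :=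
      mul_nonneg h.w0 (sub_nonneg.2 (pow_le_pow_left₀ hm hiy 2))
    have c5 := disc_TubeIIc (m := m) (Y := X) h.w0 (add_nonneg h1n h4n) h.s1
    have e3 := h.h3
    have c6 : T.h3 * Y ^ 2 = T.g2 / 4 * Y ^ 2 + (L.nu - T.et) * Y ^ 2 + w * Y ^ 2 := by
      rw [e3]; ring
    unfold LF.ga at c1
    unfold LF.nu at c2 c5 c6
    linarith
  · -- Y ≤ m ≤ X
    rw [min_eq_right (hiy.trans hix)]
    have c1 : L.ga u * (m * (X - m)) ≤ T.g1 / 4 * X ^ 2 :=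
      quarter_TubeIIc h.g1 h.g1' hm hix
    have c2 : 0 ≤ (K.nu - T.et) * (X ^ 2 - m ^ 2) :=
      mul_nonneg he2 (sub_nonneg.2 (pow_le_pow_left₀ hm hix 2))
    have c3 : 0 ≤ w * (X ^ 2 - m ^ 2) :=
      mul_nonneg h.w0 (sub_nonneg.2 (pow_le_pow_left₀ hm hix 2))
    have c5 := disc_TubeIIc (m := m) (Y := Y) h.w0 (add_nonneg h3n h4n) h.s2
    have e1 := h.h1
    have c6 : T.h1 * X ^ 2 = T.g1 / 4 * X ^ 2 + (K.nu - T.et) * X ^ 2 + w * X ^ 2 := by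
      rw [e1]; ring
    unfold LF.ga at c1
    unfold LF.nu at c2 c5 c6
    linarith
  · -- m ≤ X, m ≤ Y
    have hW := h.W
    have key := quad_concave
      (A := -(2 * L.a1 + 2 * K.a1 - L.a0 - K.a0 - L.b0 - K.b0 - T.et + u))
      (B := (u - L.b0 - L.a0) * X + (u - K.b0 - K.a0) * Y)
      (k := T.h1 * X ^ 2 + T.h3 * Y ^ 2 + T.h4 * min X Y ^ 2) (l := 0) (u := min X Y) (m := m)
      (by linarith) hm (le_min hix hiy) (by
        have hH : 0 ≤ T.h1 * X ^ 2 + T.h3 * Y ^ 2 + T.h4 * min X Y ^ 2 := by positivity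
        linarith) (by
        rcases le_total X Y with hXY | hXY
        · rw [min_eq_left hXY]
          have t1 : 0 ≤ T.h3 * (X + Y) + (u - K.b0 - K.a0) * X := by
            have a1 := mul_nonneg h3n (add_nonneg hX hY)
            have a2 := mul_nonneg h.e3 hX
            linarith
          have t2 := mul_nonneg (sub_nonneg.2 hXY) t1
          have t3 := mul_nonneg he0 (mul_nonneg hX hX)
          have t4 : (T.h1 + T.h3 + T.h4) * X ^ 2 = (2 * L.a1 + 2 * K.a1 - u) * X ^ 2 := by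
            rw [hs]
          linarith
        · rw [min_eq_right hXY]
          have t1 : 0 ≤ T.h1 * (X + Y) + (u - L.b0 - L.a0) * Y := by
            have a1 := mul_nonneg h1n (add_nonneg hX hY)
            have a2 := mul_nonneg h.e1 hY
            linarith
          have t2 := mul_nonneg (sub_nonneg.2 hXY) t1
          have t3 := mul_nonneg he0 (mul_nonneg hY hY)
          have t4 : (T.h1 + T.h3 + T.h4) * Y ^ 2 = (2 * L.a1 + 2 * K.a1 - u) * Y ^ 2 := by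
            rw [hs]
          linarith)
    linarith

theorem TubeII.ff {L K : LF} {u w : ℝ} {T : TP} (h : TubeII L K u w T) {X Y : ℝ} (hX : 0 ≤ X)
    (hY : 0 ≤ Y) :
    CellsOK L K (tal L K T.et u) (u - L.b0) (u - K.b0) false false X Y (T.Hs X Y) := by
  intro ix iy m hm hix hiy
  have he0 := h.et0
  have he2 := et_le_TubeIIc h
  have h1n : 0 ≤ T.h1 := by rw [h.h1]; linarith [h.g1, h.w0]
  have h3n : 0 ≤ T.h3 := by rw [h.h3]; linarith [h.g2, h.w0, h.en]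
  have h4n := h.h4
  have hH : 0 ≤ T.h1 * X ^ 2 + T.h3 * Y ^ 2 + T.h4 * min X Y ^ 2 := by positivity
  have hD : 0 ≤ L.zp + K.zp + (K.b0 - K.a1) + (L.b0 - L.a1) + T.et - u := h.D
  have hk1 := sub_nonneg.2 h.k1
  have hk2 := sub_nonneg.2 h.k2
  have n1 := h.lL.nu
  have n2 := h.lK.nu
  have hk1' : 0 ≤ 2 * L.b0 - u := by linarith
  have hk2' : 0 ≤ 2 * K.b0 - u := by linarith
  have x1 := mul_nonneg hk1 (mul_nonneg hX hm)
  have y1 := mul_nonneg hk2 (mul_nonneg hY hm)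
  have mD := mul_nonneg hD (sq_nonneg m)
  cases ix <;> cases iy <;>
    simp only [inC, if_true, if_false, Bool.false_eq_true] at hix hiy <;>
    simp only [Qc, LF.p, LF.q, ef, sg, Bool.false_and, if_false,
      Bool.false_eq_true, tal, mul_one, TP.Hs, h.lL.b1, h.lK.b1, h.lL.zm,
      h.lK.zm]
  · unfold LF.nu at x1 y1
    linarith
  · have t1 := mul_nonneg hk2' (mul_nonneg hm (sub_nonneg.2 hiy))
    have t2 := mul_nonneg hk2 (sq_nonneg m)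
    unfold LF.nu at x1 t2
    linarith
  · have t1 := mul_nonneg hk1' (mul_nonneg hm (sub_nonneg.2 hix))
    have t2 := mul_nonneg h.c1 (sq_nonneg m)
    unfold LF.nu at y1
    linarith
  · have t1 := mul_nonneg hk1' (mul_nonneg hm (sub_nonneg.2 hix))
    have t2 := mul_nonneg hk2' (mul_nonneg hm (sub_nonneg.2 hiy))
    have t3 := mul_nonneg h.kk (sq_nonneg m)
    have t4 := mul_nonneg he0 (sq_nonneg m)
    linarith

end Pool.Agent.RRS
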