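import Pool.Agent.RRS.TubeDefs

/-!
# Package Tube-Ia: first region, the cells of opposite signs

Write `A1 = L.a1`, `k1 = L.b0`, `c1 = L.a0`, `z1 = L.zp = L.zm`, `ν1 = L.nu = A1 + z1 - k1`, `A2,
  k2, c2,
z2` the same for `K`; `K.nu = 0` says `k2 = A2 + z2`; `b1 = 2 k - A`; `γ1 = L.ga u1 = k1 - c1 -
  u1`,
`γ2 = K.ga u2`; `α = tal L K 0 u1 = (k1 - A1) + (k2 - A2) - u1`; `T.u = u2`; `T.et = T.n2 = 0`, so
`Ho = u2 X Y + mu max(Y - r X) 0 ^ 2 + X max(g1 X - u2 Y) 0 / 4 + Y max(g2 Y - u2 X) 0 / 4`, all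
terms are nonnegative.  `ix = true` means `m ≤ X`, `ix = false` means `X ≤ m`.  After
`cases ix <;> cases iy` and `simp only [Qc, LF.p, LF.q, ef, sg, ...]` the expressions are:

*Two facts.* (P1) for `0 ≤ m ≤ X`, `0 ≤ Y`: `(X - m) (u2 Y - g1 m) ≥ - X max (g1 X - u2 Y) 0 / 4`:
if `g1 m ≤ u2 Y` the left side is `≥ 0`; otherwise `u2 Y < g1 m` and `X (g1 X - u2 Y) - 4 (X - m)
(g1 m - u2 Y) = g1 (X - 2 m) ^ 2 + u2 Y (3 X - 4 m)`, which is `≥ 0` if `4 m ≤ 3 X`, and for `4 m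
  > 3 X`
it is `≥ g1 ((X - 2 m) ^ 2 - m (4 m - 3 X)) = g1 X (X - m) ≥ 0`.  With `γ1 ≤ g1` also
`(X - m) (u2 Y - γ1 m) ≥ - X max (g1 X - u2 Y) 0 / 4`.
(P2) for `0 ≤ m ≤ Y`, `0 ≤ X`: `(Y - m) (u2 X - γ2 m) ≥ - Y max (g2 Y - u2 X) 0 / 4`, the same.

`tf` (`x ≥ 0 ≥ y`):
* `(t, t)` and `(t, f)`: `Ho - γ1 X m - u2 Y m + γ1 m ^ 2`, and `u2 X Y - γ1 X m - u2 Y m + γ1 m
  ^ 2 =
  (X - m) (u2 Y - γ1 m)`: use (P1).
* `(f, t)` and `(f, f)`: `Ho + (L.sa u1) X m + (2 k2 - u2) Y m + D m ^ 2`, `D = tD L K 0 u1`: all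
  terms are `≥ 0` (`sa`, `k2`, `D`).

`ft` (`x ≤ 0 ≤ y`):
* `(t, t)`: `Ho - u1 X m - γ2 Y m + (γ2 + u2 - u1) m ^ 2`, and `u2 X Y - u1 X m - γ2 Y m + (γ2 +
  u2 - u1)
  m ^ 2 = (Y - m) (u2 X - γ2 m) + (u2 - u1) (X m + m ^ 2)`: (P2) and `u1 ≤ u2`.
* `(f, t)` (`X ≤ m ≤ Y`): `Ho - (u1 - ν1) X m - γ2 Y m + (γ2 - ν1 + u2 - u1) m ^ 2 = (Y - m) (u2
  X - γ2 m)
  + (u2 - u1) (X m + m ^ 2) - ν1 m (m - X) + ...`; `ν1 m (m - X) ≤ ν1 Y (Y - X) ≤ mu (Y - r X) ^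
  2`: with
  `Y - r X = (1 - r) Y + r (Y - X)`, `(Y - r X) ^ 2 ≥ 4 r (1 - r) Y (Y - X)`, and the field `mu`.
* `(t, f)` (`Y ≤ m ≤ X`): `Ho + (2 k1 - u1) X m + a2 Y m + c' m ^ 2`, `a2 = A2 - z2 - k2 + u2 =
  u2 - 2 z2`, `c' = 2 (k1 - A1) + 2 z2 - u1`.  `u2 X Y + (2 k1 - u1) X m + a2 Y m + c' m ^ 2 =
  (X - m) (u2 Y + (2 k1 - u1) m) + m ((2 k1 - u1 + c') (m - Y) + (u2 + a2 + 2 k1 - u1 + c') Y)`,
  where
  `2 k1 - u1 + c' = 2 (2 k1 - A1 + z2 - u1) ≥ 0` (field `C`) and `u2 + a2 + 2 k1 - u1 + c' =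
  2 (u2 - u1) + 2 (2 k1 - A1) ≥ 0`.
* `(f, f)` (`X, Y ≤ m`): `Ho + (2 k1 - ν1 - u1) X m + a2 Y m + D m ^ 2`.  With `p = 2 k1 - ν1 -
  u1`:
  `u2 X Y + p X m + a2 Y m + D m ^ 2 = D (m - X) (m - Y) + (p + D) X (m - Y) + (a2 + D) (m - X) Y
  +
  (u2 + p + a2 + D) X Y`, and `p + D = 2 (2 k1 - A1 + z2 - u1) ≥ 0`, `a2 + D = z1 + k1 - A1 +
  (u2 - u1) ≥ 0` (field `zk`), `u2 + p + a2 + D = 2 (u2 - u1) + 2 (2 k1 - A1) ≥ 0`.

(The expressions were found by hand; the exact form after `simp` may be ordered in another way,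
  close
with `linarith`/`nlinarith` from the facts above after `have`s for the nonnegative products.)

Difficulty: 1.2 h.
-/

set_option autoImplicit false

noncomputable section

namespace Pool.Agent.RRS

open Real

private theorem P1_TubeIa {g u X Y m γ : ℝ} (hm : 0 ≤ m) (hX : m ≤ X) (hY : 0 ≤ Y) (hu : 0 ≤ u)
    (hg : 0 ≤ g) (hγ : γ ≤ g) :
    0 ≤ (X - m) * (u * Y - γ * m) + X * max (g * X - u * Y) 0 / 4 := by
  have hX0 : 0 ≤ X := hm.trans hX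
  have h1 : 0 ≤ (X - m) * ((g - γ) * m) :=
    mul_nonneg (sub_nonneg.2 hX) (mul_nonneg (sub_nonneg.2 hγ) hm)
  suffices h : 0 ≤ (X - m) * (u * Y - g * m) + X * max (g * X - u * Y) 0 / 4 by nlinarith
  rcases le_total (g * m) (u * Y) with h2 | h2
  · have h3 : 0 ≤ X * max (g * X - u * Y) 0 / 4 :=
      div_nonneg (mul_nonneg hX0 (le_max_right _ _)) (by norm_num)
    have h4 : 0 ≤ (X - m) * (u * Y - g * m) :=
      mul_nonneg (sub_nonneg.2 hX) (sub_nonneg.2 h2)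
    linarith
  · have h3 : u * Y ≤ g * X := h2.trans (mul_le_mul_of_nonneg_left hX hg)
    rw [max_eq_left (sub_nonneg.2 h3)]
    have h5 : 0 ≤ u * Y := mul_nonneg hu hY
    rcases le_total (4 * m) (3 * X) with h4 | h4
    · have h6 : 0 ≤ g * (X - 2 * m) ^ 2 := mul_nonneg hg (sq_nonneg _)
      have h7 : 0 ≤ u * Y * (3 * X - 4 * m) := mul_nonneg h5 (sub_nonneg.2 h4)
      nlinarith
    · have h6 : 0 ≤ g * (X * (X - m)) := mul_nonneg hg (mul_nonneg hX0 (sub_nonneg.2 hX))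
      have h7 : 0 ≤ (g * m - u * Y) * (4 * m - 3 * X) :=
        mul_nonneg (sub_nonneg.2 h2) (sub_nonneg.2 h4)
      nlinarith

private theorem Ho_TubeIa {L K : LF} {u1 u2 w : ℝ} {T : TP} (h : TubeI L K u1 u2 w T) (X Y : ℝ) :
    T.Ho X Y = u2 * (X * Y) + T.mu * max (Y - T.r * X) 0 ^ 2 +
      X * max (T.g1 * X - u2 * Y) 0 / 4 + Y * max (T.g2 * Y - u2 * X) 0 / 4 := by
  rw [TP.Ho, h.Tu, h.et0, h.n20]
  ring

private theorem parts_TubeIa {L K : LF} {u1 u2 w : ℝ} {T : TP} (h : TubeI L K u1 u2 w T) {X Y : ℝ}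
    (hX : 0 ≤ X) (hY : 0 ≤ Y) : 0 ≤ u2 * (X * Y) ∧ 0 ≤ T.mu * max (Y - T.r * X) 0 ^ 2 ∧
      0 ≤ X * max (T.g1 * X - u2 * Y) 0 / 4 ∧ 0 ≤ Y * max (T.g2 * Y - u2 * X) 0 / 4 :=
  ⟨mul_nonneg (h.u0.le.trans h.u12) (mul_nonneg hX hY), mul_nonneg h.mu0 (sq_nonneg _),
    div_nonneg (mul_nonneg hX (le_max_right _ _)) (by norm_num),
    div_nonneg (mul_nonneg hY (le_max_right _ _)) (by norm_num)⟩

private theorem Kb0_TubeIa {L K : LF} {u1 u2 w : ℝ} {T : TP} (h : TubeI L K u1 u2 w T) :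
    K.b0 = K.a1 + K.zp := by
  have := h.K0
  rw [LF.nu] at this
  linarith

theorem TubeI.ft {L K : LF} {u1 u2 w : ℝ} {T : TP} (h : TubeI L K u1 u2 w T) {X Y : ℝ} (hX : 0 ≤ X)
    (hY : 0 ≤ Y) :
    CellsOK L K (tal L K 0 u1) (u1 - L.b0) (u2 - K.b0) false true X Y (T.Ho X Y) := by
  have hb0 := Kb0_TubeIa h
  have hu2 : 0 ≤ u2 := h.u0.le.trans h.u12
  obtain ⟨q1, q2, q3, q4⟩ := parts_TubeIa h hX hY
  have hd : 0 ≤ u2 - u1 := sub_nonneg.2 h.u12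
  intro ix iy m hm hx hy
  rw [Ho_TubeIa h]
  cases ix <;> cases iy <;> simp only [inC, if_true, if_false, Bool.false_eq_true] at hx hy
  · -- X ≤ m, Y ≤ m
    have e : Qc L K (tal L K 0 u1) (u1 - L.b0) (u2 - K.b0) false true false false X Y m
        (u2 * (X * Y) + T.mu * max (Y - T.r * X) 0 ^ 2 + X * max (T.g1 * X - u2 * Y) 0 / 4 +
          Y * max (T.g2 * Y - u2 * X) 0 / 4) =
        tD L K 0 u1 * ((m - X) * (m - Y)) + 2 * (2 * L.b0 - L.a1 + K.zp - u1) * (X * (m - Y)) +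
        (L.zp + L.b0 - L.a1 + (u2 - u1)) * ((m - X) * Y) +
        (2 * (u2 - u1) + 2 * (2 * L.b0 - L.a1)) * (X * Y) +
        (T.mu * max (Y - T.r * X) 0 ^ 2 + X * max (T.g1 * X - u2 * Y) 0 / 4 +
          Y * max (T.g2 * Y - u2 * X) 0 / 4) := by
      simp only [Qc, LF.p, LF.q, ef, sg, tal, tD, Bool.false_and, Bool.and_false, Bool.true_and,
        if_true, if_false, Bool.false_eq_true, h.lL.zm, h.lL.b1, h.lK.zm, h.lK.b1, hb0]
      ring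
    rw [e]
    have h1 : 0 ≤ tD L K 0 u1 * ((m - X) * (m - Y)) :=
      mul_nonneg h.D (mul_nonneg (sub_nonneg.2 hx) (sub_nonneg.2 hy))
    have h2 : 0 ≤ 2 * (2 * L.b0 - L.a1 + K.zp - u1) * (X * (m - Y)) :=
      mul_nonneg (mul_nonneg (by norm_num) (sub_nonneg.2 h.C)) (mul_nonneg hX (sub_nonneg.2 hy))
    have h3 : 0 ≤ (L.zp + L.b0 - L.a1 + (u2 - u1)) * ((m - X) * Y) :=
      mul_nonneg (add_nonneg h.zk hd) (mul_nonneg (sub_nonneg.2 hx) hY)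
    have h4 : 0 ≤ (2 * (u2 - u1) + 2 * (2 * L.b0 - L.a1)) * (X * Y) :=
      mul_nonneg (by linarith [h.ak]) (mul_nonneg hX hY)
    linarith
  · -- X ≤ m ≤ Y
    have e : Qc L K (tal L K 0 u1) (u1 - L.b0) (u2 - K.b0) false true false true X Y m
        (u2 * (X * Y) + T.mu * max (Y - T.r * X) 0 ^ 2 + X * max (T.g1 * X - u2 * Y) 0 / 4 +
          Y * max (T.g2 * Y - u2 * X) 0 / 4) =
        ((Y - m) * (u2 * X - K.ga u2 * m) + Y * max (T.g2 * Y - u2 * X) 0 / 4) +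
        (u2 - u1) * (X * m + m ^ 2) + (T.mu * max (Y - T.r * X) 0 ^ 2 - L.nu * (m * (m - X))) +
        X * max (T.g1 * X - u2 * Y) 0 / 4 := by
      simp only [Qc, LF.p, LF.q, ef, sg, tal, LF.ga, LF.nu, Bool.false_and, Bool.and_true,
        Bool.true_and, Bool.and_false, if_true, if_false, Bool.false_eq_true, h.lL.zm, h.lL.b1,
        h.lK.zm, h.lK.b1, hb0]
      ring
    rw [e]
    have h1 := P1_TubeIa hm hy hX hu2 h.g2 h.g2'
    have h2 : 0 ≤ (u2 - u1) * (X * m + m ^ 2) :=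
      mul_nonneg hd (add_nonneg (mul_nonneg hX hm) (sq_nonneg m))
    have hXY : X ≤ Y := hx.trans hy
    have h3 : m * (m - X) ≤ Y * (Y - X) :=
      mul_le_mul hy (by linarith) (sub_nonneg.2 hx) (hm.trans hy)
    have h4 : L.nu * (m * (m - X)) ≤ L.nu * (Y * (Y - X)) :=
      mul_le_mul_of_nonneg_left h3 h.lL.nu
    have h5 : 0 ≤ Y * (Y - X) := mul_nonneg hY (sub_nonneg.2 hXY)
    have h6 : L.nu * (Y * (Y - X)) ≤ 4 * (T.r * (1 - T.r)) * T.mu * (Y * (Y - X)) :=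
      mul_le_mul_of_nonneg_right h.mu h5
    have h7 : 4 * (T.r * (1 - T.r)) * (Y * (Y - X)) ≤ (Y - T.r * X) ^ 2 := by
      nlinarith [sq_nonneg ((1 - T.r) * Y - T.r * (Y - X))]
    have h8 : 0 ≤ Y - T.r * X := by
      have : T.r * X ≤ 1 * X := mul_le_mul_of_nonneg_right h.r1 hX
      linarith
    have h9 : T.mu * (4 * (T.r * (1 - T.r)) * (Y * (Y - X))) ≤ T.mu * (Y - T.r * X) ^ 2 :=
      mul_le_mul_of_nonneg_left h7 h.mu0
    have h10 : 0 ≤ T.mu * max (Y - T.r * X) 0 ^ 2 - L.nu * (m * (m - X)) := by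
      rw [max_eq_left h8]
      linarith
    linarith
  · -- Y ≤ m ≤ X
    have e : Qc L K (tal L K 0 u1) (u1 - L.b0) (u2 - K.b0) false true true false X Y m
        (u2 * (X * Y) + T.mu * max (Y - T.r * X) 0 ^ 2 + X * max (T.g1 * X - u2 * Y) 0 / 4 +
          Y * max (T.g2 * Y - u2 * X) 0 / 4) =
        (X - m) * (u2 * Y + (2 * L.b0 - u1) * m) +
        m * (2 * (2 * L.b0 - L.a1 + K.zp - u1) * (m - Y) +
          (2 * (u2 - u1) + 2 * (2 * L.b0 - L.a1)) * Y) +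
        (T.mu * max (Y - T.r * X) 0 ^ 2 + X * max (T.g1 * X - u2 * Y) 0 / 4 +
          Y * max (T.g2 * Y - u2 * X) 0 / 4) := by
      simp only [Qc, LF.p, LF.q, ef, sg, tal, Bool.false_and, Bool.and_true,
        Bool.true_and, Bool.and_false, if_true, if_false, Bool.false_eq_true, h.lL.zm, h.lL.b1,
        h.lK.zm, h.lK.b1, hb0]
      ring
    rw [e]
    have h1 : 0 ≤ (X - m) * (u2 * Y + (2 * L.b0 - u1) * m) :=
      mul_nonneg (sub_nonneg.2 hx) (add_nonneg (mul_nonneg hu2 hY)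
        (mul_nonneg (sub_nonneg.2 h.k1) hm))
    have h2 : 0 ≤ m * (2 * (2 * L.b0 - L.a1 + K.zp - u1) * (m - Y) +
          (2 * (u2 - u1) + 2 * (2 * L.b0 - L.a1)) * Y) :=
      mul_nonneg hm (add_nonneg (mul_nonneg (mul_nonneg (by norm_num) (sub_nonneg.2 h.C))
        (sub_nonneg.2 hy)) (mul_nonneg (by linarith [h.ak]) hY))
    linarith
  · -- m ≤ X, m ≤ Y
    have e : Qc L K (tal L K 0 u1) (u1 - L.b0) (u2 - K.b0) false true true true X Y m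
        (u2 * (X * Y) + T.mu * max (Y - T.r * X) 0 ^ 2 + X * max (T.g1 * X - u2 * Y) 0 / 4 +
          Y * max (T.g2 * Y - u2 * X) 0 / 4) =
        ((Y - m) * (u2 * X - K.ga u2 * m) + Y * max (T.g2 * Y - u2 * X) 0 / 4) +
        (u2 - u1) * (X * m + m ^ 2) + T.mu * max (Y - T.r * X) 0 ^ 2 +
        X * max (T.g1 * X - u2 * Y) 0 / 4 := by
      simp only [Qc, LF.p, LF.q, ef, sg, tal, LF.ga, Bool.false_and, Bool.and_true,
        Bool.true_and, Bool.and_false, if_true, if_false, Bool.false_eq_true, h.lL.zm, h.lL.b1,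
        h.lK.zm, h.lK.b1, hb0]
      ring
    rw [e]
    have h1 := P1_TubeIa hm hy hX hu2 h.g2 h.g2'
    have h2 : 0 ≤ (u2 - u1) * (X * m + m ^ 2) :=
      mul_nonneg hd (add_nonneg (mul_nonneg hX hm) (sq_nonneg m))
    linarith

theorem TubeI.tf {L K : LF} {u1 u2 w : ℝ} {T : TP} (h : TubeI L K u1 u2 w T) {X Y : ℝ} (hX : 0 ≤ X)
    (hY : 0 ≤ Y) :
    CellsOK L K (tal L K 0 u1) (u1 - L.b0) (u2 - K.b0) true false X Y (T.Ho X Y) := by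
  have hb0 := Kb0_TubeIa h
  have hu2 : 0 ≤ u2 := h.u0.le.trans h.u12
  obtain ⟨q1, q2, q3, q4⟩ := parts_TubeIa h hX hY
  intro ix iy m hm hx hy
  rw [Ho_TubeIa h]
  cases ix
  · -- X ≤ m
    have e : Qc L K (tal L K 0 u1) (u1 - L.b0) (u2 - K.b0) true false false iy X Y m
        (u2 * (X * Y) + T.mu * max (Y - T.r * X) 0 ^ 2 + X * max (T.g1 * X - u2 * Y) 0 / 4 +
          Y * max (T.g2 * Y - u2 * X) 0 / 4) =
        L.sa u1 * (X * m) + (2 * K.b0 - u2) * (Y * m) + tD L K 0 u1 * m ^ 2 +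
        (u2 * (X * Y) + T.mu * max (Y - T.r * X) 0 ^ 2 + X * max (T.g1 * X - u2 * Y) 0 / 4 +
          Y * max (T.g2 * Y - u2 * X) 0 / 4) := by
      cases iy <;> simp only [Qc, LF.p, LF.q, ef, sg, tal, tD, LF.sa, Bool.false_and,
        Bool.and_true, Bool.true_and, Bool.and_false, if_true, if_false, Bool.false_eq_true,
        h.lL.zm, h.lL.b1, h.lK.zm, h.lK.b1, hb0] <;> ring
    rw [e]
    have h1 : 0 ≤ L.sa u1 * (X * m) := mul_nonneg h.sa (mul_nonneg hX hm)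
    have h2 : 0 ≤ (2 * K.b0 - u2) * (Y * m) := mul_nonneg (sub_nonneg.2 h.k2) (mul_nonneg hY hm)
    have h3 : 0 ≤ tD L K 0 u1 * m ^ 2 := mul_nonneg h.D (sq_nonneg m)
    linarith
  · -- m ≤ X
    simp only [inC, if_true] at hx
    have e : Qc L K (tal L K 0 u1) (u1 - L.b0) (u2 - K.b0) true false true iy X Y m
        (u2 * (X * Y) + T.mu * max (Y - T.r * X) 0 ^ 2 + X * max (T.g1 * X - u2 * Y) 0 / 4 +
          Y * max (T.g2 * Y - u2 * X) 0 / 4) =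
        ((X - m) * (u2 * Y - L.ga u1 * m) + X * max (T.g1 * X - u2 * Y) 0 / 4) +
        (T.mu * max (Y - T.r * X) 0 ^ 2 + Y * max (T.g2 * Y - u2 * X) 0 / 4) := by
      cases iy <;> simp only [Qc, LF.p, LF.q, ef, sg, tal, LF.ga, Bool.false_and,
        Bool.and_true, Bool.true_and, Bool.and_false, if_true, if_false, Bool.false_eq_true,
        h.lL.zm, h.lL.b1, h.lK.zm, h.lK.b1, hb0] <;> ring
    rw [e]
    have h1 := P1_TubeIa hm hx hY hu2 h.g1 h.g1'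
    linarith

end Pool.Agent.RRS
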