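import Pool.Agent.RRS.TubeDefs

/-!
# Package Tube-Int: explicit integrals

All by the fundamental theorem (`intervalIntegral.integral_eq_sub_of_hasDerivAt` with the explicit
antiderivative, the integrand is continuous) or from `integral_cc` (`Sectors.lean`, may be
  imported:
`∫ τ in a..b, cos (τ + p) * cos (τ + q)`).  With `C = (π - ε) / 2`: `sin (2 C) = sin ε`,
`sin (2 C + ε) = 0`, `sin (2 C + 2 ε) = - sin ε`, `sin s * sin (s + ε) = (cos ε - cos (2 s + ε))
  / 2`,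
`sin (s + ε) ^ 2 = (1 - cos (2 s + 2 ε)) / 2`.

Difficulty: 0.6 h.
-/

set_option autoImplicit false

noncomputable section

namespace Pool.Agent.RRS

open Real MeasureTheory

private def G_TubeInt (p q s : ℝ) : ℝ := s * cos (p - q) / 2 - sin (2 * s + p + q) / 4

private theorem hG_TubeInt (p q s : ℝ) :
    HasDerivAt (G_TubeInt p q) (sin (s + p) * sin (s + q)) s := by
  have h1 : HasDerivAt (fun s : ℝ => 2 * s + p + q) 2 s := by
    have h := (((hasDerivAt_id s).const_mul 2).add_const p).add_const q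
    simpa using h
  have h2 := ((hasDerivAt_id s).mul_const (cos (p - q) / 2)).sub (h1.sin.div_const 4)
  have e : (fun s : ℝ => id s * (cos (p - q) / 2) - sin (2 * s + p + q) / 4) =
      G_TubeInt p q := by
    funext s
    unfold G_TubeInt
    simp only [id]
    ring
  have h3 : HasDerivAt (G_TubeInt p q)
      (1 * (cos (p - q) / 2) - cos (2 * s + p + q) * 2 / 4) s := by
    rw [← e]
    exact h2
  convert h3 using 1
  have f1 : cos (p - q) = cos (s + p) * cos (s + q) + sin (s + p) * sin (s + q) := by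
    rw [← cos_sub]
    congr 1
    ring
  have f2 : cos (2 * s + p + q) = cos (s + p) * cos (s + q) - sin (s + p) * sin (s + q) := by
    rw [← cos_add]
    congr 1
    ring
  rw [f1, f2]
  ring

private theorem int_TubeInt (p q a b : ℝ) : ∫ s in a..b, sin (s + p) * sin (s + q) =
    G_TubeInt p q b - G_TubeInt p q a :=
  intervalIntegral.integral_eq_sub_of_hasDerivAt (fun s _ => hG_TubeInt p q s)
    (Continuous.intervalIntegrable (by fun_prop) _ _)

theorem ti_1 (ε : ℝ) : ∫ s in (0 : ℝ)..(π - ε), sin s * sin (s + ε) =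
    ((π - ε) * cos ε + sin ε) / 2 := by
  have h := int_TubeInt 0 ε 0 (π - ε)
  simp only [add_zero] at h
  rw [h]
  unfold G_TubeInt
  have e1 : 2 * (π - ε) + 0 + ε = -ε + 2 * π := by ring
  rw [e1, sin_add_two_pi, sin_neg, zero_sub, cos_neg]
  simp only [mul_zero, zero_mul, add_zero, zero_add, zero_div]
  ring

theorem ti_2 (ε : ℝ) : ∫ s in (0 : ℝ)..((π - ε) / 2), (sin (s + ε) - sin s) ^ 2 =
    (1 - cos ε) * (π - ε - sin ε) / 2 := by
  have h : ∀ s ∈ Set.uIcc 0 ((π - ε) / 2),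
      HasDerivAt (fun s => G_TubeInt ε ε s - 2 * G_TubeInt ε 0 s + G_TubeInt 0 0 s)
        ((sin (s + ε) - sin s) ^ 2) s := by
    intro s _
    have h1 := ((hG_TubeInt ε ε s).sub ((hG_TubeInt ε 0 s).const_mul 2)).add
      (hG_TubeInt 0 0 s)
    refine HasDerivAt.congr_deriv h1 ?_
    rw [add_zero]
    ring
  rw [intervalIntegral.integral_eq_sub_of_hasDerivAt h
    (Continuous.intervalIntegrable (by fun_prop) _ _)]
  unfold G_TubeInt
  have e1 : 2 * ((π - ε) / 2) + ε + ε = ε + π := by ring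
  have e2 : 2 * ((π - ε) / 2) + ε + 0 = π := by ring
  have e3 : 2 * ((π - ε) / 2) + 0 + 0 = π - ε := by ring
  have e4 : 2 * (0 : ℝ) + ε + ε = 2 * ε := by ring
  have e5 : 2 * (0 : ℝ) + ε + 0 = ε := by ring
  have e6 : 2 * (0 : ℝ) + 0 + 0 = 0 := by ring
  rw [e1, e2, e3, e4, e5, e6, sin_add_pi, sin_pi, sin_pi_sub, sin_two_mul, sub_self, sub_zero,
    sub_self, cos_zero, sin_zero]
  ring

theorem ti_3 (ε : ℝ) : ∫ s in (0 : ℝ)..((π - ε) / 2), sin (s + ε) * (sin (s + ε) - sin s) =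
    sin ε * cos ε / 2 + (π - ε) * (1 - cos ε) / 4 := by
  have h : ∀ s ∈ Set.uIcc 0 ((π - ε) / 2),
      HasDerivAt (fun s => G_TubeInt ε ε s - G_TubeInt ε 0 s)
        (sin (s + ε) * (sin (s + ε) - sin s)) s := by
    intro s _
    have h1 := (hG_TubeInt ε ε s).sub (hG_TubeInt ε 0 s)
    refine HasDerivAt.congr_deriv h1 ?_
    rw [add_zero]
    ring
  rw [intervalIntegral.integral_eq_sub_of_hasDerivAt h
    (Continuous.intervalIntegrable (by fun_prop) _ _)]
  unfold G_TubeInt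
  have e1 : 2 * ((π - ε) / 2) + ε + ε = ε + π := by ring
  have e2 : 2 * ((π - ε) / 2) + ε + 0 = π := by ring
  have e4 : 2 * (0 : ℝ) + ε + ε = 2 * ε := by ring
  have e5 : 2 * (0 : ℝ) + ε + 0 = ε := by ring
  rw [e1, e2, e4, e5, sin_add_pi, sin_pi, sin_two_mul, sub_self, sub_zero, cos_zero]
  ring

theorem ti_4 (ε : ℝ) : ∫ s in (0 : ℝ)..(π - ε), sin (s + ε) ^ 2 =
    π / 2 - (ε - sin ε * cos ε) / 2 := by
  have h := int_TubeInt ε ε 0 (π - ε)
  simp only [← sq] at h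
  rw [h]
  unfold G_TubeInt
  have e1 : 2 * (π - ε) + ε + ε = 2 * π := by ring
  have e2 : 2 * (0 : ℝ) + ε + ε = 2 * ε := by ring
  rw [e1, e2, sin_two_pi, sin_two_mul, sub_self, cos_zero]
  ring

private theorem sq_TubeInt (a b : ℝ) : ∫ s in a..b, sin s ^ 2 =
    (b - a) / 2 - (sin (2 * b) - sin (2 * a)) / 4 := by
  have h := int_TubeInt 0 0 a b
  simp only [add_zero, ← sq] at h
  rw [h]
  unfold G_TubeInt
  rw [sub_self, cos_zero, add_zero, add_zero, add_zero, add_zero]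
  ring

private theorem sq2_TubeInt (ε a b : ℝ) : ∫ s in a..b, sin (ε - s) ^ 2 =
    (b - a) / 2 - (sin (2 * b - 2 * ε) - sin (2 * a - 2 * ε)) / 4 := by
  have h := int_TubeInt (-ε) (-ε) a b
  have e : ∀ s : ℝ, sin (s + -ε) * sin (s + -ε) = sin (ε - s) ^ 2 := by
    intro s
    have e1 : s + -ε = -(ε - s) := by ring
    rw [e1, sin_neg]
    ring
  simp only [e] at h
  rw [h]
  unfold G_TubeInt
  have e1 : 2 * b + -ε + -ε = 2 * b - 2 * ε := by ring
  have e2 : 2 * a + -ε + -ε = 2 * a - 2 * ε := by ring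
  rw [e1, e2, sub_self, cos_zero]
  ring

theorem ti_5 (ε : ℝ) : ∫ s in (0 : ℝ)..ε, sin s ^ 2 = (ε - sin ε * cos ε) / 2 := by
  rw [sq_TubeInt, mul_zero, sin_zero, sin_two_mul]
  ring

theorem ti_6 (ε : ℝ) : ∫ s in (0 : ℝ)..ε, sin (ε - s) ^ 2 = (ε - sin ε * cos ε) / 2 := by
  rw [sq2_TubeInt, mul_zero, sub_self, sin_zero, zero_sub (2 * ε), sin_neg, sin_two_mul]
  ring

theorem ti_7 (ε : ℝ) : ∫ s in (0 : ℝ)..(ε / 2), sin s ^ 2 = (ε - sin ε) / 4 := by
  have e1 : 2 * (ε / 2) = ε := by ring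
  rw [sq_TubeInt, mul_zero, sin_zero, e1]
  ring

theorem ti_8 (ε : ℝ) : ∫ s in (ε / 2)..ε, sin (ε - s) ^ 2 = (ε - sin ε) / 4 := by
  have e1 : 2 * (ε / 2) - 2 * ε = -ε := by ring
  rw [sq2_TubeInt, sub_self, sin_zero, e1, sin_neg]
  ring

theorem ti_9 (ε : ℝ) : ∫ s in (0 : ℝ)..(ε / 2), sin s * sin (ε - s) = (sin ε - ε * cos ε) / 4 := by
  have h : ∀ s ∈ Set.uIcc 0 (ε / 2),
      HasDerivAt (fun s => -G_TubeInt 0 (-ε) s) (sin s * sin (ε - s)) s := by
    intro s _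
    have h1 := (hG_TubeInt 0 (-ε) s).neg
    refine HasDerivAt.congr_deriv h1 ?_
    have e1 : s + -ε = -(ε - s) := by ring
    rw [e1, sin_neg, add_zero]
    ring
  rw [intervalIntegral.integral_eq_sub_of_hasDerivAt h
    (Continuous.intervalIntegrable (by fun_prop) _ _)]
  unfold G_TubeInt
  have e1 : 2 * (ε / 2) + 0 + -ε = 0 := by ring
  have e2 : 2 * (0 : ℝ) + 0 + -ε = -ε := by ring
  have e3 : (0 : ℝ) - -ε = ε := by ring
  rw [e1, e2, e3, sin_zero, sin_neg]
  ring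

end Pool.Agent.RRS
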