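import Pool.Agent.RRS.TubeNumR
import Pool.Agent.RRS.TubeRowA
import Pool.Agent.RRS.TubeRowK

/-!
# The tube: the corner `(3/2, 0)`
-/

set_option autoImplicit false

noncomputable section

namespace Pool.Agent.RRS

open Real

theorem F0T_corner {x y u C : ℝ} (hs : 0 < x + y) (hU : u * (x + y) = 2 * √2) (hC : 0 < C)
    (hCu : C ≤ u) (h : 4 ≤ C ^ 2 * (x ^ 2 - 1)) : 0 ≤ F0T x y C u := by
  have hu := tu_pos hs hU
  have h0 := F0T_eq hs hU
  have e : F0T x y C u = F0T x y u u + (u - C) * ((x ^ 2 - 1) * (u * C) - 4) / (2 * (u * C)) := by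
    unfold F0T
    field_simp
    ring
  rw [e, h0, zero_add]
  have h2 : 0 ≤ x ^ 2 - 1 := by
    by_contra hc
    push Not at hc
    nlinarith [mul_pos hC hC]
  have h3 : 4 ≤ (x ^ 2 - 1) * (u * C) := by
    have : C ^ 2 ≤ u * C := by nlinarith
    nlinarith [mul_le_mul_of_nonneg_left this h2]
  have h4 : 0 ≤ u - C := by linarith
  have h5 : 0 ≤ (x ^ 2 - 1) * (u * C) - 4 := by linarith
  positivity

theorem phi_corner {u C k : ℝ} (c0 : 1827 / 1000 ≤ C) (hCu : C ≤ u) (u1 : u ≤ 1951 / 1000)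
    (k1 : k ≤ 1073 / 1000) : 2 * (u - k) / u ^ 2 ≤ 2 * (C - k) / C ^ 2 + 1 / 70 := by
  have hC : 0 < C := by linarith
  have hu : 0 < u := by linarith
  have e : 2 * (C - k) / C ^ 2 + 1 / 70 - 2 * (u - k) / u ^ 2 =
      (u ^ 2 * C ^ 2 / 140 - (u - C) * (k * (u + C) - u * C)) * 2 / (u ^ 2 * C ^ 2) := by
    field_simp
    ring
  have h1 : k * (u + C) - u * C ≤ 583 / 1000 := by
    have a1 : k * (u + C) ≤ 1073 / 1000 * (u + C) := mul_le_mul_of_nonneg_right k1 (by linarith)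
    nlinarith [mul_nonneg (sub_nonneg.2 c0) (by linarith : 0 ≤ u - 1827 / 1000)]
  have h2 : (u - C) * (k * (u + C) - u * C) ≤ 124 / 1000 * (583 / 1000) := by
    have a1 : (u - C) * (k * (u + C) - u * C) ≤ (u - C) * (583 / 1000) :=
      mul_le_mul_of_nonneg_left h1 (by linarith)
    nlinarith
  have h3 : (1827 / 1000) ^ 4 ≤ u ^ 2 * C ^ 2 := by
    have a1 : (1827 / 1000) ^ 2 ≤ C ^ 2 := by nlinarith
    have a2 : (1827 / 1000) ^ 2 ≤ u ^ 2 := by nlinarith
    have := mul_le_mul a2 a1 (by norm_num) (by positivity)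
    linarith
  have h4 : 0 ≤ (u ^ 2 * C ^ 2 / 140 - (u - C) * (k * (u + C) - u * C)) * 2 / (u ^ 2 * C ^ 2) := by
    apply div_nonneg _ (by positivity)
    norm_num at h3 h2
    linarith
  linarith

theorem tpairK {x y u ε : ℝ} (hx : 29 / 20 ≤ x) (hx1 : x ≤ 3 / 2) (hy : 0 < y) (hy1 : y ≤ 1 / 20)
    (h1 : 3 / 2 ≤ x ^ 2 + y ^ 2) (h2 : x ^ 2 + y ^ 2 ≤ 23 / 10) (hU : u * (x + y) = 2 * √2)
    (hC : 471 / 100 - 190 / 100 * x - 66 / 100 * y ≤ u) (e0 : 0 < ε) (e1 : ε ≤ 7 / 64 * π) :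
    RPair Fz g0z g1z g2z x y (π - ε) (cos (π - ε)) := by
  obtain ⟨b1, b2⟩ := two_sqrt_two_bounds
  obtain ⟨C, hCd⟩ : ∃ C, C = 471 / 100 - 190 / 100 * x - 66 / 100 * y := ⟨_, rfl⟩
  rw [← hCd] at hC
  obtain ⟨mu, hmd⟩ : ∃ mu, mu = 121 / 400 * (x - 1) * x ^ 2 / (y * (x - y)) := ⟨_, rfl⟩
  have x0 : 0 < x := by linarith
  have xo : 1 ≤ x := by linarith
  have y1 : y ≤ 1 := by linarith
  have hs : 0 < x + y := by linarith
  have d0 : 0 < x - y := by linarith
  have yx : y ≤ x := by linarith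
  have hup := tu_pos hs hU
  have hu : 28284 / 10000 ≤ u * (x + y) := by linarith
  have hu' : u * (x + y) ≤ 282843 / 100000 := by linarith
  have c0 : 1827 / 1000 ≤ C := by rw [hCd]; linarith
  have c0p : 0 < C := by linarith
  have u3 : u ≤ 1951 / 1000 := by
    by_contra hc
    push Not at hc
    have : 1951 / 1000 * (29 / 20) ≤ u * (x + y) :=
      mul_le_mul hc.le (by linarith) (by norm_num) hup.le
    linarith
  have hmu0 : 0 ≤ mu := by
    rw [hmd]
    have : 0 ≤ x - 1 := by linarith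
    positivity
  have hmu : 121 / 100 * (x - 1) ≤ 4 * (y / x * (1 - y / x)) * mu := by
    rw [hmd]
    apply le_of_eq
    field_simp
    ring
  have hN : mu * y ^ 2 * (4 * (x - y)) = 121 / 100 * (x - 1) * x ^ 2 * y := by
    rw [hmd]
    field_simp
    ring
  have eL : Lz x = Lp2 x := Lz_two xo hx1
  have eK : Lz y = Lp1 y := Lz_one y1
  have f1 : (Lp2 x).ga C = 216 / 100 - 75 / 100 * x + 1 / 2 - C := by
    simp only [Lp2, mkL, LF.ga]
    ring
  have f2 : (Lp1 y).ga u = 206 / 100 - 65 / 100 * y + 1 / 2 * y - u := by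
    simp only [Lp1, mkL, LF.ga]
    ring
  have hI : TubeI (Lp2 x) (Lp1 y) C u (13 / 200) (tP (Lp2 x) (Lp1 y) C u mu (y / x)) := by
    refine tubeI_of xo hx1 hy y1 (by linarith) hC (by linarith) ?_ ?_ ?_ ?_ ?_ ?_ ?_ hmu0 hmu
    · rw [f1]
      linarith
    · rw [f2]
      linarith
    · linarith
    · linarith
    · linarith
    · linarith
    · linarith
  have m1 : max ((Lp2 x).ga C) 0 = 0 := by
    apply max_eq_right
    rw [f1]
    linarith
  have e3 : (Lp2 x).nu = 121 / 100 * (x - 1) := by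
    simp only [Lp2, mkL, LF.nu]
    ring
  have g5 : (Lp2 x).a1 = 64 / 100 + 40 / 100 * x := by
    simp only [Lp2, mkL]
    ring
  have g6 : (Lp2 x).b0 = 216 / 100 - 75 / 100 * x := by
    simp only [Lp2, mkL]
    ring
  have g7 : (Lp1 y).a1 = 103 / 100 + 1 / 100 * y := rfl
  have g8 : (Lp1 y).b0 = 206 / 100 - 65 / 100 * y := rfl
  have m2 : max ((Lp1 y).ga u) 0 ≤ 21 / 50 := by
    rw [f2]
    exact max_le (by linarith) (by norm_num)
  have m2' : 0 ≤ max ((Lp1 y).ga u) 0 := le_max_right _ _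
  obtain ⟨r1, r2⟩ := trowK (g1 := 0) (g2 := max ((Lp1 y).ga u) 0) hx hx1 hy.le hy1 h1 h2
    (by linarith) hu le_rfl le_rfl m2' m2 hN
  have r1' : mu * y ^ 2 + 1 / 50 ≤ lin21 x y u := by
    unfold lin21
    linarith
  have r2' : mu * y ^ 2 + 7 / 64 * los21 x y u 0 (max ((Lp1 y).ga u) 0) (mu * y ^ 2) (7 / 64)
      (3 / 100 + 61 / 100) (x * y / 3) + 1 / 50 ≤ lin21 x y u := by
    unfold lin21 los21
    linarith
  have hl : lin21 x y u - 1 / 70 ≤ linT (Lp2 x) (Lp1 y) x y C u := by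
    have a1 := linT_eq (Lp2 x) (Lp1 y) hs hU
    rw [g5, g6, g7, g8] at a1
    have a2 : linT (Lp2 x) (Lp1 y) x y C u = linT (Lp2 x) (Lp1 y) x y u u -
        2 * (u - (216 / 100 - 75 / 100 * x)) / u ^ 2 +
          2 * (C - (216 / 100 - 75 / 100 * x)) / C ^ 2 := by
      unfold linT
      rw [g6]
      ring
    have a3 := phi_corner c0 hC u3 (k := 216 / 100 - 75 / 100 * x) (by linarith)
    rw [a2, a1]
    unfold lin21
    linarith
  have hV : ValI (Lp2 x) (Lp1 y) x y C u (7 / 64) (x * y / 3) (3 / 100) (61 / 100)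
      (tP (Lp2 x) (Lp1 y) C u mu (y / x)) := by
    refine ⟨⟨?_, ?_, ?_, ?_, ?_, ?_, ?_, ?_⟩, Or.inr rfl, ?_, ?_⟩
    · change y / x * x = y
      field_simp
    · change 9 / 4 * (max ((Lp2 x).ga C) 0 * x) ≤ u * y
      rw [m1, zero_mul, mul_zero]
      positivity
    · change 9 / 4 * (max ((Lp1 y).ga u) 0 * y) ≤ u * x
      have a1 : max ((Lp1 y).ga u) 0 * y ≤ 21 / 50 * (1 / 20) :=
        mul_le_mul m2 hy1 hy.le (by norm_num)
      nlinarith
    · rw [g6]
      linarith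
    · rw [g8]
      linarith
    · rw [g6]
      have a1 : -(25 / 100) ≤ C - 2 * (216 / 100 - 75 / 100 * x) := by linarith
      have a2 : C - 2 * (216 / 100 - 75 / 100 * x) ≤ 0 := by linarith
      have a3 : (C - 2 * (216 / 100 - 75 / 100 * x)) ^ 2 ≤ 1 / 16 := by nlinarith
      have a4 : 1 ≤ C - 5 * (7 / 64) ^ 2 * (216 / 100 - 75 / 100 * x) := by linarith
      have a5 : 3 ≤ C ^ 2 := by nlinarith
      have a6 : 2 * 3 * 1 ≤ 2 * C ^ 2 * (C - 5 * (7 / 64) ^ 2 * (216 / 100 - 75 / 100 * x)) :=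
        mul_le_mul (by linarith) a4 (by norm_num) (by positivity)
      linarith
    · rw [g8]
      refine tq_of hs hU (by linarith) (by norm_num) ?_
      have := nAq2 xo hx1 hy.le (by linarith) h1 h2
      linarith
    · refine F0T_corner hs hU c0p hC ?_
      have := nCc hx hx1 hy.le hy1 h1 h2
      rw [hCd]
      linarith
    · change mu * y ^ 2 ≤ _
      linarith
    · have e : bT (tP (Lp2 x) (Lp1 y) C u mu (y / x)) x y (7 / 64) (x * y / 3)
          (3 / 100 + 61 / 100) =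
          los21 x y u 0 (max ((Lp1 y).ga u) 0) (mu * y ^ 2) (7 / 64) (3 / 100 + 61 / 100)
            (x * y / 3) + (u - C) * (67 / 400 * y ^ 2 + x * y / 3) := by
        unfold bT los21
        simp only [tP, e3, g5, g7, m1]
        ring
      rw [e]
      change mu * y ^ 2 + _ ≤ _
      have a1 : (u - C) * (67 / 400 * y ^ 2 + x * y / 3) ≤ 124 / 1000 * (3 / 100) := by
        refine mul_le_mul (by linarith) ?_ (by positivity) (by norm_num)
        nlinarith [mul_le_mul hx1 hy1 hy.le (by norm_num : (0 : ℝ) ≤ 3 / 2)]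
      linarith
  refine RPair_tubeI hy yx hx1 e0 e1 (by norm_num) (u1 := C) (u2 := u) (w := 13 / 200)
    (m := x * y / 3) (c1 := 3 / 100) (c2 := 61 / 100) (T := tP (Lp2 x) (Lp1 y) C u mu (y / x))
    ?_ ?_
  · rw [eL, eK]
    exact hI
  · rw [eL, eK]
    exact hV

end Pool.Agent.RRS
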