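import Pool.Agent.RRS.PolyBox

/-!
# The tube: row C (polynomial inequalities)

Generated: each polynomial inequality is an explicit nonnegative combination of products of `x - a`,
`a' - x`, `y - b`, `b' - y` (and of `x² + y² - 3/2`, `23/10 - x² - y²`).
-/

set_option autoImplicit false

namespace Pool.Agent.RRS

open Real PB

theorem nCg0 {x y : ℝ} (ha : 1 ≤ x) (hb : x ≤ 3/2) (hc : 1/2 ≤ y)
    (hd : y ≤ 3/4) (h1 : 3 / 2 ≤ x ^ 2 + y ^ 2) (h2 : x ^ 2 + y ^ 2 ≤ 23 / 10) :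
    0 ≤ (x-y)*((x+y)*((64/100+40/100*x)+(103/100+1/100*y)+(216/100-75/100*x)*(x^2-1)/2+(206/100
      -65/100*y)*(y^2-1)/2-((216/100-75/100*x)+(206/100-65/100*y))*(x+y)^2/4)+28284/10000*x*y)-
      121/400*(x-1)*x^2*y*(x+y) := by
  have h := chk_sound (x := x) (y := y) (E :=
      (.sub (.mul (.sub .X .Y) (.add (.mul (.add .X .Y) (.sub (.add (.add (.add (.add (.div (.N
      64) 100) (.mul (.div (.N 40) 100) .X)) (.add (.div (.N 103) 100) (.mul (.div (.N 1) 100)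
      .Y))) (.div (.mul (.sub (.div (.N 216) 100) (.mul (.div (.N 75) 100) .X)) (.sub (.pow .X 2)
      (.N 1))) 2)) (.div (.mul (.sub (.div (.N 206) 100) (.mul (.div (.N 65) 100) .Y)) (.sub
      (.pow .Y 2) (.N 1))) 2)) (.div (.mul (.add (.sub (.div (.N 216) 100) (.mul (.div (.N 75)
      100) .X)) (.sub (.div (.N 206) 100) (.mul (.div (.N 65) 100) .Y))) (.pow (.add .X .Y) 2))
      4))) (.mul (.mul (.div (.N 28284) 10000) .X) .Y))) (.mul (.mul (.mul (.mul (.div (.N 121)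
      400) (.sub .X (.N 1))) (.pow .X 2)) .Y) (.add .X .Y))))
    (qx := 2) (n0 := 2) (n1 := 3) (qy := 4) (m0 := 2) (m1 := 3) (Dx := 5) (Dy := 5)
    (by decide +kernel) (by push_cast; linarith) (by push_cast; linarith)
    (by push_cast; linarith) (by push_cast; linarith)
  simpa only [PE.ev, Nat.cast_ofNat, Nat.cast_one, Nat.cast_zero] using h

theorem nCg1 {x y : ℝ} (ha : 1 ≤ x) (hb : x ≤ 3/2) (hc : 1/2 ≤ y)
    (hd : y ≤ 3/4) (h1 : 3 / 2 ≤ x ^ 2 + y ^ 2) (h2 : x ^ 2 + y ^ 2 ≤ 23 / 10) :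
    0 ≤ (x-y)*((x+y)*((64/100+40/100*x)+(103/100+1/100*y)+(216/100-75/100*x)*(x^2-1)/2+(206/100
      -65/100*y)*(y^2-1)/2-((216/100-75/100*x)+(206/100-65/100*y))*(x+y)^2/4-7/64*(637/1280+
      13/25*(8/25*x^2+59/100*y^2)+4/3*((29/200)*x^2+(17/80+(121/100*(x-1)))*y^2)+(2*(64/100+
      40/100*x)+2*(103/100+1/100*y)-(29/200)-(17/80+(121/100*(x-1))))*(67/400*y^2+67/400*x^2)))
      +28284/10000*(x*y-7/64*(2/3*(x*y)-(67/400*y^2+67/400*x^2))))-303347/1280000*(x-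
      1)*x^2*y*(x+y) := by
  have h := chk_sound (x := x) (y := y) (E :=
      (.sub (.sub (.mul (.sub .X .Y) (.add (.mul (.add .X .Y) (.sub (.sub (.add (.add (.add (.add
      (.div (.N 64) 100) (.mul (.div (.N 40) 100) .X)) (.add (.div (.N 103) 100) (.mul (.div (.N
      1) 100) .Y))) (.div (.mul (.sub (.div (.N 216) 100) (.mul (.div (.N 75) 100) .X)) (.sub
      (.pow .X 2) (.N 1))) 2)) (.div (.mul (.sub (.div (.N 206) 100) (.mul (.div (.N 65) 100)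
      .Y)) (.sub (.pow .Y 2) (.N 1))) 2)) (.div (.mul (.add (.sub (.div (.N 216) 100) (.mul (.div
      (.N 75) 100) .X)) (.sub (.div (.N 206) 100) (.mul (.div (.N 65) 100) .Y))) (.pow (.add .X
      .Y) 2)) 4)) (.mul (.div (.N 7) 64) (.add (.add (.add (.div (.N 637) 1280) (.mul (.div (.N
      13) 25) (.add (.mul (.div (.N 8) 25) (.pow .X 2)) (.mul (.div (.N 59) 100) (.pow .Y 2)))))
      (.mul (.div (.N 4) 3) (.add (.mul (.div (.N 29) 200) (.pow .X 2)) (.mul (.add (.div (.N 17)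
      80) (.mul (.div (.N 121) 100) (.sub .X (.N 1)))) (.pow .Y 2))))) (.mul (.sub (.sub (.add
      (.mul (.N 2) (.add (.div (.N 64) 100) (.mul (.div (.N 40) 100) .X))) (.mul (.N 2) (.add
      (.div (.N 103) 100) (.mul (.div (.N 1) 100) .Y)))) (.div (.N 29) 200)) (.add (.div (.N 17)
      80) (.mul (.div (.N 121) 100) (.sub .X (.N 1))))) (.add (.mul (.div (.N 67) 400) (.pow .Y
      2)) (.mul (.div (.N 67) 400) (.pow .X 2)))))))) (.mul (.div (.N 28284) 10000) (.sub (.mul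
      .X .Y) (.mul (.div (.N 7) 64) (.sub (.mul (.div (.N 2) 3) (.mul .X .Y)) (.add (.mul (.div
      (.N 67) 400) (.pow .Y 2)) (.mul (.div (.N 67) 400) (.pow .X 2))))))))) (.mul (.mul (.mul
      (.mul (.div (.N 303347) 1280000) (.sub .X (.N 1))) (.pow .X 2)) .Y) (.add .X .Y))) (.mul
      (.div (.N 1) 8) (.sub (.sub (.div (.N 23) 10) (.pow .X 2)) (.pow .Y 2)))))
    (qx := 2) (n0 := 2) (n1 := 3) (qy := 4) (m0 := 2) (m1 := 3) (Dx := 5) (Dy := 5)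
    (by decide +kernel) (by push_cast; linarith) (by push_cast; linarith)
    (by push_cast; linarith) (by push_cast; linarith)
  simp only [PE.ev, Nat.cast_ofNat, Nat.cast_one, Nat.cast_zero] at h
  have q1 : (0 : ℝ) ≤ 1 / 8 * (23 / 10 - x ^ 2 - y ^ 2) :=
    mul_nonneg (by norm_num) (by linarith)
  linarith

theorem nCq1 {x y : ℝ} (ha : 1 ≤ x) (hb : x ≤ 3/2) (hc : 1/2 ≤ y)
    (hd : y ≤ 3/4) (h1 : 3 / 2 ≤ x ^ 2 + y ^ 2) (h2 : x ^ 2 + y ^ 2 ≤ 23 / 10) :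
    0 ≤ 28284/10000*(4*(41/200)+(216/100-75/100*x)*(x+y)^2)-2*(x+y)-(216/100-75/100*x)^2*(x+
      y)^3-4*(41/200)*(245/4096)*(216/100-75/100*x)*(x+y) := by
  have h := chk_sound (x := x) (y := y) (E :=
      (.sub (.sub (.sub (.mul (.div (.N 28284) 10000) (.add (.mul (.N 4) (.div (.N 41) 200))
      (.mul (.sub (.div (.N 216) 100) (.mul (.div (.N 75) 100) .X)) (.pow (.add .X .Y) 2))))
      (.mul (.N 2) (.add .X .Y))) (.mul (.pow (.sub (.div (.N 216) 100) (.mul (.div (.N 75) 100)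
      .X)) 2) (.pow (.add .X .Y) 3))) (.mul (.mul (.mul (.mul (.N 4) (.div (.N 41) 200)) (.div
      (.N 245) 4096)) (.sub (.div (.N 216) 100) (.mul (.div (.N 75) 100) .X))) (.add .X .Y))))
    (qx := 2) (n0 := 2) (n1 := 3) (qy := 4) (m0 := 2) (m1 := 3) (Dx := 5) (Dy := 3)
    (by decide +kernel) (by push_cast; linarith) (by push_cast; linarith)
    (by push_cast; linarith) (by push_cast; linarith)
  simpa only [PE.ev, Nat.cast_ofNat, Nat.cast_one, Nat.cast_zero] using h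

private theorem nCq2_1 {x y : ℝ} (ha : 1 ≤ x) (hb : x ≤ 5/4) (hc : 1/2 ≤ y)
    (hd : y ≤ 3/4) (h1 : 3 / 2 ≤ x ^ 2 + y ^ 2) (h2 : x ^ 2 + y ^ 2 ≤ 23 / 10) :
    0 ≤ 28284/10000*(4*(141/200)+(206/100-65/100*y)*(x+y)^2)-2*(x+y)-(206/100-65/100*y)^2*(x+
      y)^3-4*(141/200)*(245/4096)*(206/100-65/100*y)*(x+y) := by
  have h := chk_sound (x := x) (y := y) (E :=
      (.sub (.sub (.sub (.mul (.div (.N 28284) 10000) (.add (.mul (.N 4) (.div (.N 141) 200))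
      (.mul (.sub (.div (.N 206) 100) (.mul (.div (.N 65) 100) .Y)) (.pow (.add .X .Y) 2))))
      (.mul (.N 2) (.add .X .Y))) (.mul (.pow (.sub (.div (.N 206) 100) (.mul (.div (.N 65) 100)
      .Y)) 2) (.pow (.add .X .Y) 3))) (.mul (.mul (.mul (.mul (.N 4) (.div (.N 141) 200)) (.div
      (.N 245) 4096)) (.sub (.div (.N 206) 100) (.mul (.div (.N 65) 100) .Y))) (.add .X .Y))))
    (qx := 4) (n0 := 4) (n1 := 5) (qy := 4) (m0 := 2) (m1 := 3) (Dx := 3) (Dy := 5)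
    (by decide +kernel) (by push_cast; linarith) (by push_cast; linarith)
    (by push_cast; linarith) (by push_cast; linarith)
  simpa only [PE.ev, Nat.cast_ofNat, Nat.cast_one, Nat.cast_zero] using h

private theorem nCq2_2 {x y : ℝ} (ha : 5/4 ≤ x) (hb : x ≤ 11/8) (hc : 1/2 ≤ y)
    (hd : y ≤ 3/4) (h1 : 3 / 2 ≤ x ^ 2 + y ^ 2) (h2 : x ^ 2 + y ^ 2 ≤ 23 / 10) :
    0 ≤ 28284/10000*(4*(141/200)+(206/100-65/100*y)*(x+y)^2)-2*(x+y)-(206/100-65/100*y)^2*(x+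
      y)^3-4*(141/200)*(245/4096)*(206/100-65/100*y)*(x+y) := by
  have h := chk_sound (x := x) (y := y) (E :=
      (.sub (.sub (.sub (.sub (.mul (.div (.N 28284) 10000) (.add (.mul (.N 4) (.div (.N 141)
      200)) (.mul (.sub (.div (.N 206) 100) (.mul (.div (.N 65) 100) .Y)) (.pow (.add .X .Y)
      2)))) (.mul (.N 2) (.add .X .Y))) (.mul (.pow (.sub (.div (.N 206) 100) (.mul (.div (.N 65)
      100) .Y)) 2) (.pow (.add .X .Y) 3))) (.mul (.mul (.mul (.mul (.N 4) (.div (.N 141) 200))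
      (.div (.N 245) 4096)) (.sub (.div (.N 206) 100) (.mul (.div (.N 65) 100) .Y))) (.add .X
      .Y))) (.mul (.div (.N 5) 1) (.sub (.sub (.div (.N 23) 10) (.pow .X 2)) (.pow .Y 2)))))
    (qx := 8) (n0 := 10) (n1 := 11) (qy := 4) (m0 := 2) (m1 := 3) (Dx := 3) (Dy := 5)
    (by decide +kernel) (by push_cast; linarith) (by push_cast; linarith)
    (by push_cast; linarith) (by push_cast; linarith)
  simp only [PE.ev, Nat.cast_ofNat, Nat.cast_one, Nat.cast_zero] at h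
  have q1 : (0 : ℝ) ≤ 5 / 1 * (23 / 10 - x ^ 2 - y ^ 2) :=
    mul_nonneg (by norm_num) (by linarith)
  linarith

private theorem nCq2_3 {x y : ℝ} (ha : 11/8 ≤ x) (hb : x ≤ 3/2) (hc : 1/2 ≤ y)
    (hd : y ≤ 3/4) (h1 : 3 / 2 ≤ x ^ 2 + y ^ 2) (h2 : x ^ 2 + y ^ 2 ≤ 23 / 10) :
    0 ≤ 28284/10000*(4*(141/200)+(206/100-65/100*y)*(x+y)^2)-2*(x+y)-(206/100-65/100*y)^2*(x+
      y)^3-4*(141/200)*(245/4096)*(206/100-65/100*y)*(x+y) := by
  have h := chk_sound (x := x) (y := y) (E :=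
      (.sub (.sub (.sub (.sub (.mul (.div (.N 28284) 10000) (.add (.mul (.N 4) (.div (.N 141)
      200)) (.mul (.sub (.div (.N 206) 100) (.mul (.div (.N 65) 100) .Y)) (.pow (.add .X .Y)
      2)))) (.mul (.N 2) (.add .X .Y))) (.mul (.pow (.sub (.div (.N 206) 100) (.mul (.div (.N 65)
      100) .Y)) 2) (.pow (.add .X .Y) 3))) (.mul (.mul (.mul (.mul (.N 4) (.div (.N 141) 200))
      (.div (.N 245) 4096)) (.sub (.div (.N 206) 100) (.mul (.div (.N 65) 100) .Y))) (.add .X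
      .Y))) (.mul (.div (.N 6) 1) (.sub (.sub (.div (.N 23) 10) (.pow .X 2)) (.pow .Y 2)))))
    (qx := 8) (n0 := 11) (n1 := 12) (qy := 4) (m0 := 2) (m1 := 3) (Dx := 3) (Dy := 5)
    (by decide +kernel) (by push_cast; linarith) (by push_cast; linarith)
    (by push_cast; linarith) (by push_cast; linarith)
  simp only [PE.ev, Nat.cast_ofNat, Nat.cast_one, Nat.cast_zero] at h
  have q1 : (0 : ℝ) ≤ 6 / 1 * (23 / 10 - x ^ 2 - y ^ 2) :=
    mul_nonneg (by norm_num) (by linarith)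
  linarith

theorem nCq2 {x y : ℝ} (ha : 1 ≤ x) (hb : x ≤ 3/2) (hc : 1/2 ≤ y)
    (hd : y ≤ 3/4) (h1 : 3 / 2 ≤ x ^ 2 + y ^ 2) (h2 : x ^ 2 + y ^ 2 ≤ 23 / 10) :
    0 ≤ 28284/10000*(4*(141/200)+(206/100-65/100*y)*(x+y)^2)-2*(x+y)-(206/100-65/100*y)^2*(x+
      y)^3-4*(141/200)*(245/4096)*(206/100-65/100*y)*(x+y) := by
  rcases le_total x (5/4) with k2 | k2
  · exact nCq2_1 ha k2 hc hd h1 h2
  · rcases le_total x (11/8) with k4 | k4
    · exact nCq2_2 k2 k4 hc hd h1 h2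
    · exact nCq2_3 k4 hb hc hd h1 h2

private theorem nCa1_1 {x y : ℝ} (ha : 1 ≤ x) (hb : x ≤ 5/4) (hc : 1/2 ≤ y)
    (hd : y ≤ 3/4) (h1 : 3 / 2 ≤ x ^ 2 + y ^ 2) (h2 : x ^ 2 + y ^ 2 ≤ 23 / 10) :
    0 ≤ 28284/10000-((216/100-75/100*x)+1/2-8/25)*(x+y) := by
  have h := chk_sound (x := x) (y := y) (E :=
      (.sub (.div (.N 28284) 10000) (.mul (.sub (.add (.sub (.div (.N 216) 100) (.mul (.div (.N
      75) 100) .X)) (.div (.N 1) 2)) (.div (.N 8) 25)) (.add .X .Y))))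
    (qx := 4) (n0 := 4) (n1 := 5) (qy := 4) (m0 := 2) (m1 := 3) (Dx := 2) (Dy := 1)
    (by decide +kernel) (by push_cast; linarith) (by push_cast; linarith)
    (by push_cast; linarith) (by push_cast; linarith)
  simpa only [PE.ev, Nat.cast_ofNat, Nat.cast_one, Nat.cast_zero] using h

private theorem nCa1_2 {x y : ℝ} (ha : 5/4 ≤ x) (hb : x ≤ 3/2) (hc : 1/2 ≤ y)
    (hd : y ≤ 3/4) (h1 : 3 / 2 ≤ x ^ 2 + y ^ 2) (h2 : x ^ 2 + y ^ 2 ≤ 23 / 10) :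
    0 ≤ 28284/10000-((216/100-75/100*x)+1/2-8/25)*(x+y) := by
  have h := chk_sound (x := x) (y := y) (E :=
      (.sub (.div (.N 28284) 10000) (.mul (.sub (.add (.sub (.div (.N 216) 100) (.mul (.div (.N
      75) 100) .X)) (.div (.N 1) 2)) (.div (.N 8) 25)) (.add .X .Y))))
    (qx := 4) (n0 := 5) (n1 := 6) (qy := 4) (m0 := 2) (m1 := 3) (Dx := 2) (Dy := 1)
    (by decide +kernel) (by push_cast; linarith) (by push_cast; linarith)
    (by push_cast; linarith) (by push_cast; linarith)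
  simpa only [PE.ev, Nat.cast_ofNat, Nat.cast_one, Nat.cast_zero] using h

theorem nCa1 {x y : ℝ} (ha : 1 ≤ x) (hb : x ≤ 3/2) (hc : 1/2 ≤ y)
    (hd : y ≤ 3/4) (h1 : 3 / 2 ≤ x ^ 2 + y ^ 2) (h2 : x ^ 2 + y ^ 2 ≤ 23 / 10) :
    0 ≤ 28284/10000-((216/100-75/100*x)+1/2-8/25)*(x+y) := by
  rcases le_total x (5/4) with k2 | k2
  · exact nCa1_1 ha k2 hc hd h1 h2
  · exact nCa1_2 k2 hb hc hd h1 h2

theorem nCa2 {x y : ℝ} (ha : 1 ≤ x) (hb : x ≤ 3/2) (hc : 1/2 ≤ y)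
    (hd : y ≤ 3/4) (h1 : 3 / 2 ≤ x ^ 2 + y ^ 2) (h2 : x ^ 2 + y ^ 2 ≤ 23 / 10) :
    0 ≤ 28284/10000-((206/100-65/100*y)+1/2*y-59/100)*(x+y) := by
  have a0 : 0 ≤ x-1 := by linarith
  have a1 : 0 ≤ 3/2-x := by linarith
  have b0 : 0 ≤ y-1/2 := by linarith
  have b1 : 0 ≤ 3/4-y := by linarith
  have e : 5000*(28284/10000-((206/100-65/100*y)+1/2*y-59/100)*(x+y)) =
      77988*(3/2-x)^2*(3/4-y)^2 + 99876*(3/2-x)^2*(y-1/2)*(3/4-y) + 34263*(3/2-x)^2*(y-1/2)^2 +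
      82776*(x-1)*(3/2-x)*(3/4-y)^2 + 59352*(x-1)*(3/2-x)*(y-1/2)*(3/4-y) +
      1326*(x-1)*(3/2-x)*(y-1/2)^2 + 42288*(x-1)^2*(3/4-y)^2 + 34476*(x-1)^2*(y-1/2)*(3/4-y) +
      4563*(x-1)^2*(y-1/2)^2
      + 9375/4*(23/10-x^2-y^2) := by ring
  have p : 0 ≤ 77988*(3/2-x)^2*(3/4-y)^2 + 99876*(3/2-x)^2*(y-1/2)*(3/4-y) + 34263*(3/2-x)^2*(y-1/2)^2 +
      82776*(x-1)*(3/2-x)*(3/4-y)^2 + 59352*(x-1)*(3/2-x)*(y-1/2)*(3/4-y) +
      1326*(x-1)*(3/2-x)*(y-1/2)^2 + 42288*(x-1)^2*(3/4-y)^2 + 34476*(x-1)^2*(y-1/2)*(3/4-y) +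
      4563*(x-1)^2*(y-1/2)^2 := by positivity
  have qh2 : 0 ≤ 9375/4*(23/10-x^2-y^2) := mul_nonneg (by norm_num) (by linarith)
  have t : 0 ≤ 5000*(28284/10000-((206/100-65/100*y)+1/2*y-59/100)*(x+y)) := by rw [e]; linarith
  linarith

theorem trowC {x y u g1 g2 N : ℝ} (ha : 1 ≤ x) (hb : x ≤ 3/2) (hc : 1/2 ≤ y)
    (hd : y ≤ 3/4) (h1 : 3 / 2 ≤ x ^ 2 + y ^ 2) (h2 : x ^ 2 + y ^ 2 ≤ 23 / 10) (h3 : y < x)
    (hu : 28284 / 10000 ≤ u * (x + y)) (l1 : 0 ≤ g1) (l1' : g1 ≤ 8/25) (l2 : 0 ≤ g2)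
    (l2' : g2 ≤ 59/100) (hN : N * (4 * (x - y)) = 121 / 100 * (x - 1) * x ^ 2 * y) :
    N ≤ ((64/100+40/100*x)+(103/100+1/100*y)+(216/100-75/100*x)*(x^2-1)/2+(206/100-65/100*y)*(y^2-1)/2+
      u*(x*y)-((216/100-75/100*x)+(206/100-65/100*y))*(x+y)^2/4) ∧
    N + 7/64*(5*(7/64)*(91/100)+2/3*(u*(x*y))-99/50*N+13/25*(g1*x^2+g2*y^2)+4/3*((g1/4+13/200)*x^2+(g2/4+
      (121/100*(x-1))+13/200)*y^2)+(2*(64/100+40/100*x)+2*(103/100+1/100*y)-u-(g1/4+13/200)-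
      (g2/4+(121/100*(x-1))+13/200))*(67/400*y^2+(67/400*x^2))) ≤
      ((64/100+40/100*x)+(103/100+1/100*y)+(216/100-75/100*x)*(x^2-1)/2+(206/100-65/100*y)*(y^2-1)/2+
      u*(x*y)-((216/100-75/100*x)+(206/100-65/100*y))*(x+y)^2/4) := by
  have y0 : 0 ≤ y := by linarith
  have x0 : 0 < x := by linarith
  have s0 : 0 < x + y := by linarith
  have f0 := nCg0 ha hb hc hd h1 h2
  have f1 := nCg1 ha hb hc hd h1 h2
  have d0 : 0 < x - y := by linarith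
  have hu' : 0 ≤ u*(x+y)-28284/10000 := by linarith
  constructor
  · have Q0 : 0 ≤ x*y := by positivity
    have q : 0 ≤ (x-y)*((u*(x+y)-28284/10000)*(x*y)) := by positivity
    have e : (x-y)*(x+y)*(((64/100+40/100*x)+(103/100+1/100*y)+(216/100-75/100*x)*(x^2-1)/2+(206/100-65/100*y)*(y^2-1)/2+
      u*(x*y)-((216/100-75/100*x)+(206/100-65/100*y))*(x+y)^2/4)-N) = ((x-y)*((x+y)*((64/100+40/100*x)+(103/100+1/100*y)+(216/100-75/100*x)*(x^2-1)/2+(206/100-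
      65/100*y)*(y^2-1)/2-((216/100-75/100*x)+(206/100-65/100*y))*(x+y)^2/4)+28284/10000*x*y)-
      121/400*(x-1)*x^2*y*(x+y))+(x-y)*((u*(x+y)-28284/10000)*(x*y)) := by
      linear_combination (-((x+y)/4))*hN
    have p : 0 ≤ (x-y)*(x+y)*(((64/100+40/100*x)+(103/100+1/100*y)+(216/100-75/100*x)*(x^2-1)/2+(206/100-65/100*y)*(y^2-1)/2+
      u*(x*y)-((216/100-75/100*x)+(206/100-65/100*y))*(x+y)^2/4)-N) := by rw [e]; linarith
    have p2 := nonneg_of_mul_nonneg_right p (by positivity)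
    linarith
  · have Q0 : 0 ≤ (x*y-7/64*(2/3*(x*y)-(67/400*y^2+(67/400*x^2)))) := by
      have : (x*y-7/64*(2/3*(x*y)-(67/400*y^2+(67/400*x^2)))) = (1-2/3*(7/64))*(x*y)+7/64*(67/400*y^2+(67/400*x^2)) := by ring
      rw [this]
      have : (0:ℝ) ≤ 1-2/3*(7/64) := by norm_num
      positivity
    have q : 0 ≤ (x-y)*((u*(x+y)-28284/10000)*(x*y-7/64*(2/3*(x*y)-(67/400*y^2+(67/400*x^2))))) := by positivity
    have c1 : 0 ≤ ((13/25+1/3)*x^2-(67/400*y^2+(67/400*x^2))/4) := by nlinarith [mul_nonneg y0 (by linarith : 0 ≤ x - y), sq_nonneg x, mul_self_nonneg (x - y)]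
    have c2 : 0 ≤ ((13/25+1/3)*y^2-(67/400*y^2+(67/400*x^2))/4) := by nlinarith [mul_nonneg y0 (by linarith : 0 ≤ x - y), mul_nonneg (by linarith : 0 ≤ y - 1/2) y0, mul_nonneg (by linarith : 0 ≤ 3/2 - x) x0.le, mul_nonneg (by linarith : 0 ≤ 3/2 - x) y0]
    have r1 : 0 ≤ 7/64*((x-y)*((x+y)*((8/25-g1)*((13/25+1/3)*x^2-(67/400*y^2+(67/400*x^2))/4)))) := by
      have : 0 ≤ 8/25-g1 := by linarith
      positivity
    have r2 : 0 ≤ 7/64*((x-y)*((x+y)*((59/100-g2)*((13/25+1/3)*y^2-(67/400*y^2+(67/400*x^2))/4)))) := by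
      have : 0 ≤ 59/100-g2 := by linarith
      positivity
    have e : (x-y)*(x+y)*(((64/100+40/100*x)+(103/100+1/100*y)+(216/100-75/100*x)*(x^2-1)/2+(206/100-65/100*y)*(y^2-1)/2+
      u*(x*y)-((216/100-75/100*x)+(206/100-65/100*y))*(x+y)^2/4)-(N+7/64*(5*(7/64)*(91/100)+2/3*(u*(x*y))-99/50*N+13/25*(g1*x^2+g2*y^2)+4/3*((g1/4+13/200)*x^2+(g2/4+
      (121/100*(x-1))+13/200)*y^2)+(2*(64/100+40/100*x)+2*(103/100+1/100*y)-u-(g1/4+13/200)-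
      (g2/4+(121/100*(x-1))+13/200))*(67/400*y^2+(67/400*x^2))))) =
      ((x-y)*((x+y)*((64/100+40/100*x)+(103/100+1/100*y)+(216/100-75/100*x)*(x^2-1)/2+(206/100-
      65/100*y)*(y^2-1)/2-((216/100-75/100*x)+(206/100-65/100*y))*(x+y)^2/4-7/64*(637/1280+
      13/25*(8/25*x^2+59/100*y^2)+4/3*((29/200)*x^2+(17/80+(121/100*(x-1)))*y^2)+(2*(64/100+
      40/100*x)+2*(103/100+1/100*y)-(29/200)-(17/80+(121/100*(x-1))))*(67/400*y^2+67/400*x^2)))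
      +28284/10000*(x*y-7/64*(2/3*(x*y)-(67/400*y^2+67/400*x^2))))-303347/1280000*(x-
      1)*x^2*y*(x+y))+(x-y)*((u*(x+y)-28284/10000)*(x*y-7/64*(2/3*(x*y)-(67/400*y^2+(67/400*x^2)))))+
      7/64*((x-y)*((x+y)*((8/25-g1)*((13/25+1/3)*x^2-(67/400*y^2+(67/400*x^2))/4))))+
      7/64*((x-y)*((x+y)*((59/100-g2)*((13/25+1/3)*y^2-(67/400*y^2+(67/400*x^2))/4)))) := by
      linear_combination (-(2507/3200*(x+y)/4))*hN
    have p : 0 ≤ (x-y)*(x+y)*(((64/100+40/100*x)+(103/100+1/100*y)+(216/100-75/100*x)*(x^2-1)/2+(206/100-65/100*y)*(y^2-1)/2+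
      u*(x*y)-((216/100-75/100*x)+(206/100-65/100*y))*(x+y)^2/4)-(N+7/64*(5*(7/64)*(91/100)+2/3*(u*(x*y))-99/50*N+13/25*(g1*x^2+g2*y^2)+4/3*((g1/4+13/200)*x^2+(g2/4+
      (121/100*(x-1))+13/200)*y^2)+(2*(64/100+40/100*x)+2*(103/100+1/100*y)-u-(g1/4+13/200)-
      (g2/4+(121/100*(x-1))+13/200))*(67/400*y^2+(67/400*x^2))))) := by rw [e]; linarith
    have p2 := nonneg_of_mul_nonneg_right p (by positivity)
    linarith

end Pool.Agent.RRS
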