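import Pool.Agent.RRS.TubeNumR
import Pool.Agent.RRS.TubeRowA
import Pool.Agent.RRS.TubeRowB
import Pool.Agent.RRS.TubeRowC
import Pool.Agent.RRS.TubeRowD
import Pool.Agent.RRS.TubeRowE
import Pool.Agent.RRS.TubeRowT

/-!
# The tube: the pair inequality for `R2 ≤ 1 ≤ R1` by rows
-/

set_option autoImplicit false

noncomputable section

namespace Pool.Agent.RRS

open Real

theorem tpairA {x y u ε : ℝ} (hx : 1 ≤ x) (hx1 : x ≤ 3 / 2) (hy : 0 < y) (hy1 : y ≤ 1/4)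
    (h1 : 3 / 2 ≤ x ^ 2 + y ^ 2) (h2 : x ^ 2 + y ^ 2 ≤ 23 / 10) (hU : u * (x + y) = 2 * √2)
    (hC : u ≤ 471 / 100 - 190 / 100 * x - 66 / 100 * y) (e0 : 0 < ε) (e1 : ε ≤ 7/64 * π) :
    RPair Fz g0z g1z g2z x y (π - ε) (cos (π - ε)) := by
  obtain ⟨b1, b2⟩ := two_sqrt_two_bounds
  have y0 : 0 < y := by linarith
  have y1 : y ≤ 1 := by linarith
  have x0 : 0 < x := by linarith
  have hs : 0 < x + y := by linarith
  have hu : 28284 / 10000 ≤ u * (x + y) := by linarith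
  have d0 : 0 < x - y := by linarith
  have hmu0 : 0 ≤ 121 / 400 * (x - 1) * x ^ 2 / (y * (x - y)) := by
    have : 0 ≤ x - 1 := by linarith
    positivity
  have hmu : 121 / 100 * (x - 1) ≤ 4 * (y / x * (1 - y / x)) * (121 / 400 * (x - 1) * x ^ 2 / (y * (x - y))) := by
    apply le_of_eq
    field_simp
    ring
  have hN : 121 / 400 * (x - 1) * x ^ 2 / (y * (x - y)) * y ^ 2 * (4 * (x - y)) = 121 / 100 * (x - 1) * x ^ 2 * y := by
    field_simp
    ring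
  refine pairI_of (mu := 121 / 400 * (x - 1) * x ^ 2 / (y * (x - y))) (t0 := 7/64) (m := x * y / 3) (c1 := 3/100)
    (c2 := 61/100) hx hx1 y0 y1 h1 h2 hU hC hmu0 hmu (by norm_num) (by norm_num) (by norm_num)
    (by norm_num) (Or.inr rfl) ?_ ?_ ?_ e0 e1
  · have := nAq1 hx hx1 y0.le hy1 h1 h2
    linarith
  · have := nAq2 hx hx1 y0.le hy1 h1 h2
    linarith
  · intro g1 g2 hg1 hg2
    have l1 : 0 ≤ g1 := hg1 ▸ le_max_right _ _
    have l2 : 0 ≤ g2 := hg2 ▸ le_max_right _ _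
    have m1 : g1 ≤ 0 := by
      rw [hg1]
      refine max_le (tga_of hs hu ?_) (by norm_num)
      have := nAa1 hx hx1 y0.le hy1 h1 h2
      linarith
    have m2 : g2 ≤ 21/50 := by
      rw [hg2]
      refine max_le (tga_of hs hu ?_) (by norm_num)
      have := nAa2 hx hx1 y0.le hy1 h1 h2
      linarith
    obtain ⟨r1, r2⟩ := trowA hx hx1 y0.le hy1 h1 h2 (by linarith) hu l1 m1 l2 m2 hN
    unfold los21 lin21
    constructor
    · linarith
    · linarith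

theorem tpairB {x y u ε : ℝ} (hx : 1 ≤ x) (hx1 : x ≤ 3 / 2) (hy : 1/4 ≤ y) (hy1 : y ≤ 1/2)
    (h1 : 3 / 2 ≤ x ^ 2 + y ^ 2) (h2 : x ^ 2 + y ^ 2 ≤ 23 / 10) (hU : u * (x + y) = 2 * √2)
    (hC : u ≤ 471 / 100 - 190 / 100 * x - 66 / 100 * y) (e0 : 0 < ε) (e1 : ε ≤ 7/64 * π) :
    RPair Fz g0z g1z g2z x y (π - ε) (cos (π - ε)) := by
  obtain ⟨b1, b2⟩ := two_sqrt_two_bounds
  have y0 : 0 < y := by linarith
  have y1 : y ≤ 1 := by linarith
  have x0 : 0 < x := by linarith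
  have hs : 0 < x + y := by linarith
  have hu : 28284 / 10000 ≤ u * (x + y) := by linarith
  have d0 : 0 < x - y := by linarith
  have hmu0 : 0 ≤ 121 / 400 * (x - 1) * x ^ 2 / (y * (x - y)) := by
    have : 0 ≤ x - 1 := by linarith
    positivity
  have hmu : 121 / 100 * (x - 1) ≤ 4 * (y / x * (1 - y / x)) * (121 / 400 * (x - 1) * x ^ 2 / (y * (x - y))) := by
    apply le_of_eq
    field_simp
    ring
  have hN : 121 / 400 * (x - 1) * x ^ 2 / (y * (x - y)) * y ^ 2 * (4 * (x - y)) = 121 / 100 * (x - 1) * x ^ 2 * y := by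
    field_simp
    ring
  refine pairI_of (mu := 121 / 400 * (x - 1) * x ^ 2 / (y * (x - y))) (t0 := 7/64) (m := x * y / 3) (c1 := 9/100)
    (c2 := 7/10) hx hx1 y0 y1 h1 h2 hU hC hmu0 hmu (by norm_num) (by norm_num) (by norm_num)
    (by norm_num) (Or.inr rfl) ?_ ?_ ?_ e0 e1
  · have := nBq1 hx hx1 hy hy1 h1 h2
    linarith
  · have := nBq2 hx hx1 hy hy1 h1 h2
    linarith
  · intro g1 g2 hg1 hg2
    have l1 : 0 ≤ g1 := hg1 ▸ le_max_right _ _
    have l2 : 0 ≤ g2 := hg2 ▸ le_max_right _ _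
    have m1 : g1 ≤ 13/100 := by
      rw [hg1]
      refine max_le (tga_of hs hu ?_) (by norm_num)
      have := nBa1 hx hx1 hy hy1 h1 h2
      linarith
    have m2 : g2 ≤ 53/100 := by
      rw [hg2]
      refine max_le (tga_of hs hu ?_) (by norm_num)
      have := nBa2 hx hx1 hy hy1 h1 h2
      linarith
    obtain ⟨r1, r2⟩ := trowB hx hx1 hy hy1 h1 h2 (by linarith) hu l1 m1 l2 m2 hN
    unfold los21 lin21
    constructor
    · linarith
    · linarith

theorem tpairC {x y u ε : ℝ} (hx : 1 ≤ x) (hx1 : x ≤ 3 / 2) (hy : 1/2 ≤ y) (hy1 : y ≤ 3/4)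
    (h1 : 3 / 2 ≤ x ^ 2 + y ^ 2) (h2 : x ^ 2 + y ^ 2 ≤ 23 / 10) (hU : u * (x + y) = 2 * √2)
    (hC : u ≤ 471 / 100 - 190 / 100 * x - 66 / 100 * y) (e0 : 0 < ε) (e1 : ε ≤ 7/64 * π) :
    RPair Fz g0z g1z g2z x y (π - ε) (cos (π - ε)) := by
  obtain ⟨b1, b2⟩ := two_sqrt_two_bounds
  have y0 : 0 < y := by linarith
  have y1 : y ≤ 1 := by linarith
  have x0 : 0 < x := by linarith
  have hs : 0 < x + y := by linarith
  have hu : 28284 / 10000 ≤ u * (x + y) := by linarith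
  have d0 : 0 < x - y := by linarith
  have hmu0 : 0 ≤ 121 / 400 * (x - 1) * x ^ 2 / (y * (x - y)) := by
    have : 0 ≤ x - 1 := by linarith
    positivity
  have hmu : 121 / 100 * (x - 1) ≤ 4 * (y / x * (1 - y / x)) * (121 / 400 * (x - 1) * x ^ 2 / (y * (x - y))) := by
    apply le_of_eq
    field_simp
    ring
  have hN : 121 / 400 * (x - 1) * x ^ 2 / (y * (x - y)) * y ^ 2 * (4 * (x - y)) = 121 / 100 * (x - 1) * x ^ 2 * y := by
    field_simp
    ring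
  refine pairI_of (mu := 121 / 400 * (x - 1) * x ^ 2 / (y * (x - y))) (t0 := 7/64) (m := 67 / 400 * x ^ 2) (c1 := 41/200)
    (c2 := 141/200) hx hx1 y0 y1 h1 h2 hU hC hmu0 hmu (by norm_num) (by norm_num) (by norm_num)
    (by norm_num) (Or.inl rfl) ?_ ?_ ?_ e0 e1
  · have := nCq1 hx hx1 hy hy1 h1 h2
    linarith
  · have := nCq2 hx hx1 hy hy1 h1 h2
    linarith
  · intro g1 g2 hg1 hg2
    have l1 : 0 ≤ g1 := hg1 ▸ le_max_right _ _
    have l2 : 0 ≤ g2 := hg2 ▸ le_max_right _ _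
    have m1 : g1 ≤ 8/25 := by
      rw [hg1]
      refine max_le (tga_of hs hu ?_) (by norm_num)
      have := nCa1 hx hx1 hy hy1 h1 h2
      linarith
    have m2 : g2 ≤ 59/100 := by
      rw [hg2]
      refine max_le (tga_of hs hu ?_) (by norm_num)
      have := nCa2 hx hx1 hy hy1 h1 h2
      linarith
    obtain ⟨r1, r2⟩ := trowC hx hx1 hy hy1 h1 h2 (by linarith) hu l1 m1 l2 m2 hN
    unfold los21 lin21
    constructor
    · linarith
    · linarith

theorem tpairD {x y u ε : ℝ} (hx : 1 ≤ x) (hx1 : x ≤ 3 / 2) (hy : 3/4 ≤ y) (hy1 : y ≤ 7/8)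
    (h1 : 3 / 2 ≤ x ^ 2 + y ^ 2) (h2 : x ^ 2 + y ^ 2 ≤ 23 / 10) (hU : u * (x + y) = 2 * √2)
    (hC : u ≤ 471 / 100 - 190 / 100 * x - 66 / 100 * y) (e0 : 0 < ε) (e1 : ε ≤ 7/64 * π) :
    RPair Fz g0z g1z g2z x y (π - ε) (cos (π - ε)) := by
  obtain ⟨b1, b2⟩ := two_sqrt_two_bounds
  have y0 : 0 < y := by linarith
  have y1 : y ≤ 1 := by linarith
  have x0 : 0 < x := by linarith
  have hs : 0 < x + y := by linarith
  have hu : 28284 / 10000 ≤ u * (x + y) := by linarith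
  have d0 : 0 < x - y := by linarith
  have hmu0 : 0 ≤ 121 / 400 * (x - 1) * x ^ 2 / (y * (x - y)) := by
    have : 0 ≤ x - 1 := by linarith
    positivity
  have hmu : 121 / 100 * (x - 1) ≤ 4 * (y / x * (1 - y / x)) * (121 / 400 * (x - 1) * x ^ 2 / (y * (x - y))) := by
    apply le_of_eq
    field_simp
    ring
  have hN : 121 / 400 * (x - 1) * x ^ 2 / (y * (x - y)) * y ^ 2 * (4 * (x - y)) = 121 / 100 * (x - 1) * x ^ 2 * y := by
    field_simp
    ring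
  refine pairI_of (mu := 121 / 400 * (x - 1) * x ^ 2 / (y * (x - y))) (t0 := 7/64) (m := 67 / 400 * x ^ 2) (c1 := 57/200)
    (c2 := 67/100) hx hx1 y0 y1 h1 h2 hU hC hmu0 hmu (by norm_num) (by norm_num) (by norm_num)
    (by norm_num) (Or.inl rfl) ?_ ?_ ?_ e0 e1
  · have := nDq1 hx hx1 hy hy1 h1 h2
    linarith
  · have := nDq2 hx hx1 hy hy1 h1 h2
    linarith
  · intro g1 g2 hg1 hg2
    have l1 : 0 ≤ g1 := hg1 ▸ le_max_right _ _
    have l2 : 0 ≤ g2 := hg2 ▸ le_max_right _ _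
    have m1 : g1 ≤ 41/100 := by
      rw [hg1]
      refine max_le (tga_of hs hu ?_) (by norm_num)
      have := nDa1 hx hx1 hy hy1 h1 h2
      linarith
    have m2 : g2 ≤ 3/5 := by
      rw [hg2]
      refine max_le (tga_of hs hu ?_) (by norm_num)
      have := nDa2 hx hx1 hy hy1 h1 h2
      linarith
    obtain ⟨r1, r2⟩ := trowD hx hx1 hy hy1 h1 h2 (by linarith) hu l1 m1 l2 m2 hN
    unfold los21 lin21
    constructor
    · linarith
    · linarith

theorem tpairE {x y u ε : ℝ} (hx : 1 ≤ x) (hx1 : x ≤ 3 / 2) (hy : 7/8 ≤ y) (hy1 : y ≤ 15/16)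
    (h1 : 3 / 2 ≤ x ^ 2 + y ^ 2) (h2 : x ^ 2 + y ^ 2 ≤ 23 / 10) (hU : u * (x + y) = 2 * √2)
    (hC : u ≤ 471 / 100 - 190 / 100 * x - 66 / 100 * y) (e0 : 0 < ε) (e1 : ε ≤ 7/64 * π) :
    RPair Fz g0z g1z g2z x y (π - ε) (cos (π - ε)) := by
  obtain ⟨b1, b2⟩ := two_sqrt_two_bounds
  have y0 : 0 < y := by linarith
  have y1 : y ≤ 1 := by linarith
  have x0 : 0 < x := by linarith
  have hs : 0 < x + y := by linarith
  have hu : 28284 / 10000 ≤ u * (x + y) := by linarith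
  have d0 : 0 < x - y := by linarith
  have hmu0 : 0 ≤ 121 / 400 * (x - 1) * x ^ 2 / (y * (x - y)) := by
    have : 0 ≤ x - 1 := by linarith
    positivity
  have hmu : 121 / 100 * (x - 1) ≤ 4 * (y / x * (1 - y / x)) * (121 / 400 * (x - 1) * x ^ 2 / (y * (x - y))) := by
    apply le_of_eq
    field_simp
    ring
  have hN : 121 / 400 * (x - 1) * x ^ 2 / (y * (x - y)) * y ^ 2 * (4 * (x - y)) = 121 / 100 * (x - 1) * x ^ 2 * y := by
    field_simp
    ring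
  refine pairI_of (mu := 121 / 400 * (x - 1) * x ^ 2 / (y * (x - y))) (t0 := 7/64) (m := 67 / 400 * x ^ 2) (c1 := 67/200)
    (c2 := 61/100) hx hx1 y0 y1 h1 h2 hU hC hmu0 hmu (by norm_num) (by norm_num) (by norm_num)
    (by norm_num) (Or.inl rfl) ?_ ?_ ?_ e0 e1
  · have := nEq1 hx hx1 hy hy1 h1 h2
    linarith
  · have := nEq2 hx hx1 hy hy1 h1 h2
    linarith
  · intro g1 g2 hg1 hg2
    have l1 : 0 ≤ g1 := hg1 ▸ le_max_right _ _
    have l2 : 0 ≤ g2 := hg2 ▸ le_max_right _ _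
    have m1 : g1 ≤ 23/50 := by
      rw [hg1]
      refine max_le (tga_of hs hu ?_) (by norm_num)
      have := nEa1 hx hx1 hy hy1 h1 h2
      linarith
    have m2 : g2 ≤ 3/5 := by
      rw [hg2]
      refine max_le (tga_of hs hu ?_) (by norm_num)
      have := nEa2 hx hx1 hy hy1 h1 h2
      linarith
    obtain ⟨r1, r2⟩ := trowE hx hx1 hy hy1 h1 h2 (by linarith) hu l1 m1 l2 m2 hN
    unfold los21 lin21
    constructor
    · linarith
    · linarith

theorem tpairT {x y u ε : ℝ} (hx : 1 ≤ x) (hx1 : x ≤ 3 / 2) (hy : 15/16 ≤ y) (hy1 : y ≤ 1)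
    (h1 : 3 / 2 ≤ x ^ 2 + y ^ 2) (h2 : x ^ 2 + y ^ 2 ≤ 23 / 10) (hU : u * (x + y) = 2 * √2)
    (hC : u ≤ 471 / 100 - 190 / 100 * x - 66 / 100 * y) (e0 : 0 < ε) (e1 : ε ≤ 3/32 * π) :
    RPair Fz g0z g1z g2z x y (π - ε) (cos (π - ε)) := by
  obtain ⟨b1, b2⟩ := two_sqrt_two_bounds
  have y0 : 0 < y := by linarith
  have y1 : y ≤ 1 := by linarith
  have x0 : 0 < x := by linarith
  have hs : 0 < x + y := by linarith
  have hu : 28284 / 10000 ≤ u * (x + y) := by linarith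
  have hmu0 : 0 ≤ 121 / 400 * x ^ 2 / y := by positivity
  have hmu : 121 / 100 * (x - 1) ≤ 4 * (y / x * (1 - y / x)) * (121 / 400 * x ^ 2 / y) := by
    have e : 4 * (y / x * (1 - y / x)) * (121 / 400 * x ^ 2 / y) = 121 / 100 * (x - y) := by
      field_simp
      ring
    rw [e]
    linarith
  have hN : 121 / 400 * x ^ 2 / y * y ^ 2 = 121 / 400 * (x ^ 2 * y) := by
    field_simp
  refine pairI_of (mu := 121 / 400 * x ^ 2 / y) (t0 := 3/32) (m := 67 / 400 * x ^ 2) (c1 := 77/200)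
    (c2 := 113/200) hx hx1 y0 y1 h1 h2 hU hC hmu0 hmu (by norm_num) (by norm_num) (by norm_num)
    (by norm_num) (Or.inl rfl) ?_ ?_ ?_ e0 e1
  · have := nTq1 hx hx1 hy hy1 h1 h2
    linarith
  · have := nTq2 hx hx1 hy hy1 h1 h2
    linarith
  · intro g1 g2 hg1 hg2
    have l1 : 0 ≤ g1 := hg1 ▸ le_max_right _ _
    have l2 : 0 ≤ g2 := hg2 ▸ le_max_right _ _
    have m1 : g1 ≤ 1/2 := by
      rw [hg1]
      refine max_le (tga_of hs hu ?_) (by norm_num)
      have := nTa1 hx hx1 hy hy1 h1 h2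
      linarith
    have m2 : g2 ≤ 3/5 := by
      rw [hg2]
      refine max_le (tga_of hs hu ?_) (by norm_num)
      have := nTa2 hx hx1 hy hy1 h1 h2
      linarith
    obtain ⟨r1, r2⟩ := trowT hx hx1 hy hy1 h1 h2 (by linarith) hu l1 m1 l2 m2 hN
    unfold los21 lin21
    constructor
    · linarith
    · linarith

end Pool.Agent.RRS
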