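import Pool.Agent.RRS.Chk9
import Pool.Agent.RRS.TubeSym
import Pool.Agent.RRS.TubeNumB
import Pool.Agent.RRS.TubeNumS
import Pool.Agent.RRS.TubeNumK

/-!
# The tube around the antipodal curve

`tube_main`: the pair inequality for all pairs of norms and angles in the tube (`InTube`).
-/

set_option autoImplicit false

noncomputable section

namespace Pool.Agent.RRS

open Real

/-- the larger norm first -/
theorem tube_aux {x y ε : ℝ} (y0 : 0 < y) (yx : y ≤ x) (x1 : x ≤ 3 / 2)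
    (h1 : 3 / 2 ≤ x ^ 2 + y ^ 2) (h2 : x ^ 2 + y ^ 2 ≤ 23 / 10) (e0 : 0 < ε)
    (h : ε ≤ 7 / 64 * π ∧ (y ≤ 15 / 16 ∨ x ≤ 1) ∨ ε ≤ 3 / 32 * π ∧ y ≤ 1 ∨ ε ≤ π / 16) :
    RPair Fz g0z g1z g2z x y (π - ε) (cos (π - ε)) := by
  have hpi := pi_pos
  have e7 : ε ≤ 7 / 64 * π := by
    rcases h with h | h | h
    · exact h.1
    · linarith [h.1]
    · linarith
  rcases lt_or_ge 1 y with hy | hy
  · -- both radii are larger than one
    rcases h with h | h | h
    · exfalso
      rcases h.2 with h | h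
      · linarith
      · linarith
    · exact absurd h.2 (not_le.2 hy)
    · exact tubeB_pair hy.le yx h2 e0 (by linarith)
  have hs : 0 < x + y := by linarith
  obtain ⟨u, hU⟩ : ∃ u : ℝ, u * (x + y) = 2 * √2 := ⟨2 * √2 / (x + y), by field_simp⟩
  rcases le_total x 1 with hx | hx
  · -- both radii are at most one
    have x0 : 43 / 50 ≤ x := by nlinarith
    have y7 : 7 / 10 ≤ y := by nlinarith
    refine RPair_tubeI (t0 := 7 / 64) (u1 := u) (u2 := u) (w := 13 / 200)
      (m := 67 / 400 * x ^ 2) (c1 := 38 / 100) (c2 := 38 / 100)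
      (T := tP (Lp1 x) (Lp1 y) u u 0 (y / x)) y0 yx x1 e0 e7 le_rfl ?_ ?_
    · rw [Lz_one hx, Lz_one hy]
      exact tubeI_O x0 hx y7 hy yx h1 h2 hU
    · rw [Lz_one hx, Lz_one hy]
      exact valI_O x0 hx y7 hy yx h1 h2 hU
  -- `y ≤ 1 ≤ x`
  obtain ⟨b1, b2⟩ := two_sqrt_two_bounds
  have key : u ≤ 471 / 100 - 190 / 100 * x - 66 / 100 * y ∨
      29 / 20 ≤ x ∧ y ≤ 1 / 20 ∧ 471 / 100 - 190 / 100 * x - 66 / 100 * y ≤ u := by
    rcases le_total x (29 / 20) with k1 | k1
    · left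
      have := nCa hx k1 y0.le hy h1 h2
      refine le_of_mul_le_mul_right ?_ hs
      linarith
    rcases le_total y (1 / 20) with k2 | k2
    · rcases le_total u (471 / 100 - 190 / 100 * x - 66 / 100 * y) with hC | hC
      · exact Or.inl hC
      · exact Or.inr ⟨k1, k2, hC⟩
    · left
      have := nCb k1 x1 k2 hy h1 h2
      refine le_of_mul_le_mul_right ?_ hs
      linarith
  rcases key with hC | ⟨k1, k2, hC⟩
  · rcases le_total y (1 / 4) with k1 | k1
    · exact tpairA hx x1 y0 k1 h1 h2 hU hC e0 e7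
    rcases le_total y (1 / 2) with k2 | k2
    · exact tpairB hx x1 k1 k2 h1 h2 hU hC e0 e7
    rcases le_total y (3 / 4) with k3 | k3
    · exact tpairC hx x1 k2 k3 h1 h2 hU hC e0 e7
    rcases le_total y (7 / 8) with k4 | k4
    · exact tpairD hx x1 k3 k4 h1 h2 hU hC e0 e7
    rcases le_total y (15 / 16) with k5 | k5
    · exact tpairE hx x1 k4 k5 h1 h2 hU hC e0 e7
    rcases h with h | h | h
    · rcases h.2 with h3 | h3
      · exact tpairE hx x1 k4 h3 h1 h2 hU hC e0 e7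
      · -- `x = 1`
        have hx' : x = 1 := le_antisymm h3 hx
        subst hx'
        refine RPair_tubeI (t0 := 7 / 64) (u1 := u) (u2 := u) (w := 13 / 200)
          (m := 67 / 400 * (1 : ℝ) ^ 2) (c1 := 38 / 100) (c2 := 38 / 100)
          (T := tP (Lp1 1) (Lp1 y) u u 0 (y / 1)) y0 yx x1 e0 e7 le_rfl ?_ ?_
        · rw [Lz_one le_rfl, Lz_one hy]
          exact tubeI_O (by norm_num) le_rfl (by linarith) hy yx h1 h2 hU
        · rw [Lz_one le_rfl, Lz_one hy]
          exact valI_O (by norm_num) le_rfl (by linarith) hy yx h1 h2 hU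
    · exact tpairT hx x1 k5 hy h1 h2 hU hC e0 h.1
    · exact tpairT hx x1 k5 hy h1 h2 hU hC e0 (by linarith)
  · exact tpairK k1 x1 y0 k2 h1 h2 hU hC e0 e7

/-- **the pair inequality in the tube** -/
theorem tube_main {Rj Rk θ : ℝ} (hj : 0 < Rj) (h : InTube Rj Rk θ) (hθ : θ < π) :
    RPair Fz g0z g1z g2z Rj Rk θ (cos θ) := by
  obtain ⟨h12, hk, h1, h2, h3⟩ := h
  obtain ⟨ε, hε⟩ : ∃ ε, ε = π - θ := ⟨_, rfl⟩
  have e : θ = π - ε := by
    rw [hε]
    ring
  rw [e]
  refine RPair.symm (tube_aux hj h12 hk (by linarith) (by linarith) (by linarith) ?_)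
  rcases h3 with h3 | h3 | h3
  · exact Or.inl ⟨by linarith [h3.1], h3.2⟩
  · exact Or.inr (Or.inl ⟨by linarith [h3.1], h3.2⟩)
  · exact Or.inr (Or.inr (by linarith))

end Pool.Agent.RRS
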