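import Pool.Agent.RRS.TubeValI
import Pool.Agent.RRS.SlabZ

/-!
# The tube, first region: the numerical conditions on a box

`x = R1`, `y = R2`, bounds of the values of the types on a box, and the test of the conditions
`TubeI` and `ValI` by interval bounds.
-/

set_option autoImplicit false

noncomputable section

namespace Pool.Agent.RRS

open Real

/-- bounds of the values on an interval of the radius -/
structure TnB where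
  Al : ℚ
  Ah : ℚ
  zl : ℚ
  zh : ℚ
  kl : ℚ
  kh : ℚ
  cl : ℚ
  ch : ℚ
  nl : ℚ
  nh : ℚ

structure TnOK (B : TnB) (L : LF) : Prop where
  Al : (B.Al : ℝ) ≤ L.a1
  Ah : L.a1 ≤ (B.Ah : ℝ)
  zl : (B.zl : ℝ) ≤ L.zp
  zh : L.zp ≤ (B.zh : ℝ)
  kl : (B.kl : ℝ) ≤ L.b0
  kh : L.b0 ≤ (B.kh : ℝ)
  cl : (B.cl : ℝ) ≤ L.a0
  ch : L.a0 ≤ (B.ch : ℝ)
  nl : (B.nl : ℝ) ≤ L.nu
  nh : L.nu ≤ (B.nh : ℝ)

/-- radii at most `1` -/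
def tnB1 (a b : ℚ) : TnB :=
  ⟨103 / 100 + 1 / 100 * a, 103 / 100 + 1 / 100 * b, 103 / 100 - 66 / 100 * b,
    103 / 100 - 66 / 100 * a, 206 / 100 - 65 / 100 * b, 206 / 100 - 65 / 100 * a, -(1 / 2) * b,
    -(1 / 2) * a, 0, 0⟩

/-- radii between `1` and `3 / 2` -/
def tnB2 (a b : ℚ) : TnB :=
  ⟨64 / 100 + 40 / 100 * a, 64 / 100 + 40 / 100 * b, 31 / 100 + 6 / 100 * a,
    31 / 100 + 6 / 100 * b, 216 / 100 - 75 / 100 * b, 216 / 100 - 75 / 100 * a, -(1 / 2),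
    -(1 / 2), 121 / 100 * (a - 1), 121 / 100 * (b - 1)⟩

theorem tnB1_ok {a b : ℚ} {R : ℝ} (h0 : (a : ℝ) ≤ R) (h1 : R ≤ (b : ℝ)) (h : R ≤ 1) :
    TnOK (tnB1 a b) (Lz R) := by
  rw [Lz_one h]
  constructor <;> simp only [tnB1, Lp1, mkL, LF.nu] <;> push_cast <;> linarith

theorem tnB2_ok {a b : ℚ} {R : ℝ} (h0 : (a : ℝ) ≤ R) (h1 : R ≤ (b : ℝ)) (h : 1 ≤ R)
    (h' : R ≤ 3 / 2) : TnOK (tnB2 a b) (Lz R) := by
  rw [Lz_two h h']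
  constructor <;> simp only [tnB2, Lp2, mkL, LF.nu] <;> push_cast <;> linarith

/-- the data of a box -/
structure TnD where
  l1 : ℚ
  h1 : ℚ
  l2 : ℚ
  h2 : ℚ
  w : ℚ
  g1 : ℚ
  g2 : ℚ
  q : ℚ
  s1 : ℚ
  s2 : ℚ
  c1 : ℚ
  c2 : ℚ
  m : Bool

/-- the common part of the test -/
def tnC (t0 x0 x1 y0 y1 : ℚ) (L K : TnB) (D : TnD) : Bool :=
  decide (0 ≤ 2 * L.Al + 2 * K.Al - D.h1 - (D.g1 + D.g2) / 4 - L.nh - 2 * D.w) &&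
    decide (0 ≤ L.Al - L.zh - L.kh + D.l1) &&
    decide (D.h1 ≤ L.zl + K.zl + L.kl - L.Ah + K.kl - K.Ah) &&
    decide (D.h1 ≤ 2 * L.kl - L.Ah + K.zl) && decide (D.h1 ≤ 2 * L.kl) &&
    decide (D.h2 ≤ 2 * K.kl) && decide (L.Ah ≤ 2 * L.kl) && decide (L.Ah ≤ L.zl + L.kl) &&
    decide (D.s2 * D.s2 ≤ 4 * D.w * (2 * L.Al + 2 * K.Al - D.h1 - D.g1 / 4 - D.w)) &&
    decide (2 * K.Ah - D.l2 ≤ D.s2) && decide (D.h2 - 2 * K.Al ≤ D.s2) &&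
    decide (D.s1 * D.s1 ≤ 4 * D.w * (2 * L.Al + 2 * K.Al - D.h1 - D.g2 / 4 - L.nh - D.w)) &&
    decide (2 * L.Ah - D.l1 - L.nl ≤ D.s1) && decide (D.h1 + L.nh - 2 * L.Al ≤ D.s1) &&
    decide (0 ≤ 2 * (D.g1 / 4 + D.w) + D.l1 - L.kh - L.ch) &&
    decide (0 ≤ 2 * (D.g2 / 4 + L.nl + D.w) + D.l1 - K.kh - K.ch) &&
    decide (0 ≤ 4 * (L.kl + K.kl) - 2 * (L.Ah + K.Ah) - 2 * D.h1 - D.h2) &&
    decide (0 ≤ 2 * L.Al + 2 * K.Al - L.ch - K.ch - L.kh - K.kh + D.l1) &&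
    decide (0 ≤ D.g1) && decide (L.kh - L.cl - D.l1 ≤ D.g1) && decide (0 ≤ D.g2) &&
    decide (K.kh - K.cl - D.l2 ≤ D.g2) && decide (0 ≤ D.w) &&
    (decide (D.g1 = 0) || decide (9 / 4 * (D.g1 * x1) ≤ D.l2 * y0)) &&
    decide (9 / 4 * (D.g2 * y1) ≤ D.l2 * x0) && decide (0 < D.l1 - 5 * t0 ^ 2 * L.kh) &&
    decide (0 < D.l2 - 5 * t0 ^ 2 * K.kh) &&
    decide ((2 * L.kh - D.l1) ^ 2 ≤ D.c1 * (2 * D.l1 ^ 2 * (D.l1 - 5 * t0 ^ 2 * L.kh))) &&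
    decide ((2 * K.kh - D.l2) ^ 2 ≤ D.c2 * (2 * D.l2 ^ 2 * (D.l2 - 5 * t0 ^ 2 * K.kh))) &&
    decide (0 ≤ D.c1) && decide (0 ≤ D.c2) && decide (0 < D.l1) && decide (0 < D.l2) &&
    decide (0 ≤ D.q) && (decide (L.nh ≤ D.q * (x0 - y1)) || decide (121 / 100 ≤ D.q)) &&
    decide (0 ≤ L.kl) && decide (0 ≤ K.kl) && decide (0 ≤ L.Al) && decide (0 ≤ K.Al) &&
    decide (0 ≤ t0)

/-- the parameters of the form -/
def tnT (L K : LF) (D : TnD) (x y u1 u2 : ℝ) : TP where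
  u := u2
  mu := D.q * x ^ 2 / (4 * y)
  r := y / x
  g1 := D.g1
  g2 := D.g2
  et := 0
  n2 := 0
  h1 := D.g1 / 4 + D.w
  h3 := D.g2 / 4 + L.nu + D.w
  h4 := 2 * L.a1 + 2 * K.a1 - u1 - (D.g1 / 4 + D.w) - (D.g2 / 4 + L.nu + D.w)

theorem tnC_tube {t0 x0 x1 y0 y1 : ℚ} {LB KB : TnB} {D : TnD}
    (h : tnC t0 x0 x1 y0 y1 LB KB D = true) {L K : LF} (hL : TnOK LB L) (hK : TnOK KB K)
    (tL : TubeL L) (tK : TubeL K) (K0 : K.nu = 0) {x y u1 u2 : ℝ} (hy : 0 < y) (hxy : y ≤ x)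
    (hnu : L.nu ≤ 121 / 100 * (x - y)) (a0 : (x0 : ℝ) ≤ x) (b1 : y ≤ (y1 : ℝ))
    (u1l : (D.l1 : ℝ) ≤ u1) (u1h : u1 ≤ (D.h1 : ℝ)) (u2l : (D.l2 : ℝ) ≤ u2)
    (u2h : u2 ≤ (D.h2 : ℝ)) (u12 : u1 ≤ u2) :
    TubeI L K u1 u2 D.w (tnT L K D x y u1 u2) := by
  simp only [tnC, Bool.and_eq_true, Bool.or_eq_true, decide_eq_true_eq] at h
  obtain ⟨⟨⟨⟨⟨⟨⟨⟨⟨⟨⟨⟨⟨⟨⟨⟨⟨⟨⟨⟨⟨⟨⟨⟨⟨⟨⟨⟨⟨⟨⟨⟨⟨⟨⟨⟨⟨⟨⟨k1, k2⟩, k3⟩, k4⟩, k5⟩, k6⟩, k7⟩, k8⟩, k9⟩, k10⟩, k11⟩, k12⟩, k13⟩, k14⟩, k15⟩,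
    k16⟩, k17⟩, k18⟩, k19⟩, k20⟩, k21⟩, k22⟩, k23⟩, k24⟩, k25⟩, k26⟩, k27⟩, k28⟩, k29⟩, k30⟩, k31⟩,
    k32⟩, k33⟩, k34⟩, k35⟩, k36⟩, k37⟩, k38⟩, k39⟩, k40⟩ := h
  have j1 := (Rat.cast_le (K := ℝ)).2 k1
  have j2 := (Rat.cast_le (K := ℝ)).2 k2
  have j3 := (Rat.cast_le (K := ℝ)).2 k3
  have j4 := (Rat.cast_le (K := ℝ)).2 k4
  have j5 := (Rat.cast_le (K := ℝ)).2 k5
  have j6 := (Rat.cast_le (K := ℝ)).2 k6
  have j7 := (Rat.cast_le (K := ℝ)).2 k7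
  have j8 := (Rat.cast_le (K := ℝ)).2 k8
  have j9 := (Rat.cast_le (K := ℝ)).2 k9
  have j10 := (Rat.cast_le (K := ℝ)).2 k10
  have j11 := (Rat.cast_le (K := ℝ)).2 k11
  have j12 := (Rat.cast_le (K := ℝ)).2 k12
  have j13 := (Rat.cast_le (K := ℝ)).2 k13
  have j14 := (Rat.cast_le (K := ℝ)).2 k14
  have j15 := (Rat.cast_le (K := ℝ)).2 k15
  have j16 := (Rat.cast_le (K := ℝ)).2 k16
  have j17 := (Rat.cast_le (K := ℝ)).2 k17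
  have j18 := (Rat.cast_le (K := ℝ)).2 k18
  have j19 := (Rat.cast_le (K := ℝ)).2 k19
  have j20 := (Rat.cast_le (K := ℝ)).2 k20
  have j21 := (Rat.cast_le (K := ℝ)).2 k21
  have j22 := (Rat.cast_le (K := ℝ)).2 k22
  have j23 := (Rat.cast_le (K := ℝ)).2 k23
  have j32 := (Rat.cast_lt (K := ℝ)).2 k32
  have j34 := (Rat.cast_le (K := ℝ)).2 k34
  push_cast at j1 j2 j3 j4 j5 j6 j7 j8 j9 j10 j11 j12 j13 j14 j15 j16 j17 j18 j19 j20 j21 j22 j23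
  push_cast at j32 j34
  obtain ⟨L1, L2, L3, L4, L5, L6, L7, L8, L9, L10⟩ := hL
  obtain ⟨K1, K2, K3, K4, K5, K6, K7, K8, K9, K10⟩ := hK
  have hx : 0 < x := hy.trans_le hxy
  have hmu : L.nu ≤ (D.q : ℝ) * (x - y) := by
    rcases k35 with h' | h'
    · have j := (Rat.cast_le (K := ℝ)).2 h'
      push_cast at j
      have : (D.q : ℝ) * (x0 - y1) ≤ D.q * (x - y) :=
        mul_le_mul_of_nonneg_left (by linarith) j34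
      linarith
    · have j := (Rat.cast_le (K := ℝ)).2 h'
      push_cast at j
      have := mul_le_mul_of_nonneg_right j (sub_nonneg.2 hxy)
      linarith
  have sq_of : ∀ {s P Q : ℝ}, s ≤ P → -P ≤ s → P * P ≤ Q → s ^ 2 ≤ Q := by
    intro s P Q h1 h2 h3
    nlinarith [mul_nonneg (sub_nonneg.2 h1) (by linarith : (0 : ℝ) ≤ P + s)]
  refine
    { lL := tL, lK := tK, Tu := rfl, et0 := rfl, n20 := rfl, K0 := K0
      u0 := lt_of_lt_of_le j32 u1l, u12 := u12, w0 := j23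
      r0 := ?_, r1 := ?_, mu0 := ?_, mu := ?_, g1 := j19, g2 := j21, g1' := ?_, g2' := ?_
      h1 := rfl, h3 := rfl, h4 := ?_, hs := ?_, sa := ?_, D := ?_, C := ?_, k1 := ?_, k2 := ?_
      ak := ?_, zk := ?_, s2 := ?_, s1 := ?_, e1 := ?_, e3 := ?_, kk := ?_, W := ?_ }
  · exact div_nonneg hy.le hx.le
  · exact (div_le_one hx).2 hxy
  · simp only [tnT]
    positivity
  · simp only [tnT]
    have : 4 * (y / x * (1 - y / x)) * ((D.q : ℝ) * x ^ 2 / (4 * y)) = D.q * (x - y) := by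
      have := hx.ne'
      have := hy.ne'
      field_simp
    rw [this]
    exact hmu
  · simp only [LF.ga, tnT]
    linarith
  · simp only [LF.ga, tnT]
    linarith
  · simp only [tnT]
    linarith
  · simp only [tnT]
    ring
  · simp only [LF.sa]
    linarith
  · simp only [tD]
    linarith
  · linarith
  · linarith
  · linarith
  · linarith
  · linarith
  · simp only [tnT]
    refine sq_of (P := D.s2) (by linarith) (by linarith) (j9.trans ?_)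
    apply mul_le_mul_of_nonneg_left _ (by linarith)
    linarith
  · simp only [tnT]
    refine sq_of (P := D.s1) (by linarith) (by linarith) (j12.trans ?_)
    apply mul_le_mul_of_nonneg_left _ (by linarith)
    linarith
  · simp only [tnT]
    linarith
  · simp only [tnT]
    linarith
  · linarith
  · linarith

theorem tnC_val {t0 x0 x1 y0 y1 : ℚ} {LB KB : TnB} {D : TnD}
    (h : tnC t0 x0 x1 y0 y1 LB KB D = true) {L K : LF} (hL : TnOK LB L) (hK : TnOK KB K)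
    {x y u1 u2 : ℝ} (hy : 0 < y) (hx : 0 < x)
    (a0 : (x0 : ℝ) ≤ x) (a1 : x ≤ (x1 : ℝ)) (b0 : (y0 : ℝ) ≤ y) (b1 : y ≤ (y1 : ℝ))
    (u1l : (D.l1 : ℝ) ≤ u1) (u1h : u1 ≤ (D.h1 : ℝ)) (u2l : (D.l2 : ℝ) ≤ u2)
    (u2h : u2 ≤ (D.h2 : ℝ)) (F0 : 0 ≤ F0T x y u1 u2) :
    ValT L K x y u1 u2 t0 D.c1 D.c2 (tnT L K D x y u1 u2) := by
  simp only [tnC, Bool.and_eq_true, Bool.or_eq_true, decide_eq_true_eq] at h
  obtain ⟨⟨⟨⟨⟨⟨⟨⟨⟨⟨⟨⟨⟨⟨⟨⟨⟨⟨⟨⟨⟨⟨⟨⟨⟨⟨⟨⟨⟨⟨⟨⟨⟨⟨⟨⟨⟨⟨⟨k1, k2⟩, k3⟩, k4⟩, k5⟩, k6⟩, k7⟩, k8⟩, k9⟩, k10⟩, k11⟩, k12⟩, k13⟩, k14⟩, k15⟩,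
    k16⟩, k17⟩, k18⟩, k19⟩, k20⟩, k21⟩, k22⟩, k23⟩, k24⟩, k25⟩, k26⟩, k27⟩, k28⟩, k29⟩, k30⟩, k31⟩,
    k32⟩, k33⟩, k34⟩, k35⟩, k36⟩, k37⟩, k38⟩, k39⟩, k40⟩ := h
  have j5 := (Rat.cast_le (K := ℝ)).2 k5
  have j6 := (Rat.cast_le (K := ℝ)).2 k6
  have j19 := (Rat.cast_le (K := ℝ)).2 k19
  have j21 := (Rat.cast_le (K := ℝ)).2 k21
  have j25 := (Rat.cast_le (K := ℝ)).2 k25
  have j26 := (Rat.cast_lt (K := ℝ)).2 k26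
  have j27 := (Rat.cast_lt (K := ℝ)).2 k27
  have j28 := (Rat.cast_le (K := ℝ)).2 k28
  have j29 := (Rat.cast_le (K := ℝ)).2 k29
  have j30 := (Rat.cast_le (K := ℝ)).2 k30
  have j31 := (Rat.cast_le (K := ℝ)).2 k31
  have j32 := (Rat.cast_lt (K := ℝ)).2 k32
  have j33 := (Rat.cast_lt (K := ℝ)).2 k33
  have j40 := (Rat.cast_le (K := ℝ)).2 k40
  push_cast at j5 j6 j19 j21 j25 j26 j27 j28 j29 j30 j31 j32 j33 j40
  obtain ⟨L1, L2, L3, L4, L5, L6, L7, L8, L9, L10⟩ := hL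
  obtain ⟨K1, K2, K3, K4, K5, K6, K7, K8, K9, K10⟩ := hK
  have key : ∀ {c l kh u k : ℝ}, 0 ≤ c → 0 < l → l ≤ u → k ≤ kh → u ≤ 2 * k →
      0 < l - 5 * (t0 : ℝ) ^ 2 * kh →
      (2 * kh - l) ^ 2 ≤ c * (2 * l ^ 2 * (l - 5 * (t0 : ℝ) ^ 2 * kh)) →
      5 * (t0 : ℝ) ^ 2 * k < u ∧ (u - 2 * k) ^ 2 ≤ c * (2 * u ^ 2 * (u - 5 * (t0 : ℝ) ^ 2 * k)) := by
    intro c l kh u k hc hl hlu hk huk hd hq
    have h1 : 5 * (t0 : ℝ) ^ 2 * k ≤ 5 * (t0 : ℝ) ^ 2 * kh :=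
      mul_le_mul_of_nonneg_left hk (by positivity)
    refine ⟨by linarith, ?_⟩
    have h2 : (u - 2 * k) ^ 2 ≤ (2 * kh - l) ^ 2 := by
      have : 0 ≤ 2 * k - u := by linarith
      have h3 : 2 * k - u ≤ 2 * kh - l := by linarith
      have := mul_self_le_mul_self this h3
      nlinarith
    refine h2.trans (hq.trans ?_)
    apply mul_le_mul_of_nonneg_left _ hc
    have h4 : l ^ 2 ≤ u ^ 2 := by gcongr
    have h5 : 2 * l ^ 2 ≤ 2 * u ^ 2 := by linarith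
    exact mul_le_mul h5 (by linarith) hd.le (by positivity)
  obtain ⟨d1, q1⟩ := key j30 j32 u1l L6 (by linarith) j26 j28
  obtain ⟨d2, q2⟩ := key j31 j33 u2l K6 (by linarith) j27 j29
  refine ⟨?_, ?_, ?_, d1, d2, q1, q2, F0⟩
  · simp only [tnT]
    exact div_mul_cancel₀ _ hx.ne'
  · simp only [tnT]
    rcases k24 with h' | h'
    · rw [h']
      push_cast
      have := mul_nonneg (j33.le.trans u2l) hy.le
      linarith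
    · have j := (Rat.cast_le (K := ℝ)).2 h'
      push_cast at j
      have e1 : (D.g1 : ℝ) * x ≤ D.g1 * x1 := mul_le_mul_of_nonneg_left a1 j19
      have e2 : (D.l2 : ℝ) * y0 ≤ u2 * y :=
        (mul_le_mul_of_nonneg_left b0 j33.le).trans (mul_le_mul_of_nonneg_right u2l hy.le)
      linarith
  · simp only [tnT]
    have e1 : (D.g2 : ℝ) * y ≤ D.g2 * y1 := mul_le_mul_of_nonneg_left b1 j21
    have e2 : (D.l2 : ℝ) * x0 ≤ u2 * x :=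
      (mul_le_mul_of_nonneg_left a0 j33.le).trans (mul_le_mul_of_nonneg_right u2l hx.le)
    linarith

end Pool.Agent.RRS
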