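import Pool.Agent.RRS.TubeNa

/-!
# The tube, first region: the value on a box
-/

set_option autoImplicit false

noncomputable section

namespace Pool.Agent.RRS

open Real

/-- the second term of the value -/
def TnD.M (D : TnD) (x y : ℝ) : ℝ := bif D.m then 67 / 400 * x ^ 2 else x * y / 3

def TnD.Mq (D : TnD) (x y : ℚ) : ℚ := bif D.m then 67 / 400 * (x * x) else x * y / 3

/-- the test of the value; `b` is a lower bound of the rest of the linear term -/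
def tnV (t0 x0 x1 y0 y1 b : ℚ) (L K : TnB) (D : TnD) : Bool :=
  decide (0 ≤ b + D.l2 * (x0 * y0) - D.q / 4 * (x1 * x1 * y1)) &&
    decide (0 ≤ b + (1 - 2 / 3 * t0) * (D.l2 * (x0 * y0)) -
      (1 - 99 / 50 * t0) * (D.q / 4 * (x1 * x1 * y1)) -
      t0 * (5 * t0 * (D.c1 + D.c2) + 13 / 25 * (D.g1 * (x1 * x1) + D.g2 * (y1 * y1)) +
        4 / 3 * ((D.g1 / 4 + D.w) * (x1 * x1) + (D.g2 / 4 + L.nh + D.w) * (y1 * y1)) +
        (2 * L.Ah + 2 * K.Ah - D.l1 - (D.g1 + D.g2) / 4 - L.nl - 2 * D.w) *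
          (67 / 400 * (y1 * y1) + D.Mq x1 y1))) &&
    decide (0 ≤ x0) && decide (0 ≤ y0) && decide (t0 ≤ 7 / 64)

theorem tnV_sound {t0 x0 x1 y0 y1 b : ℚ} {LB KB : TnB} {D : TnD}
    (h : tnC t0 x0 x1 y0 y1 LB KB D = true) (hV : tnV t0 x0 x1 y0 y1 b LB KB D = true) {L K : LF}
    (hL : TnOK LB L) (hK : TnOK KB K) (hnu0 : 0 ≤ L.nu)
    {x y u1 u2 : ℝ} (hy : 0 < y) (hx : 0 < x)
    (a0 : (x0 : ℝ) ≤ x) (a1 : x ≤ (x1 : ℝ)) (b0 : (y0 : ℝ) ≤ y) (b1 : y ≤ (y1 : ℝ))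
    (u1l : (D.l1 : ℝ) ≤ u1) (u2l : (D.l2 : ℝ) ≤ u2)
    (hb : (b : ℝ) + u2 * (x * y) ≤ linT L K x y u1 u2) (hT : 0 ≤ (tnT L K D x y u1 u2).h4) :
    (tnT L K D x y u1 u2).mu * y ^ 2 ≤ linT L K x y u1 u2 ∧
      (tnT L K D x y u1 u2).mu * y ^ 2 +
        t0 * bT (tnT L K D x y u1 u2) x y t0 (D.M x y) (D.c1 + D.c2) ≤ linT L K x y u1 u2 := by
  simp only [tnC, Bool.and_eq_true, Bool.or_eq_true, decide_eq_true_eq] at h
  obtain ⟨⟨⟨⟨⟨⟨⟨⟨⟨⟨⟨⟨⟨⟨⟨⟨⟨⟨⟨⟨⟨⟨⟨⟨⟨⟨⟨⟨⟨⟨⟨⟨⟨⟨⟨⟨⟨⟨⟨k1, k2⟩, k3⟩, k4⟩, k5⟩, k6⟩, k7⟩, k8⟩, k9⟩, k10⟩, k11⟩, k12⟩, k13⟩, k14⟩, k15⟩,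
    k16⟩, k17⟩, k18⟩, k19⟩, k20⟩, k21⟩, k22⟩, k23⟩, k24⟩, k25⟩, k26⟩, k27⟩, k28⟩, k29⟩, k30⟩, k31⟩,
    k32⟩, k33⟩, k34⟩, k35⟩, k36⟩, k37⟩, k38⟩, k39⟩, k40⟩ := h
  have j19 := (Rat.cast_le (K := ℝ)).2 k19
  have j21 := (Rat.cast_le (K := ℝ)).2 k21
  have j23 := (Rat.cast_le (K := ℝ)).2 k23
  have j33 := (Rat.cast_lt (K := ℝ)).2 k33
  have j34 := (Rat.cast_le (K := ℝ)).2 k34
  have j40 := (Rat.cast_le (K := ℝ)).2 k40
  simp only [tnV, Bool.and_eq_true, decide_eq_true_eq] at hV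
  obtain ⟨⟨⟨⟨v1, v2⟩, v3⟩, v4⟩, v5⟩ := hV
  have w1 := (Rat.cast_le (K := ℝ)).2 v1
  have w2 := (Rat.cast_le (K := ℝ)).2 v2
  have w3 := (Rat.cast_le (K := ℝ)).2 v3
  have w4 := (Rat.cast_le (K := ℝ)).2 v4
  have w5 := (Rat.cast_le (K := ℝ)).2 v5
  push_cast at j19 j21 j23 j33 j34 j40 w1 w2 w3 w4 w5
  obtain ⟨L1, L2, L3, L4, L5, L6, L7, L8, L9, L10⟩ := hL
  obtain ⟨K1, K2, K3, K4, K5, K6, K7, K8, K9, K10⟩ := hK
  have hMq : ((D.Mq x1 y1 : ℚ) : ℝ) = D.M x1 y1 := by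
    unfold TnD.Mq TnD.M
    cases D.m <;> simp only [cond_true, cond_false] <;> push_cast <;> ring
  rw [hMq] at w2
  have hM : D.M x y ≤ D.M x1 y1 := by
    unfold TnD.M
    cases D.m
    · simp only [cond_false]
      have := mul_le_mul a1 b1 hy.le (hx.le.trans a1)
      linarith
    · simp only [cond_true]
      have : x ^ 2 ≤ (x1 : ℝ) ^ 2 := by gcongr
      linarith
  have hM0 : 0 ≤ D.M x y := by
    unfold TnD.M
    cases D.m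
    · simp only [cond_false]
      positivity
    · simp only [cond_true]
      positivity
  have hx1 : (0 : ℝ) ≤ x1 := hx.le.trans a1
  have hy1 : (0 : ℝ) ≤ y1 := hy.le.trans b1
  have sx : x * x ≤ (x1 : ℝ) * x1 := mul_self_le_mul_self hx.le a1
  have sy : y * y ≤ (y1 : ℝ) * y1 := mul_self_le_mul_self hy.le b1
  have hmuy : (tnT L K D x y u1 u2).mu * y ^ 2 = D.q / 4 * (x * x * y) := by
    simp only [tnT]
    have := hy.ne'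
    field_simp
  have X1 : (D.l2 : ℝ) * (x0 * y0) ≤ u2 * (x * y) := by
    have e1 : (x0 : ℝ) * y0 ≤ x * y := mul_le_mul a0 b0 w4 hx.le
    exact (mul_le_mul_of_nonneg_left e1 j33.le).trans
      (mul_le_mul_of_nonneg_right u2l (mul_nonneg hx.le hy.le))
  have X2 : (D.q : ℝ) / 4 * (x * x * y) ≤ D.q / 4 * (x1 * x1 * y1) := by
    apply mul_le_mul_of_nonneg_left _ (by positivity)
    exact mul_le_mul sx b1 hy.le (mul_self_nonneg _)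
  refine ⟨?_, ?_⟩
  · rw [hmuy]
    linarith
  · simp only [bT]
    rw [hmuy]
    -- the terms
    have Z1 : (D.g1 : ℝ) * x ^ 2 ≤ D.g1 * (x1 * x1) := by
      rw [sq]
      exact mul_le_mul_of_nonneg_left sx j19
    have Z2 : (D.g2 : ℝ) * y ^ 2 ≤ D.g2 * (y1 * y1) := by
      rw [sq]
      exact mul_le_mul_of_nonneg_left sy j21
    have Z3 : ((D.g1 : ℝ) / 4 + D.w) * x ^ 2 ≤ (D.g1 / 4 + D.w) * (x1 * x1) := by
      rw [sq]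
      exact mul_le_mul_of_nonneg_left sx (by positivity)
    have Z4 : ((D.g2 : ℝ) / 4 + L.nu + D.w) * y ^ 2 ≤ (D.g2 / 4 + LB.nh + D.w) * (y1 * y1) := by
      rw [sq]
      have e1 : ((D.g2 : ℝ) / 4 + L.nu + D.w) * (y * y) ≤ (D.g2 / 4 + LB.nh + D.w) * (y * y) :=
        mul_le_mul_of_nonneg_right (by linarith) (mul_self_nonneg _)
      exact e1.trans (mul_le_mul_of_nonneg_left sy (by linarith))
    have Z5 : (tnT L K D x y u1 u2).h4 * (67 / 400 * y ^ 2 + D.M x y) ≤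
        (2 * LB.Ah + 2 * KB.Ah - D.l1 - (D.g1 + D.g2) / 4 - LB.nl - 2 * D.w) *
          (67 / 400 * (y1 * y1) + D.M x1 y1) := by
      have e1 : (tnT L K D x y u1 u2).h4 ≤
          2 * LB.Ah + 2 * KB.Ah - D.l1 - (D.g1 + D.g2) / 4 - LB.nl - 2 * D.w := by
        simp only [tnT]
        linarith
      have e2 : 67 / 400 * y ^ 2 + D.M x y ≤ 67 / 400 * (y1 * y1) + D.M x1 y1 := by
        rw [sq]
        linarith
      exact mul_le_mul e1 e2 (by positivity) (hT.trans e1)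
    have c1 : 0 ≤ 1 - 2 / 3 * (t0 : ℝ) := by linarith
    have c2 : 0 ≤ 1 - 99 / 50 * (t0 : ℝ) := by linarith
    have f1 := mul_le_mul_of_nonneg_left X1 c1
    have f2 := mul_le_mul_of_nonneg_left X2 c2
    have f3 : (t0 : ℝ) * (13 / 25 * (D.g1 * x ^ 2 + D.g2 * y ^ 2) +
        4 / 3 * (((D.g1 : ℝ) / 4 + D.w) * x ^ 2 + ((D.g2 : ℝ) / 4 + L.nu + D.w) * y ^ 2) +
        (tnT L K D x y u1 u2).h4 * (67 / 400 * y ^ 2 + D.M x y)) ≤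
        t0 * (13 / 25 * (D.g1 * (x1 * x1) + D.g2 * (y1 * y1)) +
        4 / 3 * ((D.g1 / 4 + D.w) * (x1 * x1) + (D.g2 / 4 + LB.nh + D.w) * (y1 * y1)) +
        (2 * LB.Ah + 2 * KB.Ah - D.l1 - (D.g1 + D.g2) / 4 - LB.nl - 2 * D.w) *
          (67 / 400 * (y1 * y1) + D.M x1 y1)) := by
      apply mul_le_mul_of_nonneg_left _ j40
      linarith
    have t1 : (tnT L K D x y u1 u2).u = u2 := rfl
    have t2 : (tnT L K D x y u1 u2).g1 = D.g1 := rfl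
    have t3 : (tnT L K D x y u1 u2).g2 = D.g2 := rfl
    have t4 : (tnT L K D x y u1 u2).h1 = D.g1 / 4 + D.w := rfl
    have t5 : (tnT L K D x y u1 u2).h3 = D.g2 / 4 + L.nu + D.w := rfl
    rw [t1, t2, t3, t4, t5]
    obtain ⟨H, hH⟩ : ∃ H, H = (tnT L K D x y u1 u2).h4 * (67 / 400 * y ^ 2 + D.M x y) := ⟨_, rfl⟩
    rw [← hH] at f3 ⊢
    obtain ⟨P, hP⟩ : ∃ P, P = u2 * (x * y) := ⟨_, rfl⟩
    rw [← hP] at f1 hb ⊢
    obtain ⟨Q, hQ⟩ : ∃ Q, Q = (D.q : ℝ) / 4 * (x * x * y) := ⟨_, rfl⟩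
    rw [← hQ] at f2 ⊢
    linarith

end Pool.Agent.RRS
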