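import Pool.Agent.RRS.TubeNb

/-!
# The tube, first region: the test of a box, trees of boxes
-/

set_option autoImplicit false

noncomputable section

namespace Pool.Agent.RRS

open Real

theorem tubeL_Lz {R : ℝ} (h0 : 0 ≤ R) (h : R ≤ 3 / 2) : TubeL (Lz R) := by
  have b := Lz_bounds h0 (by linarith)
  refine ⟨b.zm, Lz_b1 h, by linarith [b.a1_lo], ?_⟩
  have := b.nu
  unfold LF.nu
  linarith

/-! ### equal multipliers -/

/-- the test with `u1 = u2 = 2 √2 / (x + y)` -/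
def tnM1 (t0 x0 x1 y0 y1 : ℚ) (L K : TnB) (D : TnD) : Bool :=
  decide (D.l2 = D.l1) && decide (D.h2 = D.h1) &&
    decide (D.l1 * (x1 + y1) ≤ 282842 / 100000) &&
    decide (282844 / 100000 ≤ D.h1 * (x0 + y0)) &&
    tnV t0 x0 x1 y0 y1 (L.Al + K.Al +
      L.kh * min (-(1 / 2) + x0 * x0 / 4 - x1 * y1 / 2 - y1 * y1 / 4) 0 +
      K.kh * min (-(1 / 2) + y0 * y0 / 4 - x1 * y1 / 2 - x1 * x1 / 4) 0) L K D

theorem sqrt2_loN : (1.41421 : ℝ) ≤ √2 := Real.le_sqrt_of_sq_le (by norm_num)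

theorem sqrt2_hiN : √2 ≤ (1.41422 : ℝ) := by
  rw [Real.sqrt_le_left (by norm_num)]
  norm_num

theorem tn_box1 {t0 x0 x1 y0 y1 : ℚ} {LB KB : TnB} {D : TnD}
    (h : tnC t0 x0 x1 y0 y1 LB KB D = true) (hV : tnM1 t0 x0 x1 y0 y1 LB KB D = true)
    {x y ε : ℝ} (hL : TnOK LB (Lz x)) (hK : TnOK KB (Lz y)) (K0 : (Lz y).nu = 0)
    (hy : 0 < y) (hxy : y ≤ x) (hx3 : x ≤ 3 / 2)
    (hnu : (Lz x).nu ≤ 121 / 100 * (x - y)) (a0 : (x0 : ℝ) ≤ x) (a1 : x ≤ (x1 : ℝ))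
    (b0 : (y0 : ℝ) ≤ y) (b1 : y ≤ (y1 : ℝ)) (e0 : 0 < ε) (e1 : ε ≤ t0 * π) :
    RPair Fz g0z g1z g2z x y (π - ε) (cos (π - ε)) := by
  have hx : 0 < x := hy.trans_le hxy
  have tL := tubeL_Lz hx.le hx3
  have tK := tubeL_Lz hy.le (hxy.trans hx3)
  obtain ⟨u, hu⟩ : ∃ u, u = 2 * √2 / (x + y) := ⟨_, rfl⟩
  have hσ : 0 < x + y := add_pos hx hy
  have huσ : u * (x + y) = 2 * √2 := by
    rw [hu]
    exact div_mul_cancel₀ _ hσ.ne'
  have s1 := sqrt2_loN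
  have s2 := sqrt2_hiN
  have hu0 : 0 < u := by
    rw [hu]
    positivity
  have hC := h
  simp only [tnC, Bool.and_eq_true, Bool.or_eq_true, decide_eq_true_eq] at h
  obtain ⟨⟨⟨⟨⟨⟨⟨⟨⟨⟨⟨⟨⟨⟨⟨⟨⟨⟨⟨⟨⟨⟨⟨⟨⟨⟨⟨⟨⟨⟨⟨⟨⟨⟨⟨⟨⟨⟨⟨k1, k2⟩, k3⟩, k4⟩, k5⟩, k6⟩, k7⟩, k8⟩, k9⟩, k10⟩, k11⟩, k12⟩, k13⟩, k14⟩, k15⟩,
    k16⟩, k17⟩, k18⟩, k19⟩, k20⟩, k21⟩, k22⟩, k23⟩, k24⟩, k25⟩, k26⟩, k27⟩, k28⟩, k29⟩, k30⟩, k31⟩,
    k32⟩, k33⟩, k34⟩, k35⟩, k36⟩, k37⟩, k38⟩, k39⟩, k40⟩ := h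
  have j32 := (Rat.cast_lt (K := ℝ)).2 k32
  have j36 := (Rat.cast_le (K := ℝ)).2 k36
  have j37 := (Rat.cast_le (K := ℝ)).2 k37
  simp only [tnM1, Bool.and_eq_true, decide_eq_true_eq] at hV
  obtain ⟨⟨⟨⟨m1, m2⟩, m3⟩, m4⟩, m5⟩ := hV
  have n3 := (Rat.cast_le (K := ℝ)).2 m3
  have n4 := (Rat.cast_le (K := ℝ)).2 m4
  have hv := m5
  simp only [tnV, Bool.and_eq_true, decide_eq_true_eq] at hv
  have w3 := (Rat.cast_le (K := ℝ)).2 hv.1.1.2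
  have w4 := (Rat.cast_le (K := ℝ)).2 hv.1.2
  have w5 := (Rat.cast_le (K := ℝ)).2 hv.2
  push_cast at j32 j36 j37 n3 n4 w3 w4 w5
  have ul : (D.l1 : ℝ) ≤ u := by
    have e1 : (D.l1 : ℝ) * (x + y) ≤ D.l1 * (x1 + y1) :=
      mul_le_mul_of_nonneg_left (by linarith) j32.le
    have e2 : (D.l1 : ℝ) * (x + y) ≤ u * (x + y) := by
      rw [huσ]
      linarith
    exact le_of_mul_le_mul_right e2 hσ
  have uh : u ≤ (D.h1 : ℝ) := by
    have hs0 : (0 : ℝ) ≤ x0 + y0 := by linarith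
    have hh : (0 : ℝ) ≤ D.h1 := by
      by_contra hc
      have := mul_nonpos_of_nonpos_of_nonneg (not_le.1 hc).le hs0
      linarith
    have e1 : (D.h1 : ℝ) * (x0 + y0) ≤ D.h1 * (x + y) :=
      mul_le_mul_of_nonneg_left (by linarith) hh
    have e2 : u * (x + y) ≤ D.h1 * (x + y) := by
      rw [huσ]
      linarith
    exact le_of_mul_le_mul_right e2 hσ
  have ul2 : (D.l2 : ℝ) ≤ u := by
    rw [m1]
    exact ul
  have uh2 : u ≤ (D.h2 : ℝ) := by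
    rw [m2]
    exact uh
  have i1 : 1 / u = (x + y) / (2 * √2) := by
    rw [hu]
    field_simp
  have r2 : √2 * √2 = 2 := Real.mul_self_sqrt (by norm_num)
  have i2 : 2 / u = √2 * (x + y) / 2 := by
    have : 2 / u = 2 * (1 / u) := by ring
    rw [this, i1]
    have : √2 ≠ 0 := by positivity
    field_simp
    nlinarith [r2]
  have F0 : 0 ≤ F0T x y u u := by
    unfold F0T
    rw [i2]
    have e : u * (x + y) ^ 2 = 2 * √2 * (x + y) := by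
      rw [← huσ]
      ring
    nlinarith [e]
  have TI := tnC_tube hC hL hK tL tK K0 hy hxy hnu a0 b1 ul uh ul2 uh2 le_rfl
  have TV := tnC_val hC hL hK hy hx a0 a1 b0 b1 ul uh ul2 uh2 F0
  have hlin : linT (Lz x) (Lz y) x y u u = (Lz x).a1 + (Lz y).a1 +
      (Lz x).b0 * (-(1 / 2) + x * x / 4 - x * y / 2 - y * y / 4) +
      (Lz y).b0 * (-(1 / 2) + y * y / 4 - x * y / 2 - x * x / 4) + u * (x * y) := by
    unfold linT
    have g : ∀ k : ℝ, 2 * (u - k) / u ^ 2 = √2 * (x + y) / 2 - k * (x + y) ^ 2 / 4 := by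
      intro k
      have e1 : 2 * (u - k) / u ^ 2 = 2 / u - k / 2 * (2 / u) ^ 2 := by
        have := hu0.ne'
        field_simp
      rw [e1, i2]
      have : (√2 * (x + y) / 2) ^ 2 = (x + y) ^ 2 / 2 := by
        rw [div_pow, mul_pow, sq (√2), r2]
        ring
      rw [this]
      ring
    rw [g, g]
    ring
  have V := tnV_sound hC m5 hL hK tL.nu hy hx a0 a1 b0 b1 ul ul2 ?_ TI.h4
  · exact RPair_tubeI hy hxy hx3 e0 e1 (by linarith) TI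
      ⟨TV, by unfold TnD.M; cases D.m; exacts [Or.inr rfl, Or.inl rfl], V.1, V.2⟩
  · rw [hlin]
    have key : ∀ {k kh p pb : ℝ}, 0 ≤ k → k ≤ kh → pb ≤ p → kh * min pb 0 ≤ k * p := by
      intro k kh p pb h1 h2 h3
      have e1 : kh * min pb 0 ≤ k * min pb 0 :=
        mul_le_mul_of_nonpos_right h2 (min_le_right _ _)
      have e2 : k * min pb 0 ≤ k * p := mul_le_mul_of_nonneg_left ((min_le_left _ _).trans h3) h1
      exact e1.trans e2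
    have sx1 : x * x ≤ (x1 : ℝ) * x1 := mul_self_le_mul_self hx.le a1
    have sy1 : y * y ≤ (y1 : ℝ) * y1 := mul_self_le_mul_self hy.le b1
    have sx0 : (x0 : ℝ) * x0 ≤ x * x := mul_self_le_mul_self w3 a0
    have sy0 : (y0 : ℝ) * y0 ≤ y * y := mul_self_le_mul_self w4 b0
    have sxy : x * y ≤ (x1 : ℝ) * y1 := mul_le_mul a1 b1 hy.le (hx.le.trans a1)
    have q1 := key (k := (Lz x).b0) (kh := LB.kh)
      (p := -(1 / 2) + x * x / 4 - x * y / 2 - y * y / 4)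
      (pb := -(1 / 2) + x0 * x0 / 4 - x1 * y1 / 2 - y1 * y1 / 4) (j36.trans hL.kl) hL.kh
      (by linarith)
    have q2 := key (k := (Lz y).b0) (kh := KB.kh)
      (p := -(1 / 2) + y * y / 4 - x * y / 2 - x * x / 4)
      (pb := -(1 / 2) + y0 * y0 / 4 - x1 * y1 / 2 - x1 * x1 / 4) (j37.trans hK.kl) hK.kh
      (by linarith)
    push_cast [Rat.cast_min]
    have := hL.Al
    have := hK.Al
    linarith

/-! ### constant multipliers -/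

/-- the value at the angle `π`, lower bound -/
def tnF (u1 u2 x y : ℚ) : ℚ :=
  282842 / 100000 * (x + y) + u1 - u2 * (x * y) - (2 / u1 + u1 * (1 + x * x) / 2) -
    (2 / u2 + u2 * (1 + y * y) / 2)

/-- the test with constants `u1 ≤ u2` -/
def tnM2 (t0 x0 x1 y0 y1 : ℚ) (L K : TnB) (D : TnD) : Bool :=
  decide (D.h1 = D.l1) && decide (D.h2 = D.l2) && decide (D.l1 ≤ D.l2) && decide (x0 < x1) &&
    decide (y0 < y1) && decide (0 ≤ tnF D.l1 D.l2 x0 y0) && decide (0 ≤ tnF D.l1 D.l2 x0 y1) &&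
    decide (0 ≤ tnF D.l1 D.l2 x1 y0) && decide (0 ≤ tnF D.l1 D.l2 x1 y1) &&
    tnV t0 x0 x1 y0 y1 (-(141422 / 100000) * (x1 + y1) + L.Al + K.Al + 2 / D.l1 + 2 / D.l2 +
      L.kh * min ((x0 * x0 - 1) / 2 - 2 / (D.l1 * D.l1)) 0 +
      K.kh * min ((y0 * y0 - 1) / 2 - 2 / (D.l2 * D.l2)) 0) L K D

theorem tn_box2 {t0 x0 x1 y0 y1 : ℚ} {LB KB : TnB} {D : TnD}
    (h : tnC t0 x0 x1 y0 y1 LB KB D = true) (hV : tnM2 t0 x0 x1 y0 y1 LB KB D = true)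
    {x y ε : ℝ} (hL : TnOK LB (Lz x)) (hK : TnOK KB (Lz y)) (K0 : (Lz y).nu = 0)
    (hy : 0 < y) (hxy : y ≤ x) (hx3 : x ≤ 3 / 2)
    (hnu : (Lz x).nu ≤ 121 / 100 * (x - y)) (a0 : (x0 : ℝ) ≤ x) (a1 : x ≤ (x1 : ℝ))
    (b0 : (y0 : ℝ) ≤ y) (b1 : y ≤ (y1 : ℝ)) (e0 : 0 < ε) (e1 : ε ≤ t0 * π) :
    RPair Fz g0z g1z g2z x y (π - ε) (cos (π - ε)) := by
  have hx : 0 < x := hy.trans_le hxy
  have tL := tubeL_Lz hx.le hx3
  have tK := tubeL_Lz hy.le (hxy.trans hx3)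
  have s1 := sqrt2_loN
  have s2 := sqrt2_hiN
  have hC := h
  simp only [tnC, Bool.and_eq_true, Bool.or_eq_true, decide_eq_true_eq] at h
  obtain ⟨⟨⟨⟨⟨⟨⟨⟨⟨⟨⟨⟨⟨⟨⟨⟨⟨⟨⟨⟨⟨⟨⟨⟨⟨⟨⟨⟨⟨⟨⟨⟨⟨⟨⟨⟨⟨⟨⟨k1, k2⟩, k3⟩, k4⟩, k5⟩, k6⟩, k7⟩, k8⟩, k9⟩, k10⟩, k11⟩, k12⟩, k13⟩, k14⟩, k15⟩,
    k16⟩, k17⟩, k18⟩, k19⟩, k20⟩, k21⟩, k22⟩, k23⟩, k24⟩, k25⟩, k26⟩, k27⟩, k28⟩, k29⟩, k30⟩, k31⟩,
    k32⟩, k33⟩, k34⟩, k35⟩, k36⟩, k37⟩, k38⟩, k39⟩, k40⟩ := h
  have j32 := (Rat.cast_lt (K := ℝ)).2 k32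
  have j33 := (Rat.cast_lt (K := ℝ)).2 k33
  have j36 := (Rat.cast_le (K := ℝ)).2 k36
  have j37 := (Rat.cast_le (K := ℝ)).2 k37
  simp only [tnM2, Bool.and_eq_true, decide_eq_true_eq] at hV
  obtain ⟨⟨⟨⟨⟨⟨⟨⟨⟨m1, m2⟩, m3⟩, m4⟩, m5⟩, m6⟩, m7⟩, m8⟩, m9⟩, m10⟩ := hV
  have n3 := (Rat.cast_le (K := ℝ)).2 m3
  have n4 := (Rat.cast_lt (K := ℝ)).2 m4
  have n5 := (Rat.cast_lt (K := ℝ)).2 m5
  have n6 := (Rat.cast_le (K := ℝ)).2 m6
  have n7 := (Rat.cast_le (K := ℝ)).2 m7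
  have n8 := (Rat.cast_le (K := ℝ)).2 m8
  have n9 := (Rat.cast_le (K := ℝ)).2 m9
  have hv := m10
  simp only [tnV, Bool.and_eq_true, decide_eq_true_eq] at hv
  have w3 := (Rat.cast_le (K := ℝ)).2 hv.1.1.2
  have w4 := (Rat.cast_le (K := ℝ)).2 hv.1.2
  have w5 := (Rat.cast_le (K := ℝ)).2 hv.2
  simp only [tnF] at n6 n7 n8 n9
  push_cast at j32 j33 j36 j37 n6 n7 n8 n9 w3 w4 w5
  have uh : ((D.l1 : ℚ) : ℝ) ≤ (D.h1 : ℝ) := by rw [m1]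
  have uh2 : ((D.l2 : ℚ) : ℝ) ≤ (D.h2 : ℝ) := by rw [m2]
  obtain ⟨u1, hu1⟩ : ∃ u1 : ℝ, u1 = D.l1 := ⟨_, rfl⟩
  obtain ⟨u2, hu2⟩ : ∃ u2 : ℝ, u2 = D.l2 := ⟨_, rfl⟩
  have F0 : 0 ≤ F0T x y u1 u2 := by
    rw [← hu1, ← hu2] at n6 n7 n8 n9
    have p1 : 0 < u1 := hu1 ▸ j32
    have p2 : 0 < u2 := hu2 ▸ j33
    obtain ⟨i1, hi1⟩ : ∃ i1, i1 = 2 / u1 := ⟨_, rfl⟩
    obtain ⟨i2, hi2⟩ : ∃ i2, i2 = 2 / u2 := ⟨_, rfl⟩
    rw [← hi1, ← hi2] at n6 n7 n8 n9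
    unfold F0T
    rw [← hi1, ← hi2]
    have dx : (0 : ℝ) < x1 - x0 := by linarith
    have dy : (0 : ℝ) < y1 - y0 := by linarith
    have e : ((x1 : ℝ) - x0) * (y1 - y0) * (282842 / 100000 * (x + y) + u1 - u2 * (x * y) -
        (i1 + u1 * (1 + ((x0 + x1) * x - x0 * x1)) / 2) -
        (i2 + u2 * (1 + ((y0 + y1) * y - y0 * y1)) / 2)) =
        (x1 - x) * (y1 - y) * (282842 / 100000 * (x0 + y0) + u1 - u2 * (x0 * y0) -
          (i1 + u1 * (1 + x0 * x0) / 2) - (i2 + u2 * (1 + y0 * y0) / 2)) +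
        (x1 - x) * (y - y0) * (282842 / 100000 * (x0 + y1) + u1 - u2 * (x0 * y1) -
          (i1 + u1 * (1 + x0 * x0) / 2) - (i2 + u2 * (1 + y1 * y1) / 2)) +
        (x - x0) * (y1 - y) * (282842 / 100000 * (x1 + y0) + u1 - u2 * (x1 * y0) -
          (i1 + u1 * (1 + x1 * x1) / 2) - (i2 + u2 * (1 + y0 * y0) / 2)) +
        (x - x0) * (y - y0) * (282842 / 100000 * (x1 + y1) + u1 - u2 * (x1 * y1) -
          (i1 + u1 * (1 + x1 * x1) / 2) - (i2 + u2 * (1 + y1 * y1) / 2)) := by ring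
    have f1 := mul_nonneg (mul_nonneg (sub_nonneg.2 a1) (sub_nonneg.2 b1)) n6
    have f2 := mul_nonneg (mul_nonneg (sub_nonneg.2 a1) (sub_nonneg.2 b0)) n7
    have f3 := mul_nonneg (mul_nonneg (sub_nonneg.2 a0) (sub_nonneg.2 b1)) n8
    have f4 := mul_nonneg (mul_nonneg (sub_nonneg.2 a0) (sub_nonneg.2 b0)) n9
    have f5 : 0 ≤ ((x1 : ℝ) - x0) * (y1 - y0) * (282842 / 100000 * (x + y) + u1 - u2 * (x * y) -
        (i1 + u1 * (1 + ((x0 + x1) * x - x0 * x1)) / 2) -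
        (i2 + u2 * (1 + ((y0 + y1) * y - y0 * y1)) / 2)) := by
      rw [e]
      exact add_nonneg (add_nonneg (add_nonneg f1 f2) f3) f4
    have f6 := nonneg_of_mul_nonneg_right f5 (mul_pos dx dy)
    have cx : u1 * x ^ 2 ≤ u1 * ((x0 + x1) * x - x0 * x1) := by
      apply mul_le_mul_of_nonneg_left _ p1.le
      have := mul_nonneg (sub_nonneg.2 a0) (sub_nonneg.2 a1)
      linarith
    have cy : u2 * y ^ 2 ≤ u2 * ((y0 + y1) * y - y0 * y1) := by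
      apply mul_le_mul_of_nonneg_left _ p2.le
      have := mul_nonneg (sub_nonneg.2 b0) (sub_nonneg.2 b1)
      linarith
    have cs : 282842 / 100000 * (x + y) ≤ 2 * √2 * (x + y) :=
      mul_le_mul_of_nonneg_right (by linarith) (by linarith)
    linarith
  have TI := tnC_tube (u1 := u1) (u2 := u2) hC hL hK tL tK K0 hy hxy hnu a0 b1 (by rw [hu1])
    (by rw [hu1]; exact uh) (by rw [hu2]) (by rw [hu2]; exact uh2) (by rw [hu1, hu2]; exact n3)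
  have TV := tnC_val (u1 := u1) (u2 := u2) hC hL hK hy hx a0 a1 b0 b1 (by rw [hu1])
    (by rw [hu1]; exact uh) (by rw [hu2]) (by rw [hu2]; exact uh2) F0
  have V := tnV_sound (u1 := u1) (u2 := u2) hC m10 hL hK tL.nu hy hx a0 a1 b0 b1 (by rw [hu1])
    (by rw [hu2]) ?_ TI.h4
  · exact RPair_tubeI hy hxy hx3 e0 e1 (by linarith) TI
      ⟨TV, by unfold TnD.M; cases D.m; exacts [Or.inr rfl, Or.inl rfl], V.1, V.2⟩
  · have key : ∀ {k kh p pb : ℝ}, 0 ≤ k → k ≤ kh → pb ≤ p → kh * min pb 0 ≤ k * p := by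
      intro k kh p pb h1 h2 h3
      have e1 : kh * min pb 0 ≤ k * min pb 0 :=
        mul_le_mul_of_nonpos_right h2 (min_le_right _ _)
      have e2 : k * min pb 0 ≤ k * p := mul_le_mul_of_nonneg_left ((min_le_left _ _).trans h3) h1
      exact e1.trans e2
    have sx0 : (x0 : ℝ) * x0 ≤ x * x := mul_self_le_mul_self w3 a0
    have sy0 : (y0 : ℝ) * y0 ≤ y * y := mul_self_le_mul_self w4 b0
    have q1 := key (k := (Lz x).b0) (kh := LB.kh) (p := (x * x - 1) / 2 - 2 / (u1 * u1))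
      (pb := (x0 * x0 - 1) / 2 - 2 / (D.l1 * D.l1)) (j36.trans hL.kl) hL.kh
      (by rw [hu1]; linarith)
    have q2 := key (k := (Lz y).b0) (kh := KB.kh) (p := (y * y - 1) / 2 - 2 / (u2 * u2))
      (pb := (y0 * y0 - 1) / 2 - 2 / (D.l2 * D.l2)) (j37.trans hK.kl) hK.kh
      (by rw [hu2]; linarith)
    push_cast [Rat.cast_min]
    simp only [← hu1, ← hu2] at q1 q2 ⊢
    have p1 : 0 < u1 := hu1 ▸ j32
    have p2 : 0 < u2 := hu2 ▸ j33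
    have g : ∀ k u : ℝ, 0 < u → 2 * (u - k) / u ^ 2 = 2 / u - k * (2 / (u * u)) := by
      intro k u hu
      have := hu.ne'
      field_simp
    have cs : √2 * (x + y) ≤ 141422 / 100000 * (x1 + y1) :=
      mul_le_mul (by linarith) (by linarith) (by linarith) (by norm_num)
    unfold linT
    rw [g _ _ p1, g _ _ p2]
    have := hL.Al
    have := hK.Al
    linarith

/-! ### trees of boxes -/

/-- a tree of boxes -/
inductive TnT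
  | L (b : Bool) (D : TnD)
  | E
  | S (x : ℚ) (a b : TnT)
  | M (y : ℚ) (a b : TnT)

/-- the bounds for the radius `R1` -/
def tnBp (p : Bool) (a b : ℚ) : TnB := bif p then tnB2 a b else tnB1 a b

/-- the test of a tree -/
def TnT.chk (p : Bool) (t0 : ℚ) : TnT → ℚ → ℚ → ℚ → ℚ → Bool
  | .L b D, x0, x1, y0, y1 =>
    tnC t0 x0 x1 y0 y1 (tnBp p x0 x1) (tnB1 y0 y1) D &&
      (bif b then tnM2 t0 x0 x1 y0 y1 (tnBp p x0 x1) (tnB1 y0 y1) D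
        else tnM1 t0 x0 x1 y0 y1 (tnBp p x0 x1) (tnB1 y0 y1) D)
  | .E, x0, x1, y0, y1 =>
    decide (x1 ≤ y0) || (decide (23 / 10 ≤ x0 ^ 2 + y0 ^ 2) && decide (0 ≤ x0) &&
      decide (0 ≤ y0)) || (decide (x1 ^ 2 + y1 ^ 2 < 3 / 2))
  | .S x a b, x0, x1, y0, y1 => a.chk p t0 x0 x y0 y1 && b.chk p t0 x x1 y0 y1
  | .M y a b, x0, x1, y0, y1 => a.chk p t0 x0 x1 y0 y && b.chk p t0 x0 x1 y y1

theorem TnT.sound {p : Bool} {t0 : ℚ} (T : TnT) {x0 x1 y0 y1 : ℚ}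
    (h : T.chk p t0 x0 x1 y0 y1 = true) {x y ε : ℝ} (hp : if p then 1 ≤ x else x ≤ 1)
    (hy : 0 < y) (hy1 : y ≤ 1) (hxy : y ≤ x) (hx3 : x ≤ 3 / 2) (hq1 : 3 / 2 ≤ x ^ 2 + y ^ 2)
    (hq2 : x ^ 2 + y ^ 2 ≤ 23 / 10) (e0 : 0 < ε) (e1 : ε ≤ t0 * π) (a0 : (x0 : ℝ) ≤ x)
    (a1 : x ≤ (x1 : ℝ)) (b0 : (y0 : ℝ) < y) (b1 : y ≤ (y1 : ℝ)) :
    RPair Fz g0z g1z g2z x y (π - ε) (cos (π - ε)) := by
  induction T generalizing x0 x1 y0 y1 with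
  | L b D =>
    simp only [TnT.chk, Bool.and_eq_true] at h
    have hx : 0 < x := hy.trans_le hxy
    have hL : TnOK (tnBp p x0 x1) (Lz x) := by
      cases p
      · exact tnB1_ok a0 a1 (by simpa using hp)
      · exact tnB2_ok a0 a1 (by simpa using hp) hx3
    have hK : TnOK (tnB1 y0 y1) (Lz y) := tnB1_ok b0.le b1 hy1
    have K0 : (Lz y).nu = 0 := by
      unfold LF.nu
      have := (Lz_rel1 hy1).1
      linarith
    have hnu : (Lz x).nu ≤ 121 / 100 * (x - y) := by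
      rcases le_total x 1 with h1 | h1
      · have : (Lz x).nu = 0 := by
          unfold LF.nu
          have := (Lz_rel1 h1).1
          linarith
        rw [this]
        linarith
      · rw [Lz_two h1 hx3]
        simp only [Lp2, mkL, LF.nu]
        linarith
    cases b
    · exact tn_box1 h.1 h.2 hL hK K0 hy hxy hx3 hnu a0 a1 b0.le b1 e0 e1
    · exact tn_box2 h.1 h.2 hL hK K0 hy hxy hx3 hnu a0 a1 b0.le b1 e0 e1
  | E =>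
    exfalso
    simp only [TnT.chk, Bool.or_eq_true, Bool.and_eq_true, decide_eq_true_eq] at h
    rcases h with (h | h) | h
    · have := (Rat.cast_le (K := ℝ)).2 h
      linarith
    · have j1 := (Rat.cast_le (K := ℝ)).2 h.1.1
      have j2 := (Rat.cast_le (K := ℝ)).2 h.1.2
      have j3 := (Rat.cast_le (K := ℝ)).2 h.2
      push_cast at j1 j2 j3
      have s1 : (x0 : ℝ) ^ 2 ≤ x ^ 2 := by gcongr
      have s2 : (y0 : ℝ) ^ 2 < y ^ 2 := by gcongr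
      linarith
    · have j1 := (Rat.cast_lt (K := ℝ)).2 h
      push_cast at j1
      have hx : 0 < x := hy.trans_le hxy
      have s1 : x ^ 2 ≤ (x1 : ℝ) ^ 2 := by gcongr
      have s2 : y ^ 2 ≤ (y1 : ℝ) ^ 2 := by gcongr
      linarith
  | S z a b iha ihb =>
    simp only [TnT.chk, Bool.and_eq_true] at h
    rcases le_total x (z : ℝ) with h' | h'
    · exact iha h.1 a0 h' b0 b1
    · exact ihb h.2 h' a1 b0 b1
  | M z a b iha ihb =>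
    simp only [TnT.chk, Bool.and_eq_true] at h
    rcases le_or_gt y (z : ℝ) with h' | h'
    · exact iha h.1 a0 a1 b0 h'
    · exact ihb h.2 a0 a1 h' b1

end Pool.Agent.RRS
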