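import Pool.Agent.RRS.TubeDefs

/-!
# The numerical conditions of the second region of the tube (`R2 ≥ 1`), numbers

`R1 = 1 + x`, `R2 = 1 + y`, `0 ≤ y ≤ x`, `R1 ^ 2 + R2 ^ 2 ≤ 23/10`, `u = 2 √2 / (R1 + R2)`,
`r = R2 / R1`, `e = 1.21 (R2 - 1) R1 / (R1 + R2)`, `mu = 1.21 R1 ^ 2 / (4 R2)`, `w = 3/50`,
`c1 = 9/20`, `c2 = 11/20`, `t0 = 1/16`.
-/

set_option autoImplicit false

noncomputable section

namespace Pool.Agent.RRS

open Real

/-- the numbers of a pair of the second region -/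
structure NB (x y u e : ℝ) : Prop where
  hy : 0 ≤ y
  hxy : y ≤ x
  hc : 2 * x + 2 * y + x ^ 2 + y ^ 2 ≤ 3 / 10
  hs : x + y ≤ 1449 / 10000
  hx : x ≤ 1402 / 10000
  hy2 : y ≤ 725 / 10000
  uU : u ≤ 141422 / 100000 - 659 / 1000 * (x + y)
  uL : 141259 / 100000 - 6601 / 10000 * (x + y) ≤ u
  hu : u * (2 + x + y) = 2 * √2
  he : e * (2 + x + y) = 121 / 100 * (y * (1 + x))
  eU : e ≤ 605 / 1000 * y + 3025 / 10000 * (y * (x - y))
  eL : 605 / 1000 * y ≤ e

theorem nb_mk {x y u e : ℝ} (hy : 0 ≤ y) (hxy : y ≤ x)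
    (hc : 2 * x + 2 * y + x ^ 2 + y ^ 2 ≤ 3 / 10) (hu : u * (2 + x + y) = 2 * √2)
    (he : e * (2 + x + y) = 121 / 100 * (y * (1 + x))) : NB x y u e := by
  have hs : x + y ≤ 1449 / 10000 := by
    by_contra h
    rw [not_le] at h
    nlinarith [sq_nonneg (x - y)]
  have hx : x ≤ 1402 / 10000 := by
    by_contra h
    rw [not_le] at h
    nlinarith
  have hS : 0 < 2 + x + y := by linarith
  have s1 : √2 < 1.414214 := by
    rw [Real.sqrt_lt' (by norm_num)]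
    norm_num
  have s2 : 1.414213 < √2 := Real.lt_sqrt_of_sq_lt (by norm_num)
  have uU : u ≤ 141422 / 100000 - 659 / 1000 * (x + y) := by
    refine le_of_mul_le_mul_right ?_ hS
    rw [hu]
    nlinarith
  have uL : 141259 / 100000 - 6601 / 10000 * (x + y) ≤ u := by
    refine le_of_mul_le_mul_right ?_ hS
    rw [hu]
    nlinarith [sq_nonneg (x + y - 7 / 100)]
  have eL : 605 / 1000 * y ≤ e := by
    refine le_of_mul_le_mul_right ?_ hS
    rw [he]
    nlinarith [mul_nonneg hy (sub_nonneg.2 hxy)]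
  have eU : e ≤ 605 / 1000 * y + 3025 / 10000 * (y * (x - y)) := by
    refine le_of_mul_le_mul_right ?_ hS
    rw [he]
    have h1 := mul_nonneg hy (sub_nonneg.2 hxy)
    have h2 : 0 ≤ y * (x - y) * (x + y) := mul_nonneg h1 (by linarith)
    nlinarith
  exact ⟨hy, hxy, hc, hs, hx, by linarith, uU, uL, hu, he, eU, eL⟩

/-- the parameters of the form -/
def tB (x y u e : ℝ) : TP where
  u := u
  mu := 121 / 400 * (1 + x) ^ 2 / (1 + y)
  r := (1 + y) / (1 + x)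
  g1 := 191 / 100 - 75 / 100 * x - u
  g2 := 191 / 100 - 75 / 100 * y - u
  et := e
  n2 := 121 / 100 * y
  h1 := (191 / 100 - 75 / 100 * x - u) / 4 + (121 / 100 * y - e) + 3 / 50
  h3 := (191 / 100 - 75 / 100 * y - u) / 4 + (121 / 100 * x - e) + 3 / 50
  h4 := 416 / 100 + 80 / 100 * (x + y) - u -
    ((191 / 100 - 75 / 100 * x - u) / 4 + (121 / 100 * y - e) + 3 / 50) -
    ((191 / 100 - 75 / 100 * y - u) / 4 + (121 / 100 * x - e) + 3 / 50)

end Pool.Agent.RRS
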