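import Mathlib

/-!
# The tube: polynomial inequalities, `1 ≤ x ≤ 3/2`, `0 ≤ y ≤ 1`

Generated: each inequality is an explicit nonnegative combination of products of `x - a`, `a' - x`,
`y - b`, `b' - y` (and of `x² + y² - 3/2`, `23/10 - x² - y²`).
-/

set_option autoImplicit false

namespace Pool.Agent.RRS

private theorem nD_1 {x y : ℝ} (ha : 1 ≤ x) (hb : x ≤ 3/2) (hc : 0 ≤ y)
    (hd : y ≤ 1/2) (h1 : 3 / 2 ≤ x ^ 2 + y ^ 2) (h2 : x ^ 2 + y ^ 2 ≤ 23 / 10) :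
    0 ≤ (389/100-109/100*x-132/100*y)*(x+y)-282843/100000 := by
  have a0 : 0 ≤ x-1 := by linarith
  have a1 : 0 ≤ 3/2-x := by linarith
  have b1 : 0 ≤ 1/2-y := by linarith
  have e : 6250*((389/100-109/100*x-132/100*y)*(x+y)-282843/100000) =
      9657*(3/2-x)^2*(1/2-y)^2 + 93314*(3/2-x)^2*y*(1/2-y) + 44407*(3/2-x)^2*y^2 +
      79814*(x-1)*(3/2-x)*(1/2-y)^2 + 247378*(x-1)*(3/2-x)*y*(1/2-y) + 89064*(x-1)*(3/2-x)*y^2 +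
      36657*(x-1)^2*(1/2-y)^2 + 87064*(x-1)^2*y*(1/2-y) + 11157*(x-1)^2*y^2
      + 3125/2*(x^2+y^2-3/2) := by ring
  have p : 0 ≤ 9657*(3/2-x)^2*(1/2-y)^2 + 93314*(3/2-x)^2*y*(1/2-y) + 44407*(3/2-x)^2*y^2 +
      79814*(x-1)*(3/2-x)*(1/2-y)^2 + 247378*(x-1)*(3/2-x)*y*(1/2-y) + 89064*(x-1)*(3/2-x)*y^2 +
      36657*(x-1)^2*(1/2-y)^2 + 87064*(x-1)^2*y*(1/2-y) + 11157*(x-1)^2*y^2 := by positivity
  have qh1 : 0 ≤ 3125/2*(x^2+y^2-3/2) := mul_nonneg (by norm_num) (by linarith)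
  have t : 0 ≤ 6250*((389/100-109/100*x-132/100*y)*(x+y)-282843/100000) := by rw [e]; linarith
  linarith

private theorem nD_2 {x y : ℝ} (ha : 1 ≤ x) (hb : x ≤ 5/4) (hc : 1/2 ≤ y)
    (hd : y ≤ 3/4) (h1 : 3 / 2 ≤ x ^ 2 + y ^ 2) (h2 : x ^ 2 + y ^ 2 ≤ 23 / 10) :
    0 ≤ (389/100-109/100*x-132/100*y)*(x+y)-282843/100000 := by
  have a0 : 0 ≤ x-1 := by linarith
  have a1 : 0 ≤ 5/4-x := by linarith
  have b0 : 0 ≤ y-1/2 := by linarith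
  have b1 : 0 ≤ 3/4-y := by linarith
  have e : 3125*((389/100-109/100*x-132/100*y)*(x+y)-282843/100000) =
      305256*(5/4-x)^2*(3/4-y)^2 + 642512*(5/4-x)^2*(y-1/2)*(3/4-y) + 271256*(5/4-x)^2*(y-1/2)^2 +
      711512*(x-1)*(5/4-x)*(3/4-y)^2 + 1366524*(x-1)*(5/4-x)*(y-1/2)*(3/4-y) +
      523012*(x-1)*(5/4-x)*(y-1/2)^2 + 351756*(x-1)^2*(3/4-y)^2 + 615012*(x-1)^2*(y-1/2)*(3/4-y) +
      197256*(x-1)^2*(y-1/2)^2 := by ring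
  have p : 0 ≤ 305256*(5/4-x)^2*(3/4-y)^2 + 642512*(5/4-x)^2*(y-1/2)*(3/4-y) + 271256*(5/4-x)^2*(y-1/2)^2 +
      711512*(x-1)*(5/4-x)*(3/4-y)^2 + 1366524*(x-1)*(5/4-x)*(y-1/2)*(3/4-y) +
      523012*(x-1)*(5/4-x)*(y-1/2)^2 + 351756*(x-1)^2*(3/4-y)^2 + 615012*(x-1)^2*(y-1/2)*(3/4-y) +
      197256*(x-1)^2*(y-1/2)^2 := by positivity
  have t : 0 ≤ 3125*((389/100-109/100*x-132/100*y)*(x+y)-282843/100000) := by rw [e]; linarith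
  linarith

private theorem nD_3 {x y : ℝ} (ha : 1 ≤ x) (hb : x ≤ 5/4) (hc : 3/4 ≤ y)
    (hd : y ≤ 1) (h1 : 3 / 2 ≤ x ^ 2 + y ^ 2) (h2 : x ^ 2 + y ^ 2 ≤ 23 / 10) :
    0 ≤ (389/100-109/100*x-132/100*y)*(x+y)-282843/100000 := by
  have a0 : 0 ≤ x-1 := by linarith
  have a1 : 0 ≤ 5/4-x := by linarith
  have b0 : 0 ≤ y-3/4 := by linarith
  have b1 : 0 ≤ 1-y := by linarith
  have e : 3125*((389/100-109/100*x-132/100*y)*(x+y)-282843/100000) =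
      13131*(5/4-x)^2*(1-y)^2 + 57512*(5/4-x)^2*(y-3/4)*(1-y) + 256*(5/4-x)^2*(y-3/4)^2 +
      181762*(x-1)*(5/4-x)*(1-y)^2 + 305524*(x-1)*(5/4-x)*(y-3/4)*(1-y) +
      35512*(x-1)*(5/4-x)*(y-3/4)^2 + 136006*(x-1)^2*(1-y)^2 + 182762*(x-1)^2*(y-3/4)*(1-y) +
      2631*(x-1)^2*(y-3/4)^2
      + 21875/16*(23/10-x^2-y^2) := by ring
  have p : 0 ≤ 13131*(5/4-x)^2*(1-y)^2 + 57512*(5/4-x)^2*(y-3/4)*(1-y) + 256*(5/4-x)^2*(y-3/4)^2 +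
      181762*(x-1)*(5/4-x)*(1-y)^2 + 305524*(x-1)*(5/4-x)*(y-3/4)*(1-y) +
      35512*(x-1)*(5/4-x)*(y-3/4)^2 + 136006*(x-1)^2*(1-y)^2 + 182762*(x-1)^2*(y-3/4)*(1-y) +
      2631*(x-1)^2*(y-3/4)^2 := by positivity
  have qh2 : 0 ≤ 21875/16*(23/10-x^2-y^2) := mul_nonneg (by norm_num) (by linarith)
  have t : 0 ≤ 3125*((389/100-109/100*x-132/100*y)*(x+y)-282843/100000) := by rw [e]; linarith
  linarith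

private theorem nD_4 {x y : ℝ} (ha : 5/4 ≤ x) (hb : x ≤ 3/2) (hc : 1/2 ≤ y)
    (hd : y ≤ 1) (h1 : 3 / 2 ≤ x ^ 2 + y ^ 2) (h2 : x ^ 2 + y ^ 2 ≤ 23 / 10) :
    0 ≤ (389/100-109/100*x-132/100*y)*(x+y)-282843/100000 := by
  have a0 : 0 ≤ x-5/4 := by linarith
  have a1 : 0 ≤ 3/2-x := by linarith
  have b0 : 0 ≤ y-1/2 := by linarith
  have b1 : 0 ≤ 1-y := by linarith
  have e : 3125*((389/100-109/100*x-132/100*y)*(x+y)-282843/100000) =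
      14814*(3/2-x)^2*(1-y)^2 + 60378*(3/2-x)^2*(y-1/2)*(1-y) + 17064*(3/2-x)^2*(y-1/2)^2 +
      121378*(x-5/4)*(3/2-x)*(1-y)^2 + 244006*(x-5/4)*(3/2-x)*(y-1/2)*(1-y) +
      65628*(x-5/4)*(3/2-x)*(y-1/2)^2 + 102314*(x-5/4)^2*(1-y)^2 +
      175128*(x-5/4)^2*(y-1/2)*(1-y) + 44314*(x-5/4)^2*(y-1/2)^2
      + 9375/4*(23/10-x^2-y^2) := by ring
  have p : 0 ≤ 14814*(3/2-x)^2*(1-y)^2 + 60378*(3/2-x)^2*(y-1/2)*(1-y) + 17064*(3/2-x)^2*(y-1/2)^2 +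
      121378*(x-5/4)*(3/2-x)*(1-y)^2 + 244006*(x-5/4)*(3/2-x)*(y-1/2)*(1-y) +
      65628*(x-5/4)*(3/2-x)*(y-1/2)^2 + 102314*(x-5/4)^2*(1-y)^2 +
      175128*(x-5/4)^2*(y-1/2)*(1-y) + 44314*(x-5/4)^2*(y-1/2)^2 := by positivity
  have qh2 : 0 ≤ 9375/4*(23/10-x^2-y^2) := mul_nonneg (by norm_num) (by linarith)
  have t : 0 ≤ 3125*((389/100-109/100*x-132/100*y)*(x+y)-282843/100000) := by rw [e]; linarith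
  linarith

theorem nD {x y : ℝ} (ha : 1 ≤ x) (hb : x ≤ 3/2) (hc : 0 ≤ y)
    (hd : y ≤ 1) (h1 : 3 / 2 ≤ x ^ 2 + y ^ 2) (h2 : x ^ 2 + y ^ 2 ≤ 23 / 10) :
    0 ≤ (389/100-109/100*x-132/100*y)*(x+y)-282843/100000 := by
  rcases le_total y (1/2) with k2 | k2
  · exact nD_1 ha hb hc k2 h1 h2
  · rcases le_total x (5/4) with k4 | k4
    · rcases le_total y (3/4) with k6 | k6
      · exact nD_2 ha k4 k2 k6 h1 h2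
      · exact nD_3 ha k4 k6 hd h1 h2
    · exact nD_4 k4 hb k2 hd h1 h2

theorem nK1 {x y : ℝ} (ha : 1 ≤ x) (hb : x ≤ 3/2) (hc : 0 ≤ y)
    (hd : y ≤ 1) (h1 : 3 / 2 ≤ x ^ 2 + y ^ 2) (h2 : x ^ 2 + y ^ 2 ≤ 23 / 10) :
    0 ≤ (432/100-150/100*x)*(x+y)-282843/100000 := by
  have a0 : 0 ≤ x-1 := by linarith
  have a1 : 0 ≤ 3/2-x := by linarith
  have b1 : 0 ≤ 1-y := by linarith
  have e : 25000*((432/100-150/100*x)*(x+y)-282843/100000) =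
      11657*(3/2-x)^2*(1-y)^2 + 305314*(3/2-x)^2*y*(1-y) + 268657*(3/2-x)^2*y^2 +
      64314*(x-1)*(3/2-x)*(1-y)^2 + 617628*(x-1)*(3/2-x)*y*(1-y) + 503314*(x-1)*(3/2-x)*y^2 +
      8907*(x-1)^2*(1-y)^2 + 224814*(x-1)^2*y*(1-y) + 190907*(x-1)^2*y^2
      + 6250*(x^2+y^2-3/2) := by ring
  have p : 0 ≤ 11657*(3/2-x)^2*(1-y)^2 + 305314*(3/2-x)^2*y*(1-y) + 268657*(3/2-x)^2*y^2 +
      64314*(x-1)*(3/2-x)*(1-y)^2 + 617628*(x-1)*(3/2-x)*y*(1-y) + 503314*(x-1)*(3/2-x)*y^2 +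
      8907*(x-1)^2*(1-y)^2 + 224814*(x-1)^2*y*(1-y) + 190907*(x-1)^2*y^2 := by positivity
  have qh1 : 0 ≤ 6250*(x^2+y^2-3/2) := mul_nonneg (by norm_num) (by linarith)
  have t : 0 ≤ 25000*((432/100-150/100*x)*(x+y)-282843/100000) := by rw [e]; linarith
  linarith

theorem nkk {x y : ℝ} (ha : 1 ≤ x) (hb : x ≤ 3/2) (hc : 0 ≤ y)
    (hd : y ≤ 1) (h1 : 3 / 2 ≤ x ^ 2 + y ^ 2) (h2 : x ^ 2 + y ^ 2 ≤ 23 / 10) :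
    0 ≤ (1354/100-380/100*x-262/100*y)*(x+y)-848529/100000 := by
  have a0 : 0 ≤ x-1 := by linarith
  have a1 : 0 ≤ 3/2-x := by linarith
  have b1 : 0 ≤ 1-y := by linarith
  have e : 25000*((1354/100-380/100*x-262/100*y)*(x+y)-848529/100000) =
      125471*(3/2-x)^2*(1-y)^2 + 962942*(3/2-x)^2*y*(1-y) + 575471*(3/2-x)^2*y^2 +
      547942*(x-1)*(3/2-x)*(1-y)^2 + 2198884*(x-1)*(3/2-x)*y*(1-y) + 1126942*(x-1)*(3/2-x)*y^2 +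
      327471*(x-1)^2*(1-y)^2 + 1045942*(x-1)^2*y*(1-y) + 456471*(x-1)^2*y^2 := by ring
  have p : 0 ≤ 125471*(3/2-x)^2*(1-y)^2 + 962942*(3/2-x)^2*y*(1-y) + 575471*(3/2-x)^2*y^2 +
      547942*(x-1)*(3/2-x)*(1-y)^2 + 2198884*(x-1)*(3/2-x)*y*(1-y) + 1126942*(x-1)*(3/2-x)*y^2 +
      327471*(x-1)^2*(1-y)^2 + 1045942*(x-1)^2*y*(1-y) + 456471*(x-1)^2*y^2 := by positivity
  have t : 0 ≤ 25000*((1354/100-380/100*x-262/100*y)*(x+y)-848529/100000) := by rw [e]; linarith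
  linarith

theorem ne3 {x y : ℝ} (ha : 1 ≤ x) (hb : x ≤ 3/2) (hc : 0 ≤ y)
    (hd : y ≤ 1) (h1 : 3 / 2 ≤ x ^ 2 + y ^ 2) (h2 : x ^ 2 + y ^ 2 ≤ 23 / 10) :
    0 ≤ (242/100*x+115/100*y-435/100)*(x+y)+28284/10000 := by
  have a0 : 0 ≤ x-1 := by linarith
  have a1 : 0 ≤ 3/2-x := by linarith
  have b1 : 0 ≤ 1-y := by linarith
  have e : 1250*((242/100*x+115/100*y-435/100)*(x+y)+28284/10000) =
      4492*(3/2-x)^2*(1-y)^2 + 5084*(3/2-x)^2*y*(1-y) + 6342*(3/2-x)^2*y^2 +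
      10209*(x-1)*(3/2-x)*(1-y)^2 + 21543*(x-1)*(3/2-x)*y*(1-y) + 22834*(x-1)*(3/2-x)*y^2 +
      8742*(x-1)^2*(1-y)^2 + 22509*(x-1)^2*y*(1-y) + 19517*(x-1)^2*y^2 := by ring
  have p : 0 ≤ 4492*(3/2-x)^2*(1-y)^2 + 5084*(3/2-x)^2*y*(1-y) + 6342*(3/2-x)^2*y^2 +
      10209*(x-1)*(3/2-x)*(1-y)^2 + 21543*(x-1)*(3/2-x)*y*(1-y) + 22834*(x-1)*(3/2-x)*y^2 +
      8742*(x-1)^2*(1-y)^2 + 22509*(x-1)^2*y*(1-y) + 19517*(x-1)^2*y^2 := by positivity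
  have t : 0 ≤ 1250*((242/100*x+115/100*y-435/100)*(x+y)+28284/10000) := by rw [e]; linarith
  linarith

theorem nP1 {x y : ℝ} (ha : 1 ≤ x) (hb : x ≤ 3/2) (hc : 0 ≤ y)
    (hd : y ≤ 1) (h1 : 3 / 2 ≤ x ^ 2 + y ^ 2) (h2 : x ^ 2 + y ^ 2 ≤ 23 / 10) :
    0 ≤ 28284/10000*(y+9/4*x)-9/4*(266/100-75/100*x)*x*(x+y) := by
  have a0 : 0 ≤ x-1 := by linarith
  have a1 : 0 ≤ 3/2-x := by linarith
  have b1 : 0 ≤ 1-y := by linarith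
  have e : 10000*(28284/10000*(y+9/4*x)-9/4*(266/100-75/100*x)*x*(x+y)) =
      61312*(3/2-x)^3*(1-y)^2 + 5096*(3/2-x)^3*y*(1-y) + 23784*(3/2-x)^3*y^2 +
      242192*(x-1)*(3/2-x)^2*(1-y)^2 + 27400*(x-1)*(3/2-x)^2*y*(1-y) + 25208*(x-1)*(3/2-x)^2*y^2 +
      301998*(x-1)^2*(3/2-x)*(1-y)^2 + 76362*(x-1)^2*(3/2-x)*y*(1-y) + 14364*(x-1)^2*(3/2-x)*y^2 +
      137993*(x-1)^3*(1-y)^2 + 87808*(x-1)^3*y*(1-y) + 29815*(x-1)^3*y^2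
      + 10000*(23/10-x^2-y^2) := by ring
  have p : 0 ≤ 61312*(3/2-x)^3*(1-y)^2 + 5096*(3/2-x)^3*y*(1-y) + 23784*(3/2-x)^3*y^2 +
      242192*(x-1)*(3/2-x)^2*(1-y)^2 + 27400*(x-1)*(3/2-x)^2*y*(1-y) + 25208*(x-1)*(3/2-x)^2*y^2 +
      301998*(x-1)^2*(3/2-x)*(1-y)^2 + 76362*(x-1)^2*(3/2-x)*y*(1-y) + 14364*(x-1)^2*(3/2-x)*y^2 +
      137993*(x-1)^3*(1-y)^2 + 87808*(x-1)^3*y*(1-y) + 29815*(x-1)^3*y^2 := by positivity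
  have qh2 : 0 ≤ 10000*(23/10-x^2-y^2) := mul_nonneg (by norm_num) (by linarith)
  have t : 0 ≤ 10000*(28284/10000*(y+9/4*x)-9/4*(266/100-75/100*x)*x*(x+y)) := by rw [e]; linarith
  linarith

theorem nP2 {x y : ℝ} (ha : 1 ≤ x) (hb : x ≤ 3/2) (hc : 0 ≤ y)
    (hd : y ≤ 1) (h1 : 3 / 2 ≤ x ^ 2 + y ^ 2) (h2 : x ^ 2 + y ^ 2 ≤ 23 / 10) :
    0 ≤ 28284/10000*(x+9/4*y)-9/4*(206/100-15/100*y)*y*(x+y) := by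
  have a0 : 0 ≤ x-1 := by linarith
  have a1 : 0 ≤ 3/2-x := by linarith
  have b1 : 0 ≤ 1-y := by linarith
  have e : 5000*(28284/10000*(x+9/4*y)-9/4*(206/100-15/100*y)*y*(x+y)) =
      30568*(3/2-x)^2*(1-y)^3 + 126282*(3/2-x)^2*y*(1-y)^2 + 94910*(3/2-x)^2*y^2*(1-y) +
      5946*(3/2-x)^2*y^3 + 109420*(x-1)*(3/2-x)*(1-y)^3 + 351066*(x-1)*(3/2-x)*y*(1-y)^2 +
      245347*(x-1)*(3/2-x)*y^2*(1-y) + 17201*(x-1)*(3/2-x)*y^3 + 83852*(x-1)^2*(1-y)^3 +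
      239784*(x-1)^2*y*(1-y)^2 + 165437*(x-1)^2*y^2*(1-y) + 16255*(x-1)^2*y^3
      + 5000*(23/10-x^2-y^2) := by ring
  have p : 0 ≤ 30568*(3/2-x)^2*(1-y)^3 + 126282*(3/2-x)^2*y*(1-y)^2 + 94910*(3/2-x)^2*y^2*(1-y) +
      5946*(3/2-x)^2*y^3 + 109420*(x-1)*(3/2-x)*(1-y)^3 + 351066*(x-1)*(3/2-x)*y*(1-y)^2 +
      245347*(x-1)*(3/2-x)*y^2*(1-y) + 17201*(x-1)*(3/2-x)*y^3 + 83852*(x-1)^2*(1-y)^3 +
      239784*(x-1)^2*y*(1-y)^2 + 165437*(x-1)^2*y^2*(1-y) + 16255*(x-1)^2*y^3 := by positivity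
  have qh2 : 0 ≤ 5000*(23/10-x^2-y^2) := mul_nonneg (by norm_num) (by linarith)
  have t : 0 ≤ 5000*(28284/10000*(x+9/4*y)-9/4*(206/100-15/100*y)*y*(x+y)) := by rw [e]; linarith
  linarith

private theorem nG2_1 {x y : ℝ} (ha : 1 ≤ x) (hb : x ≤ 3/2) (hc : 0 ≤ y)
    (hd : y ≤ 1/2) (h1 : 3 / 2 ≤ x ^ 2 + y ^ 2) (h2 : x ^ 2 + y ^ 2 ≤ 23 / 10) :
    0 ≤ 28284/10000-(146/100-15/100*y)*(x+y) := by
  have a0 : 0 ≤ x-1 := by linarith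
  have a1 : 0 ≤ 3/2-x := by linarith
  have b1 : 0 ≤ 1/2-y := by linarith
  have e : 1250*(28284/10000-(146/100-15/100*y)*(x+y)) =
      13684*(3/2-x)*(1/2-y)^2 + 20818*(3/2-x)*y*(1/2-y) + 7509*(3/2-x)*y^2 +
      6384*(x-1)*(1/2-y)^2 + 6593*(x-1)*y*(1/2-y) + 584*(x-1)*y^2 := by ring
  have p : 0 ≤ 13684*(3/2-x)*(1/2-y)^2 + 20818*(3/2-x)*y*(1/2-y) + 7509*(3/2-x)*y^2 +
      6384*(x-1)*(1/2-y)^2 + 6593*(x-1)*y*(1/2-y) + 584*(x-1)*y^2 := by positivity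
  have t : 0 ≤ 1250*(28284/10000-(146/100-15/100*y)*(x+y)) := by rw [e]; linarith
  linarith

private theorem nG2_2 {x y : ℝ} (ha : 1 ≤ x) (hb : x ≤ 5/4) (hc : 1/2 ≤ y)
    (hd : y ≤ 1) (h1 : 3 / 2 ≤ x ^ 2 + y ^ 2) (h2 : x ^ 2 + y ^ 2 ≤ 23 / 10) :
    0 ≤ 28284/10000-(146/100-15/100*y)*(x+y) := by
  have a0 : 0 ≤ x-1 := by linarith
  have a1 : 0 ≤ 5/4-x := by linarith
  have b0 : 0 ≤ y-1/2 := by linarith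
  have b1 : 0 ≤ 1-y := by linarith
  have e : 625*(28284/10000-(146/100-15/100*y)*(x+y)) =
      9036*(5/4-x)^2*(1-y)^2 + 4872*(5/4-x)^2*(y-1/2)*(1-y) + 2336*(5/4-x)^2*(y-1/2)^2 +
      14222*(x-1)*(5/4-x)*(1-y)^2 + 2794*(x-1)*(5/4-x)*(y-1/2)*(1-y) +
      1572*(x-1)*(5/4-x)*(y-1/2)^2 + 6436*(x-1)^2*(1-y)^2 + 422*(x-1)^2*(y-1/2)*(1-y) +
      486*(x-1)^2*(y-1/2)^2
      + 625/2*(23/10-x^2-y^2) := by ring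
  have p : 0 ≤ 9036*(5/4-x)^2*(1-y)^2 + 4872*(5/4-x)^2*(y-1/2)*(1-y) + 2336*(5/4-x)^2*(y-1/2)^2 +
      14222*(x-1)*(5/4-x)*(1-y)^2 + 2794*(x-1)*(5/4-x)*(y-1/2)*(1-y) +
      1572*(x-1)*(5/4-x)*(y-1/2)^2 + 6436*(x-1)^2*(1-y)^2 + 422*(x-1)^2*(y-1/2)*(1-y) +
      486*(x-1)^2*(y-1/2)^2 := by positivity
  have qh2 : 0 ≤ 625/2*(23/10-x^2-y^2) := mul_nonneg (by norm_num) (by linarith)
  have t : 0 ≤ 625*(28284/10000-(146/100-15/100*y)*(x+y)) := by rw [e]; linarith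
  linarith

private theorem nG2_3 {x y : ℝ} (ha : 5/4 ≤ x) (hb : x ≤ 3/2) (hc : 1/2 ≤ y)
    (hd : y ≤ 3/4) (h1 : 3 / 2 ≤ x ^ 2 + y ^ 2) (h2 : x ^ 2 + y ^ 2 ≤ 23 / 10) :
    0 ≤ 28284/10000-(146/100-15/100*y)*(x+y) := by
  have a0 : 0 ≤ x-5/4 := by linarith
  have a1 : 0 ≤ 3/2-x := by linarith
  have b0 : 0 ≤ y-1/2 := by linarith
  have b1 : 0 ≤ 3/4-y := by linarith
  have e : 625*(28284/10000-(146/100-15/100*y)*(x+y)) =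
      25744*(3/2-x)^2*(3/4-y)^2 + 26588*(3/2-x)^2*(y-1/2)*(3/4-y) + 7344*(3/2-x)^2*(y-1/2)^2 +
      46088*(x-5/4)*(3/2-x)*(3/4-y)^2 + 43876*(x-5/4)*(3/2-x)*(y-1/2)*(3/4-y) +
      10788*(x-5/4)*(3/2-x)*(y-1/2)^2 + 25344*(x-5/4)^2*(3/4-y)^2 +
      27288*(x-5/4)^2*(y-1/2)*(3/4-y) + 8444*(x-5/4)^2*(y-1/2)^2
      + 625/2*(23/10-x^2-y^2) := by ring
  have p : 0 ≤ 25744*(3/2-x)^2*(3/4-y)^2 + 26588*(3/2-x)^2*(y-1/2)*(3/4-y) + 7344*(3/2-x)^2*(y-1/2)^2 +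
      46088*(x-5/4)*(3/2-x)*(3/4-y)^2 + 43876*(x-5/4)*(3/2-x)*(y-1/2)*(3/4-y) +
      10788*(x-5/4)*(3/2-x)*(y-1/2)^2 + 25344*(x-5/4)^2*(3/4-y)^2 +
      27288*(x-5/4)^2*(y-1/2)*(3/4-y) + 8444*(x-5/4)^2*(y-1/2)^2 := by positivity
  have qh2 : 0 ≤ 625/2*(23/10-x^2-y^2) := mul_nonneg (by norm_num) (by linarith)
  have t : 0 ≤ 625*(28284/10000-(146/100-15/100*y)*(x+y)) := by rw [e]; linarith
  linarith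

private theorem nG2_4 {x y : ℝ} (ha : 5/4 ≤ x) (hb : x ≤ 3/2) (hc : 3/4 ≤ y)
    (hd : y ≤ 1) (h1 : 3 / 2 ≤ x ^ 2 + y ^ 2) (h2 : x ^ 2 + y ^ 2 ≤ 23 / 10) :
    0 ≤ 28284/10000-(146/100-15/100*y)*(x+y) := by
  have a0 : 0 ≤ x-5/4 := by linarith
  have a1 : 0 ≤ 3/2-x := by linarith
  have b0 : 0 ≤ y-3/4 := by linarith
  have b1 : 0 ≤ 1-y := by linarith
  have e : 625*(28284/10000-(146/100-15/100*y)*(x+y)) =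
      344*(3/2-x)^2*(1-y)^2 + 3788*(3/2-x)^2*(y-3/4)*(1-y) + 12444*(3/2-x)^2*(y-3/4)^2 +
      21788*(x-5/4)*(3/2-x)*(1-y)^2 + 51276*(x-5/4)*(3/2-x)*(y-3/4)*(1-y) +
      47488*(x-5/4)*(3/2-x)*(y-3/4)^2 + 28944*(x-5/4)^2*(1-y)^2 + 62488*(x-5/4)^2*(y-3/4)*(1-y) +
      42544*(x-5/4)^2*(y-3/4)^2
      + 1875/4*(23/10-x^2-y^2) := by ring
  have p : 0 ≤ 344*(3/2-x)^2*(1-y)^2 + 3788*(3/2-x)^2*(y-3/4)*(1-y) + 12444*(3/2-x)^2*(y-3/4)^2 +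
      21788*(x-5/4)*(3/2-x)*(1-y)^2 + 51276*(x-5/4)*(3/2-x)*(y-3/4)*(1-y) +
      47488*(x-5/4)*(3/2-x)*(y-3/4)^2 + 28944*(x-5/4)^2*(1-y)^2 + 62488*(x-5/4)^2*(y-3/4)*(1-y) +
      42544*(x-5/4)^2*(y-3/4)^2 := by positivity
  have qh2 : 0 ≤ 1875/4*(23/10-x^2-y^2) := mul_nonneg (by norm_num) (by linarith)
  have t : 0 ≤ 625*(28284/10000-(146/100-15/100*y)*(x+y)) := by rw [e]; linarith
  linarith

theorem nG2 {x y : ℝ} (ha : 1 ≤ x) (hb : x ≤ 3/2) (hc : 0 ≤ y)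
    (hd : y ≤ 1) (h1 : 3 / 2 ≤ x ^ 2 + y ^ 2) (h2 : x ^ 2 + y ^ 2 ≤ 23 / 10) :
    0 ≤ 28284/10000-(146/100-15/100*y)*(x+y) := by
  rcases le_total y (1/2) with k2 | k2
  · exact nG2_1 ha hb hc k2 h1 h2
  · rcases le_total x (5/4) with k4 | k4
    · exact nG2_2 ha k4 k2 hd h1 h2
    · rcases le_total y (3/4) with k6 | k6
      · exact nG2_3 k4 hb k2 k6 h1 h2
      · exact nG2_4 k4 hb k6 hd h1 h2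

theorem nG1 {x y : ℝ} (ha : 1 ≤ x) (hb : x ≤ 3/2) (hc : 0 ≤ y)
    (hd : y ≤ 1) (h1 : 3 / 2 ≤ x ^ 2 + y ^ 2) (h2 : x ^ 2 + y ^ 2 ≤ 23 / 10) :
    0 ≤ 28284/10000-(216/100-75/100*x)*(x+y) := by
  have a0 : 0 ≤ x-1 := by linarith
  have a1 : 0 ≤ 3/2-x := by linarith
  have b1 : 0 ≤ 1-y := by linarith
  have e : 2500*(28284/10000-(216/100-75/100*x)*(x+y)) =
      14184*(3/2-x)^2*(1-y) + 84*(3/2-x)^2*y + 25068*(x-1)*(3/2-x)*(1-y) + 618*(x-1)*(3/2-x)*y +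
      12759*(x-1)^2*(1-y) + 2409*(x-1)^2*y := by ring
  have p : 0 ≤ 14184*(3/2-x)^2*(1-y) + 84*(3/2-x)^2*y + 25068*(x-1)*(3/2-x)*(1-y) + 618*(x-1)*(3/2-x)*y +
      12759*(x-1)^2*(1-y) + 2409*(x-1)^2*y := by positivity
  have t : 0 ≤ 2500*(28284/10000-(216/100-75/100*x)*(x+y)) := by rw [e]; linarith
  linarith

end Pool.Agent.RRS
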