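import Pool.Agent.RRS.PolyBox

/-!
# The tube: row O (polynomial inequalities)

Generated: each polynomial inequality is an explicit nonnegative combination of products of `x - a`,
`a' - x`, `y - b`, `b' - y` (and of `x² + y² - 3/2`, `23/10 - x² - y²`).
-/

set_option autoImplicit false

namespace Pool.Agent.RRS

open Real PB

theorem nOg0 {x y : ℝ} (ha : 43/50 ≤ x) (hb : x ≤ 1) (hc : 7/10 ≤ y)
    (hd : y ≤ 1) (h1 : 3 / 2 ≤ x ^ 2 + y ^ 2) (h2 : x ^ 2 + y ^ 2 ≤ 23 / 10) :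
    0 ≤ (x+y)*((103/100+1/100*x)+(103/100+1/100*y)+(206/100-65/100*x)*(x^2-1)/2+(206/100-
      65/100*y)*(y^2-1)/2-((206/100-65/100*x)+(206/100-65/100*y))*(x+y)^2/4)+28284/10000*x*y := by
  have h := chk_sound (x := x) (y := y) (E :=
      (.add (.mul (.add .X .Y) (.sub (.add (.add (.add (.add (.div (.N 103) 100) (.mul (.div (.N
      1) 100) .X)) (.add (.div (.N 103) 100) (.mul (.div (.N 1) 100) .Y))) (.div (.mul (.sub
      (.div (.N 206) 100) (.mul (.div (.N 65) 100) .X)) (.sub (.pow .X 2) (.N 1))) 2)) (.div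
      (.mul (.sub (.div (.N 206) 100) (.mul (.div (.N 65) 100) .Y)) (.sub (.pow .Y 2) (.N 1)))
      2)) (.div (.mul (.add (.sub (.div (.N 206) 100) (.mul (.div (.N 65) 100) .X)) (.sub (.div
      (.N 206) 100) (.mul (.div (.N 65) 100) .Y))) (.pow (.add .X .Y) 2)) 4))) (.mul (.mul (.div
      (.N 28284) 10000) .X) .Y)))
    (qx := 50) (n0 := 43) (n1 := 50) (qy := 10) (m0 := 7) (m1 := 10) (Dx := 4) (Dy := 4)
    (by decide +kernel) (by push_cast; linarith) (by push_cast; linarith)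
    (by push_cast; linarith) (by push_cast; linarith)
  simpa only [PE.ev, Nat.cast_ofNat, Nat.cast_one, Nat.cast_zero] using h

theorem nOg1 {x y : ℝ} (ha : 43/50 ≤ x) (hb : x ≤ 1) (hc : 7/10 ≤ y)
    (hd : y ≤ 1) (h1 : 3 / 2 ≤ x ^ 2 + y ^ 2) (h2 : x ^ 2 + y ^ 2 ≤ 23 / 10) :
    0 ≤ (x+y)*((103/100+1/100*x)+(103/100+1/100*y)+(206/100-65/100*x)*(x^2-1)/2+(206/100-
      65/100*y)*(y^2-1)/2-((206/100-65/100*x)+(206/100-65/100*y))*(x+y)^2/4-7/64*(133/320+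
      13/25*(1/2*x^2+1/2*y^2)+4/3*((19/100)*x^2+(19/100)*y^2)+(2*(103/100+1/100*x)+2*(103/100+
      1/100*y)-(19/100)-(19/100))*(67/400*y^2+67/400*x^2)))+28284/10000*(x*y-7/64*(2/3*(x*y)-
      (67/400*y^2+67/400*x^2))) := by
  have h := chk_sound (x := x) (y := y) (E :=
      (.add (.mul (.add .X .Y) (.sub (.sub (.add (.add (.add (.add (.div (.N 103) 100) (.mul
      (.div (.N 1) 100) .X)) (.add (.div (.N 103) 100) (.mul (.div (.N 1) 100) .Y))) (.div (.mul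
      (.sub (.div (.N 206) 100) (.mul (.div (.N 65) 100) .X)) (.sub (.pow .X 2) (.N 1))) 2))
      (.div (.mul (.sub (.div (.N 206) 100) (.mul (.div (.N 65) 100) .Y)) (.sub (.pow .Y 2) (.N
      1))) 2)) (.div (.mul (.add (.sub (.div (.N 206) 100) (.mul (.div (.N 65) 100) .X)) (.sub
      (.div (.N 206) 100) (.mul (.div (.N 65) 100) .Y))) (.pow (.add .X .Y) 2)) 4)) (.mul (.div
      (.N 7) 64) (.add (.add (.add (.div (.N 133) 320) (.mul (.div (.N 13) 25) (.add (.mul (.div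
      (.N 1) 2) (.pow .X 2)) (.mul (.div (.N 1) 2) (.pow .Y 2))))) (.mul (.div (.N 4) 3) (.add
      (.mul (.div (.N 19) 100) (.pow .X 2)) (.mul (.div (.N 19) 100) (.pow .Y 2))))) (.mul (.sub
      (.sub (.add (.mul (.N 2) (.add (.div (.N 103) 100) (.mul (.div (.N 1) 100) .X))) (.mul (.N
      2) (.add (.div (.N 103) 100) (.mul (.div (.N 1) 100) .Y)))) (.div (.N 19) 100)) (.div (.N
      19) 100)) (.add (.mul (.div (.N 67) 400) (.pow .Y 2)) (.mul (.div (.N 67) 400) (.pow .X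
      2)))))))) (.mul (.div (.N 28284) 10000) (.sub (.mul .X .Y) (.mul (.div (.N 7) 64) (.sub
      (.mul (.div (.N 2) 3) (.mul .X .Y)) (.add (.mul (.div (.N 67) 400) (.pow .Y 2)) (.mul (.div
      (.N 67) 400) (.pow .X 2)))))))))
    (qx := 50) (n0 := 43) (n1 := 50) (qy := 10) (m0 := 7) (m1 := 10) (Dx := 4) (Dy := 4)
    (by decide +kernel) (by push_cast; linarith) (by push_cast; linarith)
    (by push_cast; linarith) (by push_cast; linarith)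
  simpa only [PE.ev, Nat.cast_ofNat, Nat.cast_one, Nat.cast_zero] using h

theorem nOq1 {x y : ℝ} (ha : 43/50 ≤ x) (hb : x ≤ 1) (hc : 7/10 ≤ y)
    (hd : y ≤ 1) (h1 : 3 / 2 ≤ x ^ 2 + y ^ 2) (h2 : x ^ 2 + y ^ 2 ≤ 23 / 10) :
    0 ≤ 28284/10000*(4*(19/50)+(206/100-65/100*x)*(x+y)^2)-2*(x+y)-(206/100-65/100*x)^2*(x+y)^3
      -4*(19/50)*(245/4096)*(206/100-65/100*x)*(x+y) := by
  have h := chk_sound (x := x) (y := y) (E :=
      (.sub (.sub (.sub (.mul (.div (.N 28284) 10000) (.add (.mul (.N 4) (.div (.N 19) 50)) (.mul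
      (.sub (.div (.N 206) 100) (.mul (.div (.N 65) 100) .X)) (.pow (.add .X .Y) 2)))) (.mul (.N
      2) (.add .X .Y))) (.mul (.pow (.sub (.div (.N 206) 100) (.mul (.div (.N 65) 100) .X)) 2)
      (.pow (.add .X .Y) 3))) (.mul (.mul (.mul (.mul (.N 4) (.div (.N 19) 50)) (.div (.N 245)
      4096)) (.sub (.div (.N 206) 100) (.mul (.div (.N 65) 100) .X))) (.add .X .Y))))
    (qx := 50) (n0 := 43) (n1 := 50) (qy := 10) (m0 := 7) (m1 := 10) (Dx := 5) (Dy := 3)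
    (by decide +kernel) (by push_cast; linarith) (by push_cast; linarith)
    (by push_cast; linarith) (by push_cast; linarith)
  simpa only [PE.ev, Nat.cast_ofNat, Nat.cast_one, Nat.cast_zero] using h

theorem nOq2 {x y : ℝ} (ha : 43/50 ≤ x) (hb : x ≤ 1) (hc : 7/10 ≤ y)
    (hd : y ≤ 1) (h1 : 3 / 2 ≤ x ^ 2 + y ^ 2) (h2 : x ^ 2 + y ^ 2 ≤ 23 / 10) :
    0 ≤ 28284/10000*(4*(19/50)+(206/100-65/100*y)*(x+y)^2)-2*(x+y)-(206/100-65/100*y)^2*(x+y)^3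
      -4*(19/50)*(245/4096)*(206/100-65/100*y)*(x+y) := by
  have h := chk_sound (x := x) (y := y) (E :=
      (.sub (.sub (.sub (.mul (.div (.N 28284) 10000) (.add (.mul (.N 4) (.div (.N 19) 50)) (.mul
      (.sub (.div (.N 206) 100) (.mul (.div (.N 65) 100) .Y)) (.pow (.add .X .Y) 2)))) (.mul (.N
      2) (.add .X .Y))) (.mul (.pow (.sub (.div (.N 206) 100) (.mul (.div (.N 65) 100) .Y)) 2)
      (.pow (.add .X .Y) 3))) (.mul (.mul (.mul (.mul (.N 4) (.div (.N 19) 50)) (.div (.N 245)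
      4096)) (.sub (.div (.N 206) 100) (.mul (.div (.N 65) 100) .Y))) (.add .X .Y))))
    (qx := 50) (n0 := 43) (n1 := 50) (qy := 10) (m0 := 7) (m1 := 10) (Dx := 3) (Dy := 5)
    (by decide +kernel) (by push_cast; linarith) (by push_cast; linarith)
    (by push_cast; linarith) (by push_cast; linarith)
  simpa only [PE.ev, Nat.cast_ofNat, Nat.cast_one, Nat.cast_zero] using h

theorem nOa1 {x y : ℝ} (ha : 43/50 ≤ x) (hb : x ≤ 1) (hc : 7/10 ≤ y)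
    (hd : y ≤ 1) (h1 : 3 / 2 ≤ x ^ 2 + y ^ 2) (h2 : x ^ 2 + y ^ 2 ≤ 23 / 10) :
    0 ≤ 28284/10000-((206/100-65/100*x)+1/2*x-1/2)*(x+y) := by
  have h := chk_sound (x := x) (y := y) (E :=
      (.sub (.div (.N 28284) 10000) (.mul (.sub (.add (.sub (.div (.N 206) 100) (.mul (.div (.N
      65) 100) .X)) (.mul (.div (.N 1) 2) .X)) (.div (.N 1) 2)) (.add .X .Y))))
    (qx := 50) (n0 := 43) (n1 := 50) (qy := 10) (m0 := 7) (m1 := 10) (Dx := 2) (Dy := 1)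
    (by decide +kernel) (by push_cast; linarith) (by push_cast; linarith)
    (by push_cast; linarith) (by push_cast; linarith)
  simpa only [PE.ev, Nat.cast_ofNat, Nat.cast_one, Nat.cast_zero] using h

theorem nOa2 {x y : ℝ} (ha : 43/50 ≤ x) (hb : x ≤ 1) (hc : 7/10 ≤ y)
    (hd : y ≤ 1) (h1 : 3 / 2 ≤ x ^ 2 + y ^ 2) (h2 : x ^ 2 + y ^ 2 ≤ 23 / 10) :
    0 ≤ 28284/10000-((206/100-65/100*y)+1/2*y-1/2)*(x+y) := by
  have h := chk_sound (x := x) (y := y) (E :=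
      (.sub (.div (.N 28284) 10000) (.mul (.sub (.add (.sub (.div (.N 206) 100) (.mul (.div (.N
      65) 100) .Y)) (.mul (.div (.N 1) 2) .Y)) (.div (.N 1) 2)) (.add .X .Y))))
    (qx := 50) (n0 := 43) (n1 := 50) (qy := 10) (m0 := 7) (m1 := 10) (Dx := 1) (Dy := 2)
    (by decide +kernel) (by push_cast; linarith) (by push_cast; linarith)
    (by push_cast; linarith) (by push_cast; linarith)
  simpa only [PE.ev, Nat.cast_ofNat, Nat.cast_one, Nat.cast_zero] using h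

theorem trowO {x y u g1 g2 N : ℝ} (ha : 43/50 ≤ x) (hb : x ≤ 1) (hc : 7/10 ≤ y)
    (hd : y ≤ 1) (h1 : 3 / 2 ≤ x ^ 2 + y ^ 2) (h2 : x ^ 2 + y ^ 2 ≤ 23 / 10) (h3 : y ≤ x)
    (hu : 28284 / 10000 ≤ u * (x + y)) (l1 : 0 ≤ g1) (l1' : g1 ≤ 1/2) (l2 : 0 ≤ g2)
    (l2' : g2 ≤ 1/2) (hN : N = 0) :
    N ≤ ((103/100+1/100*x)+(103/100+1/100*y)+(206/100-65/100*x)*(x^2-1)/2+(206/100-65/100*y)*(y^2-1)/2+
      u*(x*y)-((206/100-65/100*x)+(206/100-65/100*y))*(x+y)^2/4) ∧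
    N + 7/64*(5*(7/64)*(19/25)+2/3*(u*(x*y))-99/50*N+13/25*(g1*x^2+g2*y^2)+4/3*((g1/4+13/200)*x^2+(g2/4+0+
      13/200)*y^2)+(2*(103/100+1/100*x)+2*(103/100+1/100*y)-u-(g1/4+13/200)-(g2/4+0+
      13/200))*(67/400*y^2+(67/400*x^2))) ≤
      ((103/100+1/100*x)+(103/100+1/100*y)+(206/100-65/100*x)*(x^2-1)/2+(206/100-65/100*y)*(y^2-1)/2+
      u*(x*y)-((206/100-65/100*x)+(206/100-65/100*y))*(x+y)^2/4) := by
  have y0 : 0 ≤ y := by linarith
  have x0 : 0 < x := by linarith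
  have s0 : 0 < x + y := by linarith
  have f0 := nOg0 ha hb hc hd h1 h2
  have f1 := nOg1 ha hb hc hd h1 h2
  have hu' : 0 ≤ u*(x+y)-28284/10000 := by linarith
  constructor
  · have Q0 : 0 ≤ x*y := by positivity
    have q : 0 ≤ ((u*(x+y)-28284/10000)*(x*y)) := by positivity
    have e : (x+y)*(((103/100+1/100*x)+(103/100+1/100*y)+(206/100-65/100*x)*(x^2-1)/2+(206/100-65/100*y)*(y^2-1)/2+
      u*(x*y)-((206/100-65/100*x)+(206/100-65/100*y))*(x+y)^2/4)-N) = ((x+y)*((103/100+1/100*x)+(103/100+1/100*y)+(206/100-65/100*x)*(x^2-1)/2+(206/100-65/100*y)*(y^2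
      -1)/2-((206/100-65/100*x)+(206/100-65/100*y))*(x+y)^2/4)+28284/10000*x*y)+((u*(x+y)-28284/10000)*(x*y)) := by
      linear_combination (-(x+y))*hN
    have p : 0 ≤ (x+y)*(((103/100+1/100*x)+(103/100+1/100*y)+(206/100-65/100*x)*(x^2-1)/2+(206/100-65/100*y)*(y^2-1)/2+
      u*(x*y)-((206/100-65/100*x)+(206/100-65/100*y))*(x+y)^2/4)-N) := by rw [e]; linarith
    have p2 := nonneg_of_mul_nonneg_right p (by positivity)
    linarith
  · have Q0 : 0 ≤ (x*y-7/64*(2/3*(x*y)-(67/400*y^2+(67/400*x^2)))) := by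
      have : (x*y-7/64*(2/3*(x*y)-(67/400*y^2+(67/400*x^2)))) = (1-2/3*(7/64))*(x*y)+7/64*(67/400*y^2+(67/400*x^2)) := by ring
      rw [this]
      have : (0:ℝ) ≤ 1-2/3*(7/64) := by norm_num
      positivity
    have q : 0 ≤ ((u*(x+y)-28284/10000)*(x*y-7/64*(2/3*(x*y)-(67/400*y^2+(67/400*x^2))))) := by positivity
    have c1 : 0 ≤ ((13/25+1/3)*x^2-(67/400*y^2+(67/400*x^2))/4) := by nlinarith [mul_nonneg y0 (by linarith : 0 ≤ x - y), sq_nonneg x, mul_self_nonneg (x - y)]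
    have c2 : 0 ≤ ((13/25+1/3)*y^2-(67/400*y^2+(67/400*x^2))/4) := by nlinarith [mul_nonneg y0 (by linarith : 0 ≤ x - y), mul_nonneg (by linarith : 0 ≤ y - 7/10) y0, mul_nonneg (by linarith : 0 ≤ 1 - x) x0.le, mul_nonneg (by linarith : 0 ≤ 1 - x) y0]
    have r1 : 0 ≤ 7/64*(((x+y)*((1/2-g1)*((13/25+1/3)*x^2-(67/400*y^2+(67/400*x^2))/4)))) := by
      have : 0 ≤ 1/2-g1 := by linarith
      positivity
    have r2 : 0 ≤ 7/64*(((x+y)*((1/2-g2)*((13/25+1/3)*y^2-(67/400*y^2+(67/400*x^2))/4)))) := by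
      have : 0 ≤ 1/2-g2 := by linarith
      positivity
    have e : (x+y)*(((103/100+1/100*x)+(103/100+1/100*y)+(206/100-65/100*x)*(x^2-1)/2+(206/100-65/100*y)*(y^2-1)/2+
      u*(x*y)-((206/100-65/100*x)+(206/100-65/100*y))*(x+y)^2/4)-(N+7/64*(5*(7/64)*(19/25)+2/3*(u*(x*y))-99/50*N+13/25*(g1*x^2+g2*y^2)+4/3*((g1/4+13/200)*x^2+(g2/4+0+
      13/200)*y^2)+(2*(103/100+1/100*x)+2*(103/100+1/100*y)-u-(g1/4+13/200)-(g2/4+0+
      13/200))*(67/400*y^2+(67/400*x^2))))) =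
      ((x+y)*((103/100+1/100*x)+(103/100+1/100*y)+(206/100-65/100*x)*(x^2-1)/2+(206/100-65/100*y)*(y^2
      -1)/2-((206/100-65/100*x)+(206/100-65/100*y))*(x+y)^2/4-7/64*(133/320+13/25*(1/2*x^2+
      1/2*y^2)+4/3*((19/100)*x^2+(19/100)*y^2)+(2*(103/100+1/100*x)+2*(103/100+1/100*y)-
      (19/100)-(19/100))*(67/400*y^2+67/400*x^2)))+28284/10000*(x*y-7/64*(2/3*(x*y)-(67/400*y^2
      +67/400*x^2))))+((u*(x+y)-28284/10000)*(x*y-7/64*(2/3*(x*y)-(67/400*y^2+(67/400*x^2)))))+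
      7/64*(((x+y)*((1/2-g1)*((13/25+1/3)*x^2-(67/400*y^2+(67/400*x^2))/4))))+
      7/64*(((x+y)*((1/2-g2)*((13/25+1/3)*y^2-(67/400*y^2+(67/400*x^2))/4)))) := by
      linear_combination (-(2507/3200*(x+y)))*hN
    have p : 0 ≤ (x+y)*(((103/100+1/100*x)+(103/100+1/100*y)+(206/100-65/100*x)*(x^2-1)/2+(206/100-65/100*y)*(y^2-1)/2+
      u*(x*y)-((206/100-65/100*x)+(206/100-65/100*y))*(x+y)^2/4)-(N+7/64*(5*(7/64)*(19/25)+2/3*(u*(x*y))-99/50*N+13/25*(g1*x^2+g2*y^2)+4/3*((g1/4+13/200)*x^2+(g2/4+0+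
      13/200)*y^2)+(2*(103/100+1/100*x)+2*(103/100+1/100*y)-u-(g1/4+13/200)-(g2/4+0+
      13/200))*(67/400*y^2+(67/400*x^2))))) := by rw [e]; linarith
    have p2 := nonneg_of_mul_nonneg_right p (by positivity)
    linarith

end Pool.Agent.RRS
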