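import Pool.Agent.RRS.TubeNumU
import Pool.Agent.RRS.TubeNumP
import Pool.Agent.RRS.TubeRowO

/-!
# The tube, first region: the conditions for the pointwise inequality
-/

set_option autoImplicit false

noncomputable section

namespace Pool.Agent.RRS

open Real

/-- the form of the first region -/
def tP (L K : LF) (u1 u2 mu r : ℝ) : TP where
  u := u2
  mu := mu
  r := r
  g1 := max (L.ga u1) 0
  g2 := max (K.ga u2) 0
  et := 0
  n2 := 0
  h1 := max (L.ga u1) 0 / 4 + 13 / 200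
  h3 := max (K.ga u2) 0 / 4 + L.nu + 13 / 200
  h4 := 2 * L.a1 + 2 * K.a1 - u1 - (max (L.ga u1) 0 / 4 + 13 / 200) -
    (max (K.ga u2) 0 / 4 + L.nu + 13 / 200)

theorem tubeL_one (R : ℝ) (h : 0 ≤ R) : TubeL (Lp1 R) := by
  constructor <;> simp only [Lp1, mkL, LF.nu] <;> linarith

theorem tubeL_two (R : ℝ) (h : 1 ≤ R) : TubeL (Lp2 R) := by
  constructor <;> simp only [Lp2, mkL, LF.nu] <;> linarith

/-- the two radii on both sides of `1`; `u1 ≤ u2` -/
theorem tubeI_of {x y u1 u2 mu : ℝ} (hx : 1 ≤ x) (hx' : x ≤ 3 / 2) (hy : 0 < y) (hy' : y ≤ 1)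
    (u0 : 13187 / 10000 ≤ u1) (u12 : u1 ≤ u2) (u3 : u2 ≤ 23095 / 10000)
    (hg1 : (Lp2 x).ga u1 ≤ 1 / 2) (hg2 : (Lp1 y).ga u2 ≤ 6 / 10)
    (hD : u1 ≤ 389 / 100 - 109 / 100 * x - 132 / 100 * y)
    (hk1 : u1 ≤ 432 / 100 - 150 / 100 * x)
    (hkk : 2 * u1 + u2 ≤ 1354 / 100 - 380 / 100 * x - 262 / 100 * y)
    (he3 : 0 ≤ 242 / 100 * x + 115 / 100 * y - 435 / 100 + u1)
    (hC : u1 ≤ 471 / 100 - 190 / 100 * x - 66 / 100 * y) (hmu0 : 0 ≤ mu)
    (hmu : 121 / 100 * (x - 1) ≤ 4 * (y / x * (1 - y / x)) * mu) :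
    TubeI (Lp2 x) (Lp1 y) u1 u2 (13 / 200) (tP (Lp2 x) (Lp1 y) u1 u2 mu (y / x)) := by
  obtain ⟨g1, hg⟩ : ∃ g1, g1 = max ((Lp2 x).ga u1) 0 := ⟨_, rfl⟩
  obtain ⟨g2, hg'⟩ : ∃ g2, g2 = max ((Lp1 y).ga u2) 0 := ⟨_, rfl⟩
  have a0 : 0 ≤ g1 := hg ▸ le_max_right _ _
  have b0 : 0 ≤ g2 := hg' ▸ le_max_right _ _
  have a1 : g1 ≤ 1 / 2 := hg ▸ max_le hg1 (by norm_num)
  have b1 : g2 ≤ 6 / 10 := hg' ▸ max_le hg2 (by norm_num)
  have a2 : (Lp2 x).ga u1 ≤ g1 := hg ▸ le_max_left _ _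
  have b2 : (Lp1 y).ga u2 ≤ g2 := hg' ▸ le_max_left _ _
  have x0 : 0 < x := by linarith
  have r0 : 0 ≤ y / x := by positivity
  have r1 : y / x ≤ 1 := by
    rw [div_le_one x0]
    linarith
  unfold tP
  rw [← hg, ← hg']
  refine
    { lL := tubeL_two x hx
      lK := tubeL_one y hy.le
      Tu := rfl
      et0 := rfl
      n20 := rfl
      K0 := ?_
      u0 := by linarith
      u12 := u12
      w0 := by norm_num
      r0 := r0
      r1 := r1
      mu0 := hmu0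
      mu := ?_
      g1 := a0
      g2 := b0
      g1' := a2
      g2' := b2
      h1 := rfl
      h3 := rfl
      h4 := ?_
      hs := ?_
      sa := ?_
      D := ?_
      C := ?_
      k1 := ?_
      k2 := ?_
      ak := ?_
      zk := ?_
      s2 := ?_
      s1 := ?_
      e1 := ?_
      e3 := ?_
      kk := ?_
      W := ?_ } <;> simp only [Lp1, Lp2, mkL, LF.nu, LF.sa, tD, LF.ga] at *
  · ring
  · linarith
  · linarith
  · ring
  · linarith
  · linarith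
  · linarith
  · linarith
  · linarith
  · linarith
  · linarith
  · have e1 : -(25 / 100) ≤ 206 / 100 + 2 / 100 * y - u2 := by linarith
    have e2 : 206 / 100 + 2 / 100 * y - u2 ≤ 77 / 100 := by linarith
    nlinarith [mul_nonneg (sub_nonneg.2 e1) (sub_nonneg.2 e2)]
  · have e1 : -(575 / 1000) ≤ 249 / 100 - 41 / 100 * x - u1 := by linarith
    have e2 : 249 / 100 - 41 / 100 * x - u1 ≤ 835 / 1000 := by linarith
    nlinarith [mul_nonneg (sub_nonneg.2 e1) (sub_nonneg.2 e2)]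
  · linarith
  · linarith
  · linarith
  · linarith

end Pool.Agent.RRS
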