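import Mathlib

/-!
# The tube: polynomial inequalities, both radii at most one

Generated.
-/

set_option autoImplicit false

namespace Pool.Agent.RRS

theorem nOP1 {x y : ℝ} (ha : 43/50 ≤ x) (hb : x ≤ 1) (hc : 7/10 ≤ y)
    (hd : y ≤ 1) (h1 : 3 / 2 ≤ x ^ 2 + y ^ 2) (h2 : x ^ 2 + y ^ 2 ≤ 23 / 10) :
    0 ≤ 28284/10000*(y+9/4*x)-9/4*(206/100-15/100*x)*x*(x+y) := by
  have a0 : 0 ≤ x-43/50 := by linarith
  have a1 : 0 ≤ 1-x := by linarith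
  have b0 : 0 ≤ y-7/10 := by linarith
  have b1 : 0 ≤ 1-y := by linarith
  have e : 2744*(28284/10000*(y+9/4*x)-9/4*(206/100-15/100*x)*x*(x+y)) =
      5413058*(1-x)^3*(1-y) + 4504973*(1-x)^3*(y-7/10) + 14513625*(x-43/50)*(1-x)^2*(1-y) +
      11221740*(x-43/50)*(1-x)^2*(y-7/10) + 12557580*(x-43/50)^2*(1-x)*(1-y) +
      8704680*(x-43/50)^2*(1-x)*(y-7/10) + 3460100*(x-43/50)^3*(1-y) +
      1991000*(x-43/50)^3*(y-7/10) := by ring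
  have p : 0 ≤ 5413058*(1-x)^3*(1-y) + 4504973*(1-x)^3*(y-7/10) + 14513625*(x-43/50)*(1-x)^2*(1-y) +
      11221740*(x-43/50)*(1-x)^2*(y-7/10) + 12557580*(x-43/50)^2*(1-x)*(1-y) +
      8704680*(x-43/50)^2*(1-x)*(y-7/10) + 3460100*(x-43/50)^3*(1-y) +
      1991000*(x-43/50)^3*(y-7/10) := by positivity
  have t : 0 ≤ 2744*(28284/10000*(y+9/4*x)-9/4*(206/100-15/100*x)*x*(x+y)) := by rw [e]; linarith
  linarith

theorem nOP2 {x y : ℝ} (ha : 43/50 ≤ x) (hb : x ≤ 1) (hc : 7/10 ≤ y)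
    (hd : y ≤ 1) (h1 : 3 / 2 ≤ x ^ 2 + y ^ 2) (h2 : x ^ 2 + y ^ 2 ≤ 23 / 10) :
    0 ≤ 28284/10000*(x+9/4*y)-9/4*(206/100-15/100*y)*y*(x+y) := by
  have a0 : 0 ≤ x-43/50 := by linarith
  have a1 : 0 ≤ 1-x := by linarith
  have b0 : 0 ≤ y-7/10 := by linarith
  have b1 : 0 ≤ 1-y := by linarith
  have e : 2520*(28284/10000*(x+9/4*y)-9/4*(206/100-15/100*y)*y*(x+y)) =
      1389146*(1-x)*(1-y)^3 + 3525693*(1-x)*(y-7/10)*(1-y)^2 + 2665788*(1-x)*(y-7/10)^2*(1-y) +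
      535316*(1-x)*(y-7/10)^3 + 1365745*(x-43/50)*(1-y)^3 + 3338940*(x-43/50)*(y-7/10)*(1-y)^2 +
      2365320*(x-43/50)*(y-7/10)^2*(1-y) + 398200*(x-43/50)*(y-7/10)^3 := by ring
  have p : 0 ≤ 1389146*(1-x)*(1-y)^3 + 3525693*(1-x)*(y-7/10)*(1-y)^2 + 2665788*(1-x)*(y-7/10)^2*(1-y) +
      535316*(1-x)*(y-7/10)^3 + 1365745*(x-43/50)*(1-y)^3 + 3338940*(x-43/50)*(y-7/10)*(1-y)^2 +
      2365320*(x-43/50)*(y-7/10)^2*(1-y) + 398200*(x-43/50)*(y-7/10)^3 := by positivity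
  have t : 0 ≤ 2520*(28284/10000*(x+9/4*y)-9/4*(206/100-15/100*y)*y*(x+y)) := by rw [e]; linarith
  linarith

end Pool.Agent.RRS
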