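import Pool.Agent.RRS.TubeNumI
import Pool.Agent.RRS.TubeNumQ

/-!
# The tube, both radii at most one
-/

set_option autoImplicit false

noncomputable section

namespace Pool.Agent.RRS

open Real

theorem tP1_of {x y u k s : ℝ} (hs : 0 < s) (hu : 28284 / 10000 ≤ u * s) (hx : 0 ≤ x) (hy : 0 ≤ y)
    (hu0 : 0 ≤ u) (h : 0 ≤ 28284 / 10000 * (y + 9 / 4 * x) - 9 / 4 * k * x * s) :
    9 / 4 * (max (k - u) 0 * x) ≤ u * y := by
  rcases le_total (k - u) 0 with hk | hk
  · rw [max_eq_right hk]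
    have := mul_nonneg hu0 hy
    linarith
  · rw [max_eq_left hk]
    have e : s * (u * y - 9 / 4 * ((k - u) * x)) =
        (28284 / 10000 * (y + 9 / 4 * x) - 9 / 4 * k * x * s) +
          (u * s - 28284 / 10000) * (y + 9 / 4 * x) := by ring
    have h2 : 0 ≤ (u * s - 28284 / 10000) * (y + 9 / 4 * x) :=
      mul_nonneg (by linarith) (by positivity)
    have h3 : 0 ≤ s * (u * y - 9 / 4 * ((k - u) * x)) := by
      rw [e]
      linarith
    have := nonneg_of_mul_nonneg_right h3 hs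
    linarith

theorem tga_of {u k s g : ℝ} (hs : 0 < s) (hu : 28284 / 10000 ≤ u * s)
    (h : 0 ≤ 28284 / 10000 - (k - g) * s) : k - u ≤ g := by
  by_contra hc
  push Not at hc
  nlinarith [mul_pos (sub_pos.2 hc) hs]

theorem tubeI_O {x y u : ℝ} (hx : 43 / 50 ≤ x) (hx' : x ≤ 1) (hy : 7 / 10 ≤ y) (hy' : y ≤ 1)
    (hyx : y ≤ x) (h1 : 3 / 2 ≤ x ^ 2 + y ^ 2) (h2 : x ^ 2 + y ^ 2 ≤ 23 / 10)
    (hU : u * (x + y) = 2 * √2) :
    TubeI (Lp1 x) (Lp1 y) u u (13 / 200) (tP (Lp1 x) (Lp1 y) u u 0 (y / x)) := by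
  obtain ⟨c1, c2⟩ := two_sqrt_two_bounds
  have hs : 0 < x + y := by linarith
  have hup := tu_pos hs hU
  have hu : 28284 / 10000 ≤ u * (x + y) := by linarith
  have hu' : u * (x + y) ≤ 282843 / 100000 := by linarith
  have s1 : 164 / 100 ≤ x + y := by nlinarith
  have s2 : x + y ≤ 2 := by linarith
  have u0 : 1414 / 1000 ≤ u := by
    by_contra hc
    push Not at hc
    have : u * (x + y) ≤ 1414 / 1000 * 2 := mul_le_mul hc.le s2 hs.le (by norm_num)
    linarith
  have u3 : u ≤ 173 / 100 := by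
    by_contra hc
    push Not at hc
    have : 173 / 100 * (164 / 100) ≤ u * (x + y) := mul_le_mul hc.le s1 (by norm_num) hup.le
    linarith
  have hD : u ≤ 412 / 100 - 132 / 100 * (x + y) := by
    by_contra hc
    push Not at hc
    have h3 := mul_pos (sub_pos.2 hc) hs
    have h4 := mul_nonneg (sub_nonneg.2 s1) (sub_nonneg.2 s2)
    nlinarith
  have q1 := tga_of (g := 1 / 2) (k := 206 / 100 - 65 / 100 * x + 1 / 2 * x) hs hu
    (by have := nOa1 hx hx' hy hy' h1 h2; linarith)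
  have q2 := tga_of (g := 1 / 2) (k := 206 / 100 - 65 / 100 * y + 1 / 2 * y) hs hu
    (by have := nOa2 hx hx' hy hy' h1 h2; linarith)
  obtain ⟨g1, hg⟩ : ∃ g1, g1 = max ((Lp1 x).ga u) 0 := ⟨_, rfl⟩
  obtain ⟨g2, hg'⟩ : ∃ g2, g2 = max ((Lp1 y).ga u) 0 := ⟨_, rfl⟩
  have a0 : 0 ≤ g1 := hg ▸ le_max_right _ _
  have b0 : 0 ≤ g2 := hg' ▸ le_max_right _ _
  have a1 : g1 ≤ 1 / 2 := by
    rw [hg]
    refine max_le ?_ (by norm_num)
    simp only [LF.ga, Lp1, mkL]
    linarith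
  have b1 : g2 ≤ 1 / 2 := by
    rw [hg']
    refine max_le ?_ (by norm_num)
    simp only [LF.ga, Lp1, mkL]
    linarith
  have a2 : (Lp1 x).ga u ≤ g1 := hg ▸ le_max_left _ _
  have b2 : (Lp1 y).ga u ≤ g2 := hg' ▸ le_max_left _ _
  have x0 : 0 < x := by linarith
  have r0 : 0 ≤ y / x := by positivity
  have r1 : y / x ≤ 1 := by
    rw [div_le_one x0]
    linarith
  unfold tP
  rw [← hg, ← hg']
  refine
    { lL := tubeL_one x x0.le
      lK := tubeL_one y (by linarith)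
      Tu := rfl
      et0 := rfl
      n20 := rfl
      K0 := ?_
      u0 := by linarith
      u12 := le_rfl
      w0 := by norm_num
      r0 := r0
      r1 := r1
      mu0 := le_rfl
      mu := ?_
      g1 := a0
      g2 := b0
      g1' := a2
      g2' := b2
      h1 := rfl
      h3 := rfl
      h4 := ?_
      hs := ?_
      sa := ?_
      D := ?_
      C := ?_
      k1 := ?_
      k2 := ?_
      ak := ?_
      zk := ?_
      s2 := ?_
      s1 := ?_
      e1 := ?_
      e3 := ?_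
      kk := ?_
      W := ?_ } <;> simp only [Lp1, mkL, LF.nu, LF.sa, tD, LF.ga] at *
  · ring
  · linarith
  · linarith
  · ring
  · linarith
  · linarith
  · linarith
  · linarith
  · linarith
  · linarith
  · linarith
  · have e1 : 0 ≤ 206 / 100 + 2 / 100 * y - u := by linarith
    have e2 : 206 / 100 + 2 / 100 * y - u ≤ 67 / 100 := by linarith
    nlinarith [mul_nonneg e1 (sub_nonneg.2 e2)]
  · have e1 : 0 ≤ 206 / 100 + 2 / 100 * x - u := by linarith
    have e2 : 206 / 100 + 2 / 100 * x - u ≤ 67 / 100 := by linarith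
    nlinarith [mul_nonneg e1 (sub_nonneg.2 e2)]
  · linarith
  · linarith
  · linarith
  · linarith

theorem valI_O {x y u : ℝ} (hx : 43 / 50 ≤ x) (hx' : x ≤ 1) (hy : 7 / 10 ≤ y) (hy' : y ≤ 1)
    (hyx : y ≤ x) (h1 : 3 / 2 ≤ x ^ 2 + y ^ 2) (h2 : x ^ 2 + y ^ 2 ≤ 23 / 10)
    (hU : u * (x + y) = 2 * √2) :
    ValI (Lp1 x) (Lp1 y) x y u u (7 / 64) (67 / 400 * x ^ 2) (38 / 100) (38 / 100)
      (tP (Lp1 x) (Lp1 y) u u 0 (y / x)) := by
  obtain ⟨c1, c2⟩ := two_sqrt_two_bounds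
  have hs : 0 < x + y := by linarith
  have hup := tu_pos hs hU
  have hu : 28284 / 10000 ≤ u * (x + y) := by linarith
  have s2 : x + y ≤ 2 := by linarith
  have u0 : 1414 / 1000 ≤ u := by
    by_contra hc
    push Not at hc
    have : u * (x + y) ≤ 1414 / 1000 * 2 := mul_le_mul hc.le s2 hs.le (by norm_num)
    linarith
  have x0 : 0 < x := by linarith
  have y0 : 0 < y := by linarith
  have q1 := tga_of (g := 1 / 2) (k := 206 / 100 - 65 / 100 * x + 1 / 2 * x) hs hu
    (by have := nOa1 hx hx' hy hy' h1 h2; linarith)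
  have q2 := tga_of (g := 1 / 2) (k := 206 / 100 - 65 / 100 * y + 1 / 2 * y) hs hu
    (by have := nOa2 hx hx' hy hy' h1 h2; linarith)
  have a0 : 0 ≤ max ((Lp1 x).ga u) 0 := le_max_right _ _
  have b0 : 0 ≤ max ((Lp1 y).ga u) 0 := le_max_right _ _
  have a1 : max ((Lp1 x).ga u) 0 ≤ 1 / 2 := by
    refine max_le ?_ (by norm_num)
    simp only [LF.ga, Lp1, mkL]
    linarith
  have b1 : max ((Lp1 y).ga u) 0 ≤ 1 / 2 := by
    refine max_le ?_ (by norm_num)
    simp only [LF.ga, Lp1, mkL]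
    linarith
  obtain ⟨r1, r2⟩ := trowO hx hx' hy hy' h1 h2 hyx hu a0 a1 b0 b1 (N := 0) rfl
  refine ⟨⟨?_, ?_, ?_, ?_, ?_, ?_, ?_, ?_⟩, Or.inl rfl, ?_, ?_⟩
  · change y / x * x = y
    field_simp
  · change 9 / 4 * (max ((Lp1 x).ga u) 0 * x) ≤ u * y
    exact tP1_of hs hu x0.le y0.le hup.le
      (by
        have := nOP1 hx hx' hy hy' h1 h2
        simp only [Lp1, mkL]
        linarith)
  · change 9 / 4 * (max ((Lp1 y).ga u) 0 * y) ≤ u * x
    exact tP1_of hs hu y0.le x0.le hup.le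
      (by
        have := nOP2 hx hx' hy hy' h1 h2
        simp only [Lp1, mkL]
        linarith)
  · simp only [Lp1, mkL]
    linarith
  · simp only [Lp1, mkL]
    linarith
  · refine tq_of hs hU (by simp only [Lp1, mkL]; linarith) (by norm_num) ?_
    have := nOq1 hx hx' hy hy' h1 h2
    simp only [Lp1, mkL]
    linarith
  · refine tq_of hs hU (by simp only [Lp1, mkL]; linarith) (by norm_num) ?_
    have := nOq2 hx hx' hy hy' h1 h2
    simp only [Lp1, mkL]
    linarith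
  · rw [F0T_eq hs hU]
  · rw [linT_eq _ _ hs hU]
    simp only [tP, Lp1, mkL]
    linarith
  · rw [linT_eq _ _ hs hU]
    have e : (Lp1 x).nu = 0 := by
      simp only [Lp1, mkL, LF.nu]
      ring
    simp only [bT, tP, e]
    have e1 : (Lp1 x).a1 = 103 / 100 + 1 / 100 * x := rfl
    have e2 : (Lp1 y).a1 = 103 / 100 + 1 / 100 * y := rfl
    have e3 : (Lp1 x).b0 = 206 / 100 - 65 / 100 * x := rfl
    have e4 : (Lp1 y).b0 = 206 / 100 - 65 / 100 * y := rfl
    rw [e1, e2, e3, e4]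
    linarith

end Pool.Agent.RRS
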