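import Pool.Agent.RRS.TubeVal
import Pool.Agent.RRS.TubeIa
import Pool.Agent.RRS.TubeIb

/-!
# Package Tube-ValI: the pair inequality in the first region

`RPair_of_tube` with `hC` from `TubeI.ft, tf, tt, ff` (`T.et = 0`), `hv = hV.V`, `t = ε / π ∈ (0,
  t0]`,
`δ = 1 - cos ε ≥ 0`, and `P = δ (-(u2 R1 R2) + ...)` from `TP.avg_le` with `T.et = T.n2 = 0`,
  `T.u = u2`
(`h1, h3 ≥ 0` from their formulas).  (`ε ≤ t0 π ≤ (7/64) π ≤ 0.344`; `Real.pi_lt_d4`.)  What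
  remains is

`0 ≤ F0T + δ (linT - mu R2 ^ 2 - t bT)`, `bT` with `c = c1 + c2`:

`F0T ≥ 0` (`hV.V.F0`) and the bracket is affine in `t`, nonnegative at `t = 0` (`G0`) and at `t =
  t0`
(`G1`): `t0 * (lin - N - t b) = (t0 - t) (lin - N) + t (lin - N - t0 b)`.

Difficulty: 0.7 h.
-/

set_option autoImplicit false

noncomputable section

namespace Pool.Agent.RRS

open Real MeasureTheory

theorem RPair_tubeI {R1 R2 ε u1 u2 w t0 m c1 c2 : ℝ} {T : TP} (h2 : 0 < R2) (h12 : R2 ≤ R1)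
    (h3 : R1 ≤ 3 / 2) (e0 : 0 < ε) (e1 : ε ≤ t0 * π) (t7 : t0 ≤ 7 / 64)
    (hI : TubeI (Lz R1) (Lz R2) u1 u2 w T)
    (hV : ValI (Lz R1) (Lz R2) R1 R2 u1 u2 t0 m c1 c2 T) :
    RPair Fz g0z g1z g2z R1 R2 (π - ε) (cos (π - ε)) := by
  have hpi := Real.pi_pos
  have hpi4 := Real.pi_lt_d4
  have hu2 : 0 < u2 := lt_of_lt_of_le hI.u0 hI.u12
  have e2 : ε ≤ 344 / 1000 := by
    have : t0 * π ≤ 7 / 64 * π := mul_le_mul_of_nonneg_right t7 hpi.le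
    linarith
  have hh1 : 0 ≤ T.h1 := by rw [hI.h1]; linarith [hI.g1, hI.w0]
  have hh3 : 0 ≤ T.h3 := by rw [hI.h3]; linarith [hI.g2, hI.w0, hI.lL.nu]
  have avg := TP.avg_le T (m := m) h2 h12 e0 e2 hV.V.r (by rw [hI.Tu]; exact hu2.le) hI.mu0
    (by rw [hI.et0]) (by rw [hI.n20]) hI.g1 hI.g2 hh1 hh3 hI.h4 (by rw [hI.Tu]; exact hV.V.P1)
    (by rw [hI.Tu]; exact hV.V.P2) hV.hm
  have t1 : 0 ≤ ε / π := (div_pos e0 hpi).le
  have t2 : ε / π ≤ t0 := by rw [div_le_iff₀ hpi]; exact e1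
  have hd : 0 ≤ 1 - cos ε := by linarith [Real.cos_le_one ε]
  set t := ε / π with ht
  set δ := 1 - cos ε with hδ
  refine RPair_of_tube (u1 := u1) (u2 := u2) (t0 := t0) (c1 := c1) (c2 := c2)
    (P := δ * (-(u2 * (R1 * R2)) + 2 / 3 * t * (T.u * (R1 * R2)) +
        T.mu * R2 ^ 2 * (1 - 99 / 50 * t) +
        13 / 25 * t * (T.g1 * R1 ^ 2 + T.g2 * R2 ^ 2) +
        4 / 3 * t * (T.h1 * R1 ^ 2 + T.h3 * R2 ^ 2) +
        t * (T.h4 * (67 / 400 * R2 ^ 2 + m)))) (T := T) h2 h12 h3 e0 e1 t7 hI.u0 hu2 hI.lL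
    hI.lK ?_ hV.V ?_ ?_
  · rw [hI.et0]
    exact ⟨fun X Y hX hY => hI.ft hX hY, fun X Y hX hY => hI.tf hX hY,
      fun X Y hX hY => hI.tt hX hY, fun X Y hX hY => hI.ff hX hY⟩
  · refine avg.trans (le_of_eq ?_)
    rw [hI.et0, hI.n20, hI.Tu]
    ring
  · have hG0 := hV.G0
    have hG1 := hV.G1
    have hF0 := hV.V.F0
    have key : 0 ≤ linT (Lz R1) (Lz R2) R1 R2 u1 u2 - T.mu * R2 ^ 2 -
        t * bT T R1 R2 t0 m (c1 + c2) := by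
      rcases le_total 0 (bT T R1 R2 t0 m (c1 + c2)) with hb | hb
      · have := mul_le_mul_of_nonneg_right t2 hb
        linarith
      · have := mul_nonpos_of_nonneg_of_nonpos t1 hb
        linarith
    have hm := mul_nonneg hd key
    rw [hI.et0]
    have hb : bT T R1 R2 t0 m (c1 + c2) =
        5 * t0 * (c1 + c2) + 2 / 3 * (T.u * (R1 * R2)) - 99 / 50 * (T.mu * R2 ^ 2) +
        13 / 25 * (T.g1 * R1 ^ 2 + T.g2 * R2 ^ 2) + 4 / 3 * (T.h1 * R1 ^ 2 + T.h3 * R2 ^ 2) +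
        T.h4 * (67 / 400 * R2 ^ 2 + m) := rfl
    rw [hb] at hm
    nlinarith [hm, hF0]

end Pool.Agent.RRS
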