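import Pool.Agent.RRS.TubeNumO
import Pool.Agent.RRS.TubeValI

/-!
# The tube: the pair inequality for `R2 ≤ 1 ≤ R1`, not in the corner
-/

set_option autoImplicit false

noncomputable section

namespace Pool.Agent.RRS

open Real

/-- the linear term for `1 ≤ x`, `y ≤ 1` -/
def lin21 (x y u : ℝ) : ℝ :=
  64 / 100 + 40 / 100 * x + (103 / 100 + 1 / 100 * y) +
    (216 / 100 - 75 / 100 * x) * (x ^ 2 - 1) / 2 + (206 / 100 - 65 / 100 * y) * (y ^ 2 - 1) / 2 +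
    u * (x * y) - (216 / 100 - 75 / 100 * x + (206 / 100 - 65 / 100 * y)) * (x + y) ^ 2 / 4

/-- the loss for `1 ≤ x`, `y ≤ 1` -/
def los21 (x y u g1 g2 N t0 c m : ℝ) : ℝ :=
  5 * t0 * c + 2 / 3 * (u * (x * y)) - 99 / 50 * N + 13 / 25 * (g1 * x ^ 2 + g2 * y ^ 2) +
    4 / 3 * ((g1 / 4 + 13 / 200) * x ^ 2 + (g2 / 4 + 121 / 100 * (x - 1) + 13 / 200) * y ^ 2) +
    (2 * (64 / 100 + 40 / 100 * x) + 2 * (103 / 100 + 1 / 100 * y) - u - (g1 / 4 + 13 / 200) -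
      (g2 / 4 + 121 / 100 * (x - 1) + 13 / 200)) * (67 / 400 * y ^ 2 + m)

theorem pairI_of {x y u mu t0 m c1 c2 ε : ℝ} (hx : 1 ≤ x) (hx' : x ≤ 3 / 2) (hy : 0 < y)
    (hy' : y ≤ 1) (h1 : 3 / 2 ≤ x ^ 2 + y ^ 2) (h2 : x ^ 2 + y ^ 2 ≤ 23 / 10)
    (hU : u * (x + y) = 2 * √2) (hC : u ≤ 471 / 100 - 190 / 100 * x - 66 / 100 * y)
    (hmu0 : 0 ≤ mu) (hmu : 121 / 100 * (x - 1) ≤ 4 * (y / x * (1 - y / x)) * mu)
    (ht0 : 0 ≤ t0) (t7 : t0 ≤ 7 / 64) (hc1 : 0 ≤ c1) (hc2 : 0 ≤ c2)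
    (hm : m = 67 / 400 * x ^ 2 ∨ m = x * y / 3)
    (q1 : 0 ≤ 28284 / 10000 * (4 * c1 + (216 / 100 - 75 / 100 * x) * (x + y) ^ 2) -
      2 * (x + y) - (216 / 100 - 75 / 100 * x) ^ 2 * (x + y) ^ 3 -
      4 * c1 * (5 * t0 ^ 2) * (216 / 100 - 75 / 100 * x) * (x + y))
    (q2 : 0 ≤ 28284 / 10000 * (4 * c2 + (206 / 100 - 65 / 100 * y) * (x + y) ^ 2) -
      2 * (x + y) - (206 / 100 - 65 / 100 * y) ^ 2 * (x + y) ^ 3 -
      4 * c2 * (5 * t0 ^ 2) * (206 / 100 - 65 / 100 * y) * (x + y))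
    (hG : ∀ g1 g2 : ℝ, g1 = max (216 / 100 - 75 / 100 * x + 1 / 2 - u) 0 →
      g2 = max (206 / 100 - 65 / 100 * y + 1 / 2 * y - u) 0 →
      mu * y ^ 2 ≤ lin21 x y u ∧
      mu * y ^ 2 + t0 * los21 x y u g1 g2 (mu * y ^ 2) t0 (c1 + c2) m ≤ lin21 x y u)
    (e0 : 0 < ε) (e1 : ε ≤ t0 * π) :
    RPair Fz g0z g1z g2z x y (π - ε) (cos (π - ε)) := by
  obtain ⟨b1, b2⟩ := two_sqrt_two_bounds
  have hs : 0 < x + y := by linarith
  have hup := tu_pos hs hU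
  have hu : 28284 / 10000 ≤ u * (x + y) := by linarith
  have hu' : u * (x + y) ≤ 282843 / 100000 := by linarith
  have x0 : 0 < x := by linarith
  obtain ⟨u0, u3⟩ := tu_bounds x0.le hy.le h1 h2 hs hU
  have yx : y ≤ x := by linarith
  have dv : ∀ {a b : ℝ}, a * (x + y) ≤ b * (x + y) → a ≤ b := fun h => le_of_mul_le_mul_right h hs
  have k1 := nD hx hx' hy.le hy' h1 h2
  have k2 := nK1 hx hx' hy.le hy' h1 h2
  have k3 := nkk hx hx' hy.le hy' h1 h2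
  have k4 := ne3 hx hx' hy.le hy' h1 h2
  have k5 := nP1 hx hx' hy.le hy' h1 h2
  have k6 := nP2 hx hx' hy.le hy' h1 h2
  have k7 := nG1 hx hx' hy.le hy' h1 h2
  have k8 := nG2 hx hx' hy.le hy' h1 h2
  have eL : Lz x = Lp2 x := Lz_two hx hx'
  have eK : Lz y = Lp1 y := Lz_one hy'
  have hI : TubeI (Lp2 x) (Lp1 y) u u (13 / 200) (tP (Lp2 x) (Lp1 y) u u mu (y / x)) := by
    refine tubeI_of hx hx' hy hy' u0 le_rfl u3 ?_ ?_ ?_ ?_ ?_ ?_ hC hmu0 hmu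
    · simp only [LF.ga, Lp2, mkL]
      have := tga_of (g := 1 / 2) (k := 216 / 100 - 75 / 100 * x + 1 / 2) hs hu (by linarith)
      linarith
    · simp only [LF.ga, Lp1, mkL]
      have := tga_of (g := 6 / 10) (k := 206 / 100 - 65 / 100 * y + 1 / 2 * y) hs hu (by linarith)
      linarith
    · exact dv (by linarith)
    · exact dv (by linarith)
    · have : 3 * u ≤ 1354 / 100 - 380 / 100 * x - 262 / 100 * y := dv (by linarith)
      linarith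
    · have : -u ≤ 242 / 100 * x + 115 / 100 * y - 435 / 100 := dv (by linarith)
      linarith
  have e3 : (Lp2 x).nu = 121 / 100 * (x - 1) := by
    simp only [Lp2, mkL, LF.nu]
    ring
  have f1 : (Lp2 x).ga u = 216 / 100 - 75 / 100 * x + 1 / 2 - u := by
    simp only [Lp2, mkL, LF.ga]
    ring
  have f2 : (Lp1 y).ga u = 206 / 100 - 65 / 100 * y + 1 / 2 * y - u := by
    simp only [Lp1, mkL, LF.ga]
    ring
  have g5 : (Lp2 x).a1 = 64 / 100 + 40 / 100 * x := by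
    simp only [Lp2, mkL]
    ring
  have g6 : (Lp2 x).b0 = 216 / 100 - 75 / 100 * x := by
    simp only [Lp2, mkL]
    ring
  have g7 : (Lp1 y).a1 = 103 / 100 + 1 / 100 * y := rfl
  have g8 : (Lp1 y).b0 = 206 / 100 - 65 / 100 * y := rfl
  have ht2 : 5 * t0 ^ 2 ≤ 6 / 100 := by nlinarith
  have ht3 : 0 ≤ 5 * t0 ^ 2 := by positivity
  have hV : ValI (Lp2 x) (Lp1 y) x y u u t0 m c1 c2 (tP (Lp2 x) (Lp1 y) u u mu (y / x)) := by
    obtain ⟨r1, r2⟩ := hG (max ((Lp2 x).ga u) 0) (max ((Lp1 y).ga u) 0) (by rw [f1]) (by rw [f2])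
    refine ⟨⟨?_, ?_, ?_, ?_, ?_, ?_, ?_, ?_⟩, hm, ?_, ?_⟩
    · change y / x * x = y
      field_simp
    · change 9 / 4 * (max ((Lp2 x).ga u) 0 * x) ≤ u * y
      rw [f1]
      exact tP1_of hs hu x0.le hy.le hup.le (by linarith)
    · change 9 / 4 * (max ((Lp1 y).ga u) 0 * y) ≤ u * x
      rw [f2]
      exact tP1_of hs hu hy.le x0.le hup.le (by linarith)
    · rw [g6]
      nlinarith [mul_nonneg ht3 x0.le]
    · rw [g8]
      nlinarith [mul_nonneg ht3 hy.le]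
    · rw [g6]
      exact tq_of hs hU (by linarith) hc1 q1
    · rw [g8]
      exact tq_of hs hU (by linarith) hc2 q2
    · rw [F0T_eq hs hU]
    · rw [linT_eq _ _ hs hU, g5, g6, g7, g8]
      exact r1
    · rw [linT_eq _ _ hs hU, g5, g6, g7, g8]
      have e : bT (tP (Lp2 x) (Lp1 y) u u mu (y / x)) x y t0 m (c1 + c2) =
          los21 x y u (max ((Lp2 x).ga u) 0) (max ((Lp1 y).ga u) 0) (mu * y ^ 2) t0 (c1 + c2) m := by
        unfold bT los21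
        simp only [tP, e3, g5, g7]
      rw [e]
      exact r2
  refine RPair_tubeI hy yx hx' e0 e1 t7 (u1 := u) (u2 := u) (w := 13 / 200)
    (m := m) (c1 := c1) (c2 := c2) (T := tP (Lp2 x) (Lp1 y) u u mu (y / x)) ?_ ?_
  · rw [eL, eK]
    exact hI
  · rw [eL, eK]
    exact hV

end Pool.Agent.RRS
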