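import Pool.Agent.RRS.TubeDefs

/-!
# The tube: the multiplier `u = 2 √2 / (x + y)`
-/

set_option autoImplicit false

noncomputable section

namespace Pool.Agent.RRS

open Real

theorem two_sqrt_two_bounds : 28284 / 10000 ≤ 2 * √2 ∧ 2 * √2 ≤ 282843 / 100000 := by
  have h : √2 ^ 2 = 2 := Real.sq_sqrt (by norm_num)
  have h0 : 0 ≤ √2 := Real.sqrt_nonneg 2
  constructor
  · nlinarith
  · nlinarith

theorem tu_sq {s u : ℝ} (hU : u * s = 2 * √2) : u ^ 2 * s ^ 2 = 8 := by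
  have h : √2 ^ 2 = 2 := Real.sq_sqrt (by norm_num)
  have : (u * s) ^ 2 = (2 * √2) ^ 2 := by rw [hU]
  nlinarith

theorem tu_pos {s u : ℝ} (hs : 0 < s) (hU : u * s = 2 * √2) : 0 < u := by
  have h : 0 < u * s := by
    rw [hU]
    positivity
  by_contra hc
  push Not at hc
  nlinarith [mul_nonneg (neg_nonneg.2 hc) hs.le]

theorem tu_bounds {x y u : ℝ} (hx : 0 ≤ x) (hy : 0 ≤ y) (h1 : 3 / 2 ≤ x ^ 2 + y ^ 2)
    (h2 : x ^ 2 + y ^ 2 ≤ 23 / 10) (hs : 0 < x + y) (hU : u * (x + y) = 2 * √2) :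
    13187 / 10000 ≤ u ∧ u ≤ 23095 / 10000 := by
  have hu := tu_pos hs hU
  obtain ⟨b1, b2⟩ := two_sqrt_two_bounds
  have s1 : 12247 / 10000 ≤ x + y := by
    by_contra hc
    push Not at hc
    nlinarith [mul_nonneg hx hy]
  have s2 : x + y ≤ 21448 / 10000 := by
    by_contra hc
    push Not at hc
    nlinarith [sq_nonneg (x - y)]
  constructor
  · by_contra hc
    push Not at hc
    have : u * (x + y) ≤ 13187 / 10000 * (21448 / 10000) :=
      mul_le_mul hc.le s2 hs.le (by norm_num)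
    linarith
  · by_contra hc
    push Not at hc
    have : 23095 / 10000 * (12247 / 10000) ≤ u * (x + y) :=
      mul_le_mul hc.le s1 (by norm_num) hu.le
    linarith

theorem F0T_eq {x y u : ℝ} (hs : 0 < x + y) (hU : u * (x + y) = 2 * √2) : F0T x y u u = 0 := by
  have hu := tu_pos hs hU
  have h8 := tu_sq hU
  have e : F0T x y u u = (u ^ 2 * (x + y) ^ 2 - 8) / (2 * u) := by
    unfold F0T
    rw [← hU]
    field_simp
    ring
  rw [e, h8]
  simp

theorem linT_eq {x y u : ℝ} (L K : LF) (hs : 0 < x + y) (hU : u * (x + y) = 2 * √2) :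
    linT L K x y u u = L.a1 + K.a1 + L.b0 * (x ^ 2 - 1) / 2 + K.b0 * (y ^ 2 - 1) / 2 +
      u * (x * y) - (L.b0 + K.b0) * (x + y) ^ 2 / 4 := by
  have hu := tu_pos hs hU
  have h8 := tu_sq hU
  have e1 : √2 = u * (x + y) / 2 := by linarith
  have e2 : 1 / u ^ 2 = (x + y) ^ 2 / 8 := by
    field_simp
    linarith
  have e3 : ∀ k : ℝ, 2 * (u - k) / u ^ 2 = 2 * u * (1 / u ^ 2) - 2 * k * (1 / u ^ 2) := by
    intro k
    field_simp
  have e4 : 2 * u * (1 / u ^ 2) = u * (x + y) ^ 2 / 4 := by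
    rw [e2]
    ring
  have e5 : 4 * (u * (x + y) ^ 2 / 4) = 4 * √2 * ((x + y) / 2) := by
    rw [e1]
    ring
  unfold linT
  rw [e3, e3, e4, e2, e1]
  ring_nf

/-- the loss at the second order -/
theorem tq_of {u s k c d : ℝ} (hs : 0 < s) (hU : u * s = 2 * √2) (hk : 0 ≤ k) (hc : 0 ≤ c)
    (h : 0 ≤ 28284 / 10000 * (4 * c + k * s ^ 2) - 2 * s - k ^ 2 * s ^ 3 - 4 * c * d * k * s) :
    (u - 2 * k) ^ 2 ≤ c * (2 * u ^ 2 * (u - d * k)) := by
  have h8 := tu_sq hU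
  obtain ⟨b1, b2⟩ := two_sqrt_two_bounds
  have e : s ^ 3 * (c * (2 * u ^ 2 * (u - d * k)) - (u - 2 * k) ^ 2) =
      4 * (28284 / 10000 * (4 * c + k * s ^ 2) - 2 * s - k ^ 2 * s ^ 3 - 4 * c * d * k * s) +
        4 * ((u * s - 28284 / 10000) * (4 * c + k * s ^ 2)) := by
    linear_combination (2 * c * (u * s - d * k * s) - s) * h8
  have h2 : 0 ≤ (u * s - 28284 / 10000) * (4 * c + k * s ^ 2) := by
    have : 0 ≤ u * s - 28284 / 10000 := by linarith
    positivity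
  have h3 : 0 ≤ s ^ 3 * (c * (2 * u ^ 2 * (u - d * k)) - (u - 2 * k) ^ 2) := by
    rw [e]
    linarith
  have := nonneg_of_mul_nonneg_right h3 (by positivity)
  linarith

end Pool.Agent.RRS
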