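import Pool.Agent.RRS.TubeDefs

/-!
# Package Tube-PW: the pointwise inequality from the cells

*`CellsOK.flip_left`.* Unfold `CellsOK`, `Qc`.  For `X = 0` and `inC ix 0 m`: if `ix = true` then
`m ≤ 0`, so `m = 0`, and all terms of `Qc` except `k` vanish: the claim is `h true iy 0` (or `h
  false
iy 0`), the terms vanish there too.  If `ix = false`: `p * (0 * m) = 0`, `q true false = zp`,
`q false false = zm`, `ef true false = 1 = ef false false`, so `Qc` of `true` is `Qc` of `false`.
*`CellsOK.flip_right`.* The same in the second variable (`K.zm = K.zp`).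

*`PW_of_tube`.* Unfold `PW`; `x`, `y` given.  Use `PWat_of_cells` (`Cells.lean`; `PWat F G α β γ
  x y k`
is the inequality for all `m, s, t`), `x = sg sx * |x|`.  Cases:
`0 < x`, `0 < y`: `hC.tt`, `T.H x y = T.Hs |x| |y|`.  `x < 0`, `y < 0`: `hC.ff`, `0 < x * y`.
`x < 0`, `0 ≤ y`: `sx = false`, `sy = true`, `hC.ft`; `x * y ≤ 0`, so `T.H x y = T.Ho |x| |y|`.
`0 ≤ x`, `y < 0`: `hC.tf`.  `x = 0`, `0 ≤ y`: `T.H = T.Ho 0 |y|`, `hC.ft 0 |y|` and `flip_left`
(`sx = true`).  `0 < x`, `y = 0`: `hC.tf |x| 0` and `flip_right`.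

Difficulty: 0.6 h.
-/

set_option autoImplicit false

noncomputable section

namespace Pool.Agent.RRS

open Real

theorem CellsOK.flip_left {L K : LF} {α β γ Y k : ℝ} {sy : Bool} (hz : L.zm = L.zp)
    (h : CellsOK L K α β γ false sy 0 Y k) : CellsOK L K α β γ true sy 0 Y k := by
  intro ix iy m hm hx hy
  cases ix
  · have h1 := h false iy m hm (by simpa [inC] using hm) hy
    have e : Qc L K α β γ true sy false iy 0 Y m k = Qc L K α β γ false sy false iy 0 Y m k := by
      simp only [Qc, LF.p, LF.q, ef, sg, Bool.true_and, Bool.false_and, if_true,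
        Bool.false_eq_true, if_false, hz]
      ring
    rw [e]
    exact h1
  · have hm0 : m = 0 := le_antisymm (by simpa [inC] using hx) hm
    subst hm0
    have h1 := h true iy 0 le_rfl hx hy
    have e : Qc L K α β γ true sy true iy 0 Y 0 k = Qc L K α β γ false sy true iy 0 Y 0 k := by
      simp only [Qc]
      ring
    rw [e]
    exact h1

theorem CellsOK.flip_right {L K : LF} {α β γ X k : ℝ} {sx : Bool} (hz : K.zm = K.zp)
    (h : CellsOK L K α β γ sx false X 0 k) : CellsOK L K α β γ sx true X 0 k := by
  intro ix iy m hm hx hy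
  cases iy
  · have h1 := h ix false m hm hx (by simpa [inC] using hm)
    have e : Qc L K α β γ sx true ix false X 0 m k = Qc L K α β γ sx false ix false X 0 m k := by
      simp only [Qc, LF.p, LF.q, ef, sg, Bool.true_and, Bool.false_and, if_true,
        Bool.false_eq_true, if_false, hz]
      ring
    rw [e]
    exact h1
  · have hm0 : m = 0 := le_antisymm (by simpa [inC] using hy) hm
    subst hm0
    have h1 := h ix true 0 le_rfl hx hy
    have e : Qc L K α β γ sx true ix true X 0 0 k = Qc L K α β γ sx false ix true X 0 0 k := by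
      simp only [Qc]
      ring
    rw [e]
    exact h1

theorem PW_of_tube {L K : LF} {α β γ : ℝ} {T : TP} (hL : TubeL L) (hK : TubeL K)
    (hC : TubeCells L K α β γ T) : PW L.F K.F α β γ T.H := by
  have key : ∀ x y : ℝ, PWat L.F K.F α β γ x y (T.H x y) := by
    intro x y
    have hHo : ∀ a b : ℝ, x * y ≤ 0 → |x| = a → |y| = b → T.H x y = T.Ho a b := by
      intro a b h ha hb
      unfold TP.H
      rw [if_neg (not_lt.2 h), ha, hb]
    have hHs : ∀ a b : ℝ, 0 < x * y → |x| = a → |y| = b → T.H x y = T.Hs a b := by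
      intro a b h ha hb
      unfold TP.H
      rw [if_pos h, ha, hb]
    rcases lt_trichotomy x 0 with hx | hx | hx
    · rcases lt_or_ge y 0 with hy | hy
      · have e := hHs (-x) (-y) (mul_pos_of_neg_of_neg hx hy) (abs_of_neg hx) (abs_of_neg hy)
        have h := PWat_of_cells (sx := false) (sy := false) hL.a1 hK.a1 (by linarith : 0 ≤ -x)
          (by linarith : 0 ≤ -y) (Or.inr (by linarith)) (Or.inr (by linarith))
          (hC.ff (-x) (-y) (by linarith) (by linarith))
        rw [← e] at h
        simpa [sg] using h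
      · have e := hHo (-x) y (mul_nonpos_of_nonpos_of_nonneg hx.le hy) (abs_of_neg hx)
          (abs_of_nonneg hy)
        have h := PWat_of_cells (sx := false) (sy := true) hL.a1 hK.a1 (by linarith : 0 ≤ -x)
          hy (Or.inr (by linarith)) (Or.inl rfl) (hC.ft (-x) y (by linarith) hy)
        rw [← e] at h
        simpa [sg] using h
    · subst hx
      rcases lt_or_ge y 0 with hy | hy
      · have e := hHo 0 (-y) (by simp) (by simp) (abs_of_neg hy)
        have h := PWat_of_cells (sx := true) (sy := false) hL.a1 hK.a1 (le_refl (0 : ℝ))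
          (by linarith : 0 ≤ -y) (Or.inl rfl) (Or.inr (by linarith))
          (hC.tf 0 (-y) le_rfl (by linarith))
        rw [← e] at h
        simpa [sg] using h
      · have e := hHo 0 y (by simp) (by simp) (abs_of_nonneg hy)
        have h := PWat_of_cells (sx := true) (sy := true) hL.a1 hK.a1 (le_refl (0 : ℝ))
          hy (Or.inl rfl) (Or.inl rfl) ((hC.ft 0 y le_rfl hy).flip_left hL.zm)
        rw [← e] at h
        simpa [sg] using h
    · rcases lt_trichotomy y 0 with hy | hy | hy
      · have e := hHo x (-y) (mul_nonpos_of_nonneg_of_nonpos hx.le hy.le) (abs_of_pos hx)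
          (abs_of_neg hy)
        have h := PWat_of_cells (sx := true) (sy := false) hL.a1 hK.a1 hx.le
          (by linarith : 0 ≤ -y) (Or.inl rfl) (Or.inr (by linarith))
          (hC.tf x (-y) hx.le (by linarith))
        rw [← e] at h
        simpa [sg] using h
      · subst hy
        have e := hHo x 0 (by simp) (abs_of_pos hx) (by simp)
        have h := PWat_of_cells (sx := true) (sy := true) hL.a1 hK.a1 hx.le (le_refl (0 : ℝ))
          (Or.inl rfl) (Or.inl rfl) ((hC.tf x 0 hx.le le_rfl).flip_right hK.zm)
        rw [← e] at h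
        simpa [sg] using h
      · have e := hHs x y (mul_pos hx hy) (abs_of_pos hx) (abs_of_pos hy)
        have h := PWat_of_cells (sx := true) (sy := true) hL.a1 hK.a1 hx.le hy.le
          (Or.inl rfl) (Or.inl rfl) (hC.tt x y hx.le hy.le)
        rw [← e] at h
        simpa [sg] using h
  intro m x y s t hm s0 s1 t0 t1 a1 a2 a3 a4
  exact key x y m s t hm s0 s1 t0 t1 a1 a2 a3 a4

end Pool.Agent.RRS
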