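import Pool.Agent.RRS.TubeHom

/-!
# Package Tube-Split: the mean of the form as two integrals

Model: the proof of `avgP_H1` in `TailAvg.lean`.  `f φ = T.H (R1 cos φ) (R2 cos (φ - (π - ε)))`
  has the
period `π` (`HomBd.even`, `Symm.lean`; `T.homBd` is in `TubeHom.lean`, it may still be a stub)
  and is
interval integrable (`HomBd.intervalIntegrable`, `Types.lean`).  So `avgP T.H R1 R2 (π - ε) = 2 /
  π *
∫ φ in (π/2)..(π/2 + π), f φ`.  Substitute `φ = s + π / 2`: `cos (s + π / 2) = - sin s`,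
`cos (s + π/2 - π + ε) = cos (s + ε - π / 2) = sin (s + ε)`: `∫ s in 0..π, T.H (-(R1 sin s)) (R2
  sin (s +
ε))`.  Split at `π - ε`.  For `0 ≤ s ≤ π - ε`: `sin s ≥ 0`, `sin (s + ε) ≥ 0`, the product
`-(R1 sin s) * (R2 sin (s + ε)) ≤ 0`, so the value is `T.Ho (R1 sin s) (R2 sin (s + ε))` (the
  absolute
values).  For `π - ε < s < π`: `sin s > 0`, `sin (s + ε) < 0`, the product is positive, the value
  is
`T.Hs (R1 sin s) (- R2 sin (s + ε))`; substitute `s ↦ π - s`: `sin (π - s) = sin s`, `- sin (π -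
  s + ε) =
sin (ε - s)`.

Difficulty: 0.8 h.
-/

set_option autoImplicit false

noncomputable section

namespace Pool.Agent.RRS

open Real MeasureTheory

private theorem int_TubeSplit (T : TP) (R1 R2 θ s t : ℝ) :
    IntervalIntegrable (fun φ => T.H (R1 * cos φ) (R2 * cos (φ - θ))) volume s t := by
  have hcont : Continuous fun φ : ℝ => (R1 * cos φ, R2 * cos (φ - θ)) := by
    refine Continuous.prodMk ?_ ?_ <;> fun_prop
  have hmeas : Measurable (fun φ => T.H (R1 * cos φ) (R2 * cos (φ - θ))) :=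
    (T.homBd).meas.comp hcont.measurable
  obtain ⟨K, hK⟩ := (T.homBd).bd
  have hbc : Continuous fun φ : ℝ => K * ((R1 * cos φ) ^ 2 + (R2 * cos (φ - θ)) ^ 2) := by
    fun_prop
  refine (hbc.intervalIntegrable _ _).mono_fun' hmeas.aestronglyMeasurable
    (Filter.Eventually.of_forall fun φ => ?_)
  dsimp only
  rw [Real.norm_eq_abs]
  exact hK _ _

theorem TP.avg_split (T : TP) {R1 R2 ε : ℝ} (h1 : 0 < R1) (h2 : 0 < R2) (e0 : 0 < ε)
    (e1 : ε ≤ 344 / 1000) :
    avgP T.H R1 R2 (π - ε) = 2 / π *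
      ((∫ s in (0 : ℝ)..(π - ε), T.Ho (R1 * sin s) (R2 * sin (s + ε))) +
        ∫ s in (0 : ℝ)..ε, T.Hs (R1 * sin s) (R2 * sin (ε - s))) := by
  have hπ : 3 < π := pi_gt_three
  obtain ⟨f, hf⟩ : ∃ f : ℝ → ℝ, f = fun φ => T.H (R1 * cos φ) (R2 * cos (φ - (π - ε))) :=
    ⟨_, rfl⟩
  have hper : Function.Periodic f π := by
    intro φ
    rw [hf]
    dsimp only
    rw [cos_add_pi, show φ + π - (π - ε) = φ - (π - ε) + π by ring, cos_add_pi, mul_neg, mul_neg]
    exact (T.homBd).even _ _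
  have hint : ∀ s t : ℝ, IntervalIntegrable f volume s t := by
    intro s t
    rw [hf]
    exact int_TubeSplit T R1 R2 (π - ε) s t
  have e1' : ∫ φ in (0 : ℝ)..(2 * π), f φ = 2 * ∫ φ in (π / 2)..(π / 2 + π), f φ := by
    have e2 : (∫ φ in (0 : ℝ)..(2 * π), f φ) =
        (∫ φ in (0 : ℝ)..(0 + π), f φ) + ∫ φ in (0 + π)..(0 + π + π), f φ := by
      rw [intervalIntegral.integral_add_adjacent_intervals (hint _ _) (hint _ _)]
      congr 1
      ring
    rw [e2, hper.intervalIntegral_add_eq (0 + π) (π / 2),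
      hper.intervalIntegral_add_eq 0 (π / 2)]
    ring
  have e3 : ∫ φ in (π / 2)..(π / 2 + π), f φ = ∫ s in (0 : ℝ)..π, f (s + π / 2) := by
    rw [intervalIntegral.integral_comp_add_right]
    congr 1 <;> ring
  have hg : ∀ s, f (s + π / 2) = T.H (-(R1 * sin s)) (R2 * sin (s + ε)) := by
    intro s
    rw [hf]
    dsimp only
    rw [cos_add_pi_div_two, show s + π / 2 - (π - ε) = s + ε - π / 2 by ring,
      cos_sub_pi_div_two, mul_neg]
  have hgi : ∀ s t : ℝ, IntervalIntegrable (fun s => f (s + π / 2)) volume s t := by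
    intro s t
    have h := (hint (s + π / 2) (t + π / 2)).comp_add_right (π / 2)
    simpa using h
  have e4 : ∫ s in (0 : ℝ)..π, f (s + π / 2) =
      (∫ s in (0 : ℝ)..(π - ε), f (s + π / 2)) + ∫ s in (π - ε)..π, f (s + π / 2) :=
    (intervalIntegral.integral_add_adjacent_intervals (hgi _ _) (hgi _ _)).symm
  have e5 : ∫ s in (0 : ℝ)..(π - ε), f (s + π / 2) =
      ∫ s in (0 : ℝ)..(π - ε), T.Ho (R1 * sin s) (R2 * sin (s + ε)) := by
    refine intervalIntegral.integral_congr fun s hs => ?_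
    rw [Set.uIcc_of_le (by linarith)] at hs
    have c1 : 0 ≤ sin s := sin_nonneg_of_nonneg_of_le_pi hs.1 (by linarith [hs.2])
    have c2 : 0 ≤ sin (s + ε) :=
      sin_nonneg_of_nonneg_of_le_pi (by linarith [hs.1]) (by linarith [hs.2])
    have p1 : 0 ≤ R1 * sin s := mul_nonneg h1.le c1
    have p2 : 0 ≤ R2 * sin (s + ε) := mul_nonneg h2.le c2
    rw [hg]
    unfold TP.H
    have hneg : ¬ 0 < -(R1 * sin s) * (R2 * sin (s + ε)) := by
      have := mul_nonneg p1 p2
      rw [neg_mul]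
      linarith
    rw [if_neg hneg, abs_neg, abs_of_nonneg p1, abs_of_nonneg p2]
  have e6 : ∫ s in (π - ε)..π, f (s + π / 2) =
      ∫ s in (π - ε)..π, T.Hs (R1 * sin s) (-(R2 * sin (s + ε))) := by
    apply intervalIntegral.integral_congr_ae
    have hne : ∀ᵐ s : ℝ, s ≠ π := by simp [ae_iff]
    filter_upwards [hne] with s q1 q2
    rw [Set.uIoc_of_le (by linarith)] at q2
    have q3 : s < π := lt_of_le_of_ne q2.2 q1
    have c1 : 0 < sin s := sin_pos_of_pos_of_lt_pi (by linarith [q2.1]) q3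
    have c2 : sin (s + ε) < 0 := by
      have h3 : 0 < sin (s + ε - π) :=
        sin_pos_of_pos_of_lt_pi (by linarith [q2.1]) (by linarith)
      rw [sin_sub_pi] at h3
      linarith
    have p1 : 0 < R1 * sin s := mul_pos h1 c1
    have p2 : R2 * sin (s + ε) < 0 := mul_neg_of_pos_of_neg h2 c2
    rw [hg]
    unfold TP.H
    have hpos : 0 < -(R1 * sin s) * (R2 * sin (s + ε)) :=
      mul_pos_of_neg_of_neg (by linarith) p2
    rw [if_pos hpos, abs_neg, abs_of_pos p1, abs_of_neg p2]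
  have e7 : ∫ s in (π - ε)..π, T.Hs (R1 * sin s) (-(R2 * sin (s + ε))) =
      ∫ s in (0 : ℝ)..ε, T.Hs (R1 * sin s) (R2 * sin (ε - s)) := by
    have h3 := intervalIntegral.integral_comp_sub_left (a := (0 : ℝ)) (b := ε)
      (fun s => T.Hs (R1 * sin s) (-(R2 * sin (s + ε)))) π
    rw [sub_zero] at h3
    rw [← h3]
    refine intervalIntegral.integral_congr fun s _ => ?_
    rw [sin_pi_sub, show π - s + ε = π - (s - ε) by ring, sin_pi_sub,
      show s - ε = -(ε - s) by ring, sin_neg, mul_neg, neg_neg]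
  have h0 : avgP T.H R1 R2 (π - ε) = 1 / π * ∫ φ in (0 : ℝ)..(2 * π), f φ := by
    rw [hf]
    rfl
  rw [h0, e1', e3, e4, e5, e6, e7]
  ring

end Pool.Agent.RRS
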