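import Pool.Agent.RRS.TubeAvg
import Pool.Agent.RRS.TubePW
import Pool.Agent.RRS.ROnly
import Pool.Agent.RRS.TubeHom

/-!
# Package Tube-Val: the pair inequality from a lower bound of the value

`L = Lz R1`, `K = Lz R2`, `δ = 1 - cos ε`, `t = ε / π`, `cos (π - ε) = - cos ε = -(1 - δ)`.

*`RPair_of_tube`.* Take `α = tal L K T.et u1`, the multipliers `u1 - δ L.b0`, `u2 - δ K.b0`, `H =
  T.H`
(`TP.homBd`).  Positive: `δ ≤ ε ^ 2 / 2 ≤ π ^ 2 t0 ^ 2 / 2 ≤ 5 t0 ^ 2` (`tt_f`; `π ^ 2 ≤ 10`),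
  fields `d1`, `d2`,
`L.b0 > 0` (`Lz_bounds`).  `PW`: `PW_of_tube`, `u1 - δ L.b0 + cos (π - ε) * g1z R1 = u1 - L.b0`
(`g1z_lt`).  The value (`g2z_lt`, `g0z_lt`): with `k = L.b0`,
`(2 - δ) ^ 2 / (2 (u1 - δ k)) = 2 / u1 - 2 δ (u1 - k) / u1 ^ 2 + δ ^ 2 (u1 - 2 k) ^ 2 / (2 u1 ^ 2
  (u1 - δ k))`
(`field_simp; ring`), and the last term is at most `δ * (5 t0 t) * c1`: `δ ≤ ε ^ 2 / 2 = π ^ 2 t
  ^ 2 / 2 ≤
5 t0 t`, `u1 - δ k ≥ u1 - 5 t0 ^ 2 k`, field `q1` (`ValT.q1`).  The same for `u2`.  So the claim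
  follows from
`hV : avgP T.H R1 R2 (π - ε) ≤ u2 R1 R2 + P` and `hG`.  In detail: the right side minus the left
  side is

`√2 S (2 - δ) - (1 - δ) (ΣA - Σk) - Σ [(2 - δ) ^ 2 / (2 (u - δ k)) + (u - δ k) (1 + R ^ 2) / 2] -
(Σk - ΣA + et - u1) - avg ≥ F0T + δ (linT - 5 t0 t (c1 + c2) ) - et - P - δ u2 R1 R2`

where `S = R1 + R2` (`linT` contains `u2 R1 R2`, which is compensated by the last term).

Difficulty: 1 h.
-/

set_option autoImplicit false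

noncomputable section

namespace Pool.Agent.RRS

open Real MeasureTheory

private theorem last_TubeVal {δ u k q c t0 t : ℝ} (hδ0 : 0 ≤ δ) (hu : 0 < u)
    (hk : 0 ≤ k) (h1 : δ ≤ 5 * t0 * t) (h2 : 5 * t0 * t ≤ 5 * t0 ^ 2)
    (hd : 5 * t0 ^ 2 * k < u) (hq : (u - 2 * k) ^ 2 ≤ c * (2 * u ^ 2 * (u - 5 * t0 ^ 2 * k)))
    (hR : 0 ≤ q) :
    0 < u - δ * k ∧ (2 - δ) ^ 2 / (2 * (u - δ * k)) + (u - δ * k) * q / 2 ≤
      2 / u - 2 * δ * (u - k) / u ^ 2 + δ * (5 * t0 * t) * c + (u - δ * k) * q / 2 := by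
  have hle : δ * k ≤ 5 * t0 ^ 2 * k := mul_le_mul_of_nonneg_right (h1.trans h2) hk
  have hpos : 0 < u - δ * k := by linarith
  have hpos' : 0 < u - 5 * t0 ^ 2 * k := by linarith
  have hc : 0 ≤ c := by
    by_contra hcn
    have h3 : c * (2 * u ^ 2 * (u - 5 * t0 ^ 2 * k)) < 0 :=
      mul_neg_of_neg_of_pos (not_le.1 hcn) (by positivity)
    linarith [sq_nonneg (u - 2 * k)]
  refine ⟨hpos, ?_⟩
  have e : (2 - δ) ^ 2 / (2 * (u - δ * k)) = 2 / u - 2 * δ * (u - k) / u ^ 2 +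
      δ ^ 2 * ((u - 2 * k) ^ 2 / (2 * u ^ 2 * (u - δ * k))) := by
    field_simp
    ring
  have h4 : (u - 2 * k) ^ 2 / (2 * u ^ 2 * (u - δ * k)) ≤ c := by
    rw [div_le_iff₀ (by positivity)]
    refine hq.trans (mul_le_mul_of_nonneg_left ?_ hc)
    exact mul_le_mul_of_nonneg_left (by linarith) (by positivity)
  have h5 : δ ^ 2 * ((u - 2 * k) ^ 2 / (2 * u ^ 2 * (u - δ * k))) ≤ δ * (5 * t0 * t) * c := by
    calc δ ^ 2 * ((u - 2 * k) ^ 2 / (2 * u ^ 2 * (u - δ * k))) ≤ δ ^ 2 * c :=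
          mul_le_mul_of_nonneg_left h4 (sq_nonneg _)
      _ = δ * δ * c := by ring
      _ ≤ δ * (5 * t0 * t) * c :=
          mul_le_mul_of_nonneg_right (mul_le_mul_of_nonneg_left h1 hδ0) hc
  rw [e]
  linarith

theorem RPair_of_tube {R1 R2 ε u1 u2 t0 c1 c2 P : ℝ} {T : TP} (h2 : 0 < R2) (h12 : R2 ≤ R1)
    (h3 : R1 ≤ 3 / 2) (e0 : 0 < ε) (e1 : ε ≤ t0 * π) (t7 : t0 ≤ 7 / 64) (hu1 : 0 < u1)
    (hu2 : 0 < u2) (hL : TubeL (Lz R1)) (hK : TubeL (Lz R2))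
    (hC : TubeCells (Lz R1) (Lz R2) (tal (Lz R1) (Lz R2) T.et u1) (u1 - (Lz R1).b0)
      (u2 - (Lz R2).b0) T)
    (hv : ValT (Lz R1) (Lz R2) R1 R2 u1 u2 t0 c1 c2 T)
    (hV : avgP T.H R1 R2 (π - ε) ≤ u2 * (R1 * R2) + P)
    (hG : T.et + P + (1 - cos ε) * (u2 * (R1 * R2) + 5 * t0 * (ε / π) * (c1 + c2)) ≤
      F0T R1 R2 u1 u2 + (1 - cos ε) * linT (Lz R1) (Lz R2) R1 R2 u1 u2) :
    RPair Fz g0z g1z g2z R1 R2 (π - ε) (cos (π - ε)) := by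
  have hR1 : 0 < R1 := h2.trans_le h12
  have hB1 := Lz_bounds hR1.le (by linarith : R1 < 3)
  have hB2 := Lz_bounds h2.le (by linarith : R2 < 3)
  have hk1 : 0 ≤ (Lz R1).b0 := by linarith [hB1.b0_lo]
  have hk2 : 0 ≤ (Lz R2).b0 := by linarith [hB2.b0_lo]
  have hπ := Real.pi_pos
  have hδ0 : 0 ≤ 1 - cos ε := by linarith [Real.cos_le_one ε]
  have ht0 : 0 < t0 := by
    by_contra h
    have : t0 * π ≤ 0 := mul_nonpos_of_nonpos_of_nonneg (not_lt.1 h) hπ.le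
    linarith
  have ht : 0 ≤ ε / π := by positivity
  have htle : ε / π ≤ t0 := by
    rw [div_le_iff₀ hπ]
    exact e1
  have hεt : ε = ε / π * π := by field_simp
  have hpi2 : π ^ 2 ≤ 10 := by nlinarith [Real.pi_lt_d2, Real.pi_pos]
  have hδ1 : 1 - cos ε ≤ 5 * t0 * (ε / π) := by
    have h3 := tt_f ε
    have h4 : ε ^ 2 / 2 = π ^ 2 / 2 * (ε / π) * (ε / π) := by
      field_simp
    have h5 : π ^ 2 / 2 * (ε / π) * (ε / π) ≤ 5 * t0 * (ε / π) := by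
      refine mul_le_mul_of_nonneg_right ?_ ht
      exact mul_le_mul (by linarith) htle ht (by norm_num)
    linarith
  have hδ2 : 5 * t0 * (ε / π) ≤ 5 * t0 ^ 2 := by
    have : 5 * t0 * (ε / π) ≤ 5 * t0 * t0 := mul_le_mul_of_nonneg_left htle (by positivity)
    linarith [this, sq t0]
  obtain ⟨hp1, hs1⟩ := last_TubeVal (q := 1 + R1 ^ 2) (c := c1) hδ0 hu1 hk1 hδ1 hδ2 hv.d1 hv.q1
    (by positivity)
  obtain ⟨hp2, hs2⟩ := last_TubeVal (q := 1 + R2 ^ 2) (c := c2) hδ0 hu2 hk2 hδ1 hδ2 hv.d2 hv.q2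
    (by positivity)
  have hcos : cos (π - ε) = -cos ε := Real.cos_pi_sub ε
  refine ⟨tal (Lz R1) (Lz R2) T.et u1, u1 - (1 - cos ε) * (Lz R1).b0,
    u2 - (1 - cos ε) * (Lz R2).b0, T.H, hp1, hp2, T.homBd, ?_, ?_⟩
  · have h3 := PW_of_tube hL hK hC
    rw [hcos, g1z_lt (by linarith : R1 < 3), g1z_lt (by linarith : R2 < 3)]
    have e3 : u1 - (1 - cos ε) * (Lz R1).b0 + -cos ε * (Lz R1).b0 = u1 - (Lz R1).b0 := by ring
    have e4 : u2 - (1 - cos ε) * (Lz R2).b0 + -cos ε * (Lz R2).b0 = u2 - (Lz R2).b0 := by ring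
    rw [e3, e4]
    exact h3
  · rw [hcos, g2z_lt (by linarith : R1 < 3), g2z_lt (by linarith : R2 < 3),
      g0z_lt (by linarith : R1 < 3), g0z_lt (by linarith : R2 < 3)]
    have e3 : (1 - 1 * -cos ε) = 2 - (1 - cos ε) := by ring
    rw [e3]
    unfold F0T linT at hG
    unfold tal
    set δ := 1 - cos ε with hδ
    have e4 : -cos ε = δ - 1 := by rw [hδ]; ring
    rw [e4]
    have e5 : 2 * δ * (u1 - (Lz R1).b0) / u1 ^ 2 = δ * (2 * (u1 - (Lz R1).b0) / u1 ^ 2) := by ring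
    have e6 : 2 * δ * (u2 - (Lz R2).b0) / u2 ^ 2 = δ * (2 * (u2 - (Lz R2).b0) / u2 ^ 2) := by ring
    rw [e5] at hs1
    rw [e6] at hs2
    nlinarith [hs1, hs2, hV, hG]

end Pool.Agent.RRS
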