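import Pool.Agent.RRS.TubeVal
import Pool.Agent.RRS.TubeIIa
import Pool.Agent.RRS.TubeIIb
import Pool.Agent.RRS.TubeIIc

/-!
# Package Tube-ValII: the pair inequality in the second region

`RPair_of_tube` with `u1 = u2 = u`, `hC` from `TubeII.ft, tf, tt, ff`, `hv = hV.V`, `t = ε / π ∈
  (0, t0]`,
`δ = 1 - cos ε ≥ 0`, and `TP.avg_le` with `m = 67/400 R1 ^ 2` (`T.n2 = K.nu ≥ 0`; `h1, h3 ≥ 0`
  from their
formulas, `T.et ≤ K.nu ≤ L.nu`): `P = - et R2 ^ 2 + t κ + δ (...)`, `κ = kaT T R1 R2`.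
(`ε ≤ t0 π ≤ (7/64) π ≤ 0.344`; `Real.pi_lt_d4`.)  What remains is

`0 ≤ F0T + et (R2 ^ 2 - 1) - t κ + δ Φ(t)`, `Φ(t) = PhiT L K T R1 R2 t0 (c1 + c2) t`.

`F0T ≥ 0`.  `Φ` is affine in `t` (unfold `PhiT`; `linarith`/`ring`), so `Φ(t) ≥ 0` and
`101 κ ^ 2 ≤ 1973 Φ(t) E`, `E = et (R2 ^ 2 - 1) ≥ 0` (convex combinations of `P0`, `P1` and `Q0`,
  `Q1`;
`t0 > 0`).  `δ ≥ ε ^ 2 / 2.02` (`tt_d`) `= π ^ 2 t ^ 2 / 2.02 ≥ 9.869 t ^ 2 / 2.02`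
  (`Real.pi_gt_d4`), so with
`a = 9.869 / 2.02`: `E - t κ + a t ^ 2 Φ ≥ 0` because `κ ^ 2 ≤ 4 a Φ E`: `4 a = 19.542 ≥ 1973 /
  101 = 19.534`.
(If `Φ = 0` or `E = 0` then `κ = 0`.  Uniform proof: `4 E (E - t κ + a t ^ 2 Φ) = (2 E - t κ) ^ 2
  + t ^ 2 (4 a
Φ E - κ ^ 2) ≥ 0` for `E > 0`; for `E = 0`: `κ = 0`.)

Difficulty: 0.8 h.
-/

set_option autoImplicit false

noncomputable section

namespace Pool.Agent.RRS

open Real MeasureTheory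

private theorem eps_TubeValII {ε t0 : ℝ} (e1 : ε ≤ t0 * π) (t7 : t0 ≤ 7 / 64) :
    ε ≤ 344 / 1000 := by
  have h1 := Real.pi_pos
  have h2 := Real.pi_lt_d4
  have h3 : t0 * π ≤ 7 / 64 * π := mul_le_mul_of_nonneg_right t7 h1.le
  linarith

/-- the quadratic inequality -/
private theorem quad_TubeValII {E κ t Φ a : ℝ} (hE : 0 ≤ E) (hΦ : 0 ≤ Φ)
    (hκ : 101 * κ ^ 2 ≤ 1973 * (Φ * E)) (ha : 1973 ≤ 404 * a) :
    0 ≤ E - t * κ + a * t ^ 2 * Φ := by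
  have h4 : κ ^ 2 ≤ 4 * a * (Φ * E) := by
    have := mul_le_mul_of_nonneg_right ha (mul_nonneg hΦ hE)
    nlinarith
  rcases hE.eq_or_lt with h0 | h0
  · have hk : κ = 0 := by
      rw [← h0] at h4
      nlinarith [sq_nonneg κ]
    rw [← h0, hk]
    have : 0 ≤ a * t ^ 2 * Φ := by
      have : 0 ≤ a := by linarith
      positivity
    linarith
  · have e : 4 * E * (E - t * κ + a * t ^ 2 * Φ) =
        (2 * E - t * κ) ^ 2 + t ^ 2 * (4 * a * (Φ * E) - κ ^ 2) := by ring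
    have h5 : 0 ≤ 4 * E * (E - t * κ + a * t ^ 2 * Φ) := by
      rw [e]
      have := mul_nonneg (sq_nonneg t) (sub_nonneg.2 h4)
      positivity
    exact nonneg_of_mul_nonneg_right h5 (by positivity)

theorem RPair_tubeII {R1 R2 ε u w t0 c1 c2 : ℝ} {T : TP} (h2 : 1 ≤ R2) (h12 : R2 ≤ R1)
    (h3 : R1 ≤ 3 / 2) (e0 : 0 < ε) (e1 : ε ≤ t0 * π) (t7 : t0 ≤ 7 / 64)
    (hI : TubeII (Lz R1) (Lz R2) u w T)
    (hV : ValII (Lz R1) (Lz R2) R1 R2 u t0 c1 c2 T) :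
    RPair Fz g0z g1z g2z R1 R2 (π - ε) (cos (π - ε)) := by
  have hpi := Real.pi_pos
  have e2 := eps_TubeValII e1 t7
  have hTu := hI.Tu
  have h20 : 0 < R2 := by linarith
  obtain ⟨t, ht⟩ : ∃ t : ℝ, t = ε / π := ⟨_, rfl⟩
  have t_pos : 0 < t := by rw [ht]; exact div_pos e0 hpi
  have t_le : t ≤ t0 := by rw [ht, div_le_iff₀ hpi]; exact e1
  have het : ε = t * π := by rw [ht, div_mul_cancel₀ _ hpi.ne']
  have t0_pos : 0 < t0 := lt_of_lt_of_le t_pos t_le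
  have hn2 : 0 ≤ (Lz R2).nu := hI.lK.nu
  have hetn : T.et ≤ (Lz R2).nu := by
    have h := hI.et
    nlinarith [mul_nonneg hI.et0 hI.r0]
  have hh1 : 0 ≤ T.h1 := by
    rw [hI.h1]
    have := hI.g1
    have := hI.w0
    linarith
  have hh3 : 0 ≤ T.h3 := by
    rw [hI.h3]
    have := hI.g2
    have := hI.w0
    have := hI.nn
    linarith
  have avg := TP.avg_le T (m := 67 / 400 * R1 ^ 2) h20 h12 e0 e2 hV.V.r (by rw [hTu]; exact hI.u0.le)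
    hI.mu0 hI.et0 (by rw [hI.n2]; exact hn2) hI.g1 hI.g2 hh1 hh3 hI.h4
    (by rw [hTu]; exact hV.V.P1) (by rw [hTu]; exact hV.V.P2) (Or.inl rfl)
  rw [← ht] at avg
  obtain ⟨P, hP⟩ : ∃ P : ℝ, P = -(T.et * R2 ^ 2) +
      t * (T.n2 * R2 ^ 2 + T.et * (R2 * (R1 - R2))) +
      (1 - cos ε) * (-(T.u * (R1 * R2)) + 2 / 3 * t * (T.u * (R1 * R2)) +
        (T.mu * R2 ^ 2 + T.et * R2 ^ 2) * (1 - 99 / 50 * t) +
        13 / 25 * t * (T.g1 * R1 ^ 2 + T.g2 * R2 ^ 2) +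
        4 / 3 * t * (T.et * R2 ^ 2) +
        (T.n2 * R2 ^ 2 + T.et * (R2 * (R1 - R2))) * (1 - t) / 2 +
        4 / 3 * t * (T.h1 * R1 ^ 2 + T.h3 * R2 ^ 2) +
        t * (T.h4 * (67 / 400 * R2 ^ 2 + 67 / 400 * R1 ^ 2))) := ⟨_, rfl⟩
  refine RPair_of_tube (u1 := u) (u2 := u) (c1 := c1) (c2 := c2) (T := T) (P := P) h20 h12 h3 e0 e1
    t7 hI.u0 hI.u0 hI.lL hI.lK
    ⟨fun X Y hX hY => hI.ft hX hY, fun X Y hX hY => hI.tf hX hY, fun X Y hX hY => hI.tt hX hY,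
      fun X Y hX hY => hI.ff hX hY⟩ hV.V ?_ ?_
  · rw [hP]
    rw [hTu] at avg ⊢
    linarith
  · rw [← ht]
    obtain ⟨κ, hκ⟩ : ∃ κ : ℝ, κ = kaT T R1 R2 := ⟨_, rfl⟩
    obtain ⟨Φ, hΦ⟩ : ∃ Φ : ℝ, Φ = PhiT (Lz R1) (Lz R2) T R1 R2 t0 (c1 + c2) t := ⟨_, rfl⟩
    obtain ⟨E, hE⟩ : ∃ E : ℝ, E = T.et * (R2 ^ 2 - 1) := ⟨_, rfl⟩
    have haff : t0 * Φ = (t0 - t) * PhiT (Lz R1) (Lz R2) T R1 R2 t0 (c1 + c2) 0 +
        t * PhiT (Lz R1) (Lz R2) T R1 R2 t0 (c1 + c2) t0 := by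
      rw [hΦ]
      unfold PhiT
      ring
    have hs : 0 ≤ t0 - t := sub_nonneg.2 t_le
    have Φ0 : 0 ≤ Φ := by
      have h := add_nonneg (mul_nonneg hs hV.P0) (mul_nonneg t_pos.le hV.P1)
      rw [← haff] at h
      exact nonneg_of_mul_nonneg_right h t0_pos
    have E0 : 0 ≤ E := by
      rw [hE]
      refine mul_nonneg hI.et0 ?_
      nlinarith
    have hq : 101 * κ ^ 2 ≤ 1973 * (Φ * E) := by
      have q0 := mul_le_mul_of_nonneg_left hV.Q0 hs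
      have q1 := mul_le_mul_of_nonneg_left hV.Q1 t_pos.le
      rw [← hκ, ← hE] at q0 q1
      have e : t0 * (101 * κ ^ 2) ≤ t0 * (1973 * (Φ * E)) := by
        have e' : t0 * (1973 * (Φ * E)) = 1973 * E * (t0 * Φ) := by ring
        rw [e', haff]
        linarith
      exact le_of_mul_le_mul_left e t0_pos
    have hd := tt_d e0 e2
    have hpi2 : (9869 / 1000 : ℝ) ≤ π ^ 2 := by
      have := Real.pi_gt_d4
      nlinarith
    have hδ : 9869 / 2020 * t ^ 2 ≤ 1 - cos ε := by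
      have h1 : 9869 / 1000 * t ^ 2 ≤ ε ^ 2 := by
        rw [het, mul_pow, mul_comm (t ^ 2)]
        exact mul_le_mul_of_nonneg_right hpi2 (sq_nonneg t)
      linarith
    have key := quad_TubeValII (t := t) (a := 9869 / 2020) E0 Φ0 hq (by norm_num)
    have key2 : 9869 / 2020 * t ^ 2 * Φ ≤ (1 - cos ε) * Φ := mul_le_mul_of_nonneg_right hδ Φ0
    have hF := hV.V.F0
    have id : F0T R1 R2 u u + (1 - cos ε) * linT (Lz R1) (Lz R2) R1 R2 u u - (T.et + P +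
        (1 - cos ε) * (u * (R1 * R2) + 5 * t0 * t * (c1 + c2))) =
        F0T R1 R2 u u + (E - t * κ + (1 - cos ε) * Φ) := by
      rw [hP, hE, hκ, hΦ]
      unfold PhiT bT kaT
      rw [hTu]
      ring
    linarith

end Pool.Agent.RRS
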