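import Pool.Agent.RRS.RayPi
import Pool.Agent.RRS.Theta0
import Pool.Agent.RRS.TailPW

/-!
# The zero type

One of the two points is the optimal location (`R_j = 0`): only the line `x = 0` has mass.
-/

set_option autoImplicit false

noncomputable section

namespace Pool.Agent.RRS

open Real MeasureTheory

open Classical in
/-- the multiplier: `η y²` on the line `x = 0`, a large constant off the line -/
def Hline (η C x y : ℝ) : ℝ := if x = 0 then η * y ^ 2 else C * (x ^ 2 + y ^ 2)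

theorem Hline_homBd (η : ℝ) {C : ℝ} (hC : 0 ≤ C) : HomBd (Hline η C) := by
  refine ⟨?_, ?_, |η| + C, ?_⟩
  · unfold Hline
    refine Measurable.ite ?_ (by fun_prop) (by fun_prop)
    have : Measurable fun q : ℝ × ℝ => q.1 := by fun_prop
    exact this (measurableSet_singleton 0)
  · intro c x y
    unfold Hline
    by_cases hc : c = 0
    · subst hc
      simp
    · have e : c * x = 0 ↔ x = 0 := by simp [hc]
      simp only [e]
      split_ifs <;> ring
  · intro x y
    unfold Hline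
    have h1 : 0 ≤ |η| := abs_nonneg η
    split_ifs
    · rw [abs_mul, abs_of_nonneg (sq_nonneg y)]
      nlinarith [mul_nonneg h1 (sq_nonneg x), mul_nonneg hC (sq_nonneg x),
        mul_nonneg hC (sq_nonneg y)]
    · rw [abs_of_nonneg (by positivity)]
      nlinarith [mul_nonneg h1 (sq_nonneg y), mul_nonneg h1 (sq_nonneg x)]

theorem avgP_Hline (η C b θ : ℝ) : avgP (Hline η C) 0 b θ = η * b ^ 2 := by
  have h : avgP (Hline η C) 0 b θ = avgP (fun _ y => η * y ^ 2) 0 b θ := by
    unfold avgP Hline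
    simp
  rw [h, avgP_const_mul, avgP_sq_right]

/-- the conditions on the line; `z0 = 103/100` is the value of the zero type -/
structure ZC (K : LF) (α γ η : ℝ) : Prop where
  p1 : Q01 (K.a1 - K.a0 - 103 / 100 + α) (K.a0 + γ) η
  p2 : Q1i (103 / 100 + K.zp + α) (K.a1 - K.zp + γ) η
  n1 : Q01 (103 / 100 + K.b1 - K.b0 + α) (K.b0 - γ) η
  n2 : Q1i (103 / 100 + K.zp + α) (K.b1 - K.zp - γ) η

theorem Lz_zero : Lz 0 = mkL 0 (103 / 100) (103 / 100) (206 / 100) (309 / 100) := by
  rw [Lz_one zero_le_one]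
  unfold Lp1
  norm_num

theorem ZC.pos {K : LF} {α γ η : ℝ} (h : ZC K α γ η) (hK : 0 ≤ K.a1) (β : ℝ) :
    PWat (Lz 0).F K.F α β γ 0 1 η := by
  have hc := PWat_of_cells (L := Lz 0) (K := K) (α := α) (β := β) (γ := γ) (X := 0) (Y := 1)
    (k := η) (sx := true) (sy := true) (by rw [Lz_zero]; unfold mkL; norm_num) hK le_rfl
    zero_le_one (Or.inl rfl) (Or.inl rfl) ?_
  · simpa [sg] using hc
  · intro ix iy m hm h1 h2
    cases ix <;> cases iy <;> simp only [inC, if_true, if_false, Bool.false_eq_true] at h1 h2 <;>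
      simp only [Qc, LF.p, LF.q, ef, sg, Bool.and_self, Lz_zero, mkL,
        Bool.and_false, if_true, if_false, Bool.false_eq_true, one_mul, mul_one]
    · have := h.p2.2 m h2
      linarith
    · have := h.p1 m hm h2
      linarith
    · have hm0 : m = 0 := le_antisymm h1 hm
      have := h.p1 0 le_rfl zero_le_one
      rw [hm0]
      linarith
    · have hm0 : m = 0 := le_antisymm h1 hm
      have := h.p1 0 le_rfl zero_le_one
      rw [hm0]
      linarith

theorem ZC.neg {K : LF} {α γ η : ℝ} (h : ZC K α γ η) (hK : 0 ≤ K.a1) (hz : K.zm = K.zp) (β : ℝ) :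
    PWat (Lz 0).F K.F α β γ 0 (-1) η := by
  have hc := PWat_of_cells (L := Lz 0) (K := K) (α := α) (β := β) (γ := γ) (X := 0) (Y := 1)
    (k := η) (sx := true) (sy := false) (by rw [Lz_zero]; unfold mkL; norm_num) hK le_rfl
    zero_le_one (Or.inl rfl) (Or.inr one_pos) ?_
  · simpa [sg] using hc
  · intro ix iy m hm h1 h2
    cases ix <;> cases iy <;> simp only [inC, if_true, if_false, Bool.false_eq_true] at h1 h2 <;>
      simp only [Qc, LF.p, LF.q, ef, sg, Bool.and_true, Lz_zero, mkL,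
        Bool.and_false, if_true, if_false, Bool.false_eq_true, mul_one, hz]
    · have := h.n2.2 m h2
      linarith
    · have := h.n1 m hm h2
      linarith
    · have hm0 : m = 0 := le_antisymm h1 hm
      have := h.p1 0 le_rfl zero_le_one
      rw [hm0]
      linarith
    · have hm0 : m = 0 := le_antisymm h1 hm
      have := h.p1 0 le_rfl zero_le_one
      rw [hm0]
      linarith

/-- the pair inequality of the zero type from the conditions on the line -/
theorem RPair_line {R θ c α u v η : ℝ} (hu : 0 < u) (hv : 0 < v) (hK : 0 ≤ (Lz R).a1)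
    (h : ZC (Lz R) α (v + c * g1z R) η) (hinf : 0 < α + 103 / 100 + (Lz R).zp)
    (hle : (1 - c) ^ 2 / (2 * u) + u / 2 + ((1 - g2z R * c) ^ 2 / (2 * v) + v * (1 + R ^ 2) / 2) +
      α + η * R ^ 2 ≤ √2 * R + c * (-(103 / 100) + g0z R)) :
    RPair Fz g0z g1z g2z 0 R θ c := by
  have hL : (Lz 0).zm = (Lz 0).zp := Lz_zm 0
  have hKz := Lz_zm R
  have ez : (Lz 0).zp = 103 / 100 := by rw [Lz_zero]; rfl
  obtain ⟨C, hC0, hC⟩ := PWat_large (α := α) (β := u + c * g1z 0) (γ := v + c * g1z R) hL hKz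
    (by rw [ez]; exact hinf)
  have hp := h.pos hK (u + c * g1z 0)
  have hn := h.neg hK hKz (u + c * g1z 0)
  refine ⟨α, u, v, Hline η C, hu, hv, Hline_homBd η hC0, ?_, ?_⟩
  · intro m x y s t hm s0 s1 t0 t1 a1 a2 a3 a4
    unfold Fz
    by_cases hx : x = 0
    · have eH : Hline η C x y = η * y ^ 2 := if_pos hx
      rw [eH]
      subst hx
      rcases lt_trichotomy y 0 with hy | hy | hy
      · have h3 := PWat.scale ((Lz 0).hom2) ((Lz R).hom2) hn (neg_pos.2 hy) m s t hm s0 s1 t0 t1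
          (by simpa using a1) (by simpa using a2) (by simpa using a3) (by simpa using a4)
        simp only [mul_zero, mul_neg, mul_one, neg_neg, neg_sq] at h3
        rw [mul_comm (y ^ 2) η] at h3
        exact h3
      · subst hy
        have h3 := hC 0 0 m s t hm s0 s1 t0 t1 a1 a2 a3 a4
        simpa using h3
      · have h3 := PWat.scale ((Lz 0).hom2) ((Lz R).hom2) hp hy m s t hm s0 s1 t0 t1
          (by simpa using a1) (by simpa using a2) (by simpa using a3) (by simpa using a4)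
        simp only [mul_zero, mul_one] at h3
        rw [mul_comm (y ^ 2) η] at h3
        exact h3
    · have eH : Hline η C x y = C * (x ^ 2 + y ^ 2) := if_neg hx
      rw [eH]
      exact hC x y m s t hm s0 s1 t0 t1 a1 a2 a3 a4
  · rw [avgP_Hline, g2z_lt (by norm_num : (0 : ℝ) < 3), g0z_lt (by norm_num : (0 : ℝ) < 3), Lz_zero]
    unfold mkL
    dsimp only
    have e1 : (1 - 1 * c) = 1 - c := by ring
    rw [e1]
    have e2 : u * (1 + 0 ^ 2) / 2 = u / 2 := by ring
    rw [e2]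
    linarith

theorem Q01.comb {a b k a' b' k' l : ℝ} (h : Q01 a b k) (h' : Q01 a' b' k') (l0 : 0 ≤ l)
    (l1 : l ≤ 1) : Q01 ((1 - l) * a + l * a') ((1 - l) * b + l * b') ((1 - l) * k + l * k') := by
  intro r r0 r1
  have e1 := mul_nonneg (sub_nonneg.2 l1) (h r r0 r1)
  have e2 := mul_nonneg l0 (h' r r0 r1)
  linarith

theorem Q1i.comb {a b k a' b' k' l : ℝ} (h : Q1i a b k) (h' : Q1i a' b' k') (l0 : 0 ≤ l)
    (l1 : l ≤ 1) : Q1i ((1 - l) * a + l * a') ((1 - l) * b + l * b') ((1 - l) * k + l * k') := by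
  refine ⟨?_, fun r hr => ?_⟩
  · have e1 := mul_nonneg (sub_nonneg.2 l1) h.1
    have e2 := mul_nonneg l0 h'.1
    linarith
  · have e1 := mul_nonneg (sub_nonneg.2 l1) (h.2 r hr)
    have e2 := mul_nonneg l0 (h'.2 r hr)
    linarith

theorem ZC.comb {K : LF} {α γ η α' γ' η' l : ℝ} (h : ZC K α γ η) (h' : ZC K α' γ' η')
    (l0 : 0 ≤ l) (l1 : l ≤ 1) :
    ZC K ((1 - l) * α + l * α') ((1 - l) * γ + l * γ') ((1 - l) * η + l * η') := by
  refine ⟨?_, ?_, ?_, ?_⟩
  · have := h.p1.comb h'.p1 l0 l1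
    convert this using 1 <;> ring
  · have := h.p2.comb h'.p2 l0 l1
    convert this using 1 <;> ring
  · have := h.n1.comb h'.n1 l0 l1
    convert this using 1 <;> ring
  · have := h.n2.comb h'.n2 l0 l1
    convert this using 1 <;> ring

/-- the certificate at `c = 1` -/
theorem ZC_one {K : LF} (hK : Bz K) : ZC K (K.a1 - K.b0 - 103 / 100) K.b0 0 := by
  obtain ⟨k1, k2, k3, k4, k5, k6, k7, k8, k9, k10, k11, k12, k13, k14, k15⟩ := hK
  refine ⟨fun r r0 r1 => ?_, ⟨by linarith, fun r hr => ?_⟩, fun r r0 r1 => ?_,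
    ⟨by linarith, fun r hr => ?_⟩⟩
  · have e : (K.a1 - K.a0 - 103 / 100 + (K.a1 - K.b0 - 103 / 100)) * r ^ 2 + (K.a0 + K.b0) * r + 0 =
        (K.a0 + K.b0) * (r * (1 - r)) + 2 * (K.a1 - 103 / 100) * r ^ 2 := by ring
    rw [e]
    have a1 : 0 ≤ K.a0 + K.b0 := by linarith
    have a2 : 0 ≤ K.a1 - 103 / 100 := by linarith
    have := mul_nonneg a1 (mul_nonneg r0 (sub_nonneg.2 r1))
    have := mul_nonneg a2 (sq_nonneg r)
    linarith
  · have e : (103 / 100 + K.zp + (K.a1 - K.b0 - 103 / 100)) * r ^ 2 + (K.a1 - K.zp + K.b0) * r + 0 =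
        (K.zp + K.a1 - K.b0) * (r * (r - 1)) + 2 * K.a1 * r := by ring
    rw [e]
    have a1 := mul_nonneg k10 (mul_nonneg (zero_le_one.trans hr) (sub_nonneg.2 hr))
    have a2 : 0 ≤ K.a1 * r := mul_nonneg (by linarith) (by linarith)
    linarith
  · have e : (103 / 100 + K.b1 - K.b0 + (K.a1 - K.b0 - 103 / 100)) * r ^ 2 + (K.b0 - K.b0) * r + 0 =
        (K.a1 + K.b1 - 2 * K.b0) * r ^ 2 := by ring
    rw [e]
    exact mul_nonneg k11 (sq_nonneg r)
  · have e : (103 / 100 + K.zp + (K.a1 - K.b0 - 103 / 100)) * r ^ 2 + (K.b1 - K.zp - K.b0) * r + 0 =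
        (K.zp + K.a1 - K.b0) * (r * (r - 1)) + (K.a1 + K.b1 - 2 * K.b0) * r := by ring
    rw [e]
    have a1 := mul_nonneg k10 (mul_nonneg (zero_le_one.trans hr) (sub_nonneg.2 hr))
    have a2 := mul_nonneg k11 (zero_le_one.trans hr)
    linarith

/-- the zero type from a certificate at `c = -1` -/
theorem zero_of_cert {R θ c V a h : ℝ} (hR : 0 ≤ R) (hR3 : R < 3) (hc : -1 ≤ c) (hc1 : c < 1)
    (hV : 0 < V)
    (hZ : ZC (Lz R) (-((Lz R).a1 - (Lz R).b0 - 103 / 100) + 2 * a) (2 * V - (Lz R).b0) (2 * h))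
    (hinf : 0 < 103 / 50 + (Lz R).zp + (Lz R).b0 - (Lz R).a1 + 2 * a)
    (hS : 1 + 1 / (2 * V) + V * (1 + R ^ 2) / 2 + a + h * R ^ 2 ≤ √2 * R) :
    RPair Fz g0z g1z g2z 0 R θ c := by
  have hB := Lz_bounds hR hR3
  have hZ1 := ZC_one hB
  have hw : 0 < 1 - c := by linarith
  have key := hZ1.comb hZ (l := (1 - c) / 2) (by linarith) (by linarith)
  refine RPair_line (u := 1 - c) (v := (1 - c) * V) (η := (1 - c) * h)
    (α := c * ((Lz R).a1 - (Lz R).b0 - 103 / 100) + (1 - c) * a) hw (mul_pos hw hV)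
    (by linarith [hB.a1_lo]) ?_ ?_ ?_
  · rw [g1z_lt hR3]
    convert key using 1 <;> ring
  · have h1 := hB.nu
    have h2 := mul_nonneg (by linarith : (0 : ℝ) ≤ (1 + c) / 2) h1
    have h3 := mul_pos (by linarith : (0 : ℝ) < (1 - c) / 2) hinf
    linarith
  · rw [g2z_lt hR3, g0z_lt hR3]
    have e1 : (1 - c) ^ 2 / (2 * (1 - c)) = (1 - c) / 2 := by
      field_simp
    have e2 : (1 - 1 * c) ^ 2 / (2 * ((1 - c) * V)) = (1 - c) * (1 / (2 * V)) := by
      have : (1 : ℝ) - c ≠ 0 := hw.ne'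
      field_simp
    rw [e1, e2]
    have := mul_le_mul_of_nonneg_left hS hw.le
    linarith

end Pool.Agent.RRS
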